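import Mathlib

namespace Pool.Agent.H50.Acm

def P (T : AddSubmonoid ℕ) (f : ℕ) : Prop := f ∉ T ∧ ∀ s ∈ T, s ≠ 0 → f + s ∈ T

structure Ctx (T : AddSubmonoid ℕ) (F e : ℕ) : Prop where
  big : ∀ z, F < z → z ∈ T
  pF : P T F
  pe : P T e
  mn : ∀ f, P T f → e ≤ f

def D (F e : ℕ) : ℕ := 12 * F + 13 - e

def U (T : AddSubmonoid ℕ) (F e y : ℕ) : Prop :=
  y = 0 ∨ y = 4 * F + 4 ∨
    (D F e ≤ y + (6 * F + 6) ∧ ¬ P T (D F e - y) ∧ ¬ P T (D F e - (4 * F + 4) - y))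

def S (T : AddSubmonoid ℕ) (F e x y : ℕ) : Prop := x ∈ T ∧ U T F e y ∧ D F e ∣ x + y

def N (T : AddSubmonoid ℕ) (F e x y : ℕ) : Prop :=
  (D F e ≤ x ∧ x - D F e ∈ T) ∨ (D F e ≤ y ∧ U T F e (y - D F e))

variable {T : AddSubmonoid ℕ} {F e : ℕ} (c : Ctx T F e)
include c

lemma Ctx.gap {g : ℕ} (h : g ∉ T) : 1 ≤ g ∧ g ≤ F :=
  ⟨Nat.pos_of_ne_zero fun h0 => h (h0 ▸ T.zero_mem), not_lt.1 fun h1 => h (c.big _ h1)⟩

lemma Ctx.pb {f : ℕ} (h : P T f) : e ≤ f ∧ f ≤ F := ⟨c.mn f h, (c.gap h.1).2⟩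

lemma Ctx.eb : 1 ≤ e ∧ e ≤ F ∧ D F e + e = 12 * F + 13 := by
  have := c.gap c.pe.1
  unfold D; omega

lemma Ctx.np {f : ℕ} (h : f < e ∨ F < f) : ¬ P T f := fun h1 => by
  have := c.pb h1; omega

lemma Ctx.Ubig {y : ℕ} (h : D F e ≤ y) : U T F e y := by
  have := c.eb
  exact .inr (.inr ⟨by omega, c.np (by omega), c.np (by omega)⟩)

lemma Ctx.Uadd {y z : ℕ} (hy : U T F e y) (hz : U T F e z) : U T F e (y + z) := by
  have := c.eb
  rcases hy with rfl | rfl | ⟨a1, a2, a3⟩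
  · rwa [zero_add]
  · rcases hz with rfl | rfl | ⟨b1, b2, b3⟩
    · exact .inr (.inl rfl)
    · exact .inr (.inr ⟨by omega, c.np (by omega), c.np (by omega)⟩)
    · exact .inr (.inr ⟨by omega, by rwa [← Nat.sub_sub], c.np (by omega)⟩)
  · rcases hz with rfl | rfl | ⟨b1, b2, b3⟩
    · exact .inr (.inr ⟨a1, a2, a3⟩)
    · exact .inr (.inr ⟨by omega, by rwa [add_comm, ← Nat.sub_sub], c.np (by omega)⟩)
    · exact .inr (.inr ⟨by omega, c.np (by omega), c.np (by omega)⟩)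

lemma Ctx.good {z : ℕ} (h1 : z ∈ T) (h2 : z ≤ 6 * F + 6) (h3 : ¬ P T (z - (4 * F + 4))) :
    U T F e (D F e - z) := by
  have := c.eb
  refine .inr (.inr ⟨by omega, ?_, ?_⟩)
  · rw [show D F e - (D F e - z) = z by omega]; exact fun h => h.1 h1
  · rwa [show D F e - (4 * F + 4) - (D F e - z) = z - (4 * F + 4) by omega]

lemma Ctx.notU {x : ℕ} (h1 : x ≤ D F e) (h : ¬ U T F e (D F e - x)) :
    D F e - x ≠ 4 * F + 4 ∧ (6 * F + 6 < x ∨ P T x ∨ P T (x - (4 * F + 4))) := by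
  have := c.eb
  refine ⟨fun h2 => h (.inr (.inl h2)), ?_⟩
  by_contra h2
  push Not at h2
  refine h (.inr (.inr ⟨by omega, ?_, ?_⟩))
  · rw [show D F e - (D F e - x) = x by omega]; exact h2.2.1
  · rw [show D F e - (4 * F + 4) - (D F e - x) = x - (4 * F + 4) by omega]; exact h2.2.2

lemma Ctx.cases {x y : ℕ} (h : S T F e x y) (hn : ¬ N T F e x y) :
    x ≤ D F e + F ∧ y < 2 * D F e ∧
      (x + y = 0 ∨ x + y = D F e ∨ x + y = 2 * D F e ∨ x + y = 3 * D F e) := by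
  have := c.eb
  have h1 : x ≤ D F e + F := not_lt.1 fun h1 => hn (.inl ⟨by omega, c.big _ (by omega)⟩)
  have h2 : y < 2 * D F e := not_le.1 fun h2 => hn (.inr ⟨by omega, c.Ubig (by omega)⟩)
  obtain ⟨k, hk⟩ := h.2.2
  have : k < 4 := by
    by_contra h4
    have := Nat.mul_le_mul_left (D F e) (not_lt.1 h4)
    omega
  refine ⟨h1, h2, ?_⟩
  interval_cases k <;> omega

lemma Ctx.dec {x y : ℕ} (h : S T F e x y) (h0 : x + y ≠ 0) :
    ∃ a b x' y', a + b = D F e ∧ a ∈ T ∧ U T F e b ∧ x = a + x' ∧ y = b + y' ∧ x' ∈ T ∧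
      U T F e y' := by
  have := c.eb
  by_cases hn : N T F e x y
  · rcases hn with ⟨h1, h2⟩ | ⟨h1, h2⟩
    · exact ⟨D F e, 0, _, y, rfl, c.big _ (by omega), .inl rfl, by omega, by omega, h2, h.2.1⟩
    · exact ⟨0, D F e, x, _, by omega, T.zero_mem, c.Ubig le_rfl, by omega, by omega, h.1, h2⟩
  obtain ⟨h1, h2, h3⟩ := c.cases h hn
  by_cases h4 : x + y = D F e
  · exact ⟨x, y, 0, 0, h4, h.1, h.2.1, rfl, rfl, T.zero_mem, .inl rfl⟩
  by_cases h5 : D F e ≤ x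
  · refine ⟨D F e - (4 * F + 4), 4 * F + 4, x - D F e + (4 * F + 4), y - (4 * F + 4), by omega,
      c.big _ (by omega), .inr (.inl rfl), by omega, by omega, c.big _ (by omega), ?_⟩
    by_cases h6 : x + y = 2 * D F e
    · rcases h.2.1 with h7 | h7 | ⟨-, h7, -⟩
      · omega
      · omega
      · refine .inr (.inr ⟨by omega, c.np (by omega), ?_⟩)
        rwa [show D F e - (4 * F + 4) - (y - (4 * F + 4)) = D F e - y by omega]
    · exact c.Ubig (by omega)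
  have h6 : ¬ U T F e (D F e - x) := fun h6 =>
    hn (.inr ⟨by omega, by rwa [show y - D F e = D F e - x by omega]⟩)
  have key : ∀ a b, a + b = x → a ∈ T → b ∈ T → a ≤ 6 * F + 6 → b ≤ 6 * F + 6 →
      ¬ P T (a - (4 * F + 4)) → ¬ P T (b - (4 * F + 4)) →
      ∃ a b x' y', a + b = D F e ∧ a ∈ T ∧ U T F e b ∧ x = a + x' ∧ y = b + y' ∧ x' ∈ T ∧
        U T F e y' := fun a b e1 e2 e3 e4 e5 e6 e7 =>
    ⟨a, D F e - a, b, D F e - b, by omega, e2, c.good e2 e4 e6, e1.symm, by omega, e3,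
      c.good e3 e5 e7⟩
  rcases (c.notU (by omega) h6).2 with h7 | h7 | h7
  · by_cases h8 : x - (6 * F + 6) ≤ F ∨
        (4 * F + 4 < x - (6 * F + 6) ∧ x - (6 * F + 6) ≤ 5 * F + 4)
    · exact key (5 * F + 5) (x - (5 * F + 5)) (by omega) (c.big _ (by omega)) (c.big _ (by omega))
        (by omega) (by omega) (c.np (by omega)) (c.np (by omega))
    · exact key (6 * F + 6) (x - (6 * F + 6)) (by omega) (c.big _ (by omega)) (c.big _ (by omega))
        (by omega) (by omega) (c.np (by omega)) (c.np (by omega))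
  · exact (h7.1 h.1).elim
  · have := c.pb h7
    exact key (F + 1) (x - (F + 1)) (by omega) (c.big _ (by omega)) (c.big _ (by omega))
      (by omega) (by omega) (c.np (by omega)) (c.np (by omega))

lemma Ctx.toP {g : ℕ} (h : g ∉ T) : ∃ s ∈ T, P T (g + s) := by
  induction hk : F - g using Nat.strong_induction_on generalizing g with
  | _ k ih =>
    by_cases h1 : P T g
    · exact ⟨0, T.zero_mem, h1⟩
    · simp only [P, h, not_false_eq_true, true_and, not_forall] at h1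
      obtain ⟨s, hs, h0, h2⟩ := h1
      have := c.gap h2
      obtain ⟨s', h3, h4⟩ := ih _ (by omega) h2 rfl
      exact ⟨s + s', T.add_mem hs h3, by rwa [← add_assoc]⟩

lemma Ctx.top {f : ℕ} (h : P T f) :
    S T F e (D F e + f) (2 * D F e - f) ∧ ¬ N T F e (D F e + f) (2 * D F e - f) := by
  have := c.eb
  have := c.pb h
  refine ⟨⟨c.big _ (by omega), c.Ubig (by omega), ⟨3, by omega⟩⟩, ?_⟩
  rintro (⟨-, h1⟩ | ⟨-, h1 | h1 | ⟨-, h1, -⟩⟩)
  · rw [Nat.add_sub_cancel_left] at h1; exact h.1 h1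
  · omega
  · omega
  · rw [show D F e - (2 * D F e - f - D F e) = f by omega] at h1; exact h1 h

lemma Ctx.up {x y : ℕ} (h : S T F e x y) (hn : ¬ N T F e x y) :
    ∃ f x' y', P T f ∧ S T F e x' y' ∧ x + x' = D F e + f ∧ y + y' = 2 * D F e - f := by
  have := c.eb
  obtain ⟨h1, h2, h3 | h3 | h3 | h3⟩ := c.cases h hn
  · exact ⟨F, _, _, c.pF, (c.top c.pF).1, by omega, by omega⟩
  · have h4 : x ≠ 0 := fun h4 => hn (.inr ⟨by omega, .inl (by omega)⟩)
    have h5 : y ≠ 0 := fun h5 =>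
      hn (.inl ⟨by omega, by rw [show x - D F e = 0 by omega]; exact T.zero_mem⟩)
    refine ⟨F, D F e + F - x, D F e - F + x, c.pF, ⟨c.big _ (by omega), .inr (.inr
      ⟨by omega, fun h6 => ?_, c.np (by omega)⟩), ⟨2, by omega⟩⟩, by omega, by omega⟩
    have h7 := c.pb h6
    have h8 := h6.2 x h.1 h4
    rw [show D F e - (D F e - F + x) + x = F by omega] at h8
    exact c.pF.1 h8
  · have key : ∀ f z, P T f → x + z = D F e + f → z ∈ T → z ≤ 6 * F + 6 →
        ¬ P T (z - (4 * F + 4)) →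
        ∃ f x' y', P T f ∧ S T F e x' y' ∧ x + x' = D F e + f ∧ y + y' = 2 * D F e - f :=
      fun f z e1 e2 e3 e4 e5 =>
        ⟨f, z, D F e - z, e1, ⟨e3, c.good e3 e4 e5, ⟨1, by omega⟩⟩, e2, by omega⟩
    by_cases h5 : D F e ≤ x
    · have h6 : x - D F e ∉ T := fun h6 => hn (.inl ⟨h5, h6⟩)
      obtain ⟨s, hs, h7⟩ := c.toP h6
      have := c.pb h7
      exact key _ s h7 (by omega) hs (by omega) (c.np (by omega))
    have h6 : ¬ U T F e (D F e - x) := fun h6 =>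
      hn (.inr ⟨by omega, by rwa [show y - D F e = D F e - x by omega]⟩)
    obtain ⟨h7, h8 | h8 | h8⟩ := c.notU (by omega) h6
    · by_cases h9 : D F e - x ≤ F ∨ P T (e + (D F e - x) - (4 * F + 4))
      · have : D F e - x ≤ F ∨ (4 * F + 4 < D F e - x ∧ D F e - x ≤ 5 * F + 4) :=
          h9.imp id fun h9 => by have := c.pb h9; omega
        exact key F (F + (D F e - x)) c.pF (by omega) (c.big _ (by omega)) (by omega)
          (c.np (by omega))
      · push Not at h9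
        exact key e (e + (D F e - x)) c.pe (by omega) (c.big _ (by omega)) (by omega) h9.2
    · exact (h8.1 h.1).elim
    · have := c.pb h8
      exact ⟨_, D F e - (4 * F + 4), 4 * F + 4, h8,
        ⟨c.big _ (by omega), .inr (.inl rfl), ⟨1, by omega⟩⟩, by omega, by omega⟩
  · have h6 : ¬ U T F e (D F e - (x - D F e)) := fun h6 =>
      hn (.inr ⟨by omega, by rwa [show y - D F e = D F e - (x - D F e) by omega]⟩)
    obtain ⟨-, h8 | h8 | h8⟩ := c.notU (by omega) h6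
    · omega
    · exact ⟨_, 0, 0, h8, ⟨T.zero_mem, .inl rfl, by simp⟩, by omega, by omega⟩
    · have := c.pb h8; omega

lemma Ctx.Nadd {x y x' y' : ℕ} (h : N T F e x y) (h1 : x' ∈ T) (h2 : U T F e y') :
    N T F e (x + x') (y + y') := by
  rcases h with ⟨h3, h4⟩ | ⟨h3, h4⟩
  · exact .inl ⟨by omega, by rw [Nat.sub_add_comm h3]; exact T.add_mem h4 h1⟩
  · exact .inr ⟨by omega, by rw [Nat.sub_add_comm h3]; exact c.Uadd h4 h2⟩

lemma Ctx.mx {x y : ℕ} (h : S T F e x y) (hn : ¬ N T F e x y)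
    (hm : ∀ a b, a + b = D F e → a ∈ T → U T F e b → N T F e (x + a) (y + b)) :
    ∃ f, P T f ∧ x = D F e + f ∧ y = 2 * D F e - f := by
  obtain ⟨f, x', y', h1, h2, h3, h4⟩ := c.up h hn
  by_cases h0 : x' + y' = 0
  · exact ⟨f, h1, by omega, by omega⟩
  obtain ⟨a, b, x'', y'', e1, e2, e3, rfl, rfl, e4, e5⟩ := c.dec h2 h0
  have := c.Nadd (hm a b e1 e2 e3) e4 e5
  rw [add_assoc, add_assoc, h3, h4] at this
  exact ((c.top h1).2 this).elim

lemma Ctx.kill {f a b : ℕ} (h : P T f) (e1 : a + b = D F e) (e2 : a ∈ T) :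
    N T F e (D F e + f + a) (2 * D F e - f + b) := by
  have := c.eb
  have := c.pb h
  by_cases h0 : a = 0
  · exact .inr ⟨by omega, c.Ubig (by omega)⟩
  · exact .inl ⟨by omega, by rw [add_assoc, Nat.add_sub_cancel_left]; exact h.2 a e2 h0⟩

omit c in
lemma exists_ctx (hT : (T : Set ℕ)ᶜ.Finite) (h : (T : Set ℕ)ᶜ.Nonempty) : ∃ F e, Ctx T F e := by
  classical
  obtain ⟨F, h1, h2⟩ := Set.exists_max_image _ id hT h
  have big : ∀ z, F < z → z ∈ T := fun z hz => by_contra fun h3 => not_le.2 hz (h2 z h3)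
  have pF : P T F := ⟨h1, fun s _ h0 => big _ (by omega)⟩
  have : ∃ f, P T f := ⟨F, pF⟩
  exact ⟨F, Nat.find this, big, pF, Nat.find_spec this, fun f hf => Nat.find_min' this hf⟩

end Pool.Agent.H50.Acm
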