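import Mathlib
import Pool.Agent.H50.Acm1

namespace Pool.Agent.H50.Acm

open MvPolynomial

noncomputable def ex (x y : ℕ) : Fin 2 →₀ ℕ := Finsupp.single 0 x + Finsupp.single 1 y

@[simp] lemma ex0 (x y : ℕ) : ex x y 0 = x := by simp [ex]
@[simp] lemma ex1 (x y : ℕ) : ex x y 1 = y := by simp [ex]
lemma ex_eta (m : Fin 2 →₀ ℕ) : ex (m 0) (m 1) = m := by
  ext i; fin_cases i <;> simp
lemma ex_add (x y a b : ℕ) : ex (x + a) (y + b) = ex x y + ex a b := by
  ext i; fin_cases i <;> simp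

variable {k : Type} [Field k]

lemma mono_eq (x y : ℕ) :
    (X 0 ^ x * X 1 ^ y : MvPolynomial (Fin 2) k) = monomial (ex x y) 1 := by
  rw [X_pow_eq_monomial, X_pow_eq_monomial, monomial_mul, one_mul, ex]

lemma supp_mono {m m' : Fin 2 →₀ ℕ} {r : k} (h : m ∈ (monomial m' r).support) : m = m' := by
  classical
  by_contra h1
  simp [coeff_monomial, Ne.symm h1] at h

lemma supp_mul {p q : MvPolynomial (Fin 2) k} {m : Fin 2 →₀ ℕ} (h : m ∈ (p * q).support) :
    ∃ a ∈ p.support, ∃ b ∈ q.support, a + b = m := by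
  classical
  exact Finset.mem_add.1 (support_mul p q h)

lemma supp_add {p q : MvPolynomial (Fin 2) k} {m : Fin 2 →₀ ℕ} (h : m ∈ (p + q).support) :
    m ∈ p.support ∨ m ∈ q.support := by
  classical
  exact Finset.mem_union.1 (support_add h)

variable {T : AddSubmonoid ℕ} {F e : ℕ} (c : Ctx T F e)
include c

lemma Ctx.Sadd {x y a b : ℕ} (h : S T F e x y) (h1 : S T F e a b) : S T F e (x + a) (y + b) :=
  ⟨T.add_mem h.1 h1.1, c.Uadd h.2.1 h1.2.1, by rw [add_add_add_comm]; exact dvd_add h.2.2 h1.2.2⟩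

lemma Ctx.ind {Q : ℕ → ℕ → Prop} (h0 : Q 0 0)
    (h1 : ∀ a b x y, a + b = D F e → a ∈ T → U T F e b → Q x y → Q (a + x) (b + y))
    {x y : ℕ} (h : S T F e x y) : Q x y := by
  induction hn : x + y using Nat.strong_induction_on generalizing x y with
  | _ n ih =>
    by_cases h2 : x + y = 0
    · obtain ⟨rfl, rfl⟩ : x = 0 ∧ y = 0 := by omega
      exact h0
    obtain ⟨a, b, x', y', e1, e2, e3, rfl, rfl, e4, e5⟩ := c.dec h h2
    have := c.eb
    refine h1 _ _ _ _ e1 e2 e3 (ih _ (by omega) ⟨e4, e5, ?_⟩ rfl)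
    have h3 := h.2.2
    rw [add_add_add_comm, e1] at h3
    exact (Nat.dvd_add_right (dvd_refl _)).1 h3

lemma Ctx.adj {G : Set (MvPolynomial (Fin 2) k)}
    (hG : ∀ g, g ∈ G ↔ ∃ a b, a + b = D F e ∧ a ∈ T ∧ U T F e b ∧ g = monomial (ex a b) 1)
    (p : MvPolynomial (Fin 2) k) :
    p ∈ Algebra.adjoin k G ↔ ∀ m ∈ p.support, S T F e (m 0) (m 1) := by
  refine ⟨fun h => ?_, fun h => ?_⟩
  · induction h using Algebra.adjoin_induction with
    | mem g hg =>
      obtain ⟨a, b, e1, e2, e3, rfl⟩ := (hG g).1 hg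
      intro m hm
      rw [supp_mono hm, ex0, ex1]
      exact ⟨e2, e3, e1 ▸ dvd_refl _⟩
    | algebraMap r =>
      intro m hm
      rw [supp_mono (m' := 0) hm]
      exact ⟨T.zero_mem, .inl rfl, by simp⟩
    | add p q _ _ hp hq => exact fun m hm => (supp_add hm).elim (hp m) (hq m)
    | mul p q _ _ hp hq =>
      intro m hm
      obtain ⟨a, ha, b, hb, rfl⟩ := supp_mul hm
      exact c.Sadd (hp a ha) (hq b hb)
  · rw [p.as_sum]
    refine Subalgebra.sum_mem _ fun m hm => ?_
    have : monomial (ex (m 0) (m 1)) (1 : k) ∈ Algebra.adjoin k G := by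
      refine c.ind (Q := fun x y => monomial (ex x y) (1 : k) ∈ Algebra.adjoin k G) ?_ ?_ (h m hm)
      · simp [ex]
      · intro a b x y e1 e2 e3 h
        have := Subalgebra.mul_mem _ (Algebra.subset_adjoin ((hG _).2 ⟨a, b, e1, e2, e3, rfl⟩)) h
        rwa [monomial_mul, one_mul, ← ex_add] at this
    have := Subalgebra.smul_mem _ this (coeff m p)
    rwa [ex_eta, smul_monomial, smul_eq_mul, mul_one] at this

variable {B : Subalgebra k (MvPolynomial (Fin 2) k)}
  (hB : ∀ p, p ∈ B ↔ ∀ m ∈ p.support, S T F e (m 0) (m 1))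
include hB

omit c in
lemma memI {G : Set B} {Q : ℕ → ℕ → Prop}
    (hG : ∀ g ∈ G, ∃ x y, g.1 = monomial (ex x y) 1 ∧ Q x y)
    (hQ : ∀ x y x' y', Q x y → S T F e x' y' → Q (x' + x) (y' + y))
    (hd : ∀ x y, S T F e x y → Q x y → ∃ g ∈ G, ∃ a b x' y', g.1 = monomial (ex a b) 1 ∧
      S T F e x' y' ∧ x = x' + a ∧ y = y' + b) (z : B) :
    z ∈ Ideal.span G ↔ ∀ m ∈ z.1.support, Q (m 0) (m 1) := by
  refine ⟨fun h => ?_, fun h => ?_⟩
  · induction h using Submodule.span_induction with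
    | mem g hg =>
      obtain ⟨a, b, e1, e2⟩ := hG g hg
      intro m hm
      rw [e1] at hm
      rwa [supp_mono hm, ex0, ex1]
    | zero => simp
    | add p q _ _ hp hq => exact fun m hm => (supp_add hm).elim (hp m) (hq m)
    | smul p q _ hq =>
      intro m hm
      obtain ⟨a, ha, b, hb, rfl⟩ := supp_mul hm
      exact hQ _ _ _ _ (hq b hb) ((hB _).1 p.2 a ha)
  · have : z.1 ∈ (Ideal.span G).toAddSubmonoid.map B.val.toRingHom.toAddMonoidHom := by
      rw [z.1.as_sum]
      refine AddSubmonoid.sum_mem _ fun m hm => ?_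
      obtain ⟨g, hg, a, b, x', y', e1, e2, e3, e4⟩ := hd _ _ ((hB _).1 z.2 m hm) (h m hm)
      refine ⟨⟨monomial (ex x' y') (coeff m z.1), (hB _).2 fun m' hm' => by
        rwa [supp_mono hm', ex0, ex1]⟩ * g, Ideal.mul_mem_left _ _ (Ideal.subset_span hg), ?_⟩
      change monomial (ex x' y') (coeff m z.1) * g.1 = _
      rw [e1, monomial_mul, mul_one, ← ex_add, ← e3, ← e4, ex_eta]
    obtain ⟨w, h1, h2⟩ := this
    rwa [← show w = z from Subtype.ext h2]

lemma Ctx.soc {ι : Type} (x : ι → B) (I : Ideal B)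
    (hI : ∀ z, z ∈ I ↔ ∀ m ∈ z.1.support, N T F e (m 0) (m 1))
    (hx : ∀ i, ∃ a b, a + b = D F e ∧ a ∈ T ∧ (x i).1 = monomial (ex a b) 1)
    (hx' : ∀ a b, a + b = D F e → a ∈ T → U T F e b → ∃ i, (x i).1 = monomial (ex a b) 1) :
    Module.finrank k (⨅ i, LinearMap.ker (LinearMap.mulLeft k (Ideal.Quotient.mk I (x i))) :
      Submodule k (B ⧸ I)) = {f | P T f}.ncard := by
  classical
  have hfin : {f | P T f}.Finite := (Set.finite_le_nat F).subset fun f hf => (c.pb hf).2
  let := hfin.fintype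
  let E : {f | P T f} → Fin 2 →₀ ℕ := fun f => ex (D F e + f) (2 * D F e - f)
  have hE : Function.Injective E := fun f g h => Subtype.ext <| by
    simpa [E] using DFunLike.congr_fun h 0
  let w : {f | P T f} → B := fun f => ⟨monomial (E f) 1, (hB _).2 fun m hm => by
    rw [supp_mono hm, ex0, ex1]; exact (c.top f.2).1⟩
  let π := Ideal.Quotient.mkₐ k I
  let Ψ := Fintype.linearCombination k fun f => π (w f)
  have h1 : ∀ r, Ψ r = π (∑ f, r f • w f) := fun r => by
    simp [Ψ, Fintype.linearCombination_apply]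
  have h2 : ∀ (r : {f | P T f} → k) m, coeff m (∑ f, r f • w f : B).1 =
      ∑ f, if E f = m then r f else 0 := fun r m => by
    simp [w, coeff_sum, coeff_monomial]
  have h3 : ∀ (r : {f | P T f} → k) f, coeff (E f) (∑ f, r f • w f : B).1 = r f := fun r f => by
    rw [h2]; simp [hE.eq_iff]
  have inj : Function.Injective Ψ := by
    refine (injective_iff_map_eq_zero Ψ).2 fun r hr => funext fun f => by_contra fun h => ?_
    rw [h1] at hr
    have := (hI _).1 (Ideal.Quotient.eq_zero_iff_mem.1 hr) (E f) (by rwa [mem_support_iff, h3])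
    rw [ex0, ex1] at this
    exact (c.top f.2).2 this
  have : (⨅ i, LinearMap.ker (LinearMap.mulLeft k (Ideal.Quotient.mk I (x i))) :
      Submodule k (B ⧸ I)) = LinearMap.range Ψ := by
    refine le_antisymm (fun z hz => ?_) ?_
    · obtain ⟨p, rfl⟩ := Ideal.Quotient.mk_surjective z
      refine ⟨fun f => coeff (E f) p.1, (h1 _).trans (Ideal.Quotient.eq.2 ((hI _).2 fun m hm => ?_))⟩
      by_contra hn
      rw [mem_support_iff] at hm
      change coeff m ((∑ f, coeff (E f) p.1 • w f : B).1 - p.1) ≠ 0 at hm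
      have h4 : ∀ f, E f ≠ m := fun f h => hm (by rw [← h, coeff_sub, h3, sub_self])
      have h5 : coeff m p.1 ≠ 0 := by
        rw [coeff_sub, h2] at hm; simpa [h4] using hm
      obtain ⟨f, h6, h7, h8⟩ := c.mx ((hB _).1 p.2 m (mem_support_iff.2 h5)) hn
        fun a b e1 e2 e3 => by
          obtain ⟨i, hi⟩ := hx' a b e1 e2 e3
          have h9 : x i * p ∈ I :=
            Ideal.Quotient.eq_zero_iff_mem.1 ((Submodule.mem_iInf _).1 hz i)
          have := (hI _).1 h9 (ex a b + m) (by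
            change _ ∈ ((x i).1 * p.1).support
            rwa [hi, mem_support_iff, coeff_monomial_mul, one_mul])
          simpa [add_comm] using this
      exact h4 ⟨f, h6⟩ (by rw [← ex_eta m, h7, h8])
    · rw [Fintype.range_linearCombination, Submodule.span_le]
      rintro _ ⟨f, rfl⟩
      refine (Submodule.mem_iInf _).2 fun i => ?_
      obtain ⟨a, b, e1, e2, e3⟩ := hx i
      refine (Ideal.Quotient.eq_zero_iff_mem (a := x i * w f)).2 ((hI _).2 fun m hm => ?_)
      change _ ∈ ((x i).1 * monomial (E f) 1).support at hm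
      rw [e3, monomial_mul] at hm
      simpa [supp_mono hm, E, add_comm a, add_comm b] using c.kill f.2 e1 e2
  rw [this, LinearMap.finrank_range_of_inj inj, Module.finrank_fintype_fun_eq_card,
    Set.ncard_eq_toFinset_card', Set.toFinset_card]

end Pool.Agent.H50.Acm
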