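import Mathlib

set_option autoImplicit false

namespace Pool.Agent.H50.Anti

noncomputable def fN {β : Type} (n : ℕ) (k : ℕ → β) : β :=
  Nat.casesOn (motive := fun _ => β) n (k 0) (fun m => k (Nat.succ m))

/-- generic update of a state list; `z` chooses which entries are raised, `w` is the weight. -/
noncomputable def addS (z : ℕ → Bool) (w : ℕ → ℕ) (st : List ℕ) (k : List ℕ → ℕ → Bool) : Bool :=
  List.rec (motive := fun _ => List ℕ → ℕ → Bool) (fun acc s => k acc s)
    (fun x _ ih acc s => fN (cond (z x) (Nat.add x 16) x) fun y =>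
      fN (Nat.add s (w y)) fun s' => ih (y :: acc) s') st [] 0

def hit (S x : ℕ) : Bool := cond (Nat.beq (Nat.land (Nat.mod x 16) S) 0) false true
def mis (S x : ℕ) : Bool := Nat.beq (Nat.land (Nat.mod x 16) S) 0
def wU (x : ℕ) : ℕ := Nat.pow 2 (Nat.sub 112 (Nat.div x 16))
def wI (x : ℕ) : ℕ := Nat.pow 2 (Nat.div x 16)

noncomputable def low (st : List ℕ) (F : ℕ) : ℕ :=
  List.rec (motive := fun _ => ℕ) 0 (fun x _ ih => Nat.add (cond (mis F x) (wU x) 0) ih) st

def tb (a i : ℕ) : Bool := Nat.beq (Nat.mod (Nat.shiftRight a i) 2) 1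

def ad (G Cv p q : ℕ) : Bool :=
  cond (Nat.beq p 0) (cond (Nat.ble 32 q) true (cond (Nat.ble 1 q && Nat.ble q 4)
      (tb Cv (Nat.sub q 1)) false))
    (cond (Nat.ble p 4)
      (cond (Nat.beq q 0) false (cond (Nat.ble q 4)
        (tb G (Nat.add (Nat.mul 4 (Nat.sub p 1)) (Nat.sub q 1))) (tb q (Nat.sub p 1))))
      false)

def adj (G Cv p q : ℕ) : Bool := cond (ad G Cv p q) true (ad G Cv q p)

noncomputable def expand (A : ℕ → ℕ → Bool) (a b : ℕ) (vs : List ℕ)
    (k : List (ℕ × ℕ) → ℕ → Bool) : List (ℕ × ℕ) → ℕ → Bool :=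
  List.rec (motive := fun _ => List (ℕ × ℕ) → ℕ → Bool) (fun w s => k w s)
    (fun c _ ih w s =>
      cond (A a c)
        (cond (A b c) (ih w s)
          (cond (tb s (Nat.add (Nat.mul 64 a) c)) (ih w s)
            (fN (Nat.add s (Nat.pow 2 (Nat.add (Nat.mul 64 a) c))) fun s' => ih ((a, c) :: w) s')))
        (cond (A b c)
          (cond (tb s (Nat.add (Nat.mul 64 c) b)) (ih w s)
            (fN (Nat.add s (Nat.pow 2 (Nat.add (Nat.mul 64 c) b))) fun s' => ih ((c, b) :: w) s'))
          (ih w s))) vs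

noncomputable def clo (A : ℕ → ℕ → Bool) (vs : List ℕ) (fuel : ℕ) :
    List (ℕ × ℕ) → ℕ → Bool :=
  Nat.rec (motive := fun _ => List (ℕ × ℕ) → ℕ → Bool) (fun _ _ => false)
    (fun _ ih work seen => List.casesOn (motive := fun _ => Bool) work false
      (fun e w => fN e.1 fun a => fN e.2 fun b =>
        cond (Nat.beq a 32 && Nat.beq b 0) true (expand A a b vs ih w seen))) fuel

noncomputable def nc (G Cv : ℕ) (vs : List ℕ) : Bool :=
  clo (adj G Cv) vs 200 [(0, 32)] (Nat.pow 2 32)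

noncomputable def inGo (G Cv : ℕ) (ms : List (ℕ × ℕ)) : List ℕ → ℕ → List ℕ → Bool :=
  List.rec (motive := fun _ => List ℕ → ℕ → List ℕ → Bool)
    (fun _ u vs => cond (Nat.beq u 23) (nc G Cv vs) true)
    (fun p _ ih st u vs => fN p.1 fun S =>
      Nat.rec (motive := fun _ => List ℕ → ℕ → List ℕ → Bool)
        (fun st u vs => ih st u vs)
        (fun _ lp st u vs => ih st u (Nat.add 32 S :: vs) &&
          addS (mis S) wI st fun st' u' => cond (Nat.blt 23 u') true
            (lp st' u' (Nat.add 16 S :: vs))) p.2 st u vs) ms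

noncomputable def allL (p : ℕ → Bool) (l : List ℕ) : Bool :=
  List.rec (motive := fun _ => Bool) true (fun x _ ih => p x && ih) l

noncomputable def filt (p : ℕ → Bool) (l : List ℕ) (k : List ℕ → ℕ → Bool) : Bool :=
  List.rec (motive := fun _ => List ℕ → ℕ → Bool) (fun acc s => k acc s)
    (fun x _ ih acc s => cond (p x) (fN x fun y => fN (Nat.succ s) fun s' => ih (y :: acc) s')
      (ih acc s)) l [] 0

def r16 : List ℕ := [0, 1, 2, 3, 4, 5, 6, 7, 8, 9, 10, 11, 12, 13, 14, 15]

noncomputable def inner (G : ℕ) (ts : List ℕ) (ms : List (ℕ × ℕ)) : Bool :=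
  allL (fun Cv => filt (mis Cv) ts fun st u => inGo G Cv ms st u [0, 32, 1, 2, 3, 4]) r16

def target : ℕ := 22716298756089870874820921440337920
def lo : ℕ := 22711228153688957957214934627516416
def hi : ℕ := 22721369358490783792426908253159424

noncomputable def go (G : ℕ) (ts : List ℕ) (Ss : List ℕ) :
    List ℕ → ℕ → ℕ → List (ℕ × ℕ) → Bool :=
  List.rec (motive := fun _ => List ℕ → ℕ → ℕ → List (ℕ × ℕ) → Bool)
    (fun st u F ms => cond (Nat.beq F 0)
      (cond (Nat.blt hi u) true (Nat.beq u target && inner G ts ms)) (Nat.blt hi (low st F)))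
    (fun S _ ih st u F ms =>
      Nat.rec (motive := fun _ => ℕ → List ℕ → ℕ → Bool)
        (fun _ st u => fN (Nat.lor F S) fun F' => ih st u F' ms)
        (fun _ lp j st u => cond (Nat.beq j 0) (ih st u F ms) (ih st u F ((S, j) :: ms)) &&
          addS (hit S) wU st fun st' u' => cond (Nat.blt u' lo) true
            (lp (Nat.succ j) st' u')) 7 0 st u) Ss

def ok (G T : ℕ) : Bool :=
  [0, 1, 2, 3].all fun i => [0, 1, 2, 3].all fun j => !(tb T i && tb T j && tb G (4 * i + j))

noncomputable def chk (G : ℕ) : Bool :=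
  filt (ok G) r16 fun ts c => fN (Nat.mul c (Nat.pow 2 112)) fun u =>
    cond (Nat.blt u lo) true
      (go G ts [15, 14, 13, 11, 7, 12, 10, 9, 6, 5, 3, 8, 4, 2, 1] ts u 0 [])

def mkG (b01 b02 b03 b12 b13 b23 : Bool) : ℕ :=
  cond b01 18 0 + cond b02 260 0 + cond b03 4104 0 + cond b12 576 0 + cond b13 8320 0 +
    cond b23 18432 0

end Pool.Agent.H50.Anti
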