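import Pool.Agent.H50.AntiA

set_option autoImplicit false

namespace Pool.Agent.H50.Anti

lemma fN_eq {β : Type} (n : ℕ) (k : ℕ → β) : fN n k = k n := by cases n <;> rfl

def upd (z : ℕ → Bool) (x : ℕ) : ℕ := cond (z x) (x + 16) x

lemma addS_eq (z : ℕ → Bool) (w : ℕ → ℕ) (st : List ℕ) (k : List ℕ → ℕ → Bool) :
    addS z w st k = k ((st.map (upd z)).reverse) (((st.map (upd z)).map w).sum) := by
  have : ∀ (st acc : List ℕ) (s : ℕ),
      List.rec (motive := fun _ => List ℕ → ℕ → Bool) (fun acc s => k acc s)
        (fun x _ ih acc s => fN (cond (z x) (Nat.add x 16) x) fun y =>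
          fN (Nat.add s (w y)) fun s' => ih (y :: acc) s') st acc s =
      k ((st.map (upd z)).reverse ++ acc) (s + ((st.map (upd z)).map w).sum) := by
    intro st
    induction st with
    | nil => intro acc s; simp
    | cons x st ih =>
      intro acc s
      simp only [fN_eq] at ih ⊢
      rw [ih]
      simp [upd, add_assoc]
  unfold addS
  rw [this]
  simp

lemma filt_eq (p : ℕ → Bool) (l : List ℕ) (k : List ℕ → ℕ → Bool) :
    filt p l k = k ((l.filter p).reverse) (l.filter p).length := by
  have : ∀ (l acc : List ℕ) (s : ℕ),
      List.rec (motive := fun _ => List ℕ → ℕ → Bool) (fun acc s => k acc s)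
        (fun x _ ih acc s => cond (p x)
          (fN x fun y => fN (Nat.succ s) fun s' => ih (y :: acc) s') (ih acc s)) l acc s =
      k ((l.filter p).reverse ++ acc) (s + (l.filter p).length) := by
    intro l
    induction l with
    | nil => intro acc s; simp
    | cons x l ih =>
      intro acc s
      simp only [fN_eq] at ih ⊢
      cases h : p x
      · simp [h, ih]
      · simp [h, ih, add_assoc, add_comm 1]
  unfold filt
  rw [this]
  simp

lemma allL_mem {p : ℕ → Bool} {l : List ℕ} (h : allL p l = true) : ∀ x ∈ l, p x = true := by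
  induction l with
  | nil => simp
  | cons a l ih =>
    change (p a && allL p l) = true at h
    simp only [Bool.and_eq_true] at h
    intro x hx
    rcases List.mem_cons.mp hx with rfl | hx
    · exact h.1
    · exact ih h.2 x hx

lemma low_eq (st : List ℕ) (F : ℕ) :
    low st F = (st.map fun x => if mis F x = true then wU x else 0).sum := by
  induction st with
  | nil => rfl
  | cons x st ih =>
    change Nat.add (cond (mis F x) (wU x) 0) (low st F) = _
    rw [ih]
    cases h : mis F x <;> simp [h]

section clo

variable {V : Type} (lt : V → V → Prop) (htr : ∀ a b c, lt a b → lt b c → lt a c) (φ : ℕ → V)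
  (A : ℕ → ℕ → Bool) (vs : List ℕ)
  (hA : ∀ p ∈ vs, ∀ q ∈ vs, (A p q = true ↔ (lt (φ p) (φ q) ∨ lt (φ q) (φ p))))

def Inv (w : List (ℕ × ℕ)) : Prop := ∀ e ∈ w, e.1 ∈ vs ∧ e.2 ∈ vs ∧ lt (φ e.1) (φ e.2)

include htr hA in
lemma expand_sound (a b : ℕ) (ha : a ∈ vs) (hb : b ∈ vs) (hab : lt (φ a) (φ b))
    (k : List (ℕ × ℕ) → ℕ → Bool) (P : Prop)
    (hk : ∀ w s, Inv lt φ vs w → k w s = true → P) :
    ∀ (l : List ℕ), (∀ c ∈ l, c ∈ vs) → ∀ w s, Inv lt φ vs w →
      expand A a b l k w s = true → P := by
  intro l
  induction l with
  | nil => intro _ w s hw h; exact hk w s hw h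
  | cons c l ih =>
    intro hl w s hw h
    have hc : c ∈ vs := hl c List.mem_cons_self
    have ih' := ih (fun d hd => hl d (List.mem_cons_of_mem _ hd))
    change cond (A a c)
        (cond (A b c) (expand A a b l k w s)
          (cond (tb s (Nat.add (Nat.mul 64 a) c)) (expand A a b l k w s)
            (fN (Nat.add s (Nat.pow 2 (Nat.add (Nat.mul 64 a) c))) fun s' =>
              expand A a b l k ((a, c) :: w) s')))
        (cond (A b c)
          (cond (tb s (Nat.add (Nat.mul 64 c) b)) (expand A a b l k w s)
            (fN (Nat.add s (Nat.pow 2 (Nat.add (Nat.mul 64 c) b))) fun s' =>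
              expand A a b l k ((c, b) :: w) s'))
          (expand A a b l k w s)) = true at h
    simp only [fN_eq] at h
    cases h1 : A a c <;> cases h2 : A b c <;> simp only [h1, h2, cond_true, cond_false] at h
    · exact ih' w s hw h
    · cases h3 : tb s (Nat.add (Nat.mul 64 c) b) <;> simp only [h3, cond_true, cond_false] at h
      · refine ih' _ _ ?_ h
        intro e he
        rcases List.mem_cons.mp he with rfl | he
        · refine ⟨hc, hb, ?_⟩
          rcases (hA b hb c hc).mp h2 with h4 | h4
          · have := (hA a ha c hc).mpr (Or.inl (htr _ _ _ hab h4))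
            rw [h1] at this
            exact absurd this (by simp)
          · exact h4
        · exact hw e he
      · exact ih' w s hw h
    · cases h3 : tb s (Nat.add (Nat.mul 64 a) c) <;> simp only [h3, cond_true, cond_false] at h
      · refine ih' _ _ ?_ h
        intro e he
        rcases List.mem_cons.mp he with rfl | he
        · refine ⟨ha, hc, ?_⟩
          rcases (hA a ha c hc).mp h1 with h4 | h4
          · exact h4
          · have := (hA b hb c hc).mpr (Or.inr (htr _ _ _ h4 hab))
            rw [h2] at this
            exact absurd this (by simp)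
        · exact hw e he
      · exact ih' w s hw h
    · exact ih' w s hw h

include htr hA in
lemma clo_sound (fuel : ℕ) : ∀ w s, Inv lt φ vs w → clo A vs fuel w s = true →
    lt (φ 32) (φ 0) := by
  induction fuel with
  | zero => intro w s _ h; exact absurd h (by simp [clo])
  | succ f ih =>
    intro w s hw h
    cases w with
    | nil => exact absurd h (by simp [clo])
    | cons e w =>
      change (fN e.1 fun a => fN e.2 fun b =>
        cond (Nat.beq a 32 && Nat.beq b 0) true (expand A a b vs (clo A vs f) w s)) = true at h
      simp only [fN_eq] at h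
      have he := hw e List.mem_cons_self
      cases h1 : (Nat.beq e.1 32 && Nat.beq e.2 0)
      · rw [h1, cond_false] at h
        exact expand_sound lt htr φ A vs hA e.1 e.2 he.1 he.2.1 he.2.2 _ _ ih vs (fun _ h => h) w s
          (fun d hd => hw d (List.mem_cons_of_mem _ hd)) h
      · simp only [Bool.and_eq_true, Nat.beq_eq] at h1
        rw [← h1.1, ← h1.2]
        exact he.2.2

end clo

lemma upd_mod (z : ℕ → Bool) (x : ℕ) : upd z x % 16 = x % 16 := by
  unfold upd; cases z x <;> simp

lemma upd_div (z : ℕ → Bool) (x : ℕ) : upd z x / 16 = x / 16 + if z x = true then 1 else 0 := by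
  unfold upd; cases z x <;> simp

lemma mis_mod (S x : ℕ) : mis S (x % 16) = mis S x := by
  unfold mis
  change Nat.beq (Nat.land (x % 16 % 16) S) 0 = Nat.beq (Nat.land (x % 16) S) 0
  rw [Nat.mod_mod]

lemma hit_eq (S x : ℕ) : hit S x = !mis S x := by
  unfold hit mis
  cases Nat.beq (Nat.land (Nat.mod x 16) S) 0 <;> rfl

lemma mis_upd (S x : ℕ) (z : ℕ → Bool) : mis S (upd z x) = mis S x := by
  rw [← mis_mod, upd_mod, mis_mod]

/-- exponent still to be added in the inner search -/
def rin (a : ℕ → ℕ) (ms : List (ℕ × ℕ)) (x : ℕ) : ℕ :=
  (ms.map fun p => if mis p.1 x = true then a p.1 else 0).sum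

lemma rin_upd (a : ℕ → ℕ) (ms : List (ℕ × ℕ)) (z : ℕ → Bool) (x : ℕ) :
    rin a ms (upd z x) = rin a ms x := by
  simp only [rin, mis_upd]

lemma inGo_sound (G Cv : ℕ) (a : ℕ → ℕ) (Ok : ℕ → Prop) (P : Prop)
    (hP : ∀ vs, 0 ∈ vs → 32 ∈ vs → (∀ p ∈ vs, Ok p) → nc G Cv vs = true → P) :
    ∀ (ms : List (ℕ × ℕ)), (∀ p ∈ ms, a p.1 ≤ p.2 ∧ (0 < a p.1 → Ok (16 + p.1)) ∧
        (a p.1 < p.2 → Ok (32 + p.1))) →
      ∀ st u vs, u = (st.map wI).sum → 0 ∈ vs → 32 ∈ vs → (∀ p ∈ vs, Ok p) →
        (st.map fun x => 2 ^ (x / 16 + rin a ms x)).sum = 23 →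
        inGo G Cv ms st u vs = true → P := by
  intro ms
  induction ms with
  | nil =>
    intro _ st u vs hu h0 h32 hv hs h
    change cond (Nat.beq u 23) (nc G Cv vs) true = true at h
    have : u = 23 := by
      rw [hu, ← hs]
      simp [rin, wI]
      rfl
    rw [this] at h
    exact hP vs h0 h32 hv h
  | cons p ms ih =>
    intro hm st u vs hu h0 h32 hv hs h
    have ih' := ih (fun q hq => hm q (List.mem_cons_of_mem _ hq))
    obtain ⟨h1, h2, h3⟩ := hm p List.mem_cons_self
    obtain ⟨S, j⟩ := p
    simp only at h1 h2 h3
    have key : ∀ (f i : ℕ), i + f = j → i ≤ a S → ∀ st u vs, u = (st.map wI).sum → 0 ∈ vs →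
        32 ∈ vs → (∀ p ∈ vs, Ok p) →
        (st.map fun x => 2 ^ (x / 16 + (if mis S x = true then a S - i else 0) +
          rin a ms x)).sum = 23 →
        Nat.rec (motive := fun _ => List ℕ → ℕ → List ℕ → Bool)
          (fun st u vs => inGo G Cv ms st u vs)
          (fun _ lp st u vs => inGo G Cv ms st u (Nat.add 32 S :: vs) &&
            addS (mis S) wI st fun st' u' => cond (Nat.blt 23 u') true
              (lp st' u' (Nat.add 16 S :: vs))) f st u vs = true → P := by
      intro f
      induction f with
      | zero =>
        intro i hi hia st u vs hu h0 h32 hv hs h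
        have : a S - i = 0 := by omega
        simp only [this, ite_self, add_zero] at hs
        exact ih' st u vs hu h0 h32 hv hs h
      | succ f ihf =>
        intro i hi hia st u vs hu h0 h32 hv hs h
        simp only [Bool.and_eq_true] at h
        obtain ⟨ha, hb⟩ := h
        by_cases hi2 : i = a S
        · have : a S - i = 0 := by omega
          simp only [this, ite_self, add_zero] at hs
          refine ih' st u _ hu (List.mem_cons_of_mem _ h0) (List.mem_cons_of_mem _ h32) ?_ hs ha
          intro q hq
          rcases List.mem_cons.mp hq with rfl | hq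
          · exact h3 (by omega)
          · exact hv q hq
        · rw [addS_eq] at hb
          have hs' : (((st.map (upd (mis S))).reverse).map fun x =>
              2 ^ (x / 16 + (if mis S x = true then a S - (i + 1) else 0) + rin a ms x)).sum
              = 23 := by
            rw [List.map_reverse, List.sum_reverse, List.map_map, ← hs]
            congr 1
            apply List.map_congr_left
            intro x _
            simp only [Function.comp, upd_div, mis_upd, rin_upd]
            congr 1
            split_ifs <;> omega
          have hle : ((st.map (upd (mis S))).map wI).sum ≤ 23 := by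
            rw [← hs', List.map_reverse, List.sum_reverse]
            apply List.sum_le_sum
            intro x _
            exact Nat.pow_le_pow_right (by norm_num) (by change x / 16 ≤ _; omega)
          have hbl : Nat.blt 23 ((st.map (upd (mis S))).map wI).sum = false := by
            rw [Bool.eq_false_iff]
            intro hh
            rw [Nat.blt_eq] at hh
            omega
          rw [hbl, cond_false] at hb
          refine ihf (i + 1) (by omega) (by omega) _ _ _ ?_ (List.mem_cons_of_mem _ h0)
            (List.mem_cons_of_mem _ h32) ?_ hs' hb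
          · rw [List.map_reverse, List.sum_reverse]
          · intro q hq
            rcases List.mem_cons.mp hq with rfl | hq
            · exact h2 (by omega)
            · exact hv q hq
    refine key j 0 (by omega) (by omega) st u vs hu h0 h32 hv ?_ ?_
    · rw [← hs]
      simp [rin, add_assoc]
    · have h' := h
      unfold inGo at h'
      simp only [fN_eq] at h'
      unfold inGo
      simp only [fN_eq]
      exact h'

end Pool.Agent.H50.Anti
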