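import Pool.Agent.H50.AntiB

set_option autoImplicit false

namespace Pool.Agent.H50.Anti

def rout (m : ℕ → ℕ) (Ss : List ℕ) (x : ℕ) : ℕ :=
  (Ss.map fun S => if mis S x = true then 0 else m S).sum

def QI (m : ℕ → ℕ) (ms : List (ℕ × ℕ)) (done : List ℕ) : Prop :=
  (∀ p ∈ ms, p.2 = m p.1 ∧ p.1 ∈ done) ∧ (∀ S ∈ done, m S ≤ 6) ∧ ∀ a : ℕ → ℕ, (∀ S, a S ≤ m S) → ∀ x,
    rin a ms x = (done.map fun S => if mis S x = true then a S else 0).sum

lemma term_le (ρ N e : ℕ) (h1 : e ≤ N) (h2 : N ≤ ρ) :
    2 ^ (ρ - N) * 2 ^ 112 ≤ 2 ^ ρ * 2 ^ (112 - e) := by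
  rw [← pow_add, ← pow_add]
  exact Nat.pow_le_pow_right (by norm_num) (by omega)

lemma term_eq (ρ N : ℕ) (h1 : N ≤ 112) (h2 : N ≤ ρ) :
    2 ^ (ρ - N) * 2 ^ 112 = 2 ^ ρ * 2 ^ (112 - N) := by
  rw [← pow_add, ← pow_add]
  congr 1
  omega

lemma mis_lor (F S x : ℕ) : mis (Nat.lor F S) x = (mis F x && mis S x) := by
  unfold mis
  change Nat.beq (x % 16 &&& (F ||| S)) 0 = (Nat.beq (x % 16 &&& F) 0 && Nat.beq (x % 16 &&& S) 0)
  rw [Nat.and_or_distrib_left, Bool.eq_iff_iff]
  simp

lemma mis_zero (x : ℕ) : mis 0 x = true := by
  unfold mis
  change Nat.beq (x % 16 &&& 0) 0 = true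
  simp

lemma sum_mul_le (st : List ℕ) (f g : ℕ → ℕ) (A B : ℕ) (h : ∀ x ∈ st, f x * A ≤ B * g x) :
    (st.map f).sum * A ≤ B * (st.map g).sum := by
  rw [← List.sum_map_mul_right, ← List.sum_map_mul_left]
  exact List.sum_le_sum h

lemma sum_mul_ge (st : List ℕ) (f g : ℕ → ℕ) (A B : ℕ) (h : ∀ x ∈ st, B * g x ≤ f x * A) :
    B * (st.map g).sum ≤ (st.map f).sum * A := by
  rw [← List.sum_map_mul_right, ← List.sum_map_mul_left]
  exact List.sum_le_sum h

lemma go_sound (G : ℕ) (ts : List ℕ) (m : ℕ → ℕ) (ρ X : ℕ) (all : List ℕ) (P : Prop)
    (hlo : 2 ^ ρ * lo ≤ X * 2 ^ 112) (hhi : X * 2 ^ 112 ≤ 2 ^ ρ * hi)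
    (hP : ∀ ms, QI m ms all → X * 2 ^ 112 = 2 ^ ρ * target → inner G ts ms = true → P) :
    ∀ (Ss : List ℕ), (∀ S ∈ Ss, S ≠ 0) → ∀ (done : List ℕ), Ss.reverse ++ done = all →
      ∀ (base : ℕ → ℕ) st u F ms,
      (∀ x ∈ st, x / 16 ≤ base (x % 16) ∧ (mis F x = true → x / 16 = base (x % 16)) ∧
        x / 16 + 7 * Ss.length ≤ 112 ∧ base (x % 16) + rout m Ss x ≤ ρ) →
      u = (st.map wU).sum → (F = 0 → QI m ms done) →
      X = (st.map fun x => 2 ^ (ρ - (base (x % 16) + rout m Ss x))).sum →
      go G ts Ss st u F ms = true → P := by
  have hρ : 0 < 2 ^ ρ := by positivity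
  intro Ss
  induction Ss with
  | nil =>
    intro _ done hd base st u F ms hst hu hQ hX h
    change cond (Nat.beq F 0)
      (cond (Nat.blt hi u) true (Nat.beq u target && inner G ts ms)) (Nat.blt hi (low st F))
      = true at h
    have hlow : 2 ^ ρ * low st F ≤ X * 2 ^ 112 := by
      rw [low_eq, hX]
      apply sum_mul_ge
      intro x hx
      obtain ⟨_, h2, h3, h4⟩ := hst x hx
      split_ifs with hm
      · simp only [rout, List.map_nil, List.sum_nil, add_zero] at h4 ⊢
        rw [← h2 hm] at h4 ⊢
        exact (term_eq ρ _ (by omega) h4).ge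
      · simp
    cases hF : Nat.beq F 0
    · rw [hF, cond_false, Nat.blt_eq] at h
      have := Nat.mul_lt_mul_of_pos_left h hρ
      omega
    · rw [hF, cond_true] at h
      have hF0 : F = 0 := Nat.eq_of_beq_eq_true hF
      subst hF0
      have hl : low st 0 = u := by
        rw [low_eq, hu]
        simp [mis_zero]
      rw [hl] at hlow
      cases hb : Nat.blt hi u
      · rw [hb, cond_false, Bool.and_eq_true, Nat.beq_eq] at h
        refine hP ms ?_ ?_ h.2
        · simpa [← hd] using hQ rfl
        · apply le_antisymm
          · rw [← h.1, hX, hu]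
            apply sum_mul_le
            intro x hx
            obtain ⟨h1, _, _, h4⟩ := hst x hx
            exact term_le ρ _ _ (by change x / 16 ≤ _; omega) h4
          · rw [← h.1]; exact hlow
      · rw [Nat.blt_eq] at hb
        have := Nat.mul_lt_mul_of_pos_left hb hρ
        omega
  | cons S Ss ih =>
    intro hS done hd base st u F ms hst hu hQ hX h
    have hS0 : S ≠ 0 := hS S List.mem_cons_self
    have ih' := ih (fun T hT => hS T (List.mem_cons_of_mem _ hT)) (S :: done)
      (by rw [← hd]; simp) (fun T => base T + if mis S T = true then 0 else m S)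
    have key : ∀ (f j : ℕ), j + f = 7 → j ≤ m S → ∀ st u,
        (∀ x ∈ st, x / 16 ≤ base (x % 16) + (if mis S x = true then 0 else j) ∧
          (mis F x = true → x / 16 = base (x % 16) + (if mis S x = true then 0 else j)) ∧
          x / 16 + f + 7 * Ss.length ≤ 112 ∧
          base (x % 16) + (if mis S x = true then 0 else m S) + rout m Ss x ≤ ρ) →
        u = (st.map wU).sum →
        X = (st.map fun x => 2 ^ (ρ - (base (x % 16) + (if mis S x = true then 0 else m S) +
          rout m Ss x))).sum →
        Nat.rec (motive := fun _ => ℕ → List ℕ → ℕ → Bool)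
          (fun _ st u => go G ts Ss st u (Nat.lor F S) ms)
          (fun _ lp j st u => cond (Nat.beq j 0) (go G ts Ss st u F ms)
            (go G ts Ss st u F ((S, j) :: ms)) &&
            addS (hit S) wU st fun st' u' => cond (Nat.blt u' lo) true
              (lp (Nat.succ j) st' u')) f j st u = true → P := by
      intro f
      induction f with
      | zero =>
        intro j hj hjm st u hst hu hX h
        refine ih' st u (Nat.lor F S) ms ?_ hu ?_ ?_ h
        · intro x hx
          obtain ⟨h1, h2, h3, h4⟩ := hst x hx
          simp only [mis_mod]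
          refine ⟨?_, ?_, by omega, h4⟩
          · split_ifs at h1 ⊢ <;> omega
          · intro hm
            rw [mis_lor, Bool.and_eq_true] at hm
            have := h2 hm.1
            simp only [hm.2, if_true] at this ⊢
            exact this
        · intro h0
          exfalso
          change F ||| S = 0 at h0
          exact hS0 (Nat.or_eq_zero_iff.mp h0).2
        · simp only [mis_mod]; exact hX
      | succ f ihf =>
        intro j hj hjm st u hst hu hX h
        simp only [Bool.and_eq_true] at h
        obtain ⟨ha, hb⟩ := h
        by_cases hj2 : j = m S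
        · have hinv : ∀ x ∈ st, x / 16 ≤ base (x % 16) +
              (if mis S (x % 16) = true then 0 else m S) ∧
              (mis F x = true → x / 16 = base (x % 16) +
                (if mis S (x % 16) = true then 0 else m S)) ∧
              x / 16 + 7 * Ss.length ≤ 112 ∧
              base (x % 16) + (if mis S (x % 16) = true then 0 else m S) + rout m Ss x ≤ ρ := by
            intro x hx
            obtain ⟨h1, h2, h3, h4⟩ := hst x hx
            simp only [mis_mod]
            rw [← hj2]
            rw [← hj2] at h4
            exact ⟨h1, h2, by omega, h4⟩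
          cases hj0 : Nat.beq j 0
          · rw [hj0, cond_false] at ha
            refine ih' st u F _ hinv hu ?_ (by simp only [mis_mod]; exact hX) ha
            intro hF
            obtain ⟨q1, q3, q2⟩ := hQ hF
            refine ⟨?_, ?_, ?_⟩
            · intro p hp
              rcases List.mem_cons.mp hp with rfl | hp
              · exact ⟨hj2, List.mem_cons_self⟩
              · exact ⟨(q1 p hp).1, List.mem_cons_of_mem _ (q1 p hp).2⟩
            · intro T hT
              rcases List.mem_cons.mp hT with rfl | hT
              · omega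
              · exact q3 T hT
            · intro a hab x
              have := q2 a hab x
              simp only [rin, List.map_cons, List.sum_cons] at this ⊢
              rw [this]
          · rw [hj0, cond_true] at ha
            have hj0' : j = 0 := Nat.eq_of_beq_eq_true hj0
            refine ih' st u F _ hinv hu ?_ (by simp only [mis_mod]; exact hX) ha
            intro hF
            obtain ⟨q1, q3, q2⟩ := hQ hF
            refine ⟨?_, ?_, ?_⟩
            · intro p hp
              exact ⟨(q1 p hp).1, List.mem_cons_of_mem _ (q1 p hp).2⟩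
            · intro T hT
              rcases List.mem_cons.mp hT with rfl | hT
              · omega
              · exact q3 T hT
            · intro a hab x
              have h0 : a S = 0 := by have := hab S; omega
              rw [q2 a hab x]
              simp [h0]
        · rw [addS_eq] at hb
          have hinv : ∀ x ∈ (st.map (upd (hit S))).reverse,
              x / 16 ≤ base (x % 16) + (if mis S x = true then 0 else j + 1) ∧
              (mis F x = true → x / 16 = base (x % 16) + (if mis S x = true then 0 else j + 1)) ∧
              x / 16 + f + 7 * Ss.length ≤ 112 ∧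
              base (x % 16) + (if mis S x = true then 0 else m S) + rout m Ss x ≤ ρ := by
            intro y hy
            obtain ⟨x, hx, rfl⟩ := List.mem_map.mp (List.mem_reverse.mp hy)
            obtain ⟨h1, h2, h3, h4⟩ := hst x hx
            simp only [upd_div, upd_mod, mis_upd, hit_eq, rout] at h1 h2 h3 h4 ⊢
            cases hm : mis S x <;> simp only [hm] at h1 h2 h4 ⊢ <;> simp at h1 h2 h4 ⊢ <;>
              exact ⟨by omega, fun hh => by have := h2 hh; omega, by omega, by omega⟩
          have hX' : X = ((st.map (upd (hit S))).reverse.map fun x =>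
              2 ^ (ρ - (base (x % 16) + (if mis S x = true then 0 else m S) +
                rout m Ss x))).sum := by
            rw [List.map_reverse, List.sum_reverse, List.map_map, hX]
            congr 1
            apply List.map_congr_left
            intro x _
            simp only [Function.comp, upd_mod, mis_upd, rout]
          have hle : X * 2 ^ 112 ≤ 2 ^ ρ * ((st.map (upd (hit S))).map wU).sum := by
            rw [hX', List.map_reverse, List.sum_reverse]
            apply sum_mul_le
            intro x hx
            obtain ⟨h1, _, _, h4⟩ := hinv x (List.mem_reverse.mpr hx)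
            refine term_le ρ _ _ ?_ h4
            change x / 16 ≤ _
            split_ifs at h1 ⊢ <;> omega
          have hbl : Nat.blt ((st.map (upd (hit S))).map wU).sum lo = false := by
            rw [Bool.eq_false_iff]
            intro hh
            rw [Nat.blt_eq] at hh
            have := Nat.mul_lt_mul_of_pos_left hh hρ
            omega
          rw [hbl, cond_false] at hb
          refine ihf (j + 1) (by omega) (by omega) _ _ hinv ?_ hX' hb
          rw [List.map_reverse, List.sum_reverse]
    refine key 7 0 (by omega) (by omega) st u ?_ hu ?_ ?_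
    · intro x hx
      obtain ⟨h1, h2, h3, h4⟩ := hst x hx
      simp only [ite_self, add_zero]
      simp only [rout, List.map_cons, List.sum_cons, List.length_cons] at h3 h4
      refine ⟨h1, h2, by omega, ?_⟩
      simp only [rout]
      omega
    · rw [hX]
      simp [rout, add_assoc]
    · have h' := h
      unfold go at h'
      simp only [fN_eq] at h'
      unfold go
      simp only [fN_eq]
      exact h'

end Pool.Agent.H50.Anti
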