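import Mathlib

set_option autoImplicit false

namespace Pool.Agent.H50.Anti

open Finset

variable {V : Type} [DecidableEq V]

def Ind (r : V → V → Prop) (s : Finset V) : Prop := ∀ x ∈ s, ∀ y ∈ s, ¬ r x y

open Classical in
/-- number of independent subsets of `U` -/
noncomputable def II (r : V → V → Prop) (U : Finset V) : ℕ := (U.powerset.filter (Ind r)).card

open Classical in
noncomputable def nn (r : V → V → Prop) (v : V) (U : Finset V) : Finset V :=
  U.filter fun x => x ≠ v ∧ ¬ r v x

lemma mem_nn {r : V → V → Prop} {v x : V} {U : Finset V} :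
    x ∈ nn r v U ↔ x ∈ U ∧ x ≠ v ∧ ¬ r v x := by
  simp [nn]

variable {r : V → V → Prop} (hs : ∀ x y, r x y → r y x) (hi : ∀ x, ¬ r x x)

include hs hi in
lemma II_del {U : Finset V} {v : V} (hv : v ∈ U) :
    II r U = II r (U.erase v) + II r (nn r v U) := by
  classical
  unfold II
  rw [← card_filter_add_card_filter_not (s := U.powerset.filter (Ind r)) (fun s => v ∉ s)]
  congr 1
  · congr 1
    ext s
    simp only [mem_filter, mem_powerset, subset_erase]
    tauto
  · apply card_nbij' (fun s => s.erase v) (fun s => insert v s)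
    · intro s hs'
      simp only [coe_filter, mem_filter, mem_powerset, Set.mem_setOf_eq, not_not] at hs' ⊢
      obtain ⟨⟨h1, h2⟩, h3⟩ := hs'
      refine ⟨?_, ?_⟩
      · intro x hx
        rw [mem_erase] at hx
        exact mem_nn.mpr ⟨h1 hx.2, hx.1, h2 v h3 x hx.2⟩
      · intro x hx y hy
        exact h2 x (mem_of_mem_erase hx) y (mem_of_mem_erase hy)
    · intro s hs'
      simp only [coe_filter, mem_filter, mem_powerset, Set.mem_setOf_eq, not_not] at hs' ⊢
      obtain ⟨h1, h2⟩ := hs'
      refine ⟨⟨?_, ?_⟩, mem_insert_self _ _⟩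
      · intro x hx
        rcases mem_insert.mp hx with rfl | hx
        · exact hv
        · exact (mem_nn.mp (h1 hx)).1
      · intro x hx y hy
        rcases mem_insert.mp hx with rfl | hx' <;> rcases mem_insert.mp hy with rfl | hy'
        · exact hi _
        · exact (mem_nn.mp (h1 hy')).2.2
        · exact fun h => (mem_nn.mp (h1 hx')).2.2 (hs _ _ h)
        · exact h2 x hx' y hy'
    · intro s hs'
      simp only [coe_filter, mem_filter, mem_powerset, Set.mem_setOf_eq, not_not] at hs'
      exact insert_erase hs'.2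
    · intro s hs'
      simp only [coe_filter, mem_filter, mem_powerset, Set.mem_setOf_eq] at hs'
      apply erase_insert
      intro h
      exact (mem_nn.mp (hs'.1 h)).2.1 rfl

lemma II_le (U : Finset V) : II r U ≤ 2 ^ U.card := by
  classical
  unfold II
  rw [← card_powerset]
  exact card_filter_le _ _

lemma II_pos (U : Finset V) : 0 < II r U := by
  classical
  unfold II
  apply card_pos.mpr
  exact ⟨∅, by simp [Ind]⟩

lemma II_mono {U W : Finset V} (h : U ⊆ W) : II r U ≤ II r W := by
  classical
  unfold II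
  apply card_le_card
  intro s hs
  simp only [mem_filter, mem_powerset] at hs ⊢
  exact ⟨hs.1.trans h, hs.2⟩

include hs hi in
lemma II_iso {U : Finset V} {v : V} (hv : v ∈ U) (h : ∀ x ∈ U, ¬ r v x) :
    II r U = 2 * II r (U.erase v) := by
  rw [II_del hs hi hv]
  have : nn r v U = U.erase v := by
    ext x
    rw [mem_nn, mem_erase]
    constructor
    · tauto
    · intro hx
      exact ⟨hx.2, hx.1, h x hx.2⟩
  rw [this]
  ring

include hs hi in
lemma II_edge {U : Finset V} {u v : V} (hu : u ∈ U) (hv : v ∈ U) (h : r u v) :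
    2 * II r U ≤ 3 * II r (U.erase u) ∨ 2 * II r U ≤ 3 * II r (U.erase v) := by
  have huv : u ≠ v := fun e => hi u (by rw [← e] at h; exact h)
  have e1 := II_del hs hi hu
  have e2 := II_del hs hi hv
  have e3 := II_del hs hi (U := U.erase u) (v := v) (mem_erase.mpr ⟨huv.symm, hv⟩)
  have e4 : nn r v (U.erase u) = nn r v U := by
    ext x
    simp only [mem_nn, mem_erase]
    constructor
    · tauto
    · intro hx
      exact ⟨⟨fun e => hx.2.2 (by rw [e]; exact hs _ _ h), hx.1⟩, hx.2⟩
  have l1 : II r (nn r u U) ≤ II r ((U.erase u).erase v) := by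
    apply II_mono
    intro x hx
    rw [mem_nn] at hx
    simp only [mem_erase]
    exact ⟨fun e => hx.2.2 (by rw [e]; exact h), hx.2.1, hx.1⟩
  have l2 : II r (nn r v U) ≤ II r ((U.erase u).erase v) := by
    apply II_mono
    intro x hx
    rw [mem_nn] at hx
    simp only [mem_erase]
    exact ⟨hx.2.1, fun e => hx.2.2 (by rw [e]; exact hs _ _ h), hx.1⟩
  rw [e4] at e3
  omega

include hs hi in
lemma cover (t : ℕ) : ∀ U : Finset V, 3 ^ t * 2 ^ U.card < 4 ^ t * II r U →
    ∃ C ⊆ U, C.card + 1 ≤ t ∧ ∀ x ∈ U, ∀ y ∈ U, x ∉ C → y ∉ C → ¬ r x y := by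
  induction t with
  | zero =>
    intro U h
    have := II_le (r := r) U
    omega
  | succ t ih =>
    intro U h
    have key : ∀ u ∈ U, 2 * II r U ≤ 3 * II r (U.erase u) →
        ∃ C ⊆ U, C.card + 1 ≤ t + 1 ∧ ∀ x ∈ U, ∀ y ∈ U, x ∉ C → y ∉ C → ¬ r x y := by
      intro u hu h2
      have hc : U.card = (U.erase u).card + 1 := (card_erase_add_one hu).symm
      obtain ⟨C, h3, h4, h5⟩ := ih (U.erase u) (by
        rw [hc, pow_succ, pow_succ, pow_succ] at h
        have := Nat.mul_le_mul_left (4 ^ t) h2
        nlinarith)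
      refine ⟨insert u C, ?_, ?_, ?_⟩
      · exact insert_subset hu (h3.trans (erase_subset _ _))
      · have := card_insert_le u C
        omega
      · intro x hx y hy hx' hy'
        simp only [mem_insert, not_or] at hx' hy'
        exact h5 x (mem_erase.mpr ⟨hx'.1, hx⟩) y (mem_erase.mpr ⟨hy'.1, hy⟩) hx'.2 hy'.2
    by_cases he : ∃ u ∈ U, ∃ v ∈ U, r u v
    · obtain ⟨u, hu, v, hv, huv⟩ := he
      rcases II_edge hs hi hu hv huv with h1 | h1
      · exact key u hu h1
      · exact key v hv h1
    · push Not at he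
      exact ⟨∅, empty_subset _, by simp, fun x hx y hy _ _ => he x hx y hy⟩

include hs hi in
/-- a vertex with few non-neighbours -/
lemma big_deg [Fintype V] (hn : Fintype.card V = 100) (hk : II r univ = 35 * 2 ^ 92 + 23) :
    ∃ v, (nn r v univ).card ≤ 85 := by
  classical
  obtain ⟨C, -, h2, h3⟩ := cover hs hi 7 univ (by
    rw [hk, card_univ, hn]; norm_num)
  by_contra hcon
  push Not at hcon
  have hiso : ∀ x, ∃ y, r x y := by
    intro x
    by_contra h
    push Not at h
    have := II_iso hs hi (mem_univ x) (fun y _ => h y)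
    omega
  have hsub : univ \ C ⊆ C.biUnion fun c => univ.filter fun x => r c x := by
    intro x hx
    obtain ⟨y, hy⟩ := hiso x
    rw [mem_sdiff] at hx
    have : y ∈ C := by
      by_contra hy'
      exact h3 x (mem_univ _) y (mem_univ _) hx.2 hy' hy
    simp only [mem_biUnion, mem_filter, mem_univ, true_and]
    exact ⟨y, this, hs _ _ hy⟩
  have hdeg : ∀ c, (univ.filter fun x => r c x).card ≤ 13 := by
    intro c
    have h4 := hcon c
    have h5 : Disjoint (insert c (nn r c univ)) (univ.filter fun x => r c x) := by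
      rw [disjoint_left]
      intro x hx hx'
      simp only [mem_filter, mem_univ, true_and] at hx'
      rcases mem_insert.mp hx with rfl | hx
      · exact hi _ hx'
      · exact (mem_nn.mp hx).2.2 hx'
    have h6 := card_le_univ ((insert c (nn r c univ)) ∪ (univ.filter fun x => r c x))
    rw [card_union_of_disjoint h5, card_insert_of_notMem (fun h => (mem_nn.mp h).2.1 rfl)] at h6
    omega
  have h7 := (card_le_card hsub).trans (card_biUnion_le_card_mul _ _ 13 (fun c _ => hdeg c))
  rw [card_sdiff_of_subset (subset_univ _), card_univ] at h7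
  omega

end Pool.Agent.H50.Anti
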