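import Pool.Agent.H50.AntiC
import Pool.Agent.H50.AntiD

set_option autoImplicit false

namespace Pool.Agent.H50.Anti

open Finset

def mask (b0 b1 b2 b3 : Bool) : ℕ := cond b0 1 0 + cond b1 2 0 + cond b2 4 0 + cond b3 8 0

lemma mask_lt : ∀ b0 b1 b2 b3 : Bool, mask b0 b1 b2 b3 < 16 := by decide

lemma mask_tb : ∀ b0 b1 b2 b3 : Bool, ∀ i : Fin 4,
    tb (mask b0 b1 b2 b3) i = ![b0, b1, b2, b3] i := by decide

lemma tb_ext : ∀ S < 16, ∀ T < 16, (∀ i : Fin 4, tb S i = tb T i) → S = T := by decide +kernel

lemma mis_iff : ∀ S < 16, ∀ T < 16,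
    (mis S T = true ↔ ∀ i : Fin 4, tb T i = true → tb S i = false) := by decide +kernel

lemma ok_iff (G T : ℕ) : ok G T = true ↔
    ∀ i j : Fin 4, tb T i = true → tb T j = true → tb G (4 * i + j) = false := by
  simp only [ok, List.all_cons, List.all_nil, Bool.and_true, Bool.and_eq_true, Bool.not_eq_true',
    Bool.and_eq_false_imp, Fin.forall_fin_succ, IsEmpty.forall_iff, and_true, Fin.val_zero,
    Fin.val_succ, and_imp, forall_and]
  norm_num
  tauto

lemma sum16 (f : ℕ → ℕ) : ∑ i ∈ range 16, f i = (r16.map f).sum := by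
  simp [Finset.sum_range_succ, r16, add_assoc]

lemma sum_filt (l : List ℕ) (p : ℕ → Bool) (f : ℕ → ℕ) :
    ((l.filter p).map f).sum = (l.map fun x => if p x = true then f x else 0).sum := by
  induction l with
  | nil => rfl
  | cons a l ih => cases h : p a <;> simp [h, ih]

variable {V : Type} [DecidableEq V]

open Classical in
noncomputable def mk4 (p : Fin 4 → Prop) : ℕ :=
  mask (decide (p 0)) (decide (p 1)) (decide (p 2)) (decide (p 3))

lemma mk4_lt (p : Fin 4 → Prop) : mk4 p < 16 := mask_lt _ _ _ _

lemma mk4_tb (p : Fin 4 → Prop) (i : Fin 4) : tb (mk4 p) i = true ↔ p i := by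
  unfold mk4
  rw [mask_tb]
  fin_cases i <;> simp

lemma cnt_split (R : Finset V) (τ : V → ℕ) (hτ : ∀ x, τ x < 16) (p : ℕ → Bool) :
    (R.filter fun x => p (τ x) = true).card =
      (r16.map fun S => if p S = true then (R.filter fun x => τ x = S).card else 0).sum := by
  rw [← sum16, card_eq_sum_card_fiberwise (f := τ) (t := range 16)
    (fun x _ => by simpa using hτ x)]
  apply sum_congr rfl
  intro S _
  rw [filter_filter]
  split_ifs with h
  · congr 1
    apply filter_congr
    intro x _
    constructor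
    · exact fun h => h.2
    · intro h2; rw [h2]; exact ⟨h, rfl⟩
  · rw [card_eq_zero, filter_eq_empty_iff]
    intro x _ h2
    rw [h2.2] at h2
    exact h h2.1

lemma hub_formula {r : V → V → Prop} (hs : ∀ x y, r x y → r y x)
    (c : Fin 4 → V) (hc : Function.Injective c) (τ : V → ℕ) (hτ : ∀ x, τ x < 16)
    (hτ' : ∀ x, ∀ i : Fin 4, tb (τ x) i = true ↔ r (c i) x) (G : ℕ)
    (hG : ∀ i j : Fin 4, tb G (4 * i + j) = true ↔ r (c i) (c j)) (R : Finset V)
    (hR : ∀ x ∈ R, ∀ y ∈ R, ¬ r x y) (hRc : ∀ i, c i ∉ R) (Cv : ℕ) (hCv : Cv < 16)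
    (U : Finset V) (hU : ∀ x, x ∈ U ↔ x ∈ R ∨ ∃ i, c i = x ∧ tb Cv i = false) :
    II r U = (((r16.filter (ok G)).filter (mis Cv)).map fun T =>
      2 ^ (R.filter fun x => mis (τ x) T = true).card).sum := by
  classical
  rw [sum_filt, sum_filt, ← sum16]
  unfold II
  rw [card_eq_sum_card_fiberwise (f := fun s => mk4 fun i => c i ∈ s) (t := range 16)
    (fun x _ => by simpa using mk4_lt _)]
  apply sum_congr rfl
  intro T hT
  rw [mem_range] at hT
  have hm : ∀ s : Finset V, mk4 (fun i => c i ∈ s) = T ↔ ∀ i : Fin 4, (c i ∈ s ↔ tb T i = true) := by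
    intro s
    constructor
    · intro h i
      rw [← h, mk4_tb]
    · intro h
      apply tb_ext _ (mk4_lt _) _ hT
      intro i
      rw [Bool.eq_iff_iff, mk4_tb, h]
  have hcU : ∀ i, c i ∈ U → tb Cv i = false := by
    intro i hi
    rcases (hU _).mp hi with h | ⟨j, h1, h2⟩
    · exact absurd h (hRc i)
    · rw [← hc h1]; exact h2
  by_cases h1 : ok G T = true
  · by_cases h2 : mis Cv T = true
    · rw [if_pos h1, if_pos h2, ← card_powerset]
      rw [ok_iff] at h1
      rw [mis_iff _ hCv _ hT] at h2
      apply card_nbij' (fun s => s ∩ R)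
        (fun s => s ∪ (univ.filter fun i : Fin 4 => tb T i = true).image c)
      · intro s hs'
        simp only [coe_filter, mem_filter, mem_powerset, Set.mem_ofPred_eq, hm, mem_coe] at hs' ⊢
        obtain ⟨⟨_, h4⟩, h5⟩ := hs'
        intro x hx
        rw [mem_inter] at hx
        rw [mem_filter, mis_iff _ (hτ x) _ hT]
        refine ⟨hx.2, fun i hi => ?_⟩
        rw [Bool.eq_false_iff]
        intro h6
        exact h4 _ ((h5 i).mpr hi) _ hx.1 ((hτ' x i).mp h6)
      · intro s hs'
        simp only [coe_filter, mem_filter, mem_powerset, Set.mem_ofPred_eq, hm, mem_coe] at hs' ⊢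
        have hs2 : ∀ x ∈ s, x ∈ R ∧ ∀ i : Fin 4, tb T i = true → ¬ r (c i) x := by
          intro x hx
          have := hs' hx
          rw [mem_filter, mis_iff _ (hτ x) _ hT] at this
          refine ⟨this.1, fun i hi h6 => ?_⟩
          have h7 := this.2 i hi
          rw [(hτ' x i).mpr h6] at h7
          exact absurd h7 (by simp)
        have hmem : ∀ x, x ∈ s ∪ (univ.filter fun i : Fin 4 => tb T i = true).image c ↔
            x ∈ s ∨ ∃ i : Fin 4, tb T i = true ∧ c i = x := by
          intro x
          simp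
        refine ⟨⟨?_, ?_⟩, ?_⟩
        · intro x hx
          rw [hU]
          rcases (hmem x).mp hx with h | ⟨i, h3, h4⟩
          · exact Or.inl (hs2 x h).1
          · exact Or.inr ⟨i, h4, h2 i h3⟩
        · intro x hx y hy
          rcases (hmem x).mp hx with h | ⟨i, h3, rfl⟩ <;>
            rcases (hmem y).mp hy with h' | ⟨j, h4, rfl⟩
          · exact hR x (hs2 x h).1 y (hs2 y h').1
          · exact fun h5 => (hs2 x h).2 j h4 (hs _ _ h5)
          · exact (hs2 y h').2 i h3
          · intro h5
            have := h1 i j h3 h4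
            rw [(hG i j).mpr h5] at this
            exact absurd this (by simp)
        · intro i
          rw [hmem]
          constructor
          · rintro (h | ⟨j, h3, h4⟩)
            · exact absurd (hs2 _ h).1 (hRc i)
            · rw [← hc h4]; exact h3
          · exact fun h => Or.inr ⟨i, h, rfl⟩
      · intro s hs'
        simp only [coe_filter, mem_filter, mem_powerset, Set.mem_ofPred_eq, hm] at hs'
        obtain ⟨⟨h3, _⟩, h5⟩ := hs'
        ext x
        simp only [mem_union, mem_inter, mem_image, mem_filter, mem_univ, true_and]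
        constructor
        · rintro (h | ⟨i, h6, rfl⟩)
          · exact h.1
          · exact (h5 i).mpr h6
        · intro hx
          rcases (hU x).mp (h3 hx) with h | ⟨i, rfl, _⟩
          · exact Or.inl ⟨hx, h⟩
          · exact Or.inr ⟨i, (h5 i).mp hx, rfl⟩
      · intro s hs'
        simp only [mem_coe, mem_powerset] at hs'
        ext x
        simp only [mem_union, mem_inter, mem_image, mem_filter, mem_univ, true_and]
        constructor
        · rintro ⟨h | ⟨i, _, rfl⟩, h7⟩
          · exact h
          · exact absurd h7 (hRc i)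
        · intro hx
          exact ⟨Or.inl hx, (mem_filter.mp (hs' hx)).1⟩
    · rw [if_pos h1, if_neg h2, card_eq_zero, filter_eq_empty_iff]
      intro s hs' h3
      apply h2
      rw [mis_iff _ hCv _ hT]
      rw [hm] at h3
      simp only [mem_filter, mem_powerset] at hs'
      exact fun i hi => hcU i (hs'.1 ((h3 i).mpr hi))
  · rw [if_neg h1, card_eq_zero, filter_eq_empty_iff]
    intro s hs' h3
    apply h1
    rw [ok_iff]
    rw [hm] at h3
    simp only [mem_filter, mem_powerset] at hs'
    intro i j hi hj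
    rw [Bool.eq_false_iff]
    intro h4
    exact hs'.2 _ ((h3 i).mpr hi) _ ((h3 j).mpr hj) ((hG i j).mp h4)

end Pool.Agent.H50.Anti
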