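import Pool.Agent.H50.AntiE

set_option autoImplicit false

namespace Pool.Agent.H50.Anti

open Finset

def SS : List ℕ := [15, 14, 13, 11, 7, 12, 10, 9, 6, 5, 3, 8, 4, 2, 1]

lemma perm1 : r16.Perm (0 :: SS) := by decide
lemma perm2 : r16.Perm (0 :: SS.reverse) := by decide
lemma SS_lt : ∀ S ∈ SS.reverse, S < 16 := by decide
lemma r16_lt : ∀ S ∈ r16, S < 16 := by decide
lemma r16_mem : ∀ S < 16, S ∈ r16 := by decide

lemma sum_compl (l : List ℕ) (p : ℕ → Bool) (f : ℕ → ℕ) :
    (l.map fun x => if p x = true then f x else 0).sum +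
      (l.map fun x => if p x = true then 0 else f x).sum = (l.map f).sum := by
  induction l with
  | nil => rfl
  | cons a l ih => cases h : p a <;> simp [h] <;> omega

lemma tb_mod : ∀ q < 48, ∀ i : Fin 4, tb q i = tb (q % 16) i := by decide +kernel

lemma tb_zero : ∀ i : Fin 4, tb 0 i = false := by decide

lemma ad_big (G Cv p q : ℕ) (h : 16 ≤ p) : ad G Cv p q = false := by
  unfold ad
  have h1 : Nat.beq p 0 = false := by
    rw [Bool.eq_false_iff]; intro h; rw [Nat.beq_eq] at h; omega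
  have h2 : Nat.ble p 4 = false := by
    rw [Bool.eq_false_iff]; intro h; rw [Nat.ble_eq] at h; omega
  rw [h1, h2]; rfl

lemma ad_0big (G Cv q : ℕ) (h : 16 ≤ q) : ad G Cv 0 q = true ↔ 32 ≤ q := by
  unfold ad
  have h2 : Nat.ble q 4 = false := by
    rw [Bool.eq_false_iff]; intro h; rw [Nat.ble_eq] at h; omega
  rw [h2]
  cases h3 : Nat.ble 32 q
  · have : ¬ 32 ≤ q := fun h => by rw [← Nat.ble_eq, h3] at h; exact absurd h (by simp)
    simp [this]
  · rw [Nat.ble_eq] at h3
    simp [h3]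

lemma ad_hbig (G Cv q : ℕ) (i : Fin 4) (h : 16 ≤ q) : ad G Cv (i + 1) q = tb q i := by
  unfold ad
  have h1 : Nat.beq q 0 = false := by
    rw [Bool.eq_false_iff]; intro h; rw [Nat.beq_eq] at h; omega
  have h2 : Nat.ble q 4 = false := by
    rw [Bool.eq_false_iff]; intro h; rw [Nat.ble_eq] at h; omega
  rw [h1, h2]
  fin_cases i <;> rfl

lemma ad_00 (G Cv : ℕ) : ad G Cv 0 0 = false := rfl
lemma ad_0h (G Cv : ℕ) (i : Fin 4) : ad G Cv 0 (i + 1) = tb Cv i := by fin_cases i <;> rfl
lemma ad_h0 (G Cv : ℕ) (i : Fin 4) : ad G Cv (i + 1) 0 = false := by fin_cases i <;> rfl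
lemma ad_hh (G Cv : ℕ) (i j : Fin 4) : ad G Cv (i + 1) (j + 1) = tb G (4 * i + j) := by
  fin_cases i <;> fin_cases j <;> rfl

lemma adj_iff (G Cv p q : ℕ) : adj G Cv p q = true ↔ ad G Cv p q = true ∨ ad G Cv q p = true := by
  unfold adj
  cases ad G Cv p q <;> simp

variable {V : Type} [DecidableEq V]

lemma inner_false (lt : V → V → Prop) (htr : ∀ a b c, lt a b → lt b c → lt a c)
    (hir : ∀ a, ¬ lt a a) (r : V → V → Prop) (hr : ∀ x y, r x y ↔ lt x y ∨ lt y x)
    (v : V) (c : Fin 4 → V) (τ : V → ℕ)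
    (hτ' : ∀ x, ∀ i : Fin 4, tb (τ x) i = true ↔ r (c i) x) (G : ℕ)
    (hG : ∀ i j : Fin 4, tb G (4 * i + j) = true ↔ r (c i) (c j)) (R : Finset V)
    (hR : ∀ x ∈ R, ∀ y ∈ R, ¬ r x y) (vs : List ℕ) (h0 : 0 ∈ vs) (h32 : 32 ∈ vs)
    (hvs : ∀ p ∈ vs, p ≤ 4 ∨ (16 ≤ p ∧ p < 48 ∧ ∃ x ∈ R, τ x = p % 16 ∧ (r v x ↔ 32 ≤ p)))
    (h : nc G (τ v) vs = true) : False := by
  classical
  have hs : ∀ x y, r x y → r y x := fun x y h => by rw [hr] at h ⊢; exact h.symm
  have hi : ∀ x, ¬ r x x := fun x h => by rw [hr, or_self] at h; exact hir x h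
  let φ : ℕ → V := fun p => if p = 0 then v else if h : p - 1 < 4 then c ⟨p - 1, h⟩ else
    if h : ∃ x ∈ R, τ x = p % 16 ∧ (r v x ↔ 32 ≤ p) then h.choose else v
  have f0 : φ 0 = v := rfl
  have f1 : ∀ i : Fin 4, φ (i + 1) = c i := by
    intro i
    simp [φ]
  have f2 : ∀ p, 16 ≤ p → (∃ x ∈ R, τ x = p % 16 ∧ (r v x ↔ 32 ≤ p)) →
      φ p ∈ R ∧ τ (φ p) = p % 16 ∧ (r v (φ p) ↔ 32 ≤ p) := by
    intro p hp h
    have : φ p = h.choose := by
      simp only [φ]
      rw [if_neg (by omega), dif_neg (by omega), dif_pos h]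
    rw [this]
    exact h.choose_spec
  have hcase : ∀ p ∈ vs, p = 0 ∨ (∃ i : Fin 4, p = i + 1) ∨
      (16 ≤ p ∧ p < 48 ∧ φ p ∈ R ∧ τ (φ p) = p % 16 ∧ (r v (φ p) ↔ 32 ≤ p)) := by
    intro p hp
    rcases hvs p hp with h | ⟨h1, h2, h3⟩
    · by_cases h0 : p = 0
      · exact Or.inl h0
      · exact Or.inr (Or.inl ⟨⟨p - 1, by omega⟩, by simp only; omega⟩)
    · exact Or.inr (Or.inr ⟨h1, h2, f2 p h1 h3⟩)
  have hsym : ∀ x y, r x y ↔ r y x := fun x y => ⟨hs x y, hs y x⟩
  have hA : ∀ p ∈ vs, ∀ q ∈ vs, (adj G (τ v) p q = true ↔ r (φ p) (φ q)) := by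
    intro p hp q hq
    rw [adj_iff]
    rcases hcase p hp with rfl | ⟨i, rfl⟩ | ⟨p1, p2, p3, p4, p5⟩ <;>
      rcases hcase q hq with rfl | ⟨j, rfl⟩ | ⟨q1, q2, q3, q4, q5⟩
    · simp [ad_00, hi]
    · rw [ad_0h, ad_h0, f0, f1, hτ', hsym v]; simp
    · rw [ad_0big _ _ _ q1, ad_big _ _ _ _ q1, f0, q5]; simp
    · rw [ad_0h, ad_h0, f0, f1, hτ']; simp
    · rw [ad_hh, ad_hh, hG, hG, f1, f1, hsym (c j)]; simp
    · rw [ad_hbig _ _ _ _ q1, ad_big _ _ _ _ q1, f1, tb_mod _ q2, ← q4, hτ']; simp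
    · rw [ad_0big _ _ _ p1, ad_big _ _ _ _ p1, f0, hsym, p5]; simp
    · rw [ad_hbig _ _ _ _ p1, ad_big _ _ _ _ p1, f1, tb_mod _ p2, ← p4, hτ', hsym (φ p)]; simp
    · rw [ad_big _ _ _ _ p1, ad_big _ _ _ _ q1]; simp [hR _ p3 _ q3]
  have h1 : r (φ 0) (φ 32) := (hA 0 h0 32 h32).mp rfl
  unfold nc at h
  rcases (hr _ _).mp h1 with h2 | h2
  · refine hir _ (htr _ _ _ h2 (clo_sound lt htr φ (adj G (τ v)) vs ?_ 200 _ _ ?_ h))
    · intro p hp q hq; rw [hA p hp q hq, hr]
    · intro e he
      rw [List.mem_singleton] at he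
      subst he
      exact ⟨h0, h32, h2⟩
  · refine hir _ (htr _ _ _ h2 (clo_sound (fun a b => lt b a) (fun a b c h1 h2 => htr _ _ _ h2 h1)
      φ (adj G (τ v)) vs ?_ 200 _ _ ?_ h))
    · intro p hp q hq; rw [hA p hp q hq, hr, or_comm]
    · intro e he
      rw [List.mem_singleton] at he
      subst he
      exact ⟨h0, h32, h2⟩

lemma main_false [Fintype V] (lt : V → V → Prop) (htr : ∀ a b c, lt a b → lt b c → lt a c)
    (hir : ∀ a, ¬ lt a a) (r : V → V → Prop) (hr : ∀ x y, r x y ↔ lt x y ∨ lt y x)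
    (hn : Fintype.card V = 100) (hk : II r univ = 35 * 2 ^ 92 + 23)
    (v : V) (hv : (nn r v univ).card ≤ 85) (c : Fin 4 → V) (hc : Function.Injective c)
    (hcv : ∀ i, c i ≠ v)
    (hcov : ∀ x y, x ≠ v → y ≠ v → (∀ i, c i ≠ x) → (∀ i, c i ≠ y) → ¬ r x y) (G : ℕ)
    (hG : ∀ i j : Fin 4, tb G (4 * i + j) = true ↔ r (c i) (c j)) (h : chk G = true) :
    False := by
  classical
  have hs : ∀ x y, r x y → r y x := fun x y h => by rw [hr] at h ⊢; exact h.symm
  have hi : ∀ x, ¬ r x x := fun x h => by rw [hr, or_self] at h; exact hir x h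
  set R : Finset V := univ.filter fun x => x ≠ v ∧ ∀ i, c i ≠ x with hRdef
  have hRm : ∀ x, x ∈ R ↔ x ≠ v ∧ ∀ i, c i ≠ x := by intro x; simp [hRdef]
  have hRcard : R.card = 95 := by
    have e1 : R = univ \ insert v (univ.image c) := by
      ext x
      rw [hRm]
      simp
    have e2 : v ∉ univ.image c := by simpa using hcv
    rw [e1, card_sdiff_of_subset (subset_univ _), card_insert_of_notMem e2,
      card_image_of_injective _ hc, card_univ, hn]
    simp
  have hR : ∀ x ∈ R, ∀ y ∈ R, ¬ r x y := fun x hx y hy =>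
    hcov x y ((hRm x).mp hx).1 ((hRm y).mp hy).1 ((hRm x).mp hx).2 ((hRm y).mp hy).2
  have hRc : ∀ i, c i ∉ R := fun i h => ((hRm _).mp h).2 i rfl
  set τ : V → ℕ := fun x => mk4 fun i => r (c i) x with hτdef
  have hτ : ∀ x, τ x < 16 := fun x => mk4_lt _
  have hτ' : ∀ x, ∀ i : Fin 4, tb (τ x) i = true ↔ r (c i) x := fun x i => mk4_tb _ i
  set m : ℕ → ℕ := fun S => (R.filter fun x => τ x = S).card with hm
  set Ra : Finset V := R.filter fun x => ¬ r v x with hRa
  set a : ℕ → ℕ := fun S => (Ra.filter fun x => τ x = S).card with ha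
  have ham : ∀ S, a S ≤ m S := fun S =>
    card_le_card (filter_subset_filter _ (filter_subset _ _))
  have hdel := II_del hs hi (mem_univ v)
  have hW1 := II_pos (r := r) (nn r v univ)
  have hW2 : II r (nn r v univ) ≤ 2 ^ 85 :=
    (II_le _).trans (Nat.pow_le_pow_right (by norm_num) hv)
  have hX := hub_formula hs c hc τ hτ hτ' G hG R hR hRc 0 (by norm_num) (univ.erase v) (by
    intro x
    rw [hRm]
    simp only [mem_erase, mem_univ, and_true, tb_zero]
    constructor
    · intro hx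
      by_cases h : ∃ i, c i = x
      · exact Or.inr h
      · push Not at h; exact Or.inl ⟨hx, h⟩
    · rintro (h | ⟨i, rfl⟩)
      · exact h.1
      · exact hcv i)
  have hY := hub_formula hs c hc τ hτ hτ' G hG Ra
    (fun x hx y hy => hR x (mem_filter.mp hx).1 y (mem_filter.mp hy).1)
    (fun i h => hRc i (mem_filter.mp h).1) (τ v) (hτ v) (nn r v univ) (by
    intro x
    rw [mem_nn, hRa, mem_filter, hRm]
    constructor
    · rintro ⟨_, h1, h2⟩
      by_cases h : ∃ i, c i = x
      · obtain ⟨i, rfl⟩ := h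
        refine Or.inr ⟨i, rfl, ?_⟩
        rw [Bool.eq_false_iff]
        exact fun h3 => h2 (hs _ _ ((hτ' v i).mp h3))
      · push Not at h; exact Or.inl ⟨⟨h1, h⟩, h2⟩
    · rintro (h | ⟨i, rfl, h⟩)
      · exact ⟨mem_univ _, h.1.1, h.2⟩
      · refine ⟨mem_univ _, hcv i, fun h3 => ?_⟩
        rw [(hτ' v i).mpr (hs _ _ h3)] at h
        exact absurd h (by simp))
  have ha0 : a 0 = 0 := by
    rw [ha]
    simp only
    rw [card_eq_zero, filter_eq_empty_iff]
    intro x hx h0
    rw [hRa, mem_filter] at hx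
    have := II_iso hs hi (mem_univ x) (fun y _ h1 => by
      by_cases e1 : y = v
      · exact hx.2 (hs _ _ (e1 ▸ h1))
      · by_cases e2 : ∃ i, c i = y
        · obtain ⟨i, rfl⟩ := e2
          have := (hτ' x i).mpr (hs _ _ h1)
          rw [h0, tb_zero] at this
          exact absurd this (by simp)
        · push Not at e2
          exact hR x hx.1 y ((hRm y).mpr ⟨e1, e2⟩) h1)
    omega
  have htot : (r16.map m).sum = 95 := by
    have := cnt_split R τ hτ (fun _ => true)
    simp only [if_true, filter_true] at this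
    rw [← hRcard]
    simpa using this.symm
  have hrout : ∀ T, (R.filter fun x => mis (τ x) T = true).card + rout m SS T = 95 := by
    intro T
    have e1 := cnt_split R τ hτ (fun S => mis S T)
    have e2 := sum_compl r16 (fun S => mis S T) m
    have e3 := (perm1.map fun S => if mis S T = true then 0 else m S).sum_eq
    rw [List.map_cons, List.sum_cons, mis_zero, if_pos rfl] at e3
    change _ = 0 + rout m SS T at e3
    change _ = (r16.map fun S => if mis S T = true then m S else 0).sum at e1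
    omega
  have hb : ∀ S, a S < m S → ∃ x ∈ R, τ x = S ∧ r v x := by
    intro S hS
    obtain ⟨x, h1, h2⟩ := exists_mem_notMem_of_card_lt_card hS
    rw [mem_filter] at h1
    refine ⟨x, h1.1, h1.2, ?_⟩
    by_contra h3
    exact h2 (mem_filter.mpr ⟨mem_filter.mpr ⟨h1.1, h3⟩, h1.2⟩)
  set ts := (r16.filter (ok G)).reverse with hts
  have hts16 : ∀ x ∈ ts, x < 16 := fun x hx =>
    r16_lt x (List.mem_filter.mp (List.mem_reverse.mp hx)).1
  have hX' : II r (univ.erase v) = (ts.map fun x => 2 ^ (95 - (0 + rout m SS x))).sum := by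
    rw [hX, hts, List.map_reverse, List.sum_reverse, List.filter_eq_self.mpr
      (fun x _ => mis_zero x)]
    refine congrArg List.sum (List.map_congr_left ?_)
    intro T _
    refine congrArg (fun e => 2 ^ e) ?_
    have := hrout T
    omega
  have hu : (r16.filter (ok G)).length * 2 ^ 112 = (ts.map wU).sum := by
    have : ts.map wU = ts.map fun _ => 2 ^ 112 := by
      apply List.map_congr_left
      intro x hx
      have := hts16 x hx
      change 2 ^ (112 - x / 16) = _
      rw [Nat.div_eq_of_lt this]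
    rw [this, List.map_const', List.sum_replicate, hts]
    simp
  have hlo : 2 ^ 95 * lo ≤ II r (univ.erase v) * 2 ^ 112 := by
    unfold lo; omega
  have hhi : II r (univ.erase v) * 2 ^ 112 ≤ 2 ^ 95 * Anti.hi := by
    unfold Anti.hi; omega
  unfold chk at h
  rw [filt_eq, fN_eq, ← hts] at h
  change cond (Nat.blt ((r16.filter (ok G)).length * 2 ^ 112) lo) true
    (go G ts SS ts ((r16.filter (ok G)).length * 2 ^ 112) 0 []) = true at h
  rw [hu] at h
  have hle : II r (univ.erase v) * 2 ^ 112 ≤ 2 ^ 95 * (ts.map wU).sum := by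
    rw [hX']
    apply sum_mul_le
    intro x hx
    have h1 := hts16 x hx
    have h2 := hrout x
    exact term_le 95 _ _ (by change x / 16 ≤ _; omega) (by omega)
  have hbl : Nat.blt (ts.map wU).sum lo = false := by
    rw [Bool.eq_false_iff]
    intro hh
    rw [Nat.blt_eq] at hh
    omega
  rw [hbl, cond_false] at h
  refine go_sound G ts m 95 _ SS.reverse False hlo hhi ?_ SS (by decide) [] (by simp)
    (fun _ => 0) ts _ 0 [] ?_ rfl ?_ hX' h
  · intro ms hQ hXt hin
    obtain ⟨q1, q2, q3⟩ := hQ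
    have hY23 : II r (nn r v univ) = 23 := by
      unfold target at hXt
      omega
    have hm0 : 0 < m 0 := by
      have e1 := (perm2.map m).sum_eq
      have e2 := List.sum_le_card_nsmul (SS.reverse.map m) 6 (by
        intro x hx
        obtain ⟨S, hS, rfl⟩ := List.mem_map.mp hx
        exact q2 S hS)
      rw [List.length_map, List.length_reverse] at e2
      change _ ≤ 90 at e2
      rw [List.map_cons, List.sum_cons] at e1
      omega
    have hin' := allL_mem hin (τ v) (r16_mem _ (hτ v))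
    rw [filt_eq] at hin'
    have hst16 : ∀ x ∈ (ts.filter (mis (τ v))).reverse, x < 16 := fun x hx =>
      hts16 x (List.mem_filter.mp (List.mem_reverse.mp hx)).1
    refine inGo_sound G (τ v) a
      (fun p => p ≤ 4 ∨ (16 ≤ p ∧ p < 48 ∧ ∃ x ∈ R, τ x = p % 16 ∧ (r v x ↔ 32 ≤ p))) False
      (fun vs h0 h32 hvs hnc => inner_false lt htr hir r hr v c τ hτ' G hG R hR vs h0 h32 hvs hnc)
      ms ?_ _ _ _ ?_ (by simp) (by simp) ?_ ?_ hin'
    · intro p hp
      obtain ⟨e1, e2⟩ := q1 p hp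
      have e3 := SS_lt _ e2
      refine ⟨by rw [e1]; exact ham _, fun h1 => Or.inr ⟨by omega, by omega, ?_⟩,
        fun h1 => Or.inr ⟨by omega, by omega, ?_⟩⟩
      · obtain ⟨x, hx⟩ := card_pos.mp h1
        rw [mem_filter, hRa, mem_filter] at hx
        refine ⟨x, hx.1.1, by omega, ?_⟩
        constructor
        · exact fun h => absurd h hx.1.2
        · intro h; omega
      · rw [e1] at h1
        obtain ⟨x, x1, x2, x3⟩ := hb _ h1
        exact ⟨x, x1, by omega, fun _ => by omega, fun _ => x3⟩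
    · have : (ts.filter (mis (τ v))).reverse.map wI =
          (ts.filter (mis (τ v))).reverse.map fun _ => 1 := by
        apply List.map_congr_left
        intro x hx
        have := hst16 x hx
        change 2 ^ (x / 16) = _
        rw [Nat.div_eq_of_lt this, pow_zero]
      rw [this, List.map_const', List.sum_replicate]
      simp
    · intro p hp
      simp only [List.mem_cons, List.not_mem_nil, or_false] at hp
      rcases hp with rfl | rfl | rfl | rfl | rfl | rfl
      · left; norm_num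
      · obtain ⟨x, x1, x2, x3⟩ := hb 0 (by omega)
        exact Or.inr ⟨by norm_num, by norm_num, x, x1, x2, fun _ => le_rfl, fun _ => x3⟩
      all_goals left; norm_num
    · rw [← hY23, hY, hts, List.filter_reverse, List.reverse_reverse]
      refine congrArg List.sum (List.map_congr_left ?_)
      intro T hT
      have h1 : T < 16 := r16_lt T (List.mem_filter.mp (List.mem_filter.mp hT).1).1
      rw [Nat.div_eq_of_lt h1, zero_add, q3 a ham T, cnt_split Ra τ hτ (fun S => mis S T),
        (perm2.map _).sum_eq, List.map_cons, List.sum_cons]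
      have : (Ra.filter fun x => τ x = 0).card = 0 := ha0
      rw [this]
      simp [ha]
  · intro x hx
    have h1 := hts16 x hx
    have h2 := hrout x
    have h3 : SS.length = 15 := rfl
    refine ⟨by omega, fun _ => by omega, by omega, by omega⟩
  · intro _
    exact ⟨by simp, by simp, by simp [rin]⟩

end Pool.Agent.H50.Anti
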