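import Pool.Agent.H50.AntiA

set_option autoImplicit false

namespace Pool.Agent.H50.Anti

lemma chk11 : chk 31710 = true := by decide +kernel

end Pool.Agent.H50.Anti
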