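import Pool.Agent.H50.AntiF
import Pool.Agent.H50.AntiK1
import Pool.Agent.H50.AntiK2
import Pool.Agent.H50.AntiK3
import Pool.Agent.H50.AntiK4
import Pool.Agent.H50.AntiK5
import Pool.Agent.H50.AntiK6
import Pool.Agent.H50.AntiK7
import Pool.Agent.H50.AntiK8
import Pool.Agent.H50.AntiK9
import Pool.Agent.H50.AntiK10
import Pool.Agent.H50.AntiK11

set_option autoImplicit false

namespace Pool.Agent.H50.Anti

open Finset

def perms : List (Fin 4 → Fin 4) := [![0, 1, 2, 3], ![0, 1, 3, 2], ![0, 2, 1, 3], ![0, 2, 3, 1], ![0, 3, 1, 2], ![0, 3, 2, 1], ![1, 0, 2, 3], ![1, 0, 3, 2], ![1, 2, 0, 3], ![1, 2, 3, 0], ![1, 3, 0, 2], ![1, 3, 2, 0], ![2, 0, 1, 3], ![2, 0, 3, 1], ![2, 1, 0, 3], ![2, 1, 3, 0], ![2, 3, 0, 1], ![2, 3, 1, 0], ![3, 0, 1, 2], ![3, 0, 2, 1], ![3, 1, 0, 2], ![3, 1, 2, 0], ![3, 2, 0, 1], ![3, 2, 1, 0]]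

def reps : List ℕ := [0, 18, 278, 18450, 854, 4382, 19026, 23130, 4958, 13278, 31710]

lemma reps_chk : ∀ G ∈ reps, chk G = true := by
  intro G hG
  simp only [reps, List.mem_cons, List.not_mem_nil, or_false] at hG
  rcases hG with rfl | rfl | rfl | rfl | rfl | rfl | rfl | rfl | rfl | rfl | rfl
  exacts [chk1, chk2, chk3, chk4, chk5, chk6, chk7, chk8, chk9, chk10, chk11]

lemma perms_inj : ∀ σ ∈ perms, Function.Injective σ := by decide +kernel

lemma perm_rep : ∀ b01 b02 b03 b12 b13 b23 : Bool, ∃ σ ∈ perms, ∃ G ∈ reps, ∀ i j : Fin 4,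
    tb G (4 * i + j) = ![![false, b01, b02, b03], ![b01, false, b12, b13],
      ![b02, b12, false, b23], ![b03, b13, b23, false]] (σ i) (σ j) := by decide +kernel

lemma no_poset {V : Type} [DecidableEq V] [Fintype V] (lt : V → V → Prop)
    (htr : ∀ a b c, lt a b → lt b c → lt a c)
    (hir : ∀ a, ¬ lt a a) (r : V → V → Prop) (hr : ∀ x y, r x y ↔ lt x y ∨ lt y x)
    (hn : Fintype.card V = 100) (hk : II r univ = 35 * 2 ^ 92 + 23) : False := by
  classical
  have hs : ∀ x y, r x y → r y x := fun x y h => by rw [hr] at h ⊢; exact h.symm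
  have hi : ∀ x, ¬ r x x := fun x h => by rw [hr, or_self] at h; exact hir x h
  have hsym : ∀ x y, r x y ↔ r y x := fun x y => ⟨hs x y, hs y x⟩
  obtain ⟨v, hv⟩ := big_deg hs hi hn hk
  have hdel := II_del hs hi (mem_univ v)
  have hW2 : II r (nn r v univ) ≤ 2 ^ 85 :=
    (II_le _).trans (Nat.pow_le_pow_right (by norm_num) hv)
  have hU : (univ.erase v).card = 99 := by rw [card_erase_of_mem (mem_univ _), card_univ, hn]
  obtain ⟨C, h1, h2, h3⟩ := cover hs hi 5 (univ.erase v) (by rw [hU]; omega)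
  obtain ⟨D, d1, d2, d3⟩ := exists_subsuperset_card_eq (n := 4) h1 (by omega) (by omega)
  let e := D.equivFinOfCardEq d3
  let c : Fin 4 → V := fun i => (e.symm i).1
  have hc : Function.Injective c := Subtype.val_injective.comp e.symm.injective
  obtain ⟨σ, s1, G, g1, g2⟩ := perm_rep (decide (r (c 0) (c 1))) (decide (r (c 0) (c 2)))
    (decide (r (c 0) (c 3))) (decide (r (c 1) (c 2))) (decide (r (c 1) (c 3)))
    (decide (r (c 2) (c 3)))
  have s2 := perms_inj σ s1
  have s3 : Function.Surjective σ := Finite.injective_iff_surjective.mp s2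
  have hout : ∀ x, (∀ i, c (σ i) ≠ x) → x ∉ C := by
    intro x hx hxC
    obtain ⟨i, hi⟩ := s3 (e ⟨x, d1 hxC⟩)
    apply hx i
    simp [c, hi]
  refine main_false lt htr hir r hr hn hk v hv (fun i => c (σ i)) (hc.comp s2) ?_ ?_ G ?_
    (reps_chk G g1)
  · intro i
    exact (mem_erase.mp (d2 (e.symm (σ i)).2)).1
  · intro x y hx hy hx' hy'
    exact h3 x (by simpa using hx) y (by simpa using hy) (hout x hx') (hout y hy')
  · intro i j
    rw [g2]
    generalize σ i = a
    generalize σ j = b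
    fin_cases a <;> fin_cases b <;> simp [hi] <;> exact hsym _ _

def ty (x : ℕ) : ℕ := [2, 5, 2, 0, 11, 1, 1, 4].getD x 8

def wr (x y : Fin 100) : Prop :=
  (x.val < 4 ∧ tb (ty y) x = true) ∨ (y.val < 4 ∧ tb (ty x) y = true)

instance (x y : Fin 100) : Decidable (wr x y) := by unfold wr; infer_instance

lemma wr_symm (x y : Fin 100) (h : wr x y) : wr y x := Or.symm h

lemma wr_irr : ∀ x, ¬ wr x x := by decide +kernel

lemma wr_count : II wr univ = 35 * 2 ^ 92 + 23 := by
  rw [hub_formula wr_symm (fun i : Fin 4 => (⟨i.val, by omega⟩ : Fin 100))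
    (fun i j h => by simpa [Fin.ext_iff] using h) (fun x => ty x) (by decide +kernel)
    (by decide +kernel) 594 (by decide +kernel) (univ.filter fun x => 4 ≤ x.val) ?_ ?_ 0
    (by norm_num) univ ?_]
  · decide +kernel
  · intro x hx y hy
    simp only [mem_filter, mem_univ, true_and] at hx hy
    unfold wr
    omega
  · intro i
    simp only [mem_filter, mem_univ, true_and]
    omega
  · intro x
    simp only [mem_filter, mem_univ, true_and, tb_zero, and_true, true_iff]
    by_cases h : 4 ≤ x.val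
    · exact Or.inl h
    · exact Or.inr ⟨⟨x.val, by omega⟩, rfl⟩

lemma ncard_eq {V : Type} [DecidableEq V] [Fintype V] (r : V → V → Prop) (p : Finset V → Prop)
    (h : ∀ s, p s ↔ Ind r s) : {s : Finset V | p s}.ncard = II r univ := by
  classical
  unfold II
  rw [← Set.ncard_coe_finset]
  congr 1
  ext s
  simp [h]

def wG : SimpleGraph (Fin 100) where
  Adj x y := x ≠ y ∧ ¬ wr x y
  symm := ⟨fun x y h => ⟨h.1.symm, fun h' => h.2 (wr_symm _ _ h')⟩⟩
  loopless := ⟨fun x h => h.1 rfl⟩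

theorem main : ¬ (∀ n k : ℕ,
      (∃ G : SimpleGraph (Fin n),
          {s : Finset (Fin n) | G.IsClique (s : Set (Fin n))}.ncard = k) →
      ∃ (P : Type) (_ : Fintype P) (_ : PartialOrder P),
          Fintype.card P = n ∧
          {s : Finset P | IsAntichain (· ≤ ·) (s : Set P)}.ncard = k) := by
  classical
  intro h
  obtain ⟨P, _, _, h1, h2⟩ := h 100 (35 * 2 ^ 92 + 23) ⟨wG, by
    rw [← wr_count]
    apply ncard_eq
    intro s
    constructor
    · intro hs x hx y hy hxy
      by_cases e : x = y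
      · exact wr_irr x (e ▸ hxy)
      · exact (hs hx hy e).2 hxy
    · intro hs x hx y hy e
      exact ⟨e, hs x hx y hy⟩⟩
  refine no_poset (fun a b : P => a < b) (fun _ _ _ => lt_trans) lt_irrefl
    (fun a b => a < b ∨ b < a) (fun _ _ => Iff.rfl) h1 ?_
  rw [← h2]
  symm
  apply ncard_eq
  intro s
  constructor
  · rintro hs x hx y hy (hxy | hxy)
    · exact hs hx hy hxy.ne hxy.le
    · exact hs hy hx hxy.ne hxy.le
  · intro hs x hx y hy e hle
    exact hs x hx y hy (Or.inl (lt_of_le_of_ne hle e))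

end Pool.Agent.H50.Anti
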