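import Mathlib

namespace Pool.Agent.H50.Art

open MvPolynomial

lemma exists_list {R : Type} [CommRing R] {S : R} (h : IsSumSq S) :
    ∃ l : List R, S = (l.map fun g => g * g).sum := by
  induction h with
  | zero => exact ⟨[], rfl⟩
  | sq_add a _ ih =>
    obtain ⟨l, rfl⟩ := ih
    exact ⟨a :: l, by simp⟩

lemma real_zero {σ : Type} (l : List (MvPolynomial σ ℝ)) (h : (l.map fun g => g * g).sum = 0) :
    ∀ g ∈ l, g = 0 := fun g hg => by
  refine MvPolynomial.funext fun x => ?_
  have h1 := congrArg (eval x) h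
  rw [map_list_sum, List.map_map, map_zero] at h1
  have h2 : eval x g * eval x g ≤ (l.map (eval x ∘ fun g => g * g)).sum :=
    List.single_le_sum (fun y hy => by
      obtain ⟨a, -, rfl⟩ := List.mem_map.1 hy
      simpa using mul_self_nonneg _) _ (List.mem_map.2 ⟨g, hg, by simp⟩)
  rw [map_zero]
  nlinarith [mul_self_nonneg (eval x g)]

lemma pow_dvd {σ : Type} (l : List (Polynomial (MvPolynomial σ ℝ))) (k : ℕ)
    (h : Polynomial.X ^ (2 * k) ∣ (l.map fun g => g * g).sum) :
    ∀ j ≤ k, ∀ g ∈ l, Polynomial.X ^ j ∣ g := by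
  intro j
  induction j with
  | zero => simp
  | succ j ih =>
    intro hj g hg
    have ih := ih (by omega)
    have h1 := Polynomial.X_pow_dvd_iff.1 h (2 * j) (by omega)
    have h2 : ((l.map fun g => g * g).sum).coeff (2 * j) =
        ((l.map fun g => g.coeff j).map fun g => g * g).sum := by
      rw [← Polynomial.lcoeff_apply, map_list_sum, List.map_map, List.map_map]
      refine congrArg List.sum (List.map_congr_left fun a ha => ?_)
      obtain ⟨b, rfl⟩ := ih a ha
      have : Polynomial.X ^ j * b * (Polynomial.X ^ j * b) = Polynomial.X ^ (2 * j) * (b * b) := by ring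
      simp only [Function.comp, Polynomial.lcoeff_apply, this]
      have e1 := Polynomial.coeff_X_pow_mul (b * b) (2 * j) 0
      have e2 := Polynomial.coeff_X_pow_mul b j 0
      simp only [zero_add] at e1 e2
      rw [e1, e2, Polynomial.mul_coeff_zero]
    have h3 := real_zero _ (h2 ▸ h1) (g.coeff j) (List.mem_map.2 ⟨g, hg, rfl⟩)
    refine Polynomial.X_pow_dvd_iff.2 fun d hd => ?_
    rcases Nat.lt_succ_iff_lt_or_eq.1 hd with hd | rfl
    · exact Polynomial.X_pow_dvd_iff.1 (ih g hg) d hd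
    · exact h3

noncomputable def phi (w : Fin 3 → ℕ) :
    MvPolynomial (Fin 3) ℝ →ₐ[ℝ] Polynomial (MvPolynomial (Fin 3) ℝ) :=
  aeval fun i => Polynomial.C (X i) * Polynomial.X ^ w i

lemma phi_coeff (w : Fin 3 → ℕ) (α : Fin 3 →₀ ℕ) (g : MvPolynomial (Fin 3) ℝ) :
    coeff α ((phi w g).coeff (w 0 * α 0 + w 1 * α 1 + w 2 * α 2)) = coeff α g := by
  induction g using MvPolynomial.induction_on' with
  | monomial β c =>
    have : phi w (monomial β c) =
        Polynomial.C (monomial β c) * Polynomial.X ^ (w 0 * β 0 + w 1 * β 1 + w 2 * β 2) := by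
      rw [phi, aeval_monomial, monomial_eq, Finsupp.prod_fintype _ _ (by simp),
        Finsupp.prod_fintype _ _ (by simp)]
      simp only [Fin.prod_univ_three, map_mul, map_pow, Polynomial.algebraMap_apply, algebraMap_eq]
      ring
    rw [this, Polynomial.coeff_C_mul_X_pow]
    split_ifs with h
    · rfl
    · rw [coeff_monomial, if_neg (by rintro rfl; exact h rfl), coeff_zero]
  | add p q hp hq => simp [hp, hq]

noncomputable def M {R : Type} [CommRing R] (x y z : R) : R :=
  x ^ 4 * y ^ 2 + x ^ 2 * y ^ 4 + z ^ 6 - 3 * x ^ 2 * y ^ 2 * z ^ 2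

noncomputable def e (a b c : ℕ) : Fin 3 →₀ ℕ := Finsupp.equivFunOnFinite.symm ![a, b, c]

lemma key (u : MvPolynomial (Fin 3) ℝ) (h : IsSumSq (M (X 0) (X 1) (X 2) * u)) :
    constantCoeff u ≤ 0 := by
  obtain ⟨l, hl⟩ := exists_list h
  have h1 : ∀ w : Fin 3 → ℕ, Polynomial.X ^ (2 * 3) ∣ phi w (M (X 0) (X 1) (X 2)) →
      ∀ g ∈ l, ∀ α : Fin 3 →₀ ℕ, w 0 * α 0 + w 1 * α 1 + w 2 * α 2 < 3 → coeff α g = 0 := by
    intro w hw g hg α hα
    have := pow_dvd (l.map (phi w)) 3 (by
      have e := congrArg (phi w) hl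
      rw [map_list_sum, List.map_map, map_mul] at e
      have e2 : (l.map (phi w)).map (fun g => g * g) = l.map (phi w ∘ fun g => g * g) := by
        rw [List.map_map]; exact List.map_congr_left fun a _ => by simp
      rw [e2, ← e]
      exact hw.mul_right _) 3 le_rfl _ (List.mem_map.2 ⟨g, hg, rfl⟩)
    rw [← phi_coeff w, Polynomial.X_pow_dvd_iff.1 this _ hα, coeff_zero]
  have a1 := h1 ![1, 1, 1] ⟨M (Polynomial.C (X 0)) (Polynomial.C (X 1)) (Polynomial.C (X 2)), by
    simp [phi, M]; ring⟩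
  have a2 := h1 ![3, 0, 1] ⟨Polynomial.C (X 0) ^ 4 * Polynomial.C (X 1) ^ 2 * Polynomial.X ^ 6 +
    Polynomial.C (X 0) ^ 2 * Polynomial.C (X 1) ^ 4 + Polynomial.C (X 2) ^ 6 -
    3 * Polynomial.C (X 0) ^ 2 * Polynomial.C (X 1) ^ 2 * Polynomial.C (X 2) ^ 2 * Polynomial.X ^ 2, by
    simp [phi, M]; ring⟩
  have a3 := h1 ![0, 3, 1] ⟨Polynomial.C (X 0) ^ 4 * Polynomial.C (X 1) ^ 2 +
    Polynomial.C (X 0) ^ 2 * Polynomial.C (X 1) ^ 4 * Polynomial.X ^ 6 + Polynomial.C (X 2) ^ 6 -
    3 * Polynomial.C (X 0) ^ 2 * Polynomial.C (X 1) ^ 2 * Polynomial.C (X 2) ^ 2 * Polynomial.X ^ 2, by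
    simp [phi, M]; ring⟩
  have h2 : 0 ≤ coeff (e 2 2 2) (l.map fun g => g * g).sum := by
    rw [← lcoeff_apply, map_list_sum]
    refine List.sum_nonneg fun y hy => ?_
    rw [List.map_map] at hy
    obtain ⟨g, hg, rfl⟩ := List.mem_map.1 hy
    simp only [Function.comp, lcoeff_apply, coeff_mul]
    refine Finset.sum_nonneg fun p hp => ?_
    by_cases h0 : coeff p.1 g = 0
    · simp [h0]
    by_cases h0' : coeff p.2 g = 0
    · simp [h0']
    have s : p.1 + p.2 = e 2 2 2 := by simpa using hp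
    have s0 : p.1 0 + p.2 0 = 2 := DFunLike.congr_fun s 0
    have s1 : p.1 1 + p.2 1 = 2 := DFunLike.congr_fun s 1
    have s2 : p.1 2 + p.2 2 = 2 := DFunLike.congr_fun s 2
    have b1 := mt (a1 g hg p.1) h0
    have b2 := mt (a2 g hg p.1) h0
    have b3 := mt (a3 g hg p.1) h0
    have c1 := mt (a1 g hg p.2) h0'
    have c2 := mt (a2 g hg p.2) h0'
    have c3 := mt (a3 g hg p.2) h0'
    simp only [Matrix.cons_val_zero, Matrix.cons_val_one, Matrix.cons_val] at b1 b2 b3 c1 c2 c3
    have : p.1 = p.2 := by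
      ext i; fin_cases i <;> simp <;> omega
    rw [this]
    exact mul_self_nonneg _
  have hm : ∀ a b c : ℕ, (X 0 ^ a * X 1 ^ b * X 2 ^ c : MvPolynomial (Fin 3) ℝ) =
      monomial (e a b c) 1 := fun a b c => by
    rw [monomial_eq, Finsupp.prod_fintype _ _ (by simp)]
    simp [Fin.prod_univ_three, e]
  have h3 : M (X 0) (X 1) (X 2) * u = monomial (e 4 2 0) 1 * u + monomial (e 2 4 0) 1 * u +
      monomial (e 0 0 6) 1 * u - C 3 * (monomial (e 2 2 2) 1 * u) := by
    simp only [← hm, M, map_ofNat]; ring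
  rw [← hl, h3] at h2
  have n1 : ¬ e 4 2 0 ≤ e 2 2 2 := fun h => by simpa [e] using h 0
  have n2 : ¬ e 2 4 0 ≤ e 2 2 2 := fun h => by simpa [e] using h 1
  have n3 : ¬ e 0 0 6 ≤ e 2 2 2 := fun h => by simpa [e] using h 2
  simp only [coeff_sub, coeff_add, coeff_C_mul, coeff_monomial_mul', n1, n2, n3, if_false, le_refl,
    if_true, tsub_self, one_mul] at h2
  rw [constantCoeff_eq]
  linarith

lemma quad {σ : Type} {q : MvPolynomial σ ℝ} (hq : q.IsHomogeneous 2) (v f : σ → ℝ) :
    ∃ B, ∀ s : ℝ, eval (v + s • f) q = eval v q + s * B + s ^ 2 * eval f q := by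
  classical
  have : ∀ d ∈ q.support, ∃ B, ∀ s : ℝ, eval (v + s • f) (monomial d (coeff d q)) =
      eval v (monomial d (coeff d q)) + s * B + s ^ 2 * eval f (monomial d (coeff d q)) := by
    intro d hd
    have h1 : d.toMultiset.card = 2 := by
      rw [Finsupp.card_toMultiset, ← hq (mem_support_iff.1 hd)]
      simp only [Finsupp.weight_apply, Pi.one_apply, smul_eq_mul, mul_one]
      rfl
    obtain ⟨i, j, hij⟩ := Multiset.card_eq_two.1 h1
    have h2 : d = Finsupp.single i 1 + Finsupp.single j 1 := by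
      rw [← Finsupp.toMultiset_toFinsupp d, hij, Multiset.insert_eq_cons, ← Multiset.singleton_add,
        map_add, Multiset.toFinsupp_singleton, Multiset.toFinsupp_singleton]
    have h3 : monomial d (coeff d q) = C (coeff d q) * X i * X j := by
      generalize coeff d q = c
      rw [h2, X, X, C_mul_monomial, monomial_mul]; simp
    refine ⟨coeff d q * (v i * f j + v j * f i), fun s => ?_⟩
    rw [h3]; simp; ring
  choose! B hB using this
  refine ⟨∑ d ∈ q.support, B d, fun s => ?_⟩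
  have hs : ∀ w, eval w q = ∑ d ∈ q.support, eval w (monomial d (coeff d q)) := fun w => by
    rw [← map_sum, support_sum_monomial_coeff]
  rw [hs, hs v, hs f, Finset.mul_sum, Finset.mul_sum, ← Finset.sum_add_distrib,
    ← Finset.sum_add_distrib]
  exact Finset.sum_congr rfl fun d hd => hB d hd s

lemma shift {σ : Type} {q : MvPolynomial σ ℝ} (hq : q.IsHomogeneous 2) (h0 : ∀ v, 0 ≤ eval v q)
    {f : σ → ℝ} (hf : eval f q = 0) (v : σ → ℝ) (s : ℝ) : eval (v + s • f) q = eval v q := by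
  obtain ⟨B, hB⟩ := quad hq v f
  have : B = 0 := by
    by_contra hne
    have := h0 (v + (-(eval v q + 1) / B) • f)
    rw [hB, hf, div_mul_cancel₀ _ hne] at this
    linarith
  rw [hB, hf, this]; ring

end Pool.Agent.H50.Art
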