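import Mathlib

set_option autoImplicit false

namespace Pool.Agent.H50.BS

open Set Pointwise

/-- the relator of BS(3,5) -/
def rel : FreeGroup (Fin 2) :=
  .of 1 * (FreeGroup.of 0) ^ (3 : ℤ) * (FreeGroup.of 1)⁻¹ * ((FreeGroup.of 0) ^ (5 : ℤ))⁻¹

abbrev G := PresentedGroup ({rel} : Set (FreeGroup (Fin 2)))

def a : G := PresentedGroup.of 0
def t : G := PresentedGroup.of 1
def T (b : Bool) : G := if b then t else t⁻¹
def mA (b : Bool) : ℤ := if b then 3 else 5

lemma T_not (b : Bool) : T (!b) = (T b)⁻¹ := by cases b <;> simp [T]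

lemma rel0 : t * a ^ (3 : ℤ) * t⁻¹ = a ^ (5 : ℤ) := by
  have : PresentedGroup.mk {rel} rel = 1 := PresentedGroup.one_of_mem rfl
  rw [rel, map_mul, map_inv, mul_inv_eq_one, map_mul, map_mul, map_inv, map_zpow, map_zpow] at this
  exact this

lemma pass (b : Bool) (k : ℤ) : a ^ (mA (!b) * k) * T b = T b * a ^ (mA b * k) := by
  have h : t * a ^ (3 * k) * t⁻¹ = a ^ (5 * k) := by
    rw [zpow_mul, zpow_mul, ← rel0, conj_zpow]
  cases b
  · change a ^ (3 * k) * t⁻¹ = t⁻¹ * a ^ (5 * k)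
    rw [← h]; group
  · change a ^ (5 * k) * t = t * a ^ (3 * k)
    rw [← h]; group

lemma exists_lift {H : Type} [Group H] (x y : H) (h : y * x ^ (3 : ℤ) * y⁻¹ = x ^ (5 : ℤ)) :
    ∃ θ : G →* H, θ a = x ∧ θ t = y := by
  refine ⟨PresentedGroup.toGroup (f := ![x, y]) ?_, PresentedGroup.toGroup.of _,
    PresentedGroup.toGroup.of _⟩
  rintro _ rfl
  rw [rel, map_mul, map_inv, mul_inv_eq_one, map_mul, map_mul, map_inv, map_zpow, map_zpow]
  simpa using h

lemma ind_left {P : G → Prop} (h1 : P 1) (ha : ∀ (n : ℤ) x, P x → P (a ^ n * x))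
    (ht : ∀ b x, P x → P (T b * x)) (g : G) : P g := by
  have : g ∈ Subgroup.closure (range (PresentedGroup.of : Fin 2 → G)) := by
    rw [PresentedGroup.closure_range_of]; trivial
  induction this using Subgroup.closure_induction_left with
  | one => exact h1
  | mul_left x hx y _ ih =>
    obtain ⟨i, rfl⟩ := hx
    fin_cases i
    · simpa [a] using ha 1 y ih
    · exact ht true y ih
  | inv_mul_cancel x hx y _ ih =>
    obtain ⟨i, rfl⟩ := hx
    fin_cases i
    · simpa [a] using ha (-1) y ih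
    · exact ht false y ih

lemma ind_right {P : G → Prop} (h1 : P 1) (ha : ∀ (n : ℤ) x, P x → P (x * a ^ n))
    (ht : ∀ b x, P x → P (x * T b)) (g : G) : P g := by
  have := ind_left (P := fun g => P g⁻¹) (by simpa using h1)
    (fun n x h => by simpa using ha (-n) _ h) (fun b x h => by simpa [T_not] using ht (!b) _ h) g⁻¹
  simpa using this

/-- reduced words -/
inductive R : Bool → G → Prop
  | base (b : Bool) (n : ℤ) : R b (T b * a ^ n)
  | step (b : Bool) (n : ℤ) (b' : Bool) (w : G) : R b' w → ¬ (b' = !b ∧ mA b ∣ n) →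
      R b (T b * a ^ n * w)

lemma britton : (∀ n : ℤ, a ^ n = 1 → n = 0) ∧ ∀ b w, R b w → ∀ n : ℤ, w ≠ a ^ n := by
  let e : ℤ → (Multiplicative ℤ →* Multiplicative ℤ) := fun k => zpowGroupHom k
  have he : ∀ k, k ≠ 0 → Function.Injective (e k) := fun k hk x y h => by
    have : k * x.toAdd = k * y.toAdd := by simpa [e] using congrArg Multiplicative.toAdd h
    exact Multiplicative.toAdd.injective (mul_left_cancel₀ hk this)
  have h1 := he 3 (by norm_num)
  have h2 := he 5 (by norm_num)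
  let φ : (e 3).range ≃* (e 5).range :=
    (MonoidHom.ofInjective h1).symm.trans (MonoidHom.ofInjective h2)
  have hφ : ∀ g, (φ ⟨e 3 g, g, rfl⟩ : Multiplicative ℤ) = e 5 g := by
    intro g
    have : (MonoidHom.ofInjective h1).symm ⟨e 3 g, g, rfl⟩ = g :=
      (MulEquiv.symm_apply_eq _).2 (Subtype.ext (MonoidHom.ofInjective_apply h1).symm)
    simp [φ, this, MonoidHom.ofInjective_apply]
  obtain ⟨θ, ha, ht⟩ := exists_lift (HNNExtension.of (Multiplicative.ofAdd (1 : ℤ)))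
    (HNNExtension.t (φ := φ)) (by
      have := HNNExtension.equiv_eq_conj (φ := φ) ⟨e 3 (Multiplicative.ofAdd 1), _, rfl⟩
      rw [hφ] at this
      rw [← map_zpow (HNNExtension.of (φ := φ)), ← map_zpow (HNNExtension.of (φ := φ))]
      exact this.symm)
  have hn : ∀ n : ℤ, θ (a ^ n) = HNNExtension.of (Multiplicative.ofAdd n) := fun n => by
    rw [map_zpow, ha, ← map_zpow (HNNExtension.of (φ := φ)), ← ofAdd_zsmul, smul_eq_mul, mul_one]
  refine ⟨fun n h => ?_, fun b w h n hw => ?_⟩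
  · have := hn n
    rw [h, map_one, ← map_one HNNExtension.of] at this
    simpa using (HNNExtension.of_injective φ this).symm
  let u : Bool → ℤˣ := fun b => if b then 1 else -1
  have hT : ∀ b, θ (T b) = HNNExtension.t ^ (u b : ℤ) := fun b => by cases b <;> simp [T, u, ht]
  have key : ∀ b w, R b w → ∃ (x : Multiplicative ℤ) (l : List (ℤˣ × Multiplicative ℤ)),
      ((u b, x) :: l).IsChain (fun p q =>
        p.2 ∈ HNNExtension.toSubgroup (e 3).range (e 5).range p.1 → p.1 = q.1) ∧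
      θ w = (((u b, x) :: l).map fun p => HNNExtension.t ^ (p.1 : ℤ) * HNNExtension.of p.2).prod := by
    intro b w h
    induction h with
    | base b n => exact ⟨Multiplicative.ofAdd n, [], List.isChain_singleton _, by simp [hT, hn]⟩
    | step b n b' w _ h2 ih =>
      obtain ⟨x, l, h3, h4⟩ := ih
      refine ⟨Multiplicative.ofAdd n, (u b', x) :: l, List.isChain_cons_cons.2 ⟨fun h => ?_, h3⟩,
        by rw [map_mul, map_mul, h4, hT, hn]; simp⟩
      have : mA b ∣ n := by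
        cases b
        · obtain ⟨y, hy⟩ := h
          exact ⟨y.toAdd, by simpa [e, mA] using (congrArg Multiplicative.toAdd hy).symm⟩
        · obtain ⟨y, hy⟩ := h
          exact ⟨y.toAdd, by simpa [e, mA] using (congrArg Multiplicative.toAdd hy).symm⟩
      cases b <;> cases b' <;> simp_all
  obtain ⟨x, l, h3, h4⟩ := key b w h
  have := HNNExtension.ReducedWord.toList_eq_nil_of_mem_of_range φ ⟨1, _, h3⟩
    ⟨Multiplicative.ofAdd n, by
      rw [← hn, ← hw, h4]; simp [HNNExtension.NormalWord.ReducedWord.prod]⟩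
  simp at this

lemma a_inj {n m : ℤ} (h : a ^ n = a ^ m) : n = m :=
  sub_eq_zero.1 (britton.1 _ (by rw [zpow_sub, h, mul_inv_cancel]))

variable {b b' d : Bool} {w w' x y g k : G} {n : ℤ} {X Y : Set G}

lemma R.ne (h : R b w) (n : ℤ) : w ≠ a ^ n := britton.2 b w h n

lemma R.left (h : R b w) (k : ℤ) : R b (a ^ (mA (!b) * k) * w) := by
  cases h with
  | base b n =>
    rw [← mul_assoc, pass, mul_assoc, ← zpow_add]; exact .base _ _
  | step b n b' w h1 h2 =>
    rw [← mul_assoc, ← mul_assoc, pass, mul_assoc (T b), ← zpow_add]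
    exact .step _ _ _ _ h1 fun h => h2 ⟨h.1, (dvd_add_right (dvd_mul_right _ _)).1 h.2⟩

lemma R.left' (h : R b w) (hn : mA (!b) ∣ n) : R b (a ^ n * w) := by
  obtain ⟨k, rfl⟩ := hn; exact h.left k

lemma R.right (h : R b w) (k : ℤ) : R b (w * a ^ k) := by
  induction h with
  | base b n => rw [mul_assoc, ← zpow_add]; exact .base _ _
  | step b n b' w _ h2 ih => rw [mul_assoc]; exact .step _ _ _ _ ih h2

lemma R.disj (h : R b w) (h' : R b' w') (e : w = a ^ n * w') : b' = b ∧ mA (!b) ∣ n := by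
  have key : ∀ b w, R b w → ∀ (n : ℤ) b' w', R b' w' → ¬ (b' = b ∧ mA (!b) ∣ n) →
      ∃ (m : ℤ) (c : Bool) (z : G), R c z ∧ w⁻¹ * a ^ n * w' = a ^ m * z := by
    intro b w h
    induction h with
    | base b m =>
      exact fun n b' w' h1 h2 => ⟨-m, !b, _, .step (!b) n b' w' h1 (by simpa using h2), by
        rw [T_not]; group⟩
    | step b m c z _ h3 ih =>
      intro n b' w' h1 h2
      obtain ⟨m', c', z', h4, h5⟩ := ih (-m) (!b) _ (.step (!b) n b' w' h1 (by simpa using h2))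
        fun h => h3 ⟨h.1.symm, by simpa [← h.1] using h.2⟩
      exact ⟨m', c', z', h4, by rw [← h5, T_not]; group⟩
  by_contra hc
  obtain ⟨m, c, z, h1, h2⟩ := key b w h n b' w' h' hc
  refine h1.ne (-m) ?_
  rw [e] at h2
  rw [zpow_neg, eq_inv_iff_mul_eq_one, (show z * a ^ m = (a ^ m)⁻¹ * (a ^ m * z) * a ^ m by group),
    ← h2]
  group

lemma tri (g : G) : (∃ n : ℤ, g = a ^ n) ∨ ∃ (n : ℤ) (b : Bool) (w : G), R b w ∧ g = a ^ n * w := by
  induction g using ind_left with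
  | h1 => exact Or.inl ⟨0, by simp⟩
  | ha m x h =>
    rcases h with ⟨n, rfl⟩ | ⟨n, b, w, h, rfl⟩
    · exact Or.inl ⟨m + n, by group⟩
    · exact Or.inr ⟨m + n, b, w, h, by group⟩
  | ht b x h =>
    rcases h with ⟨n, rfl⟩ | ⟨n, b', w, h, rfl⟩
    · exact Or.inr ⟨0, b, _, .base b n, by simp⟩
    by_cases hc : b' = !b ∧ mA b ∣ n
    · obtain ⟨rfl, hc⟩ := hc
      have := h.left' (n := n) (by simpa using hc)
      generalize a ^ n * w = z at this
      cases this with
      | base _ m => exact Or.inl ⟨m, by rw [T_not]; group⟩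
      | step _ m c z h1 _ => exact Or.inr ⟨m, c, z, h1, by rw [T_not]; group⟩
    · exact Or.inr ⟨0, b, _, .step b n b' w h hc, by group⟩

lemma flip : R b x ↔ ¬ R (!b) ((T b)⁻¹ * x) := by
  constructor
  · intro h h'
    cases h with
    | base b n => exact h'.ne n (by group)
    | step b n c z h1 h2 => exact h2 (by simpa using h'.disj h1 (n := n) (by group))
  · intro h
    rcases tri ((T b)⁻¹ * x) with ⟨n, e⟩ | ⟨n, c, z, h1, e⟩
    · rw [inv_mul_eq_iff_eq_mul] at e
      exact e ▸ .base _ _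
    · have := R.step b n c z h1 fun hc => h (by
        obtain ⟨rfl, hc⟩ := hc
        exact e ▸ h1.left' (by simpa using hc))
      rwa [mul_assoc, ← e, mul_inv_cancel_left] at this

/-- half-spaces -/
def Hs (g : G) (b : Bool) : Set G := {x | R b (g⁻¹ * x)}

def HH (X : Set G) : Prop := ∃ g b, X = Hs g b

lemma smul_Hs (k g : G) (b : Bool) : k • Hs g b = Hs (k * g) b := by
  ext x; simp [Hs, mem_smul_set_iff_inv_smul_mem, mul_assoc]

lemma compl_Hs (g : G) (b : Bool) : (Hs g b)ᶜ = Hs (g * T b) (!b) := by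
  ext x
  simp only [Hs, mem_compl_iff, mem_ofPred_eq]
  rw [flip (b := b), not_not]
  simp [mul_assoc]

lemma HH.smul (h : HH X) (k : G) : HH (k • X) := by
  obtain ⟨g, b, rfl⟩ := h; exact ⟨_, _, smul_Hs _ _ _⟩

lemma HH.compl (h : HH X) : HH Xᶜ := by
  obtain ⟨g, b, rfl⟩ := h; exact ⟨_, _, compl_Hs _ _⟩

lemma mem_Hs (g : G) (b : Bool) : g * T b ∈ Hs g b := by simpa [Hs] using R.base b 0

lemma not_mem_Hs (g : G) (b : Bool) : g ∉ Hs g b := fun h => R.ne h 0 (by simp)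

lemma HH.ne (h : HH X) : X.Nonempty := by obtain ⟨g, b, rfl⟩ := h; exact ⟨_, mem_Hs _ _⟩

lemma HH.right (h : HH X) (n : ℤ) : x * a ^ n ∈ X ↔ x ∈ X := by
  obtain ⟨g, b, rfl⟩ := h
  refine ⟨fun h => ?_, fun h => ?_⟩
  · simpa [Hs, mul_assoc] using R.right h (-n)
  · simpa [Hs, mul_assoc] using R.right h n

lemma mem_smul : x ∈ k • X ↔ k⁻¹ * x ∈ X := mem_smul_set_iff_inv_smul_mem

lemma Hs_left (hn : mA (!b) ∣ n) : Hs (a ^ n) b = Hs 1 b := by
  ext x
  refine ⟨fun h => ?_, fun h => ?_⟩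
  · simpa [Hs] using R.left' h hn
  · simpa [Hs] using R.left' h ((dvd_neg).2 hn)

lemma R.nest (h : R b w) (d : Bool) : Hs w d ⊆ Hs 1 b ∨ (Hs w d)ᶜ ⊆ Hs 1 b := by
  induction h with
  | base b n =>
    by_cases hc : d = !b ∧ mA b ∣ n
    · obtain ⟨rfl, hc⟩ := hc
      right
      rw [← smul_Hs, Hs_left (by simpa using hc), smul_Hs, mul_one, ← one_mul (T b), ← compl_Hs,
        compl_compl]
    · exact Or.inl fun x hx => by simpa [Hs, mul_assoc] using R.step b n d _ hx hc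
  | step b n c z _ h2 ih =>
    have : ∀ x, (T b * a ^ n)⁻¹ * x ∈ Hs 1 c → x ∈ Hs 1 b := fun x hx => by
      simpa [Hs, mul_assoc] using R.step b n c _ hx h2
    rw [← smul_Hs]
    exact ih.imp (fun h x hx => this x (h (mem_smul.1 hx)))
      fun h x hx => this x (h fun h' => hx (mem_smul.2 h'))

lemma HH.out (h : HH X) (hx : x ∉ X) : ∃ (n : ℤ) (b : Bool), X ⊆ Hs (x * a ^ n) b := by
  obtain ⟨g, d, rfl⟩ := h
  rcases tri (x⁻¹ * g) with ⟨n, e⟩ | ⟨n, b, w, h1, e⟩ <;> rw [inv_mul_eq_iff_eq_mul] at e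
  · exact ⟨n, d, by rw [e]⟩
  refine ⟨n, b, ?_⟩
  rw [e, ← mul_assoc, ← smul_Hs] at hx ⊢
  rw [← mul_one (x * a ^ n), ← smul_Hs, mul_one]
  rcases h1.nest d with h | h
  · exact smul_set_mono h
  · exact (R.ne (h fun h' => hx (mem_smul.2 h')) (-n) (by group)).elim

lemma out_disj (h1 : y ∈ Hs (x * a ^ n) b) (h2 : y ∈ Hs x b') : b = b' ∧ Hs (x * a ^ n) b = Hs x b' := by
  obtain ⟨rfl, h⟩ := R.disj h2 h1 (n := n) (by group)
  exact ⟨rfl, by rw [← smul_Hs, Hs_left h, smul_Hs, mul_one]⟩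

lemma nest (h : HH X) (h' : HH Y) : X ⊆ Y ∨ X ⊆ Yᶜ ∨ Xᶜ ⊆ Y ∨ Xᶜ ⊆ Yᶜ := by
  obtain ⟨g, d, rfl⟩ := h'
  have key : ∀ X, HH X → g ∉ X → X ⊆ Hs g d ∨ X ⊆ (Hs g d)ᶜ := fun X h hg => by
    obtain ⟨n, b, h1⟩ := h.out hg
    by_cases hc : X ⊆ (Hs g d)ᶜ
    · exact Or.inr hc
    · obtain ⟨y, h2, h3⟩ := not_subset.1 hc
      exact Or.inl ((out_disj (h1 h2) (not_not.1 h3)).2 ▸ h1)
  by_cases hg : g ∈ X
  · exact Or.inr (Or.inr (key _ h.compl (not_not.2 hg)))
  · exact (key _ h hg).imp id Or.inl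

lemma HH.uniq (h : HH X) (h1 : g ∉ X) (h2 : g * T b ∈ X) : X = Hs g b := by
  have key : ∀ X g b, HH X → g ∉ X → g * T b ∈ X → X ⊆ Hs g b := fun X g b h h1 h2 => by
    obtain ⟨n, c, h3⟩ := h.out h1
    exact (out_disj (h3 h2) (mem_Hs _ _)).2 ▸ h3
  refine (key X g b h h1 h2).antisymm (compl_subset_compl.1 ?_)
  rw [compl_Hs]
  exact key _ _ _ h.compl (not_not.2 h2) (by simpa [T_not] using h1)

lemma R.exit (h : R b x) (h' : ¬ R b (x * T d)) : ∃ n : ℤ, x * T d = a ^ n := by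
  induction h with
  | base b n =>
    by_cases hc : d = !b ∧ mA b ∣ n
    · obtain ⟨rfl, k, rfl⟩ := hc
      exact ⟨mA (!b) * k, by rw [← pass, T_not]; group⟩
    · exact (h' (by simpa using R.step b n d _ (.base d 0) hc)).elim
  | step b n c z _ h2 ih =>
    exfalso
    by_cases hc : R c (z * T d)
    · exact h' (by simpa [mul_assoc] using R.step b n c _ hc h2)
    · obtain ⟨m, hm⟩ := ih hc
      exact h' (by rw [mul_assoc, hm, mul_assoc, ← zpow_add]; exact .base _ _)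

lemma stab (h : k • Hs g b = Hs g b) : ∃ n : ℤ, mA (!b) ∣ n ∧ k * g = g * a ^ n := by
  rw [smul_Hs] at h
  have h1 := mem_Hs (k * g) b
  have h2 := not_mem_Hs (k * g) b
  rw [h] at h1 h2
  obtain ⟨n, hn⟩ := R.exit (d := !b) h1 (by simpa [T_not, Hs, mul_assoc] using h2)
  have e : g⁻¹ * (k * g) = a ^ n := by rw [← hn, T_not]; group
  refine ⟨n, (R.disj h1 (.base b 0) (n := n) (by rw [← e]; group)).2, by rw [← e]; group⟩

lemma HH.noinv (h : HH X) : k • X ≠ Xᶜ := by
  obtain ⟨g, b, rfl⟩ := h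
  intro h
  rw [smul_Hs] at h
  have h1 := mem_Hs (k * g) b
  have h2 := not_mem_Hs (k * g) b
  rw [h] at h1 h2
  obtain ⟨n, hn⟩ := R.exit (d := b) (not_not.1 h2) (by simpa [Hs, mul_assoc] using h1)
  have := (R.disj (not_not.1 h2) (.base (!b) 0) (n := n) (by rw [← hn, T_not]; group)).1
  simp at this

def Sep (x y : G) : Set (Set G) := {X | HH X ∧ x ∉ X ∧ y ∈ X}

lemma sep_fin (x y : G) : (Sep x y).Finite := by
  obtain ⟨z, rfl⟩ : ∃ z, y = x * z := ⟨x⁻¹ * y, by group⟩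
  induction z using ind_right with
  | h1 => exact finite_empty.subset fun X h => h.2.1 (by simpa using h.2.2)
  | ha n z h => exact h.subset fun X h => ⟨h.1, h.2.1, (h.1.right n).1 (by simpa [mul_assoc] using h.2.2)⟩
  | ht b z h =>
    refine (h.insert (Hs (x * z) b)).subset fun X h => ?_
    by_cases hc : x * z ∈ X
    · exact Or.inr ⟨h.1, h.2.1, hc⟩
    · exact Or.inl (h.1.uniq hc (by simpa [mul_assoc] using h.2.2))

end Pool.Agent.H50.BS
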