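import Pool.Agent.H50.BSA

set_option autoImplicit false

namespace Pool.Agent.H50.BS

open Set Pointwise

variable {b b' d : Bool} {w w' x y g k h : G} {n : ℤ} {X Y : Set G}

def Ell (g : G) : Prop := ∃ (y : G) (n : ℤ), g * y = y * a ^ n

def Hyp (g : G) : Prop := ∃ X, HH X ∧ g • X ⊂ X

lemma ss (k : G) (h : X ⊂ Y) : k • X ⊂ k • Y :=
  ⟨smul_set_mono h.1, fun h' => h.2 (smul_set_subset_smul_set_iff.1 h')⟩

lemma cconj (u : G) (h : Commute x y) : Commute (u⁻¹ * x * u) (u⁻¹ * y * u) := by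
  unfold Commute SemiconjBy
  rw [show u⁻¹ * x * u * (u⁻¹ * y * u) = u⁻¹ * (x * y) * u by group, h.eq]; group

lemma fix_zpow (e : g * y = y * a ^ n) (m : ℤ) : g ^ m * y = y * a ^ (n * m) := by
  have : g = y * a ^ n * y⁻¹ := by rw [← e]; group
  rw [this, conj_zpow]; group

lemma flipL (e : g • X ⊂ X) : g⁻¹ • Xᶜ ⊂ Xᶜ := by
  have h1 : X ⊂ g⁻¹ • X := by
    have := ss (g⁻¹) e
    rwa [inv_smul_smul] at this
  rw [smul_set_compl]
  exact compl_lt_compl_iff_lt.2 h1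

lemma escape (hX : HH X) (e : g • X ⊂ X) (y : G) : ∃ N : ℕ, ∀ m ≥ N, g ^ m * y ∈ X := by
  have h1 : StrictMono fun m : ℕ => (g ^ m)⁻¹ • X := strictMono_nat_of_lt_succ fun m => by
    have := ss ((g ^ (m + 1))⁻¹) e
    rwa [smul_smul, (show (g ^ (m + 1))⁻¹ * g = (g ^ m)⁻¹ by group)] at this
  obtain ⟨z, hz⟩ := hX.ne
  have : ∃ N : ℕ, y ∈ (g ^ N)⁻¹ • X := by
    by_contra hc
    push Not at hc
    exact Set.infinite_of_injective_forall_mem (s := Sep y z) h1.injective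
      (fun m => ⟨hX.smul _, hc m, h1.monotone (Nat.zero_le m) (by simpa using hz)⟩) (sep_fin y z)
  obtain ⟨N, hN⟩ := this
  exact ⟨N, fun m hm => by simpa using mem_smul.1 (h1.monotone hm hN)⟩

lemma Ell.not (h : Ell g) (hX : HH X) : ¬ g • X ⊂ X := fun e => by
  obtain ⟨y, n, h⟩ := h
  obtain ⟨N, hN⟩ := escape hX e y
  obtain ⟨M, hM⟩ := escape hX.compl (flipL e) y
  have h1 := hN N le_rfl
  have h2 := hM M le_rfl
  rw [← zpow_natCast, fix_zpow h, hX.right] at h1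
  rw [inv_pow, ← zpow_natCast, ← zpow_neg, fix_zpow h, hX.compl.right] at h2
  exact h2 h1

lemma chain (hX : HH X) (hY : HH Y) (e : g • X ⊂ X) (e' : g • Y ⊂ Y) : X ⊆ Y ∨ Y ⊆ X := by
  obtain ⟨N, hN⟩ := escape hX e 1
  obtain ⟨N', hN'⟩ := escape hY e' 1
  obtain ⟨M, hM⟩ := escape hX.compl (flipL e) 1
  obtain ⟨M', hM'⟩ := escape hY.compl (flipL e') 1
  rcases nest hX hY with h | h | h | h
  · exact Or.inl h
  · exact (h (hN (N + N') (by omega)) (hN' (N + N') (by omega))).elim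
  · exact (hM' (M + M') (by omega) (h (hM (M + M') (by omega)))).elim
  · exact Or.inr (compl_subset_compl.1 h)

lemma noX (hX : HH X) (hY : HH Y) (h1 : X ⊆ Y ∨ Y ⊆ X) (h2 : X ⊆ Yᶜ ∨ Yᶜ ⊆ X) : False := by
  obtain ⟨p, hp⟩ := hX.ne
  obtain ⟨q, hq⟩ := hX.compl.ne
  obtain ⟨r, hr⟩ := hY.ne
  obtain ⟨s, hs⟩ := hY.compl.ne
  rcases h1 with h1 | h1 <;> rcases h2 with h2 | h2
  · exact h2 hp (h1 hp)
  · exact hs (h1 (h2 hs))
  · exact h2 (h1 hr) hr
  · exact hq (h2 fun h => hq (h1 h))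

lemma HH.ell (hX : HH X) (e : g • X = X) : Ell g := by
  obtain ⟨y, b, rfl⟩ := hX
  obtain ⟨n, -, h⟩ := stab e
  exact ⟨y, n, h⟩

lemma dich (g : G) : Ell g ∨ Hyp g := by
  by_contra hc
  push Not at hc
  obtain ⟨x0, hx0⟩ : ∃ x0, ∀ x, (Sep x0 (g * x0)).ncard ≤ (Sep x (g * x)).ncard :=
    ⟨Function.argmin fun x => (Sep x (g * x)).ncard, fun x => Function.argmin_le (fun x => (Sep x (g * x)).ncard) x⟩
  rcases tri (x0⁻¹ * (g * x0)) with ⟨n, e⟩ | ⟨n, b, w, h1, e⟩ <;> rw [inv_mul_eq_iff_eq_mul] at e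
  · exact hc.1 ⟨x0, n, e⟩
  set x := x0 * a ^ n with hx
  have hA : HH (Hs x b) := ⟨_, _, rfl⟩
  have m0 : ∀ X, HH X → (x ∈ X ↔ x0 ∈ X) := fun X h => h.right n
  have m1 : ∀ X, HH X → (g * x ∈ X ↔ g * x0 ∈ X) := fun X h => by rw [hx, ← mul_assoc, h.right]
  have a1 : g * x ∈ Hs x b := (m1 _ hA).2 (by rw [e]; simpa [Hs, hx, mul_assoc] using h1)
  have a2 : g * x * T b ∈ Hs x b := by
    by_contra h
    exact hA.noinv (k := g) (by rw [smul_Hs]; exact (hA.compl.uniq (not_not.2 a1) h).symm)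
  refine (hx0 (x * T b)).not_gt (ncard_lt_ncard ⟨fun B hB => ⟨hB.1, fun h => ?_, ?_⟩, fun h => ?_⟩
    (sep_fin _ _))
  · have := hB.1.compl.uniq (not_not.2 ((m0 _ hB.1).2 h)) hB.2.1
    rw [← this, mul_assoc] at a2
    exact a2 hB.2.2
  · by_contra h
    have e1 := hB.1.uniq (mt (m1 _ hB.1).1 h) (by simpa [mul_assoc] using hB.2.2)
    have b1 : x ∉ B := fun h => by
      have := hB.1.compl.uniq (not_not.2 h) hB.2.1
      rw [← this, mul_assoc] at a2
      exact a2 hB.2.2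
    have b2 : g * x ∉ B := e1 ▸ not_mem_Hs _ _
    refine hc.2 ⟨_, hA, ?_⟩
    rw [smul_Hs, ← e1]
    rcases nest hB.1 hA with h | h | h | h
    · exact ⟨h, fun h' => b2 (h' a1)⟩
    · exact (h hB.2.2 (by simpa [mul_assoc] using a2)).elim
    · exact (not_mem_Hs _ _ (h b1)).elim
    · exact (h b2 a1).elim
  · exact (h ⟨hA, mt (m0 _ hA).2 (not_mem_Hs _ _), (m1 _ hA).1 a1⟩).2.1 (mem_Hs _ _)

lemma odd_aux (h : R b w) : ∀ c c' : ℤ, a ^ (2 * c) * w = w * a ^ c' →
    ∃ c'' : ℤ, a ^ c * w = w * a ^ c'' := by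
  have key : ∀ b w, R b w → ∀ c c' : ℤ, a ^ (2 * c) * w = w * a ^ c' → ∃ j, c = mA (!b) * j :=
    fun b w h c c' e => by
      have := ((h.right c').disj h e.symm).2
      change mA (!b) ∣ c
      cases b <;> simp only [mA] at this ⊢ <;> simp at this ⊢ <;> omega
  induction h with
  | base b n =>
    intro c c' e
    obtain ⟨j, rfl⟩ := key b _ (.base b n) c c' e
    exact ⟨mA b * j, by rw [← mul_assoc, pass]; group⟩
  | step b n d z h1 h2 ih =>
    intro c c' e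
    obtain ⟨j, rfl⟩ := key b _ (.step b n d z h1 h2) c c' e
    rw [mul_left_comm, ← mul_assoc, ← mul_assoc, pass] at e
    obtain ⟨c'', h⟩ := ih (mA b * j) c' (by
      rw [← mul_right_inj (T b * a ^ n), ← mul_assoc (T b * a ^ n) z, ← e]; group)
    exact ⟨c'', by rw [← mul_assoc, ← mul_assoc, pass, mul_assoc (T b * a ^ n) z, ← h]; group⟩

lemma odd (hk : Ell k) (hX : HH X) (e : (k * k) • X = X) : k • X = X := by
  obtain ⟨y, c, hk⟩ := hk
  obtain ⟨g, b, rfl⟩ := hX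
  obtain ⟨n, hn, e⟩ := stab e
  have hk' : k = y * a ^ c * y⁻¹ := by rw [← hk]; group
  have : ∃ c' : ℤ, k * g = g * a ^ c' := by
    rcases tri (y⁻¹ * g) with ⟨m, e1⟩ | ⟨m, d, w, h1, e1⟩ <;> rw [inv_mul_eq_iff_eq_mul] at e1
    · exact ⟨c, by rw [e1, hk']; group⟩
    · obtain ⟨c', h⟩ := odd_aux h1 c n (by
        rw [← mul_right_inj (y * a ^ m), ← mul_assoc (y * a ^ m) w, mul_assoc y _ w, ← e1, ← e, e1,
          hk']; group)
      refine ⟨c', ?_⟩
      rw [e1, hk', mul_assoc y (a ^ m * w), mul_assoc (a ^ m), ← h]; group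
  obtain ⟨c', h⟩ := this
  have h2 : c' + c' = n := a_inj (by
    rw [← mul_right_inj g, ← e, mul_assoc, h, ← mul_assoc, h]; group)
  have h3 : mA (!b) ∣ c' := by
    cases b <;> simp only [mA] at hn ⊢ <;> simp at hn ⊢ <;> omega
  rw [smul_Hs, h, ← smul_Hs, Hs_left h3, smul_Hs, mul_one]

lemma common_aux (h : R b w) : ∀ (c c' : ℤ) (x : G), Commute (a ^ c) x → x * w = w * a ^ c' →
    ∃ (y : G) (p q : ℤ), a ^ c * y = y * a ^ p ∧ x * y = y * a ^ q := by
  have key : ∀ b w, R b w → ∀ (c c' : ℤ) (x : G), Commute (a ^ c) x → x * w = w * a ^ c' →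
      (∃ q : ℤ, x = a ^ q) ∨ mA (!b) ∣ c := fun b w h c c' x h1 h2 => by
    by_cases i1 : R b x
    · exact Or.inr ((i1.right c).disj i1 h1.eq.symm).2
    by_cases i2 : R b x⁻¹
    · exact Or.inr ((i2.right c).disj i2 h1.inv_right.eq.symm).2
    have hY : HH (Hs 1 b) := ⟨_, _, rfl⟩
    have hE : Ell x := ⟨w, c', h2⟩
    have h3 := fix_zpow h2 (-1)
    rw [zpow_neg_one] at h3
    have hE' : Ell x⁻¹ := ⟨w, _, h3⟩
    have j1 : w ∈ Hs 1 b := by simpa [Hs] using h
    have j2 : w ∈ x • Hs 1 b := by rw [mem_smul, h3, hY.right]; exact j1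
    have j3 : (1 : G) ∉ x • Hs 1 b := by simpa [mem_smul, Hs] using i2
    have : x • Hs 1 b = Hs 1 b := by
      by_contra hc
      rcases nest (hY.smul x) hY with h | h | h | h
      · exact hE.not hY (h.ssubset_of_ne hc)
      · exact h j2 j1
      · exact not_mem_Hs _ _ (h j3)
      · have := ss (x⁻¹)
          ((compl_subset_compl.1 h).ssubset_of_ne (Ne.symm hc))
        rw [inv_smul_smul] at this
        exact hE'.not hY this
    obtain ⟨q, -, hq⟩ := stab this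
    exact Or.inl ⟨q, by simpa using hq⟩
  induction h with
  | base b n =>
    intro c c' x h1 h2
    rcases key b _ (.base b n) c c' x h1 h2 with ⟨q, rfl⟩ | ⟨j, rfl⟩
    · exact ⟨1, c, q, by simp, by simp⟩
    · exact ⟨_, mA b * j, c', by rw [← mul_assoc, pass]; group, h2⟩
  | step b n d z h3 h4 ih =>
    intro c c' x h1 h2
    rcases key b _ (.step b n d z h3 h4) c c' x h1 h2 with ⟨q, rfl⟩ | ⟨j, rfl⟩
    · exact ⟨1, c, q, by simp, by simp⟩
    · have e : a ^ (mA b * j) = (T b * a ^ n)⁻¹ * a ^ (mA (!b) * j) * (T b * a ^ n) := by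
        rw [mul_assoc, ← mul_assoc _ (T b), pass]; group
      obtain ⟨y, p, q, h5, h6⟩ := ih (mA b * j) c' ((T b * a ^ n)⁻¹ * x * (T b * a ^ n))
        (by rw [e]; exact cconj _ h1)
        (by rw [mul_assoc, mul_assoc, h2]; group)
      rw [e] at h5
      exact ⟨T b * a ^ n * y, p, q, by rw [mul_assoc (T b * a ^ n) y, ← h5]; group,
        by rw [mul_assoc (T b * a ^ n) y, ← h6]; group⟩

lemma common (h1 : Ell g) (h2 : Ell k) (h : Commute g k) :
    ∃ (y : G) (p q : ℤ), g * y = y * a ^ p ∧ k * y = y * a ^ q := by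
  obtain ⟨y, c, h1⟩ := h1
  obtain ⟨z, c', h2⟩ := h2
  rcases tri (y⁻¹ * z) with ⟨m, e1⟩ | ⟨m, d, w, h3, e1⟩ <;> rw [inv_mul_eq_iff_eq_mul] at e1
  · exact ⟨z, c, c', by rw [e1, ← mul_assoc, h1]; group, h2⟩
  have e : a ^ c = (y * a ^ m)⁻¹ * g * (y * a ^ m) := by rw [mul_assoc, ← mul_assoc g, h1]; group
  obtain ⟨u, p, q, h5, h6⟩ := common_aux h3 c c' ((y * a ^ m)⁻¹ * k * (y * a ^ m))
    (by rw [e]; exact cconj _ h)
    (by rw [mul_assoc, mul_assoc, mul_assoc y, ← e1, h2, e1]; group)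
  rw [e] at h5
  exact ⟨y * a ^ m * u, p, q, by rw [mul_assoc (y * a ^ m) u, ← h5]; group,
    by rw [mul_assoc (y * a ^ m) u, ← h6]; group⟩

lemma axis {K : Type} [Group K] (ι : K →* G) (h : K) (hh : Hyp (ι h))
    (hc : ∀ k, Commute h (k * h * k⁻¹)) :
    ∃ τ : K →* Multiplicative ℤ, τ h ≠ 1 ∧ ∀ k, τ k = 1 → Ell (ι k) := by
  let L := {X : Set G // HH X ∧ ι h • X ⊂ X}
  have hne : ¬ Ell (ι h) := fun e => by obtain ⟨X, h1, h2⟩ := hh; exact e.not h1 h2
  have conj : ∀ k (X : L), ι (k * h * k⁻¹) • (ι k • X.1) ⊂ ι k • X.1 := fun k X => by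
    have := ss (ι k) X.2.2
    rwa [smul_smul, (show ι k * ι h = ι (k * h * k⁻¹) * ι k by simp), mul_smul] at this
  have alt : ∀ k (X : L), ι h • (ι k • X.1) ⊂ ι k • X.1 ∨ ι h • (ι k • X.1)ᶜ ⊂ (ι k • X.1)ᶜ := by
    intro k X
    have h1 := X.2.1.smul (ι k)
    have h2 := ss (ι h) (conj k X)
    rw [smul_smul, ← map_mul, (hc k).eq, map_mul, mul_smul] at h2
    have h3 : ι h • ι k • X.1 ≠ ι k • X.1 := fun e => hne (h1.ell e)
    rcases chain (h1.smul _) h1 h2 (conj k X) with h4 | h4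
    · exact Or.inl (h4.ssubset_of_ne h3)
    · rw [smul_set_compl]
      exact Or.inr (compl_lt_compl_iff_lt.2 (h4.ssubset_of_ne h3.symm))
  have pres : ∀ k (X : L), ι h • (ι k • X.1) ⊂ ι k • X.1 := by
    intro k X0
    refine (alt k X0).resolve_right fun h0 => ?_
    have rev : ∀ X : L, ι h • (ι k • X.1)ᶜ ⊂ (ι k • X.1)ᶜ := fun X =>
      (alt k X).resolve_left fun h1 => noX (X.2.1.smul (ι k)) (X0.2.1.smul (ι k))
        ((chain X.2.1 X0.2.1 X.2.2 X0.2.2).imp smul_set_mono smul_set_mono)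
        (chain (X.2.1.smul _) (X0.2.1.smul _).compl h1 h0)
    let Y0 : L := ⟨_, (X0.2.1.smul (ι k)).compl, h0⟩
    have h2 := rev Y0
    have e2 : (ι k • Y0.1)ᶜ = (ι k * ι k) • X0.1 := by
      simp only [Y0, smul_set_compl, compl_compl, mul_smul]
    rw [e2] at h2
    have cXY := chain X0.2.1 Y0.2.1 X0.2.2 Y0.2.2
    have e3 : (ι k * ι k) • X0.1 = X0.1 := by
      by_contra hc
      have tr : ∀ u : G, Commute (ι k) u → u • X0.1 ⊂ X0.1 → False := fun u hu h3 => by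
        have := ss (ι k) h3
        rw [smul_smul, hu.eq, mul_smul] at this
        exact noX X0.2.1 Y0.2.1 cXY (by
          simpa [Y0] using chain X0.2.1 (X0.2.1.smul _) h3 this)
      rcases chain (X0.2.1.smul _) X0.2.1 h2 X0.2.2 with h3 | h3
      · exact tr _ ((Commute.refl _).mul_right (Commute.refl _)) (h3.ssubset_of_ne hc)
      · have := ss ((ι k * ι k)⁻¹)
          (h3.ssubset_of_ne (Ne.symm hc))
        rw [inv_smul_smul] at this
        exact tr _ ((Commute.refl _).mul_right (Commute.refl _)).inv_right this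
    have hk : Ell (ι k) := (dich _).resolve_right fun ⟨Z, h3, h4⟩ => (X0.2.1.ell e3).not h3 (by
      rw [mul_smul]
      exact (ss (ι k) h4).trans h4)
    have e4 := odd hk X0.2.1 e3
    exact noX X0.2.1 Y0.2.1 cXY (Or.inl (by simp [Y0, e4]))
  classical
  let _ : LinearOrder L :=
    { (inferInstance : PartialOrder L) with
      le_total := fun X Y => chain X.2.1 Y.2.1 X.2.2 Y.2.2
      toDecidableLE := Classical.decRel _ }
  let _ : LocallyFiniteOrder L := LocallyFiniteOrder.ofFiniteIcc fun X Y => by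
    obtain ⟨z, hz⟩ := X.2.1.ne
    obtain ⟨y, hy⟩ := Y.2.1.compl.ne
    exact ((sep_fin y z).preimage Subtype.val_injective.injOn).subset
      fun Z hZ => ⟨Z.2.1, fun h => hy (hZ.2 h), hZ.1 hz⟩
  let σ : K → L ≃o L := fun k =>
    { toFun := fun X => ⟨ι k • X.1, X.2.1.smul _, pres k X⟩
      invFun := fun X => ⟨ι k⁻¹ • X.1, X.2.1.smul _, pres k⁻¹ X⟩
      left_inv := fun X => Subtype.ext (by simp)
      right_inv := fun X => Subtype.ext (by simp)
      map_rel_iff' := fun {X Y} => smul_set_subset_smul_set_iff }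
  have hσ : ∀ X, σ h X < X := fun X => X.2.2
  have : NoMinOrder L := ⟨fun X => ⟨_, hσ X⟩⟩
  have : NoMaxOrder L := ⟨fun X => ⟨(σ h).symm X, by simpa using hσ ((σ h).symm X)⟩⟩
  have : Nonempty L := let ⟨X, h⟩ := hh; ⟨⟨X, h⟩⟩
  let _ := LinearLocallyFiniteOrder.succOrder L
  let _ := LinearLocallyFiniteOrder.predOrder L
  let e : L ≃o ℤ := orderIsoIntOfLinearSuccPredArch
  have tr : ∀ (f : ℤ ≃o ℤ) (n : ℤ), f n = n + f 0 := fun f n => by
    have hs : ∀ n, f (n + 1) = f n + 1 := fun n => f.map_succ n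
    induction n using Int.induction_on with
    | zero => simp
    | succ n ih => rw [hs, ih]; ring
    | pred n ih => have := hs (-n - 1); rw [sub_add_cancel, ih] at this; linarith
  let f : K → ℤ ≃o ℤ := fun k => e.symm.trans ((σ k).trans e)
  refine ⟨MonoidHom.mk' (fun k => Multiplicative.ofAdd (f k 0)) fun p q => ?_, fun h0 => ?_,
    fun k h0 => ?_⟩
  · have : f (p * q) 0 = f p (f q 0) := by
      simp only [f, OrderIso.trans_apply, OrderIso.symm_apply_apply]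
      exact congrArg e (Subtype.ext (by simp [σ, mul_smul]))
    rw [this, tr (f p), ← ofAdd_add, add_comm]
  · have h1 : e (σ h (e.symm 0)) = 0 := h0
    have := e.strictMono (hσ (e.symm 0))
    simp [h1] at this
  · have h1 : e (σ k (e.symm 0)) = 0 := h0
    exact (e.symm 0).2.1.ell (congrArg Subtype.val (e.eq_symm_apply.2 h1))

lemma exists_ht : ∃ ht : G →* Multiplicative ℤ, ht a = 1 ∧ ht t = Multiplicative.ofAdd 1 ∧
    ∀ (y : G) (n m : ℤ), a ^ n * y = y * a ^ m → (n : ℚ) = (5 / 3) ^ (ht y).toAdd * m := by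
  obtain ⟨ht, h1, h2⟩ := exists_lift (1 : Multiplicative ℤ) (Multiplicative.ofAdd 1) (by simp)
  have z : ∀ (n : ℤ) (x : ℚ), (Equiv.addRight (1 : ℚ) ^ n) x = x + n := fun n x => by
    induction n using Int.induction_on generalizing x with
    | zero => simp
    | succ n ih => rw [zpow_add_one, Equiv.Perm.mul_apply, ih]; simp; ring
    | pred n ih => rw [zpow_sub_one, Equiv.Perm.mul_apply, ih]; simp [Equiv.Perm.inv_def]; ring
  obtain ⟨ρ, h3, h4⟩ := exists_lift (Equiv.addRight (1 : ℚ) : Equiv.Perm ℚ)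
    (Equiv.mulLeft₀ (5 / 3 : ℚ) (by norm_num)) (by
      rw [mul_inv_eq_iff_eq_mul]
      ext x
      simp only [Equiv.Perm.coe_mul, Function.comp, z]
      simp; ring)
  have key : ∀ y : G, ∀ u v : ℚ, ρ y u - ρ y v = (5 / 3) ^ (ht y).toAdd * (u - v) := by
    intro y
    induction y using ind_left with
    | h1 => simp
    | ha n x ih => intro u v; simp [h1, h3, z, ih]
    | ht b x ih =>
      intro u v
      have := ih u v
      cases b
      · simp only [T, Bool.false_eq_true, if_false, map_mul, map_inv, h2, h4, toAdd_mul, toAdd_inv,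
          toAdd_ofAdd, Equiv.Perm.coe_mul, Function.comp, Equiv.Perm.inv_def,
          Equiv.mulLeft₀_symm_apply]
        rw [zpow_add₀ (by norm_num), ← mul_sub, this]; simp [mul_assoc]
      · simp only [T, if_true, map_mul, h2, h4, toAdd_mul,
          toAdd_ofAdd, Equiv.Perm.coe_mul, Function.comp, Equiv.mulLeft₀_apply]
        rw [zpow_add₀ (by norm_num), ← mul_sub, this]; simp [mul_assoc]
  refine ⟨ht, h1, h2, fun y n m e => ?_⟩
  have := congrArg (fun g => ρ g 0) e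
  simp only [map_mul, map_zpow, h3, Equiv.Perm.coe_mul, Function.comp, z] at this
  have h5 := key y (0 + m) 0
  rw [← this] at h5
  simpa using h5

end Pool.Agent.H50.BS
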