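import Pool.Agent.H50.BSB

set_option autoImplicit false

namespace Pool.Agent.H50.BS

open Set

lemma arith {p q c e f : ℤ} (hc : c ≠ 0) (h1 : (p : ℚ) = (5 / 3) ^ e * c)
    (h2 : (p : ℚ) = (5 / 3) ^ (-f) * q) (hf : |c| ≤ f) : False := by
  have tr : ∀ (N : ℕ) (u v : ℤ), (u : ℚ) = (5 / 3) ^ (N : ℤ) * v → u * 3 ^ N = 5 ^ N * v :=
    fun N u v h => by
      have : (u : ℚ) * 3 ^ N = 5 ^ N * v := by rw [h, zpow_natCast, div_pow]; field_simp
      exact_mod_cast this
  have tr' : ∀ (N : ℕ) (u v : ℤ), (u : ℚ) = (5 / 3) ^ (-N : ℤ) * v → v * 3 ^ N = 5 ^ N * u :=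
    fun N u v h => tr N v u (by rw [h, zpow_neg]; field_simp)
  have cop : ∀ N M : ℕ, IsCoprime ((3 : ℤ) ^ N) (5 ^ M) := fun N M =>
    IsCoprime.pow (Int.isCoprime_iff_gcd_eq_one.2 (by norm_num))
  obtain ⟨N, rfl⟩ := Int.eq_ofNat_of_zero_le ((abs_nonneg c).trans hf)
  have h3 : (3 : ℤ) ^ N ∣ p := (cop N N).dvd_of_dvd_mul_left ⟨q, by rw [← tr' N p q h2]; ring⟩
  have h4 : (N : ℤ) < 3 ^ N := by exact_mod_cast Nat.lt_pow_self (by norm_num)
  obtain ⟨M, rfl | rfl⟩ := Int.eq_nat_or_neg e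
  · have : (3 : ℤ) ^ N ∣ c := (cop N M).dvd_of_dvd_mul_left (tr M p c h1 ▸ h3.mul_right _)
    have := Int.le_of_dvd (abs_pos.2 hc) ((dvd_abs _ _).2 this)
    omega
  · have h5 := congrArg abs (tr' M p c h1)
    have hp : p ≠ 0 := by
      rintro rfl
      simp [hc] at h5
    have h6 := Int.le_of_dvd (abs_pos.2 hp) ((dvd_abs _ _).2 h3)
    rw [abs_mul, abs_mul, abs_of_pos (by positivity : (0 : ℤ) < 3 ^ M),
      abs_of_pos (by positivity : (0 : ℤ) < 5 ^ M)] at h5
    have h7 : (3 : ℤ) ^ M ≤ 5 ^ M := pow_le_pow_left₀ (by norm_num) (by norm_num) _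
    have h8 : (0 : ℤ) < 3 ^ M := by positivity
    have := abs_nonneg p
    nlinarith

theorem metab {K : Type} [Group K] (ι : K →* G) (hι : Function.Injective ι)
    (hm : ∀ x ∈ commutator K, ∀ y ∈ commutator K, Commute x y) (p q : K) : p * q = q * p := by
  obtain ⟨ht, -, -, hht⟩ := exists_ht
  have nrm : ∀ x ∈ commutator K, ∀ k, k * x * k⁻¹ ∈ commutator K := fun x hx k =>
    (inferInstance : (commutator K).Normal).conj_mem x hx k
  have s1 : ∀ x ∈ commutator K, Ell (ι x) := fun x hx => (dich _).resolve_right fun h => by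
    obtain ⟨τ, h1, -⟩ := axis ι x h fun k => hm x hx _ (nrm x hx k)
    exact h1 (Abelianization.commutator_subset_ker τ hx)
  have s2 : ∀ x ∈ commutator K, ∀ k, Commute k x := fun x hx k => by
    obtain ⟨y0, c, h0⟩ := s1 x hx
    have key : ∀ k, ∃ (y : G) (p q e : ℤ), ι x * y = y * a ^ p ∧ ι (k * x * k⁻¹) * y = y * a ^ q ∧
        (p : ℚ) = (5 / 3) ^ e * c ∧ (p : ℚ) = (5 / 3) ^ (-(ht (ι k)).toAdd) * q := fun k => by
      obtain ⟨y, p, q, h1, h2⟩ := common (s1 x hx) (s1 _ (nrm x hx k))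
        ((hm x hx _ (nrm x hx k)).map ι)
      have e : a ^ p = y⁻¹ * ι x * y := by rw [mul_assoc, h1]; group
      refine ⟨y, p, q, _, h1, h2, hht (y⁻¹ * y0) p c (by rw [e, mul_assoc y⁻¹ y0, ← h0]; group), ?_⟩
      have := hht (y⁻¹ * (ι k)⁻¹ * y) p q (by
        rw [e, mul_assoc _ y (a ^ q), ← h2, map_mul, map_mul, map_inv]; group)
      simpa using this
    by_cases hc : c = 0
    · have : x = 1 := hι (by simpa [hc] using h0)
      rw [this]; exact Commute.one_right _
    by_cases hk : (ht (ι k)).toAdd = 0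
    · obtain ⟨y, p, q, e, h1, h2, -, h3⟩ := key k
      have : p = q := by simpa [hk] using h3
      rw [← this, ← h1, mul_left_inj] at h2
      exact mul_inv_eq_iff_eq_mul.1 (hι h2)
    · obtain ⟨y, p, q, e, -, -, h2, h3⟩ := key (k ^ ((ht (ι k)).toAdd * |c|))
      refine (arith hc h2 h3 ?_).elim
      rw [map_zpow, map_zpow, toAdd_zpow, smul_eq_mul]
      have := abs_pos.2 hc
      have := mul_self_pos.2 hk
      nlinarith
  have cm : ∀ g k : K, g * k * g⁻¹ * k⁻¹ ∈ commutator K := fun g k =>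
    Subgroup.commutator_mem_commutator (Subgroup.mem_top g) (Subgroup.mem_top k)
  have s3 : ∀ k, Ell (ι k) → ∀ g, g * k = k * g := fun k hk g => by
    obtain ⟨z, hz⟩ : ∃ z, z = g * k * g⁻¹ * k⁻¹ := ⟨_, rfl⟩
    have h0 : z ∈ commutator K := hz ▸ cm g k
    obtain ⟨y, p, q, h1, h2⟩ := common hk (s1 z h0) ((s2 z h0 k).map ι)
    have e1 : k ^ q = z ^ p := hι (by
      rw [map_zpow, map_zpow, ← mul_left_inj y, fix_zpow h1, fix_zpow h2, mul_comm p])
    have e2 : (z * k) ^ q = k ^ q := by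
      rw [show z * k = g * k * g⁻¹ by rw [hz]; group, conj_zpow, e1,
        ((s2 z h0 g).zpow_right p).eq]; group
    rw [(s2 z h0 k).symm.mul_zpow, mul_eq_right] at e2
    have e3 := fix_zpow h2 q
    rw [← map_zpow, e2, map_one, one_mul, eq_comm, mul_eq_left] at e3
    have e4 : q = 0 := mul_self_eq_zero.1 (britton.1 _ e3)
    have e5 : z = 1 := hι (by simpa [e4] using h2)
    rw [e5, eq_comm, mul_inv_eq_one, mul_inv_eq_iff_eq_mul] at hz
    exact hz
  rcases dich (ι q) with h | h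
  · exact s3 q h p
  obtain ⟨τ, -, h2⟩ := axis ι q h fun k => by
    rw [show k * q * k⁻¹ = k * q * k⁻¹ * q⁻¹ * q by group]
    exact (s2 _ (cm k q) q).mul_right (Commute.refl q)
  exact (τ.isMulCommutative_of_isCyclic_of_ker_le_center fun k hk =>
    Subgroup.mem_center_iff.2 (s3 k (h2 k hk))).is_comm.comm p q

abbrev Lt := Fin 2 × Bool

def ev (w : List Lt) : G := PresentedGroup.mk _ (FreeGroup.mk w)

lemma ev_append (u v : List Lt) : ev (u ++ v) = ev u * ev v := by
  rw [ev, ← FreeGroup.mul_mk, map_mul]; rfl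

lemma ev_nil : ev [] = 1 := rfl

lemma ev_a (b : Bool) : ev [(0, b)] = a ^ (if b then 1 else -1 : ℤ) := by
  cases b
  · rw [if_neg (by simp), zpow_neg_one]; rfl
  · rw [if_pos rfl, zpow_one]; rfl

lemma ev_t (b : Bool) : ev [(1, b)] = T b := by cases b <;> rfl

/-- path integral of a cochain carried by the edges labelled `t` -/
def I (ψ : G → ℤ) : G → List Lt → ℤ
  | _, [] => 0
  | g, x :: w => (if x.1 = 0 then 0 else if x.2 then ψ g else - ψ (g * t⁻¹)) + I ψ (g * ev [x]) w

lemma I_append (ψ : G → ℤ) (u v : List Lt) : ∀ g, I ψ g (u ++ v) = I ψ g u + I ψ (g * ev u) v := by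
  induction u with
  | nil => simp [I, ev_nil]
  | cons x u ih =>
    intro g
    rw [List.cons_append, I, I, ih, mul_assoc, ← ev_append, add_assoc]; rfl

lemma I_sub (ψ χ : G → ℤ) (c : ℤ) (w : List Lt) :
    ∀ g, I (fun x => ψ x - c * χ x) g w = I ψ g w - c * I χ g w := by
  induction w with
  | nil => simp [I]
  | cons x u ih => intro g; simp only [I, ih]; split_ifs <;> ring

lemma I_bd (ψ : G → ℤ) (D : ℤ) (hD : 0 ≤ D) (w : List Lt) : ∀ g,
    (∀ u : List Lt, u.length ≤ w.length → |ψ (g * ev u)| ≤ D) → |I ψ g w| ≤ w.length * D := by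
  induction w with
  | nil => simp [I]
  | cons x w ih =>
    intro g h
    have h1 := ih (g * ev [x]) fun u hu => by
      rw [mul_assoc, ← ev_append]; exact h _ (by simpa using hu)
    have h2 := h [] (by simp)
    have h3 := h [(1, false)] (by simp)
    rw [ev_nil, mul_one] at h2
    rw [I]
    refine (abs_add_le _ _).trans ?_
    have : |(if x.1 = 0 then 0 else if x.2 then ψ g else - ψ (g * t⁻¹) : ℤ)| ≤ D := by
      split_ifs
      · simpa using hD
      · exact h2
      · rw [abs_neg]; exact h3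
    simp only [List.length_cons]; push_cast; linarith

open Classical in
noncomputable def ph (g : G) : ℤ := if h : ∃ i : ℤ, g = a ^ (5 * i) then h.choose else 0

open Classical in
noncomputable def ch (g : G) : ℤ := if ∃ i : ℤ, g = a ^ (5 * i) then 1 else 0

open Classical in
noncomputable def sd (g : G) : ℤ := if R true g then 1 else 0

lemma ph_eq (i : ℤ) : ph (a ^ (5 * i)) = i := by
  have h : ∃ j : ℤ, a ^ (5 * i) = a ^ (5 * j) := ⟨i, rfl⟩
  rw [ph, dif_pos h]
  have := a_inj h.choose_spec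
  omega

lemma sd_t (g : G) : sd (g * t) = sd g + ch g := by
  classical
  unfold sd ch
  by_cases h : ∃ i : ℤ, g = a ^ (5 * i)
  · rw [if_pos h]
    obtain ⟨i, rfl⟩ := h
    rw [if_pos (by simpa [mA, T] using (R.base true 0).left i), if_neg fun h => R.ne h _ rfl]; rfl
  rw [if_neg h, add_zero]
  refine if_congr ⟨fun h1 => ?_, fun h1 => ?_⟩ rfl rfl <;> by_contra h2
  · obtain ⟨n, hn⟩ := R.exit (d := false) h1 (by simpa [T] using h2)
    have e : g = a ^ n := by simpa [T] using hn
    exact h (by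
      obtain ⟨i, rfl⟩ := (h1.disj (.base true 0) (n := n) (by simp [e, T])).2
      exact ⟨i, e⟩)
  · obtain ⟨n, hn⟩ := R.exit (d := true) h1 h2
    simpa using (h1.disj (.base false 0) (n := n) (by rw [← hn]; simp [T])).1

lemma I_ch (w : List Lt) : ∀ g, I ch g w = sd (g * ev w) - sd g := by
  induction w with
  | nil => simp [I, ev_nil]
  | cons x w ih =>
    intro g
    rw [I, ih, mul_assoc, ← ev_append, List.singleton_append]
    obtain ⟨i, b⟩ := x
    fin_cases i
    · have : sd (g * ev [(0, b)]) = sd g := by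
        classical
        rw [ev_a]
        generalize (if b then 1 else -1 : ℤ) = m
        exact if_congr (by simpa [Hs] using HH.right (X := Hs 1 true) (x := g) ⟨_, _, rfl⟩ m) rfl rfl
      simp [this]
    · have h1 := sd_t g
      have h2 := sd_t (g * t⁻¹)
      rw [inv_mul_cancel_right] at h2
      cases b <;> simp [ev_t, T] <;> linarith

lemma small (K : ℕ) : ∃ C : ℤ, 0 ≤ C ∧ ∀ (g : G) (u v : List Lt), u.length ≤ K → v.length ≤ K →
    ev u = ev v → |I ph g u - I ph g v| ≤ C := by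
  obtain ⟨D, hD⟩ := (((List.finite_length_le Lt K).prod (List.finite_length_le Lt K)).image
    fun p => |ph ((ev p.1)⁻¹ * ev p.2)|).bddAbove
  have hD0 : 0 ≤ D := (abs_nonneg _).trans (hD ⟨([], []), by simp, rfl⟩)
  refine ⟨2 * K * D, by positivity, fun g u v hu hv e => ?_⟩
  obtain ⟨c, hc⟩ : ∃ c : ℤ, ∀ w : List Lt, w.length ≤ K →
      |ph (g * ev w) - c * ch (g * ev w)| ≤ D := by
    by_cases h : ∃ (w : List Lt) (i : ℤ), w.length ≤ K ∧ g * ev w = a ^ (5 * i)
    · obtain ⟨w0, c, h0, h1⟩ := h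
      refine ⟨c, fun w hw => ?_⟩
      by_cases h : ∃ i : ℤ, g * ev w = a ^ (5 * i)
      · rw [ch, if_pos h]
        obtain ⟨i, hi⟩ := h
        have := hD ⟨(w0, w), ⟨h0, hw⟩, rfl⟩
        have e : (ev w0)⁻¹ * ev w = a ^ (5 * (i - c)) := by
          rw [mul_sub, sub_eq_neg_add, zpow_add, zpow_neg, ← hi, ← h1]; group
        simp only [e, ph_eq] at this
        simpa [hi, ph_eq] using this
      · simpa [ph, ch, h] using hD0
    · push Not at h
      exact ⟨0, fun w hw => by simpa [ph, h w _ hw] using hD0⟩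
  have h1 := I_bd (fun x => ph x - c * ch x) D hD0 u g fun w hw => hc w (hw.trans hu)
  have h2 := I_bd (fun x => ph x - c * ch x) D hD0 v g fun w hw => hc w (hw.trans hv)
  rw [I_sub, I_ch] at h1 h2
  rw [e] at h1
  have h3 : (u.length : ℤ) ≤ K := by exact_mod_cast hu
  have h4 : (v.length : ℤ) ≤ K := by exact_mod_cast hv
  rw [abs_le] at h1 h2 ⊢
  constructor <;> nlinarith

lemma big (j : ℕ) : ∃ (W : List Lt) (n : ℤ), W.length ≤ 4 * j + 5 ∧ ev W = a ^ (5 * n) ∧
    ((5 : ℝ) / 3) ^ j ≤ 5 * n ∧ I ph 1 W = -n ∧ I ph a W = 0 := by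
  obtain ⟨ht, h1, h2, -⟩ := exists_ht
  have z : ∀ g, 1 ≤ (ht g).toAdd → ph g = 0 := fun g hg => dif_neg fun ⟨i, hi⟩ => by
    simp [hi, h1] at hg
  have up : ∀ (W : List Lt) (m : ℤ), ev W = a ^ m → (∀ g, 1 ≤ (ht g).toAdd → I ph g W = 0) →
      ∃ (W' : List Lt) (n : ℤ), W'.length ≤ W.length + 4 ∧ ev W' = a ^ (5 * n) ∧ m ≤ 3 * n ∧
        ∀ g, 0 ≤ (ht g).toAdd → I ph g W' = ph g - ph (g * a ^ (5 * n)) := by
    intro W m e h
    obtain ⟨V, r, n, b1, b2, b3, b4, b5⟩ : ∃ (V : List Lt) (r n : ℤ), V.length ≤ 2 ∧ ev V = a ^ r ∧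
        0 ≤ r ∧ m + r = 3 * n ∧ ∀ g, I ph g V = 0 := by
      have : m % 3 = 0 ∨ m % 3 = 1 ∨ m % 3 = 2 := by omega
      rcases this with h | h | h
      · exact ⟨[], 0, m / 3, by simp, by simp [ev_nil], le_rfl, by omega, fun _ => rfl⟩
      · exact ⟨[(0, true)] ++ [(0, true)], 2, m / 3 + 1, by simp,
          by rw [ev_append, ev_a, ← zpow_add]; rfl, by norm_num, by omega, fun _ => by simp [I]⟩
      · exact ⟨[(0, true)], 1, m / 3 + 1, by simp, ev_a _, by norm_num, by omega,
          fun _ => by simp [I]⟩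
    have e1 : ev ([(1, true)] ++ (W ++ V)) * t⁻¹ = a ^ (5 * n) := by
      rw [ev_append, ev_append, ev_t, e, b2, ← zpow_add, b4, mul_inv_eq_iff_eq_mul]
      exact (pass true n).symm
    refine ⟨[(1, true)] ++ (W ++ V) ++ [(1, false)], n, by simp; omega,
      by rw [ev_append, ev_t]; exact e1, by omega, fun g hg => ?_⟩
    rw [I_append, I_append, I_append, b5, h _ (by simp [ev_t, T, h2]; omega), ← e1]
    simp [I, mul_assoc, sub_eq_add_neg]
  have key : ∀ j : ℕ, ∃ (W : List Lt) (m : ℤ), W.length ≤ 4 * j + 1 ∧ ev W = a ^ m ∧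
      ((5 : ℝ) / 3) ^ j ≤ m ∧ ∀ g, 1 ≤ (ht g).toAdd → I ph g W = 0 := by
    intro j
    induction j with
    | zero => exact ⟨[(0, true)], 1, by simp, ev_a _, by simp, fun _ _ => by simp [I]⟩
    | succ j ih =>
      obtain ⟨W, m, a1, a2, a3, a4⟩ := ih
      obtain ⟨W', n, b1, b2, b3, b4⟩ := up W m a2 a4
      refine ⟨W', 5 * n, by omega, b2, ?_, fun g hg => ?_⟩
      · have : (m : ℝ) ≤ 3 * n := by exact_mod_cast b3
        rw [pow_succ]; push_cast; linarith
      · rw [b4 g (by omega), z g hg, z _ (by simpa [h1] using hg), sub_zero]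
  obtain ⟨W, m, a1, a2, a3, a4⟩ := key j
  obtain ⟨W', n, b1, b2, b3, b4⟩ := up W m a2 a4
  refine ⟨W', n, by omega, b2, ?_, ?_, ?_⟩
  · have : (m : ℝ) ≤ 3 * n := by exact_mod_cast b3
    have : (0 : ℝ) < (5 / 3) ^ j := by positivity
    linarith
  · have := ph_eq 0
    rw [b4 1 (by simp), one_mul, ph_eq]
    simpa using this
  · have : ∀ i : ℤ, ph (a * a ^ (5 * i)) = 0 := fun i => dif_neg fun ⟨k, hk⟩ => by
      rw [← zpow_one_add] at hk
      have := a_inj hk
      omega
    rw [b4 a (by simp [h1]), this n]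
    simpa using this 0

theorem not_auto {σ : Type} [Fintype σ] (M : DFA Lt σ) (h1 : ∀ g, ∃ w ∈ M.accepts, ev w = g)
    (k : ℕ) (h2 : ∀ u ∈ M.accepts, ∀ v ∈ M.accepts, ∀ x, ev u * ev [x] = ev v →
      ∀ s : ℕ, ∃ w : List Lt, w.length ≤ k ∧ ev (u.take s) * ev w = ev (v.take s)) : False := by
  classical
  have : ∀ g, ∃ w ∈ M.accepts, ev w = g ∧ ∀ v ∈ M.accepts, ev v = g → w.length ≤ v.length :=
    fun g => by
      obtain ⟨w, ⟨a1, a2⟩, a3⟩ := (measure List.length).wf.has_min
        {w | w ∈ M.accepts ∧ ev w = g} (h1 g)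
      exact ⟨w, a1, a2, fun v b1 b2 => not_lt.1 (a3 v ⟨b1, b2⟩)⟩
  choose W w1 w2 w3 using this
  have : Finite {w : List Lt | w.length ≤ k} := List.finite_length_le Lt k
  have := Fintype.ofFinite {w : List Lt | w.length ≤ k}
  obtain ⟨N, hN⟩ : ∃ N, N = Fintype.card (σ × {w : List Lt | w.length ≤ k}) := ⟨_, rfl⟩
  have len : ∀ g x, (W (g * ev [x])).length ≤ (W g).length + N := fun g x => by
    by_contra hc
    choose c c1 c2 using h2 _ (w1 g) _ (w1 (g * ev [x])) x (by rw [w2, w2])
    set u := W g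
    set v := W (g * ev [x])
    have key : ∀ i j : ℕ, i < j → j ≤ N → M.eval (v.take (u.length + i)) =
        M.eval (v.take (u.length + j)) → c (u.length + i) = c (u.length + j) → False := by
      intro i j a1 a2 a3 a4
      have b1 := c2 (u.length + i)
      have b2 := c2 (u.length + j)
      rw [List.take_of_length_le (by omega)] at b1 b2
      have := w3 (g * ev [x]) (v.take (u.length + i) ++ v.drop (u.length + j)) (by
        rw [DFA.mem_accepts, DFA.eval, DFA.evalFrom_of_append]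
        change M.evalFrom (M.eval _) _ ∈ _
        rw [a3, DFA.eval, ← DFA.evalFrom_of_append, List.take_append_drop]
        exact w1 _) (by rw [ev_append, ← b1, a4, b2, ← ev_append, List.take_append_drop, w2])
      simp only [List.length_append, List.length_take, List.length_drop] at this
      change v.length ≤ _ at this
      omega
    obtain ⟨i, j, a1, a2⟩ := Fintype.exists_ne_map_eq_of_card_lt (fun i : Fin (N + 1) =>
      ((M.eval (v.take (u.length + i)), ⟨c (u.length + i), c1 _⟩) :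
        σ × {w : List Lt | w.length ≤ k})) (by simp [hN])
    simp only [Prod.mk.injEq, Subtype.mk.injEq] at a2
    rcases lt_or_gt_of_ne a1 with h | h
    · exact key i j h (by omega) a2.1 a2.2
    · exact key j i h (by omega) a2.1.symm a2.2.symm
  obtain ⟨C, hC, hs⟩ := small (k + 1)
  have lad : ∀ g x (B : ℕ), (W g).length ≤ B → (W (g * ev [x])).length ≤ B →
      |I ph 1 (W g) + I ph g [x] - I ph 1 (W (g * ev [x]))| ≤ (B + 2) * C := fun g x B b1 b2 => by
    choose c c1 c2 using h2 _ (w1 g) _ (w1 (g * ev [x])) x (by rw [w2, w2])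
    set u := W g
    set v := W (g * ev [x])
    have key : ∀ s : ℕ, |I ph 1 (u.take s) + I ph (ev (u.take s)) (c s) - I ph 1 (v.take s)| ≤
        (s + 1) * C := by
      intro s
      induction s with
      | zero =>
        simpa [I, ev_nil] using hs 1 (c 0) [] ((c1 0).trans k.le_succ) (by simp)
          (by simpa [ev_nil] using c2 0)
      | succ s ih =>
        have d1 := c2 s
        have d2 := c2 (s + 1)
        rw [List.take_add, List.take_add, ev_append, ev_append, ← d1, mul_assoc, mul_assoc,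
          mul_right_inj, ← ev_append, ← ev_append] at d2
        have := hs (ev (u.take s)) _ _ (by have := c1 (s + 1); simp; omega)
          (by have := c1 s; simp; omega) d2
        rw [I_append, I_append, d1] at this
        rw [List.take_add, List.take_add, I_append, I_append, ev_append, one_mul, one_mul]
        rw [abs_le] at ih this ⊢
        push_cast
        constructor <;> linarith [ih.1, ih.2, this.1, this.2]
    have e1 := key B
    have e2 := c2 B
    rw [List.take_of_length_le b1, List.take_of_length_le b2, w2] at e1 e2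
    rw [w2, mul_right_inj] at e2
    have := hs g _ _ ((c1 B).trans k.le_succ) (by simp) e2
    rw [abs_le] at e1 this ⊢
    constructor <;> linarith [e1.1, e1.2, this.1, this.2]
  have tot : ∀ (w : List Lt) (g : G) (B : ℕ), (W g).length + N * w.length ≤ B →
      |I ph 1 (W g) + I ph g w - I ph 1 (W (g * ev w))| ≤ w.length * ((B + 2) * C) := by
    intro w
    induction w with
    | nil => simp [I, ev_nil]
    | cons x w ih =>
      intro g B hB
      have a1 := len g x
      rw [List.length_cons, mul_add, mul_one] at hB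
      have a2 := lad g x B (by omega) (by omega)
      have a3 := ih (g * ev [x]) B (by omega)
      rw [mul_assoc, ← ev_append] at a3
      rw [← List.singleton_append, I_append, List.length_append, List.length_singleton]
      rw [abs_le] at a2 a3 ⊢
      push_cast
      constructor <;> linarith [a2.1, a2.2, a3.1, a3.2]
  obtain ⟨l, hl⟩ : ∃ l, l = (W 1).length := ⟨_, rfl⟩
  have fin : ∀ j : ℕ, 1 ≤ j → ((5 : ℝ) / 3) ^ j ≤ (110 * (l + N * 11 + 2) * C) * j ^ 2 := by
    intro j hj
    obtain ⟨V, n, a1, a2, a3, a4, a5⟩ := big j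
    have b0 : ([(0, true)] ++ V ++ [(0, false)] : List Lt).length ≤ 11 * j := by simp; omega
    have b1 := tot V 1 (l + N * (11 * j)) (by rw [hl]; gcongr; omega)
    have b2 := tot _ 1 (l + N * (11 * j)) (by rw [hl]; gcongr)
    have b3 : ev ([(0, true)] ++ V ++ [(0, false)]) = ev V := by
      rw [ev_append, ev_append, a2, ev_a, ev_a]; simp only [if_true, Bool.false_eq_true, if_false]
      group
    have b4 : I ph 1 ([(0, true)] ++ V ++ [(0, false)]) = 0 := by
      rw [I_append, I_append, ev_a]; simp [I, a5]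
    rw [b3, b4] at b2
    rw [a4] at b1
    have c0 : (0 : ℤ) ≤ ((l + N * (11 * j) : ℕ) + 2) * C := by positivity
    have c1 := mul_le_mul_of_nonneg_right (show (V.length : ℤ) ≤ 11 * j by omega) c0
    have c2 := mul_le_mul_of_nonneg_right (Int.ofNat_le.2 b0) c0
    rw [Nat.cast_mul 11 j, Nat.cast_ofNat] at c2
    have c3 : (((l + N * (11 * j) : ℕ) : ℤ) + 2) * C ≤ (l + N * 11 + 2) * j * C := by
      gcongr
      push_cast
      have : (1 : ℤ) ≤ j := by exact_mod_cast hj
      nlinarith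
    have c4 := mul_le_mul_of_nonneg_left c3 (show (0 : ℤ) ≤ 11 * j by positivity)
    rw [abs_le] at b1 b2
    have c5 : 5 * n ≤ (110 * (l + N * 11 + 2) * C) * j ^ 2 := by
      nlinarith [b1.1, b2.2]
    exact a3.trans (by exact_mod_cast c5)
  obtain ⟨E, hE⟩ : ∃ E : ℝ, E = 110 * (l + N * 11 + 2) * C := ⟨_, rfl⟩
  have t1 := (tendsto_pow_const_div_const_pow_of_one_lt 2
    (show (1 : ℝ) < 5 / 3 by norm_num)).const_mul E
  rw [mul_zero] at t1
  obtain ⟨j, a1, a2⟩ := ((t1.eventually (gt_mem_nhds one_pos)).and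
    (Filter.eventually_ge_atTop 1)).exists
  have := fin j a2
  rw [← mul_div_assoc, div_lt_one (by positivity), hE] at a1
  linarith

end Pool.Agent.H50.BS
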