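import Mathlib

namespace Pool.Agent.H50.Bif

open Set Filter Topology
open scoped ContDiff

def F (x w : ℝ) : ℝ := w * (x ^ 2 * w ^ 2 + 3 * x * w + 3)

def f (p : Fin 2 → ℝ) : ℝ := F (p 0) (p 1 ^ 2 - 1)

noncomputable def sg (y : ℝ) : ℝ := if 0 ≤ y then 1 else -1

noncomputable def G (p : Fin 2 → ℝ) : ℝ := sg (p 1) * Real.exp (p 0 - (p 1 ^ 2 - 1))

def D : Set ℝ := Ioo (0 - 3 / 8) (0 + 3 / 8)

lemma sg_sq (y : ℝ) : sg y * sg y = 1 := by unfold sg; split_ifs <;> norm_num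

lemma G_ne (p : Fin 2 → ℝ) : G p ≠ 0 :=
  mul_ne_zero (left_ne_zero_of_mul_eq_one (sg_sq _)) (Real.exp_ne_zero _)

lemma small {x w : ℝ} (h : F x w ∈ D) : -1 / 2 < w ∧ w < 1 / 2 := by
  obtain ⟨h1, h2⟩ := h
  unfold F at h1 h2
  have : 3 / 4 ≤ x ^ 2 * w ^ 2 + 3 * x * w + 3 := by nlinarith [sq_nonneg (x * w + 3 / 2)]
  constructor <;> by_contra h <;> nlinarith

lemma jac {x w : ℝ} (h1 : -1 / 2 < w) (h2 : w < 1 / 2) :
    0 < w ^ 2 * (2 * x * w + 3) + 3 * (x * w + 1) ^ 2 := by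
  rcases eq_or_ne w 0 with rfl | h
  · norm_num
  have h3 : 0 < w ^ 2 := by positivity
  have h4 : w ^ 2 < 1 := by nlinarith
  nlinarith [sq_nonneg (x * w + 1 + w ^ 2 / 3), mul_pos h3 (sub_pos.2 h4)]

lemma mono (v : ℝ) : StrictMonoOn (fun w => F (v + w) w) (Icc (-1 / 2) (1 / 2)) := by
  refine strictMonoOn_of_deriv_pos (convex_Icc _ _) (by unfold F; fun_prop) fun w hw => ?_
  rw [interior_Icc] at hw
  have h := hasDerivAt_id' w
  have : HasDerivAt (fun w => F (v + w) w) _ w :=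
    h.fun_mul ((((((h.const_add v).fun_pow 2).fun_mul (h.fun_pow 2))).fun_add
      (((h.const_add v).const_mul 3).fun_mul h)).add_const 3)
  rw [this.deriv]
  have := jac (x := v + w) hw.1 hw.2
  norm_num
  nlinarith

lemma inj : InjOn (fun p => (f p, G p)) (f ⁻¹' D) := fun p hp q hq h => by
  obtain ⟨h1, h2⟩ := Prod.mk.inj h
  obtain ⟨a1, a2⟩ := small hp
  obtain ⟨b1, b2⟩ := small hq
  have e1 := Real.exp_pos (p 0 - (p 1 ^ 2 - 1))
  have e2 := Real.exp_pos (q 0 - (q 1 ^ 2 - 1))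
  have h3 : (0 ≤ p 1 ↔ 0 ≤ q 1) ∧ p 0 - (p 1 ^ 2 - 1) = q 0 - (q 1 ^ 2 - 1) := by
    unfold G sg at h2
    split_ifs at h2 with c1 c2 c2
    · exact ⟨by simp [c1, c2], Real.exp_injective (by linarith)⟩
    · linarith
    · linarith
    · exact ⟨by simp [c1, c2], Real.exp_injective (by linarith)⟩
  have h4 : p 1 ^ 2 - 1 = q 1 ^ 2 - 1 :=
    (mono (p 0 - (p 1 ^ 2 - 1))).injOn ⟨a1.le, a2.le⟩ ⟨b1.le, b2.le⟩ (by
      simp only [sub_add_cancel]
      rw [h3.2, sub_add_cancel]; exact h1)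
  have h5 : p 1 = q 1 := by
    rcases sq_eq_sq_iff_eq_or_eq_neg.1 (show p 1 ^ 2 = q 1 ^ 2 by linarith) with h | h
    · exact h
    · by_cases c : 0 ≤ p 1
      · linarith [h3.1.1 c]
      · linarith [not_le.1 c, not_le.1 (mt h3.1.2 c)]
  ext i; fin_cases i
  · simpa [h5] using h3.2
  · exact h5

lemma surj {t g : ℝ} (ht : t ∈ D) (hg : g ≠ 0) : ∃ p, f p = t ∧ G p = g := by
  let v := Real.log |g|
  obtain ⟨w, hw, h⟩ : t ∈ (fun w => F (v + w) w) '' Icc (-1 / 2) (1 / 2) := by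
    refine intermediate_value_Icc (by norm_num) (mono v |> fun _ => by unfold F; fun_prop) ⟨?_, ?_⟩
    · unfold F; nlinarith [ht.1, sq_nonneg ((v + -1 / 2) * (-1 / 2) + 3 / 2)]
    · unfold F; nlinarith [ht.2, sq_nonneg ((v + 1 / 2) * (1 / 2) + 3 / 2)]
  have h1 : 0 < √(w + 1) := Real.sqrt_pos.2 (by linarith [hw.1])
  have h2 : (sg g * √(w + 1)) ^ 2 - 1 = w := by
    rw [mul_pow, sq (sg g), sg_sq, Real.sq_sqrt (by linarith [hw.1])]; ring
  refine ⟨![v + w, sg g * √(w + 1)], by simpa [f, h2] using h, ?_⟩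
  simp only [G, Matrix.cons_val_zero, Matrix.cons_val_one, h2, add_sub_cancel_right, v,
    Real.exp_log (abs_pos.2 hg)]
  unfold sg
  rcases hg.lt_or_gt with h3 | h3
  · rw [if_neg h3.not_ge, if_neg (by linarith), abs_of_neg h3]; ring
  · rw [if_pos h3.le, if_pos (by linarith), abs_of_pos h3]; ring

lemma cf : ContDiff ℝ ∞ f := by unfold f F; fun_prop

lemma loc {p : Fin 2 → ℝ} (hp : p ∈ f ⁻¹' D) :
    G =ᶠ[𝓝 p] fun q => sg (p 1) * Real.exp (q 0 - (q 1 ^ 2 - 1)) := by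
  have h0 : p 1 ≠ 0 := fun h => by
    have := (small hp).1
    rw [h] at this; norm_num at this
  have hc := (continuous_apply (A := fun _ : Fin 2 => ℝ) 1).continuousAt (x := p)
  rcases h0.lt_or_gt with h | h
  · filter_upwards [hc.eventually (gt_mem_nhds h)] with q hq
    simp [G, sg, h.not_ge, hq.not_ge]
  · filter_upwards [hc.eventually (lt_mem_nhds h)] with q hq
    simp [G, sg, h.le, hq.le]

lemma cG {p : Fin 2 → ℝ} (hp : p ∈ f ⁻¹' D) : ContDiffAt ℝ ∞ G p :=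
  ContDiffAt.congr_of_eventuallyEq (by fun_prop) (loc hp)

lemma der {p : Fin 2 → ℝ} (hp : p ∈ f ⁻¹' D) : ∃ L : (Fin 2 → ℝ) ≃L[ℝ] ℝ × ℝ,
    HasFDerivAt (fun p => (f p, G p)) (L : (Fin 2 → ℝ) →L[ℝ] ℝ × ℝ) p := by
  have h0 := hasFDerivAt_apply (𝕜 := ℝ) (F' := fun _ : Fin 2 => ℝ) 0 p
  have h1 := ((hasFDerivAt_apply (𝕜 := ℝ) (F' := fun _ : Fin 2 => ℝ) 1 p).pow 2).sub_const 1
  have d1 : HasFDerivAt f _ p :=
    h1.mul ((((h0.pow 2).mul (h1.pow 2)).add ((h0.const_mul 3).mul h1)).add_const 3)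
  have d2 := ((h0.sub h1).exp.const_mul (sg (p 1))).congr_of_eventuallyEq (loc hp)
  have d := d1.prodMk d2
  obtain ⟨a1, a2⟩ := small hp
  have hj := jac (x := p 0) a1 a2
  obtain ⟨L, hL, d⟩ : ∃ L, _ = L ∧ HasFDerivAt (fun p => (f p, G p)) L p := ⟨_, rfl, d⟩
  have hi : Function.Injective L := by
    refine (injective_iff_map_eq_zero L).2 fun z hz => ?_
    rw [← hL] at hz
    simp [left_ne_zero_of_mul_eq_one (sg_sq _)] at hz
    obtain ⟨e1, e2⟩ := hz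
    have e3 : z 0 = 2 * p 1 * z 1 := by linarith
    have h2 : p 1 ≠ 0 := fun h => by rw [h] at a1; norm_num at a1
    have e4 : z 1 = 0 := by
      rw [e3] at e1
      exact (mul_eq_zero.1 (show (2 * p 1 * ((p 1 ^ 2 - 1) ^ 2 * (2 * p 0 * (p 1 ^ 2 - 1) + 3) +
        3 * (p 0 * (p 1 ^ 2 - 1) + 1) ^ 2)) * z 1 = 0 by linear_combination e1)).resolve_left
        (mul_ne_zero (mul_ne_zero two_ne_zero h2) hj.ne')
    ext i; fin_cases i <;> simp [e3, e4]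
  exact ⟨ContinuousLinearEquiv.ofBijective L (LinearMap.ker_eq_bot.2 hi) (LinearMap.range_eq_top.2
    ((LinearMap.injective_iff_surjective_of_finrank_eq_finrank (f := L.toLinearMap)
      (by simp)).1 hi)), d⟩

lemma cInv {p : Fin 2 → ℝ} (hp : p ∈ f ⁻¹' D) :
    ContDiffAt ℝ ∞ (Function.invFunOn (fun p => (f p, G p)) (f ⁻¹' D)) (f p, G p) := by
  obtain ⟨L, hL⟩ := der hp
  have hc := cf.contDiffAt.prodMk (cG hp)
  refine (hc.to_localInverse hL (by simp)).congr_of_eventuallyEq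
    ((hc.hasStrictFDerivAt' hL (by simp)).localInverse_unique ?_)
  filter_upwards [(isOpen_Ioo.preimage cf.continuous).mem_nhds hp] with q hq
  exact inj.leftInvOn_invFunOn hq

lemma milnor (a : Fin 2 → ℝ) : ∃ p : ℕ → Fin 2 → ℝ,
    (∀ j, let w := p j 1 ^ 2 - 1; w ^ 2 * (2 * p j 0 * w + 3) ≠ 0 ∧
      w ^ 2 * (2 * p j 0 * w + 3) * (p j 1 - a 1) =
        6 * p j 1 * (p j 0 * w + 1) ^ 2 * (p j 0 - a 0)) ∧
    Tendsto (fun j => ‖p j‖) atTop atTop ∧ Tendsto (fun j => f (p j)) atTop (𝓝 0) := by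
  obtain ⟨σ, hσ, hb⟩ : ∃ σ : ℝ, σ * σ = 1 ∧ σ * a 1 ≤ 0 := by
    rcases le_total (a 1) 0 with h | h
    · exact ⟨1, by norm_num, by linarith⟩
    · exact ⟨-1, by norm_num, by linarith⟩
  let g : ℝ → ℝ → ℝ := fun d u => ((1 - d) ^ 2 - 1) ^ 3 * (2 * u + 1) * (1 - d - σ * a 1) -
    6 * (1 - d) * u ^ 2 * (u - 1 - a 0 * ((1 - d) ^ 2 - 1))
  have hc : ContinuousAt (fun d => g d (1 / 2)) 0 := by unfold g; fun_prop
  obtain ⟨c, c0, hc⟩ := Metric.eventually_nhds_iff.1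
    (hc.eventually (lt_mem_nhds (show 0 < g 0 (1 / 2) by norm_num [g])))
  let d : ℕ → ℝ := fun j => min c 1 / (j + 2)
  have m0 : 0 < min c 1 := lt_min c0 one_pos
  have d0 : ∀ j, 0 < d j := fun j => by positivity
  have d1 : ∀ j, d j < min c 1 := fun j => div_lt_self m0 (by linarith [j.cast_nonneg (α := ℝ)])
  have d2 : ∀ j, d j < 1 := fun j => (d1 j).trans_le (min_le_right _ _)
  have w0 : ∀ j, (1 - d j) ^ 2 - 1 < 0 := fun j => by nlinarith [d0 j, d2 j]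
  have : ∀ j, ∃ u ∈ Icc (0 : ℝ) (1 / 2), g (d j) u = 0 := fun j => by
    refine intermediate_value_Icc (by norm_num) (f := g (d j)) (by unfold g; fun_prop) ⟨?_, ?_⟩
    · have := mul_neg_of_neg_of_pos (Odd.pow_neg (n := 3) (by decide) (w0 j))
        (show 0 < 1 - d j - σ * a 1 by linarith [d2 j])
      simp only [g]; linarith
    · refine (hc ?_).le
      rw [Real.dist_eq, sub_zero, abs_of_pos (d0 j)]
      exact (d1 j).trans_le (min_le_left _ _)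
  choose u hu hg using this
  have hw : ∀ j, (σ * (1 - d j)) ^ 2 - 1 = (1 - d j) ^ 2 - 1 := fun j => by
    rw [mul_pow, sq σ, hσ, one_mul]
  have hx : ∀ j, (u j - 1) / ((1 - d j) ^ 2 - 1) * ((1 - d j) ^ 2 - 1) = u j - 1 := fun j =>
    div_mul_cancel₀ _ (w0 j).ne
  have dt : Tendsto d atTop (𝓝 0) :=
    tendsto_const_nhds.div_atTop (tendsto_atTop_add_const_right _ _ tendsto_natCast_atTop_atTop)
  refine ⟨fun j => ![(u j - 1) / ((1 - d j) ^ 2 - 1), σ * (1 - d j)], fun j => ?_, ?_, ?_⟩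
  · simp only [Matrix.cons_val_zero, Matrix.cons_val_one, hw, mul_assoc (2 : ℝ), hx]
    refine ⟨mul_ne_zero (pow_ne_zero _ (w0 j).ne) (by linarith [(hu j).1]), ?_⟩
    refine mul_left_cancel₀ (w0 j).ne ?_
    have h1 := hg j
    have h2 := hx j
    simp only [g] at h1
    generalize (u j - 1) / ((1 - d j) ^ 2 - 1) = x at h2
    generalize (1 - d j) ^ 2 - 1 = w at h1 h2
    linear_combination σ * h1 - 6 * σ * (1 - d j) * u j ^ 2 * h2 +
      w ^ 3 * (2 * u j + 1) * a 1 * hσ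
  · have h1 : Tendsto (fun j => (1 / 4) * (d j)⁻¹) atTop atTop :=
      Tendsto.const_mul_atTop (by norm_num) (tendsto_inv_nhdsGT_zero.comp
        (tendsto_nhdsWithin_iff.2 ⟨dt, .of_forall d0⟩))
    refine tendsto_atTop_mono (fun j => le_trans ?_ ((le_abs_self _).trans
      (norm_le_pi_norm (G := fun _ : Fin 2 => ℝ) _ 0))) h1
    simp only [Matrix.cons_val_zero]
    rw [le_div_iff_of_neg (w0 j)]
    have h2 := mul_inv_cancel₀ (d0 j).ne'
    have h3 := inv_pos.2 (d0 j)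
    nlinarith [(hu j).2, d0 j]
  · refine squeeze_zero_norm (a := fun j => 4 * d j) (fun j => ?_) (by simpa using dt.const_mul 4)
    have h2 := hx j
    simp only [f, F, Matrix.cons_val_zero, Matrix.cons_val_one, hw, ← mul_pow, mul_assoc (3 : ℝ), h2]
    have h3 : -(2 * d j) ≤ (1 - d j) ^ 2 - 1 := by nlinarith [sq_nonneg (d j)]
    have h4 : (u j - 1) ^ 2 + 3 * (u j - 1) + 3 ≤ 2 := by nlinarith [(hu j).1, (hu j).2]
    have h5 : 0 ≤ (u j - 1) ^ 2 + 3 * (u j - 1) + 3 := by nlinarith [(hu j).1]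
    rw [Real.norm_eq_abs, abs_le]
    constructor <;> nlinarith [w0 j, d0 j]

end Pool.Agent.H50.Bif
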