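import Mathlib

set_option linter.unusedSectionVars false

namespace Pool.Agent.H50.CM

open IsLocalRing

variable {R : Type} [CommRing R] [Algebra ℂ R] [IsNoetherianRing R] [IsLocalRing R]

def Nz (N : Ideal R) (a : R) : Prop := ∀ r, a * r ∈ N → r ∈ N

def Reg : Ideal R → List R → Prop
  | _, [] => True
  | N, a :: s => a ∈ maximalIdeal R ∧ Nz N a ∧ Reg (N ⊔ Ideal.span {a}) s

theorem Nz.pow {N : Ideal R} {a : R} (h : Nz N a) (k : ℕ) : Nz N (a ^ k) := by
  induction k with
  | zero => intro r hr; simpa using hr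
  | succ k ih =>
    intro r hr
    exact h r (ih _ (by rwa [← mul_assoc, ← pow_succ]))

theorem mem_sup_span {N : Ideal R} {a r : R} :
    r ∈ N ⊔ Ideal.span {a} ↔ ∃ c, r - a * c ∈ N := by
  rw [Submodule.mem_sup]
  constructor
  · rintro ⟨n, hn, z, hz, rfl⟩
    obtain ⟨c, rfl⟩ := Ideal.mem_span_singleton'.1 hz
    exact ⟨c, by simpa [mul_comm] using hn⟩
  · rintro ⟨c, hc⟩
    exact ⟨_, hc, a * c, Ideal.mem_span_singleton'.2 ⟨c, mul_comm _ _⟩, by ring⟩

theorem av0 (V : Submodule ℂ R) (F : Set (Submodule ℂ R)) (hF : F.Finite)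
    (h : ∀ W ∈ F, ¬ V ≤ W) : ∃ z ∈ V, ∀ W ∈ F, z ∉ W := by
  classical
  have h1 := Subspace.biUnion_ne_univ_of_top_notMem (k := ℂ) (E := V)
    (s := hF.toFinset.image fun W => W.comap V.subtype) (by
      simp only [Finset.mem_image, Set.Finite.mem_toFinset, not_exists, not_and]
      intro W hW h2
      exact h W hW fun x hx => (h2.ge (Submodule.mem_top (x := (⟨x, hx⟩ : V))) :))
  obtain ⟨z, hz⟩ := (Set.ne_univ_iff_exists_notMem _).1 h1
  refine ⟨z, z.2, fun W hW h2 => hz ?_⟩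
  simp only [Set.mem_iUnion, Finset.mem_image, Set.Finite.mem_toFinset]
  exact ⟨_, ⟨W, hW, rfl⟩, h2⟩

theorem ass (N : Ideal R) : ∃ F : Set (Submodule ℂ R), F.Finite ∧
    (∀ W ∈ F, ∃ u, u ∉ N ∧ ∀ v ∈ W, v * u ∈ N) ∧ ∀ z, (∀ W ∈ F, z ∉ W) → Nz N z := by
  refine ⟨(fun P : Ideal R => P.restrictScalars ℂ) '' associatedPrimes R (R ⧸ N),
    (associatedPrimes.finite R (R ⧸ N)).image _, ?_, ?_⟩
  · rintro _ ⟨P, hP, rfl⟩
    rw [AssociatedPrimes.mem_iff, isAssociatedPrime_iff] at hP
    obtain ⟨hp, x, rfl⟩ := hP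
    obtain ⟨u, rfl⟩ := Ideal.Quotient.mk_surjective x
    refine ⟨u, fun hu => hp.ne_top ?_, fun v hv => ?_⟩
    · rw [Ideal.Quotient.eq_zero_iff_mem.2 hu]; simp
    · have : v • Ideal.Quotient.mk N u = 0 := by simpa using hv
      exact Ideal.Quotient.eq_zero_iff_mem.1 this
  · intro z hz r hr
    by_contra hrN
    have : z ∈ ⋃ p ∈ associatedPrimes R (R ⧸ N), (p : Set R) := by
      rw [biUnion_associatedPrimes_eq_zero_divisors]
      exact ⟨Ideal.Quotient.mk N r, fun h => hrN (Ideal.Quotient.eq_zero_iff_mem.1 h),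
        Ideal.Quotient.eq_zero_iff_mem.2 hr⟩
    simp only [Set.mem_iUnion] at this
    obtain ⟨P, hP, h2⟩ := this
    exact hz _ ⟨P, hP, rfl⟩ h2

theorem swap {N : Ideal R} {x w : R} (hx : Nz N x) (hw : Nz (N ⊔ Ideal.span {x}) w) :
    Nz (N ⊔ Ideal.span {w}) x := by
  intro r hr
  obtain ⟨c, hc⟩ := mem_sup_span.1 hr
  have h1 : c ∈ N ⊔ Ideal.span {x} := hw c (mem_sup_span.2 ⟨r, by
    have := N.neg_mem hc
    rwa [neg_sub] at this⟩)
  obtain ⟨d, hd⟩ := mem_sup_span.1 h1
  refine mem_sup_span.2 ⟨d, hx _ ?_⟩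
  have := N.add_mem hc (N.mul_mem_left w hd)
  have e : x * (r - w * d) = x * r - w * c + w * (c - x * d) := by ring
  rwa [e]

theorem socle {N : Ideal R} {x y z : R} (hxm : x ∈ maximalIdeal R) (hx : Nz N x)
    (hym : y ∈ maximalIdeal R) (hy : Nz (N ⊔ Ideal.span {x}) y) (hz : Nz N z) (u : R)
    (hu : ∀ v ∈ maximalIdeal R, v * u ∈ N ⊔ Ideal.span {z}) : u ∈ N ⊔ Ideal.span {z} := by
  obtain ⟨c, hc⟩ := mem_sup_span.1 (hu x hxm)
  obtain ⟨d, hd⟩ := mem_sup_span.1 (hu y hym)
  have h1 : c ∈ N ⊔ Ideal.span {x} := by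
    refine hy c (mem_sup_span.2 ⟨d, hz _ ?_⟩)
    have := N.sub_mem (N.mul_mem_left x hd) (N.mul_mem_left y hc)
    have e : z * (y * c - x * d) = x * (y * u - z * d) - y * (x * u - z * c) := by ring
    rwa [e]
  obtain ⟨f, hf⟩ := mem_sup_span.1 h1
  refine mem_sup_span.2 ⟨f, hx _ ?_⟩
  have := N.add_mem hc (N.mul_mem_left z hf)
  have e : x * (u - z * f) = x * u - z * c + z * (c - x * f) := by ring
  rwa [e]

theorem drop : ∀ (k : ℕ) (N : Ideal R) (x : List R) (z : R), x.length = k + 1 → Reg N x →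
    Nz N z → ∃ x' : List R, x'.length = k ∧ Reg (N ⊔ Ideal.span {z}) x' := by
  intro k
  induction k with
  | zero => intro N x z _ _ _; exact ⟨[], rfl, trivial⟩
  | succ k ih =>
    intro N x z hl hx hz
    obtain ⟨x1, x2, t, rfl⟩ : ∃ x1 x2 t, x = x1 :: x2 :: t := by
      rcases x with _ | ⟨x1, _ | ⟨x2, t⟩⟩
      · simp at hl
      · simp at hl
      · exact ⟨_, _, _, rfl⟩
    obtain ⟨h1m, h1, h2⟩ := hx
    obtain ⟨F1, f1, a1, b1⟩ := ass (N ⊔ Ideal.span {x1})
    obtain ⟨F2, f2, a2, b2⟩ := ass (N ⊔ Ideal.span {z})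
    obtain ⟨w, hwm, hw⟩ := av0 ((maximalIdeal R).restrictScalars ℂ) (F1 ∪ F2) (f1.union f2) (by
      rintro W (hW | hW) hle
      · obtain ⟨u, hu, h⟩ := a1 W hW
        exact hu (h2.2.1 u (h x2 (hle h2.1)))
      · obtain ⟨u, hu, h⟩ := a2 W hW
        exact hu (socle h1m h1 h2.1 h2.2.1 hz u fun v hv => h v (hle hv)))
    have w1 := b1 w fun W hW => hw W (Or.inl hW)
    have w2 := b2 w fun W hW => hw W (Or.inr hW)
    obtain ⟨x'', l1, r1⟩ := ih _ (x2 :: t) w (by simpa using hl) h2 w1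
    obtain ⟨x''', l2, r2⟩ := ih (N ⊔ Ideal.span {w}) (x1 :: x'') z (by simp [l1])
      ⟨h1m, swap h1 w1, by rwa [sup_right_comm]⟩ (swap hz w2)
    exact ⟨w :: x''', by simp [l2], hwm, w2, by rwa [sup_right_comm]⟩

theorem noHom : ∀ (t : List R) (N A : Ideal R) (x : List R), (∀ a ∈ t, a ∈ maximalIdeal R) →
    Reg N x → x.length = t.length + 1 → maximalIdeal R ≤ (A ⊔ Ideal.ofList t).radical →
    ∀ u, (∀ v ∈ A, v * u ∈ N) → u ∈ N := by
  intro t
  induction t with
  | nil =>
    intro N A x _ hx hl hr u hu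
    obtain ⟨x1, rfl⟩ := List.length_eq_one_iff.1 hl
    obtain ⟨k, hk⟩ := hr hx.1
    exact hx.2.1.pow k u (hu _ (by simpa using hk))
  | cons t1 t ih =>
    intro N A x ht hx hl hr u hu
    by_cases hA : A = ⊤
    · simpa using hu 1 (hA ▸ Submodule.mem_top)
    have hAm : A ≤ maximalIdeal R := le_maximalIdeal hA
    have htm : Ideal.ofList t ≤ maximalIdeal R :=
      Ideal.span_le.2 fun a ha => ht a (List.mem_cons_of_mem _ ha)
    obtain ⟨x1, x', rfl⟩ : ∃ x1 x', x = x1 :: x' := by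
      rcases x with _ | ⟨x1, x'⟩
      · simp at hl
      · exact ⟨_, _, rfl⟩
    obtain ⟨F, f, a, b⟩ := ass N
    let B : Ideal R := A ⊔ Ideal.ofList t
    obtain ⟨z, hzV, hz⟩ := av0 (Submodule.span ℂ {t1} ⊔ B.restrictScalars ℂ)
      (F ∪ {W | W = B.restrictScalars ℂ ∧ t1 ∉ B})
      (f.union ((Set.finite_singleton _).subset fun W hW => hW.1)) (by
        rintro W (hW | ⟨rfl, hW⟩) hle
        · obtain ⟨u', hu', h⟩ := a W hW
          obtain ⟨k, hk⟩ := hr hx.1
          refine hu' (hx.2.1.pow k u' ?_)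
          have : A ⊔ Ideal.ofList (t1 :: t) ≤ N.colon {u'} := by
            rw [Ideal.ofList_cons, ← sup_assoc, sup_right_comm]
            refine sup_le (fun v hv => ?_) (Ideal.span_le.2 ?_)
            · exact Submodule.mem_colon_singleton.2 (h v (hle (Submodule.mem_sup_right hv)))
            · rintro _ rfl
              exact Submodule.mem_colon_singleton.2
                (h _ (hle (Submodule.mem_sup_left (Submodule.mem_span_singleton_self _))))
          exact Submodule.mem_colon_singleton.1 (this hk)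
        · exact hW (hle (Submodule.mem_sup_left (Submodule.mem_span_singleton_self _))))
    have hzN : Nz N z := b z fun W hW => hz W (Or.inl hW)
    obtain ⟨_, hc, w, hw, rfl⟩ := Submodule.mem_sup.1 hzV
    obtain ⟨c, rfl⟩ := Submodule.mem_span_singleton.1 hc
    have hzm : c • t1 + w ∈ maximalIdeal R :=
      add_mem (Submodule.smul_of_tower_mem _ c (ht t1 (by simp))) (sup_le hAm htm hw)
    have ht1 : t1 ∈ B ⊔ Ideal.span {c • t1 + w} := by
      by_cases h0 : t1 ∈ B
      · exact Submodule.mem_sup_left h0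
      have hc0 : c ≠ 0 := by
        rintro rfl
        exact hz _ (Or.inr ⟨rfl, h0⟩) (by simpa using hw)
      have e : t1 = c⁻¹ • (c • t1 + w - w) := by simp [smul_smul, hc0]
      rw [e]
      refine Submodule.smul_of_tower_mem _ _ (sub_mem ?_ (Submodule.mem_sup_left hw))
      rw [← e]
      exact Submodule.mem_sup_right (Ideal.mem_span_singleton_self _)
    generalize c • t1 + w = z at hzN hzm ht1
    obtain ⟨y, ly, hy⟩ := drop _ N _ z hl hx hzN
    have key := ih (N ⊔ Ideal.span {z}) (A ⊔ Ideal.span {z}) y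
      (fun a ha => ht a (List.mem_cons_of_mem _ ha)) hy ly (hr.trans (Ideal.radical_mono (by
        rw [Ideal.ofList_cons, ← sup_assoc, sup_right_comm, sup_right_comm A (Ideal.span {z})]
        exact sup_le le_sup_left (Ideal.span_le.2 (by rintro _ rfl; exact ht1)))))
    have hU : N.colon A ≤ N := by
      refine Submodule.le_of_le_smul_of_le_jacobson_bot (I := maximalIdeal R)
        (IsNoetherian.noetherian _) (jacobson_eq_maximalIdeal _ bot_ne_top).ge fun p hp => ?_
      have hp' : ∀ v ∈ A, v * p ∈ N := fun v hv => by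
        have := Submodule.mem_colon.1 hp v hv
        rwa [smul_eq_mul, mul_comm] at this
      obtain ⟨r, hr⟩ := mem_sup_span.1 (key p fun v hv => by
        obtain ⟨d, hd⟩ := mem_sup_span.1 hv
        refine mem_sup_span.2 ⟨d * p, ?_⟩
        have := hp' _ hd
        rwa [sub_mul, mul_assoc] at this)
      have hrU : r ∈ N.colon A := Submodule.mem_colon.2 fun v hv => hzN _ (by
        have := N.sub_mem (hp' v hv) (N.mul_mem_left v hr)
        have e : z * (r • v) = v * p - v * (p - z * r) := by rw [smul_eq_mul]; ring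
        rwa [e])
      have e : p = (p - z * r) + z • r := by rw [smul_eq_mul]; ring
      rw [e]
      exact Submodule.add_mem_sup hr (Submodule.smul_mem_smul hzm hrU)
    exact hU (Submodule.mem_colon.2 fun v hv => by rw [smul_eq_mul, mul_comm]; exact hu v hv)

theorem cm : ∀ (s : List R) (N : Ideal R) (x : List R), (∀ a ∈ s, a ∈ maximalIdeal R) →
    Reg N x → x.length = s.length → maximalIdeal R ≤ (N ⊔ Ideal.ofList s).radical →
    Reg N s := by
  intro s
  induction s with
  | nil => intro _ _ _ _ _ _; trivial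
  | cons s1 s ih =>
    intro N x hs hx hl hr
    rw [Ideal.ofList_cons, ← sup_assoc] at hr
    have h1 : Nz N s1 := fun r hr' =>
      noHom s N (N ⊔ Ideal.span {s1}) x (fun a ha => hs a (List.mem_cons_of_mem _ ha)) hx hl hr r
        fun v hv => by
          obtain ⟨d, hd⟩ := mem_sup_span.1 hv
          have := N.add_mem (N.mul_mem_right r hd) (N.mul_mem_left d hr')
          have e : v * r = (v - s1 * d) * r + d * (s1 * r) := by ring
          rwa [e]
    obtain ⟨y, ly, hy⟩ := drop _ N x s1 hl hx h1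
    exact ⟨hs s1 (by simp), h1,
      ih _ y (fun a ha => hs a (List.mem_cons_of_mem _ ha)) hy ly hr⟩

theorem reg_append : ∀ (s t : List R) (N : Ideal R), Reg N (s ++ t) →
    Reg (N ⊔ Ideal.ofList s) t := by
  intro s
  induction s with
  | nil => intro t N h; simpa using h
  | cons a s ih =>
    intro t N h
    rw [Ideal.ofList_cons, ← sup_assoc]
    exact ih t _ h.2.2

end Pool.Agent.H50.CM
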