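import Mathlib

set_option autoImplicit false

namespace Pool.Agent.H50.CMinA

open Filter Topology
open scoped Pointwise

universe u v

/-- no strictly coarser Hausdorff group topology -/
def IsMinimal (G : Type u) [Group G] [τ : TopologicalSpace G] : Prop :=
  ∀ σ : TopologicalSpace G, @IsTopologicalGroup G σ _ → @T2Space G σ → τ ≤ σ → σ = τ

/-- every quotient by a closed normal subgroup is minimal -/
def IsTotallyMinimal (G : Type u) [Group G] [TopologicalSpace G] : Prop :=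
  ∀ (N : Subgroup G) [N.Normal], IsClosed (N : Set G) → IsMinimal (G ⧸ N)

lemma exists_top {A : Type u} [CommGroup A] (𝓖 : Filter A) (h1 : pure 1 ≤ 𝓖)
    (hm : Tendsto (fun p : A × A => p.1 * p.2) (𝓖 ×ˢ 𝓖) 𝓖) (hi : Tendsto (fun x : A => x⁻¹) 𝓖 𝓖) :
    ∃ σ : TopologicalSpace A, @IsTopologicalGroup A σ _ ∧ @nhds A σ 1 = 𝓖 := by
  let B := groupFilterBasisOfComm 𝓖.sets ⟨_, univ_mem⟩
    (fun x y hx hy => ⟨_, inter_mem hx hy, le_rfl⟩) (fun U hU => h1 hU)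
    (fun U hU => by
      obtain ⟨V, hV, h⟩ := mem_prod_self_iff.1 (hm hU)
      exact ⟨V, hV, by rintro _ ⟨a, ha, b, hb, rfl⟩; exact h (Set.mk_mem_prod ha hb)⟩)
    (fun U hU => ⟨_, hi hU, le_rfl⟩)
  refine ⟨B.topology, B.isTopologicalGroup, Filter.ext fun U => B.nhds_one_hasBasis.mem_iff.trans
    ⟨fun ⟨V, hV, h⟩ => mem_of_superset hV h, fun h => ⟨U, h, le_rfl⟩⟩⟩

lemma min_filter {A : Type u} [CommGroup A] [τ : TopologicalSpace A] [hτ : IsTopologicalGroup A]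
    (h : IsMinimal A) (𝓖 : Filter A) (le : 𝓝 1 ≤ 𝓖)
    (hm : Tendsto (fun p : A × A => p.1 * p.2) (𝓖 ×ˢ 𝓖) 𝓖) (hi : Tendsto (fun x : A => x⁻¹) 𝓖 𝓖)
    (sep : ∀ x, x ≠ 1 → ∃ U ∈ 𝓖, x ∉ U) : 𝓖 = 𝓝 1 := by
  obtain ⟨σ, hσ, e⟩ := exists_top 𝓖 ((pure_le_nhds 1).trans le) hm hi
  have : σ = τ := by
    refine h σ hσ (IsTopologicalGroup.t2Space_of_one_sep (e ▸ sep)) ?_
    refine continuous_id_iff_le.1 ?_
    exact @continuous_of_continuousAt_one A τ _ hτ A (A →* A) _ σ hσ.1 _ _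
      (MonoidHom.id A) (show @nhds A τ 1 ≤ @nhds A σ 1 from e ▸ le)
  rw [← e, this]

lemma of_proper {A : Type u} [CommGroup A] [TopologicalSpace A] [IsTopologicalGroup A]
    (h : IsMinimal A) {H : Type v} [Group H] [τ : TopologicalSpace H] [hτ : IsTopologicalGroup H]
    (f : H →* A) (hf : ∀ (𝒰 : Ultrafilter H) (a : A), Tendsto f 𝒰 (𝓝 a) →
      ∃ x, f x = a ∧ (𝒰 : Filter H) ≤ 𝓝 x) : IsMinimal H := by
  intro σ hσ h2 hle
  obtain ⟨𝒩, e, n1, nm, ni, nu⟩ : ∃ 𝒩 : Filter H, @nhds H σ 1 = 𝒩 ∧ pure 1 ≤ 𝒩 ∧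
      Tendsto (fun p : H × H => p.1 * p.2) (𝒩 ×ˢ 𝒩) 𝒩 ∧ Tendsto (fun x : H => x⁻¹) 𝒩 𝒩 ∧
      ∀ (𝒰 : Ultrafilter H) (x : H), (𝒰 : Filter H) ≤ 𝒩 → (𝒰 : Filter H) ≤ @nhds H τ x → x = 1 := by
    refine ⟨_, rfl, @pure_le_nhds H σ 1, ?_, ?_, fun 𝒰 x a b => ?_⟩
    · rw [← nhds_prod_eq]
      exact continuous_mul.tendsto' _ _ (by simp)
    · exact continuous_inv.tendsto' _ _ (by simp)
    · have b' : (𝒰 : Filter H) ≤ @nhds H σ x := b.trans (_root_.nhds_mono hle)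
      exact tendsto_nhds_unique (f := id) b' a
  let g : A × H → A := fun p => p.1 * f p.2
  have e2 : map g (𝓝 1 ×ˢ 𝒩) = 𝓝 1 := by
    apply min_filter h
    · have : Tendsto (fun a : A => (a, (1 : H))) (𝓝 1) (𝓝 1 ×ˢ 𝒩) :=
        tendsto_id.prodMk (tendsto_const_pure.mono_right n1)
      have h3 := tendsto_map.comp (f := fun a : A => (a, (1 : H))) (g := g) this
      exact (h3.congr (f₂ := id) fun y => by simp [g] :)
    · rw [prod_map_map_eq, tendsto_map'_iff]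
      have h3 : Tendsto (fun p : A × A => p.1 * p.2) (𝓝 1 ×ˢ 𝓝 1) (𝓝 1) := by
        rw [← nhds_prod_eq]; exact continuous_mul.tendsto' _ _ (by simp)
      have : Tendsto (fun q : (A × H) × (A × H) => (q.1.1 * q.2.1, q.1.2 * q.2.2))
          ((𝓝 1 ×ˢ 𝒩) ×ˢ (𝓝 1 ×ˢ 𝒩)) (𝓝 1 ×ˢ 𝒩) :=
        (h3.comp ((tendsto_fst.comp tendsto_fst).prodMk (tendsto_fst.comp tendsto_snd))).prodMk
          (nm.comp ((tendsto_snd.comp tendsto_fst).prodMk (tendsto_snd.comp tendsto_snd)))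
      refine (tendsto_map.comp (g := g) this).congr fun q => ?_
      simp [g, mul_mul_mul_comm]
    · rw [tendsto_map'_iff]
      have : Tendsto (fun q : A × H => (q.1⁻¹, q.2⁻¹)) (𝓝 1 ×ˢ 𝒩) (𝓝 1 ×ˢ 𝒩) :=
        ((continuous_inv.tendsto' _ _ (by simp)).comp tendsto_fst).prodMk (ni.comp tendsto_snd)
      refine (tendsto_map.comp (g := g) this).congr fun q => ?_
      simp [g, mul_comm]
    · intro x hx
      by_contra hc
      push Not at hc
      have : (𝒩 ⊓ comap f (𝓝 x)).NeBot := by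
        rw [inf_neBot_iff]
        intro V hV W' ⟨W, hW, hW'⟩
        have h3 : (fun a : A => a⁻¹ * x) ⁻¹' W ∈ 𝓝 (1 : A) :=
          (continuous_inv.mul continuous_const).tendsto' _ _ (by simp) hW
        obtain ⟨⟨a, y⟩, ⟨p1, p2⟩, p3⟩ := hc _ (image_mem_map (prod_mem_prod h3 hV))
        refine ⟨y, p2, hW' ?_⟩
        simp only [Set.mem_preimage, ← p3, g, inv_mul_cancel_left] at p1
        exact p1
      obtain ⟨𝒰, hU⟩ := Ultrafilter.exists_le (𝒩 ⊓ comap f (𝓝 x))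
      obtain ⟨y, y1, y2⟩ := hf 𝒰 x (tendsto_iff_comap.mpr (hU.trans inf_le_right))
      exact hx (by rw [← y1, nu 𝒰 y (hU.trans inf_le_left) y2, map_one])
  have e3 : Tendsto f 𝒩 (𝓝 1) := by
    have : Tendsto (fun y : H => ((1 : A), y)) 𝒩 (𝓝 1 ×ˢ 𝒩) :=
      tendsto_const_nhds.prodMk tendsto_id
    have h3 := tendsto_map.comp (g := g) this
    rw [e2] at h3
    exact h3.congr fun y => by simp [g]
  refine IsTopologicalGroup.ext hσ hτ (le_antisymm ?_ (_root_.nhds_mono hle))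
  rw [e, le_iff_ultrafilter]
  intro 𝒰 hU
  obtain ⟨y, -, y2⟩ := hf 𝒰 1 (e3.mono_left hU)
  rwa [nu 𝒰 y hU y2] at y2

theorem both (A : Type u) [CommGroup A] [TopologicalSpace A] [IsTopologicalGroup A] [T2Space A]
    (K : Type v) [Group K] [TopologicalSpace K] [IsTopologicalGroup K] [T2Space K]
    [CompactSpace K] :
    (IsMinimal A → ∀ H : Subgroup (A × K), IsClosed (H : Set (A × K)) → IsMinimal H) ∧
    (IsTotallyMinimal A →
      ∀ H : Subgroup (A × K), IsClosed (H : Set (A × K)) → IsTotallyMinimal H) := by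
  have hp : ∀ H : Subgroup (A × K), IsClosed (H : Set (A × K)) →
      IsProperMap ((MonoidHom.fst A K).comp H.subtype) := fun H hH =>
    isProperMap_fst_of_compactSpace.comp hH.isProperMap_subtypeVal
  refine ⟨fun h H hH => of_proper h _ fun 𝒰 a ha =>
    (isProperMap_iff_ultrafilter.mp (hp H hH)).2 ha, fun h H hH N _ hN => ?_⟩
  set p := (MonoidHom.fst A K).comp H.subtype
  have hM : IsClosed (N.map p : Set A) := (hp H hH).isClosedMap _ hN
  refine of_proper (h (N.map p) hM) (QuotientGroup.map N (N.map p) p (N.le_comap_map p))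
    fun 𝒰 a ha => ?_
  obtain ⟨a, rfl⟩ := QuotientGroup.mk_surjective a
  have : (comap (QuotientGroup.mk : H → H ⧸ N) 𝒰 ⊓ comap p (𝓝 a)).NeBot := by
    rw [inf_neBot_iff]
    intro S' ⟨S, hS, hS'⟩ W' ⟨W, hW, hW'⟩
    have h3 := ha (QuotientGroup.isOpenMap_coe.image_mem_nhds hW)
    obtain ⟨z, z1, w, w1, w2⟩ := 𝒰.nonempty_of_mem (inter_mem hS h3)
    obtain ⟨y, rfl⟩ := QuotientGroup.mk_surjective z
    rw [QuotientGroup.map_mk, QuotientGroup.eq] at w2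
    obtain ⟨n, n1, n2⟩ := w2
    refine ⟨y * n⁻¹, hS' ?_, hW' ?_⟩
    · rw [Set.mem_preimage, QuotientGroup.mk_mul_of_mem y (N.inv_mem n1)]; exact z1
    · rw [Set.mem_preimage, map_mul, map_inv, n2]; simpa using w1
  obtain ⟨𝒱, hV⟩ := Ultrafilter.exists_le (comap (QuotientGroup.mk : H → H ⧸ N) 𝒰 ⊓ comap p (𝓝 a))
  obtain ⟨x, x1, x2⟩ := (isProperMap_iff_ultrafilter.mp (hp H hH)).2
    (tendsto_iff_comap.mpr (hV.trans inf_le_right))
  refine ⟨x, by rw [QuotientGroup.map_mk, x1], ?_⟩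
  have h4 : ((𝒱.map QuotientGroup.mk : Ultrafilter (H ⧸ N)) : Filter (H ⧸ N)) ≤ 𝒰 := by
    rw [Ultrafilter.coe_map]
    exact map_le_iff_le_comap.mpr (hV.trans inf_le_left)
  rw [← Ultrafilter.eq_of_le h4]
  exact (QuotientGroup.continuous_mk.tendsto x).mono_left x2

end Pool.Agent.H50.CMinA
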