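import Mathlib

set_option linter.unusedSimpArgs false

namespace Pool.Agent.H50.FatPts

open MvPolynomial

abbrev R := MvPolynomial (Fin 2) ℂ

theorem der_pow (D : Derivation ℂ R R) (I : Ideal R) (k : ℕ) :
    ∀ f ∈ I ^ (k + 1), D f ∈ I ^ k := by
  induction k with
  | zero => intro f _; simp
  | succ k ih =>
    intro f hf
    rw [pow_succ] at hf
    refine Submodule.mul_induction_on hf ?_ ?_
    · intro a ha b hb
      rw [Derivation.leibniz, smul_eq_mul, smul_eq_mul]
      refine Ideal.add_mem _ (Ideal.mul_mem_right _ _ ha) ?_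
      rw [mul_comm, pow_succ]
      exact Ideal.mul_mem_mul (ih a ha) hb
    · intro a b ha hb
      rw [map_add]
      exact Ideal.add_mem _ ha hb

theorem iter_pow (D : Derivation ℂ R R) (I : Ideal R) (a k : ℕ) :
    ∀ f ∈ I ^ (k + a), D^[a] f ∈ I ^ k := by
  induction a with
  | zero => intro f hf; simpa using hf
  | succ a ih =>
    intro f hf
    rw [Function.iterate_succ_apply]
    exact ih _ (der_pow D I _ f hf)

/-- the ideal of a point -/
noncomputable abbrev mx (p : Fin 2 → ℂ) : Ideal R :=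
  Ideal.span {(X 0 : R) - C (p 0), (X 1 : R) - C (p 1)}

theorem eval_mx (p : Fin 2 → ℂ) (f : R) (hf : f ∈ mx p) : eval p f = 0 := by
  obtain ⟨a, b, rfl⟩ := Ideal.mem_span_pair.mp hf
  simp

theorem vanish (p : Fin 2 → ℂ) (m a b : ℕ) (h : a + b < m) (f : R) (hf : f ∈ mx p ^ m) :
    eval p ((pderiv 0)^[a] ((pderiv 1)^[b] f)) = 0 := by
  apply eval_mx
  have h1 : f ∈ mx p ^ (1 + a + b) := Ideal.pow_le_pow_right (by omega) hf
  have := iter_pow (pderiv 0) _ a 1 _ (iter_pow (pderiv 1) _ b (1 + a) f h1)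
  simpa using this

theorem iter_mono (i : Fin 2) (a : ℕ) (s : Fin 2 →₀ ℕ) (c : ℂ) :
    (pderiv i)^[a] (monomial s c : R) =
      monomial (s - Finsupp.single i a) (c * (s i).descFactorial a) := by
  induction a with
  | zero => simp
  | succ a ih =>
    rw [Function.iterate_succ_apply', ih, pderiv_monomial, Nat.descFactorial_succ,
      Finsupp.single_add, tsub_tsub]
    congr 1
    simp
    ring

theorem iter_sum {ι : Type} (s : Finset ι) (i : Fin 2) (a : ℕ) (g : ι → R) :
    (pderiv i)^[a] (∑ j ∈ s, g j) = ∑ j ∈ s, (pderiv i)^[a] (g j) := by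
  induction a with
  | zero => simp
  | succ a ih => simp only [Function.iterate_succ_apply', ih, map_sum]

noncomputable def ex (u : ℕ × ℕ) : Fin 2 →₀ ℕ := Finsupp.single 0 u.1 + Finsupp.single 1 u.2

theorem ex0 (u : ℕ × ℕ) : ex u 0 = u.1 := by simp [ex]
theorem ex1 (u : ℕ × ℕ) : ex u 1 = u.2 := by simp [ex]

theorem expand_deg {N d : ℕ} (e : Fin N → ℕ × ℕ) (he : Function.Injective e)
    (hs : ∀ u ≤ d, ∀ v ≤ d, u + v ≤ d → ∃ s, e s = (u, v)) (f : R) (hf : f.totalDegree ≤ d) :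
    f = ∑ s, monomial (ex (e s)) (coeff (ex (e s)) f) := by
  classical
  have hinj : Function.Injective (fun s => ex (e s)) := by
    intro s t h
    apply he
    have h0 := congrArg (fun z : Fin 2 →₀ ℕ => z 0) h
    have h1 := congrArg (fun z : Fin 2 →₀ ℕ => z 1) h
    simp only [ex0, ex1] at h0 h1
    exact Prod.ext h0 h1
  rw [← Finset.sum_image (s := Finset.univ) (g := fun s => ex (e s))
    (f := fun z => (monomial z (coeff z f) : R)) (fun a _ b _ h => hinj h)]
  conv_lhs => rw [f.as_sum]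
  apply Finset.sum_subset
  · intro z hz
    have h1 := le_totalDegree hz
    rw [Finsupp.sum_fintype _ _ (fun _ => rfl), Fin.sum_univ_two] at h1
    obtain ⟨s, hs'⟩ := hs (z 0) (by omega) (z 1) (by omega) (by omega)
    refine Finset.mem_image.mpr ⟨s, Finset.mem_univ _, ?_⟩
    ext i
    fin_cases i
    · simp [ex0, hs']
    · simp [ex1, hs']
  · intro z _ hz
    rw [notMem_support_iff.mp hz, map_zero]

/-- interpolation matrix -/
def mat {A : Type} [CommRing A] {N n : ℕ} (e : Fin N → ℕ × ℕ) (c : Fin N → Fin n × ℕ × ℕ)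
    (p : Fin n → Fin 2 → A) : Matrix (Fin N) (Fin N) A := fun j s =>
  (((e s).2.descFactorial (c j).2.2 : ℕ) : A) * (((e s).1.descFactorial (c j).2.1 : ℕ) : A) *
    (p (c j).1 0 ^ ((e s).1 - (c j).2.1) * p (c j).1 1 ^ ((e s).2 - (c j).2.2))

theorem mat_map {A B : Type} [CommRing A] [CommRing B] {N n : ℕ} (e : Fin N → ℕ × ℕ)
    (c : Fin N → Fin n × ℕ × ℕ) (p : Fin n → Fin 2 → A) (φ : A →+* B) :
    φ.mapMatrix (mat e c p) = mat e c (fun i k => φ (p i k)) := by
  ext j s
  simp [mat]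

theorem empty_of_det {N n d : ℕ} (e : Fin N → ℕ × ℕ) (he : Function.Injective e)
    (hs : ∀ u ≤ d, ∀ v ≤ d, u + v ≤ d → ∃ s, e s = (u, v)) (c : Fin N → Fin n × ℕ × ℕ)
    (m : Fin n → ℕ) (hc : ∀ j, (c j).2.1 + (c j).2.2 < m (c j).1) (p : Fin n → Fin 2 → ℂ)
    (hp : (mat e c p).det ≠ 0) (f : R) (hf : f.totalDegree ≤ d) (hm : ∀ i, f ∈ mx (p i) ^ m i) :
    f = 0 := by
  have h1 := expand_deg e he hs f hf
  have h2 : (mat e c p).mulVec (fun s => coeff (ex (e s)) f) = 0 := by
    funext j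
    have := vanish (p (c j).1) _ _ _ (hc j) f (hm _)
    rw [h1, iter_sum, iter_sum, map_sum] at this
    rw [Pi.zero_apply, ← this, Matrix.mulVec, dotProduct]
    refine Finset.sum_congr rfl fun s _ => ?_
    rw [iter_mono, iter_mono, eval_monomial, Finsupp.prod_fintype _ _ (fun _ => pow_zero _),
      Fin.prod_univ_two]
    simp [mat, ex0, ex1]
    ring
  have h3 := Matrix.eq_zero_of_mulVec_eq_zero hp h2
  rw [h1]
  refine Finset.sum_eq_zero fun s _ => ?_
  rw [congrFun h3 s]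
  simp

/-- one integer configuration with invertible matrix gives emptiness for generic points -/
theorem generic_empty {N n d : ℕ} (e : Fin N → ℕ × ℕ) (he : Function.Injective e)
    (hs : ∀ u ≤ d, ∀ v ≤ d, u + v ≤ d → ∃ s, e s = (u, v)) (c : Fin N → Fin n × ℕ × ℕ)
    (m : Fin n → ℕ) (hc : ∀ j, (c j).2.1 + (c j).2.2 < m (c j).1) (q : Fin n → Fin 2 → ℤ)
    (hq : (mat e c q).det ≠ 0) (G : MvPolynomial (Fin n × Fin 2) ℂ) (hG : G ≠ 0) :
    ∃ p : Fin n → Fin 2 → ℂ, eval (fun ij : Fin n × Fin 2 => p ij.1 ij.2) G ≠ 0 ∧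
      ∀ f : R, f.totalDegree ≤ d → (∀ i, f ∈ mx (p i) ^ m i) → f = 0 := by
  let D : MvPolynomial (Fin n × Fin 2) ℂ := (mat e c (fun i k => X (i, k))).det
  have hD : ∀ z : Fin n × Fin 2 → ℂ, eval z D = (mat e c (fun i k => z (i, k))).det := by
    intro z
    simp only [D]
    rw [RingHom.map_det, mat_map]
    simp
  have hD0 : D ≠ 0 := by
    intro h
    have h1 := hD (fun ij => (q ij.1 ij.2 : ℂ))
    rw [h, map_zero] at h1
    have h2 := RingHom.map_det (Int.castRingHom ℂ) (mat e c q)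
    rw [mat_map] at h2
    apply hq
    have h3 : ((mat e c q).det : ℂ) = 0 := h2.trans h1.symm
    exact_mod_cast h3
  have hGD : G * D ≠ 0 := mul_ne_zero hG hD0
  obtain ⟨z, hz⟩ : ∃ z, eval z (G * D) ≠ 0 := by
    by_contra hcon
    push Not at hcon
    exact hGD (MvPolynomial.funext fun z => by simpa using hcon z)
  rw [map_mul] at hz
  refine ⟨fun i k => z (i, k), left_ne_zero_of_mul hz, ?_⟩
  intro f hf hm
  exact empty_of_det e he hs c m hc _ (by rw [← hD]; exact right_ne_zero_of_mul hz) f hf hm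

theorem det_ne_of_inv {N : ℕ} (M B : Matrix (Fin N) (Fin N) ℤ) (k : ℤ) (hk : k ≠ 0)
    (h : B * M = k • (1 : Matrix (Fin N) (Fin N) ℤ)) : M.det ≠ 0 := by
  intro h0
  have := congrArg Matrix.det h
  rw [Matrix.det_mul, h0, mul_zero, Matrix.det_smul, Matrix.det_one, mul_one] at this
  exact pow_ne_zero _ hk this.symm

end Pool.Agent.H50.FatPts
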