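import Mathlib
import Pool.Agent.H50.FatPts

set_option linter.unusedSimpArgs false

namespace Pool.Agent.H50.Collinear

open MvPolynomial Pool.Agent.H50.FatPts

def e : Fin 15 → ℕ × ℕ := ![(0,0), (0,1), (0,2), (0,3), (0,4), (1,0), (1,1), (1,2), (1,3), (2,0), (2,1), (2,2), (3,0), (3,1), (4,0)]
def c : Fin 15 → Fin 6 × ℕ × ℕ := ![(0,0,0), (1,0,0), (2,0,0), (3,0,0), (4,0,1), (4,0,2), (4,1,0), (4,1,1), (4,2,0), (5,0,0), (5,0,1), (5,0,2), (5,1,0), (5,1,1), (5,2,0)]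
def q : Fin 6 → Fin 2 → ℤ := ![![0, 1], ![1, 1], ![2, -1], ![2, 3], ![0, 0], ![1, 0]]
def B : Matrix (Fin 15) (Fin 15) ℤ := !![0, 0, 0, 0, 0, 0, -54, 0, -9, 108, 0, 0, -54, 0, 9; 0, 0, 0, 0, 108, 0, 0, 0, 0, 0, 0, 0, 0, 0, 0; 0, 0, 0, 0, 0, 54, 0, 0, 0, 0, 0, 0, 0, 0, 0; 0, 216, 27, -3, 180, 0, -36, 72, -14, -240, -360, -108, 12, 144, -34; 108, -216, -27, 3, -288, -54, 90, -72, 23, 132, 360, 108, 42, -144, 25; 0, 0, 0, 0, 0, 0, 108, 0, 0, 0, 0, 0, 0, 0, 0; 0, 0, 0, 0, 0, 0, 0, 108, 0, 0, 0, 0, 0, 0, 0; 162, -324, -81, 3, -612, -162, 198, -180, 59, 240, 684, 270, 42, -360, 97; -108, 108, 0, 0, 108, 54, -54, 0, -9, 0, -108, -54, -54, 0, 9; 0, 0, 0, 0, 0, 0, 0, 0, 54, 0, 0, 0, 0, 0, 0; 0, 0, 0, 0, -324, 0, 0, -216, 0, 0, 324, 0, 0, -108, 0; -162, 324, 81, -3, 612, 108, -198, 180, -59, -240, -684, -216, -42, 360, -97; 0, 0, 0, 0, 0, 0, -108, 0, -72, 0, 0, 0, 108, 0, -36; 0, 0, 0, 0, 216, 0, 0, 108, 0, 0, -216, 0,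 0, 108, 0; 0, 0, 0, 0, 0, 0, 54, 0, 27, 0, 0, 0, -54, 0, 27]

theorem hB : B * mat e c q = (108 : ℤ) • (1 : Matrix (Fin 15) (Fin 15) ℤ) := by decide +kernel

theorem generic (G : MvPolynomial (Fin 6 × Fin 2) ℂ) (hG : G ≠ 0) :
    ∃ p : Fin 6 → Fin 2 → ℂ, eval (fun ij : Fin 6 × Fin 2 => p ij.1 ij.2) G ≠ 0 ∧
      ∀ f : R, f.totalDegree ≤ 4 →
        (∀ i, f ∈ mx (p i) ^ (![1, 1, 1, 1, 3, 3] : Fin 6 → ℕ) i) → f = 0 :=
  generic_empty e (by decide +kernel) (by decide +kernel) c _ (by decide +kernel) q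
    (det_ne_of_inv _ B _ (by norm_num) hB) G hG

noncomputable def line (a b : Fin 2 → ℂ) : R := C (b 1) * (X 0 - C (a 0)) - C (b 0) * (X 1 - C (a 1))

theorem line_deg (a b : Fin 2 → ℂ) : (line a b).totalDegree ≤ 1 := by
  have h : ∀ (z w : ℂ) (i : Fin 2), (C z * (X i - C w) : R).totalDegree ≤ 1 := by
    intro z w i
    refine (totalDegree_mul _ _).trans ?_
    rw [totalDegree_C, zero_add]
    refine (totalDegree_sub _ _).trans ?_
    simp
  exact (totalDegree_sub _ _).trans (max_le (h _ _ _) (h _ _ _))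

theorem line_ne (a b : Fin 2 → ℂ) (hb : b 0 ≠ 0) : line a b ≠ 0 := by
  intro h
  have := congrArg (eval ![a 0, a 1 + 1]) h
  simp [line] at this
  exact hb this

theorem line_mem (a b : Fin 2 → ℂ) (t x y : ℂ) (hx : x = a 0 + t * b 0) (hy : y = a 1 + t * b 1) :
    line a b ∈ Ideal.span {(X 0 : R) - C x, (X 1 : R) - C y} := by
  refine Ideal.mem_span_pair.mpr ⟨C (b 1), -C (b 0), ?_⟩
  simp only [line, hx, hy, map_add, map_mul]
  ring

theorem special : ∃ G : MvPolynomial (Fin (6 + 2) × Fin 2) ℂ, G ≠ 0 ∧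
        ∀ w : Fin (6 + 2) → Fin 2 → ℂ,
          MvPolynomial.eval (fun ij : Fin (6 + 2) × Fin 2 => w ij.1 ij.2) G ≠ 0 →
          ∃ f : MvPolynomial (Fin 2) ℂ, f ≠ 0 ∧ f.totalDegree ≤ 4 ∧
            ∀ i : Fin 6,
              f ∈ (Ideal.span
                {(MvPolynomial.X 0 : MvPolynomial (Fin 2) ℂ) - MvPolynomial.C
                    (if i.val < 4 then
                      w (Fin.castSucc (Fin.last 6)) 0
                        + w (Fin.castSucc (Fin.castSucc i)) 0 * w (Fin.last (6 + 1)) 0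
                     else w (Fin.castSucc (Fin.castSucc i)) 0),
                 (MvPolynomial.X 1 : MvPolynomial (Fin 2) ℂ) - MvPolynomial.C
                    (if i.val < 4 then
                      w (Fin.castSucc (Fin.last 6)) 1
                        + w (Fin.castSucc (Fin.castSucc i)) 0 * w (Fin.last (6 + 1)) 1
                     else w (Fin.castSucc (Fin.castSucc i)) 1)}) ^
                  ((![1, 1, 1, 1, 3, 3] : Fin 6 → ℕ) i) := by
  refine ⟨X (7, 0) * (X (5, 0) - X (4, 0)), ?_, ?_⟩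
  · intro h
    have := congrArg (eval fun ij : Fin (6 + 2) × Fin 2 => if ij.1 = 4 then (0 : ℂ) else 1) h
    simp at this
  · intro w hw
    simp only [map_mul, map_sub, eval_X] at hw
    have h7 : w 7 0 ≠ 0 := left_ne_zero_of_mul hw
    have h5 : (w 5 - w 4) 0 ≠ 0 := right_ne_zero_of_mul hw
    refine ⟨line (w 6) (w 7) * line (w 4) (w 5 - w 4) ^ 3,
      mul_ne_zero (line_ne _ _ h7) (pow_ne_zero _ (line_ne _ _ h5)), ?_, ?_⟩
    · refine (totalDegree_mul _ _).trans ?_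
      have h1 := line_deg (w 6) (w 7)
      have h2 := totalDegree_pow (line (w 4) (w 5 - w 4)) 3
      have h3 := line_deg (w 4) (w 5 - w 4)
      omega
    · intro i
      by_cases hi : i.val < 4
      · have hm : (![1, 1, 1, 1, 3, 3] : Fin 6 → ℕ) i = 1 := by
          fin_cases i <;> simp at hi ⊢
        rw [hm, pow_one, if_pos hi, if_pos hi]
        exact Ideal.mul_mem_right _ _ (line_mem _ _ _ _ _ rfl rfl)
      · have hm : (![1, 1, 1, 1, 3, 3] : Fin 6 → ℕ) i = 3 := by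
          fin_cases i <;> simp at hi ⊢
        rw [hm, if_neg hi, if_neg hi]
        refine Ideal.mul_mem_left _ _ (Ideal.pow_mem_pow ?_ 3)
        have h45 : i = 4 ∨ i = 5 := by
          fin_cases i <;> simp at hi ⊢
        rcases h45 with rfl | rfl
        · exact line_mem _ _ 0 _ _ (by simp) (by simp)
        · exact line_mem _ _ 1 _ _ (by simp) (by simp)

end Pool.Agent.H50.Collinear
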