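import Mathlib

namespace Pool.Agent.H50.Crown

def adj {α : Type} (u v : α × Bool) : Prop := u.1 ≠ v.1 ∧ u.2 ≠ v.2

instance {α : Type} [DecidableEq α] (u v : α × Bool) : Decidable (adj u v) :=
  inferInstanceAs (Decidable (_ ∧ _))

def inA {α : Type} (u i j v : α × Bool) : Prop :=
  v = u ∨ adj u v ∨ (adj u i ∧ adj i v) ∨ (adj u j ∧ adj j v)

instance {α : Type} [DecidableEq α] (u i j v : α × Bool) : Decidable (inA u i j v) :=
  inferInstanceAs (Decidable (_ ∨ _ ∨ _ ∨ _))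

def okA {α : Type} (u i j a : α × Bool) : Prop :=
  (inA u i j i ∨ (i ≠ a ∧ ¬ adj a i)) ∧ (inA u i j j ∨ (j ≠ a ∧ ¬ adj a j))

def okB {α : Type} (u i j b : α × Bool) : Prop :=
  (u ≠ b ∧ ¬ adj u b) ∧ (¬ inA u i j i ∨ (i ≠ b ∧ ¬ adj i b)) ∧ (¬ inA u i j j ∨ (j ≠ b ∧ ¬ adj j b))

instance {α : Type} [DecidableEq α] (u i j v : α × Bool) : Decidable (okA u i j v) :=
  inferInstanceAs (Decidable (_ ∧ _))

instance {α : Type} [DecidableEq α] (u i j v : α × Bool) : Decidable (okB u i j v) :=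
  inferInstanceAs (Decidable (_ ∧ _))

def allV : List (Fin 4 × Bool) :=
  [(0, false), (0, true), (1, false), (1, true), (2, false), (2, true), (3, false), (3, true)]

def subs : List (Fin 4 × Bool) → List (List (Fin 4 × Bool))
  | [] => [[]]
  | a :: l => (subs l).flatMap fun s => [s, a :: s]

def chk (u i j : Fin 4 × Bool) : Bool :=
  (subs (allV.filter fun l => !(decide (okA u i j l) || decide (okB u i j l)))).all fun T =>
    allV.any fun a => !(T.contains a) && decide (okA u i j a) && allV.any fun b =>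
      !(T.contains b) && decide (okB u i j b) && decide (a ≠ b) && !(decide (adj a b)) &&
        allV.any fun c => !(T.contains c) && decide (adj a c) && decide (adj c b)

lemma chk_all : (allV.all fun u => allV.all fun i => allV.all fun j => chk u i j) = true := by
  decide +kernel

lemma mem_allV (v : Fin 4 × Bool) : v ∈ allV := by revert v; decide

lemma filter_mem_subs (p : Fin 4 × Bool → Bool) (l : List (Fin 4 × Bool)) :
    l.filter p ∈ subs l := by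
  induction l with
  | nil => simp [subs]
  | cons a l ih =>
    simp only [subs, List.mem_flatMap, List.filter_cons]
    refine ⟨_, ih, ?_⟩
    split <;> simp

lemma fin4 (T : Set (Fin 4 × Bool)) (u i j : Fin 4 × Bool) :
    (∃ l ∈ T, okA u i j l ∨ okB u i j l) ∨ ∃ a b c, a ∉ T ∧ b ∉ T ∧ c ∉ T ∧ okA u i j a ∧
      okB u i j b ∧ a ≠ b ∧ ¬ adj a b ∧ adj a c ∧ adj c b := by
  classical
  by_cases h : ∃ l ∈ T, okA u i j l ∨ okB u i j l
  · exact Or.inl h
  right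
  push Not at h
  have h1 := chk_all
  simp only [List.all_eq_true] at h1
  have h2 := h1 u (mem_allV u) i (mem_allV i) j (mem_allV j)
  simp only [chk, List.all_eq_true] at h2
  have h3 := h2 _ (filter_mem_subs (fun v => decide (v ∈ T)) _)
  have key : ∀ v, (List.filter (fun v => decide (v ∈ T)) (allV.filter fun l =>
      !(decide (okA u i j l) || decide (okB u i j l)))).contains v = false → v ∉ T := by
    intro v hv hT
    simp [mem_allV, hT, h v hT] at hv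
  simp only [List.any_eq_true, Bool.and_eq_true, Bool.not_eq_true', decide_eq_true_eq,
    decide_eq_false_iff_not] at h3
  obtain ⟨a, -, ⟨ha, ha'⟩, b, -, ⟨⟨⟨hb, hb'⟩, hab⟩, hab'⟩, c, -, ⟨hc, hac⟩, hcb⟩ := h3
  exact ⟨a, b, c, key a ha, key b hb, key c hc, ha', hb', hab, hab', hac, hcb⟩

lemma gen {n : ℕ} (hn : 4 ≤ n) (T : Set (Fin n × Bool)) (u i j : Fin n × Bool) :
    (∃ l ∈ T, okA u i j l ∨ okB u i j l) ∨ ∃ a b c, a ∉ T ∧ b ∉ T ∧ c ∉ T ∧ okA u i j a ∧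
      okB u i j b ∧ a ≠ b ∧ ¬ adj a b ∧ adj a c ∧ adj c b := by
  obtain ⟨s, hs, -, hc⟩ := Finset.exists_subsuperset_card_eq (n := 4)
    (Finset.subset_univ ({u.1, i.1, j.1} : Finset (Fin n)))
    (Finset.card_le_three.trans (by norm_num)) (by simpa using hn)
  let e := s.orderEmbOfFin hc
  have hr : ∀ x ∈ s, ∃ k, e k = x := fun x hx => by
    have : x ∈ Set.range e := by rw [Finset.range_orderEmbOfFin]; exact hx
    exact this
  obtain ⟨u0, hu⟩ := hr u.1 (hs (by simp))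
  obtain ⟨i0, hi⟩ := hr i.1 (hs (by simp))
  obtain ⟨j0, hj⟩ := hr j.1 (hs (by simp))
  let E : Fin 4 × Bool → Fin n × Bool := fun v => (e v.1, v.2)
  have h1 : ∀ v w, E v = E w ↔ v = w := fun v w => by simp [E, Prod.ext_iff]
  have h2 : ∀ v w, adj (E v) (E w) ↔ adj v w := fun v w => by simp [E, adj]
  have eu : u = E (u0, u.2) := by simp [E, hu]
  have ei : i = E (i0, i.2) := by simp [E, hi]
  have ej : j = E (j0, j.2) := by simp [E, hj]
  rw [eu, ei, ej]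
  rcases fin4 (E ⁻¹' T) (u0, u.2) (i0, i.2) (j0, j.2) with ⟨l, hl, h⟩ | ⟨a, b, c, h⟩
  · exact Or.inl ⟨E l, hl, by simpa only [okA, okB, inA, h1, h2, ne_eq] using h⟩
  · exact Or.inr ⟨E a, E b, E c, by simpa only [okA, okB, inA, h1, h2, ne_eq, Set.mem_preimage] using h⟩

lemma inA_closed {α : Type} {u i j v w : α × Bool} (hv : v = u ∨ v = i ∨ v = j)
    (hw : w = u ∨ w = i ∨ w = j) (h : inA u i j v) (h' : v = w ∨ adj v w) : inA u i j w := by
  rcases h' with rfl | h'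
  · exact h
  unfold inA adj at *
  obtain ⟨u1, u2⟩ := u
  obtain ⟨i1, i2⟩ := i
  obtain ⟨j1, j2⟩ := j
  rcases hv with rfl | rfl | rfl <;> rcases hw with rfl | rfl | rfl <;>
    cases u2 <;> cases i2 <;> cases j2 <;> simp_all <;> grind

lemma sets {n : ℕ} (hn : 4 ≤ n) (T : Set (Fin n × Bool)) (u i j : Fin n × Bool) :
    ∃ A B : Set (Fin n × Bool), u ∈ A ∧ (∀ w, (w = i ∨ w = j) → (w ∈ A ∧ inA u i j w) ∨ w ∈ B) ∧
      (∀ a ∈ A, ∀ b ∈ B, a ≠ b ∧ ¬ adj a b) ∧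
      ((∃ l ∈ T, l ∈ A ∨ l ∈ B) ∨ ∃ a ∈ A, ∃ b ∈ B, ∃ c, a ∉ T ∧ b ∉ T ∧ c ∉ T ∧ adj a c ∧ adj c b) := by
  let A0 : Set (Fin n × Bool) := {v | (v = u ∨ v = i ∨ v = j) ∧ inA u i j v}
  let B0 : Set (Fin n × Bool) := {v | (v = i ∨ v = j) ∧ ¬ inA u i j v}
  have hu : u ∈ A0 := ⟨Or.inl rfl, Or.inl rfl⟩
  have hc : ∀ w, (w = i ∨ w = j) → (w ∈ A0 ∧ inA u i j w) ∨ w ∈ B0 := fun w hw => by
    by_cases h : inA u i j w
    · exact Or.inl ⟨⟨Or.inr hw, h⟩, h⟩
    · exact Or.inr ⟨hw, h⟩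
  have h00 : ∀ a ∈ A0, ∀ b ∈ B0, a ≠ b ∧ ¬ adj a b := fun a ha b hb =>
    ⟨fun h => hb.2 (inA_closed ha.1 (Or.inr hb.1) ha.2 (Or.inl h)),
      fun h => hb.2 (inA_closed ha.1 (Or.inr hb.1) ha.2 (Or.inr h))⟩
  have hA : ∀ a, okA u i j a → ∀ b ∈ B0, a ≠ b ∧ ¬ adj a b := by
    rintro a ⟨h1, h2⟩ b ⟨rfl | rfl, hb⟩
    · exact (h1.resolve_left hb).imp_left Ne.symm
    · exact (h2.resolve_left hb).imp_left Ne.symm
  have hB : ∀ b, okB u i j b → ∀ a ∈ A0, a ≠ b ∧ ¬ adj a b := by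
    rintro b ⟨h0, h1, h2⟩ a ⟨rfl | rfl | rfl, ha⟩
    · exact h0
    · exact h1.resolve_left (not_not.2 ha)
    · exact h2.resolve_left (not_not.2 ha)
  rcases gen hn T u i j with ⟨l, hl, h | h⟩ | ⟨a, b, c, ha, hb, hc', h1, h2, h3, h4, h5, h6⟩
  · refine ⟨insert l A0, B0, Or.inr hu, fun w hw => (hc w hw).imp_left (And.imp_left Or.inr), ?_,
      Or.inl ⟨l, hl, Or.inl (Or.inl rfl)⟩⟩
    rintro a (rfl | ha) b hb
    exacts [hA _ h b hb, h00 a ha b hb]
  · refine ⟨A0, insert l B0, hu, fun w hw => (hc w hw).imp_right Or.inr, ?_,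
      Or.inl ⟨l, hl, Or.inr (Or.inl rfl)⟩⟩
    rintro a ha b (rfl | hb)
    exacts [hB _ h a ha, h00 a ha b hb]
  · refine ⟨insert a A0, insert b B0, Or.inr hu,
      fun w hw => (hc w hw).imp (And.imp_left Or.inr) Or.inr, ?_,
      Or.inr ⟨a, Or.inl rfl, b, Or.inl rfl, c, ha, hb, hc', h5, h6⟩⟩
    rintro a' (rfl | ha') b' (rfl | hb')
    exacts [⟨h3, h4⟩, hA _ h1 b' hb', hB _ h2 a' ha', h00 a' ha' b' hb']

end Pool.Agent.H50.Crown
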