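import Mathlib
import Pool.Agent.H50.Crown1

namespace Pool.Agent.H50.Crown

open MvPolynomial

variable {K : Type*} [Field K]

lemma class_sum {σ : Type} (J : Ideal (MvPolynomial σ K)) (f : MvPolynomial σ K)
    (h : ∀ d0 ∈ f.support, ∃ ℓ : MvPolynomial σ K →ₗ[K] K, ℓ f = 0 ∧ (∀ g ∈ J, ℓ g = 0) ∧
      ℓ (monomial d0 1) = 1 ∧ ∀ d, ℓ (monomial d 1) ≠ 0 → monomial d 1 - monomial d0 1 ∈ J) :
    f ∈ J := by
  classical
  let π := Ideal.Quotient.mkₐ K J
  have hf : f = ∑ d ∈ f.support, coeff d f • monomial d (1 : K) := by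
    conv_lhs => rw [f.as_sum]
    exact Finset.sum_congr rfl fun d _ => by rw [smul_monomial, smul_eq_mul, mul_one]
  rw [← Ideal.Quotient.eq_zero_iff_mem]
  change π f = 0
  rw [hf, map_sum]
  rw [← Finset.sum_fiberwise_of_maps_to (g := fun d => π (monomial d 1))
    (t := f.support.image fun d => π (monomial d 1)) (fun d hd => Finset.mem_image_of_mem _ hd)]
  refine Finset.sum_eq_zero fun q hq => ?_
  obtain ⟨d0, hd0, rfl⟩ := Finset.mem_image.1 hq
  obtain ⟨ℓ, h1, h2, h3, h4⟩ := h d0 hd0
  have e : ∀ d, π (monomial d 1) = π (monomial d0 1) ↔ monomial d 1 - monomial d0 1 ∈ J :=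
    fun d => Ideal.Quotient.eq
  have : ∑ d ∈ f.support with π (monomial d 1) = π (monomial d0 1), coeff d f = 0 := by
    rw [← h1]
    conv_rhs => rw [hf, map_sum]
    rw [Finset.sum_filter]
    refine Finset.sum_congr rfl fun d _ => ?_
    rw [map_smul, smul_eq_mul]
    split_ifs with hd
    · have := h2 _ ((e d).1 hd)
      rw [map_sub, h3, sub_eq_zero] at this
      rw [this, mul_one]
    · have : ℓ (monomial d 1) = 0 := by
        by_contra hc
        exact hd ((e d).2 (h4 d hc))
      rw [this, mul_zero]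
  calc _ = ∑ d ∈ f.support with π (monomial d 1) = π (monomial d0 1),
        coeff d f • π (monomial d0 1) := Finset.sum_congr rfl fun d hd => by
          rw [map_smul, (Finset.mem_filter.1 hd).2]
    _ = 0 := by rw [← Finset.sum_smul, this, zero_smul]

noncomputable def mon {σ : Type} (M : Multiset σ) : MvPolynomial σ K := (M.map X).prod

lemma mon_cons {σ : Type} (a : σ) (M : Multiset σ) : (mon (a ::ₘ M) : MvPolynomial σ K) = X a * mon M := by
  simp [mon]

lemma mon_add {σ : Type} (M N : Multiset σ) : (mon (M + N) : MvPolynomial σ K) = mon M * mon N := by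
  simp [mon]

lemma mon_eq {σ : Type} [DecidableEq σ] (M : Multiset σ) :
    (mon M : MvPolynomial σ K) = monomial (Multiset.toFinsupp M) 1 := by
  induction M using Multiset.induction_on with
  | empty => simp [mon]
  | cons a M ih =>
    rw [mon_cons, ih, ← Multiset.singleton_add, Multiset.toFinsupp_add, Multiset.toFinsupp_singleton,
      X, monomial_mul, one_mul]

variable {α : Type}

noncomputable def minor (u v : α × Bool) : MvPolynomial ((α × Bool) × Bool) K :=
  X (u, true) * X (v, false) - X (v, true) * X (u, false)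

noncomputable def JJ (K : Type*) [Field K] (α : Type) : Ideal (MvPolynomial ((α × Bool) × Bool) K) :=
  Ideal.span {p | ∃ u v, adj u v ∧ p = minor u v}

lemma minor_mem {u v : α × Bool} (h : adj u v) : (minor u v : MvPolynomial _ K) ∈ JJ K α :=
  Ideal.subset_span ⟨u, v, h, rfl⟩

lemma mid_mem {u m w : α × Bool} (h : adj u m) (h' : adj m w) (c : Bool) :
    (X (m, c) * minor u w : MvPolynomial _ K) ∈ JJ K α := by
  have e : (X (m, c) * minor u w : MvPolynomial _ K) =
      X (u, c) * minor m w + X (w, c) * minor u m := by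
    cases c <;> simp only [minor] <;> ring
  rw [e]
  exact add_mem (Ideal.mul_mem_left _ _ (minor_mem h')) (Ideal.mul_mem_left _ _ (minor_mem h))

lemma swap (lab : α × Bool → Bool) (u : α × Bool) (b c : Bool) (N : Multiset (α × Bool))
    (hu : lab u = true)
    (hN : ∀ w ∈ N, lab w = true → w = u ∨ adj u w ∨ ∃ m ∈ N, adj u m ∧ adj m w)
    (M' : Multiset ((α × Bool) × Bool))
    (h1 : M'.map Prod.fst = ((u, b) ::ₘ N.map fun v => (v, c)).map Prod.fst)
    (h2 : M'.map (fun p => (lab p.1, p.2)) =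
      ((u, b) ::ₘ N.map fun v => (v, c)).map (fun p => (lab p.1, p.2))) :
    (mon M' - mon ((u, b) ::ₘ N.map fun v => (v, c)) : MvPolynomial _ K) ∈ JJ K α := by
  simp only [Multiset.map_cons, Multiset.map_map, Function.comp_def, Multiset.map_id', hu] at h1 h2
  have : (true, b) ∈ M'.map (fun p => (lab p.1, p.2)) := by rw [h2]; simp
  obtain ⟨⟨w, b'⟩, hw, hw'⟩ := Multiset.mem_map.1 this
  simp only [Prod.mk.injEq] at hw'
  obtain ⟨hw1, rfl⟩ := hw'
  obtain ⟨M, rfl⟩ := Multiset.exists_cons_of_mem hw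
  simp only [Multiset.map_cons, hw1, Multiset.cons_inj_right] at h1 h2
  have hM : M = (M.map Prod.fst).map fun v => (v, c) := by
    rw [Multiset.map_map]
    conv_lhs => rw [← Multiset.map_id M]
    refine Multiset.map_congr rfl fun p hp => ?_
    have : (lab p.1, p.2) ∈ N.map fun v => (lab v, c) := by
      rw [← h2]; exact Multiset.mem_map_of_mem _ hp
    obtain ⟨v, -, hv⟩ := Multiset.mem_map.1 this
    simp only [Prod.mk.injEq] at hv
    simp [hv.2]
  rw [hM]
  generalize M.map Prod.fst = N' at h1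
  rcases Multiset.cons_eq_cons.1 h1 with ⟨rfl, rfl⟩ | ⟨hne, R, rfl, rfl⟩
  · simp
  have key : (minor u w * mon (R.map fun v => (v, c)) : MvPolynomial _ K) ∈ JJ K α := by
    rcases hN w (by simp) hw1 with h | h | ⟨m, hm, h, h'⟩
    · exact absurd h hne
    · exact Ideal.mul_mem_right _ _ (minor_mem h)
    · have : m ∈ R := by
        rcases Multiset.mem_cons.1 hm with rfl | hm
        · exact absurd rfl h'.1
        · exact hm
      obtain ⟨R', rfl⟩ := Multiset.exists_cons_of_mem this
      rw [Multiset.map_cons, mon_cons, ← mul_assoc, mul_comm (minor u w)]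
      exact Ideal.mul_mem_right _ _ (mid_mem h h' c)
  simp only [Multiset.map_cons, mon_cons]
  generalize (mon (R.map fun v => (v, c)) : MvPolynomial _ K) = Q at key
  cases b' <;> cases c
  · convert zero_mem (JJ K α) using 1; ring
  · convert key using 1; simp only [minor]; ring
  · convert neg_mem key using 1; simp only [minor]; ring
  · convert zero_mem (JJ K α) using 1; ring

lemma decomp (M : Multiset ((α × Bool) × Bool)) (h : M.card ≤ 3) : M = 0 ∨
    ∃ (u i j : α × Bool) (b c : Bool) (N : Multiset (α × Bool)), M = (u, b) ::ₘ N.map (fun v => (v, c)) ∧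
      (∀ w ∈ N, (w = i ∨ w = j) ∧ i ∈ N ∧ j ∈ N) := by
  have : M.card = 0 ∨ M.card = 1 ∨ M.card = 2 ∨ M.card = 3 := by omega
  rcases this with h | h | h | h
  · exact Or.inl (Multiset.card_eq_zero.1 h)
  · obtain ⟨⟨u, b⟩, rfl⟩ := Multiset.card_eq_one.1 h
    exact Or.inr ⟨u, u, u, b, b, 0, by simp, by simp⟩
  · obtain ⟨⟨u, b⟩, ⟨i, c⟩, rfl⟩ := Multiset.card_eq_two.1 h
    exact Or.inr ⟨u, i, i, b, c, {i}, by simp, by simp⟩
  · obtain ⟨⟨u, b⟩, ⟨i, c⟩, ⟨j, e⟩, rfl⟩ := Multiset.card_eq_three.1 h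
    right
    by_cases h1 : c = e
    · subst h1
      exact ⟨u, i, j, b, c, {i, j}, by simp, by simp⟩
    by_cases h2 : b = e
    · subst h2
      exact ⟨i, u, j, c, b, {u, j}, by simp [Multiset.cons_swap], by simp⟩
    · have h3 : b = c := by revert h1 h2; cases b <;> cases c <;> cases e <;> simp
      subst h3
      refine ⟨j, u, i, e, b, {u, i}, ?_, by simp⟩
      simp only [Multiset.insert_eq_cons, Multiset.map_cons, Multiset.map_singleton,
        ← Multiset.cons_zero]
      rw [Multiset.cons_swap (i, b), Multiset.cons_swap (u, b), Multiset.map_zero]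

open Classical in
noncomputable def lab (A : Set (α × Bool)) (v : α × Bool) : Bool := decide (v ∈ A)

open Classical in
noncomputable def phi (K : Type*) [Field K] (A B : Set (α × Bool)) :
    MvPolynomial ((α × Bool) × Bool) K →ₐ[K] MvPolynomial ((α × Bool) ⊕ Bool × Bool) K :=
  aeval fun p => if p.1 ∈ A ∨ p.1 ∈ B then X (Sum.inl p.1) * X (Sum.inr (lab A p.1, p.2)) else 0

lemma phi_X {A B : Set (α × Bool)} {v : α × Bool} (h : v ∈ A ∨ v ∈ B) (b : Bool) :
    phi K A B (X (v, b)) = X (Sum.inl v) * X (Sum.inr (lab A v, b)) := by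
  simp only [phi, aeval_X, h, if_true]

lemma phi_X' {A B : Set (α × Bool)} {v : α × Bool} (h : ¬ (v ∈ A ∨ v ∈ B)) (b : Bool) :
    phi K A B (X (v, b)) = 0 := by
  simp only [phi, aeval_X, h, if_false]

lemma phi_J {A B : Set (α × Bool)} (hAB : ∀ a ∈ A, ∀ b ∈ B, a ≠ b ∧ ¬ adj a b)
    (g : MvPolynomial ((α × Bool) × Bool) K) (hg : g ∈ JJ K α) : phi K A B g = 0 := by
  have : JJ K α ≤ RingHom.ker (phi K A B) := by
    refine Ideal.span_le.2 ?_
    rintro _ ⟨u, v, h, rfl⟩
    simp only [SetLike.mem_coe, RingHom.mem_ker, minor, map_sub, map_mul]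
    by_cases hu : u ∈ A ∨ u ∈ B
    · by_cases hv : v ∈ A ∨ v ∈ B
      · have : lab A u = lab A v := by
          simp only [lab, decide_eq_decide]
          constructor
          · intro ha
            exact hv.resolve_right fun hb => (hAB u ha v hb).2 h
          · intro ha
            exact hu.resolve_right fun hb => (hAB v ha u hb).2 ⟨h.1.symm, h.2.symm⟩
        simp only [phi_X hu, phi_X hv, this]
        ring
      · simp [phi_X' hv]
    · simp [phi_X' hu]
  exact this hg

def NN (l : α × Bool → Bool) (M : Multiset ((α × Bool) × Bool)) :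
    Multiset ((α × Bool) ⊕ Bool × Bool) :=
  M.map (fun p => Sum.inl p.1) + M.map (fun p => Sum.inr (l p.1, p.2))

lemma NN_inj {l : α × Bool → Bool} {M M' : Multiset ((α × Bool) × Bool)} (h : NN l M' = NN l M) :
    M'.map Prod.fst = M.map Prod.fst ∧
      M'.map (fun p => (l p.1, p.2)) = M.map (fun p => (l p.1, p.2)) := by
  have e1 : ∀ M, (NN l M).filterMap Sum.getLeft? = M.map Prod.fst := fun M => by
    simp only [NN, Multiset.filterMap_add, Multiset.filterMap_map, Function.comp_def,
      Sum.getLeft?_inl, Sum.getLeft?_inr]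
    induction M using Multiset.induction_on <;> simp_all [Multiset.filterMap_cons]
  have e2 : ∀ M, (NN l M).filterMap Sum.getRight? = M.map (fun p => (l p.1, p.2)) := fun M => by
    simp only [NN, Multiset.filterMap_add, Multiset.filterMap_map, Function.comp_def,
      Sum.getRight?_inl, Sum.getRight?_inr]
    induction M using Multiset.induction_on <;> simp_all [Multiset.filterMap_cons]
  exact ⟨by rw [← e1, h, e1], by rw [← e2, h, e2]⟩

lemma phi_mon {A B : Set (α × Bool)} (M : Multiset ((α × Bool) × Bool)) :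
    (phi K A B (mon M) = 0 ∧ ¬ ∀ p ∈ M, p.1 ∈ A ∨ p.1 ∈ B) ∨
      phi K A B (mon M) = mon (NN (lab A) M) := by
  induction M using Multiset.induction_on with
  | empty => simp [NN, mon]
  | cons a M ih =>
    rw [mon_cons, map_mul]
    rcases ih with ⟨h, h'⟩ | h
    · exact Or.inl ⟨by rw [h, mul_zero], fun hh => h' fun p hp => hh p (Multiset.mem_cons_of_mem hp)⟩
    by_cases ha : a.1 ∈ A ∨ a.1 ∈ B
    · right
      rw [h, show a = (a.1, a.2) from rfl, phi_X ha]
      simp only [NN, Multiset.map_cons, mon_add, mon_cons]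
      ring
    · left
      rw [show a = (a.1, a.2) from rfl, phi_X' ha, zero_mul]
      exact ⟨rfl, fun hh => ha (hh _ (Multiset.mem_cons_self _ _))⟩

lemma phi_minor {A B : Set (α × Bool)} {a b : α × Bool} (ha : a ∈ A) (hb : b ∈ B) (hb' : b ∉ A) :
    phi K A B (minor a b) ≠ 0 := by
  classical
  have e1 : lab A a = true := by simp [lab, ha]
  have e2 : lab A b = false := by simp [lab, hb']
  simp only [minor, map_sub, map_mul, phi_X (Or.inl ha), phi_X (Or.inr hb), e1, e2]
  intro h
  have := congrArg (eval fun x => if x = Sum.inr (false, true) then 0 else 1) h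
  simp at this

theorem main {n : ℕ} (hn : 4 ≤ n) (T : Set (Fin n × Bool))
    (f : MvPolynomial ((Fin n × Bool) × Bool) K) (hf : f.totalDegree ≤ 3)
    (h1 : ∀ l ∈ T, ∀ b, X (l, b) * f ∈ JJ K (Fin n))
    (h2 : ∀ a b c, a ∉ T → b ∉ T → c ∉ T → adj a c → adj c b → minor a b * f ∈ JJ K (Fin n)) :
    f ∈ JJ K (Fin n) := by
  classical
  refine class_sum _ f fun d0 hd0 => ?_
  obtain ⟨M, rfl⟩ := Multiset.toFinsupp.surjective d0
  have hM : M.card ≤ 3 := by
    have := (le_totalDegree hd0).trans hf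
    rwa [← Multiset.toFinsupp_toMultiset M, Finsupp.card_toMultiset]
  have key : ∃ A B : Set (Fin n × Bool), (∀ a ∈ A, ∀ b ∈ B, a ≠ b ∧ ¬ adj a b) ∧
      ((∃ l ∈ T, l ∈ A ∨ l ∈ B) ∨
        ∃ a ∈ A, ∃ b ∈ B, ∃ c, a ∉ T ∧ b ∉ T ∧ c ∉ T ∧ adj a c ∧ adj c b) ∧
      (∀ p ∈ M, p.1 ∈ A ∨ p.1 ∈ B) ∧ ∀ M', NN (lab A) M' = NN (lab A) M →
        (mon M' - mon M : MvPolynomial _ K) ∈ JJ K (Fin n) := by
    rcases decomp M hM with rfl | ⟨u, i, j, b, c, N, rfl, hN⟩
    · let u : Fin n × Bool := (⟨0, by omega⟩, true)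
      obtain ⟨A, B, -, -, h3, h4⟩ := sets hn T u u u
      refine ⟨A, B, h3, h4, by simp, fun M' hM' => ?_⟩
      have := (NN_inj hM').1
      simp only [Multiset.map_zero, Multiset.map_eq_zero] at this
      simp [this]
    · obtain ⟨A, B, hu, hw, h3, h4⟩ := sets hn T u i j
      refine ⟨A, B, h3, h4, ?_, fun M' hM' => swap (lab A) u b c N (by simp [lab, hu]) ?_ M'
        (NN_inj hM').1 (NN_inj hM').2⟩
      · intro p hp
        rcases Multiset.mem_cons.1 hp with rfl | hp
        · exact Or.inl hu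
        · obtain ⟨v, hv, rfl⟩ := Multiset.mem_map.1 hp
          exact (hw v (hN v hv).1).imp_left And.left
      · intro w hwN hl
        have hA : w ∈ A := by simpa [lab] using hl
        rcases hw w (hN w hwN).1 with ⟨-, h | h | h | h⟩ | h
        · exact Or.inl h
        · exact Or.inr (Or.inl h)
        · exact Or.inr (Or.inr ⟨i, (hN w hwN).2.1, h⟩)
        · exact Or.inr (Or.inr ⟨j, (hN w hwN).2.2, h⟩)
        · exact absurd rfl (h3 w hA w h).1
  obtain ⟨A, B, h3, h4, h5, h6⟩ := key
  have hphi : phi K A B f = 0 := by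
    rcases h4 with ⟨l, hl, h⟩ | ⟨a, ha, b, hb, c, ha', hb', hc', hac, hcb⟩
    · have := phi_J h3 _ (h1 l hl true)
      rw [map_mul, phi_X h] at this
      exact (mul_eq_zero.1 this).resolve_left (mul_ne_zero (X_ne_zero _) (X_ne_zero _))
    · have := phi_J h3 _ (h2 a b c ha' hb' hc' hac hcb)
      rw [map_mul] at this
      exact (mul_eq_zero.1 this).resolve_left (phi_minor ha hb fun h => (h3 b h b hb).1 rfl)
  refine ⟨lcoeff K (Multiset.toFinsupp (NN (lab A) M)) ∘ₗ (phi K A B).toLinearMap, ?_, ?_, ?_, ?_⟩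
  · simp [hphi]
  · intro g hg
    simp [phi_J h3 g hg]
  · rw [← mon_eq]
    rcases phi_mon (K := K) (A := A) (B := B) M with h | h
    · exact absurd h5 h.2
    · change coeff _ (phi K A B (mon M)) = 1
      rw [h, mon_eq, coeff_monomial, if_pos rfl]
  · intro d hd
    obtain ⟨M', rfl⟩ := Multiset.toFinsupp.surjective d
    rw [← mon_eq] at hd
    rw [← mon_eq, ← mon_eq]
    rcases phi_mon (K := K) (A := A) (B := B) M' with h | h
    · simp [h.1] at hd
    · refine h6 M' ?_
      change coeff _ (phi K A B (mon M')) ≠ 0 at hd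
      rw [h, mon_eq, coeff_monomial] at hd
      simpa using hd

end Pool.Agent.H50.Crown
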