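import Mathlib

set_option autoImplicit false

open Set Filter Topology
open scoped Manifold ContDiff

namespace Pool.Agent.H50.Dbl

instance two_pos_fact : Fact ((0 : ℝ) < 2) := ⟨two_pos⟩

abbrev N : Type := AddCircle (2 : ℝ)

noncomputable def hs (a : ℝ) : OpenPartialHomeomorph ℝ (EuclideanHalfSpace 1) where
  source := Ioi a
  target := {z : EuclideanHalfSpace 1 | 0 < z.val 0}
  toFun := fun t => ⟨WithLp.toLp 2 fun _ => max (t - a) 0, le_max_right _ _⟩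
  invFun := fun z => z.val 0 + a
  map_source' := by
    intro t ht
    simp only [mem_Ioi] at ht
    simp [ht]
  map_target' := by
    intro z hz
    simp only [mem_ofPred_eq] at hz
    simpa using hz
  left_inv' := by
    intro t ht
    simp only [mem_Ioi] at ht
    simp [ht.le]
  right_inv' := by
    rintro ⟨z, hz⟩ h
    rw [Subtype.mk_eq_mk]
    ext i
    rw [Subsingleton.elim i 0]
    simpa using hz
  open_source := isOpen_Ioi
  open_target := by
    have : IsOpen {z : EuclideanSpace ℝ (Fin 1) | 0 < z 0} :=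
      isOpen_Ioi.preimage (@PiLp.continuous_apply 2 (Fin 1) (fun _ => ℝ) _ 0)
    exact this.preimage continuous_subtype_val
  continuousOn_toFun := by fun_prop
  continuousOn_invFun := by fun_prop

noncomputable def ch (a : ℝ) : OpenPartialHomeomorph N (EuclideanHalfSpace 1) :=
  (AddCircle.openPartialHomeomorphCoe (2 : ℝ) a).symm ≫ₕ hs a

noncomputable def sec (a : ℝ) (x : N) : ℝ := AddCircle.equivIco (2 : ℝ) a x

lemma coe_sec (a : ℝ) (x : N) : ((sec a x : ℝ) : N) = x := (AddCircle.equivIco (2 : ℝ) a).symm_apply_apply x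

lemma sec_coe (a t : ℝ) (h : t ∈ Ico a (a + 2)) : sec a (t : N) = t :=
  congrArg Subtype.val ((AddCircle.equivIco (2 : ℝ) a).apply_symm_apply ⟨t, h⟩)

lemma ch_source (a : ℝ) : (ch a).source = {(a : N)}ᶜ := by
  ext x
  simp only [ch, OpenPartialHomeomorph.trans_source, OpenPartialHomeomorph.symm_source, mem_inter_iff]
  constructor
  · exact fun h => h.1
  · intro h
    exact ⟨h, ((AddCircle.openPartialHomeomorphCoe (2 : ℝ) a).map_target h).1⟩

lemma ch_apply (a : ℝ) (x : N) : (ch a x).val 0 = max (sec a x - a) 0 := rfl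

lemma ch_symm (a : ℝ) (z : EuclideanHalfSpace 1) : (ch a).symm z = ((z.val 0 + a : ℝ) : N) := rfl

lemma sec_ge (a : ℝ) (x : N) : a ≤ sec a x := (AddCircle.equivIco (2 : ℝ) a x).2.1

lemma ne_half (t : ℝ) : ((t : ℝ) : N) ≠ ((t - 1 : ℝ) : N) := by
  intro h
  have := (AddCircle.coe_eq_coe_iff_of_mem_Ico (p := (2 : ℝ)) (a := t - 1) (x := t) (y := t - 1)
    ⟨by linarith, by linarith⟩ ⟨le_rfl, by linarith⟩).1 h
  linarith

@[reducible] noncomputable def cs : ChartedSpace (EuclideanHalfSpace 1) N where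
  atlas := range ch
  chartAt x := ch (sec 0 x - 1)
  mem_chart_source x := by
    rw [ch_source]
    have := ne_half (sec 0 x)
    rwa [coe_sec] at this
  chart_mem_atlas x := mem_range_self _

lemma sec_contAt (a : ℝ) (x : N) (h : x ≠ (a : N)) : ContinuousAt (sec a) x :=
  continuousAt_subtype_val.comp (AddCircle.continuousAt_equivIco (2 : ℝ) a h)

lemma sec_loc (a t : ℝ) (h : (t : N) ≠ (a : N)) :
    ∀ᶠ s in 𝓝 t, sec a ((s : ℝ) : N) = s + (sec a (t : N) - t) := by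
  have hc : ContinuousAt (fun s : ℝ => sec a (s : N) - s) t :=
    ((sec_contAt a _ h).comp (AddCircle.continuous_mk' (2 : ℝ)).continuousAt).sub continuousAt_id
  have := hc.eventually (Ioo_mem_nhds (show sec a (t : N) - t - 1 < _ by linarith)
    (show _ < sec a (t : N) - t + 1 by linarith))
  filter_upwards [this] with s hs
  have e : ((sec a (s : N) : ℝ) : N) = ((s + (sec a (t : N) - t) : ℝ) : N) := by
    rw [coe_sec, AddCircle.coe_add, AddCircle.coe_sub, coe_sec]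
    simp
  exact (AddCircle.coe_eq_coe_iff_of_mem_Ico (p := (2 : ℝ)) (a := s + (sec a (t : N) - t) - 1)
    ⟨by linarith [hs.1], by linarith [hs.2]⟩ ⟨by linarith, by linarith⟩).1 e

lemma sec_smooth (a t : ℝ) (h : (t : N) ≠ (a : N)) (n : WithTop ℕ∞) :
    ContDiffAt ℝ n (fun s : ℝ => sec a (s : N)) t :=
  (contDiffAt_id.add contDiffAt_const).congr_of_eventuallyEq (sec_loc a t h)

lemma mani : @IsManifold ℝ _ _ _ _ _ _ (𝓡∂ 1) ((⊤ : ℕ∞) : WithTop ℕ∞) N _ cs := by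
  letI := cs
  apply isManifold_of_contDiffOn
  rintro e e' ⟨a, rfl⟩ ⟨b, rfl⟩
  have M : ContDiffOn ℝ ((⊤ : ℕ∞) : WithTop ℕ∞) (fun z : EuclideanSpace ℝ (Fin 1) =>
      (WithLp.toLp 2 (fun _ => sec b ((z 0 + a : ℝ) : N) - b) : EuclideanSpace ℝ (Fin 1)))
      {z | ((z 0 + a : ℝ) : N) ≠ (b : N)} := by
    intro z hz
    apply ContDiffAt.contDiffWithinAt
    rw [contDiffAt_euclidean]
    intro i
    have h1 : ContDiffAt ℝ ((⊤ : ℕ∞) : WithTop ℕ∞) (fun z : EuclideanSpace ℝ (Fin 1) => z 0 + a) z := by fun_prop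
    exact ((sec_smooth b _ hz _).comp z h1).sub contDiffAt_const
  have key : ∀ z ∈ (𝓡∂ 1).symm ⁻¹' ((ch a).symm ≫ₕ ch b).source ∩ range (𝓡∂ 1),
      ((𝓡∂ 1).symm z).val 0 = z 0 ∧ ((z 0 + a : ℝ) : N) ≠ (b : N) := by
    rintro z ⟨h1, ⟨y, rfl⟩⟩
    rw [mem_preimage, ModelWithCorners.left_inv] at h1
    rw [ModelWithCorners.left_inv]
    refine ⟨rfl, ?_⟩
    have := h1.2
    rw [mem_preimage, ch_source] at this
    exact this
  refine (M.mono fun z hz => (key z hz).2).congr fun z hz => ?_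
  ext i
  rw [Subsingleton.elim i 0]
  change (ch b ((ch a).symm ((𝓡∂ 1).symm z))).val 0 = _
  rw [ch_apply, ch_symm, (key z hz).1, max_eq_left (sub_nonneg.2 (sec_ge _ _))]

lemma lift_smooth (F : N → N) (h : ∀ x : N, ∃ (t : ℝ) (f : ℝ → ℝ), (t : N) = x ∧ ContDiffAt ℝ 1 f t ∧
    ∀ᶠ s in 𝓝 t, F ((s : ℝ) : N) = ((f s : ℝ) : N)) :
    @ContMDiff ℝ _ _ _ _ _ _ (𝓡∂ 1) N _ cs _ _ _ _ _ (𝓡∂ 1) N _ cs 1 F := by
  letI := cs
  intro x
  obtain ⟨t, f, rfl, hf, hF⟩ := h x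
  have hcF : ContinuousAt F (t : N) := by
    have h1 : ContinuousAt (fun s : ℝ => F (s : N)) t :=
      ((AddCircle.continuous_mk' (2 : ℝ)).continuousAt.comp hf.continuousAt).congr (EventuallyEq.symm hF)
    have h2 : ContinuousAt (sec (t - 1)) (t : N) := sec_contAt _ _ (ne_half t)
    have h3 : sec (t - 1) (t : N) = t := sec_coe _ _ ⟨by linarith, by linarith⟩
    have h4 := ContinuousAt.comp (f := sec (t - 1)) (g := fun s : ℝ => F (s : N)) (x := (t : N))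
      (by rw [h3]; exact h1) h2
    have : (fun s : ℝ => F (s : N)) ∘ sec (t - 1) = F := by
      funext y
      simp [coe_sec]
    rwa [this] at h4
  rw [contMDiffAt_iff]
  refine ⟨hcF, ?_⟩
  set a := sec 0 (t : N) - 1 with ha
  set b := sec 0 (F (t : N)) - 1 with hb
  have hta : sec a (t : N) = a + 1 := by
    have := sec_coe a (sec 0 (t : N)) ⟨by linarith, by linarith⟩
    rw [coe_sec] at this
    linarith
  have hz0 : (extChartAt (𝓡∂ 1) (t : N) (t : N)) 0 = 1 := by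
    change (ch a (t : N)).val 0 = 1
    rw [ch_apply, hta]
    simp
  have hFt : F (t : N) = ((f t : ℝ) : N) := hF.self_of_nhds
  have hb' : ((f t : ℝ) : N) ≠ (b : N) := by
    have := ne_half (sec 0 (F (t : N)))
    rw [coe_sec] at this
    rwa [← hFt]
  have hl : ContDiffAt ℝ 1 (fun z : EuclideanSpace ℝ (Fin 1) => z 0 + (t - 1))
      (extChartAt (𝓡∂ 1) (t : N) (t : N)) := by fun_prop
  have hl0 : (extChartAt (𝓡∂ 1) (t : N) (t : N)) 0 + (t - 1) = t := by rw [hz0]; ring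
  have M : ContDiffAt ℝ 1 (fun z : EuclideanSpace ℝ (Fin 1) =>
      (WithLp.toLp 2 (fun _ => sec b ((f (z 0 + (t - 1)) : ℝ) : N) - b) : EuclideanSpace ℝ (Fin 1)))
      (extChartAt (𝓡∂ 1) (t : N) (t : N)) := by
    rw [contDiffAt_euclidean]
    intro i
    have h2 : ContDiffAt ℝ 1 (fun s : ℝ => sec b ((f s : ℝ) : N)) t := (sec_smooth b _ hb' 1).comp t hf
    exact (ContDiffAt.comp (f := fun z : EuclideanSpace ℝ (Fin 1) => z 0 + (t - 1))
      (g := fun s : ℝ => sec b ((f s : ℝ) : N)) _ (by rw [hl0]; exact h2) hl).sub contDiffAt_const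
  have hev : ∀ᶠ z in 𝓝 (extChartAt (𝓡∂ 1) (t : N) (t : N)),
      F (((z 0 + (t - 1) : ℝ)) : N) = ((f (z 0 + (t - 1)) : ℝ) : N) := by
    have := hl.continuousAt
    rw [ContinuousAt, hl0] at this
    exact this.eventually hF
  have hat : ((a : ℝ) : N) = ((t - 1 : ℝ) : N) := by
    rw [ha, AddCircle.coe_sub, AddCircle.coe_sub, coe_sec]
  refine M.contDiffWithinAt.congr_of_eventuallyEq_of_mem ?_ (mem_range_self _)
  filter_upwards [nhdsWithin_le_nhds hev, self_mem_nhdsWithin] with z hz hz2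
  obtain ⟨y, rfl⟩ := hz2
  ext i
  rw [Subsingleton.elim i 0]
  change (ch b (F ((ch a).symm ((𝓡∂ 1).symm ((𝓡∂ 1) y))))).val 0 = _
  rw [ModelWithCorners.left_inv, ch_apply, ch_symm, max_eq_left (sub_nonneg.2 (sec_ge _ _))]
  have : ((y.val 0 + a : ℝ) : N) = (((𝓡∂ 1) y 0 + (t - 1) : ℝ) : N) := by
    rw [AddCircle.coe_add, AddCircle.coe_add, hat]
    rfl
  rw [this, hz]

noncomputable def odd (φ : ℝ → ℝ) (s : ℝ) : ℝ := if 0 ≤ s then φ s else 2 * φ 0 - φ (-s)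

lemma odd_smooth (φ : ℝ → ℝ) (h : ContDiffOn ℝ 1 φ (Icc 0 1)) (t : ℝ) (ht : t ∈ Ioo (-1 : ℝ) 1) :
    ContDiffAt ℝ 1 (odd φ) t := by
  have hu : UniqueDiffOn ℝ (Icc (0 : ℝ) 1) := uniqueDiffOn_Icc one_pos
  have hc : ContinuousOn (derivWithin φ (Icc 0 1)) (Icc 0 1) := h.continuousOn_derivWithin hu le_rfl
  have hd : ∀ s ∈ Icc (0 : ℝ) 1, HasDerivWithinAt φ (derivWithin φ (Icc 0 1) s) (Icc 0 1) s :=
    fun s hs => (h.differentiableOn one_ne_zero s hs).hasDerivWithinAt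
  have pos : ∀ s ∈ Ico (0 : ℝ) 1, HasDerivWithinAt φ (derivWithin φ (Icc 0 1) s) (Ici 0) s := by
    intro s hs
    refine (hd s ⟨hs.1, hs.2.le⟩).mono_of_mem_nhdsWithin ?_
    filter_upwards [self_mem_nhdsWithin, nhdsWithin_le_nhds (Iio_mem_nhds hs.2)] with y h1 h2
    exact ⟨h1, le_of_lt h2⟩
  have neg : ∀ s ∈ Ioc (-1 : ℝ) 0,
      HasDerivWithinAt (fun y => 2 * φ 0 - φ (-y)) (derivWithin φ (Icc 0 1) (-s)) (Iic 0) s := by
    intro s hs
    have h1 := (pos (-s) ⟨by linarith [hs.2], by linarith [hs.1]⟩).comp s (hasDerivWithinAt_neg s (Iic 0))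
      (fun y hy => by simpa using hy)
    simpa using h1.const_sub (2 * φ 0)
  have e1 : ∀ y ∈ Ici (0 : ℝ), odd φ y = φ y := fun y hy => if_pos hy
  have e2 : ∀ y ∈ Iic (0 : ℝ), odd φ y = 2 * φ 0 - φ (-y) := by
    intro y hy
    rcases eq_or_lt_of_le (show y ≤ 0 from hy) with h0 | h0
    · subst h0
      simp [odd]
      ring
    · exact if_neg (not_le.2 h0)
  have key : ∀ s ∈ Ioo (-1 : ℝ) 1, HasDerivAt (odd φ) (derivWithin φ (Icc 0 1) |s|) s := by
    intro s hs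
    rcases lt_trichotomy s 0 with h0 | h0 | h0
    · rw [abs_of_neg h0]
      exact ((neg s ⟨hs.1, h0.le⟩).congr e2 (e2 s h0.le)).hasDerivAt (Iic_mem_nhds h0)
    · subst h0
      have a1 := (pos 0 ⟨le_rfl, one_pos⟩).congr e1 (e1 0 (le_refl (0 : ℝ)))
      have a2 := (neg 0 ⟨by norm_num, le_rfl⟩).congr e2 (e2 0 (le_refl (0 : ℝ)))
      rw [neg_zero] at a2
      have := a2.union a1
      rw [Iic_union_Ici, hasDerivWithinAt_univ] at this
      simpa using this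
    · rw [abs_of_pos h0]
      exact ((pos s ⟨h0.le, hs.2⟩).congr e1 (e1 s h0.le)).hasDerivAt (Ici_mem_nhds h0)
  have hO : ContDiffOn ℝ 1 (odd φ) (Ioo (-1) 1) := by
    rw [show (1 : WithTop ℕ∞) = 0 + 1 from rfl, contDiffOn_succ_iff_deriv_of_isOpen isOpen_Ioo]
    refine ⟨fun s hs => (key s hs).differentiableAt.differentiableWithinAt, by simp, ?_⟩
    rw [contDiffOn_zero]
    refine (hc.comp continuous_abs.continuousOn fun s hs => ⟨abs_nonneg s, (abs_lt.2 hs).le⟩).congr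
      fun s hs => (key s hs).deriv
  exact hO.contDiffAt (Ioo_mem_nhds ht.1 ht.2)

noncomputable def dbl (γ : ℝ → ℝ) (x : N) : N :=
  if 0 ≤ sec (-1) x then ((γ (sec (-1) x) : ℝ) : N) else ((-γ (-sec (-1) x) : ℝ) : N)

lemma refl_end (c y : ℝ) (h : c = 0 ∨ c = 1) : ((2 * c - y : ℝ) : N) = ((-y : ℝ) : N) := by
  rcases h with rfl | rfl
  · simp
  · have := AddCircle.coe_add_period (2 : ℝ) (-y)
    rw [← this]
    congr 1
    ring

lemma neg_end (c : ℝ) (h : c = 0 ∨ c = 1) : ((-c : ℝ) : N) = (c : N) := by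
  rw [← refl_end c c h]
  congr 1
  ring

lemma dbl_neg (γ : ℝ → ℝ) (h0 : γ 0 = 0 ∨ γ 0 = 1) (s : ℝ) (hs : s ∈ Icc (0 : ℝ) 1) :
    dbl γ ((-s : ℝ) : N) = ((-γ s : ℝ) : N) := by
  unfold dbl
  rw [sec_coe (-1) (-s) ⟨by linarith [hs.2], by linarith [hs.1]⟩]
  split_ifs with h
  · have : s = 0 := by linarith [hs.1]
    subst this
    rw [neg_zero, neg_end _ h0]
  · rw [neg_neg]

lemma dbl_pos (γ : ℝ → ℝ) (h0 : γ 0 = 0 ∨ γ 0 = 1) (h1 : γ 1 = 0 ∨ γ 1 = 1) (s : ℝ) (hs : s ∈ Icc (0 : ℝ) 1) :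
    dbl γ ((s : ℝ) : N) = ((γ s : ℝ) : N) := by
  rcases eq_or_lt_of_le hs.2 with h | h
  · subst h
    rw [← neg_end 1 (Or.inr rfl), dbl_neg γ h0 1 hs, neg_end _ h1]
  · unfold dbl
    rw [sec_coe (-1) s ⟨by linarith [hs.1], by linarith⟩, if_pos hs.1]

lemma cover (x : N) : ∃ s ∈ Icc (0 : ℝ) 1, x = (s : N) ∨ x = ((-s : ℝ) : N) := by
  have h := (AddCircle.equivIco (2 : ℝ) (-1) x).2
  change sec (-1) x ∈ _ at h
  rcases le_total 0 (sec (-1) x) with h0 | h0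
  · exact ⟨_, ⟨h0, by linarith [h.2]⟩, Or.inl (coe_sec _ _).symm⟩
  · exact ⟨-sec (-1) x, ⟨by linarith, by linarith [h.1]⟩, Or.inr (by rw [neg_neg, coe_sec])⟩

lemma dbl_smooth (γ : ℝ → ℝ) (h0 : γ 0 = 0 ∨ γ 0 = 1) (h1 : γ 1 = 0 ∨ γ 1 = 1) (h : ContDiffOn ℝ 1 γ (Icc 0 1)) :
    @ContMDiff ℝ _ _ _ _ _ _ (𝓡∂ 1) N _ cs _ _ _ _ _ (𝓡∂ 1) N _ cs 1 (dbl γ) := by
  apply lift_smooth
  intro x
  have A : ∀ t ∈ Ioo (-1 : ℝ) 1, ∃ (t' : ℝ) (f : ℝ → ℝ), (t' : N) = (t : N) ∧ ContDiffAt ℝ 1 f t' ∧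
      ∀ᶠ s in 𝓝 t', dbl γ ((s : ℝ) : N) = ((f s : ℝ) : N) := by
    intro t ht
    refine ⟨t, odd γ, rfl, odd_smooth γ h t ht, ?_⟩
    filter_upwards [Ioo_mem_nhds ht.1 ht.2] with s hs
    unfold odd
    split_ifs with hs0
    · exact dbl_pos γ h0 h1 s ⟨hs0, hs.2.le⟩
    · rw [refl_end _ _ h0, ← dbl_neg γ h0 (-s) ⟨by linarith, by linarith [hs.1]⟩, neg_neg]
  have B : ∃ (t' : ℝ) (f : ℝ → ℝ), (t' : N) = ((1 : ℝ) : N) ∧ ContDiffAt ℝ 1 f t' ∧
      ∀ᶠ s in 𝓝 t', dbl γ ((s : ℝ) : N) = ((f s : ℝ) : N) := by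
    have hφ : ContDiffOn ℝ 1 (fun s => γ (1 - s)) (Icc 0 1) :=
      h.comp (contDiffOn_const.sub contDiffOn_id) fun s hs => ⟨by linarith [hs.2], by linarith [hs.1]⟩
    refine ⟨1, fun t => odd (fun s => γ (1 - s)) (1 - t), rfl, ?_, ?_⟩
    · exact ContDiffAt.comp (g := odd (fun s => γ (1 - s))) (f := fun t : ℝ => 1 - t) 1
        (odd_smooth _ hφ _ (by norm_num)) (contDiffAt_const.sub contDiffAt_id)
    · filter_upwards [Ioo_mem_nhds (show (0 : ℝ) < 1 by norm_num) (show (1 : ℝ) < 2 by norm_num)] with s hs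
      unfold odd
      split_ifs with hs0
      · simp only [sub_sub_cancel]
        exact dbl_pos γ h0 h1 s ⟨hs.1.le, by linarith⟩
      · simp only [sub_zero]
        rw [refl_end _ _ h1, ← dbl_neg γ h0 _ ⟨by linarith [hs.2], by linarith⟩, ← refl_end 1 _ (Or.inr rfl)]
        congr 2
        ring
  obtain ⟨s, hs, rfl | rfl⟩ := cover x
  · rcases eq_or_lt_of_le hs.2 with e | e
    · rw [e]; exact B
    · exact A s ⟨by linarith [hs.1], e⟩
  · rcases eq_or_lt_of_le hs.2 with e | e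
    · rw [e, neg_end 1 (Or.inr rfl)]; exact B
    · exact A (-s) ⟨by linarith, by linarith [hs.1]⟩

lemma no_inj (u : N → ℝ) (hu : Continuous u) : ¬ Function.Injective u := by
  intro hi
  have hc : Continuous (fun t : ℝ => u ((t : ℝ) : N) - u ((t - 1 : ℝ) : N)) :=
    (hu.comp (AddCircle.continuous_mk' (2 : ℝ))).sub
      (hu.comp ((AddCircle.continuous_mk' (2 : ℝ)).comp (continuous_id.sub continuous_const)))
  have e : u ((0 - 1 : ℝ) : N) = u ((1 : ℝ) : N) := by rw [zero_sub, neg_end 1 (Or.inr rfl)]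
  have : (0 : ℝ) ∈ uIcc ((fun t : ℝ => u ((t : ℝ) : N) - u ((t - 1 : ℝ) : N)) 0)
      ((fun t : ℝ => u ((t : ℝ) : N) - u ((t - 1 : ℝ) : N)) 1) := by
    simp only [e, sub_self]
    rw [mem_uIcc]
    rcases le_total (u ((0 : ℝ) : N)) (u ((1 : ℝ) : N)) with h | h
    · left; constructor <;> linarith
    · right; constructor <;> linarith
  obtain ⟨t, -, ht⟩ := intermediate_value_uIcc hc.continuousOn this
  exact ne_half t (hi (sub_eq_zero.1 ht))

instance one_pos_fact : Fact ((0 : ℝ) < 1) := ⟨one_pos⟩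

noncomputable def ext (g : Icc (0 : ℝ) 1 → Icc (0 : ℝ) 1) (t : ℝ) : ℝ := g (projIcc 0 1 zero_le_one t)

lemma ext_end (g : Equiv.Perm (Icc (0 : ℝ) 1)) (hg : Continuous g) :
    (ext g 0 = 0 ∨ ext g 0 = 1) ∧ (ext g 1 = 0 ∨ ext g 1 = 1) := by
  have e0 : ext g 0 = g ⊥ := by unfold ext; rw [projIcc_left]; rfl
  have e1 : ext g 1 = g ⊤ := by unfold ext; rw [projIcc_right]; rfl
  rw [e0, e1]
  rcases hg.strictMono_of_inj_boundedOrder' g.injective with h | h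
  · have a : g ⊥ = ⊥ := by
      obtain ⟨y, hy⟩ := g.surjective ⊥
      exact le_bot_iff.1 ((h.monotone (bot_le (a := y))).trans hy.le)
    have b : g ⊤ = ⊤ := by
      obtain ⟨y, hy⟩ := g.surjective ⊤
      exact top_le_iff.1 (hy.ge.trans (h.monotone (le_top (a := y))))
    rw [a, b]
    exact ⟨Or.inl rfl, Or.inr rfl⟩
  · have a : g ⊥ = ⊤ := by
      obtain ⟨y, hy⟩ := g.surjective ⊤
      exact top_le_iff.1 (hy ▸ h.antitone bot_le)
    have b : g ⊤ = ⊥ := by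
      obtain ⟨y, hy⟩ := g.surjective ⊥
      exact le_bot_iff.1 (hy ▸ h.antitone le_top)
    rw [a, b]
    exact ⟨Or.inr rfl, Or.inl rfl⟩

lemma ext_mem (g : Icc (0 : ℝ) 1 → Icc (0 : ℝ) 1) (t : ℝ) : ext g t ∈ Icc (0 : ℝ) 1 := (g _).2

lemma ext_comp (g h : Icc (0 : ℝ) 1 → Icc (0 : ℝ) 1) (t : ℝ) : ext (g ∘ h) t = ext g (ext h t) := by
  unfold ext
  rw [projIcc_val]
  rfl

lemma action (G : Type) [Group G] (ρ : G →* Equiv.Perm (Icc (0 : ℝ) 1)) (hi : Function.Injective ρ)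
    (hs : ∀ g, ContMDiff (𝓡∂ 1) (𝓡∂ 1) 1 (ρ g)) :
    ∃ σ : G →* Equiv.Perm N, Function.Injective σ ∧
      ∀ g, @ContMDiff ℝ _ _ _ _ _ _ (𝓡∂ 1) N _ cs _ _ _ _ _ (𝓡∂ 1) N _ cs 1 (σ g) := by
  have E := fun g => ext_end (ρ g) (hs g).continuous
  let f : G →* Function.End N :=
    { toFun := fun g => dbl (ext (ρ g))
      map_one' := by
        funext x
        obtain ⟨s, hs, rfl | rfl⟩ := cover x
        · rw [dbl_pos _ (E 1).1 (E 1).2 s hs]
          simp [ext, projIcc_of_mem _ hs, Function.End.one_def]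
        · rw [dbl_neg _ (E 1).1 s hs]
          simp [ext, projIcc_of_mem _ hs, Function.End.one_def]
      map_mul' := by
        intro g h
        funext x
        change dbl (ext (ρ (g * h))) x = dbl (ext (ρ g)) (dbl (ext (ρ h)) x)
        have e : ∀ s, ext (ρ (g * h)) s = ext (ρ g) (ext (ρ h) s) := by
          intro s
          rw [map_mul, Equiv.Perm.coe_mul, ext_comp]
        obtain ⟨s, hs, rfl | rfl⟩ := cover x
        · rw [dbl_pos _ (E _).1 (E _).2 s hs, dbl_pos _ (E _).1 (E _).2 s hs,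
            dbl_pos _ (E _).1 (E _).2 _ (ext_mem _ _), e]
        · rw [dbl_neg _ (E _).1 s hs, dbl_neg _ (E _).1 s hs, dbl_neg _ (E _).1 _ (ext_mem _ _), e] }
  refine ⟨f.toHomPerm, ?_, fun g => ?_⟩
  · rw [injective_iff_map_eq_one]
    intro g hg
    apply hi
    rw [map_one]
    ext s
    have h1 : dbl (ext (ρ g)) ((s : ℝ) : N) = ((s : ℝ) : N) := congrArg (fun e : Equiv.Perm N => e ((s : ℝ) : N)) hg
    rw [dbl_pos _ (E _).1 (E _).2 _ s.2] at h1
    have h2 := ext_mem (ρ g) s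
    have := (AddCircle.coe_eq_coe_iff_of_mem_Ico (p := (2 : ℝ)) (a := 0)
      ⟨h2.1, by linarith [h2.2]⟩ ⟨s.2.1, by linarith [s.2.2]⟩).1 h1
    simpa [ext] using this
  · refine dbl_smooth (ext (ρ g)) (E g).1 (E g).2 ?_
    rw [← contMDiffOn_iff_contDiffOn]
    exact (contMDiff_subtypeVal_Icc.comp (hs g)).comp_contMDiffOn contMDiffOn_projIcc

end Pool.Agent.H50.Dbl
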