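import Mathlib

set_option linter.unusedSimpArgs false

namespace Pool.Agent.H50.DblPts

open MvPolynomial
open scoped LinearAlgebra.Projectivization

/-- homogeneous prime ideal of a point of projective space -/
noncomputable def pr {n : ℕ} (P : ℙ ℂ (Fin (n + 1) → ℂ)) : Ideal (MvPolynomial (Fin (n + 1)) ℂ) :=
  Ideal.span {G | (∃ e, G.IsHomogeneous e) ∧ eval P.rep G = 0}

/-- ideal of the double points supported on `Y` -/
noncomputable def sq {n : ℕ} (Y : Finset (ℙ ℂ (Fin (n + 1) → ℂ))) :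
    Ideal (MvPolynomial (Fin (n + 1)) ℂ) :=
  ⨅ P ∈ Y, pr P ^ 2

/-- Hilbert function: dimension of the degree `d` part of the quotient ring -/
noncomputable def H {n : ℕ} (Y : Finset (ℙ ℂ (Fin (n + 1) → ℂ))) (d : ℕ) : ℕ :=
  Module.finrank ℂ ((homogeneousSubmodule (Fin (n + 1)) ℂ d).map
    (Ideal.Quotient.mkₐ ℂ (sq Y)).toLinearMap)

abbrev S (k : ℕ) := MvPolynomial (Fin (k + 1 + 1)) ℂ

theorem eval_smul_hom {n : ℕ} {D : MvPolynomial (Fin n) ℂ} {e : ℕ} (h : D.IsHomogeneous e)
    (v : Fin n → ℂ) (s : ℂ) : eval (s • v) D = s ^ e * eval v D := by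
  rw [eval_eq', eval_eq', Finset.mul_sum]
  refine Finset.sum_congr rfl fun d hd => ?_
  have hd' : ∑ i, d i = e := by
    have := h.degree_eq_sum_deg_support hd
    rw [this]
    exact (Finset.sum_subset (Finset.subset_univ _) (fun x _ hx => by simpa using hx)).symm
  simp only [Pi.smul_apply, smul_eq_mul, mul_pow, Finset.prod_mul_distrib,
    Finset.prod_pow_eq_pow_sum, hd']
  ring

noncomputable def h (k e : ℕ) : Polynomial ℂ →ₗ[ℂ] S k :=
  (aeval ![(X 1 : S k), X 0]).toLinearMap ∘ₗ Polynomial.homogenizeLM e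

theorem h_apply (k e : ℕ) (p : Polynomial ℂ) :
    h k e p = aeval ![(X 1 : S k), X 0] (p.homogenize e) := rfl

theorem h_hom (k e : ℕ) (p : Polynomial ℂ) : (h k e p).IsHomogeneous e := by
  have := (Polynomial.isHomogeneous_homogenize (n := e) p).aeval ![(X 1 : S k), X 0] (n := 1)
    (by intro i; fin_cases i <;> simp [isHomogeneous_X])
  rwa [one_mul] at this

theorem h_mul (k a b : ℕ) (p q : Polynomial ℂ) (hp : p.natDegree ≤ a) (hq : q.natDegree ≤ b) :
    h k (a + b) (p * q) = h k a p * h k b q := by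
  rw [h_apply, Polynomial.homogenize_mul _ _ hp hq, map_mul]; rfl

theorem h_pow (k a b : ℕ) : h k (a + b) (Polynomial.X ^ b) = X 0 ^ a * X 1 ^ b := by
  rw [h_apply, Polynomial.homogenize_X_pow (by omega)]
  simp [mul_comm]

theorem h_aeval {A : Type} [CommRing A] [Algebra ℂ A] (k e : ℕ) (p : Polynomial ℂ)
    (hp : p.natDegree ≤ e) (g : Fin (k + 1 + 1) → A) (hg : g 0 = 1) :
    aeval g (h k e p) = Polynomial.aeval (g 1) p := by
  rw [h_apply, ← AlgHom.comp_apply, comp_aeval,
    Polynomial.aeval_homogenize_of_eq_one hp _ (by simp [hg])]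
  simp

theorem h_dvd (k a d : ℕ) (V q : Polynomial ℂ) (hV : V.Monic) (ha : V.natDegree = a)
    (hd : (V * q).natDegree ≤ d) : h k a V ∣ h k d (V * q) := by
  by_cases hq : q = 0
  · simp [hq]
  rw [hV.natDegree_mul' hq] at hd
  obtain ⟨b, rfl⟩ : ∃ b, d = a + b := ⟨d - a, by omega⟩
  rw [h_mul k a b V q ha.le (by omega)]
  exact Dvd.intro _ rfl

abbrev V (k r e : ℕ) :=
  Polynomial.degreeLT ℂ (min (e + 1 + 1) (2 * r)) × (Fin k → Polynomial.degreeLT ℂ (min (e + 1) r))

theorem rank_V (k r e : ℕ) :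
    Module.finrank ℂ (V k r e) = min (e + 1 + 1) (2 * r) + k * min (e + 1) r := by
  have h1 : ∀ m, Module.finrank ℂ (Polynomial.degreeLT ℂ m) = m := fun m => by
    rw [(Polynomial.degreeLTEquiv ℂ m).finrank_eq]; simp
  have h2 : ∀ m, Module.Finite ℂ (Polynomial.degreeLT ℂ m) := fun m =>
    Module.Finite.equiv (Polynomial.degreeLTEquiv ℂ m).symm
  rw [Module.finrank_prod, Module.finrank_pi_fintype, h1]
  simp [h1]

noncomputable def Phi (k r e : ℕ) : V k r e →ₗ[ℂ] S k where
  toFun x := h k (e + 1) x.1 + ∑ j, X j.succ.succ * h k e (x.2 j)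
  map_add' x y := by
    simp only [Prod.fst_add, Prod.snd_add, Pi.add_apply, Submodule.coe_add, map_add, mul_add,
      Finset.sum_add_distrib]
    ring
  map_smul' c x := by
    simp only [Prod.smul_fst, Prod.smul_snd, Pi.smul_apply, Submodule.coe_smul, map_smul,
      RingHom.id_apply, smul_add, Finset.smul_sum, mul_smul_comm]

theorem Phi_apply (k r e : ℕ) (x : V k r e) :
    Phi k r e x = h k (e + 1) x.1 + ∑ j, X j.succ.succ * h k e (x.2 j) := rfl

theorem Phi_hom (k r e : ℕ) (x : V k r e) : (Phi k r e x).IsHomogeneous (e + 1) := by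
  rw [Phi_apply]
  refine (h_hom _ _ _).add (IsHomogeneous.sum _ _ _ fun j _ => ?_)
  have := (isHomogeneous_X ℂ j.succ.succ).mul (h_hom k e (x.2 j))
  rwa [add_comm 1 e] at this

theorem natDeg_le {m a b : ℕ} (p : Polynomial.degreeLT ℂ m) (hm : m ≤ a + 1) :
    p.1.natDegree ≤ a := by
  have := Polynomial.mem_degreeLT.1 p.2
  by_cases h0 : p.1 = 0
  · simp [h0]
  rw [Polynomial.degree_eq_natDegree h0] at this
  have : p.1.natDegree < m := by exact_mod_cast this
  omega

/-- line map -/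
noncomputable def L {n : ℕ} (v w : Fin n → ℂ) : MvPolynomial (Fin n) ℂ →ₐ[ℂ] Polynomial ℂ :=
  aeval fun i => Polynomial.C (v i) + Polynomial.C (w i) * Polynomial.X

theorem L_eval {n : ℕ} (v w : Fin n → ℂ) (G : MvPolynomial (Fin n) ℂ) :
    (L v w G).eval 0 = eval v G := by
  have : (Polynomial.aeval (0 : ℂ)).comp (L v w) = aeval v := by
    ext i; simp [L]
  have h2 := congrArg (fun f => f G) this
  simpa [Polynomial.coe_aeval_eq_eval] using h2

theorem L_sq {n : ℕ} (P : ℙ ℂ (Fin (n + 1) → ℂ)) (c : ℂ) (w : Fin (n + 1) → ℂ)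
    (G : MvPolynomial (Fin (n + 1)) ℂ) (hG : G ∈ pr P ^ 2) :
    Polynomial.X ^ 2 ∣ L (c • P.rep) w G := by
  have h1 : (pr P).map (L (c • P.rep) w) ≤ Ideal.span {Polynomial.X} := by
    rw [pr, Ideal.map_span, Ideal.span_le]
    rintro _ ⟨F, ⟨⟨e, he⟩, hF⟩, rfl⟩
    rw [SetLike.mem_coe, Ideal.mem_span_singleton, Polynomial.X_dvd_iff,
      Polynomial.coeff_zero_eq_eval_zero, L_eval, eval_smul_hom he, hF, mul_zero]
  have h2 := Ideal.mem_map_of_mem (L (c • P.rep) w) hG
  rw [Ideal.map_pow] at h2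
  have h3 := Ideal.pow_right_mono h1 2 h2
  rwa [Ideal.span_singleton_pow, Ideal.mem_span_singleton] at h3

theorem inj_core (k r e : ℕ) {ι : Type} (Y : Finset ι) (hY : Y.card = r)
    (u : ι → Fin (k + 1 + 1) → ℂ) (hu : ∀ i ∈ Y, u i 0 = 1)
    (hinj : ∀ i ∈ Y, ∀ j ∈ Y, u i 1 = u j 1 → i = j) (x : V k r e)
    (hx : ∀ i ∈ Y, ∀ a, a ≠ 0 → Polynomial.X ^ 2 ∣ L (u i) (Pi.single a 1) (Phi k r e x)) :
    x = 0 := by
  have hf := natDeg_le (a := e + 1) (b := 0) x.1 (min_le_left _ _)
  have hg : ∀ j, (x.2 j).1.natDegree ≤ e := fun j =>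
    natDeg_le (a := e) (b := 0) (x.2 j) (min_le_left _ _)
  have g0 : ∀ j, x.2 j = 0 := by
    intro j
    apply Subtype.ext
    have hd : (x.2 j).1.degree < Y.card := by
      have := Polynomial.mem_degreeLT.1 (x.2 j).2
      refine this.trans_le ?_
      rw [hY]; exact_mod_cast min_le_right _ _
    refine Polynomial.eq_zero_of_degree_lt_of_eval_index_eq_zero Y (v := fun i => u i 1)
      (fun i hi j hj hij => hinj i hi j hj hij) hd ?_
    intro i hi
    have h1 := hx i hi j.succ.succ (Fin.succ_ne_zero _)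
    have e0 : (Pi.single j.succ.succ (1 : ℂ) : Fin (k + 1 + 1) → ℂ) 0 = 0 :=
      Pi.single_eq_of_ne (Fin.succ_ne_zero _).symm _
    have e1 : (Pi.single j.succ.succ (1 : ℂ) : Fin (k + 1 + 1) → ℂ) 1 = 0 :=
      Pi.single_eq_of_ne (by
        intro h
        have := congrArg Fin.val h
        simp at this) _
    rw [Phi_apply, map_add, map_sum] at h1
    simp only [map_mul, L] at h1
    rw [h_aeval _ _ _ hf _ (by simp [e0, hu i hi])] at h1
    have h2 : ∀ j', aeval (fun a => Polynomial.C (u i a) +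
        Polynomial.C ((Pi.single j.succ.succ (1 : ℂ) : Fin (k + 1 + 1) → ℂ) a) * Polynomial.X)
        (h k e (x.2 j')) = Polynomial.C ((x.2 j').1.eval (u i 1)) := by
      intro j'
      rw [h_aeval _ _ _ (hg j') _ (by simp [e0, hu i hi])]
      simp only [e1, map_zero, zero_mul, add_zero]
      rw [← Polynomial.algebraMap_eq, Polynomial.aeval_algebraMap_apply]
      simp
    simp only [h2, e1, map_zero, zero_mul, add_zero, aeval_X] at h1
    rw [← Polynomial.algebraMap_eq, Polynomial.aeval_algebraMap_apply] at h1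
    have h3 := Polynomial.X_pow_dvd_iff.1 h1 1 (by norm_num)
    simp only [Polynomial.coeff_add, Polynomial.finsetSum_coeff, Polynomial.coeff_mul_C,
      Polynomial.algebraMap_eq, Polynomial.coeff_C, Polynomial.coeff_C_mul,
      Polynomial.coeff_X_one] at h3
    rw [Finset.sum_eq_single j] at h3
    · simpa using h3
    · intro b _ hb
      rw [Pi.single_eq_of_ne (by simpa using hb)]
      simp
    · simp
  have f0 : x.1 = 0 := by
    apply Subtype.ext
    have hdv : ∀ i ∈ Y, (Polynomial.X - Polynomial.C (u i 1)) ^ 2 ∣ x.1.1 := by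
      intro i hi
      have h1 := hx i hi 1 (by simp)
      rw [Phi_apply] at h1
      simp only [g0, ZeroMemClass.coe_zero, map_zero, mul_zero, Finset.sum_const_zero, add_zero,
        L] at h1
      rw [h_aeval _ _ _ hf _ (by simp [hu i hi])] at h1
      have h2 := map_dvd (Polynomial.aeval (Polynomial.X - Polynomial.C (u i 1))) h1
      rw [← Polynomial.aeval_algHom_apply] at h2
      simpa using h2
    have hp : (∏ i ∈ Y, (Polynomial.X - Polynomial.C (u i 1)) ^ 2) ∣ x.1.1 := by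
      refine Finset.prod_dvd_of_coprime ?_ hdv
      intro i hi j hj hij
      refine IsCoprime.pow (Polynomial.isCoprime_X_sub_C_of_isUnit_sub ?_)
      exact (sub_ne_zero.2 fun h => hij (hinj i hi j hj h)).isUnit
    refine Polynomial.eq_zero_of_dvd_of_degree_lt hp ?_
    have := Polynomial.mem_degreeLT.1 x.1.2
    refine this.trans_le ?_
    rw [Polynomial.degree_prod]
    simp only [Polynomial.degree_pow, Polynomial.degree_X_sub_C, Finset.sum_const, hY]
    have : min (e + 1 + 1) (2 * r) ≤ r * 2 := by omega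
    simp only [nsmul_eq_mul, mul_one]
    exact_mod_cast this
  exact Prod.ext f0 (funext g0)


theorem common {σ ι : Type} (Y : Finset ι) (G : ι → MvPolynomial σ ℂ)
    (hG : ∀ i ∈ Y, ∃ z, eval z (G i) ≠ 0) : ∃ z, ∀ i ∈ Y, eval z (G i) ≠ 0 := by
  have h1 : ∏ i ∈ Y, G i ≠ 0 := by
    refine Finset.prod_ne_zero_iff.2 fun i hi h0 => ?_
    obtain ⟨z, hz⟩ := hG i hi
    exact hz (by simp [h0])
  by_contra hc
  apply h1
  apply MvPolynomial.funext
  intro z
  by_contra hz
  apply hc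
  refine ⟨z, fun i hi => ?_⟩
  rw [map_prod, map_zero] at hz
  exact Finset.prod_ne_zero_iff.1 hz i hi

theorem exists_M (k : ℕ) (Y : Finset (ℙ ℂ (Fin (k + 1 + 1) → ℂ))) :
    ∃ M : Matrix (Fin (k + 1 + 1)) (Fin (k + 1 + 1)) ℂ, M.det ≠ 0 ∧
      (∀ P ∈ Y, M.mulVec P.rep 0 ≠ 0) ∧ ∀ P ∈ Y, ∀ Q ∈ Y, P ≠ Q →
        M.mulVec P.rep 1 * M.mulVec Q.rep 0 - M.mulVec Q.rep 1 * M.mulVec P.rep 0 ≠ 0 := by
  classical
  let N := Fin (k + 1 + 1)
  let row : N → (N → ℂ) → MvPolynomial (N × N) ℂ := fun a v => ∑ b, X (a, b) * C (v b)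
  have hrow : ∀ z a v, eval z (row a v) = (Matrix.of fun a b => z (a, b)).mulVec v a := by
    intro z a v
    simp [row, Matrix.mulVec, dotProduct]
  let G : ℙ ℂ (N → ℂ) × ℙ ℂ (N → ℂ) → MvPolynomial (N × N) ℂ := fun x =>
    if x.1 = x.2 then row 0 x.1.rep else
      row 1 x.1.rep * row 0 x.2.rep - row 1 x.2.rep * row 0 x.1.rep
  obtain ⟨z, hz⟩ := common (ι := Option (ℙ ℂ (N → ℂ) × ℙ ℂ (N → ℂ)))
    (Finset.insertNone (Y ×ˢ Y))
    (fun o => o.elim (Matrix.of fun a b : N => (X (a, b) : MvPolynomial (N × N) ℂ)).det G) (by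
      rintro (_ | ⟨P, Q⟩) hi
      · refine ⟨fun ab => (1 : Matrix N N ℂ) ab.1 ab.2, ?_⟩
        simp only [Option.elim]
        rw [RingHom.map_det]
        have : (eval fun ab : N × N => (1 : Matrix N N ℂ) ab.1 ab.2).mapMatrix
            (Matrix.of fun a b : N => (X (a, b) : MvPolynomial (N × N) ℂ)) = 1 := by
          ext a b; simp
        rw [this]; simp
      · simp only [Option.elim, G]
        split_ifs with hPQ
        · obtain ⟨b, hb⟩ := Function.ne_iff.1 P.rep_nonzero
          refine ⟨fun ab => if ab.2 = b then 1 else 0, ?_⟩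
          rw [hrow]
          simpa [Matrix.mulVec, dotProduct, Finset.sum_ite_eq', N] using hb
        · have : ∃ a b, P.rep a * Q.rep b - Q.rep a * P.rep b ≠ 0 := by
            by_contra hc
            push Not at hc
            apply hPQ
            obtain ⟨b, hb⟩ := Function.ne_iff.1 Q.rep_nonzero
            rw [← P.mk_rep, ← Q.mk_rep, Projectivization.mk_eq_mk_iff']
            refine ⟨P.rep b / Q.rep b, ?_⟩
            funext a
            have := hc a b
            simp only [Pi.zero_apply] at hb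
            simp only [Pi.smul_apply, smul_eq_mul]
            field_simp
            linear_combination -this
          obtain ⟨a, b, hab⟩ := this
          refine ⟨fun ab => if ab.1 = 0 then (if ab.2 = b then 1 else 0) else
            (if ab.2 = a then 1 else 0), ?_⟩
          rw [map_sub, map_mul, map_mul, hrow, hrow, hrow, hrow]
          have h10 : (1 : N) ≠ 0 := by simp [N]
          simpa [Matrix.mulVec, dotProduct, h10, Finset.sum_ite_eq', N] using hab)
  refine ⟨Matrix.of fun a b => z (a, b), ?_, ?_, ?_⟩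
  · have := hz none (by simp)
    simp only [Option.elim] at this
    rw [RingHom.map_det] at this
    have e : (eval z).mapMatrix
        (Matrix.of fun a b : N => (X (a, b) : MvPolynomial (N × N) ℂ)) =
        Matrix.of fun a b => z (a, b) := by
      ext a b; simp
    rwa [e] at this
  · intro P hP
    have := hz (some (P, P)) (by simp [hP])
    simp only [Option.elim, G, if_true] at this
    rwa [hrow] at this
  · intro P hP Q hQ hPQ
    have := hz (some (P, Q)) (by simp [hP, hQ])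
    simp only [Option.elim, G, if_neg hPQ] at this
    rwa [map_sub, map_mul, map_mul, hrow, hrow, hrow, hrow] at this

theorem fin_img {n : ℕ} (I : Ideal (MvPolynomial (Fin n) ℂ)) (d : ℕ) :
    Module.Finite ℂ ((homogeneousSubmodule (Fin n) ℂ d).map
      (Ideal.Quotient.mkₐ ℂ I).toLinearMap) :=
  Module.Finite.iff_fg.2 ((homogeneousSubmodule_fg _ _ d).map _)

theorem lower (k r e : ℕ) (Y : Finset (ℙ ℂ (Fin (k + 1 + 1) → ℂ))) (hY : Y.card = r) :
    min (e + 1 + 1) (2 * r) + k * min (e + 1) r ≤ H Y (e + 1) := by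
  obtain ⟨M, hM, h0, h1⟩ := exists_M k Y
  let l : S k →ₐ[ℂ] S k := aeval fun a => ∑ b, C (M a b) * X b
  have hl : ∀ v w F, L v w (l F) = L (M.mulVec v) (M.mulVec w) F := by
    intro v w F
    have : (L v w).comp l = L (M.mulVec v) (M.mulVec w) := by
      apply MvPolynomial.algHom_ext
      intro a
      simp only [L, l, AlgHom.comp_apply, aeval_X, map_sum, map_mul, aeval_C, Matrix.mulVec,
        dotProduct, Polynomial.algebraMap_eq, mul_add, Finset.sum_add_distrib, Finset.sum_mul,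
        mul_assoc]
    exact congrArg (fun f => f F) this
  have hlh : ∀ x, (l (Phi k r e x)).IsHomogeneous (e + 1) := by
    intro x
    have := (Phi_hom k r e x).aeval (fun a => ∑ b, C (M a b) * X b : _ → S k) (n := 1)
      (fun a => IsHomogeneous.sum _ _ _ fun b _ => isHomogeneous_C_mul_X _ _)
    rwa [one_mul] at this
  have := fin_img (sq Y) (e + 1)
  let f : V k r e →ₗ[ℂ] ((homogeneousSubmodule (Fin (k + 1 + 1)) ℂ (e + 1)).map
      (Ideal.Quotient.mkₐ ℂ (sq Y)).toLinearMap) :=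
    LinearMap.codRestrict _
      ((Ideal.Quotient.mkₐ ℂ (sq Y)).toLinearMap ∘ₗ l.toLinearMap ∘ₗ Phi k r e)
      fun x => ⟨l (Phi k r e x), hlh x, rfl⟩
  rw [← rank_V]
  refine LinearMap.finrank_le_finrank_of_injective (f := f) ?_
  rw [injective_iff_map_eq_zero]
  intro x hx
  have hx1 : l (Phi k r e x) ∈ sq Y :=
    Ideal.Quotient.eq_zero_iff_mem.1 (congrArg Subtype.val hx)
  refine inj_core k r e Y hY (fun P => M.mulVec ((M.mulVec P.rep 0)⁻¹ • P.rep)) ?_ ?_ x ?_
  · intro P hP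
    rw [Matrix.mulVec_smul, Pi.smul_apply, smul_eq_mul, inv_mul_cancel₀ (h0 P hP)]
  · intro P hP Q hQ hPQ
    by_contra hne
    apply h1 P hP Q hQ hne
    simp only [Matrix.mulVec_smul, Pi.smul_apply, smul_eq_mul] at hPQ
    have a := h0 P hP
    have b := h0 Q hQ
    field_simp at hPQ
    linear_combination hPQ
  · intro P hP a _
    have h2 : l (Phi k r e x) ∈ pr P ^ 2 := by
      have := hx1
      simp only [sq, Ideal.mem_iInf] at this
      exact this P hP
    have h3 := L_sq P (M.mulVec P.rep 0)⁻¹ (M⁻¹.mulVec (Pi.single a 1)) _ h2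
    rwa [hl, Matrix.mulVec_mulVec, Matrix.mul_nonsing_inv _ (Ne.isUnit hM), Matrix.one_mulVec]
      at h3

def vec (k i : ℕ) : Fin (k + 1 + 1) → ℂ := Fin.cons 1 (Fin.cons (i : ℂ) 0)

theorem vec_ne (k i : ℕ) : vec k i ≠ 0 := fun h => by simpa [vec] using congrFun h 0

noncomputable def pt (k i : ℕ) : ℙ ℂ (Fin (k + 1 + 1) → ℂ) := Projectivization.mk ℂ (vec k i) (vec_ne k i)

theorem pt_inj (k : ℕ) : Function.Injective (pt k) := by
  intro i j hij
  obtain ⟨c, hc⟩ := (Projectivization.mk_eq_mk_iff' ℂ _ _ _ _).1 hij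
  have a := congrFun hc 0
  have b := congrFun hc 1
  simp only [vec, Pi.smul_apply, Fin.cons_zero, smul_eq_mul, mul_one, Fin.cons_one] at a b
  rw [a, one_mul] at b
  exact_mod_cast b.symm

noncomputable def Y0 (k r : ℕ) : Finset (ℙ ℂ (Fin (k + 1 + 1) → ℂ)) :=
  (Finset.range r).map ⟨pt k, pt_inj k⟩

theorem mem_pr (k i e : ℕ) (G : S k) (hG : G.IsHomogeneous e) (h0 : eval (vec k i) G = 0) :
    G ∈ pr (pt k i) := by
  refine Ideal.subset_span ⟨⟨e, hG⟩, ?_⟩
  obtain ⟨c, hc⟩ := Projectivization.exists_smul_eq_mk_rep ℂ (vec k i) (vec_ne k i)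
  rw [pt, ← hc, Units.smul_def, eval_smul_hom hG, h0, mul_zero]

noncomputable def W (r : ℕ) : Polynomial ℂ :=
  ∏ i ∈ Finset.range r, (Polynomial.X - Polynomial.C (i : ℂ))

theorem W_monic (r : ℕ) : (W r).Monic :=
  Polynomial.monic_prod_of_monic _ _ fun _ _ => Polynomial.monic_X_sub_C _

theorem W_deg (r : ℕ) : (W r).natDegree = r := by
  rw [W, Polynomial.natDegree_prod_of_monic _ _ fun _ _ => Polynomial.monic_X_sub_C _]
  simp only [Polynomial.natDegree_X_sub_C, Finset.sum_const, Finset.card_range, smul_eq_mul,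
    mul_one]

theorem hW_mem (k r i : ℕ) (hi : i < r) : h k r (W r) ∈ pr (pt k i) := by
  refine mem_pr k i r _ (h_hom _ _ _) ?_
  have := h_aeval k r (W r) (W_deg r).le (vec k i) (by simp [vec])
  rw [aeval_eq_eval] at this
  rw [this, W, map_prod]
  exact Finset.prod_eq_zero (Finset.mem_range.2 hi) (by simp [vec])

theorem X_mem (k i : ℕ) (j : Fin k) : (X j.succ.succ : S k) ∈ pr (pt k i) :=
  mem_pr k i 1 _ (isHomogeneous_X _ _) (by simp [vec])

theorem mem_sq (k r : ℕ) (F : S k) (hF : ∀ i < r, F ∈ pr (pt k i) ^ 2) : F ∈ sq (Y0 k r) := by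
  simp only [sq, Ideal.mem_iInf, Y0, Finset.mem_map, Finset.mem_range]
  rintro _ ⟨i, hi, rfl⟩
  exact hF i hi

theorem red (k d a : ℕ) (U p : Polynomial ℂ) (hU : U.Monic) (ha : U.natDegree = a)
    (hp : p.natDegree ≤ d) : ∃ q : Polynomial.degreeLT ℂ (min (d + 1) a),
      h k a U ∣ h k d p - h k d q := by
  have h1 : (p %ₘ U).natDegree ≤ d := Polynomial.natDegree_modByMonic_le_left.trans hp
  refine ⟨⟨p %ₘ U, Polynomial.mem_degreeLT.2 ?_⟩, ?_⟩
  · rcases min_choice (d + 1) a with h | h <;> rw [h]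
    · refine (Polynomial.degree_le_natDegree).trans_lt ?_
      exact_mod_cast Nat.lt_succ_of_le h1
    · have := Polynomial.degree_modByMonic_lt p hU
      rwa [Polynomial.degree_eq_natDegree hU.ne_zero, ha] at this
  · have e : p - p %ₘ U = U * (p /ₘ U) := by
      have := Polynomial.modByMonic_add_div p U
      linear_combination -this
    rw [← map_sub, e]
    refine h_dvd k a d U _ hU ha ?_
    rw [← e]
    exact (Polynomial.natDegree_sub_le _ _).trans (max_le hp h1)

theorem mono_mem (k r e : ℕ) (s : Fin (k + 1 + 1) →₀ ℕ) (hs : ∑ i, s i = e + 1) :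
    ∃ x, monomial s (1 : ℂ) - Phi k r e x ∈ sq (Y0 k r) := by
  classical
  have e1 : (monomial s (1 : ℂ) : S k) =
      X 0 ^ s 0 * X 1 ^ s 1 * ∏ j : Fin k, X j.succ.succ ^ s j.succ.succ := by
    rw [monomial_eq, Finsupp.prod_fintype _ _ (by simp), Fin.prod_univ_succ, Fin.prod_univ_succ]
    simp [mul_assoc]
  rw [Fin.sum_univ_succ, Fin.sum_univ_succ] at hs
  simp only [Fin.succ_zero_eq_one] at hs
  rw [e1]
  by_cases h0 : ∀ j : Fin k, s j.succ.succ = 0
  · simp only [h0, pow_zero, Finset.prod_const_one, mul_one, Finset.sum_const_zero,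
      add_zero] at hs ⊢
    obtain ⟨q, hq⟩ := red k (e + 1) (2 * r) (W r ^ 2) (Polynomial.X ^ s 1) ((W_monic r).pow 2)
      (by rw [(W_monic r).natDegree_pow, W_deg]) (by simp; omega)
    refine ⟨(q, 0), mem_sq k r _ fun i hi => ?_⟩
    rw [Phi_apply, ← h_pow, hs]
    simp only [Pi.zero_apply, ZeroMemClass.coe_zero, map_zero, mul_zero, Finset.sum_const_zero,
      add_zero]
    refine Ideal.mem_of_dvd _ hq ?_
    rw [two_mul, pow_two (W r), h_mul _ _ _ _ _ (W_deg r).le (W_deg r).le, pow_two]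
    exact Ideal.mul_mem_mul (hW_mem k r i hi) (hW_mem k r i hi)
  push Not at h0
  obtain ⟨j, hj⟩ := h0
  by_cases h1 : ∑ j : Fin k, s j.succ.succ = 1
  · have h2 := Finset.add_sum_erase Finset.univ (fun j : Fin k => s j.succ.succ)
      (Finset.mem_univ j)
    have h3 : s j.succ.succ = 1 := by omega
    have h4 : ∑ x ∈ Finset.univ.erase j, s x.succ.succ = 0 := by omega
    have h5 : ∏ j : Fin k, (X j.succ.succ : S k) ^ s j.succ.succ = X j.succ.succ := by
      rw [Finset.prod_eq_single j, h3, pow_one]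
      · intro b _ hb
        rw [Finset.sum_eq_zero_iff.1 h4 b (by simp [hb]), pow_zero]
      · simp
    obtain ⟨q, hq⟩ := red k e r (W r) (Polynomial.X ^ s 1) (W_monic r) (W_deg r) (by simp; omega)
    refine ⟨(0, Pi.single j q), mem_sq k r _ fun i hi => ?_⟩
    have h6 : s 0 + s 1 = e := by omega
    rw [Phi_apply, ← h_pow, h5, h6, Finset.sum_eq_single j]
    · simp only [ZeroMemClass.coe_zero, map_zero, zero_add, Pi.single_eq_same]
      rw [mul_comm, ← mul_sub, pow_two]
      exact Ideal.mul_mem_mul (X_mem k i j) (Ideal.mem_of_dvd _ hq (hW_mem k r i hi))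
    · intro b _ hb
      simp [Pi.single_eq_of_ne hb]
    · simp
  · refine ⟨0, mem_sq k r _ fun i hi => ?_⟩
    rw [map_zero (Phi k r e), sub_zero]
    refine Ideal.mul_mem_left _ _ ?_
    have h2 : ∏ j : Fin k, (X j.succ.succ : S k) ^ s j.succ.succ ∈
        ∏ j : Fin k, pr (pt k i) ^ s j.succ.succ :=
      Ideal.prod_mem_prod fun j _ => Ideal.pow_mem_pow (X_mem k i j) _
    rw [Finset.prod_pow_eq_pow_sum] at h2
    refine Ideal.pow_le_pow_right ?_ h2
    have := Finset.single_le_sum (f := fun j : Fin k => s j.succ.succ)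
      (fun _ _ => Nat.zero_le _) (Finset.mem_univ j)
    omega

theorem upper (k r e : ℕ) :
    H (Y0 k r) (e + 1) ≤ min (e + 1 + 1) (2 * r) + k * min (e + 1) r := by
  have h2 : ∀ m, Module.Finite ℂ (Polynomial.degreeLT ℂ m) := fun m =>
    Module.Finite.equiv (Polynomial.degreeLTEquiv ℂ m).symm
  rw [← rank_V]
  let f := (Ideal.Quotient.mkₐ ℂ (sq (Y0 k r))).toLinearMap ∘ₗ Phi k r e
  refine le_trans (Submodule.finrank_mono (t := LinearMap.range f) ?_)
    (LinearMap.finrank_range_le f)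
  rintro _ ⟨F, hF, rfl⟩
  rw [F.as_sum, map_sum]
  refine Submodule.sum_mem _ fun s hs => ?_
  have hd : ∑ i, s i = e + 1 := by
    have := IsHomogeneous.degree_eq_sum_deg_support hF hs
    rw [this]
    exact (Finset.sum_subset (Finset.subset_univ _) (fun x _ hx => by simpa using hx)).symm
  obtain ⟨x, hx⟩ := mono_mem k r e s hd
  have e1 : (monomial s (coeff s F) : S k) = coeff s F • monomial s 1 := by
    rw [smul_monomial]; simp
  rw [e1, map_smul]
  refine Submodule.smul_mem _ _ ⟨x, ?_⟩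
  exact (Ideal.Quotient.eq.2 hx).symm

theorem main (n r : ℕ) (hn : 1 ≤ n) :
    ∃ Y₀ : Finset (ℙ ℂ (Fin (n + 1) → ℂ)), Y₀.card = r ∧
      (∀ d, 1 ≤ d → H Y₀ d = min (d + 1) (2 * r) + (n - 1) * min d r) ∧
      ∀ Y : Finset (ℙ ℂ (Fin (n + 1) → ℂ)), Y.card = r → ∀ d, 1 ≤ d → H Y₀ d ≤ H Y d := by
  obtain ⟨k, rfl⟩ : ∃ k, n = k + 1 := ⟨n - 1, by omega⟩
  have hc : (Y0 k r).card = r := by simp [Y0]
  refine ⟨Y0 k r, hc, fun d hd => ?_, fun Y hY d hd => ?_⟩
  · obtain ⟨e, rfl⟩ : ∃ e, d = e + 1 := ⟨d - 1, by omega⟩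
    exact le_antisymm (upper k r e) (lower k r e _ hc)
  · obtain ⟨e, rfl⟩ : ∃ e, d = e + 1 := ⟨d - 1, by omega⟩
    exact (upper k r e).trans (lower k r e _ hY)

end Pool.Agent.H50.DblPts
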