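import Mathlib

set_option autoImplicit false

/- Every rational point of y^2 = x^3 + 442^2 x has a square x-coordinate. -/

namespace Pool.Agent.H50.Descent221

theorem sq_of_mul_eq_sq (A B W : ℤ) (h : A * B = W ^ 2) :
    ∃ s : ℤ, (A = (Int.gcd A B : ℤ) * s ^ 2 ∨ A = -((Int.gcd A B : ℤ) * s ^ 2)) ∧
      (Int.gcd A B : ℤ) ∣ W := by
  by_cases hg : Int.gcd A B = 0
  · rw [Int.gcd_eq_zero_iff] at hg
    obtain ⟨rfl, rfl⟩ := hg
    have : W = 0 := by simpa using h.symm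
    exact ⟨0, by simp, by simp [this]⟩
  obtain ⟨A', B', hco, hA, hB⟩ := Int.exists_gcd_one (Nat.pos_of_ne_zero hg)
  set g : ℤ := (Int.gcd A B : ℤ) with hgdef
  have hg0 : g ≠ 0 := by rw [hgdef]; exact_mod_cast hg
  have hdvd : g ∣ W := by
    have : g ^ 2 ∣ W ^ 2 := ⟨A' * B', by rw [← h, hA, hB]; ring⟩
    exact (Int.pow_dvd_pow_iff (by norm_num)).1 this
  obtain ⟨W', hW⟩ := hdvd
  have h2 : A' * B' = W' ^ 2 := by
    have : g ^ 2 * (A' * B') = g ^ 2 * W' ^ 2 := by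
      rw [hW] at h
      calc g ^ 2 * (A' * B') = (A' * g) * (B' * g) := by ring
        _ = A * B := by rw [← hA, ← hB]
        _ = _ := by rw [h]; ring
    exact mul_left_cancel₀ (pow_ne_zero 2 hg0) this
  obtain ⟨s, hs⟩ := Int.sq_of_gcd_eq_one hco h2
  refine ⟨s, ?_, ⟨W', hW⟩⟩
  rcases hs with hs | hs
  · left; rw [hA, hs]; ring
  · right; rw [hA, hs]; ring

theorem nat_dvd_prime {g p : ℕ} (hp : p.Prime) (h : (g : ℤ) ∣ (p : ℤ)) : g = 1 ∨ g = p :=
  (Nat.dvd_prime hp).1 (Int.natCast_dvd_natCast.1 h)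

/-- tangent line trick for 17 K^2 = X^2 + Y^2 -/
theorem tangent17 (X Z K : ℤ) (hX : Odd X) (hco : IsCoprime X (2 * Z))
    (h : 17 * K ^ 2 = X ^ 2 + (2 * Z) ^ 2) :
    ∃ s u : ℤ, (u = 1 ∨ u = -1 ∨ u = 17 ∨ u = -17) ∧ 17 * K - X - 8 * Z = 2 * (u * s ^ 2) := by
  have hK : Odd K := by
    rcases Int.even_or_odd K with hK | hK
    · exfalso
      obtain ⟨k, rfl⟩ := hK
      obtain ⟨x, rfl⟩ := hX
      have : (2 : ℤ) * (34 * k ^ 2 - 2 * x ^ 2 - 2 * x - 2 * Z ^ 2) = 1 := by linear_combination h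
      omega
    · exact hK
  obtain ⟨k, rfl⟩ := hK
  obtain ⟨x, rfl⟩ := hX
  have hAB : (17 * k + 8 - x - 4 * Z) * (17 * k + 9 + x + 4 * Z) = (2 * (2 * x + 1) - Z) ^ 2 := by
    have : 4 * ((17 * k + 8 - x - 4 * Z) * (17 * k + 9 + x + 4 * Z))
        = 4 * (2 * (2 * x + 1) - Z) ^ 2 := by linear_combination 17 * h
    linarith
  obtain ⟨s, hs, hW⟩ := sq_of_mul_eq_sq _ _ _ hAB
  set g : ℕ := Int.gcd (17 * k + 8 - x - 4 * Z) (17 * k + 9 + x + 4 * Z) with hg
  have h1 : (g : ℤ) ∣ (17 * k + 8 - x - 4 * Z) := Int.gcd_dvd_left _ _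
  have h2 : (g : ℤ) ∣ (17 * k + 9 + x + 4 * Z) := Int.gcd_dvd_right _ _
  have h3 : (g : ℤ) ∣ (2 * x + 1 + 8 * Z) := by
    have := dvd_sub h2 h1
    exact this.trans (dvd_of_eq (by ring))
  have h4 : (g : ℤ) ∣ 17 * (2 * x + 1) := by
    have := dvd_add h3 (Dvd.dvd.mul_left hW 8)
    exact this.trans (dvd_of_eq (by ring))
  have h5 : (g : ℤ) ∣ 17 * (2 * Z) := by
    have := dvd_sub (Dvd.dvd.mul_left h3 4) (Dvd.dvd.mul_left hW 2)
    exact this.trans (dvd_of_eq (by ring))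
  have h6 : (g : ℤ) ∣ ((17 : ℕ) : ℤ) := by
    obtain ⟨a, b, hab⟩ := hco
    have := dvd_add (Dvd.dvd.mul_left h4 a) (Dvd.dvd.mul_left h5 b)
    exact this.trans (dvd_of_eq (by push_cast; linear_combination 17 * hab))
  rcases nat_dvd_prime (by norm_num) h6 with h7 | h7 <;> rw [h7] at hs <;> rcases hs with hs | hs
  · exact ⟨s, 1, by simp, by push_cast at hs; linear_combination 2 * hs⟩
  · exact ⟨s, -1, by simp, by push_cast at hs; linear_combination 2 * hs⟩
  · exact ⟨s, 17, by simp, by push_cast at hs; linear_combination 2 * hs⟩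
  · exact ⟨s, -17, by simp, by push_cast at hs; linear_combination 2 * hs⟩

/-- tangent line trick for 13 K^2 = X^2 + Y^2 -/
theorem tangent13 (X Z K : ℤ) (hX : Odd X) (hco : IsCoprime X (2 * Z))
    (h : 13 * K ^ 2 = X ^ 2 + (2 * Z) ^ 2) :
    ∃ s u : ℤ, (u = 1 ∨ u = -1 ∨ u = 13 ∨ u = -13) ∧ 13 * K - 3 * X - 4 * Z = 2 * (u * s ^ 2) := by
  have hK : Odd K := by
    rcases Int.even_or_odd K with hK | hK
    · exfalso
      obtain ⟨k, rfl⟩ := hK
      obtain ⟨x, rfl⟩ := hX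
      have : (2 : ℤ) * (26 * k ^ 2 - 2 * x ^ 2 - 2 * x - 2 * Z ^ 2) = 1 := by linear_combination h
      omega
    · exact hK
  obtain ⟨k, rfl⟩ := hK
  obtain ⟨x, rfl⟩ := hX
  have hAB : (13 * k + 5 - 3 * x - 2 * Z) * (13 * k + 8 + 3 * x + 2 * Z)
      = (2 * x + 1 - 3 * Z) ^ 2 := by
    have : 4 * ((13 * k + 5 - 3 * x - 2 * Z) * (13 * k + 8 + 3 * x + 2 * Z))
        = 4 * (2 * x + 1 - 3 * Z) ^ 2 := by linear_combination 13 * h
    linarith
  obtain ⟨s, hs, hW⟩ := sq_of_mul_eq_sq _ _ _ hAB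
  set g : ℕ := Int.gcd (13 * k + 5 - 3 * x - 2 * Z) (13 * k + 8 + 3 * x + 2 * Z) with hg
  have h1 : (g : ℤ) ∣ (13 * k + 5 - 3 * x - 2 * Z) := Int.gcd_dvd_left _ _
  have h2 : (g : ℤ) ∣ (13 * k + 8 + 3 * x + 2 * Z) := Int.gcd_dvd_right _ _
  have h3 : (g : ℤ) ∣ (3 * (2 * x + 1) + 4 * Z) := by
    have := dvd_sub h2 h1
    exact this.trans (dvd_of_eq (by ring))
  have h4 : (g : ℤ) ∣ 13 * (2 * x + 1) := by
    have := dvd_add (Dvd.dvd.mul_left h3 3) (Dvd.dvd.mul_left hW 4)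
    exact this.trans (dvd_of_eq (by ring))
  have h5 : (g : ℤ) ∣ 13 * (2 * Z) := by
    have := dvd_sub (Dvd.dvd.mul_left h3 2) (Dvd.dvd.mul_left hW 6)
    exact this.trans (dvd_of_eq (by ring))
  have h6 : (g : ℤ) ∣ ((13 : ℕ) : ℤ) := by
    obtain ⟨a, b, hab⟩ := hco
    have := dvd_add (Dvd.dvd.mul_left h4 a) (Dvd.dvd.mul_left h5 b)
    exact this.trans (dvd_of_eq (by push_cast; linear_combination 13 * hab))
  rcases nat_dvd_prime (by norm_num) h6 with h7 | h7 <;> rw [h7] at hs <;> rcases hs with hs | hs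
  · exact ⟨s, 1, by simp, by push_cast at hs; linear_combination 2 * hs⟩
  · exact ⟨s, -1, by simp, by push_cast at hs; linear_combination 2 * hs⟩
  · exact ⟨s, 13, by simp, by push_cast at hs; linear_combination 2 * hs⟩
  · exact ⟨s, -13, by simp, by push_cast at hs; linear_combination 2 * hs⟩

theorem z13a : ∀ a K s u : ZMod 13, (u = 1 ∨ u = -1 ∨ u = 17 ∨ u = -17) →
    17 * K ^ 2 = a ^ 4 → 17 * K - a ^ 2 = 2 * (u * s ^ 2) → a = 0 := by decide +kernel

theorem z13b : ∀ b K s u : ZMod 13, (u = 1 ∨ u = -1 ∨ u = 17 ∨ u = -17) →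
    17 * K ^ 2 = 4 * b ^ 4 → 17 * K - 8 * b ^ 2 = 2 * (u * s ^ 2) → b = 0 := by decide +kernel

theorem z17a : ∀ a K s u : ZMod 17, (u = 1 ∨ u = -1 ∨ u = 13 ∨ u = -13) →
    13 * K ^ 2 = a ^ 4 → 13 * K - 3 * a ^ 2 = 2 * (u * s ^ 2) → a = 0 := by decide +kernel

theorem z17b : ∀ b K s u : ZMod 17, (u = 1 ∨ u = -1 ∨ u = 13 ∨ u = -13) →
    13 * K ^ 2 = 4 * b ^ 4 → 13 * K - 4 * b ^ 2 = 2 * (u * s ^ 2) → b = 0 := by decide +kernel

theorem z17c : ∀ a b s u : ZMod 17, (u = 1 ∨ u = -1 ∨ u = 13 ∨ u = -13 ∨ u = 0) →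
    (a + b) ^ 2 + b ^ 2 = 0 → (a - b) ^ 2 + b ^ 2 = u * s ^ 2 → a = 0 ∧ b = 0 := by decide +kernel

theorem h13 : (13 : ZMod 13) = 0 := by decide
theorem h17 : (17 : ZMod 17) = 0 := by decide

theorem cop_two {a : ℤ} (ha : Odd a) : IsCoprime a 2 := by
  obtain ⟨k, rfl⟩ := ha
  exact ⟨1, -k, by ring⟩

theorem cop_prime {a : ℤ} {p : ℕ} (hp : p.Prime) (ha : ¬ (p : ℤ) ∣ a) : IsCoprime a p :=
  ((Int.prime_iff_natAbs_prime.2 (by simpa using hp)).irreducible.coprime_iff_not_dvd.2 ha).symm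

theorem caseIIa (a b K : ℤ) (ha : Odd a) (h13a : ¬ (13 : ℤ) ∣ a) (hco : IsCoprime a b) :
    17 * K ^ 2 ≠ a ^ 4 + 676 * b ^ 4 := by
  intro h
  have hc : IsCoprime (a ^ 2) (2 * (13 * b ^ 2)) :=
    IsCoprime.pow_left ((cop_two ha).mul_right
      ((cop_prime (p := 13) (by norm_num) h13a).mul_right hco.pow_right))
  obtain ⟨s, u, hu, hL⟩ := tangent17 (a ^ 2) (13 * b ^ 2) K ha.pow hc (by linear_combination h)
  apply h13a
  have e1 := congrArg (Int.cast : ℤ → ZMod 13) h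
  have e2 := congrArg (Int.cast : ℤ → ZMod 13) hL
  push_cast at e1 e2
  have := z13a a K s u (by rcases hu with rfl | rfl | rfl | rfl <;> simp)
    (by linear_combination e1 + (52 * (b : ZMod 13) ^ 4) * h13)
    (by linear_combination e2 + (8 * (b : ZMod 13) ^ 2) * h13)
  exact (ZMod.intCast_zmod_eq_zero_iff_dvd a 13).1 this

theorem caseIIb (a b K : ℤ) (ha : Odd a) (h13b : ¬ (13 : ℤ) ∣ b) (hco : IsCoprime a b) :
    17 * K ^ 2 ≠ 169 * a ^ 4 + 4 * b ^ 4 := by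
  intro h
  have hc : IsCoprime (13 * a ^ 2) (2 * (b ^ 2)) := by
    refine IsCoprime.mul_left ?_ (IsCoprime.pow_left ((cop_two ha).mul_right hco.pow_right))
    exact IsCoprime.mul_right (cop_two (by decide))
      ((cop_prime (p := 13) (by norm_num) h13b).symm.pow_right)
  obtain ⟨s, u, hu, hL⟩ := tangent17 (13 * a ^ 2) (b ^ 2) K
    (Odd.mul (by decide) ha.pow) hc (by linear_combination h)
  apply h13b
  have e1 := congrArg (Int.cast : ℤ → ZMod 13) h
  have e2 := congrArg (Int.cast : ℤ → ZMod 13) hL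
  push_cast at e1 e2
  have := z13b b K s u (by rcases hu with rfl | rfl | rfl | rfl <;> simp)
    (by linear_combination e1 + (13 * (a : ZMod 13) ^ 4) * h13)
    (by linear_combination e2 + ((a : ZMod 13) ^ 2) * h13)
  exact (ZMod.intCast_zmod_eq_zero_iff_dvd b 13).1 this

theorem caseIIIa (a b K : ℤ) (ha : Odd a) (h17a : ¬ (17 : ℤ) ∣ a) (hco : IsCoprime a b) :
    13 * K ^ 2 ≠ a ^ 4 + 1156 * b ^ 4 := by
  intro h
  have hc : IsCoprime (a ^ 2) (2 * (17 * b ^ 2)) :=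
    IsCoprime.pow_left ((cop_two ha).mul_right
      ((cop_prime (p := 17) (by norm_num) h17a).mul_right hco.pow_right))
  obtain ⟨s, u, hu, hL⟩ := tangent13 (a ^ 2) (17 * b ^ 2) K ha.pow hc (by linear_combination h)
  apply h17a
  have e1 := congrArg (Int.cast : ℤ → ZMod 17) h
  have e2 := congrArg (Int.cast : ℤ → ZMod 17) hL
  push_cast at e1 e2
  have := z17a a K s u (by rcases hu with rfl | rfl | rfl | rfl <;> simp)
    (by linear_combination e1 + (68 * (b : ZMod 17) ^ 4) * h17)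
    (by linear_combination e2 + (4 * (b : ZMod 17) ^ 2) * h17)
  exact (ZMod.intCast_zmod_eq_zero_iff_dvd a 17).1 this

theorem caseIIIb (a b K : ℤ) (ha : Odd a) (h17b : ¬ (17 : ℤ) ∣ b) (hco : IsCoprime a b) :
    13 * K ^ 2 ≠ 289 * a ^ 4 + 4 * b ^ 4 := by
  intro h
  have hc : IsCoprime (17 * a ^ 2) (2 * (b ^ 2)) := by
    refine IsCoprime.mul_left ?_ (IsCoprime.pow_left ((cop_two ha).mul_right hco.pow_right))
    exact IsCoprime.mul_right (cop_two (by decide))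
      ((cop_prime (p := 17) (by norm_num) h17b).symm.pow_right)
  obtain ⟨s, u, hu, hL⟩ := tangent13 (17 * a ^ 2) (b ^ 2) K
    (Odd.mul (by decide) ha.pow) hc (by linear_combination h)
  apply h17b
  have e1 := congrArg (Int.cast : ℤ → ZMod 17) h
  have e2 := congrArg (Int.cast : ℤ → ZMod 17) hL
  push_cast at e1 e2
  have := z17b b K s u (by rcases hu with rfl | rfl | rfl | rfl <;> simp)
    (by linear_combination e1 + (17 * (a : ZMod 17) ^ 4) * h17)
    (by linear_combination e2 + (3 * (a : ZMod 17) ^ 2) * h17)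
  exact (ZMod.intCast_zmod_eq_zero_iff_dvd b 17).1 this

theorem caseI_aux (a b K : ℤ) (ha : Odd a) (hco : IsCoprime a b)
    (h : 221 * K ^ 2 = a ^ 4 + 4 * b ^ 4) (h17F : (17 : ℤ) ∣ (a + b) ^ 2 + b ^ 2) : False := by
  have hG2 : IsCoprime ((a - b) ^ 2 + b ^ 2) 2 := by
    apply cop_two
    obtain ⟨k, rfl⟩ := ha
    exact ⟨2 * k ^ 2 + 2 * k - (2 * k + 1) * b + b ^ 2, by ring⟩
  have hGa : IsCoprime ((a - b) ^ 2 + b ^ 2) a := by
    have : IsCoprime (2 * b ^ 2) a := ((cop_two ha).mul_right hco.pow_right).symm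
    have e : (a - b) ^ 2 + b ^ 2 = 2 * b ^ 2 + a * (a - 2 * b) := by ring
    rw [e]
    exact this.add_mul_left_left _
  have hGb : IsCoprime ((a - b) ^ 2 + b ^ 2) b := by
    have : IsCoprime (a ^ 2) b := hco.pow_left
    have e : (a - b) ^ 2 + b ^ 2 = a ^ 2 + b * (2 * b - 2 * a) := by ring
    rw [e]
    exact this.add_mul_left_left _
  have hGF : IsCoprime ((a - b) ^ 2 + b ^ 2) ((a + b) ^ 2 + b ^ 2) := by
    have : IsCoprime ((a - b) ^ 2 + b ^ 2) (2 * 2 * a * b) :=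
      ((hG2.mul_right hG2).mul_right hGa).mul_right hGb
    have e : (a + b) ^ 2 + b ^ 2 = 2 * 2 * a * b + ((a - b) ^ 2 + b ^ 2) * 1 := by ring
    rw [e]
    exact this.add_mul_left_right _
  have hAB : ((a - b) ^ 2 + b ^ 2) * (221 * ((a + b) ^ 2 + b ^ 2)) = (221 * K) ^ 2 := by
    linear_combination (-221) * h
  obtain ⟨s, hs, -⟩ := sq_of_mul_eq_sq _ _ _ hAB
  set g : ℕ := Int.gcd ((a - b) ^ 2 + b ^ 2) (221 * ((a + b) ^ 2 + b ^ 2)) with hg
  have h1 : (g : ℤ) ∣ ((a - b) ^ 2 + b ^ 2) := Int.gcd_dvd_left _ _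
  have h2 : (g : ℤ) ∣ (221 * ((a + b) ^ 2 + b ^ 2)) := Int.gcd_dvd_right _ _
  have h3 : (g : ℤ) ∣ 221 :=
    (IsCoprime.of_isCoprime_of_dvd_left hGF h1).dvd_of_dvd_mul_right h2
  have h4 : g ∣ 221 := Int.natCast_dvd_natCast.1 h3
  have h5 : g = 1 ∨ g = 13 ∨ g = 17 ∨ g = 221 := by
    have : g ∈ Nat.divisors 221 := Nat.mem_divisors.2 ⟨h4, by norm_num⟩
    have e : Nat.divisors 221 = {1, 13, 17, 221} := by decide +kernel
    rw [e] at this
    simpa using this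
  have eF : ((a : ZMod 17) + b) ^ 2 + (b : ZMod 17) ^ 2 = 0 := by
    have := (ZMod.intCast_zmod_eq_zero_iff_dvd _ 17).2 h17F
    push_cast at this
    exact this
  have key : (a : ZMod 17) = 0 ∧ (b : ZMod 17) = 0 := by
    rcases hs with hs | hs
    · have e := congrArg (Int.cast : ℤ → ZMod 17) hs
      push_cast at e
      refine z17c a b s (g : ZMod 17) ?_ eF e
      rcases h5 with h5 | h5 | h5 | h5 <;> rw [h5] <;> decide
    · have e := congrArg (Int.cast : ℤ → ZMod 17) hs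
      push_cast at e
      refine z17c a b s (-(g : ZMod 17)) ?_ eF (by linear_combination e)
      rcases h5 with h5 | h5 | h5 | h5 <;> rw [h5] <;> decide
  have d1 := (ZMod.intCast_zmod_eq_zero_iff_dvd a 17).1 key.1
  have d2 := (ZMod.intCast_zmod_eq_zero_iff_dvd b 17).1 key.2
  have := hco.isUnit_of_dvd' d1 d2
  rw [Int.isUnit_iff] at this
  omega

theorem caseI (a b K : ℤ) (ha : Odd a) (hco : IsCoprime a b) :
    221 * K ^ 2 ≠ a ^ 4 + 4 * b ^ 4 := by
  intro h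
  have hp : Prime (17 : ℤ) := Int.prime_iff_natAbs_prime.2 (by norm_num)
  have : (17 : ℤ) ∣ ((a + b) ^ 2 + b ^ 2) * ((a + -b) ^ 2 + (-b) ^ 2) :=
    ⟨13 * K ^ 2, by linear_combination -h⟩
  rcases hp.dvd_or_dvd this with h1 | h1
  · exact caseI_aux a b K ha hco h h1
  · exact caseI_aux a (-b) K ha hco.neg_right (by linear_combination h) h1

theorem z16 : ∀ K M e : ZMod 16, e ^ 4 = 1 →
    2 * K ^ 2 ≠ M ^ 4 + 221 ^ 2 * e ^ 4 ∧ 26 * K ^ 2 ≠ M ^ 4 + 17 ^ 2 * e ^ 4 ∧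
    34 * K ^ 2 ≠ M ^ 4 + 13 ^ 2 * e ^ 4 ∧ 442 * K ^ 2 ≠ M ^ 4 + 1 ^ 2 * e ^ 4 := by
  decide +kernel

theorem z16odd : ∀ k : ZMod 16, (2 * k + 1) ^ 4 = 1 := by decide +kernel

theorem odd_pow_four (e : ℤ) (he : Odd e) : (e : ZMod 16) ^ 4 = 1 := by
  obtain ⟨k, rfl⟩ := he
  push_cast
  exact z16odd _

theorem odd_of_cop {e d : ℤ} (h : IsCoprime d e) (hd : (2 : ℤ) ∣ d) : Odd e := by
  rcases Int.even_or_odd e with he | he
  · have := h.isUnit_of_dvd' hd (even_iff_two_dvd.1 he)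
    rw [Int.isUnit_iff] at this
    omega
  · exact he

theorem halve {c K M R : ℤ} (hc : Odd c) (h : c * K ^ 2 = (2 * M) ^ 4 + 4 * R) :
    ∃ K' : ℤ, c * K' ^ 2 = 4 * M ^ 4 + R := by
  rcases Int.even_or_odd K with hK | hK
  · obtain ⟨k, rfl⟩ := hK
    exact ⟨k, by linarith⟩
  · exfalso
    have h1 : Odd (c * K ^ 2) := hc.mul hK.pow
    rw [h] at h1
    obtain ⟨t, ht⟩ := h1
    have : (2 : ℤ) * (8 * M ^ 4 + 2 * R - t) = 1 := by linear_combination ht
    omega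

theorem strip {p c K A B : ℤ} (hp : Prime p) (hc : ¬ p ∣ c)
    (h : c * K ^ 2 = p ^ 2 * A + p ^ 2 * B) : ∃ K' : ℤ, c * K' ^ 2 = A + B := by
  have h1 : p ∣ c * K ^ 2 := ⟨p * A + p * B, by rw [h]; ring⟩
  have h2 : p ∣ K := hp.dvd_of_dvd_pow ((hp.dvd_or_dvd h1).resolve_left hc)
  obtain ⟨K', rfl⟩ := h2
  refine ⟨K', ?_⟩
  have : p ^ 2 * (c * K' ^ 2) = p ^ 2 * (A + B) := by linear_combination h
  exact mul_left_cancel₀ (pow_ne_zero 2 hp.ne_zero) this

theorem not_dvd_of_cop {p a b : ℤ} (hp : Prime p) (h : IsCoprime (p * a) b) : ¬ p ∣ b := by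
  intro hb
  exact hp.not_isUnit (h.isUnit_of_dvd' (Dvd.intro _ rfl) hb)

theorem case17 (M e K : ℤ) (hco : IsCoprime M e) : 17 * K ^ 2 ≠ M ^ 4 + 26 ^ 2 * e ^ 4 := by
  intro h
  have hp : Prime (13 : ℤ) := Int.prime_iff_natAbs_prime.2 (by norm_num)
  rcases Int.even_or_odd M with hM | hM
  · obtain ⟨m, hm⟩ := even_iff_two_dvd.1 hM
    subst hm
    have he : Odd e := odd_of_cop hco (Dvd.intro _ rfl)
    have hco' : IsCoprime e m := (hco.of_mul_left_right).symm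
    obtain ⟨K', hK'⟩ := halve (c := 17) (K := K) (M := m) (R := 169 * e ^ 4) (by decide)
      (by linear_combination h)
    by_cases h13 : (13 : ℤ) ∣ m
    · obtain ⟨m', rfl⟩ := h13
      obtain ⟨K'', hK''⟩ := strip (p := 13) (c := 17) (K := K') (A := e ^ 4) (B := 676 * m' ^ 4)
        hp (by decide) (by linear_combination hK')
      exact caseIIa e m' K'' he (not_dvd_of_cop hp hco'.symm) hco'.of_mul_right_right hK''
    · exact caseIIb e m K' he h13 hco' (by linear_combination hK')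
  · by_cases h13 : (13 : ℤ) ∣ M
    · obtain ⟨m, rfl⟩ := h13
      obtain ⟨K', hK'⟩ := strip (p := 13) (c := 17) (K := K) (A := 169 * m ^ 4) (B := 4 * e ^ 4)
        hp (by decide) (by linear_combination h)
      exact caseIIb m e K' (Int.odd_mul.1 hM).2 (not_dvd_of_cop hp hco) hco.of_mul_left_right hK'
    · exact caseIIa M e K hM h13 hco (by linear_combination h)

theorem case13 (M e K : ℤ) (hco : IsCoprime M e) : 13 * K ^ 2 ≠ M ^ 4 + 34 ^ 2 * e ^ 4 := by
  intro h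
  have hp : Prime (17 : ℤ) := Int.prime_iff_natAbs_prime.2 (by norm_num)
  rcases Int.even_or_odd M with hM | hM
  · obtain ⟨m, hm⟩ := even_iff_two_dvd.1 hM
    subst hm
    have he : Odd e := odd_of_cop hco (Dvd.intro _ rfl)
    have hco' : IsCoprime e m := (hco.of_mul_left_right).symm
    obtain ⟨K', hK'⟩ := halve (c := 13) (K := K) (M := m) (R := 289 * e ^ 4) (by decide)
      (by linear_combination h)
    by_cases h17 : (17 : ℤ) ∣ m
    · obtain ⟨m', rfl⟩ := h17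
      obtain ⟨K'', hK''⟩ := strip (p := 17) (c := 13) (K := K') (A := e ^ 4) (B := 1156 * m' ^ 4)
        hp (by decide) (by linear_combination hK')
      exact caseIIIa e m' K'' he (not_dvd_of_cop hp hco'.symm) hco'.of_mul_right_right hK''
    · exact caseIIIb e m K' he h17 hco' (by linear_combination hK')
  · by_cases h17 : (17 : ℤ) ∣ M
    · obtain ⟨m, rfl⟩ := h17
      obtain ⟨K', hK'⟩ := strip (p := 17) (c := 13) (K := K) (A := 289 * m ^ 4) (B := 4 * e ^ 4)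
        hp (by decide) (by linear_combination h)
      exact caseIIIb m e K' (Int.odd_mul.1 hM).2 (not_dvd_of_cop hp hco) hco.of_mul_left_right hK'
    · exact caseIIIa M e K hM h17 hco (by linear_combination h)

theorem case221 (M e K : ℤ) (hco : IsCoprime M e) : 221 * K ^ 2 ≠ M ^ 4 + 2 ^ 2 * e ^ 4 := by
  intro h
  rcases Int.even_or_odd M with hM | hM
  · obtain ⟨m, hm⟩ := even_iff_two_dvd.1 hM
    subst hm
    have he : Odd e := odd_of_cop hco (Dvd.intro _ rfl)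
    have hco' : IsCoprime e m := (hco.of_mul_left_right).symm
    obtain ⟨K', hK'⟩ := halve (c := 221) (K := K) (M := m) (R := e ^ 4) (by decide)
      (by linear_combination h)
    exact caseI e m K' he hco' (by linear_combination hK')
  · exact caseI M e K hM hco (by linear_combination h)

theorem torsor (d d' M e K : ℤ) (hd : 0 < d) (hdd : d * d' = 442) (hco : IsCoprime M e)
    (hde : IsCoprime d e) (h : d * K ^ 2 = M ^ 4 + d' ^ 2 * e ^ 4) : d = 1 := by
  have h4 : d.toNat ∣ 442 := by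
    have : (d.toNat : ℤ) ∣ ((442 : ℕ) : ℤ) := by
      rw [Int.toNat_of_nonneg hd.le]
      exact ⟨d', by push_cast; exact hdd.symm⟩
    exact Int.natCast_dvd_natCast.1 this
  have h5 : d.toNat ∈ Nat.divisors 442 := Nat.mem_divisors.2 ⟨h4, by norm_num⟩
  have e1 : Nat.divisors 442 = {1, 2, 13, 17, 26, 34, 221, 442} := by decide +kernel
  rw [e1] at h5
  simp only [Finset.mem_insert, Finset.mem_singleton] at h5
  have e2 := congrArg (Int.cast : ℤ → ZMod 16) h
  rcases h5 with h5 | h5 | h5 | h5 | h5 | h5 | h5 | h5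
  · omega
  · have hd1 : d = 2 := by omega
    subst hd1
    have hd2 : d' = 221 := by omega
    subst hd2
    push_cast at e2
    exact absurd (by linear_combination e2)
      (z16 K M e (odd_pow_four e (odd_of_cop hde (by decide)))).1
  · have hd1 : d = 13 := by omega
    subst hd1
    have hd2 : d' = 34 := by omega
    subst hd2
    exact absurd h (case13 M e K hco)
  · have hd1 : d = 17 := by omega
    subst hd1
    have hd2 : d' = 26 := by omega
    subst hd2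
    exact absurd h (case17 M e K hco)
  · have hd1 : d = 26 := by omega
    subst hd1
    have hd2 : d' = 17 := by omega
    subst hd2
    push_cast at e2
    exact absurd (by linear_combination e2)
      (z16 K M e (odd_pow_four e (odd_of_cop hde (by decide)))).2.1
  · have hd1 : d = 34 := by omega
    subst hd1
    have hd2 : d' = 13 := by omega
    subst hd2
    push_cast at e2
    exact absurd (by linear_combination e2)
      (z16 K M e (odd_pow_four e (odd_of_cop hde (by decide)))).2.2.1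
  · have hd1 : d = 221 := by omega
    subst hd1
    have hd2 : d' = 2 := by omega
    subst hd2
    exact absurd h (case221 M e K hco)
  · have hd1 : d = 442 := by omega
    subst hd1
    have hd2 : d' = 1 := by omega
    subst hd2
    push_cast at e2
    exact absurd (by linear_combination e2)
      (z16 K M e (odd_pow_four e (odd_of_cop hde (by decide)))).2.2.2

theorem int_version (a e z : ℤ) (ha : 0 < a) (hco : IsCoprime a e)
    (h : z ^ 2 = a * (a ^ 2 + 442 ^ 2 * e ^ 4)) : IsSquare a := by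
  obtain ⟨d0, M0, hdM, hsq⟩ := Nat.sq_mul_squarefree a.toNat
  have hsq' : Squarefree (d0 : ℤ) := Int.squarefree_natCast.2 hsq
  have haeq : a = (M0 : ℤ) ^ 2 * d0 := by
    have := congrArg (Nat.cast : ℕ → ℤ) hdM
    rw [Int.toNat_of_nonneg ha.le] at this
    push_cast at this
    exact this.symm
  set d : ℤ := (d0 : ℤ)
  set M : ℤ := (M0 : ℤ)
  have hM0 : M ≠ 0 := by rintro h0; rw [h0] at haeq; simp at haeq; omega
  have hd0 : 0 < d := by
    have h1 : 0 < M ^ 2 := by positivity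
    by_contra h2
    push Not at h2
    nlinarith
  have hMe : IsCoprime M e := by
    rw [haeq] at hco
    exact (IsCoprime.pow_left_iff (by norm_num)).1 hco.of_mul_left_left
  have hde : IsCoprime d e := by
    rw [haeq] at hco
    exact hco.of_mul_left_right
  have h1 : M ∣ z := by
    have : M ^ 2 ∣ z ^ 2 := ⟨d * (a ^ 2 + 442 ^ 2 * e ^ 4), by rw [h]; nth_rw 1 [haeq]; ring⟩
    exact (Int.pow_dvd_pow_iff (by norm_num)).1 this
  obtain ⟨N0, rfl⟩ := h1
  have h2 : N0 ^ 2 = d * (d ^ 2 * M ^ 4 + 442 ^ 2 * e ^ 4) := by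
    have : M ^ 2 * N0 ^ 2 = M ^ 2 * (d * (d ^ 2 * M ^ 4 + 442 ^ 2 * e ^ 4)) := by
      rw [haeq] at h
      linear_combination h
    exact mul_left_cancel₀ (pow_ne_zero 2 hM0) this
  have h3 : d ∣ N0 := (hsq'.dvd_pow_iff_dvd (n := 2) (by norm_num)).1 ⟨_, h2⟩
  obtain ⟨N1, rfl⟩ := h3
  have h4 : d * N1 ^ 2 = d ^ 2 * M ^ 4 + 442 ^ 2 * e ^ 4 := by
    have : d * (d * N1 ^ 2) = d * (d ^ 2 * M ^ 4 + 442 ^ 2 * e ^ 4) := by linear_combination h2
    exact mul_left_cancel₀ hd0.ne' this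
  have h5 : d ∣ 442 ^ 2 * e ^ 4 := ⟨N1 ^ 2 - d * M ^ 4, by linear_combination -h4⟩
  have h6 : d ∣ 442 ^ 2 := (hde.pow_right (n := 4)).dvd_of_dvd_mul_right h5
  have h7 : d ∣ 442 := (hsq'.dvd_pow_iff_dvd (n := 2) (by norm_num)).1 h6
  obtain ⟨d', hd'⟩ := h7
  have h8 : N1 ^ 2 = d * (M ^ 4 + d' ^ 2 * e ^ 4) := by
    have : d * N1 ^ 2 = d * (d * (M ^ 4 + d' ^ 2 * e ^ 4)) := by
      rw [h4, hd']; ring
    exact mul_left_cancel₀ hd0.ne' this
  have h9 : d ∣ N1 := (hsq'.dvd_pow_iff_dvd (n := 2) (by norm_num)).1 ⟨_, h8⟩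
  obtain ⟨K, rfl⟩ := h9
  have h10 : d * K ^ 2 = M ^ 4 + d' ^ 2 * e ^ 4 := by
    have : d * (d * K ^ 2) = d * (M ^ 4 + d' ^ 2 * e ^ 4) := by linear_combination h8
    exact mul_left_cancel₀ hd0.ne' this
  have := torsor d d' M e K hd0 hd'.symm hMe hde h10
  rw [haeq, this]
  exact ⟨M, by ring⟩

theorem x_square (x y : ℚ) (h : y ^ 2 = x ^ 3 + 195364 * x) : IsSquare x := by
  rcases lt_trichotomy x 0 with hx | hx | hx
  · exfalso
    have : 0 < x ^ 2 + 195364 := by positivity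
    nlinarith [sq_nonneg y]
  · exact ⟨0, by simp [hx]⟩
  have ha : 0 < x.num := Rat.num_pos.2 hx
  have hb : (0 : ℤ) < x.den := by exact_mod_cast x.den_pos
  have hb' : (x.den : ℚ) ≠ 0 := by exact_mod_cast x.den_nz
  have hco : IsCoprime x.num (x.den : ℤ) := by
    rw [Int.isCoprime_iff_gcd_eq_one]
    exact x.reduced
  have hx' : x = (x.num : ℚ) / (x.den : ℚ) := (Rat.num_div_den x).symm
  set a : ℤ := x.num
  set b : ℤ := (x.den : ℤ) with hbdef
  have hbq : (x.den : ℚ) = (b : ℚ) := by simp [hbdef]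
  rw [hbq] at hx' hb'
  have hsq : IsSquare (((b * (a * (a ^ 2 + 442 ^ 2 * b ^ 2))) : ℤ) : ℚ) := by
    refine ⟨y * b ^ 2, ?_⟩
    have : y * b ^ 2 * (y * b ^ 2) = y ^ 2 * b ^ 4 := by ring
    rw [this, h, hx']
    push_cast
    field_simp
  obtain ⟨z, hz⟩ := Rat.isSquare_intCast_iff.1 hsq
  have hco2 : IsCoprime b (a * (a ^ 2 + 442 ^ 2 * b ^ 2)) := by
    refine hco.symm.mul_right ?_
    have e : a ^ 2 + 442 ^ 2 * b ^ 2 = a ^ 2 + b * (442 ^ 2 * b) := by ring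
    rw [e]
    exact (hco.symm.pow_right).add_mul_left_right _
  obtain ⟨e, he⟩ := Int.sq_of_isCoprime hco2 (c := z) (by rw [hz]; ring)
  have he' : b = e ^ 2 := by
    rcases he with he | he
    · exact he
    · nlinarith [sq_nonneg e]
  have he0 : e ≠ 0 := by rintro rfl; simp at he'; omega
  have h1 : e ∣ z := by
    have : e ^ 2 ∣ z ^ 2 := ⟨a * (a ^ 2 + 442 ^ 2 * b ^ 2), by rw [← he', hz]; ring⟩
    exact (Int.pow_dvd_pow_iff (by norm_num)).1 this
  obtain ⟨w, rfl⟩ := h1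
  have h2 : w ^ 2 = a * (a ^ 2 + 442 ^ 2 * e ^ 4) := by
    have : e ^ 2 * w ^ 2 = e ^ 2 * (a * (a ^ 2 + 442 ^ 2 * e ^ 4)) := by
      rw [he'] at hz
      linear_combination -hz
    exact mul_left_cancel₀ (pow_ne_zero 2 he0) this
  have hae : IsCoprime a e := by
    rw [he'] at hco
    exact (IsCoprime.pow_right_iff (by norm_num)).1 hco
  obtain ⟨m, hm⟩ := int_version a e w ha hae h2
  refine ⟨(m : ℚ) / e, ?_⟩
  rw [hx', hm, he']
  push_cast
  field_simp

end Pool.Agent.H50.Descent221
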