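import Mathlib

namespace Pool.Agent.H50.DiscD

def padd : List ℤ → List ℤ → List ℤ
  | [], q => q
  | a :: p, [] => a :: p
  | a :: p, b :: q => (a + b) :: padd p q

def psm (c : ℤ) : List ℤ → List ℤ
  | [] => []
  | a :: p => (c * a) :: psm c p

def pmul : List ℤ → List ℤ → List ℤ
  | [], _ => []
  | a :: p, q => padd (psm a q) (0 :: pmul p q)

def psum : (n : ℕ) → (Fin n → List ℤ) → List ℤ
  | 0, _ => []
  | n + 1, f => padd (f 0) (psum n fun i => f i.succ)

def pdet : (n : ℕ) → (Fin n → Fin n → List ℤ) → List ℤ
  | 0, _ => [1]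
  | n + 1, M => psum (n + 1) fun j =>
      psm ((-1) ^ (j : ℕ)) (pmul (M 0 j) (pdet n fun a b => M a.succ (j.succAbove b)))

def PL1 : List (List ℤ) :=
  [[6],
   [0,6],
   [1470,0,36],
   [0,882,0,216],
   [734706,0,7056,0,1296],
   [0,504210,0,52920,0,7776],
   [419401878,0,3889620,0,381024,0,46656],
   [0,386124018,0,29042496,0,2667168,0,279936],
   [246336535074,0,2884887936,0,211595328,0,18289152,0,1679616],
   [0,289285949610,0,21150197712,0,1512284256,0,123451776,0,10077696],
   [145596217592070,0,2141590629780,0,152690922720,0,10642000320,0,823011840,0,60466176]]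

def GL1 : List (List ℤ) :=
  [[0,-6],
   [-735],
   [0,4116],
   [86436],
   [0,-403368],
   [-1075648]]

def PL2 : List (List ℤ) :=
  [[6],
   [6,6],
   [246,72,36,0,0,0,0,0,140],
   [342,774,648,216,0,0,0,0,84,84],
   [12006,7200,8784,5184,1296,0,0,0,30072,1344,672,0,0,0,0,0,5684],
   [16806,63030,100440,85320,38880,7776,0,0,34440,44520,15120,5040,0,0,0,0,2940,2940],
   [588246,529416,1042308,1150848,754272,279936,46656,0,3387300,582624,436464,145152,36288,0,0,0,2563092,47040,23520,0,0,0,0,0,253820],
   [823542,4323606,10133424,13756176,11702880,6259680,1959552,279936,4283580,8460732,7281792,4120704,1270080,254016,0,0,3897852,4260060,543312,181104,0,0,0,0,86436,86436],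
   [28824006,34588800,94038336,151393536,158034240,109734912,49641984,13436928,299847920,92827392,112022400,79543296,37304064,10450944,1741824,0,485563736,59420928,35129472,5419008,1354752,0,0,0,177245936,1448832,724416,0,0,0,0,0,11918564],
   [40353606,272386854,842696784,1568884464,1938486816,1650432672,969978240,380433024,481624848,1065182544,1448272224,1330154784,800150400,324632448,82301184,11757312,903679560,1328860008,677397168,291843216,49533120,9906624,0,0,301801584,313491024,17534160,5844720,0,0,0,0,2333772,2333772],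
   [1412376246,2118564360,7348770180,15529242240,22150467360,22301661312,16069959360,8196526080,25809281340,11057104320,17729842656,19218850560,14528445120,7589998080,2728131840,627056640,64277294200,16193661120,14379492960,6851658240,2424159360,426746880,71124480,0,49042976920,4506032160,2436095760,183079680,45769920,0,0,0,11111011660,41489280,20744640,0,0,0,0,0,573118700]]

def GL2 : List (List ℤ) :=
  [[-6,-6],
   [-105,0,0,0,0,0,0,0,-70],
   [588,588,0,0,0,0,0,0,392,392],
   [3087,0,0,0,0,0,0,0,0,0,0,0,0,0,0,0,1029],
   [-14406,-14406,0,0,0,0,0,0,0,0,0,0,0,0,0,0,-4802,-4802],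
   [-16807,0,0,0,0,0,0,0,33614,0,0,0,0,0,0,0,-16807]]

def D1 : List ℤ := pdet 6 fun i j => PL1.getD (i.val + j.val) []
def D2 : List ℤ := pdet 6 fun i j => PL2.getD (i.val + j.val) []

lemma c1 : (D1.drop 11).all (· == 0) = true := by decide +kernel
lemma c2 : D2.take 22 = List.replicate 20 0 ++ [782757789696 * 7 ^ 20, 2446118092800 * 7 ^ 20] := by
  decide +kernel

end Pool.Agent.H50.DiscD
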