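import Mathlib
import Pool.Agent.H50.DiscA

namespace Pool.Agent.H50.DiscD

open Polynomial

section ev
variable {R : Type} [CommRing R]

def ev (τ : R) : List ℤ → R
  | [] => 0
  | a :: p => (a : R) + τ * ev τ p

lemma ev_add (τ : R) : ∀ p q : List ℤ, ev τ (padd p q) = ev τ p + ev τ q
  | [], q => by simp [padd, ev]
  | a :: p, [] => by simp [padd, ev]
  | a :: p, b :: q => by simp only [padd, ev, ev_add τ p q]; push_cast; ring

lemma ev_sm (τ : R) (c : ℤ) : ∀ p : List ℤ, ev τ (psm c p) = (c : R) * ev τ p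
  | [] => by simp [psm, ev]
  | a :: p => by simp only [psm, ev, ev_sm τ c p]; push_cast; ring

lemma ev_mul (τ : R) : ∀ p q : List ℤ, ev τ (pmul p q) = ev τ p * ev τ q
  | [], q => by simp [pmul, ev]
  | a :: p, q => by simp only [pmul, ev_add, ev_sm, ev, ev_mul τ p q]; push_cast; ring

lemma ev_sum (τ : R) : ∀ (n : ℕ) (f : Fin n → List ℤ), ev τ (psum n f) = ∑ i, ev τ (f i)
  | 0, f => by simp [psum, ev]
  | n + 1, f => by rw [psum, ev_add, ev_sum τ n, Fin.sum_univ_succ]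

lemma ev_det (τ : R) : ∀ (n : ℕ) (M : Fin n → Fin n → List ℤ),
    ev τ (pdet n M) = (Matrix.of fun i j => ev τ (M i j)).det
  | 0, M => by simp [pdet, ev]
  | n + 1, M => by
    rw [pdet, ev_sum, Matrix.det_succ_row_zero]
    refine Finset.sum_congr rfl fun j _ => ?_
    rw [ev_sm, ev_mul, ev_det τ n]
    push_cast
    rw [mul_assoc]
    rfl

lemma ev_zero (τ : R) : ∀ p : List ℤ, p.all (· == 0) = true → ev τ p = 0
  | [], _ => rfl
  | a :: p, h => by
    simp only [List.all_cons, Bool.and_eq_true, beq_iff_eq] at h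
    simp [ev, h.1, ev_zero τ p h.2]

lemma ev_map {S : Type} [CommRing S] (φ : R →+* S) (τ : R) :
    ∀ p : List ℤ, φ (ev τ p) = ev (φ τ) p
  | [] => by simp [ev]
  | a :: p => by simp [ev, ev_map φ τ p]

end ev

lemma coeff_ev : ∀ (p : List ℤ) (n : ℕ), (ev (X : ℝ[X]) p).coeff n = (p.getD n 0 : ℤ)
  | [], n => by simp [ev]
  | a :: p, 0 => by
    simp only [ev, coeff_add, coeff_X_mul_zero, ← C_eq_intCast, coeff_C]
    simp
  | a :: p, n + 1 => by
    simp only [ev, coeff_add, coeff_X_mul, coeff_ev p n, ← C_eq_intCast, coeff_C]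
    simp

/-- Newton relations for lists. -/
def nwt (G P : List (List ℤ)) (k : ℕ) : List ℤ :=
  padd (P.getD k []) (padd (psum 6 fun i => if i.val + 1 < k then
    pmul (G.getD i.val []) (P.getD (k - (i.val + 1)) []) else [])
    (if k ≤ 6 then psm k (G.getD (k - 1) []) else []))

def nwOK (G P : List (List ℤ)) : Bool :=
  P.getD 0 [] == [6] && (List.range 10).all fun k => (nwt G P (k + 1)).all (· == 0)

lemma ok1 : nwOK GL1 PL1 = true := by decide +kernel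
lemma ok2 : nwOK GL2 PL2 = true := by decide +kernel

lemma psums (s : Fin 6 → ℂ) (g1 g2 g3 g4 g5 g6 : ℂ)
    (h : ∀ y : ℂ, ∏ a, (y - s a) =
      y ^ 6 + g1 * y ^ 5 + g2 * y ^ 4 + g3 * y ^ 3 + g4 * y ^ 2 + g5 * y + g6)
    (q : ℕ → ℂ) (h0 : q 0 = 6) (h1 : q 1 + g1 = 0) (h2 : q 2 + g1 * q 1 + 2 * g2 = 0)
    (h3 : q 3 + g1 * q 2 + g2 * q 1 + 3 * g3 = 0)
    (h4 : q 4 + g1 * q 3 + g2 * q 2 + g3 * q 1 + 4 * g4 = 0)
    (h5 : q 5 + g1 * q 4 + g2 * q 3 + g3 * q 2 + g4 * q 1 + 5 * g5 = 0)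
    (h6 : ∀ k, k ≤ 4 → q (k + 6) + g1 * q (k + 5) + g2 * q (k + 4) + g3 * q (k + 3)
      + g4 * q (k + 2) + g5 * q (k + 1) + g6 * q k = 0) :
    ∀ k, k ≤ 10 → q k = ∑ a, s a ^ k := by
  have hroot : ∀ a, s a ^ 6 + g1 * s a ^ 5 + g2 * s a ^ 4 + g3 * s a ^ 3 + g4 * s a ^ 2
      + g5 * s a + g6 = 0 := by
    intro a
    rw [← h]
    exact Finset.prod_eq_zero (Finset.mem_univ a) (sub_self _)
  have e0 := h 0
  have e1 := h 1
  have e2 := h (-1)
  have e3 := h 2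
  have e4 := h (-2)
  have e5 := h 3
  simp only [Fin.prod_univ_six] at e0 e1 e2 e3 e4 e5
  have k1 : g1 = -(s 0 + s 1 + s 2 + s 3 + s 4 + s 5) := by
    linear_combination (1/12) * e0 + (-1/12) * e1 + (-1/24) * e2 + (1/24) * e3 + (1/120) * e4 + (-1/120) * e5
  have k2 : g2 = (s 0 * s 1 + s 0 * s 2 + s 0 * s 3 + s 0 * s 4 + s 0 * s 5 + s 1 * s 2 + s 1 * s 3 + s 1 * s 4 + s 1 * s 5 + s 2 * s 3 + s 2 * s 4 + s 2 * s 5 + s 3 * s 4 + s 3 * s 5 + s 4 * s 5) := by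
    linear_combination (-1/4) * e0 + (1/6) * e1 + (1/6) * e2 + (-1/24) * e3 + (-1/24) * e4
  have k3 : g3 = -(s 0 * s 1 * s 2 + s 0 * s 1 * s 3 + s 0 * s 1 * s 4 + s 0 * s 1 * s 5 + s 0 * s 2 * s 3 + s 0 * s 2 * s 4 + s 0 * s 2 * s 5 + s 0 * s 3 * s 4 + s 0 * s 3 * s 5 + s 0 * s 4 * s 5 + s 1 * s 2 * s 3 + s 1 * s 2 * s 4 + s 1 * s 2 * s 5 + s 1 * s 3 * s 4 + s 1 * s 3 * s 5 + s 1 * s 4 * s 5 + s 2 * s 3 * s 4 + s 2 * s 3 * s 5 + s 2 * s 4 * s 5 + s 3 * s 4 * s 5) := by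
    linear_combination (-5/12) * e0 + (7/12) * e1 + (1/24) * e2 + (-7/24) * e3 + (1/24) * e4 + (1/24) * e5
  have k4 : g4 = (s 0 * s 1 * s 2 * s 3 + s 0 * s 1 * s 2 * s 4 + s 0 * s 1 * s 2 * s 5 + s 0 * s 1 * s 3 * s 4 + s 0 * s 1 * s 3 * s 5 + s 0 * s 1 * s 4 * s 5 + s 0 * s 2 * s 3 * s 4 + s 0 * s 2 * s 3 * s 5 + s 0 * s 2 * s 4 * s 5 + s 0 * s 3 * s 4 * s 5 + s 1 * s 2 * s 3 * s 4 + s 1 * s 2 * s 3 * s 5 + s 1 * s 2 * s 4 * s 5 + s 1 * s 3 * s 4 * s 5 + s 2 * s 3 * s 4 * s 5) := by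
    linear_combination (5/4) * e0 + (-2/3) * e1 + (-2/3) * e2 + (1/24) * e3 + (1/24) * e4
  have k5 : g5 = -(s 0 * s 1 * s 2 * s 3 * s 4 + s 0 * s 1 * s 2 * s 3 * s 5 + s 0 * s 1 * s 2 * s 4 * s 5 + s 0 * s 1 * s 3 * s 4 * s 5 + s 0 * s 2 * s 3 * s 4 * s 5 + s 1 * s 2 * s 3 * s 4 * s 5) := by
    linear_combination (1/3) * e0 + (-1) * e1 + (1/2) * e2 + (1/4) * e3 + (-1/20) * e4 + (-1/30) * e5
  have p0 : q 0 = ∑ a, s a ^ 0 := by simp [h0]
  have p1 : q 1 = ∑ a, s a ^ 1 := by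
    rw [Fin.sum_univ_six]; rw [k1] at h1; linear_combination h1
  have p2 : q 2 = ∑ a, s a ^ 2 := by
    rw [p1, k1, k2] at h2; simp only [Fin.sum_univ_six] at h2 ⊢; linear_combination h2
  have p3 : q 3 = ∑ a, s a ^ 3 := by
    rw [p1, p2, k1, k2, k3] at h3; simp only [Fin.sum_univ_six] at h3 ⊢; linear_combination h3
  have p4 : q 4 = ∑ a, s a ^ 4 := by
    rw [p1, p2, p3, k1, k2, k3, k4] at h4; simp only [Fin.sum_univ_six] at h4 ⊢
    linear_combination h4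
  have p5 : q 5 = ∑ a, s a ^ 5 := by
    rw [p1, p2, p3, p4, k1, k2, k3, k4, k5] at h5; simp only [Fin.sum_univ_six] at h5 ⊢
    linear_combination h5
  have step : ∀ k, ∑ a, s a ^ (k + 6) + g1 * ∑ a, s a ^ (k + 5) + g2 * ∑ a, s a ^ (k + 4)
      + g3 * ∑ a, s a ^ (k + 3) + g4 * ∑ a, s a ^ (k + 2) + g5 * ∑ a, s a ^ (k + 1)
      + g6 * ∑ a, s a ^ k = 0 := by
    intro k
    simp only [Finset.mul_sum, ← Finset.sum_add_distrib]
    refine Finset.sum_eq_zero fun a _ => ?_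
    linear_combination s a ^ k * hroot a
  intro k
  induction k using Nat.strong_induction_on with
  | _ k ih =>
    intro hk
    by_cases hk6 : k < 6
    · interval_cases k <;> assumption
    · obtain ⟨m, rfl⟩ : ∃ m, k = m + 6 := ⟨k - 6, by omega⟩
      have := h6 m (by omega)
      rw [ih (m + 5) (by omega) (by omega), ih (m + 4) (by omega) (by omega),
        ih (m + 3) (by omega) (by omega), ih (m + 2) (by omega) (by omega),
        ih (m + 1) (by omega) (by omega), ih m (by omega) (by omega)] at this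
      linear_combination this - step m

lemma hankel (s : Fin 6 → ℂ) (q : ℕ → ℂ) (h : ∀ k, k ≤ 10 → q k = ∑ a, s a ^ k) :
    (Matrix.of fun i j : Fin 6 => q (i.val + j.val)).det
      = ∏ a, ∏ b ∈ Finset.Ioi a, (s a - s b) ^ 2 := by
  have : (Matrix.of fun i j : Fin 6 => q (i.val + j.val))
      = (Matrix.vandermonde s).transpose * Matrix.vandermonde s := by
    ext i j
    rw [Matrix.vandermonde_transpose_mul_vandermonde]
    simp only [Matrix.of_apply]
    exact h _ (by omega)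
  rw [this, Matrix.det_mul, Matrix.det_transpose, Matrix.det_vandermonde,
    ← Finset.prod_mul_distrib]
  refine Finset.prod_congr rfl fun a _ => ?_
  rw [← Finset.prod_mul_distrib]
  refine Finset.prod_congr rfl fun b _ => ?_
  ring

lemma disc_eq (G P : List (List ℤ)) (hok : nwOK G P = true) (t : ℂ) (s : Fin 6 → ℂ)
    (h : ∀ y : ℂ, ∏ a, (y - s a) =
      y ^ 6 + ev t (G.getD 0 []) * y ^ 5 + ev t (G.getD 1 []) * y ^ 4
        + ev t (G.getD 2 []) * y ^ 3 + ev t (G.getD 3 []) * y ^ 2 + ev t (G.getD 4 []) * y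
        + ev t (G.getD 5 [])) :
    ev t (pdet 6 fun i j => P.getD (i.val + j.val) [])
      = ∏ a, ∏ b ∈ Finset.Ioi a, (s a - s b) ^ 2 := by
  simp only [nwOK, Bool.and_eq_true, beq_iff_eq, List.all_eq_true, List.mem_range] at hok
  have hk : ∀ k, k < 10 → ev t (nwt G P (k + 1)) = 0 := fun k hk =>
    ev_zero t _ (List.all_eq_true.2 fun x hx => by simpa using hok.2 k hk x hx)
  have h0 : ev t (P.getD 0 []) = 6 := by rw [hok.1]; simp [ev]
  have a1 := hk 0 (by norm_num)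
  have a2 := hk 1 (by norm_num)
  have a3 := hk 2 (by norm_num)
  have a4 := hk 3 (by norm_num)
  have a5 := hk 4 (by norm_num)
  have a6 := hk 5 (by norm_num)
  have a7 := hk 6 (by norm_num)
  have a8 := hk 7 (by norm_num)
  have a9 := hk 8 (by norm_num)
  have a10 := hk 9 (by norm_num)
  simp only [nwt, ev_add, ev_sum, Fin.sum_univ_six] at a1 a2 a3 a4 a5 a6 a7 a8 a9 a10
  norm_num [ev_mul, ev_sm, ev, -List.getD_eq_getElem?_getD] at a1 a2 a3 a4 a5 a6 a7 a8 a9 a10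
  rw [ev_det]
  refine hankel s (fun k => ev t (P.getD k [])) (psums s _ _ _ _ _ _ h _ h0 ?_ ?_ ?_ ?_ ?_ ?_)
  · linear_combination a1
  · linear_combination a2
  · linear_combination a3
  · linear_combination a4
  · linear_combination a5
  · intro k hk
    interval_cases k
    · rw [h0]; linear_combination a6
    · linear_combination a7
    · linear_combination a8
    · linear_combination a9
    · linear_combination a10

end Pool.Agent.H50.DiscD
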