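import Mathlib
import Pool.Agent.H50.DiscB

namespace Pool.Agent.H50.DiscD

open Polynomial

/-- the configuration: one point and two clusters of three points -/
def zc {R : Type} [CommRing R] (x e : R) : Fin 7 → R := ![x, 1, 1 + e, 1 - e, -1, -1 + e, -1 - e]

lemma exists_roots (z : Fin 7 → ℂ) : ∃ r : Fin 6 → ℂ,
    derivative (∏ i : Fin 7, (X - C (z i))) = C ((7 : ℕ) : ℂ) * ∏ j : Fin 6, (X - C (r j)) := by
  set w : ℂ[X] := ∏ i : Fin 7, (X - C (z i)) with hw
  have hm : w.Monic := monic_prod_of_monic _ _ fun i _ => monic_X_sub_C _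
  have hd : w.natDegree = 7 := by
    rw [hw, natDegree_prod_of_monic _ _ fun i _ => monic_X_sub_C _]
    simp
  have hd' : (derivative w).natDegree = 6 := by
    rw [natDegree_derivative, hd]
  have hl : (derivative w).leadingCoeff = ((7 : ℕ) : ℂ) := by
    rw [leadingCoeff, hd', coeff_derivative]
    have : w.coeff (6 + 1) = 1 := by
      have := hm.coeff_natDegree
      rwa [hd] at this
    rw [this]; norm_num
  have hs : (derivative w).Splits := IsAlgClosed.splits _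
  have hc : (derivative w).roots.card = 6 := by rw [← hd']; exact hs.natDegree_eq_card_roots.symm
  have hp := hs.eq_prod_roots
  rw [hl] at hp
  obtain ⟨l, hl⟩ : ∃ l : List ℂ, (l : Multiset ℂ) = (derivative w).roots := Quot.exists_rep _
  have hlen : l.length = 6 := by rw [← hc, ← hl]; simp
  refine ⟨fun j => l.get (j.cast hlen.symm), ?_⟩
  rw [hp, ← hl]
  congr 1
  match l, hlen with
  | [a, b, c, d, e, f], _ => simp [Fin.prod_univ_six, mul_assoc]

lemma coef (x e : ℂ) (r : Fin 6 → ℂ)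
    (h : derivative (∏ i : Fin 7, (X - C (zc x e i))) = C ((7 : ℕ) : ℂ) * ∏ j : Fin 6, (X - C (r j)))
    (y : ℂ) : ∏ a, (y - 7 * r a) = y ^ 6 + (-6 * x) * y ^ 5 + (-35 * (3 + 2 * e ^ 2)) * y ^ 4
      + (196 * x * (3 + 2 * e ^ 2)) * y ^ 3 + (1029 * (3 + e ^ 4)) * y ^ 2
      + (-4802 * x * (3 + e ^ 4)) * y + (-16807 * (1 - e ^ 2) ^ 2) := by
  have := congrArg (eval (y / 7)) h
  simp only [Fin.prod_univ_seven, Fin.prod_univ_six, derivative_mul, derivative_sub, derivative_X,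
    derivative_C, eval_add, eval_mul, eval_sub, eval_X, eval_C, eval_one, sub_zero, zc] at this
  simp only [Matrix.cons_val_zero, Matrix.cons_val_one, Matrix.cons_val] at this
  rw [Fin.prod_univ_six]
  push_cast at this
  linear_combination (-16807) * this

def Hyp (m : ℕ) (c : Fin m → ℝ) (E : Fin m → List (Fin 7 × Fin 7)) : Prop :=
  ∀ (z : Fin 7 → ℂ) (r : Fin 6 → ℂ),
    derivative (∏ i : Fin 7, (X - C (z i))) = C ((7 : ℕ) : ℂ) * ∏ j : Fin 6, (X - C (r j)) →
      ((7 : ℕ) : ℂ) ^ (2 * 7 - 4) * ∏ a : Fin 6, ∏ b ∈ Finset.Ioi a, (r a - r b) ^ 2 =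
        ∑ k : Fin m, ((c k : ℝ) : ℂ) * (((E k).map (fun p => z p.1 - z p.2)).prod) ^ 2

noncomputable def PP (x e : ℝ[X]) (l : List (Fin 7 × Fin 7)) : ℝ[X] :=
  (l.map fun p => zc x e p.1 - zc x e p.2).prod

lemma scale (r : Fin 6 → ℂ) : ∏ a, ∏ b ∈ Finset.Ioi a, (7 * r a - 7 * r b) ^ 2
    = 7 ^ 30 * ∏ a : Fin 6, ∏ b ∈ Finset.Ioi a, (r a - r b) ^ 2 := by
  have : ∀ a b, (7 * r a - 7 * r b) ^ 2 = 49 * (r a - r b) ^ 2 := fun a b => by ring
  simp only [this, Finset.prod_mul_distrib, Finset.prod_const, Fin.card_Ioi,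
    Finset.prod_pow_eq_pow_sum]
  congr 1
  rw [Fin.sum_univ_six]
  norm_num

lemma poly_id {m : ℕ} {c : Fin m → ℝ} {E : Fin m → List (Fin 7 × Fin 7)} (H : Hyp m c E)
    (G P : List (List ℤ)) (hok : nwOK G P = true) (x e : ℝ[X])
    (hG : ∀ t : ℝ, ev (t : ℂ) (G.getD 0 []) = -6 * (x.eval t : ℝ) ∧
      ev (t : ℂ) (G.getD 1 []) = -35 * (3 + 2 * ((e.eval t : ℝ) : ℂ) ^ 2) ∧
      ev (t : ℂ) (G.getD 2 []) = 196 * (x.eval t : ℝ) * (3 + 2 * ((e.eval t : ℝ) : ℂ) ^ 2) ∧
      ev (t : ℂ) (G.getD 3 []) = 1029 * (3 + ((e.eval t : ℝ) : ℂ) ^ 4) ∧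
      ev (t : ℂ) (G.getD 4 []) = -4802 * (x.eval t : ℝ) * (3 + ((e.eval t : ℝ) : ℂ) ^ 4) ∧
      ev (t : ℂ) (G.getD 5 []) = -16807 * (1 - ((e.eval t : ℝ) : ℂ) ^ 2) ^ 2) :
    ev (X : ℝ[X]) (pdet 6 fun i j => P.getD (i.val + j.val) [])
      = ∑ k, C (7 ^ 20 * c k) * PP x e (E k) ^ 2 := by
  apply Polynomial.funext
  intro t
  obtain ⟨r, hr⟩ := exists_roots (zc ((x.eval t : ℝ) : ℂ) ((e.eval t : ℝ) : ℂ))
  have h1 := H _ r hr
  obtain ⟨g1, g2, g3, g4, g5, g6⟩ := hG t
  have h2 := disc_eq G P hok (t : ℂ) (fun a => 7 * r a) (by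
    intro y
    rw [g1, g2, g3, g4, g5, g6]
    exact coef _ _ r hr y)
  rw [scale] at h2
  apply Complex.ofReal_injective
  have e1 : ∀ l, (((ev (X : ℝ[X]) l).eval t : ℝ) : ℂ) = ev (t : ℂ) l := by
    intro l
    have := ev_map (Complex.ofRealHom.comp (evalRingHom t)) X l
    simpa using this
  have e2 : ∀ l, (((PP x e l).eval t : ℝ) : ℂ) = (l.map fun p =>
      zc ((x.eval t : ℝ) : ℂ) ((e.eval t : ℝ) : ℂ) p.1
        - zc ((x.eval t : ℝ) : ℂ) ((e.eval t : ℝ) : ℂ) p.2).prod := by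
    have e3 : ∀ i, (((zc x e i).eval t : ℝ) : ℂ)
        = zc ((x.eval t : ℝ) : ℂ) ((e.eval t : ℝ) : ℂ) i := by
      intro i
      fin_cases i <;> simp [zc]
    intro l
    induction l with
    | nil => simp [PP]
    | cons p l ih =>
      simp only [PP, List.map_cons, List.prod_cons, eval_mul, eval_sub] at ih ⊢
      push_cast
      rw [ih, e3, e3]
  rw [e1, h2]
  simp only [eval_finsetSum, eval_mul, eval_C, eval_pow]
  push_cast
  simp only [e2, mul_assoc, ← Finset.mul_sum]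
  rw [← h1]
  push_cast
  ring

lemma low {m : ℕ} (c : Fin m → ℝ) (hc : ∀ k, 0 ≤ c k) (P : Fin m → ℝ[X]) (D : ℝ[X])
    (h : D = ∑ k, C (c k) * P k ^ 2) (N : ℕ) (hD : ∀ i, i < 2 * N → D.coeff i = 0) :
    ∀ n, n ≤ N → ∀ k, c k ≠ 0 → X ^ n ∣ P k := by
  intro n
  induction n with
  | zero => intro _ k _; simp
  | succ n ih =>
    intro hn k hk
    have ih' := ih (by omega)
    have hq : ∀ k, ∃ R : ℝ[X], c k ≠ 0 → P k = X ^ n * R := by
      intro k
      by_cases h0 : c k = 0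
      · exact ⟨0, fun h => absurd h0 h⟩
      · obtain ⟨R, hR⟩ := ih' k h0
        exact ⟨R, fun _ => hR⟩
    choose R hR using hq
    have h1 := hD (2 * n) (by omega)
    rw [h, finsetSum_coeff] at h1
    have h2 : ∀ k, (C (c k) * P k ^ 2).coeff (2 * n) = c k * (R k).coeff 0 ^ 2 := by
      intro k
      by_cases h0 : c k = 0
      · simp [h0]
      · rw [hR k h0, coeff_C_mul, mul_pow, ← pow_mul, mul_comm n 2]
        have := coeff_X_pow_mul (R k ^ 2) (2 * n) 0
        rw [zero_add] at this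
        rw [this, pow_two, mul_coeff_zero, ← pow_two]
    simp only [h2] at h1
    have h3 := (Finset.sum_eq_zero_iff_of_nonneg fun k _ =>
      mul_nonneg (hc k) (sq_nonneg ((R k).coeff 0))).1 h1 k (Finset.mem_univ k)
    have h4 : (R k).coeff 0 = 0 := by
      rcases mul_eq_zero.1 h3 with h5 | h5
      · exact absurd h5 hk
      · exact pow_eq_zero_iff (two_ne_zero) |>.1 h5
    rw [hR k hk, pow_succ]
    exact mul_dvd_mul_left _ (X_dvd_iff.2 h4)

lemma high {m : ℕ} (c : Fin m → ℝ) (hc : ∀ k, 0 ≤ c k) (P : Fin m → ℝ[X]) (D : ℝ[X])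
    (h : D = ∑ k, C (c k) * P k ^ 2) (N : ℕ) (hD : ∀ i, 2 * N < i → D.coeff i = 0) :
    ∀ k, c k ≠ 0 → (P k).natDegree ≤ N := by
  have key : ∀ n, (∀ k, c k ≠ 0 → (P k).natDegree ≤ N + n) →
      ∀ k, c k ≠ 0 → (P k).natDegree ≤ N := by
    intro n
    induction n with
    | zero => intro h; simpa using h
    | succ n ih =>
      intro hb
      apply ih
      intro k hk
      have h1 := hD (2 * (N + (n + 1))) (by omega)
      rw [h, finsetSum_coeff] at h1
      have h2 : ∀ k, (C (c k) * P k ^ 2).coeff (2 * (N + (n + 1)))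
          = c k * (P k).coeff (N + (n + 1)) ^ 2 := by
        intro k
        by_cases h0 : c k = 0
        · simp [h0]
        · rw [coeff_C_mul, coeff_pow_of_natDegree_le (hb k h0)]
      simp only [h2] at h1
      have h3 := (Finset.sum_eq_zero_iff_of_nonneg fun k _ =>
        mul_nonneg (hc k) (sq_nonneg ((P k).coeff (N + (n + 1))))).1 h1 k (Finset.mem_univ k)
      have h4 : (P k).coeff (N + (n + 1)) = 0 := by
        rcases mul_eq_zero.1 h3 with h5 | h5
        · exact absurd h5 hk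
        · exact pow_eq_zero_iff (two_ne_zero) |>.1 h5
      have h5 := hb k hk
      rw [natDegree_le_iff_coeff_eq_zero] at h5 ⊢
      intro i hi
      rcases Nat.lt_or_ge (N + (n + 1)) i with h6 | h6
      · exact h5 i h6
      · have : i = N + (n + 1) := by omega
        rw [this, h4]
  apply key (∑ k, (P k).natDegree)
  intro k _
  have := Finset.single_le_sum (f := fun k => (P k).natDegree) (fun _ _ => Nat.zero_le _)
    (Finset.mem_univ k)
  omega

end Pool.Agent.H50.DiscD
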