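import Mathlib
import Pool.Agent.H50.DiscC

namespace Pool.Agent.H50.DiscD

open Polynomial

def grp : Fin 7 → ℕ := ![0, 1, 1, 1, 2, 2, 2]
def jj (p : Fin 7 × Fin 7) : ℕ := if grp p.1 = grp p.2 then 1 else 0
def aa (p : Fin 7 × Fin 7) : ℕ := if grp p.1 + grp p.2 = 1 then 1 else 0
def bb (p : Fin 7 × Fin 7) : ℕ :=
  if grp p.1 + grp p.2 = 2 ∧ grp p.1 ≠ grp p.2 then 1 else 0

lemma f1 (i j : Fin 7) (h : i ≠ j) : zc (X : ℝ[X]) (C 3) i - zc X (C 3) j ≠ 0 ∧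
    (zc (X : ℝ[X]) (C 3) i - zc X (C 3) j).natDegree = aa (i, j) + bb (i, j) := by
  have hz : ∀ i : Fin 7, zc (X : ℝ[X]) (C 3) i =
      C (![1, 0, 0, 0, 0, 0, 0] i : ℝ) * X + C (![0, 1, 4, -2, -1, 2, -4] i : ℝ) := by
    intro i
    apply Polynomial.funext
    intro t
    fin_cases i <;> simp [zc] <;> norm_num
  have hd : zc (X : ℝ[X]) (C 3) i - zc X (C 3) j =
      C ((![1, 0, 0, 0, 0, 0, 0] i : ℝ) - ![1, 0, 0, 0, 0, 0, 0] j) * X
        + C ((![0, 1, 4, -2, -1, 2, -4] i : ℝ) - ![0, 1, 4, -2, -1, 2, -4] j) := by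
    rw [hz, hz, C_sub, C_sub]; ring
  rw [hd]
  have k0 : ∀ a b : ℝ, a = 0 → b ≠ 0 → C a * X + C b ≠ 0 ∧ (C a * X + C b).natDegree = 0 := by
    intro a b ha hb
    subst ha
    simp [hb]
  have k1 : ∀ a b : ℝ, a ≠ 0 → C a * X + C b ≠ 0 ∧ (C a * X + C b).natDegree = 1 := by
    intro a b ha
    have := natDegree_linear (b := b) ha
    refine ⟨fun h0 => ?_, this⟩
    rw [h0] at this
    simp at this
  fin_cases i <;> fin_cases j <;>
    first
    | exact absurd rfl h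
    | exact k0 _ _ (by simp) (by norm_num)
    | exact k1 _ _ (by simp)

def Good (f : ℝ[X]) (v b : ℕ) : Prop :=
  ∃ R : ℝ[X], f = X ^ v * R ∧ R.coeff 0 ≠ 0 ∧ 2 * R.coeff 1 = b * R.coeff 0

lemma f2 (i j : Fin 7) (h : i ≠ j) :
    Good (zc (1 + X : ℝ[X]) (X ^ 4) i - zc (1 + X) (X ^ 4) j) (4 * jj (i, j) + aa (i, j))
      (bb (i, j)) := by
  have k4 : ∀ (f : ℝ[X]) (a : ℝ), a ≠ 0 → f = X ^ 4 * C a → Good f 4 0 := by
    intro f a ha hf
    exact ⟨C a, hf, by simpa using ha, by simp⟩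
  have k1 : ∀ (f : ℝ[X]) (a s : ℝ), a ≠ 0 → f = X ^ 1 * (C a + C s * X ^ 3) → Good f 1 0 := by
    intro f a s ha hf
    exact ⟨_, hf, by simpa using ha, by simp [coeff_X_pow]⟩
  have k0 : ∀ (f : ℝ[X]) (a s : ℝ), a ≠ 0 → f = X ^ 0 * (C a + C s * X ^ 4) → Good f 0 0 := by
    intro f a s ha hf
    exact ⟨_, hf, by simpa using ha, by simp [coeff_X_pow]⟩
  have kb : ∀ (f : ℝ[X]) (a s : ℝ), a ≠ 0 →
      f = X ^ 0 * (C (2 * a) + C a * X + C s * X ^ 4) → Good f 0 1 := by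
    intro f a s ha hf
    exact ⟨_, hf, by simpa using ha, by simp [coeff_X_pow, coeff_X]⟩
  have hz : ∀ i : Fin 7, zc (1 + X : ℝ[X]) (X ^ 4) i =
      C (![1, 1, 1, 1, -1, -1, -1] i : ℝ) + C (![1, 0, 0, 0, 0, 0, 0] i : ℝ) * X
        + C (![0, 0, 1, -1, 0, 1, -1] i : ℝ) * X ^ 4 := by
    intro i
    apply Polynomial.funext
    intro t
    fin_cases i <;> simp [zc] <;> ring
  have hd : ∀ t : ℝ, (zc (1 + X : ℝ[X]) (X ^ 4) i - zc (1 + X) (X ^ 4) j).eval t =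
      ((![1, 1, 1, 1, -1, -1, -1] i : ℝ) - ![1, 1, 1, 1, -1, -1, -1] j)
        + ((![1, 0, 0, 0, 0, 0, 0] i : ℝ) - ![1, 0, 0, 0, 0, 0, 0] j) * t
        + ((![0, 0, 1, -1, 0, 1, -1] i : ℝ) - ![0, 0, 1, -1, 0, 1, -1] j) * t ^ 4 := by
    intro t
    rw [hz, hz]
    simp only [eval_sub, eval_add, eval_mul, eval_C, eval_X, eval_pow]
    ring
  generalize zc (1 + X : ℝ[X]) (X ^ 4) i - zc (1 + X) (X ^ 4) j = f at hd
  have g4 : ∀ a : ℝ, a ≠ 0 → (∀ t, f.eval t = 0 + 0 * t + a * t ^ 4) → Good f 4 0 := by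
    intro a ha hf
    refine k4 f a ha (Polynomial.funext fun t => ?_)
    rw [hf]; simp
  have g1 : ∀ a s : ℝ, a ≠ 0 → (∀ t, f.eval t = 0 + a * t + s * t ^ 4) → Good f 1 0 := by
    intro a s ha hf
    refine k1 f a s ha (Polynomial.funext fun t => ?_)
    rw [hf]; simp; ring
  have g0 : ∀ a s : ℝ, a ≠ 0 → (∀ t, f.eval t = a + 0 * t + s * t ^ 4) → Good f 0 0 := by
    intro a s ha hf
    refine k0 f a s ha (Polynomial.funext fun t => ?_)
    rw [hf]; simp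
  have gb : ∀ a s : ℝ, a ≠ 0 → (∀ t, f.eval t = 2 * a + a * t + s * t ^ 4) → Good f 0 1 := by
    intro a s ha hf
    refine kb f a s ha (Polynomial.funext fun t => ?_)
    rw [hf]; simp
  set u : ℝ := (![1, 1, 1, 1, -1, -1, -1] i : ℝ) - ![1, 1, 1, 1, -1, -1, -1] j with hu
  set v : ℝ := (![1, 0, 0, 0, 0, 0, 0] i : ℝ) - ![1, 0, 0, 0, 0, 0, 0] j with hv
  set w : ℝ := (![0, 0, 1, -1, 0, 1, -1] i : ℝ) - ![0, 0, 1, -1, 0, 1, -1] j with hw
  have main : (u = 0 ∧ v = 0 ∧ w ≠ 0 ∧ jj (i, j) = 1 ∧ aa (i, j) = 0 ∧ bb (i, j) = 0) ∨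
      (u = 0 ∧ v ≠ 0 ∧ jj (i, j) = 0 ∧ aa (i, j) = 1 ∧ bb (i, j) = 0) ∨
      (u ≠ 0 ∧ v = 0 ∧ jj (i, j) = 0 ∧ aa (i, j) = 0 ∧ bb (i, j) = 0) ∨
      (u = 2 * v ∧ v ≠ 0 ∧ jj (i, j) = 0 ∧ aa (i, j) = 0 ∧ bb (i, j) = 1) := by
    rw [hu, hv, hw]
    clear hd g4 g1 g0 gb hu hv hw u v w
    fin_cases i <;> fin_cases j <;>
      first
      | exact absurd rfl h
      | (simp [jj, aa, bb, grp]; done)
      | (simp [jj, aa, bb, grp]; norm_num)
  rcases main with ⟨a, b, c, d, e, g⟩ | ⟨a, b, d, e, g⟩ | ⟨a, b, d, e, g⟩ | ⟨a, b, d, e, g⟩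
  · rw [d, e, g]; exact g4 w c (by simpa [a, b] using hd)
  · rw [d, e, g]; exact g1 v w b (by simpa [a] using hd)
  · rw [d, e, g]; exact g0 u w a (by simpa [b] using hd)
  · rw [d, e, g]; exact gb v w b (by simpa [a] using hd)

lemma L1 (l : List (Fin 7 × Fin 7)) (h : ∀ p ∈ l, p.1 ≠ p.2) :
    PP X (C 3) l ≠ 0 ∧ (PP X (C 3) l).natDegree = (l.map aa).sum + (l.map bb).sum := by
  induction l with
  | nil => simp [PP]
  | cons p l ih =>
    have h1 := ih fun q hq => h q (List.mem_cons_of_mem _ hq)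
    have h2 := f1 p.1 p.2 (h p List.mem_cons_self)
    simp only [PP, List.map_cons, List.prod_cons, List.sum_cons] at h1 ⊢
    refine ⟨mul_ne_zero h2.1 h1.1, ?_⟩
    rw [natDegree_mul h2.1 h1.1, h2.2, h1.2]
    ring

lemma L2 (l : List (Fin 7 × Fin 7)) (h : ∀ p ∈ l, p.1 ≠ p.2) :
    Good (PP (1 + X) (X ^ 4) l) (4 * (l.map jj).sum + (l.map aa).sum) (l.map bb).sum := by
  induction l with
  | nil => exact ⟨1, by simp [PP], by simp, by simp [coeff_one]⟩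
  | cons p l ih =>
    obtain ⟨R, h1, h2, h3⟩ := ih fun q hq => h q (List.mem_cons_of_mem _ hq)
    obtain ⟨S, g1, g2, g3⟩ := f2 p.1 p.2 (h p List.mem_cons_self)
    simp only [PP, List.map_cons, List.prod_cons, List.sum_cons] at h1 ⊢
    refine ⟨S * R, ?_, ?_, ?_⟩
    · rw [h1, g1]; ring
    · rw [mul_coeff_zero]; exact mul_ne_zero g2 h2
    · rw [mul_coeff_one, mul_coeff_zero, Nat.cast_add]
      linear_combination S.coeff 0 * h3 + R.coeff 0 * g3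

lemma L0 (x e : ℝ[X]) (l : List (Fin 7 × Fin 7)) (h : ¬ ∀ p ∈ l, p.1 ≠ p.2) : PP x e l = 0 := by
  push Not at h
  obtain ⟨p, hp, hq⟩ := h
  apply List.prod_eq_zero
  exact List.mem_map.2 ⟨p, hp, by rw [hq, sub_self]⟩

theorem main (m : ℕ) (c : Fin m → ℝ) (E : Fin m → List (Fin 7 × Fin 7)) (hc : ∀ k, 0 ≤ c k) :
    ¬ Hyp m c E := by
  intro H
  have hc' : ∀ k, 0 ≤ 7 ^ 20 * c k := fun k => mul_nonneg (by positivity) (hc k)
  have i1 := poly_id H GL1 PL1 ok1 X (C 3) (by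
    intro t
    simp [GL1, ev]
    refine ⟨?_, ?_, ?_, ?_, ?_, ?_⟩ <;> ring)
  have i2 := poly_id H GL2 PL2 ok2 (1 + X) (X ^ 4) (by
    intro t
    simp [GL2, ev]
    refine ⟨?_, ?_, ?_, ?_, ?_, ?_⟩ <;> ring)
  change ev X D1 = _ at i1
  change ev X D2 = _ at i2
  have d1 : ∀ i, 2 * 5 < i → (ev (X : ℝ[X]) D1).coeff i = 0 := by
    intro i hi
    rw [coeff_ev]
    have h := List.all_eq_true.1 c1
    by_cases hl : i < D1.length
    · have : D1[i] ∈ D1.drop 11 := by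
        rw [List.mem_iff_getElem]
        refine ⟨i - 11, by simp; omega, ?_⟩
        simp only [List.getElem_drop]
        congr 1; omega
      have := h _ this
      rw [List.getD_eq_getElem _ _ hl]
      simpa using this
    · rw [List.getD_eq_default _ _ (by omega)]; simp
  have d2 : ∀ i, i < 22 → (ev (X : ℝ[X]) D2).coeff i = (((List.replicate 20 0 ++
      [782757789696 * 7 ^ 20, 2446118092800 * 7 ^ 20] : List ℤ).getD i 0 : ℤ) : ℝ) := by
    intro i hi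
    rw [coeff_ev, ← c2]
    simp [List.getElem?_take, hi]
  have hdeg := high _ hc' _ _ i1 5 d1
  have hlow := low _ hc' _ _ i2 10 (by
    intro i hi
    rw [d2 i (by omega)]
    interval_cases i <;> simp) 10 le_rfl
  have term : ∀ k, 0 ≤ 3 * (C (7 ^ 20 * c k) * PP (1 + X) (X ^ 4) (E k) ^ 2).coeff 20
      - (C (7 ^ 20 * c k) * PP (1 + X) (X ^ 4) (E k) ^ 2).coeff 21 := by
    intro k
    by_cases h0 : 7 ^ 20 * c k = 0
    · simp [h0]
    by_cases hl : ∀ p ∈ E k, p.1 ≠ p.2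
    swap
    · simp [L0 _ _ _ hl]
    have a1 := hdeg k h0
    rw [(L1 _ hl).2] at a1
    obtain ⟨R, h1, h2, h3⟩ := L2 _ hl
    have a2 := hlow k h0
    set v := 4 * ((E k).map jj).sum + ((E k).map aa).sum with hv
    have hv10 : 10 ≤ v := by
      by_contra hlt
      have : X ^ (v + 1) ∣ X ^ v * R := by
        rw [← h1]; exact (pow_dvd_pow X (by omega)).trans a2
      rw [pow_succ, mul_dvd_mul_iff_left (pow_ne_zero _ X_ne_zero), X_dvd_iff] at this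
      exact h2 this
    rw [h1, coeff_C_mul, coeff_C_mul, mul_pow, ← pow_mul, coeff_X_pow_mul', coeff_X_pow_mul']
    by_cases hv' : v = 10
    · have hb : (((E k).map bb).sum : ℝ) ≤ 3 := by
        have : ((E k).map bb).sum ≤ 3 := by omega
        exact_mod_cast this
      rw [hv']
      norm_num
      rw [pow_two, mul_coeff_one, mul_coeff_zero]
      have h4 := hc' k
      have h5 : R.coeff 0 * R.coeff 1 + R.coeff 1 * R.coeff 0
          = (((E k).map bb).sum : ℝ) * (R.coeff 0 * R.coeff 0) := by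
        linear_combination R.coeff 0 * h3
      rw [h5]
      have h6 := mul_self_nonneg (R.coeff 0)
      have h7 := mul_le_mul_of_nonneg_right hb h6
      have h8 := mul_le_mul_of_nonneg_left h7 h4
      norm_num at h8 ⊢
      linarith
    · rw [if_neg (by omega), if_neg (by omega)]; simp
  have hs := Finset.sum_nonneg fun k (_ : k ∈ Finset.univ) => term k
  rw [Finset.sum_sub_distrib, ← Finset.mul_sum, ← finsetSum_coeff, ← finsetSum_coeff, ← i2,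
    d2 20 (by norm_num), d2 21 (by norm_num)] at hs
  norm_num at hs

end Pool.Agent.H50.DiscD
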