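import Mathlib

set_option autoImplicit false

namespace Pool.Agent.H50.Dress

def tab : ℕ := 279095111627852376407822673918065072906708122163311893103354461712884642363090634770327750876793747220276258187715996991742583815560830098162806241691852769415905238323804626075138183870087239443583555622619859198151283290791496293770551558080158114983491586230568532413288659768965505017028384764507733261834650749193695446527467585721058529992010345272525757500566175101238944710448066625133546980979779083381912197035095049340271878427233517137006350455135873722197344012943042927425265836812521921610818401725377960473993190070980444160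

def tb (m : ℕ) : ℕ := (tab >>> (4 * m)) % 16

def code (B : Finset (Fin 9)) : ℕ := ∑ i ∈ B, 2 ^ (i : ℕ)

def unc (m : ℕ) : Finset (Fin 9) := Finset.univ.filter (fun i => m / 2 ^ (i : ℕ) % 2 = 1)

def LL : List ℕ := [7, 11, 19, 35, 67, 131, 259, 13, 21, 37, 69, 133, 261, 25, 41, 73, 137, 265, 49, 81, 145, 273, 97, 161, 289, 193, 321, 385, 14, 22, 38, 70, 134, 262, 26, 42, 74, 138, 266, 50, 82, 146, 274, 98, 162, 290, 194, 322, 386, 28, 44, 76, 140, 268, 52, 84, 148, 276, 100, 164, 292, 196, 324, 388, 56, 88, 152, 280, 104, 168, 296, 200, 328, 392, 112, 176, 304, 208, 336, 400, 224, 352, 416, 448]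

noncomputable def W (B : Finset (Fin 9)) : ℝ := (tb (code B) : ℝ)

def bit (m i : ℕ) : ℕ := m / 2 ^ i % 2

def cel : List (List ℤ × ℤ) := [([0, -2, 0, -2, -1, 0, -2, 0, -1], 2), ([0, -1, 0, -1, 0, 0, -1, 0, 0], 1), ([0, -1, 1, -1, 0, 0, -1, 1, 0], 0), ([0, 0, 0, 0, 0, 0, 0, 0, 0], 0), ([0, 0, 1, 0, 0, 0, 0, 1, 1], -1), ([0, 1, 1, 0, 0, 0, 1, 1, 1], -2), ([0, 1, 2, 0, 0, 0, 1, 1, 2], -3)]

def Az (c : List ℤ) (m : ℕ) : ℤ := ((List.range 9).map (fun i => (bit m i : ℤ) * c.getD i 0)).sum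

lemma unc_code : ∀ B : Finset (Fin 9), unc (code B) = B := by decide +kernel

lemma code_mem : ∀ B : Finset (Fin 9), B.card = 3 → code B ∈ LL := by decide +kernel

lemma unc_card : ∀ m ∈ LL, (unc m).card = 3 ∧ code (unc m) = m := by decide +kernel

lemma cel_ok : ∀ p ∈ cel, ∀ m ∈ LL, p.2 ≤ (tb m : ℤ) - Az p.1 m := by decide +kernel

noncomputable def Ar (a : Fin 9 → ℝ) (m : ℕ) : ℝ :=
  bit m 0 * a 0 + bit m 1 * a 1 + bit m 2 * a 2 + bit m 3 * a 3 + bit m 4 * a 4 + bit m 5 * a 5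
    + bit m 6 * a 6 + bit m 7 * a 7 + bit m 8 * a 8

lemma sum_unc (a : Fin 9 → ℝ) (m : ℕ) : ∑ i ∈ unc m, a i = Ar a m := by
  have h : ∀ i : Fin 9, (if m / 2 ^ (i : ℕ) % 2 = 1 then a i else 0) = (bit m i : ℝ) * a i := by
    intro i
    unfold bit
    rcases Nat.mod_two_eq_zero_or_one (m / 2 ^ (i : ℕ)) with h | h <;> simp [h]
  unfold unc
  rw [Finset.sum_filter, Finset.sum_congr rfl (fun i _ => h i)]
  simp only [Fin.sum_univ_succ, Fin.sum_univ_zero, Ar]
  simp
  ring

lemma sum_code (a : Fin 9 → ℝ) (B : Finset (Fin 9)) : ∑ i ∈ B, a i = Ar a (code B) := by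
  rw [← sum_unc, unc_code]

lemma Az_cast (c : List ℤ) (m : ℕ) : ((Az c m : ℤ) : ℝ) = Ar (fun i => (c.getD i 0 : ℝ)) m := by
  simp [Az, Ar, List.range_succ]
  ring

def Cell (v : Finset (Fin 9) → ℝ) (c : Fin 9 → ℝ) : Set (Finset (Fin 9)) :=
  {B : Finset (Fin 9) | B.card = 3 ∧ ∀ B' : Finset (Fin 9), B'.card = 3 →
    v B - ∑ i ∈ B, c i ≤ v B' - ∑ i ∈ B', c i}

def ok (k m1 m2 m3 m4 : ℕ) : Bool :=
  let p := cel.getD k ([], 0)
  decide (p ∈ cel) && [m1, m2, m3, m4].all (fun m => decide (m ∈ LL) && decide ((tb m : ℤ) - Az p.1 m = p.2))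
    && (List.range 9).all (fun i => decide (bit m1 i + bit m2 i = bit m3 i + bit m4 i))

lemma eqn (v : Finset (Fin 9) → ℝ) (H : ∀ c, ∃ c', Cell W c ⊆ Cell v c') (k m1 m2 m3 m4 : ℕ)
    (h : ok k m1 m2 m3 m4 = true) : v (unc m1) + v (unc m2) = v (unc m3) + v (unc m4) := by
  unfold ok at h
  simp only [Bool.and_eq_true, decide_eq_true_eq, List.all_eq_true] at h
  obtain ⟨⟨hp, h4⟩, hb⟩ := h
  set p := cel.getD k ([], 0) with hpd
  obtain ⟨c', hc⟩ := H (fun i => (p.1.getD i 0 : ℝ))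
  have key : ∀ m ∈ [m1, m2, m3, m4], ∀ m' ∈ [m1, m2, m3, m4],
      v (unc m) - Ar c' m ≤ v (unc m') - Ar c' m' := by
    intro m hm m' hm'
    have h1 := h4 m hm
    have h2 := h4 m' hm'
    have hin : unc m ∈ Cell W (fun i => (p.1.getD i 0 : ℝ)) := by
      refine ⟨(unc_card m h1.1).1, fun B' hB' => ?_⟩
      have e1 := cel_ok p hp _ (code_mem B' hB')
      rw [sum_code _ B', sum_unc, ← Az_cast, ← Az_cast]
      unfold W
      rw [(unc_card m h1.1).2]
      rw [← h1.2] at e1
      exact_mod_cast e1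
    have := (hc hin).2 (unc m') (unc_card m' h2.1).1
    rwa [sum_unc, sum_unc] at this
  have hA : Ar c' m1 + Ar c' m2 = Ar c' m3 + Ar c' m4 := by
    have hr : ∀ i, i < 9 → (bit m1 i : ℝ) + bit m2 i = bit m3 i + bit m4 i := by
      intro i hi
      exact_mod_cast hb i (List.mem_range.2 hi)
    unfold Ar
    linear_combination c' 0 * hr 0 (by norm_num) + c' 1 * hr 1 (by norm_num) + c' 2 * hr 2 (by norm_num)
      + c' 3 * hr 3 (by norm_num) + c' 4 * hr 4 (by norm_num) + c' 5 * hr 5 (by norm_num)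
      + c' 6 * hr 6 (by norm_num) + c' 7 * hr 7 (by norm_num) + c' 8 * hr 8 (by norm_num)
  have a1 := key m1 (by simp) m3 (by simp)
  have a2 := key m3 (by simp) m1 (by simp)
  have a3 := key m2 (by simp) m4 (by simp)
  have a4 := key m4 (by simp) m2 (by simp)
  linarith

lemma lin (u : ℕ → ℝ) (E : ∀ k m1 m2 m3 m4, ok k m1 m2 m3 m4 = true → u m1 + u m2 = u m3 + u m4) :
    ∃ t a0 a1 a2 a3 a4 a5 a6 a7 a8 : ℝ, ∀ m ∈ LL, u m = t * tb m + (bit m 0 * a0 + bit m 1 * a1 + bit m 2 * a2 + bit m 3 * a3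
      + bit m 4 * a4 + bit m 5 * a5 + bit m 6 * a6 + bit m 7 * a7 + bit m 8 * a8) := by
  have e0 := E 1 7 25 19 13 (by decide +kernel)
  have e1 := E 0 7 41 35 13 (by decide +kernel)
  have e2 := E 3 7 73 11 69 (by decide +kernel)
  have e3 := E 3 7 73 67 13 (by decide +kernel)
  have e4 := E 0 7 137 131 13 (by decide +kernel)
  have e5 := E 1 7 265 259 13 (by decide +kernel)
  have e6 := E 0 7 49 35 21 (by decide +kernel)
  have e7 := E 1 7 81 19 69 (by decide +kernel)
  have e8 := E 0 7 145 131 21 (by decide +kernel)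
  have e9 := E 1 7 273 19 261 (by decide +kernel)
  have e10 := E 1 7 273 259 21 (by decide +kernel)
  have e11 := E 0 7 97 35 69 (by decide +kernel)
  have e12 := E 0 7 161 35 133 (by decide +kernel)
  have e13 := E 0 7 161 131 37 (by decide +kernel)
  have e14 := E 0 7 289 35 261 (by decide +kernel)
  have e15 := E 0 7 193 131 69 (by decide +kernel)
  have e16 := E 1 7 321 259 69 (by decide +kernel)
  have e17 := E 0 7 385 131 261 (by decide +kernel)
  have e18 := E 3 7 26 11 22 (by decide +kernel)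
  have e19 := E 3 7 26 19 14 (by decide +kernel)
  have e20 := E 3 7 42 11 38 (by decide +kernel)
  have e21 := E 3 7 42 35 14 (by decide +kernel)
  have e22 := E 3 7 74 67 14 (by decide +kernel)
  have e23 := E 3 7 138 131 14 (by decide +kernel)
  have e24 := E 3 7 266 259 14 (by decide +kernel)
  have e25 := E 1 7 50 19 38 (by decide +kernel)
  have e26 := E 3 7 82 67 22 (by decide +kernel)
  have e27 := E 1 7 146 131 22 (by decide +kernel)
  have e28 := E 1 7 274 259 22 (by decide +kernel)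
  have e29 := E 3 7 98 67 38 (by decide +kernel)
  have e30 := E 0 7 162 131 38 (by decide +kernel)
  have e31 := E 1 7 290 259 38 (by decide +kernel)
  have e32 := E 5 7 194 67 134 (by decide +kernel)
  have e33 := E 5 7 194 131 70 (by decide +kernel)
  have e34 := E 5 7 322 259 70 (by decide +kernel)
  have e35 := E 4 7 386 259 134 (by decide +kernel)
  have e36 := E 1 7 28 13 22 (by decide +kernel)
  have e37 := E 0 7 44 13 38 (by decide +kernel)
  have e38 := E 3 7 76 69 14 (by decide +kernel)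
  have e39 := E 2 7 140 13 134 (by decide +kernel)
  have e40 := E 4 7 268 261 14 (by decide +kernel)
  have e41 := E 0 7 52 21 38 (by decide +kernel)
  have e42 := E 1 7 84 69 22 (by decide +kernel)
  have e43 := E 2 7 148 21 134 (by decide +kernel)
  have e44 := E 2 7 148 133 22 (by decide +kernel)
  have e45 := E 1 7 276 261 22 (by decide +kernel)
  have e46 := E 0 7 100 69 38 (by decide +kernel)
  have e47 := E 0 7 164 133 38 (by decide +kernel)
  have e48 := E 0 7 292 261 38 (by decide +kernel)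
  have e49 := E 2 7 196 69 134 (by decide +kernel)
  have e50 := E 6 7 324 69 262 (by decide +kernel)
  have e51 := E 6 7 324 261 70 (by decide +kernel)
  have e52 := E 2 7 388 261 134 (by decide +kernel)
  have e53 := E 3 11 56 25 42 (by decide +kernel)
  have e54 := E 3 11 88 25 74 (by decide +kernel)
  have e55 := E 3 11 152 25 138 (by decide +kernel)
  have e56 := E 3 11 280 25 266 (by decide +kernel)
  have e57 := E 3 11 104 41 74 (by decide +kernel)
  have e58 := E 3 11 168 41 138 (by decide +kernel)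
  have e59 := E 3 11 296 41 266 (by decide +kernel)
  have e60 := E 3 11 200 73 138 (by decide +kernel)
  have e61 := E 3 11 328 73 266 (by decide +kernel)
  have e62 := E 4 13 392 137 268 (by decide +kernel)
  have e63 := E 4 13 392 265 140 (by decide +kernel)
  have e64 := E 1 19 112 81 50 (by decide +kernel)
  have e65 := E 1 19 176 49 146 (by decide +kernel)
  have e66 := E 1 19 304 49 274 (by decide +kernel)
  have e67 := E 1 19 208 81 146 (by decide +kernel)
  have e68 := E 1 19 336 81 274 (by decide +kernel)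
  have e69 := E 1 19 400 145 274 (by decide +kernel)
  have e70 := E 0 35 224 97 162 (by decide +kernel)
  have e71 := E 1 35 352 97 290 (by decide +kernel)
  have e72 := E 0 35 416 289 162 (by decide +kernel)
  have e73 := E 5 67 448 193 322 (by decide +kernel)
  refine ⟨(1) * u 11 + (-1) * u 19 + (-1) * u 13 + (1) * u 21, (1/3) * u 7 + (1/3) * u 11 + (1/3) * u 13 + (-2/3) * u 14, (1/3) * u 7 + (1/3) * u 11 + (-2/3) * u 13 + (1/3) * u 14, (1/3) * u 7 + (-2/3) * u 11 + (1/3) * u 13 + (1/3) * u 14, (-2/3) * u 7 + (1/3) * u 11 + (1/3) * u 13 + (1/3) * u 14, (-2/3) * u 7 + (-2/3) * u 11 + (1) * u 19 + (1/3) * u 13 + (1/3) * u 14, (-2/3) * u 7 + (-2/3) * u 11 + (1) * u 35 + (1/3) * u 13 + (1/3) * u 14, (-2/3) * u 7 + (-2/3) * u 11 + (1) * u 67 + (1/3) * u 13 + (1/3) * u 14, (-2/3) * u 7 + (-2/3) * u 11 + (1) * u 131 + (1/3) * u 13 + (1/3) * u 14, (-2/3) * u 7 + (-2/3) * u 11 + (1) * u 259 + (1/3) * u 13 + (1/3) * u 14, ?_⟩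
  have red : ∀ (P : ℕ → ℕ → ℕ → ℕ → ℕ → ℕ → ℕ → ℕ → ℕ → ℕ → ℕ → Prop) (m x b0 b1 b2 b3 b4 b5 b6 b7 b8 : ℕ),
      [tb m, bit m 0, bit m 1, bit m 2, bit m 3, bit m 4, bit m 5, bit m 6, bit m 7, bit m 8] = [x, b0, b1, b2, b3, b4, b5, b6, b7, b8] →
      P m x b0 b1 b2 b3 b4 b5 b6 b7 b8 → P m (tb m) (bit m 0) (bit m 1) (bit m 2) (bit m 3) (bit m 4) (bit m 5) (bit m 6) (bit m 7) (bit m 8) := by
    intro P m x b0 b1 b2 b3 b4 b5 b6 b7 b8 h hP
    simp only [List.cons.injEq, and_true] at h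
    obtain ⟨h0, h1, h2, h3, h4, h5, h6, h7, h8, h9⟩ := h
    rw [h0, h1, h2, h3, h4, h5, h6, h7, h8, h9]
    exact hP
  have red2 := red (fun m x b0 b1 b2 b3 b4 b5 b6 b7 b8 => u m = ((1) * u 11 + (-1) * u 19 + (-1) * u 13 + (1) * u 21) * (x : ℝ) + ((b0 : ℝ) * ((1/3) * u 7 + (1/3) * u 11 + (1/3) * u 13 + (-2/3) * u 14) + (b1 : ℝ) * ((1/3) * u 7 + (1/3) * u 11 + (-2/3) * u 13 + (1/3) * u 14) + (b2 : ℝ) * ((1/3) * u 7 + (-2/3) * u 11 + (1/3) * u 13 + (1/3) * u 14) + (b3 : ℝ) * ((-2/3) * u 7 + (1/3) * u 11 + (1/3) * u 13 + (1/3) * u 14) + (b4 : ℝ) * ((-2/3) * u 7 + (-2/3) * u 11 + (1) * u 19 + (1/3) * u 13 + (1/3) * u 14) + (b5 : ℝ) * ((-2/3) * u 7 + (-2/3) * u 11 + (1) * u 35 + (1/3) * u 13 + (1/3) * u 14) + (b6 : ℝ) * ((-2/3) * u 7 + (-2/3) * u 11 + (1) * u 67 + (1/3) * u 13 + (1/3) * u 14) + (b7 : ℝ) * ((-2/3) * u 7 + (-2/3) * u 11 + (1) * u 131 + (1/3) * u 13 + (1/3) * u 14) + (b8 : ℝ) * ((-2/3) * u 7 + (-2/3) * u 11 + (1) * u 259 + (1/3) * u 13 + (1/3)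 * u 14)))
  simp only [LL, List.forall_mem_cons]
  refine ⟨?_, ?_, ?_, ?_, ?_, ?_, ?_, ?_, ?_, ?_, ?_, ?_, ?_, ?_, ?_, ?_, ?_, ?_, ?_, ?_, ?_, ?_, ?_, ?_, ?_, ?_, ?_, ?_, ?_, ?_, ?_, ?_, ?_, ?_, ?_, ?_, ?_, ?_, ?_, ?_, ?_, ?_, ?_, ?_, ?_, ?_, ?_, ?_, ?_, ?_, ?_, ?_, ?_, ?_, ?_, ?_, ?_, ?_, ?_, ?_, ?_, ?_, ?_, ?_, ?_, ?_, ?_, ?_, ?_, ?_, ?_, ?_, ?_, ?_, ?_, ?_, ?_, ?_, ?_, ?_, ?_, ?_, ?_, ?_, by simp⟩
  · refine red2 7 0 1 1 1 0 0 0 0 0 0 (by decide +kernel) ?_
    push_cast
    ring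
  · refine red2 11 0 1 1 0 1 0 0 0 0 0 (by decide +kernel) ?_
    push_cast
    ring
  · refine red2 19 0 1 1 0 0 1 0 0 0 0 (by decide +kernel) ?_
    push_cast
    ring
  · refine red2 35 0 1 1 0 0 0 1 0 0 0 (by decide +kernel) ?_
    push_cast
    ring
  · refine red2 67 0 1 1 0 0 0 0 1 0 0 (by decide +kernel) ?_
    push_cast
    ring
  · refine red2 131 0 1 1 0 0 0 0 0 1 0 (by decide +kernel) ?_
    push_cast
    ring
  · refine red2 259 0 1 1 0 0 0 0 0 0 1 (by decide +kernel) ?_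
    push_cast
    ring
  · refine red2 13 0 1 0 1 1 0 0 0 0 0 (by decide +kernel) ?_
    push_cast
    ring
  · refine red2 21 1 1 0 1 0 1 0 0 0 0 (by decide +kernel) ?_
    push_cast
    ring
  · refine red2 37 2 1 0 1 0 0 1 0 0 0 (by decide +kernel) ?_
    push_cast
    linear_combination (-1) * e63 + (-1) * e5 + (-1) * e39 + (-1) * e44 + (-1) * e13 + (1) * e12 + (-1) * e19 + (1) * e18 + (1) * e43 + (1) * e62 + (1) * e4 + (1) * e40 + (1) * e10 + (-1) * e9
  · refine red2 69 0 1 0 1 0 0 0 1 0 0 (by decide +kernel) ?_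
    push_cast
    linear_combination (1) * e3 + (-1) * e2
  · refine red2 133 2 1 0 1 0 0 0 0 1 0 (by decide +kernel) ?_
    push_cast
    linear_combination (-1) * e63 + (-1) * e5 + (-1) * e39 + (-1) * e44 + (-1) * e19 + (1) * e18 + (1) * e43 + (1) * e62 + (1) * e4 + (1) * e40 + (1) * e10 + (-1) * e9
  · refine red2 261 1 1 0 1 0 0 0 0 0 1 (by decide +kernel) ?_
    push_cast
    linear_combination (1) * e10 + (-1) * e9
  · refine red2 25 0 1 0 0 1 1 0 0 0 0 (by decide +kernel) ?_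
    push_cast
    linear_combination (1) * e0
  · refine red2 41 0 1 0 0 1 0 1 0 0 0 (by decide +kernel) ?_
    push_cast
    linear_combination (1) * e1
  · refine red2 73 0 1 0 0 1 0 0 1 0 0 (by decide +kernel) ?_
    push_cast
    linear_combination (1) * e3
  · refine red2 137 0 1 0 0 1 0 0 0 1 0 (by decide +kernel) ?_
    push_cast
    linear_combination (1) * e4
  · refine red2 265 0 1 0 0 1 0 0 0 0 1 (by decide +kernel) ?_
    push_cast
    linear_combination (1) * e5
  · refine red2 49 1 1 0 0 0 1 1 0 0 0 (by decide +kernel) ?_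
    push_cast
    linear_combination (1) * e6
  · refine red2 81 0 1 0 0 0 1 0 1 0 0 (by decide +kernel) ?_
    push_cast
    linear_combination (1) * e7 + (1) * e3 + (-1) * e2
  · refine red2 145 1 1 0 0 0 1 0 0 1 0 (by decide +kernel) ?_
    push_cast
    linear_combination (1) * e8
  · refine red2 273 1 1 0 0 0 1 0 0 0 1 (by decide +kernel) ?_
    push_cast
    linear_combination (1) * e10
  · refine red2 97 0 1 0 0 0 0 1 1 0 0 (by decide +kernel) ?_
    push_cast
    linear_combination (1) * e11 + (1) * e3 + (-1) * e2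
  · refine red2 161 2 1 0 0 0 0 1 0 1 0 (by decide +kernel) ?_
    push_cast
    linear_combination (1) * e12 + (-1) * e63 + (-1) * e5 + (-1) * e39 + (-1) * e44 + (-1) * e19 + (1) * e18 + (1) * e43 + (1) * e62 + (1) * e4 + (1) * e40 + (1) * e10 + (-1) * e9
  · refine red2 289 1 1 0 0 0 0 1 0 0 1 (by decide +kernel) ?_
    push_cast
    linear_combination (1) * e14 + (1) * e10 + (-1) * e9
  · refine red2 193 0 1 0 0 0 0 0 1 1 0 (by decide +kernel) ?_
    push_cast
    linear_combination (1) * e15 + (1) * e3 + (-1) * e2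
  · refine red2 321 0 1 0 0 0 0 0 1 0 1 (by decide +kernel) ?_
    push_cast
    linear_combination (1) * e16 + (1) * e3 + (-1) * e2
  · refine red2 385 1 1 0 0 0 0 0 0 1 1 (by decide +kernel) ?_
    push_cast
    linear_combination (1) * e17 + (1) * e10 + (-1) * e9
  · refine red2 14 0 0 1 1 1 0 0 0 0 0 (by decide +kernel) ?_
    push_cast
    ring
  · refine red2 22 0 0 1 1 0 1 0 0 0 0 (by decide +kernel) ?_
    push_cast
    linear_combination (1) * e19 + (-1) * e18
  · refine red2 38 0 0 1 1 0 0 1 0 0 0 (by decide +kernel) ?_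
    push_cast
    linear_combination (1) * e21 + (-1) * e20
  · refine red2 70 1 0 1 1 0 0 0 1 0 0 (by decide +kernel) ?_
    push_cast
    linear_combination (-1) * e33 + (1) * e32 + (-1) * e63 + (-1) * e5 + (-1) * e39 + (1) * e62 + (1) * e4 + (1) * e40 + (1) * e10 + (-1) * e9
  · refine red2 134 1 0 1 1 0 0 0 0 1 0 (by decide +kernel) ?_
    push_cast
    linear_combination (-1) * e63 + (-1) * e5 + (-1) * e39 + (1) * e62 + (1) * e4 + (1) * e40 + (1) * e10 + (-1) * e9
  · refine red2 262 2 0 1 1 0 0 0 0 0 1 (by decide +kernel) ?_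
    push_cast
    linear_combination (1) * e51 + (2) * e10 + (-2) * e9 + (-1) * e33 + (1) * e32 + (-1) * e50 + (-1) * e3 + (1) * e2 + (-1) * e63 + (-1) * e5 + (-1) * e39 + (1) * e62 + (1) * e4 + (1) * e40
  · refine red2 26 0 0 1 0 1 1 0 0 0 0 (by decide +kernel) ?_
    push_cast
    linear_combination (1) * e19
  · refine red2 42 0 0 1 0 1 0 1 0 0 0 (by decide +kernel) ?_
    push_cast
    linear_combination (1) * e21
  · refine red2 74 0 0 1 0 1 0 0 1 0 0 (by decide +kernel) ?_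
    push_cast
    linear_combination (1) * e22
  · refine red2 138 0 0 1 0 1 0 0 0 1 0 (by decide +kernel) ?_
    push_cast
    linear_combination (1) * e23
  · refine red2 266 0 0 1 0 1 0 0 0 0 1 (by decide +kernel) ?_
    push_cast
    linear_combination (1) * e24
  · refine red2 50 0 0 1 0 0 1 1 0 0 0 (by decide +kernel) ?_
    push_cast
    linear_combination (1) * e25 + (1) * e21 + (-1) * e20
  · refine red2 82 0 0 1 0 0 1 0 1 0 0 (by decide +kernel) ?_
    push_cast
    linear_combination (1) * e26 + (1) * e19 + (-1) * e18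
  · refine red2 146 0 0 1 0 0 1 0 0 1 0 (by decide +kernel) ?_
    push_cast
    linear_combination (1) * e27 + (1) * e19 + (-1) * e18
  · refine red2 274 0 0 1 0 0 1 0 0 0 1 (by decide +kernel) ?_
    push_cast
    linear_combination (1) * e28 + (1) * e19 + (-1) * e18
  · refine red2 98 0 0 1 0 0 0 1 1 0 0 (by decide +kernel) ?_
    push_cast
    linear_combination (1) * e29 + (1) * e21 + (-1) * e20
  · refine red2 162 0 0 1 0 0 0 1 0 1 0 (by decide +kernel) ?_
    push_cast
    linear_combination (1) * e30 + (1) * e21 + (-1) * e20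
  · refine red2 290 0 0 1 0 0 0 1 0 0 1 (by decide +kernel) ?_
    push_cast
    linear_combination (1) * e31 + (1) * e21 + (-1) * e20
  · refine red2 194 1 0 1 0 0 0 0 1 1 0 (by decide +kernel) ?_
    push_cast
    linear_combination (1) * e32 + (-1) * e63 + (-1) * e5 + (-1) * e39 + (1) * e62 + (1) * e4 + (1) * e40 + (1) * e10 + (-1) * e9
  · refine red2 322 1 0 1 0 0 0 0 1 0 1 (by decide +kernel) ?_
    push_cast
    linear_combination (1) * e34 + (-1) * e33 + (1) * e32 + (-1) * e63 + (-1) * e5 + (-1) * e39 + (1) * e62 + (1) * e4 + (1) * e40 + (1) * e10 + (-1) * e9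
  · refine red2 386 1 0 1 0 0 0 0 0 1 1 (by decide +kernel) ?_
    push_cast
    linear_combination (1) * e35 + (-1) * e63 + (-1) * e5 + (-1) * e39 + (1) * e62 + (1) * e4 + (1) * e40 + (1) * e10 + (-1) * e9
  · refine red2 28 0 0 0 1 1 1 0 0 0 0 (by decide +kernel) ?_
    push_cast
    linear_combination (1) * e36 + (1) * e19 + (-1) * e18
  · refine red2 44 0 0 0 1 1 0 1 0 0 0 (by decide +kernel) ?_
    push_cast
    linear_combination (1) * e37 + (1) * e21 + (-1) * e20
  · refine red2 76 0 0 0 1 1 0 0 1 0 0 (by decide +kernel) ?_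
    push_cast
    linear_combination (1) * e38 + (1) * e3 + (-1) * e2
  · refine red2 140 1 0 0 1 1 0 0 0 1 0 (by decide +kernel) ?_
    push_cast
    linear_combination (-1) * e63 + (-1) * e5 + (1) * e62 + (1) * e4 + (1) * e40 + (1) * e10 + (-1) * e9
  · refine red2 268 1 0 0 1 1 0 0 0 0 1 (by decide +kernel) ?_
    push_cast
    linear_combination (1) * e40 + (1) * e10 + (-1) * e9
  · refine red2 52 1 0 0 1 0 1 1 0 0 0 (by decide +kernel) ?_
    push_cast
    linear_combination (1) * e41 + (1) * e21 + (-1) * e20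
  · refine red2 84 0 0 0 1 0 1 0 1 0 0 (by decide +kernel) ?_
    push_cast
    linear_combination (1) * e42 + (1) * e3 + (-1) * e2 + (1) * e19 + (-1) * e18
  · refine red2 148 2 0 0 1 0 1 0 0 1 0 (by decide +kernel) ?_
    push_cast
    linear_combination (1) * e43 + (-1) * e63 + (-1) * e5 + (-1) * e39 + (1) * e62 + (1) * e4 + (1) * e40 + (1) * e10 + (-1) * e9
  · refine red2 276 1 0 0 1 0 1 0 0 0 1 (by decide +kernel) ?_
    push_cast
    linear_combination (1) * e45 + (1) * e10 + (-1) * e9 + (1) * e19 + (-1) * e18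
  · refine red2 100 0 0 0 1 0 0 1 1 0 0 (by decide +kernel) ?_
    push_cast
    linear_combination (1) * e46 + (1) * e3 + (-1) * e2 + (1) * e21 + (-1) * e20
  · refine red2 164 2 0 0 1 0 0 1 0 1 0 (by decide +kernel) ?_
    push_cast
    linear_combination (1) * e47 + (1) * e21 + (-1) * e20 + (-1) * e63 + (-1) * e5 + (-1) * e39 + (-1) * e44 + (-1) * e19 + (1) * e18 + (1) * e43 + (1) * e62 + (1) * e4 + (1) * e40 + (1) * e10 + (-1) * e9
  · refine red2 292 1 0 0 1 0 0 1 0 0 1 (by decide +kernel) ?_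
    push_cast
    linear_combination (1) * e48 + (1) * e10 + (-1) * e9 + (1) * e21 + (-1) * e20
  · refine red2 196 1 0 0 1 0 0 0 1 1 0 (by decide +kernel) ?_
    push_cast
    linear_combination (1) * e49 + (1) * e3 + (-1) * e2 + (-1) * e63 + (-1) * e5 + (-1) * e39 + (1) * e62 + (1) * e4 + (1) * e40 + (1) * e10 + (-1) * e9
  · refine red2 324 2 0 0 1 0 0 0 1 0 1 (by decide +kernel) ?_
    push_cast
    linear_combination (1) * e51 + (2) * e10 + (-2) * e9 + (-1) * e33 + (1) * e32 + (-1) * e63 + (-1) * e5 + (-1) * e39 + (1) * e62 + (1) * e4 + (1) * e40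
  · refine red2 388 2 0 0 1 0 0 0 0 1 1 (by decide +kernel) ?_
    push_cast
    linear_combination (1) * e52 + (2) * e10 + (-2) * e9 + (-1) * e63 + (-1) * e5 + (-1) * e39 + (1) * e62 + (1) * e4 + (1) * e40
  · refine red2 56 0 0 0 0 1 1 1 0 0 0 (by decide +kernel) ?_
    push_cast
    linear_combination (1) * e53 + (1) * e0 + (1) * e21
  · refine red2 88 0 0 0 0 1 1 0 1 0 0 (by decide +kernel) ?_
    push_cast
    linear_combination (1) * e54 + (1) * e0 + (1) * e22
  · refine red2 152 0 0 0 0 1 1 0 0 1 0 (by decide +kernel) ?_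
    push_cast
    linear_combination (1) * e55 + (1) * e0 + (1) * e23
  · refine red2 280 0 0 0 0 1 1 0 0 0 1 (by decide +kernel) ?_
    push_cast
    linear_combination (1) * e56 + (1) * e0 + (1) * e24
  · refine red2 104 0 0 0 0 1 0 1 1 0 0 (by decide +kernel) ?_
    push_cast
    linear_combination (1) * e57 + (1) * e1 + (1) * e22
  · refine red2 168 0 0 0 0 1 0 1 0 1 0 (by decide +kernel) ?_
    push_cast
    linear_combination (1) * e58 + (1) * e1 + (1) * e23
  · refine red2 296 0 0 0 0 1 0 1 0 0 1 (by decide +kernel) ?_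
    push_cast
    linear_combination (1) * e59 + (1) * e1 + (1) * e24
  · refine red2 200 0 0 0 0 1 0 0 1 1 0 (by decide +kernel) ?_
    push_cast
    linear_combination (1) * e60 + (1) * e3 + (1) * e23
  · refine red2 328 0 0 0 0 1 0 0 1 0 1 (by decide +kernel) ?_
    push_cast
    linear_combination (1) * e61 + (1) * e3 + (1) * e24
  · refine red2 392 1 0 0 0 1 0 0 0 1 1 (by decide +kernel) ?_
    push_cast
    linear_combination (1) * e62 + (1) * e4 + (1) * e40 + (1) * e10 + (-1) * e9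
  · refine red2 112 0 0 0 0 0 1 1 1 0 0 (by decide +kernel) ?_
    push_cast
    linear_combination (1) * e64 + (1) * e7 + (1) * e3 + (-1) * e2 + (1) * e25 + (1) * e21 + (-1) * e20
  · refine red2 176 1 0 0 0 0 1 1 0 1 0 (by decide +kernel) ?_
    push_cast
    linear_combination (1) * e65 + (1) * e6 + (1) * e27 + (1) * e19 + (-1) * e18
  · refine red2 304 1 0 0 0 0 1 1 0 0 1 (by decide +kernel) ?_
    push_cast
    linear_combination (1) * e66 + (1) * e6 + (1) * e28 + (1) * e19 + (-1) * e18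
  · refine red2 208 0 0 0 0 0 1 0 1 1 0 (by decide +kernel) ?_
    push_cast
    linear_combination (1) * e67 + (1) * e7 + (1) * e3 + (-1) * e2 + (1) * e27 + (1) * e19 + (-1) * e18
  · refine red2 336 0 0 0 0 0 1 0 1 0 1 (by decide +kernel) ?_
    push_cast
    linear_combination (1) * e68 + (1) * e7 + (1) * e3 + (-1) * e2 + (1) * e28 + (1) * e19 + (-1) * e18
  · refine red2 400 1 0 0 0 0 1 0 0 1 1 (by decide +kernel) ?_
    push_cast
    linear_combination (1) * e69 + (1) * e8 + (1) * e28 + (1) * e19 + (-1) * e18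
  · refine red2 224 0 0 0 0 0 0 1 1 1 0 (by decide +kernel) ?_
    push_cast
    linear_combination (1) * e70 + (1) * e11 + (1) * e3 + (-1) * e2 + (1) * e30 + (1) * e21 + (-1) * e20
  · refine red2 352 0 0 0 0 0 0 1 1 0 1 (by decide +kernel) ?_
    push_cast
    linear_combination (1) * e71 + (1) * e11 + (1) * e3 + (-1) * e2 + (1) * e31 + (1) * e21 + (-1) * e20
  · refine red2 416 1 0 0 0 0 0 1 0 1 1 (by decide +kernel) ?_
    push_cast
    linear_combination (1) * e72 + (1) * e14 + (1) * e10 + (-1) * e9 + (1) * e30 + (1) * e21 + (-1) * e20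
  · refine red2 448 1 0 0 0 0 0 0 1 1 1 (by decide +kernel) ?_
    push_cast
    linear_combination (1) * e73 + (1) * e15 + (1) * e3 + (-1) * e2 + (1) * e34 + (-1) * e33 + (1) * e32 + (-1) * e63 + (-1) * e5 + (-1) * e39 + (1) * e62 + (1) * e4 + (1) * e40 + (1) * e10 + (-1) * e9

lemma rigid (v : Finset (Fin 9) → ℝ) (H : ∀ c, ∃ c', Cell W c ⊆ Cell v c') :
    ∃ (t : ℝ) (a : Fin 9 → ℝ), ∀ B : Finset (Fin 9), B.card = 3 → v B = t * W B + ∑ i ∈ B, a i := by
  obtain ⟨t, a0, a1, a2, a3, a4, a5, a6, a7, a8, h⟩ := lin (fun m => v (unc m)) (eqn v H)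
  refine ⟨t, ![a0, a1, a2, a3, a4, a5, a6, a7, a8], fun B hB => ?_⟩
  have := h _ (code_mem B hB)
  simp only [unc_code] at this
  rw [this, sum_code]
  rfl

end Pool.Agent.H50.Dress
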