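import Pool.Agent.H50.Dress

set_option autoImplicit false

namespace Pool.Agent.H50.Dress

def Pl (w : Finset (Fin 9) → ℝ) : Prop :=
  ∀ (S : Finset (Fin 9)) (i j k l : Fin 9), S.card + 2 = 3 →
        i ∉ S → j ∉ S → k ∉ S → l ∉ S →
        i ≠ j → i ≠ k → i ≠ l → j ≠ k → j ≠ l → k ≠ l →
        ((w (insert i (insert j S)) + w (insert k (insert l S))
            = w (insert i (insert k S)) + w (insert j (insert l S)) ∧
          w (insert i (insert j S)) + w (insert k (insert l S))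
            ≤ w (insert i (insert l S)) + w (insert j (insert k S))) ∨
         (w (insert i (insert j S)) + w (insert k (insert l S))
            = w (insert i (insert l S)) + w (insert j (insert k S)) ∧
          w (insert i (insert j S)) + w (insert k (insert l S))
            ≤ w (insert i (insert k S)) + w (insert j (insert l S))) ∨
         (w (insert i (insert k S)) + w (insert j (insert l S))
            = w (insert i (insert l S)) + w (insert j (insert k S)) ∧
          w (insert i (insert k S)) + w (insert j (insert l S))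
            ≤ w (insert i (insert j S)) + w (insert k (insert l S))))

def t3 (i j s : ℕ) : ℕ := tb (2 ^ i + (2 ^ j + 2 ^ s))

def tri (a b c : ℕ) : Bool := (a == b && decide (a ≤ c)) || (a == c && decide (a ≤ b)) || (b == c && decide (b ≤ a))

def chk : Bool :=
  (List.range 9).all fun s => (List.range 9).all fun i => i == s || (List.range 9).all fun j => j == s || j == i ||
    (List.range 9).all fun k => k == s || k == i || k == j || (List.range 9).all fun l =>
      l == s || l == i || l == j || l == k ||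
        tri (t3 i j s + t3 k l s) (t3 i k s + t3 j l s) (t3 i l s + t3 j k s)

lemma chk_ok : chk = true := by decide +kernel

lemma W3 (i j s : Fin 9) (h1 : i ≠ j) (h2 : i ≠ s) (h3 : j ≠ s) :
    W (insert i (insert j {s})) = (t3 i j s : ℝ) := by
  unfold W code t3
  rw [Finset.sum_insert (by simp [h1, h2]), Finset.sum_insert (by simp [h3]), Finset.sum_singleton]

lemma plW : Pl W := by
  intro S i j k l hS hi hj hk hl hij hik hil hjk hjl hkl
  obtain ⟨s, rfl⟩ := Finset.card_eq_one.1 (show S.card = 1 by omega)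
  simp only [Finset.mem_singleton] at hi hj hk hl
  rw [W3 i j s hij hi hj, W3 k l s hkl hk hl, W3 i k s hik hi hk, W3 j l s hjl hj hl, W3 i l s hil hi hl,
    W3 j k s hjk hj hk]
  have h := chk_ok
  simp only [chk, List.all_eq_true, List.mem_range, Bool.or_eq_true, beq_iff_eq] at h
  have ne : ∀ {a b : Fin 9}, a ≠ b → ¬ ((a : ℕ) = b) := fun h e => h (Fin.ext e)
  have h1 := (h s s.2 i i.2).resolve_left (ne hi)
  have h2 := (h1 j j.2).resolve_left (by
    rintro (e | e)
    exacts [ne hj e, ne hij.symm e])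
  have h3 := (h2 k k.2).resolve_left (by
    rintro ((e | e) | e)
    exacts [ne hk e, ne hik.symm e, ne hjk.symm e])
  have h4 := (h3 l l.2).resolve_left (by
    rintro (((e | e) | e) | e)
    exacts [ne hl e, ne hil.symm e, ne hjl.symm e, ne hkl.symm e])
  simp only [tri, Bool.or_eq_true, Bool.and_eq_true, beq_iff_eq, decide_eq_true_eq] at h4
  rcases h4 with (h4 | h4) | h4
  · left
    exact ⟨by exact_mod_cast h4.1, by exact_mod_cast h4.2⟩
  · right; left
    exact ⟨by exact_mod_cast h4.1, by exact_mod_cast h4.2⟩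
  · right; right
    exact ⟨by exact_mod_cast h4.1, by exact_mod_cast h4.2⟩

lemma gap1 (v : Finset (Fin 9) → ℝ) (t : ℝ) (a : Fin 9 → ℝ)
    (h : ∀ B : Finset (Fin 9), B.card = 3 → v B = t * W B + ∑ i ∈ B, a i) :
    v {1, 3, 0} + v {2, 4, 0} = v {1, 2, 0} + v {3, 4, 0} + t ∧
    v {1, 4, 0} + v {2, 3, 0} = v {1, 2, 0} + v {3, 4, 0} := by
  rw [h _ (by decide), h {2, 4, 0} (by decide), h {1, 2, 0} (by decide), h {3, 4, 0} (by decide),
    h {1, 4, 0} (by decide), h {2, 3, 0} (by decide)]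
  rw [W3 _ _ _ (by decide) (by decide) (by decide), W3 _ _ _ (by decide) (by decide) (by decide),
    W3 _ _ _ (by decide) (by decide) (by decide), W3 _ _ _ (by decide) (by decide) (by decide),
    W3 _ _ _ (by decide) (by decide) (by decide), W3 _ _ _ (by decide) (by decide) (by decide)]
  have e1 : t3 (1 : Fin 9) (3 : Fin 9) (0 : Fin 9) + t3 (2 : Fin 9) (4 : Fin 9) (0 : Fin 9)
      = t3 (1 : Fin 9) (2 : Fin 9) (0 : Fin 9) + t3 (3 : Fin 9) (4 : Fin 9) (0 : Fin 9) + 1 := by decide +kernel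
  have e2 : t3 (1 : Fin 9) (4 : Fin 9) (0 : Fin 9) + t3 (2 : Fin 9) (3 : Fin 9) (0 : Fin 9)
      = t3 (1 : Fin 9) (2 : Fin 9) (0 : Fin 9) + t3 (3 : Fin 9) (4 : Fin 9) (0 : Fin 9) := by decide +kernel
  have f1 := congrArg (Nat.cast : ℕ → ℝ) e1
  have f2 := congrArg (Nat.cast : ℕ → ℝ) e2
  push_cast at f1 f2
  repeat rw [Finset.sum_insert (by decide)]
  simp only [Finset.sum_singleton]
  constructor
  · linear_combination t * f1
  · linear_combination t * f2

lemma gap3 (v : Finset (Fin 9) → ℝ) (t : ℝ) (a : Fin 9 → ℝ)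
    (h : ∀ B : Finset (Fin 9), B.card = 3 → v B = t * W B + ∑ i ∈ B, a i) :
    v {0, 5, 2} + v {1, 6, 2} = v {0, 1, 2} + v {5, 6, 2} + 3 * t := by
  rw [h _ (by decide), h {1, 6, 2} (by decide), h {0, 1, 2} (by decide), h {5, 6, 2} (by decide)]
  rw [W3 _ _ _ (by decide) (by decide) (by decide), W3 _ _ _ (by decide) (by decide) (by decide),
    W3 _ _ _ (by decide) (by decide) (by decide), W3 _ _ _ (by decide) (by decide) (by decide)]
  have e1 : t3 (0 : Fin 9) (5 : Fin 9) (2 : Fin 9) + t3 (1 : Fin 9) (6 : Fin 9) (2 : Fin 9)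
      = t3 (0 : Fin 9) (1 : Fin 9) (2 : Fin 9) + t3 (5 : Fin 9) (6 : Fin 9) (2 : Fin 9) + 3 := by decide +kernel
  have f1 := congrArg (Nat.cast : ℕ → ℝ) e1
  push_cast at f1
  repeat rw [Finset.sum_insert (by decide)]
  simp only [Finset.sum_singleton]
  linear_combination t * f1

lemma nontriv : ¬ ∃ c : Fin 9 → ℝ, ∀ B : Finset (Fin 9), B.card = 3 →
    ∀ B' : Finset (Fin 9), B'.card = 3 → W B - ∑ i ∈ B, c i ≤ W B' - ∑ i ∈ B', c i := by
  rintro ⟨c, hc⟩
  have g := (gap1 W 1 0 (fun B _ => by simp)).1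
  have a1 := hc {1, 3, 0} (by decide) {1, 2, 0} (by decide)
  have a2 := hc {2, 4, 0} (by decide) {3, 4, 0} (by decide)
  repeat rw [Finset.sum_insert (by decide)] at a1
  repeat rw [Finset.sum_insert (by decide)] at a2
  simp only [Finset.sum_singleton] at a1 a2
  linarith

lemma cell_scale (v : Finset (Fin 9) → ℝ) (t : ℝ) (a : Fin 9 → ℝ) (ht : 0 < t)
    (h : ∀ B : Finset (Fin 9), B.card = 3 → v B = t * W B + ∑ i ∈ B, a i) (c : Fin 9 → ℝ) :
    Cell W c = Cell v (fun i => t * c i + a i) := by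
  have key : ∀ B : Finset (Fin 9), B.card = 3 →
      v B - ∑ i ∈ B, (t * c i + a i) = t * (W B - ∑ i ∈ B, c i) := by
    intro B hB
    rw [h B hB, Finset.sum_add_distrib, ← Finset.mul_sum]
    ring
  ext B
  constructor
  · rintro ⟨hB, h2⟩
    refine ⟨hB, fun B' hB' => ?_⟩
    rw [key B hB, key B' hB']
    exact mul_le_mul_of_nonneg_left (h2 B' hB') ht.le
  · rintro ⟨hB, h2⟩
    refine ⟨hB, fun B' hB' => ?_⟩
    have := h2 B' hB'
    rw [key B hB, key B' hB'] at this
    exact le_of_mul_le_mul_left this ht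

lemma coarsest (v : Finset (Fin 9) → ℝ) (hv : Pl v) (H : ∀ c, ∃ c', Cell W c ⊆ Cell v c') :
    (∃ c : Fin 9 → ℝ, ∀ B : Finset (Fin 9), B.card = 3 →
      ∀ B' : Finset (Fin 9), B'.card = 3 → v B - ∑ i ∈ B, c i ≤ v B' - ∑ i ∈ B', c i) ∨
    ((∀ c, ∃ c', Cell W c = Cell v c') ∧ (∀ c, ∃ c', Cell v c = Cell W c')) := by
  obtain ⟨t, a, h⟩ := rigid v H
  rcases lt_trichotomy t 0 with ht | ht | ht
  · exfalso
    obtain ⟨g1, g2⟩ := gap1 v t a h
    have := hv {0} 1 2 3 4 (by decide) (by decide) (by decide) (by decide) (by decide) (by decide) (by decide)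
      (by decide) (by decide) (by decide) (by decide)
    rcases this with e | e | e
    · linarith [e.1]
    · linarith [e.2]
    · linarith [e.1]
  · left
    refine ⟨a, fun B hB B' hB' => ?_⟩
    rw [h B hB, h B' hB', ht]
    simp
  · right
    refine ⟨fun c => ⟨_, cell_scale v t a ht h c⟩, fun c => ⟨fun i => (c i - a i) / t, ?_⟩⟩
    rw [cell_scale v t a ht h]
    congr 1
    funext i
    field_simp
    ring

lemma rk_le (M : Matroid (Fin 9)) (hM : M.eRank = 3) (X Y : Finset (Fin 9)) (e : Fin 9) (h : X ⊆ insert e Y) :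
    ((M.eRk (X : Set (Fin 9))).toNat : ℤ) ≤ (M.eRk (Y : Set (Fin 9))).toNat + 1 := by
  have h1 : M.eRk (X : Set (Fin 9)) ≤ M.eRk (Y : Set (Fin 9)) + 1 := by
    refine le_trans (M.eRk_mono ?_) (M.eRk_insert_le_add_one e _)
    exact_mod_cast h
  have h2 : M.eRk (Y : Set (Fin 9)) ≠ ⊤ := by
    refine ne_top_of_le_ne_top (b := 3) (by decide) ?_
    rw [← hM]
    exact M.eRk_le_eRank _
  have h3 : M.eRk (X : Set (Fin 9)) ≠ ⊤ := by
    refine ne_top_of_le_ne_top (b := 3) (by decide) ?_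
    rw [← hM]
    exact M.eRk_le_eRank _
  obtain ⟨x, hx⟩ := ENat.ne_top_iff_exists.1 h3
  obtain ⟨y, hy⟩ := ENat.ne_top_iff_exists.1 h2
  rw [← hx, ← hy] at h1 ⊢
  simp only [ENat.toNat_natCast]
  exact_mod_cast h1

lemma notcorank (M : Matroid (Fin 9)) (hM : M.eRank = 3)
    (H1 : ∀ c, ∃ c', Cell W c = Cell (fun B => (3 : ℝ) - ((M.eRk (B : Set (Fin 9))).toNat : ℝ)) c')
    (H2 : ∀ c, ∃ c', Cell (fun B => (3 : ℝ) - ((M.eRk (B : Set (Fin 9))).toNat : ℝ)) c = Cell W c') : False := by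
  obtain ⟨t, a, h⟩ := rigid _ (fun c => (H1 c).imp fun _ e => e.subset)
  have g1 := (gap1 _ t a h).1
  have g3 := gap3 _ t a h
  obtain ⟨z, hz⟩ : ∃ z : ℤ, t = z := by
    refine ⟨(M.eRk (({1, 2, 0} : Finset (Fin 9)) : Set (Fin 9))).toNat + (M.eRk (({3, 4, 0} : Finset (Fin 9)) : Set (Fin 9))).toNat
      - (M.eRk (({1, 3, 0} : Finset (Fin 9)) : Set (Fin 9))).toNat - (M.eRk (({2, 4, 0} : Finset (Fin 9)) : Set (Fin 9))).toNat, ?_⟩
    simp only [Int.cast_sub, Int.cast_add, Int.cast_natCast]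
    linarith
  have r1 := rk_le M hM {0, 5, 2} {0, 1, 2} 5 (by decide)
  have r2 := rk_le M hM {1, 6, 2} {5, 6, 2} 1 (by decide)
  have r3 := rk_le M hM {0, 1, 2} {0, 5, 2} 1 (by decide)
  have r4 := rk_le M hM {5, 6, 2} {1, 6, 2} 5 (by decide)
  have g4 : ((M.eRk (({0, 1, 2} : Finset (Fin 9)) : Set (Fin 9))).toNat : ℤ) + (M.eRk (({5, 6, 2} : Finset (Fin 9)) : Set (Fin 9))).toNat
      = (M.eRk (({0, 5, 2} : Finset (Fin 9)) : Set (Fin 9))).toNat + (M.eRk (({1, 6, 2} : Finset (Fin 9)) : Set (Fin 9))).toNat + 3 * z := by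
    have : (((M.eRk (({0, 1, 2} : Finset (Fin 9)) : Set (Fin 9))).toNat : ℤ) : ℝ) + (((M.eRk (({5, 6, 2} : Finset (Fin 9)) : Set (Fin 9))).toNat : ℤ) : ℝ)
      = (((M.eRk (({0, 5, 2} : Finset (Fin 9)) : Set (Fin 9))).toNat : ℤ) : ℝ) + (((M.eRk (({1, 6, 2} : Finset (Fin 9)) : Set (Fin 9))).toNat : ℤ) : ℝ) + 3 * (z : ℝ) := by
      simp only [Int.cast_natCast]
      linarith
    exact_mod_cast this
  have z0 : z = 0 := by omega
  have t0 : t = 0 := by rw [hz, z0]; simp
  obtain ⟨c', hc⟩ := H2 a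
  refine nontriv ⟨c', fun B hB => ?_⟩
  have : B ∈ Cell W c' := by
    rw [← hc]
    refine ⟨hB, fun B' hB' => ?_⟩
    beta_reduce
    rw [h B hB, h B' hB', t0]
    simp
  exact this.2

end Pool.Agent.H50.Dress
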