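import Mathlib
import Pool.Agent.H50.CM

set_option linter.unusedSectionVars false

namespace Pool.Agent.H50.Symb

open Pool.Agent.H50.CM

variable {R : Type} [CommRing R] [Algebra ℂ R] (σ : R →ₐ[ℂ] R)

def St (N : Ideal R) : Prop := ∀ x ∈ N, σ x ∈ N

structure Cl (J N1 N2 : Ideal R) : Prop where
  le : N2 ≤ N1
  s1 : St σ N1
  s2 : St σ N2
  k : ∀ j ∈ J, ∀ x ∈ N1, j * x ∈ N2

structure Good (D : Ideal R → Ideal R → ℂ) (J : Ideal R) : Prop where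
  add : ∀ N1 N2 N3, Cl σ J N1 N3 → St σ N2 → N3 ≤ N2 → N2 ≤ N1 → D N1 N3 = D N1 N2 + D N2 N3
  mul : ∀ (b : R) (μ : ℂ), σ b = μ • b → ∀ U V U' V', Cl σ J U V → Cl σ J U' V' →
    (∀ x ∈ U, b * x ∈ U') → (∀ y ∈ U', ∃ x ∈ U, y - b * x ∈ V') →
    (∀ x ∈ U, b * x ∈ V' ↔ x ∈ V) → D U' V' = μ * D U V

def A (a : R) (N1 N2 : Ideal R) : Ideal R := N2 ⊔ Ideal.span {a} * N1

def K (a : R) (N1 N2 : Ideal R) : Ideal R := N1 ⊓ N2.colon {a}

theorem mem_A {a x : R} {N1 N2 : Ideal R} : x ∈ A a N1 N2 ↔ ∃ n ∈ N1, x - a * n ∈ N2 := by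
  rw [A, Submodule.mem_sup]
  constructor
  · rintro ⟨n, hn, z, hz, rfl⟩
    obtain ⟨c, hc, rfl⟩ := Ideal.mem_span_singleton_mul.1 hz
    exact ⟨c, hc, by simpa using hn⟩
  · rintro ⟨c, hc, h⟩
    exact ⟨_, h, a * c, Ideal.mem_span_singleton_mul.2 ⟨c, hc, rfl⟩, by ring⟩

theorem mem_K {a x : R} {N1 N2 : Ideal R} : x ∈ K a N1 N2 ↔ x ∈ N1 ∧ a * x ∈ N2 := by
  rw [K, Submodule.mem_inf, Submodule.mem_colon_singleton, smul_eq_mul, mul_comm]

theorem le_A {a : R} {N1 N2 : Ideal R} : N2 ≤ A a N1 N2 := le_sup_left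

theorem A_le {a : R} {N1 N2 : Ideal R} (h : N2 ≤ N1) : A a N1 N2 ≤ N1 :=
  sup_le h Ideal.mul_le_right

theorem K_le {a : R} {N1 N2 : Ideal R} : K a N1 N2 ≤ N1 := inf_le_left

theorem le_K {a : R} {N1 N2 : Ideal R} (h : N2 ≤ N1) : N2 ≤ K a N1 N2 :=
  fun _ hx => mem_K.2 ⟨h hx, N2.mul_mem_left _ hx⟩

variable {σ}

theorem St.sup {N1 N2 : Ideal R} (h1 : St σ N1) (h2 : St σ N2) : St σ (N1 ⊔ N2) := by
  intro x hx
  obtain ⟨y, hy, z, hz, rfl⟩ := Submodule.mem_sup.1 hx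
  rw [map_add]
  exact Submodule.add_mem_sup (h1 y hy) (h2 z hz)

theorem St.inf {N1 N2 : Ideal R} (h1 : St σ N1) (h2 : St σ N2) : St σ (N1 ⊓ N2) :=
  fun x hx => ⟨h1 x hx.1, h2 x hx.2⟩

theorem St.A {a : R} {μ : ℂ} (ha : σ a = μ • a) {N1 N2 : Ideal R} (h1 : St σ N1)
    (h2 : St σ N2) : St σ (A a N1 N2) := by
  intro x hx
  obtain ⟨n, hn, h⟩ := mem_A.1 hx
  refine mem_A.2 ⟨μ • σ n, N1.smul_of_tower_mem μ (h1 n hn), ?_⟩
  have := h2 _ h
  rwa [map_sub, map_mul, ha, smul_mul_assoc, ← mul_smul_comm] at this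

theorem St.K {a : R} {μ : ℂ} (ha : σ a = μ • a) (hμ : μ ≠ 0) {N1 N2 : Ideal R} (h1 : St σ N1)
    (h2 : St σ N2) : St σ (K a N1 N2) := by
  intro x hx
  obtain ⟨hn, h⟩ := mem_K.1 hx
  refine mem_K.2 ⟨h1 x hn, ?_⟩
  have := N2.smul_of_tower_mem μ⁻¹ (h2 _ h)
  rwa [map_mul, ha, smul_mul_assoc, smul_smul, inv_mul_cancel₀ hμ, one_smul] at this

theorem Cl.sub {J N1 N3 U V : Ideal R} (h : Cl σ J N1 N3) (hU : St σ U) (hV : St σ V)
    (h1 : N3 ≤ V) (h2 : V ≤ U) (h3 : U ≤ N1) : Cl σ J U V :=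
  ⟨h2, hU, hV, fun j hj x hx => h1 (h.k j hj x (h3 hx))⟩

theorem Cl.A {a : R} {μ : ℂ} (ha : σ a = μ • a) {J N1 N2 : Ideal R} (h : Cl σ J N1 N2) :
    Cl σ (J ⊔ Ideal.span {a}) N1 (A a N1 N2) := by
  refine ⟨A_le h.le, h.s1, St.A ha h.s1 h.s2, fun j hj x hx => ?_⟩
  obtain ⟨y, hy, z, hz, rfl⟩ := Submodule.mem_sup.1 hj
  obtain ⟨c, rfl⟩ := Ideal.mem_span_singleton'.1 hz
  refine mem_A.2 ⟨c * x, N1.mul_mem_left c hx, ?_⟩
  have e : (y + c * a) * x - a * (c * x) = y * x := by ring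
  rw [e]
  exact h.k y hy x hx

theorem Cl.K {a : R} {μ : ℂ} (ha : σ a = μ • a) (hμ : μ ≠ 0) {J N1 N2 : Ideal R}
    (h : Cl σ J N1 N2) : Cl σ (J ⊔ Ideal.span {a}) (K a N1 N2) N2 := by
  refine ⟨le_K h.le, St.K ha hμ h.s1 h.s2, h.s2, fun j hj x hx => ?_⟩
  obtain ⟨y, hy, z, hz, rfl⟩ := Submodule.mem_sup.1 hj
  obtain ⟨c, rfl⟩ := Ideal.mem_span_singleton'.1 hz
  obtain ⟨h1, h2⟩ := mem_K.1 hx
  rw [add_mul, mul_assoc]
  exact N2.add_mem (h.k y hy x h1) (N2.mul_mem_left c h2)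

theorem Cl.mono {J J' N1 N2 : Ideal R} (h : Cl σ J' N1 N2) (hJ : J ≤ J') : Cl σ J N1 N2 :=
  ⟨h.le, h.s1, h.s2, fun j hj => h.k j (hJ hj)⟩

noncomputable def step (a : R) (μ : ℂ) (D : Ideal R → Ideal R → ℂ) (N1 N2 : Ideal R) : ℂ :=
  D N1 (A a N1 N2) - μ * D (K a N1 N2) N2

theorem Good.step {a : R} {μ : ℂ} (ha : σ a = μ • a) (hμ : μ ≠ 0) {D : Ideal R → Ideal R → ℂ}
    {J : Ideal R} (h : Good σ D (J ⊔ Ideal.span {a})) : Good σ (step a μ D) J := by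
  have h1 : σ 1 = (1 : ℂ) • (1 : R) := by simp
  constructor
  · intro N1 N2 N3 c13 s2 l32 l21
    have c12 : Cl σ J N1 N2 := c13.sub c13.s1 s2 l32 l21 le_rfl
    have c23 : Cl σ J N2 N3 := c13.sub s2 c13.s2 le_rfl l32 l21
    have a13 := c13.A ha
    have a12 := c12.A ha
    have a23 := c23.A ha
    have k13 := c13.K ha hμ
    have k12 := c12.K ha hμ
    have k23 := c23.K ha hμ
    have m1 : A a N1 N3 ≤ A a N1 N2 := sup_le_sup_right l32 _
    have m2 : A a N2 N3 ≤ N2 ⊓ A a N1 N3 :=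
      le_inf a23.le (sup_le_sup_left (Ideal.mul_mono_right l21) _)
    have m3 : K a N1 N3 ≤ K a N1 N2 := fun x hx =>
      mem_K.2 ⟨(mem_K.1 hx).1, l32 (mem_K.1 hx).2⟩
    have m4 : K a N2 N3 ≤ K a N1 N3 := fun x hx =>
      mem_K.2 ⟨l21 (mem_K.1 hx).1, (mem_K.1 hx).2⟩
    have sP : St σ (N2 ⊓ A a N1 N3) := s2.inf a13.s2
    have sQ : St σ (N2 ⊔ K a N1 N3) := s2.sup k13.s1
    have e1 := h.add _ _ _ a13 a12.s2 m1 a12.le
    have e2 := h.mul 1 1 h1 N2 (N2 ⊓ A a N1 N3) (A a N1 N2) (A a N1 N3)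
      (a23.sub s2 sP m2 inf_le_left le_rfl) (a13.sub a12.s2 a13.s2 le_rfl m1 a12.le)
      (fun x hx => by rw [one_mul]; exact le_A hx)
      (fun y hy => by
        obtain ⟨n, hn, hy⟩ := mem_A.1 hy
        exact ⟨_, hy, mem_A.2 ⟨n, hn, by simp⟩⟩)
      (fun x hx => by rw [one_mul]; exact ⟨fun h => ⟨hx, h⟩, fun h => h.2⟩)
    have e3 := h.add _ _ _ a23 sP m2 inf_le_left
    have e4 := h.mul a μ ha (K a N1 N2) (N2 ⊔ K a N1 N3) (N2 ⊓ A a N1 N3) (A a N2 N3)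
      (k12.sub k12.s1 sQ le_sup_left (sup_le k12.le m3) le_rfl)
      (a23.sub sP a23.s2 le_rfl m2 inf_le_left)
      (fun x hx => ⟨(mem_K.1 hx).2, mem_A.2 ⟨x, (mem_K.1 hx).1, by simp⟩⟩)
      (fun y hy => by
        obtain ⟨n, hn, h2⟩ := mem_A.1 hy.2
        refine ⟨n, mem_K.2 ⟨hn, ?_⟩, le_A h2⟩
        have := N2.sub_mem hy.1 (l32 h2)
        simpa using this)
      (fun x hx => by
        constructor
        · intro h2
          obtain ⟨n, hn, h2⟩ := mem_A.1 h2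
          refine Submodule.mem_sup.2 ⟨n, hn, x - n, mem_K.2
            ⟨N1.sub_mem (mem_K.1 hx).1 (l21 hn), by rwa [mul_sub]⟩, by ring⟩
        · intro h2
          obtain ⟨n, hn, z, hz, rfl⟩ := Submodule.mem_sup.1 h2
          exact mem_A.2 ⟨n, hn, by simpa [mul_add] using (mem_K.1 hz).2⟩)
    have e5 := h.add _ _ _ k12 sQ le_sup_left (sup_le k12.le m3)
    have e6 := h.mul 1 1 h1 (K a N1 N3) (K a N2 N3) (N2 ⊔ K a N1 N3) N2
      (k13.sub k13.s1 k23.s1 k23.le m4 le_rfl)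
      (k12.sub sQ s2 le_rfl le_sup_left (sup_le k12.le m3))
      (fun x hx => by rw [one_mul]; exact Submodule.mem_sup_right hx)
      (fun y hy => by
        obtain ⟨n, hn, z, hz, rfl⟩ := Submodule.mem_sup.1 hy
        exact ⟨z, hz, by simpa using hn⟩)
      (fun x hx => by
        rw [one_mul]
        exact ⟨fun h => mem_K.2 ⟨h, (mem_K.1 hx).2⟩, fun h => (mem_K.1 h).1⟩)
    have e7 := h.add _ _ _ k13 k23.s1 k23.le m4
    simp only [Symb.step]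
    rw [e1, e2, e3, e4, e5, e6, e7]
    ring
  · intro b ν hb U V U' V' c c' p1 p2 p3
    have e1 := h.mul b ν hb U (A a U V) U' (A a U' V') (c.A ha) (c'.A ha) p1
      (fun y hy => by
        obtain ⟨x, hx, h2⟩ := p2 y hy
        exact ⟨x, hx, le_A h2⟩)
      (fun x hx => by
        constructor
        · intro h2
          obtain ⟨y, hy, h2⟩ := mem_A.1 h2
          obtain ⟨x', hx', h3⟩ := p2 y hy
          refine mem_A.2 ⟨x', hx', (p3 _ (U.sub_mem hx (U.mul_mem_left a hx'))).1 ?_⟩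
          have e : b * (x - a * x') = b * x - a * y + a * (y - b * x') := by ring
          rw [e]
          exact V'.add_mem h2 (V'.mul_mem_left a h3)
        · intro h2
          obtain ⟨x', hx', h2⟩ := mem_A.1 h2
          refine mem_A.2 ⟨b * x', p1 x' hx', ?_⟩
          have e : b * x - a * (b * x') = b * (x - a * x') := by ring
          rw [e]
          exact (p3 _ (U.sub_mem hx (U.mul_mem_left a hx'))).2 h2)
    have e2 := h.mul b ν hb (K a U V) V (K a U' V') V' (c.K ha hμ) (c'.K ha hμ)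
      (fun x hx => mem_K.2 ⟨p1 x (mem_K.1 hx).1, by
        rw [mul_left_comm]
        exact (p3 _ (U.mul_mem_left a (mem_K.1 hx).1)).2 (mem_K.1 hx).2⟩)
      (fun y hy => by
        obtain ⟨x, hx, h2⟩ := p2 y (mem_K.1 hy).1
        refine ⟨x, mem_K.2 ⟨hx, (p3 _ (U.mul_mem_left a hx)).1 ?_⟩, h2⟩
        have e : b * (a * x) = a * y - a * (y - b * x) := by ring
        rw [e]
        exact V'.sub_mem (mem_K.1 hy).2 (V'.mul_mem_left a h2))
      (fun x hx => p3 x (mem_K.1 hx).1)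
    simp only [Symb.step]
    rw [e1, e2]
    ring

theorem Good.step_eq {a : R} {μ : ℂ} (ha : σ a = μ • a) (hμ : μ ≠ 0) {D : Ideal R → Ideal R → ℂ}
    {J N1 N2 : Ideal R} (h : Good σ D J) (c : Cl σ J N1 N2) :
    Symb.step a μ D N1 N2 = (1 - μ) * D N1 N2 := by
  have ca := c.A ha
  have ck := c.K ha hμ
  have e1 := h.add _ _ _ c ca.s2 le_A ca.le
  have e2 := h.add _ _ _ c ck.s1 ck.le K_le
  have e3 := h.mul a μ ha N1 (K a N1 N2) (A a N1 N2) N2 (c.sub c.s1 ck.s1 ck.le K_le le_rfl)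
    (c.sub ca.s2 c.s2 le_rfl le_A ca.le) (fun x hx => mem_A.2 ⟨x, hx, by simp⟩)
    (fun y hy => mem_A.1 hy) (fun x hx => ⟨fun h => mem_K.2 ⟨hx, h⟩, fun h => (mem_K.1 h).2⟩)
  simp only [Symb.step]
  linear_combination -e1 + μ * e2 - e3

noncomputable def E {ι : Type} (a : ι → R) (μ : ι → ℂ) (D : Ideal R → Ideal R → ℂ) :
    List ι → Ideal R → Ideal R → ℂ
  | [] => D
  | i :: s => step (a i) (μ i) (E a μ D s)

section
variable {ι : Type} {a : ι → R} {μ : ι → ℂ} (ha : ∀ i, σ (a i) = μ i • a i) (hμ : ∀ i, μ i ≠ 0)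
include ha hμ

theorem L1 {D : Ideal R → Ideal R → ℂ} : ∀ (s : List ι) (J : Ideal R),
    Good σ D (J ⊔ Ideal.ofList (s.map a)) → Good σ (E a μ D s) J
  | [], J, h => by simpa [E] using h
  | i :: s, J, h => by
    rw [List.map_cons, Ideal.ofList_cons, ← sup_assoc] at h
    exact (L1 s _ h).step (ha i) (hμ i)

theorem L2 {D : Ideal R → Ideal R → ℂ} {J : Ideal R} (h : Good σ D J) :
    ∀ (s : List ι) (N1 N2 : Ideal R), Cl σ J N1 N2 →
      E a μ D s N1 N2 = (s.map fun i => 1 - μ i).prod * D N1 N2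
  | [], N1, N2, c => by simp [E]
  | i :: s, N1, N2, c => by
    have := h.step_eq (ha i) (hμ i) c
    simp only [E, step, List.map_cons, List.prod_cons] at this ⊢
    rw [L2 h s _ _ ((c.A (ha i)).mono le_sup_left), L2 h s _ _ ((c.K (ha i) (hμ i)).mono le_sup_left)]
    linear_combination (s.map fun i => 1 - μ i).prod * this

theorem L3 {D D' : Ideal R → Ideal R → ℂ} (c : ℂ) : ∀ (s : List ι) (J : Ideal R),
    (∀ N1 N2, Cl σ (J ⊔ Ideal.ofList (s.map a)) N1 N2 → D N1 N2 = c * D' N1 N2) →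
    ∀ N1 N2, Cl σ J N1 N2 → E a μ D s N1 N2 = c * E a μ D' s N1 N2
  | [], J, h, N1, N2, k => h N1 N2 (by simpa using k)
  | i :: s, J, h, N1, N2, k => by
    rw [List.map_cons, Ideal.ofList_cons, ← sup_assoc] at h
    simp only [E, step]
    rw [L3 c s _ h _ _ (k.A (ha i)), L3 c s _ h _ _ (k.K (ha i) (hμ i))]
    ring

end

theorem E_self {ι : Type} {a : ι → R} {μ : ι → ℂ} {D : Ideal R → Ideal R → ℂ}
    (h : ∀ N, D N N = 0) : ∀ (s : List ι) (N : Ideal R), E a μ D s N N = 0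
  | [], N => h N
  | i :: s, N => by
    have e1 : A (a i) N N = N := le_antisymm (A_le le_rfl) le_A
    have e2 : K (a i) N N = N := le_antisymm K_le (le_K le_rfl)
    simp only [E, step, e1, e2, E_self h s N]
    ring

theorem L4 [IsLocalRing R] {ι : Type} {a : ι → R} {μ : ι → ℂ} {D : Ideal R → Ideal R → ℂ}
    (h : ∀ N, D N N = 0) : ∀ (s : List ι) (N : Ideal R), Reg N (s.map a) →
      E a μ D s ⊤ N = D ⊤ (N ⊔ Ideal.ofList (s.map a))
  | [], N, _ => by simp [E]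
  | i :: s, N, r => by
    have e1 : A (a i) ⊤ N = N ⊔ Ideal.span {a i} := by rw [A, Ideal.mul_top]
    have e2 : K (a i) ⊤ N = N :=
      le_antisymm (fun x hx => r.2.1 x (mem_K.1 hx).2) (le_K le_top)
    simp only [E, step, e1, e2, E_self h s N]
    rw [L4 h s _ r.2.2, List.map_cons, Ideal.ofList_cons, sup_assoc]
    ring

theorem swap_symb [IsLocalRing R] {ι : Type} {a b : ι → R} {μ : ι → ℂ}
    (ha : ∀ i, σ (a i) = μ i • a i) (hb : ∀ i, σ (b i) = μ i • b i) (hμ : ∀ i, μ i ≠ 0)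
    {D : Ideal R → Ideal R → ℂ} (h0 : ∀ N, D N N = 0) (s : List ι) (hs : ∀ i ∈ s, μ i ≠ 1)
    (J : Ideal R) (hJ : St σ J) (ra : Reg J (s.map a)) (rb : Reg J (s.map b))
    (ga : Good σ D (J ⊔ Ideal.ofList (s.map a))) (gb : Good σ D (J ⊔ Ideal.ofList (s.map b))) :
    D ⊤ (J ⊔ Ideal.ofList (s.map a)) = D ⊤ (J ⊔ Ideal.ofList (s.map b)) := by
  have c : Cl σ J ⊤ J := ⟨le_top, fun _ _ => trivial, hJ, fun j hj x _ => J.mul_mem_right x hj⟩
  have e1 := L2 hb hμ (L1 ha hμ s J ga) s _ _ c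
  have e2 := L3 hb hμ _ s J (fun N1 N2 k => L2 ha hμ gb s N1 N2 k) _ _ c
  rw [e1, L4 h0 s J ra, L4 h0 s J rb] at e2
  refine mul_left_cancel₀ ?_ e2
  refine List.prod_ne_zero ?_
  simp only [List.mem_map, not_exists, not_and]
  intro i hi h
  exact hs i hi (sub_eq_zero.1 h).symm


theorem tr_exact {X Y Z : Type} [AddCommGroup X] [Module ℂ X] [AddCommGroup Y] [Module ℂ Y]
    [AddCommGroup Z] [Module ℂ Z] [Module.Finite ℂ Y] (i : X →ₗ[ℂ] Y) (q : Y →ₗ[ℂ] Z)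
    (hi : Function.Injective i) (hq : Function.Surjective q) (he : ∀ y, q y = 0 ↔ ∃ x, i x = y)
    (f : X →ₗ[ℂ] X) (g : Y →ₗ[ℂ] Y) (h : Z →ₗ[ℂ] Z) (h1 : g ∘ₗ i = i ∘ₗ f)
    (h2 : q ∘ₗ g = h ∘ₗ q) :
    LinearMap.trace ℂ Y g = LinearMap.trace ℂ X f + LinearMap.trace ℂ Z h := by
  have : Module.Finite ℂ X := Module.Finite.of_injective i hi
  have : Module.Finite ℂ Z := Module.Finite.of_surjective q hq
  obtain ⟨s, hs⟩ := q.exists_rightInverse_of_surjective (LinearMap.range_eq_top.2 hq)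
  obtain ⟨r0, hr0⟩ := i.exists_leftInverse_of_injective (LinearMap.ker_eq_bot.2 hi)
  have hs' : ∀ z, q (s z) = z := fun z => congrArg (fun φ => φ z) hs
  have hr' : ∀ x, r0 (i x) = x := fun x => congrArg (fun φ => φ x) hr0
  let r : Y →ₗ[ℂ] X := r0 ∘ₗ (LinearMap.id - s ∘ₗ q)
  have e1 : ∀ x, r (i x) = x := fun x => by
    simp [r, (he _).2 ⟨x, rfl⟩, hr']
  have e2 : ∀ y, i (r y) + s (q y) = y := fun y => by
    obtain ⟨x, hx⟩ := (he (y - s (q y))).1 (by simp [hs'])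
    simp only [r, LinearMap.comp_apply, LinearMap.sub_apply, LinearMap.id_apply]
    rw [← hx, hr', hx]
    simp
  have e3 : g = (g ∘ₗ i) ∘ₗ r + (g ∘ₗ s) ∘ₗ q := by
    ext y
    simp only [LinearMap.add_apply, LinearMap.comp_apply, ← map_add, e2]
  have e4 : r ∘ₗ (g ∘ₗ i) = f := by
    rw [h1]; ext x; simp [e1]
  have e5 : q ∘ₗ (g ∘ₗ s) = h := by
    rw [← LinearMap.comp_assoc, h2]; ext x; simp [hs']
  rw [e3, map_add, LinearMap.trace_comp_comm', LinearMap.trace_comp_comm' q, e4, e5]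

abbrev SQ (U V : Ideal R) : Type :=
  U.restrictScalars ℂ ⧸ (V.restrictScalars ℂ).comap (U.restrictScalars ℂ).subtype

noncomputable def hq (φ : R →ₗ[ℂ] R) {U V U' V' : Ideal R} (h1 : ∀ x ∈ U, φ x ∈ U')
    (h2 : ∀ x ∈ U, x ∈ V → φ x ∈ V') : SQ U V →ₗ[ℂ] SQ U' V' :=
  Submodule.mapQ _ _ (φ.restrict (p := U.restrictScalars ℂ) (q := U'.restrictScalars ℂ) h1)
    fun x hx => h2 x.1 x.2 hx

theorem hq_mk (φ : R →ₗ[ℂ] R) {U V U' V' : Ideal R} (h1 : ∀ x ∈ U, φ x ∈ U')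
    (h2 : ∀ x ∈ U, x ∈ V → φ x ∈ V') (x : U.restrictScalars ℂ) :
    hq φ h1 h2 (Submodule.Quotient.mk x) = Submodule.Quotient.mk ⟨φ x, h1 x.1 x.2⟩ := rfl

theorem mk_eq {U V : Ideal R} (x y : U.restrictScalars ℂ) :
    (Submodule.Quotient.mk x : SQ U V) = Submodule.Quotient.mk y ↔ x.1 - y.1 ∈ V :=
  Submodule.Quotient.eq _

theorem mk_zero {U V : Ideal R} (x : U.restrictScalars ℂ) :
    (Submodule.Quotient.mk x : SQ U V) = 0 ↔ x.1 ∈ V :=
  Submodule.Quotient.mk_eq_zero _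

variable (σ)

open Classical in
noncomputable def T (U V : Ideal R) : ℂ :=
  if h : St σ U ∧ St σ V then
    LinearMap.trace ℂ (SQ U V) (hq σ.toLinearMap h.1 fun x _ hx => h.2 x hx)
  else 0

variable {σ}

theorem T_eq {U V : Ideal R} (h1 : St σ U) (h2 : St σ V) :
    T σ U V = LinearMap.trace ℂ (SQ U V) (hq σ.toLinearMap h1 fun x _ hx => h2 x hx) :=
  dif_pos ⟨h1, h2⟩

theorem T_self (N : Ideal R) : T σ N N = 0 := by
  by_cases h : St σ N
  · rw [T_eq h h]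
    have : (hq σ.toLinearMap h fun x _ hx => h x hx) = 0 := by
      ext x
      exact (mk_zero _).2 (h x.1 x.2)
    rw [this, map_zero]
  · exact dif_neg fun h2 => h h2.1

theorem fin_SQ [IsNoetherianRing R] {J U V : Ideal R} [Module.Finite ℂ (R ⧸ J)]
    (k : ∀ j ∈ J, ∀ x ∈ U, j * x ∈ V) : Module.Finite ℂ (SQ U V) := by
  obtain ⟨n, g, hg⟩ := Submodule.fg_iff_exists_fin_generating_family.1
    (IsNoetherian.noetherian U)
  have hgU : ∀ i, g i ∈ U := fun i => hg ▸ Submodule.subset_span ⟨i, rfl⟩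
  let φ : Fin n → SQ (⊤ : Ideal R) J →ₗ[ℂ] SQ U V := fun i =>
    hq (LinearMap.mulRight ℂ (g i)) (fun x _ => U.mul_mem_left x (hgU i))
      fun x _ hx => k x hx _ (hgU i)
  have h0 : Module.Finite ℂ (SQ (⊤ : Ideal R) J) := by
    refine Module.Finite.of_injective (R := ℂ) (S := ℂ) (σ := RingHom.id ℂ) (N := R ⧸ J)
      (Submodule.liftQ _ ((Ideal.Quotient.mkₐ ℂ J).toLinearMap ∘ₗ Submodule.subtype _)
        fun x hx => Ideal.Quotient.eq_zero_iff_mem.2 hx) ?_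
    rw [injective_iff_map_eq_zero]
    rintro ⟨x⟩ hx
    exact (mk_zero x).2 (Ideal.Quotient.eq_zero_iff_mem.1 hx)
  refine Module.Finite.of_surjective (∑ i, φ i ∘ₗ LinearMap.proj i :
    (Fin n → SQ (⊤ : Ideal R) J) →ₗ[ℂ] SQ U V) ?_
  rintro ⟨x⟩
  obtain ⟨c, hc⟩ := (Submodule.mem_span_range_iff_exists_fun R).1 (hg.ge x.2)
  refine ⟨fun i => Submodule.Quotient.mk ⟨c i, trivial⟩, ?_⟩
  simp only [LinearMap.sum_apply, LinearMap.comp_apply, LinearMap.proj_apply, φ, hq_mk]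
  simp only [← Submodule.mkQ_apply]
  rw [← map_sum]
  refine congrArg _ (Subtype.ext ?_)
  simpa using hc

theorem good_T [IsNoetherianRing R] (J : Ideal R) [Module.Finite ℂ (R ⧸ J)] :
    Good σ (T σ) J := by
  constructor
  · intro N1 N2 N3 c s2 l32 l21
    have := fin_SQ c.k
    rw [T_eq c.s1 c.s2, T_eq c.s1 s2, T_eq s2 c.s2, add_comm]
    refine tr_exact (hq LinearMap.id l21 fun x _ hx => hx) (hq LinearMap.id (fun x hx => hx)
      fun x _ hx => l32 hx) ?_ ?_ ?_ _ _ _ ?_ ?_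
    · rw [injective_iff_map_eq_zero]
      rintro ⟨x⟩ hx
      exact (mk_zero x).2 ((mk_zero (U := N1) (V := N3) ⟨x.1, l21 x.2⟩).1 hx)
    · rintro ⟨x⟩
      exact ⟨Submodule.Quotient.mk x, rfl⟩
    · rintro ⟨y⟩
      constructor
      · intro hy
        exact ⟨Submodule.Quotient.mk ⟨y.1, (mk_zero _).1 hy⟩, rfl⟩
      · rintro ⟨⟨x⟩, hx⟩
        have h1 : x.1 - y.1 ∈ N3 := (mk_eq _ _).1 hx
        refine (mk_zero _).2 ?_
        have := N2.sub_mem x.2 (l32 h1)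
        simpa using this
    · ext x; rfl
    · ext x; rfl
  · intro b μ hb U V U' V' c c' p1 p2 p3
    rw [T_eq c.s1 c.s2, T_eq c'.s1 c'.s2]
    let ψ : SQ U V →ₗ[ℂ] SQ U' V' :=
      hq (LinearMap.mulLeft ℂ b) p1 fun x hx h => (p3 x hx).2 h
    have hψ : Function.Bijective ψ := by
      constructor
      · rw [injective_iff_map_eq_zero]
        rintro ⟨x⟩ hx
        exact (mk_zero x).2 ((p3 x.1 x.2).1 ((mk_zero _).1 hx))
      · rintro ⟨y⟩
        obtain ⟨x, hx, h⟩ := p2 y.1 y.2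
        exact ⟨Submodule.Quotient.mk ⟨x, hx⟩, ((mk_eq _ _).2 h).symm⟩
    rw [← smul_eq_mul, ← map_smul, ← LinearMap.trace_conj' _ (LinearEquiv.ofBijective ψ hψ)]
    congr 1
    ext y
    obtain ⟨⟨x⟩, hx⟩ := hψ.2 (Submodule.Quotient.mk y)
    simp only [LinearMap.comp_apply, Submodule.mkQ_apply, LinearEquiv.conj_apply_apply]
    rw [← hx]
    have e : (LinearEquiv.ofBijective ψ hψ).symm (ψ (Quot.mk _ x)) = Submodule.Quotient.mk x :=
      (LinearEquiv.ofBijective ψ hψ).symm_apply_apply _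
    rw [e, LinearMap.smul_apply, map_smul, hq_mk]
    change Submodule.Quotient.mk _ = μ • Submodule.Quotient.mk _
    rw [← Submodule.Quotient.mk_smul]
    refine congrArg _ (Subtype.ext ?_)
    simp [hb]

theorem T_top {I : Ideal R} (hI : St σ I) (τ : (R ⧸ I) →ₗ[ℂ] (R ⧸ I))
    (hτ : ∀ x, τ (Ideal.Quotient.mk I x) = Ideal.Quotient.mk I (σ x)) :
    T σ ⊤ I = LinearMap.trace ℂ (R ⧸ I) τ := by
  rw [T_eq (U := ⊤) (fun _ _ => Submodule.mem_top) hI]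
  let ψ : SQ (⊤ : Ideal R) I →ₗ[ℂ] R ⧸ I :=
    Submodule.liftQ _ ((Ideal.Quotient.mkₐ ℂ I).toLinearMap ∘ₗ Submodule.subtype _)
      fun x hx => Ideal.Quotient.eq_zero_iff_mem.2 hx
  have hψ : Function.Bijective ψ := by
    constructor
    · rw [injective_iff_map_eq_zero]
      rintro ⟨x⟩ hx
      exact (mk_zero x).2 (Ideal.Quotient.eq_zero_iff_mem.1 hx)
    · intro y
      obtain ⟨x, rfl⟩ := Ideal.Quotient.mk_surjective y
      exact ⟨Submodule.Quotient.mk ⟨x, trivial⟩, rfl⟩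
  rw [← LinearMap.trace_conj' _ (LinearEquiv.ofBijective ψ hψ)]
  congr 1
  refine LinearMap.ext fun y => ?_
  obtain ⟨⟨x⟩, rfl⟩ := hψ.2 y
  rw [LinearEquiv.conj_apply_apply]
  have e : (LinearEquiv.ofBijective ψ hψ).symm (ψ (Quot.mk _ x)) = Submodule.Quotient.mk x :=
    (LinearEquiv.ofBijective ψ hψ).symm_apply_apply _
  rw [e]
  exact (hτ x.1).symm

end Pool.Agent.H50.Symb
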