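import Mathlib
import Pool.Agent.H50.Symb

set_option linter.unusedSectionVars false

namespace Pool.Agent.H50.EqDeg

open Pool.Agent.H50.CM Pool.Agent.H50.Symb IsLocalRing MvPowerSeries

abbrev R (n : ℕ) := MvPowerSeries (Fin n) ℂ

variable {n : ℕ}

theorem memX : ∀ (S : List (Fin n)) (φ : R n), φ ∈ Ideal.ofList (S.map (X : Fin n → R n)) ↔
    ∀ m : Fin n →₀ ℕ, (∀ i ∈ S, m i = 0) → coeff m φ = 0
  | [], φ => by
    simp only [List.map_nil, Ideal.ofList_nil, Ideal.mem_bot, List.not_mem_nil, false_imp_iff,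
      implies_true, forall_true_left]
    exact ⟨fun h m => by simp [h], fun h => MvPowerSeries.ext fun m => by simp [h m]⟩
  | i :: S, φ => by
    classical
    rw [List.map_cons, Ideal.ofList_cons, sup_comm, mem_sup_span]
    constructor
    · rintro ⟨c, hc⟩ m hm
      have h1 := (memX S _).1 hc m fun j hj => hm j (List.mem_cons_of_mem _ hj)
      have h2 := X_dvd_iff.1 (Dvd.intro c (rfl : X i * c = _)) m (hm i (by simp))
      rwa [map_sub, h2, sub_zero] at h1
    · intro h
      let ψ : R n := fun m => if m i = 0 then 0 else coeff m φ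
      have hψ : ∀ m, coeff m ψ = if m i = 0 then 0 else coeff m φ := fun _ => rfl
      obtain ⟨c, hc⟩ := (X_dvd_iff (s := i) (φ := ψ)).2 fun m hm => by rw [hψ, if_pos hm]
      refine ⟨c, (memX S _).2 fun m hm => ?_⟩
      rw [← hc, map_sub, hψ]
      split_ifs with h0
      · rw [sub_zero]
        refine h m fun j hj => ?_
        rcases List.mem_cons.1 hj with rfl | hj
        · exact h0
        · exact hm j hj
      · exact sub_self _

theorem mem_max (φ : R n) : φ ∈ maximalIdeal (R n) ↔ constantCoeff φ = 0 := by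
  rw [mem_maximalIdeal, mem_nonunits_iff, isUnit_iff_constantCoeff, isUnit_iff_ne_zero, not_not]

theorem regX : ∀ (s t : List (Fin n)), (∀ i ∈ s, i ∉ t) → s.Nodup →
    Reg (Ideal.ofList (t.map (X : Fin n → R n))) (s.map X)
  | [], _, _, _ => trivial
  | i :: s, t, h, hs => by
    refine ⟨(mem_max _).2 (by simp), fun r hr => (memX t r).2 fun m hm => ?_, ?_⟩
    · have := (memX t _).1 hr (Finsupp.single i 1 + m) fun j hj => by
        have : j ≠ i := fun e => h i (by simp) (e ▸ hj)
        simp [hm j hj, this]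
      rwa [X_def, coeff_add_monomial_mul, one_mul] at this
    · have := regX s (i :: t) (fun j hj hj' => by
        rcases List.mem_cons.1 hj' with rfl | hj'
        · exact (List.nodup_cons.1 hs).1 hj
        · exact h j (List.mem_cons_of_mem _ hj) hj') (List.nodup_cons.1 hs).2
      rwa [List.map_cons, Ideal.ofList_cons, sup_comm] at this

theorem max_eq : maximalIdeal (R n) = Ideal.span (Set.range (X : Fin n → R n)) := by
  have e : Ideal.span (Set.range (X : Fin n → R n)) =
      Ideal.ofList ((List.finRange n).map (X : Fin n → R n)) := by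
    rw [Ideal.ofList]; congr 1; ext x; simp
  ext φ
  rw [e, memX, mem_max]
  constructor
  · intro h m hm
    have : m = 0 := Finsupp.ext fun i => hm i (List.mem_finRange i)
    rw [this]; exact h
  · intro h
    exact h 0 fun _ _ => rfl

theorem rad_of_fin (I : Ideal (R n)) [Module.Finite ℂ (R n ⧸ I)] :
    maximalIdeal (R n) ≤ I.radical := by
  rw [Ideal.radical_eq_sInf]
  refine le_sInf ?_
  rintro P ⟨hI, hP⟩
  have : Module.Finite ℂ (R n ⧸ P) :=
    Module.Finite.of_surjective (Ideal.Quotient.factorₐ ℂ hI).toLinearMap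
      (Ideal.Quotient.factor_surjective hI)
  have : IsArtinianRing (R n ⧸ P) := IsArtinianRing.of_finite ℂ _
  have h := Ideal.Quotient.maximal_of_isField P (IsArtinianRing.isField_of_isDomain _)
  exact (eq_maximalIdeal h).ge

theorem dense (B : Subalgebra ℂ (R n)) (I : Ideal (R n)) (hX : ∀ i, X i ∈ B)
    (hI : ∀ g ∈ I, g ∈ B) (hr : maximalIdeal (R n) ≤ I.radical) (g : R n) : g ∈ B := by
  obtain ⟨K, hK⟩ := Ideal.exists_pow_le_of_le_radical_of_fg hr (IsNoetherian.noetherian _)
  have : ∀ (j : ℕ) (g : R n), ∃ b ∈ B, g - b ∈ maximalIdeal (R n) ^ j := by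
    intro j
    induction j with
    | zero => intro g; exact ⟨0, B.zero_mem, by simp⟩
    | succ j ih =>
      intro g
      have h1 : g - C (constantCoeff g) ∈ maximalIdeal (R n) := (mem_max _).2 (by simp)
      rw [max_eq] at h1
      obtain ⟨c, hc⟩ := (Submodule.mem_span_range_iff_exists_fun _).1 h1
      choose b hb hb' using fun i => ih (c i)
      refine ⟨C (constantCoeff g) + ∑ i, b i * X i,
        B.add_mem (B.algebraMap_mem _) (B.sum_mem fun i _ => B.mul_mem (hb i) (hX i)), ?_⟩
      rw [← sub_sub, ← hc, ← Finset.sum_sub_distrib, pow_succ]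
      refine Ideal.sum_mem _ fun i _ => ?_
      rw [smul_eq_mul, ← sub_mul]
      exact Ideal.mul_mem_mul (hb' i) ((mem_max _).2 (by simp))
  obtain ⟨b, hb, h⟩ := this K g
  simpa using B.add_mem hb (hI _ (hK h))

theorem diag (A : Matrix (Fin n) (Fin n) ℂ) (m : ℕ) (hm : m ≠ 0) (hA : A ^ m = 1) :
    ∃ (b : Module.Basis (Fin n) ℂ (Fin n → ℂ)) (l : Fin n → ℂ),
      (∀ i, l i ≠ 0) ∧ ∀ i, Matrix.vecMul (b i) A = l i • b i := by
  let φ : Module.End ℂ (Fin n → ℂ) := Matrix.toLin' A.transpose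
  have hφ : φ ^ m = 1 := by
    simp only [φ]
    rw [← Matrix.toLin'_pow, ← Matrix.transpose_pow, hA, Matrix.transpose_one, Matrix.toLin'_one]
    rfl
  have hs : φ.IsSemisimple :=
    Module.End.isSemisimple_of_squarefree_aeval_eq_zero (p := Polynomial.X ^ m - Polynomial.C 1)
      (Polynomial.separable_X_pow_sub_C (1 : ℂ) (by exact_mod_cast hm) one_ne_zero).squarefree
      (by simp [hφ])
  have h1 := hs.iSup_eigenspace_eq_top
  let s : Set (Fin n → ℂ) := {v | ∃ μ : ℂ, φ v = μ • v}
  have h2 : Submodule.span ℂ s = ⊤ := by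
    rw [eq_top_iff, ← h1]
    exact iSup_le fun μ v hv => Submodule.subset_span ⟨μ, Module.End.mem_eigenspace_iff.1 hv⟩
  obtain ⟨t, hts, ht, hli⟩ := exists_linearIndependent ℂ s
  let b0 : Module.Basis t ℂ (Fin n → ℂ) := Module.Basis.mk hli (by simp [ht, h2])
  let e : t ≃ Fin n := b0.indexEquiv (Pi.basisFun ℂ (Fin n))
  have h3 : ∀ i, (b0.reindex e) i ∈ s := fun i => by
    rw [Module.Basis.reindex_apply, Module.Basis.mk_apply]
    exact hts (e.symm i).2
  choose l hl using h3
  refine ⟨b0.reindex e, l, fun i h0 => ?_, fun i => ?_⟩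
  · have h4 := hl i
    rw [h0, zero_smul] at h4
    obtain ⟨k, rfl⟩ := Nat.exists_eq_succ_of_ne_zero hm
    have h5 := congrArg (fun ψ : Module.End ℂ (Fin n → ℂ) => ψ ((b0.reindex e) i)) hφ
    simp only [pow_succ, Module.End.mul_apply, h4, map_zero, Module.End.one_apply] at h5
    exact (b0.reindex e).ne_zero i h5.symm
  · rw [← hl i]
    simp only [φ, Matrix.toLin'_apply, Matrix.mulVec_transpose]


theorem St_span {σ : R n →ₐ[ℂ] R n} {S : Set (R n)} (h : ∀ x ∈ S, σ x ∈ Ideal.span S) :
    St σ (Ideal.span S) := fun _ hx =>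
  (Ideal.span_le (I := (Ideal.span S).comap σ)).2 h hx

noncomputable def lin (v : Fin n → R n) (c : Fin n → ℂ) : R n := ∑ j, c j • v j

theorem lin_eig {σ : R n →ₐ[ℂ] R n} {A : Matrix (Fin n) (Fin n) ℂ} {v : Fin n → R n}
    (hv : ∀ j, σ (v j) = ∑ k, A j k • v k) {c : Fin n → ℂ} {l : ℂ}
    (hc : Matrix.vecMul c A = l • c) : σ (lin v c) = l • lin v c := by
  have e : ∀ k, ∑ j, c j * A j k = l * c k := fun k => congrFun hc k
  simp only [lin, map_sum, map_smul, hv, Finset.smul_sum, smul_smul]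
  rw [Finset.sum_comm]
  simp only [← Finset.sum_smul, e]

theorem lin_basis (b : Module.Basis (Fin n) ℂ (Fin n → ℂ)) (v : Fin n → R n) (j : Fin n) :
    v j = ∑ i, b.repr (Pi.single j 1) i • lin v (b i) := by
  have e : ∀ k, ∑ i, b.repr (Pi.single j 1) i * b i k = (Pi.single j 1 : Fin n → ℂ) k := fun k => by
    have := congrFun (b.sum_repr (Pi.single j 1)) k
    simpa [Finset.sum_apply] using this
  simp only [lin, Finset.smul_sum, smul_smul]
  rw [Finset.sum_comm]
  simp only [← Finset.sum_smul, e]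
  simp [Pi.single_apply]

theorem lin_mem {N : Ideal (R n)} {v : Fin n → R n} (h : ∀ j, v j ∈ N) (c : Fin n → ℂ) :
    lin v c ∈ N := N.sum_mem fun j _ => N.smul_of_tower_mem _ (h j)

theorem mem_ofList {ι : Type} {s : List ι} {a : ι → R n} {i : ι} (hi : i ∈ s) :
    a i ∈ Ideal.ofList (s.map a) := Ideal.subset_span (List.mem_map_of_mem hi)

theorem ofList_le {ι : Type} {s : List ι} {a : ι → R n} {N : Ideal (R n)}
    (h : ∀ i ∈ s, a i ∈ N) : Ideal.ofList (s.map a) ≤ N := by
  refine Ideal.span_le.2 fun x hx => ?_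
  obtain ⟨i, hi, rfl⟩ := List.mem_map.1 hx
  exact h i hi

theorem cancel {N : Ideal (R n)} {x : R n} {l : ℂ} (hl : l ≠ 1) (h : l • x - x ∈ N) : x ∈ N := by
  have := N.smul_of_tower_mem (l - 1)⁻¹ h
  rwa [show l • x - x = (l - 1) • x by rw [sub_smul, one_smul], smul_smul,
    inv_mul_cancel₀ (sub_ne_zero.2 hl), one_smul] at this

theorem main (A : Matrix (Fin n) (Fin n) ℂ) (m : ℕ) (hm : m ≠ 0) (hA : A ^ m = 1)
    (f : Fin n → MvPolynomial (Fin n) ℂ)
    (hf : ∀ i : Fin n, MvPolynomial.aeval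
      (fun j : Fin n => ∑ k : Fin n, A j k • (MvPolynomial.X k : MvPolynomial (Fin n) ℂ)) (f i)
        = ∑ j : Fin n, A i j • f j)
    (h0 : ∀ i : Fin n, MvPolynomial.constantCoeff (f i) = 0)
    (I L : Ideal (R n)) (hI : I = Ideal.span (Set.range fun i : Fin n => (f i : R n)))
    (hL : L = Ideal.span (Set.range (fun i : Fin n => (f i : R n)) ∪
      Set.range fun i : Fin n => ∑ j : Fin n, (A - 1) i j • (X j : R n)))
    [Module.Finite ℂ (R n ⧸ I)] (τ : (R n ⧸ I) →ₐ[ℂ] (R n ⧸ I))
    (hτ : ∀ i, τ (Ideal.Quotient.mk I (X i)) = Ideal.Quotient.mk I (∑ j, A i j • (X j : R n))) :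
    LinearMap.trace ℂ (R n ⧸ I) τ.toLinearMap = (Module.finrank ℂ (R n ⧸ L) : ℂ) := by
  classical
  obtain ⟨b, l, hl0, hl⟩ := diag A m hm hA
  have hs : HasSubst fun j : Fin n => ∑ k : Fin n, A j k • (X k : R n) :=
    hasSubst_of_constantCoeff_zero fun j => by simp
  let σ : R n →ₐ[ℂ] R n := substAlgHom hs
  have σX : ∀ j, σ (X j) = ∑ k : Fin n, A j k • (X k : R n) := fun j => substAlgHom_X hs j
  let ι : MvPolynomial (Fin n) ℂ →ₐ[ℂ] R n := MvPolynomial.coeToMvPowerSeries.algHom ℂ
  have hι : ∀ q, ι q = (q : R n) := fun q => by simp [ι]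
  have σf : ∀ i, σ (f i : R n) = ∑ j, A i j • (f j : R n) := fun i => by
    have e : σ.comp ι = ι.comp (MvPolynomial.aeval fun j : Fin n =>
        ∑ k : Fin n, A j k • (MvPolynomial.X k : MvPolynomial (Fin n) ℂ)) := by
      refine MvPolynomial.algHom_ext fun j => ?_
      simp only [AlgHom.comp_apply, MvPolynomial.aeval_X, map_sum, map_smul]
      simp only [hι, MvPolynomial.coe_X, σX]
    have := congrArg (fun φ => φ (f i)) e
    simp only [AlgHom.comp_apply, hf, map_sum, map_smul] at this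
    simpa only [hι] using this
  have eX : ∀ i, ∑ j : Fin n, (A - 1) i j • (X j : R n) = σ (X i) - X i := fun i => by
    simp [σX, sub_smul, Finset.sum_sub_distrib, Matrix.one_apply]
  simp only [eX] at hL
  let h : Fin n → R n := fun i => lin (fun j => (f j : R n)) (b i)
  let y : Fin n → R n := fun i => lin X (b i)
  have σh : ∀ i, σ (h i) = l i • h i := fun i => lin_eig σf (hl i)
  have σy : ∀ i, σ (y i) = l i • y i := fun i => lin_eig σX (hl i)
  let sU := (List.finRange n).filter fun i => l i = 1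
  let sY := (List.finRange n).filter fun i => !decide (l i = 1)
  have mU : ∀ i, i ∈ sU ↔ l i = 1 := fun i => by simp [sU]
  have mY : ∀ i, i ∈ sY ↔ l i ≠ 1 := fun i => by simp [sY]
  have len : n = sU.length + sY.length := by
    have := List.length_eq_length_filter_add (l := List.finRange n) fun i => decide (l i = 1)
    rwa [List.length_finRange] at this
  let J := Ideal.ofList (sU.map h)
  let Y := Ideal.ofList (sY.map y)
  have fI : ∀ j, (f j : R n) ∈ I := fun j => hI ▸ Ideal.subset_span ⟨j, rfl⟩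
  have eI : I = J ⊔ Ideal.ofList (sY.map h) := by
    refine le_antisymm ?_ (sup_le (ofList_le fun i _ => lin_mem fI _)
      (ofList_le fun i _ => lin_mem fI _))
    rw [hI, Ideal.span_le]
    rintro _ ⟨j, rfl⟩
    rw [SetLike.mem_coe]
    simp only
    rw [lin_basis b (fun j => (f j : R n)) j]
    refine Ideal.sum_mem _ fun i _ => Submodule.smul_of_tower_mem _ _ ?_
    by_cases hi : l i = 1
    · exact Submodule.mem_sup_left (mem_ofList (a := h) ((mU i).2 hi))
    · exact Submodule.mem_sup_right (mem_ofList (a := h) ((mY i).2 hi))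
  have YX : ∀ j, σ (X j) - X j ∈ Y := fun j => by
    rw [lin_basis b X j, map_sum, ← Finset.sum_sub_distrib]
    refine Ideal.sum_mem _ fun i _ => ?_
    rw [map_smul, ← smul_sub]
    refine Submodule.smul_of_tower_mem _ _ ?_
    change σ (y i) - y i ∈ Y
    rw [σy]
    by_cases hi : l i = 1
    · simp [hi]
    · have := mem_ofList (a := y) ((mY i).2 hi)
      exact Y.sub_mem (Y.smul_of_tower_mem _ this) this
  have Yq : ∀ q : MvPolynomial (Fin n) ℂ, σ (q : R n) - q ∈ Y := fun q => by
    rw [← hι]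
    induction q using MvPolynomial.induction_on with
    | C c =>
      rw [← MvPolynomial.algebraMap_eq, ι.commutes, σ.commutes, sub_self]
      exact Y.zero_mem
    | add p q hp hq =>
      rw [map_add, map_add, add_sub_add_comm]
      exact Y.add_mem hp hq
    | mul_X p j hp =>
      rw [map_mul, map_mul, hι (MvPolynomial.X j), MvPolynomial.coe_X]
      have e : σ (ι p) * σ (X j) - ι p * X j =
          (σ (ι p) - ι p) * σ (X j) + ι p * (σ (X j) - X j) := by ring
      rw [e]
      exact Y.add_mem (Y.mul_mem_right _ hp) (Y.mul_mem_left _ (YX j))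
  have sub_lin : ∀ (N : Ideal (R n)) (v : Fin n → R n) (c : Fin n → ℂ),
      (∀ j, σ (v j) - v j ∈ N) → σ (lin v c) - lin v c ∈ N := fun N v c hv => by
    have : σ (lin v c) - lin v c = lin (fun j => σ (v j) - v j) c := by
      simp [lin, smul_sub, Finset.sum_sub_distrib]
    rw [this]
    exact lin_mem hv c
  have fL : ∀ j, (f j : R n) ∈ L := fun j => hL ▸ Ideal.subset_span (Or.inl ⟨j, rfl⟩)
  have XL : ∀ j, σ (X j) - X j ∈ L := fun j => hL ▸ Ideal.subset_span (Or.inr ⟨j, rfl⟩)
  have IL : I ≤ L := by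
    rw [hI, Ideal.span_le]
    rintro _ ⟨j, rfl⟩
    exact fL j
  have eL : L = J ⊔ Y := by
    refine le_antisymm ?_ (sup_le (ofList_le fun i _ => lin_mem fL _)
      (ofList_le fun i hi => cancel ((mY i).1 hi) (σy i ▸ sub_lin L X _ XL)))
    have : I ≤ J ⊔ Y := by
      rw [eI]
      refine sup_le le_sup_left (ofList_le fun i hi => Submodule.mem_sup_right ?_)
      exact cancel ((mY i).1 hi) (σh i ▸ sub_lin Y _ _ fun j => Yq (f j))
    rw [hL, Ideal.span_le]
    rintro _ (⟨j, rfl⟩ | ⟨j, rfl⟩)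
    · exact this (fI j)
    · exact Submodule.mem_sup_right (YX j)
  have finL : Module.Finite ℂ (R n ⧸ L) :=
    Module.Finite.of_surjective (Ideal.Quotient.factorₐ ℂ IL).toLinearMap
      (Ideal.Quotient.factor_surjective IL)
  have hm' : ∀ i, h i ∈ maximalIdeal (R n) := fun i => lin_mem (fun j => (mem_max _).2 (by
    rw [← coeff_zero_eq_constantCoeff_apply, MvPolynomial.coeff_coe]
    exact h0 j)) _
  have ym : ∀ i, y i ∈ maximalIdeal (R n) := fun i => lin_mem (fun j => (mem_max _).2 (by simp)) _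
  have rX : Reg (⊥ : Ideal (R n)) ((List.finRange n).map X) := by
    simpa using regX (List.finRange n) [] (by simp) (List.nodup_finRange n)
  have reg : ∀ v : Fin n → R n, (∀ i, v i ∈ maximalIdeal (R n)) →
      maximalIdeal (R n) ≤ (J ⊔ Ideal.ofList (sY.map v)).radical → Reg J (sY.map v) := by
    intro v hv hr
    have := reg_append _ _ _ (cm (sU.map h ++ sY.map v) ⊥ _ (fun a ha => by
      rcases List.mem_append.1 ha with ha | ha <;> obtain ⟨i, _, rfl⟩ := List.mem_map.1 ha
      exacts [hm' i, hv i]) rX (by simpa using len) (by rwa [Ideal.ofList_append, bot_sup_eq]))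
    rwa [bot_sup_eq] at this
  have sJ : St σ J := St_span fun x hx => by
    obtain ⟨i, hi, rfl⟩ := List.mem_map.1 hx
    rw [σh]
    exact Submodule.smul_of_tower_mem _ _ (Ideal.subset_span hx)
  have sI : St σ I := by
    rw [hI]
    refine St_span ?_
    rintro _ ⟨j, rfl⟩
    rw [← hI, σf]
    exact lin_mem fI _
  have key := swap_symb σh σy hl0 (T_self (σ := σ)) sY (fun i hi => (mY i).1 hi) J sJ
    (reg h hm' (eI ▸ rad_of_fin I)) (reg y ym (eL ▸ rad_of_fin L)) (eI ▸ good_T I)
    (eL ▸ good_T L)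
  rw [← eI, ← eL] at key
  have sL : St σ L := by
    rw [eL]
    refine sJ.sup (St_span fun x hx => ?_)
    obtain ⟨i, hi, rfl⟩ := List.mem_map.1 hx
    rw [σy]
    exact Submodule.smul_of_tower_mem _ _ (Ideal.subset_span hx)
  have d1 := dense (AlgHom.equalizer (τ.comp (Ideal.Quotient.mkₐ ℂ I))
    ((Ideal.Quotient.mkₐ ℂ I).comp σ)) I (fun i => by
      change τ (Ideal.Quotient.mk I (X i)) = Ideal.Quotient.mk I (σ (X i))
      rw [hτ, σX]) (fun g hg => by
      change τ (Ideal.Quotient.mk I g) = Ideal.Quotient.mk I (σ g)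
      rw [Ideal.Quotient.eq_zero_iff_mem.2 hg, Ideal.Quotient.eq_zero_iff_mem.2 (sI g hg),
        map_zero]) (rad_of_fin I)
  have d2 := dense (AlgHom.equalizer (Ideal.Quotient.mkₐ ℂ L)
    ((Ideal.Quotient.mkₐ ℂ L).comp σ)) L (fun i => by
      change Ideal.Quotient.mk L (X i) = Ideal.Quotient.mk L (σ (X i))
      exact (Ideal.Quotient.eq.2 (XL i)).symm) (fun g hg => by
      change Ideal.Quotient.mk L g = Ideal.Quotient.mk L (σ g)
      rw [Ideal.Quotient.eq_zero_iff_mem.2 hg, Ideal.Quotient.eq_zero_iff_mem.2 (sL g hg)])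
      (rad_of_fin L)
  rw [← T_top sI τ.toLinearMap d1, key, T_top sL LinearMap.id d2, LinearMap.trace_id]

end Pool.Agent.H50.EqDeg
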