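import Mathlib

namespace Pool.Agent.H50.Eul

open Finset

structure GP {L : Type*} [PartialOrder L] (ρ : L → ℕ) : Prop where
  sm : StrictMono ρ
  gr : ∀ x y, x < y → ρ x + 2 ≤ ρ y → ∃ z, x < z ∧ z < y

def Dia {L : Type*} [PartialOrder L] (ρ : L → ℕ) : Prop :=
  ∀ x y, x ≤ y → ρ y = ρ x + 2 → ∃ a b, a ≠ b ∧ ∀ z, (x < z ∧ z < y) ↔ (z = a ∨ z = b)

def ConnA {L : Type*} [PartialOrder L] (ρ : L → ℕ) : Prop :=
  ∀ (x y : L) (S : Set L),
    (∀ w a b, x ≤ w → w < a → w < b → a < y → b < y → ρ w + 2 = ρ y → a ∈ S → b ∈ S) →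
    ∀ a b, x ≤ a → x ≤ b → a < y → b < y → ρ a + 1 = ρ y → ρ b + 1 = ρ y → a ∈ S → b ∈ S

section
variable {L : Type*} [PartialOrder L] {ρ : L → ℕ}

lemma GP.eq (h : GP ρ) {x y : L} (hxy : x ≤ y) (hr : ρ y ≤ ρ x) : x = y := by
  rcases hxy.eq_or_lt with e | e
  · exact e
  · have := h.sm e; omega

lemma lt_of {x y : L} (hxy : x ≤ y) (hr : ρ x < ρ y) : x < y :=
  lt_of_le_of_ne hxy (by rintro rfl; omega)

lemma GP.mid (h : GP ρ) {x y : L} (hxy : x ≤ y) {n : ℕ} (h1 : ρ x ≤ n) (h2 : n ≤ ρ y) :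
    ∃ w, x ≤ w ∧ w ≤ y ∧ ρ w = n := by
  suffices H : ∀ d : ℕ, ∀ x y : L, ρ y ≤ ρ x + d → x ≤ y → ρ x ≤ n → n ≤ ρ y →
      ∃ w, x ≤ w ∧ w ≤ y ∧ ρ w = n from H (ρ y) x y (by omega) hxy h1 h2
  intro d
  induction d with
  | zero => intro x y a b c e; exact ⟨x, le_rfl, b, by omega⟩
  | succ d ih =>
    intro x y a b c e
    by_cases e1 : ρ x = n
    · exact ⟨x, le_rfl, b, e1⟩
    by_cases e2 : ρ y = n
    · exact ⟨y, b, le_rfl, e2⟩
    obtain ⟨z, hz1, hz2⟩ := h.gr x y (lt_of (ρ := ρ) b (by omega)) (by omega)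
    have p1 := h.sm hz1
    have p2 := h.sm hz2
    by_cases e3 : n ≤ ρ z
    · obtain ⟨w, w1, w2, w3⟩ := ih x z (by omega) hz1.le c e3
      exact ⟨w, w1, w2.trans hz2.le, w3⟩
    · obtain ⟨w, w1, w2, w3⟩ := ih z y (by omega) hz2.le (by omega) e
      exact ⟨w, hz1.le.trans w1, w2, w3⟩

lemma Dia.other (h : Dia ρ) {x y a : L} (h1 : x < a) (h2 : a < y) (hr : ρ y = ρ x + 2) :
    ∃ b, b ≠ a ∧ x < b ∧ b < y ∧ ∀ z, x < z → z < y → z = a ∨ z = b := by
  obtain ⟨p, q, hpq, H⟩ := h x y (h1.trans h2).le hr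
  rcases (H a).1 ⟨h1, h2⟩ with e | e
  · subst e
    exact ⟨q, hpq.symm, ((H q).2 (Or.inr rfl)).1, ((H q).2 (Or.inr rfl)).2,
      fun z a b => (H z).1 ⟨a, b⟩⟩
  · subst e
    exact ⟨p, hpq, ((H p).2 (Or.inl rfl)).1, ((H p).2 (Or.inl rfl)).2,
      fun z a b => ((H z).1 ⟨a, b⟩).symm⟩

lemma connB (h : GP ρ) (hA : ConnA ρ) (x : L) (S : Set L) : ∀ (n : ℕ) (y : L), ρ y = n →
    (∀ w a b, w ≤ y → a < w → b < w → x < a → x < b → ρ w = ρ x + 2 → a ∈ S → b ∈ S) →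
    ∀ a b, a ≤ y → b ≤ y → x < a → x < b → ρ a = ρ x + 1 → ρ b = ρ x + 1 → a ∈ S → b ∈ S := by
  intro n
  induction n with
  | zero =>
    intro y hy _ a b ha _ _ _ ra _ _
    have := h.sm.monotone ha
    omega
  | succ n ih =>
    intro y hy hc a b ha hb xa xb ra rb haS
    by_cases e1 : ρ y ≤ ρ x + 1
    · rw [h.eq hb (by omega), ← h.eq ha (by omega)]; exact haS
    by_cases e2 : ρ y = ρ x + 2
    · exact hc y a b le_rfl (lt_of (ρ := ρ) ha (by omega)) (lt_of (ρ := ρ) hb (by omega)) xa xb e2 haS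
    have K : ∀ g c, g ≤ y → ρ g = n → c ≤ g → x < c → ρ c = ρ x + 1 → c ∈ S →
        g ∈ {g | ∀ c, c ≤ g → x < c → ρ c = ρ x + 1 → c ∈ S} := by
      intro g c gy rg cg xc rc cS c' c'g xc' rc'
      exact ih g rg (fun w a b hw => hc w a b (hw.trans gy)) c c' cg c'g xc xc' rc rc' cS
    obtain ⟨g, g1, g2, g3⟩ := h.mid ha (n := n) (by omega) (by omega)
    obtain ⟨g', g1', g2', g3'⟩ := h.mid hb (n := n) (by omega) (by omega)
    refine hA x y {g | ∀ c, c ≤ g → x < c → ρ c = ρ x + 1 → c ∈ S} ?_ g g' (xa.le.trans g1)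
      (xb.le.trans g1') (lt_of (ρ := ρ) g2 (by omega)) (lt_of (ρ := ρ) g2' (by omega)) (by omega)
      (by omega) (K g a g2 g3 g1 xa ra haS) b g1' xb rb
    intro w p q xw wp wq py qy rw' hp
    obtain ⟨c, c1, c2, c3⟩ := h.mid xw (n := ρ x + 1) (by omega) (by omega)
    have xc : x < c := lt_of (ρ := ρ) c1 (by omega)
    have := h.sm wq
    have := h.sm qy
    exact K q c qy.le (by omega) (c2.trans wq.le) xc c3 (hp c (c2.trans wp.le) xc c3)
end

lemma parity {Q : Type*} (I : Finset Q) (σ : Q → ℕ) (s : ℕ) (h : ∀ z ∈ I, s ≤ σ z ∧ σ z ≤ s + 4)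
    (he : #{z ∈ I | Even (σ z)} = #{z ∈ I | Odd (σ z)}) :
    #{z ∈ I | σ z = s} + #{z ∈ I | σ z = s + 2} + #{z ∈ I | σ z = s + 4} =
      #{z ∈ I | σ z = s + 1} + #{z ∈ I | σ z = s + 3} := by
  simp only [Finset.card_filter] at he ⊢
  rw [← Finset.sum_add_distrib, ← Finset.sum_add_distrib, ← Finset.sum_add_distrib]
  rcases Nat.mod_two_eq_zero_or_one s with hs | hs
  · refine Eq.trans (Finset.sum_congr rfl ?_) (he.trans (Finset.sum_congr rfl ?_)) <;>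
    · intro z hz
      have := h z hz
      simp only [Nat.even_iff, Nat.odd_iff]
      split_ifs <;> omega
  · refine Eq.trans (Finset.sum_congr rfl ?_) (he.symm.trans (Finset.sum_congr rfl ?_)) <;>
    · intro z hz
      have := h z hz
      simp only [Nat.even_iff, Nat.odd_iff]
      split_ifs <;> omega

open Classical in
def EulQ {Q : Type*} [PartialOrder Q] [Fintype Q] (σ : Q → ℕ) : Prop :=
  ∀ x y : Q, x < y → #{z ∈ (univ.filter fun z => x ≤ z ∧ z ≤ y) | Even (σ z)} =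
    #{z ∈ (univ.filter fun z => x ≤ z ∧ z ≤ y) | Odd (σ z)}

section
variable {Q : Type*} [PartialOrder Q] [Fintype Q] {σ : Q → ℕ}

lemma gp_of_cov (h : ∀ x y : Q, x ⋖ y → σ y = σ x + 1) : GP σ := by
  constructor
  · classical
    letI : LocallyFiniteOrder Q := Fintype.toLocallyFiniteOrder
    rw [strictMono_iff_forall_covBy]
    intro a b hab
    have := h a b hab
    omega
  · intro x y hxy hr
    by_contra hn
    have := h x y ⟨hxy, fun z a b => hn ⟨z, a, b⟩⟩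
    omega

open Classical in
lemma ends (h : GP σ) {x y : Q} (hxy : x ≤ y) :
    #{z ∈ (univ.filter fun z => x ≤ z ∧ z ≤ y) | σ z = σ x} = 1 ∧
    #{z ∈ (univ.filter fun z => x ≤ z ∧ z ≤ y) | σ z = σ y} = 1 := by
  constructor
  · rw [Finset.card_eq_one]
    refine ⟨x, ?_⟩
    ext z
    simp only [mem_filter, mem_univ, true_and, mem_singleton]
    exact ⟨fun a => (h.eq a.1.1 a.2.le).symm, by rintro rfl; exact ⟨⟨le_rfl, hxy⟩, rfl⟩⟩
  · rw [Finset.card_eq_one]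
    refine ⟨y, ?_⟩
    ext z
    simp only [mem_filter, mem_univ, true_and, mem_singleton]
    exact ⟨fun a => h.eq a.1.2 a.2.ge, by rintro rfl; exact ⟨⟨hxy, le_rfl⟩, rfl⟩⟩

lemma dia_of (h : GP σ) (he : EulQ σ) : Dia σ := by
  classical
  intro x y hxy hr
  have hb : ∀ z ∈ (univ.filter fun z => x ≤ z ∧ z ≤ y), σ x ≤ σ z ∧ σ z ≤ σ x + 2 := by
    intro z hz
    simp only [mem_filter, mem_univ, true_and] at hz
    have := h.sm.monotone hz.1
    have := h.sm.monotone hz.2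
    omega
  have P := parity _ σ (σ x) (fun z hz => by have := hb z hz; omega)
    (by convert he x y (lt_of (ρ := σ) hxy (by omega)))
  obtain ⟨e1, e2⟩ := ends h hxy
  have e3 : #{z ∈ (univ.filter fun z => x ≤ z ∧ z ≤ y) | σ z = σ x + 3} = 0 := by
    rw [Finset.card_eq_zero, Finset.filter_eq_empty_iff]
    intro z hz; have := hb z hz; omega
  have e4 : #{z ∈ (univ.filter fun z => x ≤ z ∧ z ≤ y) | σ z = σ x + 4} = 0 := by
    rw [Finset.card_eq_zero, Finset.filter_eq_empty_iff]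
    intro z hz; have := hb z hz; omega
  rw [hr] at e2
  have e5 : #{z ∈ (univ.filter fun z => x ≤ z ∧ z ≤ y) | σ z = σ x + 1} = 2 := by
    have e1' : #{z ∈ (univ.filter fun z => x ≤ z ∧ z ≤ y) | σ z = σ x} = 1 := by convert e1
    have e2' : #{z ∈ (univ.filter fun z => x ≤ z ∧ z ≤ y) | σ z = σ x + 2} = 1 := by convert e2
    omega
  obtain ⟨a, b, hab, H⟩ := Finset.card_eq_two.1 e5
  refine ⟨a, b, hab, fun z => ?_⟩
  have := Finset.ext_iff.1 H z
  simp only [mem_filter, mem_univ, true_and, mem_insert, mem_singleton] at this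
  rw [← this]
  constructor
  · rintro ⟨p, q⟩
    have := h.sm p
    have := h.sm q
    exact ⟨⟨p.le, q.le⟩, by omega⟩
  · rintro ⟨⟨p, q⟩, r⟩
    exact ⟨lt_of (ρ := σ) p (by omega), lt_of (ρ := σ) q (by omega)⟩
end

end Pool.Agent.H50.Eul
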