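import Pool.Agent.H50.Eul1

namespace Pool.Agent.H50.Eul

open Finset

structure Setup {L Q : Type*} [PartialOrder L] [PartialOrder Q] (ρ : L → ℕ) (σ : Q → ℕ)
    (k : ℕ) (j : L → Q) : Prop where
  gL : GP ρ
  dL : Dia ρ
  cL : ConnA ρ
  meet : ∀ a b : L, ∃ c, ∀ z, z ≤ c ↔ z ≤ a ∧ z ≤ b
  bot : ∃ b : L, ρ b = 0 ∧ ∀ x, b ≤ x
  top : ∃ t : L, k + 2 ≤ ρ t ∧ ∀ x, x ≤ t
  k2 : 2 ≤ k
  gQ : GP σ
  dQ : Dia σ
  qbot : ∃ b : Q, σ b = 0 ∧ ∀ x, b ≤ x
  qtop : ∃ t : Q, ∀ x, x ≤ t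
  j1 : ∀ x, ρ x ≠ k → σ (j x) = ρ x
  j2 : ∀ x y, ρ x ≠ k → ρ y ≠ k → (j x ≤ j y ↔ x ≤ y)
  j3 : ∀ q, σ q ≠ k → ∃ x, ρ x ≠ k ∧ j x = q

def Rel {L Q : Type*} [PartialOrder L] [PartialOrder Q] (ρ : L → ℕ) (k : ℕ) (j : L → Q)
    (e : Q) (h : L) : Prop :=
  ρ h = k ∧ (∀ x, ρ x ≠ k → (j x ≤ e ↔ x ≤ h)) ∧ (∀ y, ρ y ≠ k → (e ≤ j y ↔ h ≤ y))

variable {L Q : Type*} [PartialOrder L] [PartialOrder Q] {ρ : L → ℕ} {σ : Q → ℕ}
  {k : ℕ} {j : L → Q}

lemma Setup.lift (s : Setup ρ σ k j) {q : Q} {n : ℕ} (hq : σ q = n) (hn : n ≠ k) :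
    ∃ x, ρ x = n ∧ j x = q := by
  obtain ⟨x, a, b⟩ := s.j3 q (by omega)
  exact ⟨x, by rw [← s.j1 x a, b, hq], b⟩

lemma Setup.two (s : Setup ρ σ k j) {p q : Q} (hpq : p ≤ q) (hr : σ q = σ p + 2)
    (hn : σ p + 1 ≠ k) : ∃ a b, a ≠ b ∧ ρ a = σ p + 1 ∧ ρ b = σ p + 1 ∧ p < j a ∧ p < j b ∧
      j a < q ∧ j b < q := by
  obtain ⟨a, b, hab, H⟩ := s.dQ p q hpq hr
  obtain ⟨a1, a2⟩ := (H a).2 (Or.inl rfl)
  obtain ⟨b1, b2⟩ := (H b).2 (Or.inr rfl)
  have := s.gQ.sm a1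
  have := s.gQ.sm a2
  have := s.gQ.sm b1
  have := s.gQ.sm b2
  obtain ⟨x, rx, rfl⟩ := s.lift (q := a) (n := σ p + 1) (by omega) hn
  obtain ⟨y, ry, rfl⟩ := s.lift (q := b) (n := σ p + 1) (by omega) hn
  exact ⟨x, y, fun e => hab (by rw [e]), rx, ry, a1, b1, a2, b2⟩

lemma Setup.sq (s : Setup ρ σ k j) {a b c : L} (hab : a ≠ b) (hr : ρ a = ρ b) (ha : a ≤ c)
    (hb : b ≤ c) : ρ a < ρ c := by
  by_contra hn
  exact hab ((s.gL.eq ha (by omega)).trans (s.gL.eq hb (by omega)).symm)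

lemma Setup.rel (s : Setup ρ σ k j) (e : Q) (he : σ e = k) : ∃ h, Rel ρ k j e h := by
  have k2 := s.k2
  obtain ⟨qb, qb0, qb1⟩ := s.qbot
  obtain ⟨qt, qt1⟩ := s.qtop
  obtain ⟨lb, lb0, lb1⟩ := s.bot
  obtain ⟨lt, lt0, lt1⟩ := s.top
  have hqt : k + 2 ≤ σ qt := by
    have := s.gQ.sm.monotone (qt1 (j lt))
    have := s.j1 lt (by omega)
    omega
  obtain ⟨u, u1, -, u3⟩ := s.gQ.mid (qt1 e) (n := k + 2) (by omega) hqt
  obtain ⟨w, -, w2, w3⟩ := s.gQ.mid (qb1 e) (n := k - 2) (by omega) (by omega)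
  obtain ⟨y1, y2, hy, ry1, ry2, ey1, ey2, -, -⟩ := s.two u1 (by omega) (by omega)
  obtain ⟨x1, x2, hx, rx1, rx2, -, -, ex1, ex2⟩ := s.two w2 (by omega) (by omega)
  obtain ⟨H, hH⟩ := s.meet y1 y2
  have low : ∀ x, ρ x ≠ k → j x ≤ e → x ≤ H := fun x hx hxe =>
    (hH x).2 ⟨(s.j2 _ _ hx (by omega)).1 (hxe.trans ey1.le),
      (s.j2 _ _ hx (by omega)).1 (hxe.trans ey2.le)⟩
  have x1H := low x1 (by omega) ex1.le
  have x2H := low x2 (by omega) ex2.le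
  have rH : ρ H = k := by
    have a1 := s.sq hx (by omega) x1H x2H
    obtain ⟨b1, b2⟩ := (hH H).1 le_rfl
    have := s.gL.sm.monotone b1
    by_contra hn
    exact hy ((s.gL.eq b1 (by omega)).symm.trans (s.gL.eq b2 (by omega)))
  have up : ∀ y, ρ y ≠ k → e ≤ j y → H ≤ y := by
    intro y hy hey
    obtain ⟨c, hc⟩ := s.meet H y
    have a1 := s.sq hx (by omega) ((hc x1).2 ⟨x1H, (s.j2 _ _ (by omega) hy).1 (ex1.le.trans hey)⟩)
      ((hc x2).2 ⟨x2H, (s.j2 _ _ (by omega) hy).1 (ex2.le.trans hey)⟩)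
    obtain ⟨b1, b2⟩ := (hc c).1 le_rfl
    rw [← s.gL.eq b1 (by omega)]; exact b2
  refine ⟨H, rH, fun x hx => ⟨low x hx, fun hxH => ?_⟩, fun y hy => ⟨up y hy, fun hHy => ?_⟩⟩
  · have := s.gL.sm.monotone hxH
    obtain ⟨b, b1, b2, b3⟩ := s.gL.mid hxH (n := k - 1) (by omega) (by omega)
    have : b ∈ {x | j x ≤ e} := by
      refine s.cL lb H _ ?_ x1 b (lb1 _) (lb1 _) (lt_of (ρ := ρ) x1H (by omega))
        (lt_of (ρ := ρ) b2 (by omega)) (by omega) (by omega) ex1.le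
      intro w a b _ wa wb aH bH rw' ha
      have := s.gL.sm wa
      have := s.gL.sm aH
      have jw := s.j1 w (by omega)
      have hwe : j w ≤ e := ((s.j2 _ _ (by omega) (by omega)).2 wa.le).trans ha
      obtain ⟨c1, c2, hc, r1, r2, p1, p2, q1, q2⟩ := s.two hwe (by omega) (by omega)
      obtain ⟨b', -, -, -, hb'⟩ := s.dL.other wb bH (by omega)
      have m1 := hb' c1 (lt_of (ρ := ρ) ((s.j2 _ _ (by omega) (by omega)).1 p1.le) (by omega))
        (lt_of (ρ := ρ) (low c1 (by omega) q1.le) (by omega))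
      have m2 := hb' c2 (lt_of (ρ := ρ) ((s.j2 _ _ (by omega) (by omega)).1 p2.le) (by omega))
        (lt_of (ρ := ρ) (low c2 (by omega) q2.le) (by omega))
      rcases m1 with rfl | rfl
      · exact q1.le
      · rcases m2 with rfl | rfl
        · exact q2.le
        · exact absurd rfl hc
    exact ((s.j2 _ _ hx (by omega)).2 b1).trans this
  · have := s.gL.sm.monotone hHy
    obtain ⟨b, b1, b2, b3⟩ := s.gL.mid hHy (n := k + 1) (by omega) (by omega)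
    have : b ∈ {x | e ≤ j x} := by
      refine connB s.gL s.cL H _ _ lt rfl ?_ y1 b (lt1 _) (lt1 _)
        (lt_of (ρ := ρ) (up y1 (by omega) ey1.le) (by omega))
        (lt_of (ρ := ρ) b1 (by omega)) (by omega) (by omega) ey1.le
      intro w a b _ wa wb aH bH rw' ha
      have := s.gL.sm wa
      have := s.gL.sm aH
      have jw := s.j1 w (by omega)
      have hwe : e ≤ j w := le_trans ha ((s.j2 _ _ (by omega) (by omega)).2 wa.le)
      obtain ⟨c1, c2, hc, r1, r2, p1, p2, q1, q2⟩ := s.two hwe (by omega) (by omega)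
      obtain ⟨b', -, -, -, hb'⟩ := s.dL.other bH wb (by omega)
      have m1 := hb' c1 (lt_of (ρ := ρ) (up c1 (by omega) p1.le) (by omega))
        (lt_of (ρ := ρ) ((s.j2 _ _ (by omega) (by omega)).1 q1.le) (by omega))
      have m2 := hb' c2 (lt_of (ρ := ρ) (up c2 (by omega) p2.le) (by omega))
        (lt_of (ρ := ρ) ((s.j2 _ _ (by omega) (by omega)).1 q2.le) (by omega))
      rcases m1 with rfl | rfl
      · exact p1.le
      · rcases m2 with rfl | rfl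
        · exact p2.le
        · exact absurd rfl hc
    exact le_trans this ((s.j2 _ _ (by omega) hy).2 b2)

open Classical in
noncomputable def fib [Fintype Q] (σ : Q → ℕ) (k : ℕ) (H : Q → L) (a : L) : Finset Q :=
  univ.filter fun e => σ e = k ∧ H e = a

lemma mem_fib [Fintype Q] {H : Q → L} {a : L} {e : Q} :
    e ∈ fib σ k H a ↔ σ e = k ∧ H e = a := by
  simp [fib]

lemma fib_disj [Fintype Q] {H : Q → L} {a b : L} (h : a ≠ b) :
    Disjoint (fib σ k H a) (fib σ k H b) := by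
  rw [Finset.disjoint_left]
  intro e h1 h2
  exact h ((mem_fib.1 h1).2.symm.trans (mem_fib.1 h2).2)

lemma Setup.sum [Fintype Q] (s : Setup ρ σ k j) {H : Q → L} (hH : ∀ e, σ e = k → Rel ρ k j e (H e))
    {w y a b : L} (rw' : ρ w + 1 = k) (ry : ρ y = k + 1) (wa : w < a) (wb : w < b) (ay : a < y)
    (by' : b < y) (hab : a ≠ b) : #(fib σ k H a) + #(fib σ k H b) = 2 := by
  classical
  have jw := s.j1 w (by omega)
  have jy := s.j1 y (by omega)
  obtain ⟨p, q, hpq, hq⟩ := s.dQ (j w) (j y) ((s.j2 _ _ (by omega) (by omega)).2 (wa.trans ay).le)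
    (by omega)
  obtain ⟨b', -, -, -, hb'⟩ := s.dL.other wa ay (by omega)
  have : b = b' := (hb' b wb by').resolve_left hab.symm
  subst this
  rw [← Finset.card_union_of_disjoint (fib_disj hab), Finset.card_eq_two]
  refine ⟨p, q, hpq, ?_⟩
  ext e
  simp only [mem_union, mem_fib, mem_insert, mem_singleton, ← hq]
  constructor
  · intro h
    have he : σ e = k := by rcases h with h | h <;> exact h.1
    obtain ⟨r1, r2, r3⟩ := hH e he
    have : w ≤ H e ∧ H e ≤ y := by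
      rcases h with h | h <;> rw [h.2]
      exacts [⟨wa.le, ay.le⟩, ⟨wb.le, by'.le⟩]
    exact ⟨lt_of (ρ := σ) ((r2 w (by omega)).2 this.1) (by omega),
      lt_of (ρ := σ) ((r3 y (by omega)).2 this.2) (by omega)⟩
  · rintro ⟨h1, h2⟩
    have := s.gQ.sm h1
    have := s.gQ.sm h2
    have he : σ e = k := by omega
    obtain ⟨r1, r2, r3⟩ := hH e he
    rcases hb' (H e) (lt_of (ρ := ρ) ((r2 w (by omega)).1 h1.le) (by omega))
      (lt_of (ρ := ρ) ((r3 y (by omega)).1 h2.le) (by omega)) with h | h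
    exacts [Or.inl ⟨he, h⟩, Or.inr ⟨he, h⟩]

end Pool.Agent.H50.Eul
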