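import Pool.Agent.H50.Eul2

namespace Pool.Agent.H50.Eul

open Finset

variable {L Q : Type*} [PartialOrder L] [PartialOrder Q] {ρ : L → ℕ} {σ : Q → ℕ}
  {k : ℕ} {j : L → Q}

lemma Setup.allbad [Fintype Q] (s : Setup ρ σ k j) {H : Q → L}
    (hH : ∀ e, σ e = k → Rel ρ k j e (H e)) {x z h : L} (rx : ρ x + 2 = k) (rz : ρ z = k + 2)
    (xh : x ≤ h) (hz : h ≤ z) (rh : ρ h = k) (bad : #(fib σ k H h) ≠ 1) :
    ∀ a, x ≤ a → a ≤ z → ρ a = k → #(fib σ k H a) ≠ 1 := by
  have K : ∀ y c, ρ y = k + 1 → x ≤ c → c ≤ y → ρ c = k → #(fib σ k H c) ≠ 1 →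
      y ∈ {y | ∀ a, x ≤ a → a ≤ y → ρ a = k → #(fib σ k H a) ≠ 1} := by
    intro y c ry xc cy rc bc a xa ay ra
    refine s.cL x y {a | #(fib σ k H a) ≠ 1} ?_ c a xc xa (lt_of (ρ := ρ) cy (by omega))
      (lt_of (ρ := ρ) ay (by omega)) (by omega) (by omega) bc
    intro w p q _ wp wq py qy rw' hp
    by_cases e : p = q
    · rw [← e]; exact hp
    have := s.sum hH (by omega) ry wp wq py qy e
    simp only [Set.mem_setOf_eq] at hp ⊢
    omega
  intro a xa az ra
  obtain ⟨y, y1, y2, y3⟩ := s.gL.mid hz (n := k + 1) (by omega) (by omega)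
  obtain ⟨y', y1', y2', y3'⟩ := s.gL.mid az (n := k + 1) (by omega) (by omega)
  refine s.cL x z {y | ∀ a, x ≤ a → a ≤ y → ρ a = k → #(fib σ k H a) ≠ 1} ?_ y y' (xh.trans y1)
    (xa.trans y1') (lt_of (ρ := ρ) y2 (by omega)) (lt_of (ρ := ρ) y2' (by omega)) (by omega)
    (by omega) (K y h y3 xh y1 rh bad) a xa y1' ra
  intro w p q xw wp wq pz qz rw' hp
  have := s.gL.sm wq
  have := s.gL.sm qz
  exact K q w (by omega) xw wq.le (by omega) (hp w xw wp.le (by omega))

lemma Setup.split [Fintype Q] (s : Setup ρ σ k j) {H : Q → L}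
    (hH : ∀ e, σ e = k → Rel ρ k j e (H e)) {x z : L}
    (bad : ∀ a, x ≤ a → a ≤ z → ρ a = k → #(fib σ k H a) ≠ 1) {v y : L} (xv : x ≤ v) (vy : v ≤ y)
    (yz : y ≤ z) (rv : ρ v + 1 = k) (ry : ρ y = k + 1) :
    ∃ a b, v < a ∧ v < b ∧ a < y ∧ b < y ∧ ρ a = k ∧ ρ b = k ∧ #(fib σ k H a) = 2 ∧
      #(fib σ k H b) = 0 := by
  obtain ⟨a, b, hab, H'⟩ := s.dL v y vy (by omega)
  obtain ⟨a1, a2⟩ := (H' a).2 (Or.inl rfl)
  obtain ⟨b1, b2⟩ := (H' b).2 (Or.inr rfl)
  have := s.gL.sm a1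
  have := s.gL.sm a2
  have := s.gL.sm b1
  have := s.gL.sm b2
  have e := s.sum hH rv ry a1 b1 a2 b2 hab
  have := bad a (xv.trans a1.le) (a2.le.trans yz) (by omega)
  by_cases h0 : #(fib σ k H b) = 0
  · exact ⟨a, b, a1, b1, a2, b2, by omega, by omega, by omega, h0⟩
  · exact ⟨b, a, b1, a1, b2, a2, by omega, by omega, by omega, by omega⟩

lemma Setup.one [Fintype Q] (s : Setup ρ σ k j) (hE : EulQ σ) {H : Q → L}
    (hH : ∀ e, σ e = k → Rel ρ k j e (H e)) (h : L) (rh : ρ h = k) : #(fib σ k H h) = 1 := by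
  classical
  by_contra bad0
  have k2 := s.k2
  obtain ⟨lb, lb0, lb1⟩ := s.bot
  obtain ⟨lt, lt0, lt1⟩ := s.top
  obtain ⟨x, -, xh, rx⟩ := s.gL.mid (lb1 h) (n := k - 2) (by omega) (by omega)
  obtain ⟨z, hz, -, rz⟩ := s.gL.mid (lt1 h) (n := k + 2) (by omega) (by omega)
  have bad := s.allbad hH (by omega) rz xh hz rh bad0
  have jx := s.j1 x (by omega)
  have jz := s.j1 z (by omega)
  have xz : j x ≤ j z := (s.j2 _ _ (by omega) (by omega)).2 (xh.trans hz)
  set I : Finset Q := univ.filter fun q => j x ≤ q ∧ q ≤ j z with hI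
  have mI : ∀ q, q ∈ I ↔ j x ≤ q ∧ q ≤ j z := by simp [hI]
  have P := parity I σ (σ (j x)) (fun q hq => by
    have := s.gQ.sm.monotone ((mI q).1 hq).1
    have := s.gQ.sm.monotone ((mI q).1 hq).2
    omega) (by convert hE _ _ (lt_of (ρ := σ) xz (by omega)))
  obtain ⟨e1, e2⟩ := ends s.gQ xz
  have e1' : #{q ∈ I | σ q = σ (j x)} = 1 := by convert e1
  have e2' : #{q ∈ I | σ q = σ (j x) + 4} = 1 := by
    rw [show σ (j x) + 4 = σ (j z) by omega]; convert e2
  have four : ∀ (r : Q → Prop) [DecidablePred r] (a c : L), a ≠ c → ρ a = k → ρ c = k → x ≤ a → x ≤ c →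
      a ≤ z → c ≤ z → #(fib σ k H a) = 2 → #(fib σ k H c) = 2 →
      (∀ e, σ e = k → H e = a ∨ H e = c → r e) →
      4 ≤ #{e ∈ {q ∈ I | σ q = σ (j x) + 2} | r e} := by
    intro r _ a c hac ra rc xa xc az cz ca cc hr
    have : #(fib σ k H a ∪ fib σ k H c) = 4 := by
      rw [Finset.card_union_of_disjoint (fib_disj hac)]; omega
    rw [← this]
    refine Finset.card_le_card fun e he => ?_
    simp only [mem_union, mem_fib] at he
    have he' : σ e = k := by rcases he with h | h <;> exact h.1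
    obtain ⟨r1, r2, r3⟩ := hH e he'
    have : x ≤ H e ∧ H e ≤ z := by
      rcases he with h | h <;> rw [h.2]
      exacts [⟨xa, az⟩, ⟨xc, cz⟩]
    simp only [mem_filter, mI]
    exact ⟨⟨⟨(r2 x (by omega)).2 this.1, (r3 z (by omega)).2 this.2⟩, by omega⟩,
      hr e he' (he.imp (·.2) (·.2))⟩
  have two : ∀ (p q : Q) (T : Finset Q), p ≤ q → σ q = σ p + 2 → (∀ t ∈ T, p < t ∧ t < q) →
      #T ≤ 2 := by
    intro p q T hpq hr hT
    obtain ⟨a, b, -, H'⟩ := s.dQ p q hpq hr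
    refine le_trans (Finset.card_le_card (t := {a, b}) fun t ht => ?_) Finset.card_le_two
    simpa using (H' t).1 (hT t ht)
  have cF : #{q ∈ I | σ q = σ (j x) + 3} * 4 ≤ #{q ∈ I | σ q = σ (j x) + 2} * 2 := by
    refine Finset.card_mul_le_card_mul (fun q e => e ≤ q) ?_ ?_
    · intro q hq
      simp only [mem_filter, mI] at hq
      obtain ⟨y, ry, rfl⟩ := s.lift (q := q) (n := k + 1) (by omega) (by omega)
      have xy := (s.j2 _ _ (by omega) (by omega)).1 hq.1.1
      have yz := (s.j2 _ _ (by omega) (by omega)).1 hq.1.2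
      obtain ⟨v, xv, vy, rv⟩ := s.gL.mid xy (n := k - 1) (by omega) (by omega)
      obtain ⟨a, b, va, vb, ay, by', ra, rb, ca, cb⟩ := s.split hH bad xv vy yz (by omega) ry
      obtain ⟨v', hv, xv', v'b, -⟩ := s.dL.other (lt_of (ρ := ρ) xv (by omega)) vb (by omega)
      have := s.gL.sm xv'
      have := s.gL.sm v'b
      obtain ⟨c, hc, v'c, cy, -⟩ := s.dL.other v'b by' (by omega)
      have := s.gL.sm v'c
      have := s.gL.sm cy
      have := s.sum hH (by omega) ry v'b v'c by' cy hc.symm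
      refine four _ a c ?_ ra (by omega) (xv.trans va.le) (xv'.trans v'c).le (ay.le.trans yz)
        (cy.le.trans yz) ca (by omega) ?_
      · rintro rfl
        obtain ⟨m, hm⟩ := s.meet a b
        have := s.sq hv (by omega) ((hm _).2 ⟨v'c.le, v'b.le⟩) ((hm _).2 ⟨va.le, vb.le⟩)
        obtain ⟨m1, m2⟩ := (hm m).1 le_rfl
        exact hc ((s.gL.eq m1 (by omega)).symm.trans (s.gL.eq m2 (by omega)))
      · intro e he h'
        refine ((hH e he).2.2 y (by omega)).2 ?_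
        rcases h' with h' | h' <;> rw [h']
        exacts [ay.le, cy.le]
    · intro e he
      simp only [mem_filter, mI] at he
      refine two e (j z) _ he.1.2 (by omega) fun t ht => ?_
      simp only [Finset.bipartiteBelow, mem_filter, mI] at ht
      exact ⟨lt_of (ρ := σ) ht.2 (by omega), lt_of (ρ := σ) ht.1.1.2 (by omega)⟩
  have cV : #{q ∈ I | σ q = σ (j x) + 1} * 4 ≤ #{q ∈ I | σ q = σ (j x) + 2} * 2 := by
    refine Finset.card_mul_le_card_mul (fun q e => q ≤ e) ?_ ?_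
    · intro q hq
      simp only [mem_filter, mI] at hq
      obtain ⟨v, rv, rfl⟩ := s.lift (q := q) (n := k - 1) (by omega) (by omega)
      have xv := (s.j2 _ _ (by omega) (by omega)).1 hq.1.1
      have vz := (s.j2 _ _ (by omega) (by omega)).1 hq.1.2
      obtain ⟨y, vy, yz, ry⟩ := s.gL.mid vz (n := k + 1) (by omega) (by omega)
      obtain ⟨a, b, va, vb, ay, by', ra, rb, ca, cb⟩ := s.split hH bad xv vy yz (by omega) ry
      obtain ⟨y', hy, by'', y'z, -⟩ := s.dL.other by' (lt_of (ρ := ρ) yz (by omega)) (by omega)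
      have := s.gL.sm by''
      have := s.gL.sm y'z
      obtain ⟨c, hc, vc, cy, -⟩ := s.dL.other vb by'' (by omega)
      have := s.gL.sm vc
      have := s.gL.sm cy
      have := s.sum hH (by omega) (by omega) vb vc by'' cy hc.symm
      refine four _ a c ?_ ra (by omega) (xv.trans va.le) (xv.trans vc.le) (ay.le.trans yz)
        (cy.trans y'z).le ca (by omega) ?_
      · rintro rfl
        obtain ⟨m, hm⟩ := s.meet y y'
        have := s.sq hc (by omega) ((hm _).2 ⟨ay.le, cy.le⟩) ((hm _).2 ⟨by'.le, by''.le⟩)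
        obtain ⟨m1, m2⟩ := (hm m).1 le_rfl
        have := s.gL.sm.monotone m1
        exact hy ((s.gL.eq m2 (by omega)).symm.trans (s.gL.eq m1 (by omega)))
      · intro e he h'
        refine ((hH e he).2.1 v (by omega)).2 ?_
        rcases h' with h' | h' <;> rw [h']
        exacts [va.le, vc.le]
    · intro e he
      simp only [mem_filter, mI] at he
      refine two (j x) e _ he.1.1 (by omega) fun t ht => ?_
      simp only [Finset.bipartiteBelow, mem_filter, mI] at ht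
      exact ⟨lt_of (ρ := σ) ht.1.1.1 (by omega), lt_of (ρ := σ) ht.2 (by omega)⟩
  omega

theorem Setup.iso [Fintype Q] (s : Setup ρ σ k j) (hE : EulQ σ) :
    ∃ Φ : L ≃o Q, ∀ x, ρ x ≠ k → Φ x = j x := by
  classical
  have : ∀ e, ∃ h, σ e = k → Rel ρ k j e h := by
    intro e
    by_cases he : σ e = k
    · obtain ⟨h, hh⟩ := s.rel e he
      exact ⟨h, fun _ => hh⟩
    · exact ⟨s.bot.choose, fun h => absurd h he⟩
  choose H hH using this
  have : ∀ h, ∃ e, (ρ h = k → ∀ e', (σ e' = k ∧ H e' = h) ↔ e' = e) ∧ (ρ h ≠ k → e = j h) := by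
    intro h
    by_cases rh : ρ h = k
    · obtain ⟨e, he⟩ := Finset.card_eq_one.1 (s.one hE hH h rh)
      refine ⟨e, fun _ e' => ?_, fun a => absurd rh a⟩
      rw [← mem_fib, he, mem_singleton]
    · exact ⟨j h, fun a => absurd a rh, fun _ => rfl⟩
  choose f f1 f2 using this
  have hle : ∀ a b, f a ≤ f b ↔ a ≤ b := by
    intro a b
    by_cases ra : ρ a = k <;> by_cases rb : ρ b = k
    · obtain ⟨a1, a2⟩ := (f1 a ra (f a)).2 rfl
      obtain ⟨b1, b2⟩ := (f1 b rb (f b)).2 rfl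
      constructor
      · intro h
        rw [← a2, ← b2, s.gQ.eq h (by omega)]
      · intro h
        rw [s.gL.eq h (by omega)]
    · obtain ⟨a1, a2⟩ := (f1 a ra (f a)).2 rfl
      rw [f2 b rb, (hH _ a1).2.2 b rb, a2]
    · obtain ⟨b1, b2⟩ := (f1 b rb (f b)).2 rfl
      rw [f2 a ra, (hH _ b1).2.1 a ra, b2]
    · rw [f2 a ra, f2 b rb, s.j2 a b ra rb]
  refine ⟨RelIso.ofSurjective (OrderEmbedding.ofMapLEIff f hle) ?_, fun x hx => f2 x hx⟩
  intro q
  by_cases hq : σ q = k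
  · exact ⟨H q, ((f1 _ (hH q hq).1 q).1 ⟨hq, rfl⟩).symm⟩
  · obtain ⟨x, a, b⟩ := s.j3 q hq
    exact ⟨x, (f2 x a).trans b⟩

end Pool.Agent.H50.Eul
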