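import Pool.Agent.H50.Eul3

namespace Pool.Agent.H50.Eul

open Module Submodule

variable {W : Type*} [AddCommGroup W] [Module ℝ W]

def IsF (V : Set W) (F : Set W) : Prop :=
  ∃ φ : W →ₗ[ℝ] ℝ, (∀ v ∈ V, 0 ≤ φ v) ∧ F = {v | v ∈ V ∧ φ v = 0}

abbrev CF (V : Set W) := {F : Set W // IsF V F}

noncomputable def rk {V : Set W} (F : CF V) : ℕ := finrank ℝ (span ℝ F.1)

variable {V : Set W}

lemma CF.fn (F : CF V) : ∃ φ : W →ₗ[ℝ] ℝ, (∀ v ∈ V, 0 ≤ φ v) ∧ (∀ v ∈ F.1, φ v = 0) ∧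
    (∀ v ∈ V, v ∉ F.1 → 0 < φ v) := by
  obtain ⟨φ, h1, h2⟩ := F.2
  refine ⟨φ, h1, fun v hv => ?_, fun v hv hn => ?_⟩
  · rw [h2] at hv; exact hv.2
  · refine lt_of_le_of_ne (h1 v hv) fun e => hn ?_
    rw [h2]; exact ⟨hv, e.symm⟩

lemma CF.sub (F : CF V) : F.1 ⊆ V := by
  obtain ⟨φ, -, h2⟩ := F.2
  rw [h2]; exact fun v hv => hv.1

lemma sub_face (hV : V.Finite) (Z : CF V) (φ : W →ₗ[ℝ] ℝ) (h : ∀ v ∈ Z.1, 0 ≤ φ v) :
    IsF V {v | v ∈ Z.1 ∧ φ v = 0} := by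
  obtain ⟨ζ, z1, z2, z3⟩ := Z.fn
  obtain ⟨M, hM⟩ := (hV.image fun v => -φ v / ζ v).bddAbove
  have key : ∀ v ∈ V, v ∉ Z.1 → 0 < φ v + (M + 1) * ζ v := by
    intro v hv hn
    have p := z3 v hv hn
    have := hM ⟨v, hv, rfl⟩
    simp only at this
    rw [div_le_iff₀ p] at this
    nlinarith
  refine ⟨φ + (M + 1) • ζ, fun v hv => ?_, ?_⟩
  · by_cases hz : v ∈ Z.1
    · simpa [z2 v hz] using h v hz
    · simpa using (key v hv hz).le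
  · ext v
    simp only [Set.mem_setOf_eq, LinearMap.add_apply, LinearMap.smul_apply, smul_eq_mul]
    constructor
    · rintro ⟨a, b⟩
      exact ⟨Z.sub a, by simp [b, z2 v a]⟩
    · rintro ⟨a, b⟩
      by_cases hz : v ∈ Z.1
      · exact ⟨hz, by simpa [z2 v hz] using b⟩
      · exact absurd b (key v a hz).ne'

lemma meet_face (hV : V.Finite) (a b : CF V) : ∃ c : CF V, c.1 = a.1 ∩ b.1 := by
  obtain ⟨φ, h1, h2, h3⟩ := b.fn
  refine ⟨⟨_, sub_face hV a φ fun v hv => h1 v (a.sub hv)⟩, ?_⟩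
  ext v
  refine ⟨fun h => ⟨h.1, ?_⟩, fun h => ⟨h.1, h2 v h.2⟩⟩
  by_contra hn
  exact (h3 v (a.sub h.1) hn).ne' h.2

lemma van {S : Set W} {φ : W →ₗ[ℝ] ℝ} (h : ∀ v ∈ S, φ v = 0) {b : W} (hb : b ∈ span ℝ S) :
    φ b = 0 :=
  (span_le.2 (show S ⊆ (LinearMap.ker φ : Set W) from fun v hv => h v hv)) hb

lemma ex_lt {x y : CF V} (h : x < y) : ∃ u ∈ y.1, u ∉ x.1 :=
  Set.exists_of_ssubset (show x.1 ⊂ y.1 from h)

variable [FiniteDimensional ℝ W]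

lemma rk_sm : StrictMono (rk (V := V)) := by
  intro x y h
  obtain ⟨u, u1, u2⟩ := ex_lt h
  obtain ⟨φ, h1, h2, h3⟩ := x.fn
  refine Submodule.finrank_lt_finrank_of_lt (lt_of_le_of_ne (span_mono h.le) fun e => ?_)
  exact (h3 u (y.sub u1) u2).ne' (van h2 (e ▸ subset_span u1))

lemma ker_rk (B : Submodule ℝ W) (f : W →ₗ[ℝ] ℝ) :
    finrank ℝ B ≤ finrank ℝ (B ⊓ LinearMap.ker f : Submodule ℝ W) + 1 := by
  have h1 := Submodule.finrank_sup_add_finrank_inf_eq B (LinearMap.ker f)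
  have h2 := LinearMap.finrank_range_add_finrank_ker f
  have h3 := Submodule.finrank_le (LinearMap.range f)
  have h4 := Submodule.finrank_le (B ⊔ LinearMap.ker f)
  rw [Module.finrank_self] at h3
  omega

lemma ex_fn (A K : Submodule ℝ W) (h : finrank ℝ A < finrank ℝ K) :
    ∃ (χ : W →ₗ[ℝ] ℝ) (b : W), b ∈ K ∧ (∀ v ∈ A, χ v = 0) ∧ χ b ≠ 0 := by
  have : ¬ K ≤ A := fun e => absurd (Submodule.finrank_mono e) (by omega)
  obtain ⟨b, b1, b2⟩ := SetLike.not_le_iff_exists.1 this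
  obtain ⟨χ, c1, c2⟩ := Submodule.exists_le_ker_of_notMem b2
  exact ⟨χ, b, b1, fun v hv => c2 hv, c1⟩

def Good (y : CF V) (ω ψ : W →ₗ[ℝ] ℝ) : Prop := ¬ ∃ c : ℝ, ∀ v ∈ y.1, ψ v = c * ω v

def IsMn (x y : CF V) (ω ψ : W →ₗ[ℝ] ℝ) (u : W) : Prop :=
  ∀ v ∈ y.1 \ x.1, ψ u * ω v ≤ ψ v * ω u

omit [FiniteDimensional ℝ W] in
lemma ex_min (hV : V.Finite) {x y : CF V} (hxy : x < y) {ω : W →ₗ[ℝ] ℝ}
    (h3 : ∀ v ∈ V, v ∉ x.1 → 0 < ω v) (ψ : W →ₗ[ℝ] ℝ) : ∃ u ∈ y.1 \ x.1, IsMn x y ω ψ u := by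
  obtain ⟨u, hu, hm⟩ := Set.exists_min_image (y.1 \ x.1) (fun v => ψ v / ω v)
    (hV.subset fun v hv => y.sub hv.1) (ex_lt hxy)
  refine ⟨u, hu, fun v hv => ?_⟩
  have := hm v hv
  rwa [div_le_div_iff₀ (h3 u (y.sub hu.1) hu.2) (h3 v (y.sub hv.1) hv.2)] at this

omit [FiniteDimensional ℝ W] in
lemma min_face (hV : V.Finite) {x y : CF V} (hxy : x ≤ y) {ω ψ : W →ₗ[ℝ] ℝ}
    (h2 : ∀ v ∈ x.1, ω v = 0) (h3 : ∀ v ∈ V, v ∉ x.1 → 0 < ω v) (hψ : ∀ v ∈ x.1, ψ v = 0)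
    (hg : Good y ω ψ) {u : W} (hu : u ∈ y.1 \ x.1) (hm : IsMn x y ω ψ u) :
    ∃ F : CF V, x < F ∧ F < y ∧ ∀ v ∈ y.1 \ x.1, (v ∈ F.1 ↔ IsMn x y ω ψ v) := by
  have pu := h3 u (y.sub hu.1) hu.2
  have hF := sub_face hV y (ω u • ψ - ψ u • ω) fun v hv => by
    by_cases hx : v ∈ x.1
    · simp [h2 v hx, hψ v hx]
    · have := hm v ⟨hv, hx⟩
      simp only [LinearMap.sub_apply, LinearMap.smul_apply, smul_eq_mul]
      linarith
  have mem : ∀ v, v ∈ (⟨_, hF⟩ : CF V).1 ↔ v ∈ y.1 ∧ ω u * ψ v - ψ u * ω v = 0 := fun v => by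
    simp
  refine ⟨⟨_, hF⟩, lt_of_le_of_ne (fun v hv => (mem v).2 ⟨hxy hv, by simp [h2 v hv, hψ v hv]⟩)
    fun e => hu.2 ?_, lt_of_le_of_ne (fun v hv => ((mem v).1 hv).1) fun e => hg ?_, ?_⟩
  · rw [e]; exact (mem u).2 ⟨hu.1, by ring⟩
  · refine ⟨ψ u / ω u, fun v hv => ?_⟩
    rw [← e] at hv
    have := ((mem v).1 hv).2
    field_simp
    linarith
  · intro v hv
    have pv := h3 v (y.sub hv.1) hv.2
    rw [mem]
    constructor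
    · rintro ⟨-, e⟩ t ht
      have := hm t ht
      have pt := h3 t (y.sub ht.1) ht.2
      by_contra hn
      push Not at hn
      have e1 : ω u * (ψ t * ω v) < ω u * (ψ v * ω t) := mul_lt_mul_of_pos_left hn pu
      have e2 : ω v * (ψ u * ω t) ≤ ω v * (ψ t * ω u) := mul_le_mul_of_nonneg_left this pv.le
      have e3 : ω u * (ψ v * ω t) = ω v * (ψ u * ω t) := by linear_combination ω t * e
      linarith
    · intro h
      have a := h u hu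
      have b := hm v hv
      exact ⟨hv.1, by linarith⟩

lemma ex_good {x y : CF V} (hr : rk x + 2 ≤ rk y) (ω : W →ₗ[ℝ] ℝ) :
    ∃ ψ : W →ₗ[ℝ] ℝ, (∀ v ∈ x.1, ψ v = 0) ∧ Good y ω ψ := by
  have := ker_rk (span ℝ y.1) ω
  obtain ⟨χ, b, b1, b2, b3⟩ := ex_fn (span ℝ x.1) (span ℝ y.1 ⊓ LinearMap.ker ω)
    (by unfold rk at hr; omega)
  refine ⟨χ, fun v hv => b2 v (subset_span hv), ?_⟩
  rintro ⟨c, hc⟩
  have := van (φ := χ - c • ω) (fun v hv => by simp [hc v hv]) b1.1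
  have e : ω b = 0 := b1.2
  simp [e, b3] at this

lemma gp_cf (hV : V.Finite) : GP (rk (V := V)) := by
  refine ⟨rk_sm, fun x y hxy hr => ?_⟩
  obtain ⟨ω, -, h2, h3⟩ := x.fn
  obtain ⟨ψ, p1, p2⟩ := ex_good hr ω
  obtain ⟨u, u1, u2⟩ := ex_min hV hxy h3 ψ
  obtain ⟨F, a, b, -⟩ := min_face hV hxy.le h2 h3 p1 p2 u1 u2
  exact ⟨F, a, b⟩

lemma apart (hV : V.Finite) {x a b : CF V} (xa : x < a) (xb : x < b) (ra : rk a = rk x + 1)
    (rb : rk b = rk x + 1) (hab : a ≠ b) {u : W} (hu : u ∈ a.1) (hx : u ∉ x.1) : u ∉ b.1 := by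
  intro hb
  obtain ⟨c, hc⟩ := meet_face hV a b
  have xc : x < c := lt_of_le_of_ne (fun v hv => hc ▸ ⟨xa.le hv, xb.le hv⟩)
    fun e => hx (by rw [e, hc]; exact ⟨hu, hb⟩)
  have := rk_sm xc
  have ca : c ≤ a := fun v hv => (hc ▸ hv : v ∈ a.1 ∩ b.1).1
  have cb : c ≤ b := fun v hv => (hc ▸ hv : v ∈ a.1 ∩ b.1).2
  exact hab (((gp_cf hV).eq ca (by omega)).symm.trans ((gp_cf hV).eq cb (by omega)))

lemma dia_cf (hV : V.Finite) : Dia (rk (V := V)) := by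
  intro x y hle hr
  have hxy : x < y := lt_of (ρ := rk) hle (by omega)
  obtain ⟨ω, -, h2, h3⟩ := x.fn
  obtain ⟨ψ, p1, p2⟩ := ex_good hr.ge ω
  obtain ⟨u, u1, u2⟩ := ex_min hV hxy h3 ψ
  obtain ⟨F, a, b, c⟩ := min_face hV hle h2 h3 p1 p2 u1 u2
  obtain ⟨u', u1', u2'⟩ := ex_min hV hxy h3 (-ψ)
  obtain ⟨G, a', b', c'⟩ := min_face hV hle h2 h3 (ψ := -ψ) (fun v hv => by simp [p1 v hv])
    (fun ⟨c, hc⟩ => p2 ⟨-c, fun v hv => by have := hc v hv; simp at this; linarith⟩) u1' u2'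
  have hFG : F ≠ G := by
    rintro rfl
    have m := (c' u u1).1 ((c u u1).2 u2)
    have pu := h3 u (y.sub u1.1) u1.2
    refine p2 ⟨ψ u / ω u, fun v hv => ?_⟩
    by_cases hx : v ∈ x.1
    · simp [h2 v hx, p1 v hx]
    · have e1 := m v ⟨hv, hx⟩
      have e2 := u2 v ⟨hv, hx⟩
      simp only [LinearMap.neg_apply] at e1
      field_simp
      linarith
  refine ⟨F, G, hFG, fun z => ⟨fun ⟨xz, zy⟩ => ?_, ?_⟩⟩
  swap
  · rintro (rfl | rfl)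
    exacts [⟨a, b⟩, ⟨a', b'⟩]
  by_contra hn
  push Not at hn
  have r1 := rk_sm a
  have r2 := rk_sm b
  have r3 := rk_sm a'
  have r4 := rk_sm b'
  have r5 := rk_sm xz
  have r6 := rk_sm zy
  obtain ⟨φ1, -, f2, f3⟩ := F.fn
  obtain ⟨φ2, -, g2, g3⟩ := G.fn
  obtain ⟨φ3, -, k2, k3⟩ := z.fn
  obtain ⟨v1, s1, t1⟩ := ex_lt a
  obtain ⟨v2, s2, t2⟩ := ex_lt a'
  obtain ⟨v3, s3, t3⟩ := ex_lt xz
  have q21 := g3 v1 (F.sub s1) (apart hV a a' (by omega) (by omega) hFG s1 t1)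
  have q31 := k3 v1 (F.sub s1) (apart hV a xz (by omega) (by omega) hn.1.symm s1 t1)
  have q12 := f3 v2 (G.sub s2) (apart hV a' a (by omega) (by omega) hFG.symm s2 t2)
  have q32 := k3 v2 (G.sub s2) (apart hV a' xz (by omega) (by omega) hn.2.symm s2 t2)
  have q13 := f3 v3 (z.sub s3) (apart hV xz a (by omega) (by omega) hn.1 s3 t3)
  have q23 := g3 v3 (z.sub s3) (apart hV xz a' (by omega) (by omega) hn.2 s3 t3)
  have y1 : v1 ∈ span ℝ y.1 := subset_span (b.le s1)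
  have y2 : v2 ∈ span ℝ y.1 := subset_span (b'.le s2)
  have y3 : v3 ∈ span ℝ y.1 := subset_span (zy.le s3)
  have l1 : span ℝ y.1 ⊓ LinearMap.ker φ1 < span ℝ y.1 :=
    lt_of_le_of_ne inf_le_left fun e => q12.ne' (e.ge y2).2
  have l2 : span ℝ y.1 ⊓ LinearMap.ker φ1 ⊓ LinearMap.ker φ2 < span ℝ y.1 ⊓ LinearMap.ker φ1 :=
    lt_of_le_of_ne inf_le_left fun e => q21.ne' (e.ge (⟨y1, f2 v1 s1⟩ : v1 ∈ span ℝ y.1 ⊓ LinearMap.ker φ1)).2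
  have l3 : span ℝ x.1 < span ℝ y.1 ⊓ LinearMap.ker φ1 ⊓ LinearMap.ker φ2 := by
    refine lt_of_le_of_ne (span_le.2 fun v hv =>
      ⟨⟨subset_span (hle hv), f2 v (a.le hv)⟩, g2 v (a'.le hv)⟩) fun e => ?_
    have hb : v3 - (φ2 v3 / φ2 v1) • v1 - (φ1 v3 / φ1 v2) • v2 ∈
        span ℝ y.1 ⊓ LinearMap.ker φ1 ⊓ LinearMap.ker φ2 := by
      refine ⟨⟨sub_mem (sub_mem y3 (smul_mem _ _ y1)) (smul_mem _ _ y2), ?_⟩, ?_⟩
      · simp [f2 v1 s1, q12.ne']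
      · simp [g2 v2 s2, q21.ne']
    have := van (φ := φ3) (fun v hv => k2 v (xz.le hv)) (e.ge hb)
    simp only [map_sub, map_smul, smul_eq_mul, k2 v3 s3] at this
    have := mul_pos (div_pos q23 q21) q31
    have := mul_pos (div_pos q13 q12) q32
    linarith
  have := Submodule.finrank_lt_finrank_of_lt l1
  have := Submodule.finrank_lt_finrank_of_lt l2
  have := Submodule.finrank_lt_finrank_of_lt l3
  unfold rk at hr
  omega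

end Pool.Agent.H50.Eul
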