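import Pool.Agent.H50.Eul4

namespace Pool.Agent.H50.Eul

open Module Submodule

variable {W : Type*} [AddCommGroup W] [Module ℝ W] {V : Set W}

lemma seg (hV : V.Finite) {x y : CF V} {ω : W →ₗ[ℝ] ℝ} {A B : Set W} (hA : A ⊆ V) (hB : B ⊆ V)
    (col : ∀ ψ : W →ₗ[ℝ] ℝ, (∀ v ∈ x.1, ψ v = 0) → Good y ω ψ →
      ((∃ u ∈ A, IsMn x y ω ψ u) ∨ (∃ u ∈ B, IsMn x y ω ψ u)) ∧
      ¬ ((∃ u ∈ A, IsMn x y ω ψ u) ∧ (∃ u ∈ B, IsMn x y ω ψ u)))
    (p q : W →ₗ[ℝ] ℝ) (hp : ∀ v ∈ x.1, p v = 0) (hq : ∀ v ∈ x.1, q v = 0)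
    (hg : ∀ t : ℝ, Good y ω (p + t • (q - p))) :
    ¬ ((∃ u ∈ A, IsMn x y ω p u) ∧ (∃ u ∈ B, IsMn x y ω q u)) := by
  rintro ⟨h0, h1⟩
  have cl : ∀ C ⊆ V, IsClosed {t : ℝ | ∃ u ∈ C, IsMn x y ω (p + t • (q - p)) u} := by
    intro C hC
    have : {t : ℝ | ∃ u ∈ C, IsMn x y ω (p + t • (q - p)) u} =
        ⋃ u ∈ C, ⋂ v ∈ y.1 \ x.1, {t : ℝ | (p u + t * (q u - p u)) * ω v ≤
          (p v + t * (q v - p v)) * ω u} := by
      ext t
      simp [IsMn]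
    rw [this]
    exact (hV.subset hC).isClosed_biUnion fun u _ => isClosed_biInter fun v _ =>
      isClosed_le (by fun_prop) (by fun_prop)
  have hv : ∀ t : ℝ, ∀ v ∈ x.1, (p + t • (q - p)) v = 0 := fun t v hv => by
    simp [hp v hv, hq v hv]
  obtain ⟨t, -, a, b⟩ := isPreconnected_closed_iff.1 (isPreconnected_univ (α := ℝ)) _ _ (cl A hA)
    (cl B hB) (fun t _ => (col _ (hv t) (hg t)).1) ⟨0, trivial, by simpa using h0⟩
    ⟨1, trivial, by simpa using h1⟩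
  exact (col _ (hv t) (hg t)).2 ⟨a, b⟩

variable [FiniteDimensional ℝ W]

lemma conn_cf (hV : V.Finite) : ConnA (rk (V := V)) := by
  have G := gp_cf hV
  intro x y S
  suffices H : ∀ (n : ℕ) (x : CF V), rk y ≤ rk x + n →
      (∀ w a b, x ≤ w → w < a → w < b → a < y → b < y → rk w + 2 = rk y → a ∈ S → b ∈ S) →
      ∀ a b, x ≤ a → x ≤ b → a < y → b < y → rk a + 1 = rk y → rk b + 1 = rk y → a ∈ S → b ∈ S from
    H (rk y) x (by omega)
  clear x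
  intro n
  induction n with
  | zero =>
    intro x hn _ a b xa _ _ _ ra _ _
    have := G.sm.monotone xa
    omega
  | succ n ih =>
    intro x hn hc a b xa xb ay by' ra rb aS
    by_cases e1 : rk y ≤ rk x + 1
    · rw [← G.eq xb (by omega), G.eq xa (by omega)]; exact aS
    have xa' : x < a := lt_of (ρ := rk) xa (by omega)
    have xb' : x < b := lt_of (ρ := rk) xb (by omega)
    by_cases e2 : rk y = rk x + 2
    · exact hc x a b le_rfl xa' xb' ay by' e2.symm aS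
    by_contra bS
    have hxy : x < y := xa'.trans ay
    obtain ⟨ω, -, h2, h3⟩ := x.fn
    let C : Set (CF V) → Set W := fun T =>
      {u | u ∈ y.1 \ x.1 ∧ ∃ g ∈ T, x ≤ g ∧ g < y ∧ rk g + 1 = rk y ∧ u ∈ g.1}
    have K : ∀ u, u ∈ C S → u ∈ C Sᶜ → False := by
      rintro u ⟨hu, g, gS, xg, gy, rg, ug⟩ ⟨-, g', gS', xg', gy', rg', ug'⟩
      obtain ⟨c, hc'⟩ := meet_face hV g g'
      have xc : x < c := lt_of_le_of_ne (fun v hv => hc' ▸ ⟨xg hv, xg' hv⟩)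
        fun e => hu.2 (by rw [e, hc']; exact ⟨ug, ug'⟩)
      have := G.sm xc
      exact gS' (ih c (by omega) (fun w p q cw => hc w p q (xc.le.trans cw)) g g'
        (fun v hv => (hc' ▸ hv : v ∈ g.1 ∩ g'.1).1) (fun v hv => (hc' ▸ hv : v ∈ g.1 ∩ g'.1).2)
        gy gy' rg rg' gS)
    have col : ∀ ψ : W →ₗ[ℝ] ℝ, (∀ v ∈ x.1, ψ v = 0) → Good y ω ψ →
        ((∃ u ∈ C S, IsMn x y ω ψ u) ∨ (∃ u ∈ C Sᶜ, IsMn x y ω ψ u)) ∧
        ¬ ((∃ u ∈ C S, IsMn x y ω ψ u) ∧ (∃ u ∈ C Sᶜ, IsMn x y ω ψ u)) := by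
      intro ψ p1 p2
      obtain ⟨u, u1, u2⟩ := ex_min hV hxy h3 ψ
      obtain ⟨F, xF, Fy, hF⟩ := min_face hV hxy.le h2 h3 p1 p2 u1 u2
      have := G.sm Fy
      obtain ⟨g, Fg, gy, rg⟩ := G.mid Fy.le (n := rk y - 1) (by omega) (by omega)
      have M : ∀ T, g ∈ T → ∀ v ∈ y.1 \ x.1, IsMn x y ω ψ v → v ∈ C T := fun T hT v hv hm =>
        ⟨hv, g, hT, xF.le.trans Fg, lt_of (ρ := rk) gy (by omega), by omega, Fg ((hF v hv).2 hm)⟩
      by_cases gS : g ∈ S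
      · exact ⟨Or.inl ⟨u, M S gS u u1 u2, u2⟩, fun ⟨_, v, v1, v2⟩ => K v (M S gS v v1.1 v2) v1⟩
      · exact ⟨Or.inr ⟨u, M Sᶜ gS u u1 u2, u2⟩, fun ⟨⟨v, v1, v2⟩, _⟩ => K v v1 (M Sᶜ gS v v1.1 v2)⟩
    have base : ∀ (T : Set (CF V)) (g : CF V), g ∈ T → x < g → g < y → rk g + 1 = rk y →
        ∃ φ : W →ₗ[ℝ] ℝ, (∀ v ∈ x.1, φ v = 0) ∧ Good y ω φ ∧ ∃ u ∈ C T, IsMn x y ω φ u := by
      intro T g gT xg gy rg
      obtain ⟨φ, f1, f2, f3⟩ := g.fn
      obtain ⟨u, u1, u2⟩ := ex_lt xg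
      obtain ⟨t, t1, t2⟩ := ex_lt gy
      have pu := h3 u (g.sub u1) u2
      refine ⟨φ, fun v hv => f2 v (xg.le hv), ?_, u, ⟨⟨gy.le u1, u2⟩, g, gT, xg.le, gy, rg, u1⟩, ?_⟩
      · rintro ⟨c, hc⟩
        have a1 := hc u (gy.le u1)
        have a2 := hc t t1
        have a3 := f3 t (y.sub t1) t2
        rw [f2 u u1] at a1
        have : c = 0 := (mul_eq_zero.1 a1.symm).resolve_right pu.ne'
        rw [this] at a2
        linarith
      · intro v hv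
        rw [f2 u u1, zero_mul]
        exact mul_nonneg (f1 v (y.sub hv.1)) pu.le
    obtain ⟨p, p1, p2, p3⟩ := base S a aS xa' ay ra
    obtain ⟨q, q1, q2, q3⟩ := base Sᶜ b bS xb' by' rb
    have sA : ∀ T, C T ⊆ V := fun T u hu => y.sub hu.1.1
    by_cases hg : ∀ t : ℝ, Good y ω (p + t • (q - p))
    · exact seg hV (sA _) (sA _) col p q p1 q1 hg ⟨p3, q3⟩
    push Not at hg
    obtain ⟨t, ht⟩ := hg
    obtain ⟨c, hc0⟩ := not_not.1 ht
    have t0 : t ≠ 0 := by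
      rintro rfl
      exact p2 ⟨c, by simpa using hc0⟩
    have k1 := ker_rk (span ℝ y.1) ω
    have k2 := ker_rk (span ℝ y.1 ⊓ LinearMap.ker ω) p
    obtain ⟨χ, z, z1, z2, z3⟩ := ex_fn (span ℝ x.1) (span ℝ y.1 ⊓ LinearMap.ker ω ⊓ LinearMap.ker p)
      (by unfold rk at e1 e2; omega)
    have zω : ω z = 0 := z1.1.2
    have zp : p z = 0 := z1.2
    have ev : ∀ (ψ : W →ₗ[ℝ] ℝ) (c : ℝ), (∀ v ∈ y.1, ψ v = c * ω v) → ψ z = 0 := fun ψ c h => by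
      have := van (φ := ψ - c • ω) (fun v hv => by simp [h v hv]) z1.1.1
      simpa [zω] using this
    have zq : q z = 0 := by simpa [zp, t0] using ev _ _ hc0
    have x1 : ∀ v ∈ x.1, χ v = 0 := fun v hv => z2 v (subset_span hv)
    have g1 : ∀ s : ℝ, Good y ω (p + s • (χ - p)) := by
      rintro s ⟨c, hc⟩
      have : s = 0 := by simpa [zp, z3] using ev _ _ hc
      subst this
      exact p2 ⟨c, by simpa using hc⟩
    have g2 : ∀ s : ℝ, Good y ω (χ + s • (q - χ)) := by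
      rintro s ⟨c, hc⟩
      have : s = 1 := by
        have := ev _ _ hc
        simp only [LinearMap.add_apply, LinearMap.smul_apply, LinearMap.sub_apply, zq,
          smul_eq_mul] at this
        have e : (1 - s) * χ z = 0 := by linarith
        have := (mul_eq_zero.1 e).resolve_right z3
        linarith
      subst this
      exact q2 ⟨c, by simpa using hc⟩
    rcases (col χ x1 (by simpa using g1 1)).1 with h | h
    · exact seg hV (sA _) (sA _) col χ q x1 q1 g2 ⟨h, q3⟩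
    · exact seg hV (sA _) (sA _) col p χ p1 x1 g1 ⟨p3, h⟩

end Pool.Agent.H50.Eul
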