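import Mathlib

namespace Pool.Agent.H50.Ex

open Finset

lemma par {R : Type} [Ring R] (z : R) (L : List R) (h : ∀ a ∈ L, z * a = -(a * z)) :
    (Even L.length → z * L.prod = L.prod * z) ∧ (Odd L.length → z * L.prod = -(L.prod * z)) := by
  induction L with
  | nil => simp
  | cons a L ih =>
    have h1 := h a (by simp)
    obtain ⟨e, o⟩ := ih fun b hb => h b (by simp [hb])
    rw [List.length_cons, List.prod_cons, Nat.even_add_one, Nat.odd_add_one,
      Nat.not_even_iff_odd, Nat.not_odd_iff_even, ← mul_assoc, h1, neg_mul, mul_assoc, mul_assoc]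
    exact ⟨fun x => by rw [o x]; simp, fun x => by rw [e x]⟩

variable {K E V : Type} [Field K] [AddCommGroup E] [Module K E]

structure CAR (x y : V → Module.End K E) (G : ℕ → Submodule K E) : Prop where
  xx : ∀ v w, x v * x w = -(x w * x v)
  x2 : ∀ v, x v * x v = 0
  yy : ∀ v w, y v * y w = -(y w * y v)
  yx : ∀ v w, v ≠ w → y v * x w = -(x w * y v)
  one : ∀ v, y v * x v = 1 - x v * y v
  gx : ∀ v j, ∀ u ∈ G j, x v u ∈ G (j + 1)
  gy : ∀ v j, ∀ u ∈ G (j + 1), y v u ∈ G j
  g0 : ∀ v, ∀ u ∈ G 0, y v u = 0

def M (x : V → Module.End K E) (b : List V) : Module.End K E := (b.map x).prod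
def D (y : V → Module.End K E) (b : List V) : Module.End K E := (b.reverse.map y).prod
def P (x y : V → Module.End K E) (b : List V) : Module.End K E := D y b * M x b

variable {x y : V → Module.End K E} {G : ℕ → Submodule K E}

lemma M_cons (v : V) (b : List V) : M x (v :: b) = x v * M x b := by simp [M]
lemma D_cons (v : V) (b : List V) : D y (v :: b) = D y b * y v := by simp [D]

lemma aM {z : Module.End K E} {b : List V} (h : ∀ v ∈ b, z * x v = -(x v * z)) :
    (Even b.length → z * M x b = M x b * z) ∧ (Odd b.length → z * M x b = -(M x b * z)) := by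
  simpa [M] using par z (b.map x) (by simpa using h)

lemma aD {z : Module.End K E} {b : List V} (h : ∀ v ∈ b, z * y v = -(y v * z)) :
    (Even b.length → z * D y b = D y b * z) ∧ (Odd b.length → z * D y b = -(D y b * z)) := by
  simpa [D] using par z (b.reverse.map y) (by simpa using h)

lemma cM {z : Module.End K E} {b : List V} (h : ∀ v ∈ b, Commute z (x v)) : Commute z (M x b) :=
  Commute.list_prod_right _ _ (by simpa using h)

lemma cD {z : Module.End K E} {b : List V} (h : ∀ v ∈ b, Commute z (y v)) : Commute z (D y b) :=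
  Commute.list_prod_right _ _ (by simpa using h)

lemma cP {z : Module.End K E} {b : List V} (h : ∀ v ∈ b, z * x v = -(x v * z))
    (h' : ∀ v ∈ b, z * y v = -(y v * z)) : z * P x y b = P x y b * z := by
  rcases b.length.even_or_odd with e | e
  · rw [P, ← mul_assoc, (aD h').1 e, mul_assoc, (aM h).1 e, mul_assoc]
  · rw [P, ← mul_assoc, (aD h').2 e, neg_mul, mul_assoc, (aM h).2 e, mul_neg, neg_neg, mul_assoc]

lemma CAR.xy (c : CAR x y G) {v w : V} (h : v ≠ w) : x v * y w = -(y w * x v) := by
  rw [c.yx w v h.symm, neg_neg]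

lemma CAR.P_cons (c : CAR x y G) {v : V} {b : List V} (h : v ∉ b) :
    P x y (v :: b) = y v * x v * P x y b := by
  have : Commute (y v * x v) (D y b) := cD fun w hw => by
    have n : v ≠ w := fun e => h (e ▸ hw)
    change _ = _
    rw [mul_assoc, c.xy n, mul_neg, ← mul_assoc, c.yy v w, neg_mul, neg_neg, mul_assoc]
  rw [P, P, M_cons, D_cons, ← mul_assoc, mul_assoc (D y b), ← this.eq, mul_assoc]

lemma CAR.MP (c : CAR x y G) {b : List V} (h : b.Nodup) : M x b * P x y b = M x b := by
  induction b with
  | nil => simp [M, P, D]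
  | cons v b ih =>
    rw [List.nodup_cons] at h
    have : Commute (y v * x v) (M x b) := cM fun w hw => by
      have n : v ≠ w := fun e => h.1 (e ▸ hw)
      change _ = _
      rw [mul_assoc, c.xx v w, mul_neg, ← mul_assoc, c.yx v w n, neg_mul, neg_neg, mul_assoc]
    rw [c.P_cons h.1, M_cons, mul_assoc, ← mul_assoc (M x b), ← this.eq, mul_assoc, ih h.2,
      ← mul_assoc, c.one, mul_sub, ← mul_assoc, c.x2]
    simp

lemma CAR.xM (c : CAR x y G) {v : V} {b : List V} (h : v ∈ b) : x v * M x b = 0 := by
  induction b with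
  | nil => simp at h
  | cons w b ih =>
    rw [M_cons, ← mul_assoc]
    rcases List.mem_cons.1 h with rfl | h
    · rw [c.x2, zero_mul]
    · rw [c.xx, neg_mul, mul_assoc, ih h]; simp

lemma CAR.Mx (c : CAR x y G) {v : V} {b : List V} (h : v ∈ b) : M x b * x v = 0 := by
  have := aM (z := x v) (b := b) fun w _ => c.xx v w
  rw [c.xM h] at this
  rcases b.length.even_or_odd with e | e
  · exact (this.1 e).symm
  · exact neg_eq_zero.1 (this.2 e).symm

lemma CAR.MM (c : CAR x y G) {b : List V} (h : 0 < b.length) : M x b * M x b = 0 := by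
  obtain ⟨v, b, rfl⟩ := List.exists_cons_of_length_pos h
  nth_rewrite 2 [M_cons]
  rw [← mul_assoc, c.Mx (by simp), zero_mul]

lemma CAR.gM (c : CAR x y G) (b : List V) {j : ℕ} {u : E} (h : u ∈ G j) :
    M x b u ∈ G (j + b.length) := by
  induction b with
  | nil => simpa [M] using h
  | cons w b ih => rw [M_cons]; exact c.gx _ _ _ ih

lemma CAR.gD (c : CAR x y G) (b : List V) : ∀ {j : ℕ} {u : E}, u ∈ G j →
    D y b u = 0 ∨ ∃ i, i + b.length = j ∧ D y b u ∈ G i := by
  induction b with
  | nil => intro j u h; exact Or.inr ⟨j, rfl, by simpa [D] using h⟩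
  | cons w b ih =>
    intro j u h
    rw [D_cons, Module.End.mul_apply]
    rcases j with _ | j
    · rw [c.g0 _ _ h]; simp
    · rcases ih (c.gy w _ _ h) with e | ⟨i, e, f⟩
      · exact Or.inl e
      · exact Or.inr ⟨i, by simp; omega, f⟩

lemma CAR.gP (c : CAR x y G) (b : List V) {j : ℕ} {u : E} (h : u ∈ G j) : P x y b u ∈ G j := by
  rw [P, Module.End.mul_apply]
  rcases c.gD b (c.gM b h) with e | ⟨i, e, f⟩
  · rw [e]; exact zero_mem _
  · rwa [← Nat.add_right_cancel e]

lemma CAR.gQ (c : CAR x y G) (b : List V) {j : ℕ} {u : E} (h : u ∈ G j) :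
    M x b (D y b u) ∈ G j := by
  rcases c.gD b h with e | ⟨i, e, f⟩
  · rw [e, map_zero]; exact zero_mem _
  · exact e ▸ c.gM b f

lemma CAR.subP (c : CAR x y G) {J : Submodule K E} {u : E} {b : List V} (hb : b.Nodup)
    (h : ∀ v ∈ b, ∀ b' ⊆ b, x v (P x y b' (y v u)) ∈ J) : u - P x y b u ∈ J := by
  induction b with
  | nil => simp [M, P, D]
  | cons v b ih =>
    rw [List.nodup_cons] at hb
    have e : y v * P x y b = P x y b * y v :=
      cP (fun w hw => c.yx v w fun e => hb.1 (e ▸ hw)) fun w _ => c.yy v w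
    have : u - P x y (v :: b) u = u - P x y b u + x v (P x y b (y v u)) := by
      rw [c.P_cons hb.1, c.one, sub_mul, one_mul, mul_assoc, e]
      simp only [LinearMap.sub_apply, Module.End.mul_apply]
      abel
    rw [this]
    exact add_mem (ih hb.2 fun w hw b' h' => h w (by simp [hw]) b' (List.subset_cons_of_subset _ h'))
      (h v (by simp) b (List.subset_cons_self _ _))

lemma stM {J : Submodule K E} {b : List V} (h : ∀ v ∈ b, ∀ u ∈ J, x v u ∈ J) {u : E}
    (hu : u ∈ J) : M x b u ∈ J := by
  induction b with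
  | nil => simpa [M] using hu
  | cons w b ih => rw [M_cons]; exact h w (by simp) _ (ih fun v hv => h v (by simp [hv]))

lemma stD {J : Submodule K E} {b : List V} (h : ∀ v ∈ b, ∀ u ∈ J, y v u ∈ J) {u : E}
    (hu : u ∈ J) : D y b u ∈ J := by
  have := stM (x := y) (b := b.reverse) (fun v hv => h v (List.mem_reverse.1 hv)) hu
  exact this

variable {ι : Type} [DecidableEq ι]

structure Blk (x y : V → Module.End K E) (b : ι → List V) (d : ℕ) (J : Submodule K E) : Prop where
  nd : ∀ a, (b a).Nodup
  len : ∀ a, (b a).length = d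
  pos : 0 < d
  dj : ∀ a a', a ≠ a' → ∀ v ∈ b a, ∀ w ∈ b a', v ≠ w
  jx : ∀ v, ∀ u ∈ J, x v u ∈ J
  jy : ∀ a, ∀ v ∈ b a, ∀ u ∈ J, y v u ∈ J

def F (x : V → Module.End K E) (b : ι → List V) (S : Finset ι) : Module.End K E :=
  ∑ a ∈ S, M x (b a)

variable {b : ι → List V} {d : ℕ} {J : Submodule K E}

lemma Blk.stF (h : Blk x y b d J) (S : Finset ι) {u : E} (hu : u ∈ J) : F x b S u ∈ J := by
  rw [F, LinearMap.sum_apply]
  exact sum_mem fun a _ => stM (fun v _ => h.jx v) hu

lemma Blk.aF (h : Blk x y b d J) {S : Finset ι} {z : Module.End K E}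
    (hz : ∀ a ∈ S, ∀ v ∈ b a, z * x v = -(x v * z)) :
    (Even d → Commute z (F x b S)) ∧ (Odd d → z * F x b S = -(F x b S * z)) := by
  refine ⟨fun e => Commute.sum_right _ _ _ fun a ha => (aM (hz a ha)).1 (h.len a ▸ e), fun e => ?_⟩
  rw [F, mul_sum, sum_mul, ← sum_neg_distrib]
  exact sum_congr rfl fun a ha => (aM (hz a ha)).2 (h.len a ▸ e)

lemma even_reg [CharZero K] (c : CAR x y G) (h : Blk x y b d J) (e : Even d) (S : Finset ι) :
    ∀ s j, j + s ≤ S.card → ∀ u ∈ G j, (F x b S ^ s) u ∈ J → u ∈ J := by
  induction S using Finset.induction_on with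
  | empty => intro s j hj u _ hu; obtain rfl : s = 0 := by simp at hj; omega
             simpa using hu
  | insert a S ha ih =>
    intro s j hj u hG hu
    rcases s with _ | s
    · simpa using hu
    rw [card_insert_of_notMem ha] at hj
    have d2 : 2 ≤ d := by have := h.pos; obtain ⟨_, _⟩ := e; omega
    set f := F x b S with hf
    set m := M x (b a) with hm
    have cx : ∀ v, Commute (x v) f := fun v => (h.aF fun _ _ w _ => c.xx v w).1 e
    have cy : ∀ v ∈ b a, Commute (y v) f := fun v hv => (h.aF fun a' h' w hw =>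
      c.yx v w (h.dj a a' (fun z => ha (z ▸ h')) v hv w hw)).1 e
    have c1 : Commute f m := cM fun v _ => (cx v).symm
    have c2 : Commute f (D y (b a)) := cD fun v hv => (cy v hv).symm
    have mm : m * m = 0 := c.MM (h.len a ▸ h.pos)
    have ex : ∀ t : ℕ, (m + f) ^ (t + 1) = f ^ (t + 1) + ((t + 1 : ℕ) : K) • (f ^ t * m) := by
      intro t
      induction t with
      | zero => simp [add_comm]
      | succ t iht =>
        rw [pow_succ, iht, add_mul, mul_add, mul_add, smul_mul_assoc, smul_mul_assoc, mul_assoc,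
          mm, mul_assoc, ← c1.eq, ← mul_assoc, ← pow_succ, ← pow_succ, Nat.cast_succ (t + 1),
          add_smul]
        simp only [mul_zero, smul_zero, one_smul, zero_add]
        abel
    rw [F, sum_insert ha, ← F, ← hf, ← hm, ex] at hu
    have jD : ∀ u ∈ J, D y (b a) u ∈ J := fun u hu => stD (h.jy a) hu
    have jM : ∀ u ∈ J, m u ∈ J := fun u hu => stM (fun v _ => h.jx v) hu
    have jf : ∀ t, ∀ u ∈ J, (f ^ t) u ∈ J := fun t u hu => by
      induction t with
      | zero => simpa using hu
      | succ t iht => rw [pow_succ']; exact h.stF S iht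
    have h1 : (f ^ (s + 1)) (P x y (b a) u) ∈ J := by
      have := jD _ (jM _ hu)
      rw [← Module.End.mul_apply, ← Module.End.mul_apply, mul_assoc, mul_add, mul_smul_comm,
        ← mul_assoc, (c1.symm.pow_right s).eq, mul_assoc, mm, mul_zero, smul_zero, add_zero,
        (c1.symm.pow_right _).eq, ← mul_assoc, (c2.symm.pow_right _).eq, mul_assoc] at this
      exact this
    have h2 : (f ^ (s + 1)) (D y (b a) u) + ((s + 1 : ℕ) : K) • (f ^ s) (P x y (b a) u) ∈ J := by
      have := jD _ hu
      rw [← Module.End.mul_apply, mul_add, mul_smul_comm, ← mul_assoc,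
        (c2.symm.pow_right _).eq, (c2.symm.pow_right _).eq, mul_assoc] at this
      exact this
    have h3 : D y (b a) u ∈ J := by
      rcases c.gD (b a) hG with z | ⟨i, z, w⟩
      · rw [z]; exact zero_mem _
      · rw [h.len] at z
        refine ih (s + 2) i (by omega) _ w ?_
        have := sub_mem (h.stF S h2) (J.smul_mem ((s + 1 : ℕ) : K) h1)
        rw [map_add, map_smul, ← hf, ← Module.End.mul_apply, ← Module.End.mul_apply f,
          ← pow_succ', ← pow_succ', add_sub_cancel_right] at this
        exact this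
    have h4 : P x y (b a) u ∈ J := by
      refine ih s j (by omega) _ (c.gP _ hG) ?_
      have := sub_mem h2 (jf (s + 1) _ h3)
      rw [add_sub_cancel_left] at this
      exact (J.smul_mem_iff (by exact_mod_cast Nat.succ_ne_zero s)).1 this
    have h5 : (f ^ (s + 1)) u ∈ J := by
      have := jM _ h4
      rw [← Module.End.mul_apply, c.MP (h.nd a), ← hm] at this
      have := sub_mem hu (J.smul_mem ((s + 1 : ℕ) : K) (jf s _ this))
      simpa using this
    have h6 : ∀ v ∈ b a, y v u ∈ J := fun v hv => by
      rcases j with _ | j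
      · rw [c.g0 _ _ hG]; exact zero_mem _
      · refine ih (s + 1) j (by omega) _ (c.gy _ _ _ hG) ?_
        have := h.jy a v hv _ h5
        rwa [← Module.End.mul_apply, ((cy v hv).pow_right _).eq] at this
    have := c.subP (J := J) (u := u) (h.nd a) fun v hv b' h' => h.jx _ _
      (stD (fun w hw => h.jy a w (h' hw)) (stM (fun w _ => h.jx w) (h6 v hv)))
    simpa using add_mem this h4

lemma odd_sq (c : CAR x y G) (h : Blk x y b d J) (e : Odd d) (S : Finset ι) :
    F x b S * F x b S = 0 := by
  induction S using Finset.induction_on with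
  | empty => simp [F]
  | insert a S ha ih =>
    have cx : ∀ v, F x b S * x v = -(x v * F x b S) := fun v => by
      rw [(h.aF fun _ _ w _ => c.xx v w).2 e, neg_neg]
    have c1 := (aM (b := b a) fun v _ => cx v).2 (h.len a ▸ e)
    rw [F, sum_insert ha, ← F, add_mul, mul_add, mul_add, ih, c1, c.MM (h.len a ▸ h.pos)]
    simp

lemma odd_reg (c : CAR x y G) (h : Blk x y b d J) (e : Odd d) (S : Finset ι) :
    ∀ j, j < S.card → ∀ u ∈ G j, F x b S u ∈ J → u ∈ LinearMap.range (F x b S) ⊔ J := by
  induction S using Finset.induction_on with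
  | empty => intro j hj; simp at hj
  | insert a S ha ih =>
    intro j hj u hG hu
    rw [card_insert_of_notMem ha] at hj
    have sq := odd_sq c h e (insert a S)
    have jF := fun u hu => h.stF (insert a S) (u := u) hu
    rw [F, sum_insert ha, ← F] at hu sq jF ⊢
    set f := F x b S with hf
    set m := M x (b a) with hm
    have cx : ∀ v, f * x v = -(x v * f) := fun v => by
      rw [(h.aF fun _ _ w _ => c.xx v w).2 e, neg_neg]
    have cy : ∀ v ∈ b a, f * y v = -(y v * f) := fun v hv => by
      rw [(h.aF fun a' h' w hw => c.yx v w (h.dj a a' (fun z => ha (z ▸ h')) v hv w hw)).2 e,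
        neg_neg]
    have c2 : f * D y (b a) = -(D y (b a) * f) := (aD cy).2 (h.len a ▸ e)
    have mm : m * m = 0 := c.MM (h.len a ▸ h.pos)
    have mp : m * P x y (b a) = m := c.MP (h.nd a)
    set w := u - m (D y (b a) u) - P x y (b a) u with hw
    have h1 : D y (b a) ((m + f) u) ∈ J := stD (h.jy a) hu
    have e1 : u = w + D y (b a) ((m + f) u) + (m + f) (D y (b a) u) := by
      have := congrArg (fun t : Module.End K E => t u) c2
      simp only [Module.End.mul_apply, LinearMap.neg_apply] at this
      simp only [hw, LinearMap.add_apply, map_add, this, P, Module.End.mul_apply, ← hm]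
      abel
    have mw : m w = 0 := by
      rw [hw, map_sub, map_sub, ← Module.End.mul_apply, mm, ← Module.End.mul_apply m (P x y _), mp]
      simp
    have h2 : f w ∈ J := by
      have := sub_mem hu (jF _ h1)
      nth_rewrite 1 [e1] at this
      rw [map_add, map_add, ← Module.End.mul_apply (m + f) (m + f), sq, LinearMap.add_apply,
        mw] at this
      simpa using this
    have gw : w ∈ G j := sub_mem (sub_mem hG (c.gQ _ hG)) (c.gP _ hG)
    have h3 := c.subP (J := LinearMap.range (m + f) ⊔ J) (u := w) (h.nd a) fun v hv b' h' => by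
      rcases j with _ | j
      · rw [c.g0 _ _ gw]; simp
      have k : f (y v w) ∈ J := by
        rw [← Module.End.mul_apply, cy v hv]; exact neg_mem (h.jy a v hv _ h2)
      obtain ⟨_, ⟨z, rfl⟩, t, ht, e2⟩ :=
        Submodule.mem_sup.1 (ih j (by omega) _ (c.gy _ _ _ gw) k)
      rw [← e2, map_add, map_add]
      refine add_mem (Submodule.mem_sup_left ⟨-x v (P x y b' z), ?_⟩) (Submodule.mem_sup_right
        (h.jx _ _ (stD (fun w hw => h.jy a w (h' hw)) (stM (fun w _ => h.jx w) ht))))
      have k2 : f * P x y b' = P x y b' * f := cP (fun v _ => cx v) fun v hv => cy v (h' hv)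
      rw [map_neg, LinearMap.add_apply, ← Module.End.mul_apply m, c.Mx hv,
        ← Module.End.mul_apply f, cx, ← Module.End.mul_apply (P x y b'), ← k2]
      simp
    have pw : P x y (b a) w = 0 := by rw [P, Module.End.mul_apply, ← hm, mw, map_zero]
    rw [pw, sub_zero] at h3
    rw [e1]
    exact add_mem (add_mem h3 (Submodule.mem_sup_right h1)) (Submodule.mem_sup_left ⟨_, rfl⟩)

lemma CAR.nz (c : CAR x y G) {l : List V} (hl : l.Nodup) {j : ℕ} (hj : j < l.length) {u : E}
    (hu : u ∈ G j) (h : ∀ v, x v u = 0) : u = 0 := by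
  have k : ∀ l : List V, l.Nodup → M x l (D y l u) = u := by
    intro l hl
    induction l with
    | nil => simp [M, D]
    | cons v l ih =>
      rw [List.nodup_cons] at hl
      have a1 := aM (z := y v) (b := l) fun w hw => c.yx v w fun e => hl.1 (e ▸ hw)
      have a2 := aD (z := y v) (b := l) fun w _ => c.yy v w
      have a3 : M x l * (D y l * y v) = y v * (M x l * D y l) := by
        rcases l.length.even_or_odd with e | e
        · rw [← mul_assoc (y v), a1.1 e, mul_assoc, a2.1 e]
        · rw [← mul_assoc (y v), a1.2 e, neg_mul, mul_assoc, a2.2 e, mul_neg, neg_neg]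
      have a4 := congrArg (fun t : Module.End K E => t u) (c.one v)
      simp only [Module.End.mul_apply, h, map_zero, LinearMap.sub_apply,
        Module.End.one_apply] at a4
      rw [M_cons, D_cons, Module.End.mul_apply, ← Module.End.mul_apply (M x l), a3,
        Module.End.mul_apply, Module.End.mul_apply, ih hl.2]
      exact (sub_eq_zero.1 a4.symm).symm
  rcases c.gD l hu with e | ⟨i, e, -⟩
  · rw [← k l hl, e, map_zero]
  · omega

lemma rk_open {A B : Type} [AddCommGroup A] [Module K A] [AddCommGroup B] [Module K B]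
    [FiniteDimensional K B] (p q : A →ₗ[K] B) :
    {t : K | Module.finrank K (LinearMap.range (p + t • q)) <
      Module.finrank K (LinearMap.range p)}.Finite := by
  obtain ⟨σ, hσ⟩ := p.rangeRestrict.exists_rightInverse_of_surjective p.range_rangeRestrict
  obtain ⟨π, hπ⟩ := (LinearMap.range p).subtype.exists_leftInverse_of_injective
    (Submodule.ker_subtype _)
  set N : Module.End K (LinearMap.range p) := π ∘ₗ q ∘ₗ σ with hN
  refine ((N.finite_spectrum.image fun s => -s⁻¹).insert 0).subset fun t ht => ?_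
  by_contra z
  simp only [Set.mem_insert_iff, Set.mem_image, not_or, not_exists, not_and] at z
  have u : IsUnit (algebraMap K _ (-t⁻¹) - N) := by
    by_contra w
    exact z.2 _ w (by simp)
  refine not_le.2 ht (le_trans ?_ (Submodule.finrank_map_le π _))
  rw [← finrank_top K (LinearMap.range p)]
  refine Submodule.finrank_mono fun a _ => ?_
  obtain ⟨b, rfl⟩ := ((Module.End.isUnit_iff _).1 u).2 a
  refine ⟨_, ⟨(-t⁻¹) • σ b, rfl⟩, ?_⟩
  have e1 : π (p (σ b)) = b := by
    have a1 := LinearMap.congr_fun hσ b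
    have a2 := LinearMap.congr_fun hπ b
    simp only [LinearMap.comp_apply, LinearMap.id_apply] at a1 a2
    change π (p.range.subtype (p.rangeRestrict (σ b))) = b
    rw [a1, a2]
  simp [hN, e1, smul_smul, z.1, Module.algebraMap_end_apply, sub_eq_add_neg]

end Pool.Agent.H50.Ex
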