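import Mathlib

namespace Pool.Agent.H50.Sg

open Finset Polynomial Module

variable {K : Type} [Field K]

lemma rk_gen {V V' : Type} [AddCommGroup V] [Module K V] [AddCommGroup V'] [Module K V']
    (f : V →ₗ[K] V') (W : Submodule K V) [FiniteDimensional K W] : finrank K (W.map f) +
    finrank K (W ⊓ LinearMap.ker f : Submodule K _) = finrank K W := by
  rw [← LinearMap.finrank_range_add_finrank_ker (f.domRestrict W),
    LinearMap.range_domRestrict, LinearMap.ker_domRestrict, ← Submodule.map_comap_subtype,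
    Submodule.finrank_map_subtype_eq]

lemma hom_eq {V W : Type} [AddCommGroup V] [Module K V] [AddCommGroup W] [Module K W]
    (d : V →ₗ[K] V) (d' : W →ₗ[K] W) (φ : V →ₗ[K] W) (A : ℕ → Submodule K V)
    (B : ℕ → Submodule K W) [∀ j, FiniteDimensional K (B j)] (hdd : ∀ a, d (d a) = 0)
    (hA : ∀ j, ∀ a ∈ A (j + 1), d a ∈ A j) (hφ : ∀ j, (A j).map φ = B j)
    (hc : ∀ j, ∀ a ∈ A j, φ (d a) = d' (φ a))
    (hN : ∀ j, ∀ z ∈ A j, φ z = 0 → d z = 0 → ∃ b ∈ A (j + 1), φ b = 0 ∧ d b = z) (j : ℕ) :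
    finrank K (↥(A (j + 1) ⊓ LinearMap.ker d) ⧸
      ((A (j + 2)).map d).submoduleOf (A (j + 1) ⊓ LinearMap.ker d)) +
      finrank K ((B (j + 2)).map d') + finrank K ((B (j + 1)).map d') = finrank K (B (j + 1)) := by
  set Z := A (j + 1) ⊓ LinearMap.ker d
  set Z' := B (j + 1) ⊓ LinearMap.ker d'
  set B' := (B (j + 2)).map d'
  let ψ : Z →ₗ[K] W ⧸ B' := B'.mkQ ∘ₗ φ ∘ₗ Z.subtype
  have e1 : ((A (j + 2)).map d).submoduleOf Z = LinearMap.ker ψ := by
    ext ⟨z, hz, hz'⟩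
    have hz' : d z = 0 := hz'
    change z ∈ (A (j + 2)).map d ↔ B'.mkQ (φ z) = 0
    rw [Submodule.mkQ_apply, Submodule.Quotient.mk_eq_zero]
    constructor
    · rintro ⟨w, hw, rfl⟩
      exact ⟨φ w, hφ (j + 2) ▸ ⟨w, hw, rfl⟩, (hc _ w hw).symm⟩
    · rintro ⟨w', hw', h⟩
      rw [← hφ] at hw'
      obtain ⟨w, hw, rfl⟩ := hw'
      obtain ⟨b, hb, -, h2⟩ := hN (j + 1) (z - d w) (sub_mem hz (hA _ w hw))
        (by rw [map_sub, hc _ w hw, h, sub_self]) (by rw [map_sub, hdd, hz', sub_self])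
      exact ⟨w + b, add_mem hw hb, by rw [map_add, h2]; abel⟩
  have e2 : LinearMap.range ψ = Z'.map B'.mkQ := by
    ext x
    constructor
    · rintro ⟨⟨z, hz, hz'⟩, rfl⟩
      have hz' : d z = 0 := hz'
      refine ⟨φ z, ⟨hφ (j + 1) ▸ ⟨z, hz, rfl⟩, ?_⟩, rfl⟩
      change d' (φ z) = 0
      rw [← hc _ z hz, hz', map_zero]
    · rintro ⟨w, ⟨hw, hw'⟩, rfl⟩
      have hw' : d' w = 0 := hw'
      rw [← hφ] at hw
      obtain ⟨a, ha, rfl⟩ := hw
      obtain ⟨b, hb, h1, h2⟩ := hN j (d a) (hA _ a ha) (by rw [hc _ a ha, hw']) (hdd a)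
      refine ⟨⟨a - b, sub_mem ha hb, ?_⟩, ?_⟩
      · change d (a - b) = 0
        rw [map_sub, h2, sub_self]
      · change B'.mkQ (φ (a - b)) = _
        rw [map_sub, h1, sub_zero]
  have e3 : B' ≤ Z' := by
    rintro _ ⟨w, hw, rfl⟩
    rw [← hφ] at hw
    obtain ⟨a, ha, rfl⟩ := hw
    rw [← hc _ a ha]
    refine ⟨hφ (j + 1) ▸ ⟨_, hA _ a ha, rfl⟩, ?_⟩
    change d' (φ (d a)) = 0
    rw [← hc _ _ (hA _ a ha), hdd, map_zero]
  haveI : FiniteDimensional K Z' := Submodule.finiteDimensional_inf_left _ _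
  have e4 := rk_gen B'.mkQ Z'
  rw [Submodule.ker_mkQ, inf_eq_right.2 e3] at e4
  rw [e1, (ψ.quotKerEquivRange).finrank_eq, e2, e4, add_comm]
  exact rk_gen d' _

def cs (K : Type) [Field K] {ι : Type} (T : Finset ι) : Submodule K (ι → K) where
  carrier := {w | ∀ x, x ∉ T → w x = 0}
  add_mem' ha hb x h := by simp [ha x h, hb x h]
  zero_mem' _ _ := rfl
  smul_mem' r _ ha x h := by simp [ha x h]

noncomputable def csE {ι : Type} (T : Finset ι) : cs K T ≃ₗ[K] (T → K) := by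
  classical
  refine (LinearEquiv.ofBijective ((LinearMap.funLeft K K Subtype.val).domRestrict _)
    ⟨fun a b h => Subtype.ext (funext fun τ => ?_), fun a => ?_⟩)
  · by_cases x : τ ∈ T
    · exact congrFun h ⟨τ, x⟩
    · rw [a.2 τ x, b.2 τ x]
  · exact ⟨⟨fun τ => if x : τ ∈ T then a ⟨τ, x⟩ else 0, fun τ x => dif_neg x⟩,
      funext fun τ => dif_pos τ.2⟩

instance {ι : Type} (T : Finset ι) : FiniteDimensional K (cs K T) :=
  (csE T).symm.finiteDimensional

lemma rk_cs {ι : Type} (T : Finset ι) : finrank K (cs K T) = T.card := by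
  rw [(csE T).finrank_eq]; simp

def sg (R : Type) [CommRing R] (ρ : Finset ℕ) (i : ℕ) : R := (-1) ^ (ρ.filter (· < i)).card

lemma sg_sq {R : Type} [CommRing R] (τ : Finset ℕ) (j : ℕ) : sg R τ j * sg R τ j = 1 := by
  rw [sg, ← mul_pow]; simp

lemma sg_ins {R : Type} [CommRing R] {ρ : Finset ℕ} {e : ℕ} (he : e ∉ ρ) (i : ℕ) :
    sg R (insert e ρ) i = (if e < i then -1 else 1) * sg R ρ i := by
  unfold sg
  rw [filter_insert]
  split_ifs
  · rw [card_insert_of_notMem (by simp [he]), pow_succ]; ring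
  · simp

lemma dd_zero {R : Type} [CommRing R] (E : Finset ℕ) (g : ℕ → R) (c : Finset ℕ → R)
    (ρ : Finset ℕ) : ∑ j ∈ E \ ρ, sg R ρ j * g j * ∑ i ∈ E \ insert j ρ,
      sg R (insert j ρ) i * g i * c (insert i (insert j ρ)) = 0 := by
  have h : ∑ j ∈ E \ ρ, sg R ρ j * g j * ∑ i ∈ E \ insert j ρ,
      sg R (insert j ρ) i * g i * c (insert i (insert j ρ)) = ∑ x ∈ (E \ ρ) ×ˢ (E \ ρ),
      if x.2 = x.1 then 0 else
      sg _ ρ x.1 * g x.1 * (sg _ (insert x.1 ρ) x.2 * g x.2 * c (insert x.2 (insert x.1 ρ))) := by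
    rw [sum_product]
    refine sum_congr rfl fun j hj => ?_
    rw [mul_sum, ← add_sum_erase _ _ hj, sdiff_insert]
    simp only [if_true, zero_add]
    refine sum_congr rfl fun i hi => ?_
    rw [if_neg (ne_of_mem_erase hi)]
  rw [h]
  refine sum_involution (fun x _ => x.swap) ?_ ?_ ?_ ?_
  · rintro ⟨j, i⟩ hx
    obtain ⟨hj, hi⟩ := mem_product.1 hx
    by_cases hij : i = j
    · simp [hij]
    · simp only [Prod.swap, if_neg hij, if_neg (Ne.symm hij)]
      rw [insert_comm j i, sg_ins (mem_sdiff.1 hj).2, sg_ins (mem_sdiff.1 hi).2]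
      rcases lt_or_gt_of_ne hij with h1 | h1
      · rw [if_pos h1, if_neg (not_lt.2 h1.le)]; ring
      · rw [if_pos h1, if_neg (not_lt.2 h1.le)]; ring
  · rintro ⟨j, i⟩ _ hx h2
    apply hx
    have : i = j := congrArg Prod.fst h2
    simp [this]
  · rintro ⟨j, i⟩ hx
    exact mem_product.2 ⟨(mem_product.1 hx).2, (mem_product.1 hx).1⟩
  · rintro ⟨j, i⟩ _; rfl

lemma cnt {s : Finset ℕ} {x : ℕ} (hx : x ∈ s) (j : ℕ) :
    ((powersetCard (j + 1) s).filter (x ∈ ·)).card = (s.card - 1).choose j := by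
  rw [← card_erase_of_mem hx, ← card_powersetCard]
  refine card_nbij' (·.erase x) (insert x) (fun τ h => ?_) (fun τ h => ?_) (fun τ h => ?_)
    fun τ h => ?_
  · simp only [coe_filter, mem_powersetCard, Set.mem_setOf_eq, mem_coe] at h ⊢
    exact ⟨erase_subset_erase _ h.1.1, by rw [card_erase_of_mem h.2, h.1.2]; rfl⟩
  · simp only [coe_filter, mem_powersetCard, Set.mem_setOf_eq, mem_coe] at h ⊢
    have : x ∉ τ := fun y => notMem_erase x s (h.1 y)
    exact ⟨⟨insert_subset hx (h.1.trans (erase_subset _ _)),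
      by rw [card_insert_of_notMem this, h.2]⟩, mem_insert_self _ _⟩
  · simp only [coe_filter, mem_powersetCard, Set.mem_setOf_eq] at h
    exact insert_erase h.2
  · simp only [mem_powersetCard, mem_coe] at h
    exact erase_insert fun y => notMem_erase x s (h.1 y)

end Pool.Agent.H50.Sg
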