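import Mathlib
import Pool.Agent.H50.Ex1
import Pool.Agent.H50.Sg1

namespace Pool.Agent.H50.Ex

open Finset Module ExteriorAlgebra

section defs

/-- The exterior algebra of `V_n = K ^ n`. -/
abbrev EA (K : Type) [Field K] (n : ℕ) : Type := ExteriorAlgebra K (Fin n → K)

/-- The `j`-th exterior power, the degree `j` piece of the exterior algebra. -/
abbrev L (K : Type) [Field K] (n j : ℕ) : Submodule K (EA K n) := ⋀[K]^j (Fin n → K)

/-- The two-sided ideal generated by `f_1, ..., f_r`, as a `K`-subspace. -/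
noncomputable def idS (K : Type) [Field K] {A : Type} [Ring A] [Algebra K A] {r : ℕ}
    (f : Fin r → A) : Submodule K A :=
  (TwoSidedIdeal.span (Set.range f)).asIdeal.restrictScalars K

/-- The dimension of the image of the subspace `W` in `A / (f_1, ..., f_r)`. -/
noncomputable def qd {K : Type} [Field K] {A : Type} [Ring A] [Algebra K A] {r : ℕ}
    (f : Fin r → A) (W : Submodule K A) : ℕ := finrank K (W.map (idS K f).mkQ)

/-- `dim_K (⋀ V_n / (f_1, ..., f_r))_k`. -/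
noncomputable def hf {K : Type} [Field K] {n r : ℕ} (f : Fin r → EA K n) (k : ℕ) : ℕ :=
  qd f (L K n k)

/-- `f_i ∈ ⋀^{d_i} V_n` for all `i`. -/
def Hom {K : Type} [Field K] {n r : ℕ} (d : Fin r → ℕ) (f : Fin r → EA K n) : Prop :=
  ∀ i, f i ∈ L K n (d i)

/-- `q_n (t)`: the coefficient of `t ^ k` is the minimal (generic) dimension of the degree `k`
piece of the quotient over all tuples `f_i ∈ ⋀^{d_i} V_n`. -/
noncomputable def qn (K : Type) [Field K] (n : ℕ) {r : ℕ} (d : Fin r → ℕ) : PowerSeries ℤ :=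
  PowerSeries.mk fun k => ((sInf {m | ∃ f : Fin r → EA K n, Hom d f ∧ hf f k = m} : ℕ) : ℤ)

/-- `P (t)`: a factor `1 - t ^ d` for even `d` and `(1 + t ^ d)⁻¹` for odd `d`. -/
noncomputable def PP {r : ℕ} (d : Fin r → ℕ) : PowerSeries ℤ :=
  ∏ i, if Even (d i) then 1 - PowerSeries.X ^ d i
    else PowerSeries.invOfUnit (1 + PowerSeries.X ^ d i) 1

/-- `q_n (t) / (1 + t) ^ n → P (t)` in the `(t)`-adic topology. -/
def Lim (K : Type) [Field K] {r : ℕ} (d : Fin r → ℕ) : Prop :=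
  ∀ k, ∃ N, ∀ n ≥ N, PowerSeries.coeff k
    (qn K n d * PowerSeries.invOfUnit ((1 + PowerSeries.X) ^ n) 1) = PowerSeries.coeff k (PP d)
end defs

variable {K : Type} [Field K] {n r : ℕ}

noncomputable def xx (K : Type) [Field K] (n : ℕ) (v : Fin n) : Module.End K (EA K n) :=
  LinearMap.mulLeft K (ι K (Pi.single v 1))

noncomputable def yy (K : Type) [Field K] (n : ℕ) (v : Fin n) : Module.End K (EA K n) :=
  CliffordAlgebra.contractLeft (Q := 0) (LinearMap.proj v)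

lemma yy_ι (v : Fin n) (a : Fin n → K) (u : EA K n) :
    yy K n v (ι K a * u) = a v • u - ι K a * yy K n v u :=
  CliffordAlgebra.contractLeft_ι_mul (Q := 0) _ a u

lemma ι_mem (a : Fin n → K) {j : ℕ} {u : EA K n} (h : u ∈ L K n j) : ι K a * u ∈ L K n (j + 1) := by
  rw [L, exteriorPower, pow_succ']
  exact Submodule.mul_mem_mul ⟨a, rfl⟩ h

lemma anti (a b : Fin n → K) : ι K a * ι K b = -(ι K b * ι K a) :=
  eq_neg_of_add_eq_zero_left (ι_add_mul_swap a b)

lemma yy_deg (v : Fin n) {i : ℕ} {u : EA K n} (h : u ∈ L K n i) :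
    (i = 0 → yy K n v u = 0) ∧ ∀ j, i = j + 1 → yy K n v u ∈ L K n j := by
  induction h using Submodule.pow_induction_on_left' with
  | algebraMap r =>
    exact ⟨fun _ => CliffordAlgebra.contractLeft_algebraMap 0 _ r, fun j h => by omega⟩
  | add a b i _ _ ha hb =>
    exact ⟨fun h => by rw [map_add, ha.1 h, hb.1 h, add_zero],
      fun j h => by rw [map_add]; exact add_mem (ha.2 j h) (hb.2 j h)⟩
  | mem_mul m hm i z hz ih =>
    obtain ⟨a, rfl⟩ := hm
    refine ⟨fun h => by omega, fun j h => ?_⟩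
    obtain rfl : i = j := by omega
    rw [yy_ι]
    refine sub_mem (Submodule.smul_mem _ _ hz) ?_
    rcases i with _ | i
    · rw [ih.1 rfl, mul_zero]; exact zero_mem _
    · exact ι_mem a (ih.2 i rfl)

lemma car : CAR (xx K n) (yy K n) (L K n) where
  xx v w := LinearMap.ext fun u => by
    simp only [xx, Module.End.mul_apply, LinearMap.mulLeft_apply, LinearMap.neg_apply]
    rw [← mul_assoc, anti, neg_mul, mul_assoc]
  x2 v := LinearMap.ext fun u => by
    simp only [xx, Module.End.mul_apply, LinearMap.mulLeft_apply]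
    rw [← mul_assoc, ι_sq_zero, zero_mul]; rfl
  yy v w := LinearMap.ext fun u => CliffordAlgebra.contractLeft_comm (Q := 0) _ _ u
  yx v w h := LinearMap.ext fun u => by
    simp [xx, yy_ι, Pi.single_eq_of_ne h]
  one v := LinearMap.ext fun u => by simp [xx, yy_ι]
  gx v j u h := ι_mem _ h
  gy v j u h := (yy_deg v h).2 j rfl
  g0 v u h := (yy_deg v h).1 rfl

lemma sc1 (a : Fin n → K) {d : ℕ} {f : EA K n} (h : f ∈ L K n d) :
    ι K a * f = (-1 : K) ^ d • (f * ι K a) := by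
  induction h using Submodule.pow_induction_on_left' with
  | algebraMap r => simp [Algebra.commutes]
  | add a b i _ _ ha hb => rw [mul_add, add_mul, smul_add, ha, hb]
  | mem_mul m hm i z hz ih =>
    obtain ⟨b, rfl⟩ := hm
    rw [← mul_assoc, anti, neg_mul, mul_assoc, ih, pow_succ, mul_assoc]
    simp

lemma sc {d e : ℕ} {f g : EA K n} (h : f ∈ L K n d) (hg : g ∈ L K n e) :
    g * f = (-1 : K) ^ (d * e) • (f * g) := by
  induction hg using Submodule.pow_induction_on_left' with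
  | algebraMap r => simp [Algebra.commutes]
  | add a b i _ _ ha hb => rw [mul_add, add_mul, smul_add, ha, hb]
  | mem_mul m hm i z hz ih =>
    obtain ⟨b, rfl⟩ := hm
    rw [mul_assoc, ih, mul_smul_comm, ← mul_assoc, sc1 b h, Nat.succ_eq_add_one, mul_add, pow_add,
      mul_one, smul_mul_assoc, smul_smul, mul_assoc]

lemma swap {d : ℕ} {f : EA K n} (h : f ∈ L K n d) (a : EA K n) : ∃ a', a * f = f * a' := by
  induction a using ExteriorAlgebra.induction with
  | algebraMap r => exact ⟨_, Algebra.commutes r f⟩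
  | ι a => exact ⟨(-1 : K) ^ d • ι K a, by rw [sc1 a h, mul_smul_comm]⟩
  | mul a b ha hb =>
    obtain ⟨a', ha⟩ := ha
    obtain ⟨b', hb⟩ := hb
    exact ⟨a' * b', by rw [mul_assoc, hb, ← mul_assoc, ha, mul_assoc]⟩
  | add a b ha hb =>
    obtain ⟨a', ha⟩ := ha
    obtain ⟨b', hb⟩ := hb
    exact ⟨a' + b', by rw [add_mul, ha, hb, mul_add]⟩

def JJ (g : Fin r → EA K n) (S : Finset (Fin r)) : Submodule K (EA K n) :=
  Submodule.span K {u | ∃ l ∈ S, ∃ z, g l * z = u}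

variable {g : Fin r → EA K n} {S : Finset (Fin r)} {d : Fin r → ℕ}

lemma JJ_gen {l : Fin r} (h : l ∈ S) (z : EA K n) : g l * z ∈ JJ g S :=
  Submodule.subset_span ⟨l, h, z, rfl⟩

lemma JJ_le {J : Submodule K (EA K n)} (h : ∀ l ∈ S, ∀ z, g l * z ∈ J) : JJ g S ≤ J :=
  Submodule.span_le.2 (by rintro _ ⟨l, hl, z, rfl⟩; exact h l hl z)

lemma JJ_st (T : EA K n →ₗ[K] EA K n) (h : ∀ l ∈ S, ∀ z, T (g l * z) ∈ JJ g S) {u : EA K n}
    (hu : u ∈ JJ g S) : T u ∈ JJ g S := JJ_le (J := (JJ g S).comap T) h hu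

lemma JJ_left (hg : ∀ i, g i ∈ L K n (d i)) (a : EA K n) {u : EA K n} (hu : u ∈ JJ g S) :
    a * u ∈ JJ g S := JJ_st (LinearMap.mulLeft K a) (fun l hl z => by
  obtain ⟨a', h⟩ := swap (hg l) a
  rw [LinearMap.mulLeft_apply, ← mul_assoc, h, mul_assoc]
  exact JJ_gen hl _) hu

lemma JJ_ins (l : Fin r) : JJ g (insert l S) =
    LinearMap.range (LinearMap.mulLeft K (g l)) ⊔ JJ g S := by
  refine le_antisymm (JJ_le fun i hi z => ?_) (sup_le ?_ (JJ_le fun i hi z =>
    JJ_gen (mem_insert_of_mem hi) z))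
  · rcases mem_insert.1 hi with rfl | hi
    · exact Submodule.mem_sup_left ⟨z, rfl⟩
    · exact Submodule.mem_sup_right (JJ_gen hi z)
  · rintro _ ⟨z, rfl⟩; exact JJ_gen (mem_insert_self _ _) z

lemma JJ_mono (l : Fin r) : JJ g S ≤ JJ g (insert l S) := by
  rw [JJ_ins]; exact le_sup_right

lemma JJ_eq (hg : ∀ i, g i ∈ L K n (d i)) :
    idS K g = JJ g univ := by
  refine le_antisymm (fun u hu => ?_) (JJ_le fun l _ z => ?_)
  · replace hu : u ∈ TwoSidedIdeal.span (Set.range g) := hu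
    induction hu using TwoSidedIdeal.span_induction with
    | mem x h => obtain ⟨l, rfl⟩ := h; simpa using JJ_gen (g := g) (mem_univ l) 1
    | zero => exact zero_mem _
    | add x y _ _ a b => exact add_mem a b
    | neg x _ a => exact neg_mem a
    | left_absorb a x _ h => exact JJ_left hg a h
    | right_absorb a x _ h =>
      exact JJ_st (LinearMap.mulRight K a) (fun l hl z => by
        rw [LinearMap.mulRight_apply, mul_assoc]; exact JJ_gen hl _) h
  · exact TwoSidedIdeal.mul_mem_right _ _ _ (TwoSidedIdeal.subset_span (Set.mem_range_self l))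

noncomputable def pj (K : Type) [Field K] (n j : ℕ) : EA K n →ₗ[K] EA K n :=
  GradedAlgebra.proj (L K n) j

lemma pj_mem (j : ℕ) (u : EA K n) : pj K n j u ∈ L K n j := (DirectSum.decompose (L K n) u j).2

lemma pj_self {j : ℕ} {u : EA K n} (h : u ∈ L K n j) : pj K n j u = u :=
  DirectSum.decompose_of_mem_same (L K n) h

lemma pj_mul {e : ℕ} {f : EA K n} (h : f ∈ L K n e) (j : ℕ) (z : EA K n) :
    pj K n j (f * z) = if e ≤ j then f * pj K n (j - e) z else 0 :=
  DirectSum.coe_decompose_mul_of_left_mem (L K n) j h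

lemma pj_JJ (hg : ∀ i, g i ∈ L K n (d i)) (j : ℕ) {u : EA K n} (hu : u ∈ JJ g S) :
    pj K n j u ∈ JJ g S := JJ_st _ (fun l hl z => by
  rw [pj_mul (hg l)]
  split_ifs
  · exact JJ_gen hl _
  · exact zero_mem _) hu

instance : FiniteDimensional K (EA K n) :=
  Module.Finite.of_basis (Pi.basisFun K (Fin n)).ExteriorAlgebra

noncomputable def aa (g : Fin r → EA K n) (S : Finset (Fin r)) (j : ℕ) : ℕ :=
  finrank K (L K n j ⊓ JJ g S : Submodule K _)

lemma rk_L (j : ℕ) : finrank K (L K n j) = n.choose j := by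
  rw [exteriorPower.finrank_eq]; simp

lemma hf_aa (hg : ∀ i, g i ∈ L K n (d i)) (j : ℕ) : hf g j + aa g univ j = n.choose j := by
  rw [hf, qd, JJ_eq hg, aa, ← rk_L (K := K), ← Sg.rk_gen (JJ g univ).mkQ (L K n j),
    Submodule.ker_mkQ]

def Kr (g : Fin r → EA K n) (S : Finset (Fin r)) (l : Fin r) (i : ℕ) : Submodule K (EA K n) :=
  L K n i ⊓ (JJ g S).comap (LinearMap.mulLeft K (g l))

lemma step (hg : ∀ i, g i ∈ L K n (d i)) (l : Fin r) (i : ℕ) :
    aa g (insert l S) (i + d l) + finrank K (Kr g S l i) = aa g S (i + d l) + n.choose i := by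
  have a1 := Sg.rk_gen ((JJ g S).mkQ ∘ₗ LinearMap.mulLeft K (g l)) (L K n i)
  have a2 := Sg.rk_gen (JJ g S).mkQ (L K n (i + d l) ⊓ JJ g (insert l S))
  rw [LinearMap.ker_comp, Submodule.ker_mkQ, rk_L] at a1
  have e : JJ g (insert l S) ⊓ JJ g S = JJ g S := inf_eq_right.2 (JJ_mono l)
  have e2 : (L K n (i + d l) ⊓ JJ g (insert l S)).map (JJ g S).mkQ =
      (L K n i).map ((JJ g S).mkQ ∘ₗ LinearMap.mulLeft K (g l)) := by
    ext w
    constructor
    · rintro ⟨u, ⟨h1, h2⟩, rfl⟩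
      rw [JJ_ins] at h2
      obtain ⟨_, ⟨z, rfl⟩, t, ht, rfl⟩ := Submodule.mem_sup.1 h2
      refine ⟨_, pj_mem i z, ?_⟩
      rw [← pj_self h1, map_add, LinearMap.mulLeft_apply, pj_mul (hg l), if_pos (by omega),
        Nat.add_sub_cancel, map_add, Submodule.mkQ_apply _ (pj K n _ t),
        (Submodule.Quotient.mk_eq_zero _).2 (pj_JJ hg _ ht), add_zero]
      rfl
    · rintro ⟨z, hz, rfl⟩
      exact ⟨g l * z, ⟨add_comm (d l) i ▸ SetLike.mul_mem_graded (A := L K n) (hg l) hz,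
        JJ_gen (mem_insert_self _ _) z⟩, rfl⟩
  rw [Submodule.ker_mkQ, inf_assoc, e, e2] at a2
  unfold aa Kr
  omega

lemma step0 (hg : ∀ i, g i ∈ L K n (d i)) (l : Fin r) {j : ℕ} (h : j < d l) :
    aa g (insert l S) j = aa g S j := by
  have : L K n j ⊓ JJ g (insert l S) = L K n j ⊓ JJ g S := by
    refine le_antisymm (fun u ⟨h1, h2⟩ => ⟨h1, ?_⟩) (inf_le_inf_left _ (JJ_mono l))
    rw [JJ_ins] at h2
    obtain ⟨_, ⟨z, rfl⟩, t, ht, rfl⟩ := Submodule.mem_sup.1 h2
    rw [← pj_self h1, map_add, LinearMap.mulLeft_apply, pj_mul (hg l), if_neg (by omega), zero_add]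
    exact pj_JJ hg _ ht
  rw [aa, this, aa]

lemma Kr_even (hg : ∀ i, g i ∈ L K n (d i)) (l : Fin r) (i : ℕ) :
    L K n i ⊓ JJ g S ≤ Kr g S l i := fun _ h => ⟨h.1, JJ_left hg _ h.2⟩

lemma Kr_odd [CharZero K] (hg : ∀ i, g i ∈ L K n (d i)) {l : Fin r} (o : Odd (d l)) (i : ℕ) :
    L K n i ⊓ JJ g (insert l S) ≤ Kr g S l i := fun u ⟨h1, h2⟩ => by
  refine ⟨h1, ?_⟩
  rw [JJ_ins] at h2
  obtain ⟨_, ⟨z, rfl⟩, t, ht, rfl⟩ := Submodule.mem_sup.1 h2
  have := sc (hg l) (hg l)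
  rw [(o.mul o).neg_one_pow, neg_one_smul, eq_neg_iff_add_eq_zero, ← two_smul K,
    smul_eq_zero] at this
  change g l * (g l * z + t) ∈ JJ g S
  rw [mul_add, ← mul_assoc, this.resolve_left two_ne_zero, zero_mul, zero_add]
  exact JJ_left hg _ ht

noncomputable def Ps (g : Fin r → EA K n) (S : Finset (Fin r)) (j : ℕ) :
    (Fin r → EA K n) →ₗ[K] EA K n :=
  pj K n j ∘ₗ ∑ l ∈ S, LinearMap.mulLeft K (g l) ∘ₗ LinearMap.proj l

lemma Ps_ap (j : ℕ) (z : Fin r → EA K n) : Ps g S j z = pj K n j (∑ l ∈ S, g l * z l) := by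
  simp [Ps]

lemma Ps_rg (hg : ∀ i, g i ∈ L K n (d i)) (j : ℕ) :
    LinearMap.range (Ps g S j) = L K n j ⊓ JJ g S := by
  refine le_antisymm ?_ fun u ⟨h1, h2⟩ => ?_
  · rintro _ ⟨z, rfl⟩
    rw [Ps_ap]
    exact ⟨pj_mem _ _, pj_JJ hg _ (sum_mem fun l hl => JJ_gen hl _)⟩
  · rw [← pj_self h1]
    refine JJ_le (J := (LinearMap.range (Ps g S j)).comap (pj K n j)) (fun l hl z => ?_) h2
    refine ⟨Pi.single l z, ?_⟩
    rw [Ps_ap, sum_eq_single_of_mem l hl fun b _ x => by simp [Pi.single_eq_of_ne x]]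
    simp

lemma gen2 {h : Fin r → EA K n} (hg : ∀ i, g i ∈ L K n (d i)) (hh : ∀ i, h i ∈ L K n (d i))
    (k : ℕ) : {t : K | ∃ S, ∃ j ≤ k, aa (g + t • h) S j < aa g S j}.Finite := by
  refine (Set.finite_iUnion fun S : Finset (Fin r) => (Set.finite_Iic k).biUnion fun j _ =>
    rk_open (Ps g S j) (Ps h S j)).subset ?_
  rintro t ⟨S, j, hj, ht⟩
  simp only [Set.mem_iUnion]
  refine ⟨S, j, hj, ?_⟩
  have e : Ps g S j + t • Ps h S j = Ps (g + t • h) S j := LinearMap.ext fun z => by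
    simp [Ps_ap, add_mul, sum_add_distrib, smul_sum]
  change finrank K _ < finrank K _
  rw [e, Ps_rg hg, Ps_rg (g := g + t • h) (d := d) fun i => add_mem (hg i) (Submodule.smul_mem _ _ (hh i))]
  exact ht

lemma gen3 [Infinite K] {t : Fin r → EA K n} (hg : ∀ i, g i ∈ L K n (d i))
    (ht : ∀ i, t i ∈ L K n (d i)) (k : ℕ) : ∃ w : Fin r → EA K n, (∀ i, w i ∈ L K n (d i)) ∧
      ∀ S, ∀ j ≤ k, aa g S j ≤ aa w S j ∧ aa t S j ≤ aa w S j := by
  have hh : ∀ i, (t - g) i ∈ L K n (d i) := fun i => sub_mem (ht i) (hg i)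
  obtain ⟨c, hc⟩ := ((gen2 hg hh k).union ((gen2 ht hh k).image (· + 1))).exists_notMem
  refine ⟨g + c • (t - g), fun i => add_mem (hg i) (Submodule.smul_mem _ _ (hh i)),
    fun S j hj => ⟨not_lt.1 fun x => hc (Or.inl ⟨S, j, hj, x⟩),
      not_lt.1 fun x => hc (Or.inr ⟨c - 1, ⟨S, j, hj, ?_⟩, by simp⟩)⟩⟩
  rwa [show t + (c - 1) • (t - g) = g + c • (t - g) by module]

end Pool.Agent.H50.Ex
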