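import Mathlib
import Pool.Agent.H50.Ex2

namespace Pool.Agent.H50.Ex

open Finset Module ExteriorAlgebra

variable {K : Type} [Field K] {n r : ℕ} {d : Fin r → ℕ}

lemma M_ap (b : List (Fin n)) (u : EA K n) : M (xx K n) b u = M (xx K n) b 1 * u := by
  induction b with
  | nil => simp [M]
  | cons v b ih =>
    rw [M_cons, Module.End.mul_apply, Module.End.mul_apply, ih]
    simp [xx, mul_assoc]

lemma F_ap {ι : Type} (b : ι → List (Fin n)) (S : Finset ι) (u : EA K n) :
    F (xx K n) b S u = F (xx K n) b S 1 * u := by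
  rw [F, LinearMap.sum_apply, LinearMap.sum_apply, sum_mul]
  exact sum_congr rfl fun a _ => M_ap _ _

lemma special [CharZero K] (hd : ∀ i, 1 ≤ d i) (N : ℕ)
    (hn : Fintype.card (Σ p : Fin r × Fin N, Fin (d p.1)) ≤ n) :
    ∃ s : Fin r → EA K n, (∀ i, s i ∈ L K n (d i)) ∧ ∀ S l, l ∉ S → ∀ i < N,
      finrank K (Kr s S l i) = if Even (d l) then aa s S i else aa s (insert l S) i := by
  obtain ⟨e⟩ := Function.Embedding.nonempty_of_card_le (β := Fin n)
    (hn.trans (Fintype.card_fin n).ge)
  let b : Fin r → Fin N → List (Fin n) := fun l a => List.ofFn fun c : Fin (d l) => e ⟨(l, a), c⟩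
  have dj : ∀ l a l' a', (l, a) ≠ (l', a') → ∀ v ∈ b l a, ∀ w ∈ b l' a', v ≠ w := by
    intro l a l' a' h v hv w hw x
    obtain ⟨c, rfl⟩ := List.mem_ofFn.1 hv
    obtain ⟨c', y⟩ := List.mem_ofFn.1 hw
    exact h (congrArg Sigma.fst (e.injective (x.trans y.symm)))
  have bk : ∀ l (J : Submodule K (EA K n)), (∀ v, ∀ u ∈ J, xx K n v u ∈ J) →
      (∀ a, ∀ v ∈ b l a, ∀ u ∈ J, yy K n v u ∈ J) → Blk (xx K n) (yy K n) (b l) (d l) J :=
    fun l J h1 h2 => ⟨fun a => List.nodup_ofFn.2 fun c c' x => by simpa using e.injective x,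
      fun a => List.length_ofFn, hd l, fun a a' h => dj l a l a' (by simpa using h), h1, h2⟩
  let s : Fin r → EA K n := fun l => F (xx K n) (b l) univ 1
  have hs : ∀ i, s i ∈ L K n (d i) := fun l => by
    change F (xx K n) (b l) univ 1 ∈ _
    rw [F, LinearMap.sum_apply]
    refine sum_mem fun a _ => ?_
    have := car.gM (b l a) (SetLike.one_mem_graded (L K n))
    rwa [List.length_ofFn, zero_add] at this
  refine ⟨s, hs, fun S l hl i hi => ?_⟩
  have B := bk l (JJ s S) (fun v u hu => JJ_left hs _ hu) fun a v hv u hu =>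
    JJ_st _ (fun l' h' z => by
      have := (bk l' ⊤ (by simp) (by simp)).aF (S := univ) (z := yy K n v) fun a' _ w hw =>
        car.yx v w (dj l a l' a' (fun x => hl ((Prod.mk.inj x).1 ▸ h')) v hv w hw)
      rw [← F_ap, ← Module.End.mul_apply]
      rcases (d l').even_or_odd with p | p
      · rw [(this.1 p).eq, Module.End.mul_apply, F_ap]; exact JJ_gen h' _
      · rw [this.2 p, LinearMap.neg_apply, Module.End.mul_apply, F_ap]
        exact neg_mem (JJ_gen h' _)) hu
  split_ifs with p
  · have : Kr s S l i = L K n i ⊓ JJ s S := le_antisymm (fun u hu => ⟨hu.1,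
      even_reg car B p univ 1 i (by simpa using hi) u hu.1 (by rw [pow_one, F_ap]; exact hu.2)⟩)
      (Kr_even hs l i)
    rw [this, aa]
  · rw [Nat.not_even_iff_odd] at p
    have : Kr s S l i = L K n i ⊓ JJ s (insert l S) := le_antisymm (fun u hu => ⟨hu.1, by
      have := odd_reg car B p univ i (by simpa using hi) u hu.1 (by rw [F_ap]; exact hu.2)
      rw [JJ_ins]
      obtain ⟨_, ⟨z, rfl⟩, t, ht, rfl⟩ := Submodule.mem_sup.1 this
      exact Submodule.add_mem_sup ⟨z, (F_ap _ _ z).symm⟩ ht⟩) (Kr_odd hs p i)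
    rw [this, aa]

lemma aa_empty (g : Fin r → EA K n) (j : ℕ) : aa g ∅ j = 0 := by
  rw [aa, le_bot_iff.1 (JJ_le (g := g) (S := ∅) (by simp))]; simp

open PowerSeries

lemma cf (j : ℕ) : coeff j ((1 + X : PowerSeries ℤ) ^ n) = n.choose j := by
  have := Polynomial.coeff_one_add_X_pow ℤ n j
  rw [← Polynomial.coeff_coe] at this
  simpa using this

lemma inv_one : (1 + X : PowerSeries ℤ) ^ n * invOfUnit ((1 + X) ^ n) 1 = 1 :=
  mul_invOfUnit _ _ (by simp)

theorem char0 [CharZero K] (hd : ∀ i, 1 ≤ d i) : Lim K d := by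
  intro k
  refine ⟨Fintype.card (Σ p : Fin r × Fin (k + 1), Fin (d p.1)), fun n hn => ?_⟩
  obtain ⟨s, hs, h⟩ := special (K := K) hd (k + 1) hn
  have opt : ∀ t : Fin r → EA K n, (∀ i, t i ∈ L K n (d i)) → ∀ j ≤ k,
      aa t univ j ≤ aa s univ j := fun t ht j hj => by
    obtain ⟨w, hw, h2⟩ := gen3 hs ht k
    refine (h2 _ j hj).2.trans ?_
    have : ∀ S, ∀ j ≤ k, aa w S j ≤ aa s S j := fun S => by
      induction S using Finset.induction_on with
      | empty => simp [aa_empty]
      | insert l S hl ih =>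
        intro j hj
        by_cases x : j < d l
        · rw [step0 hw l x, step0 hs l x]; exact ih j hj
        obtain ⟨i, rfl⟩ : ∃ i, j = i + d l := ⟨j - d l, by omega⟩
        have a1 := step (S := S) hw l i
        have a2 := step (S := S) hs l i
        have a3 := h S l hl i (by omega)
        have a4 := ih _ hj
        split_ifs at a3 with p
        · have a5 : aa w S i ≤ _ := Submodule.finrank_mono (Kr_even hw l i)
          have a6 := (h2 S i (by omega)).1
          omega
        · have a5 : aa w (insert l S) i ≤ _ :=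
            Submodule.finrank_mono (Kr_odd hw (Nat.not_even_iff_odd.1 p) i)
          have a6 := (h2 (insert l S) i (by omega)).1
          omega
    exact this _ j hj
  set H : Finset (Fin r) → PowerSeries ℤ := fun S => mk fun j => (n.choose j - aa s S j : ℤ) with hH
  have ser : ∀ S, X ^ (k + 1) ∣ H S - (1 + X) ^ n * ∏ i ∈ S, (if Even (d i) then 1 - X ^ d i
      else invOfUnit (1 + X ^ d i) 1 : PowerSeries ℤ) := fun S => by
    induction S using Finset.induction_on with
    | empty => simp [X_pow_dvd_iff, hH, aa_empty, cf]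
    | insert l S hl ih =>
      rw [prod_insert hl]
      have key : X ^ (k + 1) ∣ H (insert l S) +
          (if Even (d l) then H S else H (insert l S)) * X ^ d l - H S := by
        refine X_pow_dvd_iff.2 fun j hj => ?_
        rw [map_sub, map_add, coeff_mul_X_pow']
        by_cases x : j < d l
        · simp [hH, step0 hs l x, not_le.2 x]
        obtain ⟨i, rfl⟩ : ∃ i, j = i + d l := ⟨j - d l, by omega⟩
        have a2 := step (S := S) hs l i
        have a3 := h S l hl i (by omega)
        rw [if_pos (by omega), Nat.add_sub_cancel]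
        split_ifs at a3 ⊢ <;> simp only [hH, coeff_mk] <;> omega
      split_ifs at key ⊢ with p
      · convert dvd_add key (ih.mul_right (1 - X ^ d l)) using 1
        ring
      · have e : (1 + X ^ d l : PowerSeries ℤ) * invOfUnit (1 + X ^ d l) 1 = 1 :=
          mul_invOfUnit _ _ (by have := hd l; simp; omega)
        convert (dvd_add key ih).mul_right (invOfUnit (1 + X ^ d l) 1) using 1
        linear_combination (-H (insert l S)) * e
  have q : X ^ (k + 1) ∣ qn K n d - H univ := X_pow_dvd_iff.2 fun j hj => by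
    have a1 := hf_aa hs j
    have : sInf {m | ∃ f : Fin r → EA K n, Hom d f ∧ hf f j = m} =
        hf s j := le_antisymm (Nat.sInf_le ⟨s, hs, rfl⟩) (le_csInf ⟨_, s, hs, rfl⟩ (by
      rintro _ ⟨t, ht, rfl⟩
      have a2 := hf_aa ht j
      have a3 := opt t ht j (by omega)
      omega))
    simp only [map_sub, qn, hH, coeff_mk, this]
    omega
  have := (dvd_add q (ser univ)).mul_right (invOfUnit ((1 + X) ^ n) 1)
  rw [← PP, sub_add_sub_cancel, sub_mul, mul_right_comm, inv_one, one_mul] at this
  have := X_pow_dvd_iff.1 this k (by omega)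
  rwa [map_sub, sub_eq_zero] at this

lemma pow_char {p : ℕ} [Fact p.Prime] [CharP K p] {f : EA K n} (h : f ∈ L K n 2) : f ^ p = 0 := by
  have : CharP (EA K n) p := charP_of_injective_algebraMap (algebraMap K _).injective p
  have e : L K n 2 = LinearMap.range (ι K) * LinearMap.range (ι K) := pow_two _
  rw [e] at h
  induction h using Submodule.mul_induction_on' with
  | mem_mul_mem a ha b hb =>
    obtain ⟨a, rfl⟩ := ha
    obtain ⟨b, rfl⟩ := hb
    refine pow_eq_zero_of_le (Fact.out : p.Prime).two_le ?_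
    rw [pow_two, mul_assoc, ← mul_assoc (ι K b), anti b a, neg_mul, mul_assoc, ι_sq_zero]
    simp
  | add a ha b hb x y =>
    rw [← e] at ha hb
    rw [add_pow_char_of_commute p (by
      have := sc hb ha
      rwa [(by decide : Even (2 * 2)).neg_one_pow, one_smul] at this), x, y, add_zero]

theorem charp (hK : ringChar K ≠ 0) : ¬ Lim K (fun _ : Fin 1 => 2) := by
  intro h
  set p := ringChar K
  have hp : Fact p.Prime := ⟨CharP.char_prime_of_ne_zero K hK⟩
  choose N hN using h
  obtain ⟨m, hm⟩ : ∃ m, p = m + 1 := ⟨p - 1, by omega⟩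
  set n := (range (2 * m + 2 + 1)).sup N + 2 * m with hn
  have a1 : X ^ (2 * m + 2 + 1) ∣ qn K n (fun _ : Fin 1 => 2) * invOfUnit ((1 + X) ^ n) 1 -
      PP (fun _ : Fin 1 => 2) := X_pow_dvd_iff.2 fun j hj => by
    rw [map_sub, hN j n ((le_sup (mem_range.2 hj)).trans (Nat.le_add_right _ _)), sub_self]
  have a2 := X_pow_dvd_iff.1 (a1.mul_left ((1 + X) ^ n)) (2 * m + 2) (by omega)
  rw [mul_sub, mul_left_comm, inv_one, mul_one, PP, Fin.prod_univ_one, if_pos even_two, mul_sub,
    mul_one, map_sub, map_sub, coeff_mul_X_pow, cf, cf, qn, coeff_mk] at a2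
  obtain ⟨f, hf1, hf2⟩ := Nat.sInf_mem (s := {m' | ∃ f : Fin 1 → EA K n,
    Hom (fun _ => 2) f ∧ hf f (2 * m + 2) = m'}) ⟨_, 0, fun _ => zero_mem _, rfl⟩
  have a3 := hf_aa (d := fun _ => 2) hf1 (2 * m + 2)
  have a4 := step (S := ∅) (d := fun _ => 2) hf1 0 (2 * m)
  rw [aa_empty, show insert (0 : Fin 1) ∅ = univ by decide] at a4
  have a5 : Kr f ∅ 0 (2 * m) = ⊥ := Submodule.finrank_eq_zero.1 (by omega)
  have inj : ∀ i ≤ 2 * m, ∀ u ∈ L K n i, f 0 * u = 0 → u = 0 := by
    intro i hi
    induction hi using Nat.decreasingInduction with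
    | self =>
      intro u hu x
      exact (Submodule.eq_bot_iff _).1 a5 u ⟨hu, by
        change f 0 * u ∈ JJ f ∅
        rw [x]; exact zero_mem _⟩
    | of_succ i hi ih =>
      intro u hu x
      refine car.nz (List.nodup_finRange n) (by rw [List.length_finRange]; omega) hu fun v =>
        ih _ (car.gx v _ _ hu) ?_
      change f 0 * (ι K _ * u) = 0
      have := sc1 (Pi.single v 1) (hf1 0)
      rw [even_two.neg_one_pow, one_smul] at this
      rw [← mul_assoc, ← this, mul_assoc, x, mul_zero]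
  have nz : ∀ t ≤ m + 1, f 0 ^ t ≠ 0 := by
    intro t ht
    induction t with
    | zero => simp
    | succ t ih =>
      have g : f 0 ^ t ∈ L K n (t * 2) := SetLike.pow_mem_graded (A := L K n) t (hf1 0)
      exact fun x => ih (by omega) (inj _ (by omega) _ g (by rw [← pow_succ', x]))
  exact nz p hm.le (pow_char (hf1 0))

end Pool.Agent.H50.Ex
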