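import Mathlib
import Pool.Agent.H50.FatPts

set_option linter.unusedSimpArgs false

namespace Pool.Agent.H50.FatOrd

open MvPolynomial Pool.Agent.H50.FatPts

/-- translation moving the point `p` to the origin: `f(x) ↦ f(x + p)` -/
noncomputable def tr (p : Fin 2 → ℂ) : R →ₐ[ℂ] R := aeval fun j => X j + C (p j)

theorem tr_tr (p : Fin 2 → ℂ) (f : R) : tr (-p) (tr p f) = f := by
  have : (tr (-p)).comp (tr p) = AlgHom.id ℂ R := by
    ext j : 1
    simp [tr]
  exact DFunLike.congr_fun this f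

theorem tr_inj (p : Fin 2 → ℂ) : Function.Injective (tr p) :=
  Function.LeftInverse.injective (tr_tr p)

theorem mem_iff_tr (p : Fin 2 → ℂ) (k : ℕ) (f : R) :
    f ∈ mx p ^ k ↔ tr p f ∈ idealOfVars (Fin 2) ℂ ^ k := by
  constructor
  · intro h
    have h1 := Ideal.mem_map_of_mem (tr p) h
    rw [Ideal.map_pow] at h1
    refine Ideal.pow_right_mono ?_ k h1
    rw [Ideal.map_span, Ideal.span_le]
    rintro _ ⟨x, hx | hx, rfl⟩
    · rw [hx]; exact Ideal.subset_span ⟨0, by simp [tr]⟩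
    · rw [hx]; exact Ideal.subset_span ⟨1, by simp [tr]⟩
  · intro h
    have h1 := Ideal.mem_map_of_mem (tr (-p)) h
    rw [Ideal.map_pow, tr_tr] at h1
    refine Ideal.pow_right_mono ?_ k h1
    rw [Ideal.map_span, Ideal.span_le]
    rintro _ ⟨x, ⟨j, rfl⟩, rfl⟩
    apply Ideal.subset_span
    fin_cases j <;> simp [tr, sub_eq_add_neg]

/-- order of vanishing -/
noncomputable def ord (p : Fin 2 → ℂ) (f : R) : ℕ∞ := (tr p f : MvPowerSeries (Fin 2) ℂ).order

theorem ord_mul (p : Fin 2 → ℂ) (f g : R) : ord p (f * g) = ord p f + ord p g := by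
  rw [ord, map_mul, coe_mul, MvPowerSeries.order_mul]; rfl

theorem mem_iff_ord (p : Fin 2 → ℂ) (k : ℕ) (f : R) : f ∈ mx p ^ k ↔ (k : ℕ∞) ≤ ord p f := by
  rw [mem_iff_tr, mem_pow_idealOfVars_iff']
  constructor
  · intro h
    exact MvPowerSeries.nat_le_order fun d hd => by rw [coeff_coe]; exact h d hd
  · intro h d hd
    rw [← coeff_coe]
    exact MvPowerSeries.coeff_of_lt_order (lt_of_lt_of_le (by exact_mod_cast hd) h)

theorem ord_eq (p : Fin 2 → ℂ) (k : ℕ) (f : R) (h : f ∈ mx p ^ k) (h' : f ∉ mx p ^ (k + 1)) :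
    ord p f = k := by
  rw [mem_iff_ord] at h h'
  refine le_antisymm ?_ h
  rw [not_le] at h'
  exact Order.le_of_lt_add_one (by exact_mod_cast h')

theorem mem_mx (p : Fin 2 → ℂ) (f : R) (h : eval p f = 0) : f ∈ mx p := by
  have key : ∀ f : R, f - C (eval p f) ∈ mx p := by
    intro f
    induction f using MvPolynomial.induction_on with
    | C a => simp
    | add f g hf hg =>
      have := Ideal.add_mem _ hf hg
      rwa [show f - C (eval p f) + (g - C (eval p g)) = f + g - C (eval p (f + g)) by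
        rw [map_add, map_add]; ring] at this
    | mul_X f j hf =>
      have h1 : (X j - C (p j) : R) ∈ mx p := by
        apply Ideal.subset_span
        fin_cases j <;> simp
      have := Ideal.add_mem _ (Ideal.mul_mem_right (X j) _ hf)
        (Ideal.mul_mem_left _ (C (eval p f)) h1)
      rwa [show (f - C (eval p f)) * X j + C (eval p f) * (X j - C (p j)) =
        f * X j - C (eval p (f * X j)) by rw [map_mul, map_mul, eval_X]; ring] at this
  simpa [h] using key f

theorem deg_tr (p : Fin 2 → ℂ) (u : ℕ × ℕ) (c : ℂ) :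
    (tr p (monomial (ex u) c)).totalDegree ≤ u.1 + u.2 := by
  have h : ∀ j : Fin 2, ∀ n : ℕ, ((X j + C (p j) : R) ^ n).totalDegree ≤ n := by
    intro j n
    refine (totalDegree_pow _ _).trans ?_
    have : (X j + C (p j) : R).totalDegree ≤ 1 := (totalDegree_add _ _).trans (by simp)
    calc n * _ ≤ n * 1 := Nat.mul_le_mul_left _ this
      _ = n := mul_one n
  rw [tr, aeval_monomial, Finsupp.prod_fintype _ _ (fun _ => pow_zero _), Fin.prod_univ_two,
    ex0, ex1]
  refine (totalDegree_mul _ _).trans ?_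
  rw [algebraMap_eq, totalDegree_C, zero_add]
  exact (totalDegree_mul _ _).trans (add_le_add (h _ _) (h _ _))

theorem ex_inj : Function.Injective ex := by
  intro s t h
  have h0 := congrArg (fun z : Fin 2 →₀ ℕ => z 0) h
  have h1 := congrArg (fun z : Fin 2 →₀ ℕ => z 1) h
  simp only [ex0, ex1] at h0 h1
  exact Prod.ext h0 h1

theorem ex_deg (u : ℕ × ℕ) : Finsupp.degree (ex u) = u.1 + u.2 := by
  simp [ex]

/-- existence of a curve by counting conditions -/
theorem exists_curve {N d m : ℕ} (e : Fin (N + 1) → ℕ × ℕ) (he : Function.Injective e)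
    (hd : ∀ s, (e s).1 + (e s).2 ≤ d) (hm : ∀ s, m ≤ (e s).1 + (e s).2) (a : Fin 2 → ℂ)
    (q : Fin N → Fin 2 → ℂ) :
    ∃ f : R, f ≠ 0 ∧ f.totalDegree ≤ d ∧ f ∈ mx a ^ m ∧ ∀ i, eval (q i) f = 0 := by
  classical
  let A : Matrix (Fin N) (Fin (N + 1)) ℂ := fun i s => eval (q i) (tr (-a) (monomial (ex (e s)) 1))
  have h1 : LinearMap.ker A.mulVecLin ≠ ⊥ :=
    LinearMap.ker_ne_bot_of_finrank_lt (by simp)
  obtain ⟨c, hc, hc0⟩ := (Submodule.ne_bot_iff _).1 h1
  refine ⟨tr (-a) (∑ s, monomial (ex (e s)) (c s)), ?_, ?_, ?_, ?_⟩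
  · intro h
    have h2 : ∑ s, (monomial (ex (e s)) (c s) : R) = 0 := tr_inj (-a) (by rw [h, map_zero])
    apply hc0
    funext s
    have h3 := congrArg (coeff (ex (e s))) h2
    rw [coeff_sum, Finset.sum_eq_single s] at h3
    · simpa using h3
    · intro t _ hts
      rw [coeff_monomial, if_neg (fun h => hts (he (ex_inj h)))]
    · simp
  · rw [map_sum]
    exact (totalDegree_finsetSum _ _).trans
      (Finset.sup_le fun s _ => (deg_tr _ _ _).trans (hd s))
  · rw [mem_iff_tr]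
    have := tr_tr (-a) (∑ s, monomial (ex (e s)) (c s))
    rw [neg_neg] at this
    rw [this]
    refine Ideal.sum_mem _ fun s _ => ?_
    by_cases h : c s = 0
    · simp [h]
    · rw [monomial_mem_pow_idealOfVars_iff _ _ h, ex_deg]
      exact hm s
  · intro i
    have h2 := congrFun (LinearMap.mem_ker.1 hc) i
    rw [Matrix.mulVecLin_apply, Matrix.mulVec, dotProduct] at h2
    rw [map_sum, map_sum, ← (show (0 : Fin N → ℂ) i = 0 from rfl), ← h2]
    refine Finset.sum_congr rfl fun s _ => ?_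
    have : (monomial (ex (e s)) (c s) : R) = C (c s) * monomial (ex (e s)) 1 := by
      rw [C_mul_monomial, mul_one]
    rw [this, map_mul, map_mul]
    simp [A, tr, mul_comm]

/-- generic emptiness with polynomially parametrised points -/
theorem gen_P {σ : Type} {N n d : ℕ} (e : Fin N → ℕ × ℕ) (he : Function.Injective e)
    (hs : ∀ u ≤ d, ∀ v ≤ d, u + v ≤ d → ∃ s, e s = (u, v)) (c : Fin N → Fin n × ℕ × ℕ)
    (m : Fin n → ℕ) (hc : ∀ j, (c j).2.1 + (c j).2.2 < m (c j).1) (q : Fin n → Fin 2 → ℤ)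
    (hq : (mat e c q).det ≠ 0) (P : Fin n → Fin 2 → MvPolynomial σ ℂ) (z0 : σ → ℂ)
    (hz : ∀ i k, eval z0 (P i k) = q i k) :
    ∃ D : MvPolynomial σ ℂ, D ≠ 0 ∧ ∀ z : σ → ℂ, eval z D ≠ 0 →
      ∀ f : R, f.totalDegree ≤ d → (∀ i, f ∈ mx (fun k => eval z (P i k)) ^ m i) → f = 0 := by
  have hD : ∀ z : σ → ℂ, eval z (mat e c P).det = (mat e c (fun i k => eval z (P i k))).det := by
    intro z
    rw [RingHom.map_det, mat_map]
  refine ⟨(mat e c P).det, ?_, ?_⟩
  · intro h
    have h1 := hD z0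
    rw [h, map_zero] at h1
    simp only [hz] at h1
    have h2 := RingHom.map_det (Int.castRingHom ℂ) (mat e c q)
    rw [mat_map] at h2
    apply hq
    have h3 : ((mat e c q).det : ℂ) = 0 := h2.trans h1.symm
    exact_mod_cast h3
  · intro z hz f hf hm
    exact empty_of_det e he hs c m hc _ (by rw [← hD]; exact hz) f hf hm

/-- generic emptiness for all ordered sub-configurations at once -/
theorem gen_all {N n d : ℕ} (r : ℕ) (e : Fin N → ℕ × ℕ) (he : Function.Injective e)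
    (hs : ∀ u ≤ d, ∀ v ≤ d, u + v ≤ d → ∃ s, e s = (u, v)) (c : Fin N → Fin n × ℕ × ℕ)
    (m : Fin n → ℕ) (hc : ∀ j, (c j).2.1 + (c j).2.2 < m (c j).1) (q : Fin n → Fin 2 → ℤ)
    (hq : (mat e c q).det ≠ 0) :
    ∃ D : MvPolynomial (Fin r × Fin 2) ℂ, D ≠ 0 ∧ ∀ p : Fin r → Fin 2 → ℂ,
      eval (fun ij : Fin r × Fin 2 => p ij.1 ij.2) D ≠ 0 →
      ∀ s : Fin n → Fin r, Function.Injective s →
      ∀ f : R, f.totalDegree ≤ d → (∀ i, f ∈ mx (p (s i)) ^ m i) → f = 0 := by
  classical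
  have h : ∀ s : Fin n ↪ Fin r, ∃ D : MvPolynomial (Fin r × Fin 2) ℂ, D ≠ 0 ∧
      ∀ z : Fin r × Fin 2 → ℂ, eval z D ≠ 0 → ∀ f : R, f.totalDegree ≤ d →
        (∀ i, f ∈ mx (fun k => eval z (X (s i, k))) ^ m i) → f = 0 := by
    intro s
    refine gen_P e he hs c m hc q hq (fun i k => X (s i, k))
      (fun ij => Function.extend s (fun i => (q i ij.2 : ℂ)) 0 ij.1) ?_
    intro i k
    rw [eval_X, s.injective.extend_apply]
  choose D hD0 hD using h
  refine ⟨∏ s, D s, Finset.prod_ne_zero_iff.2 fun s _ => hD0 s, ?_⟩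
  intro p hp s hs f hf hm
  rw [map_prod] at hp
  refine hD ⟨s, hs⟩ _ (Finset.prod_ne_zero_iff.1 hp _ (Finset.mem_univ _)) f hf ?_
  intro i
  simpa using hm i

theorem gen_inj (r : ℕ) : ∃ D : MvPolynomial (Fin r × Fin 2) ℂ, D ≠ 0 ∧
    ∀ p : Fin r → Fin 2 → ℂ, eval (fun ij : Fin r × Fin 2 => p ij.1 ij.2) D ≠ 0 →
      Function.Injective p := by
  classical
  refine ⟨∏ ij ∈ Finset.univ.filter (fun ij : Fin r × Fin r => ij.1 ≠ ij.2),
    (X (ij.1, 0) - X (ij.2, 0)), ?_, ?_⟩
  · refine Finset.prod_ne_zero_iff.2 fun ij hij => sub_ne_zero.2 fun h => ?_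
    have := X_injective h
    exact (Finset.mem_filter.1 hij).2 (congrArg Prod.fst this)
  · intro p hp i j hij
    by_contra hne
    rw [map_prod] at hp
    have := Finset.prod_ne_zero_iff.1 hp (i, j) (Finset.mem_filter.2 ⟨Finset.mem_univ _, hne⟩)
    simp [hij] at this

end Pool.Agent.H50.FatOrd
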