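import Mathlib

namespace Pool.Agent.H50.Fib

abbrev V := Fin 12 → ℕ

def img (u : V) : (Fin 6 → ℕ) × ℕ :=
  (![u 0 + u 6 + u 8, u 1 + u 6 + u 9 + u 11, u 2 + u 7 + u 8 + u 10, u 3 + u 7 + u 9 + u 10,
    u 4 + u 7 + u 9 + u 11, u 5 + u 10 + u 11], u 6 + u 7 + u 8 + u 9 + u 10 + u 11)

def wt (u : V) : ℕ :=
  9 * u 0 + 2 * u 1 + 5 * u 2 + 1 * u 3 + 4 * u 4 + 10 * u 5 + 1 * u 6 + 2 * u 7 + 2 * u 8 + 2 * u 9 + 9 * u 10 + 12 * u 11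

def Mo {Q : Type} [CommMonoid Q] (g : Fin 12 → Q) (u : V) : Q := ∏ i, g i ^ u i

def Std (u : V) : Prop :=
  (u 0 = 0 ∧ u 2 = 0 ∧ u 3 = 0 ∧ u 4 = 0 ∧ u 8 = 0) ∨
  (u 0 = 0 ∧ u 2 = 0 ∧ u 3 = 0 ∧ u 4 = 0 ∧ u 9 = 0) ∨
  (u 0 = 0 ∧ u 2 = 0 ∧ u 3 = 0 ∧ u 8 = 0 ∧ u 10 = 0) ∨
  (u 0 = 0 ∧ u 2 = 0 ∧ u 3 = 0 ∧ u 9 = 0 ∧ u 10 = 0) ∨
  (u 0 = 0 ∧ u 2 = 0 ∧ u 4 = 0 ∧ u 8 = 0 ∧ u 11 = 0) ∨
  (u 0 = 0 ∧ u 2 = 0 ∧ u 4 = 0 ∧ u 9 = 0 ∧ u 11 = 0) ∨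
  (u 0 = 0 ∧ u 2 = 0 ∧ u 8 = 0 ∧ u 10 = 0 ∧ u 11 = 0) ∨
  (u 0 = 0 ∧ u 2 = 0 ∧ u 9 = 0 ∧ u 10 = 0 ∧ u 11 = 0) ∨
  (u 0 = 0 ∧ u 3 = 0 ∧ u 4 = 0 ∧ u 6 = 0 ∧ u 9 = 0) ∨
  (u 0 = 0 ∧ u 3 = 0 ∧ u 6 = 0 ∧ u 9 = 0 ∧ u 10 = 0) ∨
  (u 0 = 0 ∧ u 4 = 0 ∧ u 6 = 0 ∧ u 9 = 0 ∧ u 11 = 0) ∨
  (u 0 = 0 ∧ u 6 = 0 ∧ u 9 = 0 ∧ u 10 = 0 ∧ u 11 = 0) ∨
  (u 2 = 0 ∧ u 7 = 0 ∧ u 9 = 0 ∧ u 10 = 0 ∧ u 11 = 0) ∨
  (u 6 = 0 ∧ u 7 = 0 ∧ u 9 = 0 ∧ u 10 = 0 ∧ u 11 = 0)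

def Rel {Q : Type} [CommMonoid Q] (g : Fin 12 → Q) : Prop :=
  g 2 * g 6 = g 1 * g 8 ∧
  g 0 * g 9 = g 3 * g 4 * g 6 ∧
  g 0 * g 11 = g 4 * g 5 * g 6 ∧
  g 0 * g 7 = g 3 * g 4 * g 8 ∧
  g 2 * g 9 = g 1 * g 7 ∧
  g 4 * g 10 = g 5 * g 7 ∧
  g 0 * g 10 = g 3 * g 5 * g 8 ∧
  g 3 * g 11 = g 5 * g 9 ∧
  g 8 * g 9 = g 6 * g 7

lemma img_eq {u v : V} : img u = img v ↔
    u 0 + u 6 + u 8 = v 0 + v 6 + v 8 ∧ u 1 + u 6 + u 9 + u 11 = v 1 + v 6 + v 9 + v 11 ∧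
    u 2 + u 7 + u 8 + u 10 = v 2 + v 7 + v 8 + v 10 ∧
    u 3 + u 7 + u 9 + u 10 = v 3 + v 7 + v 9 + v 10 ∧
    u 4 + u 7 + u 9 + u 11 = v 4 + v 7 + v 9 + v 11 ∧ u 5 + u 10 + u 11 = v 5 + v 10 + v 11 ∧
    u 6 + u 7 + u 8 + u 9 + u 10 + u 11 = v 6 + v 7 + v 8 + v 9 + v 10 + v 11 := by
  simp [img, and_assoc]

lemma uniq {u v : V} (hu : Std u) (hv : Std v) (h : img u = img v) : u = v := by
  rw [img_eq] at h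
  have : u 0 = v 0 ∧ u 1 = v 1 ∧ u 2 = v 2 ∧ u 3 = v 3 ∧ u 4 = v 4 ∧ u 5 = v 5 ∧ u 6 = v 6 ∧
      u 7 = v 7 ∧ u 8 = v 8 ∧ u 9 = v 9 ∧ u 10 = v 10 ∧ u 11 = v 11 := by
    obtain ⟨e1, e2, e3, e4, e5, e6, e7⟩ := h
    have : u 7 = v 7 ∧ u 8 = v 8 ∧ u 9 = v 9 ∧ u 10 = v 10 ∧ u 11 = v 11 := by
      unfold Std at hu hv
      generalize u 0 = u0, u 1 = u1, u 2 = u2, u 3 = u3, u 4 = u4, u 5 = u5, u 6 = u6, u 7 = u7,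
        u 8 = u8, u 9 = u9, u 10 = u10, u 11 = u11, v 0 = v0, v 1 = v1, v 2 = v2, v 3 = v3,
        v 4 = v4, v 5 = v5, v 6 = v6, v 7 = v7, v 8 = v8, v 9 = v9, v 10 = v10, v 11 = v11 at *
      rcases hu with hu | hu | hu | hu | hu | hu | hu | hu | hu | hu | hu | hu | hu | hu <;>
      obtain ⟨rfl, rfl, rfl, rfl, rfl⟩ := hu <;>
      rcases hv with hv | hv | hv | hv | hv | hv | hv | hv | hv | hv | hv | hv | hv | hv <;>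
      obtain ⟨rfl, rfl, rfl, rfl, rfl⟩ := hv <;>
      refine ⟨?_, ?_, ?_, ?_, ?_⟩ <;> omega
    omega
  obtain ⟨h0, h1, h2, h3, h4, h5, h6, h7, h8, h9, h10, h11⟩ := this
  ext i; fin_cases i <;> assumption

variable {Q : Type} [CommMonoid Q] (g : Fin 12 → Q)

lemma Mo_add (u v : V) : Mo g (u + v) = Mo g u * Mo g v := by
  simp [Mo, pow_add, Finset.prod_mul_distrib]

lemma step (l r u : V) (h : Mo g l = Mo g r) (hw : wt r < wt l) (hi : img r = img l)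
    (hl : l ≤ u) : ∃ v, wt v < wt u ∧ img v = img u ∧ Mo g v = Mo g u := by
  obtain ⟨w, rfl⟩ := exists_add_of_le hl
  refine ⟨r + w, ?_, ?_, by rw [Mo_add, Mo_add, h]⟩
  · simp only [wt, Pi.add_apply] at *; omega
  · rw [img_eq] at *; simp only [Pi.add_apply]; omega

lemma red (hg : Rel g) (u : V) :
    Std u ∨ ∃ v, wt v < wt u ∧ img v = img u ∧ Mo g v = Mo g u := by
  obtain ⟨r1, r2, r3, r4, r5, r6, r7, r8, r9⟩ := hg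
  by_cases h1 : 1 ≤ u 2 ∧ 1 ≤ u 6
  · refine .inr (step g ![0, 0, 1, 0, 0, 0, 1, 0, 0, 0, 0, 0]
      ![0, 1, 0, 0, 0, 0, 0, 0, 1, 0, 0, 0] u ?_ (by decide) (by decide) fun i => ?_)
    · simpa [Mo, Fin.prod_univ_succ, mul_assoc] using r1
    · fin_cases i <;> simp [h1.1, h1.2]
  by_cases h2 : 1 ≤ u 0 ∧ 1 ≤ u 9
  · refine .inr (step g ![1, 0, 0, 0, 0, 0, 0, 0, 0, 1, 0, 0]
      ![0, 0, 0, 1, 1, 0, 1, 0, 0, 0, 0, 0] u ?_ (by decide) (by decide) fun i => ?_)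
    · simpa [Mo, Fin.prod_univ_succ, mul_assoc] using r2
    · fin_cases i <;> simp [h2.1, h2.2]
  by_cases h3 : 1 ≤ u 0 ∧ 1 ≤ u 11
  · refine .inr (step g ![1, 0, 0, 0, 0, 0, 0, 0, 0, 0, 0, 1]
      ![0, 0, 0, 0, 1, 1, 1, 0, 0, 0, 0, 0] u ?_ (by decide) (by decide) fun i => ?_)
    · simpa [Mo, Fin.prod_univ_succ, mul_assoc] using r3
    · fin_cases i <;> simp [h3.1, h3.2]
  by_cases h4 : 1 ≤ u 0 ∧ 1 ≤ u 7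
  · refine .inr (step g ![1, 0, 0, 0, 0, 0, 0, 1, 0, 0, 0, 0]
      ![0, 0, 0, 1, 1, 0, 0, 0, 1, 0, 0, 0] u ?_ (by decide) (by decide) fun i => ?_)
    · simpa [Mo, Fin.prod_univ_succ, mul_assoc] using r4
    · fin_cases i <;> simp [h4.1, h4.2]
  by_cases h5 : 1 ≤ u 2 ∧ 1 ≤ u 9
  · refine .inr (step g ![0, 0, 1, 0, 0, 0, 0, 0, 0, 1, 0, 0]
      ![0, 1, 0, 0, 0, 0, 0, 1, 0, 0, 0, 0] u ?_ (by decide) (by decide) fun i => ?_)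
    · simpa [Mo, Fin.prod_univ_succ, mul_assoc] using r5
    · fin_cases i <;> simp [h5.1, h5.2]
  by_cases h6 : 1 ≤ u 4 ∧ 1 ≤ u 10
  · refine .inr (step g ![0, 0, 0, 0, 1, 0, 0, 0, 0, 0, 1, 0]
      ![0, 0, 0, 0, 0, 1, 0, 1, 0, 0, 0, 0] u ?_ (by decide) (by decide) fun i => ?_)
    · simpa [Mo, Fin.prod_univ_succ, mul_assoc] using r6
    · fin_cases i <;> simp [h6.1, h6.2]
  by_cases h7 : 1 ≤ u 0 ∧ 1 ≤ u 10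
  · refine .inr (step g ![1, 0, 0, 0, 0, 0, 0, 0, 0, 0, 1, 0]
      ![0, 0, 0, 1, 0, 1, 0, 0, 1, 0, 0, 0] u ?_ (by decide) (by decide) fun i => ?_)
    · simpa [Mo, Fin.prod_univ_succ, mul_assoc] using r7
    · fin_cases i <;> simp [h7.1, h7.2]
  by_cases h8 : 1 ≤ u 3 ∧ 1 ≤ u 11
  · refine .inr (step g ![0, 0, 0, 1, 0, 0, 0, 0, 0, 0, 0, 1]
      ![0, 0, 0, 0, 0, 1, 0, 0, 0, 1, 0, 0] u ?_ (by decide) (by decide) fun i => ?_)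
    · simpa [Mo, Fin.prod_univ_succ, mul_assoc] using r8
    · fin_cases i <;> simp [h8.1, h8.2]
  by_cases h9 : 1 ≤ u 8 ∧ 1 ≤ u 9
  · refine .inr (step g ![0, 0, 0, 0, 0, 0, 0, 0, 1, 1, 0, 0]
      ![0, 0, 0, 0, 0, 0, 1, 1, 0, 0, 0, 0] u ?_ (by decide) (by decide) fun i => ?_)
    · simpa [Mo, Fin.prod_univ_succ, mul_assoc] using r9
    · fin_cases i <;> simp [h9.1, h9.2]
  left
  simp only [not_and_or, not_le, Nat.lt_one_iff] at h1 h2 h3 h4 h5 h6 h7 h8 h9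
  unfold Std
  by_cases h0 : u 0 = 0
  · rcases h1 with h1 | h1 <;> rcases h5 with h5 | h5 <;> rcases h6 with h6 | h6 <;>
      rcases h8 with h8 | h8 <;> rcases h9 with h9 | h9 <;> simp [h0, h1, h5, h6, h8, h9]
  · simp only [h0, false_or] at h2 h3 h4 h7
    rcases h1 with h1 | h1 <;> simp [h1, h2, h3, h4, h7]

lemma nf (hg : Rel g) (u : V) : ∃ v, Std v ∧ img v = img u ∧ Mo g v = Mo g u := by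
  induction h : wt u using Nat.strong_induction_on generalizing u with
  | _ n ih =>
    rcases red g hg u with h1 | ⟨v, h1, h2, h3⟩
    · exact ⟨u, h1, rfl, rfl⟩
    · obtain ⟨w, h4, h5, h6⟩ := ih _ (h ▸ h1) v rfl
      exact ⟨w, h4, h5.trans h2, h6.trans h3⟩

lemma conn (hg : Rel g) {u v : V} (h : img u = img v) : Mo g u = Mo g v := by
  obtain ⟨u', a1, a2, a3⟩ := nf g hg u
  obtain ⟨v', b1, b2, b3⟩ := nf g hg v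
  rw [← a3, ← b3, uniq a1 b1 (a2.trans (h.trans b2.symm))]

end Pool.Agent.H50.Fib
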