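import Mathlib

set_option autoImplicit false

/- A rational point on y^2 = x^3 + a2 x^2 + a4 x + a6 (2-integral coefficients) whose
x-coordinate is not 2-integral has infinite order. -/

namespace Pool.Agent.H50.InfOrder

open WeierstrassCurve

/-- the 2-adic norm of a rational number -/
noncomputable def N (x : ℚ) : ℝ := ‖(x : ℚ_[2])‖

theorem N_mul (x y : ℚ) : N (x * y) = N x * N y := by simp [N]
theorem N_pow (x : ℚ) (n : ℕ) : N (x ^ n) = N x ^ n := by simp [N]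
theorem N_div (x y : ℚ) : N (x / y) = N x / N y := by simp [N]
theorem N_neg (x : ℚ) : N (-x) = N x := by simp [N]
theorem N_nonneg (x : ℚ) : 0 ≤ N x := norm_nonneg _
theorem N_zero : N 0 = 0 := by simp [N]
theorem N_two : N 2 = 1 / 2 := by
  have : ‖((2 : ℕ) : ℚ_[2])‖ = ((2 : ℕ) : ℝ)⁻¹ := Padic.norm_p
  simpa [N] using this
theorem N_int (n : ℤ) : N n ≤ 1 := by
  simpa [N] using Padic.norm_int_le_one (p := 2) n
theorem N_add_le (x y : ℚ) : N (x + y) ≤ max (N x) (N y) := by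
  simpa [N] using Padic.nonarchimedean (x : ℚ_[2]) (y : ℚ_[2])
theorem N_add_of_lt {x y : ℚ} (h : N y < N x) : N (x + y) = N x := by
  have := Padic.add_eq_max_of_ne (q := (x : ℚ_[2])) (r := (y : ℚ_[2])) (ne_of_gt h)
  have h2 : N (x + y) = max (N x) (N y) := by simpa [N] using this
  rw [h2, max_eq_left h.le]
theorem N_odd (n : ℤ) (h : Odd n) : N n = 1 := by
  obtain ⟨k, rfl⟩ := h
  have h1 : N 1 = 1 := by simp [N]
  have : ((2 * k + 1 : ℤ) : ℚ) = 1 + 2 * k := by push_cast; ring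
  rw [this, N_add_of_lt, h1]
  rw [N_mul, N_two, h1]
  have := N_int k
  linarith
theorem N_three : N 3 = 1 := by simpa using N_odd 3 (by decide)

variable {W : WeierstrassCurve ℚ}

theorem double (h1 : W.a₁ = 0) (h3 : W.a₃ = 0) (h2 : N W.a₂ ≤ 1) (h4 : N W.a₄ ≤ 1)
    (h6 : N W.a₆ ≤ 1) {x y : ℚ} (h : W.toAffine.Nonsingular x y) (hx : 1 < N x) :
    ∃ (x' y' : ℚ) (h' : W.toAffine.Nonsingular x' y'),
      Affine.Point.some x y h + Affine.Point.some x y h = Affine.Point.some x' y' h' ∧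
        N x' = 4 * N x := by
  have heq : y ^ 2 = x ^ 3 + (W.a₂ * x ^ 2 + W.a₄ * x + W.a₆) := by
    have := (Affine.equation_iff _ _).1 h.1
    simp only [toAffine, h1, h3] at this
    linear_combination this
  have hx0 : 0 < N x := by linarith
  have hx2 : N x < N x ^ 2 := by nlinarith
  have hx3 : N x ^ 2 < N x ^ 3 := by nlinarith
  have hy : N y ^ 2 = N x ^ 3 := by
    rw [← N_pow, heq, N_add_of_lt, N_pow]
    rw [N_pow]
    refine lt_of_le_of_lt (N_add_le _ _) (max_lt (lt_of_le_of_lt (N_add_le _ _) (max_lt ?_ ?_)) ?_)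
    · rw [N_mul, N_pow]; nlinarith [N_nonneg W.a₂]
    · rw [N_mul]; nlinarith [N_nonneg W.a₄]
    · linarith
  have hy0 : y ≠ 0 := by
    rintro rfl
    rw [N_zero] at hy
    nlinarith
  have hyN : 0 < N y := by
    rcases (N_nonneg y).lt_or_eq with h' | h'
    · exact h'
    · rw [← h'] at hy; nlinarith
  have hne : y ≠ W.toAffine.negY x y := by
    simp only [Affine.negY, toAffine, h1, h3]
    intro h'
    apply hy0
    linarith
  refine ⟨_, _, _, Affine.Point.add_self_of_Y_ne hne, ?_⟩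
  rw [Affine.slope_of_Y_ne rfl hne]
  simp only [Affine.addX, Affine.negY, toAffine, h1, h3]
  have e : ((3 * x ^ 2 + 2 * W.a₂ * x + W.a₄ - 0 * y) / (y - (-y - 0 * x - 0))) ^ 2 +
      0 * ((3 * x ^ 2 + 2 * W.a₂ * x + W.a₄ - 0 * y) / (y - (-y - 0 * x - 0))) - W.a₂ - x - x
      = ((3 * x ^ 2 + (2 * W.a₂ * x + W.a₄)) / (2 * y)) ^ 2 + (-W.a₂ + -(2 * x)) := by
    ring
  rw [e]
  have hnum : N (3 * x ^ 2 + (2 * W.a₂ * x + W.a₄)) = N x ^ 2 := by
    have e3 : N (3 * x ^ 2) = N x ^ 2 := by rw [N_mul, N_three, N_pow, one_mul]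
    rw [N_add_of_lt, e3]
    rw [e3]
    refine lt_of_le_of_lt (N_add_le _ _) (max_lt ?_ ?_)
    · rw [N_mul, N_mul, N_two]; nlinarith [N_nonneg W.a₂]
    · linarith
  have hl : N (((3 * x ^ 2 + (2 * W.a₂ * x + W.a₄)) / (2 * y)) ^ 2) = 4 * N x := by
    rw [N_pow, N_div, hnum, N_mul, N_two, div_pow, mul_pow, hy]
    field_simp
    ring
  rw [N_add_of_lt, hl]
  rw [hl]
  refine lt_of_le_of_lt (N_add_le _ _) (max_lt ?_ ?_)
  · rw [N_neg]; linarith
  · rw [N_neg, N_mul, N_two]; linarith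

theorem pow_two (h1 : W.a₁ = 0) (h3 : W.a₃ = 0) (h2 : N W.a₂ ≤ 1) (h4 : N W.a₄ ≤ 1)
    (h6 : N W.a₆ ≤ 1) {x y : ℚ} (h : W.toAffine.Nonsingular x y) (hx : 1 < N x) (k : ℕ) :
    ∃ (x' y' : ℚ) (h' : W.toAffine.Nonsingular x' y'),
      (2 ^ k) • Affine.Point.some x y h = Affine.Point.some x' y' h' ∧ N x' = 4 ^ k * N x := by
  induction k with
  | zero => exact ⟨x, y, h, by simp, by simp⟩
  | succ k ih =>
    obtain ⟨x1, y1, h1', e1, n1⟩ := ih
    have : 1 < N x1 := by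
      rw [n1]
      have : (1 : ℝ) ≤ 4 ^ k := one_le_pow₀ (by norm_num)
      nlinarith
    obtain ⟨x2, y2, h2', e2, n2⟩ := double h1 h3 h2 h4 h6 h1' this
    refine ⟨x2, y2, h2', ?_, ?_⟩
    · rw [pow_succ, mul_nsmul, e1, two_nsmul, e2]
    · rw [n2, n1]; ring

theorem not_finOrder (h1 : W.a₁ = 0) (h3 : W.a₃ = 0) (h2 : N W.a₂ ≤ 1) (h4 : N W.a₄ ≤ 1)
    (h6 : N W.a₆ ≤ 1) {x y : ℚ} (h : W.toAffine.Nonsingular x y) (hx : 1 < N x) :
    ¬ IsOfFinAddOrder (Affine.Point.some x y h) := by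
  intro hf
  have hfin := hf.finite_multiples
  refine Set.infinite_of_injective_forall_mem
    (f := fun k : ℕ => (2 ^ k) • Affine.Point.some x y h) ?_ ?_ hfin
  · intro a b hab
    obtain ⟨xa, ya, ha, ea, na⟩ := pow_two h1 h3 h2 h4 h6 h hx a
    obtain ⟨xb, yb, hb, eb, nb⟩ := pow_two h1 h3 h2 h4 h6 h hx b
    simp only [ea, eb, Affine.Point.some.injEq] at hab
    rw [hab.1, nb] at na
    have h0 : N x ≠ 0 := by linarith
    have : (4 : ℝ) ^ b = 4 ^ a := mul_right_cancel₀ h0 na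
    exact (pow_right_injective₀ (by norm_num) (by norm_num) this).symm
  · intro k
    exact ⟨2 ^ k, rfl⟩

theorem rank_pos_of_not_finOrder {M : Type} [AddCommGroup M] {P : M} (h : ¬ IsOfFinAddOrder P) :
    0 < Module.rank ℤ M := by
  have hli : LinearIndependent ℤ ![P] := by
    rw [Fintype.linearIndependent_iff]
    intro g hg i
    by_contra h0
    apply h
    rw [isOfFinAddOrder_iff_zsmul_eq_zero]
    fin_cases i
    exact ⟨g 0, h0, by simpa using hg⟩
  have := hli.cardinal_lift_le_rank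
  simp only [Cardinal.mk_fintype, Fintype.card_fin, Nat.cast_one,
    Cardinal.lift_uzero] at this
  exact lt_of_lt_of_le zero_lt_one this

end Pool.Agent.H50.InfOrder
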