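import Mathlib

set_option autoImplicit false

/- The algebra B[M,T,1/(2T)]/(T^2 = d^3 M^4 + d) over a ring B. -/

namespace Pool.Agent.H50.TwistAlg

open Polynomial TensorProduct

noncomputable section

variable (B : Type) [CommRing B] (d : B)

def hpol : B[X] := C (d ^ 3) * X ^ 4 + C d

def pair : StandardEtalePair B[X] where
  f := X ^ 2 - C (hpol B d)
  monic_f := monic_X_pow_sub_C _ (by norm_num)
  g := 2 * X
  cond := ⟨1, 0, 1, by simp; norm_num⟩

def A : Type := (pair B d).Ring

instance : CommRing (A B d) := inferInstanceAs (CommRing (pair B d).Ring)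
instance : Algebra B[X] (A B d) := inferInstanceAs (Algebra B[X] (pair B d).Ring)
instance : Algebra B (A B d) := ((algebraMap B[X] (A B d)).comp C).toAlgebra
instance : IsScalarTower B B[X] (A B d) := IsScalarTower.of_algebraMap_eq fun _ => rfl
instance : Algebra.Etale B[X] (A B d) := inferInstanceAs (Algebra.Etale B[X] (pair B d).Ring)
instance : Algebra.Smooth B B[X] := ⟨inferInstance, inferInstance⟩
instance : Algebra.Smooth B (A B d) := Algebra.Smooth.comp B B[X] (A B d)

def MM : A B d := algebraMap B[X] (A B d) X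
def TT : A B d := (pair B d).X

theorem hasMap_iff {S : Type} [CommRing S] [Algebra B[X] S] (t : S) :
    (pair B d).HasMap t ↔
      t ^ 2 = algebraMap B[X] S (C d) ^ 3 * algebraMap B[X] S X ^ 4 + algebraMap B[X] S (C d) ∧
        IsUnit (2 * t) := by
  unfold StandardEtalePair.HasMap pair hpol
  simp only [map_sub, map_pow, aeval_X, aeval_C, map_add, map_mul, sub_eq_zero, map_ofNat]

theorem rel : TT B d ^ 2 =
    algebraMap B (A B d) d ^ 3 * MM B d ^ 4 + algebraMap B (A B d) d :=
  ((hasMap_iff B d (S := (pair B d).Ring) _).1 StandardEtalePair.hasMap_X).1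

theorem unit : IsUnit (2 * TT B d) :=
  ((hasMap_iff B d (S := (pair B d).Ring) _).1 StandardEtalePair.hasMap_X).2

variable {B d}

theorem exists_lift {S : Type} [CommRing S] (c : B →+* S) (m t : S)
    (h1 : t ^ 2 = c d ^ 3 * m ^ 4 + c d) (h2 : IsUnit (2 * t)) :
    ∃ f : A B d →+* S, f.comp (algebraMap B (A B d)) = c ∧ f (MM B d) = m ∧ f (TT B d) = t := by
  let _ : Algebra B[X] S := (eval₂RingHom c m).toAlgebra
  have e1 : ∀ b : B, algebraMap B[X] S (C b) = c b := fun b => eval₂_C _ _
  have e2 : algebraMap B[X] S X = m := eval₂_X _ _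
  have h : (pair B d).HasMap t := (hasMap_iff B d t).2 ⟨by rw [e1, e2, h1], h2⟩
  refine ⟨((pair B d).lift t h).toRingHom, ?_, ?_, ?_⟩
  · ext b
    exact (((pair B d).lift t h).commutes (C b)).trans (e1 b)
  · exact (((pair B d).lift t h).commutes X).trans e2
  · exact (pair B d).lift_X t h

theorem hom_ext {S : Type} [CommRing S] {f g : A B d →+* S}
    (h0 : f.comp (algebraMap B (A B d)) = g.comp (algebraMap B (A B d)))
    (h1 : f (MM B d) = g (MM B d)) (h2 : f (TT B d) = g (TT B d)) : f = g := by
  have h3 : f.comp (algebraMap B[X] (A B d)) = g.comp (algebraMap B[X] (A B d)) := by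
    apply Polynomial.ringHom_ext
    · intro b
      exact congr($h0 b)
    · exact h1
  let _ : Algebra B[X] S := (f.comp (algebraMap B[X] (A B d))).toAlgebra
  let f' : (pair B d).Ring →ₐ[B[X]] S := { f with commutes' := fun _ => rfl }
  let g' : (pair B d).Ring →ₐ[B[X]] S := { g with commutes' := fun r => congr($h3.symm r) }
  have : f' = g' := StandardEtalePair.hom_ext h2
  exact congrArg AlgHom.toRingHom this

theorem not_sq {K : Type} [Field K] [CharZero K] {d : K} (hd : d ≠ 0) (q : K[X]) :
    q ^ 2 ≠ hpol K d := by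
  intro h
  have h1 : q ∣ hpol K d := ⟨q, by rw [← h]; ring⟩
  have h2 : q ∣ derivative (hpol K d) := ⟨2 * derivative q, by
    rw [← h, pow_two, derivative_mul]; ring⟩
  have h3 : hpol K d * C d⁻¹ - derivative (hpol K d) * (C (4 * d)⁻¹ * X) = 1 := by
    have e1 : (C d * C d⁻¹ : K[X]) = 1 := by rw [← C_mul, mul_inv_cancel₀ hd, C_1]
    have e2 : (4 * C d * C (4 * d)⁻¹ : K[X]) = 1 := by
      rw [← map_ofNat C 4, ← C_mul, ← C_mul, mul_inv_cancel₀ (by simp [hd]), C_1]
    have e3 : derivative (hpol K d) = 4 * C d ^ 3 * X ^ 3 := by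
      rw [hpol, derivative_add, derivative_C_mul, derivative_C, derivative_X_pow]
      simp only [map_pow, Nat.cast_ofNat, map_ofNat]
      ring
    rw [e3]
    simp only [hpol, map_pow]
    linear_combination (C d ^ 2 * X ^ 4 + 1) * e1 - (C d ^ 2 * X ^ 4) * e2
  have h4 : IsUnit q := by
    apply isUnit_of_dvd_one
    rw [← h3]
    exact dvd_sub (h1.mul_right _) (h2.mul_right _)
  have h5 : (hpol K d).natDegree = 0 := by
    rw [← h]
    exact natDegree_eq_zero_of_isUnit (h4.pow 2)
  have h6 : (hpol K d).natDegree = 4 := by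
    unfold hpol
    compute_degree!
  omega

theorem domain_field {K : Type} [Field K] [CharZero K] {d : K} (hd : d ≠ 0) :
    IsDomain (A K d) := by
  have hm : (pair K d).f.Monic := (pair K d).monic_f
  have hdeg : (pair K d).f.natDegree = 2 := natDegree_X_pow_sub_C
  have hirr : Irreducible (pair K d).f := by
    rw [hm.irreducible_iff_roots_eq_zero_of_degree_le_three (by omega) (by omega)]
    rw [Multiset.eq_zero_iff_forall_notMem]
    intro q hq
    have := (mem_roots hm.ne_zero).1 hq
    simp only [pair, IsRoot.def, eval_sub, eval_pow, eval_X, eval_C, sub_eq_zero] at this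
    exact not_sq hd q this
  have hdom : IsDomain (AdjoinRoot (pair K d).f) := AdjoinRoot.isDomain_of_prime hirr.prime
  have hne : AdjoinRoot.mk (pair K d).f (pair K d).g ≠ 0 := by
    apply AdjoinRoot.mk_ne_zero_of_natDegree_lt hm
    · simp [pair]
    · rw [hdeg]
      have : (pair K d).g.natDegree ≤ 1 := by
        simp only [pair]
        compute_degree
      omega
  have hloc : IsDomain (Localization.Away (AdjoinRoot.mk (pair K d).f (pair K d).g)) :=
    IsLocalization.isDomain_localization (powers_le_nonZeroDivisors_of_noZeroDivisors hne)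
  exact (pair K d).equivAwayAdjoinRoot.toMulEquiv.isDomain _

theorem domain_tensor (K : Type) [Field K] [CharZero K] [Algebra B K]
    (hd : algebraMap B K d ≠ 0) : IsDomain (A B d ⊗[B] K) := by
  have := domain_field hd
  set dK := algebraMap B K d with hdK
  -- map from the tensor product to the algebra over K
  obtain ⟨f, hf0, hf1, hf2⟩ := exists_lift (B := B) (d := d)
    ((algebraMap K (A K dK)).comp (algebraMap B K)) (MM K dK) (TT K dK) (rel K dK) (unit K dK)
  let _ : Algebra B (A K dK) := ((algebraMap K (A K dK)).comp (algebraMap B K)).toAlgebra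
  let fA : A B d →ₐ[B] A K dK := { f with commutes' := fun b => congr($hf0 b) }
  let fK : K →ₐ[B] A K dK := { algebraMap K (A K dK) with commutes' := fun _ => rfl }
  let ρ : A B d ⊗[B] K →ₐ[B] A K dK :=
    Algebra.TensorProduct.lift fA fK (fun _ _ => Commute.all _ _)
  let iL : A B d →ₐ[B] A B d ⊗[B] K := Algebra.TensorProduct.includeLeft
  let iR : K →ₐ[B] A B d ⊗[B] K := Algebra.TensorProduct.includeRight
  have hdd : iR.toRingHom dK = iL (algebraMap B (A B d) d) := by
    rw [iL.commutes]
    exact iR.commutes d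
  obtain ⟨π, hπ0, hπ1, hπ2⟩ := exists_lift (B := K) (d := dK) iR.toRingHom
    (iL (MM B d)) (iL (TT B d))
    (by rw [hdd, ← map_pow, rel]; simp only [map_add, map_mul, map_pow])
    (by simpa only [map_mul, map_ofNat] using (unit B d).map iL)
  have hL : (π.comp ρ.toRingHom).comp iL.toRingHom = iL.toRingHom := by
    apply hom_ext
    · ext b
      have e1 : ρ (iL (algebraMap B (A B d) b)) = algebraMap K (A K dK) (algebraMap B K b) := by
        rw [iL.commutes, ρ.commutes]; rfl
      change π (ρ (iL (algebraMap B (A B d) b))) = iL (algebraMap B (A B d) b)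
      rw [e1, iL.commutes]
      exact (congr($hπ0 (algebraMap B K b))).trans (iR.commutes b)
    · change π (ρ (iL (MM B d))) = iL (MM B d)
      have e1 : ρ (iL (MM B d)) = MM K dK := by
        simp only [ρ, iL, Algebra.TensorProduct.includeLeft_apply, Algebra.TensorProduct.lift_tmul,
          map_one, mul_one]
        exact hf1
      rw [e1, hπ1]
    · change π (ρ (iL (TT B d))) = iL (TT B d)
      have e1 : ρ (iL (TT B d)) = TT K dK := by
        simp only [ρ, iL, Algebra.TensorProduct.includeLeft_apply, Algebra.TensorProduct.lift_tmul,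
          map_one, mul_one]
        exact hf2
      rw [e1, hπ2]
  have hR : ∀ k : K, π (ρ (iR k)) = iR k := by
    intro k
    have e1 : ρ (iR k) = algebraMap K (A K dK) k := by
      simp only [ρ, iR, Algebra.TensorProduct.includeRight_apply, Algebra.TensorProduct.lift_tmul,
        map_one, one_mul]
      rfl
    rw [e1]
    exact congr($hπ0 k)
  have hinv : ∀ z, π (ρ z) = z := by
    intro z
    induction z with
    | zero => simp
    | tmul a k =>
      have e : a ⊗ₜ[B] k = iL a * iR k := by simp [iL, iR]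
      rw [e, map_mul, map_mul, hR]
      congr 1
      exact congr($hL a)
    | add x y hx hy => rw [map_add, map_add, hx, hy]
  exact Function.Injective.isDomain ρ.toRingHom (Function.LeftInverse.injective hinv)

theorem domain_of_domain [IsDomain B] [CharZero B] (hd : d ≠ 0) : IsDomain (A B d) := by
  have hinj : Function.Injective (algebraMap B (FractionRing B)) := IsFractionRing.injective _ _
  have : CharZero (FractionRing B) := charZero_of_injective_ringHom hinj
  have := domain_tensor (B := B) (d := d) (FractionRing B) (by simpa using hd)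
  exact Function.Injective.isDomain
    (Algebra.TensorProduct.includeLeft : A B d →ₐ[B] A B d ⊗[B] FractionRing B).toRingHom
    (Algebra.TensorProduct.includeLeft_injective (S := B) hinj)

end

/- arithmetic -/

theorem even_val {p : ℕ} [hp : Fact p.Prime] (δ m t : ℚ_[p]) (hδ : δ ≠ 0) (ht : t ≠ 0)
    (h : t ^ 2 = δ ^ 3 * m ^ 4 + δ) : Even δ.valuation := by
  have hp1 : (1 : ℝ) < p := by exact_mod_cast hp.out.one_lt
  by_contra hodd
  rw [Int.not_even_iff_odd] at hodd
  obtain ⟨k, hk⟩ := hodd
  have h2 : t ^ 2 = δ * (δ ^ 2 * m ^ 4 + 1) := by rw [h]; ring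
  have hw : δ ^ 2 * m ^ 4 + 1 ≠ 0 := by
    intro h0
    rw [h0, mul_zero] at h2
    exact ht (pow_eq_zero_iff (by norm_num) |>.1 h2)
  have h3 := congrArg Padic.valuation h2
  rw [Padic.valuation_pow, Padic.valuation_mul hδ hw] at h3
  by_cases hm : m = 0
  · subst hm
    simp at h3
    omega
  have hu : δ ^ 2 * m ^ 4 ≠ 0 := mul_ne_zero (pow_ne_zero _ hδ) (pow_ne_zero _ hm)
  have hv : (δ ^ 2 * m ^ 4).valuation = 2 * δ.valuation + 4 * m.valuation := by
    rw [Padic.valuation_mul (pow_ne_zero _ hδ) (pow_ne_zero _ hm), Padic.valuation_pow,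
      Padic.valuation_pow]
    push_cast; ring
  have hne : ‖δ ^ 2 * m ^ 4‖ ≠ ‖(1 : ℚ_[p])‖ := by
    rw [Padic.norm_eq_zpow_neg_valuation hu, norm_one, hv]
    intro h0
    have := (zpow_eq_one_iff_right₀ (by linarith) hp1.ne').1 h0
    omega
  have h4 := Padic.add_eq_max_of_ne hne
  rw [Padic.norm_eq_zpow_neg_valuation hw, Padic.norm_eq_zpow_neg_valuation hu, norm_one, hv] at h4
  rcases max_choice ((p : ℝ) ^ (-(2 * δ.valuation + 4 * m.valuation))) 1 with h5 | h5
  · rw [h5] at h4
    have := zpow_right_injective₀ (by linarith) hp1.ne' h4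
    push_cast at h3
    omega
  · rw [h5] at h4
    have := (zpow_eq_one_iff_right₀ (by linarith) hp1.ne').1 h4
    push_cast at h3
    omega

theorem nat_sq (n : ℕ) (hn : n ≠ 0) (h : ∀ p : ℕ, p.Prime → Even (padicValNat p n)) :
    IsSquare n := by
  obtain ⟨a, b, hab, hsq⟩ := Nat.sq_mul_squarefree n
  have hb : b ≠ 0 := by rintro rfl; simp at hab; exact hn hab.symm
  have ha : a ≠ 0 := hsq.ne_zero
  have : a = 1 := by
    by_contra h1
    obtain ⟨p, hp, hpa⟩ := Nat.exists_prime_and_dvd h1
    have := Fact.mk hp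
    have h2 := h p hp
    rw [← hab, padicValNat.mul (pow_ne_zero _ hb) ha, padicValNat.pow] at h2
    have h3 : padicValNat p a ≤ 1 := by
      rw [← Nat.factorization_def a hp]
      exact hsq.natFactorization_le_one p
    have h4 : 1 ≤ padicValNat p a := one_le_padicValNat_of_dvd ha hpa
    obtain ⟨k, hk⟩ := h2
    omega
  exact ⟨b, by rw [← hab, this]; ring⟩

theorem x_zero (x : ℚ) (h : ∀ p : ℕ, p.Prime → Even (padicValRat p (x ^ 4 + 1))) : x = 0 := by
  by_contra hx
  have ha : x.num ≠ 0 := Rat.num_ne_zero.2 hx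
  have hb : x.den ≠ 0 := x.den_nz
  have hb' : (x.den : ℚ) ≠ 0 := by exact_mod_cast hb
  set n : ℕ := x.num.natAbs ^ 4 + x.den ^ 4 with hn
  have hn0 : n ≠ 0 := by positivity
  have hnz : (n : ℤ) = x.num ^ 4 + (x.den : ℤ) ^ 4 := by
    rw [hn]; push_cast
    rw [show |x.num| ^ 4 = (|x.num| ^ 2) ^ 2 by ring, sq_abs]; ring
  have e : x ^ 4 + 1 = (n : ℚ) / (x.den : ℚ) ^ 4 := by
    have : (n : ℚ) = (x.num : ℚ) ^ 4 + (x.den : ℚ) ^ 4 := by exact_mod_cast hnz
    rw [this]
    nth_rw 1 [← Rat.num_div_den x]
    field_simp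
  have hsq : IsSquare n := by
    apply nat_sq n hn0
    intro p hp
    have := Fact.mk hp
    have h1 := h p hp
    rw [e, padicValRat.div (by exact_mod_cast hn0) (pow_ne_zero _ hb'), padicValRat.pow,
      padicValRat.of_nat, padicValRat.of_nat] at h1
    obtain ⟨k, hk⟩ := h1
    have h2 : Even ((padicValNat p n : ℕ) : ℤ) :=
      ⟨k + 2 * (padicValNat p x.den : ℤ), by linear_combination hk⟩
    exact_mod_cast h2
  obtain ⟨c, hc⟩ := hsq
  apply not_fermat_42 (c := c) ha (b := x.den) (by exact_mod_cast hb)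
  rw [← hnz, hc]; push_cast; ring

end Pool.Agent.H50.TwistAlg
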