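import Mathlib
import Pool.Agent.H50.TwistAlg
import Pool.Agent.H50.InfOrder

set_option autoImplicit false

namespace Pool.Agent.H50.Fibration

open AlgebraicGeometry CategoryTheory Limits Polynomial Pool.Agent.H50.TwistAlg

noncomputable section

abbrev W0 : WeierstrassCurve ℚ := ⟨0, 0, 0, -1, 1⟩

abbrev R0 : Type := W0.toAffine.CoordinateRing

def xR : R0 := AdjoinRoot.of W0.toAffine.polynomial X
def yR : R0 := AdjoinRoot.root W0.toAffine.polynomial
def dR : R0 := xR ^ 4 + 1

abbrev R1 : Type := Localization.Away dR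

def d1 : R1 := algebraMap R0 R1 dR

theorem poly_eq : W0.toAffine.polynomial = X ^ 2 - C (X ^ 3 - X + 1) := by
  simp only [WeierstrassCurve.Affine.polynomial, map_add, map_sub,
    map_mul, map_pow, map_zero, map_one, map_neg]
  ring

theorem eqR : yR ^ 2 = xR ^ 3 - xR + 1 := by
  have h : AdjoinRoot.mk W0.toAffine.polynomial (X ^ 2 - C (X ^ 3 - X + 1)) = 0 := by
    rw [← poly_eq]; exact AdjoinRoot.mk_self
  rw [map_sub, map_pow, AdjoinRoot.mk_X, AdjoinRoot.mk_C, map_add, map_sub, map_pow, map_one,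
    sub_eq_zero] at h
  exact h

def ev0 : R0 →+* ℚ := AdjoinRoot.lift (evalRingHom 0) 1 (by
  simp [WeierstrassCurve.Affine.polynomial, eval₂_pow])

theorem ev0_x : ev0 xR = 0 := by simp [ev0, xR]
theorem ev0_d : ev0 dR = 1 := by simp [dR, ev0_x]

theorem dR_ne : dR ≠ 0 := by
  intro h
  have := ev0_d
  rw [h, map_zero] at this
  exact zero_ne_one this

instance : IsDomain R1 :=
  IsLocalization.isDomain_localization (powers_le_nonZeroDivisors_of_noZeroDivisors dR_ne)

instance : CharZero R1 := algebraRat.charZero R1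

theorem d1_unit : IsUnit d1 := IsLocalization.Away.algebraMap_isUnit dR

def ev1 : R1 →+* ℚ := IsLocalization.Away.lift dR (g := ev0) (by rw [ev0_d]; exact isUnit_one)

theorem ev1_d : ev1 d1 = 1 := by
  rw [ev1, d1, IsLocalization.Away.lift_eq, ev0_d]

theorem R1_ext {a b : R1 →+* ℚ} (hx : a (algebraMap R0 R1 xR) = b (algebraMap R0 R1 xR))
    (hy : a (algebraMap R0 R1 yR) = b (algebraMap R0 R1 yR)) : a = b := by
  apply IsLocalization.ringHom_ext (Submonoid.powers dR)
  apply AdjoinRoot.ringHom_ext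
  · apply Polynomial.ringHom_ext
    · intro c
      exact congr($(Subsingleton.elim
        (((a.comp (algebraMap R0 R1)).comp (AdjoinRoot.of _)).comp C)
        (((b.comp (algebraMap R0 R1)).comp (AdjoinRoot.of _)).comp C)) c)
    · exact hx
  · exact hy

theorem fin_homs : {a : R1 →+* ℚ | a (algebraMap R0 R1 xR) = 0}.Finite := by
  refine Set.Finite.of_finite_image (f := fun a => a (algebraMap R0 R1 yR))
    ((Set.toFinite ({1, -1} : Set ℚ)).subset ?_) ?_
  · rintro _ ⟨a, ha, rfl⟩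
    have h := congrArg (fun z => a (algebraMap R0 R1 z)) eqR
    simp only [map_add, map_sub, map_pow, map_one] at h
    rw [ha] at h
    simp only [Set.mem_insert_iff, Set.mem_singleton_iff]
    apply sq_eq_one_iff_of_ne_zero_aux
    linear_combination h
  · intro a ha b hb hab
    exact R1_ext (ha.trans hb.symm) hab
where
  sq_eq_one_iff_of_ne_zero_aux {t : ℚ} (h : t ^ 2 = 1) : t = 1 ∨ t = -1 := by
    have : (t - 1) * (t + 1) = 0 := by linear_combination h
    rcases mul_eq_zero.1 this with h | h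
    · left; linarith
    · right; linarith

abbrev A1 : Type := A R1 d1

instance : IsDomain A1 := domain_of_domain d1_unit.ne_zero

def psi : Spec (.of A1) ⟶ Spec (.of R1) := Spec.map (CommRingCat.ofHom (algebraMap R1 A1))

instance : Smooth psi := by
  unfold psi
  rw [HasRingHomProperty.Spec_iff (P := @Smooth)]
  exact RingHom.smooth_algebraMap.2 inferInstance

instance : GeometricallyIrreducible psi := by
  refine ⟨geometrically_iff_of_commRing_of_isClosedUnderIsomorphisms.2 fun K _ _ => ?_⟩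
  have : CharZero K := (((algebraMap R1 K).comp (algebraMap ℚ R1)).charZero_iff
    (RingHom.injective _)).1 inferInstance
  have := domain_tensor (B := R1) (d := d1) K (d1_unit.map _).ne_zero
  unfold psi
  rw [(pullbackSpecIso R1 A1 K).hom.homeomorph.irreducibleSpace_iff]
  infer_instance

def loc : Spec (.of R1) ⟶ Spec (.of R0) := Spec.map (CommRingCat.ofHom (algebraMap R0 R1))

instance : IsOpenImmersion loc := by
  unfold loc
  infer_instance

theorem geomIrr_fiber {X U E : Scheme.{0}} (ψ : X ⟶ U) (ι : U ⟶ E) [IsOpenImmersion ι]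
    [GeometricallyIrreducible ψ] (y : E) (hy : y ∈ Set.range ι) :
    GeometricallyIrreducible ((ψ ≫ ι).fiberToSpecResidueField y) := by
  have hr : Set.range (E.fromSpecResidueField y) ⊆ Set.range ι := by
    rw [Scheme.range_fromSpecResidueField]
    simpa using hy
  let l := IsOpenImmersion.lift ι (E.fromSpecResidueField y) hr
  have hl : l ≫ ι = E.fromSpecResidueField y := IsOpenImmersion.lift_fac _ _ _
  have h1 : IsPullback ((ψ ≫ ι).fiberι y) ((ψ ≫ ι).fiberToSpecResidueField y) (ψ ≫ ι) (l ≫ ι) := by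
    rw [hl]
    exact IsPullback.of_hasPullback _ _
  have hw : (ψ ≫ ι).fiberι y ≫ ψ = (ψ ≫ ι).fiberToSpecResidueField y ≫ l := by
    rw [← cancel_mono ι]
    simpa using h1.w
  have h2 : IsPullback ((ψ ≫ ι).fiberι y) ((ψ ≫ ι).fiberToSpecResidueField y) ψ l := by
    refine ⟨⟨hw⟩, ⟨PullbackCone.IsLimit.mk _ (fun c => h1.lift c.fst c.snd (by
      rw [← Category.assoc, c.condition, Category.assoc])) (by simp) (by simp) ?_⟩⟩
    intro c m h3 h4
    apply h1.hom_ext
    · simpa using h3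
    · simpa using h4
  exact MorphismProperty.of_isPullback (P := @GeometricallyIrreducible) h2 inferInstance

theorem local_even {E : Scheme.{0}} (ι : Spec (.of R1) ⟶ E) [IsOpenImmersion ι]
    (a : R1 →+* ℚ) (p : ℕ) [Fact p.Prime]
    (τ : Spec (.of ℚ_[p]) ⟶ pullback (psi ≫ ι) (Spec.map (CommRingCat.ofHom a) ≫ ι)) :
    Even (padicValRat p (a (algebraMap R0 R1 xR) ^ 4 + 1)) := by
  have hw := pullback.condition (f := psi ≫ ι) (g := Spec.map (CommRingCat.ofHom a) ≫ ι)
  have h1 : (τ ≫ pullback.fst _ _) ≫ psi =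
      (τ ≫ pullback.snd _ _) ≫ Spec.map (CommRingCat.ofHom a) := by
    rw [← cancel_mono ι]
    simp only [Category.assoc]
    rw [hw]
  obtain ⟨b, hb⟩ := Spec.map_surjective (τ ≫ pullback.fst _ _)
  obtain ⟨c, hc⟩ := Spec.map_surjective (τ ≫ pullback.snd _ _)
  rw [← hb, ← hc, psi, ← Spec.map_comp, ← Spec.map_comp] at h1
  have h2 := Spec.map_injective h1
  have h3 : b.hom (algebraMap R1 A1 d1) = c.hom (a d1) := congr(($h2).hom d1)
  have h4 : c.hom (a d1) = ((a d1 : ℚ) : ℚ_[p]) := eq_ratCast c.hom _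
  have h5 := congrArg b.hom (rel R1 d1)
  simp only [map_add, map_mul, map_pow] at h5
  rw [h3, h4] at h5
  have h6 : b.hom (TT R1 d1) ≠ 0 := by
    have := ((unit R1 d1).map b.hom).ne_zero
    rw [map_mul] at this
    exact right_ne_zero_of_mul this
  have h7 : a d1 ≠ 0 := (d1_unit.map a).ne_zero
  have h8 := even_val _ _ _ (by exact_mod_cast h7) h6 h5
  rw [Padic.valuation_ratCast] at h8
  have h9 : a d1 = a (algebraMap R0 R1 xR) ^ 4 + 1 := by simp [d1, dR]
  rwa [h9] at h8

theorem specQ_hom (f : Spec (.of ℚ) ⟶ Spec (.of ℚ)) : f = 𝟙 _ := by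
  obtain ⟨c, rfl⟩ := Spec.map_surjective f
  have : c = 𝟙 _ := CommRingCat.hom_ext (Subsingleton.elim _ _)
  rw [this, Spec.map_id]

theorem main (E : Scheme.{0}) [IsIntegral E] (s : E ⟶ Spec (.of ℚ))
    (j : Spec (.of R0) ⟶ E) [IsOpenImmersion j]
    (hj : j ≫ s = Spec.map (CommRingCat.ofHom (algebraMap ℚ R0))) :
    ∃ (X : Scheme.{0}) (φ : X ⟶ E), IsIntegral X ∧ LocallyOfFiniteType (φ ≫ s) ∧
      QuasiCompact (φ ≫ s) ∧ IsSeparated (φ ≫ s) ∧ IsDominant φ ∧ Smooth φ ∧
      Smooth (φ.fiberToSpecResidueField (genericPoint E)) ∧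
      GeometricallyIrreducible (φ.fiberToSpecResidueField (genericPoint E)) ∧
      {σ : Spec (.of ℚ) ⟶ E | σ ≫ s = 𝟙 _ ∧ Nonempty (Spec (.of ℝ) ⟶ pullback φ σ) ∧
        ∀ (p : ℕ) [Fact p.Prime], Nonempty (Spec (.of ℚ_[p]) ⟶ pullback φ σ)}.Finite ∧
      {σ : Spec (.of ℚ) ⟶ E | σ ≫ s = 𝟙 _ ∧ Nonempty (Spec (.of ℝ) ⟶ pullback φ σ) ∧
        ∀ (p : ℕ) [Fact p.Prime], Nonempty (Spec (.of ℚ_[p]) ⟶ pullback φ σ)}.Nonempty := by
  let ι : Spec (.of R1) ⟶ E := loc ≫ j
  have hcomp : (psi ≫ ι) ≫ s = psi ≫ loc ≫ Spec.map (CommRingCat.ofHom (algebraMap ℚ R0)) := by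
    simp only [ι, Category.assoc, hj]
  have hft : LocallyOfFiniteType (Spec.map (CommRingCat.ofHom (algebraMap ℚ R0))) := by
    rw [HasRingHomProperty.Spec_iff (P := @LocallyOfFiniteType)]
    refine RingHom.finiteType_algebraMap.2 ?_
    exact AdjoinRoot.finiteType _
  have hopen : IsOpen (Set.range ι) := ι.isOpenEmbedding.isOpen_range
  have hne : (Set.range ι).Nonempty := Set.range_nonempty _
  have hdom : IsDominant ι := ⟨hopen.dense hne⟩
  have hgen : genericPoint E ∈ Set.range ι :=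
    ((genericPoint_spec E).mem_open_set_iff hopen).2 (by simpa using hne)
  refine ⟨Spec (.of A1), psi ≫ ι, inferInstance, ?_, ?_, ?_, inferInstance, inferInstance,
    ?_, geomIrr_fiber psi ι _ hgen, ?_, ?_⟩
  · rw [hcomp]; infer_instance
  · infer_instance
  · infer_instance
  · exact inferInstanceAs (Smooth (pullback.snd _ _))
  · refine (fin_homs.image (fun a => Spec.map (CommRingCat.ofHom a) ≫ ι)).subset ?_
    rintro σ ⟨-, ⟨τ⟩, hp⟩
    have hr : Set.range σ ⊆ Set.range ι := by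
      rintro _ ⟨z, rfl⟩
      let w : Spec (.of ℝ) := Nonempty.some inferInstance
      have e1 : (τ ≫ pullback.snd _ _) w = z := Subsingleton.elim (α := PrimeSpectrum ℚ) _ _
      refine ⟨((τ ≫ pullback.fst _ _) ≫ psi) w, ?_⟩
      rw [← e1, ← Scheme.Hom.comp_apply, ← Scheme.Hom.comp_apply]
      simp only [Category.assoc]
      rw [pullback.condition]
    obtain ⟨a, ha⟩ := Spec.map_surjective (IsOpenImmersion.lift ι σ hr)
    have hσ : σ = Spec.map (CommRingCat.ofHom a.hom) ≫ ι := by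
      rw [CommRingCat.ofHom_hom, ha, IsOpenImmersion.lift_fac]
    refine ⟨a.hom, ?_, hσ.symm⟩
    apply x_zero
    intro p hpp
    have := Fact.mk hpp
    obtain ⟨τp⟩ := hp p
    rw [hσ] at τp
    exact local_even ι a.hom p τp
  · obtain ⟨f, hf, -, -⟩ := exists_lift (B := R1) (d := d1) ev1 0 1 (by simp [ev1_d])
      (by simp)
    have hw : Spec.map (CommRingCat.ofHom f) ≫ psi ≫ ι =
        𝟙 _ ≫ Spec.map (CommRingCat.ofHom ev1) ≫ ι := by
      rw [Category.id_comp, ← Category.assoc, psi, ← Spec.map_comp, ← CommRingCat.ofHom_comp, hf]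
    refine ⟨Spec.map (CommRingCat.ofHom ev1) ≫ ι, specQ_hom _,
      ⟨Spec.map (CommRingCat.ofHom (algebraMap ℚ ℝ)) ≫ pullback.lift _ _ hw⟩, fun p _ =>
      ⟨Spec.map (CommRingCat.ofHom (algebraMap ℚ ℚ_[p])) ≫ pullback.lift _ _ hw⟩⟩

theorem elliptic : W0.IsElliptic := ⟨by
  simp [WeierstrassCurve.Δ, WeierstrassCurve.b₂, WeierstrassCurve.b₄, WeierstrassCurve.b₆,
    WeierstrassCurve.b₈]
  norm_num⟩

theorem rank_pos : 0 < Module.rank ℤ W0.toAffine.Point := by
  have hP : W0.toAffine.Nonsingular (1 / 4) (7 / 8) := by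
    rw [WeierstrassCurve.Affine.nonsingular_iff, WeierstrassCurve.Affine.equation_iff]
    norm_num
  refine InfOrder.rank_pos_of_not_finOrder (InfOrder.not_finOrder rfl rfl ?_ ?_ ?_ hP ?_)
  · simp [InfOrder.N_zero]
  · exact_mod_cast InfOrder.N_int (-1)
  · exact_mod_cast InfOrder.N_int 1
  · have e : (1 / 4 : ℚ) = ((1 : ℤ) : ℚ) / 2 ^ 2 := by norm_num
    rw [e, InfOrder.N_div, InfOrder.N_pow, InfOrder.N_two, InfOrder.N_odd _ (by decide)]
    norm_num

end

end Pool.Agent.H50.Fibration
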