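import Mathlib

namespace Pool.Agent.H50.Fm

open Finset

section defs

/-- A simplicial complex (with the empty face): a nonempty finite family closed under subsets. -/
def IsCx (Δ : Finset (Finset ℕ)) : Prop := ∅ ∈ Δ ∧ ∀ τ ∈ Δ, ∀ σ ⊆ τ, σ ∈ Δ

/-- Every set of pairwise adjacent vertices is a face. -/
def Flag (Δ : Finset (Finset ℕ)) : Prop :=
  ∀ τ : Finset ℕ, (∀ u ∈ τ, ∀ v ∈ τ, {u, v} ∈ Δ) → τ ∈ Δ

/-- The link of a face. -/
def link (Δ : Finset (Finset ℕ)) (σ : Finset ℕ) : Finset (Finset ℕ) :=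
  Δ.filter fun τ => Disjoint τ σ ∧ τ ∪ σ ∈ Δ

/-- Simplicial chains with coefficients in `R` on the faces with `j` vertices. -/
def chains (R : Type) [CommRing R] (Δ : Finset (Finset ℕ)) (j : ℕ) :
    Submodule R (Finset ℕ →₀ R) := Finsupp.supported R R {τ | τ ∈ Δ ∧ τ.card = j}

/-- The boundary map of the augmented simplicial chain complex. -/
noncomputable def bd (R : Type) [CommRing R] : (Finset ℕ →₀ R) →ₗ[R] (Finset ℕ →₀ R) :=
  Finsupp.linearCombination R fun τ =>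
    ∑ i ∈ τ, (-1 : R) ^ (τ.filter (· < i)).card • Finsupp.single (τ.erase i) 1

/-- Cycles on the faces with `j` vertices. -/
noncomputable def cyc (R : Type) [CommRing R] (Δ : Finset (Finset ℕ)) (j : ℕ) :
    Submodule R (Finset ℕ →₀ R) := chains R Δ j ⊓ LinearMap.ker (bd R)

/-- The subquotient `Z / (B ∩ Z)`. -/
abbrev Sq {R M : Type} [CommRing R] [AddCommGroup M] [Module R M] (Z B : Submodule R M) : Type :=
  Z ⧸ B.submoduleOf Z

/-- Reduced homology in dimension `j - 1`: cycles modulo boundaries. -/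
abbrev Hm (R : Type) [CommRing R] (Δ : Finset (Finset ℕ)) (j : ℕ) : Type :=
  Sq (cyc R Δ j) ((chains R Δ (j + 1)).map (bd R))

/-- `Δ` has the reduced homology of the sphere `S ^ (e - 1)`. -/
def SphereHom (R : Type) [CommRing R] (Δ : Finset (Finset ℕ)) (e : ℕ) : Prop :=
  Nonempty (Hm R Δ e ≃ₗ[R] R) ∧ ∀ j, j ≠ e → Subsingleton (Hm R Δ j)

/-- A homology `(d - 1)`-manifold: the link of every nonempty face `σ` has the homology of a
`(d - 1 - #σ)`-sphere. -/
def HomMan (R : Type) [CommRing R] (Δ : Finset (Finset ℕ)) (d : ℕ) : Prop :=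
  ∀ σ ∈ Δ, σ.Nonempty → σ.card ≤ d ∧ SphereHom R (link Δ σ) (d - σ.card)
end defs

variable {R : Type} [CommRing R]

def sg (R : Type) [CommRing R] (ρ : Finset ℕ) (i : ℕ) : R := (-1) ^ (ρ.filter (· < i)).card

lemma sg_sq (τ : Finset ℕ) (j : ℕ) : sg R τ j * sg R τ j = 1 := by
  rw [sg, ← mul_pow]; simp

lemma sg_ins {ρ : Finset ℕ} {e : ℕ} (he : e ∉ ρ) (i : ℕ) :
    sg R (insert e ρ) i = (if e < i then -1 else 1) * sg R ρ i := by
  unfold sg
  rw [filter_insert]
  split_ifs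
  · rw [card_insert_of_notMem (by simp [he]), pow_succ]; ring
  · simp

lemma sg_er {ρ : Finset ℕ} {e : ℕ} (he : e ∈ ρ) (i : ℕ) :
    sg R (ρ.erase e) i = (if e < i then -1 else 1) * sg R ρ i := by
  have := sg_ins (R := R) (notMem_erase e ρ) i
  rw [insert_erase he] at this
  rw [this]; split_ifs <;> ring

noncomputable def xx (R : Type) [CommRing R] (v : ℕ) : (Finset ℕ →₀ R) →ₗ[R] (Finset ℕ →₀ R) :=
  Finsupp.linearCombination R fun τ =>
    if v ∈ τ then 0 else sg R τ v • Finsupp.single (insert v τ) 1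

noncomputable def yy (R : Type) [CommRing R] (v : ℕ) : (Finset ℕ →₀ R) →ₗ[R] (Finset ℕ →₀ R) :=
  Finsupp.linearCombination R fun τ =>
    if v ∈ τ then sg R τ v • Finsupp.single (τ.erase v) 1 else 0

noncomputable def e1 (R : Type) [CommRing R] (τ : Finset ℕ) : Finset ℕ →₀ R := Finsupp.single τ 1

lemma xx_e (v : ℕ) (τ : Finset ℕ) :
    xx R v (e1 R τ) = if v ∈ τ then 0 else sg R τ v • e1 R (insert v τ) := by
  rw [xx, e1, Finsupp.linearCombination_single, one_smul]; rfl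

lemma yy_e (v : ℕ) (τ : Finset ℕ) :
    yy R v (e1 R τ) = if v ∈ τ then sg R τ v • e1 R (τ.erase v) else 0 := by
  rw [yy, e1, Finsupp.linearCombination_single, one_smul]; rfl

lemma bd_e {τ E : Finset ℕ} (h : τ ⊆ E) : bd R (e1 R τ) = ∑ i ∈ E, yy R i (e1 R τ) := by
  rw [bd, e1, Finsupp.linearCombination_single, one_smul]
  refine sum_subset_zero_on_sdiff h (fun i hi => ?_) fun i hi => ?_
  · exact (yy_e i τ).trans (if_neg (mem_sdiff.1 hi).2)
  · exact ((yy_e i τ).trans (if_pos hi)).symm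

lemma into {s : Set (Finset ℕ)} (T : (Finset ℕ →₀ R) →ₗ[R] (Finset ℕ →₀ R))
    (P : Submodule R (Finset ℕ →₀ R)) (h : ∀ τ ∈ s, T (e1 R τ) ∈ P) {c : Finset ℕ →₀ R}
    (hc : c ∈ Finsupp.supported R R s) : T c ∈ P := by
  rw [Finsupp.supported_eq_span_single] at hc
  refine (Submodule.span_le (p := P.comap T)).2 ?_ hc
  rintro _ ⟨τ, hτ, rfl⟩
  exact h τ hτ

lemma zero_of {T : (Finset ℕ →₀ R) →ₗ[R] (Finset ℕ →₀ R)} (h : ∀ τ, T (e1 R τ) = 0)
    (c : Finset ℕ →₀ R) : T c = 0 :=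
  into (s := Set.univ) T ⊥ (fun τ _ => h τ) (by simp)

lemma e_mem {s : Set (Finset ℕ)} {τ : Finset ℕ} (h : τ ∈ s) : e1 R τ ∈ Finsupp.supported R R s :=
  Finsupp.single_mem_supported _ _ h

lemma bd_eq {E : Finset ℕ} {c : Finset ℕ →₀ R} (hc : c ∈ Finsupp.supported R R {τ | τ ⊆ E}) :
    bd R c = ∑ i ∈ E, yy R i c := by
  have := into (bd R - ∑ i ∈ E, yy R i) ⊥ (fun τ h => by
    simp [LinearMap.sum_apply, bd_e (R := R) h]) hc
  simpa [LinearMap.sum_apply, sub_eq_zero] using this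

lemma yx_ne {i v : ℕ} (h : i ≠ v) (c : Finset ℕ →₀ R) : yy R i (xx R v c) = -xx R v (yy R i c) := by
  refine eq_neg_of_add_eq_zero_left (zero_of (T := yy R i ∘ₗ xx R v + xx R v ∘ₗ yy R i)
    (fun τ => ?_) c)
  simp only [LinearMap.add_apply, LinearMap.comp_apply, xx_e, yy_e]
  by_cases a : v ∈ τ <;> by_cases b : i ∈ τ <;> simp [a, b, xx_e, yy_e, h, h.symm]
  rw [sg_ins a, sg_er b, erase_insert_of_ne h.symm, smul_smul, smul_smul, ← add_smul]
  rcases lt_or_gt_of_ne h with h1 | h1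
  · rw [if_pos h1, if_neg (not_lt.2 h1.le)]; simp [mul_comm]
  · rw [if_pos h1, if_neg (not_lt.2 h1.le)]; simp [mul_comm]

lemma yx_one (v : ℕ) (c : Finset ℕ →₀ R) : yy R v (xx R v c) = c - xx R v (yy R v c) := by
  have := zero_of (T := yy R v ∘ₗ xx R v + xx R v ∘ₗ yy R v - LinearMap.id) (fun τ => by
    simp only [LinearMap.add_apply, LinearMap.sub_apply, LinearMap.comp_apply, xx_e, yy_e]
    by_cases a : v ∈ τ
    · simp [a, xx_e, sg_er a, smul_smul, sg_sq]
    · simp [a, yy_e, sg_ins a, smul_smul, sg_sq]) c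
  simp only [LinearMap.add_apply, LinearMap.sub_apply, LinearMap.comp_apply,
    LinearMap.id_apply] at this
  rw [eq_sub_iff_add_eq, ← sub_eq_zero, this]

lemma yy_same (i : ℕ) (c : Finset ℕ →₀ R) : yy R i (yy R i c) = 0 :=
  zero_of (T := yy R i ∘ₗ yy R i) (fun τ => by
    by_cases a : i ∈ τ <;> simp [a, yy_e]) c

lemma yy_anti (i j : ℕ) (c : Finset ℕ →₀ R) : yy R i (yy R j c) + yy R j (yy R i c) = 0 := by
  by_cases h : i = j
  · subst h; simp [yy_same]
  refine zero_of (T := yy R i ∘ₗ yy R j + yy R j ∘ₗ yy R i) (fun τ => ?_) c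
  simp only [LinearMap.add_apply, LinearMap.comp_apply, yy_e]
  by_cases a : j ∈ τ <;> by_cases b : i ∈ τ <;> simp [a, b, yy_e, h, Ne.symm h]
  rw [sg_er a, sg_er b, erase_right_comm, smul_smul, smul_smul, ← add_smul]
  rcases lt_or_gt_of_ne h with h1 | h1
  · rw [if_pos h1, if_neg (not_lt.2 h1.le)]; simp [mul_comm]
  · rw [if_pos h1, if_neg (not_lt.2 h1.le)]; simp [mul_comm]

lemma yy_sub (i : ℕ) {τ E : Finset ℕ} (h : τ ⊆ E) :
    yy R i (e1 R τ) ∈ Finsupp.supported R R {τ | τ ⊆ E} := by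
  rw [yy_e]
  split_ifs
  · exact Submodule.smul_mem _ _ (e_mem ((erase_subset _ _).trans h))
  · exact zero_mem _

lemma bd_x (v : ℕ) (c : Finset ℕ →₀ R) : bd R (xx R v c) = c - xx R v (bd R c) := by
  have := zero_of (T := bd R ∘ₗ xx R v + xx R v ∘ₗ bd R - LinearMap.id) (fun τ => by
    simp only [LinearMap.add_apply, LinearMap.sub_apply, LinearMap.comp_apply, LinearMap.id_apply]
    have m : xx R v (e1 R τ) ∈ Finsupp.supported R R {σ | σ ⊆ insert v τ} := by
      rw [xx_e]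
      split_ifs
      · exact zero_mem _
      · exact Submodule.smul_mem _ _ (e_mem (Subset.refl _))
    rw [bd_eq m, bd_e (subset_insert v τ), map_sum, ← sum_add_distrib,
      sum_eq_single_of_mem v (mem_insert_self _ _) fun i _ h => by rw [yx_ne h]; simp, yx_one]
    simp) c
  simp only [LinearMap.add_apply, LinearMap.sub_apply, LinearMap.comp_apply,
    LinearMap.id_apply] at this
  rw [eq_sub_iff_add_eq, ← sub_eq_zero, this]

lemma bd_y (v : ℕ) (c : Finset ℕ →₀ R) : bd R (yy R v c) = -yy R v (bd R c) := by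
  refine eq_neg_of_add_eq_zero_left (zero_of (T := bd R ∘ₗ yy R v + yy R v ∘ₗ bd R)
    (fun τ => ?_) c)
  simp only [LinearMap.add_apply, LinearMap.comp_apply]
  rw [bd_eq (yy_sub v (Subset.refl τ)), bd_e (Subset.refl τ), map_sum, ← sum_add_distrib]
  exact sum_eq_zero fun i _ => yy_anti _ _ _

lemma bd_bd (c : Finset ℕ →₀ R) : bd R (bd R c) = 0 := by
  refine zero_of (T := bd R ∘ₗ bd R) (fun τ => ?_) c
  rw [LinearMap.comp_apply, bd_e (Subset.refl τ), map_sum,
    sum_congr rfl fun i _ => bd_eq (yy_sub i (Subset.refl τ)), ← sum_product']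
  refine sum_involution (fun x _ => x.swap) (fun x _ => yy_anti _ _ _) (fun x _ h e => h ?_)
    (fun x hx => mem_product.2 ⟨(mem_product.1 hx).2, (mem_product.1 hx).1⟩) fun _ _ => rfl
  have : x.2 = x.1 := congrArg Prod.fst e
  rw [this, yy_same]

def cp (A : Finset ℕ) : Finset (Finset ℕ) :=
  (A.biUnion fun a => {2 * a, 2 * a + 1}).powerset.filter
    fun τ => ∀ u ∈ τ, ∀ v ∈ τ, u / 2 = v / 2 → u = v

lemma mem_cp {A τ : Finset ℕ} : τ ∈ cp A ↔
    (∀ u ∈ τ, u / 2 ∈ A) ∧ ∀ u ∈ τ, ∀ v ∈ τ, u / 2 = v / 2 → u = v := by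
  simp only [cp, mem_filter, mem_powerset, subset_iff, mem_biUnion, mem_insert, mem_singleton]
  refine and_congr_left fun _ => forall₂_congr fun u _ => ⟨?_, fun h => ⟨_, h, by omega⟩⟩
  rintro ⟨a, h, x⟩
  rwa [show u / 2 = a by omega]

lemma cp_down {A τ σ : Finset ℕ} (h : τ ∈ cp A) (s : σ ⊆ τ) : σ ∈ cp A := by
  rw [mem_cp] at h ⊢
  exact ⟨fun u x => h.1 u (s x), fun u x v y => h.2 u (s x) v (s y)⟩

lemma cp_card {A τ : Finset ℕ} (h : τ ∈ cp A) : τ.card ≤ A.card :=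
  card_le_card_of_injOn (· / 2) (mem_cp.1 h).1 fun u x v y => (mem_cp.1 h).2 u x v y

lemma bd_ch {A : Finset ℕ} {j : ℕ} {c : Finset ℕ →₀ R} (h : c ∈ chains R (cp A) (j + 1)) :
    bd R c ∈ chains R (cp A) j := into _ _ (fun τ x => by
  rw [bd_e (Subset.refl τ)]
  refine sum_mem fun i hi => ?_
  rw [yy_e, if_pos hi]
  exact Submodule.smul_mem _ _ (e_mem ⟨cp_down x.1 (erase_subset _ _),
    by rw [card_erase_of_mem hi, x.2]; rfl⟩)) h

lemma ch_top {A : Finset ℕ} {j : ℕ} (hj : A.card < j) {c : Finset ℕ →₀ R}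
    (h : c ∈ chains R (cp A) j) : c = 0 :=
  into LinearMap.id ⊥ (fun τ x => by have := cp_card x.1; have := x.2; omega) h

section step
variable {A : Finset ℕ} {a j : ℕ} {c : Finset ℕ →₀ R}

lemma y_zero (w : ℕ) (h : c ∈ chains R (cp A) 0) : yy R w c = 0 :=
  into _ ⊥ (fun τ x => by simp [yy_e, card_eq_zero.1 x.2]) h

lemma y_out (ha : a ∉ A) (h : c ∈ chains R (cp A) j) : yy R (2 * a + 1) c = 0 :=
  into _ ⊥ (fun τ x => by
    rw [yy_e, if_neg fun y => ha (by have := (mem_cp.1 x.1).1 _ y; rwa [show (2 * a + 1) / 2 = a by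
      omega] at this)]
    rfl) h

lemma y_in (h : c ∈ chains R (cp (insert a A)) (j + 1)) :
    yy R (2 * a + 1) c ∈ chains R (cp A) j := into _ _ (fun τ x => by
  rw [yy_e]
  split_ifs with y
  · refine Submodule.smul_mem _ _ (e_mem ⟨?_, by rw [card_erase_of_mem y, x.2]; rfl⟩)
    have k := mem_cp.1 x.1
    refine mem_cp.2 ⟨fun u z => ?_, (mem_cp.1 (cp_down x.1 (erase_subset _ _))).2⟩
    rw [mem_erase] at z
    exact (mem_insert.1 (k.1 u z.2)).resolve_left fun w => z.1 (k.2 u z.2 _ y (by omega))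
  · exact zero_mem _) h

lemma ins_cp {τ : Finset ℕ} {v : ℕ} (h : τ ∈ cp (insert a A)) (hv : v / 2 = a)
    (k : ∀ u ∈ τ, u / 2 ≠ a) : insert v τ ∈ cp (insert a A) := by
  rw [mem_cp] at h ⊢
  simp only [forall_mem_insert]
  exact ⟨⟨hv ▸ mem_insert_self _ _, h.1⟩, ⟨fun _ => trivial, fun u x y => absurd (y ▸ hv) (k u x)⟩,
    fun u x => ⟨fun y => absurd (y ▸ hv) (k u x), h.2 u x⟩⟩

lemma x_in (ha : a ∉ A) {v : ℕ} (hv : v / 2 = a) (h : c ∈ chains R (cp A) j) :
    xx R v c ∈ chains R (cp (insert a A)) (j + 1) := into _ _ (fun τ x => by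
  rw [xx_e]
  split_ifs with y
  · exact zero_mem _
  · have k := mem_cp.1 x.1
    exact Submodule.smul_mem _ _ (e_mem ⟨ins_cp (mem_cp.2 ⟨fun u z => mem_insert_of_mem (k.1 u z),
      k.2⟩) hv fun u z w => ha (w ▸ k.1 u z), by rw [card_insert_of_notMem y, x.2]⟩)) h

lemma x_cone (h : c ∈ chains R (cp (insert a A)) j) (h0 : yy R (2 * a + 1) c = 0) :
    xx R (2 * a) c ∈ chains R (cp (insert a A)) (j + 1) := by
  have m : c ∈ Finsupp.supported R R {τ | 2 * a + 1 ∉ τ} := by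
    have := yx_one (2 * a + 1) c
    rw [h0, map_zero, sub_zero] at this
    rw [← this]
    refine into (s := Set.univ) _ _ (fun τ _ => ?_) (by simp)
    rw [yy_e]
    split_ifs
    · exact Submodule.smul_mem _ _ (e_mem (notMem_erase _ _))
    · exact zero_mem _
  have m2 : c ∈ Finsupp.supported R R
      ({τ | τ ∈ cp (insert a A) ∧ τ.card = j} ∩ {τ | 2 * a + 1 ∉ τ}) := by
    rw [Finsupp.supported_inter]; exact ⟨h, m⟩
  refine into _ _ (fun τ x => ?_) m2
  rw [xx_e]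
  split_ifs with y
  · exact zero_mem _
  · refine Submodule.smul_mem _ _ (e_mem ⟨ins_cp x.1.1 (by omega) fun u z w => ?_,
      by rw [card_insert_of_notMem y, x.1.2]⟩)
    rcases (by omega : u = 2 * a ∨ u = 2 * a + 1) with rfl | rfl
    · exact y z
    · exact x.2 z
end step

lemma van (A : Finset ℕ) : ∀ j, j ≠ A.card → ∀ c ∈ chains R (cp A) j, bd R c = 0 →
    ∃ b ∈ chains R (cp A) (j + 1), bd R b = c := by
  induction A using Finset.induction_on with
  | empty =>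
    intro j hj c hc _
    exact ⟨0, zero_mem _, by rw [ch_top (by simpa using Nat.pos_of_ne_zero hj) hc, map_zero]⟩
  | insert a A ha ih =>
    intro j hj c hc h
    rw [card_insert_of_notMem ha] at hj
    obtain ⟨b0, h1, h2⟩ : ∃ b0 ∈ chains R (cp A) j, bd R b0 = yy R (2 * a + 1) c := by
      rcases j with _ | j
      · exact ⟨0, zero_mem _, by rw [y_zero _ hc, map_zero]⟩
      · exact ih j (by omega) _ (y_in hc) (by rw [bd_y, h]; simp)
    have m := x_in ha (by omega : (2 * a + 1) / 2 = a) h1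
    have k := x_cone (add_mem hc (bd_ch m)) (by
      rw [map_add, ← neg_neg (yy R _ (bd R _)), ← bd_y, yx_one, y_out ha h1, ← h2]; simp)
    refine ⟨_, sub_mem k m, ?_⟩
    rw [map_sub, bd_x (2 * a), map_add, h, bd_bd]
    simp

lemma top (A : Finset ℕ) : Nonempty (cyc R (cp A) A.card ≃ₗ[R] R) := by
  induction A using Finset.induction_on with
  | empty =>
    have m : e1 R ∅ ∈ cyc R (cp ∅) 0 :=
      ⟨e_mem ⟨by simp [mem_cp], rfl⟩, by change bd R _ = 0; rw [bd_e (Subset.refl _)]; simp⟩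
    refine ⟨(LinearEquiv.ofBijective (LinearMap.toSpanSingleton R (cyc R (cp ∅) 0) ⟨_, m⟩)
      ⟨fun r s h => ?_, fun c => ?_⟩).symm⟩
    · simpa [e1] using congrArg (fun z : cyc R (cp ∅) 0 => z.1 ∅) h
    · have := into LinearMap.id (Submodule.span R {e1 R ∅}) (fun τ x => by
        rw [card_eq_zero.1 x.2]; exact Submodule.mem_span_singleton_self _) c.2.1
      obtain ⟨r, hr⟩ := Submodule.mem_span_singleton.1 this
      exact ⟨r, Subtype.ext hr⟩
  | insert a A ha ih =>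
    obtain ⟨e⟩ := ih
    rw [card_insert_of_notMem ha]
    refine ⟨(LinearEquiv.ofBijective ((yy R (2 * a + 1)).restrict
      (p := cyc R (cp (insert a A)) (A.card + 1)) (q := cyc R (cp A) A.card) fun c hc =>
        ⟨y_in hc.1, ?_⟩) ⟨(injective_iff_map_eq_zero _).2 fun c h => ?_, fun z => ?_⟩).trans e⟩
    · have h : bd R c = 0 := hc.2
      change bd R _ = 0
      rw [bd_y, h]; simp
    · have h0 : yy R (2 * a + 1) c.1 = 0 := congrArg Subtype.val h
      have h1 : bd R c.1 = 0 := c.2.2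
      have := bd_x (2 * a) c.1
      rw [ch_top (by rw [card_insert_of_notMem ha]; omega) (x_cone c.2.1 h0), h1] at this
      exact Subtype.ext (by simpa using this.symm)
    · have h1 : bd R z.1 = 0 := z.2.2
      refine ⟨⟨xx R (2 * a + 1) z.1 - xx R (2 * a) z.1,
        sub_mem (x_in ha (by omega) z.2.1) (x_in ha (by omega) z.2.1), ?_⟩, Subtype.ext ?_⟩
      · change bd R _ = 0
        rw [map_sub, bd_x, bd_x, h1]; simp
      · change yy R _ (_ - _) = _
        rw [map_sub, yx_one, yx_ne (by omega), y_out ha z.2.1]; simp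

lemma sphere (A : Finset ℕ) : SphereHom R (cp A) A.card := by
  obtain ⟨e⟩ := top (R := R) A
  refine ⟨⟨(Submodule.quotEquivOfEqBot _ ?_).trans e⟩, fun j hj => ?_⟩
  · rw [eq_bot_iff]
    rintro c ⟨b, hb, h⟩
    rw [ch_top (by omega) hb, map_zero] at h
    exact Subtype.ext h.symm
  · refine Submodule.Quotient.subsingleton_iff.2 (eq_top_iff.2 fun c _ => ?_)
    exact van A j hj c.1 c.2.1 c.2.2

end Pool.Agent.H50.Fm
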