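import Mathlib
import Pool.Agent.H50.Fm1

namespace Pool.Agent.H50.Fm

open Finset Polynomial

section defs

/-- The number `f_{i-1}` of faces with `i` vertices. -/
def fn (Δ : Finset (Finset ℕ)) (i : ℕ) : ℕ := (Δ.filter fun τ => τ.card = i).card

/-- The `h`-polynomial `∑ h_i x ^ i = ∑ f_{i-1} x ^ i (1 - x) ^ (d - i)`. -/
noncomputable def hp (Δ : Finset (Finset ℕ)) (d : ℕ) : ℤ[X] :=
  ∑ i ∈ range (d + 1), C (fn Δ i : ℤ) * X ^ i * (1 - X) ^ (d - i)

/-- `γ` is the `γ`-vector for `d = 2 r`: `∑ h_i x ^ i = ∑ γ_i x ^ i (1 + x) ^ (d - 2 i)`. -/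
def IsGamma (r : ℕ) (Δ : Finset (Finset ℕ)) (γ : ℕ → ℤ) : Prop :=
  hp Δ (2 * r) = ∑ i ∈ range (r + 1), C (γ i) * X ^ i * (1 + X) ^ (2 * r - 2 * i)

/-- The join of two complexes on disjoint vertex sets. -/
def join (Δ Γ : Finset (Finset ℕ)) : Finset (Finset ℕ) := (Δ ×ˢ Γ).image fun p => p.1 ∪ p.2

/-- The cycle `C_a` on the vertices `s, ..., s + a - 1`. -/
def cycle (s a : ℕ) : Finset (Finset ℕ) :=
  insert ∅ (((range a).image fun i => {s + i}) ∪ (range a).image fun i => {s + i, s + (i + 1) % a})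

/-- `J_r (r a)`: the join of `r` cycles of length `a`. -/
def JJ (a r : ℕ) : Finset (Finset ℕ) := Nat.rec {∅} (fun q Δ => join Δ (cycle (q * a) a)) r
end defs

noncomputable def hs (Δ : Finset (Finset ℕ)) (d : ℕ) : ℤ[X] :=
  ∑ τ ∈ Δ, X ^ τ.card * (1 - X) ^ (d - τ.card)

lemma hp_eq {Δ : Finset (Finset ℕ)} {d : ℕ} (h : ∀ τ ∈ Δ, τ.card ≤ d) : hp Δ d = hs Δ d := by
  rw [hs, ← sum_fiberwise_of_maps_to (g := card) (t := range (d + 1))
    fun τ x => mem_range.2 (Nat.lt_succ_of_le (h τ x))]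
  refine sum_congr rfl fun i _ => ?_
  rw [sum_congr rfl fun τ x => by rw [(mem_filter.1 x).2], sum_const, fn]
  simp [mul_assoc]

lemma hs_join {Δ Γ : Finset (Finset ℕ)} {d e : ℕ} (p : ℕ → Prop) (h1 : ∀ τ ∈ Δ, ∀ u ∈ τ, p u)
    (h2 : ∀ τ ∈ Γ, ∀ u ∈ τ, ¬ p u) (c1 : ∀ τ ∈ Δ, τ.card ≤ d) (c2 : ∀ τ ∈ Γ, τ.card ≤ e) :
    hs (join Δ Γ) (d + e) = hs Δ d * hs Γ e := by
  rw [hs, join, sum_image, sum_product, hs, hs, sum_mul_sum]
  · refine sum_congr rfl fun τ x => sum_congr rfl fun σ y => ?_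
    have := c1 τ x
    have := c2 σ y
    rw [card_union_of_disjoint (disjoint_left.2 fun u a b => h2 σ y u b (h1 τ x u a)),
      show d + e - (τ.card + σ.card) = d - τ.card + (e - σ.card) by omega]
    ring
  · rintro ⟨a, b⟩ x ⟨a', b'⟩ y h
    simp only [coe_product, Set.mem_prod, mem_coe] at x y
    have k : ∀ u, u ∈ a ∨ u ∈ b ↔ u ∈ a' ∨ u ∈ b' := fun u => by
      rw [← mem_union, ← mem_union]; exact Finset.ext_iff.1 h u
    refine Prod.ext (ext fun u => ⟨fun z => ?_, fun z => ?_⟩) (ext fun u => ⟨fun z => ?_, fun z => ?_⟩)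
    · exact ((k u).1 (Or.inl z)).resolve_right fun w => h2 _ y.2 u w (h1 _ x.1 u z)
    · exact ((k u).2 (Or.inl z)).resolve_right fun w => h2 _ x.2 u w (h1 _ y.1 u z)
    · exact ((k u).1 (Or.inr z)).resolve_left fun w => h2 _ x.2 u z (h1 _ y.1 u w)
    · exact ((k u).2 (Or.inr z)).resolve_left fun w => h2 _ y.2 u z (h1 _ x.1 u w)

lemma md {a i : ℕ} (h : i < a) : (i + 1 < a ∧ (i + 1) % a = i + 1) ∨ (i + 1 = a ∧ (i + 1) % a = 0) := by
  rcases (by omega : i + 1 < a ∨ i + 1 = a) with x | x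
  · exact Or.inl ⟨x, Nat.mod_eq_of_lt x⟩
  · exact Or.inr ⟨x, by rw [x, Nat.mod_self]⟩

lemma cyc_face {s a : ℕ} {τ : Finset ℕ} (h : τ ∈ cycle s a) :
    τ.card ≤ 2 ∧ ∀ u ∈ τ, s ≤ u ∧ u < s + a := by
  simp only [cycle, mem_insert, mem_union, mem_image, mem_range] at h
  rcases h with rfl | ⟨i, x, rfl⟩ | ⟨i, x, rfl⟩
  · simp
  · simpa using x
  · have := md x
    exact ⟨card_le_two, by simp only [mem_insert, mem_singleton]; omega⟩

lemma hs_cyc (s : ℕ) {a : ℕ} (ha : 3 ≤ a) :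
    hs (cycle s a) 2 = C ((a : ℤ) - 4) * X + (1 + X) ^ 2 := by
  have c : ∀ i ∈ range a, ({s + i, s + (i + 1) % a} : Finset ℕ).card = 2 := fun i x =>
    card_pair (by have := md (mem_range.1 x); omega)
  have c' : ∑ i ∈ range a, (X ^ ({s + i, s + (i + 1) % a} : Finset ℕ).card *
      (1 - X) ^ (2 - ({s + i, s + (i + 1) % a} : Finset ℕ).card) : ℤ[X]) = ∑ _i ∈ range a, X ^ 2 :=
    sum_congr rfl fun i x => by rw [c i x]; simp
  rw [hs, cycle, sum_insert, sum_union, sum_image, sum_image, c']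
  · simp only [card_empty, card_singleton, sum_const, card_range, nsmul_eq_mul, map_sub,
      map_natCast, map_ofNat]
    ring
  · intro i x j y h
    have := md (mem_range.1 x)
    have := md (mem_range.1 y)
    have a1 := (Finset.ext_iff.1 h (s + i)).1 (by simp)
    have a2 := (Finset.ext_iff.1 h (s + j)).2 (by simp)
    simp only [mem_insert, mem_singleton] at a1 a2
    omega
  · intro i _ j _ h
    simpa using h
  · rw [disjoint_left]
    intro τ x y
    obtain ⟨i, -, rfl⟩ := mem_image.1 x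
    obtain ⟨j, z, h⟩ := mem_image.1 y
    have := c j z
    rw [h] at this
    simp at this
  · simp only [mem_union, mem_image, not_or, not_exists, not_and]
    exact ⟨fun i _ => singleton_ne_empty _, fun i _ => insert_ne_empty _ _⟩

lemma JJ_face (a r : ℕ) : ∀ τ ∈ JJ a r, τ.card ≤ 2 * r ∧ ∀ u ∈ τ, u < r * a := by
  induction r with
  | zero => simp [JJ]
  | succ r ih =>
    intro τ h
    obtain ⟨⟨b, c⟩, x, rfl⟩ := mem_image.1 (show τ ∈ join (JJ a r) (cycle (r * a) a) from h)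
    rw [mem_product] at x
    have h1 := ih b x.1
    have h2 := cyc_face x.2
    refine ⟨(card_union_le _ _).trans (by dsimp only at *; omega), fun u y => ?_⟩
    rw [add_mul, one_mul]
    rcases mem_union.1 y with y | y
    · exact (h1.2 u y).trans_le (Nat.le_add_right _ _)
    · exact (h2.2 u y).2

lemma hs_JJ {a : ℕ} (ha : 3 ≤ a) (r : ℕ) :
    hs (JJ a r) (2 * r) = (C ((a : ℤ) - 4) * X + (1 + X) ^ 2) ^ r := by
  induction r with
  | zero => simp [JJ, hs]
  | succ r ih =>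
    rw [pow_succ _ r, ← ih, ← hs_cyc (r * a) ha]
    exact hs_join (· < r * a) (fun τ x => (JJ_face a r τ x).2)
      (fun τ x u y => not_lt.2 ((cyc_face x).2 u y).1) (fun τ x => (JJ_face a r τ x).1)
      fun τ x => (cyc_face x).1

lemma gam_pow (c : ℤ) (r : ℕ) : (C c * X + (1 + X) ^ 2 : ℤ[X]) ^ r = ∑ i ∈ range (r + 1),
    C (r.choose i * c ^ i) * X ^ i * (1 + X) ^ (2 * r - 2 * i) := by
  rw [add_pow]
  refine sum_congr rfl fun i _ => ?_
  rw [← pow_mul, mul_tsub, map_mul, map_pow, map_natCast]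
  ring

lemma gam_uniq {r : ℕ} {Δ : Finset (Finset ℕ)} {γ δ : ℕ → ℤ} (h1 : IsGamma r Δ γ)
    (h2 : IsGamma r Δ δ) : ∀ i ≤ r, γ i = δ i := by
  intro i
  induction i using Nat.strong_induction_on with
  | _ i ih =>
  intro hi
  have h := congrArg (coeff · i) (sub_eq_zero.2 (h1.symm.trans h2))
  simp only [← sum_sub_distrib, finsetSum_coeff, coeff_zero] at h
  rw [sum_eq_single_of_mem i (mem_range.2 (by omega)) fun l _ x => ?_] at h
  · rw [← sub_mul, ← sub_mul, ← map_sub, mul_assoc, coeff_C_mul, coeff_X_pow_mul', if_pos le_rfl,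
      Nat.sub_self, coeff_one_add_X_pow] at h
    simpa [sub_eq_zero] using h
  · rcases lt_or_gt_of_ne x with y | y
    · rw [ih l y (by omega), sub_self, coeff_zero]
    · rw [← sub_mul, ← sub_mul, ← map_sub, mul_assoc, coeff_C_mul, coeff_X_pow_mul',
        if_neg (by omega), mul_zero]

lemma hs_cp (A : Finset ℕ) : hs (cp A) A.card = (1 + X) ^ A.card := by
  induction A using Finset.induction_on with
  | empty => rw [show cp ∅ = {∅} by decide]; simp [hs]
  | insert a A ha ih =>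
    have e : cp (insert a A) = join (cp A) {∅, {2 * a}, {2 * a + 1}} := by
      ext τ
      simp only [join, mem_image, mem_product, mem_insert, mem_singleton, Prod.exists]
      constructor
      · intro h
        have k := mem_cp.1 h
        refine ⟨τ.filter (· / 2 ≠ a), τ.filter (· / 2 = a), ⟨mem_cp.2 ⟨fun u x => ?_,
          (mem_cp.1 (cp_down h (filter_subset _ _))).2⟩, ?_⟩, by
            rw [union_comm]; exact filter_union_filter_not_eq _ _⟩
        · rw [mem_filter] at x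
          exact (mem_insert.1 (k.1 u x.1)).resolve_left x.2
        · rcases (τ.filter (· / 2 = a)).eq_empty_or_nonempty with x | ⟨u, x⟩
          · exact Or.inl x
          · have e : τ.filter (· / 2 = a) = {u} := eq_singleton_iff_unique_mem.2 ⟨x, fun v y => by
              rw [mem_filter] at x y
              exact k.2 v y.1 u x.1 (y.2.trans x.2.symm)⟩
            have := (mem_filter.1 x).2
            rw [e]
            rcases (by omega : u = 2 * a ∨ u = 2 * a + 1) with rfl | rfl <;> simp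
      · rintro ⟨b, c, ⟨x, y⟩, rfl⟩
        have k := mem_cp.1 x
        have m : b ∈ cp (insert a A) := mem_cp.2 ⟨fun u z => mem_insert_of_mem (k.1 u z), k.2⟩
        rcases y with rfl | rfl | rfl
        · simpa using m
        all_goals
          rw [union_comm, ← insert_eq]
          exact ins_cp m (by omega) fun u z w => ha (w ▸ k.1 u z)
    rw [card_insert_of_notMem ha, e, hs_join (· / 2 ∈ A) (fun τ x => (mem_cp.1 x).1) ?_
      (fun τ x => cp_card x) ?_, ih, pow_succ, hs, sum_insert, sum_pair]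
    · simp only [card_empty, card_singleton]; ring
    · simp
    · simp only [mem_insert, mem_singleton, not_or]
      exact ⟨(singleton_ne_empty _).symm, (singleton_ne_empty _).symm⟩
    · simp only [mem_insert, mem_singleton]
      rintro τ (rfl | rfl | rfl) u x
      · simp at x
      all_goals
        rw [mem_singleton] at x
        rwa [show u / 2 = a by omega]
    · simp only [mem_insert, mem_singleton]
      rintro τ (rfl | rfl | rfl) <;> simp

def AA (m c : ℕ) : Finset ℕ := Ico (m * c) (m * c + m)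

lemma mem_AA {m c x : ℕ} (hm : 0 < m) : x ∈ AA m c ↔ x / m = c := by
  rw [AA, mem_Ico, Nat.div_eq_iff hm, mul_comm c m]; omega

lemma card_AA (m c : ℕ) : (AA m c).card = m := by simp [AA]

def MM (m k : ℕ) : Finset (Finset ℕ) := (range k).biUnion fun c => cp (AA m c)

lemma mem_MM {m k : ℕ} {τ : Finset ℕ} : τ ∈ MM m k ↔ ∃ c < k, τ ∈ cp (AA m c) := by simp [MM]

lemma emp_cp (A : Finset ℕ) : ∅ ∈ cp A := by simp [mem_cp]

variable {m k : ℕ}

lemma same (hm : 0 < m) {c c' u : ℕ} {τ σ : Finset ℕ} (h : τ ∈ cp (AA m c)) (h' : σ ∈ cp (AA m c'))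
    (x : u ∈ τ) (y : u ∈ σ) : c = c' :=
  ((mem_AA hm).1 ((mem_cp.1 h).1 u x)).symm.trans ((mem_AA hm).1 ((mem_cp.1 h').1 u y))

lemma MM_cx (hk : 0 < k) : IsCx (MM m k) := ⟨mem_MM.2 ⟨0, hk, emp_cp _⟩, fun τ h σ s => by
  obtain ⟨c, x, y⟩ := mem_MM.1 h
  exact mem_MM.2 ⟨c, x, cp_down y s⟩⟩

lemma MM_flag (hm : 0 < m) (hk : 0 < k) : Flag (MM m k) := fun τ h => by
  rcases τ.eq_empty_or_nonempty with rfl | ⟨u, hu⟩
  · exact (MM_cx hk).1
  obtain ⟨c, x, y⟩ := mem_MM.1 (h u hu u hu)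
  refine mem_MM.2 ⟨c, x, mem_cp.2 ⟨fun v hv => ?_, fun v hv w hw => ?_⟩⟩
  · obtain ⟨c', -, z⟩ := mem_MM.1 (h u hu v hv)
    rw [same hm y z (mem_insert_self _ _) (mem_insert_self _ _)]
    exact (mem_cp.1 z).1 v (by simp)
  · obtain ⟨c', -, z⟩ := mem_MM.1 (h v hv w hw)
    exact (mem_cp.1 z).2 v (by simp) w (by simp)

lemma MM_vert (hm : 0 < m) (v : ℕ) : {v} ∈ MM m k ↔ v < 2 * (k * m) := by
  simp only [mem_MM, mem_cp, mem_singleton, forall_eq, mem_AA hm, implies_true, and_true,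
    exists_eq_right', Nat.div_lt_iff_lt_mul hm]
  omega

lemma MM_man (R : Type) [CommRing R] (hm : 0 < m) : HomMan R (MM m k) m := by
  rintro σ h ⟨u, hu⟩
  obtain ⟨c, x, y⟩ := mem_MM.1 h
  have k0 := mem_cp.1 y
  have e : link (MM m k) σ = cp (AA m c \ σ.image (· / 2)) := by
    ext τ
    rw [link, mem_filter]
    constructor
    · rintro ⟨-, d, z⟩
      obtain ⟨c', -, z⟩ := mem_MM.1 z
      rw [← same hm y z hu (mem_union_right _ hu), mem_cp] at z
      refine mem_cp.2 ⟨fun v hv => mem_sdiff.2 ⟨z.1 v (mem_union_left _ hv), fun w => ?_⟩,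
        fun v hv w hw => z.2 v (mem_union_left _ hv) w (mem_union_left _ hw)⟩
      obtain ⟨t, ht, e⟩ := mem_image.1 w
      exact disjoint_left.1 d hv (z.2 t (mem_union_right _ ht) v (mem_union_left _ hv) e ▸ ht)
    · intro z
      rw [mem_cp] at z
      have n : ∀ v ∈ τ, ∀ t ∈ σ, t / 2 ≠ v / 2 := fun v hv t ht e =>
        (mem_sdiff.1 (z.1 v hv)).2 (mem_image.2 ⟨t, ht, e⟩)
      have w : τ ∪ σ ∈ cp (AA m c) := mem_cp.2 ⟨fun v hv => (mem_union.1 hv).elim
        (fun a => (mem_sdiff.1 (z.1 v a)).1) (k0.1 v), fun v hv w hw e => by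
          rcases mem_union.1 hv with a | a <;> rcases mem_union.1 hw with b | b
          · exact z.2 v a w b e
          · exact absurd e.symm (n v a w b)
          · exact absurd e (n w b v a)
          · exact k0.2 v a w b e⟩
      exact ⟨mem_MM.2 ⟨c, x, cp_down w subset_union_left⟩,
        disjoint_left.2 fun v a b => n v a v b rfl, mem_MM.2 ⟨c, x, w⟩⟩
  have c1 : (AA m c \ σ.image (· / 2)).card = m - σ.card := by
    rw [card_sdiff_of_subset (image_subset_iff.2 k0.1), card_AA,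
      card_image_of_injOn fun u x v y => k0.2 u x v y]
  refine ⟨(cp_card y).trans (card_AA m c).le, ?_⟩
  rw [e, ← c1]
  exact sphere _

lemma hs_MM (hm : 0 < m) (hk : 0 < k) :
    hs (MM m k) m = (k : ℤ[X]) * (1 + X) ^ m - ((k : ℤ[X]) - 1) * (1 - X) ^ m := by
  have e : (MM m k).erase ∅ = (range k).biUnion fun c => (cp (AA m c)).erase ∅ := by
    ext τ; simp only [mem_erase, mem_MM, mem_biUnion, mem_range]
    exact ⟨fun ⟨a, c, b, d⟩ => ⟨c, b, a, d⟩, fun ⟨c, b, a, d⟩ => ⟨a, c, b, d⟩⟩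
  have f : ∀ c, ∑ τ ∈ (cp (AA m c)).erase ∅, (X ^ τ.card * (1 - X) ^ (m - τ.card) : ℤ[X]) =
      (1 + X) ^ m - (1 - X) ^ m := fun c => by
    have := hs_cp (AA m c)
    rw [card_AA, hs, ← add_sum_erase _ _ (emp_cp _)] at this
    rw [← this]; simp
  rw [hs, ← add_sum_erase _ _ (MM_cx hk).1, e, sum_biUnion, sum_congr rfl fun c _ => f c]
  · simp only [card_empty, sum_const, card_range, nsmul_eq_mul, Nat.sub_zero]; ring
  · intro c _ c' _ h
    refine disjoint_left.2 fun τ x y => h ?_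
    rw [mem_erase] at x y
    obtain ⟨u, hu⟩ := nonempty_iff_ne_empty.2 x.1
    exact same hm x.2 y.2 hu hu

lemma gam_MM {r : ℕ} (hr : 0 < r) (hk : 0 < k) : IsGamma r (MM (2 * r) k)
    fun i => k * (r.choose i * 0 ^ i) - (k - 1) * (r.choose i * (-4) ^ i) := by
  rw [IsGamma, hp_eq fun τ x => by
    obtain ⟨c, -, y⟩ := mem_MM.1 x
    exact (cp_card y).trans (card_AA _ c).le, hs_MM (by omega) hk]
  have a := gam_pow 0 r
  have b := gam_pow (-4) r
  rw [map_zero, zero_mul, zero_add, ← pow_mul] at a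
  rw [show (C (-4) * X + (1 + X) ^ 2 : ℤ[X]) = (1 - X) ^ 2 by
    rw [map_neg, map_ofNat]; ring, ← pow_mul] at b
  rw [b]
  nth_rewrite 1 [a]
  rw [mul_sum, mul_sum, ← sum_sub_distrib]
  refine sum_congr rfl fun i _ => ?_
  simp only [map_sub, map_mul (C : ℤ →+* ℤ[X]) (k : ℤ), map_mul (C : ℤ →+* ℤ[X]) (k - 1 : ℤ),
    map_natCast, map_one]
  ring

lemma gam_JJ {a : ℕ} (ha : 3 ≤ a) (r : ℕ) :
    IsGamma r (JJ a r) fun i => r.choose i * ((a : ℤ) - 4) ^ i := by
  rw [IsGamma, hp_eq fun τ x => (JJ_face a r τ x).1, hs_JJ ha, gam_pow]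

end Pool.Agent.H50.Fm
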