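import Mathlib

set_option autoImplicit false

open Polynomial Matrix

namespace Pool.Agent.H50.GDet

lemma expand {L H : Type} [CommRing L] [Fintype H] (z : MonoidAlgebra L H) :
    z = ∑ h, z.coeff h • MonoidAlgebra.single h (1 : L) := by
  classical
  ext g
  simp [MonoidAlgebra.coeff_sum, Finsupp.single_apply]

lemma coeff_comb {L H : Type} [CommRing L] [Fintype H] (v : H → L) (g : H) :
    (∑ h, v h • MonoidAlgebra.single h (1 : L)).coeff g = v g := by
  classical
  simp [MonoidAlgebra.coeff_sum, Finsupp.single_apply]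

def Good {L H : Type} [Field L] [Group H] [Fintype H] [DecidableEq H] {N : ℕ}
    (ρ : H →* Matrix (Fin N) (Fin N) L) : Prop :=
  (Matrix.of fun g h => trace (ρ g * ρ h)).det ≠ 0 ∧
    ∃ (c : H → L) (δ : Fin N → L), Function.Injective δ ∧ ∑ h, c h • ρ h = diagonal δ

lemma exists_good (L H : Type) [Field L] [IsAlgClosed L] [Group H] [Fintype H] [DecidableEq H]
    [NeZero (Nat.card H : L)] : ∃ (N : ℕ) (ρ : H →* Matrix (Fin N) (Fin N) L), Good ρ := by
  classical
  obtain ⟨n, d, -, ⟨e⟩⟩ := IsSemisimpleRing.exists_algEquiv_pi_matrix_of_isAlgClosed L (MonoidAlgebra L H)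
  let q := Fintype.equivFin (Σ i, Fin (d i))
  let B : (Π i, Matrix (Fin (d i)) (Fin (d i)) L) →+* Matrix (Fin _) (Fin _) L :=
    (Matrix.reindexAlgEquiv L L q).toRingEquiv.toRingHom.comp (blockDiagonal'RingHom (fun i => Fin (d i)) L)
  have Bdef : ∀ P, B P = Matrix.reindex q q (blockDiagonal' P) := fun _ => rfl
  have Bs : ∀ (c : L) P, B (c • P) = c • B P := by
    intro c P
    rw [Bdef, Bdef, blockDiagonal'_smul]
    rfl
  have Bt : ∀ P, trace (B P) = ∑ i, trace (P i) := by
    intro P
    rw [Bdef, ← trace_blockDiagonal']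
    simp only [trace, diag_apply, reindex_apply, submatrix_apply]
    exact q.symm.sum_comp (fun i => blockDiagonal' P i i)
  let ρ : H →* Matrix (Fin _) (Fin _) L :=
    (B.toMonoidHom.comp (e : MonoidAlgebra L H →* _)).comp (MonoidAlgebra.of L H)
  have ρdef : ∀ h, ρ h = B (e (MonoidAlgebra.single h 1)) := fun _ => rfl
  have lin : ∀ v : H → L, ∑ h, v h • ρ h = B (e (∑ h, v h • MonoidAlgebra.single h (1 : L))) := by
    intro v
    simp only [map_sum, map_smul, Bs, ρdef]
  refine ⟨_, ρ, ?_, ?_⟩
  · intro h0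
    obtain ⟨v, hv, h1⟩ := Matrix.exists_vecMul_eq_zero_iff.2 h0
    apply hv
    set z := ∑ h, v h • MonoidAlgebra.single h (1 : L) with hz
    have h2 : ∀ h, trace (B (e z) * ρ h) = 0 := by
      intro h
      have := congrFun h1 h
      rw [← lin, Finset.sum_mul, trace_sum]
      simpa [vecMul, dotProduct] using this
    have h3 : ∀ P, trace (B (e z) * B P) = 0 := by
      intro P
      obtain ⟨w, rfl⟩ := e.surjective P
      rw [expand w, ← lin (fun h => w.coeff h), Finset.mul_sum, trace_sum]
      simp [h2]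
    have h4 : e z = 0 := by
      funext i
      ext a b
      have := h3 (Pi.single i (Matrix.single b a 1))
      rw [← map_mul, Bt, Finset.sum_eq_single i] at this
      · simpa [trace_mul_single] using this
      · intro j _ hj
        simp [Pi.single_eq_of_ne hj]
      · simp
    have h5 : z = 0 := by simpa using h4
    funext g
    rw [← coeff_comb v g, ← hz, h5]
    simp
  · let δ : Fin (Fintype.card (Σ i, Fin (d i))) → L := fun i => Infinite.natEmbedding L i
    obtain ⟨w, hw⟩ := e.surjective (fun i => diagonal (fun a => δ (q ⟨i, a⟩)))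
    refine ⟨fun h => w.coeff h, δ, fun i j hij => Fin.ext ((Infinite.natEmbedding L).injective hij), ?_⟩
    rw [lin, ← expand w, hw, Bdef, blockDiagonal'_diagonal]
    ext i j
    simp [diagonal_apply]

lemma zero_of_indep {Ω : Type} [Field Ω] {N : ℕ} (M : Matrix (Fin N) (Fin N) Ω)
    (hV : (Matrix.of fun i k : Fin N => (M ^ (k : ℕ)) i i).det ≠ 0) (p : Polynomial Ω) (hp : p.degree < N)
    (h : aeval M p = 0) : p = 0 := by
  by_contra h0
  have hn : p.natDegree < N := (natDegree_lt_iff_degree_lt h0).2 hp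
  rw [aeval_eq_sum_range' hn, Finset.sum_range] at h
  have : (fun k : Fin N => p.coeff k) = 0 := by
    refine Matrix.eq_zero_of_mulVec_eq_zero hV (funext fun i => ?_)
    have := congrFun (congrFun h i) i
    simpa [mulVec, dotProduct, Matrix.sum_apply, mul_comm] using this
  exact h0 (leadingCoeff_eq_zero.1 (congrFun this ⟨_, hn⟩))

lemma gram_inj {L Ω H : Type} [Field L] [CommRing Ω] [IsDomain Ω] [Group H] [Fintype H] [DecidableEq H] {N : ℕ}
    (ρ : H →* Matrix (Fin N) (Fin N) L) (hρ : Good ρ) (f : L →+* Ω) (u : H → Ω)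
    (h : ∀ g, trace ((∑ h, u h • (ρ h).map f) * (ρ g).map f) = 0) : u = 0 := by
  have hd : ((Matrix.of fun g h => trace (ρ g * ρ h)).map f).det ≠ 0 := by
    have := f.map_det (Matrix.of fun g h => trace (ρ g * ρ h))
    rw [RingHom.mapMatrix_apply] at this
    rw [← this]
    exact (map_ne_zero f).2 hρ.1
  refine Matrix.eq_zero_of_vecMul_eq_zero hd (funext fun g => ?_)
  have := h g
  rw [Finset.sum_mul, trace_sum] at this
  simp only [vecMul, dotProduct, map_apply, of_apply, Pi.zero_apply]
  rw [← this]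
  refine Finset.sum_congr rfl fun x _ => ?_
  rw [smul_mul_assoc, trace_smul, ← Matrix.map_mul, AddMonoidHom.map_trace, smul_eq_mul]

lemma minpoly_eq {L F Ω H : Type} [Field L] [Field F] [Field Ω] [Algebra F Ω] [Group H] [Fintype H]
    [DecidableEq H] {N : ℕ} (ρ : H →* Matrix (Fin N) (Fin N) L) (hρ : Good ρ) (f : L →+* Ω) (v : H → F)
    (hV : (Matrix.of fun i k : Fin N => ((∑ h, algebraMap F Ω (v h) • (ρ h).map f) ^ (k : ℕ)) i i).det ≠ 0) :
    (minpoly F (∑ h, v h • MonoidAlgebra.single h (1 : F))).map (algebraMap F Ω) =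
      (∑ h, algebraMap F Ω (v h) • (ρ h).map f).charpoly := by
  set x := ∑ h, v h • MonoidAlgebra.single h (1 : F) with hx
  set M := ∑ h, algebraMap F Ω (v h) • (ρ h).map f with hM
  let Φ : MonoidAlgebra F H →ₐ[F] Matrix (Fin N) (Fin N) Ω :=
    MonoidAlgebra.lift F _ H ((f.mapMatrix (m := Fin N)).toMonoidHom.comp ρ)
  have Φc : ∀ w : H → F, Φ (∑ h, w h • MonoidAlgebra.single h (1 : F)) =
      ∑ h, algebraMap F Ω (w h) • (ρ h).map f := by
    intro w
    simp [Φ]
  have hint : IsIntegral F x := IsIntegral.of_finite F x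
  have hm := (minpoly.monic hint).map (algebraMap F Ω)
  have h0 : aeval M ((minpoly F x).map (algebraMap F Ω)) = 0 := by
    rw [aeval_map_algebraMap, hM, ← Φc, aeval_algHom_apply, minpoly.aeval, map_zero]
  have hd : M.charpoly ∣ (minpoly F x).map (algebraMap F Ω) := by
    rw [← modByMonic_eq_zero_iff_dvd M.charpoly_monic]
    refine zero_of_indep M hV _ ?_ ?_
    · have := degree_modByMonic_lt ((minpoly F x).map (algebraMap F Ω)) M.charpoly_monic
      rwa [charpoly_degree_eq_dim, Fintype.card_fin] at this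
    · rw [aeval_modByMonic_eq_self_of_root M.aeval_self_charpoly, h0]
  refine (eq_of_monic_of_dvd_of_natDegree_le M.charpoly_monic hm hd ?_)
  rw [natDegree_map]
  by_contra hlt
  rw [not_le] at hlt
  have l1 := linearIndependent_pow (K := F) x
  let cf : MonoidAlgebra F H →ₗ[F] (H → F) :=
    Finsupp.lcoeFun ∘ₗ (MonoidAlgebra.coeffLinearEquiv F).toLinearMap
  have cfd : ∀ z h, cf z h = z.coeff h := fun _ _ => rfl
  have l2 := l1.map' cf (LinearMap.ker_eq_bot.2 fun a b hab => by
    ext g
    exact congrFun hab g)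
  have l3 := (linearIndependent_algebraMap_comp_iff (S := Ω)).2 l2
  let Ψ : (H → Ω) →ₗ[Ω] Matrix (Fin N) (Fin N) Ω := Fintype.linearCombination Ω (fun h => (ρ h).map f)
  have l4 := l3.map' Ψ (LinearMap.ker_eq_bot'.2 fun u hu => gram_inj ρ hρ f u fun g => by
    rw [Fintype.linearCombination_apply] at hu
    rw [hu]
    simp)
  have e4 : ∀ i : Fin (minpoly F x).natDegree, (Ψ ∘ fun i : Fin (minpoly F x).natDegree =>
      algebraMap F Ω ∘ (cf ∘ fun i : Fin (minpoly F x).natDegree => x ^ (i : ℕ)) i) i = M ^ (i : ℕ) := by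
    intro i
    rw [hM, ← Φc, ← map_pow, ← hx, expand (x ^ (i : ℕ)), Φc]
    simp [Ψ, Fintype.linearCombination_apply, cfd]
  rw [Fintype.linearIndependent_iff] at l4
  have h5 := M.aeval_self_charpoly
  rw [aeval_eq_sum_range' hlt, Finset.sum_range] at h5
  have := l4 (fun i => M.charpoly.coeff i) (by simpa only [e4] using h5) ⟨_, hlt⟩
  exact M.charpoly_monic.ne_zero (leadingCoeff_eq_zero.1 this)

lemma series {L : Type} [CommRing L] {N : ℕ} (A B : Matrix (Fin N) (Fin N) L) :
    ∃ D : PowerSeries L, IsUnit D ∧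
      (det (1 - ((PowerSeries.X : PowerSeries L) • A.map PowerSeries.C).map C
        + (X : (PowerSeries L)[X]) • (B.map PowerSeries.C).map C)).coeff 0 = D ∧
      (det (1 - ((PowerSeries.X : PowerSeries L) • A.map PowerSeries.C).map C
        + (X : (PowerSeries L)[X]) • (B.map PowerSeries.C).map C)).coeff 1 =
        D * PowerSeries.mk fun k => trace (A ^ k * B) := by
  set U : Matrix (Fin N) (Fin N) (PowerSeries L) := 1 - (PowerSeries.X : PowerSeries L) • A.map PowerSeries.C
    with hU
  let W : Matrix (Fin N) (Fin N) (PowerSeries L) := Matrix.of fun i j => PowerSeries.mk fun k => (A ^ k) i j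
  have hW : U * W = 1 := by
    rw [hU, sub_mul, one_mul, smul_mul_assoc]
    ext i j k
    rcases k with _ | k
    · simp [W, one_apply]
    · simp [W, one_apply, mul_apply, pow_succ', PowerSeries.coeff_succ_X_mul]
      split_ifs <;> simp [PowerSeries.coeff_one]
  have e : 1 - ((PowerSeries.X : PowerSeries L) • A.map PowerSeries.C).map C
        + (X : (PowerSeries L)[X]) • (B.map PowerSeries.C).map C
      = U.map C * (1 + (X : (PowerSeries L)[X]) • (W * B.map PowerSeries.C).map C) := by
    rw [mul_add, mul_one, mul_smul_comm, ← Matrix.map_mul, ← mul_assoc, hW, one_mul, hU]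
    congr 1
    ext i j
    simp [one_apply]
  have e2 : (U.map C).det = C U.det := by
    have := (C : PowerSeries L →+* _).map_det U
    rw [RingHom.mapMatrix_apply] at this
    exact this.symm
  refine ⟨U.det, Matrix.isUnit_det_of_right_inverse hW, ?_, ?_⟩
  · rw [e, det_mul, e2, coeff_C_mul, det_one_add_X_smul]
    simp [pow_two, ← mul_assoc]
  · rw [e, det_mul, e2, coeff_C_mul, coeff_det_one_add_X_smul_one]
    congr 1
    ext k
    simp [W, trace, mul_apply]

end Pool.Agent.H50.GDet
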