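import Pool.Agent.H50.GDetA

set_option autoImplicit false

open Polynomial Matrix

namespace Pool.Agent.H50.GDet

lemma comm_of_sq {G : Type} [Group G] [Fintype G] (ho : Odd (Fintype.card G)) (a c : G)
    (h : Commute a (c * c)) : Commute a c := by
  obtain ⟨r, hr⟩ := ho
  have : c = (c * c) ^ (r + 1) := by
    rw [← pow_two, ← pow_mul, show 2 * (r + 1) = Fintype.card G + 1 by omega, pow_succ, pow_card_eq_one, one_mul]
  rw [this]
  exact h.pow_right _

lemma scott {G H : Type} [Group G] [Group H] [Fintype G] (ho : Odd (Fintype.card G)) (f : G ≃ H)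
    (h1 : ∀ a b, (f (a * b) = f a * f b ∧ f (b * a) = f b * f a) ∨ (f (a * b) = f b * f a ∧ f (b * a) = f a * f b))
    (h2 : ∀ a b, f (a * b * a) = f a * f b * f a) : Nonempty (G ≃* H) := by
  have one : f 1 = 1 := by
    have := h1 1 1
    simp only [mul_one, or_self, and_self] at this
    exact left_eq_mul.1 this
  have inv : ∀ a, f a⁻¹ = (f a)⁻¹ := by
    intro a
    rcases h1 a a⁻¹ with h | h
    · exact eq_inv_of_mul_eq_one_right (by rw [← h.1, mul_inv_cancel, one])
    · exact eq_inv_of_mul_eq_one_left (by rw [← h.1, mul_inv_cancel, one])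
  have cm : ∀ a b, a * b = b * a ↔ f a * f b = f b * f a := by
    intro a b
    constructor
    · intro h
      rcases h1 a b with e | e
      · rw [← e.1, ← e.2, h]
      · rw [← e.1, ← e.2, h]
    · intro h
      apply f.injective
      rcases h1 a b with e | e
      · rw [e.1, e.2, h]
      · rw [e.1, e.2, h]
  have h3 : ∀ a b, f (a * b) = f a * f b ∨ f (a * b) = f b * f a := fun a b => (h1 a b).imp And.left And.left
  have core : ∀ a b c, a * b ≠ b * a → a * c ≠ c * a → f (a * b) = f a * f b → f (b * a) = f b * f a →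
      f (a * c) = f c * f a → f (c * a) = f a * f c →
      (b * c = c * b ∧ a * (b * c) = b * c * a) ∨ (b * c ≠ c * b ∧ b * a * c = c * (a * b)) := by
    intro a b c nb nc e1 e2 e3 e4
    have nb' := fun h => nb ((cm a b).2 h)
    have nc' := fun h => nc ((cm a c).2 h)
    by_cases hbc : b * c = c * b
    · left
      refine ⟨hbc, (cm _ _).2 ?_⟩
      have hbc' := (cm b c).1 hbc
      have fbc : f (b * c) = f b * f c := by
        rcases h3 b c with e | e
        exacts [e, e.trans hbc'.symm]
      have x1 := h3 (a * b) c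
      have x2 := h3 (a * c) b
      have x3 := h3 a (b * c)
      rw [mul_assoc a c b, ← hbc] at x2
      rw [mul_assoc] at x1
      rw [e1] at x1
      rw [e3] at x2
      rw [fbc] at x3 ⊢
      rcases x3 with x3 | x3
      · rcases x2 with x2 | x2
        · exfalso
          apply nc'
          have : f a * f c * f b = f c * f a * f b := by rw [mul_assoc, ← hbc', ← x3, x2]
          exact mul_right_cancel this
        · rw [← x3, x2, mul_assoc]
      · rcases x1 with x1 | x1
        · rw [← x3, x1, mul_assoc]
        · exfalso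
          apply nb'
          have : f c * (f a * f b) = f c * (f b * f a) := by rw [← x1, x3, hbc', mul_assoc]
          exact mul_left_cancel this
    · right
      refine ⟨hbc, f.injective ?_⟩
      have hbc' := fun h => hbc ((cm b c).2 h)
      have x1 := h3 b (a * c)
      have x2 := h3 (b * a) c
      have x3 := h3 (c * a) b
      have x4 := h3 c (a * b)
      rw [← mul_assoc b a c, e3] at x1
      rw [e2] at x2
      rw [mul_assoc c a b, e4] at x3
      rw [e1] at x4
      have y1 : f (b * a * c) = f c * f a * f b ∧ f (b * a * c) = f b * f a * f c := by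
        rcases x1 with x1 | x1 <;> rcases x2 with x2 | x2
        · exact (nc' (mul_left_cancel (a := f b) (by rw [← x1, x2, mul_assoc]))).elim
        · exact (hbc' (mul_right_cancel (b := f a) (by rw [mul_assoc, ← x1, x2, mul_assoc]))).elim
        · exact ⟨x1, x2⟩
        · exact (nb' (mul_left_cancel (a := f c) (by rw [← x2, x1, mul_assoc]))).elim
      rcases x4 with x4 | x4
      · rw [x4, y1.1, mul_assoc]
      · rcases x3 with x3 | x3
        · exact (hbc' (mul_left_cancel (a := f a) (by rw [← mul_assoc, ← x4, x3, mul_assoc]))).elim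
        · rw [x3, y1.2, mul_assoc]
  have step : ∀ a b c, a * b ≠ b * a → a * c ≠ c * a → f (a * b) = f a * f b → f (a * c) = f a * f c := by
    intro a b c nb nc e1
    have nb' := fun h => nb ((cm a b).2 h)
    have e2 : f (b * a) = f b * f a := by
      rcases h1 a b with e | e
      · exact e.2
      · exact (nb' (e1.symm.trans e.1)).elim
    rcases h1 a c with e | e
    · exact e.1
    exfalso
    have nc2 : a * c⁻¹ ≠ c⁻¹ * a := fun h => nc (by simpa using (Commute.inv_right (a := a) (b := c⁻¹) h).eq)
    have e5 : f (a * c⁻¹) = f c⁻¹ * f a := by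
      have := h2 c⁻¹ (c * a)
      rw [inv_mul_cancel_left, e.2, inv c] at this
      rw [this, inv c]
      group
    have e6 : f (c⁻¹ * a) = f a * f c⁻¹ := by
      have := h2 c⁻¹ (a * c)
      rw [mul_assoc, mul_inv_cancel_right, e.1, inv c] at this
      rw [this, inv c]
      group
    rcases core a b c nb nc e1 e2 e.1 e.2 with ⟨p1, p2⟩ | ⟨p1, p2⟩ <;>
      rcases core a b c⁻¹ nb nc2 e1 e2 e5 e6 with ⟨q1, q2⟩ | ⟨q1, q2⟩
    · refine nc (comm_of_sq ho a c ?_).eq
      have := (Commute.inv_right (a := a) (b := b * c⁻¹) q2).mul_right (show Commute a (b * c) from p2)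
      rwa [show (b * c⁻¹)⁻¹ * (b * c) = c * c by group] at this
    · exact q1 (Commute.inv_right (a := b) (b := c) p1).eq
    · exact p1 (by simpa using (Commute.inv_right (a := b) (b := c⁻¹) q1).eq)
    · have : Commute (a * b) c := by
        refine comm_of_sq ho _ c ?_
        have r1 : b * a = c * (a * b) * c⁻¹ := by rw [← p2]; group
        have r2 : b * a = c⁻¹ * (a * b) * c := by rw [← q2]; group
        change a * b * (c * c) = c * c * (a * b)
        calc a * b * (c * c) = c * (c⁻¹ * (a * b) * c) * c := by group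
          _ = c * (c * (a * b) * c⁻¹) * c := by rw [← r2, ← r1]
          _ = c * c * (a * b) := by group
      exact nb (mul_right_cancel (b := c) (by rw [p2, this.eq]))
  by_cases hh : ∃ a b, a * b ≠ b * a ∧ f (a * b) = f a * f b
  · obtain ⟨a, b, nb, e⟩ := hh
    refine ⟨{ f with map_mul' := fun c d => ?_ }⟩
    change f (c * d) = f c * f d
    by_cases hcd : c * d = d * c
    · rcases h3 c d with x | x
      exacts [x, x.trans ((cm c d).1 hcd).symm]
    obtain ⟨x, xa, xc⟩ : ∃ x, a * x ≠ x * a ∧ c * x ≠ x * c := by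
      by_cases h4 : c * b = b * c
      · by_cases h5 : a * d = d * a
        · refine ⟨b * d, fun h => nb ?_, fun h => hcd ?_⟩
          · have := (show Commute a (b * d) from h).mul_right (Commute.inv_right (a := a) (b := d) h5)
            simpa using this.eq
          · have := (Commute.inv_right (a := c) (b := b) h4).mul_right (show Commute c (b * d) from h)
            simpa using this.eq
        · exact ⟨d, h5, hcd⟩
      · exact ⟨b, nb, h4⟩
    have sw : ∀ u w, u * w ≠ w * u → f (u * w) = f u * f w → f (w * u) = f w * f u := by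
      intro u w n1 e1
      rcases h1 u w with y | y
      · exact y.2
      · exact (n1 ((cm u w).2 (e1.symm.trans y.1))).elim
    have s1 := sw a x xa (step a b x nb xa e)
    have s2 := sw x c (Ne.symm xc) (step x a c (Ne.symm xa) (Ne.symm xc) s1)
    exact step c x d xc hcd s2
  · push Not at hh
    refine ⟨{ (Equiv.inv G).trans f with map_mul' := fun c d => ?_ }⟩
    change f (c * d)⁻¹ = f c⁻¹ * f d⁻¹
    rw [_root_.mul_inv_rev]
    rcases h3 d⁻¹ c⁻¹ with x | x
    · by_cases hcd : d⁻¹ * c⁻¹ = c⁻¹ * d⁻¹
      · exact x.trans ((cm _ _).1 hcd)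
      · exact (hh _ _ hcd x).elim
    · exact x

lemma jordan {L G H : Type} [Field L] [CharP L 2] [Infinite L] [Group G] [Group H] [Fintype G]
    (ho : Odd (Fintype.card G)) (f : G ≃ H)
    (hT : ∀ (z : MonoidAlgebra L G) (k : ℕ), MonoidAlgebra.mapDomainLinearMap L L f (z ^ k) =
      MonoidAlgebra.mapDomainLinearMap L L f z ^ k) :
    (∀ a b, (f (a * b) = f a * f b ∧ f (b * a) = f b * f a) ∨ (f (a * b) = f b * f a ∧ f (b * a) = f a * f b)) ∧
    ∀ a b, f (a * b * a) = f a * f b * f a := by
  classical
  set T := MonoidAlgebra.mapDomainLinearMap L L f with hTd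
  have sq : ∀ x y : MonoidAlgebra L G, T (x * y + y * x) = T x * T y + T y * T x := by
    intro x y
    have a1 := hT (x + y) 2
    have a2 := hT x 2
    have a3 := hT y 2
    have : (x + y) ^ 2 = x ^ 2 + (x * y + y * x) + y ^ 2 := by noncomm_ring
    rw [this, map_add, map_add, map_add T x y, a2, a3] at a1
    have e : (T x + T y) ^ 2 = T x ^ 2 + (T x * T y + T y * T x) + T y ^ 2 := by noncomm_ring
    rw [e] at a1
    exact add_left_cancel (add_right_cancel a1)
  obtain ⟨s, hs⟩ := Infinite.exists_notMem_finset ({0, 1} : Finset L)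
  simp only [Finset.mem_insert, Finset.mem_singleton, not_or] at hs
  have two : (1 : L) + 1 = 0 := by
    have := CharP.cast_eq_zero L 2
    rw [Nat.cast_ofNat] at this
    rw [← this]; norm_num
  have cube : ∀ (t : L) (x y : MonoidAlgebra L G), t ≠ 0 → t • T (x * y * x) + T (y * x * y) =
      t • (T x * T y * T x) + T y * T x * T y := by
    intro t x y ht
    have a1 := hT (t • x + y) 3
    have ex : ∀ (A : Type) [Ring A] [Algebra L A] (x y : A), (t • x + y) ^ 3 = (t * t * t) • x ^ 3 + y ^ 3
        + (t * t) • (x ^ 2 * y + y * x ^ 2) + t • (x * y ^ 2 + y ^ 2 * x) + t • (t • (x * y * x) + y * x * y) := by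
      intro A _ _ x y
      simp only [pow_succ, pow_zero, one_mul, add_mul, mul_add, smul_mul_assoc, mul_smul_comm, smul_add, smul_smul,
        mul_assoc]
      abel
    rw [map_add T (t • x) y, map_smul, ex, ex] at a1
    simp only [map_add T ((t * t * t) • x ^ 3 + y ^ 3 + (t * t) • (x ^ 2 * y + y * x ^ 2) + t • (x * y ^ 2 + y ^ 2 * x)),
      map_add T ((t * t * t) • x ^ 3 + y ^ 3 + (t * t) • (x ^ 2 * y + y * x ^ 2)),
      map_add T ((t * t * t) • x ^ 3 + y ^ 3), map_add T ((t * t * t) • x ^ 3), map_smul, sq, hT] at a1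
    have := smul_right_injective _ ht (add_left_cancel a1)
    simpa only [map_add, map_smul] using this
  have Ts : ∀ g, T (MonoidAlgebra.single g 1) = MonoidAlgebra.single (f g) 1 :=
    fun g => MonoidAlgebra.mapDomainLinearMap_single _ _ _
  have semi : ∀ a b, f (a * b * a) = f a * f b * f a := by
    intro a b
    have h := cube s (MonoidAlgebra.single a 1) (MonoidAlgebra.single b 1) hs.1
    simp only [MonoidAlgebra.single_mul_single, mul_one, Ts] at h
    by_contra hne
    have := congrArg (fun z : MonoidAlgebra L H => z.coeff (f (a * b * a))) h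
    simp only [MonoidAlgebra.coeff_add, MonoidAlgebra.coeff_smul, MonoidAlgebra.coeff_single, Finsupp.add_apply,
      Finsupp.smul_apply, Finsupp.single_apply, if_true, smul_eq_mul, mul_one, if_neg (Ne.symm hne), mul_zero,
      zero_add] at this
    split_ifs at this
    · exact hs.1 (by linear_combination this)
    · exact hs.2 (by linear_combination this - two)
    · exact hs.2 (by linear_combination this)
    · exact hs.1 (by linear_combination this)
  have ev0 : ∀ (a b : G) (w : H), (if f (a * b) = w then (1 : L) else 0) + (if f (b * a) = w then 1 else 0) =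
      (if f a * f b = w then 1 else 0) + (if f b * f a = w then 1 else 0) := by
    intro a b w
    have h := sq (MonoidAlgebra.single a 1) (MonoidAlgebra.single b 1)
    simp only [MonoidAlgebra.single_mul_single, mul_one, Ts, map_add] at h
    have := congrArg (fun z : MonoidAlgebra L H => z.coeff w) h
    simpa only [MonoidAlgebra.coeff_add, MonoidAlgebra.coeff_single, Finsupp.add_apply, Finsupp.single_apply] using this
  have cmm : ∀ a b : G, a * b = b * a → f a * f b = f b * f a := by
    intro a b hab
    by_contra hne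
    have := ev0 a b (f a * f b)
    rw [← hab, if_pos rfl, if_neg (Ne.symm hne)] at this
    split_ifs at this
    · exact one_ne_zero (α := L) (by linear_combination two - this)
    · exact one_ne_zero (α := L) (by linear_combination -this)
  have one : f 1 = 1 := by
    have h := hT 1 0
    rw [pow_zero, pow_zero, MonoidAlgebra.one_def, MonoidAlgebra.one_def, Ts] at h
    by_contra hne
    have := congrArg (fun z : MonoidAlgebra L H => z.coeff 1) h
    simp [Finsupp.single_apply, hne] at this
  refine ⟨fun a b => ?_, semi⟩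
  have ev := ev0 a b
  by_cases hab : a * b = b * a
  · obtain ⟨k, hk⟩ := ho
    have hr : a ^ (k + 1) * a ^ (k + 1) = a := by
      rw [← pow_add, show k + 1 + (k + 1) = Fintype.card G + 1 by omega, pow_succ, pow_card_eq_one, one_mul]
    have hc : a ^ (k + 1) * b = b * a ^ (k + 1) := (Commute.pow_left hab _).eq
    have e1 := semi (a ^ (k + 1)) b
    have e2 := semi (a ^ (k + 1)) 1
    rw [mul_one, one, mul_one, hr] at e2
    rw [mul_assoc, ← hc, ← mul_assoc, hr, mul_assoc, ← cmm _ _ hc, ← mul_assoc, ← e2] at e1
    exact Or.inl ⟨e1, by rw [← hab, e1, cmm a b hab]⟩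
  · have n1 : f (b * a) ≠ f (a * b) := fun e => hab (f.injective e).symm
    have v1 := ev (f (a * b))
    have v2 := ev (f (b * a))
    rw [if_pos rfl, if_neg n1] at v1
    rw [if_pos rfl, if_neg n1.symm] at v2
    by_cases c1 : f a * f b = f (a * b)
    · left
      refine ⟨c1.symm, ?_⟩
      by_contra c2
      rw [if_neg (fun e => n1 (e.symm.trans c1)), if_neg (Ne.symm c2)] at v2
      simp at v2
    · right
      have c2 : f b * f a = f (a * b) := by
        by_contra c2
        rw [if_neg c1, if_neg c2] at v1
        simp at v1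
      refine ⟨c2.symm, ?_⟩
      by_contra c3
      rw [if_neg (Ne.symm c3), if_neg (fun e => n1 (e.symm.trans c2))] at v2
      simp at v2

lemma powers {L G H : Type} [Field L] [Group G] [Group H] [Fintype G] [Fintype H] [DecidableEq G] [DecidableEq H]
    {N M : ℕ} (ρ : G →* Matrix (Fin N) (Fin N) L) (σ : H →* Matrix (Fin M) (Fin M) L) (hσ : Good σ) (f : G ≃ H)
    (h : (∑ g, (MvPolynomial.X g : MvPolynomial G L) • (ρ g).map (MvPolynomial.C : L →+* MvPolynomial G L)).charpoly =
      (∑ g, (MvPolynomial.X g : MvPolynomial G L) • (σ (f g)).map (MvPolynomial.C : L →+* MvPolynomial G L)).charpoly)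
    (z : MonoidAlgebra L G) (k : ℕ) : MonoidAlgebra.mapDomainLinearMap L L f (z ^ k) =
      MonoidAlgebra.mapDomainLinearMap L L f z ^ k := by
  set T := MonoidAlgebra.mapDomainLinearMap L L f with hTd
  have tr : ∀ (a b : G → L) (k : ℕ), trace ((∑ g, a g • ρ g) ^ k * ∑ g, b g • ρ g) =
      trace ((∑ g, a g • σ (f g)) ^ k * ∑ g, b g • σ (f g)) := by
    intro a b k
    let ev : MvPolynomial G L →+* (PowerSeries L)[X] := MvPolynomial.eval₂Hom (C.comp PowerSeries.C)
      (fun g => C (PowerSeries.X * PowerSeries.C (a g)) - X * C (PowerSeries.C (b g)))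
    have key : ∀ {n : ℕ} (τ : G → Matrix (Fin n) (Fin n) L),
        eval 1 ((∑ g, (MvPolynomial.X g : MvPolynomial G L) • (τ g).map (MvPolynomial.C : L →+* MvPolynomial G L)).charpoly.map ev) =
        det (1 - ((PowerSeries.X : PowerSeries L) • (∑ g, a g • τ g).map PowerSeries.C).map C
          + (X : (PowerSeries L)[X]) • ((∑ g, b g • τ g).map PowerSeries.C).map C) := by
      intro n τ
      rw [← charpoly_map, eval_charpoly]
      congr 1
      refine Matrix.ext fun i j => ?_
      simp only [ev, Matrix.sub_apply, Matrix.add_apply, Matrix.smul_apply, Matrix.map_apply, Matrix.sum_apply, map_sum, smul_eq_mul, map_mul,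
        MvPolynomial.eval₂Hom_X', MvPolynomial.eval₂Hom_C, RingHom.comp_apply, map_one, Finset.mul_sum]
      rw [sub_add, ← Finset.sum_sub_distrib]
      congr 1
      refine Finset.sum_congr rfl fun g _ => ?_
      ring
    have e := congrArg (fun p => eval 1 (p.map ev)) h
    simp only [key] at e
    obtain ⟨D1, u1, a1, b1⟩ := series (∑ g, a g • ρ g) (∑ g, b g • ρ g)
    obtain ⟨D2, -, a2, b2⟩ := series (∑ g, a g • σ (f g)) (∑ g, b g • σ (f g))
    rw [e] at a1 b1
    rw [b2, ← a2, a1] at b1
    have := congrArg (PowerSeries.coeff k) (u1.mul_left_cancel b1)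
    simpa only [PowerSeries.coeff_mk] using this.symm
  let P := MonoidAlgebra.lift L _ G ρ
  let Q := MonoidAlgebra.lift L _ H σ
  have Pz : ∀ z, P z = ∑ g, z.coeff g • ρ g := by
    intro z
    conv_lhs => rw [expand z]
    simp [P]
  have Qz : ∀ z, Q z = ∑ g, z.coeff g • σ g := by
    intro z
    conv_lhs => rw [expand z]
    simp [Q]
  have QT : ∀ z, Q (T z) = ∑ g, z.coeff g • σ (f g) := by
    intro z
    conv_lhs => rw [expand z]
    simp [Q, hTd, MonoidAlgebra.mapDomainLinearMap_single, -MonoidAlgebra.smul_single]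
  have h0 : (fun g => (T (z ^ k) - T z ^ k).coeff g) = 0 := by
    refine gram_inj σ hσ (RingHom.id L) _ fun g => ?_
    have t1 := tr (fun g => z.coeff g) (Pi.single (f.symm g) 1) k
    have t2 := tr (fun g => (z ^ k).coeff g) (Pi.single (f.symm g) 1) 1
    rw [← Pz, ← QT] at t1 t2
    rw [pow_one, pow_one, map_pow, t1] at t2
    simp only [RingHom.coe_id, Matrix.map_id]
    rw [← Qz, map_sub, map_pow Q, sub_mul, trace_sub]
    simp only [Pi.single_apply, ite_smul, one_smul, zero_smul, Finset.sum_ite_eq', Finset.mem_univ, if_true,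
      Equiv.apply_symm_apply] at t2
    rw [t2, sub_self]
  rw [← sub_eq_zero]
  ext g
  exact congrFun h0 g

lemma vdm {L Ω G H : Type} [Field L] [Field Ω] [Group H] [Fintype G] [Fintype H] [DecidableEq H] {M : ℕ}
    (σ : H →* Matrix (Fin M) (Fin M) L) (hσ : Good σ) (f : G ≃ H) (ψ : MvPolynomial G L →+* Ω)
    (hψ : Function.Injective ψ) :
    (Matrix.of fun i k : Fin M => ((∑ h, ψ (MvPolynomial.X (f.symm h)) •
      (σ h).map (ψ.comp MvPolynomial.C)) ^ (k : ℕ)) i i).det ≠ 0 := by
  obtain ⟨c, δ, hδ, hc⟩ := hσ.2
  have key : ∀ {S : Type} [CommRing S] (φ : MvPolynomial G L →+* S),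
      φ (Matrix.of fun i k : Fin M => ((∑ h, (MvPolynomial.X (f.symm h) : MvPolynomial G L) •
        (σ h).map MvPolynomial.C) ^ (k : ℕ)) i i).det =
      (Matrix.of fun i k : Fin M => ((∑ h, φ (MvPolynomial.X (f.symm h)) •
        (σ h).map (φ.comp MvPolynomial.C)) ^ (k : ℕ)) i i).det := by
    intro S _ φ
    rw [φ.map_det]
    congr 1
    ext i k
    have : (∑ h, φ (MvPolynomial.X (f.symm h)) • (σ h).map (φ.comp MvPolynomial.C)) =
        φ.mapMatrix (∑ h, (MvPolynomial.X (f.symm h) : MvPolynomial G L) • (σ h).map MvPolynomial.C) := by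
      ext a b
      simp [Matrix.sum_apply]
    rw [of_apply, this, ← map_pow]
    rfl
  rw [← key, map_ne_zero_iff ψ hψ]
  intro h0
  have := key (MvPolynomial.eval fun g => c (f g))
  rw [h0, map_zero] at this
  apply (det_vandermonde_ne_zero_iff.2 hδ)
  rw [this]
  congr 1
  ext i k
  have e : (∑ h, MvPolynomial.eval (fun g => c (f g)) (MvPolynomial.X (f.symm h)) •
      (σ h).map ((MvPolynomial.eval fun g => c (f g)).comp MvPolynomial.C)) = diagonal δ := by
    rw [← hc]
    ext a b
    simp [Matrix.sum_apply]
  rw [of_apply, e, diagonal_pow]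
  simp

lemma poly_eq {F : Type} [Field F] (p q : F[X]) (hp : p.Monic) (hq : q.Monic) (hd : p.natDegree = q.natDegree)
    (hc : ∀ j, 1 ≤ j → j < p.natDegree → p.coeff j = q.coeff j) (s : F) (h1 : aeval s p = 0) (h2 : aeval s q = 0) :
    p = q := by
  have e : p - q = C ((p - q).coeff 0) := by
    ext j
    rcases j with _ | j
    · simp
    · rw [coeff_C_succ, coeff_sub, sub_eq_zero]
      rcases lt_trichotomy (j + 1) p.natDegree with h | h | h
      · exact hc _ (by omega) h
      · rw [h, hp.coeff_natDegree, hd, hq.coeff_natDegree]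
      · rw [coeff_eq_zero_of_natDegree_lt h, coeff_eq_zero_of_natDegree_lt (hd ▸ h)]
  have : aeval s (p - q) = 0 := by rw [map_sub, h1, h2, sub_self]
  rw [e, aeval_C] at this
  rw [← sub_eq_zero, e, show (p - q).coeff 0 = 0 from this, C_0]

lemma aug {F H : Type} [Field F] [Group H] {G : Type} [Fintype G] (v : G → F) (f : G → H) :
    aeval (∑ g, v g) (minpoly F (∑ g, v g • MonoidAlgebra.single (f g) (1 : F))) = 0 := by
  let ε : MonoidAlgebra F H →ₐ[F] F := MonoidAlgebra.lift F F H 1
  have : ∑ g, v g = ε (∑ g, v g • MonoidAlgebra.single (f g) (1 : F)) := by simp [ε]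
  rw [this, aeval_algHom_apply, minpoly.aeval, map_zero]

theorem main (K : Type) [Field K] [CharP K 2] (G H : Type) [Group G] [Group H] [Fintype G] [Fintype H]
    (ho : Odd (Fintype.card G)) (hc : Fintype.card G = Fintype.card H) (f : G ≃ H)
    (h : minpoly (FractionRing (MvPolynomial G K))
            (∑ g : G, (algebraMap (MvPolynomial G K) (FractionRing (MvPolynomial G K)) (MvPolynomial.X g)) •
              MonoidAlgebra.single g (1 : FractionRing (MvPolynomial G K))) =
          minpoly (FractionRing (MvPolynomial G K))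
            (∑ g : G, (algebraMap (MvPolynomial G K) (FractionRing (MvPolynomial G K)) (MvPolynomial.X g)) •
              MonoidAlgebra.single (f g) (1 : FractionRing (MvPolynomial G K)))) : Nonempty (G ≃* H) := by
  classical
  let L := AlgebraicClosure K
  have nz : ((Fintype.card G : ℕ) : L) ≠ 0 := by
    rw [Ne, CharP.cast_eq_zero_iff L 2]
    exact ho.not_two_dvd_nat
  have : NeZero (Nat.card G : L) := ⟨by rwa [Nat.card_eq_fintype_card]⟩
  have : NeZero (Nat.card H : L) := ⟨by rwa [Nat.card_eq_fintype_card, ← hc]⟩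
  obtain ⟨N, ρ, hρ⟩ := exists_good L G
  obtain ⟨M, σ, hσ⟩ := exists_good L H
  let Ω := FractionRing (MvPolynomial G L)
  let ψ : MvPolynomial G L →+* Ω := algebraMap _ _
  have hψ : Function.Injective ψ := IsFractionRing.injective _ _
  have hj : Function.Injective (ψ.comp (MvPolynomial.map (σ := G) (algebraMap K L))) :=
    hψ.comp (MvPolynomial.map_injective _ (algebraMap K L).injective)
  let j : FractionRing (MvPolynomial G K) →+* Ω := IsFractionRing.lift hj
  let _ : Algebra (FractionRing (MvPolynomial G K)) Ω := j.toAlgebra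
  have jx : ∀ g, algebraMap (FractionRing (MvPolynomial G K)) Ω
      (algebraMap (MvPolynomial G K) (FractionRing (MvPolynomial G K)) (MvPolynomial.X g)) = ψ (MvPolynomial.X g) := by
    intro g
    change j _ = _
    simp [j]
  have m1 := minpoly_eq ρ hρ (ψ.comp MvPolynomial.C)
    (fun g => algebraMap (MvPolynomial G K) (FractionRing (MvPolynomial G K)) (MvPolynomial.X g))
    (by simpa only [jx, Equiv.refl_symm, Equiv.refl_apply] using vdm ρ hρ (Equiv.refl G) ψ hψ)
  have m2 := minpoly_eq σ hσ (ψ.comp MvPolynomial.C)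
    (fun g => algebraMap (MvPolynomial G K) (FractionRing (MvPolynomial G K)) (MvPolynomial.X (f.symm g)))
    (by simpa only [jx] using vdm σ hσ f ψ hψ)
  rw [← f.sum_comp, ← f.sum_comp] at m2
  simp only [Equiv.symm_apply_apply, jx] at m1 m2
  rw [h, m2] at m1
  have cm : ∀ {n : ℕ} (τ : G → Matrix (Fin n) (Fin n) L),
      (∑ g, ψ (MvPolynomial.X g) • (τ g).map (ψ.comp MvPolynomial.C)).charpoly =
      (∑ g, (MvPolynomial.X g : MvPolynomial G L) • (τ g).map (MvPolynomial.C : L →+* MvPolynomial G L)).charpoly.map ψ := by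
    intro n τ
    rw [← charpoly_map]
    congr 1
    ext a b
    simp [Matrix.sum_apply]
  rw [cm, cm] at m1
  have hT := powers ρ σ hσ f (Polynomial.map_injective ψ hψ m1).symm
  obtain ⟨j1, j2⟩ := jordan ho f hT
  exact scott ho f j1 j2

end Pool.Agent.H50.GDet
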