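import Mathlib

namespace Pool.Agent.H50.HM

open Matrix

abbrev T2 := Fin 2 → Fin 2 → Fin 2 → Fin 2 → ℂ

def iH (a : T2) : ℂ :=
  a 0 0 0 0 * a 1 1 1 1 - a 0 0 0 1 * a 1 1 1 0 - a 0 0 1 0 * a 1 1 0 1 + a 0 0 1 1 * a 1 1 0 0
    - a 0 1 0 0 * a 1 0 1 1 + a 0 1 0 1 * a 1 0 1 0 + a 0 1 1 0 * a 1 0 0 1 - a 0 1 1 1 * a 1 0 0 0

def d4 (a b c d e f g h i j k l m n o p : ℂ) : ℂ :=
  a * (f * (k * p - l * o) - g * (j * p - l * n) + h * (j * o - k * n))
  - b * (e * (k * p - l * o) - g * (i * p - l * m) + h * (i * o - k * m))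
  + c * (e * (j * p - l * n) - f * (i * p - l * m) + h * (i * n - j * m))
  - d * (e * (j * o - k * n) - f * (i * o - k * m) + g * (i * n - j * m))

def iL (a : T2) : ℂ :=
  d4 (a 0 0 0 0) (a 0 1 0 0) (a 1 0 0 0) (a 1 1 0 0) (a 0 0 0 1) (a 0 1 0 1) (a 1 0 0 1) (a 1 1 0 1)
    (a 0 0 1 0) (a 0 1 1 0) (a 1 0 1 0) (a 1 1 1 0) (a 0 0 1 1) (a 0 1 1 1) (a 1 0 1 1) (a 1 1 1 1)

def iM (a : T2) : ℂ :=
  d4 (a 0 0 0 0) (a 1 0 0 0) (a 0 0 1 0) (a 1 0 1 0) (a 0 0 0 1) (a 1 0 0 1) (a 0 0 1 1) (a 1 0 1 1)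
    (a 0 1 0 0) (a 1 1 0 0) (a 0 1 1 0) (a 1 1 1 0) (a 0 1 0 1) (a 1 1 0 1) (a 0 1 1 1) (a 1 1 1 1)

def a1 (m : Fin 2 → Fin 2 → ℂ) (Y : T2) : T2 := fun i j k l => m i 0 * Y 0 j k l + m i 1 * Y 1 j k l
def a2 (m : Fin 2 → Fin 2 → ℂ) (Y : T2) : T2 := fun i j k l => m j 0 * Y i 0 k l + m j 1 * Y i 1 k l
def a3 (m : Fin 2 → Fin 2 → ℂ) (Y : T2) : T2 := fun i j k l => m k 0 * Y i j 0 l + m k 1 * Y i j 1 l
def dt (m : Fin 2 → Fin 2 → ℂ) : ℂ := m 0 0 * m 1 1 - m 0 1 * m 1 0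

lemma inv1 (m : Fin 2 → Fin 2 → ℂ) (Y : T2) :
    iH (a1 m Y) = dt m * iH Y ∧ iL (a1 m Y) = dt m ^ 2 * iL Y ∧ iM (a1 m Y) = dt m ^ 2 * iM Y := by
  simp only [iH, iL, iM, d4, a1, dt]
  refine ⟨by ring, by ring, by ring⟩

lemma inv2 (m : Fin 2 → Fin 2 → ℂ) (Y : T2) :
    iH (a2 m Y) = dt m * iH Y ∧ iL (a2 m Y) = dt m ^ 2 * iL Y ∧ iM (a2 m Y) = dt m ^ 2 * iM Y := by
  simp only [iH, iL, iM, d4, a2, dt]
  refine ⟨by ring, by ring, by ring⟩

lemma inv3 (m : Fin 2 → Fin 2 → ℂ) (Y : T2) :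
    iH (a3 m Y) = dt m * iH Y ∧ iL (a3 m Y) = dt m ^ 2 * iL Y ∧ iM (a3 m Y) = dt m ^ 2 * iM Y := by
  simp only [iH, iL, iM, d4, a3, dt]
  refine ⟨by ring, by ring, by ring⟩

def YY (B : Fin 2 → Fin 3 → ℂ) : T2 := fun a b c l =>
  ![![![0, B l 1], ![B l 2, B l 0]], ![![-B l 1, B l 2], ![-B l 0 - B l 1, B l 2]]] a b c

def p1 (B : Fin 2 → Fin 3 → ℂ) : ℂ := B 0 1 * B 1 2 - B 0 2 * B 1 1
def p2 (B : Fin 2 → Fin 3 → ℂ) : ℂ := B 0 2 * B 1 0 - B 0 0 * B 1 2
def p3 (B : Fin 2 → Fin 3 → ℂ) : ℂ := B 0 0 * B 1 1 - B 0 1 * B 1 0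

lemma invY (B : Fin 2 → Fin 3 → ℂ) :
    iH (YY B) = -2 * p3 B ∧ iL (YY B) = p3 B ^ 2 + p1 B * p2 B ∧ iM (YY B) = p1 B ^ 2 := by
  simp only [iH, iL, iM, d4, YY, p1, p2, p3, cons_val_zero, cons_val_one]
  refine ⟨by ring, by ring, by ring⟩

/-- characters -/
noncomputable def chi (k : ℤ) : ℂˣ → ℂ := fun t => (t : ℂ) ^ k

noncomputable def LP : Submodule ℂ (ℂˣ → ℂ) := Submodule.span ℂ (Set.range chi)

lemma chi_li : LinearIndependent ℂ chi := by
  let c : ℤ → (ℂˣ →* ℂ) := fun k => (Units.coeHom ℂ).comp (zpowGroupHom k)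
  have hc : Function.Injective c := by
    intro k l h
    have := DFunLike.congr_fun h (Units.mk0 2 two_ne_zero)
    simp only [c, MonoidHom.comp_apply, zpowGroupHom_apply, Units.coeHom_apply, Units.val_zpow_eq_zpow_val,
      Units.val_mk0] at this
    have h2 := congrArg norm this
    simp only [norm_zpow, Complex.norm_ofNat] at h2
    exact zpow_right_injective₀ (by norm_num) (by norm_num) h2
  have := (linearIndependent_monoidHom ℂˣ ℂ).comp c hc
  have e : chi = (fun f : ℂˣ →* ℂ => (f : ℂˣ → ℂ)) ∘ c := by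
    funext k t
    simp [c, chi]
  rw [e]
  exact this

lemma exists_ct : ∃ φ : (ℂˣ → ℂ) →ₗ[ℂ] ℂ, φ (fun _ => 1) = 1 ∧
    ∀ f ∈ LP, ∀ s : ℂˣ, φ (fun t => f (s * t)) = φ f := by
  obtain ⟨g, hg⟩ := LinearMap.exists_leftInverse_of_injective (Finsupp.linearCombination ℂ chi)
    (LinearMap.ker_eq_bot.2 chi_li)
  have h : ∀ k, g (chi k) = Finsupp.single k 1 := fun k => by
    have := LinearMap.congr_fun hg (Finsupp.single k 1)
    simpa using this
  refine ⟨Finsupp.lapply 0 ∘ₗ g, ?_, fun f hf s => ?_⟩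
  · have : (fun _ => 1) = chi 0 := by funext t; simp [chi]
    simp [this, h]
  · induction hf using Submodule.span_induction with
    | mem x hx =>
      obtain ⟨k, rfl⟩ := hx
      have : (fun t => chi k (s * t)) = ((s : ℂ) ^ k) • chi k := by
        funext t; simp [chi, mul_zpow]
      rw [this, map_smul]
      by_cases hk : k = 0
      · simp [hk]
      · simp [h, hk]
    | zero => rfl
    | add x y _ _ hx hy =>
      have : (fun t => (x + y) (s * t)) = (fun t => x (s * t)) + fun t => y (s * t) := rfl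
      rw [this, map_add, map_add, hx, hy]
    | smul a x _ hx =>
      have : (fun t => (a • x) (s * t)) = a • (fun t => x (s * t)) := rfl
      rw [this, map_smul, map_smul, hx]

lemma LP_mul {f g : ℂˣ → ℂ} (hf : f ∈ LP) (hg : g ∈ LP) : f * g ∈ LP := by
  induction hf using Submodule.span_induction with
  | mem x hx =>
    obtain ⟨k, rfl⟩ := hx
    induction hg using Submodule.span_induction with
    | mem y hy =>
      obtain ⟨l, rfl⟩ := hy
      refine Submodule.subset_span ⟨k + l, ?_⟩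
      funext t; simp [chi, zpow_add₀]
    | zero => simp
    | add x y _ _ hx hy => rw [mul_add]; exact add_mem hx hy
    | smul a x _ hx => rw [mul_smul_comm]; exact Submodule.smul_mem _ _ hx
  | zero => simp
  | add x y _ _ hx hy => rw [add_mul]; exact add_mem hx hy
  | smul a x _ hx => rw [smul_mul_assoc]; exact Submodule.smul_mem _ _ hx

lemma LP_inv {f : ℂˣ → ℂ} (hf : f ∈ LP) : (fun t => f t⁻¹) ∈ LP := by
  induction hf using Submodule.span_induction with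
  | mem x hx =>
    obtain ⟨k, rfl⟩ := hx
    refine Submodule.subset_span ⟨-k, ?_⟩
    funext t; simp [chi]
  | zero => exact zero_mem _
  | add x y _ _ hx hy => exact add_mem hx hy
  | smul a x _ hx => exact Submodule.smul_mem _ a hx

lemma LP_const (c : ℂ) : (fun _ => c) ∈ LP := by
  have : (fun _ => c) = c • chi 0 := by funext t; simp [chi]
  rw [this]
  exact Submodule.smul_mem _ _ (Submodule.subset_span ⟨0, rfl⟩)

def IsL (F : ℂˣ → Matrix (Fin 3) (Fin 3) ℂ) : Prop := ∀ i j, (fun t => F t i j) ∈ LP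

lemma IsL.mul {F G : ℂˣ → Matrix (Fin 3) (Fin 3) ℂ} (hF : IsL F) (hG : IsL G) :
    IsL fun t => F t * G t := fun i j => by
  have : (fun t => (F t * G t) i j) = ∑ k, (fun t => F t i k) * fun t => G t k j := by
    funext t; simp [Matrix.mul_apply]
  rw [this]
  exact Submodule.sum_mem _ fun k _ => LP_mul (hF i k) (hG k j)

/-- an equivariant projection onto the invariant plane -/
lemma exists_proj (μ : ℂˣ → Matrix (Fin 3) (Fin 3) ℂ) (h1 : μ 1 = 1)
    (hm : ∀ s t, μ (s * t) = μ s * μ t) (hL : IsL μ) (h0 : ∀ t, μ t 2 0 = 0 ∧ μ t 2 1 = 0) :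
    ∃ π : Matrix (Fin 3) (Fin 3) ℂ, (∀ s, π * μ s = μ s * π) ∧ (∀ j, π 2 j = 0) ∧
      π 0 0 = 1 ∧ π 0 1 = 0 ∧ π 1 0 = 0 ∧ π 1 1 = 1 := by
  obtain ⟨φ, hφ1, hφ⟩ := exists_ct
  let P : Matrix (Fin 3) (Fin 3) ℂ := diagonal ![1, 1, 0]
  let F : ℂˣ → Matrix (Fin 3) (Fin 3) ℂ := fun t => μ t * P * μ t⁻¹
  have hP : IsL fun _ => P := fun i j => LP_const (P i j)
  have hI : IsL fun t => μ t⁻¹ := fun i j => LP_inv (f := fun t => μ t i j) (hL i j)
  have hF : IsL F := IsL.mul (F := fun t => μ t * P) (G := fun t => μ t⁻¹)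
    (IsL.mul (F := μ) (G := fun _ => P) hL hP) hI
  have hc : ∀ c : ℂ, φ (fun _ => c) = c := fun c => by
    have : (fun _ : ℂˣ => c) = c • fun _ => (1 : ℂ) := by funext t; simp
    rw [this, map_smul, hφ1, smul_eq_mul, mul_one]
  have hi : ∀ t, μ t * μ t⁻¹ = 1 := fun t => by rw [← hm, mul_inv_cancel, h1]
  have hE : ∀ t i, F t i 0 = (1 : Matrix (Fin 3) (Fin 3) ℂ) i 0 ∧
      F t i 1 = (1 : Matrix (Fin 3) (Fin 3) ℂ) i 1 := fun t i => by
    rw [← hi t]
    simp only [F, P, Matrix.mul_assoc, Matrix.mul_apply (M := μ t), diagonal_mul, Fin.sum_univ_three,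
      (h0 _).1, (h0 _).2]
    simp
  refine ⟨of fun i j => φ fun t => F t i j, fun s => ?_, fun j => ?_, ?_, ?_, ?_, ?_⟩
  · ext i j
    have e : ∀ t, F (s * t) * μ s = μ s * F t := fun t => by
      have : μ (s * t)⁻¹ * μ s = μ t⁻¹ := by
        rw [← hm, _root_.mul_inv_rev, inv_mul_cancel_right]
      simp only [F]
      rw [Matrix.mul_assoc _ (μ (s * t)⁻¹), this, hm s t]
      simp only [Matrix.mul_assoc]
    have e1 : (fun t => (F (s * t) * μ s) i j) = ∑ k, μ s k j • fun t => F (s * t) i k := by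
      funext t
      simp only [Matrix.mul_apply, Finset.sum_apply, Pi.smul_apply, smul_eq_mul]
      exact Finset.sum_congr rfl fun k _ => mul_comm _ _
    have e2 : (fun t => (μ s * F t) i j) = ∑ k, μ s i k • fun t => F t k j := by
      funext t
      simp only [Matrix.mul_apply, Finset.sum_apply, Pi.smul_apply, smul_eq_mul]
    have e3 : φ (fun t => (F (s * t) * μ s) i j) = φ (fun t => (μ s * F t) i j) := by simp only [e]
    rw [e1, e2, map_sum, map_sum] at e3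
    simp only [Matrix.mul_apply, of_apply]
    refine Eq.trans (Finset.sum_congr rfl fun k _ => ?_) (e3.trans (Finset.sum_congr rfl fun k _ => ?_))
    · rw [map_smul, hφ _ (hF i k) s, smul_eq_mul, mul_comm]
    · rw [map_smul, smul_eq_mul]
  · have : (fun t => F t 2 j) = fun _ => 0 := by
      funext t
      simp only [F, P, Matrix.mul_assoc, Matrix.mul_apply (M := μ t), diagonal_mul, Fin.sum_univ_three,
        (h0 _).1, (h0 _).2]
      simp
    simp only [of_apply, this, hc]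
  · simp only [of_apply, (hE _ _).1, hc, one_apply_eq]
  · simp only [of_apply, (hE _ _).2, hc]; simp
  · simp only [of_apply, (hE _ _).1, hc]; simp
  · simp only [of_apply, (hE _ _).2, hc, one_apply_eq]

end Pool.Agent.H50.HM
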