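import Mathlib
import Pool.Agent.H50.HM1

namespace Pool.Agent.H50.HM

open Matrix Filter Topology

noncomputable def act {d n : ℕ} (g : Fin d → Matrix (Fin n) (Fin n) ℂ) (T : (Fin d → Fin n) → ℂ) :
    (Fin d → Fin n) → ℂ := fun i => ∑ j, (∏ k, g k (i k) (j k)) * T j

noncomputable def unit (d n r : ℕ) : (Fin d → Fin n) → ℂ :=
  ∑ a : Fin n with a.val < r, Pi.single (fun _ => a) 1

variable {d n : ℕ}

lemma act_mul (g h : Fin d → Matrix (Fin n) (Fin n) ℂ) (T : (Fin d → Fin n) → ℂ) :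
    act (g * h) T = act g (act h T) := by
  funext i
  simp only [act, Pi.mul_apply, Matrix.mul_apply, Finset.prod_univ_sum, Fintype.piFinset_univ,
    Finset.sum_mul, Finset.mul_sum, Finset.prod_mul_distrib, mul_assoc]
  exact Finset.sum_comm

lemma act_single (g : Fin d → Matrix (Fin n) (Fin n) ℂ) (j i : Fin d → Fin n) :
    act g (Pi.single j 1) i = ∏ k, g k (i k) (j k) := by
  simp [act, Pi.single_apply]

lemma act_add (g : Fin d → Matrix (Fin n) (Fin n) ℂ) (S T : (Fin d → Fin n) → ℂ) :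
    act g (S + T) = act g S + act g T := by
  funext i; simp [act, mul_add, Finset.sum_add_distrib]

lemma act_sub (g : Fin d → Matrix (Fin n) (Fin n) ℂ) (S T : (Fin d → Fin n) → ℂ) :
    act g (S - T) = act g S - act g T := by
  funext i; simp [act, mul_sub]

lemma act_one (T : (Fin d → Fin n) → ℂ) : act 1 T = T := by
  funext i
  have : ∀ j : Fin d → Fin n, (∏ k, (1 : Fin d → Matrix (Fin n) (Fin n) ℂ) k (i k) (j k)) =
      if i = j then 1 else 0 := fun j => by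
    simp only [Pi.one_apply, one_apply, Fintype.prod_ite_zero, Finset.prod_const_one, funext_iff]
  simp only [act, this]
  simp

lemma act_cont (g : Fin d → Matrix (Fin n) (Fin n) ℂ) : Continuous (act g) := by
  unfold act; fun_prop

lemma unit2 : unit 4 3 2 = Pi.single (fun _ => 0) 1 + Pi.single (fun _ => 1) 1 := by
  have : (Finset.univ.filter fun a : Fin 3 => a.val < 2) = {0, 1} := by decide
  rw [unit, this, Finset.sum_pair (by decide)]

lemma unit3 : unit 4 3 3 =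
    Pi.single (fun _ => 0) 1 + Pi.single (fun _ => 1) 1 + Pi.single (fun _ => 2) 1 := by
  have : (Finset.univ.filter fun a : Fin 3 => a.val < 3) = Finset.univ := by decide
  rw [unit, this, Fin.sum_univ_three]

noncomputable def T0 : (Fin 4 → Fin 3) → ℂ :=
  Pi.single ![0, 1, 1, 0] 1 - Pi.single ![1, 1, 0, 0] 1 + Pi.single ![0, 0, 1, 1] 1
    - Pi.single ![1, 0, 0, 1] 1 - Pi.single ![1, 1, 0, 1] 1 + Pi.single ![0, 1, 0, 2] 1
    + Pi.single ![1, 0, 1, 2] 1 + Pi.single ![1, 1, 1, 2] 1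

lemma actT (B : Fin 4 → Matrix (Fin 3) (Fin 3) ℂ) (a b c e : Fin 3) : act B T0 ![a, b, c, e] =
    B 0 a 0 * B 1 b 1 * B 2 c 1 * B 3 e 0 - B 0 a 1 * B 1 b 1 * B 2 c 0 * B 3 e 0
    + B 0 a 0 * B 1 b 0 * B 2 c 1 * B 3 e 1 - B 0 a 1 * B 1 b 0 * B 2 c 0 * B 3 e 1
    - B 0 a 1 * B 1 b 1 * B 2 c 0 * B 3 e 1 + B 0 a 0 * B 1 b 1 * B 2 c 0 * B 3 e 2
    + B 0 a 1 * B 1 b 0 * B 2 c 1 * B 3 e 2 + B 0 a 1 * B 1 b 1 * B 2 c 1 * B 3 e 2 := by
  simp only [T0, act_add, act_sub, Pi.add_apply, Pi.sub_apply, act_single, Fin.prod_univ_four]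
  rfl

lemma act_unit2 (B : Fin 4 → Matrix (Fin 3) (Fin 3) ℂ) (a b c e : Fin 3) :
    act B (unit 4 3 2) ![a, b, c, e] =
      B 0 a 0 * B 1 b 0 * B 2 c 0 * B 3 e 0 + B 0 a 1 * B 1 b 1 * B 2 c 1 * B 3 e 1 := by
  simp only [unit2, act_add, Pi.add_apply, act_single, Fin.prod_univ_four]
  rfl

def res (X : (Fin 4 → Fin 3) → ℂ) : T2 := fun a b c e =>
  X ![a.castSucc, b.castSucc, c.castSucc, e.castSucc]

def ul (B : Matrix (Fin 3) (Fin 3) ℂ) : Fin 2 → Fin 2 → ℂ := fun a b => B a.castSucc b.castSucc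

def top (B : Matrix (Fin 3) (Fin 3) ℂ) : Fin 2 → Fin 3 → ℂ := fun a b => B a.castSucc b

lemma res_act (B : Fin 4 → Matrix (Fin 3) (Fin 3) ℂ) :
    res (act B T0) = a1 (ul (B 0)) (a2 (ul (B 1)) (a3 (ul (B 2)) (YY (top (B 3))))) := by
  funext a b c e
  simp only [res, actT, a1, a2, a3, ul, top, YY, cons_val_zero, cons_val_one, Fin.castSucc_zero,
    Fin.castSucc_one]
  ring

lemma p_mul (m C : Matrix (Fin 3) (Fin 3) ℂ) (h : ∀ j, C 2 j = 0) :
    p1 (top (m * C)) = dt (ul m) * p1 (top C) ∧ p2 (top (m * C)) = dt (ul m) * p2 (top C) ∧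
      p3 (top (m * C)) = dt (ul m) * p3 (top C) := by
  simp only [p1, p2, p3, top, ul, dt, Matrix.mul_apply, Fin.sum_univ_three, h, Fin.castSucc_zero,
    Fin.castSucc_one]
  refine ⟨by ring, by ring, by ring⟩

noncomputable abbrev l0 : Filter ℂˣ := comap (fun t : ℂˣ => (t : ℂ)) (𝓝 0)

instance : l0.NeBot := by
  refine comap_neBot fun U hU => ?_
  obtain ⟨x, hx, hx0⟩ := (Filter.nonempty_of_mem (inter_mem_nhdsWithin ({0}ᶜ : Set ℂ) hU))
  exact ⟨Units.mk0 x hx, hx0⟩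

lemma l0_mul (s : ℂˣ) : Tendsto (fun t => s * t) l0 l0 := by
  refine tendsto_comap_iff.2 ?_
  have : Tendsto (fun t : ℂˣ => (s : ℂ) * (t : ℂ)) l0 (𝓝 ((s : ℂ) * 0)) :=
    tendsto_comap.const_mul _
  simpa [Function.comp_def] using this

theorem not2 (μ : ℂˣ → Fin 4 → Matrix (Fin 3) (Fin 3) ℂ) (h1 : μ 1 = 1)
    (hm : ∀ s t, μ (s * t) = μ s * μ t) (hL : IsL fun t => μ t 3)
    (h : Fin 4 → Matrix (Fin 3) (Fin 3) ℂ) :
    ¬ Tendsto (fun t => act (μ t * h) T0) l0 (𝓝 (unit 4 3 2)) := by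
  intro ht
  have fix : ∀ s, act (μ s) (unit 4 3 2) = unit 4 3 2 := fun s => by
    have e1 := ((act_cont (μ s)).tendsto _).comp ht
    have e2 := ht.comp (l0_mul s)
    refine tendsto_nhds_unique e1 (e2.congr fun t => ?_)
    simp only [Function.comp, hm, mul_assoc, act_mul]
  have h0 : ∀ s, μ s 3 2 0 = 0 ∧ μ s 3 2 1 = 0 := fun s => by
    have hi : μ s⁻¹ * μ s = 1 := by rw [← hm, inv_mul_cancel, h1]
    have e := congrArg (act (Function.update (μ s⁻¹) 3 1)) (fix s)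
    rw [← act_mul] at e
    have k0 : μ s⁻¹ 0 * μ s 0 = 1 := congrFun hi 0
    have k1 : μ s⁻¹ 1 * μ s 1 = 1 := congrFun hi 1
    have k2 : μ s⁻¹ 2 * μ s 2 = 1 := congrFun hi 2
    have e0 := congrFun e ![0, 0, 0, 2]
    have e1 := congrFun e ![1, 1, 1, 2]
    rw [act_unit2, act_unit2] at e0 e1
    simp [k0, k1, k2] at e0 e1
    exact ⟨e0, e1⟩
  obtain ⟨π, hπ, r2, r00, r01, r10, r11⟩ := exists_proj (fun t => μ t 3) (congrFun h1 3)
    (fun s t => congrFun (hm s t) 3) hL h0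
  let ρ : Fin 4 → Matrix (Fin 3) (Fin 3) ℂ := Function.update 1 3 π
  have e1 := ((act_cont ρ).tendsto _).comp ht
  have hC : ∀ j, (π * h 3) 2 j = 0 := fun j => by simp [Matrix.mul_apply, r2]
  let c : ℂˣ → ℂ := fun t => dt (ul (μ t 0 * h 0)) * dt (ul (μ t 1 * h 1)) * dt (ul (μ t 2 * h 2)) *
    dt (ul (μ t 3))
  let C := top (π * h 3)
  have key : ∀ t, iH (res (act ρ (act (μ t * h) T0))) = c t * (-2 * p3 C) ∧
      iL (res (act ρ (act (μ t * h) T0))) = c t ^ 2 * (p3 C ^ 2 + p1 C * p2 C) ∧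
      iM (res (act ρ (act (μ t * h) T0))) = c t ^ 2 * p1 C ^ 2 := fun t => by
    have e3 : (ρ * (μ t * h)) 3 = μ t 3 * (π * h 3) := by
      simp only [ρ, Pi.mul_apply, Function.update_self, ← Matrix.mul_assoc, hπ t]
    have e0 : (ρ * (μ t * h)) 0 = μ t 0 * h 0 := by simp [ρ]
    have e1 : (ρ * (μ t * h)) 1 = μ t 1 * h 1 := by simp [ρ]
    have e2 : (ρ * (μ t * h)) 2 = μ t 2 * h 2 := by simp [ρ]
    rw [← act_mul, res_act, e0, e1, e2, e3]
    simp only [inv1, inv2, inv3, invY, p_mul _ _ hC, c, C]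
    refine ⟨by ring, by ring, by ring⟩
  have lim : res (act ρ (unit 4 3 2)) = fun a b c e =>
      if a = b ∧ b = c ∧ c = e then 1 else 0 := by
    funext a b c e
    simp only [res, act_unit2, ρ]
    fin_cases a <;> fin_cases b <;> fin_cases c <;> fin_cases e <;> simp [r00, r01, r10, r11]
  have cH : Continuous fun X => iH (res X) := by unfold iH res; fun_prop
  have cL : Continuous fun X => iL (res X) := by unfold iL d4 res; fun_prop
  have cM : Continuous fun X => iM (res X) := by unfold iM d4 res; fun_prop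
  have tH := (cH.tendsto _).comp e1
  have tL := (cL.tendsto _).comp e1
  have tM := (cM.tendsto _).comp e1
  simp only [Function.comp_def, key, lim] at tH tL tM
  simp only [iH, iL, iM, d4] at tH tL tM
  norm_num at tH tL tM
  have tH2 := tH.pow 2
  have a1 := tM.mul_const (4 * p3 C ^ 2)
  have a2 := tH2.mul_const (p1 C ^ 2)
  have hp1 : p1 C = 0 := by
    have := tendsto_nhds_unique a1 (a2.congr fun t => by ring)
    simpa using this.symm
  have a3 := tL.mul_const 4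
  have := tendsto_nhds_unique a3 (tH2.congr fun t => by rw [hp1]; ring)
  simp at this

theorem not3 {ι : Type} (l : Filter ι) [l.NeBot] (B : ι → Fin 4 → Matrix (Fin 3) (Fin 3) ℂ) :
    ¬ Tendsto (fun t => act (B t) T0) l (𝓝 (unit 4 3 3)) := by
  intro ht
  let D : ((Fin 4 → Fin 3) → ℂ) → ℂ := fun X => (of fun i j : Fin 3 => X ![i, j, j, j]).det
  have cD : Continuous D := by
    simp only [D, det_fin_three, of_apply]; fun_prop
  have h0 : ∀ t, D (act (B t) T0) = 0 := fun t => by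
    let Z : Matrix (Fin 3) (Fin 3) ℂ := of fun i j => act (Function.update (B t) 0 1) T0 ![i, j, j, j]
    have : (of fun i j : Fin 3 => act (B t) T0 ![i, j, j, j]) = B t 0 * Z := by
      ext i j
      simp [Z, Matrix.mul_apply, Fin.sum_univ_three, actT]
      ring
    have hZ : Z.det = 0 := det_eq_zero_of_row_eq_zero 2 fun j => by simp [Z, actT]
    simp only [D, this, det_mul, hZ, mul_zero]
  have h1 : D (unit 4 3 3) = 1 := by
    simp [D, unit3, det_fin_three, Pi.single_apply, funext_iff, Fin.forall_fin_succ]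
  have := (cD.tendsto _).comp ht
  simp only [Function.comp_def, h0, h1] at this
  simpa using tendsto_nhds_unique this tendsto_const_nhds

noncomputable def G (t : ℂ) : Fin 4 → Matrix (Fin 3) (Fin 3) ℂ :=
  ![!![-t, t ^ 3, 0; 1, t ^ 2, 0; 0, 0, 1], !![-1, t ^ 4, 0; t ^ 3, t ^ 7, 0; 0, 0, 1],
    !![t, t ^ 3, 0; -1, t ^ 2, 0; 0, 0, 1],
    !![-1 / (8 * t ^ 8), 1 / (8 * t ^ 4), -1 / (4 * t ^ 6); 1 / (4 * t ^ 9), 1 / (4 * t ^ 5), 0; t, 0, 0]]

noncomputable def tab (t : ℂ) : Fin 3 → Fin 3 → Fin 3 → Fin 3 → ℂ :=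
  ![![
    ![![(1 / 1) * t ^ 0 + (-3 / 8) * t ^ 4, (-1 / 4) * t ^ 3, (-2 / 1) * t ^ 9], ![(-1 / 8) * t ^ 3, (1 / 4) * t ^ 2, 0], ![0, 0, 0]], 
    ![![(-3 / 8) * t ^ 7, (-1 / 1) * t ^ 2 + (-1 / 4) * t ^ 6, (-2 / 1) * t ^ 12], ![(-1 / 2) * t ^ 2 + (-1 / 8) * t ^ 6, (1 / 4) * t ^ 5, 0], ![0, 0, 0]], 
    ![![0, 0, 0], ![0, 0, 0], ![0, 0, 0]]], ![
    ![![(-3 / 8) * t ^ 3, (-1 / 4) * t ^ 2, 0], ![(-1 / 8) * t ^ 2, (1 / 4) * t ^ 1, (2 / 1) * t ^ 7], ![0, 0, 0]], 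
    ![![(-1 / 2) * t ^ 2 + (-3 / 8) * t ^ 6, (-1 / 4) * t ^ 5, 0], ![(-1 / 8) * t ^ 5, (1 / 1) * t ^ 0 + (1 / 4) * t ^ 4, (2 / 1) * t ^ 10], ![0, 0, 0]], 
    ![![0, 0, 0], ![0, 0, 0], ![0, 0, 0]]], ![
    ![![0, 0, 0], ![0, 0, 0], ![0, 0, 0]], 
    ![![0, 0, 0], ![0, 0, 0], ![0, 0, 0]], 
    ![![0, 0, 0], ![0, 0, 0], ![0, 0, 0]]]]

lemma G_det {t : ℂ} (ht : t ≠ 0) (k : Fin 4) : (G t k).det ≠ 0 := by
  fin_cases k <;> simp [G, det_fin_three, ht]
  · ring_nf; simp [ht]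
  · ring_nf; simp [ht]
  · ring_nf; simp [ht]

lemma G_act {t : ℂ} (ht : t ≠ 0) : act (G t) T0 = fun i => tab t (i 0) (i 1) (i 2) (i 3) := by
  funext i
  have : i = ![i 0, i 1, i 2, i 3] := by funext k; fin_cases k <;> rfl
  rw [this, actT]
  simp only [cons_val_zero, cons_val_one, cons_val]
  generalize i 0 = a, i 1 = b, i 2 = c, i 3 = e
  fin_cases a <;> fin_cases b <;> fin_cases c <;> fin_cases e <;> simp [G, tab] <;> field_simp <;> ring

lemma tab_lim : Tendsto (fun t => fun i : Fin 4 → Fin 3 => tab t (i 0) (i 1) (i 2) (i 3)) (𝓝 0)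
    (𝓝 (unit 4 3 2)) := by
  have hc : ∀ a b c e, Continuous fun t => tab t a b c e := fun a b c e => by
    fin_cases a <;> fin_cases b <;> fin_cases c <;> fin_cases e <;> simp [tab] <;> fun_prop
  have h0 : unit 4 3 2 = fun i : Fin 4 → Fin 3 => tab 0 (i 0) (i 1) (i 2) (i 3) := by
    funext i
    have : i = ![i 0, i 1, i 2, i 3] := by funext k; fin_cases k <;> rfl
    rw [← act_one (unit 4 3 2), this, act_unit2]
    simp only [cons_val_zero, cons_val_one, cons_val]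
    generalize i 0 = a, i 1 = b, i 2 = c, i 3 = e
    fin_cases a <;> fin_cases b <;> fin_cases c <;> fin_cases e <;> simp [tab, Matrix.one_apply]
  rw [h0]
  exact (continuous_pi fun i => hc _ _ _ _).tendsto 0

end Pool.Agent.H50.HM
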