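import Pool.Agent.H50.HitDefs

set_option autoImplicit false

open Finset

namespace Pool.Agent.H50.Hit

variable {S : Type} [Fintype S] [DecidableEq S]

theorem hit_zero (P : S → S → ℝ) (x y : S) : hit P x y 0 = if x = y then 1 else 0 := by
  unfold hit
  rw [← (Equiv.funUnique (Fin 1) S).symm.sum_comp]
  by_cases h : x = y
  · subst h; simp
  · rw [if_neg h]
    refine sum_eq_zero fun z _ => if_neg ?_
    rintro ⟨h1, h2, -⟩
    exact h (h1.symm.trans h2)

theorem hit_succ (P : S → S → ℝ) (x y : S) (k : ℕ) :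
    hit P x y (k + 1) = if x = y then 0 else ∑ z, P x z * hit P z y k := by
  unfold hit
  rw [← (Fin.consEquiv (fun _ : Fin (k + 2) => S)).sum_comp, Fintype.sum_prod_type]
  have hterm : ∀ (a : S) (w : Fin (k + 1) → S),
      (if (Fin.consEquiv (fun _ : Fin (k + 2) => S) (a, w)) 0 = x ∧
          (Fin.consEquiv (fun _ : Fin (k + 2) => S) (a, w)) (Fin.last (k + 1)) = y ∧
          ∀ i : Fin (k + 1), (Fin.consEquiv (fun _ : Fin (k + 2) => S) (a, w)) i.castSucc ≠ y then
        ∏ i : Fin (k + 1), P ((Fin.consEquiv (fun _ : Fin (k + 2) => S) (a, w)) i.castSucc)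
          ((Fin.consEquiv (fun _ : Fin (k + 2) => S) (a, w)) i.succ) else 0) =
      if a = x ∧ x ≠ y then P x (w 0) * (if w (Fin.last k) = y ∧ ∀ i : Fin k, w i.castSucc ≠ y then
        ∏ i : Fin k, P (w i.castSucc) (w i.succ) else 0) else 0 := by
    intro a w
    simp only [Fin.consEquiv_apply, Fin.cons_zero, Fin.forall_fin_succ, Fin.prod_univ_succ,
      Fin.castSucc_zero, Fin.cons_succ, ← Fin.succ_castSucc, ← Fin.succ_last]
    by_cases h1 : a = x
    · subst h1
      by_cases h2 : a = y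
      · simp [h2]
      · by_cases h3 : w (Fin.last k) = y ∧ ∀ i : Fin k, w i.castSucc ≠ y
        · rw [if_pos ⟨rfl, h3.1, h2, h3.2⟩, if_pos ⟨rfl, h2⟩, if_pos h3]
        · rw [if_neg (fun h => h3 ⟨h.2.1, h.2.2.2⟩), if_pos ⟨rfl, h2⟩, if_neg h3, mul_zero]
    · simp [h1]
  simp only [hterm]
  by_cases h : x = y
  · simp [h]
  · rw [if_neg h, sum_eq_single x (fun a _ ha => by simp [ha]) (by simp)]
    simp only [mul_sum]
    rw [sum_comm]
    refine sum_congr rfl fun w _ => ?_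
    rw [if_pos ⟨trivial, h⟩, sum_eq_single (w 0) (fun z _ hz => by simp [Ne.symm hz]) (by simp)]
    simp

theorem hit_nonneg {P : S → S → ℝ} (hP : ∀ u v, 0 ≤ P u v) (x y : S) (k : ℕ) :
    0 ≤ hit P x y k := by
  unfold hit
  refine sum_nonneg fun w _ => ?_
  split_ifs
  · exact prod_nonneg fun i _ => hP _ _
  · exact le_rfl

theorem path_le_hit {P : S → S → ℝ} (hP : ∀ u v, 0 ≤ P u v) (k : ℕ) (w : Fin (k + 1) → S)
    (hw : ∀ i : Fin k, w i.castSucc ≠ w (Fin.last k)) :
    ∏ i : Fin k, P (w i.castSucc) (w i.succ) ≤ hit P (w 0) (w (Fin.last k)) k := by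
  unfold hit
  refine le_trans (le_of_eq ?_) (single_le_sum (f := fun ω : Fin (k + 1) → S =>
    if ω 0 = w 0 ∧ ω (Fin.last k) = w (Fin.last k) ∧ ∀ i : Fin k, ω i.castSucc ≠ w (Fin.last k) then
      ∏ i : Fin k, P (ω i.castSucc) (ω i.succ) else 0) (fun ω _ => ?_) (mem_univ w))
  · rw [if_pos ⟨rfl, rfl, hw⟩]
  · split_ifs
    · exact prod_nonneg fun i _ => hP _ _
    · exact le_rfl

end Pool.Agent.H50.Hit
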