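import Mathlib

set_option autoImplicit false

open Finset

namespace Pool.Agent.H50.Hit

/-- a transition matrix: nonnegative entries, every row sums to one -/
def Stoch {S : Type} [Fintype S] (P : S → S → ℝ) : Prop :=
  (∀ u v, 0 ≤ P u v) ∧ ∀ u, ∑ v, P u v = 1

/-- `P_x(τ(y) = k)`: the total probability of the paths `x = ω 0, …, ω k = y` of the chain with
transition matrix `P` which do not visit `y` before time `k` -/
noncomputable def hit {S : Type} [Fintype S] [DecidableEq S] (P : S → S → ℝ) (x y : S) (k : ℕ) :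
    ℝ :=
  ∑ ω : Fin (k + 1) → S,
    if ω 0 = x ∧ ω (Fin.last k) = y ∧ ∀ i : Fin k, ω i.castSucc ≠ y then
      ∏ i : Fin k, P (ω i.castSucc) (ω i.succ) else 0

end Pool.Agent.H50.Hit
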