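import Pool.Agent.H50.PathCount

set_option autoImplicit false

namespace Pool.Agent.H50.King

open Pool.Agent.H50.PathCount

/-- king adjacency on the `4 × 4` board -/
def ad (x y : Fin 16) : Bool :=
  x != y && decide (x.1 / 4 ≤ y.1 / 4 + 1) && decide (y.1 / 4 ≤ x.1 / 4 + 1) &&
    decide (x.1 % 4 ≤ y.1 % 4 + 1) && decide (y.1 % 4 ≤ x.1 % 4 + 1)

/-- a transposition -/
def sw (a b x : Fin 16) : Fin 16 := if x = a then b else if x = b then a else x

/-- adjacency common to the standard board and a transposed board -/
def com (a b x y : Fin 16) : Bool := ad x y && ad (sw a b x) (sw a b y)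

theorem tA : total (com 0 1) 49 11 = 968224 := by decide +kernel

end Pool.Agent.H50.King
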