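import Pool.Agent.H50.KingA

set_option autoImplicit false

namespace Pool.Agent.H50.King

open Pool.Agent.H50.PathCount

theorem tB : total (com 1 5) 49 11 = 1081252 := by decide +kernel

end Pool.Agent.H50.King
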