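import Mathlib

namespace Pool.Agent.H50.Laksov

open Polynomial

variable {K : Type} [Field K] {σ : Type} [Fintype σ]

theorem scale {A : Type} [CommRing A] [Algebra K A] (w : σ → ℕ) (p : MvPolynomial σ K) (d : ℕ)
    (hp : MvPolynomial.IsWeightedHomogeneous w p d) (s : A) (r : σ → A) :
    MvPolynomial.aeval (fun i => s ^ w i * r i) p = s ^ d * MvPolynomial.aeval r p := by
  rw [MvPolynomial.aeval_def, MvPolynomial.aeval_def, MvPolynomial.eval₂_eq',
    MvPolynomial.eval₂_eq', Finset.mul_sum]
  refine Finset.sum_congr rfl fun e he => ?_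
  have h := hp (MvPolynomial.mem_support_iff.mp he)
  rw [Finsupp.weight_apply, Finsupp.sum_fintype _ _ (fun _ => by simp)] at h
  simp only [mul_pow, ← pow_mul, Finset.prod_mul_distrib, Finset.prod_pow_eq_pow_sum]
  have : ∑ i, w i * e i = d := by
    rw [← h]
    exact Finset.sum_congr rfl fun i _ => by simp [mul_comm]
  rw [this]
  ring

/-- an anisotropic weighted form stays anisotropic over the polynomial ring -/
theorem aniso (w : σ → ℕ) (hw : ∀ i, 0 < w i) (p : MvPolynomial σ K) (d : ℕ)
    (hp : MvPolynomial.IsWeightedHomogeneous w p d)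
    (h0 : ∀ y : σ → K, MvPolynomial.aeval y p = 0 → y = 0) (v : σ → K[X])
    (hv : MvPolynomial.aeval v p = 0) : v = 0 := by
  classical
  by_contra hne
  let W := ∏ j, w j
  have hW : 0 < W := Finset.prod_pos fun j _ => hw j
  have hdiv : ∀ i, w i ∣ W := fun i => Finset.dvd_prod_of_mem _ (Finset.mem_univ i)
  let S := Finset.univ.filter fun i => v i ≠ 0
  have hS : S.Nonempty := by
    by_contra h
    apply hne
    funext i
    by_contra hi
    exact h ⟨i, Finset.mem_filter.mpr ⟨Finset.mem_univ _, hi⟩⟩
  obtain ⟨i0, hi0, hmin⟩ := S.exists_min_image (fun i => (v i).rootMultiplicity 0 * (W / w i)) hS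
  set N := (v i0).rootMultiplicity 0 * (W / w i0) with hN
  have key : ∀ i, ∃ r : K[X], expand K W (v i) = (X ^ N) ^ w i * r ∧ (i = i0 → r.eval 0 ≠ 0) := by
    intro i
    by_cases hi : v i = 0
    · refine ⟨0, by simp [hi], ?_⟩
      rintro rfl
      exact absurd hi (Finset.mem_filter.mp hi0).2
    · obtain ⟨q, hq, hq'⟩ := exists_eq_pow_rootMultiplicity_mul_and_not_dvd (v i) hi 0
      have hle : N * w i ≤ W * (v i).rootMultiplicity 0 := by
        have := hmin i (Finset.mem_filter.mpr ⟨Finset.mem_univ _, hi⟩)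
        calc N * w i ≤ (v i).rootMultiplicity 0 * (W / w i) * w i := Nat.mul_le_mul_right _ this
          _ = W * (v i).rootMultiplicity 0 := by
            rw [mul_assoc, Nat.div_mul_cancel (hdiv i), mul_comm]
      refine ⟨X ^ (W * (v i).rootMultiplicity 0 - N * w i) * expand K W q, ?_, ?_⟩
      · conv_lhs => rw [hq]
        rw [map_mul, map_pow, C_0, sub_zero, expand_X, ← pow_mul, ← pow_mul, ← mul_assoc,
          ← pow_add, Nat.add_sub_cancel' hle]
      · rintro rfl
        have : W * (v i).rootMultiplicity 0 - N * w i = 0 := by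
          rw [hN, mul_assoc, Nat.div_mul_cancel (hdiv i), mul_comm, Nat.sub_self]
        rw [this, pow_zero, one_mul, expand_eval, zero_pow hW.ne']
        intro h
        exact hq' (dvd_iff_isRoot.mpr h)
  choose r hr hr0 using key
  have h1 : MvPolynomial.aeval (fun i => expand K W (v i)) p = 0 := by
    have := congrArg (expand K W) hv
    rwa [map_zero, ← AlgHom.comp_apply, MvPolynomial.comp_aeval] at this
  simp only [hr] at h1
  rw [scale w p d hp] at h1
  have h2 : MvPolynomial.aeval r p = 0 :=
    (mul_eq_zero.mp h1).resolve_left (pow_ne_zero _ (pow_ne_zero _ X_ne_zero))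
  have h3 : MvPolynomial.aeval (fun i => (r i).eval 0) p = 0 := by
    have := congrArg (Polynomial.aeval (0 : K)) h2
    rw [map_zero, ← AlgHom.comp_apply, MvPolynomial.comp_aeval] at this
    simpa using this
  exact hr0 i0 rfl (congrFun (h0 _ h3) i0)

end Pool.Agent.H50.Laksov
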