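import Mathlib

set_option autoImplicit false

open Finset Matrix

namespace Pool.Agent.H50.Lam2

/-- the second largest eigenvalue (with multiplicity): the second entry of the list of roots of
the characteristic polynomial, sorted in decreasing order -/
noncomputable def lam2 {d : ℕ} (A : Matrix (Fin d) (Fin d) ℝ) : ℝ :=
  (A.charpoly.roots.sort (· ≥ ·)).getD 1 0

theorem diag {d : ℕ} (hd : 2 ≤ d) {S : Matrix (Fin d) (Fin d) ℝ} (hS : S.IsHermitian) :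
    ∃ (U : Matrix (Fin d) (Fin d) ℝ) (l : Fin d → ℝ) (i0 i1 : Fin d), U * Uᵀ = 1 ∧ Uᵀ * U = 1 ∧
      S = U * diagonal l * Uᵀ ∧ i0 ≠ i1 ∧ lam2 S = l i1 ∧ l i1 ≤ l i0 ∧
      ∀ i, i ≠ i0 → l i ≤ l i1 := by
  have hc : Fintype.card (Fin d) = d := Fintype.card_fin d
  let e : Fin (Fintype.card (Fin d)) ≃ Fin d := Fintype.equivOfCardEq (Fintype.card_fin _)
  let j0 : Fin (Fintype.card (Fin d)) := ⟨0, by omega⟩
  let j1 : Fin (Fintype.card (Fin d)) := ⟨1, by omega⟩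
  have hl : ∀ j, hS.eigenvalues (e j) = hS.eigenvalues₀ j := fun j => by
    simp [IsHermitian.eigenvalues, e]
  refine ⟨hS.eigenvectorUnitary, hS.eigenvalues, e j0, e j1, ?_, ?_, ?_, ?_, ?_, ?_, ?_⟩
  · have := (Unitary.mem_iff.1 hS.eigenvectorUnitary.2).2
    simpa [star_eq_conjTranspose] using this
  · have := (Unitary.mem_iff.1 hS.eigenvectorUnitary.2).1
    simpa [star_eq_conjTranspose] using this
  · have := hS.spectral_theorem
    rw [Unitary.conjStarAlgAut_apply] at this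
    simpa [star_eq_conjTranspose] using this
  · intro h
    have := congrArg Fin.val (e.injective h)
    simp [j0, j1] at this
  · have := hS.sort_roots_charpoly_eq_eigenvalues₀
    simp only [RCLike.re_to_real, Multiset.map_id'] at this
    rw [lam2, this, hl, List.getD_eq_getElem _ _ (by simp; omega)]
    simp [j1]
  · rw [hl, hl]
    exact hS.eigenvalues₀_antitone (by simp [j0, j1, Fin.le_def])
  · intro i hi
    obtain ⟨j, rfl⟩ := e.surjective i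
    rw [hl, hl]
    apply hS.eigenvalues₀_antitone
    have : j ≠ j0 := fun h => hi (by rw [h])
    have h2 : (j : ℕ) ≠ 0 := fun h => this (Fin.ext h)
    simp only [j1, Fin.le_def]
    omega

theorem quad {d : ℕ} {U : Matrix (Fin d) (Fin d) ℝ} (h1 : U * Uᵀ = 1) (l x : Fin d → ℝ) :
    x ⬝ᵥ x = ∑ i, (Uᵀ *ᵥ x) i ^ 2 ∧
      x ⬝ᵥ ((U * diagonal l * Uᵀ) *ᵥ x) = ∑ i, l i * (Uᵀ *ᵥ x) i ^ 2 := by
  have key : ∀ m : Fin d → ℝ,
      x ⬝ᵥ ((U * diagonal m * Uᵀ) *ᵥ x) = ∑ i, m i * (Uᵀ *ᵥ x) i ^ 2 := by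
    intro m
    rw [← mulVec_mulVec, ← mulVec_mulVec, dotProduct_mulVec, ← mulVec_transpose]
    simp only [dotProduct, mulVec_diagonal]
    exact sum_congr rfl fun i _ => by ring
  refine ⟨?_, key l⟩
  have := key (fun _ => 1)
  simpa [h1] using this

theorem lam2_le {d : ℕ} (hd : 2 ≤ d) {S : Matrix (Fin d) (Fin d) ℝ} (hS : S.IsHermitian)
    (u : Fin d → ℝ) (c : ℝ) (h : ∀ x, x ⬝ᵥ u = 0 → x ⬝ᵥ (S *ᵥ x) ≤ c * (x ⬝ᵥ x)) :
    lam2 S ≤ c := by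
  obtain ⟨U, l, i0, i1, h1, h2, hSU, hne, hl, h10, -⟩ := diag hd hS
  obtain ⟨a, b, hab, hz⟩ : ∃ a b : ℝ, 0 < a ^ 2 + b ^ 2 ∧
      a * (Uᵀ *ᵥ u) i0 + b * (Uᵀ *ᵥ u) i1 = 0 := by
    by_cases h0 : (Uᵀ *ᵥ u) i0 = 0
    · exact ⟨1, 0, by norm_num, by simp [h0]⟩
    · exact ⟨-(Uᵀ *ᵥ u) i1, (Uᵀ *ᵥ u) i0, by positivity, by ring⟩
  set y : Fin d → ℝ := Pi.single i0 a + Pi.single i1 b with hy
  have hxy : Uᵀ *ᵥ (U *ᵥ y) = y := by rw [mulVec_mulVec, h2, one_mulVec]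
  have hs : ∀ m : Fin d → ℝ, ∑ i, m i * y i ^ 2 = m i0 * a ^ 2 + m i1 * b ^ 2 := by
    intro m
    rw [Fintype.sum_eq_add i0 i1 hne]
    · simp [hy, hne, hne.symm]
    · intro i hi
      simp [hy, hi.1, hi.2]
  have h0 : (U *ᵥ y) ⬝ᵥ u = 0 := by
    rw [dotProduct_comm, dotProduct_mulVec, ← mulVec_transpose, hy, dotProduct_add,
      dotProduct_single, dotProduct_single]
    linarith
  have h3 := h _ h0
  obtain ⟨q1, q2⟩ := quad h1 l (U *ᵥ y)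
  rw [← hSU, hxy, hs] at q2
  rw [hxy] at q1
  have q3 := hs (fun _ => 1)
  simp only [one_mul] at q3
  rw [q2, q1, q3] at h3
  rw [hl]
  by_contra hlt
  push Not at hlt
  nlinarith [sq_nonneg a]

theorem le_lam2 {d : ℕ} (hd : 2 ≤ d) {S : Matrix (Fin d) (Fin d) ℝ} (hS : S.IsHermitian)
    (u : Fin d → ℝ) (hu : u ≠ 0) (hSu : S *ᵥ u = u) (hc : ∀ x, x ⬝ᵥ (S *ᵥ x) ≤ x ⬝ᵥ x)
    (x : Fin d → ℝ) (hx : x ⬝ᵥ u = 0) : x ⬝ᵥ (S *ᵥ x) ≤ lam2 S * (x ⬝ᵥ x) := by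
  have hxx : 0 ≤ x ⬝ᵥ x := sum_nonneg fun i _ => mul_self_nonneg _
  by_cases h1l : 1 ≤ lam2 S
  · nlinarith [hc x]
  push Not at h1l
  obtain ⟨U, l, i0, i1, h1, h2, hSU, hne, hl, h10, hle⟩ := diag hd hS
  have hv : ∀ i, l i * (Uᵀ *ᵥ u) i = (Uᵀ *ᵥ u) i := by
    intro i
    have : Uᵀ *ᵥ (S *ᵥ u) = diagonal l *ᵥ (Uᵀ *ᵥ u) := by
      rw [hSU, mulVec_mulVec, mulVec_mulVec, ← Matrix.mul_assoc, ← Matrix.mul_assoc, h2,
        Matrix.one_mul]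
    rw [hSu] at this
    conv_rhs => rw [this]
    rw [mulVec_diagonal]
  have hz : ∀ i, i ≠ i0 → (Uᵀ *ᵥ u) i = 0 := by
    intro i hi
    have h3 := hle i hi
    have h4 : (l i - 1) * (Uᵀ *ᵥ u) i = 0 := by linarith [hv i]
    rcases mul_eq_zero.1 h4 with h | h
    · linarith
    · exact h
  have h0 : (Uᵀ *ᵥ u) i0 ≠ 0 := by
    intro h
    apply hu
    have : Uᵀ *ᵥ u = 0 := funext fun i => by
      by_cases hi : i = i0
      · rw [hi]; exact h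
      · exact hz i hi
    rw [← one_mulVec u, ← h1, ← mulVec_mulVec, this, mulVec_zero]
  have hx0 : (Uᵀ *ᵥ x) i0 = 0 := by
    have : (Uᵀ *ᵥ x) ⬝ᵥ (Uᵀ *ᵥ u) = 0 := by
      rw [mulVec_transpose U x, ← dotProduct_mulVec, mulVec_mulVec, h1, one_mulVec, hx]
    rw [dotProduct, sum_eq_single i0 (fun i _ hi => by rw [hz i hi, mul_zero]) (by simp)] at this
    exact (mul_eq_zero.1 this).resolve_right h0
  obtain ⟨q1, q2⟩ := quad h1 l x
  rw [← hSU] at q2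
  rw [q1, q2, hl, mul_sum]
  refine sum_le_sum fun i _ => ?_
  by_cases hi : i = i0
  · rw [hi, hx0]; simp
  · exact mul_le_mul_of_nonneg_right (hle i hi) (sq_nonneg _)

end Pool.Agent.H50.Lam2
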