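import Mathlib

set_option autoImplicit false

/- For every prime p the curve y^2 = x^3 + 442^2 x has a p-adic point with nonsquare x. -/

namespace Pool.Agent.H50.Local221

open Polynomial

variable {p : ℕ} [hp : Fact p.Prime]

theorem hensel_sq (a b : ℤ_[p]) (h : ‖b ^ 2 - a‖ < ‖2 * b‖ ^ 2) :
    ∃ z : ℤ_[p], z ^ 2 = a ∧ ‖z - b‖ < ‖2 * b‖ := by
  have h1 : ‖(X ^ 2 - C a : ℤ_[p][X]).aeval b‖ <
      ‖(X ^ 2 - C a : ℤ_[p][X]).derivative.aeval b‖ ^ 2 := by
    have e1 : (X ^ 2 - C a : ℤ_[p][X]).aeval b = b ^ 2 - a := by simp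
    have e2 : (X ^ 2 - C a : ℤ_[p][X]).derivative.aeval b = 2 * b := by
      simp; left; norm_num
    rw [e1, e2]; exact h
  obtain ⟨z, hz, hz2, -, -⟩ := hensels_lemma h1
  have e2 : (X ^ 2 - C a : ℤ_[p][X]).derivative.aeval b = 2 * b := by
    simp; left; norm_num
  rw [e2] at hz2
  refine ⟨z, ?_, hz2⟩
  have e1 : (X ^ 2 - C a : ℤ_[p][X]).aeval z = z ^ 2 - a := by simp
  rw [e1] at hz
  exact sub_eq_zero.1 hz

theorem norm_lt_one_iff (x : ℤ_[p]) : ‖x‖ < 1 ↔ PadicInt.toZMod x = 0 := by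
  rw [← RingHom.mem_ker, PadicInt.ker_toZMod, PadicInt.mem_nonunits.symm]
  rfl

theorem norm_eq_one_of (x : ℤ_[p]) (h : PadicInt.toZMod x ≠ 0) : ‖x‖ = 1 := by
  rcases (PadicInt.norm_le_one x).lt_or_eq with h1 | h1
  · exact absurd ((norm_lt_one_iff x).1 h1) h
  · exact h1

/-- Hensel for odd p -/
theorem hensel_odd (h2 : (2 : ZMod p) ≠ 0) (a : ℤ_[p]) (b : ZMod p) (hb : b ≠ 0)
    (h : b ^ 2 = PadicInt.toZMod a) : ∃ z : ℤ_[p], z ^ 2 = a ∧ PadicInt.toZMod z = b := by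
  have hB : PadicInt.toZMod ((b.val : ℕ) : ℤ_[p]) = b := by simp
  have hn : ‖2 * ((b.val : ℕ) : ℤ_[p])‖ = 1 := by
    apply norm_eq_one_of
    rw [map_mul, hB, map_ofNat]
    exact mul_ne_zero h2 hb
  obtain ⟨z, hz, hz2⟩ := hensel_sq a ((b.val : ℕ) : ℤ_[p]) (by
    rw [hn, one_pow, norm_lt_one_iff, map_sub, map_pow, hB, h, sub_self])
  refine ⟨z, hz, ?_⟩
  rw [hn, norm_lt_one_iff, map_sub, hB] at hz2
  exact sub_eq_zero.1 hz2

theorem isSquare_int_of (x : ℤ_[p]) (h : IsSquare (x : ℚ_[p])) : IsSquare x := by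
  obtain ⟨w, hw⟩ := h
  have h1 : ‖w‖ ≤ 1 := by
    have h2 : ‖w‖ * ‖w‖ ≤ 1 := by
      rw [← norm_mul, ← hw]
      exact x.2
    nlinarith [norm_nonneg w]
  refine ⟨⟨w, h1⟩, ?_⟩
  apply Subtype.ext
  exact hw

theorem exists_nonres (F : Type) [Field F] [Fintype F] [DecidableEq F] (hF : ringChar F ≠ 2)
    (c : F) (hc : c ≠ 0) :
    ∃ x : F, ¬ IsSquare x ∧ (x ^ 2 + c ^ 2 = 0 ∨ ¬ IsSquare (x ^ 2 + c ^ 2)) := by
  by_contra hcon
  push Not at hcon
  have h2 : (2 : F) ≠ 0 := Ring.two_ne_zero hF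
  -- lower bound
  have hlow : 1 ≤ ∑ x : F, (quadraticChar F (x ^ 2 + c ^ 2) + quadraticChar F x) := by
    have hnn : ∀ x ∈ (Finset.univ : Finset F),
        0 ≤ quadraticChar F (x ^ 2 + c ^ 2) + quadraticChar F x := by
      intro x _
      by_cases hx : IsSquare x
      · by_cases hx0 : x = 0
        · subst hx0
          have : quadraticChar F (c ^ 2) = 1 := quadraticChar_sq_one' hc
          simp [this]
        · have e1 := (quadraticChar_one_iff_isSquare hx0).2 hx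
          rcases quadraticChar_isQuadratic F (x ^ 2 + c ^ 2) with h | h | h <;> omega
      · have e1 := quadraticChar_neg_one_iff_not_isSquare.2 hx
        have e2 := (quadraticChar_one_iff_isSquare (hcon x hx).1).2 (hcon x hx).2
        omega
    have := Finset.single_le_sum hnn (Finset.mem_univ (0 : F))
    have e : quadraticChar F (c ^ 2) = 1 := quadraticChar_sq_one' hc
    simpa [e] using this
  rw [Finset.sum_add_distrib, quadraticChar_sum_zero hF, add_zero] at hlow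
  -- upper bound
  have hcard : ∑ x : F, (quadraticChar F (x ^ 2 + c ^ 2) + 1) =
      ((Finset.univ.sigma (fun x : F => ({y : F | y ^ 2 = x ^ 2 + c ^ 2}).toFinset)).card : ℤ) := by
    rw [Finset.card_sigma]
    push_cast
    refine Finset.sum_congr rfl fun x _ => ?_
    rw [quadraticChar_card_sqrts hF]
  have hle : (Finset.univ.sigma (fun x : F => ({y : F | y ^ 2 = x ^ 2 + c ^ 2}).toFinset)).card
      ≤ (Finset.univ : Finset F).card := by
    refine Finset.card_le_card_of_injOn (fun s => s.2 - s.1) (by simp) ?_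
    rintro ⟨x1, y1⟩ hs1 ⟨x2, y2⟩ hs2 he
    simp only [Finset.coe_sigma, Finset.coe_univ, Set.mem_sigma_iff, Set.mem_univ,
      Set.coe_toFinset, Set.mem_ofPred_eq, true_and] at hs1 hs2
    simp only at he
    have ht : y1 - x1 ≠ 0 := by
      intro h0
      have : c ^ 2 = 0 := by linear_combination -hs1 + (y1 + x1) * h0
      exact hc (pow_eq_zero_iff (by norm_num) |>.1 this)
    have h3 : (y1 - x1) * (2 * (x1 - x2)) = 0 := by
      linear_combination hs1 - hs2 - (y1 - x1 + y2 + x2) * he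
    have h4 : x1 = x2 := by
      rcases mul_eq_zero.1 h3 with h5 | h5
      · exact absurd h5 ht
      · exact sub_eq_zero.1 ((mul_eq_zero.1 h5).resolve_left h2)
    subst h4
    have h5 : y1 = y2 := by linear_combination he
    subst h5
    rfl
  rw [Finset.sum_add_distrib] at hcard
  simp only [Finset.sum_const, nsmul_eq_mul, mul_one] at hcard
  have : ((Finset.univ.sigma (fun x : F => ({y : F | y ^ 2 = x ^ 2 + c ^ 2}).toFinset)).card : ℤ)
      ≤ ((Finset.univ : Finset F).card : ℤ) := by exact_mod_cast hle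
  omega

theorem good (h2 : (2 : ZMod p) ≠ 0) (hc : (442 : ZMod p) ≠ 0) :
    ∃ x y : ℤ_[p], y ^ 2 = x ^ 3 + 195364 * x ∧ ¬ IsSquare x := by
  have hF : ringChar (ZMod p) ≠ 2 := by
    intro h
    apply h2
    have := (ringChar.spec (ZMod p) 2).2 (by rw [h])
    exact_mod_cast this
  obtain ⟨x, hx, hq⟩ := exists_nonres (ZMod p) hF 442 hc
  have hx0 : x ≠ 0 := by rintro rfl; exact hx ⟨0, by simp⟩
  by_cases hq0 : x ^ 2 + 442 ^ 2 = 0
  · obtain ⟨z, hz, hz2⟩ := hensel_odd h2 (-195364 : ℤ_[p]) x hx0 (by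
      rw [map_neg, map_ofNat]; linear_combination hq0)
    refine ⟨z, 0, by linear_combination (-z) * hz, ?_⟩
    intro h
    exact hx (hz2 ▸ h.map PadicInt.toZMod)
  · have hq1 := hq.resolve_left hq0
    have e1 := quadraticChar_neg_one_iff_not_isSquare.2 hx
    have e2 := quadraticChar_neg_one_iff_not_isSquare.2 hq1
    have e3 : quadraticChar (ZMod p) (x * (x ^ 2 + 442 ^ 2)) = 1 := by
      rw [map_mul, e1, e2]; norm_num
    obtain ⟨b, hb⟩ := (quadraticChar_one_iff_isSquare (mul_ne_zero hx0 hq0)).1 e3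
    have hb0 : b ≠ 0 := by
      rintro rfl
      exact mul_ne_zero hx0 hq0 (by simpa using hb)
    have hX : PadicInt.toZMod ((x.val : ℕ) : ℤ_[p]) = x := by simp
    obtain ⟨z, hz, -⟩ := hensel_odd h2
      (((x.val : ℕ) : ℤ_[p]) ^ 3 + 195364 * ((x.val : ℕ) : ℤ_[p])) b hb0 (by
        rw [map_add, map_pow, map_mul, hX, map_ofNat]; linear_combination -hb)
    refine ⟨_, z, hz, ?_⟩
    intro h
    exact hx (hX ▸ h.map PadicInt.toZMod)

theorem not_sq_of_val (u : ℤ_[p]) (hu : PadicInt.toZMod u ≠ 0) : ¬ IsSquare ((p : ℤ_[p]) * u) := by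
  rintro ⟨w, hw⟩
  have h1 : PadicInt.toZMod w = 0 := by
    have := congrArg PadicInt.toZMod hw
    rw [map_mul, map_mul, map_natCast, ZMod.natCast_self, zero_mul] at this
    exact mul_self_eq_zero.1 this.symm
  rw [← norm_lt_one_iff, PadicInt.norm_lt_one_iff_dvd] at h1
  obtain ⟨w', rfl⟩ := h1
  have hp0 : (p : ℤ_[p]) ≠ 0 := by exact_mod_cast hp.out.ne_zero
  have h2 : u = p * (w' * w') := mul_left_cancel₀ hp0 (by linear_combination hw)
  apply hu
  rw [h2, map_mul, map_natCast, ZMod.natCast_self, zero_mul]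

theorem z13 : (2 : ZMod 13) ≠ 0 ∧ (2 : ZMod 13) ^ 2 = 1200 ∧ (12 : ZMod 13) ≠ 0 := by decide
theorem z17 : (2 : ZMod 17) ≠ 0 ∧ (8 : ZMod 17) ≠ 0 ∧ (8 : ZMod 17) ^ 2 = 795 ∧
    (15 : ZMod 17) ≠ 0 := by decide

theorem at13 [Fact (Nat.Prime 13)] :
    ∃ x y : ℤ_[13], y ^ 2 = x ^ 3 + 195364 * x ∧ ¬ IsSquare x := by
  obtain ⟨z, hz, -⟩ := hensel_odd (p := 13) z13.1 1200 2 z13.1
    (by rw [map_ofNat]; exact z13.2.1)
  refine ⟨((13 : ℕ) : ℤ_[13]) * 12, 169 * z, ?_, not_sq_of_val 12 (by rw [map_ofNat]; exact z13.2.2)⟩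
  push_cast
  linear_combination 28561 * hz

theorem at17 [Fact (Nat.Prime 17)] :
    ∃ x y : ℤ_[17], y ^ 2 = x ^ 3 + 195364 * x ∧ ¬ IsSquare x := by
  obtain ⟨z, hz, -⟩ := hensel_odd (p := 17) z17.1 795 8 z17.2.1
    (by rw [map_ofNat]; exact z17.2.2.1)
  refine ⟨((17 : ℕ) : ℤ_[17]) * 15, 289 * z, ?_, not_sq_of_val 15 (by rw [map_ofNat]; exact z17.2.2.2)⟩
  push_cast
  linear_combination 83521 * hz

theorem at2 [Fact (Nat.Prime 2)] :
    ∃ x y : ℤ_[2], y ^ 2 = x ^ 3 + 195364 * x ∧ ¬ IsSquare x := by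
  have hn : ‖(2 : ℤ_[2])‖ = 1 / 2 := by
    have : ‖((2 : ℕ) : ℤ_[2])‖ = ((2 : ℕ) : ℝ)⁻¹ := PadicInt.norm_p
    simpa using this
  obtain ⟨z, hz, -⟩ := hensel_sq (p := 2) 976945 1 (by
    have e : (1 : ℤ_[2]) ^ 2 - 976945 = 2 ^ 3 * (-122118) := by norm_num
    rw [e, norm_mul, norm_pow, mul_one, hn]
    have := PadicInt.norm_le_one (-122118 : ℤ_[2])
    nlinarith)
  refine ⟨5, z, by linear_combination hz, ?_⟩
  intro h
  have h2 := h.map (PadicInt.toZModPow 3)
  rw [map_ofNat] at h2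
  revert h2
  decide

theorem local_point (p : ℕ) [hp : Fact p.Prime] :
    ∃ x y : ℚ_[p], y ^ 2 = x ^ 3 + 195364 * x ∧ ¬ IsSquare x := by
  suffices h : ∃ x y : ℤ_[p], y ^ 2 = x ^ 3 + 195364 * x ∧ ¬ IsSquare x by
    obtain ⟨x, y, h1, h2⟩ := h
    refine ⟨x, y, ?_, fun h => h2 (isSquare_int_of x h)⟩
    have := congrArg (PadicInt.Coe.ringHom (p := p)) h1
    rw [map_pow, map_add, map_pow, map_mul, map_ofNat] at this
    exact this
  by_cases h2 : p = 2
  · subst h2; exact at2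
  by_cases h13 : p = 13
  · subst h13; exact at13
  by_cases h17 : p = 17
  · subst h17; exact at17
  apply good
  · intro h
    have : ((2 : ℕ) : ZMod p) = 0 := by exact_mod_cast h
    rw [ZMod.natCast_eq_zero_iff] at this
    exact h2 ((Nat.prime_dvd_prime_iff_eq hp.out Nat.prime_two).1 this)
  · intro h
    have : ((2 * 13 * 17 : ℕ) : ZMod p) = 0 := by exact_mod_cast h
    rw [ZMod.natCast_eq_zero_iff] at this
    rcases (Nat.Prime.dvd_mul hp.out).1 this with h | h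
    · rcases (Nat.Prime.dvd_mul hp.out).1 h with h | h
      · exact h2 ((Nat.prime_dvd_prime_iff_eq hp.out Nat.prime_two).1 h)
      · exact h13 ((Nat.prime_dvd_prime_iff_eq hp.out (by norm_num)).1 h)
    · exact h17 ((Nat.prime_dvd_prime_iff_eq hp.out (by norm_num)).1 h)

end Pool.Agent.H50.Local221
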