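import Mathlib

namespace Pool.Agent.H50.LogB

open MeasureTheory Set Filter Topology Real

noncomputable def K (p q : ℕ) (a b t : ℝ) : ℝ :=
  log t ^ p * log (1 - t) ^ q * exp (a * log t + b * log (1 - t))

noncomputable def J (p q : ℕ) (a b : ℝ) : ℝ := ∫ t in Ioo (0 : ℝ) 1, K p q a b t

lemma K_meas (p q : ℕ) (a b : ℝ) : Measurable (K p q a b) := by
  unfold K; fun_prop

lemma K00 (a b t : ℝ) (ht : t ∈ Ioo (0 : ℝ) 1) :
    ((K 0 0 a b t : ℝ) : ℂ) = (t : ℂ) ^ (((a + 1 : ℝ) : ℂ) - 1) * (1 - (t : ℂ)) ^ (((b + 1 : ℝ) : ℂ) - 1) := by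
  have h1 : 0 < 1 - t := by linarith [ht.2]
  have e1 : (((a + 1 : ℝ) : ℂ) - 1) = (a : ℂ) := by push_cast; ring
  have e2 : (((b + 1 : ℝ) : ℂ) - 1) = (b : ℂ) := by push_cast; ring
  have e3 : (1 - (t : ℂ)) = ((1 - t : ℝ) : ℂ) := by push_cast; ring
  rw [e1, e2, e3, ← Complex.ofReal_cpow ht.1.le, ← Complex.ofReal_cpow h1.le, ← Complex.ofReal_mul,
    rpow_def_of_pos ht.1, rpow_def_of_pos h1, ← exp_add]
  simp [K, mul_comm]

lemma int00 {a b : ℝ} (ha : -1 < a) (hb : -1 < b) : IntegrableOn (K 0 0 a b) (Ioo 0 1) := by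
  have h := Complex.betaIntegral_convergent (u := ((a + 1 : ℝ) : ℂ)) (v := ((b + 1 : ℝ) : ℂ))
    (by simp; linarith) (by simp; linarith)
  rw [intervalIntegrable_iff_integrableOn_Ioo_of_le zero_le_one] at h
  have h2 : IntegrableOn (fun t => ((K 0 0 a b t : ℝ) : ℂ)) (Ioo 0 1) :=
    h.congr_fun (fun t ht => (K00 a b t ht).symm) measurableSet_Ioo
  exact h2.re

lemma J00 {a b : ℝ} (ha : -1 < a) (hb : -1 < b) :
    J 0 0 a b = Gamma (a + 1) * Gamma (b + 1) / Gamma (a + b + 2) := by
  have h := Complex.betaIntegral_eq_Gamma_mul_div ((a + 1 : ℝ) : ℂ) ((b + 1 : ℝ) : ℂ)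
    (by simp; linarith) (by simp; linarith)
  rw [Complex.betaIntegral, intervalIntegral.integral_of_le zero_le_one,
    integral_Ioc_eq_integral_Ioo,
    ← setIntegral_congr_fun measurableSet_Ioo (fun t ht => K00 a b t ht), integral_complex_ofReal,
    ← Complex.ofReal_add, Complex.Gamma_ofReal, Complex.Gamma_ofReal, Complex.Gamma_ofReal] at h
  have e : a + 1 + (b + 1) = a + b + 2 := by ring
  rw [e] at h
  exact_mod_cast h

lemma pow_le (p : ℕ) {d x : ℝ} (hd : 0 < d) (hx : x ≤ 0) :
    |x| ^ p ≤ (p.factorial / d ^ p) * exp (-d * x) := by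
  have h := pow_div_factorial_le_exp (-d * x) (by nlinarith) p
  have hf : (0 : ℝ) < p.factorial := by exact_mod_cast p.factorial_pos
  rw [div_le_iff₀ hf] at h
  rw [div_mul_eq_mul_div, le_div_iff₀ (by positivity), ← mul_pow, abs_of_nonpos hx]
  calc (-x * d) ^ p = (-d * x) ^ p := by ring
    _ ≤ _ := by linarith

lemma intK (p q : ℕ) {a b : ℝ} (ha : -1 < a) (hb : -1 < b) :
    IntegrableOn (K p q a b) (Ioo 0 1) := by
  have hd : 0 < (a + 1) / 2 := by linarith
  have he : 0 < (b + 1) / 2 := by linarith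
  have h := (int00 (a := a - (a + 1) / 2) (b := b - (b + 1) / 2) (by linarith) (by linarith)).const_mul
    ((p.factorial / ((a + 1) / 2) ^ p) * (q.factorial / ((b + 1) / 2) ^ q))
  refine Integrable.mono' h (K_meas p q a b).aestronglyMeasurable ?_
  refine ae_restrict_of_forall_mem measurableSet_Ioo (fun t ht => ?_)
  have h1 : log t ≤ 0 := log_nonpos ht.1.le ht.2.le
  have h2 : log (1 - t) ≤ 0 := log_nonpos (by linarith [ht.2]) (by linarith [ht.1])
  have h3 := pow_le p hd h1
  have h4 := pow_le q he h2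
  simp only [K, norm_mul, norm_pow, Real.norm_eq_abs, abs_exp, pow_zero, one_mul]
  calc |log t| ^ p * |log (1 - t)| ^ q * exp (a * log t + b * log (1 - t))
      ≤ ((p.factorial / ((a + 1) / 2) ^ p) * exp (-((a + 1) / 2) * log t)) *
        ((q.factorial / ((b + 1) / 2) ^ q) * exp (-((b + 1) / 2) * log (1 - t))) *
        exp (a * log t + b * log (1 - t)) := by gcongr
    _ = _ := by
      have : exp ((a - (a + 1) / 2) * log t + (b - (b + 1) / 2) * log (1 - t)) =
          exp (-((a + 1) / 2) * log t) * exp (-((b + 1) / 2) * log (1 - t)) *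
          exp (a * log t + b * log (1 - t)) := by
        rw [← exp_add, ← exp_add]; congr 1; ring
      rw [this]; ring

lemma derJ (p q : ℕ) {a b : ℝ} (ha : -1 < a) (hb : -1 < b) :
    HasDerivAt (fun s => J p q s b) (J (p + 1) q a b) a := by
  have hd : -1 < (a - 1) / 2 := by linarith
  refine (hasDerivAt_integral_of_dominated_loc_of_deriv_le (μ := volume.restrict (Ioo (0 : ℝ) 1))
    (F := fun s t => K p q s b t) (F' := fun s t => K (p + 1) q s b t) (x₀ := a)
    (s := Ioi ((a - 1) / 2)) (bound := fun t => ‖K (p + 1) q ((a - 1) / 2) b t‖)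
    (Ioi_mem_nhds (by linarith)) (Eventually.of_forall fun s => (K_meas p q s b).aestronglyMeasurable)
    (intK p q ha hb) (K_meas _ _ _ _).aestronglyMeasurable ?_ (intK (p + 1) q hd hb).norm ?_).2
  · refine ae_restrict_of_forall_mem measurableSet_Ioo (fun t ht s hs => ?_)
    have h1 : log t ≤ 0 := log_nonpos ht.1.le ht.2.le
    simp only [K, norm_mul, norm_pow, Real.norm_eq_abs, abs_exp]
    have hs' : (a - 1) / 2 < s := hs
    have : s * log t + b * log (1 - t) ≤ (a - 1) / 2 * log t + b * log (1 - t) := by nlinarith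
    gcongr
  · refine Eventually.of_forall fun t s _ => ?_
    have h := (((hasDerivAt_id s).mul_const (log t)).add_const (b * log (1 - t))).exp.const_mul
      (log t ^ p * log (1 - t) ^ q)
    have e : K (p + 1) q s b t = log t ^ p * log (1 - t) ^ q *
      (rexp (id s * log t + b * log (1 - t)) * (1 * log t)) := by simp only [K, id]; ring
    rw [e]; exact h

lemma Jsymm (p q : ℕ) (a b : ℝ) : J p q a b = J q p b a := by
  unfold J
  rw [← integral_Ioc_eq_integral_Ioo, ← integral_Ioc_eq_integral_Ioo,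
    ← intervalIntegral.integral_of_le zero_le_one, ← intervalIntegral.integral_of_le zero_le_one]
  have h := intervalIntegral.integral_comp_sub_left (a := 0) (b := 1) (K q p b a) 1
  simp only [sub_zero, sub_self] at h
  rw [← h]
  congr 1; ext t
  simp only [K, sub_sub_cancel]
  rw [add_comm (b * _)]; ring

lemma Jpos {a b : ℝ} (ha : -1 < a) (hb : -1 < b) : 0 < J 0 0 a b := by
  rw [J00 ha hb]
  exact div_pos (mul_pos (Gamma_pos_of_pos (by linarith)) (Gamma_pos_of_pos (by linarith)))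
    (Gamma_pos_of_pos (by linarith))

lemma Jrec {a b : ℝ} (ha : -1 < a) (hb : -1 < b) :
    J 0 0 (a + 1) b = (a + 1) / (a + b + 2) * J 0 0 a b := by
  rw [J00 ha hb, J00 (by linarith) hb, Gamma_add_one (s := a + 1) (by linarith),
    show a + 1 + b + 2 = a + b + 2 + 1 by ring, Gamma_add_one (s := a + b + 2) (by linarith)]
  have : Gamma (a + b + 2) ≠ 0 := (Gamma_pos_of_pos (by linarith)).ne'
  have : a + b + 2 ≠ 0 := by linarith
  field_simp

noncomputable def r (a b : ℝ) : ℝ := J 1 0 a b / J 0 0 a b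

lemma rrec {a b : ℝ} (ha : -1 < a) (hb : -1 < b) :
    r (a + 1) b = r a b + (1 / (a + 1) - 1 / (a + b + 2)) := by
  have h1 : HasDerivAt (fun s => J 0 0 (s + 1) b) (J 1 0 (a + 1) b) a :=
    (derJ 0 0 (a := a + 1) (by linarith) hb).comp_add_const a 1
  have hne : a + b + 2 ≠ 0 := by linarith
  have h2 := (((hasDerivAt_id a).add_const 1).div (((hasDerivAt_id a).add_const b).add_const 2)
    hne).mul (derJ 0 0 ha hb)
  have h3 : (fun s => J 0 0 (s + 1) b) =ᶠ[𝓝 a] fun s => (s + 1) / (s + b + 2) * J 0 0 s b := by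
    filter_upwards [Ioi_mem_nhds ha] with s hs using Jrec hs hb
  have h4 := h1.unique (h2.congr_of_eventuallyEq h3)
  have hp := (Jpos ha hb).ne'
  have ha1 : a + 1 ≠ 0 := by linarith
  unfold r
  rw [h4, Jrec ha hb]
  simp only [id, Pi.div_apply, zero_add]
  field_simp
  ring

lemma rbd {a b : ℝ} (ha : 0 < a) (hb : -1 < b) : |r a b| ≤ (b + 1) / a := by
  have hp := Jpos (a := a) (by linarith) hb
  unfold r
  rw [abs_div, abs_of_pos hp, div_le_iff₀ hp]
  have e : J 0 0 (a - 1) (b + 1) = (b + 1) / a * J 0 0 a b := by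
    have h1 := Jrec (a := a - 1) (b := b) (by linarith) hb
    have h2 := Jrec (a := b) (b := a - 1) hb (by linarith)
    rw [Jsymm 0 0 (a - 1) (b + 1), h2, Jsymm 0 0 b (a - 1)]
    rw [sub_add_cancel] at h1
    rw [h1]
    have : a - 1 + b + 2 ≠ 0 := by linarith
    have : b + (a - 1) + 2 ≠ 0 := by linarith
    field_simp
    ring
  rw [← e]
  unfold J
  refine (abs_integral_le_integral_abs).trans ?_
  refine setIntegral_mono_on (intK 1 0 (by linarith) hb).abs (intK 0 0 (by linarith) (by linarith))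
    measurableSet_Ioo (fun t ht => ?_)
  have h1 : log t ≤ 0 := log_nonpos ht.1.le ht.2.le
  have h0 : 0 < 1 - t := by linarith [ht.2]
  simp only [K, pow_one, pow_zero, mul_one, one_mul, abs_mul, abs_exp, abs_of_nonpos h1]
  have e2 : exp ((a - 1) * log t + (b + 1) * log (1 - t)) =
      (t⁻¹ - 1) * exp (a * log t + b * log (1 - t)) := by
    have : (a - 1) * log t + (b + 1) * log (1 - t) =
      -log t + log (1 - t) + (a * log t + b * log (1 - t)) := by ring
    rw [this, exp_add, exp_add, exp_neg, exp_log ht.1, exp_log h0]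
    have := ht.1.ne'
    field_simp
  rw [e2]
  have h5 : -log t ≤ t⁻¹ - 1 := by
    rw [← log_inv]; exact log_le_sub_one_of_pos (inv_pos.2 ht.1)
  gcongr

lemma rsum {a b : ℝ} (ha : -1 < a) (hb : -1 < b) :
    Tendsto (fun n : ℕ => ∑ k ∈ Finset.range n, (1 / (k + (a + 1)) - 1 / (k + (a + b + 2)))) atTop
      (𝓝 (-r a b)) := by
  have e : ∀ n : ℕ, ∑ k ∈ Finset.range n, (1 / (k + (a + 1)) - 1 / (k + (a + b + 2))) =
      r (a + n) b - r a b := by
    intro n
    induction n with
    | zero => simp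
    | succ n ih =>
      have hn : (0 : ℝ) ≤ n := n.cast_nonneg
      rw [Finset.sum_range_succ, ih, Nat.cast_succ, ← add_assoc a, rrec (by linarith) hb]
      ring_nf
  simp_rw [e]
  have h0 : Tendsto (fun n : ℕ => r (a + n) b) atTop (𝓝 0) := by
    have h1 : Tendsto (fun n : ℕ => (b + 1) / (a + n)) atTop (𝓝 0) :=
      tendsto_const_nhds.div_atTop (tendsto_atTop_add_const_left _ _ tendsto_natCast_atTop_atTop)
    refine squeeze_zero_norm' ?_ h1
    filter_upwards [eventually_ge_atTop 1] with n hn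
    have : (1 : ℝ) ≤ n := by exact_mod_cast hn
    exact rbd (by linarith) hb
  simpa using h0.sub_const (r a b)

end Pool.Agent.H50.LogB
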