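import Pool.Agent.H50.LogB1

namespace Pool.Agent.H50.LogB

open MeasureTheory Set Filter Topology Real

noncomputable def T (m k : ℕ) (x : ℝ) : ℝ :=
  (if m = 0 then 1 / ((k : ℝ) + 1) else 0) - 1 / ((k : ℝ) + x) ^ (m + 1)

noncomputable def ph (m : ℕ) (x : ℝ) : ℝ := ∑' k, T m k x

lemma sm (m : ℕ) {d : ℝ} (hd : 0 < d) : Summable fun k : ℕ => 1 / ((k : ℝ) + d) ^ (m + 2) := by
  have h := (summable_one_div_nat_add_rpow d ((m + 2 : ℕ) : ℝ)).2 (by
    have : (0 : ℝ) ≤ m := m.cast_nonneg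
    push_cast; linarith)
  refine h.congr fun k => ?_
  rw [rpow_natCast, abs_of_pos (by positivity)]

lemma T_der (m k : ℕ) {x : ℝ} (hx : 0 < x) :
    HasDerivAt (T m k) (-((m : ℝ) + 1) * T (m + 1) k x) x := by
  have hk : (0 : ℝ) < k + x := by positivity
  have h := ((((hasDerivAt_id x).const_add (k : ℝ)).pow (m + 1)).inv
    (pow_ne_zero _ hk.ne')).const_sub (if m = 0 then 1 / ((k : ℝ) + 1) else 0)
  refine (h.congr_deriv ?_).congr_of_eventuallyEq (Eventually.of_forall fun y => ?_)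
  swap
  · simp [T]
  · simp only [T, id, Pi.pow_apply, Nat.add_sub_cancel]
    rw [if_neg (by omega)]
    push_cast
    field_simp
    ring

lemma T_bd (m k : ℕ) {d x : ℝ} (hd : 0 < d) (hx : x ∈ Ioi d) :
    ‖-((m : ℝ) + 1) * T (m + 1) k x‖ ≤ ((m : ℝ) + 1) * (1 / ((k : ℝ) + d) ^ (m + 2)) := by
  have hx' : d < x := hx
  have hx0 : 0 < x := hd.trans hx'
  simp only [T, if_neg (Nat.succ_ne_zero m), zero_sub, norm_mul, norm_neg, Real.norm_eq_abs]
  rw [abs_of_pos (by positivity), abs_of_pos (by positivity)]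
  gcongr

lemma T_one (m : ℕ) : Summable fun k => T m k 1 := by
  cases m with
  | zero => simp [T, summable_zero]
  | succ m => simpa [T] using (sm m one_pos).neg

lemma T_sum (m : ℕ) {x : ℝ} (hx : 0 < x) : Summable fun k => T m k x := by
  have hd : 0 < min x 1 / 2 := by positivity
  exact summable_of_summable_hasDerivAt_of_isPreconnected ((sm m hd).mul_left ((m : ℝ) + 1))
    isOpen_Ioi isPreconnected_Ioi (fun k y hy => T_der m k (hd.trans hy))
    (fun k y hy => T_bd m k hd hy) (y₀ := 1)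
    (by have := min_le_right x 1; simp only [mem_Ioi]; linarith) (T_one m)
    (by have := min_le_left x 1; simp only [mem_Ioi]; linarith)

lemma ph_der (m : ℕ) {x : ℝ} (hx : 0 < x) :
    HasDerivAt (ph m) (-((m : ℝ) + 1) * ph (m + 1) x) x := by
  have hd : 0 < x / 2 := by positivity
  have hx' : x ∈ Ioi (x / 2) := by simp only [mem_Ioi]; linarith
  have h := hasDerivAt_tsum_of_isPreconnected ((sm m hd).mul_left ((m : ℝ) + 1))
    isOpen_Ioi isPreconnected_Ioi (fun k y hy => T_der m k (hd.trans hy))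
    (fun k y hy => T_bd m k hd hy) hx' (T_sum m hx) hx'
  rw [tsum_mul_left] at h
  exact h

lemma r_eq {a b : ℝ} (ha : -1 < a) (hb : -1 < b) : r a b = ph 0 (a + 1) - ph 0 (a + b + 2) := by
  have h1 := ((T_sum 0 (x := a + b + 2) (by linarith)).hasSum.sub
    (T_sum 0 (x := a + 1) (by linarith)).hasSum).tendsto_sum_nat
  have h2 := rsum ha hb
  have e : ∀ k : ℕ, T 0 k (a + b + 2) - T 0 k (a + 1) =
      1 / (k + (a + 1)) - 1 / (k + (a + b + 2)) := by
    intro k; simp only [T, if_true, zero_add, pow_one]; ring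
  simp_rw [e] at h1
  have := tendsto_nhds_unique h1 h2
  unfold ph; linarith

lemma ph_two (m : ℕ) : ph m 2 = ph m 1 + 1 := by
  have h1 := ((T_sum m (x := 2) two_pos).hasSum.sub (T_sum m (x := 1) one_pos).hasSum).tendsto_sum_nat
  have e : ∀ k : ℕ, T m k 2 - T m k 1 =
      1 / (((k : ℕ) : ℝ) + 1) ^ (m + 1) - 1 / (((k + 1 : ℕ) : ℝ) + 1) ^ (m + 1) := by
    intro k; simp only [T]; push_cast; rw [add_assoc, one_add_one_eq_two]; ring
  simp_rw [e, Finset.sum_range_sub' (fun k : ℕ => 1 / ((k : ℝ) + 1) ^ (m + 1))] at h1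
  have h2 : Tendsto (fun n : ℕ => 1 / ((n : ℝ) + 1) ^ (m + 1)) atTop (𝓝 0) := by
    have := tendsto_one_div_add_atTop_nhds_zero_nat (𝕜 := ℝ) |>.pow (m + 1)
    simpa using this
  have h3 := tendsto_nhds_unique h1 (h2.const_sub _)
  unfold ph
  simp at h3
  linarith

def S : Set (ℝ × ℝ → ℝ) :=
  {f | ∃ m v w : ℕ, v ≤ 1 ∧ w ≤ 1 ∧ 1 ≤ v + w ∧ f = fun z => ph m (v * (z.1 + 1) + w * (z.2 + 1))}

noncomputable def F : Subalgebra ℚ (ℝ × ℝ → ℝ) := Algebra.adjoin ℚ S

lemma F_der {f : ℝ × ℝ → ℝ} (hf : f ∈ F) : ∃ g ∈ F, ∀ a b : ℝ, -1 < a → -1 < b →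
    HasDerivAt (fun s => f (s, b)) (g (a, b)) a := by
  induction hf using Algebra.adjoin_induction with
  | mem f hf =>
    obtain ⟨m, v, w, hv, hw, hvw, rfl⟩ := hf
    refine ⟨(-((m : ℚ) + 1) * v) • fun z => ph (m + 1) (v * (z.1 + 1) + w * (z.2 + 1)),
      F.smul_mem (Algebra.subset_adjoin ⟨m + 1, v, w, hv, hw, hvw, rfl⟩) _, fun a b ha hb => ?_⟩
    have hp : (0 : ℝ) < v * (a + 1) + w * (b + 1) := by
      have h1 : (1 : ℝ) ≤ v + w := by exact_mod_cast hvw
      have h2 : (0 : ℝ) ≤ v := v.cast_nonneg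
      have h3 : (0 : ℝ) ≤ w := w.cast_nonneg
      have h4 : 0 < min (a + 1) (b + 1) := lt_min (by linarith) (by linarith)
      nlinarith [mul_le_mul_of_nonneg_left (min_le_left (a + 1) (b + 1)) h2,
        mul_le_mul_of_nonneg_left (min_le_right (a + 1) (b + 1)) h3]
    have h := (ph_der m hp).comp a
      ((((hasDerivAt_id a).add_const 1).const_mul (v : ℝ)).add_const (w * (b + 1)))
    refine h.congr_deriv ?_
    simp only [Pi.smul_apply, Rat.smul_def]; push_cast; ring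
  | algebraMap c => exact ⟨0, F.zero_mem, fun a b _ _ => hasDerivAt_const a _⟩
  | add f g _ _ hf hg =>
    obtain ⟨f', h1, h2⟩ := hf
    obtain ⟨g', h3, h4⟩ := hg
    exact ⟨f' + g', F.add_mem h1 h3, fun a b ha hb => (h2 a b ha hb).add (h4 a b ha hb)⟩
  | mul f g hf0 hg0 hf hg =>
    obtain ⟨f', h1, h2⟩ := hf
    obtain ⟨g', h3, h4⟩ := hg
    exact ⟨f' * g + f * g', F.add_mem (F.mul_mem h1 hg0) (F.mul_mem hf0 h3),
      fun a b ha hb => (h2 a b ha hb).mul (h4 a b ha hb)⟩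

lemma F_swap {f : ℝ × ℝ → ℝ} (hf : f ∈ F) : (fun z : ℝ × ℝ => f z.swap) ∈ F := by
  induction hf using Algebra.adjoin_induction with
  | mem f hf =>
    obtain ⟨m, v, w, hv, hw, hvw, rfl⟩ := hf
    refine Algebra.subset_adjoin ⟨m, w, v, hw, hv, by omega, ?_⟩
    ext z; simp [add_comm]
  | algebraMap c => exact F.algebraMap_mem c
  | add f g _ _ hf hg => exact F.add_mem hf hg
  | mul f g _ _ hf hg => exact F.mul_mem hf hg

lemma step {p q : ℕ} (h : ∃ f ∈ F, ∀ a b : ℝ, -1 < a → -1 < b → J p q a b = f (a, b) * J 0 0 a b) :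
    ∃ f ∈ F, ∀ a b : ℝ, -1 < a → -1 < b → J (p + 1) q a b = f (a, b) * J 0 0 a b := by
  obtain ⟨f, hf, h⟩ := h
  obtain ⟨g, hg, hd⟩ := F_der hf
  have m1 : (fun z : ℝ × ℝ => ph 0 (((1 : ℕ) : ℝ) * (z.1 + 1) + ((0 : ℕ) : ℝ) * (z.2 + 1))) ∈ F :=
    Algebra.subset_adjoin ⟨0, 1, 0, le_rfl, zero_le_one, le_rfl, rfl⟩
  have m2 : (fun z : ℝ × ℝ => ph 0 (((1 : ℕ) : ℝ) * (z.1 + 1) + ((1 : ℕ) : ℝ) * (z.2 + 1))) ∈ F :=
    Algebra.subset_adjoin ⟨0, 1, 1, le_rfl, le_rfl, by omega, rfl⟩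
  refine ⟨_, F.add_mem hg (F.mul_mem hf (F.sub_mem m1 m2)), fun a b ha hb => ?_⟩
  have h3 : (fun s => J p q s b) =ᶠ[𝓝 a] fun s => f (s, b) * J 0 0 s b := by
    filter_upwards [Ioi_mem_nhds ha] with s hs using h s b hs hb
  have h4 := (derJ p q ha hb).unique (((hd a b ha hb).mul (derJ 0 0 ha hb)).congr_of_eventuallyEq h3)
  have h5 := r_eq ha hb
  unfold r at h5
  rw [div_eq_iff (Jpos ha hb).ne'] at h5
  rw [h4, zero_add, h5]
  simp only [Pi.add_apply, Pi.mul_apply, Pi.sub_apply, Nat.cast_one, Nat.cast_zero, one_mul,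
    zero_mul, add_zero, show a + 1 + (b + 1) = a + b + 2 by ring]
  ring

lemma main (p q : ℕ) :
    ∃ f ∈ F, ∀ a b : ℝ, -1 < a → -1 < b → J p q a b = f (a, b) * J 0 0 a b := by
  induction p with
  | succ p ih => exact step ih
  | zero =>
    have : ∃ f ∈ F, ∀ a b : ℝ, -1 < a → -1 < b → J q 0 a b = f (a, b) * J 0 0 a b := by
      induction q with
      | succ q ih => exact step ih
      | zero => exact ⟨1, F.one_mem, fun a b _ _ => by simp⟩
    obtain ⟨f, hf, h⟩ := this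
    refine ⟨_, F_swap hf, fun a b ha hb => ?_⟩
    rw [Jsymm, h b a hb ha, Jsymm 0 0 b a]; rfl

lemma J_mem (A : Subalgebra ℚ ℝ) (hA : ∀ m : ℕ, (∑' k : ℕ, 1 / ((k : ℝ) + 1) ^ (m + 2)) ∈ A)
    (p q : ℕ) : J p q 0 0 ∈ A := by
  have h1 : ∀ m, ph m 1 ∈ A := by
    intro m
    cases m with
    | zero => simp [ph, T, A.zero_mem]
    | succ m =>
      have := A.neg_mem (hA m)
      rw [← tsum_neg] at this
      simpa [ph, T] using this
  obtain ⟨f, hf, h⟩ := main p q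
  rw [h 0 0 (by norm_num) (by norm_num), J00 (by norm_num) (by norm_num)]
  have e : Gamma ((0 : ℝ) + 1) * Gamma (0 + 1) / Gamma (0 + 0 + 2) = 1 := by simp
  rw [e, mul_one]
  clear h
  induction hf using Algebra.adjoin_induction with
  | mem f hf =>
    obtain ⟨m, v, w, hv, hw, hvw, rfl⟩ := hf
    have : (v : ℝ) * (0 + 1) + w * (0 + 1) = 1 ∨ (v : ℝ) * (0 + 1) + w * (0 + 1) = 2 := by
      interval_cases v <;> interval_cases w <;> first | omega | norm_num
    rcases this with h | h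
    · simp only [h]; exact h1 m
    · simp only [h, ph_two]; exact A.add_mem (h1 m) A.one_mem
  | algebraMap c => exact A.algebraMap_mem c
  | add f g _ _ hf hg => exact A.add_mem hf hg
  | mul f g _ _ hf hg => exact A.mul_mem hf hg

end Pool.Agent.H50.LogB
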