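import Pool.Agent.H50.LogB2

namespace Pool.Agent.H50.LogB

open MeasureTheory Set Filter Topology Real

noncomputable def E (p q : ℕ) (t : ℝ) : ℝ := (log 2 + log t) ^ p * (log 2 + log (1 - t)) ^ q

lemma E_gen (A : Subalgebra ℚ ℝ) (h2 : log 2 ∈ A) (hJ : ∀ p q, J p q 0 0 ∈ A) (p q i j : ℕ) :
    IntegrableOn (fun t => E p q t * K i j 0 0 t) (Ioo 0 1) ∧
      (∫ t in Ioo (0 : ℝ) 1, E p q t * K i j 0 0 t) ∈ A := by
  induction p generalizing i with
  | succ p ih =>
    have e : (fun t => E (p + 1) q t * K i j 0 0 t) =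
        fun t => log 2 * (E p q t * K i j 0 0 t) + E p q t * K (i + 1) j 0 0 t := by
      ext t; simp only [E, K]; ring
    rw [e]
    refine ⟨((ih i).1.const_mul _).add (ih (i + 1)).1, ?_⟩
    rw [integral_add ((ih i).1.const_mul _) (ih (i + 1)).1, integral_const_mul]
    exact A.add_mem (A.mul_mem h2 (ih i).2) (ih (i + 1)).2
  | zero =>
    induction q generalizing j with
    | succ q ih =>
      have e : (fun t => E 0 (q + 1) t * K i j 0 0 t) =
          fun t => log 2 * (E 0 q t * K i j 0 0 t) + E 0 q t * K i (j + 1) 0 0 t := by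
        ext t; simp only [E, K]; ring
      rw [e]
      refine ⟨((ih j).1.const_mul _).add (ih (j + 1)).1, ?_⟩
      rw [integral_add ((ih j).1.const_mul _) (ih (j + 1)).1, integral_const_mul]
      exact A.add_mem (A.mul_mem h2 (ih j).2) (ih (j + 1)).2
    | zero =>
      simp only [E, pow_zero, one_mul]
      exact ⟨intK i j (by norm_num) (by norm_num), hJ i j⟩

lemma E_int (p q : ℕ) : IntervalIntegrable (E p q) volume 0 1 := by
  rw [intervalIntegrable_iff_integrableOn_Ioo_of_le zero_le_one]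
  simpa [K] using (E_gen ⊤ trivial (fun _ _ => trivial) p q 0 0).1

lemma E_int' (p q : ℕ) : IntervalIntegrable (E p q) volume 0 (1 / 2) :=
  (E_int p q).mono_set (uIcc_subset_uIcc_left (by norm_num))

lemma E_mem (A : Subalgebra ℚ ℝ) (h2 : log 2 ∈ A) (hJ : ∀ p q, J p q 0 0 ∈ A) (p q : ℕ) :
    (∫ t in (0 : ℝ)..(1 / 2), E p q t) + (∫ t in (0 : ℝ)..(1 / 2), E q p t) ∈ A := by
  have h := (E_gen A h2 hJ p q 0 0).2
  simp only [K, pow_zero, zero_mul, add_zero, exp_zero, mul_one] at h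
  rw [← integral_Ioc_eq_integral_Ioo, ← intervalIntegral.integral_of_le zero_le_one,
    ← intervalIntegral.integral_add_adjacent_intervals (b := 1 / 2) (E_int' p q)
      ((E_int p q).mono_set (uIcc_subset_uIcc_right (by norm_num)))] at h
  have h3 := intervalIntegral.integral_comp_sub_left (a := 0) (b := 1 / 2) (E p q) 1
  rw [sub_zero, show (1 : ℝ) - 1 / 2 = 1 / 2 by norm_num] at h3
  rw [← h3] at h
  convert h using 3
  ext t
  simp only [E, sub_sub_cancel]; ring

lemma Q_int (p q : ℕ) : IntervalIntegrable (fun t => E p q t * (1 - t)⁻¹) volume 0 (1 / 2) := by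
  refine (E_int' p q).mul_continuousOn (ContinuousOn.inv₀ (by fun_prop) fun t ht => ?_)
  rw [uIcc_of_le (by norm_num)] at ht
  linarith [ht.2]

lemma ibp (n : ℕ) : ((n : ℝ) + 1) * ∫ t in (0 : ℝ)..(1 / 2), E (n + 1) n t * (1 - t)⁻¹ =
    (∫ t in (0 : ℝ)..(1 / 2), E (n + 1) (n + 1) t) + ((n : ℝ) + 1) *
      ((∫ t in (0 : ℝ)..(1 / 2), E n (n + 1) t) + (∫ t in (0 : ℝ)..(1 / 2), E (n + 1) n t)) := by
  have hi := ((E_int' (n + 1) (n + 1)).add (((E_int' n (n + 1)).add (E_int' (n + 1) n)).const_mul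
    ((n : ℝ) + 1))).sub ((Q_int (n + 1) n).const_mul ((n : ℝ) + 1))
  have h := intervalIntegral.integral_eq_sub_of_hasDerivAt_of_tendsto (a := 0) (b := 1 / 2)
    (f := fun t => t * E (n + 1) (n + 1) t) (fa := 0) (fb := 0) (by norm_num) ?_ hi ?_ ?_
  · rw [intervalIntegral.integral_sub ((E_int' (n + 1) (n + 1)).add (((E_int' n (n + 1)).add
      (E_int' (n + 1) n)).const_mul ((n : ℝ) + 1))) ((Q_int (n + 1) n).const_mul ((n : ℝ) + 1)),
      intervalIntegral.integral_add (E_int' (n + 1) (n + 1)) (((E_int' n (n + 1)).add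
      (E_int' (n + 1) n)).const_mul ((n : ℝ) + 1)), intervalIntegral.integral_const_mul,
      intervalIntegral.integral_const_mul,
      intervalIntegral.integral_add (E_int' n (n + 1)) (E_int' (n + 1) n)] at h
    linarith
  · intro t ht
    have h0 : t ≠ 0 := ht.1.ne'
    have h1 : 1 - t ≠ 0 := by linarith [ht.2]
    have h := (hasDerivAt_id t).mul ((((hasDerivAt_log h0).const_add (log 2)).pow (n + 1)).mul
      (((((hasDerivAt_id t).const_sub 1).log h1).const_add (log 2)).pow (n + 1)))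
    refine h.congr_deriv ?_
    simp only [E, id, Pi.pow_apply, Pi.mul_apply, Nat.add_sub_cancel]
    push_cast
    field_simp
    ring
  · have h1 : Tendsto (fun t : ℝ => -(log 2 + log t)) (𝓝[>] 0) atTop :=
      tendsto_neg_atBot_atTop.comp (tendsto_atBot_add_const_left _ _ tendsto_log_nhdsGT_zero)
    have h2 := (tendsto_pow_mul_exp_neg_atTop_nhds_zero (n + 1)).comp h1
    have h3 : Tendsto (fun t : ℝ => (-1) ^ (n + 1) / 2 * (log 2 + log (1 - t)) ^ (n + 1)) (𝓝[>] 0)
        (𝓝 ((-1) ^ (n + 1) / 2 * (log 2 + log (1 - 0)) ^ (n + 1))) := by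
      refine (ContinuousAt.tendsto ?_).mono_left nhdsWithin_le_nhds
      have : (1 : ℝ) - 0 ≠ 0 := by norm_num
      fun_prop (disch := assumption)
    have h4 := h2.mul h3
    rw [zero_mul] at h4
    refine h4.congr' ?_
    filter_upwards [self_mem_nhdsWithin] with t ht
    have ht' : 0 < t := ht
    simp only [Function.comp, neg_neg, E, exp_add, exp_log ht', exp_log (two_pos : (0 : ℝ) < 2)]
    rw [neg_pow]
    have : ((-1 : ℝ) ^ (n + 1)) * (-1) ^ (n + 1) = 1 := by rw [← mul_pow]; simp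
    linear_combination (t * (log 2 + log t) ^ (n + 1) * (log 2 + log (1 - t)) ^ (n + 1)) * this
  · have h3 : ContinuousAt (fun t => t * E (n + 1) (n + 1) t) (1 / 2) := by
      unfold E
      have : (1 : ℝ) - 1 / 2 ≠ 0 := by norm_num
      have : (1 : ℝ) / 2 ≠ 0 := by norm_num
      fun_prop (disch := assumption)
    have h4 := h3.tendsto.mono_left (nhdsWithin_le_nhds (s := Iio (1 / 2)))
    have e : (1 / 2 : ℝ) * E (n + 1) (n + 1) (1 / 2) = 0 := by simp [E]
    rwa [e] at h4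

lemma Q_mem (A : Subalgebra ℚ ℝ) (h2 : log 2 ∈ A) (hJ : ∀ p q, J p q 0 0 ∈ A) (n : ℕ) :
    (∫ t in (0 : ℝ)..(1 / 2), E (n + 1) n t * (1 - t)⁻¹) ∈ A := by
  have h1 := A.add_mem (A.smul_mem (E_mem A h2 hJ (n + 1) (n + 1)) (1 / (2 * ((n : ℚ) + 1))))
    (E_mem A h2 hJ n (n + 1))
  convert h1 using 1
  have h := ibp n
  have : (n : ℝ) + 1 ≠ 0 := by positivity
  rw [Rat.smul_def]
  push_cast
  generalize (∫ t in (0 : ℝ)..(1 / 2), E (n + 1) n t * (1 - t)⁻¹) = u at h ⊢
  field_simp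
  linarith

end Pool.Agent.H50.LogB
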