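import Mathlib

namespace Pool.Agent.H50.Nara

open MvPolynomial

/-- The `m`-th symbolic power: the intersection over the minimal primes `P` of `I` of the
contractions of `I^m R_P`. -/
def symb {R : Type} [CommRing R] (I : Ideal R) (m : ℕ) : Ideal R :=
  ⨅ P : {P : Ideal R // P ∈ I.minimalPrimes},
    haveI : P.1.IsPrime := P.2.1.1
    Ideal.comap (algebraMap R (Localization.AtPrime P.1))
      (Ideal.map (algebraMap R (Localization.AtPrime P.1)) (I ^ m))

/-- The big height: the largest height of a minimal prime. -/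
noncomputable def bight {R : Type} [CommRing R] (I : Ideal R) : ℕ∞ :=
  ⨆ P ∈ I.minimalPrimes, P.height

abbrev K := ZMod 2
abbrev A := MvPolynomial (Fin 4) K

noncomputable def phi : A →ₐ[K] Polynomial K :=
  aeval ![Polynomial.X ^ 32, Polynomial.X ^ 7, Polynomial.X ^ 19, Polynomial.X ^ 15]

noncomputable def psi0 : A →ₐ[K] Polynomial K :=
  aeval ![Polynomial.X, 0, 0, 0]

noncomputable def P0 : Ideal A := RingHom.ker phi.toRingHom

instance P0_prime : P0.IsPrime := RingHom.ker_isPrime _

noncomputable def m0 : Ideal A := RingHom.ker (constantCoeff : A →+* K)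

instance m0_max : m0.IsMaximal :=
  RingHom.ker_isMaximal_of_surjective _ (fun c => ⟨C c, by simp⟩)

theorem phi_mon (s : Fin 4 →₀ ℕ) (c : K) :
    phi (monomial s c) = Polynomial.monomial (32 * s 0 + 7 * s 1 + 19 * s 2 + 15 * s 3) c := by
  simp only [phi, aeval_monomial, Finsupp.prod_fintype _ _ (fun _ => pow_zero _),
    Fin.prod_univ_four]
  simp only [Matrix.cons_val_zero, Matrix.cons_val_one, Matrix.cons_val, ← pow_mul, ← pow_add]
  rw [Polynomial.algebraMap_eq, Polynomial.C_mul_X_pow_eq_monomial]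

theorem psi0_mon (s : Fin 4 →₀ ℕ) (c : K) :
    psi0 (monomial s c) =
      if s 1 = 0 ∧ s 2 = 0 ∧ s 3 = 0 then Polynomial.monomial (s 0) c else 0 := by
  simp only [psi0, aeval_monomial, Finsupp.prod_fintype _ _ (fun _ => pow_zero _),
    Fin.prod_univ_four]
  simp only [Matrix.cons_val_zero, Matrix.cons_val_one, Matrix.cons_val]
  split_ifs with h
  · obtain ⟨h1, h2, h3⟩ := h
    rw [h1, h2, h3, Polynomial.algebraMap_eq]
    simp [Polynomial.C_mul_X_pow_eq_monomial]
  · by_cases h1 : s 1 = 0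
    · by_cases h2 : s 2 = 0
      · have h3 : s 3 ≠ 0 := fun h3 => h ⟨h1, h2, h3⟩
        simp [h3]
      · simp [h2]
    · simp [h1]

theorem arith (a b c d : ℕ) (h : 32 * a + 7 * b + 19 * c + 15 * d = 32) :
    b = 0 ∧ c = 0 ∧ d = 0 := by
  have ha : a ≤ 1 := by omega
  have hc : c ≤ 1 := by omega
  have hd : d ≤ 2 := by omega
  interval_cases a <;> interval_cases c <;> interval_cases d <;> omega

theorem coeff_rel (g : A) :
    (psi0 g).coeff 0 = (phi g).coeff 0 ∧ (psi0 g).coeff 1 = (phi g).coeff 32 := by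
  induction g using MvPolynomial.induction_on' with
  | monomial s c =>
    rw [phi_mon, psi0_mon]
    constructor
    · split_ifs with h
      · obtain ⟨h1, h2, h3⟩ := h
        rw [Polynomial.coeff_monomial, Polynomial.coeff_monomial]
        by_cases h0 : s 0 = 0
        · rw [if_pos h0, if_pos (by omega)]
        · rw [if_neg h0, if_neg (by omega)]
      · rw [Polynomial.coeff_monomial, if_neg (by omega)]; simp
    · split_ifs with h
      · obtain ⟨h1, h2, h3⟩ := h
        rw [Polynomial.coeff_monomial, Polynomial.coeff_monomial]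
        by_cases h0 : s 0 = 1
        · rw [if_pos h0, if_pos (by omega)]
        · rw [if_neg h0, if_neg (by omega)]
      · rw [Polynomial.coeff_monomial, if_neg (fun h' => h (arith _ _ _ _ h'))]; simp
  | add p q hp hq =>
    simp only [map_add, Polynomial.coeff_add, hp.1, hp.2, hq.1, hq.2, and_self]

theorem coeff0 (g : A) : (psi0 g).coeff 0 = constantCoeff g := by
  induction g using MvPolynomial.induction_on with
  | C c => simp [psi0]
  | add p q hp hq => simp only [map_add, Polynomial.coeff_add, hp, hq]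
  | mul_X p i hp =>
    rw [map_mul, map_mul, Polynomial.mul_coeff_zero, hp, constantCoeff_X]
    congr 1
    fin_cases i <;> simp [psi0]

theorem P0_le : P0 ≤ m0 := by
  intro g hg
  have h : phi g = 0 := hg
  have h1 := (coeff_rel g).1
  rw [h, coeff0] at h1
  exact h1

abbrev R := Localization.AtPrime m0

noncomputable def I : Ideal R := P0.map (algebraMap A R)

theorem disj : Disjoint (m0.primeCompl : Set A) (P0 : Set A) := by
  rw [Set.disjoint_left]
  intro a ha hb
  exact ha (P0_le hb)

instance I_prime : I.IsPrime :=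
  IsLocalization.isPrime_of_isPrime_disjoint m0.primeCompl R P0 P0_prime disj

theorem mem_I (g : A) : algebraMap A R g ∈ I ↔ g ∈ P0 := by
  have h : (P0.map (algebraMap A R)).comap (algebraMap A R) = P0 :=
    IsLocalization.under_map_of_isPrime_disjoint m0.primeCompl R P0_prime disj
  rw [← Ideal.mem_comap]
  unfold I
  rw [h]

noncomputable def f : A := X 0 ^ 2 + X 1 * X 2 ^ 3 + X 2 * X 3 ^ 3 + X 1 ^ 7 * X 3
noncomputable def D : A := X 0 * X 3 + X 1 ^ 4 * X 2
noncomputable def B : A := X 1 * X 2 ^ 2 + X 3 ^ 3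
noncomputable def E : A := X 2 * X 3 ^ 2 + X 1 ^ 7

theorem two_A : (2 : A) = 0 := CharTwo.two_eq_zero
theorem two_T : (2 : Polynomial K) = 0 := CharTwo.two_eq_zero

theorem key : X 3 ^ 2 * f = D * D + B * E := by
  unfold f D B E
  linear_combination (-(X 0 * X 3 * X 1 ^ 4 * X 2) - X 1 ^ 8 * X 2 ^ 2) * two_A

theorem D_mem : D ∈ P0 := by
  change phi D = 0
  simp only [D, phi, map_add, map_mul, map_pow, aeval_X, Matrix.cons_val_zero,
    Matrix.cons_val_one, Matrix.cons_val]
  linear_combination (Polynomial.X ^ 47) * two_T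

theorem B_mem : B ∈ P0 := by
  change phi B = 0
  simp only [B, phi, map_add, map_mul, map_pow, aeval_X, Matrix.cons_val_zero,
    Matrix.cons_val_one, Matrix.cons_val]
  linear_combination (Polynomial.X ^ 45) * two_T

theorem E_mem : E ∈ P0 := by
  change phi E = 0
  simp only [E, phi, map_add, map_mul, map_pow, aeval_X, Matrix.cons_val_zero,
    Matrix.cons_val_one, Matrix.cons_val]
  linear_combination (Polynomial.X ^ 49) * two_T

theorem w_not : (X 3 : A) ∉ P0 := by
  intro h
  have h1 : phi (X 3) = 0 := h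
  simp [phi] at h1

theorem B_ne : B ≠ 0 := by
  intro h
  have h1 := congrArg (eval ![0, 0, 0, (1 : K)]) h
  simp [B] at h1

theorem I_ne_bot : I ≠ ⊥ := by
  intro h
  have h1 := (mem_I B).2 B_mem
  rw [h, Ideal.mem_bot] at h1
  have hinj : Function.Injective (algebraMap A R) :=
    IsLocalization.injective R m0.primeCompl_le_nonZeroDivisors
  exact B_ne (hinj (by rw [h1, map_zero]))

theorem wf_mem : algebraMap A R (X 3) ^ 2 * algebraMap A R f ∈ I ^ 2 := by
  rw [← map_pow, ← map_mul, key, map_add, map_mul, map_mul, pow_two]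
  exact Ideal.add_mem _ (Ideal.mul_mem_mul ((mem_I _).2 D_mem) ((mem_I _).2 D_mem))
    (Ideal.mul_mem_mul ((mem_I _).2 B_mem) ((mem_I _).2 E_mem))

theorem f_symb (k : ℕ) : algebraMap A R f ^ k ∈ symb I (2 * k) := by
  unfold symb
  rw [Ideal.mem_iInf]
  rintro ⟨P, hP⟩
  have hPI : P = I := by
    have := hP
    rw [Ideal.minimalPrimes_eq_subsingleton_self] at this
    exact this
  subst hPI
  rw [Ideal.mem_comap]
  have hw : algebraMap A R (X 3) ∈ I.primeCompl := fun h => w_not ((mem_I _).1 h)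
  have hu : IsUnit (algebraMap R (Localization.AtPrime I) (algebraMap A R (X 3))) :=
    IsLocalization.map_units (Localization.AtPrime I) (⟨_, hw⟩ : I.primeCompl)
  have h1 : (algebraMap A R (X 3) ^ 2 * algebraMap A R f) ^ k ∈ I ^ (2 * k) := by
    rw [pow_mul]
    exact Ideal.pow_mem_pow wf_mem k
  have h2 := Ideal.mem_map_of_mem (algebraMap R (Localization.AtPrime I)) h1
  rw [mul_pow, map_mul, map_pow, map_pow] at h2
  exact (Ideal.unit_mul_mem_iff_mem _ ((hu.pow 2).pow k)).1 h2

noncomputable def psi1 : A →+* PowerSeries K :=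
  (Polynomial.coeToPowerSeries.ringHom).comp psi0.toRingHom

theorem psi1_apply (g : A) : psi1 g = (psi0 g : PowerSeries K) := rfl

theorem psi1_unit (y : m0.primeCompl) : IsUnit (psi1 y) := by
  rw [PowerSeries.isUnit_iff_constantCoeff, psi1_apply, Polynomial.constantCoeff_coe, coeff0]
  have h : constantCoeff (y : A) ≠ 0 := y.2
  exact h.isUnit

noncomputable def psi : R →+* PowerSeries K := IsLocalization.lift psi1_unit

theorem psi_alg (g : A) : psi (algebraMap A R g) = (psi0 g : PowerSeries K) :=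
  IsLocalization.lift_eq psi1_unit g

noncomputable def J : Ideal (PowerSeries K) := Ideal.span {PowerSeries.X}

theorem map_m : (IsLocalRing.maximalIdeal R).map psi ≤ J := by
  rw [← Localization.AtPrime.map_eq_maximalIdeal, Ideal.map_map, Ideal.map_le_iff_le_comap]
  intro g hg
  rw [Ideal.mem_comap, RingHom.comp_apply, psi_alg, J, Ideal.mem_span_singleton,
    PowerSeries.X_dvd_iff, Polynomial.constantCoeff_coe, coeff0]
  exact hg

theorem map_I : I.map psi ≤ J ^ 2 := by
  unfold I
  rw [Ideal.map_map, Ideal.map_le_iff_le_comap]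
  intro g hg
  have h : phi g = 0 := hg
  obtain ⟨h0, h1⟩ := coeff_rel g
  rw [h] at h0 h1
  rw [Ideal.mem_comap, RingHom.comp_apply, psi_alg, J, Ideal.span_singleton_pow,
    Ideal.mem_span_singleton, PowerSeries.X_pow_dvd_iff]
  intro m hm
  rw [Polynomial.coeff_coe]
  interval_cases m
  · simpa using h0
  · simpa using h1

theorem psi_f : psi (algebraMap A R f) = PowerSeries.X ^ 2 := by
  rw [psi_alg]
  simp [f, psi0]

theorem main (k : ℕ) :
    ¬ symb I (2 * (k + 1)) ≤ IsLocalRing.maximalIdeal R ^ (2 * k) * I ^ 2 := by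
  intro h
  have h1 := Ideal.mem_map_of_mem psi (h (f_symb (k + 1)))
  rw [Ideal.map_mul, Ideal.map_pow, Ideal.map_pow, map_pow, psi_f] at h1
  have h2 : (IsLocalRing.maximalIdeal R).map psi ^ (2 * k) * I.map psi ^ 2 ≤
      J ^ (2 * k) * (J ^ 2) ^ 2 :=
    Ideal.mul_mono (Ideal.pow_right_mono map_m _) (Ideal.pow_right_mono map_I _)
  have h3 := h2 h1
  rw [← pow_mul, ← pow_add, ← pow_mul, J, Ideal.span_singleton_pow, Ideal.mem_span_singleton,
    PowerSeries.X_pow_dvd_iff] at h3
  have h4 := h3 (2 * (k + 1)) (by omega)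
  simp at h4

instance R_reg : IsRegularLocalRing R := inferInstance

theorem ht_nat (P : Ideal R) [hP : P.IsPrime] (h : P ≠ ⊥) : ∃ k : ℕ, P.height = (k + 1 : ℕ) := by
  have h1 : P.height ≠ ⊤ := Ideal.height_ne_top hP.ne_top
  have h0 : P.height ≠ 0 := fun h0 => h (Ideal.height_eq_zero_iff_eq_bot.1 h0)
  obtain ⟨e, he⟩ := ENat.ne_top_iff_exists.1 h1
  rcases e with _ | k
  · exact absurd he.symm h0
  · exact ⟨k, he.symm⟩

theorem dim_nat : ∃ k : ℕ, ringKrullDim R = (k + 1 : ℕ) := by
  have hm : IsLocalRing.maximalIdeal R ≠ ⊥ := fun h =>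
    I_ne_bot (le_bot_iff.1 (h ▸ IsLocalRing.le_maximalIdeal I_prime.ne_top))
  obtain ⟨k, hk⟩ := ht_nat _ hm
  refine ⟨k, ?_⟩
  rw [← IsLocalRing.maximalIdeal_height_eq_ringKrullDim, hk]
  rfl

theorem bight_nat : ∃ k : ℕ, bight I = (k + 1 : ℕ) := by
  obtain ⟨k, hk⟩ := ht_nat _ I_ne_bot
  refine ⟨k, ?_⟩
  rw [bight, Ideal.minimalPrimes_eq_subsingleton_self, ← hk]
  simp

end Pool.Agent.H50.Nara
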