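import Mathlib

set_option autoImplicit false

namespace Pool.Agent.H50.SeshDefs

open MvPolynomial

/-- `F` vanishes to order exactly `m` at the vector `v`: it lies in the `m`-th but not in the
`(m+1)`-th power of the maximal ideal of `v`.  For a form `F` and `v ≠ 0` this is the multiplicity
of the plane curve `F = 0` at the point `[v]`. -/
def HasMult (F : MvPolynomial (Fin 3) ℂ) (v : Fin 3 → ℂ) (m : ℕ) : Prop :=
  F ∈ RingHom.ker (eval v) ^ m ∧ F ∉ RingHom.ker (eval v) ^ (m + 1)

end Pool.Agent.H50.SeshDefs
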