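import Mathlib
import Pool.Agent.H50.SeshDefs

set_option autoImplicit false
set_option linter.unusedSimpArgs false

namespace Pool.Agent.H50.SeshAlg

open MvPolynomial Pool.Agent.H50.SeshDefs

abbrev R := MvPolynomial (Fin 3) ℂ

theorem hom0 {p : R} (h : p.IsHomogeneous 0) : ∃ c0 : ℂ, ∀ v : Fin 3 → ℂ, eval v p = c0 := by
  rw [← totalDegree_zero_iff_isHomogeneous, totalDegree_eq_zero_iff_eq_C] at h
  exact ⟨coeff 0 p, fun v => by rw [h]; simp⟩

theorem euler {p : R} {n : ℕ} (h : p.IsHomogeneous n) (v : Fin 3 → ℂ) :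
    v 0 * eval v (pderiv 0 p) + v 1 * eval v (pderiv 1 p) +
      v 2 * eval v (pderiv 2 p) = n * eval v p := by
  simpa [Fin.sum_univ_three] using congrArg (eval v) h.sum_X_mul_pderiv

theorem hom1 {p : R} (h : p.IsHomogeneous 1) :
    ∃ c0 c1 c2 : ℂ, ∀ v : Fin 3 → ℂ, eval v p = c0 * v 0 + c1 * v 1 + c2 * v 2 := by
  obtain ⟨a0, ha⟩ := hom0 (h.pderiv (i := 0))
  obtain ⟨b0, hb⟩ := hom0 (h.pderiv (i := 1))
  obtain ⟨d0, hd⟩ := hom0 (h.pderiv (i := 2))
  refine ⟨a0, b0, d0, fun v => ?_⟩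
  have e := euler h v
  rw [ha, hb, hd] at e
  push_cast at e
  linear_combination (-1 : ℂ) * e

theorem hom2 {p : R} (h : p.IsHomogeneous 2) :
    ∃ c0 c1 c2 c3 c4 c5 : ℂ, ∀ v : Fin 3 → ℂ, eval v p =
      c0 * v 0 ^ 2 + c1 * v 0 * v 1 + c2 * v 0 * v 2 + c3 * v 1 ^ 2 + c4 * v 1 * v 2
        + c5 * v 2 ^ 2 := by
  obtain ⟨a0, a1, a2, ha⟩ := hom1 (h.pderiv (i := 0))
  obtain ⟨b0, b1, b2, hb⟩ := hom1 (h.pderiv (i := 1))
  obtain ⟨d0, d1, d2, hd⟩ := hom1 (h.pderiv (i := 2))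
  refine ⟨(a0) / 2, (a1 + b0) / 2, (a2 + d0) / 2, (b1) / 2, (b2 + d1) / 2, (d2) / 2, fun v => ?_⟩
  have e := euler h v
  rw [ha, hb, hd] at e
  push_cast at e
  linear_combination (-1 / 2 : ℂ) * e

/-- no conic through the points -/
def NoConic {n : ℕ} (p : Fin n → Fin 3 → ℂ) : Prop :=
  ∀ c0 c1 c2 c3 c4 c5 : ℂ, (∀ i, c0 * p i 0 ^ 2 + c1 * p i 0 * p i 1 + c2 * p i 0 * p i 2 +
    c3 * p i 1 ^ 2 + c4 * p i 1 * p i 2 + c5 * p i 2 ^ 2 = 0) →
    c0 = 0 ∧ c1 = 0 ∧ c2 = 0 ∧ c3 = 0 ∧ c4 = 0 ∧ c5 = 0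

noncomputable def ray (v : Fin 3 → ℂ) : R →ₐ[ℂ] Polynomial ℂ :=
  aeval fun i => Polynomial.C (v i) * Polynomial.X

theorem eval_ray (v : Fin 3 → ℂ) (s : ℂ) (P : R) :
    (ray v P).eval s = eval (s • v) P := by
  induction P using MvPolynomial.induction_on with
  | C a => simp [ray]
  | add p q hp hq => simp [hp, hq]
  | mul_X p i hp => simp [ray] at hp ⊢; rw [hp]; simp [mul_comm]

theorem eval_smul_hom {D : R} {n : ℕ} (h : D.IsHomogeneous n) (v : Fin 3 → ℂ) (s : ℂ) :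
    eval (s • v) D = s ^ n * eval v D := by
  rw [eval_eq', eval_eq', Finset.mul_sum]
  refine Finset.sum_congr rfl fun d hd => ?_
  have hd' : ∑ i, d i = n := by
    have := h.degree_eq_sum_deg_support hd
    rw [this]
    exact (Finset.sum_subset (Finset.subset_univ _) (fun x _ hx => by simpa using hx)).symm
  simp only [Pi.smul_apply, smul_eq_mul, mul_pow, Finset.prod_mul_distrib,
    Finset.prod_pow_eq_pow_sum, hd']
  ring

theorem key {n : ℕ} {p : Fin n → Fin 3 → ℂ} (hp : NoConic p) {D P Q : R}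
    (hD : D.IsHomogeneous 3) (hD0 : D ≠ 0) (hv : ∀ i, eval (p i) D = 0) (e : D = P * Q)
    (hP : ∀ i, eval (p i) P ≠ 0) : IsUnit P := by
  have hP0 : P ≠ 0 := by rintro rfl; simp at e; exact hD0 e
  have hQ0 : Q ≠ 0 := by rintro rfl; simp at e; exact hD0 e
  have hdeg : P.totalDegree + Q.totalDegree = 3 := by
    rw [← totalDegree_mul_of_isDomain hP0 hQ0, ← e, hD.totalDegree hD0]
  by_cases h0 : P.totalDegree = 0
  · rw [totalDegree_eq_zero_iff_eq_C] at h0
    rw [h0] at hP0 ⊢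
    have : coeff 0 P ≠ 0 := by intro h; apply hP0; rw [h]; simp
    exact (IsUnit.mk0 _ this).map C
  exfalso
  have hQ : Q = homogeneousComponent 0 Q + homogeneousComponent 1 Q + homogeneousComponent 2 Q := by
    conv_lhs => rw [← sum_homogeneousComponent Q]
    have : ∑ i ∈ Finset.range (Q.totalDegree + 1), homogeneousComponent i Q =
        ∑ i ∈ Finset.range 3, homogeneousComponent i Q := by
      refine Finset.sum_subset (Finset.range_subset_range.2 (by omega)) fun x _ hx => ?_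
      exact homogeneousComponent_eq_zero _ _ (by simp at hx; omega)
    rw [this]; simp [Finset.sum_range_succ]
  obtain ⟨a, ha⟩ := hom0 (homogeneousComponent_isHomogeneous 0 Q)
  obtain ⟨b0, b1, b2, hb⟩ := hom1 (homogeneousComponent_isHomogeneous 1 Q)
  obtain ⟨c0, c1, c2, c3, c4, c5, hc⟩ := hom2 (homogeneousComponent_isHomogeneous 2 Q)
  have hQv : ∀ v : Fin 3 → ℂ, eval v Q = a + (b0 * v 0 + b1 * v 1 + b2 * v 2) +
      (c0 * v 0 ^ 2 + c1 * v 0 * v 1 + c2 * v 0 * v 2 + c3 * v 1 ^ 2 + c4 * v 1 * v 2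
        + c5 * v 2 ^ 2) := by
    intro v
    rw [← ha v, ← hb v, ← hc v, ← map_add, ← map_add, ← hQ]
  have hz : ∀ i (s : ℂ), eval (s • p i) Q = 0 := by
    intro i s
    have h1 : ray (p i) D = 0 := by
      apply Polynomial.funext
      intro s
      rw [eval_ray, eval_smul_hom hD, hv]; simp
    rw [e, map_mul] at h1
    rcases mul_eq_zero.1 h1 with h | h
    · exfalso
      have := eval_ray (p i) 1 P
      rw [h] at this
      simp at this
      exact hP i this.symm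
    · rw [← eval_ray, h]; simp
  have hA : ∀ i, a = 0 ∧ b0 * p i 0 + b1 * p i 1 + b2 * p i 2 = 0 ∧
      c0 * p i 0 ^ 2 + c1 * p i 0 * p i 1 + c2 * p i 0 * p i 2 +
      c3 * p i 1 ^ 2 + c4 * p i 1 * p i 2 + c5 * p i 2 ^ 2 = 0 := by
    intro i
    have e0 := hz i 0
    have e1 := hz i 1
    have e2 := hz i (-1)
    rw [hQv] at e0 e1 e2
    simp only [Pi.smul_apply, smul_eq_mul] at e0 e1 e2
    refine ⟨by linear_combination e0, by linear_combination (e1 - e2) / 2,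
      by linear_combination (e1 + e2) / 2 - e0⟩
  obtain ⟨r0, r1, r2, r3, r4, r5⟩ := hp c0 c1 c2 c3 c4 c5 fun i => (hA i).2.2
  obtain ⟨-, -, s0, -, s1, s2⟩ := hp 0 0 b0 0 b1 b2 fun i => by
    linear_combination p i 2 * (hA i).2.1
  obtain ⟨-, -, -, -, -, s3⟩ := hp 0 0 0 0 0 a fun i => by
    rw [(hA i).1]; ring
  apply hQ0
  apply MvPolynomial.funext
  intro v
  rw [hQv, r0, r1, r2, r3, r4, r5, s0, s1, s2, s3]; simp

theorem sqfree {n : ℕ} {p : Fin n → Fin 3 → ℂ} (hp : NoConic p) {D : R}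
    (hD : D.IsHomogeneous 3) (hD0 : D ≠ 0) (hv : ∀ i, eval (p i) D = 0)
    (hd : ∀ i, eval (p i) (pderiv 0 D) ≠ 0) : Squarefree D := by
  rintro P ⟨L, e⟩
  refine key hp hD hD0 hv (e.trans (mul_assoc _ _ _)) fun i h => hd i ?_
  rw [e]; simp [h]

theorem relprime {n : ℕ} {p : Fin n → Fin 3 → ℂ} (hp : NoConic p) {D E : R}
    (hD : D.IsHomogeneous 3) (hD0 : D ≠ 0) (hv : ∀ i, eval (p i) D = 0)
    (hd : ∀ i, eval (p i) (pderiv 0 D) * eval (p i) (pderiv 1 E) -
      eval (p i) (pderiv 1 D) * eval (p i) (pderiv 0 E) ≠ 0) : IsRelPrime D E := by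
  rintro P ⟨Q, e⟩ ⟨Q', e'⟩
  refine key hp hD hD0 hv e fun i h => hd i ?_
  rw [e, e']; simp [h]; ring

noncomputable def lin (v : Fin 3 → ℂ) : R →ₐ[ℂ] Polynomial ℂ :=
  aeval fun i => Polynomial.C (v i) + if i = 0 then Polynomial.X else 0

theorem lin_eval (v : Fin 3 → ℂ) (P : R) : (lin v P).eval 0 = eval v P := by
  induction P using MvPolynomial.induction_on with
  | C a => simp [lin]
  | add p q hp hq => simp [hp, hq]
  | mul_X p i hp =>
    rw [map_mul, Polynomial.eval_mul, hp]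
    simp [lin]
    left
    split_ifs <;> simp

theorem lin_deriv (v : Fin 3 → ℂ) (P : R) :
    (Polynomial.derivative (lin v P)).eval 0 = eval v (pderiv 0 P) := by
  induction P using MvPolynomial.induction_on with
  | C a => simp [lin]
  | add p q hp hq => simp [hp, hq]
  | mul_X p i hp =>
    rw [map_mul, Polynomial.derivative_mul, Polynomial.eval_add, Polynomial.eval_mul,
      Polynomial.eval_mul, hp, lin_eval, lin_eval]
    by_cases h : i = 0
    · subst h; simp [lin]; ring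
    · simp [lin, h, Pi.single_apply, Ne.symm h]; ring

theorem lin_pow (v : Fin 3 → ℂ) (k : ℕ) {F : R} (h : F ∈ RingHom.ker (eval v) ^ k) :
    Polynomial.X ^ k ∣ lin v F := by
  have h1 : (RingHom.ker (eval v)).map (lin v) ≤ Ideal.span {Polynomial.X} := by
    rw [Ideal.map_le_iff_le_comap]
    intro P hP
    rw [Ideal.mem_comap, Ideal.mem_span_singleton, Polynomial.X_dvd_iff,
      Polynomial.coeff_zero_eq_eval_zero, lin_eval]
    exact hP
  have h2 := Ideal.mem_map_of_mem (lin v) h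
  rw [Ideal.map_pow] at h2
  have h3 := Ideal.pow_right_mono h1 k h2
  rwa [Ideal.span_singleton_pow, Ideal.mem_span_singleton] at h3

theorem lin_simple {v : Fin 3 → ℂ} {D : R} (h : eval v D = 0) (hd : eval v (pderiv 0 D) ≠ 0) :
    ∃ u, lin v D = Polynomial.X * u ∧ u.eval 0 ≠ 0 := by
  have : Polynomial.X ∣ lin v D := by
    rw [Polynomial.X_dvd_iff, Polynomial.coeff_zero_eq_eval_zero, lin_eval, h]
  obtain ⟨u, hu⟩ := this
  refine ⟨u, hu, fun h0 => hd ?_⟩
  rw [← lin_deriv, hu]; simp [h0]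

theorem mult3 {v : Fin 3 → ℂ} {A B D : R} (hA : eval v A = 0) (hB : eval v B = 0)
    (hD : eval v D = 0) (dA : eval v (pderiv 0 A) ≠ 0) (dB : eval v (pderiv 0 B) ≠ 0)
    (dD : eval v (pderiv 0 D) ≠ 0) : HasMult (A * B * D) v 3 := by
  refine ⟨?_, fun h => ?_⟩
  · rw [pow_succ, pow_two]
    exact Ideal.mul_mem_mul (Ideal.mul_mem_mul hA hB) hD
  · obtain ⟨a, ha, ha'⟩ := lin_simple hA dA
    obtain ⟨b, hb, hb'⟩ := lin_simple hB dB
    obtain ⟨d, hd, hd'⟩ := lin_simple hD dD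
    have := lin_pow v _ h
    rw [map_mul, map_mul, ha, hb, hd, show Polynomial.X * a * (Polynomial.X * b) *
      (Polynomial.X * d) = Polynomial.X ^ 3 * (a * b * d) by ring, pow_succ,
      mul_dvd_mul_iff_left (pow_ne_zero _ Polynomial.X_ne_zero), Polynomial.X_dvd_iff,
      Polynomial.coeff_zero_eq_eval_zero] at this
    simp [ha', hb', hd'] at this

theorem mult1 {v : Fin 3 → ℂ} {A B : R} (hA : eval v A = 0) (dA : eval v (pderiv 0 A) ≠ 0)
    (hB : eval v B ≠ 0) : HasMult (A * B) v 1 := by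
  refine ⟨?_, fun h => ?_⟩
  · rw [pow_one]
    exact Ideal.mul_mem_right _ _ hA
  · obtain ⟨a, ha, ha'⟩ := lin_simple hA dA
    have := lin_pow v _ h
    rw [map_mul, ha, mul_assoc, pow_succ, pow_one,
      mul_dvd_mul_iff_left Polynomial.X_ne_zero, Polynomial.X_dvd_iff,
      Polynomial.coeff_zero_eq_eval_zero, Polynomial.eval_mul, lin_eval] at this
    simp [ha', hB] at this

theorem indep {u v : Fin 3 → ℂ}
    (h : (u 0 + 3 * u 1) * v 2 - (v 0 + 3 * v 1) * u 2 ≠ 0) : LinearIndependent ℂ ![u, v] := by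
  rw [LinearIndependent.pair_iff]
  intro s t e
  have e0 := congrFun e 0
  have e1 := congrFun e 1
  have e2 := congrFun e 2
  simp at e0 e1 e2
  constructor
  · apply (mul_eq_zero.1 (?_ : s * ((u 0 + 3 * u 1) * v 2 - (v 0 + 3 * v 1) * u 2) = 0)).resolve_right h
    linear_combination v 2 * e0 + 3 * v 2 * e1 - (v 0 + 3 * v 1) * e2
  · apply (mul_eq_zero.1 (?_ : t * ((u 0 + 3 * u 1) * v 2 - (v 0 + 3 * v 1) * u 2) = 0)).resolve_right h
    linear_combination -u 2 * e0 - 3 * u 2 * e1 + (u 0 + 3 * u 1) * e2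

theorem baire {σ : Type} [Fintype σ] (G : ℕ → MvPolynomial σ ℂ) (hG : ∀ n, G n ≠ 0)
    {e0 : σ → ℂ} {U : Set (σ → ℂ)} (hU : U ∈ nhds e0) : ∃ e ∈ U, ∀ n, eval e (G n) ≠ 0 := by
  have hd : Dense (⋂ n, {e : σ → ℂ | eval e (G n) ≠ 0}) := by
    refine dense_iInter_of_isOpen_nat (fun n => ?_) fun n => ?_
    · exact isOpen_ne_fun (MvPolynomial.continuous_eval _) continuous_const
    · intro x
      by_contra hx
      rw [mem_closure_iff_nhds] at hx
      push Not at hx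
      obtain ⟨t, ht, ht'⟩ := hx
      have h1 : (fun e : σ → ℂ => eval e (G n)) =ᶠ[nhds x] 0 := by
        filter_upwards [ht] with y hy
        by_contra hne
        have : y ∈ t ∩ {e : σ → ℂ | eval e (G n) ≠ 0} := ⟨hy, hne⟩
        rw [ht'] at this
        exact this
      have h2 := (AnalyticOnNhd.eval_mvPolynomial (G n)).eqOn_zero_of_preconnected_of_eventuallyEq_zero
        isPreconnected_univ (Set.mem_univ x) h1
      exact hG n (MvPolynomial.funext fun y => by simpa using h2 (Set.mem_univ y))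
  obtain ⟨e, he⟩ := hd.inter_nhds_nonempty hU
  exact ⟨e, he.2, fun n => Set.mem_iInter.1 he.1 n⟩

end Pool.Agent.H50.SeshAlg
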