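import Mathlib
import Pool.Agent.H50.FatOrd
import Pool.Agent.H50.SeshAlg

set_option linter.unusedSimpArgs false

namespace Pool.Agent.H50.NefSp

open MvPolynomial Pool.Agent.H50.FatPts Pool.Agent.H50.FatOrd

abbrev S := MvPolynomial (Fin 3) ℂ

noncomputable abbrev IP (v : Fin 3 → ℂ) : Ideal S :=
  Ideal.span (Set.range fun ab : Fin 3 × Fin 3 => C (v ab.1) * X ab.2 - C (v ab.2) * X ab.1)

noncomputable def cur (A B : Polynomial ℂ) : S →ₐ[ℂ] Polynomial ℂ := aeval ![A, B, 1]

theorem eval_cur (A B : Polynomial ℂ) (t : ℂ) (F : S) :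
    (cur A B F).eval t = eval ![A.eval t, B.eval t, 1] F := by
  induction F using MvPolynomial.induction_on with
  | C a => simp [cur]
  | add p q hp hq => simp [hp, hq]
  | mul_X p i hp =>
    rw [map_mul, Polynomial.eval_mul, hp, map_mul]
    congr 1
    fin_cases i <;> simp [cur]

theorem dvd_cur (A B : Polynomial ℂ) (t : ℂ) (m : ℕ) (F : S)
    (h : F ∈ IP ![A.eval t, B.eval t, 1] ^ m) : (Polynomial.X - Polynomial.C t) ^ m ∣ cur A B F := by
  have h1 := Ideal.mem_map_of_mem (cur A B) h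
  rw [Ideal.map_pow] at h1
  rw [← Ideal.mem_span_singleton, ← Ideal.span_singleton_pow]
  refine Ideal.pow_right_mono ?_ m h1
  rw [Ideal.map_span, Ideal.span_le]
  rintro _ ⟨_, ⟨ab, rfl⟩, rfl⟩
  rw [SetLike.mem_coe, Ideal.mem_span_singleton, Polynomial.dvd_iff_isRoot, Polynomial.IsRoot,
    eval_cur]
  simp [mul_comm]

theorem eval_IP (v : Fin 3 → ℂ) (F : S) (h : F ∈ IP v) : eval v F = 0 := by
  have : IP v ≤ RingHom.ker (eval v) := by
    rw [Ideal.span_le]
    rintro _ ⟨ab, rfl⟩
    simp [mul_comm]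
  exact this h

theorem prod_dvd {ι : Type} [Fintype ι] (t : ι → ℂ) (ht : Function.Injective t) (μ : ι → ℕ)
    (G : Polynomial ℂ) (h : ∀ i, (Polynomial.X - Polynomial.C (t i)) ^ μ i ∣ G) :
    (∏ i, (Polynomial.X - Polynomial.C (t i)) ^ μ i) ∣ G :=
  Finset.prod_dvd_of_coprime
    (fun i _ j _ hij => (Polynomial.pairwise_coprime_X_sub_C ht hij).pow) (fun i _ => h i)

theorem prod_monic {ι : Type} [Fintype ι] (t : ι → ℂ) (μ : ι → ℕ) :
    (∏ i, (Polynomial.X - Polynomial.C (t i)) ^ μ i).Monic :=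
  Polynomial.monic_prod_of_monic _ _ fun i _ => (Polynomial.monic_X_sub_C _).pow _

theorem prod_deg {ι : Type} [Fintype ι] (t : ι → ℂ) (μ : ι → ℕ) :
    (∏ i, (Polynomial.X - Polynomial.C (t i)) ^ μ i).natDegree = ∑ i, μ i := by
  rw [Polynomial.natDegree_prod_of_monic _ _ fun i _ => (Polynomial.monic_X_sub_C _).pow _]
  simp

theorem deg_cur (A B : Polynomial ℂ) (k n : ℕ) (hA : A.natDegree ≤ k) (hB : B.natDegree ≤ k)
    (F : S) (hF : F.totalDegree ≤ n) : (cur A B F).natDegree ≤ n * k := by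
  refine aeval_natDegree_le F hF _ fun i => ?_
  fin_cases i
  · exact hA
  · exact hB
  · simp

def PP (t : ℂ) : ℂ := t ^ 4 - 53 * t ^ 2

noncomputable def Pp : Polynomial ℂ := Polynomial.X ^ 4 - 53 * Polynomial.X ^ 2

theorem eval_Pp (t : ℂ) : Pp.eval t = PP t := by simp [Pp, PP]

theorem deg_Pp : Pp.natDegree ≤ 4 := by unfold Pp; compute_degree

noncomputable def Q : S := X 2 ^ 3 * X 1 + (53 * X 0 ^ 2 * X 2 ^ 2 - X 0 ^ 4)

theorem eval_Q (x y z : ℂ) : eval ![x, y, z] Q = z ^ 3 * y + (53 * x ^ 2 * z ^ 2 - x ^ 4) := by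
  simp [Q]

theorem Q_hom : Q.IsHomogeneous 4 := by
  have h53 : (53 : S).IsHomogeneous 0 := isHomogeneous_C _ 53
  exact (((isHomogeneous_X _ 2).pow 3).mul (isHomogeneous_X _ 1)).add
    (((h53.mul ((isHomogeneous_X _ 0).pow 2)).mul ((isHomogeneous_X _ 2).pow 2)).sub
      ((isHomogeneous_X _ 0).pow 4))

theorem Q_irr : Irreducible Q := by
  classical
  refine irreducible_mul_X_add _ _ 1 (pow_ne_zero _ (X_ne_zero _)) ?_ ?_ ?_
  · intro h
    have := vars_pow _ _ h
    simp [vars_X] at this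
  · intro h
    have h53 : (53 : S) = C 53 := rfl
    have h1 := vars_sub_subset _ h
    rw [Finset.mem_union] at h1
    rcases h1 with h1 | h1
    · have h2 := vars_mul _ _ h1
      rw [Finset.mem_union] at h2
      rcases h2 with h2 | h2
      · have h3 := vars_mul _ _ h2
        rw [Finset.mem_union, h53, vars_C] at h3
        rcases h3 with h3 | h3
        · simp at h3
        · have := vars_pow _ _ h3
          simp [vars_X] at this
      · have := vars_pow _ _ h2
        simp [vars_X] at this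
    · have := vars_pow _ _ h1
      simp [vars_X] at this
  · refine IsRelPrime.pow_left ?_
    rw [(X_prime (i := (2 : Fin 3)) (R := ℂ)).irreducible.isRelPrime_iff_not_dvd]
    rintro ⟨u, hu⟩
    have := congrArg (eval ![1, 0, 0]) hu
    simp at this

theorem vec3 (v : Fin 3 → ℂ) : v = ![v 0, v 1, v 2] := by
  funext i; fin_cases i <;> rfl

theorem zero_of_affine (h : S) (hz : ∀ x y z : ℂ, z ≠ 0 → eval ![x, y, z] h = 0) : h = 0 := by
  have : X 2 * h = 0 := by
    apply MvPolynomial.funext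
    intro v
    rw [map_mul, map_zero, eval_X]
    by_cases h2 : v 2 = 0
    · rw [h2, zero_mul]
    · rw [vec3 v, hz _ _ _ h2, mul_zero]
  exact (mul_eq_zero.1 this).resolve_left (X_ne_zero _)

theorem scale {F : S} {n : ℕ} (hF : F.IsHomogeneous n) (x y z : ℂ) (hz : z ≠ 0) :
    eval ![x, y, z] F = z ^ n * eval ![x / z, y / z, 1] F := by
  rw [← Pool.Agent.H50.SeshAlg.eval_smul_hom hF]
  congr 2
  funext i
  fin_cases i <;> simp <;> field_simp

theorem reduce (g : S) : ∃ (N : ℕ) (h : S), Q ∣ X 2 ^ N * g - h ∧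
    ∀ x y y' z : ℂ, eval ![x, y, z] h = eval ![x, y', z] h := by
  induction g using MvPolynomial.induction_on with
  | C a => exact ⟨0, C a, by simp, by simp⟩
  | add p q hp hq =>
    obtain ⟨N1, h1, d1, i1⟩ := hp
    obtain ⟨N2, h2, d2, i2⟩ := hq
    refine ⟨N1 + N2, X 2 ^ N2 * h1 + X 2 ^ N1 * h2, ?_, ?_⟩
    · have := dvd_add (d1.mul_left (X 2 ^ N2)) (d2.mul_left (X 2 ^ N1))
      rwa [show X 2 ^ N2 * (X 2 ^ N1 * p - h1) + X 2 ^ N1 * (X 2 ^ N2 * q - h2) =
        X 2 ^ (N1 + N2) * (p + q) - (X 2 ^ N2 * h1 + X 2 ^ N1 * h2) by ring] at this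
    · intro x y y' z
      simp only [map_add, map_mul, map_pow, eval_X, i1 x y y' z, i2 x y y' z]
      simp
  | mul_X p i hp =>
    obtain ⟨N, h, d, ih⟩ := hp
    fin_cases i
    · refine ⟨N, h * X 0, ?_, ?_⟩
      · have := d.mul_right (X 0)
        rwa [sub_mul, mul_assoc] at this
      · intro x y y' z
        simp only [map_mul, eval_X, ih x y y' z]
        simp
    · refine ⟨N + 3, h * (X 0 ^ 4 - 53 * X 0 ^ 2 * X 2 ^ 2), ?_, ?_⟩
      · have := dvd_add (d.mul_right (X 2 ^ 3 * X 1)) (dvd_mul_left Q h)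
        rwa [show (X 2 ^ N * p - h) * (X 2 ^ 3 * X 1) + h * Q =
          X 2 ^ (N + 3) * (p * X 1) - h * (X 0 ^ 4 - 53 * X 0 ^ 2 * X 2 ^ 2) by
            unfold Q; ring] at this
      · intro x y y' z
        simp only [map_mul, eval_X, ih x y y' z]
        simp
    · refine ⟨N, h * X 2, ?_, ?_⟩
      · have := d.mul_right (X 2)
        rwa [sub_mul, mul_assoc] at this
      · intro x y y' z
        simp only [map_mul, eval_X, ih x y y' z]
        simp

theorem Q_dvd {g : S} {e : ℕ} (hg : g.IsHomogeneous e) (h0 : cur Polynomial.X Pp g = 0) :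
    Q ∣ g := by
  obtain ⟨N, h, ⟨u, hu⟩, ih⟩ := reduce g
  have hh : h = 0 := by
    apply zero_of_affine
    intro x y z hz
    rw [ih x y (z * PP (x / z)) z]
    have e1 := congrArg (eval ![x, z * PP (x / z), z]) hu
    have e2 : eval ![x, z * PP (x / z), z] Q = 0 := by
      rw [eval_Q, PP]; field_simp; ring
    have e3 : eval ![x, z * PP (x / z), z] g = 0 := by
      rw [scale hg _ _ _ hz, mul_div_cancel_left₀ _ hz]
      have := eval_cur Polynomial.X Pp (x / z) g
      rw [h0, Polynomial.eval_X, eval_Pp] at this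
      rw [← this]; simp
    rw [map_sub, map_mul, map_mul, e2, e3] at e1
    simpa using e1
  rw [hh, sub_zero] at hu
  have hp := Q_irr.prime
  rcases hp.dvd_or_dvd (⟨u, hu⟩ : Q ∣ X 2 ^ N * g) with h1 | h1
  · exfalso
    obtain ⟨w, hw⟩ := hp.dvd_of_dvd_pow h1
    have := congrArg (eval ![0, 0, 1]) hw
    rw [map_mul, eval_Q] at this
    simp at this
  · exact h1

theorem Q_simple (t : ℂ) : Q ∉ IP ![t, PP t, 1] ^ 2 := by
  intro h
  have h1 := dvd_cur (Polynomial.C t) (Polynomial.X + Polynomial.C (PP t)) 0 2 Q (by simpa using h)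
  have h2 : cur (Polynomial.C t) (Polynomial.X + Polynomial.C (PP t)) Q = Polynomial.X := by
    apply Polynomial.funext
    intro s
    rw [eval_cur, eval_Q]
    simp [PP]
    ring
  rw [h2] at h1
  have := Polynomial.natDegree_le_of_dvd h1 Polynomial.X_ne_zero
  simp at this

theorem assoc_simple (t : ℂ) (g : S) (h : Associated Q g) (k : ℕ) (hk : g ∈ IP ![t, PP t, 1] ^ k) :
    k ≤ 1 := by
  by_contra hc
  obtain ⟨u, hu⟩ := h.symm
  apply Q_simple t
  rw [← hu]
  exact Ideal.mul_mem_right _ _ (Ideal.pow_le_pow_right (by omega) hk)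

def tz : Fin 15 → ℤ := ![-8, -1, 4, 5, -7, -2, 2, 7, -5, -4, 1, 8, 0, 3, -3]

def ts (i : Fin 15) : ℂ := tz i

theorem ts_inj : Function.Injective ts := fun _ _ h =>
  (by decide : Function.Injective tz) (Int.cast_injective h)

def pt (i : Fin 15) : Fin 3 → ℂ := ![ts i, PP (ts i), 1]

theorem unit_hom {u : S} {e : ℕ} (hu : IsUnit u) (he : u.IsHomogeneous e) : e = 0 := by
  obtain ⟨w, hw⟩ := hu.exists_right_inv
  have h0 : w ≠ 0 := by rintro rfl; simp at hw
  have := totalDegree_mul_of_isDomain hu.ne_zero h0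
  rw [hw, totalDegree_one, he.totalDegree hu.ne_zero] at this
  omega

theorem nef (e : ℕ) (g : S) (hg : g.IsHomogeneous e) (hi : Irreducible g) (μ : Fin 15 → ℕ)
    (hm : ∀ i, g ∈ IP (pt i) ^ μ i) : ∑ i, 1 * μ i ≤ 4 * e := by
  simp only [one_mul]
  by_cases h0 : cur Polynomial.X Pp g = 0
  · have ha : Associated Q g := Q_irr.associated_of_dvd hi (Q_dvd hg h0)
    have h1 : ∀ i, μ i ≤ 1 := fun i => assoc_simple _ g ha _ (hm i)
    have h2 : ∑ i, μ i ≤ ∑ _i : Fin 15, 1 := Finset.sum_le_sum fun i _ => h1 i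
    obtain ⟨u, hu⟩ := ha
    have h3 := totalDegree_mul_of_isDomain Q_irr.ne_zero u.ne_zero
    rw [hu, hg.totalDegree hi.ne_zero, Q_hom.totalDegree Q_irr.ne_zero] at h3
    simp at h2
    omega
  · have h1 := prod_dvd ts ts_inj μ _ fun i => dvd_cur Polynomial.X Pp (ts i) (μ i) g (by
      rw [Polynomial.eval_X, eval_Pp]; exact hm i)
    have h2 := Polynomial.natDegree_le_of_dvd h1 h0
    have h3 := deg_cur Polynomial.X Pp 4 e (by simp) deg_Pp g hg.totalDegree_le
    rw [prod_deg] at h2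
    omega

def eN : Fin 15 → ℕ × ℕ := ![(0,0), (0,1), (0,2), (0,3), (0,4), (1,0), (1,1), (1,2), (1,3), (2,0), (2,1), (2,2), (3,0), (3,1), (4,0)]
def cN : Fin 15 → Fin 15 × ℕ × ℕ := ![(0,0,0), (1,0,0), (2,0,0), (3,0,0), (4,0,0), (5,0,0), (6,0,0), (7,0,0), (8,0,0), (9,0,0), (10,0,0), (11,0,0), (12,0,0), (13,0,0), (14,0,0)]
def qN : Fin 15 → Fin 2 → ℤ := ![![0, 1], ![-1, -52], ![4, -592], ![5, -700], ![-7, -196], ![-2, -196], ![2, -196], ![7, -196], ![-5, -700], ![-4, -592], ![1, -52], ![8, 704], ![0, 0], ![3, -396], ![-3, -396]]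
def BN : Matrix (Fin 15) (Fin 15) ℤ := !![0, 0, 0, 0, 0, 0, 0, 0, 0, 0, 0, 0, 1265828788224000, 0, 0; 1265828788224000, 110334744520, 3525709005, -2569957390, -385437728, -33234201000, -79135784728, 657780084, 6257270250, -14730602705, 167711724180, -220680691, -1266015810758985, 14405985594, 14405985594; 0, -109875365600, -3530108400, 2565442880, 385446880, 32989756800, 78860862080, -657078240, -6255923520, 14714081200, -167214247200, 220534160, 186440894640, -14322147840, -14322147840; 0, -458818360, 4346160, 4524520, -9256, 244083840, 274578304, -702312, -1339800, 16474640, -496936440, 146608, 581003280, -83675592, -83675592; 0, -560560, 53235, -10010, 104, 360360, 344344, 468, -6930, 46865, -540540, -77, 637065, -162162, -162162; 0, -1096412308992000, -24070894848000, 2983434854400, 35978342400, 352045312819200, -352045312819200, -35978342400, -2983434854400, 24070894848000, 1096412308992000, 0, 0, 107403654758400, -107403654758400; 0, -9727240723200, -24869644800,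 -129806476800, -49673944320, 7499008957440, -7499008957440, 49673944320, 129806476800, 24869644800, 9727240723200, 0, 0, 1890523514880, -1890523514880; 0, -26526820320, -1007086080, -480960480, -40456416, 26756201472, -26756201472, 40456416, 480960480, 1007086080, 26526820320, 0, 0, 11045178144, -11045178144; 0, -27747720, -7687680, 1321320, 24024, 33825792, -33825792, -24024, -1321320, 7687680, 27747720, 0, 0, 21405384, -21405384; 67088925775872000, 1125398621907560, -8531516910735, 1036824598810, -31071642784, -193311491373000, -194523779233784, -3519645948, 1269956879730, -9013676855365, 1126913981733540, -5828307023, -69025899700923165, 43887711950082, 43887711950082; 0, 5060883667840, -435067127040, 173423169920, 26993010304, -2915875522560, -305061492736, -32343672192, -328656451200, 603324816640, 1797366130560, 12551990528, -4398989886720, 370725683328, 370725683328; 0, 7894927040, -1360872240, 504343840, 2310464, -5133448320, -2466079616, -58311552, -8611680,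 -299986960, 4560716160, 12823888, -7430726160, 1891457568, 1891457568; 0, 34719723118080, 33238176491520, -11225173639680, -2685723296256, -42950096437248, 42950096437248, 2685723296256, 11225173639680, -33238176491520, -34719723118080, 0, 0, -48935790199296, 48935790199296; 0, 177141444480, 169582533120, -57271294080, -3451383936, -255012645888, 255012645888, 3451383936, 57271294080, -169582533120, -177141444480, 0, 0, -249672398976, 249672398976; -1265828788224000, -8240696984520, -461554189005, 256212146190, 364107682848, -3680345749080, 4064224091928, 188094731916, -1233128207850, 2618672452305, -17921409285780, 37233508851, 1291493518099785, -828070036794, -828070036794]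
theorem hBN : BN * mat eN cN qN = (1265828788224000 : ℤ) • (1 : Matrix (Fin 15) (Fin 15) ℤ) := by
  decide +kernel


noncomputable def deh : S →ₐ[ℂ] R := aeval ![X 0, X 1, 1]

theorem eval_deh (v : Fin 2 → ℂ) (F : S) : eval v (deh F) = eval ![v 0, v 1, 1] F := by
  induction F using MvPolynomial.induction_on with
  | C a => simp [deh]
  | add p q hp hq => simp [hp, hq]
  | mul_X p i hp =>
    rw [map_mul, map_mul, hp, map_mul]
    congr 1
    fin_cases i <;> simp [deh]

theorem deg_deh {F : S} {n : ℕ} (hF : F.IsHomogeneous n) : (deh F).totalDegree ≤ n := by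
  rw [F.as_sum, map_sum]
  refine (totalDegree_finsetSum _ _).trans (Finset.sup_le fun s hs => ?_)
  have h1 := (le_totalDegree hs).trans hF.totalDegree_le
  rw [Finsupp.sum_fintype _ _ (fun _ => rfl), Fin.sum_univ_three] at h1
  rw [deh, aeval_monomial, Finsupp.prod_fintype _ _ (fun _ => pow_zero _), Fin.prod_univ_three]
  simp only [Matrix.cons_val_zero, Matrix.cons_val_one, Matrix.cons_val, one_pow, mul_one]
  refine (totalDegree_mul _ _).trans ?_
  rw [algebraMap_eq, totalDegree_C, zero_add]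
  refine (totalDegree_mul _ _).trans ?_
  rw [totalDegree_X_pow, totalDegree_X_pow]
  omega

theorem h0_one (F : S) (hF : F.IsHomogeneous 4) (hv : ∀ i, eval (pt i) F = 0) :
    ∃ c : ℂ, F = C c * Q := by
  refine ⟨eval ![0, 1, 1] F, ?_⟩
  have hH : (F - C (eval ![0, 1, 1] F) * Q).IsHomogeneous 4 := hF.sub (Q_hom.C_mul _)
  have hdet : (mat eN cN (fun i k => (qN i k : ℂ))).det ≠ 0 := by
    have h2 := RingHom.map_det (Int.castRingHom ℂ) (mat eN cN qN)
    rw [mat_map] at h2
    intro h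
    have h3 : ((mat eN cN qN).det : ℂ) = 0 := h2.trans h
    exact det_ne_of_inv _ BN _ (by norm_num) hBN (by exact_mod_cast h3)
  have h1 := empty_of_det (d := 4) eN (by decide +kernel) (by decide +kernel) cN (fun _ => 1)
    (by decide +kernel) _ hdet _ (deg_deh hH) (by
      intro i
      rw [pow_one]
      apply mem_mx
      rw [eval_deh, map_sub, map_mul, eval_C]
      by_cases h : i = 0
      · subst h
        have : (![((qN 0 0 : ℤ) : ℂ), ((qN 0 1 : ℤ) : ℂ), 1] : Fin 3 → ℂ) = ![0, 1, 1] := by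
          simp [qN]
        rw [this, eval_Q]
        ring
      · obtain ⟨e0, e1⟩ := (by decide : ∀ i : Fin 15, i ≠ 0 →
          qN i 0 = tz i ∧ qN i 1 = tz i ^ 4 - 53 * tz i ^ 2) i h
        have : (![((qN i 0 : ℤ) : ℂ), ((qN i 1 : ℤ) : ℂ), 1] : Fin 3 → ℂ) = pt i := by
          rw [e0, e1]
          simp [pt, ts, PP]
        rw [this, hv, pt, eval_Q, PP]
        ring)
  rw [← sub_eq_zero]
  apply zero_of_affine
  intro x y z hz
  rw [scale hH _ _ _ hz]
  have := eval_deh ![x / z, y / z] (F - C (eval ![0, 1, 1] F) * Q)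
  rw [h1, map_zero] at this
  simp only [Matrix.cons_val_zero, Matrix.cons_val_one] at this
  rw [← this, mul_zero]

theorem unit_IP {u : S} (hu : IsUnit u) (v : Fin 3 → ℂ) (k : ℕ) (h : u ∈ IP v ^ k) : k = 0 := by
  by_contra hk
  exact (hu.map (eval v)).ne_zero (eval_IP v u (Ideal.pow_le_self hk h))

theorem notB (e : ℕ) (γ : Fin 15 → ℤ) (hne : e ≠ 0 ∨ γ ≠ 0) (f f' : S) (f0 : f ≠ 0) (f0' : f' ≠ 0)
    (hf : f.IsHomogeneous e) (he : e ≤ 4) (hf' : f'.IsHomogeneous (4 - e))
    (hm : ∀ i, f ∈ IP (pt i) ^ (γ i).toNat)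
    (hm' : ∀ i, f' ∈ IP (pt i) ^ (((1 : ℕ) : ℤ) - γ i).toNat)
    (hz : ((4 : ℕ) : ℤ) * (e : ℤ) - ∑ i, ((1 : ℕ) : ℤ) * γ i = 0) : False := by
  have hh : (f * f').IsHomogeneous 4 := by
    have := hf.mul hf'
    rwa [show e + (4 - e) = 4 by omega] at this
  obtain ⟨c, hc⟩ := h0_one _ hh (by
    intro i
    rw [map_mul]
    by_cases h : (γ i).toNat = 0
    · rw [eval_IP _ f' (Ideal.pow_le_self (by omega) (hm' i)), mul_zero]
    · rw [eval_IP _ f (Ideal.pow_le_self h (hm i)), zero_mul])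
  have hc0 : c ≠ 0 := by
    rintro rfl
    simp [f0, f0'] at hc
  have hcu : IsUnit (C c : S) := (IsUnit.mk0 c hc0).map C
  have hirr : Irreducible (f * f') := by
    rw [hc]; exact (irreducible_isUnit_mul hcu).2 Q_irr
  simp only [Nat.cast_one, one_mul, Nat.cast_ofNat] at hz
  rcases hirr.isUnit_or_isUnit rfl with hu | hu
  · have e0 := unit_hom hu hf
    have h1 : ∀ i, γ i ≤ 0 := fun i => by
      have := unit_IP hu _ _ (hm i)
      omega
    have h2 : ∑ i, γ i = 0 := by rw [e0] at hz; simpa using hz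
    rw [Finset.sum_eq_zero_iff_of_nonpos fun i _ => h1 i] at h2
    rcases hne with h | h
    · exact h e0
    · exact h (funext fun i => h2 i (Finset.mem_univ _))
  · have e0 := unit_hom hu hf'
    have ha : Associated Q f := by
      have a1 : Associated Q (C c * Q) := (associated_isUnit_mul_right_iff hcu).2 (Associated.refl _)
      rw [← hc] at a1
      exact (associated_mul_isUnit_right_iff hu).1 a1
    have h1 : ∀ i, γ i ≤ 1 := fun i => by
      have := assoc_simple _ f ha _ (hm i)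
      omega
    have h2 : ∑ i, γ i ≤ ∑ _i : Fin 15, (1 : ℤ) := Finset.sum_le_sum fun i _ => h1 i
    simp at h2
    omega

theorem line (α β : ℂ) (r : Fin 4 → ℂ) (hr : Function.Injective r)
    (hP : ∀ t, PP t - (α * t + β) = ∏ j, (t - r j)) (m : ℕ) (F : S)
    (hF : F.IsHomogeneous (m * 4)) (hm : ∀ j, F ∈ IP ![r j, PP (r j), 1] ^ m) :
    ∃ c : ℂ, ∀ t, eval ![t, α * t + β, 1] F = c * (PP t - (α * t + β)) ^ m := by
  have h1 := prod_dvd r hr (fun _ => m) _ fun j => dvd_cur Polynomial.X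
    (Polynomial.C α * Polynomial.X + Polynomial.C β) (r j) m F (by
      have e : PP (r j) = α * r j + β := by
        have := hP (r j)
        rw [Finset.prod_eq_zero (Finset.mem_univ j) (sub_self _)] at this
        linear_combination this
      simpa [← e] using hm j)
  have h2 := deg_cur Polynomial.X (Polynomial.C α * Polynomial.X + Polynomial.C β) 1 (m * 4)
    (by simp) (by compute_degree) F hF.totalDegree_le
  have h3 := Polynomial.eq_leadingCoeff_mul_of_monic_of_dvd_of_natDegree_le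
    (prod_monic r fun _ => m) h1 (by rw [prod_deg]; simp; omega)
  refine ⟨(cur Polynomial.X (Polynomial.C α * Polynomial.X + Polynomial.C β) F).leadingCoeff,
    fun t => ?_⟩
  have h4 := congrArg (Polynomial.eval t) h3
  rw [eval_cur] at h4
  simp only [Polynomial.eval_X, Polynomial.eval_add, Polynomial.eval_mul, Polynomial.eval_C,
    Polynomial.eval_prod, Polynomial.eval_pow, Polynomial.eval_sub] at h4
  rw [h4, hP, Finset.prod_pow]

noncomputable def sh (a b : ℂ) : S →ₐ[ℂ] S := aeval ![X 0 + C a * X 2, X 1 + C b * X 2, X 2]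

theorem sh_sh (a b : ℂ) (F : S) : sh (-a) (-b) (sh a b F) = F := by
  have : (sh (-a) (-b)).comp (sh a b) = AlgHom.id ℂ S := by
    ext j : 1
    fin_cases j <;> simp [sh]
  exact DFunLike.congr_fun this F

theorem sh_hom (a b : ℂ) {F : S} {n : ℕ} (hF : F.IsHomogeneous n) : (sh a b F).IsHomogeneous n := by
  have := hF.aeval (![X 0 + C a * X 2, X 1 + C b * X 2, X 2] : Fin 3 → S) (n := 1) (by
    intro i
    fin_cases i
    · exact (isHomogeneous_X _ 0).add ((isHomogeneous_X _ 2).C_mul _)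
    · exact (isHomogeneous_X _ 1).add ((isHomogeneous_X _ 2).C_mul _)
    · exact isHomogeneous_X _ 2)
  rwa [one_mul] at this

noncomputable def mono (u v w : ℕ) : Fin 3 →₀ ℕ :=
  Finsupp.single 0 u + Finsupp.single 1 v + Finsupp.single 2 w

theorem mono0 (u v w : ℕ) : mono u v w 0 = u := by simp [mono]
theorem mono1 (u v w : ℕ) : mono u v w 1 = v := by simp [mono]
theorem mono2 (u v w : ℕ) : mono u v w 2 = w := by simp [mono]

abbrev T (m : ℕ) := Σ j : Fin m, Fin (j + 1)

noncomputable def mo (n : ℕ) {m : ℕ} (x : T m) : Fin 3 →₀ ℕ := mono x.2 (x.1 - x.2) (n - x.1)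

theorem card_T (m : ℕ) : 2 * Fintype.card (T m) = m * (m + 1) := by
  rw [Fintype.card_sigma]
  simp only [Fintype.card_fin]
  induction m with
  | zero => simp
  | succ m ih =>
    rw [Fin.sum_univ_castSucc]
    simp only [Fin.val_castSucc, Fin.val_last]
    rw [mul_add, ih]
    ring

theorem mem_of_coeff (a b : ℂ) {F : S} {n : ℕ} (hF : F.IsHomogeneous n) (m : ℕ)
    (h : ∀ x : T m, coeff (mo n x) (sh a b F) = 0) : F ∈ IP ![a, b, 1] ^ m := by
  have hG := sh_hom a b hF
  have h1 : sh a b F ∈ (Ideal.span {X 0, X 1} : Ideal S) ^ m := by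
    rw [(sh a b F).as_sum]
    refine Ideal.sum_mem _ fun s hs => ?_
    have hd : s 0 + s 1 + s 2 = n := by
      by_contra hne
      refine mem_support_iff.1 hs (hG.coeff_eq_zero ?_)
      rwa [Finsupp.degree_eq_sum, Fin.sum_univ_three]
    have hm : m ≤ s 0 + s 1 := by
      by_contra hlt
      refine mem_support_iff.1 hs ?_
      have := h ⟨⟨s 0 + s 1, by omega⟩, ⟨s 0, by simp⟩⟩
      rw [← this]
      congr 1
      ext i
      fin_cases i
      · simp [mo, mono0]
      · simp [mo, mono1]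
      · simp [mo, mono2]
        omega
    rw [monomial_eq, Finsupp.prod_fintype _ _ (fun _ => pow_zero _), Fin.prod_univ_three]
    refine Ideal.mul_mem_left _ _ (Ideal.mul_mem_right _ _ (Ideal.pow_le_pow_right hm ?_))
    rw [pow_add]
    exact Ideal.mul_mem_mul (Ideal.pow_mem_pow (Ideal.subset_span (by simp)) _)
      (Ideal.pow_mem_pow (Ideal.subset_span (by simp)) _)
  have h2 := Ideal.mem_map_of_mem (sh (-a) (-b)) h1
  rw [Ideal.map_pow, sh_sh] at h2
  refine Ideal.pow_right_mono ?_ m h2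
  rw [Ideal.map_span, Ideal.span_le]
  rintro _ ⟨x, hx | hx, rfl⟩
  · rw [hx]
    exact Ideal.subset_span ⟨(2, 0), by simp [sh, sub_eq_add_neg]⟩
  · rw [hx]
    exact Ideal.subset_span ⟨(2, 1), by simp [sh, sub_eq_add_neg]⟩

noncomputable def J (m : ℕ) : homogeneousSubmodule (Fin 3) ℂ (m * 4) →ₗ[ℂ] (Fin 15 × T m → ℂ) :=
  LinearMap.pi fun x => lcoeff ℂ (mo (m * 4) x.2) ∘ₗ (sh (ts x.1) (PP (ts x.1))).toLinearMap ∘ₗ
    (homogeneousSubmodule (Fin 3) ℂ (m * 4)).subtype

theorem J_mem (m : ℕ) (F : homogeneousSubmodule (Fin 3) ℂ (m * 4)) (i : Fin 15)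
    (h : ∀ x, J m F (i, x) = 0) : (F : S) ∈ IP (pt i) ^ m :=
  mem_of_coeff _ _ F.2 m h

theorem J_not_surj (m : ℕ) (hm : 1 ≤ m) : LinearMap.range (J m) ≠ ⊤ := by
  intro h
  rw [LinearMap.range_eq_top] at h
  have hG : ((X 1 + C 196 * X 2) * X 2 ^ (m * 4 - 1) : S).IsHomogeneous (m * 4) := by
    have := ((isHomogeneous_X ℂ (1 : Fin 3)).add ((isHomogeneous_X ℂ (2 : Fin 3)).C_mul 196)).mul
      ((isHomogeneous_X ℂ (2 : Fin 3)).pow (m * 4 - 1))
    rwa [show 1 + 1 * (m * 4 - 1) = m * 4 by omega] at this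
  obtain ⟨F, hF⟩ := h fun x => if x.1.val < 4 then J m ⟨_, hG⟩ x else 0
  have a1 : ∀ i : Fin 15, i.val < 4 →
      ((F - ⟨_, hG⟩ : homogeneousSubmodule (Fin 3) ℂ (m * 4)) : S) ∈ IP (pt i) ^ m := by
    intro i hi
    apply J_mem
    intro x
    rw [map_sub, Pi.sub_apply, hF]
    simp [hi]
  have a2 : ∀ i : Fin 15, ¬ i.val < 4 → (F : S) ∈ IP (pt i) ^ m := by
    intro i hi
    apply J_mem
    intro x
    rw [hF]
    simp [hi]
  obtain ⟨c1, h1⟩ := line (-108) (-160) (fun j => ts ⟨j, by omega⟩)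
    (fun i j h => Fin.ext (by simpa using ts_inj h))
    (fun t => by simp [Fin.prod_univ_four, ts, tz, PP]; ring) m
    ((F : S) - (X 1 + C 196 * X 2) * X 2 ^ (m * 4 - 1))
    (IsHomogeneous.sub F.2 hG) (fun j => a1 ⟨j, by omega⟩ j.2)
  obtain ⟨c2, h2⟩ := line 0 (-196) (fun j => ts ⟨j + 4, by omega⟩)
    (fun i j h => Fin.ext (by simpa using ts_inj h))
    (fun t => by simp [Fin.prod_univ_four, ts, tz, PP]; ring) m _ F.2
    (fun j => a2 ⟨j + 4, by omega⟩ (by simp))
  obtain ⟨c3, h3⟩ := line 108 (-160) (fun j => ts ⟨j + 8, by omega⟩)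
    (fun i j h => Fin.ext (by simpa using ts_inj h))
    (fun t => by simp [Fin.prod_univ_four, ts, tz, PP]; ring) m _ F.2
    (fun j => a2 ⟨j + 8, by omega⟩ (by simp))
  have e12 := h1 (1 / 3)
  have e13 := h1 0
  have e21 := h2 (1 / 3)
  have e23 := h2 (-1 / 3)
  have e32 := h3 (-1 / 3)
  have e31 := h3 0
  simp only [AddSubgroupClass.coe_sub, map_sub, map_mul, map_add, map_pow, eval_X, eval_C,
    Matrix.cons_val_zero, Matrix.cons_val_one, Matrix.cons_val] at e12 e13
  norm_num [PP] at e12 e13 e21 e23 e32 e31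
  rw [e21] at e12
  rw [e23] at e32
  rw [e31] at e13
  have k1 : c2 = c1 := mul_right_cancel₀ (pow_ne_zero _ (by norm_num)) e12
  have k2 : c2 = c3 := mul_right_cancel₀ (pow_ne_zero _ (by norm_num)) e32
  rw [← k1, ← k2] at e13
  simp at e13

theorem rank_hom (n : ℕ) :
    Fintype.card (T (n + 1)) ≤ Module.finrank ℂ (homogeneousSubmodule (Fin 3) ℂ n) := by
  have : Module.Finite ℂ (homogeneousSubmodule (Fin 3) ℂ n) :=
    Module.Finite.iff_fg.2 (homogeneousSubmodule_fg _ _ n)
  let v : T (n + 1) → homogeneousSubmodule (Fin 3) ℂ n := fun x =>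
    ⟨monomial (mo n x) 1, isHomogeneous_monomial _ (by
      rw [Finsupp.degree_eq_sum, Fin.sum_univ_three, mo, mono0, mono1, mono2]
      have := x.1.2
      have := x.2.2
      omega)⟩
  have hinj : Function.Injective (mo n : T (n + 1) → Fin 3 →₀ ℕ) := by
    rintro ⟨j, k⟩ ⟨j', k'⟩ h
    have h0 := congrArg (fun z : Fin 3 →₀ ℕ => z 0) h
    have h1 := congrArg (fun z : Fin 3 →₀ ℕ => z 1) h
    simp only [mo, mono0, mono1] at h0 h1
    have := k.2
    have := k'.2
    obtain rfl : j = j' := Fin.ext (by omega)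
    obtain rfl : k = k' := Fin.ext h0
    rfl
  have hv : LinearIndependent ℂ v := by
    apply LinearIndependent.of_comp (homogeneousSubmodule (Fin 3) ℂ n).subtype
    have := (basisMonomials (Fin 3) ℂ).linearIndependent.comp _ hinj
    simpa [Function.comp_def, v] using this
  exact hv.fintype_card_le_finrank

theorem big (m : ℕ) (hm : 1 ≤ m) :
    (m * 4 + 1) * (m * 4 + 2) + 2 ≤ 2 * Module.finrank ℂ
      ↥(homogeneousSubmodule (Fin 3) ℂ (m * 4) ⊓
        ⨅ i, Submodule.restrictScalars ℂ (IP (pt i) ^ (m * 1))) + 15 * (m * (m + 1)) := by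
  have : Module.Finite ℂ (homogeneousSubmodule (Fin 3) ℂ (m * 4)) :=
    Module.Finite.iff_fg.2 (homogeneousSubmodule_fg _ _ _)
  have h1 := LinearMap.finrank_range_add_finrank_ker (J m)
  have h2 := Submodule.finrank_lt (J_not_surj m hm)
  rw [Module.finrank_fintype_fun_eq_card, Fintype.card_prod, Fintype.card_fin] at h2
  have h3 := rank_hom (m * 4)
  have h4 := card_T m
  have h5 := card_T (m * 4 + 1)
  have : Module.Finite ℂ ↥(homogeneousSubmodule (Fin 3) ℂ (m * 4) ⊓
      ⨅ i, Submodule.restrictScalars ℂ (IP (pt i) ^ (m * 1))) :=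
    Submodule.finiteDimensional_of_le inf_le_left
  have h6 : (LinearMap.ker (J m)).map (homogeneousSubmodule (Fin 3) ℂ (m * 4)).subtype ≤
      homogeneousSubmodule (Fin 3) ℂ (m * 4) ⊓
        ⨅ i, Submodule.restrictScalars ℂ (IP (pt i) ^ (m * 1)) := by
    rintro _ ⟨F, hF, rfl⟩
    refine ⟨F.2, ?_⟩
    simp only [SetLike.mem_coe, Submodule.mem_iInf, Submodule.restrictScalars_mem, mul_one]
    intro i
    exact J_mem m F i fun x => congrFun (LinearMap.mem_ker.1 hF) (i, x)
  have h7 := Submodule.finrank_mono h6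
  rw [Submodule.finrank_map_subtype_eq] at h7
  have e : m * 4 + 1 + 1 = m * 4 + 2 := rfl
  rw [e] at h5
  omega

theorem Q_mem (i : Fin 15) : Q ∈ IP (pt i) ^ 1 := by
  rw [pow_one]
  have a0 : (X 0 - C (ts i) * X 2 : S) ∈ IP (pt i) :=
    Ideal.subset_span ⟨(2, 0), by simp [pt]⟩
  have a1 : (X 1 - C (PP (ts i)) * X 2 : S) ∈ IP (pt i) :=
    Ideal.subset_span ⟨(2, 1), by simp [pt]⟩
  have := Ideal.add_mem _ (Ideal.mul_mem_left _ (X 2 ^ 3) a1) (Ideal.mul_mem_left _
    (53 * (X 0 + C (ts i) * X 2) * X 2 ^ 2 - (X 0 + C (ts i) * X 2) *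
      (X 0 ^ 2 + C (ts i) ^ 2 * X 2 ^ 2)) a0)
  have h53 : (C 53 : S) = 53 := rfl
  rwa [show X 2 ^ 3 * (X 1 - C (PP (ts i)) * X 2) + (53 * (X 0 + C (ts i) * X 2) * X 2 ^ 2 -
    (X 0 + C (ts i) * X 2) * (X 0 ^ 2 + C (ts i) ^ 2 * X 2 ^ 2)) * (X 0 - C (ts i) * X 2) = Q by
      simp only [Q, PP, map_sub, map_mul, map_pow, h53]; ring] at this

end Pool.Agent.H50.NefSp
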