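import Mathlib

set_option autoImplicit false

namespace Pool.Agent.H50.NormEq

/-- copy of the matrix space without a topology -/
def Syn (N : ℕ) : Type := Matrix (Fin N) (Fin N) ℝ

noncomputable instance (N : ℕ) : AddCommGroup (Syn N) :=
  inferInstanceAs (AddCommGroup (Matrix (Fin N) (Fin N) ℝ))
noncomputable instance (N : ℕ) : Module ℝ (Syn N) :=
  inferInstanceAs (Module ℝ (Matrix (Fin N) (Fin N) ℝ))
instance (N : ℕ) : FiniteDimensional ℝ (Syn N) :=
  inferInstanceAs (FiniteDimensional ℝ (Matrix (Fin N) (Fin N) ℝ))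

theorem both {N : ℕ} (ν : Seminorm ℝ (Matrix (Fin N) (Fin N) ℝ)) (h : ∀ X, ν X = 0 → X = 0) :
    (∃ C > 0, ∀ (X : Matrix (Fin N) (Fin N) ℝ) i j, |X i j| ≤ C * ν X) ∧
      ∃ C > 0, ∀ (X : Matrix (Fin N) (Fin N) ℝ) (e : ℝ), 0 ≤ e → (∀ i j, |X i j| ≤ e) →
        ν X ≤ C * e := by
  let ν' : Seminorm ℝ (Syn N) := ν
  letI : NormedAddCommGroup (Syn N) :=
    AddGroupNorm.toNormedAddCommGroup { ν'.toAddGroupSeminorm with eq_zero_of_map_eq_zero' := h }
  letI : NormedSpace ℝ (Syn N) := ⟨fun c x => (map_smul_eq_mul ν' c x).le⟩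
  let L : Syn N →ₗ[ℝ] (Fin N → Fin N → ℝ) :=
    { toFun := fun X => X, map_add' := fun _ _ => rfl, map_smul' := fun _ _ => rfl }
  let L' : (Fin N → Fin N → ℝ) →ₗ[ℝ] Syn N :=
    { toFun := fun X => X, map_add' := fun _ _ => rfl, map_smul' := fun _ _ => rfl }
  constructor
  · obtain ⟨C, hC, hb⟩ := (LinearMap.toContinuousLinearMap L).bound
    refine ⟨C, hC, fun X i j => ?_⟩
    have h1 := hb X
    have h2 : ‖(L X) i j‖ ≤ ‖L X‖ := (norm_le_pi_norm _ j).trans (norm_le_pi_norm (L X) i)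
    exact h2.trans h1
  · obtain ⟨C, hC, hb⟩ := (LinearMap.toContinuousLinearMap L').bound
    refine ⟨C, hC, fun X e he hX => ?_⟩
    have h1 := hb (fun i j => X i j)
    have h2 : ‖(fun i j => X i j : Fin N → Fin N → ℝ)‖ ≤ e :=
      (pi_norm_le_iff_of_nonneg he).2 fun i => (pi_norm_le_iff_of_nonneg he).2 fun j => hX i j
    exact h1.trans (mul_le_mul_of_nonneg_left h2 hC.le)

end Pool.Agent.H50.NormEq
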