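import Mathlib

set_option autoImplicit false

/- Hyperplane arrangements, logarithmic derivations, plus-one generated arrangements. -/

namespace Pool.Agent.H50.POGDefs

open MvPolynomial

variable {K : Type} [Field K] {l : ℕ}

/-- The linear form with coefficient vector `a`, as a polynomial. -/
noncomputable def form (a : Fin l → K) : MvPolynomial (Fin l) K := ∑ i, C (a i) * X i

/-- The kernel of the linear form with coefficient vector `a`. -/
def hyp (a : Fin l → K) : Submodule K (Fin l → K) :=
  LinearMap.ker (∑ i, a i • (LinearMap.proj i : (Fin l → K) →ₗ[K] K))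

/-- An essential arrangement: a finite set of linear hyperplanes with zero intersection. -/
def IsArrangement (A : Set (Submodule K (Fin l → K))) : Prop :=
  A.Finite ∧ (∀ H ∈ A, ∃ a : Fin l → K, a ≠ 0 ∧ H = hyp a) ∧ sInf A = ⊥

/-- The intersections of subfamilies of the arrangement. -/
def flats (A : Set (Submodule K (Fin l → K))) : Set (Submodule K (Fin l → K)) :=
  {W | ∃ T ⊆ A, W = sInf T}

/-- The logarithmic derivations of the arrangement. -/
def logDer (A : Set (Submodule K (Fin l → K))) :
    Set (Derivation K (MvPolynomial (Fin l) K) (MvPolynomial (Fin l) K)) :=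
  {θ | ∀ a : Fin l → K, hyp a ∈ A → form a ∣ θ (form a)}

/-- A derivation is homogeneous of degree `p` if all its coefficients are. -/
def IsHomDer (θ : Derivation K (MvPolynomial (Fin l) K) (MvPolynomial (Fin l) K)) (p : ℕ) : Prop :=
  ∀ i, (θ (X i)).IsHomogeneous p

/-- `θ i`, `φ` (degrees `d i`, `e`) generate the logarithmic derivations, and the relations among
them form the free module on `(f, α)`, a nonzero relation of degree `e + 1` with entries in the
maximal ideal: a minimal graded free resolution of plus-one generated shape. -/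
def IsResolution (A : Set (Submodule K (Fin l → K))) (d : Fin l → ℕ) (e : ℕ)
    (θ : Fin l → Derivation K (MvPolynomial (Fin l) K) (MvPolynomial (Fin l) K))
    (φ : Derivation K (MvPolynomial (Fin l) K) (MvPolynomial (Fin l) K))
    (f : Fin l → MvPolynomial (Fin l) K) (α : MvPolynomial (Fin l) K) : Prop :=
  (∀ i, IsHomDer (θ i) (d i)) ∧ IsHomDer φ e ∧
  logDer A = Submodule.span (MvPolynomial (Fin l) K) (insert φ (Set.range θ)) ∧
  α.IsHomogeneous 1 ∧ (∀ i, (f i).IsHomogeneous (e + 1 - d i) ∧ constantCoeff (f i) = 0) ∧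
  ¬ (f = 0 ∧ α = 0) ∧
  ∀ (g : Fin l → MvPolynomial (Fin l) K) (β : MvPolynomial (Fin l) K),
    ∑ i, g i • θ i + β • φ = 0 ↔ ∃ c, (∀ i, g i = c * f i) ∧ β = c * α

/-- Plus-one generated with exponents `d` and level `e`. -/
def PlusOne (A : Set (Submodule K (Fin l → K))) (d : Fin l → ℕ) (e : ℕ) : Prop :=
  ∃ θ φ f α, IsResolution A d e θ φ f α

/-- Strictly plus-one generated with exponents `d` and level `e`. -/
def StrictPlusOne (A : Set (Submodule K (Fin l → K))) (d : Fin l → ℕ) (e : ℕ) : Prop :=
  ∃ θ φ f α, IsResolution A d e θ φ f α ∧ α ≠ 0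

end Pool.Agent.H50.POGDefs
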