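import Mathlib
import Pool.Agent.H50.POGDefs

set_option autoImplicit false

namespace Pool.Agent.H50.POGBasic

open MvPolynomial Pool.Agent.H50.POGDefs

variable {K : Type} [Field K]

abbrev S (K : Type) [Field K] : Type := MvPolynomial (Fin 3) K
abbrev Der (K : Type) [Field K] : Type := Derivation K (S K) (S K)

theorem mem_hyp (a v : Fin 3 → K) : v ∈ hyp a ↔ a 0 * v 0 + a 1 * v 1 + a 2 * v 2 = 0 := by
  simp [hyp, Fin.sum_univ_three]

theorem form_eq (a : Fin 3 → K) : form a = C (a 0) * X 0 + C (a 1) * X 1 + C (a 2) * X 2 := by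
  simp [form, Fin.sum_univ_three]

theorem der_C_mul (θ : Der K) (c : K) (p : S K) : θ (C c * p) = C c * θ p := by
  rw [Derivation.leibniz, derivation_C, smul_zero, add_zero, smul_eq_mul]

theorem der_form (θ : Der K) (a : Fin 3 → K) :
    θ (form a) = C (a 0) * θ (X 0) + C (a 1) * θ (X 1) + C (a 2) * θ (X 2) := by
  simp only [form_eq, map_add, der_C_mul]

theorem prop_of_hyp {a b : Fin 3 → K} (h : hyp a = hyp b) (hb : b 0 = 1 ∨ b 1 = 1) :
    ∃ c : K, ∀ i, a i = c * b i := by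
  have h1 : a 0 * b 1 - a 1 * b 0 = 0 := by
    have : (![b 1, -b 0, 0] : Fin 3 → K) ∈ hyp b := by rw [mem_hyp]; simp; ring
    rw [← h, mem_hyp] at this
    simp at this
    linear_combination this
  have h2 : a 0 * b 2 - a 2 * b 0 = 0 := by
    have : (![b 2, 0, -b 0] : Fin 3 → K) ∈ hyp b := by rw [mem_hyp]; simp; ring
    rw [← h, mem_hyp] at this
    simp at this
    linear_combination this
  have h3 : a 1 * b 2 - a 2 * b 1 = 0 := by
    have : (![0, b 2, -b 1] : Fin 3 → K) ∈ hyp b := by rw [mem_hyp]; simp; ring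
    rw [← h, mem_hyp] at this
    simp at this
    linear_combination this
  rcases hb with hb | hb
  · refine ⟨a 0, fun i => ?_⟩
    fin_cases i
    · simp [hb]
    · simp only [Fin.mk_one]; rw [hb] at h1; linear_combination -h1
    · simp only [Fin.reduceFinMk]; rw [hb] at h2; linear_combination -h2
  · refine ⟨a 1, fun i => ?_⟩
    fin_cases i
    · simp only [Fin.zero_eta]; rw [hb] at h1; linear_combination h1
    · simp [hb]
    · simp only [Fin.reduceFinMk]; rw [hb] at h3; linear_combination -h3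

theorem mem_logDer {n : ℕ} (a : Fin n → Fin 3 → K) (ha : ∀ i, a i 0 = 1 ∨ a i 1 = 1) (θ : Der K) :
    θ ∈ logDer (Set.range fun i => hyp (a i)) ↔ ∀ i, form (a i) ∣ θ (form (a i)) := by
  refine ⟨fun h i => h _ ⟨i, rfl⟩, fun h b ⟨i, hi⟩ => ?_⟩
  obtain ⟨c, hc⟩ := prop_of_hyp hi.symm (ha i)
  have e1 : form b = C c * form (a i) := by
    simp only [form_eq, hc, map_mul]; ring
  rw [e1, der_C_mul]
  exact mul_dvd_mul_left _ (h i)

/- the intersection lattice -/

def det3 (a b c : Fin 3 → ℤ) : ℤ :=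
  a 0 * (b 1 * c 2 - b 2 * c 1) + a 1 * (b 2 * c 0 - b 0 * c 2) + a 2 * (b 0 * c 1 - b 1 * c 0)

def H (K : Type) [Field K] (a : Fin 3 → ℤ) : Submodule K (Fin 3 → K) := hyp fun i => (a i : K)

def cr (K : Type) [Field K] (b c : Fin 3 → ℤ) : Fin 3 → K :=
  ![((b 1 * c 2 - b 2 * c 1 : ℤ) : K), ((b 2 * c 0 - b 0 * c 2 : ℤ) : K),
    ((b 0 * c 1 - b 1 * c 0 : ℤ) : K)]

theorem cr_mem [CharZero K] (a b c : Fin 3 → ℤ) : cr K b c ∈ H K a ↔ det3 a b c = 0 := by
  rw [H, mem_hyp, ← Int.cast_eq_zero (α := K)]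
  simp [cr, det3]

theorem le_H_iff [CharZero K] {n : ℕ} (a : Fin n → Fin 3 → ℤ)
    (h0 : ∀ i, ∃ j k, det3 (a i) (a j) (a k) ≠ 0)
    (h1 : ∀ i j, i ≠ j → ∃ k, det3 (a i) (a j) (a k) ≠ 0) (T : Set (Fin n)) (i : Fin n) :
    (⨅ j ∈ T, H K (a j)) ≤ H K (a i) ↔
      i ∈ T ∨ (∃ j ∈ T, ∃ k ∈ T, j ≠ k ∧ det3 (a i) (a j) (a k) = 0) ∨
        ∃ j ∈ T, ∃ k ∈ T, ∃ m ∈ T, det3 (a m) (a j) (a k) ≠ 0 := by
  constructor
  · intro h
    by_contra hc
    push Not at hc
    obtain ⟨c1, c2, c3⟩ := hc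
    by_cases hT : ∃ j ∈ T, ∃ k ∈ T, j ≠ k
    · obtain ⟨j, hj, k, hk, hjk⟩ := hT
      apply c2 j hj k hk hjk
      rw [← cr_mem (K := K)]
      apply h
      simp only [Submodule.mem_iInf]
      intro m hm
      exact (cr_mem _ _ _).2 (c3 j hj k hk m hm)
    · push Not at hT
      by_cases hT2 : ∃ j, j ∈ T
      · obtain ⟨j, hj⟩ := hT2
        obtain ⟨k, hk⟩ := h1 i j (fun e => c1 (e ▸ hj))
        apply hk
        rw [← cr_mem (K := K)]
        apply h
        simp only [Submodule.mem_iInf]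
        intro m hm
        rw [hT m hm j hj, cr_mem]
        unfold det3; ring
      · push Not at hT2
        obtain ⟨j, k, hk⟩ := h0 i
        apply hk
        rw [← cr_mem (K := K)]
        apply h
        simp only [Submodule.mem_iInf]
        intro m hm
        exact (hT2 m hm).elim
  · rintro (h | ⟨j, hj, k, hk, hjk, h⟩ | ⟨j, hj, k, hk, m, hm, h⟩)
    · exact biInf_le _ h
    · intro v hv
      simp only [Submodule.mem_iInf] at hv
      have e1 := hv j hj
      have e2 := hv k hk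
      obtain ⟨m, hm⟩ := h1 j k hjk
      rw [H, mem_hyp] at e1 e2 ⊢
      have hm' : ((det3 (a j) (a k) (a m) : ℤ) : K) ≠ 0 := by exact_mod_cast hm
      have h' : ((det3 (a i) (a j) (a k) : ℤ) : K) = 0 := by exact_mod_cast h
      apply mul_left_cancel₀ hm'
      simp only [det3] at h' ⊢
      push_cast at h' ⊢
      linear_combination
        ((a i 0 : K) * ((a k 1 : K) * a m 2 - a k 2 * a m 1) +
          a i 1 * ((a k 2 : K) * a m 0 - a k 0 * a m 2) +
          a i 2 * ((a k 0 : K) * a m 1 - a k 1 * a m 0)) * e1 -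
        ((a i 0 : K) * ((a j 1 : K) * a m 2 - a j 2 * a m 1) +
          a i 1 * ((a j 2 : K) * a m 0 - a j 0 * a m 2) +
          a i 2 * ((a j 0 : K) * a m 1 - a j 1 * a m 0)) * e2 +
        ((a m 0 : K) * v 0 + a m 1 * v 1 + a m 2 * v 2) * h'
    · intro v hv
      simp only [Submodule.mem_iInf] at hv
      have e1 := hv j hj
      have e2 := hv k hk
      have e3 := hv m hm
      rw [H, mem_hyp] at e1 e2 e3 ⊢
      have hm' : ((det3 (a m) (a j) (a k) : ℤ) : K) ≠ 0 := by exact_mod_cast h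
      apply mul_left_cancel₀ hm'
      simp only [det3]
      push_cast
      linear_combination
        ((a i 0 : K) * ((a k 1 : K) * a m 2 - a k 2 * a m 1) +
          a i 1 * ((a k 2 : K) * a m 0 - a k 0 * a m 2) +
          a i 2 * ((a k 0 : K) * a m 1 - a k 1 * a m 0)) * e1 -
        ((a i 0 : K) * ((a j 1 : K) * a m 2 - a j 2 * a m 1) +
          a i 1 * ((a j 2 : K) * a m 0 - a j 0 * a m 2) +
          a i 2 * ((a j 0 : K) * a m 1 - a j 1 * a m 0)) * e2 +
        ((a i 0 : K) * ((a j 1 : K) * a k 2 - a j 2 * a k 1) +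
          a i 1 * ((a j 2 : K) * a k 0 - a j 0 * a k 2) +
          a i 2 * ((a j 0 : K) * a k 1 - a j 1 * a k 0)) * e3

theorem mem_flats {n : ℕ} (F : Fin n → Submodule K (Fin 3 → K)) (W : Submodule K (Fin 3 → K)) :
    W ∈ flats (Set.range F) ↔ ∃ T : Set (Fin n), W = ⨅ j ∈ T, F j := by
  constructor
  · rintro ⟨T, hT, rfl⟩
    refine ⟨F ⁻¹' T, ?_⟩
    rw [← sInf_image, Set.image_preimage_eq_of_subset hT]
  · rintro ⟨T, rfl⟩
    exact ⟨F '' T, Set.image_subset_range _ _, sInf_image.symm⟩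

theorem flats_iso {n : ℕ} (F G : Fin n → Submodule K (Fin 3 → K))
    (h : ∀ (T : Set (Fin n)) i, (⨅ j ∈ T, F j) ≤ F i ↔ (⨅ j ∈ T, G j) ≤ G i) :
    Nonempty (flats (Set.range F) ≃o flats (Set.range G)) := by
  have key : ∀ T U : Set (Fin n), (⨅ j ∈ T, F j) ≤ (⨅ j ∈ U, F j) ↔
      (⨅ j ∈ T, G j) ≤ (⨅ j ∈ U, G j) := by
    intro T U
    simp only [le_iInf_iff, h]
  choose t ht using fun W : flats (Set.range F) => (mem_flats F W.1).1 W.2
  let f : flats (Set.range F) → flats (Set.range G) :=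
    fun W => ⟨⨅ j ∈ t W, G j, (mem_flats G _).2 ⟨_, rfl⟩⟩
  have hf : ∀ W W', f W ≤ f W' ↔ W ≤ W' := by
    intro W W'
    change (⨅ j ∈ t W, G j) ≤ (⨅ j ∈ t W', G j) ↔ W.1 ≤ W'.1
    rw [← key, ← ht, ← ht]
  refine ⟨RelIso.ofSurjective (OrderEmbedding.ofMapLEIff f hf) ?_⟩
  rintro ⟨W, hW⟩
  obtain ⟨T, rfl⟩ := (mem_flats G W).1 hW
  let W0 : flats (Set.range F) := ⟨⨅ j ∈ T, F j, (mem_flats F _).2 ⟨_, rfl⟩⟩
  refine ⟨W0, Subtype.ext (le_antisymm ?_ ?_)⟩
  · exact (key _ _).1 (ht W0).ge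
  · exact (key _ _).1 (ht W0).le

theorem isArr [CharZero K] {n : ℕ} (a : Fin n → Fin 3 → ℤ) (ha : ∀ i, a i 0 = 1 ∨ a i 1 = 1)
    (i j k : Fin n) (hi : a i = ![1, 0, 0]) (hj : a j = ![0, 1, 0]) (hk : a k = ![1, 0, -1]) :
    IsArrangement (Set.range fun i => H K (a i)) := by
  refine ⟨Set.finite_range _, ?_, ?_⟩
  · rintro _ ⟨m, rfl⟩
    refine ⟨_, fun h0 => ?_, rfl⟩
    rcases ha m with h | h
    · simpa [h] using congrFun h0 0
    · simpa [h] using congrFun h0 1
  · rw [eq_bot_iff]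
    intro v hv
    rw [Submodule.mem_sInf] at hv
    have e1 := hv _ ⟨i, rfl⟩
    have e2 := hv _ ⟨j, rfl⟩
    have e3 := hv _ ⟨k, rfl⟩
    simp only [H, mem_hyp, hi, hj, hk] at e1 e2 e3
    simp at e1 e2 e3
    rw [Submodule.mem_bot]
    ext m
    fin_cases m <;> simp_all

/- primes -/

theorem prime_lin (i : Fin 3) (g : S K) (hg : aeval (Function.update X i g) g = g)
    (hne : X i - g ≠ 0) :
    Prime (X i - g) := by
  let σ : S K →ₐ[K] S K := aeval (Function.update X i g)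
  have h1 : ∀ p : S K, X i - g ∣ p - σ p := by
    intro p
    induction p using MvPolynomial.induction_on with
    | C a => simp [σ]
    | add p q hp hq =>
      have : p + q - σ (p + q) = (p - σ p) + (q - σ q) := by rw [map_add]; ring
      rw [this]; exact dvd_add hp hq
    | mul_X p j hp =>
      have : p * X j - σ (p * X j) = (p - σ p) * X j + σ p * (X j - σ (X j)) := by
        rw [map_mul]; ring
      rw [this]
      refine dvd_add (hp.mul_right _) (Dvd.dvd.mul_left ?_ _)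
      by_cases hj : j = i
      · subst hj; simp [σ]
      · simp [σ, Function.update_of_ne hj]
  have h2 : σ (X i - g) = 0 := by
    rw [map_sub, hg]; simp [σ]
  have h3 : ∀ p : S K, X i - g ∣ p ↔ σ p = 0 := by
    intro p
    refine ⟨fun ⟨q, hq⟩ => by rw [hq, map_mul, h2, zero_mul], fun h => ?_⟩
    simpa [h] using h1 p
  refine ⟨hne, fun hu => ?_, fun p q hpq => ?_⟩
  · have := (h3 1).1 hu.dvd
    simp at this
  · rw [h3, map_mul, mul_eq_zero] at hpq
    rwa [h3, h3]

theorem prime0 (u v : K) : Prime (X 0 + C u * X 1 + C v * X 2 : S K) := by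
  have := prime_lin (K := K) 0 (-(C u * X 1 + C v * X 2)) (by simp) (fun h => by
    simpa using congrArg (eval ![1, 0, 0]) h)
  convert this using 1
  ring

theorem prime1 (v : K) : Prime (X 1 + C v * X 2 : S K) := by
  have := prime_lin (K := K) 1 (-(C v * X 2)) (by simp) (fun h => by
    simpa using congrArg (eval ![0, 1, 0]) h)
  convert this using 1
  ring

theorem not_dvd_of_eval {p q : S K} (P : Fin 3 → K) (hp : eval P p = 0) (hq : eval P q ≠ 0) :
    ¬ p ∣ q := by
  rintro ⟨r, rfl⟩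
  simp [hp] at hq

theorem mul_dvd_of_prime {p q f : S K} (hp : Prime p) (h1 : p ∣ f) (h2 : q ∣ f)
    (P : Fin 3 → K) (e1 : eval P p = 0) (e2 : eval P q ≠ 0) : q * p ∣ f := by
  obtain ⟨r, rfl⟩ := h2
  exact mul_dvd_mul_left _ ((hp.dvd_or_dvd h1).resolve_left (not_dvd_of_eval P e1 e2))

theorem hc_mul (m : ℕ) (g : S K) : ∀ (w : S K) (n : ℕ), m ≤ n → w.IsHomogeneous n →
    homogeneousComponent m (g * w) = C (constantCoeff g) * homogeneousComponent m w := by
  induction g using MvPolynomial.induction_on with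
  | C a => intro w n _ _; simp [homogeneousComponent_C_mul]
  | add p q hp hq =>
    intro w n hn hw
    rw [add_mul, map_add, hp w n hn hw, hq w n hn hw, map_add, map_add, add_mul]
  | mul_X p j hp =>
    intro w n hn hw
    have h1 : (X j * w).IsHomogeneous (1 + n) := (isHomogeneous_X K j).mul hw
    rw [mul_assoc, hp _ _ (by omega) h1, homogeneousComponent_of_mem h1, if_neg (by omega)]
    simp

end Pool.Agent.H50.POGBasic
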