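import Mathlib
import Pool.Agent.H50.POGBasic

set_option autoImplicit false

namespace Pool.Agent.H50.POGA

open MvPolynomial Pool.Agent.H50.POGDefs Pool.Agent.H50.POGBasic

variable {K : Type} [Field K]

noncomputable def mon (c : ℤ) (i j k : ℕ) : S K := (c : S K) * X 0 ^ i * X 1 ^ j * X 2 ^ k

theorem hmon (c : ℤ) (i j k n : ℕ) (h : i + j + k = n) : (mon c i j k : S K).IsHomogeneous n := by
  have h0 : ((c : S K)).IsHomogeneous 0 := by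
    rw [← map_intCast (C : K →+* S K)]; exact isHomogeneous_C _ _
  have := ((h0.mul (isHomogeneous_X_pow 0 i)).mul (isHomogeneous_X_pow 1 j)).mul
    (isHomogeneous_X_pow 2 k)
  rwa [zero_add, h] at this

theorem hcongr {p q : S K} {n : ℕ} (h : p.IsHomogeneous n) (e : p = q) : q.IsHomogeneous n :=
  e ▸ h

theorem hom_of_three {θ : Der K} {n : ℕ} (h0 : (θ (X 0)).IsHomogeneous n)
    (h1 : (θ (X 1)).IsHomogeneous n) (h2 : (θ (X 2)).IsHomogeneous n) : IsHomDer θ n := by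
  intro i
  fin_cases i
  exacts [h0, h1, h2]

def aA : Fin 9 → Fin 3 → ℤ := ![![1, 0, 1], ![1, 0, 0], ![1, 0, -1], ![1, 0, -2], ![0, 1, 1],
  ![0, 1, 0], ![0, 1, -1], ![1, -1, 0], ![1, -1, -1]]

def InA (θ : Der K) : Prop :=
  X 0 + X 2 ∣ θ (X 0) + θ (X 2) ∧ X 0 ∣ θ (X 0) ∧ X 0 - X 2 ∣ θ (X 0) - θ (X 2) ∧
  X 0 - 2 * X 2 ∣ θ (X 0) - 2 * θ (X 2) ∧ X 1 + X 2 ∣ θ (X 1) + θ (X 2) ∧ X 1 ∣ θ (X 1) ∧
  X 1 - X 2 ∣ θ (X 1) - θ (X 2) ∧ X 0 - X 1 ∣ θ (X 0) - θ (X 1) ∧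
  X 0 - X 1 - X 2 ∣ θ (X 0) - θ (X 1) - θ (X 2)

theorem mem_iff_InA (θ : Der K) : θ ∈ logDer (Set.range fun i => H K (aA i)) ↔ InA θ := by
  have h : ∀ i, aA i 0 = 1 ∨ aA i 1 = 1 := by decide
  refine (mem_logDer (fun i j => (aA i j : K)) (fun i => ?_) θ).trans ?_
  · rcases h i with h | h <;> simp [h]
  · simp only [Fin.forall_fin_succ, der_form, InA]
    simp [form_eq, aA, sub_eq_add_neg, map_ofNat]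

noncomputable def tE (K : Type) [Field K] : Der K := mkDerivation K ![X 0,
  X 1,
  X 2]

theorem tE_0 : tE K (X 0) = X 0 := by
  rw [tE, mkDerivation_X]; rfl

theorem tE_1 : tE K (X 1) = X 1 := by
  rw [tE, mkDerivation_X]; rfl

theorem tE_2 : tE K (X 2) = X 2 := by
  rw [tE, mkDerivation_X]; rfl

theorem tE_hom : IsHomDer (tE K) 1 := by
  refine hom_of_three ?_ ?_ ?_
  · rw [tE_0]
    exact hcongr (hmon (1) 1 0 0 1 rfl)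
      (by simp only [mon]; push_cast; ring)
  · rw [tE_1]
    exact hcongr (hmon (1) 0 1 0 1 rfl)
      (by simp only [mon]; push_cast; ring)
  · rw [tE_2]
    exact hcongr (hmon (1) 0 0 1 1 rfl)
      (by simp only [mon]; push_cast; ring)

theorem tE_mem : InA (tE K) := by
  unfold InA
  rw [tE_0, tE_1, tE_2]
  refine ⟨?_, ?_, ?_, ?_, ?_, ?_, ?_, ?_, ?_⟩
  · exact ⟨1, by ring⟩
  · exact ⟨1, by ring⟩
  · exact ⟨1, by ring⟩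
  · exact ⟨1, by ring⟩
  · exact ⟨1, by ring⟩
  · exact ⟨1, by ring⟩
  · exact ⟨1, by ring⟩
  · exact ⟨1, by ring⟩
  · exact ⟨1, by ring⟩

noncomputable def t4 (K : Type) [Field K] : Der K := mkDerivation K ![X 0 ^ 4 - 2 * X 0 ^ 3 * X 2 - X 0 ^ 2 * X 2 ^ 2 + 2 * X 0 * X 2 ^ 3,
  4 * X 0 * X 1 ^ 3 - 4 * X 0 * X 1 * X 2 ^ 2 - 3 * X 1 ^ 4 - 2 * X 1 ^ 3 * X 2 + 3 * X 1 ^ 2 * X 2 ^ 2 + 2 * X 1 * X 2 ^ 3,
  0]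

theorem t4_0 : t4 K (X 0) = X 0 ^ 4 - 2 * X 0 ^ 3 * X 2 - X 0 ^ 2 * X 2 ^ 2 + 2 * X 0 * X 2 ^ 3 := by
  rw [t4, mkDerivation_X]; rfl

theorem t4_1 : t4 K (X 1) = 4 * X 0 * X 1 ^ 3 - 4 * X 0 * X 1 * X 2 ^ 2 - 3 * X 1 ^ 4 - 2 * X 1 ^ 3 * X 2 + 3 * X 1 ^ 2 * X 2 ^ 2 + 2 * X 1 * X 2 ^ 3 := by
  rw [t4, mkDerivation_X]; rfl

theorem t4_2 : t4 K (X 2) = 0 := by
  rw [t4, mkDerivation_X]; rfl

theorem t4_hom : IsHomDer (t4 K) 4 := by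
  refine hom_of_three ?_ ?_ ?_
  · rw [t4_0]
    exact hcongr ((((hmon (1) 4 0 0 4 rfl).add (hmon (-2) 3 0 1 4 rfl)).add (hmon (-1) 2 0 2 4 rfl)).add (hmon (2) 1 0 3 4 rfl))
      (by simp only [mon]; push_cast; ring)
  · rw [t4_1]
    exact hcongr ((((((hmon (4) 1 3 0 4 rfl).add (hmon (-4) 1 1 2 4 rfl)).add (hmon (-3) 0 4 0 4 rfl)).add (hmon (-2) 0 3 1 4 rfl)).add (hmon (3) 0 2 2 4 rfl)).add (hmon (2) 0 1 3 4 rfl))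
      (by simp only [mon]; push_cast; ring)
  · rw [t4_2]; exact isHomogeneous_zero _ _ _

theorem t4_mem : InA (t4 K) := by
  unfold InA
  rw [t4_0, t4_1, t4_2]
  refine ⟨?_, ?_, ?_, ?_, ?_, ?_, ?_, ?_, ?_⟩
  · exact ⟨X 0 ^ 3 - 3 * X 0 ^ 2 * X 2 + 2 * X 0 * X 2 ^ 2, by ring⟩
  · exact ⟨X 0 ^ 3 - 2 * X 0 ^ 2 * X 2 - X 0 * X 2 ^ 2 + 2 * X 2 ^ 3, by ring⟩
  · exact ⟨X 0 ^ 3 - X 0 ^ 2 * X 2 - 2 * X 0 * X 2 ^ 2, by ring⟩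
  · exact ⟨X 0 ^ 3 - X 0 * X 2 ^ 2, by ring⟩
  · exact ⟨4 * X 0 * X 1 ^ 2 - 4 * X 0 * X 1 * X 2 - 3 * X 1 ^ 3 + X 1 ^ 2 * X 2 + 2 * X 1 * X 2 ^ 2, by ring⟩
  · exact ⟨4 * X 0 * X 1 ^ 2 - 4 * X 0 * X 2 ^ 2 - 3 * X 1 ^ 3 - 2 * X 1 ^ 2 * X 2 + 3 * X 1 * X 2 ^ 2 + 2 * X 2 ^ 3, by ring⟩
  · exact ⟨4 * X 0 * X 1 ^ 2 + 4 * X 0 * X 1 * X 2 - 3 * X 1 ^ 3 - 5 * X 1 ^ 2 * X 2 - 2 * X 1 * X 2 ^ 2, by ring⟩
  · exact ⟨X 0 ^ 3 + X 0 ^ 2 * X 1 - 2 * X 0 ^ 2 * X 2 + X 0 * X 1 ^ 2 - 2 * X 0 * X 1 * X 2 - X 0 * X 2 ^ 2 - 3 * X 1 ^ 3 - 2 * X 1 ^ 2 * X 2 + 3 * X 1 * X 2 ^ 2 + 2 * X 2 ^ 3, by ring⟩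
  · exact ⟨X 0 ^ 3 + X 0 ^ 2 * X 1 - X 0 ^ 2 * X 2 + X 0 * X 1 ^ 2 - 2 * X 0 * X 2 ^ 2 - 3 * X 1 ^ 3 + X 1 ^ 2 * X 2 + 2 * X 1 * X 2 ^ 2, by ring⟩

noncomputable def t5 (K : Type) [Field K] : Der K := mkDerivation K ![0,
  X 0 ^ 2 * X 1 ^ 3 - X 0 ^ 2 * X 1 * X 2 ^ 2 - 2 * X 0 * X 1 ^ 4 - X 0 * X 1 ^ 3 * X 2 + 2 * X 0 * X 1 ^ 2 * X 2 ^ 2 + X 0 * X 1 * X 2 ^ 3 + X 1 ^ 5 + X 1 ^ 4 * X 2 - X 1 ^ 3 * X 2 ^ 2 - X 1 ^ 2 * X 2 ^ 3,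
  0]

theorem t5_0 : t5 K (X 0) = 0 := by
  rw [t5, mkDerivation_X]; rfl

theorem t5_1 : t5 K (X 1) = X 0 ^ 2 * X 1 ^ 3 - X 0 ^ 2 * X 1 * X 2 ^ 2 - 2 * X 0 * X 1 ^ 4 - X 0 * X 1 ^ 3 * X 2 + 2 * X 0 * X 1 ^ 2 * X 2 ^ 2 + X 0 * X 1 * X 2 ^ 3 + X 1 ^ 5 + X 1 ^ 4 * X 2 - X 1 ^ 3 * X 2 ^ 2 - X 1 ^ 2 * X 2 ^ 3 := by
  rw [t5, mkDerivation_X]; rfl

theorem t5_2 : t5 K (X 2) = 0 := by
  rw [t5, mkDerivation_X]; rfl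

theorem t5_hom : IsHomDer (t5 K) 5 := by
  refine hom_of_three ?_ ?_ ?_
  · rw [t5_0]; exact isHomogeneous_zero _ _ _
  · rw [t5_1]
    exact hcongr ((((((((((hmon (1) 2 3 0 5 rfl).add (hmon (-1) 2 1 2 5 rfl)).add (hmon (-2) 1 4 0 5 rfl)).add (hmon (-1) 1 3 1 5 rfl)).add (hmon (2) 1 2 2 5 rfl)).add (hmon (1) 1 1 3 5 rfl)).add (hmon (1) 0 5 0 5 rfl)).add (hmon (1) 0 4 1 5 rfl)).add (hmon (-1) 0 3 2 5 rfl)).add (hmon (-1) 0 2 3 5 rfl))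
      (by simp only [mon]; push_cast; ring)
  · rw [t5_2]; exact isHomogeneous_zero _ _ _

theorem t5_mem : InA (t5 K) := by
  unfold InA
  rw [t5_0, t5_1, t5_2]
  refine ⟨?_, ?_, ?_, ?_, ?_, ?_, ?_, ?_, ?_⟩
  · exact ⟨0, by ring⟩
  · exact ⟨0, by ring⟩
  · exact ⟨0, by ring⟩
  · exact ⟨0, by ring⟩
  · exact ⟨X 0 ^ 2 * X 1 ^ 2 - X 0 ^ 2 * X 1 * X 2 - 2 * X 0 * X 1 ^ 3 + X 0 * X 1 ^ 2 * X 2 + X 0 * X 1 * X 2 ^ 2 + X 1 ^ 4 - X 1 ^ 2 * X 2 ^ 2, by ring⟩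
  · exact ⟨X 0 ^ 2 * X 1 ^ 2 - X 0 ^ 2 * X 2 ^ 2 - 2 * X 0 * X 1 ^ 3 - X 0 * X 1 ^ 2 * X 2 + 2 * X 0 * X 1 * X 2 ^ 2 + X 0 * X 2 ^ 3 + X 1 ^ 4 + X 1 ^ 3 * X 2 - X 1 ^ 2 * X 2 ^ 2 - X 1 * X 2 ^ 3, by ring⟩
  · exact ⟨X 0 ^ 2 * X 1 ^ 2 + X 0 ^ 2 * X 1 * X 2 - 2 * X 0 * X 1 ^ 3 - 3 * X 0 * X 1 ^ 2 * X 2 - X 0 * X 1 * X 2 ^ 2 + X 1 ^ 4 + 2 * X 1 ^ 3 * X 2 + X 1 ^ 2 * X 2 ^ 2, by ring⟩
  · exact ⟨-X 0 * X 1 ^ 3 + X 0 * X 1 * X 2 ^ 2 + X 1 ^ 4 + X 1 ^ 3 * X 2 - X 1 ^ 2 * X 2 ^ 2 - X 1 * X 2 ^ 3, by ring⟩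
  · exact ⟨-X 0 * X 1 ^ 3 + X 0 * X 1 * X 2 ^ 2 + X 1 ^ 4 - X 1 ^ 2 * X 2 ^ 2, by ring⟩

noncomputable def ph (K : Type) [Field K] : Der K := mkDerivation K ![2 * X 0 ^ 4 * X 1 ^ 2 - 2 * X 0 ^ 3 * X 1 ^ 3 + X 0 ^ 3 * X 1 ^ 2 * X 2 - X 0 ^ 2 * X 1 ^ 3 * X 2 - 2 * X 0 ^ 2 * X 1 ^ 2 * X 2 ^ 2 + 2 * X 0 * X 1 ^ 3 * X 2 ^ 2,
  X 0 ^ 4 * X 1 * X 2 + X 0 ^ 3 * X 1 ^ 3 - X 0 ^ 3 * X 1 ^ 2 * X 2 - X 0 ^ 3 * X 1 * X 2 ^ 2 - 2 * X 0 * X 1 ^ 5 + 2 * X 0 * X 1 ^ 3 * X 2 ^ 2 + X 1 ^ 6 - X 1 ^ 4 * X 2 ^ 2,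
  X 0 ^ 4 * X 1 ^ 2 - X 0 ^ 3 * X 1 ^ 3]

theorem ph_0 : ph K (X 0) = 2 * X 0 ^ 4 * X 1 ^ 2 - 2 * X 0 ^ 3 * X 1 ^ 3 + X 0 ^ 3 * X 1 ^ 2 * X 2 - X 0 ^ 2 * X 1 ^ 3 * X 2 - 2 * X 0 ^ 2 * X 1 ^ 2 * X 2 ^ 2 + 2 * X 0 * X 1 ^ 3 * X 2 ^ 2 := by
  rw [ph, mkDerivation_X]; rfl

theorem ph_1 : ph K (X 1) = X 0 ^ 4 * X 1 * X 2 + X 0 ^ 3 * X 1 ^ 3 - X 0 ^ 3 * X 1 ^ 2 * X 2 - X 0 ^ 3 * X 1 * X 2 ^ 2 - 2 * X 0 * X 1 ^ 5 + 2 * X 0 * X 1 ^ 3 * X 2 ^ 2 + X 1 ^ 6 - X 1 ^ 4 * X 2 ^ 2 := by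
  rw [ph, mkDerivation_X]; rfl

theorem ph_2 : ph K (X 2) = X 0 ^ 4 * X 1 ^ 2 - X 0 ^ 3 * X 1 ^ 3 := by
  rw [ph, mkDerivation_X]; rfl

theorem ph_hom : IsHomDer (ph K) 6 := by
  refine hom_of_three ?_ ?_ ?_
  · rw [ph_0]
    exact hcongr ((((((hmon (2) 4 2 0 6 rfl).add (hmon (-2) 3 3 0 6 rfl)).add (hmon (1) 3 2 1 6 rfl)).add (hmon (-1) 2 3 1 6 rfl)).add (hmon (-2) 2 2 2 6 rfl)).add (hmon (2) 1 3 2 6 rfl))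
      (by simp only [mon]; push_cast; ring)
  · rw [ph_1]
    exact hcongr ((((((((hmon (1) 4 1 1 6 rfl).add (hmon (1) 3 3 0 6 rfl)).add (hmon (-1) 3 2 1 6 rfl)).add (hmon (-1) 3 1 2 6 rfl)).add (hmon (-2) 1 5 0 6 rfl)).add (hmon (2) 1 3 2 6 rfl)).add (hmon (1) 0 6 0 6 rfl)).add (hmon (-1) 0 4 2 6 rfl))
      (by simp only [mon]; push_cast; ring)
  · rw [ph_2]
    exact hcongr ((hmon (1) 4 2 0 6 rfl).add (hmon (-1) 3 3 0 6 rfl))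
      (by simp only [mon]; push_cast; ring)

theorem ph_mem : InA (ph K) := by
  unfold InA
  rw [ph_0, ph_1, ph_2]
  refine ⟨?_, ?_, ?_, ?_, ?_, ?_, ?_, ?_, ?_⟩
  · exact ⟨3 * X 0 ^ 3 * X 1 ^ 2 - 3 * X 0 ^ 2 * X 1 ^ 3 - 2 * X 0 ^ 2 * X 1 ^ 2 * X 2 + 2 * X 0 * X 1 ^ 3 * X 2, by ring⟩
  · exact ⟨2 * X 0 ^ 3 * X 1 ^ 2 - 2 * X 0 ^ 2 * X 1 ^ 3 + X 0 ^ 2 * X 1 ^ 2 * X 2 - X 0 * X 1 ^ 3 * X 2 - 2 * X 0 * X 1 ^ 2 * X 2 ^ 2 + 2 * X 1 ^ 3 * X 2 ^ 2, by ring⟩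
  · exact ⟨X 0 ^ 3 * X 1 ^ 2 - X 0 ^ 2 * X 1 ^ 3 + 2 * X 0 ^ 2 * X 1 ^ 2 * X 2 - 2 * X 0 * X 1 ^ 3 * X 2, by ring⟩
  · exact ⟨X 0 ^ 2 * X 1 ^ 2 * X 2 - X 0 * X 1 ^ 3 * X 2, by ring⟩
  · exact ⟨X 0 ^ 4 * X 1 - X 0 ^ 3 * X 1 * X 2 - 2 * X 0 * X 1 ^ 4 + 2 * X 0 * X 1 ^ 3 * X 2 + X 1 ^ 5 - X 1 ^ 4 * X 2, by ring⟩
  · exact ⟨X 0 ^ 4 * X 2 + X 0 ^ 3 * X 1 ^ 2 - X 0 ^ 3 * X 1 * X 2 - X 0 ^ 3 * X 2 ^ 2 - 2 * X 0 * X 1 ^ 4 + 2 * X 0 * X 1 ^ 2 * X 2 ^ 2 + X 1 ^ 5 - X 1 ^ 3 * X 2 ^ 2, by ring⟩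
  · exact ⟨-X 0 ^ 4 * X 1 + 2 * X 0 ^ 3 * X 1 ^ 2 + X 0 ^ 3 * X 1 * X 2 - 2 * X 0 * X 1 ^ 4 - 2 * X 0 * X 1 ^ 3 * X 2 + X 1 ^ 5 + X 1 ^ 4 * X 2, by ring⟩
  · exact ⟨2 * X 0 ^ 3 * X 1 ^ 2 - X 0 ^ 3 * X 1 * X 2 - X 0 ^ 2 * X 1 ^ 3 + X 0 ^ 2 * X 1 ^ 2 * X 2 + X 0 ^ 2 * X 1 * X 2 ^ 2 - X 0 * X 1 ^ 4 - X 0 * X 1 ^ 2 * X 2 ^ 2 + X 1 ^ 5 - X 1 ^ 3 * X 2 ^ 2, by ring⟩
  · exact ⟨X 0 ^ 3 * X 1 ^ 2 - X 0 ^ 3 * X 1 * X 2 - X 0 ^ 2 * X 1 ^ 3 + 2 * X 0 ^ 2 * X 1 ^ 2 * X 2 - X 0 * X 1 ^ 4 + X 1 ^ 5 - X 1 ^ 4 * X 2, by ring⟩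

noncomputable def f0 (K : Type) [Field K] : S K := -X 0 ^ 4 * X 1 ^ 2 + X 0 ^ 3 * X 1 ^ 3

theorem f0_hom : (f0 K).IsHomogeneous 6 :=
  hcongr ((hmon (-1) 4 2 0 6 rfl).add (hmon (1) 3 3 0 6 rfl))
    (by simp only [mon, f0]; push_cast; ring)

noncomputable def f1 (K : Type) [Field K] : S K := X 0 * X 1 ^ 2 - X 1 ^ 3

theorem f1_hom : (f1 K).IsHomogeneous 3 :=
  hcongr ((hmon (1) 1 2 0 3 rfl).add (hmon (-1) 0 3 0 3 rfl))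
    (by simp only [mon, f1]; push_cast; ring)

noncomputable def f2 (K : Type) [Field K] : S K := X 0 ^ 2 + X 0 * X 1 - 3 * X 1 ^ 2

theorem f2_hom : (f2 K).IsHomogeneous 2 :=
  hcongr (((hmon (1) 2 0 0 2 rfl).add (hmon (1) 1 1 0 2 rfl)).add (hmon (-3) 0 2 0 2 rfl))
    (by simp only [mon, f2]; push_cast; ring)

theorem z_dvd (g : S K) : ∃ k, g = aeval (![X 0, X 1, 0] : Fin 3 → S K) g + X 2 * k := by
  induction g using MvPolynomial.induction_on with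
  | C a => exact ⟨0, by simp⟩
  | add p q hp hq =>
    obtain ⟨k, hk⟩ := hp
    obtain ⟨m, hm⟩ := hq
    exact ⟨k + m, by rw [map_add]; linear_combination hk + hm⟩
  | mul_X p j hp =>
    obtain ⟨k, hk⟩ := hp
    rw [map_mul, aeval_X]
    fin_cases j
    · exact ⟨k * X 0, by
        simp only [Fin.zero_eta, Matrix.cons_val_zero]; linear_combination X 0 * hk⟩
    · exact ⟨k * X 1, by
        simp only [Fin.mk_one, Matrix.cons_val_one, Matrix.cons_val_zero]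
        linear_combination X 1 * hk⟩
    · exact ⟨p, by simp; ring⟩

theorem gen [CharZero K] (θ : Der K) (h : InA θ) : ∃ g0 g1 g2 β : S K,
    θ = g0 • tE K + g1 • t4 K + g2 • t5 K + β • ph K := by
  obtain ⟨⟨q1, h1⟩, ⟨q2, h2⟩, ⟨q3, h3⟩, ⟨q4, h4⟩, ⟨q5, h5⟩, ⟨q6, h6⟩, ⟨q7, h7⟩, ⟨q8, h8⟩,
    ⟨q9, h9⟩⟩ := h
  set a := θ (X 0) with ha
  set b := θ (X 1) with hb
  set c := θ (X 2) with hc
  have p1 : Prime (X 0 : S K) := X_prime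
  have p2 : Prime (X 0 - X 2 : S K) := by convert prime0 (K := K) 0 (-1) using 1; simp; ring
  have p3 : Prime (X 0 - 2 * X 2 : S K) := by
    convert prime0 (K := K) 0 (-2) using 1; simp [map_ofNat]; ring
  have p4 : Prime (X 1 : S K) := X_prime
  have p5 : Prime (X 1 - X 2 : S K) := by convert prime1 (K := K) (-1) using 1; simp; ring
  have p6 : Prime (X 0 - X 1 : S K) := by convert prime0 (K := K) (-1) 0 using 1; simp; ring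
  have p7 : Prime (X 0 - X 1 - X 2 : S K) := by
    convert prime0 (K := K) (-1) (-1) using 1; simp; ring
  have hz : (X 2 : S K) ≠ 0 := X_ne_zero _
  have u1 : X 0 + X 2 ∣ X 2 * a - c * X 0 := ⟨X 2 * q1 - c, by linear_combination X 2 * h1⟩
  have u2 : X 0 ∣ X 2 * a - c * X 0 := ⟨X 2 * q2 - c, by linear_combination X 2 * h2⟩
  have u3 : X 0 - X 2 ∣ X 2 * a - c * X 0 := ⟨X 2 * q3 - c, by linear_combination X 2 * h3⟩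
  have u4 : X 0 - 2 * X 2 ∣ X 2 * a - c * X 0 := ⟨X 2 * q4 - c, by linear_combination X 2 * h4⟩
  have u5 := mul_dvd_of_prime p1 u2 u1 ![0, 0, 1] (by simp) (by simp)
  have u6 := mul_dvd_of_prime p2 u3 u5 ![1, 0, 1] (by simp) (by simp)
  obtain ⟨g1, hg1⟩ := mul_dvd_of_prime p3 u4 u6 ![2, 0, 1] (by simp) (by simp; norm_num)
  set v : S K := X 2 * b - c * X 1 -
    g1 * ((X 1 + X 2) * X 1 * (X 1 - X 2) * (4 * X 0 - 3 * X 1 - 2 * X 2)) with hv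
  have v1 : X 1 + X 2 ∣ v := ⟨X 2 * q5 - c - g1 * (X 1 * (X 1 - X 2) * (4 * X 0 - 3 * X 1 - 2 * X 2)),
    by linear_combination X 2 * h5⟩
  have v2 : X 1 ∣ v := ⟨X 2 * q6 - c -
    g1 * ((X 1 + X 2) * (X 1 - X 2) * (4 * X 0 - 3 * X 1 - 2 * X 2)), by linear_combination X 2 * h6⟩
  have v3 : X 1 - X 2 ∣ v := ⟨X 2 * q7 - c -
    g1 * ((X 1 + X 2) * X 1 * (4 * X 0 - 3 * X 1 - 2 * X 2)), by linear_combination X 2 * h7⟩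
  have v4 : X 0 - X 1 ∣ v := ⟨g1 * (X 0 ^ 3 + X 0 ^ 2 * X 1 - 2 * X 0 ^ 2 * X 2 + X 0 * X 1 ^ 2 - 2 * X 0 * X 1 * X 2 - X 0 * X 2 ^ 2 - 3 * X 1 ^ 3 - 2 * X 1 ^ 2 * X 2 + 3 * X 1 * X 2 ^ 2 + 2 * X 2 ^ 3) - X 2 * q8 + c, by linear_combination hg1 - X 2 * h8⟩
  have v5 : X 0 - X 1 - X 2 ∣ v := ⟨g1 * (X 0 ^ 3 + X 0 ^ 2 * X 1 - X 0 ^ 2 * X 2 + X 0 * X 1 ^ 2 - 2 * X 0 * X 2 ^ 2 - 3 * X 1 ^ 3 + X 1 ^ 2 * X 2 + 2 * X 1 * X 2 ^ 2) - X 2 * q9 + c, by linear_combination hg1 - X 2 * h9⟩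
  have v6 := mul_dvd_of_prime p4 v2 v1 ![0, 0, 1] (by simp) (by simp)
  have v7 := mul_dvd_of_prime p5 v3 v6 ![0, 1, 1] (by simp) (by simp)
  have v8 := mul_dvd_of_prime p6 v4 v7 ![1, 1, 0] (by simp) (by simp)
  obtain ⟨g2, hg2⟩ := mul_dvd_of_prime p7 v5 v8 ![3, 2, 1] (by simp; norm_num) (by simp; norm_num)
  rw [hv] at hg2
  let σ : S K →ₐ[K] S K := aeval (![X 0, X 1, 0] : Fin 3 → S K)
  have s0 : σ (X 0) = X 0 := by simp [σ]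
  have s1 : σ (X 1) = X 1 := by simp [σ]
  have s2 : σ (X 2) = 0 := by simp [σ]
  have e1 := congrArg σ hg1
  have e2 := congrArg σ hg2
  simp only [map_sub, map_mul, map_add, map_ofNat, s0, s1, s2] at e1 e2
  have e3 : σ c = -X 0 ^ 3 * σ g1 := by
    apply mul_left_cancel₀ p1.ne_zero
    linear_combination -e1
  have e4 : σ g1 * (X 0 ^ 2 + X 0 * X 1 - 3 * X 1 ^ 2) = X 1 ^ 2 * (X 0 - X 1) * σ g2 := by
    apply mul_left_cancel₀ (mul_ne_zero p4.ne_zero p6.ne_zero)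
    rw [e3] at e2
    linear_combination e2
  have w1 : X 1 ^ 2 ∣ σ g1 := p4.pow_dvd_of_dvd_mul_right 2
    (not_dvd_of_eval (q := X 0 ^ 2 + X 0 * X 1 - 3 * X 1 ^ 2) ![1, 0, 0] (by simp) (by simp))
    ⟨(X 0 - X 1) * σ g2, by rw [e4]; ring⟩
  have w2 : X 0 - X 1 ∣ σ g1 := (p6.dvd_or_dvd ⟨X 1 ^ 2 * σ g2, by rw [e4]; ring⟩).resolve_right
    (not_dvd_of_eval ![1, 1, 0] (by simp) (by simp; norm_num))
  obtain ⟨k, hk⟩ := mul_dvd_of_prime p6 w2 w1 ![1, 1, 0] (by simp) (by simp)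
  have e5 : σ g2 = k * (X 0 ^ 2 + X 0 * X 1 - 3 * X 1 ^ 2) := by
    apply mul_left_cancel₀ (mul_ne_zero (pow_ne_zero 2 p4.ne_zero) p6.ne_zero)
    rw [← e4, hk]; ring
  obtain ⟨c', hc'⟩ := z_dvd c
  obtain ⟨g1', hg1'⟩ := z_dvd g1
  obtain ⟨g2', hg2'⟩ := z_dvd g2
  change c = σ c + _ at hc'
  change g1 = σ g1 + _ at hg1'
  change g2 = σ g2 + _ at hg2'
  rw [e3, hk] at hc'
  rw [hk] at hg1'
  rw [e5] at hg2'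
  refine ⟨c', g1', g2', -k, derivation_ext fun i => mul_left_cancel₀ hz ?_⟩
  simp only [Derivation.add_apply, Derivation.smul_apply, smul_eq_mul]
  fin_cases i
  · simp only [Fin.zero_eta, tE_0, t4_0, t5_0, ph_0, ← ha]
    rw [hc', hg1'] at hg1
    linear_combination hg1
  · simp only [Fin.mk_one, tE_1, t4_1, t5_1, ph_1, ← hb]
    rw [hc', hg1', hg2'] at hg2
    linear_combination hg2
  · simp only [Fin.reduceFinMk, tE_2, t4_2, t5_2, ph_2, ← hc]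
    linear_combination X 2 * hc'

theorem logDer_span {A : Set (Submodule K (Fin 3 → K))} {T : Set (Der K)} (hT : T ⊆ logDer A) :
    (Submodule.span (S K) T : Set (Der K)) ⊆ logDer A := by
  intro θ hθ
  induction hθ using Submodule.span_induction with
  | mem x hx => exact hT hx
  | zero => intro a _; simp
  | add x y _ _ hx hy => intro a ha; exact dvd_add (hx a ha) (hy a ha)
  | smul g x _ hx => intro a ha; exact (hx a ha).mul_left g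

theorem strictA [CharZero K] : StrictPlusOne (Set.range fun i => H K (aA i)) ![1, 4, 5] 6 := by
  have hz : (X 2 : S K) ≠ 0 := X_ne_zero _
  refine ⟨![tE K, t4 K, t5 K], ph K, ![f0 K, f1 K, f2 K], X 2,
    ⟨?_, ph_hom, ?_, isHomogeneous_X _ _, ?_, fun h => hz h.2, ?_⟩, hz⟩
  · intro i
    fin_cases i
    exacts [tE_hom, t4_hom, t5_hom]
  · apply Set.Subset.antisymm
    · intro θ hθ
      obtain ⟨g0, g1, g2, β, rfl⟩ := gen θ ((mem_iff_InA θ).1 hθ)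
      refine Submodule.add_mem _ (Submodule.add_mem _ (Submodule.add_mem _ ?_ ?_) ?_) ?_
      · exact Submodule.smul_mem _ _ (Submodule.subset_span (Or.inr ⟨0, rfl⟩))
      · exact Submodule.smul_mem _ _ (Submodule.subset_span (Or.inr ⟨1, rfl⟩))
      · exact Submodule.smul_mem _ _ (Submodule.subset_span (Or.inr ⟨2, rfl⟩))
      · exact Submodule.smul_mem _ _ (Submodule.subset_span (Or.inl rfl))
    · apply logDer_span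
      rintro _ (rfl | ⟨i, rfl⟩)
      · exact (mem_iff_InA _).2 ph_mem
      · fin_cases i
        exacts [(mem_iff_InA _).2 tE_mem, (mem_iff_InA _).2 t4_mem, (mem_iff_InA _).2 t5_mem]
  · intro i
    fin_cases i
    · exact ⟨f0_hom, by simp [f0]⟩
    · exact ⟨f1_hom, by simp [f1]⟩
    · exact ⟨f2_hom, by simp [f2]⟩
  · intro g β
    rw [Fin.sum_univ_three]
    constructor
    · intro h
      have e0 := congrArg (fun θ : Der K => θ (X 0)) h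
      have e1 := congrArg (fun θ : Der K => θ (X 1)) h
      have e2 := congrArg (fun θ : Der K => θ (X 2)) h
      simp only [Derivation.add_apply, Derivation.smul_apply, smul_eq_mul, Matrix.cons_val_zero,
        Matrix.cons_val_one, Matrix.cons_val, tE_0, t4_0, t5_0, ph_0, tE_1, t4_1, t5_1, ph_1,
        tE_2, t4_2, t5_2, ph_2, Derivation.zero_apply] at e0 e1 e2
      have k0 : X 2 * g 0 = β * f0 K := by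
        unfold f0; linear_combination e2
      have k1 : X 2 * g 1 = β * f1 K := by
        have hp : (X 0 ^ 4 - 2 * X 0 ^ 3 * X 2 - X 0 ^ 2 * X 2 ^ 2 + 2 * X 0 * X 2 ^ 3 : S K) ≠ 0 :=
          fun h => by simpa using congrArg (eval ![1, 0, 0]) h
        apply mul_left_cancel₀ hp
        unfold f1; linear_combination X 2 * e0 - X 0 * e2
      have k2 : X 2 * g 2 = β * f2 K := by
        have hp : ((X 1 + X 2) * X 1 * (X 1 - X 2) * (X 0 - X 1) * (X 0 - X 1 - X 2) : S K) ≠ 0 :=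
          fun h => by simpa using congrArg (eval ![0, 1, 0]) h
        apply mul_left_cancel₀ hp
        unfold f1 at k1
        unfold f2
        linear_combination X 2 * e1 - X 1 * e2 -
          ((X 1 + X 2) * X 1 * (X 1 - X 2) * (4 * X 0 - 3 * X 1 - 2 * X 2)) * k1
      obtain ⟨c, hc⟩ : X 2 ∣ β := ((X_prime (i := (2 : Fin 3))).dvd_or_dvd ⟨g 2, k2.symm⟩).resolve_right
        (not_dvd_of_eval ![1, 0, 0] (by simp) (by simp [f2]))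
      refine ⟨c, fun i => mul_left_cancel₀ hz ?_, by rw [hc, mul_comm]⟩
      fin_cases i
      · simp only [Fin.zero_eta, Matrix.cons_val_zero]; rw [k0, hc]; ring
      · simp only [Fin.mk_one, Matrix.cons_val_one, Matrix.cons_val_zero]; rw [k1, hc]; ring
      · simp only [Fin.reduceFinMk, Matrix.cons_val]; rw [k2, hc]; ring
    · rintro ⟨c, hc, rfl⟩
      rw [hc 0, hc 1, hc 2]
      refine derivation_ext fun i => ?_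
      simp only [Derivation.add_apply, Derivation.smul_apply, smul_eq_mul, Matrix.cons_val_zero,
        Matrix.cons_val_one, Matrix.cons_val, Derivation.zero_apply, f0, f1, f2]
      fin_cases i
      · simp only [Fin.zero_eta, tE_0, t4_0, t5_0, ph_0]; ring
      · simp only [Fin.mk_one, tE_1, t4_1, t5_1, ph_1]; ring
      · simp only [Fin.reduceFinMk, tE_2, t4_2, t5_2, ph_2]; ring

end Pool.Agent.H50.POGA
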