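import Mathlib
import Pool.Agent.H50.POGA

set_option autoImplicit false
set_option linter.unusedSimpArgs false

namespace Pool.Agent.H50.POGB

open MvPolynomial Pool.Agent.H50.POGDefs Pool.Agent.H50.POGBasic Pool.Agent.H50.POGA

variable {K : Type} [Field K]

def aB : Fin 9 → Fin 3 → ℤ := ![![1, 0, 0], ![1, 0, -1], ![1, 0, 1], ![1, 0, -3], ![0, 1, 0],
  ![0, 1, -1], ![0, 1, 1], ![1, -1, 0], ![1, 2, -1]]

def InB (θ : Der K) : Prop :=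
  X 0 ∣ θ (X 0) ∧ X 0 - X 2 ∣ θ (X 0) - θ (X 2) ∧ X 0 + X 2 ∣ θ (X 0) + θ (X 2) ∧
  X 0 - 3 * X 2 ∣ θ (X 0) - 3 * θ (X 2) ∧ X 1 ∣ θ (X 1) ∧ X 1 - X 2 ∣ θ (X 1) - θ (X 2) ∧
  X 1 + X 2 ∣ θ (X 1) + θ (X 2) ∧ X 0 - X 1 ∣ θ (X 0) - θ (X 1) ∧
  X 0 + 2 * X 1 - X 2 ∣ θ (X 0) + 2 * θ (X 1) - θ (X 2)

theorem mem_iff_InB (θ : Der K) : θ ∈ logDer (Set.range fun i => H K (aB i)) ↔ InB θ := by
  have h : ∀ i, aB i 0 = 1 ∨ aB i 1 = 1 := by decide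
  refine (mem_logDer (fun i j => (aB i j : K)) (fun i => ?_) θ).trans ?_
  · rcases h i with h | h <;> simp [h]
  · simp only [Fin.forall_fin_succ, der_form, InB]
    simp [form_eq, aB, sub_eq_add_neg, map_ofNat]

noncomputable def e0 (K : Type) [Field K] : Der K := mkDerivation K ![0,
  -X 0 ^ 2 * X 1 ^ 3 + X 0 ^ 2 * X 1 * X 2 ^ 2 - X 0 * X 1 ^ 4 + X 0 * X 1 ^ 3 * X 2 + X 0 * X 1 ^ 2 * X 2 ^ 2 - X 0 * X 1 * X 2 ^ 3 + 2 * X 1 ^ 5 - X 1 ^ 4 * X 2 - 2 * X 1 ^ 3 * X 2 ^ 2 + X 1 ^ 2 * X 2 ^ 3,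
  0]

theorem e0_0 : e0 K (X 0) = 0 := by
  rw [e0, mkDerivation_X]; rfl

theorem e0_1 : e0 K (X 1) = -X 0 ^ 2 * X 1 ^ 3 + X 0 ^ 2 * X 1 * X 2 ^ 2 - X 0 * X 1 ^ 4 + X 0 * X 1 ^ 3 * X 2 + X 0 * X 1 ^ 2 * X 2 ^ 2 - X 0 * X 1 * X 2 ^ 3 + 2 * X 1 ^ 5 - X 1 ^ 4 * X 2 - 2 * X 1 ^ 3 * X 2 ^ 2 + X 1 ^ 2 * X 2 ^ 3 := by
  rw [e0, mkDerivation_X]; rfl

theorem e0_2 : e0 K (X 2) = 0 := by
  rw [e0, mkDerivation_X]; rfl

theorem e0_hom : IsHomDer (e0 K) 5 := by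
  refine hom_of_three ?_ ?_ ?_
  · rw [e0_0]; exact isHomogeneous_zero _ _ _
  · rw [e0_1]
    exact hcongr ((((((((((hmon (-1) 2 3 0 5 rfl).add (hmon (1) 2 1 2 5 rfl)).add (hmon (-1) 1 4 0 5 rfl)).add (hmon (1) 1 3 1 5 rfl)).add (hmon (1) 1 2 2 5 rfl)).add (hmon (-1) 1 1 3 5 rfl)).add (hmon (2) 0 5 0 5 rfl)).add (hmon (-1) 0 4 1 5 rfl)).add (hmon (-2) 0 3 2 5 rfl)).add (hmon (1) 0 2 3 5 rfl))
      (by simp only [mon]; push_cast; ring)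
  · rw [e0_2]; exact isHomogeneous_zero _ _ _

theorem e0_mem : InB (e0 K) := by
  unfold InB
  rw [e0_0, e0_1, e0_2]
  refine ⟨?_, ?_, ?_, ?_, ?_, ?_, ?_, ?_, ?_⟩
  · exact ⟨0, by ring⟩
  · exact ⟨0, by ring⟩
  · exact ⟨0, by ring⟩
  · exact ⟨0, by ring⟩
  · exact ⟨-X 0 ^ 2 * X 1 ^ 2 + X 0 ^ 2 * X 2 ^ 2 - X 0 * X 1 ^ 3 + X 0 * X 1 ^ 2 * X 2 + X 0 * X 1 * X 2 ^ 2 - X 0 * X 2 ^ 3 + 2 * X 1 ^ 4 - X 1 ^ 3 * X 2 - 2 * X 1 ^ 2 * X 2 ^ 2 + X 1 * X 2 ^ 3, by ring⟩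
  · exact ⟨-X 0 ^ 2 * X 1 ^ 2 - X 0 ^ 2 * X 1 * X 2 - X 0 * X 1 ^ 3 + X 0 * X 1 * X 2 ^ 2 + 2 * X 1 ^ 4 + X 1 ^ 3 * X 2 - X 1 ^ 2 * X 2 ^ 2, by ring⟩
  · exact ⟨-X 0 ^ 2 * X 1 ^ 2 + X 0 ^ 2 * X 1 * X 2 - X 0 * X 1 ^ 3 + 2 * X 0 * X 1 ^ 2 * X 2 - X 0 * X 1 * X 2 ^ 2 + 2 * X 1 ^ 4 - 3 * X 1 ^ 3 * X 2 + X 1 ^ 2 * X 2 ^ 2, by ring⟩
  · exact ⟨X 0 * X 1 ^ 3 - X 0 * X 1 * X 2 ^ 2 + 2 * X 1 ^ 4 - X 1 ^ 3 * X 2 - 2 * X 1 ^ 2 * X 2 ^ 2 + X 1 * X 2 ^ 3, by ring⟩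
  · exact ⟨-2 * X 0 * X 1 ^ 3 + 2 * X 0 * X 1 * X 2 ^ 2 + 2 * X 1 ^ 4 - 2 * X 1 ^ 2 * X 2 ^ 2, by ring⟩

noncomputable def e1 (K : Type) [Field K] : Der K := mkDerivation K ![0,
  -X 0 ^ 4 * X 1 + 6 * X 0 ^ 3 * X 1 * X 2 + X 0 ^ 2 * X 1 ^ 3 - 9 * X 0 ^ 2 * X 1 * X 2 ^ 2 - 6 * X 0 * X 1 ^ 3 * X 2 + 9 * X 1 ^ 3 * X 2 ^ 2,
  -X 0 ^ 4 * X 2 + 3 * X 0 ^ 3 * X 1 ^ 2 + 3 * X 0 ^ 3 * X 2 ^ 2 - 9 * X 0 ^ 2 * X 1 ^ 2 * X 2 + X 0 ^ 2 * X 2 ^ 3 - 3 * X 0 * X 1 ^ 2 * X 2 ^ 2 - 3 * X 0 * X 2 ^ 4 + 9 * X 1 ^ 2 * X 2 ^ 3]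

theorem e1_0 : e1 K (X 0) = 0 := by
  rw [e1, mkDerivation_X]; rfl

theorem e1_1 : e1 K (X 1) = -X 0 ^ 4 * X 1 + 6 * X 0 ^ 3 * X 1 * X 2 + X 0 ^ 2 * X 1 ^ 3 - 9 * X 0 ^ 2 * X 1 * X 2 ^ 2 - 6 * X 0 * X 1 ^ 3 * X 2 + 9 * X 1 ^ 3 * X 2 ^ 2 := by
  rw [e1, mkDerivation_X]; rfl

theorem e1_2 : e1 K (X 2) = -X 0 ^ 4 * X 2 + 3 * X 0 ^ 3 * X 1 ^ 2 + 3 * X 0 ^ 3 * X 2 ^ 2 - 9 * X 0 ^ 2 * X 1 ^ 2 * X 2 + X 0 ^ 2 * X 2 ^ 3 - 3 * X 0 * X 1 ^ 2 * X 2 ^ 2 - 3 * X 0 * X 2 ^ 4 + 9 * X 1 ^ 2 * X 2 ^ 3 := by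
  rw [e1, mkDerivation_X]; rfl

theorem e1_hom : IsHomDer (e1 K) 5 := by
  refine hom_of_three ?_ ?_ ?_
  · rw [e1_0]; exact isHomogeneous_zero _ _ _
  · rw [e1_1]
    exact hcongr ((((((hmon (-1) 4 1 0 5 rfl).add (hmon (6) 3 1 1 5 rfl)).add (hmon (1) 2 3 0 5 rfl)).add (hmon (-9) 2 1 2 5 rfl)).add (hmon (-6) 1 3 1 5 rfl)).add (hmon (9) 0 3 2 5 rfl))
      (by simp only [mon]; push_cast; ring)
  · rw [e1_2]
    exact hcongr ((((((((hmon (-1) 4 0 1 5 rfl).add (hmon (3) 3 2 0 5 rfl)).add (hmon (3) 3 0 2 5 rfl)).add (hmon (-9) 2 2 1 5 rfl)).add (hmon (1) 2 0 3 5 rfl)).add (hmon (-3) 1 2 2 5 rfl)).add (hmon (-3) 1 0 4 5 rfl)).add (hmon (9) 0 2 3 5 rfl))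
      (by simp only [mon]; push_cast; ring)

theorem e1_mem : InB (e1 K) := by
  unfold InB
  rw [e1_0, e1_1, e1_2]
  refine ⟨?_, ?_, ?_, ?_, ?_, ?_, ?_, ?_, ?_⟩
  · exact ⟨0, by ring⟩
  · exact ⟨X 0 ^ 3 * X 2 - 3 * X 0 ^ 2 * X 1 ^ 2 - 2 * X 0 ^ 2 * X 2 ^ 2 + 6 * X 0 * X 1 ^ 2 * X 2 - 3 * X 0 * X 2 ^ 3 + 9 * X 1 ^ 2 * X 2 ^ 2, by ring⟩
  · exact ⟨-X 0 ^ 3 * X 2 + 3 * X 0 ^ 2 * X 1 ^ 2 + 4 * X 0 ^ 2 * X 2 ^ 2 - 12 * X 0 * X 1 ^ 2 * X 2 - 3 * X 0 * X 2 ^ 3 + 9 * X 1 ^ 2 * X 2 ^ 2, by ring⟩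
  · exact ⟨3 * X 0 ^ 3 * X 2 - 9 * X 0 ^ 2 * X 1 ^ 2 - 3 * X 0 * X 2 ^ 3 + 9 * X 1 ^ 2 * X 2 ^ 2, by ring⟩
  · exact ⟨-X 0 ^ 4 + 6 * X 0 ^ 3 * X 2 + X 0 ^ 2 * X 1 ^ 2 - 9 * X 0 ^ 2 * X 2 ^ 2 - 6 * X 0 * X 1 ^ 2 * X 2 + 9 * X 1 ^ 2 * X 2 ^ 2, by ring⟩
  · exact ⟨-X 0 ^ 4 - 3 * X 0 ^ 3 * X 1 + 3 * X 0 ^ 3 * X 2 + X 0 ^ 2 * X 1 ^ 2 + 10 * X 0 ^ 2 * X 1 * X 2 + X 0 ^ 2 * X 2 ^ 2 - 6 * X 0 * X 1 ^ 2 * X 2 - 3 * X 0 * X 1 * X 2 ^ 2 - 3 * X 0 * X 2 ^ 3 + 9 * X 1 ^ 2 * X 2 ^ 2, by ring⟩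
  · exact ⟨-X 0 ^ 4 + 3 * X 0 ^ 3 * X 1 + 3 * X 0 ^ 3 * X 2 + X 0 ^ 2 * X 1 ^ 2 - 10 * X 0 ^ 2 * X 1 * X 2 + X 0 ^ 2 * X 2 ^ 2 - 6 * X 0 * X 1 ^ 2 * X 2 + 3 * X 0 * X 1 * X 2 ^ 2 - 3 * X 0 * X 2 ^ 3 + 9 * X 1 ^ 2 * X 2 ^ 2, by ring⟩
  · exact ⟨X 0 ^ 3 * X 1 + X 0 ^ 2 * X 1 ^ 2 - 6 * X 0 ^ 2 * X 1 * X 2 - 6 * X 0 * X 1 ^ 2 * X 2 + 9 * X 0 * X 1 * X 2 ^ 2 + 9 * X 1 ^ 2 * X 2 ^ 2, by ring⟩
  · exact ⟨-2 * X 0 ^ 3 * X 1 + X 0 ^ 3 * X 2 + X 0 ^ 2 * X 1 ^ 2 + 8 * X 0 ^ 2 * X 1 * X 2 - 2 * X 0 ^ 2 * X 2 ^ 2 - 6 * X 0 * X 1 ^ 2 * X 2 - 6 * X 0 * X 1 * X 2 ^ 2 - 3 * X 0 * X 2 ^ 3 + 9 * X 1 ^ 2 * X 2 ^ 2, by ring⟩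

noncomputable def e2 (K : Type) [Field K] : Der K := mkDerivation K ![0,
  -X 0 ^ 4 * X 1 + X 0 ^ 3 * X 1 ^ 2 + 3 * X 0 ^ 3 * X 1 * X 2 + 7 * X 0 ^ 2 * X 1 ^ 3 - 3 * X 0 ^ 2 * X 1 ^ 2 * X 2 - 6 * X 0 ^ 2 * X 1 * X 2 ^ 2 - X 0 * X 1 ^ 4 - 3 * X 0 * X 1 ^ 3 * X 2 - 6 * X 1 ^ 5 + 3 * X 1 ^ 4 * X 2 + 6 * X 1 ^ 3 * X 2 ^ 2,
  -X 0 ^ 4 * X 2 + X 0 ^ 3 * X 1 * X 2 + 3 * X 0 ^ 3 * X 2 ^ 2 - 3 * X 0 ^ 2 * X 1 * X 2 ^ 2 + X 0 ^ 2 * X 2 ^ 3 - X 0 * X 1 * X 2 ^ 3 - 3 * X 0 * X 2 ^ 4 + 3 * X 1 * X 2 ^ 4]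

theorem e2_0 : e2 K (X 0) = 0 := by
  rw [e2, mkDerivation_X]; rfl

theorem e2_1 : e2 K (X 1) = -X 0 ^ 4 * X 1 + X 0 ^ 3 * X 1 ^ 2 + 3 * X 0 ^ 3 * X 1 * X 2 + 7 * X 0 ^ 2 * X 1 ^ 3 - 3 * X 0 ^ 2 * X 1 ^ 2 * X 2 - 6 * X 0 ^ 2 * X 1 * X 2 ^ 2 - X 0 * X 1 ^ 4 - 3 * X 0 * X 1 ^ 3 * X 2 - 6 * X 1 ^ 5 + 3 * X 1 ^ 4 * X 2 + 6 * X 1 ^ 3 * X 2 ^ 2 := by
  rw [e2, mkDerivation_X]; rfl

theorem e2_2 : e2 K (X 2) = -X 0 ^ 4 * X 2 + X 0 ^ 3 * X 1 * X 2 + 3 * X 0 ^ 3 * X 2 ^ 2 - 3 * X 0 ^ 2 * X 1 * X 2 ^ 2 + X 0 ^ 2 * X 2 ^ 3 - X 0 * X 1 * X 2 ^ 3 - 3 * X 0 * X 2 ^ 4 + 3 * X 1 * X 2 ^ 4 := by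
  rw [e2, mkDerivation_X]; rfl

theorem e2_hom : IsHomDer (e2 K) 5 := by
  refine hom_of_three ?_ ?_ ?_
  · rw [e2_0]; exact isHomogeneous_zero _ _ _
  · rw [e2_1]
    exact hcongr (((((((((((hmon (-1) 4 1 0 5 rfl).add (hmon (1) 3 2 0 5 rfl)).add (hmon (3) 3 1 1 5 rfl)).add (hmon (7) 2 3 0 5 rfl)).add (hmon (-3) 2 2 1 5 rfl)).add (hmon (-6) 2 1 2 5 rfl)).add (hmon (-1) 1 4 0 5 rfl)).add (hmon (-3) 1 3 1 5 rfl)).add (hmon (-6) 0 5 0 5 rfl)).add (hmon (3) 0 4 1 5 rfl)).add (hmon (6) 0 3 2 5 rfl))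
      (by simp only [mon]; push_cast; ring)
  · rw [e2_2]
    exact hcongr ((((((((hmon (-1) 4 0 1 5 rfl).add (hmon (1) 3 1 1 5 rfl)).add (hmon (3) 3 0 2 5 rfl)).add (hmon (-3) 2 1 2 5 rfl)).add (hmon (1) 2 0 3 5 rfl)).add (hmon (-1) 1 1 3 5 rfl)).add (hmon (-3) 1 0 4 5 rfl)).add (hmon (3) 0 1 4 5 rfl))
      (by simp only [mon]; push_cast; ring)

theorem e2_mem : InB (e2 K) := by
  unfold InB
  rw [e2_0, e2_1, e2_2]
  refine ⟨?_, ?_, ?_, ?_, ?_, ?_, ?_, ?_, ?_⟩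
  · exact ⟨0, by ring⟩
  · exact ⟨X 0 ^ 3 * X 2 - X 0 ^ 2 * X 1 * X 2 - 2 * X 0 ^ 2 * X 2 ^ 2 + 2 * X 0 * X 1 * X 2 ^ 2 - 3 * X 0 * X 2 ^ 3 + 3 * X 1 * X 2 ^ 3, by ring⟩
  · exact ⟨-X 0 ^ 3 * X 2 + X 0 ^ 2 * X 1 * X 2 + 4 * X 0 ^ 2 * X 2 ^ 2 - 4 * X 0 * X 1 * X 2 ^ 2 - 3 * X 0 * X 2 ^ 3 + 3 * X 1 * X 2 ^ 3, by ring⟩
  · exact ⟨3 * X 0 ^ 3 * X 2 - 3 * X 0 ^ 2 * X 1 * X 2 - 3 * X 0 * X 2 ^ 3 + 3 * X 1 * X 2 ^ 3, by ring⟩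
  · exact ⟨-X 0 ^ 4 + X 0 ^ 3 * X 1 + 3 * X 0 ^ 3 * X 2 + 7 * X 0 ^ 2 * X 1 ^ 2 - 3 * X 0 ^ 2 * X 1 * X 2 - 6 * X 0 ^ 2 * X 2 ^ 2 - X 0 * X 1 ^ 3 - 3 * X 0 * X 1 ^ 2 * X 2 - 6 * X 1 ^ 4 + 3 * X 1 ^ 3 * X 2 + 6 * X 1 ^ 2 * X 2 ^ 2, by ring⟩
  · exact ⟨-X 0 ^ 4 + X 0 ^ 3 * X 1 + 3 * X 0 ^ 3 * X 2 + 7 * X 0 ^ 2 * X 1 ^ 2 + 4 * X 0 ^ 2 * X 1 * X 2 + X 0 ^ 2 * X 2 ^ 2 - X 0 * X 1 ^ 3 - 4 * X 0 * X 1 ^ 2 * X 2 - 4 * X 0 * X 1 * X 2 ^ 2 - 3 * X 0 * X 2 ^ 3 - 6 * X 1 ^ 4 - 3 * X 1 ^ 3 * X 2 + 3 * X 1 ^ 2 * X 2 ^ 2 + 3 * X 1 * X 2 ^ 3, by ring⟩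
  · exact ⟨-X 0 ^ 4 + X 0 ^ 3 * X 1 + 3 * X 0 ^ 3 * X 2 + 7 * X 0 ^ 2 * X 1 ^ 2 - 10 * X 0 ^ 2 * X 1 * X 2 + X 0 ^ 2 * X 2 ^ 2 - X 0 * X 1 ^ 3 - 2 * X 0 * X 1 ^ 2 * X 2 + 2 * X 0 * X 1 * X 2 ^ 2 - 3 * X 0 * X 2 ^ 3 - 6 * X 1 ^ 4 + 9 * X 1 ^ 3 * X 2 - 3 * X 1 ^ 2 * X 2 ^ 2 + 3 * X 1 * X 2 ^ 3, by ring⟩
  · exact ⟨X 0 ^ 3 * X 1 - 3 * X 0 ^ 2 * X 1 * X 2 - 7 * X 0 * X 1 ^ 3 + 6 * X 0 * X 1 * X 2 ^ 2 - 6 * X 1 ^ 4 + 3 * X 1 ^ 3 * X 2 + 6 * X 1 ^ 2 * X 2 ^ 2, by ring⟩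
  · exact ⟨-2 * X 0 ^ 3 * X 1 + X 0 ^ 3 * X 2 + 6 * X 0 ^ 2 * X 1 ^ 2 + X 0 ^ 2 * X 1 * X 2 - 2 * X 0 ^ 2 * X 2 ^ 2 + 2 * X 0 * X 1 ^ 3 - 2 * X 0 * X 1 ^ 2 * X 2 - 4 * X 0 * X 1 * X 2 ^ 2 - 3 * X 0 * X 2 ^ 3 - 6 * X 1 ^ 4 + 6 * X 1 ^ 2 * X 2 ^ 2 + 3 * X 1 * X 2 ^ 3, by ring⟩

noncomputable def e3 (K : Type) [Field K] : Der K := mkDerivation K ![0,
  -3 * X 0 ^ 4 * X 1 + 10 * X 0 ^ 3 * X 1 * X 2 + 15 * X 0 ^ 2 * X 1 ^ 3 - 15 * X 0 ^ 2 * X 1 * X 2 ^ 2 - 10 * X 0 * X 1 ^ 3 * X 2 - 12 * X 1 ^ 5 + 15 * X 1 ^ 3 * X 2 ^ 2,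
  -3 * X 0 ^ 4 * X 2 + 10 * X 0 ^ 3 * X 2 ^ 2 - 10 * X 0 * X 2 ^ 4 + 3 * X 2 ^ 5]

theorem e3_0 : e3 K (X 0) = 0 := by
  rw [e3, mkDerivation_X]; rfl

theorem e3_1 : e3 K (X 1) = -3 * X 0 ^ 4 * X 1 + 10 * X 0 ^ 3 * X 1 * X 2 + 15 * X 0 ^ 2 * X 1 ^ 3 - 15 * X 0 ^ 2 * X 1 * X 2 ^ 2 - 10 * X 0 * X 1 ^ 3 * X 2 - 12 * X 1 ^ 5 + 15 * X 1 ^ 3 * X 2 ^ 2 := by
  rw [e3, mkDerivation_X]; rfl

theorem e3_2 : e3 K (X 2) = -3 * X 0 ^ 4 * X 2 + 10 * X 0 ^ 3 * X 2 ^ 2 - 10 * X 0 * X 2 ^ 4 + 3 * X 2 ^ 5 := by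
  rw [e3, mkDerivation_X]; rfl

theorem e3_hom : IsHomDer (e3 K) 5 := by
  refine hom_of_three ?_ ?_ ?_
  · rw [e3_0]; exact isHomogeneous_zero _ _ _
  · rw [e3_1]
    exact hcongr (((((((hmon (-3) 4 1 0 5 rfl).add (hmon (10) 3 1 1 5 rfl)).add (hmon (15) 2 3 0 5 rfl)).add (hmon (-15) 2 1 2 5 rfl)).add (hmon (-10) 1 3 1 5 rfl)).add (hmon (-12) 0 5 0 5 rfl)).add (hmon (15) 0 3 2 5 rfl))
      (by simp only [mon]; push_cast; ring)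
  · rw [e3_2]
    exact hcongr ((((hmon (-3) 4 0 1 5 rfl).add (hmon (10) 3 0 2 5 rfl)).add (hmon (-10) 1 0 4 5 rfl)).add (hmon (3) 0 0 5 5 rfl))
      (by simp only [mon]; push_cast; ring)

theorem e3_mem : InB (e3 K) := by
  unfold InB
  rw [e3_0, e3_1, e3_2]
  refine ⟨?_, ?_, ?_, ?_, ?_, ?_, ?_, ?_, ?_⟩
  · exact ⟨0, by ring⟩
  · exact ⟨3 * X 0 ^ 3 * X 2 - 7 * X 0 ^ 2 * X 2 ^ 2 - 7 * X 0 * X 2 ^ 3 + 3 * X 2 ^ 4, by ring⟩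
  · exact ⟨-3 * X 0 ^ 3 * X 2 + 13 * X 0 ^ 2 * X 2 ^ 2 - 13 * X 0 * X 2 ^ 3 + 3 * X 2 ^ 4, by ring⟩
  · exact ⟨9 * X 0 ^ 3 * X 2 - 3 * X 0 ^ 2 * X 2 ^ 2 - 9 * X 0 * X 2 ^ 3 + 3 * X 2 ^ 4, by ring⟩
  · exact ⟨-3 * X 0 ^ 4 + 10 * X 0 ^ 3 * X 2 + 15 * X 0 ^ 2 * X 1 ^ 2 - 15 * X 0 ^ 2 * X 2 ^ 2 - 10 * X 0 * X 1 ^ 2 * X 2 - 12 * X 1 ^ 4 + 15 * X 1 ^ 2 * X 2 ^ 2, by ring⟩
  · exact ⟨-3 * X 0 ^ 4 + 10 * X 0 ^ 3 * X 2 + 15 * X 0 ^ 2 * X 1 ^ 2 + 15 * X 0 ^ 2 * X 1 * X 2 - 10 * X 0 * X 1 ^ 2 * X 2 - 10 * X 0 * X 1 * X 2 ^ 2 - 10 * X 0 * X 2 ^ 3 - 12 * X 1 ^ 4 - 12 * X 1 ^ 3 * X 2 + 3 * X 1 ^ 2 * X 2 ^ 2 + 3 * X 1 * X 2 ^ 3 + 3 * X 2 ^ 4, by ring⟩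
  · exact ⟨-3 * X 0 ^ 4 + 10 * X 0 ^ 3 * X 2 + 15 * X 0 ^ 2 * X 1 ^ 2 - 15 * X 0 ^ 2 * X 1 * X 2 - 10 * X 0 * X 1 ^ 2 * X 2 + 10 * X 0 * X 1 * X 2 ^ 2 - 10 * X 0 * X 2 ^ 3 - 12 * X 1 ^ 4 + 12 * X 1 ^ 3 * X 2 + 3 * X 1 ^ 2 * X 2 ^ 2 - 3 * X 1 * X 2 ^ 3 + 3 * X 2 ^ 4, by ring⟩
  · exact ⟨3 * X 0 ^ 3 * X 1 + 3 * X 0 ^ 2 * X 1 ^ 2 - 10 * X 0 ^ 2 * X 1 * X 2 - 12 * X 0 * X 1 ^ 3 - 10 * X 0 * X 1 ^ 2 * X 2 + 15 * X 0 * X 1 * X 2 ^ 2 - 12 * X 1 ^ 4 + 15 * X 1 ^ 2 * X 2 ^ 2, by ring⟩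
  · exact ⟨-6 * X 0 ^ 3 * X 1 + 3 * X 0 ^ 3 * X 2 + 12 * X 0 ^ 2 * X 1 ^ 2 + 8 * X 0 ^ 2 * X 1 * X 2 - 7 * X 0 ^ 2 * X 2 ^ 2 + 6 * X 0 * X 1 ^ 3 - 4 * X 0 * X 1 ^ 2 * X 2 - 8 * X 0 * X 1 * X 2 ^ 2 - 7 * X 0 * X 2 ^ 3 - 12 * X 1 ^ 4 - 6 * X 1 ^ 3 * X 2 + 12 * X 1 ^ 2 * X 2 ^ 2 + 6 * X 1 * X 2 ^ 3 + 3 * X 2 ^ 4, by ring⟩

theorem hom0 {p : S K} (h : p.IsHomogeneous 0) : ∃ c0 : K, ∀ s t r : K, eval ![s, t, r] p = c0 := by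
  rw [← totalDegree_zero_iff_isHomogeneous, totalDegree_eq_zero_iff_eq_C] at h
  exact ⟨coeff 0 p, fun s t r => by rw [h]; simp⟩

theorem euler {p : S K} {n : ℕ} (h : p.IsHomogeneous n) (s t r : K) :
    s * eval ![s, t, r] (pderiv 0 p) + t * eval ![s, t, r] (pderiv 1 p) +
      r * eval ![s, t, r] (pderiv 2 p) = n * eval ![s, t, r] p := by
  simpa [Fin.sum_univ_three] using congrArg (eval ![s, t, r]) h.sum_X_mul_pderiv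

theorem hom1 [CharZero K] {p : S K} (h : p.IsHomogeneous 1) :
    ∃ c0 c1 c2 : K, ∀ s t r : K, eval ![s, t, r] p =
      c0 * s + c1 * t + c2 * r := by
  obtain ⟨a0, ha⟩ := hom0 (h.pderiv (i := 0))
  obtain ⟨b0, hb⟩ := hom0 (h.pderiv (i := 1))
  obtain ⟨d0, hd⟩ := hom0 (h.pderiv (i := 2))
  refine ⟨(a0) / 1, (b0) / 1, (d0) / 1, fun s t r => ?_⟩
  have e := euler h s t r
  rw [ha, hb, hd] at e
  push_cast at e
  linear_combination (-1 / 1 : K) * e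

theorem hom2 [CharZero K] {p : S K} (h : p.IsHomogeneous 2) :
    ∃ c0 c1 c2 c3 c4 c5 : K, ∀ s t r : K, eval ![s, t, r] p =
      c0 * s ^ 2 + c1 * s * t + c2 * s * r + c3 * t ^ 2 + c4 * t * r + c5 * r ^ 2 := by
  obtain ⟨a0, a1, a2, ha⟩ := hom1 (h.pderiv (i := 0))
  obtain ⟨b0, b1, b2, hb⟩ := hom1 (h.pderiv (i := 1))
  obtain ⟨d0, d1, d2, hd⟩ := hom1 (h.pderiv (i := 2))
  refine ⟨(a0) / 2, (a1 + b0) / 2, (a2 + d0) / 2, (b1) / 2, (b2 + d1) / 2, (d2) / 2, fun s t r => ?_⟩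
  have e := euler h s t r
  rw [ha, hb, hd] at e
  push_cast at e
  linear_combination (-1 / 2 : K) * e

theorem hom3 [CharZero K] {p : S K} (h : p.IsHomogeneous 3) :
    ∃ c0 c1 c2 c3 c4 c5 c6 c7 c8 c9 : K, ∀ s t r : K, eval ![s, t, r] p =
      c0 * s ^ 3 + c1 * s ^ 2 * t + c2 * s ^ 2 * r + c3 * s * t ^ 2 + c4 * s * t * r + c5 * s * r ^ 2 + c6 * t ^ 3 + c7 * t ^ 2 * r + c8 * t * r ^ 2 + c9 * r ^ 3 := by
  obtain ⟨a0, a1, a2, a3, a4, a5, ha⟩ := hom2 (h.pderiv (i := 0))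
  obtain ⟨b0, b1, b2, b3, b4, b5, hb⟩ := hom2 (h.pderiv (i := 1))
  obtain ⟨d0, d1, d2, d3, d4, d5, hd⟩ := hom2 (h.pderiv (i := 2))
  refine ⟨(a0) / 3, (a1 + b0) / 3, (a2 + d0) / 3, (a3 + b1) / 3, (a4 + b2 + d1) / 3, (a5 + d2) / 3, (b3) / 3, (b4 + d3) / 3, (b5 + d4) / 3, (d5) / 3, fun s t r => ?_⟩
  have e := euler h s t r
  rw [ha, hb, hd] at e
  push_cast at e
  linear_combination (-1 / 3 : K) * e

theorem hom4 [CharZero K] {p : S K} (h : p.IsHomogeneous 4) :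
    ∃ c0 c1 c2 c3 c4 c5 c6 c7 c8 c9 c10 c11 c12 c13 c14 : K, ∀ s t r : K, eval ![s, t, r] p =
      c0 * s ^ 4 + c1 * s ^ 3 * t + c2 * s ^ 3 * r + c3 * s ^ 2 * t ^ 2 + c4 * s ^ 2 * t * r + c5 * s ^ 2 * r ^ 2 + c6 * s * t ^ 3 + c7 * s * t ^ 2 * r + c8 * s * t * r ^ 2 + c9 * s * r ^ 3 + c10 * t ^ 4 + c11 * t ^ 3 * r + c12 * t ^ 2 * r ^ 2 + c13 * t * r ^ 3 + c14 * r ^ 4 := by
  obtain ⟨a0, a1, a2, a3, a4, a5, a6, a7, a8, a9, ha⟩ := hom3 (h.pderiv (i := 0))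
  obtain ⟨b0, b1, b2, b3, b4, b5, b6, b7, b8, b9, hb⟩ := hom3 (h.pderiv (i := 1))
  obtain ⟨d0, d1, d2, d3, d4, d5, d6, d7, d8, d9, hd⟩ := hom3 (h.pderiv (i := 2))
  refine ⟨(a0) / 4, (a1 + b0) / 4, (a2 + d0) / 4, (a3 + b1) / 4, (a4 + b2 + d1) / 4, (a5 + d2) / 4, (a6 + b3) / 4, (a7 + b4 + d3) / 4, (a8 + b5 + d4) / 4, (a9 + d5) / 4, (b6) / 4, (b7 + d6) / 4, (b8 + d7) / 4, (b9 + d8) / 4, (d9) / 4, fun s t r => ?_⟩
  have e := euler h s t r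
  rw [ha, hb, hd] at e
  push_cast at e
  linear_combination (-1 / 4 : K) * e

theorem radial4 [CharZero K] (θ : Der K) (h : InB θ) (hh : IsHomDer θ 4) :
    θ (X 0) * X 1 - θ (X 1) * X 0 = 0 := by
  obtain ⟨a0, a1, a2, a3, a4, a5, a6, a7, a8, a9, a10, a11, a12, a13, a14, ha⟩ := hom4 (hh 0)
  obtain ⟨b0, b1, b2, b3, b4, b5, b6, b7, b8, b9, b10, b11, b12, b13, b14, hb⟩ := hom4 (hh 1)
  obtain ⟨d0, d1, d2, d3, d4, d5, d6, d7, d8, d9, d10, d11, d12, d13, d14, hd⟩ := hom4 (hh 2)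
  obtain ⟨⟨q0, h0⟩, ⟨q1, h1⟩, ⟨q2, h2⟩, ⟨q3, h3⟩, ⟨q4, h4⟩, ⟨q5, h5⟩, ⟨q6, h6⟩, ⟨q7, h7⟩, ⟨q8, h8⟩⟩ := h
  have E0 : (1) * a10 = 0 := by
    have e := congrArg (eval ![(0 : K), 1, 0]) h0
    simp only [map_add, map_sub, map_mul, map_ofNat, eval_X, ha, hb, hd, Matrix.cons_val_zero,
      Matrix.cons_val_one, Matrix.cons_val] at e
    linear_combination e
  have E1 : (1) * a14 = 0 := by
    have e := congrArg (eval ![(0 : K), 0, 1]) h0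
    simp only [map_add, map_sub, map_mul, map_ofNat, eval_X, ha, hb, hd, Matrix.cons_val_zero,
      Matrix.cons_val_one, Matrix.cons_val] at e
    linear_combination e
  have E2 : (1) * a10 + (1) * a11 + (1) * a12 + (1) * a13 + (1) * a14 = 0 := by
    have e := congrArg (eval ![(0 : K), 1, 1]) h0
    simp only [map_add, map_sub, map_mul, map_ofNat, eval_X, ha, hb, hd, Matrix.cons_val_zero,
      Matrix.cons_val_one, Matrix.cons_val] at e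
    linear_combination e
  have E3 : (1) * a10 + (-1) * a11 + (1) * a12 + (-1) * a13 + (1) * a14 = 0 := by
    have e := congrArg (eval ![(0 : K), 1, -1]) h0
    simp only [map_add, map_sub, map_mul, map_ofNat, eval_X, ha, hb, hd, Matrix.cons_val_zero,
      Matrix.cons_val_one, Matrix.cons_val] at e
    linear_combination e
  have E4 : (1) * a10 + (2) * a11 + (4) * a12 + (8) * a13 + (16) * a14 = 0 := by
    have e := congrArg (eval ![(0 : K), 1, 2]) h0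
    simp only [map_add, map_sub, map_mul, map_ofNat, eval_X, ha, hb, hd, Matrix.cons_val_zero,
      Matrix.cons_val_one, Matrix.cons_val] at e
    linear_combination e
  have E6 : (1) * a0 + (1) * a2 + (1) * a5 + (1) * a9 + (1) * a14 + (-1) * d0 + (-1) * d2 + (-1) * d5 + (-1) * d9 + (-1) * d14 = 0 := by
    have e := congrArg (eval ![(1 : K), 0, 1]) h1
    simp only [map_add, map_sub, map_mul, map_ofNat, eval_X, ha, hb, hd, Matrix.cons_val_zero,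
      Matrix.cons_val_one, Matrix.cons_val] at e
    linear_combination e
  have E7 : (1) * a0 + (1) * a1 + (1) * a2 + (1) * a3 + (1) * a4 + (1) * a5 + (1) * a6 + (1) * a7 + (1) * a8 + (1) * a9 + (1) * a10 + (1) * a11 + (1) * a12 + (1) * a13 + (1) * a14 + (-1) * d0 + (-1) * d1 + (-1) * d2 + (-1) * d3 + (-1) * d4 + (-1) * d5 + (-1) * d6 + (-1) * d7 + (-1) * d8 + (-1) * d9 + (-1) * d10 + (-1) * d11 + (-1) * d12 + (-1) * d13 + (-1) * d14 = 0 := by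
    have e := congrArg (eval ![(1 : K), 1, 1]) h1
    simp only [map_add, map_sub, map_mul, map_ofNat, eval_X, ha, hb, hd, Matrix.cons_val_zero,
      Matrix.cons_val_one, Matrix.cons_val] at e
    linear_combination e
  have E8 : (1) * a0 + (-1) * a1 + (1) * a2 + (1) * a3 + (-1) * a4 + (1) * a5 + (-1) * a6 + (1) * a7 + (-1) * a8 + (1) * a9 + (1) * a10 + (-1) * a11 + (1) * a12 + (-1) * a13 + (1) * a14 + (-1) * d0 + (1) * d1 + (-1) * d2 + (-1) * d3 + (1) * d4 + (-1) * d5 + (1) * d6 + (-1) * d7 + (1) * d8 + (-1) * d9 + (-1) * d10 + (1) * d11 + (-1) * d12 + (1) * d13 + (-1) * d14 = 0 := by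
    have e := congrArg (eval ![(-1 : K), 1, -1]) h1
    simp only [map_add, map_sub, map_mul, map_ofNat, eval_X, ha, hb, hd, Matrix.cons_val_zero,
      Matrix.cons_val_one, Matrix.cons_val] at e
    linear_combination e
  have E9 : (16) * a0 + (8) * a1 + (16) * a2 + (4) * a3 + (8) * a4 + (16) * a5 + (2) * a6 + (4) * a7 + (8) * a8 + (16) * a9 + (1) * a10 + (2) * a11 + (4) * a12 + (8) * a13 + (16) * a14 + (-16) * d0 + (-8) * d1 + (-16) * d2 + (-4) * d3 + (-8) * d4 + (-16) * d5 + (-2) * d6 + (-4) * d7 + (-8) * d8 + (-16) * d9 + (-1) * d10 + (-2) * d11 + (-4) * d12 + (-8) * d13 + (-16) * d14 = 0 := by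
    have e := congrArg (eval ![(2 : K), 1, 2]) h1
    simp only [map_add, map_sub, map_mul, map_ofNat, eval_X, ha, hb, hd, Matrix.cons_val_zero,
      Matrix.cons_val_one, Matrix.cons_val] at e
    linear_combination e
  have E10 : (1) * a10 + (1) * d10 = 0 := by
    have e := congrArg (eval ![(0 : K), 1, 0]) h2
    simp only [map_add, map_sub, map_mul, map_ofNat, eval_X, ha, hb, hd, Matrix.cons_val_zero,
      Matrix.cons_val_one, Matrix.cons_val] at e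
    linear_combination e
  have E11 : (1) * a0 + (-1) * a2 + (1) * a5 + (-1) * a9 + (1) * a14 + (1) * d0 + (-1) * d2 + (1) * d5 + (-1) * d9 + (1) * d14 = 0 := by
    have e := congrArg (eval ![(-1 : K), 0, 1]) h2
    simp only [map_add, map_sub, map_mul, map_ofNat, eval_X, ha, hb, hd, Matrix.cons_val_zero,
      Matrix.cons_val_one, Matrix.cons_val] at e
    linear_combination e
  have E12 : (1) * a0 + (-1) * a1 + (-1) * a2 + (1) * a3 + (1) * a4 + (1) * a5 + (-1) * a6 + (-1) * a7 + (-1) * a8 + (-1) * a9 + (1) * a10 + (1) * a11 + (1) * a12 + (1) * a13 + (1) * a14 + (1) * d0 + (-1) * d1 + (-1) * d2 + (1) * d3 + (1) * d4 + (1) * d5 + (-1) * d6 + (-1) * d7 + (-1) * d8 + (-1) * d9 + (1) * d10 + (1) * d11 + (1) * d12 + (1) * d13 + (1) * d14 = 0 := by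
    have e := congrArg (eval ![(-1 : K), 1, 1]) h2
    simp only [map_add, map_sub, map_mul, map_ofNat, eval_X, ha, hb, hd, Matrix.cons_val_zero,
      Matrix.cons_val_one, Matrix.cons_val] at e
    linear_combination e
  have E13 : (1) * a0 + (1) * a1 + (-1) * a2 + (1) * a3 + (-1) * a4 + (1) * a5 + (1) * a6 + (-1) * a7 + (1) * a8 + (-1) * a9 + (1) * a10 + (-1) * a11 + (1) * a12 + (-1) * a13 + (1) * a14 + (1) * d0 + (1) * d1 + (-1) * d2 + (1) * d3 + (-1) * d4 + (1) * d5 + (1) * d6 + (-1) * d7 + (1) * d8 + (-1) * d9 + (1) * d10 + (-1) * d11 + (1) * d12 + (-1) * d13 + (1) * d14 = 0 := by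
    have e := congrArg (eval ![(1 : K), 1, -1]) h2
    simp only [map_add, map_sub, map_mul, map_ofNat, eval_X, ha, hb, hd, Matrix.cons_val_zero,
      Matrix.cons_val_one, Matrix.cons_val] at e
    linear_combination e
  have E14 : (16) * a0 + (-8) * a1 + (-16) * a2 + (4) * a3 + (8) * a4 + (16) * a5 + (-2) * a6 + (-4) * a7 + (-8) * a8 + (-16) * a9 + (1) * a10 + (2) * a11 + (4) * a12 + (8) * a13 + (16) * a14 + (16) * d0 + (-8) * d1 + (-16) * d2 + (4) * d3 + (8) * d4 + (16) * d5 + (-2) * d6 + (-4) * d7 + (-8) * d8 + (-16) * d9 + (1) * d10 + (2) * d11 + (4) * d12 + (8) * d13 + (16) * d14 = 0 := by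
    have e := congrArg (eval ![(-2 : K), 1, 2]) h2
    simp only [map_add, map_sub, map_mul, map_ofNat, eval_X, ha, hb, hd, Matrix.cons_val_zero,
      Matrix.cons_val_one, Matrix.cons_val] at e
    linear_combination e
  have E16 : (81) * a0 + (27) * a2 + (9) * a5 + (3) * a9 + (1) * a14 + (-243) * d0 + (-81) * d2 + (-27) * d5 + (-9) * d9 + (-3) * d14 = 0 := by
    have e := congrArg (eval ![(3 : K), 0, 1]) h3
    simp only [map_add, map_sub, map_mul, map_ofNat, eval_X, ha, hb, hd, Matrix.cons_val_zero,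
      Matrix.cons_val_one, Matrix.cons_val] at e
    linear_combination e
  have E17 : (81) * a0 + (27) * a1 + (27) * a2 + (9) * a3 + (9) * a4 + (9) * a5 + (3) * a6 + (3) * a7 + (3) * a8 + (3) * a9 + (1) * a10 + (1) * a11 + (1) * a12 + (1) * a13 + (1) * a14 + (-243) * d0 + (-81) * d1 + (-81) * d2 + (-27) * d3 + (-27) * d4 + (-27) * d5 + (-9) * d6 + (-9) * d7 + (-9) * d8 + (-9) * d9 + (-3) * d10 + (-3) * d11 + (-3) * d12 + (-3) * d13 + (-3) * d14 = 0 := by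
    have e := congrArg (eval ![(3 : K), 1, 1]) h3
    simp only [map_add, map_sub, map_mul, map_ofNat, eval_X, ha, hb, hd, Matrix.cons_val_zero,
      Matrix.cons_val_one, Matrix.cons_val] at e
    linear_combination e
  have E19 : (1296) * a0 + (216) * a1 + (432) * a2 + (36) * a3 + (72) * a4 + (144) * a5 + (6) * a6 + (12) * a7 + (24) * a8 + (48) * a9 + (1) * a10 + (2) * a11 + (4) * a12 + (8) * a13 + (16) * a14 + (-3888) * d0 + (-648) * d1 + (-1296) * d2 + (-108) * d3 + (-216) * d4 + (-432) * d5 + (-18) * d6 + (-36) * d7 + (-72) * d8 + (-144) * d9 + (-3) * d10 + (-6) * d11 + (-12) * d12 + (-24) * d13 + (-48) * d14 = 0 := by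
    have e := congrArg (eval ![(6 : K), 1, 2]) h3
    simp only [map_add, map_sub, map_mul, map_ofNat, eval_X, ha, hb, hd, Matrix.cons_val_zero,
      Matrix.cons_val_one, Matrix.cons_val] at e
    linear_combination e
  have E20 : (1) * b0 = 0 := by
    have e := congrArg (eval ![(1 : K), 0, 0]) h4
    simp only [map_add, map_sub, map_mul, map_ofNat, eval_X, ha, hb, hd, Matrix.cons_val_zero,
      Matrix.cons_val_one, Matrix.cons_val] at e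
    linear_combination e
  have E21 : (1) * b14 = 0 := by
    have e := congrArg (eval ![(0 : K), 0, 1]) h4
    simp only [map_add, map_sub, map_mul, map_ofNat, eval_X, ha, hb, hd, Matrix.cons_val_zero,
      Matrix.cons_val_one, Matrix.cons_val] at e
    linear_combination e
  have E22 : (1) * b0 + (1) * b2 + (1) * b5 + (1) * b9 + (1) * b14 = 0 := by
    have e := congrArg (eval ![(1 : K), 0, 1]) h4
    simp only [map_add, map_sub, map_mul, map_ofNat, eval_X, ha, hb, hd, Matrix.cons_val_zero,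
      Matrix.cons_val_one, Matrix.cons_val] at e
    linear_combination e
  have E23 : (1) * b0 + (-1) * b2 + (1) * b5 + (-1) * b9 + (1) * b14 = 0 := by
    have e := congrArg (eval ![(1 : K), 0, -1]) h4
    simp only [map_add, map_sub, map_mul, map_ofNat, eval_X, ha, hb, hd, Matrix.cons_val_zero,
      Matrix.cons_val_one, Matrix.cons_val] at e
    linear_combination e
  have E24 : (1) * b0 + (2) * b2 + (4) * b5 + (8) * b9 + (16) * b14 = 0 := by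
    have e := congrArg (eval ![(1 : K), 0, 2]) h4
    simp only [map_add, map_sub, map_mul, map_ofNat, eval_X, ha, hb, hd, Matrix.cons_val_zero,
      Matrix.cons_val_one, Matrix.cons_val] at e
    linear_combination e
  have E26 : (1) * b10 + (1) * b11 + (1) * b12 + (1) * b13 + (1) * b14 + (-1) * d10 + (-1) * d11 + (-1) * d12 + (-1) * d13 + (-1) * d14 = 0 := by
    have e := congrArg (eval ![(0 : K), 1, 1]) h5
    simp only [map_add, map_sub, map_mul, map_ofNat, eval_X, ha, hb, hd, Matrix.cons_val_zero,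
      Matrix.cons_val_one, Matrix.cons_val] at e
    linear_combination e
  have E27 : (1) * b0 + (1) * b1 + (1) * b2 + (1) * b3 + (1) * b4 + (1) * b5 + (1) * b6 + (1) * b7 + (1) * b8 + (1) * b9 + (1) * b10 + (1) * b11 + (1) * b12 + (1) * b13 + (1) * b14 + (-1) * d0 + (-1) * d1 + (-1) * d2 + (-1) * d3 + (-1) * d4 + (-1) * d5 + (-1) * d6 + (-1) * d7 + (-1) * d8 + (-1) * d9 + (-1) * d10 + (-1) * d11 + (-1) * d12 + (-1) * d13 + (-1) * d14 = 0 := by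
    have e := congrArg (eval ![(1 : K), 1, 1]) h5
    simp only [map_add, map_sub, map_mul, map_ofNat, eval_X, ha, hb, hd, Matrix.cons_val_zero,
      Matrix.cons_val_one, Matrix.cons_val] at e
    linear_combination e
  have E28 : (1) * b0 + (-1) * b1 + (-1) * b2 + (1) * b3 + (1) * b4 + (1) * b5 + (-1) * b6 + (-1) * b7 + (-1) * b8 + (-1) * b9 + (1) * b10 + (1) * b11 + (1) * b12 + (1) * b13 + (1) * b14 + (-1) * d0 + (1) * d1 + (1) * d2 + (-1) * d3 + (-1) * d4 + (-1) * d5 + (1) * d6 + (1) * d7 + (1) * d8 + (1) * d9 + (-1) * d10 + (-1) * d11 + (-1) * d12 + (-1) * d13 + (-1) * d14 = 0 := by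
    have e := congrArg (eval ![(1 : K), -1, -1]) h5
    simp only [map_add, map_sub, map_mul, map_ofNat, eval_X, ha, hb, hd, Matrix.cons_val_zero,
      Matrix.cons_val_one, Matrix.cons_val] at e
    linear_combination e
  have E29 : (1) * b0 + (2) * b1 + (2) * b2 + (4) * b3 + (4) * b4 + (4) * b5 + (8) * b6 + (8) * b7 + (8) * b8 + (8) * b9 + (16) * b10 + (16) * b11 + (16) * b12 + (16) * b13 + (16) * b14 + (-1) * d0 + (-2) * d1 + (-2) * d2 + (-4) * d3 + (-4) * d4 + (-4) * d5 + (-8) * d6 + (-8) * d7 + (-8) * d8 + (-8) * d9 + (-16) * d10 + (-16) * d11 + (-16) * d12 + (-16) * d13 + (-16) * d14 = 0 := by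
    have e := congrArg (eval ![(1 : K), 2, 2]) h5
    simp only [map_add, map_sub, map_mul, map_ofNat, eval_X, ha, hb, hd, Matrix.cons_val_zero,
      Matrix.cons_val_one, Matrix.cons_val] at e
    linear_combination e
  have E30 : (1) * b0 + (1) * d0 = 0 := by
    have e := congrArg (eval ![(1 : K), 0, 0]) h6
    simp only [map_add, map_sub, map_mul, map_ofNat, eval_X, ha, hb, hd, Matrix.cons_val_zero,
      Matrix.cons_val_one, Matrix.cons_val] at e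
    linear_combination e
  have E31 : (1) * b10 + (-1) * b11 + (1) * b12 + (-1) * b13 + (1) * b14 + (1) * d10 + (-1) * d11 + (1) * d12 + (-1) * d13 + (1) * d14 = 0 := by
    have e := congrArg (eval ![(0 : K), -1, 1]) h6
    simp only [map_add, map_sub, map_mul, map_ofNat, eval_X, ha, hb, hd, Matrix.cons_val_zero,
      Matrix.cons_val_one, Matrix.cons_val] at e
    linear_combination e
  have E32 : (1) * b0 + (-1) * b1 + (1) * b2 + (1) * b3 + (-1) * b4 + (1) * b5 + (-1) * b6 + (1) * b7 + (-1) * b8 + (1) * b9 + (1) * b10 + (-1) * b11 + (1) * b12 + (-1) * b13 + (1) * b14 + (1) * d0 + (-1) * d1 + (1) * d2 + (1) * d3 + (-1) * d4 + (1) * d5 + (-1) * d6 + (1) * d7 + (-1) * d8 + (1) * d9 + (1) * d10 + (-1) * d11 + (1) * d12 + (-1) * d13 + (1) * d14 = 0 := by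
    have e := congrArg (eval ![(1 : K), -1, 1]) h6
    simp only [map_add, map_sub, map_mul, map_ofNat, eval_X, ha, hb, hd, Matrix.cons_val_zero,
      Matrix.cons_val_one, Matrix.cons_val] at e
    linear_combination e
  have E33 : (1) * b0 + (1) * b1 + (-1) * b2 + (1) * b3 + (-1) * b4 + (1) * b5 + (1) * b6 + (-1) * b7 + (1) * b8 + (-1) * b9 + (1) * b10 + (-1) * b11 + (1) * b12 + (-1) * b13 + (1) * b14 + (1) * d0 + (1) * d1 + (-1) * d2 + (1) * d3 + (-1) * d4 + (1) * d5 + (1) * d6 + (-1) * d7 + (1) * d8 + (-1) * d9 + (1) * d10 + (-1) * d11 + (1) * d12 + (-1) * d13 + (1) * d14 = 0 := by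
    have e := congrArg (eval ![(1 : K), 1, -1]) h6
    simp only [map_add, map_sub, map_mul, map_ofNat, eval_X, ha, hb, hd, Matrix.cons_val_zero,
      Matrix.cons_val_one, Matrix.cons_val] at e
    linear_combination e
  have E34 : (1) * b0 + (-2) * b1 + (2) * b2 + (4) * b3 + (-4) * b4 + (4) * b5 + (-8) * b6 + (8) * b7 + (-8) * b8 + (8) * b9 + (16) * b10 + (-16) * b11 + (16) * b12 + (-16) * b13 + (16) * b14 + (1) * d0 + (-2) * d1 + (2) * d2 + (4) * d3 + (-4) * d4 + (4) * d5 + (-8) * d6 + (8) * d7 + (-8) * d8 + (8) * d9 + (16) * d10 + (-16) * d11 + (16) * d12 + (-16) * d13 + (16) * d14 = 0 := by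
    have e := congrArg (eval ![(1 : K), -2, 2]) h6
    simp only [map_add, map_sub, map_mul, map_ofNat, eval_X, ha, hb, hd, Matrix.cons_val_zero,
      Matrix.cons_val_one, Matrix.cons_val] at e
    linear_combination e
  have E36 : (1) * a0 + (1) * a1 + (1) * a3 + (1) * a6 + (1) * a10 + (-1) * b0 + (-1) * b1 + (-1) * b3 + (-1) * b6 + (-1) * b10 = 0 := by
    have e := congrArg (eval ![(1 : K), 1, 0]) h7
    simp only [map_add, map_sub, map_mul, map_ofNat, eval_X, ha, hb, hd, Matrix.cons_val_zero,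
      Matrix.cons_val_one, Matrix.cons_val] at e
    linear_combination e
  have E39 : (16) * a0 + (16) * a1 + (8) * a2 + (16) * a3 + (8) * a4 + (4) * a5 + (16) * a6 + (8) * a7 + (4) * a8 + (2) * a9 + (16) * a10 + (8) * a11 + (4) * a12 + (2) * a13 + (1) * a14 + (-16) * b0 + (-16) * b1 + (-8) * b2 + (-16) * b3 + (-8) * b4 + (-4) * b5 + (-16) * b6 + (-8) * b7 + (-4) * b8 + (-2) * b9 + (-16) * b10 + (-8) * b11 + (-4) * b12 + (-2) * b13 + (-1) * b14 = 0 := by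
    have e := congrArg (eval ![(2 : K), 2, 1]) h7
    simp only [map_add, map_sub, map_mul, map_ofNat, eval_X, ha, hb, hd, Matrix.cons_val_zero,
      Matrix.cons_val_one, Matrix.cons_val] at e
    linear_combination e
  have E41 : (16) * a0 + (-8) * a1 + (4) * a3 + (-2) * a6 + (1) * a10 + (32) * b0 + (-16) * b1 + (8) * b3 + (-4) * b6 + (2) * b10 + (-16) * d0 + (8) * d1 + (-4) * d3 + (2) * d6 + (-1) * d10 = 0 := by
    have e := congrArg (eval ![(2 : K), -1, 0]) h8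
    simp only [map_add, map_sub, map_mul, map_ofNat, eval_X, ha, hb, hd, Matrix.cons_val_zero,
      Matrix.cons_val_one, Matrix.cons_val] at e
    linear_combination e
  have E44 : (625) * a0 + (-250) * a1 + (125) * a2 + (100) * a3 + (-50) * a4 + (25) * a5 + (-40) * a6 + (20) * a7 + (-10) * a8 + (5) * a9 + (16) * a10 + (-8) * a11 + (4) * a12 + (-2) * a13 + (1) * a14 + (1250) * b0 + (-500) * b1 + (250) * b2 + (200) * b3 + (-100) * b4 + (50) * b5 + (-80) * b6 + (40) * b7 + (-20) * b8 + (10) * b9 + (32) * b10 + (-16) * b11 + (8) * b12 + (-4) * b13 + (2) * b14 + (-625) * d0 + (250) * d1 + (-125) * d2 + (-100) * d3 + (50) * d4 + (-25) * d5 + (40) * d6 + (-20) * d7 + (10) * d8 + (-5) * d9 + (-16) * d10 + (8) * d11 + (-4) * d12 + (2) * d13 + (-1) * d14 = 0 := by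
    have e := congrArg (eval ![(5 : K), -2, 1]) h8
    simp only [map_add, map_sub, map_mul, map_ofNat, eval_X, ha, hb, hd, Matrix.cons_val_zero,
      Matrix.cons_val_one, Matrix.cons_val] at e
    linear_combination e
  have R0 : (-1) * b0 = 0 := by
    linear_combination (-1 / 1 : K) * E20
  have R1 : (1) * a0 + (-1) * b1 = 0 := by
    linear_combination (-1 / 12 : K) * E0 + (-355 / 72 : K) * E1 + (-23 / 9 : K) * E2 + (8 / 9 : K) * E3 + (7 / 18 : K) * E4 + (205 / 48 : K) * E6 + (37 / 16 : K) * E7 + (-47 / 72 : K) * E8 + (-25 / 72 : K) * E9 + (1 / 48 : K) * E10 + (2 / 1 : K) * E11 + (101 / 96 : K) * E12 + (-55 / 144 : K) * E13 + (-23 / 144 : K) * E14 + (-47 / 72 : K) * E16 + (-95 / 288 : K) * E17 + (1 / 18 : K) * E19 + (-17 / 6 : K) * E20 + (1 / 24 : K) * E21 + (29 / 24 : K) * E22 + (-1 / 9 : K) * E23 + (-1 / 18 : K) * E24 + (-4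 / 3 : K) * E26 + (-47 / 48 : K) * E27 + (53 / 144 : K) * E28 + (1 / 9 : K) * E29 + (-247 / 24 : K) * E30 + (-97 / 12 : K) * E31 + (-299 / 48 : K) * E32 + (149 / 144 : K) * E33 + (59 / 72 : K) * E34 + (5 / 12 : K) * E36 + (-1 / 24 : K) * E39 + (-7 / 24 : K) * E41 + (1 / 48 : K) * E44
  have R2 : (-1) * b2 = 0 := by
    linear_combination (1 / 2 : K) * E20 + (-2 / 1 : K) * E21 + (-1 / 1 : K) * E22 + (1 / 3 : K) * E23 + (1 / 6 : K) * E24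
  have R3 : (1) * a1 + (-1) * b3 = 0 := by
    linear_combination (-1 / 1 : K) * E1 + (-1 / 3 : K) * E2 + (1 / 12 : K) * E4 + (3 / 4 : K) * E6 + (1 / 4 : K) * E7 + (-1 / 16 : K) * E9 + (3 / 8 : K) * E11 + (1 / 8 : K) * E12 + (-1 / 32 : K) * E14 + (-1 / 8 : K) * E16 + (-1 / 24 : K) * E17 + (1 / 96 : K) * E19 + (5 / 1 : K) * E21 + (7 / 2 : K) * E22 + (-1 / 2 : K) * E23 + (-1 / 2 : K) * E24 + (-5 / 2 : K) * E26 + (-7 / 4 : K) * E27 + (1 / 4 : K) * E28 + (1 / 4 : K) * E29 + (-5 / 2 : K) * E31 + (-7 / 4 : K) * E32 + (1 / 4 : K) * E33 + (1 / 4 : K) * E34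
  have R4 : (1) * a2 + (-1) * b4 = 0 := by
    linear_combination (1 / 4 : K) * E0 + (379 / 24 : K) * E1 + (25 / 3 : K) * E2 + (-8 / 3 : K) * E3 + (-5 / 4 : K) * E4 + (-217 / 16 : K) * E6 + (-119 / 16 : K) * E7 + (47 / 24 : K) * E8 + (53 / 48 : K) * E9 + (-1 / 16 : K) * E10 + (-51 / 8 : K) * E11 + (-109 / 32 : K) * E12 + (55 / 48 : K) * E13 + (49 / 96 : K) * E14 + (25 / 12 : K) * E16 + (103 / 96 : K) * E17 + (-17 / 96 : K) * E19 + (1 / 1 : K) * E20 + (-1 / 8 : K) * E21 + (-29 / 8 : K) * E22 + (1 / 3 : K) * E23 + (1 / 6 : K) * E24 + (3 / 2 : K) * E26 + (19 / 16 : K) * E27 + (-41 / 48 : K) * E28 + (-1 / 12 : K) * E29 + (307 / 8 : K) * E30 + (107 / 4 : K) * E31 + (327 / 16 : K) * E32 + (-161 / 48 : K) * E33 + (-65 / 24 : K) * E34 + (-5 / 4 : K) * E36 + (1 / 8 : K) * E39 + (7 / 8 : K) * E41 + (-1 / 16 : K) * E44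
  have R5 : (-1) * b5 = 0 := by
    linear_combination (1 / 1 : K) * E20 + (1 / 1 : K) * E21 + (-1 / 2 : K) * E22 + (-1 / 2 : K) * E23
  have R6 : (1) * a3 + (-1) * b6 = 0 := by
    linear_combination (-5 / 12 : K) * E0 + (913 / 72 : K) * E1 + (59 / 9 : K) * E2 + (-23 / 9 : K) * E3 + (-35 / 36 : K) * E4 + (-547 / 48 : K) * E6 + (-99 / 16 : K) * E7 + (137 / 72 : K) * E8 + (131 / 144 : K) * E9 + (5 / 48 : K) * E10 + (-41 / 8 : K) * E11 + (-259 / 96 : K) * E12 + (157 / 144 : K) * E13 + (115 / 288 : K) * E14 + (16 / 9 : K) * E16 + (257 / 288 : K) * E17 + (-43 / 288 : K) * E19 + (5 / 6 : K) * E20 + (53 / 24 : K) * E21 + (-35 / 24 : K) * E22 + (5 / 18 : K) * E23 + (-1 / 9 : K) * E24 + (17 / 6 : K) * E26 + (89 / 48 : K) * E27 + (-155 / 144 : K) * E28 + (-7 / 36 : K) * E29 + (805 / 24 : K) * E30 + (277 / 12 : K) * E31 + (845 / 48 : K) * E32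 + (-443 / 144 : K) * E33 + (-167 / 72 : K) * E34 + (-11 / 12 : K) * E36 + (1 / 8 : K) * E39 + (25 / 24 : K) * E41 + (-1 / 16 : K) * E44
  have R7 : (1) * a4 + (-1) * b7 = 0 := by
    linear_combination (-1 / 2 : K) * E2 + (1 / 2 : K) * E3 + (1 / 4 : K) * E7 + (-1 / 4 : K) * E8 + (1 / 4 : K) * E12 + (-1 / 4 : K) * E13 + (1 / 2 : K) * E22 + (-1 / 2 : K) * E23 + (-1 / 4 : K) * E27 + (1 / 4 : K) * E28 + (-1 / 4 : K) * E32 + (1 / 4 : K) * E33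
  have R8 : (1) * a5 + (-1) * b8 = 0 := by
    linear_combination (1 / 2 : K) * E0 + (-31 / 4 : K) * E1 + (-9 / 2 : K) * E2 + (7 / 6 : K) * E3 + (7 / 12 : K) * E4 + (57 / 8 : K) * E6 + (33 / 8 : K) * E7 + (-1 / 1 : K) * E8 + (-9 / 16 : K) * E9 + (-1 / 8 : K) * E10 + (25 / 8 : K) * E11 + (91 / 48 : K) * E12 + (-11 / 24 : K) * E13 + (-23 / 96 : K) * E14 + (-9 / 8 : K) * E16 + (-9 / 16 : K) * E17 + (3 / 32 : K) * E19 + (2 / 1 : K) * E20 + (-9 / 4 : K) * E21 + (1 / 4 : K) * E22 + (-1 / 6 : K) * E23 + (1 / 6 : K) * E24 + (-3 / 2 : K) * E26 + (-9 / 8 : K) * E27 + (23 / 24 : K) * E28 + (1 / 12 : K) * E29 + (-93 / 4 : K) * E30 + (-15 / 1 : K) * E31 + (-89 / 8 : K) * E32 + (43 / 24 : K) * E33 + (3 / 2 : K) * E34 + (1 / 2 : K) * E36 + (-1 / 12 : K) * E39 + (-3 / 4 : K) * E41 + (1 / 24 : K) * E44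
  have R9 : (-1) * b9 = 0 := by
    linear_combination (-1 / 2 : K) * E20 + (2 / 1 : K) * E21 + (1 / 2 : K) * E22 + (1 / 6 : K) * E23 + (-1 / 6 : K) * E24
  have R10 : (1) * a6 + (-1) * b10 = 0 := by
    linear_combination (-1 / 2 : K) * E0 + (-27 / 4 : K) * E1 + (-11 / 3 : K) * E2 + (5 / 3 : K) * E3 + (1 / 2 : K) * E4 + (51 / 8 : K) * E6 + (29 / 8 : K) * E7 + (-5 / 4 : K) * E8 + (-1 / 2 : K) * E9 + (-1 / 8 : K) * E10 + (11 / 4 : K) * E11 + (73 / 48 : K) * E12 + (-17 / 24 : K) * E13 + (-5 / 24 : K) * E14 + (-1 / 1 : K) * E16 + (-25 / 48 : K) * E17 + (1 / 12 : K) * E19 + (3 / 1 : K) * E20 + (-29 / 4 : K) * E21 + (-13 / 4 : K) * E22 + (1 / 3 : K) * E23 + (2 / 3 : K) * E24 + (1 / 1 : K) * E26 + (7 / 8 : K) * E27 + (11 / 24 : K) * E28 + (-1 / 6 : K) * E29 + (-93 / 4 : K) * E30 + (-25 / 2 : K) * E31 + (-77 / 8 : K) * E32 + (43 / 24 : K)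 * E33 + (5 / 4 : K) * E34 + (3 / 2 : K) * E36 + (-1 / 12 : K) * E39 + (-3 / 4 : K) * E41 + (1 / 24 : K) * E44
  have R11 : (1) * a7 + (-1) * b11 = 0 := by
    linear_combination (1 / 4 : K) * E0 + (-415 / 24 : K) * E1 + (-53 / 6 : K) * E2 + (5 / 2 : K) * E3 + (17 / 12 : K) * E4 + (217 / 16 : K) * E6 + (107 / 16 : K) * E7 + (-41 / 24 : K) * E8 + (-53 / 48 : K) * E9 + (1 / 16 : K) * E10 + (51 / 8 : K) * E11 + (101 / 32 : K) * E12 + (-17 / 16 : K) * E13 + (-49 / 96 : K) * E14 + (-25 / 12 : K) * E16 + (-103 / 96 : K) * E17 + (17 / 96 : K) * E19 + (-3 / 2 : K) * E20 + (13 / 8 : K) * E21 + (33 / 8 : K) * E22 + (-1 / 6 : K) * E23 + (-1 / 3 : K) * E24 + (-3 / 2 : K) * E26 + (-7 / 16 : K) * E27 + (29 / 48 : K) * E28 + (1 / 12 : K) * E29 + (-307 / 8 : K) * E30 + (-107 / 4 : K) * E31 + (-323 / 16 : K) * E32 + (157 / 48 : K) * E33 + (65 / 24 :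 K) * E34 + (-3 / 4 : K) * E36 + (1 / 24 : K) * E39 + (-7 / 8 : K) * E41 + (1 / 16 : K) * E44
  have R12 : (1) * a8 + (-1) * b12 = 0 := by
    linear_combination (1 / 2 : K) * E0 + (31 / 4 : K) * E1 + (4 / 1 : K) * E2 + (-5 / 3 : K) * E3 + (-7 / 12 : K) * E4 + (-57 / 8 : K) * E6 + (-29 / 8 : K) * E7 + (1 / 1 : K) * E8 + (9 / 16 : K) * E9 + (1 / 8 : K) * E10 + (-25 / 8 : K) * E11 + (-91 / 48 : K) * E12 + (23 / 24 : K) * E13 + (23 / 96 : K) * E14 + (9 / 8 : K) * E16 + (9 / 16 : K) * E17 + (-3 / 32 : K) * E19 + (-3 / 1 : K) * E20 + (9 / 4 : K) * E21 + (1 / 4 : K) * E22 + (2 / 3 : K) * E23 + (-1 / 6 : K) * E24 + (3 / 2 : K) * E26 + (5 / 8 : K) * E27 + (-23 / 24 : K) * E28 + (-1 / 12 : K) * E29 + (93 / 4 : K) * E30 + (15 / 1 : K) * E31 + (89 / 8 : K) * E32 + (-55 / 24 : K) * E33 + (-3 / 2 : K) * E34 + (-3 / 2 : K) * E36 + (1 / 12 : K) *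 E39 + (3 / 4 : K) * E41 + (-1 / 24 : K) * E44
  have R13 : (1) * a9 + (-1) * b13 = 0 := by
    linear_combination (-1 / 2 : K) * E0 + (3 / 2 : K) * E1 + (1 / 2 : K) * E2 + (1 / 6 : K) * E3 + (-1 / 6 : K) * E4 + (1 / 1 : K) * E7 + (-1 / 3 : K) * E13 + (1 / 2 : K) * E20 + (-3 / 2 : K) * E21 + (-1 / 2 : K) * E22 + (-1 / 6 : K) * E23 + (1 / 6 : K) * E24 + (-1 / 1 : K) * E27 + (1 / 3 : K) * E33 + (2 / 1 : K) * E36 + (-1 / 6 : K) * E39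
  have R14 : (-1) * b14 = 0 := by
    linear_combination (-1 / 1 : K) * E21
  have R15 : (1) * a10 = 0 := by
    linear_combination (1 / 1 : K) * E0
  have R16 : (1) * a11 = 0 := by
    linear_combination (-1 / 2 : K) * E0 + (2 / 1 : K) * E1 + (1 / 1 : K) * E2 + (-1 / 3 : K) * E3 + (-1 / 6 : K) * E4
  have R17 : (1) * a12 = 0 := by
    linear_combination (-1 / 1 : K) * E0 + (-1 / 1 : K) * E1 + (1 / 2 : K) * E2 + (1 / 2 : K) * E3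
  have R18 : (1) * a13 = 0 := by
    linear_combination (1 / 2 : K) * E0 + (-2 / 1 : K) * E1 + (-1 / 2 : K) * E2 + (-1 / 6 : K) * E3 + (1 / 6 : K) * E4
  have R19 : (1) * a14 = 0 := by
    linear_combination (1 / 1 : K) * E1
  apply MvPolynomial.funext
  intro P
  obtain ⟨s, t, r, rfl⟩ : ∃ s t r : K, P = ![s, t, r] :=
    ⟨P 0, P 1, P 2, by ext i; fin_cases i <;> rfl⟩
  simp only [map_sub, map_mul, eval_X, ha, hb, Matrix.cons_val_zero, Matrix.cons_val_one, map_zero]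
  linear_combination s ^ 5 * R0 + s ^ 4 * t * R1 + s ^ 4 * r * R2 + s ^ 3 * t ^ 2 * R3 + s ^ 3 * t * r * R4 + s ^ 3 * r ^ 2 * R5 + s ^ 2 * t ^ 3 * R6 + s ^ 2 * t ^ 2 * r * R7 + s ^ 2 * t * r ^ 2 * R8 + s ^ 2 * r ^ 3 * R9 + s * t ^ 4 * R10 + s * t ^ 3 * r * R11 + s * t ^ 2 * r ^ 2 * R12 + s * t * r ^ 3 * R13 + s * r ^ 4 * R14 + t ^ 5 * R15 + t ^ 4 * r * R16 + t ^ 3 * r ^ 2 * R17 + t ^ 2 * r ^ 3 * R18 + t * r ^ 4 * R19

noncomputable def W (θ : Der K) : S K := θ (X 0) * X 1 - θ (X 1) * X 0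

theorem W_hom {θ : Der K} {n : ℕ} (h : IsHomDer θ n) : (W θ).IsHomogeneous (n + 1) :=
  ((h 0).mul (isHomogeneous_X _ _)).sub ((h 1).mul (isHomogeneous_X _ _))

theorem radial [CharZero K] (θ : Der K) (h : θ ∈ logDer (Set.range fun i => H K (aB i))) {n : ℕ}
    (hn : n ≤ 4) (hh : IsHomDer θ n) : W θ = 0 := by
  have h1 : (X 2 ^ (4 - n) : S K) • θ ∈ logDer (Set.range fun i => H K (aB i)) :=
    fun a ha => (h a ha).mul_left _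
  have h2 : IsHomDer ((X 2 ^ (4 - n) : S K) • θ) 4 := fun i => by
    have := (isHomogeneous_X_pow (R := K) (2 : Fin 3) (4 - n)).mul (hh i)
    rwa [Nat.sub_add_cancel hn] at this
  have h3 := radial4 _ ((mem_iff_InB _).1 h1) h2
  simp only [Derivation.smul_apply, smul_eq_mul] at h3
  apply mul_left_cancel₀ (pow_ne_zero (4 - n) (X_ne_zero (R := K) (2 : Fin 3)))
  unfold W
  linear_combination h3

theorem tE_memB : InB (tE K) := by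
  unfold InB
  rw [tE_0, tE_1, tE_2]
  simp

theorem notB [CharZero K] (d : Fin 3 → ℕ) (e : ℕ) :
    ¬ PlusOne (Set.range fun i => H K (aB i)) d e := by
  rintro ⟨θ, φ, f, α, hθ, hφ, hspan, -⟩
  let γ : Fin 4 → Der K := Fin.cons φ θ
  let δ : Fin 4 → ℕ := Fin.cons e d
  have hγ : ∀ j, IsHomDer (γ j) (δ j) := fun j => Fin.cases hφ hθ j
  have hr : insert φ (Set.range θ) = Set.range γ := (Fin.range_cons φ θ).symm
  rw [hr] at hspan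
  have hmem : ∀ j, γ j ∈ logDer (Set.range fun i => H K (aB i)) := fun j => by
    rw [hspan]; exact Submodule.subset_span ⟨j, rfl⟩
  have hgen : ∀ η : Der K, InB η → ∃ g : Fin 4 → S K, ∑ j, g j • γ j = η := fun η hη => by
    rw [← mem_iff_InB, hspan] at hη
    exact (Submodule.mem_span_range_iff_exists_fun _).1 hη
  obtain ⟨j0, hj0⟩ : ∃ j, δ j ≤ 4 := by
    by_contra hc
    push Not at hc
    obtain ⟨g, hg⟩ := hgen _ tE_memB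
    have e1 := congrArg (fun η : Der K => homogeneousComponent 1 (η (X 0))) hg
    simp only [Fin.sum_univ_four, Derivation.add_apply, Derivation.smul_apply, smul_eq_mul,
      map_add, tE_0] at e1
    have e2 : ∀ j, homogeneousComponent 1 (g j * γ j (X 0)) = 0 := fun j => by
      have := hc j
      rw [hc_mul 1 _ _ _ (by omega) (hγ j 0), homogeneousComponent_of_mem (hγ j 0),
        if_neg (by omega), mul_zero]
    rw [e2, e2, e2, e2, homogeneousComponent_of_mem (isHomogeneous_X K 0)] at e1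
    simp only [add_zero, if_true] at e1
    exact X_ne_zero _ e1.symm
  let Pt : Fin 4 → Fin 3 → K := ![![-1, 1, 0], ![-2, 1, 0], ![-2, -1, 0], ![-1, -2, 0]]
  let V : Matrix (Fin 4) (Fin 4) K :=
    Matrix.of fun j m => eval (Pt m) (homogeneousComponent 6 (W (γ j)))
  have hV : V.det = 0 := Matrix.det_eq_zero_of_row_eq_zero j0 fun m => by
    simp [V, radial _ (hmem j0) hj0 (hγ j0)]
  obtain ⟨v, hv0, hv⟩ := Matrix.exists_mulVec_eq_zero_iff.2 hV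
  have key : ∀ η : Der K, InB η → IsHomDer η 5 → ∑ m, eval (Pt m) (W η) * v m = 0 := by
    intro η hη hh
    obtain ⟨g, hg⟩ := hgen η hη
    have e1 : W η = ∑ j, g j * W (γ j) := by
      rw [← hg]
      simp only [W, Fin.sum_univ_four, Derivation.add_apply, Derivation.smul_apply, smul_eq_mul]
      ring
    have e2 : ∀ j, homogeneousComponent 6 (g j * W (γ j)) =
        C (constantCoeff (g j)) * homogeneousComponent 6 (W (γ j)) := fun j => by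
      by_cases hj : δ j ≤ 4
      · simp [radial _ (hmem j) hj (hγ j)]
      · exact hc_mul 6 _ _ _ (by omega) (W_hom (hγ j))
    have e3 : W η = ∑ j, C (constantCoeff (g j)) * homogeneousComponent 6 (W (γ j)) := by
      rw [← homogeneousComponent_eq_self (W_hom hh), e1, map_sum]
      exact Finset.sum_congr rfl fun j _ => e2 j
    have e4 : ∀ j, ∑ m, V j m * v m = 0 := fun j => congrFun hv j
    have e5 : ∀ m, eval (Pt m) (W η) = ∑ j, constantCoeff (g j) * V j m := fun m => by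
      rw [e3, map_sum]
      simp [V]
    simp only [e5, Fin.sum_univ_four] at e4 ⊢
    linear_combination constantCoeff (g 0) * e4 0 + constantCoeff (g 1) * e4 1 +
      constantCoeff (g 2) * e4 2 + constantCoeff (g 3) * e4 3
  have k0 := key _ e0_mem e0_hom
  have k1 := key _ e1_mem e1_hom
  have k2 := key _ e2_mem e2_hom
  have k3 := key _ e3_mem e3_hom
  simp only [Fin.sum_univ_four, W, e0_0, e0_1, e1_0, e1_1, e2_0, e2_1, e3_0, e3_1, Pt, map_sub,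
    map_add, map_mul, map_pow, map_neg, map_ofNat, map_zero, eval_X, Matrix.cons_val_zero,
    Matrix.cons_val_one, Matrix.cons_val] at k0 k1 k2 k3
  have v3 : v 3 = 0 := by linear_combination (1 / 270 : K) * k3
  have v2 : v 2 = 0 := by linear_combination (-1 / 24 : K) * k2 + (150 / 24 : K) * v3
  have v1 : v 1 = 0 := by linear_combination (-1 / 24 : K) * k1 + v2 - (6 / 24 : K) * v3
  have v0 : v 0 = 0 := by linear_combination (1 / 2 : K) * k0 - 4 * v2 + 20 * v3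
  apply hv0
  ext i
  fin_cases i
  exacts [v0, v1, v2, v3]

theorem lattice_iso [CharZero K] :
    Nonempty (flats (Set.range fun i => H K (aA i)) ≃o flats (Set.range fun i => H K (aB i))) := by
  apply flats_iso
  intro T i
  have h : ∀ i j k, det3 (aA i) (aA j) (aA k) = 0 ↔ det3 (aB i) (aB j) (aB k) = 0 := by
    decide +kernel
  rw [le_H_iff aA (by decide +kernel) (by decide +kernel),
    le_H_iff aB (by decide +kernel) (by decide +kernel)]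
  simp only [ne_eq, h]

theorem arrA [CharZero K] : IsArrangement (Set.range fun i => H K (aA i)) :=
  isArr aA (by decide) 1 5 2 rfl rfl rfl

theorem arrB [CharZero K] : IsArrangement (Set.range fun i => H K (aB i)) :=
  isArr aB (by decide) 0 4 1 rfl rfl rfl

end Pool.Agent.H50.POGB
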