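import Mathlib

namespace Pool.Agent.H50.PQ

open Set Filter Topology

variable {E : Type} [NormedAddCommGroup E] [NormedSpace ℝ E]

structure Qd (E : Type) [NormedAddCommGroup E] [NormedSpace ℝ E] where
  B : E →L[ℝ] E →L[ℝ] ℝ
  L : E →L[ℝ] ℝ
  c : ℝ

noncomputable def Qd.ev (q : Qd E) (x : E) : ℝ := q.B x x + q.L x + q.c

noncomputable def Qd.lin (q : Qd E) (y : E) : E →L[ℝ] ℝ := q.B y + q.B.flip y + q.L

noncomputable def Qd.df (q r : Qd E) : Qd E := ⟨q.B - r.B, q.L - r.L, q.c - r.c⟩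

lemma lin_apply (q : Qd E) (y w : E) : q.lin y w = q.B y w + q.B w y + q.L w := by simp [Qd.lin]

lemma ev_add (q : Qd E) (y w : E) (t : ℝ) :
    q.ev (y + t • w) = q.ev y + t * q.lin y w + t ^ 2 * q.B w w := by
  simp only [Qd.ev, lin_apply, map_add, map_smul, add_apply,
    smul_apply, smul_eq_mul]; ring

lemma lin_add (q : Qd E) (y w : E) (t : ℝ) :
    q.lin (y + t • w) w = q.lin y w + 2 * t * q.B w w := by
  simp only [lin_apply, map_add, map_smul, add_apply,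
    smul_apply, smul_eq_mul]; ring

lemma df_ev (q r : Qd E) (x : E) : (q.df r).ev x = q.ev x - r.ev x := by
  simp [Qd.df, Qd.ev]; ring

lemma df_lin (q r : Qd E) (y w : E) : (q.df r).lin y w = q.lin y w - r.lin y w := by
  simp [Qd.df, lin_apply]; ring

lemma df_B (q r : Qd E) (w : E) : (q.df r).B w w = q.B w w - r.B w w := by simp [Qd.df]

lemma anB (B : E →L[ℝ] E →L[ℝ] ℝ) {f g : E → E} {x : E} (hf : AnalyticAt ℝ f x)
    (hg : AnalyticAt ℝ g x) : AnalyticAt ℝ (fun x => B (f x) (g x)) x :=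
  (B.analyticAt_bilinear (f x, g x)).comp₂ hf hg

lemma ev_an (q : Qd E) (x : E) : AnalyticAt ℝ q.ev x :=
  ((anB q.B analyticAt_id analyticAt_id).add (q.L.analyticAt x)).add analyticAt_const

lemma ev_cont (q : Qd E) : Continuous q.ev :=
  continuous_iff_continuousAt.2 fun x => (ev_an q x).continuousAt

lemma dense_ne {F : E → ℝ} (hF : ∀ x, AnalyticAt ℝ F x) (h : ∃ x, F x ≠ 0) :
    IsOpen {x | F x ≠ 0} ∧ Dense {x | F x ≠ 0} := by
  refine ⟨isOpen_ne_fun (continuous_iff_continuousAt.2 fun x => (hF x).continuousAt)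
    continuous_const, fun x => ?_⟩
  by_contra hx
  rw [mem_closure_iff_frequently, not_frequently] at hx
  obtain ⟨z, hz⟩ := h
  have hA : AnalyticOnNhd ℝ F univ := fun x _ => hF x
  exact hz (hA.eqOn_zero_of_preconnected_of_eventuallyEq_zero isPreconnected_univ (mem_univ x)
    (hx.mono fun y hy => by simpa using hy) (mem_univ z))

lemma dense_all [CompleteSpace E] {ι : Type} [Finite ι] {F : ι → E → ℝ} {P : ι → Prop}
    (hF : ∀ i x, AnalyticAt ℝ (F i) x) (h : ∀ i, P i → ∃ x, F i x ≠ 0) :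
    Dense {x | ∀ i, P i → F i x ≠ 0} := by
  have := dense_iInter_of_isOpen (f := fun i : {i // P i} => {x | F i.1 x ≠ 0})
    (fun i => (dense_ne (hF i) (h i i.2)).1) (fun i => (dense_ne (hF i) (h i i.2)).2)
  refine this.mono fun x hx i hi => ?_
  exact mem_iInter.1 hx ⟨i, hi⟩

def IsProd (d : E → ℝ) : Prop :=
  ∃ (a : Bool → E →L[ℝ] ℝ) (c : Bool → ℝ), ∀ x, d x = (a true x + c true) * (a false x + c false)

lemma prodA (d : Qd E) {y v : E} (h0 : d.ev y = 0) (hv : d.lin y v ≠ 0)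
    (h : ∀ w, d.B (d.lin y v • w - d.lin y w • v) (d.lin y v • w - d.lin y w • v) = 0) :
    IsProd d.ev := by
  set l := d.lin y
  let m : E →L[ℝ] ℝ := (1 / l v) • (d.B.flip v + d.B v) - (d.B v v / l v ^ 2) • l
  refine ⟨fun b => if b then l else m, fun b => if b then -l y else 1 - m y, fun x => ?_⟩
  have e := ev_add d y (x - y) 1
  have h1 := h (x - y)
  have e1 : l x + -l y = l (x - y) := by rw [map_sub]; ring
  have e2 : m x + (1 - m y) = 1 + m (x - y) := by rw [map_sub]; ring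
  simp only [if_true, Bool.false_eq_true, if_false, e1, e2]
  simp only [one_smul, add_sub_cancel, h0] at e
  rw [e]
  generalize x - y = w at h1 ⊢
  simp only [map_sub, map_smul, sub_apply, smul_apply, smul_eq_mul] at h1
  simp only [m, sub_apply, smul_apply, add_apply, smul_eq_mul, ContinuousLinearMap.flip_apply]
  change 0 + 1 * l w + _ = _
  field_simp
  linear_combination h1

lemma prodB (d : Qd E) {b : E} (h0 : d.ev b ≠ 0)
    (h : ∀ a, d.lin b (a - b) ^ 2 - 4 * d.ev b * d.B (a - b) (a - b) = 0) : IsProd d.ev := by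
  set l := d.lin b
  refine ⟨fun s => if s then l else (1 / (4 * d.ev b)) • l,
    fun s => if s then 2 * d.ev b - l b else (2 * d.ev b - l b) / (4 * d.ev b), fun x => ?_⟩
  have e := ev_add d b (x - b) 1
  have h1 := h x
  simp only [one_smul, add_sub_cancel] at e
  simp only [if_true, Bool.false_eq_true, if_false, smul_apply, smul_eq_mul]
  rw [e]
  rw [map_sub l] at h1 ⊢
  field_simp
  linear_combination -h1

lemma lim_cont {X : Type} [TopologicalSpace X] {F : X × ℝ → ℝ} {φ : X → ℝ}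
    (h : ∀ v, Tendsto F (𝓝 v ×ˢ 𝓝[>] 0) (𝓝 (φ v))) : Continuous φ := by
  refine continuous_iff_continuousAt.2 fun v => ?_
  rw [ContinuousAt, (closed_nhds_basis (φ v)).tendsto_right_iff]
  rintro N ⟨hN, hc⟩
  obtain ⟨pa, ha, pb, hb, hab⟩ := eventually_prod_iff.1 (h v hN)
  filter_upwards [ha] with w hw
  have h2 : Tendsto (fun t : ℝ => F (w, t)) (𝓝[>] 0) (𝓝 (φ w)) :=
    (h w).comp (tendsto_const_nhds.prodMk tendsto_id)
  exact hc.mem_of_tendsto h2 (hb.mono fun t ht => hab hw ht)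

lemma cov_gen {X ι : Type} {s : Set X} {S : ι → Set X} (hc : ∀ x ∈ s, ∃ i, x ∈ S i)
    (hd : ∀ x ∈ s, ∀ i j, x ∈ S i → x ∈ S j → i = j) {k : ι} {x : X} (hx : x ∈ s) (hk : x ∈ S k)
    (H : s ⊆ S k ∪ (⋃ l : {l // l ≠ k}, S l) → s ∩ (S k ∩ (⋃ l : {l // l ≠ k}, S l)) = ∅ →
      s ⊆ S k ∨ s ⊆ (⋃ l : {l // l ≠ k}, S l)) : s ⊆ S k := by
  have h1 : s ⊆ S k ∪ (⋃ l : {l // l ≠ k}, S l) := fun z hz => by
    obtain ⟨i, hi⟩ := hc z hz
    by_cases e : i = k
    · exact Or.inl (e ▸ hi)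
    · exact Or.inr (mem_iUnion.2 ⟨⟨i, e⟩, hi⟩)
  have h2 : s ∩ (S k ∩ (⋃ l : {l // l ≠ k}, S l)) = ∅ := by
    refine eq_empty_of_forall_notMem fun z ⟨hz, h1, h2⟩ => ?_
    obtain ⟨l, hl⟩ := mem_iUnion.1 h2
    exact l.2 (hd z hz _ _ hl h1)
  rcases H h1 h2 with h | h
  · exact h
  · obtain ⟨l, hl⟩ := mem_iUnion.1 (h hx)
    exact absurd (hd x hx _ _ hl hk) l.2

lemma cov_closed {X ι : Type} [TopologicalSpace X] [Finite ι] {s : Set X} (hs : IsPreconnected s)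
    {S : ι → Set X} (hS : ∀ i, IsClosed (S i)) (hc : ∀ x ∈ s, ∃ i, x ∈ S i)
    (hd : ∀ x ∈ s, ∀ i j, x ∈ S i → x ∈ S j → i = j) {k : ι} {x : X} (hx : x ∈ s) (hk : x ∈ S k) :
    s ⊆ S k :=
  cov_gen hc hd hx hk (isPreconnected_iff_subset_of_disjoint_closed.1 hs _ _ (hS k)
    (isClosed_iUnion_of_finite fun l => hS l.1))

lemma cov_open {X ι : Type} [TopologicalSpace X] {s : Set X} (hs : IsPreconnected s)
    {S : ι → Set X} (hS : ∀ i, IsOpen (S i)) (hc : ∀ x ∈ s, ∃ i, x ∈ S i)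
    (hd : ∀ x ∈ s, ∀ i j, x ∈ S i → x ∈ S j → i = j) {k : ι} {x : X} (hx : x ∈ s) (hk : x ∈ S k) :
    s ⊆ S k :=
  cov_gen hc hd hx hk (isPreconnected_iff_subset_of_disjoint.1 hs _ _ (hS k)
    (isOpen_iUnion fun l => hS l.1))

lemma freq_ex {ι : Type} [Finite ι] {l : Filter ℝ} {R : ℝ → Prop} {P : ι → ℝ → Prop}
    (h : ∃ᶠ t in l, R t) (hP : ∀ t, ∃ i, P i t) : ∃ i, ∃ᶠ t in l, R t ∧ P i t := by
  by_contra hn
  simp only [not_exists, not_frequently] at hn
  refine h ((eventually_all.2 hn).mono fun t ht hr => ?_)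
  obtain ⟨i, hi⟩ := hP t
  exact ht i ⟨hr, hi⟩

end Pool.Agent.H50.PQ
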