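import Pool.Agent.H50.PQ1

namespace Pool.Agent.H50.PQ

open Set Filter Topology

variable {E : Type} [NormedAddCommGroup E] [NormedSpace ℝ E]

def TS (f : E → ℝ) (y : E) : Prop :=
  ∃ φ g : E → ℝ,
    (∀ v, Tendsto (fun p : E × ℝ => (f (y + p.2 • p.1) - f y) / p.2) (𝓝 v ×ˢ 𝓝[>] 0) (𝓝 (φ v))) ∧
    ∀ w, Tendsto (fun p : E × ℝ => (f (y + p.2 • p.1) - f y - p.2 * φ p.1) / p.2 ^ 2)
      (𝓝 w ×ˢ 𝓝[>] 0) (𝓝 (g w))

lemma act {f : E → ℝ} (hf : Continuous f) {y w : E} {a b : ℝ} (q : Qd E)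
    (h1 : Tendsto (fun t : ℝ => (f (y + t • w) - f y) / t) (𝓝[>] 0) (𝓝 a))
    (h2 : Tendsto (fun t : ℝ => (f (y + t • w) - f y - t * a) / t ^ 2) (𝓝[>] 0) (𝓝 b))
    (h : ∃ᶠ t : ℝ in 𝓝[>] 0, f (y + t • w) = q.ev (y + t • w)) :
    f y = q.ev y ∧ a = q.lin y w ∧ b = q.B w w := by
  have c0 : Tendsto (fun t : ℝ => y + t • w) (𝓝[>] 0) (𝓝 y) := by
    have : Continuous fun t : ℝ => y + t • w := by fun_prop
    simpa using (this.tendsto 0).mono_left (nhdsWithin_le_nhds (s := Ioi 0))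
  have e0 : f y = q.ev y :=
    tendsto_nhds_unique_of_frequently_eq ((hf.tendsto y).comp c0) (((ev_cont q).tendsto y).comp c0) h
  have h' := h.and_eventually (self_mem_nhdsWithin (s := Ioi (0 : ℝ)))
  have e1 : a = q.lin y w := by
    have c1 : Tendsto (fun t : ℝ => q.lin y w + t * q.B w w) (𝓝[>] 0) (𝓝 (q.lin y w)) := by
      have : Continuous fun t : ℝ => q.lin y w + t * q.B w w := by fun_prop
      simpa using (this.tendsto 0).mono_left (nhdsWithin_le_nhds (s := Ioi 0))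
    refine tendsto_nhds_unique_of_frequently_eq h1 c1 (h'.mono fun t ⟨ht, hp⟩ => ?_)
    have : t ≠ 0 := ne_of_gt hp
    rw [ht, ev_add, e0]; field_simp; ring
  refine ⟨e0, e1, tendsto_nhds_unique_of_frequently_eq h2 tendsto_const_nhds
    (h'.mono fun t ⟨ht, hp⟩ => ?_)⟩
  have : t ≠ 0 := ne_of_gt hp
  rw [ht, ev_add, e0, e1]; field_simp; ring

lemma loc [CompleteSpace E] {ι : Type} [Finite ι] {q : ι → Qd E} {f : E → ℝ} (hf : Continuous f)
    (hq : ∀ x, ∃ i, f x = (q i).ev x) {y v : E} (hy : TS f y)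
    (ht : ∀ k l, k ≠ l → ((q k).df (q l)).ev y = 0 →
      ((q k).df (q l)).lin y v ≠ 0 ∧ ¬ IsProd ((q k).df (q l)).ev) :
    ∃ k, (∀ᶠ t : ℝ in 𝓝 0, f (y + t • v) = (q k).ev (y + t • v)) ∧
      ∀ m, (∃ᶠ t : ℝ in 𝓝[>] 0, f (y + t • v) = (q m).ev (y + t • v)) → m = k := by
  obtain ⟨φ, g, h1, h2⟩ := hy
  have cφ := lim_cont h1
  have cg := lim_cont h2
  let S : ι → Set E := fun k => {w | f y = (q k).ev y ∧ φ w = (q k).lin y w ∧ g w = (q k).B w w}
  have hact : ∀ m w, (∃ᶠ t : ℝ in 𝓝[>] 0, f (y + t • w) = (q m).ev (y + t • w)) → w ∈ S m :=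
    fun m w h => act hf (q m) ((h1 w).comp (tendsto_const_nhds.prodMk tendsto_id))
      ((h2 w).comp (tendsto_const_nhds.prodMk tendsto_id)) h
  have hcov : ∀ w, ∃ k, w ∈ S k := fun w => by
    obtain ⟨k, hk⟩ := freq_ex (l := 𝓝[>] 0) (R := fun _ => True)
      (Frequently.of_forall fun _ => trivial) (fun t => hq (y + t • w))
    exact ⟨k, hact k w (hk.mono fun t h => h.2)⟩
  have hcl : ∀ k, IsClosed (S k) := fun k =>
    isClosed_const.inter ((isClosed_eq cφ (by fun_prop)).inter (isClosed_eq cg (by fun_prop)))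
  have hboth : ∀ k l z, z ∈ S k → z ∈ S l → ((q k).df (q l)).ev y = 0 ∧
      ((q k).df (q l)).lin y z = 0 ∧ ((q k).df (q l)).B z z = 0 := fun k l z a b => by
    rw [df_ev, df_lin, df_B, ← a.1, ← b.1, ← a.2.1, ← b.2.1, ← a.2.2, ← b.2.2]; simp
  obtain ⟨w, hw⟩ := (dense_all (ι := ι × ι)
    (F := fun p w => ((q p.1).df (q p.2)).B
      (((q p.1).df (q p.2)).lin y v • w - ((q p.1).df (q p.2)).lin y w • v)
      (((q p.1).df (q p.2)).lin y v • w - ((q p.1).df (q p.2)).lin y w • v))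
    (P := fun p => p.1 ≠ p.2 ∧ ((q p.1).df (q p.2)).ev y = 0)
    (fun p x => by
      have : AnalyticAt ℝ (fun w => ((q p.1).df (q p.2)).lin y v • w -
          ((q p.1).df (q p.2)).lin y w • v) x :=
        (analyticAt_const.smul analyticAt_id).sub
          ((ContinuousLinearMap.analyticAt _ x).smul analyticAt_const)
      exact anB _ this this)
    (fun p hp => by
      by_contra hn
      push Not at hn
      exact (ht _ _ hp.1 hp.2).2 (prodA _ hp.2 (ht _ _ hp.1 hp.2).1 hn))).nonempty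
  obtain ⟨k, hk⟩ := hcov w
  have seg : ∀ s : ℝ, s ≠ 0 → s • v ∈ S k := by
    intro s hs
    refine cov_closed (convex_segment (s • v) w).isPreconnected hcl (fun z _ => hcov z) ?_
      (right_mem_segment ℝ _ _) hk (left_mem_segment ℝ _ _)
    rintro z ⟨a, b, -, -, hab, rfl⟩ i j hi hj
    by_contra hij
    obtain ⟨e0, e1, e2⟩ := hboth i j _ hi hj
    have hv := (ht i j hij e0).1
    have hw' := hw (i, j) ⟨hij, e0⟩
    set d := (q i).df (q j)
    simp only [map_add, map_smul, smul_eq_mul] at e1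
    have hb : b ≠ 0 := by
      rintro rfl
      have : a = 1 := by linarith
      subst this
      simp [hs, hv] at e1
    have e3 : d.lin y v • w - d.lin y w • v = (d.lin y v / b) • (a • s • v + b • w) := by
      have : d.lin y w = -(d.lin y v / b * (a * s)) := by field_simp; linarith
      rw [this, smul_add, smul_smul, smul_smul, smul_smul, div_mul_cancel₀ _ hb, neg_smul, mul_assoc]
      abel
    apply hw'
    simp only [e3, map_smul, smul_apply, smul_eq_mul, e2, mul_zero]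
  have uniq : ∀ s : ℝ, s ≠ 0 → ∀ m, s • v ∈ S m → m = k := by
    intro s hs m hm
    by_contra hmk
    obtain ⟨e0, e1, -⟩ := hboth m k _ hm (seg s hs)
    have hv := (ht m k hmk e0).1
    simp [hs, hv] at e1
  have ev : ∀ s : ℝ, s ≠ 0 → ∀ᶠ t : ℝ in 𝓝[>] 0, f (y + t • s • v) = (q k).ev (y + t • s • v) := by
    intro s hs
    by_contra hn
    obtain ⟨m, hm⟩ := freq_ex (not_eventually.1 hn) (fun t => hq (y + t • s • v))
    have := uniq s hs m (hact m _ (hm.mono fun t h => h.2))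
    subst this
    exact hm.exists.elim fun t h => h.1 h.2
  refine ⟨k, ?_, fun m hm => uniq 1 one_ne_zero m (by simpa using hact m v hm)⟩
  obtain ⟨a, ha, h3⟩ := Metric.eventually_nhds_iff.1 (eventually_nhdsWithin_iff.1 (ev 1 one_ne_zero))
  obtain ⟨b, hb, h4⟩ := Metric.eventually_nhds_iff.1
    (eventually_nhdsWithin_iff.1 (ev (-1) (by norm_num)))
  refine Metric.eventually_nhds_iff.2 ⟨min a b, lt_min ha hb, fun t ht => ?_⟩
  rcases lt_trichotomy t 0 with h | rfl | h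
  · have := h4 (y := -t) (by simpa using (lt_min_iff.1 ht).2) (by simpa using h)
    simpa using this
  · simpa using hk.1
  · simpa using h3 (lt_min_iff.1 ht).1 h

lemma cell [CompleteSpace E] {ι : Type} [Finite ι] {q : ι → Qd E} {f : E → ℝ} (hf : Continuous f)
    (hq : ∀ x, ∃ i, f x = (q i).ev x) (hy : ∀ y, TS f y)
    (hne : ∀ k l, k ≠ l → ∃ x, ((q k).df (q l)).ev x ≠ 0) {C : Set E} (hC : Convex ℝ C)
    (hO : IsOpen C) (hN : C.Nonempty)
    (hP : ∀ x ∈ C, ∀ k l, k ≠ l → IsProd ((q k).df (q l)).ev → ((q k).df (q l)).ev x ≠ 0) :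
    ∃ k, ∀ x ∈ closure C, f x = (q k).ev x := by
  obtain ⟨b, hbC, hb⟩ := (dense_all (ι := ι × ι) (F := fun p => ((q p.1).df (q p.2)).ev)
    (P := fun p => p.1 ≠ p.2) (fun p x => ev_an _ x) (fun p hp => hne _ _ hp)).inter_open_nonempty
    C hO hN
  obtain ⟨k0, hk0⟩ := hq b
  have hG := dense_all (ι := ι × ι)
    (F := fun p a => ((q p.1).df (q p.2)).lin b (a - b) ^ 2 -
      4 * ((q p.1).df (q p.2)).ev b * ((q p.1).df (q p.2)).B (a - b) (a - b))
    (P := fun p => p.1 ≠ p.2 ∧ ¬ IsProd ((q p.1).df (q p.2)).ev)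
    (fun p x => by
      have : AnalyticAt ℝ (fun a : E => a - b) x := analyticAt_id.sub analyticAt_const
      exact (((ContinuousLinearMap.analyticAt _ _).comp this).pow 2).sub
        (analyticAt_const.mul (anB _ this this)))
    (fun p hp => by
      by_contra hn
      push Not at hn
      exact hp.2 (prodB _ (hb p hp.1) hn))
  refine ⟨k0, ?_⟩
  have hcl : IsClosed {x | f x = (q k0).ev x} := isClosed_eq hf (ev_cont _)
  refine fun x hx => closure_minimal ((hG.open_subset_closure_inter hO).trans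
    (closure_minimal ?_ hcl)) hcl hx
  rintro a ⟨haC, ha⟩
  set u := a - b with hu
  have hl : ∀ t ∈ Icc (0 : ℝ) 1, ∃ k,
      (∀ᶠ s : ℝ in 𝓝 0, f (b + t • u + s • u) = (q k).ev (b + t • u + s • u)) ∧
      ∀ m, (∃ᶠ s : ℝ in 𝓝[>] 0, f (b + t • u + s • u) = (q m).ev (b + t • u + s • u)) → m = k := by
    intro t ht
    refine loc hf hq (hy _) fun k l hkl h0 => ?_
    have hm : b + t • u ∈ C := hC.add_smul_sub_mem hbC haC ht
    have hnp : ¬ IsProd ((q k).df (q l)).ev := fun h => hP _ hm k l hkl h h0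
    refine ⟨fun h1 => ha (k, l) ⟨hkl, hnp⟩ ?_, hnp⟩
    rw [ev_add] at h0
    rw [lin_add] at h1
    simp only [← hu]
    linear_combination (((q k).df (q l)).lin b u + 2 * t * ((q k).df (q l)).B u u) * h1 -
      4 * ((q k).df (q l)).B u u * h0
  let O : ι → Set ℝ := fun k => {t | ∀ᶠ s : ℝ in 𝓝 t, f (b + s • u) = (q k).ev (b + s • u)}
  have hO' : ∀ k t, t ∈ O k ↔
      ∀ᶠ s : ℝ in 𝓝 0, f (b + t • u + s • u) = (q k).ev (b + t • u + s • u) := by
    intro k t
    simp only [O, mem_setOf_eq, add_assoc, ← add_smul]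
    rw [← map_add_left_nhds_zero t, eventually_map]
  have hcov : ∀ t ∈ Icc (0 : ℝ) 1, ∃ k, t ∈ O k := fun t ht =>
    (hl t ht).imp fun k hk => (hO' k t).2 hk.1
  obtain ⟨k, hk⟩ := hcov 0 (left_mem_Icc.2 zero_le_one)
  have hsub := cov_open isPreconnected_Icc (S := O) (fun k => isOpen_setOf_eventually_nhds) hcov
    (fun t ht i j hi hj => by
      obtain ⟨m, -, hm⟩ := hl t ht
      rw [hm i (((hO' i t).1 hi).filter_mono nhdsWithin_le_nhds).frequently,
        hm j (((hO' j t).1 hj).filter_mono nhdsWithin_le_nhds).frequently])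
    (left_mem_Icc.2 zero_le_one) hk
  have e0 : f b = (q k).ev b := by simpa using hk.self_of_nhds
  have e1 : f a = (q k).ev a := by simpa [hu] using (hsub (right_mem_Icc.2 zero_le_one)).self_of_nhds
  by_cases hkk : k = k0
  · exact hkk ▸ e1
  · exact absurd (by rw [df_ev, ← e0, ← hk0, sub_self]) (hb (k, k0) hkk)

end Pool.Agent.H50.PQ
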