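import Pool.Agent.H50.PQ2

namespace Pool.Agent.H50.PQ

open Set Filter Topology

variable {E : Type} [NormedAddCommGroup E] [NormedSpace ℝ E]

lemma arr [CompleteSpace E] {J : Type} [Finite J] (a : J → E →L[ℝ] ℝ) (c : J → ℝ)
    (ha : ∀ j, a j ≠ 0) :
    ∃ (ι : Type) (_ : Finite ι) (C : ι → Set E),
      (∀ i, Convex ℝ (C i) ∧ IsOpen (C i) ∧ (C i).Nonempty ∧ (∀ x ∈ C i, ∀ j, a j x + c j ≠ 0) ∧
        ∃ (a' : J → E →L[ℝ] ℝ) (β : J → ℝ), (∀ j, a' j ≠ 0) ∧
          closure (C i) = {x | ∀ j, a' j x ≤ β j}) ∧ ⋃ i, closure (C i) = univ := by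
  let σ : Bool → ℝ := fun s => if s then 1 else -1
  have hσ : ∀ s, σ s ≠ 0 := fun s => by cases s <;> simp [σ]
  let C : (J → Bool) → Set E := fun s => {x | ∀ j, (σ (s j) • a j) x < -(σ (s j) * c j)}
  refine ⟨{s // (C s).Nonempty}, inferInstance, fun s => C s.1, fun s => ⟨?_, ?_, s.2, ?_, ?_⟩, ?_⟩
  · simp only [C, setOf_forall]
    exact convex_iInter fun j => convex_halfSpace_lt (σ (s.1 j) • a j).toLinearMap.isLinear _
  · simp only [C, setOf_forall]
    exact isOpen_iInter_of_finite fun j => isOpen_lt (by fun_prop) continuous_const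
  · intro x hx j h
    have := hx j
    simp only [smul_apply, smul_eq_mul] at this
    have e : σ (s.1 j) * a j x + σ (s.1 j) * c j = 0 := by rw [← mul_add, h, mul_zero]
    linarith
  · refine ⟨fun j => σ (s.1 j) • a j, fun j => -(σ (s.1 j) * c j),
      fun j => smul_ne_zero (hσ _) (ha j), Subset.antisymm (closure_minimal (fun x hx j => (hx j).le) ?_)
      fun x hx => ?_⟩
    · simp only [setOf_forall]
      exact isClosed_iInter fun j => isClosed_le (by fun_prop) continuous_const
    · obtain ⟨z, hz⟩ := s.2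
      have c0 : Tendsto (fun t : ℝ => x + t • (z - x)) (𝓝[>] 0) (𝓝 x) := by
        have : Continuous fun t : ℝ => x + t • (z - x) := by fun_prop
        simpa using (this.tendsto 0).mono_left (nhdsWithin_le_nhds (s := Ioi 0))
      refine mem_closure_of_tendsto c0 ?_
      filter_upwards [Ioo_mem_nhdsGT (zero_lt_one' ℝ)] with t ht j
      have h1 := hx j
      have h2 := hz j
      rw [map_add, map_smul, map_sub, smul_eq_mul]
      nlinarith [ht.1, ht.2]
  · have hd := dense_all (F := fun j x => a j x + c j) (P := fun _ => True)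
      (fun j x => ((a j).analyticAt x).add analyticAt_const) (fun j _ => by
        by_contra hn
        push Not at hn
        refine ha j (ContinuousLinearMap.ext fun x => ?_)
        have h0 := hn 0
        have h1 := hn x
        simp only [map_zero, zero_add] at h0
        simpa [h0] using h1)
    refine eq_univ_of_univ_subset (hd.closure_eq.symm.subset.trans (closure_minimal ?_
      (isClosed_iUnion_of_finite fun _ => isClosed_closure)))
    intro x hx
    have hm : x ∈ C fun j => decide (a j x + c j < 0) := fun j => by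
      have := hx j trivial
      by_cases h : a j x + c j < 0
      · simp only [σ, h, decide_true, if_true, one_smul, one_mul]; linarith
      · have h2 : 0 < a j x + c j := lt_of_le_of_ne (not_lt.1 h) (Ne.symm this)
        simp [σ, h]; linarith
    exact mem_iUnion.2 ⟨⟨_, x, hm⟩, subset_closure hm⟩

lemma core [CompleteSpace E] {ι : Type} [Finite ι] {q : ι → Qd E} {f : E → ℝ} (hf : Continuous f)
    (hq : ∀ x, ∃ i, f x = (q i).ev x) (hy : ∀ y, TS f y)
    (hne : ∀ k l, k ≠ l → ∃ x, ((q k).df (q l)).ev x ≠ 0) :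
    ∃ (ι' : Type) (_ : Finite ι') (k : ι' → ι) (P : ι' → Set E),
      (∀ i, ∃ (J : Type) (_ : Finite J) (a : J → E →L[ℝ] ℝ) (β : J → ℝ), (∀ j, a j ≠ 0) ∧
        P i = {x | ∀ j, a j x ≤ β j}) ∧ ⋃ i, P i = univ ∧ ∀ i, ∀ x ∈ P i, f x = (q (k i)).ev x := by
  have hA : ∀ p : ι × ι, ∃ (a : Bool → E →L[ℝ] ℝ) (c : Bool → ℝ), IsProd ((q p.1).df (q p.2)).ev →
      ∀ x, ((q p.1).df (q p.2)).ev x = (a true x + c true) * (a false x + c false) := fun p => by
    by_cases h : IsProd ((q p.1).df (q p.2)).ev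
    · obtain ⟨a, c, h⟩ := h
      exact ⟨a, c, fun _ => h⟩
    · exact ⟨0, 0, fun h' => absurd h' h⟩
  choose a c hA using hA
  obtain ⟨ι', _, C, hC, hU⟩ := arr (J := {j : (ι × ι) × Bool // a j.1 j.2 ≠ 0})
    (fun j => a j.1.1 j.1.2) (fun j => c j.1.1 j.1.2) (fun j => j.2)
  have hk : ∀ i, ∃ k, ∀ x ∈ closure (C i), f x = (q k).ev x := fun i => by
    obtain ⟨h1, h2, h3, h4, -⟩ := hC i
    refine cell hf hq hy hne h1 h2 h3 fun x hx k l hkl hp => ?_
    have e := hA (k, l) hp
    obtain ⟨z, hz⟩ := hne k l hkl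
    rw [e z] at hz
    have key : ∀ s, a (k, l) s z + c (k, l) s ≠ 0 → a (k, l) s x + c (k, l) s ≠ 0 := fun s hs => by
      by_cases h0 : a (k, l) s = 0
      · simpa [h0] using hs
      · exact h4 x hx ⟨((k, l), s), h0⟩
    rw [e x]
    exact mul_ne_zero (key _ (left_ne_zero_of_mul hz)) (key _ (right_ne_zero_of_mul hz))
  choose k hk using hk
  refine ⟨ι', inferInstance, k, fun i => closure (C i), fun i => ?_, hU, hk⟩
  obtain ⟨-, -, -, -, a', β, h1, h2⟩ := hC i
  exact ⟨_, inferInstance, a', β, h1, h2⟩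

end Pool.Agent.H50.PQ
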