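import Mathlib

set_option autoImplicit false

open Finset

namespace Pool.Agent.H50.PathCount

theorem land_sum (b : ℕ) (n : ℕ) : ∀ a m : ℕ → ℕ, (∀ i, a i < 2 ^ b) → (∀ i, m i < 2 ^ b) →
    (∑ i ∈ range n, a i * (2 ^ b) ^ i) &&& (∑ i ∈ range n, m i * (2 ^ b) ^ i) =
      ∑ i ∈ range n, (a i &&& m i) * (2 ^ b) ^ i := by
  have key : ∀ f : ℕ → ℕ, ∀ n, ∑ i ∈ range (n + 1), f i * (2 ^ b) ^ i =
      2 ^ b * ∑ i ∈ range n, f (i + 1) * (2 ^ b) ^ i + f 0 := by
    intro f n
    rw [sum_range_succ', mul_sum]
    simp only [pow_zero, mul_one]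
    congr 1
    exact sum_congr rfl fun i _ => by ring
  induction n with
  | zero => simp
  | succ n ih =>
    intro a m ha hm
    rw [key a, key m, key fun i => a i &&& m i, ← ih _ _ (fun i => ha (i + 1)) fun i => hm (i + 1)]
    apply Nat.eq_of_testBit_eq
    intro j
    rw [Nat.testBit_and, Nat.testBit_two_pow_mul_add _ (ha 0), Nat.testBit_two_pow_mul_add _ (hm 0),
      Nat.testBit_two_pow_mul_add _ (Nat.and_lt_two_pow _ (hm 0))]
    split_ifs <;> rw [Nat.testBit_and]

/-- the mask selecting the slots whose index has bit `w` equal to zero -/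
def mk (b w : ℕ) : ℕ → ℕ
  | 0 => 2 ^ b - 1
  | m + 1 => if m = w then mk b w m else mk b w m * (1 + 1 <<< (b * 2 ^ m))

theorem mk_eq (b w m : ℕ) : mk b w m =
    ∑ S ∈ range (2 ^ m), (if S.testBit w then 0 else 2 ^ b - 1) * (2 ^ b) ^ S := by
  induction m with
  | zero => simp [mk]
  | succ m ih =>
    rw [mk, pow_succ, mul_two, sum_range_add, ← ih]
    split_ifs with h
    · subst h
      rw [sum_eq_zero, add_zero]
      intro S hS
      rw [Nat.testBit_two_pow_add_eq, Nat.testBit_lt_two_pow (mem_range.1 hS)]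
      simp
    · rw [mul_add, mul_one, ih, sum_mul]
      congr 1
      refine sum_congr rfl fun S hS => ?_
      have : (2 ^ m + S).testBit w = S.testBit w := by
        have h1 := Nat.testBit_two_pow_mul_add 1 (mem_range.1 hS) w
        rw [mul_one] at h1
        rw [h1]
        split_ifs with h2
        · rfl
        · rw [Nat.testBit_lt_two_pow ((mem_range.1 hS).trans_le
            (Nat.pow_le_pow_right (by norm_num) (by omega)))]
          exact Nat.testBit_lt_two_pow (Nat.one_lt_two_pow (by omega))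
      rw [this, Nat.shiftLeft_eq, one_mul, pow_mul, pow_add (2 ^ b)]
      ring

variable {N : ℕ}

/-- binary code of the set of entries -/
def code (l : List (Fin N)) : ℕ := ∑ i ∈ l.toFinset.map Fin.valEmbedding, 2 ^ i

theorem code_lt (l : List (Fin N)) : code l < 2 ^ N :=
  Nat.geomSum_lt le_rfl fun k hk => by
    obtain ⟨i, -, rfl⟩ := mem_map.1 hk
    exact i.2

theorem code_bit (l : List (Fin N)) (w : Fin N) : (code l).testBit w ↔ w ∈ l := by
  rw [← Nat.mem_bitIndices, ← List.mem_toFinset, code, Finset.toFinset_bitIndices_sum_two_pow]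
  simp
  exact ⟨fun ⟨a, h, e⟩ => (Fin.ext e : a = w) ▸ h, fun h => ⟨w, h, rfl⟩⟩

theorem code_cons {l : List (Fin N)} {w : Fin N} (h : w ∉ l) : code (w :: l) = code l + 2 ^ w.1 := by
  rw [code, List.toFinset_cons, map_insert, sum_insert, add_comm]
  · rfl
  · simpa [Fin.ext_iff] using fun a ha e => h ((Fin.ext e : a = w) ▸ ha)

/-- generating number of a set of lists -/
def gen (b : ℕ) (X : Finset (List (Fin N))) : ℕ := ∑ l ∈ X, (2 ^ b) ^ code l

theorem gen_eq (b : ℕ) (X : Finset (List (Fin N))) :
    gen b X = ∑ S ∈ range (2 ^ N), (X.filter fun l => code l = S).card * (2 ^ b) ^ S := by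
  rw [gen, ← sum_fiberwise_of_maps_to (g := code) (t := range (2 ^ N))
    fun l _ => mem_range.2 (code_lt l)]
  refine sum_congr rfl fun S _ => ?_
  rw [sum_congr rfl fun l hl => by rw [(mem_filter.1 hl).2], sum_const, smul_eq_mul]

theorem gen_mask (b : ℕ) (X : Finset (List (Fin N))) (hX : X.card < 2 ^ b) (w : Fin N) :
    gen b X &&& mk b w N = gen b (X.filter fun l => w ∉ l) := by
  rw [gen_eq, gen_eq, mk_eq, land_sum b _ _ _ (fun S => (card_filter_le _ _).trans_lt hX)
    (fun S => by split_ifs <;> simp)]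
  refine sum_congr rfl fun S _ => ?_
  congr 1
  split_ifs with h
  · rw [Nat.and_zero, eq_comm, card_eq_zero, filter_eq_empty_iff]
    rintro l hl rfl
    exact (mem_filter.1 hl).2 ((code_bit l w).1 h)
  · rw [Nat.and_two_pow_sub_one_of_lt_two_pow ((card_filter_le _ _).trans_lt hX), filter_filter]
    congr 1
    refine filter_congr fun l _ => ⟨fun e => ⟨fun hw => h (e ▸ (code_bit l w).2 hw), e⟩, And.right⟩

theorem gen_mod (b : ℕ) (X : Finset (List (Fin N))) (hX : X.card < 2 ^ b - 1) :
    gen b X % (2 ^ b - 1) = X.card := by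
  have h1 : 2 ^ b ≡ 1 [MOD 2 ^ b - 1] :=
    ((Nat.modEq_iff_dvd' Nat.one_le_two_pow).2 dvd_rfl).symm
  have h2 : gen b X ≡ ∑ _l ∈ X, 1 [MOD 2 ^ b - 1] :=
    Nat.ModEq.sum fun l _ => by simpa using h1.pow (code l)
  rw [h2, sum_const, smul_eq_mul, mul_one, Nat.mod_eq_of_lt hX]

variable (R : Fin N → Fin N → Bool)

/-- paths with `k + 1` vertices starting at a given vertex -/
def Q : ℕ → Fin N → Finset (List (Fin N))
  | 0, v => {[v]}
  | k + 1, w => ((univ.biUnion fun v => if R w v then Q k v else ∅).filter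
      fun l => w ∉ l).image (List.cons w)

theorem mem_Q (k : ℕ) : ∀ v l, l ∈ Q R k v ↔ l.length = k + 1 ∧ l.head? = some v ∧ l.Nodup ∧
    l.IsChain fun x y => R x y = true := by
  induction k with
  | zero =>
    intro v l
    simp only [Q, mem_singleton]
    constructor
    · rintro rfl; simp
    · rintro ⟨h1, h2, -⟩
      obtain ⟨a, rfl⟩ := List.length_eq_one_iff.1 h1
      simpa using h2
  | succ k ih =>
    intro w l
    simp only [Q, mem_image, mem_filter, mem_biUnion, mem_univ, true_and]
    constructor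
    · rintro ⟨t, ⟨⟨v, hv⟩, hw⟩, rfl⟩
      split_ifs at hv with h
      · obtain ⟨a, b, c, d⟩ := (ih v t).1 hv
        refine ⟨by simp [a], rfl, List.nodup_cons.2 ⟨hw, c⟩, List.isChain_cons.2 ⟨?_, d⟩⟩
        intro y hy
        rw [b] at hy
        obtain rfl : v = y := by simpa using hy
        exact h
      · simp at hv
    · rintro ⟨a, b, c, d⟩
      match l, a, b, c, d with
      | x :: v :: t, a, b, c, d =>
        obtain rfl : x = w := by simpa using b
        rw [List.isChain_cons_cons] at d
        refine ⟨v :: t, ⟨⟨v, ?_⟩, (List.nodup_cons.1 c).1⟩, rfl⟩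
        rw [if_pos d.1]
        exact (ih v _).2 ⟨by simpa using a, rfl, (List.nodup_cons.1 c).2, d.2⟩

theorem Q_disj (k : ℕ) {v w : Fin N} (h : v ≠ w) : Disjoint (Q R k v) (Q R k w) :=
  disjoint_left.2 fun l a b => h (Option.some.inj
    (((mem_Q R k v l).1 a).2.1.symm.trans ((mem_Q R k w l).1 b).2.1))

theorem card_Q (k : ℕ) : ∀ v, (Q R k v).card ≤ N ^ k := by
  induction k with
  | zero => intro v; simp [Q]
  | succ k ih =>
    intro w
    refine card_image_le.trans ((card_filter_le _ _).trans (card_biUnion_le.trans ?_))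
    refine (sum_le_card_nsmul _ _ (N ^ k) fun v _ => ?_).trans (by simp [pow_succ'])
    split_ifs
    exacts [ih v, by simp]

theorem gen_Q (b k : ℕ) (hb : N ^ (k + 1) < 2 ^ b) (w : Fin N) : gen b (Q R (k + 1) w) =
    ((∑ v, if R w v then gen b (Q R k v) else 0) &&& mk b w N) <<< (b * 2 ^ w.1) := by
  have h1 : (∑ v, if R w v then gen b (Q R k v) else 0) =
      gen b (univ.biUnion fun v => if R w v then Q R k v else ∅) := by
    rw [gen, sum_biUnion]
    · refine sum_congr rfl fun v _ => ?_
      split_ifs <;> simp [gen]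
    · intro u _ v _ h
      simp only [Function.onFun]
      split_ifs <;> simp [Q_disj R k h]
  rw [h1, gen_mask, Nat.shiftLeft_eq, Q, gen, gen, sum_image fun _ _ _ _ h => (List.cons.inj h).2,
    sum_mul]
  · refine sum_congr rfl fun l hl => ?_
    rw [code_cons (mem_filter.1 hl).2, pow_add, pow_mul]
  · refine lt_of_le_of_lt (card_biUnion_le.trans ?_) hb
    refine (sum_le_card_nsmul _ _ (N ^ k) fun v _ => ?_).trans (by simp [pow_succ'])
    split_ifs
    exacts [card_Q R k v, by simp]

/-- evaluate a number before continuing -/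
def force (n : ℕ) (f : ℕ → ℕ) : ℕ := match n with
  | 0 => f 0
  | n + 1 => f (n + 1)

theorem force_eq (n : ℕ) (f : ℕ → ℕ) : force n f = f n := by cases n <;> rfl

/-- evaluate a list of numbers before continuing -/
def forceL : List ℕ → (List ℕ → ℕ) → ℕ
  | [], f => f []
  | a :: l, f => force a fun a' => forceL l fun l' => f (a' :: l')

theorem forceL_eq (l : List ℕ) : ∀ f, forceL l f = f l := by
  induction l with
  | nil => intro f; rfl
  | cons a l ih => intro f; rw [forceL, force_eq, ih]

/-- one layer of the dynamic programme -/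
def step (b : ℕ) (M L : List ℕ) : List ℕ :=
  (List.finRange N).map fun w =>
    ((((List.finRange N).map fun v => if R w v then L.getD v 0 else 0).sum) &&& M.getD w 0) <<<
      (b * 2 ^ w.1)

/-- iterate the dynamic programme -/
def run (b : ℕ) (M : List ℕ) : ℕ → List ℕ → ℕ
  | 0, L => L.sum % (2 ^ b - 1)
  | n + 1, L => forceL (step R b M L) (run b M n)

/-- the number of paths with `k + 1` vertices -/
def total (b k : ℕ) : ℕ :=
  forceL ((List.finRange N).map fun w => mk b w.1 N) fun M =>
    forceL ((List.finRange N).map fun w => 1 <<< (b * 2 ^ w.1)) (run R b M k)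

theorem getD_map (f : Fin N → ℕ) (v : Fin N) : ((List.finRange N).map f).getD v 0 = f v := by
  simp [List.getD_eq_getElem?_getD]

theorem run_eq (b n : ℕ) : ∀ k, N ^ (k + n + 1) < 2 ^ b - 1 →
    run R b ((List.finRange N).map fun w => mk b w.1 N) n
      ((List.finRange N).map fun v => gen b (Q R k v)) = (univ.biUnion (Q R (k + n))).card := by
  induction n with
  | zero =>
    intro k hk
    rw [run, ← Fin.sum_univ_def, ← gen_mod b]
    · rw [add_zero, gen, sum_biUnion (t := Q R k) fun u _ v _ h => Q_disj R k h]; rfl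
    · refine lt_of_le_of_lt (card_biUnion_le.trans ?_) hk
      exact (sum_le_card_nsmul _ _ (N ^ k) fun v _ => card_Q R k v).trans (by simp [pow_succ'])
  | succ n ih =>
    intro k hk
    rw [run, forceL_eq, show k + (n + 1) = k + 1 + n by ring, ← ih (k + 1) (by
      rwa [show k + 1 + n = k + (n + 1) by ring])]
    congr 1
    refine List.map_congr_left fun w _ => ?_
    have hN : 1 ≤ N := w.pos
    rw [gen_Q R b k (lt_of_le_of_lt (Nat.pow_le_pow_right hN (by omega)) (hk.trans_le (by omega))),
      Fin.sum_univ_def]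
    simp only [getD_map]

theorem total_eq (b k : ℕ) (h : N ^ (k + 1) < 2 ^ b - 1) :
    {l : List (Fin N) | l.length = k + 1 ∧ l.Nodup ∧ l.IsChain fun x y => R x y = true}.ncard =
      total R b k := by
  have h1 := run_eq R b k 0 (by rwa [zero_add])
  rw [total, forceL_eq, forceL_eq]
  have h2 : ((List.finRange N).map fun w => 1 <<< (b * 2 ^ w.1)) =
      (List.finRange N).map fun v => gen b (Q R 0 v) := by
    refine List.map_congr_left fun w _ => ?_
    simp [Q, gen, code, Nat.shiftLeft_eq, pow_mul]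
  rw [h2, h1, zero_add, ← Set.ncard_coe_finset]
  congr 1
  ext l
  simp only [Set.mem_ofPred_eq, coe_biUnion, coe_univ, Set.mem_univ, Set.iUnion_true,
    Set.mem_iUnion, mem_coe, mem_Q]
  constructor
  · rintro ⟨a, c, d⟩
    match l, a, c, d with
    | x :: t, a, c, d => exact ⟨x, a, rfl, c, d⟩
  · rintro ⟨v, a, -, c, d⟩
    exact ⟨a, c, d⟩

end Pool.Agent.H50.PathCount
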