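import Mathlib

namespace Pool.Agent.H50.Pol

open MeasureTheory

/-- The determinant of the matrix with columns `(1, p)`, `(1, q)`, `(1, r)`. -/
def det (p q r : ℝ × ℝ) : ℝ := (q.1 - p.1) * (r.2 - p.2) - (q.2 - p.2) * (r.1 - p.1)

/-- Real functions on the measurable sets of the plane; signed measures live here. -/
abbrev SM := {A : Set (ℝ × ℝ) // MeasurableSet A} → ℝ

/-- The standard measure of the closed triangle with vertices `p, q, r`. -/
noncomputable def triM (p q r : ℝ × ℝ) : SM :=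
  fun A => (volume (A.1 ∩ convexHull ℝ {p, q, r})).toReal

/-- The real span of the measures of all triangles with vertices among the points `z i`. -/
noncomputable def polyM {n : ℕ} (z : Fin n → ℝ × ℝ) : Submodule ℝ SM :=
  Submodule.span ℝ {μ | ∃ i j k, det (z i) (z j) (z k) ≠ 0 ∧ μ = triM (z i) (z j) (z k)}

/-- The cone of non-negative measures in that span. -/
def Kpos {n : ℕ} (z : Fin n → ℝ × ℝ) : Set SM := {μ | μ ∈ polyM z ∧ ∀ A, 0 ≤ μ A}

/-- The faces (nonempty convex extreme subsets) of a convex set, ordered by inclusion. -/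
abbrev Face {V : Type} [AddCommGroup V] [Module ℝ V] (K : Set V) :=
  {F : Set V // F.Nonempty ∧ Convex ℝ F ∧ IsExtreme ℝ K F}

section cone
variable {V : Type} [AddCommGroup V] [Module ℝ V] {ι : Type} {K : Set V} {M : Submodule ℝ V}
  {l : ι → V →ₗ[ℝ] ℝ}

def Poly (K : Set V) (M : Submodule ℝ V) (l : ι → V →ₗ[ℝ] ℝ) : Prop :=
  ∀ x, x ∈ K ↔ x ∈ M ∧ ∀ i, 0 ≤ l i x

lemma Poly.conv (h : Poly K M l) : Convex ℝ K := by
  intro x hx y hy a b ha hb _
  rw [h] at hx hy ⊢
  refine ⟨add_mem (M.smul_mem _ hx.1) (M.smul_mem _ hy.1), fun i => ?_⟩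
  simpa using add_nonneg (mul_nonneg ha (hx.2 i)) (mul_nonneg hb (hy.2 i))

lemma Poly.zero (h : Poly K M l) : (0 : V) ∈ K := (h 0).2 ⟨zero_mem _, by simp⟩

def Poly.top (h : Poly K M l) : Face K := ⟨K, ⟨0, h.zero⟩, h.conv, IsExtreme.refl _ _⟩

def Poly.fac (h : Poly K M l) (i : ι) : Face K :=
  ⟨{x | x ∈ K ∧ l i x = 0}, ⟨0, h.zero, by simp⟩, by
    intro x hx y hy a b ha hb hab
    exact ⟨h.conv hx.1 hy.1 ha hb hab, by simp [hx.2, hy.2]⟩, fun x hx => hx.1, by
    rintro x hx y hy _ hz ⟨a, b, ha, hb, -, rfl⟩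
    refine ⟨hx, ?_⟩
    have e := hz.2
    simp only [map_add, map_smul, smul_eq_mul] at e
    have p := ((h x).1 hx).2 i
    have q := mul_nonneg hb.le (((h y).1 hy).2 i)
    have : a * l i x = 0 := le_antisymm (by linarith) (mul_nonneg ha.le p)
    exact (mul_eq_zero.1 this).resolve_left ha.ne'⟩

lemma Poly.le_fac [Fintype ι] [Nonempty ι] (h : Poly K M l) (F : Face K) (hF : ¬ ∀ G, G ≤ F) :
    ∃ i, F ≤ h.fac i := by
  by_contra hn
  apply hF
  have : ∀ i, ∃ x ∈ F.1, 0 < l i x := by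
    intro i
    by_contra hx
    push Not at hx
    exact hn ⟨i, fun x a => ⟨F.2.2.2.subset a,
      le_antisymm (hx x a) (((h x).1 (F.2.2.2.subset a)).2 i)⟩⟩
  choose x x1 x2 using this
  have cp : (0 : ℝ) < Fintype.card ι := by exact_mod_cast Fintype.card_pos
  have hm : ∑ i, (1 / Fintype.card ι : ℝ) • x i ∈ F.1 :=
    F.2.2.1.sum_mem (fun _ _ => by positivity) (by simp) fun i _ => x1 i
  set m := ∑ i, (1 / Fintype.card ι : ℝ) • x i with hm'
  have mp : ∀ j, 0 < l j m := fun j => by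
    rw [hm', map_sum]
    refine Finset.sum_pos' (fun i _ => ?_) ⟨j, Finset.mem_univ _, ?_⟩
    · rw [map_smul]; exact mul_nonneg (by positivity) (((h _).1 (F.2.2.2.subset (x1 i))).2 j)
    · rw [map_smul]; exact mul_pos (by positivity) (x2 j)
  intro G y hy
  have yK := G.2.2.2.subset hy
  have mK := F.2.2.2.subset hm
  obtain ⟨B, hB⟩ := (Set.finite_range fun j => l j y / l j m).bddAbove
  have hB' : ∀ j, l j y ≤ (|B| + 1) * l j m := fun j => by
    have := hB ⟨j, rfl⟩
    simp only at this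
    rw [div_le_iff₀ (mp j)] at this
    nlinarith [le_abs_self B, mp j]
  have bp : 0 < |B| + 1 := by positivity
  refine F.2.2.2.left_mem_of_mem_openSegment yK (y := m + (1 / (|B| + 1)) • (m - y)) ?_ hm
    ⟨1 / (|B| + 2), (|B| + 1) / (|B| + 2), by positivity, by positivity, by field_simp; ring, ?_⟩
  · rw [h] at yK mK ⊢
    refine ⟨add_mem mK.1 (M.smul_mem _ (sub_mem mK.1 yK.1)), fun j => ?_⟩
    simp only [map_add, map_smul, map_sub, smul_eq_mul]
    have : l j m + 1 / (|B| + 1) * (l j m - l j y) =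
        (1 / (|B| + 1)) * ((|B| + 1) * l j m - l j y + l j m) := by field_simp; ring
    rw [this]
    exact mul_nonneg (by positivity) (by linarith [hB' j, mp j])
  · match_scalars <;> field_simp <;> ring
end cone

lemma card_le {V V' : Type} [AddCommGroup V] [Module ℝ V] [AddCommGroup V'] [Module ℝ V']
    {ι ι' : Type} [Fintype ι] [Nonempty ι] [Fintype ι'] [Nontrivial ι'] {K : Set V}
    {M : Submodule ℝ V} {l : ι → V →ₗ[ℝ] ℝ} {K' : Set V'} {M' : Submodule ℝ V'}
    {l' : ι' → V' →ₗ[ℝ] ℝ} (h : Poly K M l) (h' : Poly K' M' l') (y : V) (hy : y ∈ K)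
    (hy' : ∀ k, 0 < l k y) (x : ι' → V') (hx : ∀ i, x i ∈ K') (h0 : ∀ i, l' i (x i) = 0)
    (h1 : ∀ i j, i ≠ j → 0 < l' j (x i)) (e : Face K ≃o Face K') :
    Fintype.card ι' ≤ Fintype.card ι := by
  have inj : ∀ i j, h'.fac i ≤ h'.fac j → i = j := fun i j a => by
    by_contra hn
    exact (h1 i j hn).ne' (a (⟨hx i, h0 i⟩ : x i ∈ (h'.fac i).1)).2
  have : ∀ i, ∃ k, e.symm (h'.fac i) ≤ h.fac k := fun i => h.le_fac _ fun a => by
    obtain ⟨j, hj⟩ := exists_ne i
    exact hj (inj j i (by simpa using a (e.symm (h'.fac j))))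
  choose f hf using this
  refine Fintype.card_le_of_injective f fun i j a => ?_
  obtain ⟨m, hm⟩ := h'.le_fac (e (h.fac (f i))) fun b => by
    have : h.top ≤ h.fac (f i) := by simpa using b (e h.top)
    exact (hy' _).ne' (this hy).2
  have p := hf i
  have q := hf j
  rw [← a] at q
  rw [e.symm_apply_le] at p q
  exact (inj _ _ (p.trans hm)).trans (inj _ _ (q.trans hm)).symm

lemma mem_tri {p q r : ℝ × ℝ} (D : det p q r ≠ 0) (u : ℝ × ℝ) :
    u ∈ convexHull ℝ ({p, q, r} : Set (ℝ × ℝ)) ↔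
      0 ≤ det q r u * det p q r ∧ 0 ≤ det r p u * det p q r ∧ 0 ≤ det p q u * det p q r := by
  constructor
  · intro h
    refine convexHull_min (t := {u | 0 ≤ det q r u * det p q r ∧ 0 ≤ det r p u * det p q r ∧
      0 ≤ det p q u * det p q r}) ?_ ?_ h
    · have := mul_self_nonneg (det p q r)
      rintro _ (rfl | rfl | rfl) <;> refine ⟨?_, ?_, ?_⟩ <;> simp only [det] at this ⊢ <;> nlinarith
    · have k : ∀ (s t x y : ℝ × ℝ) (a b : ℝ), a + b = 1 →
          det s t (a • x + b • y) = a * det s t x + b * det s t y := fun s t x y a b hab => by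
        simp only [det, Prod.fst_add, Prod.snd_add, Prod.smul_fst, Prod.smul_snd, smul_eq_mul]
        have : b = 1 - a := by linarith
        subst this; ring
      rintro x ⟨x1, x2, x3⟩ y ⟨y1, y2, y3⟩ a b ha hb hab
      refine ⟨?_, ?_, ?_⟩ <;> rw [k _ _ _ _ _ _ hab, add_mul, mul_assoc, mul_assoc] <;> positivity
  · rintro ⟨h1, h2, h3⟩
    have k : ∀ a, 0 ≤ a * det p q r → 0 ≤ a / det p q r := fun a h => by
      have : a / det p q r = a * det p q r / (det p q r) ^ 2 := by field_simp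
      rw [this]; positivity
    have := (convex_convexHull ℝ ({p, q, r} : Set (ℝ × ℝ))).sum_mem (t := Finset.univ)
      (w := ![det q r u / det p q r, det r p u / det p q r, det p q u / det p q r]) (z := ![p, q, r])
      (fun i _ => by fin_cases i <;> simp [k, h1, h2, h3])
      (by simp only [Fin.sum_univ_three, Matrix.cons_val]; field_simp; simp only [det]; ring)
      (fun i _ => by fin_cases i <;> exact subset_convexHull ℝ _ (by simp))
    convert this using 1
    ext <;> simp only [Fin.sum_univ_three, Matrix.cons_val, Prod.fst_add, Prod.snd_add,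
      Prod.smul_fst, Prod.smul_snd, smul_eq_mul] <;> field_simp <;> simp only [det] <;> ring

lemma line_null {p q : ℝ × ℝ} (h : p ≠ q) : volume {u : ℝ × ℝ | det p q u = 0} = 0 := by
  let s : AffineSubspace ℝ (ℝ × ℝ) := ⟨{u | det p q u = 0}, fun c {a b d} ha hb hd => by
    simp only [det, Set.mem_setOf_eq, vsub_eq_sub, vadd_eq_add, Prod.fst_add, Prod.snd_add,
      Prod.smul_fst, Prod.smul_snd, Prod.fst_sub, Prod.snd_sub, smul_eq_mul] at ha hb hd ⊢
    linear_combination c * ha - c * hb + hd⟩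
  refine Measure.addHaar_affineSubspace volume s fun e => h ?_
  have : (p.1 - (q.2 - p.2), p.2 + (q.1 - p.1)) ∈ s := e ▸ AffineSubspace.mem_top _ _ _
  have t : det p q (p.1 - (q.2 - p.2), p.2 + (q.1 - p.1)) = 0 := this
  simp only [det] at t
  ext <;> nlinarith [sq_nonneg (q.1 - p.1), sq_nonneg (q.2 - p.2)]

end Pool.Agent.H50.Pol
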