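import Pool.Agent.H50.Pol1

namespace Pool.Agent.H50.Pol

open MeasureTheory

variable {n : ℕ} {ι : Type}

def Ch (z : Fin n → ℝ × ℝ) (w : ℝ × ℝ) : Set (ℝ × ℝ) :=
  {u | ∀ i j, i ≠ j → 0 < det (z i) (z j) u * det (z i) (z j) w}

lemma ch_open (z : Fin n → ℝ × ℝ) (w : ℝ × ℝ) : IsOpen (Ch z w) := by
  have : Ch z w = ⋂ i, ⋂ j, ⋂ (_ : i ≠ j), {u | 0 < det (z i) (z j) u * det (z i) (z j) w} := by
    ext; simp [Ch]
  rw [this]
  exact isOpen_iInter_of_finite fun i => isOpen_iInter_of_finite fun j =>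
    isOpen_iInter_of_finite fun _ => isOpen_lt continuous_const (by unfold det; fun_prop)

lemma same {a b : ℝ} (h : 0 < a * b) (D : ℝ) : 0 ≤ a * D ↔ 0 ≤ b * D := by
  rcases mul_pos_iff.1 h with ⟨p, q⟩ | ⟨p, q⟩
  · rw [mul_nonneg_iff_of_pos_left p, mul_nonneg_iff_of_pos_left q]
  · constructor <;> intro k <;> by_contra hn <;> push Not at hn
    · have : 0 < D := by by_contra e; push Not at e; nlinarith
      nlinarith
    · have : 0 < D := by by_contra e; push Not at e; nlinarith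
      nlinarith

lemma ch_tri {z : Fin n → ℝ × ℝ} {w u : ℝ × ℝ} (hu : u ∈ Ch z w) {i j k : Fin n}
    (D : det (z i) (z j) (z k) ≠ 0) :
    u ∈ convexHull ℝ ({z i, z j, z k} : Set (ℝ × ℝ)) ↔
      w ∈ convexHull ℝ ({z i, z j, z k} : Set (ℝ × ℝ)) := by
  rw [mem_tri D, mem_tri D, same (hu j k _), same (hu k i _), same (hu i j _)] <;>
  · rintro rfl
    apply D; simp only [det]; ring

structure Cfg (z : Fin n → ℝ × ℝ) (w : ι → ℝ × ℝ) : Prop where
  inj : Function.Injective z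
  hw : ∀ c, w c ∈ Ch z (w c)
  hd : ∀ c c', c ≠ c' → Disjoint (Ch z (w c)) (Ch z (w c'))
  big : ∀ c, ∃ i j k, det (z i) (z j) (z k) ≠ 0 ∧
    w c ∈ convexHull ℝ ({z i, z j, z k} : Set (ℝ × ℝ))
  cov : ∀ i j k u, u ∈ convexHull ℝ ({z i, z j, z k} : Set (ℝ × ℝ)) →
    (∀ a b, a ≠ b → det (z a) (z b) u ≠ 0) → ∃ c, u ∈ Ch z (w c)

variable {z : Fin n → ℝ × ℝ} {w : ι → ℝ × ℝ}

lemma Cfg.fin (h : Cfg z w) (c : ι) : volume (Ch z (w c)) ≠ ⊤ := by
  obtain ⟨i, j, k, D, hb⟩ := h.big c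
  refine ne_top_of_le_ne_top (IsCompact.measure_lt_top
    (Set.Finite.isCompact_convexHull ℝ (s := ({z i, z j, z k} : Set (ℝ × ℝ)))
      (Set.toFinite _))).ne (measure_mono fun u hu => (ch_tri hu D).2 hb)

lemma Cfg.pos (h : Cfg z w) (c : ι) : 0 < volume.real (Ch z (w c)) :=
  ENNReal.toReal_pos ((ch_open z _).measure_pos volume ⟨_, h.hw c⟩).ne' (h.fin c)

noncomputable def nu (z : Fin n → ℝ × ℝ) (w : ι → ℝ × ℝ) (c : ι) : SM :=
  fun A => volume.real (A.1 ∩ Ch z (w c))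

open Classical in
lemma Cfg.tri [Fintype ι] (h : Cfg z w) {i j k : Fin n} (D : det (z i) (z j) (z k) ≠ 0) :
    triM (z i) (z j) (z k) = ∑ c, (if w c ∈ convexHull ℝ ({z i, z j, z k} : Set (ℝ × ℝ))
      then (1 : ℝ) else 0) • nu z w c := by
  ext A
  simp only [Finset.sum_apply, Pi.smul_apply, smul_eq_mul, ite_mul, one_mul, zero_mul, nu]
  rw [← Finset.sum_filter, ← measureReal_biUnion_finset _ _
    fun c _ => ne_top_of_le_ne_top (h.fin c) (measure_mono Set.inter_subset_right)]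
  · refine measureReal_congr ?_
    have : ∀ᵐ u : ℝ × ℝ, ∀ a b, a ≠ b → det (z a) (z b) u ≠ 0 := by
      simp only [ae_all_iff]
      intro a b e
      filter_upwards [measure_eq_zero_iff_ae_notMem.1 (line_null (h.inj.ne e))] with u hu using hu
    filter_upwards [this] with u hu
    refine propext ⟨fun a => ?_, fun a => ?_⟩
    · obtain ⟨c, hc⟩ := h.cov i j k u a.2 hu
      exact Set.mem_biUnion (x := c) (by simpa using (ch_tri hc D).1 a.2) ⟨a.1, hc⟩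
    · obtain ⟨c, c1, c2⟩ := Set.mem_iUnion₂.1 a
      exact ⟨c2.1, (ch_tri c2.2 D).2 (by simpa using c1)⟩
  · intro c _ c' _ e
    exact (h.hd c c' e).mono Set.inter_subset_right Set.inter_subset_right
  · exact fun c _ => A.2.inter (ch_open z _).measurableSet

def ev (z : Fin n → ℝ × ℝ) (w : ι → ℝ × ℝ) (c : ι) : SM →ₗ[ℝ] ℝ :=
  LinearMap.proj ⟨Ch z (w c), (ch_open z _).measurableSet⟩

lemma Cfg.ev_sum [Fintype ι] (h : Cfg z w) (δ : ι → ℝ) (c : ι) :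
    ev z w c (∑ a, δ a • nu z w a) = δ c * volume.real (Ch z (w c)) := by
  rw [map_sum, Finset.sum_eq_single c]
  · simp [ev, nu]
  · intro a _ e
    simp [ev, nu, Set.disjoint_iff_inter_eq_empty.1 (h.hd c a e.symm)]
  · simp

lemma Cfg.poly [Fintype ι] (h : Cfg z w) : Poly (Kpos z) (polyM z) (ev z w) := by
  refine fun μ => and_congr_right fun hμ => ⟨fun a c => a _, fun a A => ?_⟩
  have : polyM z ≤ LinearMap.range (Fintype.linearCombination ℝ (nu z w)) := by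
    refine Submodule.span_le.2 ?_
    rintro _ ⟨i, j, k, D, rfl⟩
    exact ⟨_, (h.tri D).symm⟩
  obtain ⟨δ, rfl⟩ := this hμ
  simp only [Fintype.linearCombination_apply] at a ⊢
  simp only [h.ev_sum] at a
  simp only [Finset.sum_apply, Pi.smul_apply, smul_eq_mul]
  exact Finset.sum_nonneg fun c _ =>
    mul_nonneg (nonneg_of_mul_nonneg_left (a c) (h.pos c)) measureReal_nonneg

/-! integer data -/
def cz (p : ℤ × ℤ) : ℝ × ℝ := (p.1, p.2)
def dz (p q r : ℤ × ℤ) : ℤ := (q.1 - p.1) * (r.2 - p.2) - (q.2 - p.2) * (r.1 - p.1)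
lemma det_cz (p q r : ℤ × ℤ) : det (cz p) (cz q) (cz r) = dz p q r := by simp [det, cz, dz]
def inz (p q r u : ℤ × ℤ) : Prop :=
  0 ≤ dz q r u * dz p q r ∧ 0 ≤ dz r p u * dz p q r ∧ 0 ≤ dz p q u * dz p q r
instance (p q r u : ℤ × ℤ) : Decidable (inz p q r u) := by unfold inz; infer_instance
lemma mem_cz {p q r : ℤ × ℤ} (D : dz p q r ≠ 0) (u : ℤ × ℤ) :
    cz u ∈ convexHull ℝ ({cz p, cz q, cz r} : Set (ℝ × ℝ)) ↔ inz p q r u := by
  rw [mem_tri (by rw [det_cz]; exact_mod_cast D)]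
  simp only [det_cz, inz]
  norm_cast
def gz (g : ℤ × ℤ × ℤ) (u : ℤ × ℤ) : ℤ := g.1 * u.1 + g.2.1 * u.2 + g.2.2
def gr (g : ℤ × ℤ × ℤ) (x y : ℝ) : ℝ := g.1 * x + g.2.1 * y + g.2.2

lemma cfg_of (Z : Fin 6 → ℤ × ℤ) (W : ι → ℤ × ℤ) (G : Fin 15 → ℤ × ℤ × ℤ)
    (T : Fin 6 → Fin 6 → Fin 15 × ℤ) (h1 : Function.Injective Z)
    (h2 : ∀ i j, i ≠ j → (T i j).2 ≠ 0 ∧ (Z i).2 - (Z j).2 = (T i j).2 * (G (T i j).1).1 ∧
      (Z j).1 - (Z i).1 = (T i j).2 * (G (T i j).1).2.1 ∧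
      (Z j).2 * (Z i).1 - (Z j).1 * (Z i).2 = (T i j).2 * (G (T i j).1).2.2)
    (h3 : ∀ k, ∃ i j, i ≠ j ∧ (T i j).1 = k)
    (h4 : ∀ c i j, i ≠ j → dz (Z i) (Z j) (W c) ≠ 0)
    (h5 : ∀ c c', c ≠ c' → ∃ i j, i ≠ j ∧ dz (Z i) (Z j) (W c) * dz (Z i) (Z j) (W c') < 0)
    (h6 : ∀ c, ∃ i j k, dz (Z i) (Z j) (Z k) ≠ 0 ∧ inz (Z i) (Z j) (Z k) (W c))
    (h7 : ∀ i (k : Fin 15), k.1 < 6 → 0 ≤ gz (G k) (Z i))
    (h8 : ∀ x y : ℝ, (∀ k : Fin 15, k.1 < 6 → 0 ≤ gr (G k) x y) → (∀ k, gr (G k) x y ≠ 0) →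
      ∃ c, ∀ k, 0 < gr (G k) x y * gz (G k) (W c)) :
    Cfg (fun i => cz (Z i)) (fun c => cz (W c)) := by
  have key : ∀ i j, i ≠ j → ∀ u : ℝ × ℝ,
      det (cz (Z i)) (cz (Z j)) u = (T i j).2 * gr (G (T i j).1) u.1 u.2 := by
    intro i j e u
    obtain ⟨-, a, b, c⟩ := h2 i j e
    have a' := congrArg (Int.cast : ℤ → ℝ) a
    have b' := congrArg (Int.cast : ℤ → ℝ) b
    have c' := congrArg (Int.cast : ℤ → ℝ) c
    push_cast at a' b' c'
    simp only [det, cz, gr]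
    linear_combination u.1 * a' + u.2 * b' + c'
  refine ⟨fun i j e => h1 ?_, fun c i j e => ?_, fun c c' e => ?_, fun c => ?_, ?_⟩
  · simp only [cz, Prod.mk.injEq, Int.cast_inj] at e
    exact Prod.ext e.1 e.2
  · rw [det_cz]; exact mul_self_pos.2 (by exact_mod_cast h4 c i j e)
  · obtain ⟨i, j, a, b⟩ := h5 c c' e
    rw [Set.disjoint_left]
    intro u p q
    have p' := p i j a
    have q' := q i j a
    rw [det_cz] at p' q'
    have b' : (dz (Z i) (Z j) (W c) : ℝ) * dz (Z i) (Z j) (W c') < 0 := by exact_mod_cast b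
    nlinarith [mul_pos p' q', mul_self_nonneg (det (cz (Z i)) (cz (Z j)) u)]
  · obtain ⟨i, j, k, a, b⟩ := h6 c
    exact ⟨i, j, k, by rw [det_cz]; exact_mod_cast a, (mem_cz a _).2 b⟩
  · intro i j k u hu hg
    have : u ∈ {u : ℝ × ℝ | ∀ k : Fin 15, k.1 < 6 → 0 ≤ gr (G k) u.1 u.2} := by
      refine convexHull_min ?_ ?_ hu
      · rintro _ (rfl | rfl | rfl) k hk <;> simp only [cz, gr] <;> exact_mod_cast h7 _ k hk
      · intro x hx y hy a b ha hb hab k hk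
        have p := mul_nonneg ha (hx k hk)
        have q := mul_nonneg hb (hy k hk)
        simp only [gr, Prod.fst_add, Prod.snd_add, Prod.smul_fst, Prod.smul_snd,
          smul_eq_mul] at p q ⊢
        have : b = 1 - a := by linarith
        subst this
        linarith
    obtain ⟨c, hc⟩ := h8 u.1 u.2 this fun k => by
      obtain ⟨a, b, e, rfl⟩ := h3 k
      intro h0
      exact hg a b e (by rw [key a b e, h0, mul_zero])
    refine ⟨c, fun a b e => ?_⟩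
    rw [key a b e, key a b e]
    have t : ((T a b).2 : ℝ) ≠ 0 := by exact_mod_cast (h2 a b e).1
    have := mul_pos (mul_self_pos.2 t) (hc (T a b).1)
    simp only [gr, gz, cz] at this ⊢
    push_cast at this
    nlinarith

end Pool.Agent.H50.Pol
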