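import Pool.Agent.H50.Pol2

namespace Pool.Agent.H50.Pol

open MeasureTheory

def Z1 : Fin 6 → ℤ × ℤ := ![(30, 0), (90, 0), (120, 60), (90, 120), (30, 120), (0, 60)]

def W1 : Fin 24 → ℤ × ℤ := ![(1, 59), (1, 61), (2, 59), (2, 61), (31, 1), (31, 3), (31, 40), (31, 61), (31, 81), (31, 119), (32, 1), (32, 119), (46, 30), (46, 89), (61, 20), (61, 59), (61, 61), (61, 100), (76, 29), (76, 90), (91, 3), (91, 41), (91, 61), (91, 80)]

def G1 : Fin 15 → ℤ × ℤ × ℤ := ![(0, 1, 0), (-2, 1, 180), (-2, -1, 300), (0, -1, 120), (2, -1, 60), (2, 1, -60), (-2, 1, 60), (-2, -1, 180), (0, -1, 60), (-2, 3, 60), (-1, 0, 90), (-2, -3, 420), (2, -3, 180), (1, 0, -30), (2, 3, -180)]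

def T1 : Fin 6 → Fin 6 → Fin 15 × ℤ :=
  ![![(0, 1), (0, 60), (9, 30), (6, 60), (13, -120), (5, -30)],
    ![(0, -60), (0, 1), (1, 30), (10, 120), (7, 60), (14, -30)],
    ![(9, -30), (1, -30), (0, 1), (2, 30), (11, 30), (8, 120)],
    ![(6, -60), (10, -120), (2, -30), (0, 1), (3, 60), (12, 30)],
    ![(13, 120), (7, -60), (11, -30), (3, -60), (0, 1), (4, 30)],
    ![(5, 30), (14, 30), (8, -120), (12, -30), (4, -30), (0, 1)]]

lemma cov1 (x y : ℝ) (hs : ∀ k : Fin 15, k.1 < 6 → 0 ≤ gr (G1 k) x y) (hg : ∀ k, gr (G1 k) x y ≠ 0) :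
    ∃ c, ∀ k, 0 < gr (G1 k) x y * gz (G1 k) (W1 c) := by
  have h0 : ((0 : ℤ) : ℝ) * x + ((1 : ℤ) : ℝ) * y + ((0 : ℤ) : ℝ) ≠ 0 := hg 0
  have h1 : ((-2 : ℤ) : ℝ) * x + ((1 : ℤ) : ℝ) * y + ((180 : ℤ) : ℝ) ≠ 0 := hg 1
  have h2 : ((-2 : ℤ) : ℝ) * x + ((-1 : ℤ) : ℝ) * y + ((300 : ℤ) : ℝ) ≠ 0 := hg 2
  have h3 : ((0 : ℤ) : ℝ) * x + ((-1 : ℤ) : ℝ) * y + ((120 : ℤ) : ℝ) ≠ 0 := hg 3
  have h4 : ((2 : ℤ) : ℝ) * x + ((-1 : ℤ) : ℝ) * y + ((60 : ℤ) : ℝ) ≠ 0 := hg 4
  have h5 : ((2 : ℤ) : ℝ) * x + ((1 : ℤ) : ℝ) * y + ((-60 : ℤ) : ℝ) ≠ 0 := hg 5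
  have h6 : ((-2 : ℤ) : ℝ) * x + ((1 : ℤ) : ℝ) * y + ((60 : ℤ) : ℝ) ≠ 0 := hg 6
  have h7 : ((-2 : ℤ) : ℝ) * x + ((-1 : ℤ) : ℝ) * y + ((180 : ℤ) : ℝ) ≠ 0 := hg 7
  have h8 : ((0 : ℤ) : ℝ) * x + ((-1 : ℤ) : ℝ) * y + ((60 : ℤ) : ℝ) ≠ 0 := hg 8
  have h9 : ((-2 : ℤ) : ℝ) * x + ((3 : ℤ) : ℝ) * y + ((60 : ℤ) : ℝ) ≠ 0 := hg 9
  have h10 : ((-1 : ℤ) : ℝ) * x + ((0 : ℤ) : ℝ) * y + ((90 : ℤ) : ℝ) ≠ 0 := hg 10
  have h11 : ((-2 : ℤ) : ℝ) * x + ((-3 : ℤ) : ℝ) * y + ((420 : ℤ) : ℝ) ≠ 0 := hg 11
  have h12 : ((2 : ℤ) : ℝ) * x + ((-3 : ℤ) : ℝ) * y + ((180 : ℤ) : ℝ) ≠ 0 := hg 12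
  have h13 : ((1 : ℤ) : ℝ) * x + ((0 : ℤ) : ℝ) * y + ((-30 : ℤ) : ℝ) ≠ 0 := hg 13
  have h14 : ((2 : ℤ) : ℝ) * x + ((3 : ℤ) : ℝ) * y + ((-180 : ℤ) : ℝ) ≠ 0 := hg 14
  have p0 : 0 < ((0 : ℤ) : ℝ) * x + ((1 : ℤ) : ℝ) * y + ((0 : ℤ) : ℝ) := lt_of_le_of_ne (hs 0 (by decide)) h0.symm
  have p1 : 0 < ((-2 : ℤ) : ℝ) * x + ((1 : ℤ) : ℝ) * y + ((180 : ℤ) : ℝ) := lt_of_le_of_ne (hs 1 (by decide)) h1.symm
  have p2 : 0 < ((-2 : ℤ) : ℝ) * x + ((-1 : ℤ) : ℝ) * y + ((300 : ℤ) : ℝ) := lt_of_le_of_ne (hs 2 (by decide)) h2.symm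
  have p3 : 0 < ((0 : ℤ) : ℝ) * x + ((-1 : ℤ) : ℝ) * y + ((120 : ℤ) : ℝ) := lt_of_le_of_ne (hs 3 (by decide)) h3.symm
  have p4 : 0 < ((2 : ℤ) : ℝ) * x + ((-1 : ℤ) : ℝ) * y + ((60 : ℤ) : ℝ) := lt_of_le_of_ne (hs 4 (by decide)) h4.symm
  have p5 : 0 < ((2 : ℤ) : ℝ) * x + ((1 : ℤ) : ℝ) * y + ((-60 : ℤ) : ℝ) := lt_of_le_of_ne (hs 5 (by decide)) h5.symm
  push_cast at h6 h7 h8 h9 h10 h11 h12 h13 h14 p0 p1 p2 p3 p4 p5
  rcases lt_or_gt_of_ne h6 with p6 | p6
  · rcases lt_or_gt_of_ne h7 with p7 | p7
    · rcases lt_or_gt_of_ne h8 with p8 | p8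
      · rcases lt_or_gt_of_ne h9 with p9 | p9
        · exfalso; linarith
        · rcases lt_or_gt_of_ne h10 with p10 | p10
          · rcases lt_or_gt_of_ne h11 with p11 | p11
            · rcases lt_or_gt_of_ne h12 with p12 | p12
              · exfalso; linarith
              · rcases lt_or_gt_of_ne h13 with p13 | p13
                · exfalso; linarith
                · rcases lt_or_gt_of_ne h14 with p14 | p14
                  · exfalso; linarith
                  · exact ⟨23, fun k => by rw [show W1 23 = (91, 80) from rfl]; fin_cases k <;> simp [gr, gz, G1] <;> linarith⟩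
            · rcases lt_or_gt_of_ne h12 with p12 | p12
              · exfalso; linarith
              · rcases lt_or_gt_of_ne h13 with p13 | p13
                · exfalso; linarith
                · rcases lt_or_gt_of_ne h14 with p14 | p14
                  · exfalso; linarith
                  · exact ⟨22, fun k => by rw [show W1 22 = (91, 61) from rfl]; fin_cases k <;> simp [gr, gz, G1] <;> linarith⟩
          · rcases lt_or_gt_of_ne h11 with p11 | p11
            · rcases lt_or_gt_of_ne h12 with p12 | p12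
              · exfalso; linarith
              · rcases lt_or_gt_of_ne h13 with p13 | p13
                · exfalso; linarith
                · rcases lt_or_gt_of_ne h14 with p14 | p14
                  · exfalso; linarith
                  · exact ⟨19, fun k => by rw [show W1 19 = (76, 90) from rfl]; fin_cases k <;> simp [gr, gz, G1] <;> linarith⟩
            · rcases lt_or_gt_of_ne h12 with p12 | p12
              · exfalso; linarith
              · rcases lt_or_gt_of_ne h13 with p13 | p13
                · exfalso; linarith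
                · rcases lt_or_gt_of_ne h14 with p14 | p14
                  · exfalso; linarith
                  · exact ⟨16, fun k => by rw [show W1 16 = (61, 61) from rfl]; fin_cases k <;> simp [gr, gz, G1] <;> linarith⟩
      · rcases lt_or_gt_of_ne h9 with p9 | p9
        · rcases lt_or_gt_of_ne h10 with p10 | p10
          · rcases lt_or_gt_of_ne h11 with p11 | p11
            · exfalso; linarith
            · rcases lt_or_gt_of_ne h12 with p12 | p12
              · exfalso; linarith
              · rcases lt_or_gt_of_ne h13 with p13 | p13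
                · exfalso; linarith
                · rcases lt_or_gt_of_ne h14 with p14 | p14
                  · exfalso; linarith
                  · exact ⟨20, fun k => by rw [show W1 20 = (91, 3) from rfl]; fin_cases k <;> simp [gr, gz, G1] <;> linarith⟩
          · rcases lt_or_gt_of_ne h11 with p11 | p11
            · exfalso; linarith
            · rcases lt_or_gt_of_ne h12 with p12 | p12
              · exfalso; linarith
              · rcases lt_or_gt_of_ne h13 with p13 | p13
                · exfalso; linarith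
                · rcases lt_or_gt_of_ne h14 with p14 | p14
                  · exfalso; linarith
                  · exact ⟨18, fun k => by rw [show W1 18 = (76, 29) from rfl]; fin_cases k <;> simp [gr, gz, G1] <;> linarith⟩
        · rcases lt_or_gt_of_ne h10 with p10 | p10
          · rcases lt_or_gt_of_ne h11 with p11 | p11
            · exfalso; linarith
            · rcases lt_or_gt_of_ne h12 with p12 | p12
              · exfalso; linarith
              · rcases lt_or_gt_of_ne h13 with p13 | p13
                · exfalso; linarith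
                · rcases lt_or_gt_of_ne h14 with p14 | p14
                  · exfalso; linarith
                  · exact ⟨21, fun k => by rw [show W1 21 = (91, 41) from rfl]; fin_cases k <;> simp [gr, gz, G1] <;> linarith⟩
          · rcases lt_or_gt_of_ne h11 with p11 | p11
            · exfalso; linarith
            · rcases lt_or_gt_of_ne h12 with p12 | p12
              · exfalso; linarith
              · rcases lt_or_gt_of_ne h13 with p13 | p13
                · exfalso; linarith
                · rcases lt_or_gt_of_ne h14 with p14 | p14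
                  · exfalso; linarith
                  · exact ⟨15, fun k => by rw [show W1 15 = (61, 59) from rfl]; fin_cases k <;> simp [gr, gz, G1] <;> linarith⟩
    · rcases lt_or_gt_of_ne h8 with p8 | p8
      · exfalso; linarith
      · rcases lt_or_gt_of_ne h9 with p9 | p9
        · rcases lt_or_gt_of_ne h10 with p10 | p10
          · exfalso; linarith
          · rcases lt_or_gt_of_ne h11 with p11 | p11
            · exfalso; linarith
            · rcases lt_or_gt_of_ne h12 with p12 | p12
              · exfalso; linarith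
              · rcases lt_or_gt_of_ne h13 with p13 | p13
                · exfalso; linarith
                · rcases lt_or_gt_of_ne h14 with p14 | p14
                  · exact ⟨10, fun k => by rw [show W1 10 = (32, 1) from rfl]; fin_cases k <;> simp [gr, gz, G1] <;> linarith⟩
                  · exact ⟨14, fun k => by rw [show W1 14 = (61, 20) from rfl]; fin_cases k <;> simp [gr, gz, G1] <;> linarith⟩
        · rcases lt_or_gt_of_ne h10 with p10 | p10
          · exfalso; linarith
          · rcases lt_or_gt_of_ne h11 with p11 | p11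
            · exfalso; linarith
            · rcases lt_or_gt_of_ne h12 with p12 | p12
              · exfalso; linarith
              · rcases lt_or_gt_of_ne h13 with p13 | p13
                · exfalso; linarith
                · rcases lt_or_gt_of_ne h14 with p14 | p14
                  · exact ⟨4, fun k => by rw [show W1 4 = (31, 1) from rfl]; fin_cases k <;> simp [gr, gz, G1] <;> linarith⟩
                  · exact ⟨12, fun k => by rw [show W1 12 = (46, 30) from rfl]; fin_cases k <;> simp [gr, gz, G1] <;> linarith⟩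
  · rcases lt_or_gt_of_ne h7 with p7 | p7
    · rcases lt_or_gt_of_ne h8 with p8 | p8
      · rcases lt_or_gt_of_ne h9 with p9 | p9
        · exfalso; linarith
        · rcases lt_or_gt_of_ne h10 with p10 | p10
          · exfalso; linarith
          · rcases lt_or_gt_of_ne h11 with p11 | p11
            · rcases lt_or_gt_of_ne h12 with p12 | p12
              · rcases lt_or_gt_of_ne h13 with p13 | p13
                · exfalso; linarith
                · rcases lt_or_gt_of_ne h14 with p14 | p14
                  · exfalso; linarith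
                  · exact ⟨11, fun k => by rw [show W1 11 = (32, 119) from rfl]; fin_cases k <;> simp [gr, gz, G1] <;> linarith⟩
              · rcases lt_or_gt_of_ne h13 with p13 | p13
                · exfalso; linarith
                · rcases lt_or_gt_of_ne h14 with p14 | p14
                  · exfalso; linarith
                  · exact ⟨17, fun k => by rw [show W1 17 = (61, 100) from rfl]; fin_cases k <;> simp [gr, gz, G1] <;> linarith⟩
            · rcases lt_or_gt_of_ne h12 with p12 | p12
              · rcases lt_or_gt_of_ne h13 with p13 | p13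
                · exfalso; linarith
                · rcases lt_or_gt_of_ne h14 with p14 | p14
                  · exfalso; linarith
                  · exact ⟨9, fun k => by rw [show W1 9 = (31, 119) from rfl]; fin_cases k <;> simp [gr, gz, G1] <;> linarith⟩
              · rcases lt_or_gt_of_ne h13 with p13 | p13
                · exfalso; linarith
                · rcases lt_or_gt_of_ne h14 with p14 | p14
                  · exfalso; linarith
                  · exact ⟨13, fun k => by rw [show W1 13 = (46, 89) from rfl]; fin_cases k <;> simp [gr, gz, G1] <;> linarith⟩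
      · exfalso; linarith
    · rcases lt_or_gt_of_ne h8 with p8 | p8
      · rcases lt_or_gt_of_ne h9 with p9 | p9
        · exfalso; linarith
        · rcases lt_or_gt_of_ne h10 with p10 | p10
          · exfalso; linarith
          · rcases lt_or_gt_of_ne h11 with p11 | p11
            · exfalso; linarith
            · rcases lt_or_gt_of_ne h12 with p12 | p12
              · rcases lt_or_gt_of_ne h13 with p13 | p13
                · rcases lt_or_gt_of_ne h14 with p14 | p14
                  · exfalso; linarith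
                  · exact ⟨1, fun k => by rw [show W1 1 = (1, 61) from rfl]; fin_cases k <;> simp [gr, gz, G1] <;> linarith⟩
                · rcases lt_or_gt_of_ne h14 with p14 | p14
                  · exfalso; linarith
                  · exact ⟨8, fun k => by rw [show W1 8 = (31, 81) from rfl]; fin_cases k <;> simp [gr, gz, G1] <;> linarith⟩
              · rcases lt_or_gt_of_ne h13 with p13 | p13
                · rcases lt_or_gt_of_ne h14 with p14 | p14
                  · exfalso; linarith
                  · exact ⟨3, fun k => by rw [show W1 3 = (2, 61) from rfl]; fin_cases k <;> simp [gr, gz, G1] <;> linarith⟩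
                · rcases lt_or_gt_of_ne h14 with p14 | p14
                  · exfalso; linarith
                  · exact ⟨7, fun k => by rw [show W1 7 = (31, 61) from rfl]; fin_cases k <;> simp [gr, gz, G1] <;> linarith⟩
      · rcases lt_or_gt_of_ne h9 with p9 | p9
        · exfalso; linarith
        · rcases lt_or_gt_of_ne h10 with p10 | p10
          · exfalso; linarith
          · rcases lt_or_gt_of_ne h11 with p11 | p11
            · exfalso; linarith
            · rcases lt_or_gt_of_ne h12 with p12 | p12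
              · exfalso; linarith
              · rcases lt_or_gt_of_ne h13 with p13 | p13
                · rcases lt_or_gt_of_ne h14 with p14 | p14
                  · exact ⟨0, fun k => by rw [show W1 0 = (1, 59) from rfl]; fin_cases k <;> simp [gr, gz, G1] <;> linarith⟩
                  · exact ⟨2, fun k => by rw [show W1 2 = (2, 59) from rfl]; fin_cases k <;> simp [gr, gz, G1] <;> linarith⟩
                · rcases lt_or_gt_of_ne h14 with p14 | p14
                  · exact ⟨5, fun k => by rw [show W1 5 = (31, 3) from rfl]; fin_cases k <;> simp [gr, gz, G1] <;> linarith⟩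
                  · exact ⟨6, fun k => by rw [show W1 6 = (31, 40) from rfl]; fin_cases k <;> simp [gr, gz, G1] <;> linarith⟩

lemma cfg1 : Cfg (fun i => cz (Z1 i)) (fun c => cz (W1 c)) :=
  cfg_of Z1 W1 G1 T1 (by decide) (by decide +kernel) (by decide +kernel) (by decide +kernel) (by decide +kernel)
    (by decide +kernel) (by decide +kernel) cov1

def Z2 : Fin 6 → ℤ × ℤ := ![(10, 0), (90, 0), (120, 60), (90, 120), (30, 120), (0, 60)]

def W2 : Fin 25 → ℤ × ℤ := ![(1, 55), (1, 61), (2, 59), (2, 61), (11, 1), (11, 2), (12, 1), (19, 48), (21, 61), (23, 76), (31, 119), (32, 119), (35, 37), (46, 89), (51, 61), (55, 24), (57, 67), (61, 59), (61, 100), (73, 92), (74, 33), (91, 3), (91, 45), (91, 61), (91, 80)]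

def G2 : Fin 15 → ℤ × ℤ × ℤ := ![(0, 1, 0), (-2, 1, 180), (-2, -1, 300), (0, -1, 120), (2, -1, 60), (6, 1, -60), (-3, 2, 30), (-2, -1, 180), (0, -1, 60), (-6, 11, 60), (-1, 0, 90), (-2, -3, 420), (2, -3, 180), (6, -1, -60), (2, 3, -180)]

def T2 : Fin 6 → Fin 6 → Fin 15 × ℤ :=
  ![![(0, 1), (0, 80), (9, 10), (6, 40), (13, -20), (5, -10)],
    ![(0, -80), (0, 1), (1, 30), (10, 120), (7, 60), (14, -30)],
    ![(9, -10), (1, -30), (0, 1), (2, 30), (11, 30), (8, 120)],
    ![(6, -40), (10, -120), (2, -30), (0, 1), (3, 60), (12, 30)],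
    ![(13, 20), (7, -60), (11, -30), (3, -60), (0, 1), (4, 30)],
    ![(5, 10), (14, 30), (8, -120), (12, -30), (4, -30), (0, 1)]]

lemma cov2 (x y : ℝ) (hs : ∀ k : Fin 15, k.1 < 6 → 0 ≤ gr (G2 k) x y) (hg : ∀ k, gr (G2 k) x y ≠ 0) :
    ∃ c, ∀ k, 0 < gr (G2 k) x y * gz (G2 k) (W2 c) := by
  have h0 : ((0 : ℤ) : ℝ) * x + ((1 : ℤ) : ℝ) * y + ((0 : ℤ) : ℝ) ≠ 0 := hg 0
  have h1 : ((-2 : ℤ) : ℝ) * x + ((1 : ℤ) : ℝ) * y + ((180 : ℤ) : ℝ) ≠ 0 := hg 1
  have h2 : ((-2 : ℤ) : ℝ) * x + ((-1 : ℤ) : ℝ) * y + ((300 : ℤ) : ℝ) ≠ 0 := hg 2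
  have h3 : ((0 : ℤ) : ℝ) * x + ((-1 : ℤ) : ℝ) * y + ((120 : ℤ) : ℝ) ≠ 0 := hg 3
  have h4 : ((2 : ℤ) : ℝ) * x + ((-1 : ℤ) : ℝ) * y + ((60 : ℤ) : ℝ) ≠ 0 := hg 4
  have h5 : ((6 : ℤ) : ℝ) * x + ((1 : ℤ) : ℝ) * y + ((-60 : ℤ) : ℝ) ≠ 0 := hg 5
  have h6 : ((-3 : ℤ) : ℝ) * x + ((2 : ℤ) : ℝ) * y + ((30 : ℤ) : ℝ) ≠ 0 := hg 6
  have h7 : ((-2 : ℤ) : ℝ) * x + ((-1 : ℤ) : ℝ) * y + ((180 : ℤ) : ℝ) ≠ 0 := hg 7
  have h8 : ((0 : ℤ) : ℝ) * x + ((-1 : ℤ) : ℝ) * y + ((60 : ℤ) : ℝ) ≠ 0 := hg 8
  have h9 : ((-6 : ℤ) : ℝ) * x + ((11 : ℤ) : ℝ) * y + ((60 : ℤ) : ℝ) ≠ 0 := hg 9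
  have h10 : ((-1 : ℤ) : ℝ) * x + ((0 : ℤ) : ℝ) * y + ((90 : ℤ) : ℝ) ≠ 0 := hg 10
  have h11 : ((-2 : ℤ) : ℝ) * x + ((-3 : ℤ) : ℝ) * y + ((420 : ℤ) : ℝ) ≠ 0 := hg 11
  have h12 : ((2 : ℤ) : ℝ) * x + ((-3 : ℤ) : ℝ) * y + ((180 : ℤ) : ℝ) ≠ 0 := hg 12
  have h13 : ((6 : ℤ) : ℝ) * x + ((-1 : ℤ) : ℝ) * y + ((-60 : ℤ) : ℝ) ≠ 0 := hg 13
  have h14 : ((2 : ℤ) : ℝ) * x + ((3 : ℤ) : ℝ) * y + ((-180 : ℤ) : ℝ) ≠ 0 := hg 14
  have p0 : 0 < ((0 : ℤ) : ℝ) * x + ((1 : ℤ) : ℝ) * y + ((0 : ℤ) : ℝ) := lt_of_le_of_ne (hs 0 (by decide)) h0.symm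
  have p1 : 0 < ((-2 : ℤ) : ℝ) * x + ((1 : ℤ) : ℝ) * y + ((180 : ℤ) : ℝ) := lt_of_le_of_ne (hs 1 (by decide)) h1.symm
  have p2 : 0 < ((-2 : ℤ) : ℝ) * x + ((-1 : ℤ) : ℝ) * y + ((300 : ℤ) : ℝ) := lt_of_le_of_ne (hs 2 (by decide)) h2.symm
  have p3 : 0 < ((0 : ℤ) : ℝ) * x + ((-1 : ℤ) : ℝ) * y + ((120 : ℤ) : ℝ) := lt_of_le_of_ne (hs 3 (by decide)) h3.symm
  have p4 : 0 < ((2 : ℤ) : ℝ) * x + ((-1 : ℤ) : ℝ) * y + ((60 : ℤ) : ℝ) := lt_of_le_of_ne (hs 4 (by decide)) h4.symm
  have p5 : 0 < ((6 : ℤ) : ℝ) * x + ((1 : ℤ) : ℝ) * y + ((-60 : ℤ) : ℝ) := lt_of_le_of_ne (hs 5 (by decide)) h5.symm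
  push_cast at h6 h7 h8 h9 h10 h11 h12 h13 h14 p0 p1 p2 p3 p4 p5
  rcases lt_or_gt_of_ne h6 with p6 | p6
  · rcases lt_or_gt_of_ne h7 with p7 | p7
    · rcases lt_or_gt_of_ne h8 with p8 | p8
      · rcases lt_or_gt_of_ne h9 with p9 | p9
        · exfalso; linarith
        · rcases lt_or_gt_of_ne h10 with p10 | p10
          · rcases lt_or_gt_of_ne h11 with p11 | p11
            · rcases lt_or_gt_of_ne h12 with p12 | p12
              · exfalso; linarith
              · rcases lt_or_gt_of_ne h13 with p13 | p13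
                · exfalso; linarith
                · rcases lt_or_gt_of_ne h14 with p14 | p14
                  · exfalso; linarith
                  · exact ⟨24, fun k => by rw [show W2 24 = (91, 80) from rfl]; fin_cases k <;> simp [gr, gz, G2] <;> linarith⟩
            · rcases lt_or_gt_of_ne h12 with p12 | p12
              · exfalso; linarith
              · rcases lt_or_gt_of_ne h13 with p13 | p13
                · exfalso; linarith
                · rcases lt_or_gt_of_ne h14 with p14 | p14
                  · exfalso; linarith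
                  · exact ⟨23, fun k => by rw [show W2 23 = (91, 61) from rfl]; fin_cases k <;> simp [gr, gz, G2] <;> linarith⟩
          · rcases lt_or_gt_of_ne h11 with p11 | p11
            · rcases lt_or_gt_of_ne h12 with p12 | p12
              · exfalso; linarith
              · rcases lt_or_gt_of_ne h13 with p13 | p13
                · exfalso; linarith
                · rcases lt_or_gt_of_ne h14 with p14 | p14
                  · exfalso; linarith
                  · exact ⟨19, fun k => by rw [show W2 19 = (73, 92) from rfl]; fin_cases k <;> simp [gr, gz, G2] <;> linarith⟩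
            · rcases lt_or_gt_of_ne h12 with p12 | p12
              · exfalso; linarith
              · rcases lt_or_gt_of_ne h13 with p13 | p13
                · exfalso; linarith
                · rcases lt_or_gt_of_ne h14 with p14 | p14
                  · exfalso; linarith
                  · exact ⟨16, fun k => by rw [show W2 16 = (57, 67) from rfl]; fin_cases k <;> simp [gr, gz, G2] <;> linarith⟩
      · rcases lt_or_gt_of_ne h9 with p9 | p9
        · rcases lt_or_gt_of_ne h10 with p10 | p10
          · rcases lt_or_gt_of_ne h11 with p11 | p11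
            · exfalso; linarith
            · rcases lt_or_gt_of_ne h12 with p12 | p12
              · exfalso; linarith
              · rcases lt_or_gt_of_ne h13 with p13 | p13
                · exfalso; linarith
                · rcases lt_or_gt_of_ne h14 with p14 | p14
                  · exfalso; linarith
                  · exact ⟨21, fun k => by rw [show W2 21 = (91, 3) from rfl]; fin_cases k <;> simp [gr, gz, G2] <;> linarith⟩
          · rcases lt_or_gt_of_ne h11 with p11 | p11
            · exfalso; linarith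
            · rcases lt_or_gt_of_ne h12 with p12 | p12
              · exfalso; linarith
              · rcases lt_or_gt_of_ne h13 with p13 | p13
                · exfalso; linarith
                · rcases lt_or_gt_of_ne h14 with p14 | p14
                  · exfalso; linarith
                  · exact ⟨20, fun k => by rw [show W2 20 = (74, 33) from rfl]; fin_cases k <;> simp [gr, gz, G2] <;> linarith⟩
        · rcases lt_or_gt_of_ne h10 with p10 | p10
          · rcases lt_or_gt_of_ne h11 with p11 | p11
            · exfalso; linarith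
            · rcases lt_or_gt_of_ne h12 with p12 | p12
              · exfalso; linarith
              · rcases lt_or_gt_of_ne h13 with p13 | p13
                · exfalso; linarith
                · rcases lt_or_gt_of_ne h14 with p14 | p14
                  · exfalso; linarith
                  · exact ⟨22, fun k => by rw [show W2 22 = (91, 45) from rfl]; fin_cases k <;> simp [gr, gz, G2] <;> linarith⟩
          · rcases lt_or_gt_of_ne h11 with p11 | p11
            · exfalso; linarith
            · rcases lt_or_gt_of_ne h12 with p12 | p12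
              · exfalso; linarith
              · rcases lt_or_gt_of_ne h13 with p13 | p13
                · exfalso; linarith
                · rcases lt_or_gt_of_ne h14 with p14 | p14
                  · exfalso; linarith
                  · exact ⟨17, fun k => by rw [show W2 17 = (61, 59) from rfl]; fin_cases k <;> simp [gr, gz, G2] <;> linarith⟩
    · rcases lt_or_gt_of_ne h8 with p8 | p8
      · rcases lt_or_gt_of_ne h9 with p9 | p9
        · exfalso; linarith
        · rcases lt_or_gt_of_ne h10 with p10 | p10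
          · exfalso; linarith
          · rcases lt_or_gt_of_ne h11 with p11 | p11
            · exfalso; linarith
            · rcases lt_or_gt_of_ne h12 with p12 | p12
              · exfalso; linarith
              · rcases lt_or_gt_of_ne h13 with p13 | p13
                · exfalso; linarith
                · rcases lt_or_gt_of_ne h14 with p14 | p14
                  · exfalso; linarith
                  · exact ⟨14, fun k => by rw [show W2 14 = (51, 61) from rfl]; fin_cases k <;> simp [gr, gz, G2] <;> linarith⟩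
      · rcases lt_or_gt_of_ne h9 with p9 | p9
        · rcases lt_or_gt_of_ne h10 with p10 | p10
          · exfalso; linarith
          · rcases lt_or_gt_of_ne h11 with p11 | p11
            · exfalso; linarith
            · rcases lt_or_gt_of_ne h12 with p12 | p12
              · exfalso; linarith
              · rcases lt_or_gt_of_ne h13 with p13 | p13
                · exfalso; linarith
                · rcases lt_or_gt_of_ne h14 with p14 | p14
                  · exact ⟨6, fun k => by rw [show W2 6 = (12, 1) from rfl]; fin_cases k <;> simp [gr, gz, G2] <;> linarith⟩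
                  · exact ⟨15, fun k => by rw [show W2 15 = (55, 24) from rfl]; fin_cases k <;> simp [gr, gz, G2] <;> linarith⟩
        · rcases lt_or_gt_of_ne h10 with p10 | p10
          · exfalso; linarith
          · rcases lt_or_gt_of_ne h11 with p11 | p11
            · exfalso; linarith
            · rcases lt_or_gt_of_ne h12 with p12 | p12
              · exfalso; linarith
              · rcases lt_or_gt_of_ne h13 with p13 | p13
                · exfalso; linarith
                · rcases lt_or_gt_of_ne h14 with p14 | p14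
                  · exact ⟨4, fun k => by rw [show W2 4 = (11, 1) from rfl]; fin_cases k <;> simp [gr, gz, G2] <;> linarith⟩
                  · exact ⟨12, fun k => by rw [show W2 12 = (35, 37) from rfl]; fin_cases k <;> simp [gr, gz, G2] <;> linarith⟩
  · rcases lt_or_gt_of_ne h7 with p7 | p7
    · rcases lt_or_gt_of_ne h8 with p8 | p8
      · rcases lt_or_gt_of_ne h9 with p9 | p9
        · exfalso; linarith
        · rcases lt_or_gt_of_ne h10 with p10 | p10
          · exfalso; linarith
          · rcases lt_or_gt_of_ne h11 with p11 | p11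
            · rcases lt_or_gt_of_ne h12 with p12 | p12
              · rcases lt_or_gt_of_ne h13 with p13 | p13
                · exfalso; linarith
                · rcases lt_or_gt_of_ne h14 with p14 | p14
                  · exfalso; linarith
                  · exact ⟨11, fun k => by rw [show W2 11 = (32, 119) from rfl]; fin_cases k <;> simp [gr, gz, G2] <;> linarith⟩
              · rcases lt_or_gt_of_ne h13 with p13 | p13
                · exfalso; linarith
                · rcases lt_or_gt_of_ne h14 with p14 | p14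
                  · exfalso; linarith
                  · exact ⟨18, fun k => by rw [show W2 18 = (61, 100) from rfl]; fin_cases k <;> simp [gr, gz, G2] <;> linarith⟩
            · rcases lt_or_gt_of_ne h12 with p12 | p12
              · rcases lt_or_gt_of_ne h13 with p13 | p13
                · exfalso; linarith
                · rcases lt_or_gt_of_ne h14 with p14 | p14
                  · exfalso; linarith
                  · exact ⟨10, fun k => by rw [show W2 10 = (31, 119) from rfl]; fin_cases k <;> simp [gr, gz, G2] <;> linarith⟩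
              · rcases lt_or_gt_of_ne h13 with p13 | p13
                · exfalso; linarith
                · rcases lt_or_gt_of_ne h14 with p14 | p14
                  · exfalso; linarith
                  · exact ⟨13, fun k => by rw [show W2 13 = (46, 89) from rfl]; fin_cases k <;> simp [gr, gz, G2] <;> linarith⟩
      · exfalso; linarith
    · rcases lt_or_gt_of_ne h8 with p8 | p8
      · rcases lt_or_gt_of_ne h9 with p9 | p9
        · exfalso; linarith
        · rcases lt_or_gt_of_ne h10 with p10 | p10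
          · exfalso; linarith
          · rcases lt_or_gt_of_ne h11 with p11 | p11
            · exfalso; linarith
            · rcases lt_or_gt_of_ne h12 with p12 | p12
              · rcases lt_or_gt_of_ne h13 with p13 | p13
                · rcases lt_or_gt_of_ne h14 with p14 | p14
                  · exfalso; linarith
                  · exact ⟨1, fun k => by rw [show W2 1 = (1, 61) from rfl]; fin_cases k <;> simp [gr, gz, G2] <;> linarith⟩
                · rcases lt_or_gt_of_ne h14 with p14 | p14
                  · exfalso; linarith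
                  · exact ⟨9, fun k => by rw [show W2 9 = (23, 76) from rfl]; fin_cases k <;> simp [gr, gz, G2] <;> linarith⟩
              · rcases lt_or_gt_of_ne h13 with p13 | p13
                · rcases lt_or_gt_of_ne h14 with p14 | p14
                  · exfalso; linarith
                  · exact ⟨3, fun k => by rw [show W2 3 = (2, 61) from rfl]; fin_cases k <;> simp [gr, gz, G2] <;> linarith⟩
                · rcases lt_or_gt_of_ne h14 with p14 | p14
                  · exfalso; linarith
                  · exact ⟨8, fun k => by rw [show W2 8 = (21, 61) from rfl]; fin_cases k <;> simp [gr, gz, G2] <;> linarith⟩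
      · rcases lt_or_gt_of_ne h9 with p9 | p9
        · exfalso; linarith
        · rcases lt_or_gt_of_ne h10 with p10 | p10
          · exfalso; linarith
          · rcases lt_or_gt_of_ne h11 with p11 | p11
            · exfalso; linarith
            · rcases lt_or_gt_of_ne h12 with p12 | p12
              · exfalso; linarith
              · rcases lt_or_gt_of_ne h13 with p13 | p13
                · rcases lt_or_gt_of_ne h14 with p14 | p14
                  · exact ⟨0, fun k => by rw [show W2 0 = (1, 55) from rfl]; fin_cases k <;> simp [gr, gz, G2] <;> linarith⟩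
                  · exact ⟨2, fun k => by rw [show W2 2 = (2, 59) from rfl]; fin_cases k <;> simp [gr, gz, G2] <;> linarith⟩
                · rcases lt_or_gt_of_ne h14 with p14 | p14
                  · exact ⟨5, fun k => by rw [show W2 5 = (11, 2) from rfl]; fin_cases k <;> simp [gr, gz, G2] <;> linarith⟩
                  · exact ⟨7, fun k => by rw [show W2 7 = (19, 48) from rfl]; fin_cases k <;> simp [gr, gz, G2] <;> linarith⟩

lemma cfg2 : Cfg (fun i => cz (Z2 i)) (fun c => cz (W2 c)) :=
  cfg_of Z2 W2 G2 T2 (by decide) (by decide +kernel) (by decide +kernel) (by decide +kernel) (by decide +kernel)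
    (by decide +kernel) (by decide +kernel) cov2

def Tr : Fin 10 → Fin 6 × Fin 6 × Fin 6 := ![(0, 1, 2), (0, 1, 3), (0, 1, 4), (0, 1, 5), (0, 2, 3), (0, 2, 4), (0, 2, 5), (0, 3, 4), (0, 3, 5), (0, 4, 5)]

def Co : Fin 25 → Fin 10 → ℤ :=
  ![![12, 8, 5, -1, 14, 6, -1, 14, -8, 10],
    ![6, -1, -1, 2, 7, 7, -1, 5, 2, 0],
    ![10, 8, -4, 8, 4, 5, -7, 13, 3, 4],
    ![2, 0, 2, 8, 4, 3, 2, 6, -5, 5],
    ![18, 2, -5, -6, 18, -1, -8, 18, 4, 13],
    ![35, -3, -3, -6, 36, -7, -6, 30, -8, 42],
    ![11, -6, 0, -5, 22, 6, 7, 19, -2, 10],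
    ![23, 5, -7, 1, 17, -2, -7, 22, -6, 15],
    ![15, 7, -1, 3, 8, -1, 6, 10, -8, 14],
    ![16, 7, -4, -5, 19, -7, 5, 11, 4, 13],
    ![9, 3, 5, 4, 23, -8, -5, 8, 8, 7],
    ![3, 4, 5, 4, 1, 2, 6, 0, 7, 2],
    ![12, 2, -5, 4, 10, -1, -6, 16, 3, 17],
    ![27, -2, 5, -8, 18, -8, 4, 15, -7, 16],
    ![21, -5, -4, 4, 12, -3, 8, 14, 5, 15],
    ![3, -2, -1, 4, 19, 3, 3, 17, 0, 3],
    ![15, -6, 7, -1, 14, -8, 5, 9, 4, 13],
    ![7, -6, 2, 6, 8, 0, -2, 20, 3, 13],
    ![13, -2, 8, -2, 11, 2, 0, 6, -6, 20],
    ![23, -8, 4, 5, 8, 6, 0, 15, -5, 18],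
    ![8, -8, 1, 4, 15, 5, -2, 13, -5, 13],
    ![0, 6, 6, 3, 6, 4, 2, 12, -5, 9],
    ![23, 3, 7, -1, 13, -7, -6, 15, -3, 16],
    ![14, 7, -1, 0, 3, -3, 8, 9, 5, 10],
    ![8, 7, 8, 4, 0, 7, -1, 11, 5, 4]]

def Fan : Fin 10 → ℤ := ![1, 0, 0, 0, 1, 0, 0, 1, 0, 1]

def sc (Z : Fin 6 → ℤ × ℤ) (co : Fin 10 → ℤ) (u : ℤ × ℤ) : ℤ :=
  ∑ t, co t * if inz (Z (Tr t).1) (Z (Tr t).2.1) (Z (Tr t).2.2) u then 1 else 0

lemma sc_ok : ∀ i j, (i = j → sc Z2 (Co i) (W2 j) = 0) ∧ (i ≠ j → 0 < sc Z2 (Co i) (W2 j)) := by
  decide +kernel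

lemma fan_ok : ∀ j, 0 < sc Z1 Fan (W1 j) := by decide +kernel

lemma gen1 : ∀ i j k, i ≠ j → j ≠ k → i ≠ k → dz (Z1 i) (Z1 j) (Z1 k) ≠ 0 := by decide +kernel
lemma gen2 : ∀ i j k, i ≠ j → j ≠ k → i ≠ k → dz (Z2 i) (Z2 j) (Z2 k) ≠ 0 := by decide +kernel
lemma tr1 : ∀ t, dz (Z1 (Tr t).1) (Z1 (Tr t).2.1) (Z1 (Tr t).2.2) ≠ 0 := by decide +kernel
lemma tr2 : ∀ t, dz (Z2 (Tr t).1) (Z2 (Tr t).2.1) (Z2 (Tr t).2.2) ≠ 0 := by decide +kernel

noncomputable def X (Z : Fin 6 → ℤ × ℤ) (co : Fin 10 → ℤ) : SM :=
  ∑ t, (co t : ℝ) • triM (cz (Z (Tr t).1)) (cz (Z (Tr t).2.1)) (cz (Z (Tr t).2.2))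

lemma X_mem {Z : Fin 6 → ℤ × ℤ} (h : ∀ t, dz (Z (Tr t).1) (Z (Tr t).2.1) (Z (Tr t).2.2) ≠ 0)
    (co : Fin 10 → ℤ) : X Z co ∈ polyM (fun i => cz (Z i)) :=
  Submodule.sum_mem _ fun t _ => Submodule.smul_mem _ _ (Submodule.subset_span
    ⟨_, _, _, by rw [det_cz]; exact_mod_cast h t, rfl⟩)

lemma X_ev {ι : Type} [Fintype ι] {Z : Fin 6 → ℤ × ℤ} {W : ι → ℤ × ℤ}
    (hc : Cfg (fun i => cz (Z i)) (fun c => cz (W c)))
    (h : ∀ t, dz (Z (Tr t).1) (Z (Tr t).2.1) (Z (Tr t).2.2) ≠ 0) (co : Fin 10 → ℤ) (j : ι) :
    ev (fun i => cz (Z i)) (fun c => cz (W c)) j (X Z co) =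
    sc Z co (W j) * volume.real (Ch (fun i => cz (Z i)) (cz (W j))) := by
  unfold X sc
  rw [map_sum]
  push_cast
  rw [Finset.sum_mul]
  refine Finset.sum_congr rfl fun t _ => ?_
  have := hc.tri (i := (Tr t).1) (j := (Tr t).2.1) (k := (Tr t).2.2)
    (by rw [det_cz]; exact_mod_cast h t)
  rw [map_smul, this, hc.ev_sum, smul_eq_mul, mul_assoc]
  simp only [mem_cz (h t)]

theorem no_iso : IsEmpty (Face (Kpos fun i => cz (Z1 i)) ≃o Face (Kpos fun i => cz (Z2 i))) := by
  refine ⟨fun e => ?_⟩
  have hy : ∀ k, 0 < ev (fun i => cz (Z1 i)) (fun c => cz (W1 c)) k (X Z1 Fan) := fun k => by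
    rw [X_ev cfg1 tr1]; exact mul_pos (by exact_mod_cast fan_ok k) (cfg1.pos k)
  have h0 : ∀ i, ev (fun i => cz (Z2 i)) (fun c => cz (W2 c)) i (X Z2 (Co i)) = 0 := fun i => by
    rw [X_ev cfg2 tr2, (sc_ok i i).1 rfl]; simp
  have h1 : ∀ i j, i ≠ j → 0 < ev (fun i => cz (Z2 i)) (fun c => cz (W2 c)) j (X Z2 (Co i)) :=
    fun i j h => by
      rw [X_ev cfg2 tr2]; exact mul_pos (by exact_mod_cast (sc_ok i j).2 h) (cfg2.pos j)
  have := card_le cfg1.poly cfg2.poly _
    ((cfg1.poly _).2 ⟨X_mem tr1 _, fun k => (hy k).le⟩) hy (fun i => X Z2 (Co i))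
    (fun i => (cfg2.poly _).2 ⟨X_mem tr2 _, fun j => by
      by_cases h : i = j
      · rw [← h, h0]
      · exact (h1 i j h).le⟩) h0 h1 e
  simp at this

lemma chi : ∀ i j k, SignType.sign (dz (Z1 i) (Z1 j) (Z1 k)) =
    SignType.sign (dz (Z2 i) (Z2 j) (Z2 k)) := by
  decide +kernel

end Pool.Agent.H50.Pol
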