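import Mathlib

namespace Pool.Agent.H50.Potts

noncomputable def padd (p : List ℕ) : List ℕ → List ℕ :=
  List.rec (motive := fun _ => List ℕ → List ℕ) (fun q => q)
    (fun a p ih q => List.casesOn (motive := fun _ => List ℕ) q (a :: p)
      (fun b q => Nat.add a b :: ih q)) p

noncomputable def psm (c : ℕ) (p : List ℕ) : List ℕ :=
  List.rec (motive := fun _ => List ℕ) [] (fun a _ ih => Nat.mul c a :: ih) p

noncomputable def pmul (p q : List ℕ) : List ℕ :=
  List.rec (motive := fun _ => List ℕ) [] (fun a _ ih => padd (psm a q) (0 :: ih)) p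

noncomputable def allz (p : List ℕ) : Bool :=
  List.rec (motive := fun _ => Bool) true (fun a _ ih => Nat.beq a 0 && ih) p

noncomputable def ple (p : List ℕ) : List ℕ → Bool :=
  List.rec (motive := fun _ => List ℕ → Bool) (fun _ => true)
    (fun a p ih q => List.casesOn (motive := fun _ => Bool) q (Nat.beq a 0 && allz p)
      (fun b q => Nat.ble a b && ih q)) p

noncomputable def peq (p q : List ℕ) : Bool := ple p q && ple q p

abbrev Tb := List ℕ → List ℕ

def fN {β : Type} (n : ℕ) (k : ℕ → β) : β :=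
  match n with
  | 0 => k 0
  | 1 => k 1
  | 2 => k 2
  | 3 => k 3
  | 4 => k 4
  | 5 => k 5
  | n + 6 => k (n + 6)

def idL : List ℕ → List ℕ
  | [] => []
  | a :: l => a :: l

def look (T : Tb) : List ℕ → List ℕ
  | [a, b, c, d, e] => fN a fun a => fN b fun b => fN c fun c => fN d fun d => fN e fun e =>
      idL (T [a, b, c, d, e])
  | l => T l

def gL (a b c d e x : ℕ) : ℕ :=
  cond (Nat.beq x 0) 0 (cond (Nat.beq a x) 1 (cond (Nat.beq b x) 2 (cond (Nat.beq c x) 3
    (cond (Nat.beq d x) 4 (cond (Nat.beq e x) 5 7)))))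

def keyL : List ℕ → List ℕ
  | [a, b, c, d, e] => [gL a b c d e a, gL a b c d e b, gL a b c d e c, gL a b c d e d,
      gL a b c d e e]
  | l => l

def canon : List ℕ → Bool
  | [a, b, c, d, e] => Nat.beq (gL a b c d e a) a && Nat.beq (gL a b c d e b) b &&
      Nat.beq (gL a b c d e c) c && Nat.beq (gL a b c d e d) d && Nat.beq (gL a b c d e e) e
  | _ => false

def allL (P : List ℕ → Bool) : Bool :=
  [0, 1].all fun a => [0, 1, 2].all fun b => [0, 1, 2, 3].all fun c => [0, 1, 2, 3, 4].all fun d =>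
    [0, 1, 2, 3, 4, 5].all fun e => cond (canon [a, b, c, d, e]) (P [a, b, c, d, e]) true

def nb (l : List ℕ) (v : ℕ) (d : ℕ) : List ℕ := keyL (l.set v d)

def inL (x : ℕ) : List ℕ → Bool
  | [a, b, c, d, e] => Nat.beq x 0 || Nat.beq a x || Nat.beq b x || Nat.beq c x || Nat.beq d x
      || Nat.beq e x
  | _ => false

def cnt (l : List ℕ) : ℕ :=
  cond (inL 0 l) 1 0 + (cond (inL 1 l) 1 0 + (cond (inL 2 l) 1 0 + (cond (inL 3 l) 1 0
    + (cond (inL 4 l) 1 0 + cond (inL 5 l) 1 0))))

def b2 (a b : ℕ) : ℕ := cond (Nat.beq a b) 1 0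

def monoL : List ℕ → ℕ
  | [a, b, c, d, e] => b2 b a + (b2 c a + (b2 c b + (b2 d a + (b2 d c + (b2 e a + b2 e b)))))
  | _ => 0

section
variable (q : ℕ) (r : List ℕ)

noncomputable def SS (T : Tb) (v : ℕ) (l : List ℕ) : List ℕ :=
  padd (pmul (Nat.sub q (cnt l) :: r) (look T (nb l v 7)))
    (padd (cond (inL 0 l) (look T (nb l v 0)) []) (padd (cond (inL 1 l) (look T (nb l v 1)) [])
    (padd (cond (inL 2 l) (look T (nb l v 2)) []) (padd (cond (inL 3 l) (look T (nb l v 3)) [])
    (padd (cond (inL 4 l) (look T (nb l v 4)) []) (cond (inL 5 l) (look T (nb l v 5)) []))))))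

noncomputable def xp (n : ℕ) : List ℕ :=
  Nat.rec (motive := fun _ => List ℕ) [1] (fun _ ih => pmul (psm 8 (q :: r)) ih) n

noncomputable def xq (n : ℕ) : List ℕ := fN n fun n => idL (xp q r n)

noncomputable def WW (l : List ℕ) : List ℕ := xq q r (monoL l)

noncomputable def zz (k : ℕ) (p : List ℕ) : List ℕ := padd (Nat.sub q k :: r) p

noncomputable def z20 := zz q r 1 (xq q r 2)
noncomputable def z21 := zz q r 2 (psm 2 (xq q r 1))
noncomputable def z30 := zz q r 1 (xq q r 3)
noncomputable def z31 := zz q r 2 (padd (xq q r 2) (xq q r 1))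
noncomputable def z32 := zz q r 3 (psm 3 (xq q r 1))
noncomputable def z40 := zz q r 1 (xq q r 4)
noncomputable def z41 := zz q r 2 (padd (xq q r 3) (xq q r 1))
noncomputable def z42 := zz q r 2 (psm 2 (xq q r 2))
noncomputable def z43 := zz q r 3 (padd (xq q r 2) (psm 2 (xq q r 1)))
noncomputable def z44 := zz q r 4 (psm 4 (xq q r 1))

noncomputable def L2 := pmul (z20 q r) (z21 q r)
noncomputable def L3 := pmul (z30 q r) (pmul (z31 q r) (z32 q r))
noncomputable def L4 := pmul (z40 q r) (pmul (z41 q r) (pmul (z42 q r) (pmul (z43 q r) (z44 q r))))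
noncomputable def M30 := pmul (z31 q r) (z32 q r)
noncomputable def M31 := pmul (z30 q r) (z32 q r)
noncomputable def M32 := pmul (z30 q r) (z31 q r)
noncomputable def M40 := pmul (z41 q r) (pmul (z42 q r) (pmul (z43 q r) (z44 q r)))
noncomputable def M41 := pmul (z40 q r) (pmul (z42 q r) (pmul (z43 q r) (z44 q r)))
noncomputable def M42 := pmul (z40 q r) (pmul (z41 q r) (pmul (z43 q r) (z44 q r)))
noncomputable def M43 := pmul (z40 q r) (pmul (z41 q r) (pmul (z42 q r) (z44 q r)))
noncomputable def M44 := pmul (z40 q r) (pmul (z41 q r) (pmul (z42 q r) (z43 q r)))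

noncomputable def c2 (s a b : ℕ) : List ℕ :=
  pmul (xq q r (b2 s a + b2 s b)) (cond (Nat.beq a b) (z21 q r) (z20 q r))

noncomputable def c3 (s a b c : ℕ) : List ℕ :=
  pmul (xq q r (b2 s a + b2 s b + b2 s c))
    (match b2 a b + b2 a c + b2 b c with
      | 0 => M32 q r
      | 1 => M31 q r
      | _ => M30 q r)

noncomputable def c4 (s a b c d : ℕ) : List ℕ :=
  pmul (xq q r (b2 s a + b2 s b + b2 s c + b2 s d))
    (match b2 a b + b2 a c + b2 a d + b2 b c + b2 b d + b2 c d with
      | 0 => M44 q r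
      | 1 => M43 q r
      | 2 => M42 q r
      | 3 => M41 q r
      | _ => M40 q r)

noncomputable def Lp : ℕ → List ℕ
  | 0 => L4 q r
  | 3 => L2 q r
  | _ => L3 q r

noncomputable def Cf (v : ℕ) : List ℕ → List ℕ
  | [a, b, c, d, e] => match v with
    | 0 => c4 q r a b c d e
    | 1 => c3 q r b a c e
    | 2 => c3 q r c a b d
    | _ => c2 q r d a c
  | _ => []

noncomputable def cfOK (v : ℕ) : Bool :=
  ple [1] (Lp q r v) && allL fun l => Nat.blt q (cnt l) ||
    peq (pmul (Cf q r v l) (SS q r (WW q r) v l)) (pmul (Lp q r v) (WW q r l))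

noncomputable def stepT (T : Tb) (v : ℕ) : Tb := fun l => pmul (Cf q r v l) (SS q r T v l)

noncomputable def tot (T : Tb) : List ℕ :=
  SS q r (SS q r (SS q r (SS q r (SS q r T 0) 1) 2) 3) 4 [0, 0, 0, 0, 0]

noncomputable def T0 : Tb := fun l => cond (allz l) [1] []

noncomputable def T4 : Tb := stepT q r (stepT q r (stepT q r (stepT q r T0 3) 2) 3) 0
noncomputable def Tw : Tb := stepT q r (stepT q r (T4 q r) 1) 2
noncomputable def Tv : Tb := stepT q r (stepT q r (stepT q r (T4 q r) 3) 1) 2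
noncomputable def Dw : List ℕ :=
  pmul (L2 q r) (pmul (L3 q r) (pmul (L2 q r) (pmul (L4 q r) (pmul (L3 q r) (L3 q r)))))
noncomputable def ZZ : List ℕ := tot q r (WW q r)

noncomputable def inB (l : List ℕ) : Bool :=
  ple (pmul (WW q r l) (Dw q r)) (pmul (ZZ q r) (look (Tw q r) l))

noncomputable def F1 : Tb := fun l => cond (inB q r l) (look (Tv q r) l) []
noncomputable def F2 : Tb := fun l => cond (inB q r l) (pmul (L2 q r) (look (Tw q r) l)) []

noncomputable def chkA : Bool := cfOK q r 0 && cfOK q r 1 && cfOK q r 2 && cfOK q r 3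
noncomputable def chkB : Bool := peq (tot q r (Tw q r)) (Dw q r) &&
    (allL fun l => inB q r l || ple (pmul (ZZ q r) (look (Tw q r) l)) (pmul (WW q r l) (Dw q r)))
noncomputable def chkC : Bool := ple (padd [1] (tot q r (F2 q r))) (tot q r (F1 q r))
noncomputable def chk : Bool := chkA q r && chkB q r && chkC q r

end

end Pool.Agent.H50.Potts
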