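import Mathlib
import Pool.Agent.H50.PottsA

namespace Pool.Agent.H50.Potts

lemma chk3456 : (chk 3 [] && chk 4 [] && chk 5 [] && chk 6 []) = true := by decide +kernel

end Pool.Agent.H50.Potts
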