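import Mathlib
import Pool.Agent.H50.PottsA

namespace Pool.Agent.H50.Potts

lemma chk7 : chk 7 [1] = true := by decide +kernel

end Pool.Agent.H50.Potts
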