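import Mathlib
import Pool.Agent.H50.PottsA

namespace Pool.Agent.H50.Potts

open Function

noncomputable def ev (t : ℝ) : List ℕ → ℝ
  | [] => 0
  | a :: p => a + t * ev t p

lemma ev_add (t : ℝ) : ∀ p q : List ℕ, ev t (padd p q) = ev t p + ev t q
  | [], q => by change ev t q = _; simp [ev]
  | a :: p, [] => by change ev t (a :: p) = _; simp [ev]
  | a :: p, b :: q => by
    change ev t ((a + b) :: padd p q) = _
    simp only [ev, ev_add t p q]; push_cast; ring

lemma ev_sm (t : ℝ) (c : ℕ) : ∀ p : List ℕ, ev t (psm c p) = c * ev t p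
  | [] => by change ev t [] = _; simp [ev]
  | a :: p => by
    change ev t ((c * a) :: psm c p) = _
    simp only [ev, ev_sm t c p]; push_cast; ring

lemma ev_mul (t : ℝ) : ∀ p q : List ℕ, ev t (pmul p q) = ev t p * ev t q
  | [], q => by change ev t [] = _; simp [ev]
  | a :: p, q => by
    change ev t (padd (psm a q) (0 :: pmul p q)) = _
    simp only [ev_add, ev_sm, ev, ev_mul t p q]; push_cast; ring

lemma ev_nn {t : ℝ} (ht : 0 ≤ t) : ∀ p : List ℕ, 0 ≤ ev t p
  | [] => le_rfl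
  | a :: p => by have := ev_nn ht p; simp only [ev]; positivity

lemma ev_allz (t : ℝ) : ∀ p : List ℕ, allz p = true → ev t p = 0
  | [], _ => rfl
  | a :: p, h => by
    change (Nat.beq a 0 && allz p) = true at h
    simp only [Bool.and_eq_true, Nat.beq_eq] at h
    simp [ev, h.1, ev_allz t p h.2]

lemma ev_le {t : ℝ} (ht : 0 ≤ t) : ∀ p q : List ℕ, ple p q = true → ev t p ≤ ev t q
  | [], q, _ => ev_nn ht q
  | a :: p, [], h => by
    change (Nat.beq a 0 && allz p) = true at h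
    simp only [Bool.and_eq_true, Nat.beq_eq] at h
    simp [ev, h.1, ev_allz t p h.2]
  | a :: p, b :: q, h => by
    change (Nat.ble a b && ple p q) = true at h
    simp only [Bool.and_eq_true, Nat.ble_eq] at h
    have h1 := mul_le_mul_of_nonneg_left (ev_le ht p q h.2) ht
    have h2 : (a : ℝ) ≤ b := by exact_mod_cast h.1
    simp only [ev]; linarith

lemma ev_eq {t : ℝ} (ht : 0 ≤ t) (p q : List ℕ) (h : peq p q = true) : ev t p = ev t q := by
  simp only [peq, Bool.and_eq_true] at h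
  exact le_antisymm (ev_le ht _ _ h.1) (ev_le ht _ _ h.2)

lemma fN_eq {β : Type} (n : ℕ) (k : ℕ → β) : fN n k = k n := by
  unfold fN; split <;> rfl

lemma idL_eq (l : List ℕ) : idL l = l := by cases l <;> rfl

lemma look_eq (T : Tb) (l : List ℕ) : look T l = T l := by
  unfold look; split
  · simp only [fN_eq, idL_eq]
  · rfl

lemma cb {β : Type} (a b : ℕ) (x y : β) : cond (Nat.beq a b) x y = if a = b then x else y := by
  by_cases h : a = b
  · subst h; simp
  · rw [if_neg h]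
    have : Nat.beq a b = false := by
      cases h' : Nat.beq a b
      · rfl
      · exact absurd (Nat.eq_of_beq_eq_true h') h
    rw [this]; rfl

def gg {α : Type} [DecidableEq α] (z : α) (τ : Fin 5 → α) (c : α) : ℕ :=
  if c = z then 0 else if τ 0 = c then 1 else if τ 1 = c then 2 else if τ 2 = c then 3
    else if τ 3 = c then 4 else if τ 4 = c then 5 else 7

def key {α : Type} [DecidableEq α] (z : α) (τ : Fin 5 → α) : List ℕ :=
  [gg z τ (τ 0), gg z τ (τ 1), gg z τ (τ 2), gg z τ (τ 3), gg z τ (τ 4)]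

lemma gL_eq (f : Fin 5 → ℕ) (x : ℕ) : gL (f 0) (f 1) (f 2) (f 3) (f 4) x = gg 0 f x := by
  simp only [gL, gg, cb]

lemma keyL_eq (f : Fin 5 → ℕ) : keyL [f 0, f 1, f 2, f 3, f 4] = key 0 f := by
  simp only [keyL, key, gL_eq]

section gen
variable {α : Type} [DecidableEq α] (z : α)

lemma key_pat (σ : Fin 5 → α) (h : α → ℕ) (h1 : ∀ i j, h (σ i) = h (σ j) ↔ σ i = σ j)
    (h2 : ∀ i, h (σ i) = 0 ↔ σ i = z) : key 0 (h ∘ σ) = key z σ := by
  simp only [key, gg, comp, h1, h2]

lemma gg_zero (τ : Fin 5 → α) (a : α) : gg z τ a = 0 ↔ a = z := by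
  unfold gg; split_ifs <;> simp_all

lemma gg_inj (τ : Fin 5 → α) (a b : α) (ha : a = z ∨ ∃ i, τ i = a) (h : gg z τ a = gg z τ b) :
    a = b := by
  unfold gg at h
  split_ifs at h <;> try simp_all
  rcases ha with ⟨i, hi⟩
  fin_cases i <;> simp_all

lemma gg_out (τ : Fin 5 → α) (a : α) (h1 : a ≠ z) (h2 : ∀ i, τ i ≠ a) : gg z τ a = 7 := by
  simp [gg, h1, h2]

lemma gg_lt (τ : Fin 5 → α) (i : Fin 5) : gg z τ (τ i) ≤ i.val + 1 := by
  unfold gg
  fin_cases i <;> split_ifs <;> simp_all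

lemma nb_key (τ : Fin 5 → α) (v : Fin 5) (c : α) :
    nb (key z τ) v.val (gg z τ c) = key z (update τ v c) := by
  have h1 : (key z τ).set v.val (gg z τ c) =
      [(gg z τ ∘ update τ v c) 0, (gg z τ ∘ update τ v c) 1, (gg z τ ∘ update τ v c) 2,
        (gg z τ ∘ update τ v c) 3, (gg z τ ∘ update τ v c) 4] := by
    fin_cases v <;> simp [key]
  rw [nb, h1, keyL_eq]
  apply key_pat
  · intro i j
    refine ⟨fun h => ?_, fun h => by rw [h]⟩
    by_cases hi : i = v
    · by_cases hj : j = v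
      · rw [hi, hj]
      · exact (gg_inj z τ _ _ (Or.inr ⟨j, by rw [update_of_ne hj]⟩) h.symm).symm
    · exact gg_inj z τ _ _ (Or.inr ⟨i, by rw [update_of_ne hi]⟩) h
  · intro i; exact gg_zero z τ _

lemma keyL_key (τ : Fin 5 → α) : keyL (key z τ) = key z τ := by
  have := nb_key z τ 0 (τ 0)
  rw [update_eq_self] at this
  exact this

lemma allL_spec (P : List ℕ → Bool) (h : allL P = true) (τ : Fin 5 → α) : P (key z τ) = true := by
  simp only [allL, List.all_eq_true] at h
  have b0 := gg_lt z τ 0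
  have b1 := gg_lt z τ 1
  have b2 := gg_lt z τ 2
  have b3 := gg_lt z τ 3
  have b4 := gg_lt z τ 4
  have h1 := h (gg z τ (τ 0)) (by simp at b0 ⊢; omega) (gg z τ (τ 1)) (by simp at b1 ⊢; omega)
    (gg z τ (τ 2)) (by simp at b2 ⊢; omega) (gg z τ (τ 3)) (by simp at b3 ⊢; omega)
    (gg z τ (τ 4)) (by simp at b4 ⊢; omega)
  have h2 : canon (key z τ) = true := by
    have := keyL_key z τ
    simp only [key, keyL, List.cons.injEq, and_true] at this
    simp only [key, canon, Bool.and_eq_true, Nat.beq_eq]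
    tauto
  change cond (canon (key z τ)) (P (key z τ)) true = true at h1
  rwa [h2] at h1

lemma inL_key (τ : Fin 5 → α) (d : ℕ) :
    inL d (key z τ) = true ↔ d = 0 ∨ ∃ i, gg z τ (τ i) = d := by
  simp only [key, inL, Bool.or_eq_true, Nat.beq_eq, Fin.exists_fin_succ, or_assoc]
  simp

lemma sum_gg [Fintype α] (τ : Fin 5 → α) (H : ℕ → ℝ) :
    cnt (key z τ) ≤ Fintype.card α ∧ ∑ c, H (gg z τ c) =
      ((Fintype.card α : ℝ) - cnt (key z τ)) * H 7
        + ∑ d ∈ Finset.range 6, cond (inL d (key z τ)) (H d) 0 := by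
  set R : Finset α := insert z (Finset.univ.image τ) with hR
  set I : Finset ℕ := (Finset.range 6).filter fun d => inL d (key z τ) = true with hI
  have hmem : ∀ a, a ∈ R ↔ a = z ∨ ∃ i, τ i = a := by intro a; simp [hR]
  have hinj : Set.InjOn (gg z τ) R := fun a ha b _ h => gg_inj z τ a b ((hmem a).1 ha) h
  have him : R.image (gg z τ) = I := by
    ext d
    simp only [Finset.mem_image, hI, Finset.mem_filter, Finset.mem_range, inL_key, hmem]
    constructor
    · rintro ⟨a, ha | ⟨i, rfl⟩, rfl⟩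
      · rw [(gg_zero z τ a).2 ha]; simp
      · have := gg_lt z τ i
        exact ⟨by omega, Or.inr ⟨i, rfl⟩⟩
    · rintro ⟨_, rfl | ⟨i, rfl⟩⟩
      · exact ⟨z, Or.inl rfl, (gg_zero z τ z).2 rfl⟩
      · exact ⟨τ i, Or.inr ⟨i, rfl⟩, rfl⟩
  have hc : cnt (key z τ) = R.card := by
    rw [← Finset.card_image_of_injOn hinj, him, hI, Finset.card_filter]
    simp only [Finset.sum_range_succ, Finset.sum_range_zero, cnt, Bool.cond_eq_ite]
    ring
  refine ⟨hc ▸ Finset.card_le_univ R, ?_⟩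
  rw [← Finset.sum_add_sum_compl R, add_comm]
  congr 1
  · rw [Finset.sum_congr rfl (g := fun _ => H 7), Finset.sum_const, Finset.card_compl, hc,
      nsmul_eq_mul, Nat.cast_sub (Finset.card_le_univ R)]
    intro a ha
    rw [Finset.mem_compl, hmem] at ha
    push Not at ha
    rw [gg_out z τ a ha.1 ha.2]
  · rw [← Finset.sum_image (f := H) hinj, him, hI, Finset.sum_filter]
    simp only [Bool.cond_eq_ite]

lemma cnt_le (l : List ℕ) : cnt l ≤ 6 := by
  have : ∀ b : Bool, cond b 1 0 ≤ 1 := by intro b; cases b <;> simp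
  have h0 := this (inL 0 l)
  have h1 := this (inL 1 l)
  have h2 := this (inL 2 l)
  have h3 := this (inL 3 l)
  have h4 := this (inL 4 l)
  have h5 := this (inL 5 l)
  unfold cnt; omega

def Rep (t : ℝ) (T : Tb) (f : (Fin 5 → α) → ℝ) : Prop := ∀ σ, f σ = ev t (T (key z σ))

lemma ev_cond (t : ℝ) (b : Bool) (p : List ℕ) : ev t (cond b p []) = cond b (ev t p) 0 := by
  cases b <;> rfl

variable [Fintype α] {q : ℕ} {r : List ℕ} {t : ℝ}

lemma rep_S (hq : (q : ℝ) + t * ev t r = Fintype.card α) (hc : ∀ τ, cnt (key z τ) ≤ q)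
    {T : Tb} {f : (Fin 5 → α) → ℝ} (h : Rep z t T f) (v : Fin 5) :
    Rep z t (SS q r T v.val) fun τ => ∑ c, f (update τ v c) := by
  intro τ
  have h1 : ∀ c, f (update τ v c) = (fun d => ev t (T (nb (key z τ) v.val d))) (gg z τ c) := by
    intro c; simp only [nb_key]; exact h _
  simp only [h1]
  rw [(sum_gg z τ fun d => ev t (T (nb (key z τ) v.val d))).2]
  simp only [SS, ev_add, ev_mul, look_eq, ev_cond, ev, Finset.sum_range_succ,
    Finset.sum_range_zero, Nat.sub_eq]
  rw [Nat.cast_sub (hc τ), ← hq]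
  ring

lemma sum_all (f : (Fin 5 → α) → ℝ) (τ : Fin 5 → α) :
    ∑ σ, f σ = ∑ e, ∑ d, ∑ c, ∑ b, ∑ a,
      f (update (update (update (update (update τ 4 e) 3 d) 2 c) 1 b) 0 a) := by
  let E : α × α × α × α × α ≃ (Fin 5 → α) :=
    { toFun := fun p => ![p.2.2.2.2, p.2.2.2.1, p.2.2.1, p.2.1, p.1]
      invFun := fun σ => (σ 4, σ 3, σ 2, σ 1, σ 0)
      left_inv := fun p => rfl
      right_inv := fun σ => by ext i; fin_cases i <;> rfl }
  rw [← E.sum_comp]
  simp only [Fintype.sum_prod_type]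
  refine Finset.sum_congr rfl fun e _ => Finset.sum_congr rfl fun d _ =>
    Finset.sum_congr rfl fun c _ => Finset.sum_congr rfl fun b _ =>
    Finset.sum_congr rfl fun a _ => ?_
  congr 1
  ext i; fin_cases i <;> simp [E]

lemma rep_tot (hq : (q : ℝ) + t * ev t r = Fintype.card α) (hc : ∀ τ, cnt (key z τ) ≤ q)
    {T : Tb} {f : (Fin 5 → α) → ℝ} (h : Rep z t T f) : ∑ σ, f σ = ev t (tot q r T) := by
  have := rep_S z hq hc (rep_S z hq hc (rep_S z hq hc (rep_S z hq hc (rep_S z hq hc h 0) 1) 2) 3) 4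
    fun _ => z
  rw [sum_all f fun _ => z]
  have hk : key z (fun _ : Fin 5 => z) = [0, 0, 0, 0, 0] := by simp [key, gg]
  rw [hk] at this
  exact this

def mono (τ : Fin 5 → α) : ℕ :=
  (if τ 1 = τ 0 then 1 else 0) + ((if τ 2 = τ 0 then 1 else 0) + ((if τ 2 = τ 1 then 1 else 0)
    + ((if τ 3 = τ 0 then 1 else 0) + ((if τ 3 = τ 2 then 1 else 0)
    + ((if τ 4 = τ 0 then 1 else 0) + (if τ 4 = τ 1 then 1 else 0))))))

lemma ev_xq (n : ℕ) : ev t (xq q r n) = (8 * ((q : ℝ) + t * ev t r)) ^ n := by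
  rw [xq, fN_eq, idL_eq]
  induction n with
  | zero => change ev t [1] = _; simp [ev]
  | succ n ih =>
    change ev t (pmul (psm 8 (q :: r)) (xp q r n)) = _
    rw [ev_mul, ev_sm, ih, pow_succ']
    simp [ev]

lemma rep_W (hq : (q : ℝ) + t * ev t r = Fintype.card α) :
    Rep z t (WW q r) fun σ => (8 * (Fintype.card α : ℝ)) ^ mono σ := by
  intro σ
  rw [WW, ev_xq, hq]
  congr 1
  have : ∀ i j, gg z σ (σ i) = gg z σ (σ j) ↔ σ i = σ j := fun i j =>
    ⟨gg_inj z σ _ _ (Or.inr ⟨i, rfl⟩), fun h => by rw [h]⟩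
  simp only [mono, key, monoL, b2, cb, this]

end gen

end Pool.Agent.H50.Potts
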