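import Mathlib
import Pool.Agent.H50.PottsB
import Pool.Agent.H50.PottsC
import Pool.Agent.H50.PottsD

namespace Pool.Agent.H50.Potts

open Function

section model
variable {V C : Type} [Fintype V] [DecidableEq V] [Fintype C] [DecidableEq C]

noncomputable def weight (G : SimpleGraph V) (β : ℝ) (σ : V → C) : ℝ :=
  Real.exp (β * (Set.ncard {e ∈ G.edgeSet | (e.map σ).IsDiag} : ℝ))

noncomputable def gibbs (G : SimpleGraph V) (β : ℝ) (σ : V → C) : ℝ :=
  weight G β σ / ∑ τ : V → C, weight G β τ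

noncomputable def kernel (G : SimpleGraph V) (β : ℝ) (v : V) (σ τ : V → C) : ℝ :=
  if ∀ u, u ≠ v → σ u = τ u then gibbs G β τ / ∑ c : C, gibbs G β (Function.update σ v c) else 0

noncomputable def step (G : SimpleGraph V) (β : ℝ) (μ : (V → C) → ℝ) (v : V) : (V → C) → ℝ :=
  fun τ => ∑ σ : V → C, μ σ * kernel G β v σ τ

noncomputable def law (G : SimpleGraph V) (β : ℝ) (g : C) (l : List V) : (V → C) → ℝ :=
  l.foldl (step G β) (fun σ => if σ = fun _ => g then 1 else 0)

noncomputable def tv {Ω : Type} (μ ν : Ω → ℝ) : ℝ :=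
  ⨆ A : Finset Ω, |∑ σ ∈ A, μ σ - ∑ σ ∈ A, ν σ|

lemma weight_pos (G : SimpleGraph V) (β : ℝ) (σ : V → C) : 0 < weight G β σ := Real.exp_pos _

lemma step_eq (G : SimpleGraph V) (β : ℝ) (μ : (V → C) → ℝ) (v : V) (τ : V → C) :
    step G β μ v τ = (∑ c, μ (update τ v c)) * weight G β τ / ∑ c, weight G β (update τ v c) := by
  have hZ : 0 < ∑ τ : V → C, weight G β τ :=
    Finset.sum_pos (fun σ _ => weight_pos G β σ) ⟨τ, Finset.mem_univ _⟩
  have hinj : Function.Injective (update τ v) := update_injective τ v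
  unfold step kernel
  simp only [mul_ite, mul_zero]
  rw [← Finset.sum_filter]
  have : (Finset.univ.filter fun σ : V → C => ∀ u, u ≠ v → σ u = τ u)
      = Finset.univ.image (update τ v) := by
    ext σ
    simp only [Finset.mem_filter, Finset.mem_univ, true_and, Finset.mem_image]
    constructor
    · intro h
      refine ⟨σ v, ?_⟩
      ext u
      by_cases hu : u = v
      · subst hu; simp
      · rw [update_of_ne hu, h u hu]
    · rintro ⟨c, rfl⟩ u hu
      rw [update_of_ne hu]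
  rw [this, Finset.sum_image fun a _ b _ h => hinj h, Finset.sum_mul, Finset.sum_div]
  refine Finset.sum_congr rfl fun c _ => ?_
  simp only [update_idem, gibbs, ← Finset.sum_div]
  rw [mul_div_assoc, div_div_div_cancel_right₀ hZ.ne']

lemma tv_lt {Ω : Type} [Fintype Ω] (μ μ' ν : Ω → ℝ) (B : Ω → Bool) (h0 : ∑ σ, μ σ = ∑ σ, ν σ)
    (h1 : ∀ σ, B σ = true → ν σ ≤ μ σ) (h2 : ∀ σ, B σ = false → μ σ ≤ ν σ)
    (h3 : ∑ σ, cond (B σ) (μ σ) 0 < ∑ σ, cond (B σ) (μ' σ) 0) : tv μ ν < tv μ' ν := by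
  classical
  set S := Finset.univ.filter fun σ => B σ = true with hS
  have e : ∀ f : Ω → ℝ, ∑ σ, cond (B σ) (f σ) 0 = ∑ σ ∈ S, f σ := by
    intro f; rw [hS, Finset.sum_filter]; simp only [Bool.cond_eq_ite]
  rw [e, e] at h3
  have up : ∀ A : Finset Ω, ∑ σ ∈ A, (μ σ - ν σ) ≤ ∑ σ ∈ S, (μ σ - ν σ) := by
    intro A
    calc ∑ σ ∈ A, (μ σ - ν σ) ≤ ∑ σ ∈ A, cond (B σ) (μ σ - ν σ) 0 := by
          refine Finset.sum_le_sum fun σ _ => ?_
          cases h : B σ
          · simpa using h2 σ h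
          · simp
      _ ≤ ∑ σ, cond (B σ) (μ σ - ν σ) 0 := by
          refine Finset.sum_le_sum_of_subset_of_nonneg (Finset.subset_univ _) fun σ _ _ => ?_
          cases h : B σ
          · simp
          · simpa using h1 σ h
      _ = _ := e _
  have a1 : tv μ ν ≤ ∑ σ ∈ S, (μ σ - ν σ) := by
    refine ciSup_le fun A => abs_le.2 ⟨?_, by rw [← Finset.sum_sub_distrib]; exact up A⟩
    have := up Aᶜ
    have e1 := Finset.sum_add_sum_compl A μ
    have e2 := Finset.sum_add_sum_compl A ν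
    rw [Finset.sum_sub_distrib] at this
    linarith
  have a2 : |∑ σ ∈ S, μ' σ - ∑ σ ∈ S, ν σ| ≤ tv μ' ν :=
    le_ciSup (f := fun A : Finset Ω => |∑ σ ∈ A, μ' σ - ∑ σ ∈ A, ν σ|)
      (Set.finite_range _).bddAbove S
  have a3 := le_abs_self (∑ σ ∈ S, μ' σ - ∑ σ ∈ S, ν σ)
  rw [Finset.sum_sub_distrib] at a1
  linarith

end model

def EE : Finset (Sym2 (Fin 5)) := {s(1, 0), s(2, 0), s(2, 1), s(3, 0), s(3, 2), s(4, 0), s(4, 1)}

def GG : SimpleGraph (Fin 5) := SimpleGraph.fromEdgeSet (EE : Set (Sym2 (Fin 5)))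

variable {α : Type} [DecidableEq α] [Fintype α] (z : α) {q : ℕ} {r : List ℕ} {t : ℝ}

lemma weight_GG (x : ℝ) (hx : 0 < x) (σ : Fin 5 → α) :
    weight GG (Real.log x) σ = x ^ mono σ := by
  have h1 : {e ∈ GG.edgeSet | (e.map σ).IsDiag}
      = ((EE.filter fun e => (e.map σ).IsDiag : Finset _) : Set (Sym2 (Fin 5))) := by
    ext e
    simp only [GG, SimpleGraph.edgeSet_fromEdgeSet, Set.mem_setOf_eq, Set.mem_diff,
      Finset.coe_filter, Finset.mem_coe]
    have : ∀ e ∈ EE, ¬ e.IsDiag := by decide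
    constructor
    · rintro ⟨⟨h, _⟩, h'⟩; exact ⟨h, h'⟩
    · rintro ⟨h, h'⟩; exact ⟨⟨h, this e h⟩, h'⟩
  have h2 : (EE.filter fun e => (e.map σ).IsDiag).card = mono σ := by
    rw [Finset.card_filter, EE]
    repeat rw [Finset.sum_insert (by decide)]
    rw [Finset.sum_singleton]
    simp only [mono, Sym2.map_mk, Sym2.mk_isDiag_iff]
  rw [weight, h1, Set.ncard_coe_finset, h2, mul_comm, Real.exp_nat_mul, Real.exp_log hx]

lemma rep_step (ht : 0 ≤ t) (hq : (q : ℝ) + t * ev t r = Fintype.card α)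
    (hc : ∀ τ, cnt (key z τ) ≤ q) (v : Fin 5) (hv : cfOK q r v.val = true)
    {T : Tb} {μ : (Fin 5 → α) → ℝ} {D : ℝ} (h : Rep z t T fun σ => D * μ σ) :
    Rep z t (stepT q r T v.val) fun σ => D * ev t (Lp q r v.val) *
      step GG (Real.log (8 * (Fintype.card α : ℝ))) μ v σ := by
  intro τ
  have hx : (0 : ℝ) < 8 * (Fintype.card α : ℝ) := by
    have : 0 < Fintype.card α := Fintype.card_pos_iff.2 ⟨z⟩
    positivity
  simp only [cfOK, Bool.and_eq_true] at hv
  have h1 := allL_spec z _ hv.2 τ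
  have h2 : Nat.blt q (cnt (key z τ)) = false := by
    cases hb : Nat.blt q (cnt (key z τ))
    · rfl
    · have := hc τ
      rw [Nat.blt_eq] at hb
      omega
  rw [h2, Bool.false_or] at h1
  have h3 := ev_eq ht _ _ h1
  rw [ev_mul, ev_mul, ← rep_S z hq hc (rep_W z hq) v τ, ← rep_W z hq τ] at h3
  have h4 := rep_S z hq hc h v τ
  simp only [stepT, ev_mul, step_eq, weight_GG _ hx, ← h4, ← Finset.mul_sum]
  have hZ : (0 : ℝ) < ∑ c, (8 * (Fintype.card α : ℝ)) ^ mono (update τ v c) :=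
    Finset.sum_pos (fun _ _ => by positivity) ⟨z, Finset.mem_univ _⟩
  field_simp
  linear_combination (-(D * ∑ c, μ (update τ v c))) * h3

lemma core (ht : 0 ≤ t) (hq : (q : ℝ) + t * ev t r = Fintype.card α)
    (hc : ∀ τ, cnt (key z τ) ≤ q) (hk : chk q r = true) :
    tv (law GG (Real.log (8 * (Fintype.card α : ℝ))) z [3, 2, 3, 0, 1, 2])
        (gibbs GG (Real.log (8 * (Fintype.card α : ℝ)))) <
      tv (law GG (Real.log (8 * (Fintype.card α : ℝ))) z [3, 2, 3, 0, 3, 1, 2])
        (gibbs GG (Real.log (8 * (Fintype.card α : ℝ)))) := by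
  have hx : (0 : ℝ) < 8 * (Fintype.card α : ℝ) := by
    have : 0 < Fintype.card α := Fintype.card_pos_iff.2 ⟨z⟩
    positivity
  set β := Real.log (8 * (Fintype.card α : ℝ)) with hβ
  simp only [chk, chkA, chkB, chkC, Bool.and_eq_true] at hk
  obtain ⟨⟨⟨⟨⟨k0, k1⟩, k2⟩, k3⟩, kb1, kb2⟩, kc⟩ := hk
  have pos : ∀ v, cfOK q r v = true → 0 < ev t (Lp q r v) := by
    intro v hv
    simp only [cfOK, Bool.and_eq_true] at hv
    have := ev_le ht _ _ hv.1
    simp only [ev] at this
    norm_num at this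
    linarith
  have p2 : 0 < ev t (L2 q r) := pos 3 k3
  have p3 : 0 < ev t (L3 q r) := pos 1 k1
  have p4 : 0 < ev t (L4 q r) := pos 0 k0
  have r0 : Rep z t T0 fun σ => 1 * (if σ = fun _ => z then (1 : ℝ) else 0) := by
    intro σ
    by_cases h : σ = fun _ => z
    · subst h
      have hk : key z (fun _ : Fin 5 => z) = [0, 0, 0, 0, 0] := by simp [key, gg]
      rw [hk]
      change _ = ev t [1]
      simp [ev]
    · have : allz (key z σ) = false := by
        cases hb : allz (key z σ)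
        · rfl
        · exfalso
          apply h
          change (Nat.beq _ 0 && (Nat.beq _ 0 && (Nat.beq _ 0 && (Nat.beq _ 0 &&
            (Nat.beq _ 0 && true))))) = true at hb
          simp only [Bool.and_eq_true, Nat.beq_eq, gg_zero] at hb
          ext i
          fin_cases i <;> simp [hb]
      simp [T0, this, h, ev]
  have r4 := rep_step z ht hq hc 0 k0 (rep_step z ht hq hc 3 k3 (rep_step z ht hq hc 2 k2
    (rep_step z ht hq hc 3 k3 r0)))
  have rw' := rep_step z ht hq hc 2 k2 (rep_step z ht hq hc 1 k1 r4)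
  have rv' := rep_step z ht hq hc 2 k2 (rep_step z ht hq hc 1 k1 (rep_step z ht hq hc 3 k3 r4))
  have hD : 0 < ev t (Dw q r) := by simp only [Dw, ev_mul]; positivity
  have rw : Rep z t (Tw q r) fun σ => ev t (Dw q r) * law GG β z [3, 2, 3, 0, 1, 2] σ := by
    intro σ
    have := rw' σ
    change _ = ev t (Tw q r (key z σ)) at this
    rw [← this]
    simp only [Dw, ev_mul, law, List.foldl]
    change _ = 1 * ev t (L2 q r) * ev t (L3 q r) * ev t (L2 q r) * ev t (L4 q r) * ev t (L3 q r)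
      * ev t (L3 q r) * _
    ring
  have rv : Rep z t (Tv q r) fun σ =>
      ev t (L2 q r) * ev t (Dw q r) * law GG β z [3, 2, 3, 0, 3, 1, 2] σ := by
    intro σ
    have := rv' σ
    change _ = ev t (Tv q r (key z σ)) at this
    rw [← this]
    simp only [Dw, ev_mul, law, List.foldl]
    change _ = 1 * ev t (L2 q r) * ev t (L3 q r) * ev t (L2 q r) * ev t (L4 q r) * ev t (L2 q r)
      * ev t (L3 q r) * ev t (L3 q r) * _
    ring
  have hZ : ∑ σ : Fin 5 → α, weight GG β σ = ev t (ZZ q r) := by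
    simp only [hβ, weight_GG _ hx]
    exact rep_tot z hq hc (rep_W z hq)
  have hZp : 0 < ∑ σ : Fin 5 → α, weight GG β σ :=
    Finset.sum_pos (fun σ _ => weight_pos _ _ σ) ⟨fun _ => z, Finset.mem_univ _⟩
  have hW : ∀ σ : Fin 5 → α, weight GG β σ = ev t (WW q r (key z σ)) := by
    intro σ; rw [hβ, weight_GG _ hx]; exact rep_W z hq σ
  refine tv_lt _ _ _ (fun σ => inB q r (key z σ)) ?_ ?_ ?_ ?_
  · have h1 := rep_tot z hq hc rw
    rw [ev_eq ht _ _ kb1, ← Finset.mul_sum] at h1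
    simp only [gibbs, ← Finset.sum_div]
    rw [div_self hZp.ne']
    exact mul_left_cancel₀ hD.ne' (by rw [h1, mul_one])
  · intro σ h
    have := ev_le ht _ _ h
    rw [ev_mul, ev_mul, look_eq, ← rw σ, ← hW, ← hZ] at this
    rw [gibbs, div_le_iff₀ hZp]
    refine le_of_mul_le_mul_left ?_ hD
    linarith
  · intro σ h
    have h1 := allL_spec z _ kb2 σ
    rw [h, Bool.false_or] at h1
    have := ev_le ht _ _ h1
    rw [ev_mul, ev_mul, look_eq, ← rw σ, ← hW, ← hZ] at this
    rw [gibbs, le_div_iff₀ hZp]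
    refine le_of_mul_le_mul_left ?_ hD
    linarith
  · have f1 : Rep z t (F1 q r) fun σ => ev t (L2 q r) * ev t (Dw q r) *
        cond (inB q r (key z σ)) (law GG β z [3, 2, 3, 0, 3, 1, 2] σ) 0 := by
      intro σ
      simp only [F1, ev_cond, look_eq, ← rv σ]
      cases inB q r (key z σ) <;> simp
    have f2 : Rep z t (F2 q r) fun σ => ev t (L2 q r) * ev t (Dw q r) *
        cond (inB q r (key z σ)) (law GG β z [3, 2, 3, 0, 1, 2] σ) 0 := by
      intro σ
      simp only [F2, ev_cond, look_eq, ev_mul, ← rw σ]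
      cases inB q r (key z σ) <;> simp [mul_assoc]
    have g1 := rep_tot z hq hc f1
    have g2 := rep_tot z hq hc f2
    have g3 := ev_le ht _ _ kc
    rw [ev_add, ← g1, ← g2, ← Finset.mul_sum, ← Finset.mul_sum] at g3
    simp only [ev] at g3
    refine lt_of_mul_lt_mul_left ?_ (mul_pos p2 hD).le
    norm_num at g3 ⊢
    linarith

theorem main (h3 : 3 ≤ Fintype.card α) : ∃ (n : ℕ) (G : SimpleGraph (Fin n)) (β : ℝ)
    (v w : List (Fin n)), 0 < β ∧ w.Sublist v ∧
      tv (law G β z w) (gibbs G β) < tv (law G β z v) (gibbs G β) := by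
  refine ⟨5, GG, Real.log (8 * (Fintype.card α : ℝ)), [3, 2, 3, 0, 3, 1, 2], [3, 2, 3, 0, 1, 2],
    Real.log_pos ?_, by decide, ?_⟩
  · have : (3 : ℝ) ≤ Fintype.card α := by exact_mod_cast h3
    linarith
  have hs := chk3456
  simp only [Bool.and_eq_true] at hs
  have small : ∀ q : ℕ, q = Fintype.card α → chk q [] = true → _ := fun q e hk =>
    core z (q := q) (r := []) (t := 0) le_rfl (by simp [e])
      (fun τ => e ▸ (sum_gg z τ fun _ => 0).1) hk
  by_cases h7 : 7 ≤ Fintype.card α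
  · refine core z (q := 7) (r := [1]) (t := (Fintype.card α : ℝ) - 7) ?_ (by simp [ev])
      (fun τ => (cnt_le _).trans (by norm_num)) chk7
    have : (7 : ℝ) ≤ Fintype.card α := by exact_mod_cast h7
    linarith
  · have : Fintype.card α = 3 ∨ Fintype.card α = 4 ∨ Fintype.card α = 5 ∨ Fintype.card α = 6 := by
      omega
    rcases this with h | h | h | h
    · exact small 3 h.symm hs.1.1.1
    · exact small 4 h.symm hs.1.1.2
    · exact small 5 h.symm hs.1.2
    · exact small 6 h.symm hs.2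

end Pool.Agent.H50.Potts
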