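import Mathlib
import Pool.Agent.H50.FatOrd

set_option linter.unusedSimpArgs false

namespace Pool.Agent.H50.Restr

open MvPolynomial Pool.Agent.H50.FatPts Pool.Agent.H50.FatOrd

/-- `H^0(X, dH - ∑ m i E i)`: equations of degree at most `d` with multiplicity at least `m i`
at `p i`. -/
noncomputable def sec {r : ℕ} (p : Fin r → Fin 2 → ℂ) (d : ℕ) (m : Fin r → ℕ) :
    Submodule ℂ (MvPolynomial (Fin 2) ℂ) :=
  restrictTotalDegree (Fin 2) ℂ d ⊓ ⨅ i, (mx (p i) ^ m i).restrictScalars ℂ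

/-- Restriction to the exceptional curve over `p i`: the form of degree `m i` in the Taylor
expansion at `p i`. -/
noncomputable def rho {r : ℕ} (p : Fin r → Fin 2 → ℂ) (d : ℕ) (m : Fin r → ℕ) (i : Fin r) :
    sec p d m →ₗ[ℂ] homogeneousSubmodule (Fin 2) ℂ (m i) :=
  LinearMap.codRestrict _
    (homogeneousComponent (m i) ∘ₗ (tr (p i)).toLinearMap ∘ₗ (sec p d m).subtype)
    (fun _ => homogeneousComponent_isHomogeneous _ _)

/-- No fixed component: neither the line at infinity, nor an irreducible affine curve, nor an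
exceptional curve lies in all members. -/
def NoFixed {r : ℕ} (p : Fin r → Fin 2 → ℂ) (d : ℕ) (m : Fin r → ℕ) : Prop :=
  (∃ f ∈ sec p d m, f ≠ 0 ∧ f.totalDegree = d) ∧
  (∀ h : MvPolynomial (Fin 2) ℂ, Irreducible h → ∃ f ∈ sec p d m, ¬ h ∣ f) ∧
  (∀ i, ∃ f ∈ sec p d m, f ∉ mx (p i) ^ (m i + 1))

theorem mem_sec {r : ℕ} (p : Fin r → Fin 2 → ℂ) (d : ℕ) (m : Fin r → ℕ) (f : R) :
    f ∈ sec p d m ↔ f.totalDegree ≤ d ∧ ∀ i, f ∈ mx (p i) ^ m i := by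
  simp [sec, mem_restrictTotalDegree]

def e3 : Fin 3 → ℕ × ℕ := ![(0,0), (0,1), (1,0)]
def c3 : Fin 3 → Fin 3 × ℕ × ℕ := ![(0,0,0), (1,0,0), (2,0,0)]
def q3 : Fin 3 → Fin 2 → ℤ := ![![0, 0], ![1, 0], ![0, 1]]
def B3 : Matrix (Fin 3) (Fin 3) ℤ := !![1, 0, 0; -1, 0, 1; -1, 1, 0]
theorem hB3 : B3 * mat e3 c3 q3 = (1 : ℤ) • (1 : Matrix (Fin 3) (Fin 3) ℤ) := by
  decide +kernel

def e4 : Fin 6 → ℕ × ℕ := ![(0,0), (0,1), (0,2), (1,0), (1,1), (2,0)]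
def c4 : Fin 6 → Fin 4 × ℕ × ℕ := ![(0,0,0), (0,0,1), (0,1,0), (1,0,0), (2,0,0), (3,0,0)]
def q4 : Fin 4 → Fin 2 → ℤ := ![![0, 0], ![1, 0], ![0, 1], ![1, 1]]
def B4 : Matrix (Fin 6) (Fin 6) ℤ := !![1, 0, 0, 0, 0, 0; 0, 1, 0, 0, 0, 0; -1, -1, 0, 0, 1, 0; 0, 0, 1, 0, 0, 0; 1, 0, 0, -1, -1, 1; -1, 0, -1, 1, 0, 0]
theorem hB4 : B4 * mat e4 c4 q4 = (1 : ℤ) • (1 : Matrix (Fin 6) (Fin 6) ℤ) := by
  decide +kernel

def e6 : Fin 6 → ℕ × ℕ := ![(0,0), (0,1), (0,2), (1,0), (1,1), (2,0)]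
def c6 : Fin 6 → Fin 6 × ℕ × ℕ := ![(0,0,0), (1,0,0), (2,0,0), (3,0,0), (4,0,0), (5,0,0)]
def q6 : Fin 6 → Fin 2 → ℤ := ![![0, 0], ![1, 0], ![0, 1], ![2, 0], ![1, 1], ![0, 2]]
def B6 : Matrix (Fin 6) (Fin 6) ℤ := !![2, 0, 0, 0, 0, 0; -3, 0, 4, 0, 0, -1; 1, 0, -2, 0, 0, 1; -3, 4, 0, -1, 0, 0; 2, -2, -2, 0, 2, 0; 1, -2, 0, 1, 0, 0]
theorem hB6 : B6 * mat e6 c6 q6 = (2 : ℤ) • (1 : Matrix (Fin 6) (Fin 6) ℤ) := by
  decide +kernel

def eM : Fin 28 → ℕ × ℕ := ![(0,0), (0,1), (0,2), (0,3), (0,4), (0,5), (0,6), (1,0), (1,1), (1,2), (1,3), (1,4), (1,5), (2,0), (2,1), (2,2), (2,3), (2,4), (3,0), (3,1), (3,2), (3,3), (4,0), (4,1), (4,2), (5,0), (5,1), (6,0)]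
def cM : Fin 28 → Fin 11 × ℕ × ℕ := ![(0,0,0), (0,0,1), (0,0,2), (0,1,0), (0,1,1), (0,2,0), (1,0,0), (1,0,1), (1,1,0), (2,0,0), (2,0,1), (2,1,0), (3,0,0), (3,0,1), (3,1,0), (4,0,0), (4,0,1), (4,1,0), (5,0,0), (5,0,1), (5,1,0), (6,0,0), (6,0,1), (6,1,0), (7,0,0), (8,0,0), (9,0,0), (10,0,0)]
def qM : Fin 11 → Fin 2 → ℤ := ![![0, 0], ![-1, 0], ![0, 2], ![1, -2], ![0, -1], ![1, 1], ![-1, -1], ![1, -1], ![-2, 0], ![-1, 1], ![1, 2]]
def BM : Matrix (Fin 28) (Fin 28) ℤ := !![1296, 0, 0, 0, 0, 0, 0, 0, 0, 0, 0, 0, 0, 0, 0, 0, 0, 0, 0, 0, 0, 0, 0, 0, 0, 0, 0, 0; 0, 1296, 0, 0, 0, 0, 0, 0, 0, 0, 0, 0, 0, 0, 0, 0, 0, 0, 0, 0, 0, 0, 0, 0, 0, 0, 0, 0; 0, 0, 648, 0, 0, 0, 0, 0, 0, 0, 0, 0, 0, 0, 0, 0, 0, 0, 0, 0, 0, 0, 0, 0, 0, 0, 0, 0; 2592, -2268, 648, 0, 0, 0, 0, 0, 0, 96, -36, 0, 0, 0, 0, -2688, -576, 0, 0, 0, 0, 0, 0, 0, 0, 0, 0, 0; -729, 324, -486, 0, 0, 0, 0, 0, 0, 153, -54,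 0, 0, 0, 0, 576, 0, 0, 0, 0, 0, 0, 0, 0, 0, 0, 0, 0; -1458, 972, -324, 0, 0, 0, 0, 0, 0, 18, 0, 0, 0, 0, 0, 1440, 432, 0, 0, 0, 0, 0, 0, 0, 0, 0, 0, 0; 567, -324, 162, 0, 0, 0, 0, 0, 0, -39, 18, 0, 0, 0, 0, -528, -144, 0, 0, 0, 0, 0, 0, 0, 0, 0, 0, 0; 0, 0, 0, 1296, 0, 0, 0, 0, 0, 0, 0, 0, 0, 0, 0, 0, 0, 0, 0, 0, 0, 0, 0, 0, 0, 0, 0, 0; 0, 0, 0, 0, 1296, 0, 0, 0, 0, 0, 0, 0, 0, 0, 0, 0, 0, 0, 0, 0, 0, 0, 0, 0, 0, 0, 0, 0; -4698, 3240, -972, -972, 648, 0, 1296, -1296, 0, -6, 36, 108, -174, -72, 0, 4704, 1440, 864, 12, 360, 0, -1620, -648, 0, 324, 0, 324, -162; -6399, 4212, -1458, 324, -648, 0, 648, -648, 0, 111, -18, 108, -225, -108, 0, 6288, 1872, -432, -18, 324, 0, -810, -324, 0, 378, 0, 162, -135; 324, -324, 0, 0, 0, 0, -648, 648, 0, 60, -36, 0, 18, 0, 0, -384, -144, 0, -18, -108, 0, 810, 324, 0, -54, 0, -162, 54; 2025, -1296, 486, 0, 0, 0, 0, 0, 0, -57, 18, 0, 69,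 36, 0, -1968, -576, 0, 12, -72, 0, 0, 0, 0, -108, 0, 0, 27; 0, 0, 0, 0, 0, 648, 0, 0, 0, 0, 0, 0, 0, 0, 0, 0, 0, 0, 0, 0, 0, 0, 0, 0, 0, 0, 0, 0; -1512, -3996, 540, 1944, -648, -972, 3240, 1296, 1296, -142, 24, -108, 232, 96, 0, -2720, -1056, -864, 1496, -588, -324, 0, 324, -324, -468, 54, -324, 144; -4347, -108, -270, 2268, -1296, -972, 2592, -324, 972, -283, 114, 0, 541, 168, -108, 256, 816, -1296, 944, 24, -216, 0, 0, 0, -36, 54, 324, -45; -2268, 1944, -648, 0, 0, 0, 0, -648, 0, -36, 0, 0, -192, -72, 0, 2304, 432, 0, -132, 144, 0, -324, 0, 0, 324, 0, 324, 0; -3564, 2268, -648, 0, 0, 0, 648, -648, 0, 60, -36, 0, -51, -36, 0, 3504, 1152, 0, -30, -36, 0, -810, -324, 0, 54, 0, 162, 27; 3618, 432, -216, -3564, 0, 972, -4536, 0, -1296, 52, -24, 0, -58, -24, 0, 704, 192, 0, 112, -96, 0, 0, 0, 0, 144, -54, 0, 18; 8991, -5508, 1458, -1620, -648, 0, -2268, 972, -324, -111,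 18, -108, -171, 0, 108, -8880, -3168, 1728, 738, -432, -108, 2754, 648, 324, -702, 0, -486, 135; 6642, -4212, 1620, 972, -648, 0, 0, 648, 0, -210, 72, -108, 330, 144, 0, -6432, -1872, -864, -6, 36, 0, 486, 324, 0, -378, 0, -486, 54; 3240, -2268, 648, -324, 648, 0, -648, 1296, 0, 24, -36, -108, -36, 0, 0, -3264, -1008, 432, -126, -108, 0, 1134, 324, 0, 54, 0, -486, 108; -1404, 1080, -540, -972, 0, -324, -972, 0, -648, 130, -60, 0, -145, -60, 0, 1760, 480, 0, 280, -240, 0, 0, 0, 0, 360, -54, 0, 45; 2646, 2052, -216, -1944, 648, 972, -3240, -648, -1296, 64, 12, 108, -40, -24, 0, 1664, 768, 864, -1040, 444, 324, 0, -324, 324, -180, -54, 324, -144; 10341, -3456, 1242, -2268, 1296, 972, -3888, 972, -972, -47, 30, 0, -316, -60, 108, -5920, -2400, 1296, -926, 300, 216, 1134, 324, 0, -126, -54, -162, -36; -5886, 864, -432, 2268, 0, -972, 3888, 0, 1296, 104, -48, 0, -116, -48,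 0, 1408, 384, 0, 224, -192, 0, 0, 0, 0, 288, 54, 0, 36; -7857, 4860, -1134, 1620, -648, 0, 2268, -1620, 324, 33, 18, 108, 363, 72, -108, 7824, 2880, -1728, -282, 288, 108, -2754, -648, -324, 54, 0, 486, -135; -2160, 216, -108, 972, 0, -324, 1620, 0, 648, 26, -12, 0, -29, -12, 0, 352, 96, 0, 56, -48, 0, 0, 0, 0, 72, 54, 0, 9]
theorem hBM : BM * mat eM cM qM = (1296 : ℤ) • (1 : Matrix (Fin 28) (Fin 28) ℤ) := by
  decide +kernel


def mm : Fin 7 → ℕ := ![3, 2, 2, 2, 2, 2, 2]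

def tau : Fin 6 → Fin 5 → Fin 7 := ![![0,3,4,5,6], ![0,1,2,5,6], ![0,1,2,3,4], ![0,1,4,5,6],
  ![0,1,2,3,6], ![0,2,3,4,5]]

def In (A : Fin 6) (i : Fin 7) : Prop := ∃ j, tau A j = i

instance (A : Fin 6) (i : Fin 7) : Decidable (In A i) := by unfold In; infer_instance

structure Gen (p : Fin 7 → Fin 2 → ℂ) : Prop where
  h3 : ∀ s : Fin 3 → Fin 7, Function.Injective s → ∀ f : R, f.totalDegree ≤ 1 →
    (∀ i, eval (p (s i)) f = 0) → f = 0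
  h4 : ∀ s : Fin 4 → Fin 7, Function.Injective s → ∀ f : R, f.totalDegree ≤ 2 →
    f ∈ mx (p (s 0)) ^ 2 → (∀ i, eval (p (s i)) f = 0) → f = 0
  h6 : ∀ o : Fin 7, ∀ f : R, f.totalDegree ≤ 2 → (∀ i, i ≠ o → eval (p i) f = 0) → f = 0
  hM : ∃ w : Fin 4 → Fin 2 → ℂ, ∀ f ∈ sec p 6 mm, (∀ j, eval (w j) f = 0) → f = 0

theorem generic : ∃ G : MvPolynomial (Fin 7 × Fin 2) ℂ, G ≠ 0 ∧ ∀ p : Fin 7 → Fin 2 → ℂ,
    eval (fun ij : Fin 7 × Fin 2 => p ij.1 ij.2) G ≠ 0 → Function.Injective p ∧ Gen p := by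
  obtain ⟨D0, h0, k0⟩ := gen_inj 7
  obtain ⟨D3, h3, k3⟩ := gen_all (d := 1) 7 e3 (by decide +kernel) (by decide +kernel) c3
    (fun _ => 1) (by decide +kernel) q3 (det_ne_of_inv _ B3 _ (by norm_num) hB3)
  obtain ⟨D4, h4, k4⟩ := gen_all (d := 2) 7 e4 (by decide +kernel) (by decide +kernel) c4
    ![2, 1, 1, 1] (by decide +kernel) q4 (det_ne_of_inv _ B4 _ (by norm_num) hB4)
  obtain ⟨D6, h6, k6⟩ := gen_all (d := 2) 7 e6 (by decide +kernel) (by decide +kernel) c6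
    (fun _ => 1) (by decide +kernel) q6 (det_ne_of_inv _ B6 _ (by norm_num) hB6)
  obtain ⟨DM, hM, kM⟩ := gen_P (σ := Fin 7 × Fin 2) (d := 6) eM (by decide +kernel)
    (by decide +kernel) cM ![3, 2, 2, 2, 2, 2, 2, 1, 1, 1, 1] (by decide +kernel) qM
    (det_ne_of_inv _ BM _ (by norm_num) hBM)
    (fun i k => if h : i.val < 7 then X (⟨i.val, h⟩, k) else C (qM i k : ℂ))
    (fun ij => (qM (Fin.castAdd 4 ij.1) ij.2 : ℂ)) (by
      intro i k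
      by_cases h : i.val < 7
      · rw [dif_pos h, eval_X]; rfl
      · rw [dif_neg h, eval_C])
  refine ⟨D0 * D3 * D4 * D6 * DM, mul_ne_zero (mul_ne_zero (mul_ne_zero (mul_ne_zero h0 h3) h4)
    h6) hM, ?_⟩
  intro p hp
  simp only [map_mul, mul_ne_zero_iff] at hp
  obtain ⟨⟨⟨⟨a0, a3⟩, a4⟩, a6⟩, aM⟩ := hp
  refine ⟨k0 p a0, ?_, ?_, ?_, ?_⟩
  · intro s hs f hf hv
    exact k3 p a3 s hs f hf fun i => by rw [pow_one]; exact mem_mx _ _ (hv i)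
  · intro s hs f hf h2 hv
    refine k4 p a4 s hs f hf fun i => ?_
    fin_cases i
    · exact h2
    · exact (pow_one (mx _)).symm ▸ mem_mx _ _ (hv 1)
    · exact (pow_one (mx _)).symm ▸ mem_mx _ _ (hv 2)
    · exact (pow_one (mx _)).symm ▸ mem_mx _ _ (hv 3)
  · intro o f hf hv
    exact k6 p a6 o.succAbove Fin.succAbove_right_injective f hf fun i => by
      rw [pow_one]; exact mem_mx _ _ (hv _ (Fin.succAbove_ne o i))
  · refine ⟨fun j k => (qM (Fin.natAdd 7 j) k : ℂ), fun f hf hv => ?_⟩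
    rw [mem_sec] at hf
    refine kM _ aM f hf.1 fun i => ?_
    by_cases h : i.val < 7
    · simp only [dif_pos h, eval_X]
      have e : (![3, 2, 2, 2, 2, 2, 2, 1, 1, 1, 1] : Fin 11 → ℕ) i = mm ⟨i.val, h⟩ :=
        (by decide : ∀ (i : Fin 11) (h : i.val < 7),
          (![3, 2, 2, 2, 2, 2, 2, 1, 1, 1, 1] : Fin 11 → ℕ) i = mm ⟨i.val, h⟩) i h
      rw [e]
      exact hf.2 ⟨i.val, h⟩
    · simp only [dif_neg h, eval_C]
      obtain ⟨j, rfl, e⟩ : ∃ j : Fin 4, i = Fin.natAdd 7 j ∧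
          (![3, 2, 2, 2, 2, 2, 2, 1, 1, 1, 1] : Fin 11 → ℕ) i = 1 :=
        (by decide : ∀ (i : Fin 11), ¬ i.val < 7 → ∃ j : Fin 4, i = Fin.natAdd 7 j ∧
          (![3, 2, 2, 2, 2, 2, 2, 1, 1, 1, 1] : Fin 11 → ℕ) i = 1) i h
      rw [e, pow_one]
      exact mem_mx _ _ (hv j)

variable {p : Fin 7 → Fin 2 → ℂ}

theorem conic (p : Fin 7 → Fin 2 → ℂ) (A : Fin 6) : ∃ Q : R, Q ≠ 0 ∧ Q.totalDegree ≤ 2 ∧
    ∀ i, In A i → eval (p i) Q = 0 := by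
  obtain ⟨Q, h0, h1, -, h2⟩ := exists_curve (N := 5) (d := 2) (m := 0) e6 (by decide +kernel)
    (by decide +kernel) (by decide +kernel) 0 (fun j => p (tau A j))
  refine ⟨Q, h0, h1, ?_⟩
  rintro i ⟨j, rfl⟩
  exact h2 j

theorem conic_ord (hp : Gen p) (A : Fin 6) (Q : R) (h0 : Q ≠ 0) (h1 : Q.totalDegree ≤ 2)
    (h2 : ∀ i, In A i → eval (p i) Q = 0) (i : Fin 7) :
    ord (p i) Q = ((if In A i then 1 else 0 : ℕ) : ℕ∞) := by
  apply ord_eq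
  · split_ifs with h
    · rw [pow_one]; exact mem_mx _ _ (h2 i h)
    · simp
  · split_ifs with h
    · intro h3
      obtain ⟨a, b, c, hs, hin⟩ := (by decide +kernel : ∀ A i, In A i → ∃ a b c : Fin 7,
        Function.Injective ![i, a, b, c] ∧ ∀ t, In A (![i, a, b, c] t)) A i h
      exact h0 (hp.h4 _ hs Q h1 h3 fun t => h2 _ (hin t))
    · intro h3
      rw [zero_add, pow_one] at h3
      obtain ⟨o, ho⟩ := (by decide +kernel : ∀ A i, ¬ In A i → ∃ o : Fin 7,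
        ∀ j, j ≠ o → In A j ∨ j = i) A i h
      refine h0 (hp.h6 o Q h1 fun j hj => ?_)
      rcases ho j hj with h4 | rfl
      · exact h2 j h4
      · exact eval_mx _ _ h3

theorem conic_deg (hp : Gen p) (A : Fin 6) (Q : R) (h0 : Q ≠ 0) (h1 : Q.totalDegree ≤ 2)
    (h2 : ∀ i, In A i → eval (p i) Q = 0) : Q.totalDegree = 2 := by
  by_contra h
  obtain ⟨a, b, c, hs, hin⟩ := (by decide +kernel : ∀ A, ∃ a b c : Fin 7,
    Function.Injective ![a, b, c] ∧ ∀ t, In A (![a, b, c] t)) A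
  exact h0 (hp.h3 _ hs Q (by omega) fun t => h2 _ (hin t))

theorem conic_dvd (hp : Gen p) (A : Fin 6) (Q : R) (h0 : Q ≠ 0) (h1 : Q.totalDegree ≤ 2)
    (h2 : ∀ i, In A i → eval (p i) Q = 0) (h : R) (hh : Irreducible h) (hd : h ∣ Q) :
    h.totalDegree ≤ 2 ∧ ∀ i, In A i → eval (p i) h = 0 := by
  classical
  obtain ⟨u, rfl⟩ := hd
  have hu0 : u ≠ 0 := right_ne_zero_of_mul h0
  have hdeg := totalDegree_mul_of_isDomain hh.ne_zero hu0
  have unit : ∀ g : R, g ≠ 0 → g.totalDegree = 0 → IsUnit g := by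
    intro g hg hg0
    rw [totalDegree_eq_zero_iff_eq_C] at hg0
    rw [hg0] at hg ⊢
    have : coeff 0 g ≠ 0 := by intro h; apply hg; rw [h]; simp
    exact (IsUnit.mk0 _ this).map C
  have hh1 : h.totalDegree ≠ 0 := fun e => hh.not_isUnit (unit h hh.ne_zero e)
  refine ⟨by omega, ?_⟩
  by_cases hu : u.totalDegree = 0
  · intro i hi
    have := h2 i hi
    rw [map_mul] at this
    exact (mul_eq_zero.1 this).resolve_right ((unit u hu0 hu).map (eval (p i))).ne_zero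
  · exfalso
    obtain ⟨a, b, c, hs, hb⟩ := (by decide +kernel : ∀ β : Fin 5 → Bool, ∃ a b c : Fin 5,
      Function.Injective ![a, b, c] ∧ ∀ t, β (![a, b, c] t) = β a)
      (fun j => decide (eval (p (tau A j)) h = 0))
    have hτ : Function.Injective (tau A) := (by decide +kernel : ∀ A, Function.Injective (tau A)) A
    by_cases ha : eval (p (tau A a)) h = 0
    · refine hh.ne_zero (hp.h3 _ (hτ.comp hs) h (by omega) fun t => ?_)
      simpa [ha] using hb t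
    · refine hu0 (hp.h3 _ (hτ.comp hs) u (by omega) fun t => ?_)
      have h3 : eval (p (tau A (![a, b, c] t))) h ≠ 0 := by simpa [ha] using hb t
      have h4 := h2 _ ⟨![a, b, c] t, rfl⟩
      rw [map_mul] at h4
      exact (mul_eq_zero.1 h4).resolve_left h3

theorem noFixed (hp : Gen p) : NoFixed p 6 mm := by
  choose Q h0 h1 h2 using conic p
  have ho := fun A => conic_ord hp A (Q A) (h0 A) (h1 A) (h2 A)
  have hdg := fun A => conic_deg hp A (Q A) (h0 A) (h1 A) (h2 A)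
  have tri : ∀ A B C : Fin 6, (∀ i, (if In A i then 1 else 0) + (if In B i then 1 else 0) +
      (if In C i then 1 else 0) = mm i) → (Q A * Q B * Q C).totalDegree = 6 ∧
      ∀ i, ord (p i) (Q A * Q B * Q C) = (mm i : ℕ) := by
    intro A B C h
    constructor
    · rw [totalDegree_mul_of_isDomain (mul_ne_zero (h0 A) (h0 B)) (h0 C),
        totalDegree_mul_of_isDomain (h0 A) (h0 B), hdg, hdg, hdg]
    · intro i
      rw [ord_mul, ord_mul, ho, ho, ho, ← h i]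
      norm_cast
  obtain ⟨d1, o1⟩ := tri 0 1 2 (by decide +kernel)
  obtain ⟨d2, o2⟩ := tri 3 4 5 (by decide +kernel)
  have m1 : Q 0 * Q 1 * Q 2 ∈ sec p 6 mm :=
    (mem_sec _ _ _ _).2 ⟨d1.le, fun i => (mem_iff_ord _ _ _).2 (o1 i).ge⟩
  have m2 : Q 3 * Q 4 * Q 5 ∈ sec p 6 mm :=
    (mem_sec _ _ _ _).2 ⟨d2.le, fun i => (mem_iff_ord _ _ _).2 (o2 i).ge⟩
  refine ⟨⟨_, m1, mul_ne_zero (mul_ne_zero (h0 _) (h0 _)) (h0 _), d1⟩, ?_, ?_⟩
  · intro h hh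
    by_contra hcon
    push Not at hcon
    have hpr : Prime h := hh.prime
    have three : ∀ A B C : Fin 6, h ∣ Q A * Q B * Q C → ∃ Z, (Z = A ∨ Z = B ∨ Z = C) ∧ h ∣ Q Z := by
      intro A B C hd
      rcases hpr.dvd_or_dvd hd with hd | hd
      · rcases hpr.dvd_or_dvd hd with hd | hd
        · exact ⟨A, Or.inl rfl, hd⟩
        · exact ⟨B, Or.inr (Or.inl rfl), hd⟩
      · exact ⟨C, Or.inr (Or.inr rfl), hd⟩
    obtain ⟨A, hA, dA⟩ := three _ _ _ (hcon _ m1)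
    obtain ⟨B, hB, dB⟩ := three _ _ _ (hcon _ m2)
    obtain ⟨a1, a2⟩ := conic_dvd hp A _ (h0 A) (h1 A) (h2 A) h hh dA
    obtain ⟨-, b2⟩ := conic_dvd hp B _ (h0 B) (h1 B) (h2 B) h hh dB
    obtain ⟨o, ho⟩ := (by decide +kernel : ∀ A B : Fin 6, (A = 0 ∨ A = 1 ∨ A = 2) →
      (B = 3 ∨ B = 4 ∨ B = 5) → ∃ o : Fin 7, ∀ j, j ≠ o → In A j ∨ In B j) A B hA hB
    refine hh.ne_zero (hp.h6 o h a1 fun j hj => ?_)
    rcases ho j hj with h4 | h4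
    · exact a2 j h4
    · exact b2 j h4
  · intro i
    refine ⟨_, m1, fun h => ?_⟩
    rw [mem_iff_ord, o1] at h
    have : mm i + 1 ≤ mm i := by exact_mod_cast h
    omega

theorem ker_ne (p : Fin 7 → Fin 2 → ℂ) : LinearMap.ker (rho p 6 mm 0) ≠ ⊥ := by
  obtain ⟨N, h0, h1, h2, h3⟩ := exists_curve (N := 6) (d := 3) (m := 2)
    ![(2,0), (1,1), (0,2), (3,0), (2,1), (1,2), (0,3)] (by decide +kernel)
    (by decide +kernel) (by decide +kernel) (p 0) (fun j => p j.succ)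
  have h4 : N * N ∈ mx (p 0) ^ 4 := by
    rw [show 4 = 2 + 2 from rfl, pow_add]
    exact Ideal.mul_mem_mul h2 h2
  have hm : N * N ∈ sec p 6 mm := by
    rw [mem_sec]
    refine ⟨(totalDegree_mul _ _).trans (by omega), fun i => ?_⟩
    refine Fin.cases ?_ (fun j => ?_) i
    · exact Ideal.pow_le_pow_right (by decide) h4
    · rw [(by decide : ∀ j : Fin 6, mm j.succ = 2) j, pow_two]
      exact Ideal.mul_mem_mul (mem_mx _ _ (h3 j)) (mem_mx _ _ (h3 j))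
  rw [Submodule.ne_bot_iff]
  refine ⟨⟨N * N, hm⟩, ?_, fun h => mul_ne_zero h0 h0 (congrArg Subtype.val h)⟩
  rw [LinearMap.mem_ker]
  apply Subtype.ext
  change homogeneousComponent 3 (tr (p 0) (N * N)) = 0
  rw [mem_iff_tr, mem_pow_idealOfVars_iff'] at h4
  ext s
  rw [coeff_homogeneousComponent]
  split_ifs with h
  · exact h4 s (by omega)
  · rfl

theorem not_surj (hp : Gen p) : ¬ Function.Surjective (rho p 6 mm 0) := by
  intro hs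
  obtain ⟨w, hw⟩ := hp.hM
  let ev : sec p 6 mm →ₗ[ℂ] (Fin 4 → ℂ) :=
    LinearMap.pi fun j => (aeval (w j) : R →ₐ[ℂ] ℂ).toLinearMap ∘ₗ (sec p 6 mm).subtype
  have hev : Function.Injective ev := by
    rw [← LinearMap.ker_eq_bot, Submodule.eq_bot_iff]
    intro f hf
    apply Subtype.ext
    refine hw f.1 f.2 fun j => ?_
    have := congrFun (LinearMap.mem_ker.1 hf) j
    simpa [ev, coe_aeval_eq_eval] using this
  have : FiniteDimensional ℂ (sec p 6 mm) := Module.Finite.of_injective ev hev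
  have h1 : Module.finrank ℂ (sec p 6 mm) ≤ 4 := by
    simpa using LinearMap.finrank_le_finrank_of_injective hev
  have h2 := LinearMap.finrank_range_add_finrank_ker (rho p 6 mm 0)
  have h3 : Module.finrank ℂ (LinearMap.ker (rho p 6 mm 0)) ≠ 0 := by
    rw [Ne, Submodule.finrank_eq_zero]
    exact ker_ne p
  rw [LinearMap.range_eq_top.2 hs, finrank_top] at h2
  have : FiniteDimensional ℂ (homogeneousSubmodule (Fin 2) ℂ (mm 0)) :=
    Module.Finite.of_surjective _ hs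
  let e : Fin 4 → ℕ × ℕ := ![(3,0), (2,1), (1,2), (0,3)]
  have he : Function.Injective e := by decide +kernel
  have hdeg : ∀ j, (e j).1 + (e j).2 = 3 := by decide +kernel
  let v : Fin 4 → homogeneousSubmodule (Fin 2) ℂ (mm 0) := fun j =>
    ⟨monomial (ex (e j)) 1, isHomogeneous_monomial _ (by rw [ex_deg]; exact hdeg j)⟩
  have hv : LinearIndependent ℂ v := by
    apply LinearIndependent.of_comp (homogeneousSubmodule (Fin 2) ℂ (mm 0)).subtype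
    have := (basisMonomials (Fin 2) ℂ).linearIndependent.comp (fun j => ex (e j))
      (ex_inj.comp he)
    simpa [Function.comp_def, v] using this
  have h4 := hv.fintype_card_le_finrank
  simp only [Fintype.card_fin] at h4
  omega

end Pool.Agent.H50.Restr
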