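import Mathlib

namespace Pool.Agent.H50.Sdef

open MvPolynomial Pointwise

abbrev Ex := Fin 3 →₀ ℕ

noncomputable def ex (a b c : ℕ) : Ex := Finsupp.equivFunOnFinite.symm ![a, b, c]

@[simp] lemma ex0 (a b c : ℕ) : ex a b c 0 = a := rfl
@[simp] lemma ex1 (a b c : ℕ) : ex a b c 1 = b := rfl
@[simp] lemma ex2 (a b c : ℕ) : ex a b c 2 = c := rfl

lemma ex_ext {m m' : Ex} : m = m' ↔ m 0 = m' 0 ∧ m 1 = m' 1 ∧ m 2 = m' 2 :=
  ⟨by rintro rfl; simp, fun h => by ext i; fin_cases i <;> simp [h]⟩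

lemma ex_le {m m' : Ex} : m ≤ m' ↔ m 0 ≤ m' 0 ∧ m 1 ≤ m' 1 ∧ m 2 ≤ m' 2 :=
  ⟨fun h => ⟨h 0, h 1, h 2⟩, fun h i => by fin_cases i <;> simp [h]⟩

variable {k : Type} [Field k]

lemma mono_eq (a b c : ℕ) :
    (X 0 ^ a * X 1 ^ b * X 2 ^ c : MvPolynomial (Fin 3) k) = monomial (ex a b c) 1 := by
  rw [monomial_eq, Finsupp.prod_fintype _ _ (by simp)]
  simp [Fin.prod_univ_three]

variable (k) in
noncomputable def Mo (S : Set Ex) : Ideal (MvPolynomial (Fin 3) k) :=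
  Ideal.span ((fun s => monomial s (1 : k)) '' S)

lemma Mo_mul (S T : Set Ex) : Mo k S * Mo k T = Mo k (S + T) := by
  rw [Mo, Mo, Mo, Ideal.span_mul_span']
  congr 1
  ext p
  constructor
  · rintro ⟨_, ⟨a, ha, rfl⟩, _, ⟨b, hb, rfl⟩, rfl⟩
    exact ⟨a + b, ⟨a, ha, b, hb, rfl⟩, by simp [monomial_mul]⟩
  · rintro ⟨_, ⟨a, ha, b, hb, rfl⟩, rfl⟩
    exact ⟨_, ⟨a, ha, rfl⟩, _, ⟨b, hb, rfl⟩, by simp [monomial_mul]⟩

def Gn (n : ℕ) : Set Ex :=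
  {m | ∃ a b c d, a + b + c + d = n ∧ m = ex (b + c + 2 * d) (3 * a + b + 2 * c) (b + d)}

lemma Gn_succ (n : ℕ) : Gn n + Gn 1 = Gn (n + 1) := by
  ext m
  constructor
  · rintro ⟨_, ⟨a, b, c, d, h, rfl⟩, _, ⟨a', b', c', d', h', rfl⟩, rfl⟩
    exact ⟨a + a', b + b', c + c', d + d', by omega, by simp [ex_ext]; omega⟩
  · rintro ⟨a, b, c, d, h, rfl⟩
    have key : ∀ a' b' c' d', a' + b' + c' + d' = 1 → a' ≤ a → b' ≤ b → c' ≤ c → d' ≤ d →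
        ex (b + c + 2 * d) (3 * a + b + 2 * c) (b + d) ∈ Gn n + Gn 1 := fun a' b' c' d' _ _ _ _ _ =>
      ⟨_, ⟨a - a', b - b', c - c', d - d', by omega, rfl⟩, _, ⟨a', b', c', d', by omega, rfl⟩,
        by simp [ex_ext]; omega⟩
    rcases (by omega : 1 ≤ a ∨ 1 ≤ b ∨ 1 ≤ c ∨ 1 ≤ d) with h | h | h | h
    · exact key 1 0 0 0 rfl h (by omega) (by omega) (by omega)
    · exact key 0 1 0 0 rfl (by omega) h (by omega) (by omega)
    · exact key 0 0 1 0 rfl (by omega) (by omega) h (by omega)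
    · exact key 0 0 0 1 rfl (by omega) (by omega) (by omega) h

def pw (n x y z : ℕ) : Prop :=
  ∃ a b c d, a + b + c + d = n ∧ b + c + 2 * d ≤ x ∧ 3 * a + b + 2 * c ≤ y ∧ b + d ≤ z

lemma memG (n : ℕ) (p : MvPolynomial (Fin 3) k) :
    p ∈ Mo k (Gn n) ↔ ∀ m ∈ p.support, pw n (m 0) (m 1) (m 2) := by
  rw [Mo, mem_ideal_span_monomial_image]
  refine forall₂_congr fun m _ => ⟨?_, ?_⟩
  · rintro ⟨_, ⟨a, b, c, d, h, rfl⟩, h1⟩
    exact ⟨a, b, c, d, h, ex_le.1 h1⟩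
  · rintro ⟨a, b, c, d, h, h1⟩
    exact ⟨_, ⟨a, b, c, d, h, rfl⟩, ex_le.2 h1⟩

lemma pow_eq (n : ℕ) : Mo k (Gn 1) ^ n = Mo k (Gn n) := by
  induction n with
  | zero =>
    rw [pow_zero, Ideal.one_eq_top, eq_comm, eq_top_iff]
    exact fun p _ => (memG 0 p).2 fun m _ => ⟨0, 0, 0, 0, rfl, by simp⟩
  | succ n ih => rw [pow_succ, ih, Mo_mul, Gn_succ]

lemma prim {L : Type} [LinearOrder L] (D : Ex → L) (u q : Ex → Prop)
    (hD : ∀ a a' b b', D a' ≤ D a → D b' ≤ D b → a' + b' = a + b → a' = a)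
    (hu : ∀ a a', u a → D a ≤ D a' → u a') (h1 : ∀ a m, q m → q (a + m))
    (h2 : ∀ a m, u a → q (a + m) → q m) {s f : MvPolynomial (Fin 3) k}
    (hs : ∃ a ∈ s.support, u a) (h : ∀ m ∈ (s * f).support, q m) : ∀ m ∈ f.support, q m := by
  classical
  by_contra hn
  push Not at hn
  obtain ⟨m, hm, hq⟩ := hn
  obtain ⟨a0, ha0, hu0⟩ := hs
  obtain ⟨a, ha, ma⟩ := s.support.exists_max_image D ⟨a0, ha0⟩
  obtain ⟨b, hb, mb⟩ := (f.support.filter fun m => ¬ q m).exists_max_image D ⟨m, by simp_all⟩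
  rw [Finset.mem_filter] at hb
  have h3 : ¬ q (a + b) := fun h3 => hb.2 (h2 _ _ (hu _ _ hu0 (ma _ ha0)) h3)
  refine h3 (h _ (mem_support_iff.2 ?_))
  rw [coeff_mul, Finset.sum_eq_single (a, b)]
  · exact mul_ne_zero (mem_support_iff.1 ha) (mem_support_iff.1 hb.1)
  · rintro ⟨a', b'⟩ h4 h5
    have h6 : a' + b' = a + b := by simpa using h4
    by_contra h7
    obtain ⟨h8, h9⟩ := mul_ne_zero_iff.1 h7
    obtain rfl := hD a a' b b' (ma _ (mem_support_iff.2 h8)) (mb _ (Finset.mem_filter.2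
      ⟨mem_support_iff.2 h9, fun h => h3 (h6 ▸ h1 _ _ h)⟩)) h6
    exact h5 (by rw [add_left_cancel h6])
  · simp

lemma dim {A B : Submodule k (MvPolynomial (Fin 3) k)} {a b : Ex → Prop} (T : Finset Ex)
    (hA : ∀ p, p ∈ A ↔ ∀ m ∈ p.support, a m) (hB : ∀ p, p ∈ B ↔ ∀ m ∈ p.support, b m)
    (hT : ∀ m, m ∈ T ↔ a m ∧ ¬ b m) :
    Module.finrank k (A ⧸ B.comap A.subtype) = T.card := by
  classical
  let Φ : A →ₗ[k] T → k := LinearMap.pi fun m => (lcoeff k m.1).comp A.subtype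
  have h1 : LinearMap.ker Φ = B.comap A.subtype := by
    ext p
    rw [LinearMap.mem_ker, Submodule.mem_comap, hB]
    refine ⟨fun h m hm => by_contra fun hb => mem_support_iff.1 hm
      (congrFun h ⟨m, (hT m).2 ⟨(hA _).1 p.2 m hm, hb⟩⟩), fun h => funext fun m => ?_⟩
    exact by_contra fun h2 => ((hT _).1 m.2).2 (h _ (mem_support_iff.2 h2))
  have h2 : Function.Surjective Φ := fun c => by
    refine ⟨⟨∑ m : T, monomial m.1 (c m), A.sum_mem fun m _ => (hA _).2 fun m' hm' => ?_⟩, ?_⟩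
    · have : m.1 = m' := by_contra fun h => by simp [coeff_monomial, h] at hm'
      exact this ▸ ((hT _).1 m.2).1
    · ext m
      simp [Φ, coeff_sum, coeff_monomial, Subtype.val_inj]
  rw [← h1, (Φ.quotKerEquivOfSurjective h2).finrank_eq]
  simp

def A (n x y z : ℕ) : Prop := 2 * n ≤ x + y ∧ 3 * n ≤ 2 * x + y ∧ 2 * n ≤ y + 2 * z

lemma pw1 {n x y z : ℕ} (h : A n x y z) : pw n x y (z + n) := by
  obtain ⟨h1, h2, -⟩ := h
  by_cases h3 : n ≤ x ∧ n ≤ y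
  · exact ⟨0, n, 0, 0, by omega⟩
  by_cases h4 : x < n
  · exact ⟨n - x, x, 0, 0, by omega⟩
  · exact ⟨0, y, 0, n - y, by omega⟩

lemma pw2 {n x y z : ℕ} (h : A n x y z) : pw n (x + 2 * n) y z := by
  obtain ⟨-, -, h1⟩ := h
  by_cases h3 : n ≤ z
  · exact ⟨0, 0, 0, n, by omega⟩
  · exact ⟨0, 0, n - z, z, by omega⟩

lemma socle {x y z : ℕ} (h : pw 1 (x + 1) y z) (h' : pw 1 x y (z + 1)) : pw 1 x y z := by
  obtain ⟨a, b, c, d, h⟩ := h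
  obtain ⟨a', b', c', d', h'⟩ := h'
  by_cases h1 : 3 ≤ y
  · exact ⟨1, 0, 0, 0, by omega⟩
  by_cases h2 : 1 ≤ x ∧ 2 ≤ y
  · exact ⟨0, 0, 1, 0, by omega⟩
  by_cases h3 : 1 ≤ y
  · exact ⟨0, 1, 0, 0, by omega⟩
  · exact ⟨0, 0, 0, 1, by omega⟩

def Y (n y : ℕ) : Prop :=
  2 ≤ y ∧ y + 2 ≤ 3 * n ∧ (y ≤ n ∨ (y + n) % 2 = 0 ∨ (n % 2 = 1 ∧ y ≤ 2 * n))

lemma char {n x y z : ℕ} (hn : 1 ≤ n) :
    (x = max (2 * n - y) ((3 * n - y + 1) / 2) ∧ z = (2 * n - y + 1) / 2 ∧ Y n y) ↔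
    A n x y z ∧ ¬ (pw n x y z ∨ (1 ≤ x ∧ A n (x - 1) y z) ∨ (1 ≤ y ∧ A n x (y - 1) z) ∨
      (1 ≤ z ∧ A n x y (z - 1))) := by
  unfold A Y
  constructor
  · rintro ⟨h1, h2, h3⟩
    refine ⟨by omega, ?_⟩
    rintro (⟨a, b, c, d, h⟩ | h | h | h) <;> omega
  · rintro ⟨h1, h2⟩
    simp only [not_or] at h2
    obtain ⟨h2, h3, h4, h5⟩ := h2
    refine ⟨by omega, by omega, ?_, ?_, by omega⟩
    · by_contra h
      exact h2 ⟨0, y, 0, n - y, by omega⟩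
    · by_contra h
      exact h2 ⟨n - (3 * n - y), 0, 3 * n - y, 0, by omega⟩

end Pool.Agent.H50.Sdef
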