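import Mathlib
import Pool.Agent.H50.SeshAlg

set_option autoImplicit false
set_option linter.unusedSimpArgs false
set_option maxRecDepth 100000

namespace Pool.Agent.H50.SeshMain

open MvPolynomial Pool.Agent.H50.SeshDefs Pool.Agent.H50.SeshAlg Filter Topology Matrix

section gen
variable {K : Type} [CommRing K]

def cv (a : Fin 8 → K) (v : Fin 3 → K) : K :=
  a 0 * (v 0 ^ 2 * v 1) + a 1 * (v 0 ^ 2 * v 2) + a 2 * (v 0 * v 1 ^ 2) + a 3 * (v 0 * v 1 * v 2) +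
    a 4 * (v 0 * v 2 ^ 2) + a 5 * (v 1 ^ 2 * v 2) + a 6 * (v 1 * v 2 ^ 2) + a 7 * v 2 ^ 3
def c0 (a : Fin 8 → K) (v : Fin 3 → K) : K :=
  2 * a 0 * v 0 * v 1 + 2 * a 1 * v 0 * v 2 + a 2 * v 1 ^ 2 + a 3 * v 1 * v 2 + a 4 * v 2 ^ 2
def c1 (a : Fin 8 → K) (v : Fin 3 → K) : K :=
  a 0 * v 0 ^ 2 + 2 * a 2 * v 0 * v 1 + a 3 * v 0 * v 2 + 2 * a 5 * v 1 * v 2 + a 6 * v 2 ^ 2
def f (a : Fin 8 → K) (v : Fin 3 → K) : K := v 0 ^ 3 + cv a v
def g (a : Fin 8 → K) (v : Fin 3 → K) : K := v 1 ^ 3 + cv a v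
def Dv (a b : Fin 8 → K) (u v : Fin 3 → K) : K := g b u * f a v - f a u * g b v
def D0 (a b : Fin 8 → K) (u v : Fin 3 → K) : K := g b u * (3 * v 0 ^ 2 + c0 a v) - f a u * c0 b v
def D1 (a b : Fin 8 → K) (u v : Fin 3 → K) : K := g b u * c1 a v - f a u * (3 * v 1 ^ 2 + c1 b v)
def Jc (a b : Fin 8 → K) (u u' v : Fin 3 → K) : K :=
  D0 a b u v * D1 a b u' v - D1 a b u v * D0 a b u' v
def mi (u v : Fin 3 → K) : K := (u 0 + 3 * u 1) * v 2 - (v 0 + 3 * v 1) * u 2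
def mon (v : Fin 3 → K) : Fin 8 → K :=
  ![v 0 ^ 2 * v 1, v 0 ^ 2 * v 2, v 0 * v 1 ^ 2, v 0 * v 1 * v 2, v 0 * v 2 ^ 2, v 1 ^ 2 * v 2,
    v 1 * v 2 ^ 2, v 2 ^ 3]
def con (v : Fin 3 → K) : Fin 6 → K :=
  ![v 0 ^ 2, v 0 * v 1, v 0 * v 2, v 1 ^ 2, v 1 * v 2, v 2 ^ 2]
end gen

noncomputable def cub (a : Fin 8 → ℂ) : R := cv (fun i => C (a i)) X
noncomputable def Dp (a b : Fin 8 → ℂ) (u : Fin 3 → ℂ) : R :=
  C (g b u) * (X 0 ^ 3 + cub a) - C (f a u) * (X 1 ^ 3 + cub b)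

theorem cub_hom (a : Fin 8 → ℂ) : (cub a).IsHomogeneous 3 := by
  have x := fun i : Fin 3 => isHomogeneous_X ℂ i
  have y := fun (i : Fin 3) (n : ℕ) => isHomogeneous_X_pow (R := ℂ) i n
  exact ((((((((((y 0 2).mul (x 1)).C_mul _).add (((y 0 2).mul (x 2)).C_mul _)).add
    (((x 0).mul (y 1 2)).C_mul _)).add ((((x 0).mul (x 1)).mul (x 2)).C_mul _)).add
    (((x 0).mul (y 2 2)).C_mul _)).add (((y 1 2).mul (x 2)).C_mul _)).add
    (((x 1).mul (y 2 2)).C_mul _)).add ((y 2 3).C_mul _))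

theorem Dp_hom (a b : Fin 8 → ℂ) (u : Fin 3 → ℂ) : (Dp a b u).IsHomogeneous 3 :=
  (((isHomogeneous_X_pow _ _).add (cub_hom a)).C_mul _).sub
    (((isHomogeneous_X_pow _ _).add (cub_hom b)).C_mul _)

theorem eval_Dp (a b : Fin 8 → ℂ) (u v : Fin 3 → ℂ) : eval v (Dp a b u) = Dv a b u v := by
  simp [Dp, cub, Dv, cv, f, g]

theorem eval_Dp0 (a b : Fin 8 → ℂ) (u v : Fin 3 → ℂ) :
    eval v (pderiv 0 (Dp a b u)) = D0 a b u v := by
  simp only [Dp, D0]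
  generalize g b u = s
  generalize f a u = t
  simp [cub, cv, c0, pderiv_X, Pi.single_apply]
  ring

theorem eval_Dp1 (a b : Fin 8 → ℂ) (u v : Fin 3 → ℂ) :
    eval v (pderiv 1 (Dp a b u)) = D1 a b u v := by
  simp only [Dp, D1]
  generalize g b u = s
  generalize f a u = t
  simp [cub, cv, c1, pderiv_X, Pi.single_apply]
  ring

def bas (i : Fin 8) : Fin 11 := ⟨i, by omega⟩
def ext (j : Fin 3) : Fin 11 := ⟨8 + j, by omega⟩
def six (i : Fin 6) : Fin 8 := ⟨i, by omega⟩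

def pz : Fin 11 → Fin 3 → ℤ := ![![-1, -1, 1], ![0, -1, 1], ![1, -1, 1], ![-1, 0, 1], ![1, 0, 1],
  ![-1, 1, 1], ![0, 1, 1], ![1, 1, 1], ![2, 2, 1], ![2, 3, 1], ![3, 2, 1]]
def az : Fin 8 → ℤ := ![0, 0, 0, 0, -1, 0, 0, 0]
def bz : Fin 8 → ℤ := ![0, 0, 0, 0, 0, 0, -1, 0]
def qz : Fin 3 → ℤ := ![0, 0, 1]
def p0 : Fin 11 → Fin 3 → ℂ := fun i k => pz i k
def a0 : Fin 8 → ℂ := fun i => az i
def b0 : Fin 8 → ℂ := fun i => bz i

abbrev E := Fin 11 → Fin 3 → ℂ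
abbrev P := (Fin 8 → ℂ) × (Fin 8 → ℂ) × ℂ × ℂ

def w0 : P := (a0, b0, 0, 0)
def qq (w : P) : Fin 3 → ℂ := ![w.2.2.1, w.2.2.2, 1]

theorem qq0 : qq w0 = fun k => (qz k : ℂ) := by
  ext k; fin_cases k <;> simp [qq, w0, qz]

def M6 (p : E) : Matrix (Fin 6) (Fin 6) ℂ := Matrix.of fun i => con (p (bas (six i)))
def M8 (p : E) : Matrix (Fin 8) (Fin 8) ℂ := Matrix.of fun i => mon (p (bas i))

theorem M6_det : (M6 p0).det ≠ 0 := by
  intro h
  obtain ⟨v, hv, e⟩ := Matrix.exists_mulVec_eq_zero_iff.2 h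
  have e0 := congrFun e 0
  have e1 := congrFun e 1
  have e2 := congrFun e 2
  have e3 := congrFun e 3
  have e4 := congrFun e 4
  have e5 := congrFun e 5
  simp [M6, Matrix.mulVec, dotProduct, Fin.sum_univ_succ, con, p0, pz, bas, six] at e0 e1 e2 e3 e4 e5
  apply hv
  have h0 : v 0 = 0 := by linear_combination (e0 + e2) / 2 - e1
  have h5 : v 5 = 0 := by linear_combination (e3 + e4) / 2 - h0
  have h2 : v 2 = 0 := by linear_combination (e4 - e3) / 2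
  have h1 : v 1 = 0 := by linear_combination (e0 - e2) / 2 + h2
  have h3 : v 3 = 0 := by linear_combination (e5 + e1) / 2 - h0 / 2 + h1 / 2 + h2 / 2 - h5
  have h4 : v 4 = 0 := by linear_combination -e1 + h3 + h5
  ext i; fin_cases i <;> assumption

theorem M8_det : (M8 p0).det ≠ 0 := by
  intro h
  obtain ⟨v, hv, e⟩ := Matrix.exists_mulVec_eq_zero_iff.2 h
  have e0 := congrFun e 0
  have e1 := congrFun e 1
  have e2 := congrFun e 2
  have e3 := congrFun e 3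
  have e4 := congrFun e 4
  have e5 := congrFun e 5
  have e6 := congrFun e 6
  have e7 := congrFun e 7
  simp [M8, Matrix.mulVec, dotProduct, Fin.sum_univ_succ, mon, p0, pz, bas] at e0 e1 e2 e3 e4 e5 e6 e7
  apply hv
  have h4 : v 4 = 0 := by linear_combination (e4 - e3) / 2
  have h6 : v 6 = 0 := by linear_combination (e6 - e1) / 2
  have h3 : v 3 = 0 := by linear_combination (e0 - e2 - e5 + e7) / 4
  have h0 : v 0 = 0 := by linear_combination (-e0 - e2 + e5 + e7) / 4 - h6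
  have h2 : v 2 = 0 := by linear_combination (-e0 + e2 - e5 + e7) / 4 - h4
  have h7 : v 7 = 0 := by linear_combination (e3 + e4 + e1 + e6) / 2 - (e0 + e2 + e5 + e7) / 4
  have h1 : v 1 = 0 := by linear_combination (e3 + e4) / 2 - h7
  have h5 : v 5 = 0 := by linear_combination (e1 + e6) / 2 - h7
  ext i; fin_cases i <;> assumption

theorem M8_mulVec (p : E) (a : Fin 8 → ℂ) (i : Fin 8) : (M8 p *ᵥ a) i = cv a (p (bas i)) := by
  simp [M8, Matrix.mulVec, dotProduct, Fin.sum_univ_succ, mon, cv]; ring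

theorem cont_M8 : Continuous M8 := by
  refine continuous_matrix fun i j => ?_
  fin_cases j <;> simp [M8, mon] <;> fun_prop

theorem cont_M6 : Continuous M6 := by
  refine continuous_matrix fun i j => ?_
  fin_cases j <;> simp [M6, con] <;> fun_prop

noncomputable def sol (k : Fin 3) (p : E) : Fin 8 → ℂ := (M8 p)⁻¹ *ᵥ fun i => -p (bas i) k ^ 3

theorem sol_spec (k : Fin 3) {p : E} (h : (M8 p).det ≠ 0) (i : Fin 8) :
    p (bas i) k ^ 3 + cv (sol k p) (p (bas i)) = 0 := by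
  rw [← M8_mulVec, sol, Matrix.mulVec_mulVec, Matrix.mul_nonsing_inv _ (IsUnit.mk0 _ h)]
  simp

theorem sol_cont (k : Fin 3) : ContinuousAt (sol k) p0 := by
  have h1 : ContinuousAt (fun p => (M8 p)⁻¹) p0 := by
    simp only [Matrix.inv_def, Ring.inverse_eq_inv']
    exact (cont_M8.matrix_det.continuousAt.inv₀ M8_det).smul cont_M8.matrix_adjugate.continuousAt
  have h2 : Continuous fun x : Matrix (Fin 8) (Fin 8) ℂ × (Fin 8 → ℂ) => x.1 *ᵥ x.2 :=
    continuous_fst.matrix_mulVec continuous_snd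
  have h3 : ContinuousAt (fun p : E => fun i => -p (bas i) k ^ 3) p0 :=
    Continuous.continuousAt (continuous_pi fun i => by fun_prop)
  exact h2.continuousAt.comp (f := fun p : E => ((M8 p)⁻¹, fun i => -p (bas i) k ^ 3))
    (h1.prodMk h3)

theorem sol_eq (k : Fin 3) (a : Fin 8 → ℂ) (h : ∀ i, p0 (bas i) k ^ 3 + cv a (p0 (bas i)) = 0) :
    sol k p0 = a := by
  have : (fun i => -p0 (bas i) k ^ 3) = M8 p0 *ᵥ a := by
    ext i; rw [M8_mulVec]; linear_combination -h i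
  rw [sol, this, Matrix.mulVec_mulVec, Matrix.nonsing_inv_mul _ (IsUnit.mk0 _ M8_det)]
  simp

theorem sol0 : sol 0 p0 = a0 := by
  refine sol_eq _ _ fun i => ?_
  have : ∀ i, pz (bas i) 0 ^ 3 + cv az (pz (bas i)) = 0 := by decide
  have := congrArg (Int.cast : ℤ → ℂ) (this i)
  simpa [cv, p0, a0] using this

theorem sol1 : sol 1 p0 = b0 := by
  refine sol_eq _ _ fun i => ?_
  have : ∀ i, pz (bas i) 1 ^ 3 + cv bz (pz (bas i)) = 0 := by decide
  have := congrArg (Int.cast : ℤ → ℂ) (this i)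
  simpa [cv, p0, b0] using this

def Th (w : P) : P := (w.1, w.2.1, f w.1 (qq w), g w.2.1 (qq w))

theorem Th_map : map Th (𝓝 w0) = 𝓝 w0 := by
  let La : P →L[ℂ] (Fin 8 → ℂ) := ContinuousLinearMap.fst ℂ _ _
  let Lb : P →L[ℂ] (Fin 8 → ℂ) :=
    (ContinuousLinearMap.fst ℂ _ _).comp (ContinuousLinearMap.snd ℂ _ _)
  let Lx : P →L[ℂ] ℂ := (ContinuousLinearMap.fst ℂ _ _).comp
    ((ContinuousLinearMap.snd ℂ _ _).comp (ContinuousLinearMap.snd ℂ _ _))
  let Ly : P →L[ℂ] ℂ := (ContinuousLinearMap.snd ℂ _ _).comp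
    ((ContinuousLinearMap.snd ℂ _ _).comp (ContinuousLinearMap.snd ℂ _ _))
  have ha : HasStrictFDerivAt (fun w : P => w.1) La w0 := La.hasStrictFDerivAt
  have hb : HasStrictFDerivAt (fun w : P => w.2.1) Lb w0 := Lb.hasStrictFDerivAt
  have hx : HasStrictFDerivAt (fun w : P => w.2.2.1) Lx w0 := Lx.hasStrictFDerivAt
  have hy : HasStrictFDerivAt (fun w : P => w.2.2.2) Ly w0 := Ly.hasStrictFDerivAt
  have hai : ∀ i, HasStrictFDerivAt (fun w : P => w.1 i)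
      ((ContinuousLinearMap.proj i).comp La) w0 := fun i =>
    ((ContinuousLinearMap.proj (R := ℂ) (φ := fun _ : Fin 8 => ℂ) i).comp La).hasStrictFDerivAt
  have hbi : ∀ i, HasStrictFDerivAt (fun w : P => w.2.1 i)
      ((ContinuousLinearMap.proj i).comp Lb) w0 := fun i =>
    ((ContinuousLinearMap.proj (R := ℂ) (φ := fun _ : Fin 8 => ℂ) i).comp Lb).hasStrictFDerivAt
  have hF : HasStrictFDerivAt (fun w : P => f w.1 (qq w))
      ((ContinuousLinearMap.proj 7).comp La - Lx) w0 := by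
    have := (((((hai 7).add ((hai 4).mul hx)).add ((hai 6).mul hy)).add
      (hx.mul (hx.mul ((hx.add ((hai 0).mul hy)).add (hai 1))))).add
      (hx.mul (hy.mul (((hai 2).mul hy).add (hai 3))))).add (hy.mul ((hai 5).mul hy))
    refine (this.congr_fderiv (ContinuousLinearMap.ext fun w => ?_)).congr_of_eventuallyEq
      (Eventually.of_forall fun w => ?_)
    · simp [w0, a0, az, La, Lx, Ly, sub_eq_add_neg]
    · simp [f, cv, qq]; ring
  have hG : HasStrictFDerivAt (fun w : P => g w.2.1 (qq w))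
      ((ContinuousLinearMap.proj 7).comp Lb - Ly) w0 := by
    have := (((((hbi 7).add ((hbi 4).mul hx)).add ((hbi 6).mul hy)).add
      (hx.mul (hx.mul (((hbi 0).mul hy).add (hbi 1))))).add
      (hx.mul (hy.mul (((hbi 2).mul hy).add (hbi 3))))).add (hy.mul (((hbi 5).add hy).mul hy))
    refine (this.congr_fderiv (ContinuousLinearMap.ext fun w => ?_)).congr_of_eventuallyEq
      (Eventually.of_forall fun w => ?_)
    · simp [w0, b0, bz, Lb, Lx, Ly, sub_eq_add_neg]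
    · simp [g, cv, qq]; ring
  have h := ha.prodMk (hb.prodMk (hF.prodMk hG))
  have e : Th w0 = w0 := by simp [Th, w0, f, g, cv, qq, a0, b0, az, bz]
  have := h.map_nhds_eq_of_surj (by
    rw [LinearMap.range_eq_top]
    rintro ⟨a, b, x, y⟩
    exact ⟨(a, b, a 7 - x, b 7 - y), by simp [La, Lb, Lx, Ly]⟩)
  exact this.trans (congrArg 𝓝 e)

structure Good (p : E) (w : P) : Prop where
  h1 : ∀ j i, D0 w.1 w.2.1 (p (ext j)) (p (bas i)) ≠ 0
  h2 : ∀ j, D0 w.1 w.2.1 (p (ext j)) (qq w) ≠ 0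
  h3 : ∀ j, D0 w.1 w.2.1 (p (ext j)) (p (ext j)) ≠ 0
  h4 : ∀ j k, j ≠ k → Dv w.1 w.2.1 (p (ext j)) (p (ext k)) ≠ 0
  h5 : ∀ i j, i ≠ j → mi (p i) (p j) ≠ 0
  h6 : ∀ i, mi (qq w) (p i) ≠ 0
  h7 : (M6 p).det ≠ 0
  h8 : ∀ j k, j ≠ k → ∀ i, Jc w.1 w.2.1 (p (ext j)) (p (ext k)) (p (bas i)) ≠ 0

theorem ev {φ : E × P → ℂ} (hc : Continuous φ) {z : ℤ} (e : φ (p0, w0) = z) (hz : z ≠ 0) :
    ∀ᶠ x in 𝓝 (p0, w0), φ x ≠ 0 :=
  hc.continuousAt.eventually_ne (by rw [e]; exact_mod_cast hz)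

theorem cont_qq : Continuous qq := by
  refine continuous_pi fun i => ?_
  fin_cases i <;> simp [qq] <;> fun_prop

theorem good_ev : ∀ᶠ x in 𝓝 (p0, w0), Good x.1 x.2 := by
  have cq : ∀ k, Continuous fun x : E × P => qq x.2 k := fun k =>
    (continuous_apply k).comp (cont_qq.comp continuous_snd)
  have h1 : ∀ᶠ x in 𝓝 (p0, w0), ∀ j i, D0 x.2.1 x.2.2.1 (x.1 (ext j)) (x.1 (bas i)) ≠ 0 := by
    refine eventually_all.2 fun j => eventually_all.2 fun i => ?_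
    refine ev (z := D0 az bz (pz (ext j)) (pz (bas i))) ?_ ?_ ?_
    · simp only [D0, f, g, cv, c0]; fun_prop
    · simp [D0, f, g, cv, c0, w0, a0, b0, p0]
    · revert i j; decide
  have h2 : ∀ᶠ x in 𝓝 (p0, w0), ∀ j, D0 x.2.1 x.2.2.1 (x.1 (ext j)) (qq x.2) ≠ 0 := by
    refine eventually_all.2 fun j => ?_
    refine ev (z := D0 az bz (pz (ext j)) qz) ?_ ?_ ?_
    · simp only [D0, f, g, cv, c0]; fun_prop
    · rw [qq0]; simp [D0, f, g, cv, c0, w0, a0, b0, p0]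
    · revert j; decide
  have h3 : ∀ᶠ x in 𝓝 (p0, w0), ∀ j, D0 x.2.1 x.2.2.1 (x.1 (ext j)) (x.1 (ext j)) ≠ 0 := by
    refine eventually_all.2 fun j => ?_
    refine ev (z := D0 az bz (pz (ext j)) (pz (ext j))) ?_ ?_ ?_
    · simp only [D0, f, g, cv, c0]; fun_prop
    · simp [D0, f, g, cv, c0, w0, a0, b0, p0]
    · revert j; decide
  have h4 : ∀ᶠ x in 𝓝 (p0, w0), ∀ j k, j ≠ k →
      Dv x.2.1 x.2.2.1 (x.1 (ext j)) (x.1 (ext k)) ≠ 0 := by
    refine eventually_all.2 fun j => eventually_all.2 fun k => eventually_all.2 fun h => ?_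
    refine ev (z := Dv az bz (pz (ext j)) (pz (ext k))) ?_ ?_ ?_
    · simp only [Dv, f, g, cv]; fun_prop
    · simp [Dv, f, g, cv, w0, a0, b0, p0]
    · revert j k; decide
  have h5 : ∀ᶠ x in 𝓝 (p0, w0), ∀ i j, i ≠ j → mi (x.1 i) (x.1 j) ≠ 0 := by
    refine eventually_all.2 fun j => eventually_all.2 fun k => eventually_all.2 fun h => ?_
    refine ev (z := mi (pz j) (pz k)) ?_ ?_ ?_
    · simp only [mi]; fun_prop
    · simp [mi, p0]
    · revert j k; decide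
  have h6 : ∀ᶠ x in 𝓝 (p0, w0), ∀ i, mi (qq x.2) (x.1 i) ≠ 0 := by
    refine eventually_all.2 fun j => ?_
    refine ev (z := mi qz (pz j)) ?_ ?_ ?_
    · simp only [mi]; fun_prop
    · rw [qq0]; simp [mi, p0]
    · revert j; decide
  have h7 : ∀ᶠ x in 𝓝 (p0, w0), (M6 x.1).det ≠ 0 :=
    (cont_M6.matrix_det.comp continuous_fst).continuousAt.eventually_ne M6_det
  have h8 : ∀ᶠ x in 𝓝 (p0, w0), ∀ j k, j ≠ k → ∀ i,
      Jc x.2.1 x.2.2.1 (x.1 (ext j)) (x.1 (ext k)) (x.1 (bas i)) ≠ 0 := by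
    refine eventually_all.2 fun j => eventually_all.2 fun k => eventually_all.2 fun h =>
      eventually_all.2 fun i => ?_
    refine ev (z := Jc az bz (pz (ext j)) (pz (ext k)) (pz (bas i))) ?_ ?_ ?_
    · simp only [Jc, D0, D1, f, g, cv, c0, c1]; fun_prop
    · simp [Jc, D0, D1, f, g, cv, c0, c1, w0, a0, b0, p0]
    · revert i; revert j k; decide
  filter_upwards [h1, h2, h3, h4, h5, h6, h7, h8] with x a1 a2 a3 a4 a5 a6 a7 a8
  exact ⟨a1, a2, a3, a4, a5, a6, a7, a8⟩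

theorem exists_w : ∀ᶠ p in 𝓝 p0, ∃ w : P, Good p w ∧ (∀ i, f w.1 (p (bas i)) = 0) ∧
    (∀ i, g w.2.1 (p (bas i)) = 0) ∧ f w.1 (qq w) = 0 ∧ g w.2.1 (qq w) = 0 := by
  have h := good_ev
  rw [nhds_prod_eq, eventually_prod_iff] at h
  obtain ⟨pa, hpa, pb, hpb, h⟩ := h
  have h1 : Th '' {w | pb w} ∈ 𝓝 w0 := by
    rw [← Th_map]; exact image_mem_map hpb
  have h2 : ContinuousAt (fun p : E => ((sol 0 p, sol 1 p, 0, 0) : P)) p0 :=
    (sol_cont 0).prodMk ((sol_cont 1).prodMk continuousAt_const)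
  have h3 : ∀ᶠ p in 𝓝 p0, ((sol 0 p, sol 1 p, 0, 0) : P) ∈ Th '' {w | pb w} := by
    apply h2.eventually_mem
    rw [sol0, sol1]; exact h1
  have h4 : ∀ᶠ p in 𝓝 p0, (M8 p).det ≠ 0 := cont_M8.matrix_det.continuousAt.eventually_ne M8_det
  filter_upwards [hpa, h3, h4] with p a1 ⟨w, hw, e⟩ a3
  simp only [Th, Prod.mk.injEq] at e
  obtain ⟨e1, e2, e3, e4⟩ := e
  refine ⟨w, h a1 hw, fun i => ?_, fun i => ?_, e3, e4⟩
  · rw [e1]; exact sol_spec 0 a3 i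
  · rw [e2]; exact sol_spec 1 a3 i

theorem noConic {p : E} (h : (M6 p).det ≠ 0) : NoConic fun i => p (bas i) := by
  intro k0 k1 k2 k3 k4 k5 hk
  have : ![k0, k1, k2, k3, k4, k5] = 0 := by
    by_contra hne
    refine h (Matrix.exists_mulVec_eq_zero_iff.1 ⟨_, hne, ?_⟩)
    ext i
    simp [M6, Matrix.mulVec, dotProduct, Fin.sum_univ_succ, con]
    linear_combination hk (six i)
  exact ⟨congrFun this 0, congrFun this 1, congrFun this 2, congrFun this 3, congrFun this 4,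
    congrFun this 5⟩

def Prop11 (p : E) : Prop :=
  (∀ i j, i ≠ j → LinearIndependent ℂ ![p i, p j]) ∧
    ∃ F : R, F.IsHomogeneous 9 ∧ Squarefree F ∧
      (∀ i, HasMult F (p i) (![3, 3, 3, 3, 3, 3, 3, 3, 1, 1, 1] i)) ∧
      ∃ x : Fin 3 → ℂ, (∀ i, LinearIndependent ℂ ![x, p i]) ∧ HasMult F x 3

theorem prop_ev : ∀ᶠ p in 𝓝 p0, Prop11 p := by
  filter_upwards [exists_w] with p ⟨w, G, hf, hg, qf, qg⟩
  let D : Fin 3 → R := fun j => Dp w.1 w.2.1 (p (ext j))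
  have hom : ∀ j, (D j).IsHomogeneous 3 := fun j => Dp_hom _ _ _
  have v1 : ∀ j i, eval (p (bas i)) (D j) = 0 := fun j i => by
    simp [D, eval_Dp, Dv, hf, hg]
  have v2 : ∀ j, eval (qq w) (D j) = 0 := fun j => by simp [D, eval_Dp, Dv, qf, qg]
  have v3 : ∀ j, eval (p (ext j)) (D j) = 0 := fun j => by simp [D, eval_Dp, Dv, mul_comm]
  have v4 : ∀ j k, j ≠ k → eval (p (ext k)) (D j) ≠ 0 := fun j k h => by
    rw [eval_Dp]; exact G.h4 j k h
  have d1 : ∀ j i, eval (p (bas i)) (pderiv 0 (D j)) ≠ 0 := fun j i => by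
    rw [eval_Dp0]; exact G.h1 j i
  have d2 : ∀ j, eval (qq w) (pderiv 0 (D j)) ≠ 0 := fun j => by
    rw [eval_Dp0]; exact G.h2 j
  have d3 : ∀ j, eval (p (ext j)) (pderiv 0 (D j)) ≠ 0 := fun j => by
    rw [eval_Dp0]; exact G.h3 j
  have nz : ∀ j, D j ≠ 0 := fun j h => d2 j (by rw [h]; simp)
  have nc := noConic G.h7
  have sq : ∀ j, Squarefree (D j) := fun j => sqfree nc (hom j) (nz j) (v1 j) (d1 j)
  have rp : ∀ j k, j ≠ k → IsRelPrime (D j) (D k) := fun j k h =>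
    relprime nc (hom j) (nz j) (v1 j) fun i => by
      rw [eval_Dp0, eval_Dp1, eval_Dp0, eval_Dp1]; exact G.h8 j k h i
  refine ⟨fun i j h => indep (G.h5 i j h), D 0 * D 1 * D 2, ((hom 0).mul (hom 1)).mul (hom 2),
    ?_, ?_, qq w, fun i => indep (G.h6 i), mult3 (v2 0) (v2 1) (v2 2) (d2 0) (d2 1) (d2 2)⟩
  · refine squarefree_mul_iff.2 ⟨(rp 0 2 (by decide)).mul_left (rp 1 2 (by decide)),
      squarefree_mul_iff.2 ⟨rp 0 1 (by decide), sq 0, sq 1⟩, sq 2⟩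
  · have b : ∀ i, HasMult (D 0 * D 1 * D 2) (p (bas i)) 3 := fun i =>
      mult3 (v1 0 i) (v1 1 i) (v1 2 i) (d1 0 i) (d1 1 i) (d1 2 i)
    have e0 : HasMult (D 0 * D 1 * D 2) (p (ext 0)) 1 := by
      rw [mul_assoc]
      exact mult1 (v3 0) (d3 0) (by
        rw [map_mul]; exact mul_ne_zero (v4 1 0 (by decide)) (v4 2 0 (by decide)))
    have e1 : HasMult (D 0 * D 1 * D 2) (p (ext 1)) 1 := by
      rw [show D 0 * D 1 * D 2 = D 1 * (D 0 * D 2) by ring]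
      exact mult1 (v3 1) (d3 1) (by
        rw [map_mul]; exact mul_ne_zero (v4 0 1 (by decide)) (v4 2 1 (by decide)))
    have e2 : HasMult (D 0 * D 1 * D 2) (p (ext 2)) 1 := by
      rw [show D 0 * D 1 * D 2 = D 2 * (D 0 * D 1) by ring]
      exact mult1 (v3 2) (d3 2) (by
        rw [map_mul]; exact mul_ne_zero (v4 0 2 (by decide)) (v4 1 2 (by decide)))
    intro i
    fin_cases i
    exacts [b 0, b 1, b 2, b 3, b 4, b 5, b 6, b 7, e0, e1, e2]

theorem main (G : ℕ → MvPolynomial (Fin 11 × Fin 3) ℂ) (hG : ∀ n, G n ≠ 0) :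
    ∃ p : E, (∀ n, eval (fun ij : Fin 11 × Fin 3 => p ij.1 ij.2) (G n) ≠ 0) ∧ Prop11 p := by
  have hc : Continuous fun (e : Fin 11 × Fin 3 → ℂ) => (fun i k => e (i, k) : E) := by fun_prop
  have h : ∀ᶠ e in 𝓝 (fun ij : Fin 11 × Fin 3 => p0 ij.1 ij.2),
      Prop11 (fun i k => e (i, k)) := hc.continuousAt.eventually prop_ev
  obtain ⟨e, he, he'⟩ := baire G hG h
  exact ⟨fun i k => e (i, k), he', he⟩

end Pool.Agent.H50.SeshMain
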