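import Mathlib
import Pool.Agent.H50.Sg1

namespace Pool.Agent.H50.Sg

open Finset Polynomial Module

section defs

/-- `J_{m,n} = {0, ..., e - 1} \ {m, n}`. -/
def J (e m n : ℕ) : Finset ℕ := (range e).filter fun i => i ≠ m ∧ i ≠ n

/-- The semigroup ring `k[S_{m,n}]`, the image of `X_i ↦ t ^ (e + i)`, `i ∈ J_{m,n}`. -/
noncomputable def kS (K : Type) [Field K] (e m n : ℕ) : Subalgebra K K[X] :=
  (MvPolynomial.aeval fun i : J e m n => (X : K[X]) ^ (e + i.1)).range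

/-- The `j`-th term of the Koszul complex of `k[S_{m,n}]` on the variables `X_i`: sums
`∑ a_τ e_τ` over `τ ⊆ J_{m,n}`, `#τ = j`, with `a_τ ∈ k[S_{m,n}]`. -/
def kos (K : Type) [Field K] (e m n j : ℕ) : Submodule K (Finset ℕ → K[X]) where
  carrier := {a | ∀ τ, a τ ∈ kS K e m n ∧ (¬ (τ ⊆ J e m n ∧ τ.card = j) → a τ = 0)}
  add_mem' ha hb τ := ⟨add_mem (ha τ).1 (hb τ).1, fun h => by simp [(ha τ).2 h, (hb τ).2 h]⟩
  zero_mem' _ := ⟨zero_mem _, fun _ => rfl⟩
  smul_mem' r _ ha τ := ⟨Subalgebra.smul_mem _ (ha τ).1 r, fun h => by simp [(ha τ).2 h]⟩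

/-- The Koszul differential; `X_i` acts as `t ^ (e + i)`. -/
noncomputable def dk (K : Type) [Field K] (e m n : ℕ) :
    (Finset ℕ → K[X]) →ₗ[K] (Finset ℕ → K[X]) where
  toFun a ρ := ∑ i ∈ J e m n \ ρ,
    (-1) ^ (ρ.filter (· < i)).card * X ^ (e + i) * a (insert i ρ)
  map_add' a b := by ext1 ρ; simp [mul_add, sum_add_distrib]
  map_smul' r a := by ext1 ρ; simp [smul_sum]

/-- `β_j (m, n) = dim_k Tor_j (k[S_{m,n}], k)`: the dimension of the `j`-th Koszul homology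
(cycles modulo boundaries). -/
noncomputable def betti (K : Type) [Field K] (e m n j : ℕ) : ℕ :=
  finrank K (↥(kos K e m n j ⊓ LinearMap.ker (dk K e m n)) ⧸
    ((kos K e m n (j + 1)).map (dk K e m n)).submoduleOf
      (kos K e m n j ⊓ LinearMap.ker (dk K e m n)))
end defs

variable {K : Type} [Field K] {e q : ℕ}

lemma dk_ap (m n : ℕ) (a : Finset ℕ → K[X]) (ρ : Finset ℕ) : dk K e m n a ρ =
    ∑ i ∈ J e m n \ ρ, sg K[X] ρ i * X ^ (e + i) * a (insert i ρ) := rfl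

lemma mem_J {m n i : ℕ} : i ∈ J e m n ↔ i < e ∧ i ≠ m ∧ i ≠ n := by simp [J]

def InS (e q s : ℕ) : Prop := s = 0 ∨ (e ≤ s ∧ s ≠ e + 2 ∧ s ≠ e + q)

lemma gen_mem {i : ℕ} (h : i ∈ J e 2 q) : (X : K[X]) ^ (e + i) ∈ kS K e 2 q :=
  ⟨MvPolynomial.X ⟨i, h⟩, by simp⟩

lemma pow_mem' (he : 6 ≤ e) (hq : q = 4 ∨ q = 5) (s : ℕ) :
    InS e q s → (X : K[X]) ^ s ∈ kS K e 2 q := by
  induction s using Nat.strong_induction_on with
  | _ s ih =>
  intro h
  have g : ∀ i, i < e → i ≠ 2 → i ≠ q → (X : K[X]) ^ (e + i) ∈ kS K e 2 q :=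
    fun i a b c => gen_mem (mem_J.2 ⟨a, b, c⟩)
  unfold InS at h
  by_cases a : s = 0
  · subst a; simp
  by_cases b : s < 2 * e
  · have : s = e + (s - e) := by omega
    rw [this]; exact g _ (by omega) (by omega) (by omega)
  by_cases c : s = 2 * e + 2 ∨ s = 2 * e + q
  · have : s = e + 1 + (s - (e + 1)) := by omega
    rw [this, pow_add]
    exact mul_mem (g 1 (by omega) (by omega) (by omega))
      (ih _ (by omega) (by unfold InS; omega))
  · have : s = e + 0 + (s - e) := by omega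
    rw [this, pow_add]
    exact mul_mem (g 0 (by omega) (by omega) (by omega))
      (ih _ (by omega) (by unfold InS; omega))

lemma mem_kS (he : 6 ≤ e) (hq : q = 4 ∨ q = 5) {p : K[X]} :
    p ∈ kS K e 2 q ↔ ∀ s, ¬ InS e q s → p.coeff s = 0 := by
  constructor
  · rintro ⟨f, rfl⟩
    change ∀ s, _ → (MvPolynomial.aeval _ f : K[X]).coeff s = 0
    induction f using MvPolynomial.induction_on with
    | C a =>
      intro s h
      rw [MvPolynomial.aeval_C, Polynomial.algebraMap_apply, coeff_C, if_neg fun y => h (Or.inl y)]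
    | add p r hp hr => intro s h; rw [map_add, coeff_add, hp s h, hr s h, add_zero]
    | mul_X p i hp =>
      intro s h
      rw [map_mul, MvPolynomial.aeval_X, coeff_mul_X_pow']
      split_ifs with y
      · have := mem_J.1 i.2
        exact hp _ (by unfold InS at h ⊢; omega)
      · rfl
  · intro h
    rw [p.as_sum_support_C_mul_X_pow]
    refine sum_mem fun s hs => mul_mem (Subalgebra.algebraMap_mem _ _)
      (pow_mem' he hq s (by_contra fun y => mem_support_iff.1 hs (h s y)))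

def J' (e q : ℕ) : Finset ℕ := (J e 2 q).erase 0

lemma mem_J' {i : ℕ} : i ∈ J' e q ↔ i ≠ 0 ∧ i < e ∧ i ≠ 2 ∧ i ≠ q := by simp [J', mem_J]

def Ap (e q : ℕ) : Finset ℕ :=
  insert 0 (insert (2 * e + 2) (insert (2 * e + q) ((J' e q).image (e + ·))))

lemma mem_Ap {s : ℕ} : s ∈ Ap e q ↔ s = 0 ∨ s = 2 * e + 2 ∨ s = 2 * e + q ∨
    (e < s ∧ s < 2 * e ∧ s ≠ e + 2 ∧ s ≠ e + q) := by
  simp only [Ap, mem_insert, mem_image, mem_J']
  refine or_congr_right (or_congr_right (or_congr_right ⟨?_, fun h => ⟨s - e, ?_⟩⟩))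
  · rintro ⟨i, h, rfl⟩; omega
  · omega

lemma card_J' (he : 6 ≤ e) (hq : q = 4 ∨ q = 5) : (J' e q).card = e - 3 := by
  have : J' e q = (((range e).erase 2).erase q).erase 0 := by
    ext i; simp only [mem_J', mem_erase, mem_range]; omega
  rw [this, card_erase_of_mem, card_erase_of_mem, card_erase_of_mem, card_range]
  · omega
  all_goals simp only [mem_erase, mem_range]; omega

lemma card_Ap (he : 6 ≤ e) (hq : q = 4 ∨ q = 5) : (Ap e q).card = e := by
  rw [Ap, card_insert_of_notMem, card_insert_of_notMem, card_insert_of_notMem,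
    card_image_of_injective _ (add_right_injective e), card_J' he hq]
  · omega
  all_goals simp only [mem_insert, mem_image, mem_J', not_or, not_exists]
  · intro x; omega
  · exact ⟨by omega, fun x => by omega⟩
  · exact ⟨by omega, by omega, fun x => by omega⟩

def ph (K : Type) [Field K] (e q : ℕ) : (Finset ℕ → K[X]) →ₗ[K] (Finset ℕ × ℕ → K) where
  toFun a x := if 0 ∉ x.1 ∧ x.2 ∈ Ap e q then (a x.1).coeff x.2 else 0
  map_add' a b := by ext1 x; simp only [Pi.add_apply]; split_ifs <;> simp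
  map_smul' r a := by ext1 x; simp only [Pi.smul_apply, RingHom.id_apply]; split_ifs <;> simp

lemma ph_ap (a : Finset ℕ → K[X]) (τ : Finset ℕ) (s : ℕ) :
    ph K e q a (τ, s) = if 0 ∉ τ ∧ s ∈ Ap e q then (a τ).coeff s else 0 := rfl

def dw (K : Type) [Field K] (e q : ℕ) : (Finset ℕ × ℕ → K) →ₗ[K] (Finset ℕ × ℕ → K) where
  toFun w x := if x.2 ∈ Ap e q then ∑ i ∈ J' e q, if i ∉ x.1 ∧ e + i ≤ x.2 then
    sg K x.1 i * w (insert i x.1, x.2 - (e + i)) else 0 else 0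
  map_add' a b := by
    ext1 x; simp only [Pi.add_apply]
    split_ifs
    · rw [← sum_add_distrib]; exact sum_congr rfl fun i _ => by split_ifs <;> ring
    · simp
  map_smul' r a := by
    ext1 x; simp only [Pi.smul_apply, RingHom.id_apply, smul_eq_mul]
    split_ifs
    · rw [mul_sum]; exact sum_congr rfl fun i _ => by split_ifs <;> ring
    · simp

lemma dw_ap (w : Finset ℕ × ℕ → K) (ρ : Finset ℕ) (s : ℕ) :
    dw K e q w (ρ, s) = if s ∈ Ap e q then ∑ i ∈ J' e q, if i ∉ ρ ∧ e + i ≤ s then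
    sg K ρ i * w (insert i ρ, s - (e + i)) else 0 else 0 := rfl

lemma sg_C (ρ : Finset ℕ) (i : ℕ) : sg K[X] ρ i = C (sg K ρ i) := by simp [sg]

lemma chain (he : 6 ≤ e) (hq : q = 4 ∨ q = 5) {a : Finset ℕ → K[X]}
    (ha : ∀ τ, a τ ∈ kS K e 2 q) : ph K e q (dk K e 2 q a) = dw K e q (ph K e q a) := by
  ext ⟨ρ, s⟩
  rw [ph_ap, dw_ap]
  by_cases hs : s ∈ Ap e q
  swap
  · simp [hs]
  rw [if_pos hs]
  by_cases h0 : 0 ∈ ρ
  · rw [if_neg (by simp [h0])]
    symm
    exact sum_eq_zero fun i _ => by simp [ph_ap, h0]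
  rw [if_pos ⟨h0, hs⟩, dk_ap, finsetSum_coeff, ← sum_filter]
  symm
  have hs' := mem_Ap.1 hs
  refine sum_subset_zero_on_sdiff (fun i hi => ?_) (fun i hi => ?_) fun i hi => ?_
  · simp only [mem_filter, mem_sdiff, mem_J, mem_J'] at hi ⊢; exact ⟨hi.1.2, hi.2.1⟩
  · simp only [mem_filter, mem_sdiff, mem_J, mem_J'] at hi
    rw [sg_C, mul_assoc, coeff_C_mul, coeff_X_pow_mul']
    split_ifs with y
    · have : i = 0 := by_contra fun z => hi.2 ⟨⟨z, hi.1.1⟩, hi.1.2, y⟩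
      rw [(mem_kS he hq).1 (ha _) _ (by unfold InS; omega), mul_zero]
    · simp
  · simp only [mem_filter, mem_J'] at hi
    rw [sg_C, mul_assoc, coeff_C_mul, coeff_X_pow_mul', if_pos hi.2.2, ph_ap]
    split_ifs with y
    · rfl
    · have : s - (e + i) ∉ Ap e q := fun z => y ⟨by simp [h0, Ne.symm hi.1.1], z⟩
      rw [mem_Ap] at this
      rw [(mem_kS he hq).1 (ha _) _ (by unfold InS; omega)]

lemma kos_d {j : ℕ} {a : Finset ℕ → K[X]} (ha : a ∈ kos K e 2 q (j + 1)) :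
    dk K e 2 q a ∈ kos K e 2 q j := fun ρ => by
  rw [dk_ap]
  refine ⟨sum_mem fun i hi => mul_mem (mul_mem ?_ (gen_mem (mem_sdiff.1 hi).1)) (ha _).1,
    fun h => sum_eq_zero fun i hi => ?_⟩
  · rw [sg_C]; exact Subalgebra.algebraMap_mem _ _
  · rw [(ha _).2 fun y => h ⟨(subset_insert _ _).trans y.1, ?_⟩, mul_zero]
    have := y.2
    rw [card_insert_of_notMem (mem_sdiff.1 hi).2] at this
    omega

def BB (K : Type) [Field K] (e q j : ℕ) : Submodule K (Finset ℕ × ℕ → K) :=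
  cs K (powersetCard j (J' e q) ×ˢ Ap e q)

lemma mem_BB {j : ℕ} {w : Finset ℕ × ℕ → K} : w ∈ BB K e q j ↔
    ∀ τ s, ¬ ((τ ⊆ J' e q ∧ τ.card = j) ∧ s ∈ Ap e q) → w (τ, s) = 0 :=
  ⟨fun h τ s y => h _ (by simpa [mem_powersetCard] using y),
    fun h x y => h _ _ (by simpa [mem_powersetCard] using y)⟩

lemma ph_onto (he : 6 ≤ e) (hq : q = 4 ∨ q = 5) (j : ℕ) :
    (kos K e 2 q j).map (ph K e q) = BB K e q j := by
  ext w
  rw [mem_BB]
  constructor
  · rintro ⟨a, ha, rfl⟩ τ s h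
    rw [ph_ap]
    split_ifs with y
    · rw [(ha τ).2 fun z => h ⟨⟨subset_erase.2 ⟨z.1, y.1⟩, z.2⟩, y.2⟩, coeff_zero]
    · rfl
  · intro h
    have c : ∀ τ s, (∑ t ∈ Ap e q, monomial t (w (τ, t))).coeff s =
        if s ∈ Ap e q then w (τ, s) else 0 := fun τ s => by
      simp [finsetSum_coeff, coeff_monomial]
    refine ⟨fun τ => ∑ t ∈ Ap e q, monomial t (w (τ, t)), fun τ => ⟨(mem_kS he hq).2 fun s y => ?_,
      fun y => sum_eq_zero fun t _ => ?_⟩, ?_⟩
    · rw [c, if_neg]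
      rw [mem_Ap]; unfold InS at y; omega
    · rw [h τ t fun z => y ⟨z.1.1.trans (erase_subset _ _), z.1.2⟩, map_zero]
    · ext ⟨τ, s⟩
      rw [ph_ap, c]
      split_ifs with y z
      · rfl
      · exact absurd y.2 z
      · exact (h τ s fun z => y ⟨fun x => (mem_J'.1 (z.1.1 x)).1 rfl, z.2⟩).symm

lemma acyc (he : 6 ≤ e) (hq : q = 4 ∨ q = 5) (j : ℕ) (z : Finset ℕ → K[X])
    (hz : z ∈ kos K e 2 q j) (h1 : ph K e q z = 0) (h2 : dk K e 2 q z = 0) :
    ∃ b ∈ kos K e 2 q (j + 1), ph K e q b = 0 ∧ dk K e 2 q b = z := by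
  have j0 : 0 ∈ J e 2 q := mem_J.2 (by omega)
  have c : ∀ ρ : Finset ℕ, ∃ y ∈ kS K e 2 q, 0 ∉ ρ → X ^ e * y = z ρ := fun ρ => by
    by_cases h0 : 0 ∈ ρ
    · exact ⟨0, zero_mem _, fun h => absurd h0 h⟩
    have c0 : ∀ s, (¬ InS e q s ∨ s ∈ Ap e q) → (z ρ).coeff s = 0 := fun s h => by
      rcases h with h | h
      · exact (mem_kS he hq).1 (hz ρ).1 s h
      · have := congrFun h1 (ρ, s)
        rwa [ph_ap, if_pos ⟨h0, h⟩] at this
    obtain ⟨y, hy⟩ := (X_pow_dvd_iff (f := z ρ) (n := e)).2 fun s h =>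
      c0 s (by rw [mem_Ap]; unfold InS; omega)
    refine ⟨y, (mem_kS he hq).2 fun s h => ?_, fun _ => hy.symm⟩
    have := c0 (s + e) (by rw [mem_Ap]; unfold InS at h ⊢; omega)
    rwa [hy, coeff_X_pow_mul] at this
  choose y hy hy' using c
  have xe : (X : K[X]) ^ e ≠ 0 := pow_ne_zero _ X_ne_zero
  refine ⟨fun τ => if 0 ∈ τ then y (τ.erase 0) else 0, fun τ => ⟨?_, fun h => ?_⟩, ?_, ?_⟩
  · dsimp only; split_ifs
    · exact hy _
    · exact zero_mem _
  · dsimp only; split_ifs with h0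
    · refine mul_left_cancel₀ xe ?_
      rw [hy' _ (notMem_erase _ _), mul_zero]
      refine (hz _).2 fun x => h ⟨?_, ?_⟩
      · rw [← insert_erase h0]; exact insert_subset j0 x.1
      · rw [← card_erase_add_one h0, x.2]
    · rfl
  · ext ⟨τ, s⟩
    rw [ph_ap]
    by_cases x : 0 ∈ τ <;> simp [x]
  · ext1 ρ
    rw [dk_ap]
    by_cases h0 : 0 ∈ ρ
    · obtain ⟨σ, hσ, rfl⟩ : ∃ σ, 0 ∉ σ ∧ ρ = insert 0 σ :=
        ⟨_, notMem_erase 0 ρ, (insert_erase h0).symm⟩
      have h3 := congrFun h2 σ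
      rw [dk_ap, ← add_sum_erase _ _ (mem_sdiff.2 ⟨j0, hσ⟩), ← sdiff_insert] at h3
      refine mul_left_cancel₀ xe ?_
      have s0 : sg K[X] σ 0 = 1 := by simp [sg]
      rw [s0, one_mul, add_zero, Pi.zero_apply, add_eq_zero_iff_eq_neg] at h3
      rw [h3, mul_sum, ← sum_neg_distrib]
      refine sum_congr rfl fun i hi => ?_
      have hi := (mem_sdiff.1 hi).2
      rw [mem_insert, not_or] at hi
      have n0 : 0 ∉ insert i σ := by simp [hσ, Ne.symm hi.1]
      rw [if_pos (by simp), insert_comm, erase_insert n0, sg_ins hσ,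
        if_pos (Nat.pos_of_ne_zero hi.1), ← hy' _ n0]
      ring
    · rw [sum_eq_single_of_mem 0 (mem_sdiff.2 ⟨j0, h0⟩) fun i _ x => by
        rw [if_neg (by simp [h0, Ne.symm x]), mul_zero]]
      have s0 : sg K[X] ρ 0 = 1 := by simp [sg]
      rw [s0, one_mul, add_zero, if_pos (mem_insert_self _ _), erase_insert h0, hy' _ h0]

lemma ev0 (he : 6 ≤ e) (w : Finset ℕ × ℕ → K) (ρ : Finset ℕ) : dw K e q w (ρ, 0) = 0 := by
  rw [dw_ap, sum_eq_zero fun i _ => if_neg (by omega), ite_self]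

lemma ev1 {w : Finset ℕ × ℕ → K} (hw : ∀ τ s, s ∉ Ap e q → w (τ, s) = 0) (ρ : Finset ℕ) {i : ℕ}
    (hq : q = 4 ∨ q = 5) (hi : i ∈ J' e q) :
    dw K e q w (ρ, e + i) = if i ∈ ρ then 0 else sg K ρ i * w (insert i ρ, 0) := by
  have h := mem_J'.1 hi
  rw [dw_ap, if_pos (mem_Ap.2 (by omega)), sum_eq_single_of_mem i hi fun k hk x => ?_]
  · by_cases y : i ∈ ρ <;> simp [y]
  · have h := mem_J'.1 hk
    split_ifs with y
    · rw [hw _ _ (by rw [mem_Ap]; omega), mul_zero]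
    · rfl

lemma ev2 {w : Finset ℕ × ℕ → K} (hw : ∀ τ s, s ∉ Ap e q → w (τ, s) = 0) (ρ : Finset ℕ)
    (he : 6 ≤ e) (hq : q = 4 ∨ q = 5) :
    dw K e q w (ρ, 2 * e + 2) = if 1 ∈ ρ then 0 else sg K ρ 1 * w (insert 1 ρ, e + 1) := by
  rw [dw_ap, if_pos (mem_Ap.2 (by omega)),
    sum_eq_single_of_mem 1 (mem_J'.2 (by omega)) fun k hk x => ?_]
  · have : 2 * e + 2 - (e + 1) = e + 1 := by omega
    have a : e + 1 ≤ 2 * e + 2 := by omega
    by_cases y : 1 ∈ ρ <;> simp [y, this, a]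
  · have h := mem_J'.1 hk
    split_ifs with y
    · rw [hw _ _ (by rw [mem_Ap]; omega), mul_zero]
    · rfl

lemma ev3 {w : Finset ℕ × ℕ → K} (hw : ∀ τ s, s ∉ Ap e q → w (τ, s) = 0) (ρ : Finset ℕ)
    (he : 6 ≤ e) (hq : q = 4 ∨ q = 5) :
    dw K e q w (ρ, 2 * e + q) = (if 1 ∈ ρ then 0 else sg K ρ 1 * w (insert 1 ρ, e + (q - 1))) +
      if q - 1 ∈ ρ then 0 else sg K ρ (q - 1) * w (insert (q - 1) ρ, e + 1) := by
  rw [dw_ap, if_pos (mem_Ap.2 (by omega)),
    sum_eq_add_of_mem 1 (q - 1) (mem_J'.2 (by omega)) (mem_J'.2 (by omega)) (by omega)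
      fun k hk x => ?_]
  · have : 2 * e + q - (e + 1) = e + (q - 1) := by omega
    have a : e + 1 ≤ 2 * e + q := by omega
    have b : 2 * e + q - (e + (q - 1)) = e + 1 := by omega
    have c : e + (q - 1) ≤ 2 * e + q := by omega
    rw [this, b]
    by_cases y : 1 ∈ ρ <;> by_cases z : q - 1 ∈ ρ <;> simp [y, z, a, c]
  · have h := mem_J'.1 hk
    split_ifs with y
    · rw [hw _ _ (by rw [mem_Ap]; omega), mul_zero]
    · rfl

def TU (e q j : ℕ) : Finset (Finset ℕ × ℕ) := powersetCard j (J' e q) ×ˢ {0} ∪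
  (powersetCard j (J' e q)).filter (1 ∈ ·) ×ˢ {e + 1, e + (q - 1)}

lemma mem_TU {j s : ℕ} {τ : Finset ℕ} : (τ, s) ∈ TU e q j ↔ (τ ⊆ J' e q ∧ τ.card = j) ∧
    (s = 0 ∨ (1 ∈ τ ∧ (s = e + 1 ∨ s = e + (q - 1)))) := by
  simp only [TU, mem_union, mem_product, mem_powersetCard, mem_filter, mem_insert, mem_singleton,
    and_or_left, and_assoc]

lemma card_TU (he : 6 ≤ e) (hq : q = 4 ∨ q = 5) (j : ℕ) :
    (TU e q (j + 1)).card = (e - 3).choose (j + 1) + (e - 3 - 1).choose j * 2 := by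
  rw [TU, card_union_of_disjoint, card_product, card_product, card_powersetCard,
    cnt (mem_J'.2 (by omega)), card_J' he hq, card_singleton, mul_one, card_pair (by omega)]
  rw [disjoint_left]
  rintro ⟨τ, s⟩ h1 h2
  simp only [mem_product, mem_insert, mem_singleton] at h1 h2
  omega

lemma sg_ne (ρ : Finset ℕ) (i : ℕ) : sg K ρ i ≠ 0 := left_ne_zero_of_mul_eq_one (sg_sq ρ i)

lemma rk_dw (he : 6 ≤ e) (hq : q = 4 ∨ q = 5) (j : ℕ) :
    finrank K ((BB K e q (j + 1)).map (dw K e q)) =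
      (e - 3).choose (j + 1) + (e - 3 - 1).choose j * 2 := by
  have a1 : e + 1 ∈ Ap e q := mem_Ap.2 (by omega)
  have a2 : e + (q - 1) ∈ Ap e q := mem_Ap.2 (by omega)
  have a0 : 0 ∈ Ap e q := mem_Ap.2 (by omega)
  have le : cs K (TU e q (j + 1)) ≤ BB K e q (j + 1) := fun u hu => mem_BB.2 fun τ s h =>
    hu _ fun x => h ⟨(mem_TU.1 x).1, by
      rcases (mem_TU.1 x).2 with y | ⟨-, y | y⟩ <;> rwa [y]⟩
  have hB : ∀ w ∈ BB K e q (j + 1), ∀ τ s, s ∉ Ap e q → w (τ, s) = 0 :=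
    fun w hw τ s h => mem_BB.1 hw τ s fun x => h x.2
  have e1 : (BB K e q (j + 1)).map (dw K e q) = (cs K (TU e q (j + 1))).map (dw K e q) := by
    refine le_antisymm ?_ (Submodule.map_mono le)
    rintro _ ⟨w, hw, rfl⟩
    set u : Finset ℕ × ℕ → K := fun x => if x.2 = 0 then w x else if 1 ∈ x.1 then
      (if x.2 = e + 1 then w x else if x.2 = e + (q - 1) then w x +
        if q - 1 ∈ x.1 then 0 else sg K (x.1.erase 1) 1 * sg K (x.1.erase 1) (q - 1) *
          w (insert (q - 1) (x.1.erase 1), e + 1) else 0) else 0 with hu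
    have m : u ∈ cs K (TU e q (j + 1)) := by
      rintro ⟨τ, s⟩ h
      rw [mem_TU] at h
      simp only [hu]
      split_ifs with x1 x2 x3 x4 x5
      · exact mem_BB.1 hw _ _ fun y => h ⟨y.1, Or.inl x1⟩
      · exact mem_BB.1 hw _ _ fun y => h ⟨y.1, Or.inr ⟨x2, Or.inl x3⟩⟩
      · rw [add_zero]; exact mem_BB.1 hw _ _ fun y => h ⟨y.1, Or.inr ⟨x2, Or.inr x4⟩⟩
      · rw [mem_BB.1 hw _ _ fun y => h ⟨y.1, Or.inr ⟨x2, Or.inr x4⟩⟩,
          mem_BB.1 hw _ _ fun y => h ⟨⟨?_, ?_⟩, Or.inr ⟨x2, Or.inr x4⟩⟩]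
        · simp
        · rw [← insert_erase x2]
          exact insert_subset (mem_J'.2 (by omega)) ((subset_insert _ _).trans y.1.1)
        · rw [← y.1.2, card_insert_of_notMem fun z => x5 (mem_of_mem_erase z),
            card_erase_add_one x2]
      · rfl
      · rfl
    refine ⟨u, m, funext fun ⟨ρ, s⟩ => ?_⟩
    have hU := hB u (le m)
    have hW := hB w hw
    by_cases hs : s ∈ Ap e q
    swap
    · rw [dw_ap, dw_ap, if_neg hs, if_neg hs]
    rcases mem_Ap.1 hs with rfl | rfl | rfl | h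
    · rw [ev0 he, ev0 he]
    · rw [ev2 hU _ he hq, ev2 hW _ he hq]; simp [hu]
    · rw [ev3 hU _ he hq, ev3 hW _ he hq]
      have n1 : q - 1 ≠ 1 := by omega
      have n2 : q - 1 ≠ 0 := by omega
      by_cases y : 1 ∈ ρ <;> by_cases z : q - 1 ∈ ρ <;> simp [hu, y, z, n1, n2, n1.symm]
      linear_combination (sg K ρ (q - 1) * w (insert (q - 1) ρ, e + 1)) * sg_sq (R := K) ρ 1
    · have : s = e + (s - e) := by omega
      have m : s - e ∈ J' e q := mem_J'.2 (by omega)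
      rw [this, ev1 hU _ hq m, ev1 hW _ hq m]; simp [hu]
  have e2 : cs K (TU e q (j + 1)) ⊓ LinearMap.ker (dw K e q) = ⊥ := by
    rw [eq_bot_iff]
    rintro u ⟨m, h⟩
    have h : dw K e q u = 0 := h
    have hU := hB u (le m)
    have k1 : ∀ τ, u (τ, e + 1) = 0 := fun τ => by
      by_cases y : 1 ∈ τ
      · have := ev2 hU (τ.erase 1) he hq
        rw [h, if_neg (notMem_erase _ _), insert_erase y] at this
        exact (mul_eq_zero.1 this.symm).resolve_left (sg_ne _ _)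
      · exact m _ fun x => by rcases (mem_TU.1 x).2 with z | z; omega; exact y z.1
    refine funext fun ⟨τ, s⟩ => by_contra fun x => ?_
    obtain ⟨⟨b1, b2⟩, b3⟩ := mem_TU.1 (by_contra fun y => x (m _ y))
    apply x
    rcases b3 with rfl | ⟨y, rfl | rfl⟩
    · obtain ⟨i, hi⟩ := card_pos.1 (by omega : 0 < τ.card)
      have := ev1 hU (τ.erase i) hq (b1 hi)
      rw [h, if_neg (notMem_erase _ _), insert_erase hi] at this
      exact (mul_eq_zero.1 this.symm).resolve_left (sg_ne _ _)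
    · exact k1 τ
    · have := ev3 hU (τ.erase 1) he hq
      rw [h, if_neg (notMem_erase _ _), insert_erase y, k1, mul_zero, ite_self, add_zero] at this
      exact (mul_eq_zero.1 this.symm).resolve_left (sg_ne _ _)
  have := rk_gen (dw K e q) (cs K (TU e q (j + 1)))
  rwa [e2, finrank_bot, add_zero, rk_cs, card_TU he hq, ← e1] at this

lemma main (he : 6 ≤ e) (hq : q = 4 ∨ q = 5) (j : ℕ) :
    betti K e 2 q (j + 1) = (j + 1) * (e - 2).choose (j + 2) := by
  have : ∀ j, FiniteDimensional K (BB K e q j) := fun j => by unfold BB; infer_instance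
  have h := hom_eq (dk K e 2 q) (dw K e q) (ph K e q) (kos K e 2 q) (BB K e q)
    (fun a => funext fun ρ => dd_zero (J e 2 q) (fun i => X ^ (e + i)) a ρ)
    (fun j a ha => kos_d ha) (ph_onto he hq) (fun j a ha => chain he hq fun τ => (ha τ).1)
    (acyc he hq) j
  rw [rk_dw he hq, rk_dw he hq, BB, rk_cs, card_product, card_powersetCard, card_J' he hq,
    card_Ap he hq] at h
  obtain ⟨n, rfl⟩ : ∃ n, e = n + 4 := ⟨e - 4, by omega⟩
  change betti K (n + 4) 2 q (j + 1) + ((n + 1).choose (j + 2) + n.choose (j + 1) * 2) +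
    ((n + 1).choose (j + 1) + n.choose j * 2) = (n + 1).choose (j + 1) * (n + 4) at h
  change _ = (j + 1) * (n + 2).choose (j + 2)
  have c1 : (n + 2).choose (j + 2) = (n + 1).choose (j + 1) + (n + 1).choose (j + 2) :=
    Nat.choose_succ_succ _ _
  have c2 : (n + 1).choose (j + 1) = n.choose j + n.choose (j + 1) := Nat.choose_succ_succ _ _
  have c3 : (n + 2) * (n + 1).choose (j + 1) = (n + 2).choose (j + 2) * (j + 2) :=
    Nat.add_one_mul_choose_eq _ _
  nlinarith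

end Pool.Agent.H50.Sg
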