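import Mathlib

namespace Pool.Agent.H50.ShiftProd

open Finset Pointwise

/-- pairwise coprime elements of `E` give many products with `K` positive elements of `F` -/
theorem count (E F : Finset ℕ) (T : Finset ℕ) (hT : T ⊆ E) (h1 : ∀ e ∈ T, 1 < e)
    (hc : ∀ e ∈ T, ∀ e' ∈ T, e ≠ e' → Nat.Coprime e e') (F' : Finset ℕ) (hF : F' ⊆ F)
    (h0 : ∀ f ∈ F', 0 < f) :
    (T.card - F'.card ^ 2) * F'.card ≤ (E * F).card := by
  classical
  let bad : Finset ℕ := (F' ×ˢ F').image fun p => p.2 / Nat.gcd p.1 p.2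
  have hbad : bad.card ≤ F'.card ^ 2 := by
    refine card_image_le.trans ?_
    rw [card_product, sq]
  let G := T \ bad
  have hG : T.card - F'.card ^ 2 ≤ G.card := by
    have := le_card_sdiff bad T
    simp only [G]
    omega
  calc (T.card - F'.card ^ 2) * F'.card ≤ G.card * F'.card := Nat.mul_le_mul_right _ hG
    _ = (G ×ˢ F').card := (card_product _ _).symm
    _ ≤ (E * F).card := by
      apply card_le_card_of_injOn (fun p => p.1 * p.2)
      · intro p hp
        simp only [coe_product, Set.mem_prod, mem_coe] at hp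
        exact mem_coe.mpr (mul_mem_mul (hT (mem_sdiff.mp hp.1).1) (hF hp.2))
      · rintro ⟨e, f⟩ hp ⟨e', f'⟩ hp' h
        simp only [coe_product, Set.mem_prod, mem_coe] at hp hp' h
        by_cases he : e = e'
        · subst he
          have : 0 < e := by have := h1 e (mem_sdiff.mp hp.1).1; omega
          rw [Nat.eq_of_mul_eq_mul_left this h]
        · exfalso
          have hco := hc e (mem_sdiff.mp hp.1).1 e' (mem_sdiff.mp hp'.1).1 he
          apply (mem_sdiff.mp hp.1).2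
          refine mem_image.mpr ⟨(f, f'), mem_product.mpr ⟨hp.2, hp'.2⟩, ?_⟩
          have hd : e ∣ f' := hco.dvd_of_dvd_mul_left ⟨f, h.symm⟩
          obtain ⟨g, rfl⟩ := hd
          have he0 : 0 < e := by have := h1 e (mem_sdiff.mp hp.1).1; omega
          have hf : f = e' * g := by
            apply Nat.eq_of_mul_eq_mul_left he0
            rw [h]; ring
          have hg : 0 < g := Nat.pos_of_mul_pos_left (h0 _ hp'.2)
          subst hf
          simp only
          rw [Nat.gcd_mul_right, hco.symm.gcd_eq_one, one_mul, Nat.mul_div_cancel _ hg]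

/-- a pairwise coprime subset of a product set has a half whose chosen factors lie on one side -/
theorem split (E F S : Finset ℕ) (hS : S ⊆ E * F) (h1 : ∀ s ∈ S, 1 < s)
    (hc : ∀ s ∈ S, ∀ s' ∈ S, s ≠ s' → Nat.Coprime s s') :
    ∃ T : Finset ℕ, (T ⊆ E ∨ T ⊆ F) ∧ (∀ e ∈ T, 1 < e) ∧
      (∀ e ∈ T, ∀ e' ∈ T, e ≠ e' → Nat.Coprime e e') ∧ S.card ≤ 2 * T.card := by
  classical
  have key : ∀ (W : Finset ℕ) (S' : Finset ℕ), S' ⊆ S → (∀ s ∈ S', ∃ w ∈ W, 1 < w ∧ w ∣ s) →
      ∃ T : Finset ℕ, T ⊆ W ∧ (∀ e ∈ T, 1 < e) ∧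
        (∀ e ∈ T, ∀ e' ∈ T, e ≠ e' → Nat.Coprime e e') ∧ T.card = S'.card := by
    intro W S' hS' h
    choose! w hw using h
    refine ⟨S'.image w, ?_, ?_, ?_, ?_⟩
    · intro e he
      obtain ⟨s, hs, rfl⟩ := mem_image.mp he
      exact (hw s hs).1
    · intro e he
      obtain ⟨s, hs, rfl⟩ := mem_image.mp he
      exact (hw s hs).2.1
    · intro e he e' he' hne
      obtain ⟨s, hs, rfl⟩ := mem_image.mp he
      obtain ⟨s', hs', rfl⟩ := mem_image.mp he'
      have : s ≠ s' := fun h => hne (by rw [h])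
      exact Nat.Coprime.coprime_dvd_left (hw s hs).2.2
        (Nat.Coprime.coprime_dvd_right (hw s' hs').2.2 (hc s (hS' hs) s' (hS' hs') this))
    · apply card_image_of_injOn
      intro s hs s' hs' h
      by_contra hne
      have hco := hc s (hS' hs) s' (hS' hs') hne
      have h2 : w s ∣ Nat.gcd s s' := Nat.dvd_gcd (hw s hs).2.2 (h ▸ (hw s' hs').2.2)
      rw [hco.gcd_eq_one] at h2
      have := Nat.le_of_dvd one_pos h2
      have := (hw s hs).2.1
      omega
  let S1 := S.filter fun s => ∃ w ∈ E, 1 < w ∧ w ∣ s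
  let S2 := S.filter fun s => ∃ w ∈ F, 1 < w ∧ w ∣ s
  have hun : S ⊆ S1 ∪ S2 := by
    intro s hs
    obtain ⟨e, he, f, hf, rfl⟩ := mem_mul.mp (hS hs)
    have := h1 _ hs
    by_cases h : 1 < e
    · exact mem_union_left _ (mem_filter.mpr ⟨hs, e, he, h, Dvd.intro _ rfl⟩)
    · refine mem_union_right _ (mem_filter.mpr ⟨hs, f, hf, ?_, Dvd.intro_left _ rfl⟩)
      have : e = 0 ∨ e = 1 := by omega
      rcases this with rfl | rfl <;> omega
  have hcard : S.card ≤ S1.card + S2.card := (card_le_card hun).trans (card_union_le _ _)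
  obtain ⟨T1, a1, b1, c1, d1⟩ := key E S1 (filter_subset _ _) fun s hs => (mem_filter.mp hs).2
  obtain ⟨T2, a2, b2, c2, d2⟩ := key F S2 (filter_subset _ _) fun s hs => (mem_filter.mp hs).2
  by_cases h : S2.card ≤ S1.card
  · exact ⟨T1, Or.inl a1, b1, c1, by omega⟩
  · exact ⟨T2, Or.inr a2, b2, c2, by omega⟩

theorem exists_A (k : ℕ) : ∃ A : Finset ℕ, A.card = k ∧ 0 ∉ A ∧
    (∀ s ∈ (A * A).image (· + 1), 1 < s) ∧
    ∀ s ∈ (A * A).image (· + 1), ∀ s' ∈ (A * A).image (· + 1), s ≠ s' → Nat.Coprime s s' := by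
  classical
  let M := (k * k).factorial
  have hM : 0 < M := Nat.factorial_pos _
  have form : ∀ s ∈ (((Icc 1 k).image (· * M)) * ((Icc 1 k).image (· * M))).image (· + 1),
      ∃ t, 1 ≤ t ∧ t ≤ k * k ∧ s = t * (M * M) + 1 := by
    intro s hs
    obtain ⟨u, hu, rfl⟩ := mem_image.mp hs
    obtain ⟨a, ha, b, hb, rfl⟩ := mem_mul.mp hu
    obtain ⟨i, hi, rfl⟩ := mem_image.mp ha
    obtain ⟨j, hj, rfl⟩ := mem_image.mp hb
    rw [mem_Icc] at hi hj
    exact ⟨i * j, Nat.mul_pos hi.1 hj.1, Nat.mul_le_mul hi.2 hj.2, by ring⟩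
  refine ⟨(Icc 1 k).image (· * M), ?_, ?_, ?_, ?_⟩
  · rw [card_image_of_injective _ (fun a b h => Nat.eq_of_mul_eq_mul_right hM h)]
    simp
  · intro h
    obtain ⟨i, hi, h0⟩ := mem_image.mp h
    rw [mem_Icc] at hi
    have := Nat.mul_pos (show 0 < i from hi.1) hM
    omega
  · intro s hs
    obtain ⟨t, h1, _, rfl⟩ := form s hs
    have := Nat.mul_pos (show 0 < t from h1) (Nat.mul_pos hM hM)
    omega
  · have aux : ∀ t t' : ℕ, t < t' → t' ≤ k * k →
        Nat.Coprime (t * (M * M) + 1) (t' * (M * M) + 1) := by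
      intro t t' h h'
      apply Nat.coprime_mul_succ
      exact Dvd.dvd.mul_right (Nat.dvd_factorial (by omega) (by omega)) _
    intro s hs s' hs' hne
    obtain ⟨t, _, h2, rfl⟩ := form s hs
    obtain ⟨t', _, h2', rfl⟩ := form s' hs'
    rcases lt_trichotomy t t' with h | h | h
    · exact aux t t' h h2'
    · exact absurd (by rw [h]) hne
    · exact (aux t' t h h2).symm

theorem main (c₃ c₄ δ : ℝ) (h3 : 0 < c₃) (h4 : 0 < c₄) (hδ : 0 < δ) (N : ℕ) :
    ∃ A : Finset ℕ, 0 ∉ A ∧ N ≤ A.card ∧ N ≤ (A * A).card ∧ ∀ E F : Finset ℕ,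
      ¬ (((A * A).card : ℝ) ^ δ ≤ E.card ∧ ((A * A).card : ℝ) ^ δ ≤ F.card ∧
        ((E * F).card : ℝ) ≤ c₃ * (A * A).card ∧
        c₄ * (A * A).card ≤ (((A * A).image (· + 1) ∩ (E * F)).card : ℝ)) := by
  classical
  obtain ⟨K, hK⟩ := exists_nat_gt (4 * c₃ / c₄)
  have hK0 : (0 : ℝ) < K := lt_trans (by positivity) hK
  have ht : Filter.Tendsto (fun n : ℕ => (n : ℝ) ^ δ) Filter.atTop Filter.atTop :=
    (tendsto_rpow_atTop hδ).comp tendsto_natCast_atTop_atTop
  obtain ⟨n1, hn1⟩ := Filter.eventually_atTop.mp (ht.eventually_ge_atTop (K + 1))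
  obtain ⟨n2, hn2⟩ := exists_nat_gt (4 * (K : ℝ) ^ 2 / c₄)
  obtain ⟨A, hA, hA0, hA1, hAc⟩ := exists_A (N + n1 + n2 + 1)
  have hAA : A.card ≤ (A * A).card := by
    obtain ⟨a, ha⟩ : A.Nonempty := card_pos.mp (by omega)
    have ha0 : 0 < a := Nat.pos_of_ne_zero fun h => hA0 (h ▸ ha)
    apply card_le_card_of_injOn (fun b => a * b)
    · intro b hb
      exact mem_coe.mpr (mul_mem_mul ha (mem_coe.mp hb))
    · intro b _ b' _ h
      exact Nat.eq_of_mul_eq_mul_left ha0 h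
  refine ⟨A, hA0, by omega, by omega, ?_⟩
  rintro E F ⟨hE, hF, hEF, hS⟩
  set n := (A * A).card with hn
  have hpow := hn1 n (by omega)
  obtain ⟨T, hT, hT1, hTc, hTcard⟩ := split E F ((A * A).image (· + 1) ∩ (E * F))
    inter_subset_right (fun s hs => hA1 s (mem_inter.mp hs).1)
    (fun s hs s' hs' => hAc s (mem_inter.mp hs).1 s' (mem_inter.mp hs').1)
  have pick : ∀ W : Finset ℕ, (n : ℝ) ^ δ ≤ W.card → ∃ W' ⊆ W, W'.card = K ∧ ∀ f ∈ W', 0 < f := by
    intro W hW
    have h1 : K + 1 ≤ W.card := by exact_mod_cast hpow.trans hW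
    have h2 : K ≤ (W.erase 0).card := by
      have := pred_card_le_card_erase (s := W) (a := 0)
      omega
    obtain ⟨W', hW', hc⟩ := exists_subset_card_eq h2
    exact ⟨W', hW'.trans (erase_subset _ _), hc,
      fun f hf => Nat.pos_of_ne_zero (mem_erase.mp (hW' hf)).1⟩
  have hcount : (T.card - K ^ 2) * K ≤ (E * F).card := by
    rcases hT with hT | hT
    · obtain ⟨W, hW, hc, h0⟩ := pick F hF
      have := count E F T hT hT1 hTc W hW h0
      rwa [hc] at this
    · obtain ⟨W, hW, hc, h0⟩ := pick E hE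
      have := count F E T hT hT1 hTc W hW h0
      rwa [hc, mul_comm F E] at this
  have hT2 : c₄ * n ≤ 2 * (T.card : ℝ) := hS.trans (by exact_mod_cast hTcard)
  have hn2' : (n2 : ℝ) ≤ n := by exact_mod_cast (show n2 ≤ n by omega)
  have hb : 4 * (K : ℝ) ^ 2 < c₄ * n := by
    rw [div_lt_iff₀ h4] at hn2
    nlinarith
  have hsub : ((T.card : ℝ) - K ^ 2) * K ≤ (E * F).card := by
    have h1 : ((T.card : ℝ) - K ^ 2) ≤ ((T.card - K ^ 2 : ℕ) : ℝ) := by
      have : T.card ≤ (T.card - K ^ 2) + K ^ 2 := by omega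
      have h' : (T.card : ℝ) ≤ ((T.card - K ^ 2 : ℕ) : ℝ) + (K : ℝ) ^ 2 := by exact_mod_cast this
      linarith
    calc _ ≤ ((T.card - K ^ 2 : ℕ) : ℝ) * K := mul_le_mul_of_nonneg_right h1 hK0.le
      _ ≤ _ := by exact_mod_cast hcount
  rw [div_lt_iff₀ h4] at hK
  have hn0 : (0 : ℝ) < n := by
    have : 0 < c₄ * n := lt_of_le_of_lt (by positivity) hb
    exact (mul_pos_iff_of_pos_left h4).mp this
  nlinarith [mul_pos hK0 hn0, mul_lt_mul_of_pos_right hK hn0, mul_lt_mul_of_pos_right hb hK0]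

end Pool.Agent.H50.ShiftProd
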