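import Mathlib

set_option autoImplicit false
open scoped BigOperators

namespace Pool.Agent.H50.Skel

variable {n d : ℕ}

def hom (x : Fin d → ℝ) : Fin (d + 1) → ℝ := Fin.snoc (α := fun _ => ℝ) x 1

abbrev Ext (d : ℕ) := ExteriorAlgebra ℝ (Fin (d + 1) → ℝ)

noncomputable def pt (p : Fin n → Fin d → ℝ) (v : Fin n) : Ext d :=
  ExteriorAlgebra.ι ℝ (hom (p v))

noncomputable def bar (p : Fin n → Fin d → ℝ) (σ : Finset (Fin n)) : Ext d :=
  (((List.finRange n).filter (fun v => v ∈ σ)).map (pt p)).prod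

def IsComplex (Δ : Finset (Finset (Fin n))) : Prop :=
  ∅ ∈ Δ ∧ ∀ σ ∈ Δ, ∀ τ, τ ⊆ σ → τ ∈ Δ

def Adm (r : ℕ) (Δ : Finset (Finset (Fin n))) (p : Fin n → Fin d → ℝ) : Prop :=
  ∀ σ ∈ Δ, σ.card ≤ r → AffineIndependent ℝ (fun v : σ => p v)

def F (d r k : ℕ) (Δ : Finset (Finset (Fin n))) : Submodule ℝ (Finset (Fin n) → Ext d) where
  carrier := {c | (∀ σ, c σ ∈ ExteriorAlgebra.exteriorPower ℝ (r - k) (Fin (d + 1) → ℝ)) ∧
    ∀ σ, ¬ (σ ∈ Δ ∧ σ.card = k) → c σ = 0}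
  add_mem' := fun ha hb => ⟨fun σ => Submodule.add_mem _ (ha.1 σ) (hb.1 σ),
    fun σ h => by rw [Pi.add_apply, ha.2 σ h, hb.2 σ h, add_zero]⟩
  zero_mem' := ⟨fun _ => Submodule.zero_mem _, fun _ _ => rfl⟩
  smul_mem' := fun a _ hc => ⟨fun σ => Submodule.smul_mem _ a (hc.1 σ),
    fun σ h => by rw [Pi.smul_apply, hc.2 σ h, smul_zero]⟩

def Nl (p : Fin n → Fin d → ℝ) : Submodule ℝ (Finset (Fin n) → Ext d) where
  carrier := {c | ∀ σ, c σ * bar p σ = 0}
  add_mem' := fun ha hb σ => by rw [Pi.add_apply, add_mul, ha σ, hb σ, add_zero]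
  zero_mem' := fun σ => zero_mul _
  smul_mem' := fun a _ hc σ => by rw [Pi.smul_apply, smul_mul_assoc, hc σ, smul_zero]

noncomputable def D (p : Fin n → Fin d → ℝ) :
    (Finset (Fin n) → Ext d) →ₗ[ℝ] (Finset (Fin n) → Ext d) where
  toFun c τ := ∑ x ∈ τᶜ, c (insert x τ) * pt p x
  map_add' a b := by
    funext τ
    simp only [Pi.add_apply, add_mul, Finset.sum_add_distrib]
  map_smul' a c := by
    funext τ
    simp only [Pi.smul_apply, smul_mul_assoc, Finset.smul_sum, RingHom.id_apply]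

noncomputable def Z (r k : ℕ) (Δ : Finset (Finset (Fin n))) (p : Fin n → Fin d → ℝ) :
    Submodule ℝ (Finset (Fin n) → Ext d) :=
  F d r k Δ ⊓ (Nl p).comap (D p)

noncomputable def B (r k : ℕ) (Δ : Finset (Finset (Fin n))) (p : Fin n → Fin d → ℝ) :
    Submodule ℝ (Finset (Fin n) → Ext d) :=
  (F d r (k + 1) Δ).map (D p) ⊔ (F d r k Δ ⊓ Nl p)

noncomputable def betti (r k : ℕ) (Δ : Finset (Finset (Fin n))) (p : Fin n → Fin d → ℝ) : ℕ :=
  Module.finrank ℝ (Z r k Δ p ⧸ (B r k Δ p).comap (Z r k Δ p).subtype)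

def proj (p : Fin n → Fin (d + 1) → ℝ) : Fin n → Fin d → ℝ := fun v => Fin.init (p v)

lemma D_apply (p : Fin n → Fin d → ℝ) (c : Finset (Fin n) → Ext d) (τ : Finset (Fin n)) :
    D p c τ = ∑ x ∈ τᶜ, c (insert x τ) * pt p x := rfl

lemma D_mem (p : Fin n → Fin d → ℝ) {Δ : Finset (Finset (Fin n))} (hΔ : IsComplex Δ) (r k : ℕ)
    (hk : k < r) {c : Finset (Fin n) → Ext d} (hc : c ∈ F d r (k + 1) Δ) :
    D p c ∈ F d r k Δ := by
  refine ⟨fun σ => ?_, fun σ hσ => ?_⟩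
  · rw [D_apply]
    apply Submodule.sum_mem
    intro x _
    have : r - k = (r - (k + 1)) + 1 := by omega
    rw [this, ExteriorAlgebra.exteriorPower, pow_succ]
    exact Submodule.mul_mem_mul (hc.1 _) ⟨_, rfl⟩
  · rw [D_apply]
    apply Finset.sum_eq_zero
    intro x hx
    rw [hc.2, zero_mul]
    rintro ⟨h1, h2⟩
    rw [Finset.card_insert_of_notMem (Finset.mem_compl.mp hx)] at h2
    exact hσ ⟨hΔ.2 _ h1 _ (Finset.subset_insert _ _), by omega⟩

lemma D_sub (p : Fin n → Fin d → ℝ) {Δ : Finset (Finset (Fin n))} {r k : ℕ}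
    {c : Finset (Fin n) → Ext d} (hc : c ∈ F d r k Δ) (τ S : Finset (Fin n))
    (h1 : ∀ x ∈ S, x ∉ τ) (h2 : ∀ x, x ∉ τ → x ∉ S → insert x τ ∉ Δ) :
    D p c τ = ∑ x ∈ S, c (insert x τ) * pt p x := by
  rw [D_apply]
  symm
  apply Finset.sum_subset
  · intro x hx
    exact Finset.mem_compl.mpr (h1 x hx)
  · intro x hx hS
    rw [hc.2 _ (fun h => h2 x (Finset.mem_compl.mp hx) hS h.1), zero_mul]

lemma D_single (p : Fin n → Fin d → ℝ) {Δ : Finset (Finset (Fin n))} {r k : ℕ}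
    {c : Finset (Fin n) → Ext d} (hc : c ∈ F d r k Δ) (τ : Finset (Fin n)) (y : Fin n)
    (h1 : y ∉ τ) (h2 : ∀ x, x ∉ τ → x ≠ y → insert x τ ∉ Δ) :
    D p c τ = c (insert y τ) * pt p y := by
  rw [D_sub p hc τ {y} (by simpa using h1) (by simpa using h2), Finset.sum_singleton]

lemma bar_one (p : Fin 8 → Fin d → ℝ) (v : Fin 8) : bar p {v} = pt p v := by
  have : ∀ v : Fin 8, (List.finRange 8).filter (fun x => x ∈ ({v} : Finset (Fin 8))) = [v] := by
    decide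
  simp only [bar, this, List.map_cons, List.map_nil, List.prod_cons, List.prod_nil, mul_one]

lemma bar_pair (p : Fin 8 → Fin d → ℝ) (u v : Fin 8) (h : u < v) :
    bar p {u, v} = pt p u * pt p v := by
  have : ∀ u v : Fin 8, u < v →
      (List.finRange 8).filter (fun x => x ∈ ({u, v} : Finset (Fin 8))) = [u, v] := by
    decide
  simp only [bar, this u v h, List.map_cons, List.map_nil, List.prod_cons, List.prod_nil, mul_one]

noncomputable def ph {m : ℕ} (i j k : Fin m) : ExteriorAlgebra ℝ (Fin m → ℝ) →ₗ[ℝ] ℝ :=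
  ExteriorAlgebra.liftAlternating
    (Pi.single (M := fun s : ℕ => (Fin m → ℝ) [⋀^Fin s]→ₗ[ℝ] ℝ) 3
      ((Matrix.detRowAlternating (n := Fin 3) (R := ℝ)).compLinearMap
        (LinearMap.funLeft ℝ ℝ ![i, j, k])))

lemma hph {m : ℕ} (i j k : Fin m) (u v w : Fin m → ℝ) :
    ph i j k (ExteriorAlgebra.ι ℝ u * ExteriorAlgebra.ι ℝ v * ExteriorAlgebra.ι ℝ w) =
      u i * v j * w k - u i * v k * w j - u j * v i * w k + u j * v k * w i + u k * v i * w j
        - u k * v j * w i := by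
  have h : ExteriorAlgebra.ι ℝ u * ExteriorAlgebra.ι ℝ v * ExteriorAlgebra.ι ℝ w =
      ExteriorAlgebra.ιMulti ℝ 3 ![u, v, w] := by
    rw [ExteriorAlgebra.ιMulti_apply]
    simp [List.ofFn_succ, mul_assoc]
  rw [h, ph, ExteriorAlgebra.liftAlternating_apply_ιMulti, Pi.single_eq_same,
    AlternatingMap.compLinearMap_apply]
  change Matrix.det (Matrix.of fun a b => (![u, v, w] a) (![i, j, k] b)) = _
  rw [Matrix.det_fin_three]
  rfl

lemma edge_zero {m : ℕ} (w o u v : Fin m → ℝ) (s a b : ℝ) (h : w - s • o = a • u + b • v) :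
    (ExteriorAlgebra.ι ℝ w - algebraMap ℝ _ s * ExteriorAlgebra.ι ℝ o) *
      (ExteriorAlgebra.ι ℝ u * ExteriorAlgebra.ι ℝ v) = 0 := by
  rw [← Algebra.smul_def, ← map_smul, ← map_sub, h, map_add, map_smul, map_smul, add_mul,
    smul_mul_assoc, smul_mul_assoc, ← mul_assoc, ExteriorAlgebra.ι_sq_zero, zero_mul, smul_zero,
    zero_add, ← mul_assoc]
  have := ExteriorAlgebra.ι_add_mul_swap (R := ℝ) v u
  rw [eq_neg_of_add_eq_zero_left this, neg_mul, mul_assoc, ExteriorAlgebra.ι_sq_zero]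
  simp

def DD : Finset (Finset (Fin 8)) :=
  Finset.powerset {0, 1, 4} ∪ Finset.powerset {1, 2, 5} ∪ Finset.powerset {2, 3, 6} ∪
    Finset.powerset {0, 3, 7}

def pp : Fin 8 → Fin 3 → ℝ :=
  ![![0, 0, 0], ![1, 0, 0], ![1, 1, 1], ![0, 1, 0], ![0, -1, 0], ![2, 0, 0], ![0, 2, 0],
    ![-1, 0, 0]]

def HH : Fin 8 → Fin 4 → ℝ :=
  ![![0, 0, 0, 1], ![1, 0, 0, 1], ![1, 1, 1, 1], ![0, 1, 0, 1], ![0, -1, 0, 1], ![2, 0, 0, 1],
    ![0, 2, 0, 1], ![-1, 0, 0, 1]]

def QQ : Fin 8 → Fin 3 → ℝ :=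
  ![![0, 0, 1], ![1, 0, 1], ![1, 1, 1], ![0, 1, 1], ![0, -1, 1], ![2, 0, 1],
    ![0, 2, 1], ![-1, 0, 1]]

lemma hom_pp (v : Fin 8) : hom (pp v) = HH v := by
  funext i
  fin_cases v <;> fin_cases i <;> rfl

lemma hom_qq (v : Fin 8) : hom (proj pp v) = QQ v := by
  funext i
  fin_cases v <;> fin_cases i <;> rfl

lemma DD_cx : IsComplex DD := by
  refine ⟨by decide, fun σ hσ τ hτ => ?_⟩
  simp only [DD, Finset.mem_union, Finset.mem_powerset] at hσ ⊢
  rcases hσ with ((h | h) | h) | h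
  · exact Or.inl (Or.inl (Or.inl (hτ.trans h)))
  · exact Or.inl (Or.inl (Or.inr (hτ.trans h)))
  · exact Or.inl (Or.inr (hτ.trans h))
  · exact Or.inr (hτ.trans h)

lemma edges : ∀ σ ∈ DD, σ.card = 2 → σ = {0, 1} ∨ σ = {0, 4} ∨ σ = {1, 4} ∨ σ = {1, 2} ∨ σ = {1, 5} ∨ σ = {2, 5} ∨ σ = {2, 3} ∨ σ = {2, 6} ∨ σ = {3, 6} ∨ σ = {0, 3} ∨ σ = {0, 7} ∨ σ = {3, 7} := by
  decide +kernel

lemma ZleB : Z 3 2 DD pp ≤ B 3 2 DD pp := by
  intro c hc
  have hw : ∀ σ, ∃ w, c σ = ExteriorAlgebra.ι ℝ w := by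
    intro σ
    have := hc.1.1 σ
    rw [ExteriorAlgebra.exteriorPower, show 3 - 2 = 1 from rfl, pow_one] at this
    obtain ⟨w, hw⟩ := this
    exact ⟨w, hw.symm⟩
  have hcyc : ∀ (v : Fin 8) (S : Finset (Fin 8)), (∀ x ∈ S, x ∉ ({v} : Finset (Fin 8))) →
      (∀ x, x ∉ ({v} : Finset (Fin 8)) → x ∉ S → insert x {v} ∉ DD) →
      (∑ x ∈ S, c (insert x {v}) * pt pp x) * pt pp v = 0 := by
    intro v S h1 h2
    rw [← D_sub pp hc.1 {v} S h1 h2, ← bar_one]
    exact hc.2 {v}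
  obtain ⟨w01, h01⟩ := hw {0, 1}
  obtain ⟨w04, h04⟩ := hw {0, 4}
  obtain ⟨w14, h14⟩ := hw {1, 4}
  obtain ⟨w12, h12⟩ := hw {1, 2}
  obtain ⟨w15, h15⟩ := hw {1, 5}
  obtain ⟨w25, h25⟩ := hw {2, 5}
  obtain ⟨w23, h23⟩ := hw {2, 3}
  obtain ⟨w26, h26⟩ := hw {2, 6}
  obtain ⟨w36, h36⟩ := hw {3, 6}
  obtain ⟨w03, h03⟩ := hw {0, 3}
  obtain ⟨w07, h07⟩ := hw {0, 7}
  obtain ⟨w37, h37⟩ := hw {3, 7}
  have v0 := hcyc 0 {1, 3, 4, 7} (by decide) (by decide)
  simp only [Finset.sum_insert, Finset.mem_insert, Finset.mem_singleton, Finset.sum_singleton,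
    Fin.reduceEq, or_self, not_false_eq_true, or_false, false_or] at v0
  rw [Finset.pair_comm (1 : Fin 8) 0, h01, Finset.pair_comm (3 : Fin 8) 0, h03, Finset.pair_comm (4 : Fin 8) 0, h04, Finset.pair_comm (7 : Fin 8) 0, h07] at v0
  have v00 := congrArg (ph 0 1 2) v0
  simp [add_mul, pt, hph, hom_pp, HH] at v00
  have v01 := congrArg (ph 0 1 3) v0
  simp [add_mul, pt, hph, hom_pp, HH] at v01
  have v02 := congrArg (ph 0 2 3) v0
  simp [add_mul, pt, hph, hom_pp, HH] at v02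
  have v03 := congrArg (ph 1 2 3) v0
  simp [add_mul, pt, hph, hom_pp, HH] at v03
  have v1 := hcyc 1 {0, 2, 4, 5} (by decide) (by decide)
  simp only [Finset.sum_insert, Finset.mem_insert, Finset.mem_singleton, Finset.sum_singleton,
    Fin.reduceEq, or_self, not_false_eq_true, or_false, false_or] at v1
  rw [h01, Finset.pair_comm (2 : Fin 8) 1, h12, Finset.pair_comm (4 : Fin 8) 1, h14, Finset.pair_comm (5 : Fin 8) 1, h15] at v1
  have v10 := congrArg (ph 0 1 2) v1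
  simp [add_mul, pt, hph, hom_pp, HH] at v10
  have v11 := congrArg (ph 0 1 3) v1
  simp [add_mul, pt, hph, hom_pp, HH] at v11
  have v12 := congrArg (ph 0 2 3) v1
  simp [add_mul, pt, hph, hom_pp, HH] at v12
  have v13 := congrArg (ph 1 2 3) v1
  simp [add_mul, pt, hph, hom_pp, HH] at v13
  have v2 := hcyc 2 {1, 3, 5, 6} (by decide) (by decide)
  simp only [Finset.sum_insert, Finset.mem_insert, Finset.mem_singleton, Finset.sum_singleton,
    Fin.reduceEq, or_self, not_false_eq_true, or_false, false_or] at v2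
  rw [h12, Finset.pair_comm (3 : Fin 8) 2, h23, Finset.pair_comm (5 : Fin 8) 2, h25, Finset.pair_comm (6 : Fin 8) 2, h26] at v2
  have v20 := congrArg (ph 0 1 2) v2
  simp [add_mul, pt, hph, hom_pp, HH] at v20
  have v21 := congrArg (ph 0 1 3) v2
  simp [add_mul, pt, hph, hom_pp, HH] at v21
  have v22 := congrArg (ph 0 2 3) v2
  simp [add_mul, pt, hph, hom_pp, HH] at v22
  have v23 := congrArg (ph 1 2 3) v2
  simp [add_mul, pt, hph, hom_pp, HH] at v23
  have v3 := hcyc 3 {0, 2, 6, 7} (by decide) (by decide)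
  simp only [Finset.sum_insert, Finset.mem_insert, Finset.mem_singleton, Finset.sum_singleton,
    Fin.reduceEq, or_self, not_false_eq_true, or_false, false_or] at v3
  rw [h03, h23, Finset.pair_comm (6 : Fin 8) 3, h36, Finset.pair_comm (7 : Fin 8) 3, h37] at v3
  have v30 := congrArg (ph 0 1 2) v3
  simp [add_mul, pt, hph, hom_pp, HH] at v30
  have v31 := congrArg (ph 0 1 3) v3
  simp [add_mul, pt, hph, hom_pp, HH] at v31
  have v32 := congrArg (ph 0 2 3) v3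
  simp [add_mul, pt, hph, hom_pp, HH] at v32
  have v33 := congrArg (ph 1 2 3) v3
  simp [add_mul, pt, hph, hom_pp, HH] at v33
  have v4 := hcyc 4 {0, 1} (by decide) (by decide)
  simp only [Finset.sum_insert, Finset.mem_insert, Finset.mem_singleton, Finset.sum_singleton,
    Fin.reduceEq, or_self, not_false_eq_true, or_false, false_or] at v4
  rw [h04, h14] at v4
  have v40 := congrArg (ph 0 1 2) v4
  simp [add_mul, pt, hph, hom_pp, HH] at v40
  have v41 := congrArg (ph 0 1 3) v4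
  simp [add_mul, pt, hph, hom_pp, HH] at v41
  have v42 := congrArg (ph 0 2 3) v4
  simp [add_mul, pt, hph, hom_pp, HH] at v42
  have v43 := congrArg (ph 1 2 3) v4
  simp [add_mul, pt, hph, hom_pp, HH] at v43
  have v5 := hcyc 5 {1, 2} (by decide) (by decide)
  simp only [Finset.sum_insert, Finset.mem_insert, Finset.mem_singleton, Finset.sum_singleton,
    Fin.reduceEq, or_self, not_false_eq_true, or_false, false_or] at v5
  rw [h15, h25] at v5
  have v50 := congrArg (ph 0 1 2) v5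
  simp [add_mul, pt, hph, hom_pp, HH] at v50
  have v51 := congrArg (ph 0 1 3) v5
  simp [add_mul, pt, hph, hom_pp, HH] at v51
  have v52 := congrArg (ph 0 2 3) v5
  simp [add_mul, pt, hph, hom_pp, HH] at v52
  have v53 := congrArg (ph 1 2 3) v5
  simp [add_mul, pt, hph, hom_pp, HH] at v53
  have v6 := hcyc 6 {2, 3} (by decide) (by decide)
  simp only [Finset.sum_insert, Finset.mem_insert, Finset.mem_singleton, Finset.sum_singleton,
    Fin.reduceEq, or_self, not_false_eq_true, or_false, false_or] at v6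
  rw [h26, h36] at v6
  have v60 := congrArg (ph 0 1 2) v6
  simp [add_mul, pt, hph, hom_pp, HH] at v60
  have v61 := congrArg (ph 0 1 3) v6
  simp [add_mul, pt, hph, hom_pp, HH] at v61
  have v62 := congrArg (ph 0 2 3) v6
  simp [add_mul, pt, hph, hom_pp, HH] at v62
  have v63 := congrArg (ph 1 2 3) v6
  simp [add_mul, pt, hph, hom_pp, HH] at v63
  have v7 := hcyc 7 {0, 3} (by decide) (by decide)
  simp only [Finset.sum_insert, Finset.mem_insert, Finset.mem_singleton, Finset.sum_singleton,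
    Fin.reduceEq, or_self, not_false_eq_true, or_false, false_or] at v7
  rw [h07, h37] at v7
  have v70 := congrArg (ph 0 1 2) v7
  simp [add_mul, pt, hph, hom_pp, HH] at v70
  have v71 := congrArg (ph 0 1 3) v7
  simp [add_mul, pt, hph, hom_pp, HH] at v71
  have v72 := congrArg (ph 0 2 3) v7
  simp [add_mul, pt, hph, hom_pp, HH] at v72
  have v73 := congrArg (ph 1 2 3) v7
  simp [add_mul, pt, hph, hom_pp, HH] at v73
  let t : Finset (Fin 8) → Ext 3 := fun σ =>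
    if σ = {0, 1, 4} then algebraMap ℝ _ ((1 / 1 : ℝ) * w04 0) else
    if σ = {1, 2, 5} then algebraMap ℝ _ ((1 / 1 : ℝ) * w15 1) else
    if σ = {2, 3, 6} then algebraMap ℝ _ ((-1 / 1 : ℝ) * w26 0 + (-1 / 1 : ℝ) * w26 1 + (2 / 1 : ℝ) * w26 3) else
    if σ = {0, 3, 7} then algebraMap ℝ _ ((1 / 1 : ℝ) * w07 1) else
    0
  have ht : t ∈ F 3 3 3 DD := by
    refine ⟨fun σ => ?_, fun σ hσ => ?_⟩
    · simp only [t, Nat.sub_self, pow_zero]
      split_ifs
      all_goals first | exact Submodule.algebraMap_mem _ | exact Submodule.zero_mem _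
    · simp only [t]
      split_ifs with h1 h2 h3 h4
      · exact absurd (h1 ▸ (by decide)) hσ
      · exact absurd (h2 ▸ (by decide)) hσ
      · exact absurd (h3 ▸ (by decide)) hσ
      · exact absurd (h4 ▸ (by decide)) hσ
      · rfl
  have hDt := D_mem pp DD_cx 3 2 (by norm_num) ht
  have hsub : c - D pp t ∈ F 3 3 2 DD := Submodule.sub_mem _ hc.1 hDt
  refine Submodule.mem_sup.mpr ⟨D pp t, ⟨t, ht, rfl⟩, c - D pp t, ⟨hsub, ?_⟩, by abel⟩
  intro σ
  by_cases hσ : σ ∈ DD ∧ σ.card = 2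
  swap
  · rw [hsub.2 σ hσ, zero_mul]
  rcases edges σ hσ.1 hσ.2 with rfl | rfl | rfl | rfl | rfl | rfl | rfl | rfl | rfl | rfl | rfl | rfl
  · rw [Pi.sub_apply, D_single pp ht {0, 1} 4 (by decide) (by decide), h01,
      bar_pair pp 0 1 (by decide)]
    have e : t (insert 4 {0, 1}) = algebraMap ℝ _ ((1 / 1 : ℝ) * w04 0) := by
      simp only [t]
      simp +decide only [if_true, if_false]
    rw [e]
    refine edge_zero _ _ _ _ _ (((1) * (w01 0 - ((1 / 1 : ℝ) * w04 0) * (0)) - (1) * (w01 3 - ((1 / 1 : ℝ) * w04 0) * (1))) / (-1))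
      (((0) * (w01 3 - ((1 / 1 : ℝ) * w04 0) * (1)) - (1) * (w01 0 - ((1 / 1 : ℝ) * w04 0) * (0))) / (-1)) ?_
    ext i
    fin_cases i <;> simp [hom_pp, HH] <;> linarith
  · rw [Pi.sub_apply, D_single pp ht {0, 4} 1 (by decide) (by decide), h04,
      bar_pair pp 0 4 (by decide)]
    have e : t (insert 1 {0, 4}) = algebraMap ℝ _ ((1 / 1 : ℝ) * w04 0) := by
      simp only [t]
      simp +decide only [if_true, if_false]
    rw [e]
    refine edge_zero _ _ _ _ _ (((1) * (w04 1 - ((1 / 1 : ℝ) * w04 0) * (0)) - (-1) * (w04 3 - ((1 / 1 : ℝ) * w04 0) * (1))) / (1))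
      (((0) * (w04 3 - ((1 / 1 : ℝ) * w04 0) * (1)) - (1) * (w04 1 - ((1 / 1 : ℝ) * w04 0) * (0))) / (1)) ?_
    ext i
    fin_cases i <;> simp [hom_pp, HH] <;> linarith
  · rw [Pi.sub_apply, D_single pp ht {1, 4} 0 (by decide) (by decide), h14,
      bar_pair pp 1 4 (by decide)]
    have e : t (insert 0 {1, 4}) = algebraMap ℝ _ ((1 / 1 : ℝ) * w04 0) := by
      simp only [t]
      simp +decide only [if_true, if_false]
    rw [e]
    refine edge_zero _ _ _ _ _ (((-1) * (w14 0 - ((1 / 1 : ℝ) * w04 0) * (0)) - (0) * (w14 1 - ((1 / 1 : ℝ) * w04 0) * (0))) / (-1))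
      (((1) * (w14 1 - ((1 / 1 : ℝ) * w04 0) * (0)) - (0) * (w14 0 - ((1 / 1 : ℝ) * w04 0) * (0))) / (-1)) ?_
    ext i
    fin_cases i <;> simp [hom_pp, HH] <;> linarith
  · rw [Pi.sub_apply, D_single pp ht {1, 2} 5 (by decide) (by decide), h12,
      bar_pair pp 1 2 (by decide)]
    have e : t (insert 5 {1, 2}) = algebraMap ℝ _ ((1 / 1 : ℝ) * w15 1) := by
      simp only [t]
      simp +decide only [if_true, if_false]
    rw [e]
    refine edge_zero _ _ _ _ _ (((1) * (w12 0 - ((1 / 1 : ℝ) * w15 1) * (2)) - (1) * (w12 1 - ((1 / 1 : ℝ) * w15 1) * (0))) / (1))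
      (((1) * (w12 1 - ((1 / 1 : ℝ) * w15 1) * (0)) - (0) * (w12 0 - ((1 / 1 : ℝ) * w15 1) * (2))) / (1)) ?_
    ext i
    fin_cases i <;> simp [hom_pp, HH] <;> linarith
  · rw [Pi.sub_apply, D_single pp ht {1, 5} 2 (by decide) (by decide), h15,
      bar_pair pp 1 5 (by decide)]
    have e : t (insert 2 {1, 5}) = algebraMap ℝ _ ((1 / 1 : ℝ) * w15 1) := by
      simp only [t]
      simp +decide only [if_true, if_false]
    rw [e]
    refine edge_zero _ _ _ _ _ (((1) * (w15 0 - ((1 / 1 : ℝ) * w15 1) * (1)) - (2) * (w15 3 - ((1 / 1 : ℝ) * w15 1) * (1))) / (-1))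
      (((1) * (w15 3 - ((1 / 1 : ℝ) * w15 1) * (1)) - (1) * (w15 0 - ((1 / 1 : ℝ) * w15 1) * (1))) / (-1)) ?_
    ext i
    fin_cases i <;> simp [hom_pp, HH] <;> linarith
  · rw [Pi.sub_apply, D_single pp ht {2, 5} 1 (by decide) (by decide), h25,
      bar_pair pp 2 5 (by decide)]
    have e : t (insert 1 {2, 5}) = algebraMap ℝ _ ((1 / 1 : ℝ) * w15 1) := by
      simp only [t]
      simp +decide only [if_true, if_false]
    rw [e]
    refine edge_zero _ _ _ _ _ (((0) * (w25 0 - ((1 / 1 : ℝ) * w15 1) * (1)) - (2) * (w25 1 - ((1 / 1 : ℝ) * w15 1) * (0))) / (-2))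
      (((1) * (w25 1 - ((1 / 1 : ℝ) * w15 1) * (0)) - (1) * (w25 0 - ((1 / 1 : ℝ) * w15 1) * (1))) / (-2)) ?_
    ext i
    fin_cases i <;> simp [hom_pp, HH] <;> linarith
  · rw [Pi.sub_apply, D_single pp ht {2, 3} 6 (by decide) (by decide), h23,
      bar_pair pp 2 3 (by decide)]
    have e : t (insert 6 {2, 3}) = algebraMap ℝ _ ((-1 / 1 : ℝ) * w26 0 + (-1 / 1 : ℝ) * w26 1 + (2 / 1 : ℝ) * w26 3) := by
      simp only [t]
      simp +decide only [if_true, if_false]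
    rw [e]
    refine edge_zero _ _ _ _ _ (((1) * (w23 0 - ((-1 / 1 : ℝ) * w26 0 + (-1 / 1 : ℝ) * w26 1 + (2 / 1 : ℝ) * w26 3) * (0)) - (0) * (w23 1 - ((-1 / 1 : ℝ) * w26 0 + (-1 / 1 : ℝ) * w26 1 + (2 / 1 : ℝ) * w26 3) * (2))) / (1))
      (((1) * (w23 1 - ((-1 / 1 : ℝ) * w26 0 + (-1 / 1 : ℝ) * w26 1 + (2 / 1 : ℝ) * w26 3) * (2)) - (1) * (w23 0 - ((-1 / 1 : ℝ) * w26 0 + (-1 / 1 : ℝ) * w26 1 + (2 / 1 : ℝ) * w26 3) * (0))) / (1)) ?_
    ext i
    fin_cases i <;> simp [hom_pp, HH] <;> linarith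
  · rw [Pi.sub_apply, D_single pp ht {2, 6} 3 (by decide) (by decide), h26,
      bar_pair pp 2 6 (by decide)]
    have e : t (insert 3 {2, 6}) = algebraMap ℝ _ ((-1 / 1 : ℝ) * w26 0 + (-1 / 1 : ℝ) * w26 1 + (2 / 1 : ℝ) * w26 3) := by
      simp only [t]
      simp +decide only [if_true, if_false]
    rw [e]
    refine edge_zero _ _ _ _ _ (((2) * (w26 0 - ((-1 / 1 : ℝ) * w26 0 + (-1 / 1 : ℝ) * w26 1 + (2 / 1 : ℝ) * w26 3) * (0)) - (0) * (w26 1 - ((-1 / 1 : ℝ) * w26 0 + (-1 / 1 : ℝ) * w26 1 + (2 / 1 : ℝ) * w26 3) * (1))) / (2))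
      (((1) * (w26 1 - ((-1 / 1 : ℝ) * w26 0 + (-1 / 1 : ℝ) * w26 1 + (2 / 1 : ℝ) * w26 3) * (1)) - (1) * (w26 0 - ((-1 / 1 : ℝ) * w26 0 + (-1 / 1 : ℝ) * w26 1 + (2 / 1 : ℝ) * w26 3) * (0))) / (2)) ?_
    ext i
    fin_cases i <;> simp [hom_pp, HH] <;> linarith
  · rw [Pi.sub_apply, D_single pp ht {3, 6} 2 (by decide) (by decide), h36,
      bar_pair pp 3 6 (by decide)]
    have e : t (insert 2 {3, 6}) = algebraMap ℝ _ ((-1 / 1 : ℝ) * w26 0 + (-1 / 1 : ℝ) * w26 1 + (2 / 1 : ℝ) * w26 3) := by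
      simp only [t]
      simp +decide only [if_true, if_false]
    rw [e]
    refine edge_zero _ _ _ _ _ (((1) * (w36 1 - ((-1 / 1 : ℝ) * w26 0 + (-1 / 1 : ℝ) * w26 1 + (2 / 1 : ℝ) * w26 3) * (1)) - (2) * (w36 3 - ((-1 / 1 : ℝ) * w26 0 + (-1 / 1 : ℝ) * w26 1 + (2 / 1 : ℝ) * w26 3) * (1))) / (-1))
      (((1) * (w36 3 - ((-1 / 1 : ℝ) * w26 0 + (-1 / 1 : ℝ) * w26 1 + (2 / 1 : ℝ) * w26 3) * (1)) - (1) * (w36 1 - ((-1 / 1 : ℝ) * w26 0 + (-1 / 1 : ℝ) * w26 1 + (2 / 1 : ℝ) * w26 3) * (1))) / (-1)) ?_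
    ext i
    fin_cases i <;> simp [hom_pp, HH] <;> linarith
  · rw [Pi.sub_apply, D_single pp ht {0, 3} 7 (by decide) (by decide), h03,
      bar_pair pp 0 3 (by decide)]
    have e : t (insert 7 {0, 3}) = algebraMap ℝ _ ((1 / 1 : ℝ) * w07 1) := by
      simp only [t]
      simp +decide only [if_true, if_false]
    rw [e]
    refine edge_zero _ _ _ _ _ (((1) * (w03 1 - ((1 / 1 : ℝ) * w07 1) * (0)) - (1) * (w03 3 - ((1 / 1 : ℝ) * w07 1) * (1))) / (-1))
      (((0) * (w03 3 - ((1 / 1 : ℝ) * w07 1) * (1)) - (1) * (w03 1 - ((1 / 1 : ℝ) * w07 1) * (0))) / (-1)) ?_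
    ext i
    fin_cases i <;> simp [hom_pp, HH] <;> linarith
  · rw [Pi.sub_apply, D_single pp ht {0, 7} 3 (by decide) (by decide), h07,
      bar_pair pp 0 7 (by decide)]
    have e : t (insert 3 {0, 7}) = algebraMap ℝ _ ((1 / 1 : ℝ) * w07 1) := by
      simp only [t]
      simp +decide only [if_true, if_false]
    rw [e]
    refine edge_zero _ _ _ _ _ (((1) * (w07 0 - ((1 / 1 : ℝ) * w07 1) * (0)) - (-1) * (w07 3 - ((1 / 1 : ℝ) * w07 1) * (1))) / (1))
      (((0) * (w07 3 - ((1 / 1 : ℝ) * w07 1) * (1)) - (1) * (w07 0 - ((1 / 1 : ℝ) * w07 1) * (0))) / (1)) ?_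
    ext i
    fin_cases i <;> simp [hom_pp, HH] <;> linarith
  · rw [Pi.sub_apply, D_single pp ht {3, 7} 0 (by decide) (by decide), h37,
      bar_pair pp 3 7 (by decide)]
    have e : t (insert 0 {3, 7}) = algebraMap ℝ _ ((1 / 1 : ℝ) * w07 1) := by
      simp only [t]
      simp +decide only [if_true, if_false]
    rw [e]
    refine edge_zero _ _ _ _ _ (((0) * (w37 0 - ((1 / 1 : ℝ) * w07 1) * (0)) - (-1) * (w37 1 - ((1 / 1 : ℝ) * w07 1) * (0))) / (1))
      (((0) * (w37 1 - ((1 / 1 : ℝ) * w07 1) * (0)) - (1) * (w37 0 - ((1 / 1 : ℝ) * w07 1) * (0))) / (1)) ?_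
    ext i
    fin_cases i <;> simp [hom_pp, HH] <;> linarith


lemma betti_p : betti 3 2 DD pp = 0 := by
  have : (B 3 2 DD pp).comap (Z 3 2 DD pp).subtype = ⊤ :=
    Submodule.comap_subtype_eq_top.mpr ZleB
  have : Subsingleton (Z 3 2 DD pp ⧸ (B 3 2 DD pp).comap (Z 3 2 DD pp).subtype) :=
    Submodule.Quotient.subsingleton_iff.mpr this
  exact Module.finrank_zero_of_subsingleton

lemma F_fin (r k : ℕ) (Δ : Finset (Finset (Fin n))) : Module.Finite ℝ (F d r k Δ) := by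
  have h : (Submodule.pi Set.univ (fun _ : Finset (Fin n) =>
      ExteriorAlgebra.exteriorPower ℝ (r - k) (Fin (d + 1) → ℝ))).FG :=
    Submodule.fg_pi fun _ => Module.Finite.iff_fg.mp inferInstance
  have := Module.Finite.iff_fg.mpr h
  exact Submodule.finiteDimensional_of_le (S₂ := Submodule.pi Set.univ (fun _ : Finset (Fin n) =>
      ExteriorAlgebra.exteriorPower ℝ (r - k) (Fin (d + 1) → ℝ))) (fun c hc σ _ => hc.1 σ)

noncomputable def zz : Finset (Fin 8) → Ext 2 := fun σ =>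
  if σ = {0, 1} then pt (proj pp) 2 else if σ = {1, 2} then pt (proj pp) 0 else
  if σ = {2, 3} then pt (proj pp) 0 else if σ = {0, 3} then pt (proj pp) 2 else 0

lemma zz_F : zz ∈ F 2 3 2 DD := by
  refine ⟨fun σ => ?_, fun σ hσ => ?_⟩
  · rw [ExteriorAlgebra.exteriorPower, show 3 - 2 = 1 from rfl, pow_one]
    simp only [zz]
    split_ifs
    · exact ⟨_, rfl⟩
    · exact ⟨_, rfl⟩
    · exact ⟨_, rfl⟩
    · exact ⟨_, rfl⟩
    · exact Submodule.zero_mem _
  · simp only [zz]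
    split_ifs with h1 h2 h3 h4
    · exact absurd (h1 ▸ (by decide)) hσ
    · exact absurd (h2 ▸ (by decide)) hσ
    · exact absurd (h3 ▸ (by decide)) hσ
    · exact absurd (h4 ▸ (by decide)) hσ
    · rfl

lemma zz_Z : zz ∈ Z 3 2 DD (proj pp) := by
  refine ⟨zz_F, fun σ => ?_⟩
  have hD := D_mem (proj pp) DD_cx 3 1 (by norm_num) zz_F
  by_cases hσ : σ ∈ DD ∧ σ.card = 1
  swap
  · rw [hD.2 σ hσ, zero_mul]
  obtain ⟨v, rfl⟩ := Finset.card_eq_one.mp hσ.2
  have h13 : pt (proj pp) 1 + pt (proj pp) 3 = pt (proj pp) 0 + pt (proj pp) 2 := by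
    simp only [pt, hom_qq, ← map_add]
    congr 1
    funext i
    fin_cases i <;> simp [QQ]
  have sq : ∀ x, pt (proj pp) x * pt (proj pp) x = 0 := fun x => ExteriorAlgebra.ι_sq_zero _
  have sw : pt (proj pp) 2 * pt (proj pp) 0 + pt (proj pp) 0 * pt (proj pp) 2 = 0 :=
    ExteriorAlgebra.ι_add_mul_swap _ _
  rw [bar_one, D_apply, Finset.compl_eq_univ_sdiff, Finset.sdiff_eq_filter, Finset.sum_filter,
    Fin.sum_univ_eight]
  fin_cases v
  · simp +decide only [zz, if_true, if_false, zero_mul, add_zero, zero_add]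
    change (_ : Ext 2) * pt (proj pp) 0 = 0
    rw [← mul_add, h13, mul_add, sq, add_zero, mul_assoc, sq, mul_zero]
  · simp +decide only [zz, if_true, if_false, zero_mul, add_zero, zero_add]
    rw [sw, zero_mul]
  · simp +decide only [zz, if_true, if_false, zero_mul, add_zero, zero_add]
    change (_ : Ext 2) * pt (proj pp) 2 = 0
    rw [← mul_add, h13, mul_add, sq, zero_add, mul_assoc, sq, mul_zero]
  · simp +decide only [zz, if_true, if_false, zero_mul, add_zero, zero_add]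
    rw [sw, zero_mul]
  all_goals simp +decide only [zz, if_true, if_false, zero_mul, add_zero, zero_add]

lemma psi_B {c : Finset (Fin 8) → Ext 2} (hc : c ∈ B 3 2 DD (proj pp)) :
    ph 0 1 2 (c {0, 1} * bar (proj pp) {0, 1}) + ph 0 1 2 (c {0, 4} * bar (proj pp) {0, 4}) = 0 := by
  obtain ⟨a, ⟨t, ht, rfl⟩, b, hb, rfl⟩ := Submodule.mem_sup.mp hc
  simp only [Pi.add_apply, add_mul, hb.2 {0, 1}, hb.2 {0, 4}, add_zero]
  rw [D_single (proj pp) ht {0, 1} 4 (by decide) (by decide),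
    D_single (proj pp) ht {0, 4} 1 (by decide) (by decide), bar_pair _ 0 1 (by decide),
    bar_pair _ 0 4 (by decide),
    show (insert 1 {0, 4} : Finset (Fin 8)) = insert 4 {0, 1} by decide]
  have h := ht.1 (insert 4 {0, 1})
  rw [ExteriorAlgebra.exteriorPower, show 3 - (2 + 1) = 0 from rfl, pow_zero] at h
  obtain ⟨s, hs⟩ := Submodule.mem_one.mp h
  rw [← hs, ← Algebra.smul_def, ← Algebra.smul_def, smul_mul_assoc, smul_mul_assoc, map_smul,
    map_smul, ← mul_assoc, ← mul_assoc]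
  simp [pt, hph, hom_qq, QQ]

lemma betti_q : 0 < betti 3 2 DD (proj pp) := by
  have := F_fin (d := 2) 3 2 DD
  have : Module.Finite ℝ (Z 3 2 DD (proj pp)) :=
    Submodule.finiteDimensional_of_le (S₂ := F 2 3 2 DD) inf_le_left
  have : Nontrivial (Z 3 2 DD (proj pp) ⧸
      (B 3 2 DD (proj pp)).comap (Z 3 2 DD (proj pp)).subtype) := by
    apply Submodule.Quotient.nontrivial_iff.mpr
    intro h
    have h1 := psi_B (Submodule.comap_subtype_eq_top.mp h zz_Z)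
    rw [bar_pair _ 0 1 (by decide), bar_pair _ 0 4 (by decide)] at h1
    simp +decide only [zz, if_true, if_false, zero_mul, map_zero, add_zero, ← mul_assoc] at h1
    simp [pt, hph, hom_qq, QQ] at h1
  exact Module.finrank_pos

lemma ai_sub (p : Fin n → Fin d → ℝ) (a b c : Fin n) (σ : Finset (Fin n)) (hσ : σ ⊆ {a, b, c})
    (h : ∀ x y z : ℝ, x + y + z = 0 → x • p a + y • p b + z • p c = 0 → x = 0 ∧ y = 0 ∧ z = 0) :
    AffineIndependent ℝ (fun v : σ => p v) := by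
  have h3 : AffineIndependent ℝ (fun i : Fin 3 => p (![a, b, c] i)) := by
    rw [affineIndependent_iff_of_fintype]
    intro w hw hs
    rw [Finset.weightedVSub_eq_linear_combination _ hw] at hs
    rw [Fin.sum_univ_three] at hw hs
    obtain ⟨h0, h1, h2⟩ := h _ _ _ hw hs
    intro i
    fin_cases i
    · exact h0
    · exact h1
    · exact h2
  have hg : ∀ v : σ, ∃ i : Fin 3, ![a, b, c] i = v := by
    intro v
    have := hσ v.2
    simp only [Finset.mem_insert, Finset.mem_singleton] at this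
    rcases this with h | h | h
    · exact ⟨0, h.symm⟩
    · exact ⟨1, h.symm⟩
    · exact ⟨2, h.symm⟩
  choose g hg using hg
  have hi : Function.Injective g := fun u v huv => Subtype.ext (by rw [← hg u, ← hg v, huv])
  have := h3.comp_embedding ⟨g, hi⟩
  convert this using 1
  funext v
  simp [hg]

lemma adm_p : Adm 3 DD pp := by
  intro σ hσ _
  simp only [DD, Finset.mem_union, Finset.mem_powerset] at hσ
  rcases hσ with ((h | h) | h) | h
  all_goals
    refine ai_sub pp _ _ _ σ h ?_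
    intro x y z h1 h2
    have e0 := congrFun h2 0
    have e1 := congrFun h2 1
    simp [pp] at e0 e1
    refine ⟨by linarith, by linarith, by linarith⟩

lemma adm_q : Adm 3 DD (proj pp) := by
  intro σ hσ _
  simp only [DD, Finset.mem_union, Finset.mem_powerset] at hσ
  rcases hσ with ((h | h) | h) | h
  all_goals
    refine ai_sub (proj pp) _ _ _ σ h ?_
    intro x y z h1 h2
    have e0 := congrFun h2 0
    have e1 := congrFun h2 1
    simp [pp, proj, Fin.init] at e0 e1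
    refine ⟨by linarith, by linarith, by linarith⟩

lemma DD_pure : ∀ σ ∈ DD, ∃ τ ∈ DD, σ ⊆ τ ∧ τ.card = 3 := by
  decide +kernel

lemma DD_dim : ∀ σ ∈ DD, σ.card ≤ 3 := by
  decide +kernel

lemma DD_vert : ∀ v : Fin 8, {v} ∈ DD := by
  decide +kernel

theorem main : ∃ (Δ : Finset (Finset (Fin 8))) (p : Fin 8 → Fin 3 → ℝ),
    IsComplex Δ ∧ (∀ v, {v} ∈ Δ) ∧ (∀ σ ∈ Δ, σ.card ≤ 3 ∧ ∃ τ ∈ Δ, σ ⊆ τ ∧ τ.card = 3) ∧
    Adm 3 Δ p ∧ Adm 3 Δ (proj p) ∧ betti 3 2 Δ p < betti 3 2 Δ (proj p) :=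
  ⟨DD, pp, DD_cx, DD_vert, fun σ h => ⟨DD_dim σ h, DD_pure σ h⟩, adm_p, adm_q, by
    rw [betti_p]; exact betti_q⟩

end Pool.Agent.H50.Skel
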