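import Pool.Agent.H50.SkelA

set_option autoImplicit false
open scoped BigOperators

namespace Pool.Agent.H50.Skel2

section Generic

variable {n : ℕ} {A : Type} [Ring A] [Algebra ℝ A]

/-- `σ̄`: the product of the `x v`, `v ∈ σ` (in increasing order of `v`). -/
def bar (x : Fin n → A) (σ : Finset (Fin n)) : A :=
  (((List.finRange n).filter (fun v => v ∈ σ)).map x).prod

/-- Representatives of chains on the faces with `k` vertices (dimension `i = k-1`): a coefficient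
in `g (r-k)` (later `Λ^(r-k) W = Λ^(r-1-i) W`) on each such face, zero elsewhere. -/
def F (g : ℕ → Submodule ℝ A) (r k : ℕ) (Δ : Finset (Finset (Fin n))) :
    Submodule ℝ (Finset (Fin n) → A) :=
  Submodule.pi Set.univ (fun σ => if σ ∈ Δ ∧ σ.card = k then g (r - k) else ⊥)

/-- Families of coefficients that vanish in the chain space: `c_σ ∧ σ̄ = 0` for every `σ`. -/
def Nl (x : Fin n → A) : Submodule ℝ (Finset (Fin n) → A) :=
  Submodule.pi Set.univ (fun σ => LinearMap.ker (LinearMap.mulRight ℝ (bar x σ)))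

/-- The boundary on representatives: `c·σ ↦ ∑_{v ∈ σ} (c ∧ x v)·(σ \ {v})`, i.e. the coefficient
of `D c` on `τ` is `∑_{v ∉ τ} c_(τ ∪ {v}) ∧ x v`. -/
def D (x : Fin n → A) : (Finset (Fin n) → A) →ₗ[ℝ] (Finset (Fin n) → A) :=
  LinearMap.pi (fun τ => ∑ v ∈ τᶜ, LinearMap.mulRight ℝ (x v) ∘ₗ LinearMap.proj (insert v τ))

/-- Representatives of cycles on faces with `k` vertices. -/
def Z (g : ℕ → Submodule ℝ A) (x : Fin n → A) (r k : ℕ) (Δ : Finset (Finset (Fin n))) :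
    Submodule ℝ (Finset (Fin n) → A) :=
  F g r k Δ ⊓ (Nl x).comap (D x)

/-- Representatives of boundaries on faces with `k` vertices (used for `k < r`). -/
def B (g : ℕ → Submodule ℝ A) (x : Fin n → A) (r k : ℕ) (Δ : Finset (Finset (Fin n))) :
    Submodule ℝ (Finset (Fin n) → A) :=
  (F g r (k + 1) Δ).map (D x) ⊔ (F g r k Δ ⊓ Nl x)

/-- `dim (ker ∂ / im ∂) = dim (Z / B)`. -/
noncomputable def hdim (g : ℕ → Submodule ℝ A) (x : Fin n → A) (r k : ℕ)
    (Δ : Finset (Finset (Fin n))) : ℕ :=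
  Module.finrank ℝ (Z g x r k Δ ⧸ (B g x r k Δ).comap (Z g x r k Δ).subtype)

end Generic

variable {n d : ℕ}

/-- Homogeneous coordinates `(y, 1)` of a point `y` of `ℝ^d`, a vector of `W = ℝ^(d+1)`. -/
def hom (y : Fin d → ℝ) : Fin (d + 1) → ℝ := Fin.snoc (α := fun _ => ℝ) y 1

/-- `β_{k-1}(R_{d,r}(Δ; p))` for `k < r`: coefficients in the exterior powers of `W = ℝ^(d+1)`,
and `x v = p̄_v`. -/
noncomputable def betti (r k : ℕ) (Δ : Finset (Finset (Fin n))) (p : Fin n → Fin d → ℝ) : ℕ :=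
  hdim (A := ExteriorAlgebra ℝ (Fin (d + 1) → ℝ))
    (fun j => ExteriorAlgebra.exteriorPower ℝ j (Fin (d + 1) → ℝ))
    (fun v => ExteriorAlgebra.ι ℝ (hom (p v))) r k Δ

/-- A simplicial complex (with the empty face) on vertices taken from `Fin n`. -/
def IsComplex (Δ : Finset (Finset (Fin n))) : Prop :=
  ∅ ∈ Δ ∧ ∀ σ ∈ Δ, ∀ τ, τ ⊆ σ → τ ∈ Δ

/-- The vertices of each face with at most `r` vertices (dimension `≤ r-1`) are affinely
independent. -/
def Adm (r : ℕ) (Δ : Finset (Finset (Fin n))) (p : Fin n → Fin d → ℝ) : Prop :=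
  ∀ σ ∈ Δ, σ.card ≤ r → AffineIndependent ℝ (fun v : σ => p v)

/-- Vertical projection: forget the last coordinate. -/
def proj (p : Fin n → Fin (d + 1) → ℝ) : Fin n → Fin d → ℝ := fun v => Fin.init (p v)

lemma F_eq (r k : ℕ) (Δ : Finset (Finset (Fin n))) :
    F (fun j => ExteriorAlgebra.exteriorPower ℝ j (Fin (d + 1) → ℝ)) r k Δ = Skel.F d r k Δ := by
  ext c
  simp only [F, Submodule.mem_pi, Set.mem_univ, true_imp_iff]
  constructor
  · intro h
    refine ⟨fun σ => ?_, fun σ hσ => ?_⟩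
    · have := h σ
      split_ifs at this
      · exact this
      · rw [(Submodule.mem_bot ℝ).mp this]; exact Submodule.zero_mem _
    · have := h σ
      rw [if_neg hσ] at this
      exact (Submodule.mem_bot ℝ).mp this
  · intro h σ
    split_ifs with hσ
    · exact h.1 σ
    · exact (Submodule.mem_bot ℝ).mpr (h.2 σ hσ)

lemma Nl_eq (p : Fin n → Fin d → ℝ) : Nl (Skel.pt p) = Skel.Nl p := by
  ext c
  simp only [Nl, Submodule.mem_pi, Set.mem_univ, true_imp_iff, LinearMap.mem_ker,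
    LinearMap.mulRight_apply]
  rfl

lemma D_eq (p : Fin n → Fin d → ℝ) : D (Skel.pt p) = Skel.D p := by
  apply LinearMap.ext
  intro c
  funext τ
  rw [Skel.D_apply]
  simp [D, LinearMap.sum_apply]

lemma betti_eq (r k : ℕ) (Δ : Finset (Finset (Fin n))) (p : Fin n → Fin d → ℝ) :
    betti r k Δ p = Skel.betti r k Δ p := by
  have hZ : Z (fun j => ExteriorAlgebra.exteriorPower ℝ j (Fin (d + 1) → ℝ)) (Skel.pt p) r k Δ =
      Skel.Z r k Δ p := by
    rw [Z, F_eq, Nl_eq, D_eq]; rfl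
  have hB : B (fun j => ExteriorAlgebra.exteriorPower ℝ j (Fin (d + 1) → ℝ)) (Skel.pt p) r k Δ =
      Skel.B r k Δ p := by
    rw [B, F_eq, F_eq, Nl_eq, D_eq]; rfl
  change hdim _ (Skel.pt p) r k Δ = _
  rw [hdim, hZ, hB]
  rfl

theorem main : ∃ (n d r k : ℕ) (Δ : Finset (Finset (Fin n))) (p : Fin n → Fin (d + 1) → ℝ),
    1 ≤ r ∧ r ≤ d + 1 ∧ k < r ∧ IsComplex Δ ∧ (∀ v, {v} ∈ Δ) ∧
    (∀ σ ∈ Δ, σ.card ≤ r ∧ ∃ τ ∈ Δ, σ ⊆ τ ∧ τ.card = r) ∧
    Adm r Δ p ∧ Adm r Δ (proj p) ∧ betti r k Δ p < betti r k Δ (proj p) := by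
  obtain ⟨Δ, p, h1, h2, h3, h4, h5, h6⟩ := Pool.Agent.H50.Skel.main
  refine ⟨8, 2, 3, 2, Δ, p, by norm_num, by norm_num, by norm_num, h1, h2, h3, h4, h5, ?_⟩
  rw [betti_eq, betti_eq]
  exact h6

end Pool.Agent.H50.Skel2
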