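import Mathlib

namespace Pool.Agent.H50.Special

open MvPolynomial

variable {k : Type} [Field k]

/-- the maximal ideal of the point `p` of the affine plane -/
noncomputable def mx (p : Fin 2 → k) : Ideal (MvPolynomial (Fin 2) k) :=
  Ideal.span {X 0 - C (p 0), X 1 - C (p 1)}

/-- The map sending a plane curve equation of degree at most `d` to its jets of order `m i - 1`
at the points `p i`.  Its kernel is `H^0(X, D)` and its cokernel is `H^1(X, D)` for
`D = dH - ∑ m i E i`. -/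
noncomputable def jet {r : ℕ} (p : Fin r → Fin 2 → k) (d : ℕ) (m : Fin r → ℕ) :
    restrictTotalDegree (Fin 2) k d →ₗ[k] (∀ i, MvPolynomial (Fin 2) k ⧸ mx (p i) ^ m i) :=
  LinearMap.pi fun i =>
    (Ideal.Quotient.mkₐ k (mx (p i) ^ m i)).toLinearMap ∘ₗ (restrictTotalDegree (Fin 2) k d).subtype

/-- `dH - ∑ m i E i` is special: `H^0 ≠ 0` and `H^1 ≠ 0`. -/
def IsSpecial {r : ℕ} (p : Fin r → Fin 2 → k) (d : ℕ) (m : Fin r → ℕ) : Prop :=
  LinearMap.ker (jet p d m) ≠ ⊥ ∧ LinearMap.range (jet p d m) ≠ ⊤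

theorem eval_mx (p : Fin 2 → k) (f : MvPolynomial (Fin 2) k) (hf : f ∈ mx p) : eval p f = 0 := by
  obtain ⟨a, b, rfl⟩ := Ideal.mem_span_pair.mp hf
  simp

theorem coprime_mx (p q : Fin 2 → k) (h : p ≠ q) : IsCoprime (mx p) (mx q) := by
  rw [Ideal.isCoprime_iff_exists]
  have key : ∀ j : Fin 2, ∀ s : Fin 2 → k, (X j - C (s j) : MvPolynomial (Fin 2) k) ∈ mx s := by
    intro j s
    apply Ideal.subset_span
    fin_cases j <;> simp
  obtain ⟨j, hj⟩ := Function.ne_iff.1 h
  have hne : q j - p j ≠ 0 := sub_ne_zero.2 hj.symm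
  refine ⟨C (q j - p j)⁻¹ * (X j - C (p j)), Ideal.mul_mem_left _ _ (key j p),
    -(C (q j - p j)⁻¹ * (X j - C (q j))), neg_mem (Ideal.mul_mem_left _ _ (key j q)), ?_⟩
  have : (C (q j - p j)⁻¹ * C (q j - p j) : MvPolynomial (Fin 2) k) = 1 := by
    rw [← C_mul, inv_mul_cancel₀ hne, C_1]
  rw [← this, C_sub]
  ring

section
variable (a : Fin 4 → k)

noncomputable def F (j : Fin 2) : MvPolynomial (Fin 2) k :=
  (X j - C (a 0)) * (X j - C (a 1)) * (X j - C (a 2)) * (X j - C (a 3))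

noncomputable def I : Ideal (MvPolynomial (Fin 2) k) := Ideal.span {F a 0, F a 1}

theorem F_mem (j : Fin 2) : F a j ∈ I a := by
  apply Ideal.subset_span
  fin_cases j <;> simp

theorem deg_lin (j : Fin 2) (c : k) : (X j - C c : MvPolynomial (Fin 2) k).totalDegree ≤ 1 := by
  refine (totalDegree_sub _ _).trans ?_
  simp

theorem deg_F (j : Fin 2) : (F a j).totalDegree ≤ 4 := by
  unfold F
  have h0 := deg_lin j (a 0)
  have h1 := deg_lin j (a 1)
  have h2 := deg_lin j (a 2)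
  have h3 := deg_lin j (a 3)
  have e1 := totalDegree_mul (X j - C (a 0) : MvPolynomial (Fin 2) k) (X j - C (a 1))
  have e2 := totalDegree_mul ((X j - C (a 0) : MvPolynomial (Fin 2) k) * (X j - C (a 1)))
    (X j - C (a 2))
  have e3 := totalDegree_mul ((X j - C (a 0) : MvPolynomial (Fin 2) k) * (X j - C (a 1)) *
    (X j - C (a 2))) (X j - C (a 3))
  omega

theorem red_pow (j : Fin 2) (n : ℕ) : ∃ c0 c1 c2 c3 : k,
    (X j ^ n - (C c0 + C c1 * X j + C c2 * X j ^ 2 + C c3 * X j ^ 3) : MvPolynomial (Fin 2) k)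
      ∈ I a := by
  induction n with
  | zero => exact ⟨1, 0, 0, 0, by simp⟩
  | succ n ih =>
    obtain ⟨c0, c1, c2, c3, h⟩ := ih
    refine ⟨-c3 * (a 0 * a 1 * a 2 * a 3),
      c0 + c3 * (a 0 * a 1 * a 2 + a 0 * a 1 * a 3 + a 0 * a 2 * a 3 + a 1 * a 2 * a 3),
      c1 - c3 * (a 0 * a 1 + a 0 * a 2 + a 0 * a 3 + a 1 * a 2 + a 1 * a 3 + a 2 * a 3),
      c2 + c3 * (a 0 + a 1 + a 2 + a 3), ?_⟩
    have h1 := Ideal.add_mem _ (Ideal.mul_mem_left _ (X j) h)
      (Ideal.mul_mem_left _ (C c3) (F_mem a j))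
    have e : ∀ x y : MvPolynomial (Fin 2) k, x = y → x ∈ I a → y ∈ I a := fun x y h hx => h ▸ hx
    refine e _ _ ?_ h1
    simp only [F, map_add, map_mul, map_sub, map_neg]
    ring

theorem deg_cub (j : Fin 2) (c0 c1 c2 c3 : k) :
    (C c0 + C c1 * X j + C c2 * X j ^ 2 + C c3 * X j ^ 3 :
      MvPolynomial (Fin 2) k).totalDegree ≤ 3 := by
  have h : ∀ (c : k) (n : ℕ), (C c * X j ^ n : MvPolynomial (Fin 2) k).totalDegree ≤ n := by
    intro c n
    refine (totalDegree_mul _ _).trans ?_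
    simp
  have h1 := h c1 1
  rw [pow_one] at h1
  have h2 := h c2 2
  have h3 := h c3 3
  refine (totalDegree_add _ _).trans (max_le ((totalDegree_add _ _).trans (max_le
    ((totalDegree_add _ _).trans (max_le ?_ ?_)) ?_)) h3)
  · simp
  · omega
  · omega

theorem red (g : MvPolynomial (Fin 2) k) : ∃ w : MvPolynomial (Fin 2) k,
    w.totalDegree ≤ 6 ∧ g - w ∈ I a := by
  induction g using MvPolynomial.induction_on' with
  | monomial s c =>
    obtain ⟨c0, c1, c2, c3, h⟩ := red_pow a 0 (s 0)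
    obtain ⟨d0, d1, d2, d3, h'⟩ := red_pow a 1 (s 1)
    have e1 := deg_cub 0 c0 c1 c2 c3
    have e2 := deg_cub 1 d0 d1 d2 d3
    set u : MvPolynomial (Fin 2) k := C c0 + C c1 * X 0 + C c2 * X 0 ^ 2 + C c3 * X 0 ^ 3
    set v : MvPolynomial (Fin 2) k := C d0 + C d1 * X 1 + C d2 * X 1 ^ 2 + C d3 * X 1 ^ 3
    refine ⟨C c * (u * v), ?_, ?_⟩
    · have e3 := totalDegree_mul (C c) (u * v)
      have e4 := totalDegree_mul u v
      rw [totalDegree_C] at e3
      omega
    · rw [monomial_eq, Finsupp.prod_fintype _ _ (fun _ => pow_zero _), Fin.prod_univ_two]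
      have e : C c * (X 0 ^ s 0 * X 1 ^ s 1) - C c * (u * v) =
          C c * X 1 ^ s 1 * (X 0 ^ s 0 - u) + C c * u * (X 1 ^ s 1 - v) := by ring
      rw [e]
      exact Ideal.add_mem _ (Ideal.mul_mem_left _ _ h) (Ideal.mul_mem_left _ _ h')
  | add p q hp hq =>
    obtain ⟨w1, h1, h1'⟩ := hp
    obtain ⟨w2, h2, h2'⟩ := hq
    refine ⟨w1 + w2, (totalDegree_add _ _).trans (max_le h1 h2), ?_⟩
    have := Ideal.add_mem _ h1' h2'
    rwa [show p - w1 + (q - w2) = p + q - (w1 + w2) by ring] at this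

theorem red2 (g : MvPolynomial (Fin 2) k) : ∃ w : MvPolynomial (Fin 2) k,
    w.totalDegree ≤ 10 ∧ g - w ∈ I a ^ 2 := by
  obtain ⟨w, hw, h⟩ := red a g
  obtain ⟨s, t, hst⟩ := Ideal.mem_span_pair.mp h
  obtain ⟨s', hs, hs'⟩ := red a s
  obtain ⟨t', ht, ht'⟩ := red a t
  refine ⟨w + (s' * F a 0 + t' * F a 1), ?_, ?_⟩
  · have e1 := totalDegree_mul s' (F a 0)
    have e2 := totalDegree_mul t' (F a 1)
    have e3 := deg_F a 0
    have e4 := deg_F a 1
    refine (totalDegree_add _ _).trans (max_le (by omega) ((totalDegree_add _ _).trans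
      (max_le (by omega) (by omega))))
  · have e : g - (w + (s' * F a 0 + t' * F a 1)) = (s - s') * F a 0 + (t - t') * F a 1 := by
      linear_combination -hst
    rw [e, pow_two]
    exact Ideal.add_mem _ (Ideal.mul_mem_mul hs' (F_mem a 0)) (Ideal.mul_mem_mul ht' (F_mem a 1))

theorem F_mx (j : Fin 2) (p : Fin 2 → k) (i : Fin 4) (h : p j = a i) : F a j ∈ mx p := by
  have key : (X j - C (a i) : MvPolynomial (Fin 2) k) ∈ mx p := by
    rw [← h]
    apply Ideal.subset_span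
    fin_cases j <;> simp
  unfold F
  fin_cases i
  · exact Ideal.mul_mem_right _ _ (Ideal.mul_mem_right _ _ (Ideal.mul_mem_right _ _ key))
  · exact Ideal.mul_mem_right _ _ (Ideal.mul_mem_right _ _ (Ideal.mul_mem_left _ _ key))
  · exact Ideal.mul_mem_right _ _ (Ideal.mul_mem_left _ _ key)
  · exact Ideal.mul_mem_left _ _ key

/-- the grid -/
def pt (i : Fin (4 * 4)) : Fin 2 → k := ![a i.divNat, a i.modNat]

theorem I_le (i : Fin (4 * 4)) : I a ≤ mx (pt a i) := by
  rw [I, Ideal.span_le]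
  rintro x (rfl | rfl)
  · exact F_mx a 0 _ i.divNat rfl
  · exact F_mx a 1 _ i.modNat rfl

omit [Field k] in
theorem pt_inj (ha : Function.Injective a) : Function.Injective (pt a) := by
  intro i j h
  have h0 : i.divNat = j.divNat := ha (congrFun h 0)
  have h1 : i.modNat = j.modNat := ha (congrFun h 1)
  apply finProdFinEquiv.symm.injective
  exact Prod.ext h0 h1

theorem surj2 (ha : Function.Injective a) :
    LinearMap.range (jet (pt a) (2 * 5) (fun _ => 2 * 1)) = ⊤ := by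
  rw [LinearMap.range_eq_top]
  intro y
  have hc : Pairwise (Function.onFun IsCoprime (fun i => mx (pt a i) ^ (2 * 1))) := by
    intro i j hij
    exact (coprime_mx _ _ (fun h => hij (pt_inj a ha h))).pow
  obtain ⟨g, hg⟩ := Ideal.pi_quotient_surjective hc y
  obtain ⟨w, hw, h⟩ := red2 a g
  refine ⟨⟨w, (mem_restrictTotalDegree _ _ _).2 hw⟩, ?_⟩
  funext i
  rw [← hg i]
  change Ideal.Quotient.mk _ w = Ideal.Quotient.mk _ g
  rw [eq_comm, Ideal.Quotient.eq]
  exact Ideal.pow_right_mono (I_le a i) 2 h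

/-- weights -/
def wt : Fin 4 → k :=
  ![(a 2 - a 1) * (a 3 - a 1) * (a 3 - a 2), -((a 2 - a 0) * (a 3 - a 0) * (a 3 - a 2)),
    (a 1 - a 0) * (a 3 - a 0) * (a 3 - a 1), -((a 1 - a 0) * (a 2 - a 0) * (a 2 - a 1))]

theorem wt_sum (n : ℕ) (hn : n ≤ 2) : ∑ i, wt a i * a i ^ n = 0 := by
  rw [Fin.sum_univ_four]
  simp only [wt, Matrix.cons_val_zero, Matrix.cons_val_one, Matrix.cons_val]
  interval_cases n <;> ring

theorem rel (f : MvPolynomial (Fin 2) k) (hf : f.totalDegree ≤ 5) :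
    ∑ i, ∑ j, wt a i * wt a j * eval ![a i, a j] f = 0 := by
  rw [f.as_sum]
  simp only [map_sum, Finset.mul_sum]
  rw [Finset.sum_congr rfl fun i _ => Finset.sum_comm, Finset.sum_comm]
  refine Finset.sum_eq_zero fun s hs => ?_
  have h1 := le_totalDegree hs
  rw [Finsupp.sum_fintype _ _ (fun _ => rfl), Fin.sum_univ_two] at h1
  have e : ∑ i, ∑ j, wt a i * wt a j * eval ![a i, a j] (monomial s (coeff s f)) =
      coeff s f * ((∑ i, wt a i * a i ^ s 0) * (∑ j, wt a j * a j ^ s 1)) := by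
    rw [Finset.sum_mul_sum, Finset.mul_sum]
    refine Finset.sum_congr rfl fun i _ => ?_
    rw [Finset.mul_sum]
    refine Finset.sum_congr rfl fun j _ => ?_
    rw [eval_monomial, Finsupp.prod_fintype _ _ (fun _ => pow_zero _), Fin.prod_univ_two]
    simp only [Matrix.cons_val_zero, Matrix.cons_val_one]
    ring
  rw [e]
  by_cases h0 : s 0 ≤ 2
  · rw [wt_sum a _ h0]; simp
  · rw [wt_sum a (s 1) (by omega)]; simp

theorem special1 (ha : Function.Injective a) : IsSpecial (pt a) 5 (fun _ => 1) := by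
  constructor
  · rw [Submodule.ne_bot_iff]
    refine ⟨⟨F a 0, (mem_restrictTotalDegree _ _ _).2 ((deg_F a 0).trans (by norm_num))⟩, ?_, ?_⟩
    · rw [LinearMap.mem_ker]
      funext i
      change Ideal.Quotient.mk _ (F a 0) = 0
      rw [Ideal.Quotient.eq_zero_iff_mem, pow_one]
      exact I_le a i (F_mem a 0)
    · intro h
      have h1 : F a 0 = 0 := congrArg Subtype.val h
      have h2 : ∀ c : k, (X 0 - C c : MvPolynomial (Fin 2) k) ≠ 0 := by
        intro c hc
        have := congrArg (eval ![c + 1, 0]) hc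
        simp at this
      exact mul_ne_zero (mul_ne_zero (mul_ne_zero (h2 _) (h2 _)) (h2 _)) (h2 _) h1
  · intro h
    rw [LinearMap.range_eq_top] at h
    obtain ⟨⟨f, hf⟩, hy⟩ := h (fun i => Ideal.Quotient.mk _ (if i = 0 then 1 else 0))
    have h1 : ∀ i j : Fin 4, eval ![a i, a j] f = if i = 0 ∧ j = 0 then 1 else 0 := by
      intro i j
      have h2 := congrFun hy (finProdFinEquiv (i, j))
      change Ideal.Quotient.mk _ f = Ideal.Quotient.mk _ _ at h2
      rw [Ideal.Quotient.eq, pow_one] at h2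
      have h3 := eval_mx _ _ h2
      have h4 : pt a (finProdFinEquiv (i, j)) = ![a i, a j] := by
        have h5 := finProdFinEquiv.symm_apply_apply (i, j)
        have h6 : (finProdFinEquiv (i, j)).divNat = i := congrArg Prod.fst h5
        have h7 : (finProdFinEquiv (i, j)).modNat = j := congrArg Prod.snd h5
        rw [pt, h6, h7]
      rw [h4, map_sub, sub_eq_zero] at h3
      rw [h3]
      have h8 : finProdFinEquiv (i, j) = 0 ↔ i = 0 ∧ j = 0 :=
        (by decide : ∀ i j : Fin 4, finProdFinEquiv (i, j) = 0 ↔ i = 0 ∧ j = 0) i j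
      by_cases h9 : i = 0 ∧ j = 0
      · rw [if_pos h9, if_pos (h8.2 h9), map_one]
      · rw [if_neg h9, if_neg (fun h => h9 (h8.1 h)), map_zero]
    have h2 := rel a f ((mem_restrictTotalDegree _ _ _).1 hf)
    simp only [h1, Fin.sum_univ_four] at h2
    have hne : ∀ i j : Fin 4, i ≠ j → a i - a j ≠ 0 := fun i j hij => sub_ne_zero.2 (ha.ne hij)
    have h3 : wt a 0 ≠ 0 :=
      mul_ne_zero (mul_ne_zero (hne 2 1 (by decide)) (hne 3 1 (by decide))) (hne 3 2 (by decide))
    simp at h2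
    exact h3 h2

end

end Pool.Agent.H50.Special
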