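import Mathlib

set_option autoImplicit false
open scoped Classical BigOperators

namespace Pool.Agent.H50.Stein

variable {N : ℕ}

abbrev E (N : ℕ) := EuclideanSpace ℝ (Fin N)

/-- Euclidean norm of the coordinates in `S`. -/
noncomputable def nr (S : Finset (Fin N)) (x : E N) : ℝ := Real.sqrt (∑ i ∈ S, (x i) ^ 2)

noncomputable def pr (S : Finset (Fin N)) (x : E N) : E N :=
  WithLp.toLp 2 (fun i => if i ∈ S then x i else 0)

lemma nr_nonneg (S : Finset (Fin N)) (x : E N) : 0 ≤ nr S x := Real.sqrt_nonneg _

lemma nr_sq (S : Finset (Fin N)) (x : E N) : nr S x ^ 2 = ∑ i ∈ S, (x i) ^ 2 :=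
  Real.sq_sqrt (Finset.sum_nonneg fun _ _ => sq_nonneg _)

lemma norm_pr (S : Finset (Fin N)) (x : E N) : ‖pr S x‖ = nr S x := by
  rw [EuclideanSpace.norm_eq, nr]
  congr 1
  simp only [pr, Real.norm_eq_abs, sq_abs]
  rw [← Finset.sum_filter_add_sum_filter_not Finset.univ (fun i => i ∈ S)]
  have h1 : Finset.univ.filter (fun i => i ∈ S) = S := by ext i; simp
  rw [h1]
  have h2 : ∑ i ∈ Finset.univ.filter (fun i => ¬ i ∈ S), (if i ∈ S then x i else 0) ^ 2 = 0 := by
    apply Finset.sum_eq_zero
    intro i hi
    simp only [Finset.mem_filter] at hi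
    simp [hi.2]
  rw [h2, add_zero]
  apply Finset.sum_congr rfl
  intro i hi
  simp [hi]

lemma nr_tri (S : Finset (Fin N)) (x y : E N) : nr S x ≤ nr S y + nr S (x - y) := by
  rw [← norm_pr, ← norm_pr, ← norm_pr]
  have : pr S x = pr S y + pr S (x - y) := by
    ext i
    simp only [pr, PiLp.add_apply, PiLp.sub_apply]
    split_ifs <;> simp
  rw [this]
  exact norm_add_le _ _

lemma nr_neg (S : Finset (Fin N)) (x y : E N) : nr S (x - y) = nr S (y - x) := by
  unfold nr
  congr 1
  apply Finset.sum_congr rfl
  intro i _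
  simp only [PiLp.sub_apply]
  ring

lemma nr_compl (S : Finset (Fin N)) (x : E N) : nr S x ^ 2 + nr Sᶜ x ^ 2 = ‖x‖ ^ 2 := by
  rw [nr_sq, nr_sq, Finset.sum_add_sum_compl, EuclideanSpace.norm_eq,
    Real.sq_sqrt (Finset.sum_nonneg fun _ _ => sq_nonneg _)]
  simp

noncomputable def cA : ℝ := 2 * Real.sqrt 2 * Real.sqrt 3 / (4 - Real.sqrt 2)
noncomputable def cB : ℝ := 2 * Real.sqrt 2 * (2 - Real.sqrt 2) / (4 - Real.sqrt 2)

lemma s2_sq : Real.sqrt 2 ^ 2 = 2 := Real.sq_sqrt (by norm_num)
lemma s3_sq : Real.sqrt 3 ^ 2 = 3 := Real.sq_sqrt (by norm_num)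
lemma s2_lt : Real.sqrt 2 < 3 / 2 := by
  have := s2_sq
  have h := Real.sqrt_nonneg 2
  nlinarith
lemma s2_gt : 7 / 5 < Real.sqrt 2 := by
  have := s2_sq
  have h := Real.sqrt_nonneg 2
  nlinarith
lemma s3_pos : 0 < Real.sqrt 3 := Real.sqrt_pos.mpr (by norm_num)

lemma cA_pos : 0 < cA := by
  have := s2_lt; have := s2_gt; have := s3_pos
  unfold cA
  apply div_pos
  · positivity
  · linarith

lemma cB_pos : 0 < cB := by
  have := s2_lt; have := s2_gt
  unfold cB
  apply div_pos
  · apply mul_pos <;> linarith
  · linarith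

lemma cAB : cA ^ 2 + cB ^ 2 = 4 := by
  have h2 := s2_sq; have h3 := s3_sq; have := s2_lt
  have hne : (4 - Real.sqrt 2) ≠ 0 := by linarith
  unfold cA cB
  field_simp
  rw [h3]
  set s := Real.sqrt 2
  linear_combination (4 * s ^ 2 - 16 * s + 32) * h2

lemma cBA : cB * Real.sqrt 3 = cA * (2 - Real.sqrt 2) := by
  unfold cA cB
  ring

/-- The potential. -/
noncomputable def phi (S : Finset (Fin N)) (x : E N) : ℝ :=
  if S = ∅ then 0 else - cA * nr S x + cB * nr Sᶜ x

lemma phi_lip (S : Finset (Fin N)) (x y : E N) : phi S x ≤ phi S y + 2 * dist y x := by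
  unfold phi
  split_ifs with h
  · have := dist_nonneg (x := y) (y := x); linarith
  · have h1 := nr_tri S y x
    have h2 := nr_tri Sᶜ x y
    rw [nr_neg Sᶜ x y] at h2
    have h3 := nr_compl S (y - x)
    rw [dist_eq_norm]
    set a := nr S (y - x)
    set b := nr Sᶜ (y - x)
    have ha : 0 ≤ a := nr_nonneg _ _
    have hb : 0 ≤ b := nr_nonneg _ _
    have hA := cA_pos; have hB := cB_pos; have hAB := cAB
    have key : cA * a + cB * b ≤ 2 * ‖y - x‖ := by
      apply abs_le_of_sq_le_sq' _ (by positivity) |>.2
      nlinarith [sq_nonneg (cA * b - cB * a)]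
    nlinarith

lemma merge_real (u v z p q w : ℝ) (hu : 0 ≤ u) (hv : 0 ≤ v) (hz : 0 ≤ z) (hp : 0 ≤ p)
    (hq : 0 ≤ q) (hw : 0 ≤ w) (h1 : p ^ 2 = v ^ 2 + z ^ 2) (h2 : q ^ 2 = u ^ 2 + z ^ 2)
    (h3 : w ^ 2 = u ^ 2 + v ^ 2) :
    - cA * w + cB * z ≤ (- cA * u + cB * p) + (- cA * v + cB * q) := by
  have hA := cA_pos; have hB := cB_pos; have hBA := cBA
  have t3 := s3_sq; have t2 := s2_sq; have := s3_pos; have := s2_gt; have := s2_lt
  have e1 : Real.sqrt 3 * v + z ≤ 2 * p := by
    apply abs_le_of_sq_le_sq' _ (by positivity) |>.2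
    nlinarith [sq_nonneg (v - Real.sqrt 3 * z)]
  have e2 : Real.sqrt 3 * u + z ≤ 2 * q := by
    apply abs_le_of_sq_le_sq' _ (by positivity) |>.2
    nlinarith [sq_nonneg (u - Real.sqrt 3 * z)]
  have e3 : Real.sqrt 2 * (u + v) ≤ 2 * w := by
    apply abs_le_of_sq_le_sq' _ (by positivity) |>.2
    nlinarith [sq_nonneg (u - v)]
  have f1 := mul_le_mul_of_nonneg_left e1 hB.le
  have f2 := mul_le_mul_of_nonneg_left e2 hB.le
  have f3 := mul_le_mul_of_nonneg_left e3 hA.le
  have g : cB * Real.sqrt 3 * (u + v) = cA * (2 - Real.sqrt 2) * (u + v) := by rw [hBA]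
  nlinarith

lemma phi_merge (S T : Finset (Fin N)) (h : Disjoint S T) (x : E N) :
    phi (S ∪ T) x ≤ phi S x + phi T x := by
  by_cases hS : S = ∅
  · subst hS; simp [phi]
  by_cases hT : T = ∅
  · subst hT; simp [phi]
  have hU : S ∪ T ≠ ∅ := by simp [hS]
  simp only [phi, hS, hT, hU, if_false]
  apply merge_real _ _ _ _ _ _ (nr_nonneg _ _) (nr_nonneg _ _) (nr_nonneg _ _) (nr_nonneg _ _)
    (nr_nonneg _ _) (nr_nonneg _ _)
  · have h1 := nr_compl S x
    have h2 := nr_compl (S ∪ T) x
    have h3 : nr (S ∪ T) x ^ 2 = nr S x ^ 2 + nr T x ^ 2 := by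
      rw [nr_sq, nr_sq, nr_sq, Finset.sum_union h]
    linarith
  · have h1 := nr_compl T x
    have h2 := nr_compl (S ∪ T) x
    have h3 : nr (S ∪ T) x ^ 2 = nr S x ^ 2 + nr T x ^ 2 := by
      rw [nr_sq, nr_sq, nr_sq, Finset.sum_union h]
    linarith
  · rw [nr_sq, nr_sq, nr_sq, Finset.sum_union h]

lemma tree_ind {ι : Type} (pos : ι → E N) (r : ι) (p : ι → ι) (rk : ι → ℕ) (n : ℕ) :
    ∀ (V : Finset ι) (S : ι → Finset (Fin N)), V.card = n → r ∉ V →
      (∀ v ∈ V, (p v ∈ V ∨ p v = r) ∧ rk (p v) < rk v) →
      (∀ u v, u ≠ v → Disjoint (S u) (S v)) →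
      phi (S r ∪ V.biUnion S) (pos r) ≤
        phi (S r) (pos r) + ∑ v ∈ V, (phi (S v) (pos v) + 2 * dist (pos v) (pos (p v))) := by
  induction n with
  | zero =>
    intro V S hV _ _ _
    rw [Finset.card_eq_zero] at hV
    subst hV
    simp
  | succ n ih =>
    intro V S hV hr hp hd
    have hne : V.Nonempty := by rw [← Finset.card_pos]; omega
    obtain ⟨v, hv, hmax⟩ := Finset.exists_max_image V rk hne
    have hpv : p v ≠ v := by
      intro h
      have := (hp v hv).2
      rw [h] at this
      exact lt_irrefl _ this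
    have hrv : r ≠ v := fun h => hr (h ▸ hv)
    let S' : ι → Finset (Fin N) := fun u =>
      if u = v then ∅ else if u = p v then S u ∪ S v else S u
    have hcard : (V.erase v).card = n := by rw [Finset.card_erase_of_mem hv]; omega
    have h1 := ih (V.erase v) S' hcard (fun h => hr (Finset.mem_of_mem_erase h))
      (by
        intro u hu
        have hu' := Finset.mem_of_mem_erase hu
        refine ⟨?_, (hp u hu').2⟩
        rcases (hp u hu').1 with h | h
        · left
          refine Finset.mem_erase.mpr ⟨?_, h⟩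
          intro he
          have h2 := (hp u hu').2
          rw [he] at h2
          have := hmax u hu'
          omega
        · right; exact h)
      (by
        intro a b hab
        simp only [S']
        by_cases ha : a = v
        · simp [ha]
        by_cases hb : b = v
        · simp [hb]
        simp only [ha, hb, if_false]
        by_cases ha2 : a = p v
        · have hb2 : b ≠ p v := fun h => hab (ha2.trans h.symm)
          simp only [ha2, hb2, if_true, if_false]
          rw [Finset.disjoint_union_left]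
          exact ⟨hd _ _ (fun h => hb2 h.symm), hd _ _ (fun h => hb h.symm)⟩
        · by_cases hb2 : b = p v
          · simp only [ha2, hb2, if_true, if_false]
            rw [Finset.disjoint_union_right]
            exact ⟨hd _ _ ha2, hd _ _ ha⟩
          · simp only [ha2, hb2, if_false]
            exact hd _ _ hab)
    have hU : S' r ∪ (V.erase v).biUnion S' = S r ∪ V.biUnion S := by
      ext i
      simp only [Finset.mem_union, Finset.mem_biUnion, Finset.mem_erase, S']
      constructor
      · rintro (h | ⟨a, ⟨ha, haV⟩, h⟩)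
        · simp only [hrv, if_false] at h
          split_ifs at h with h2
          · rcases Finset.mem_union.mp h with h | h
            · left; exact h
            · right; exact ⟨v, hv, h⟩
          · left; exact h
        · simp only [ha, if_false] at h
          split_ifs at h with h2
          · rcases Finset.mem_union.mp h with h | h
            · right; exact ⟨a, haV, h⟩
            · right; exact ⟨v, hv, h⟩
          · right; exact ⟨a, haV, h⟩
      · rintro (h | ⟨a, haV, h⟩)
        · left
          simp only [hrv, if_false]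
          split_ifs
          · exact Finset.mem_union_left _ h
          · exact h
        · by_cases ha : a = v
          · subst ha
            rcases (hp a hv).1 with h2 | h2
            · right
              refine ⟨p a, ⟨hpv, h2⟩, ?_⟩
              simp only [hpv, if_false, if_true]
              exact Finset.mem_union_right _ h
            · left
              simp only [hrv, if_false, h2, if_true]
              exact Finset.mem_union_right _ h
          · right
            refine ⟨a, ⟨ha, haV⟩, ?_⟩
            simp only [ha, if_false]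
            split_ifs
            · exact Finset.mem_union_left _ h
            · exact h
    rw [hU] at h1
    rw [← Finset.add_sum_erase V _ hv]
    have hstep : phi (S (p v) ∪ S v) (pos (p v)) ≤
        phi (S (p v)) (pos (p v)) + (phi (S v) (pos v) + 2 * dist (pos v) (pos (p v))) := by
      have a1 := phi_merge (S (p v)) (S v) (hd _ _ hpv) (pos (p v))
      have a2 := phi_lip (S v) (pos (p v)) (pos v)
      linarith
    have hpt : ∀ u, u ≠ v → phi (S' u) (pos u) ≤ phi (S u) (pos u) +
        (if u = p v then phi (S v) (pos v) + 2 * dist (pos v) (pos (p v)) else 0) := by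
      intro u hu
      simp only [S', hu, if_false]
      split_ifs with h2
      · rw [h2]; exact hstep
      · simp
    have hsum : ∑ u ∈ V.erase v, (phi (S' u) (pos u) + 2 * dist (pos u) (pos (p u))) ≤
        ∑ u ∈ V.erase v, (phi (S u) (pos u) + 2 * dist (pos u) (pos (p u))) +
        ∑ u ∈ V.erase v,
          (if u = p v then phi (S v) (pos v) + 2 * dist (pos v) (pos (p v)) else 0) := by
      rw [← Finset.sum_add_distrib]
      apply Finset.sum_le_sum
      intro u hu
      have := hpt u (Finset.ne_of_mem_erase hu)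
      linarith
    have hr' := hpt r hrv
    rw [Finset.sum_ite_eq'] at hsum
    rcases (hp v hv).1 with h2 | h2
    · have h3 : p v ∈ V.erase v := Finset.mem_erase.mpr ⟨hpv, h2⟩
      have h4 : r ≠ p v := fun h => hr (h ▸ h2)
      simp only [h3, if_true] at hsum
      simp only [h4, if_false] at hr'
      linarith
    · have h3 : p v ∉ V.erase v := fun h => hr (h2 ▸ Finset.mem_of_mem_erase h)
      simp only [h3, if_false] at hsum
      simp only [h2.symm, if_true] at hr'
      simp only [h2] at *
      linarith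

end Pool.Agent.H50.Stein
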