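import Pool.Agent.H50.SteinA

set_option autoImplicit false
open scoped Classical BigOperators

namespace Pool.Agent.H50.Stein

lemma exists_parent {ι : Type} (G : SimpleGraph ι) (hG : G.Connected) (r : ι) :
    ∃ p : ι → ι, ∀ v, v ≠ r → G.Adj v (p v) ∧ G.dist (p v) r < G.dist v r := by
  have : ∀ v, ∃ w, v ≠ r → G.Adj v w ∧ G.dist w r < G.dist v r := by
    intro v
    by_cases hv : v = r
    · exact ⟨v, fun h => absurd hv h⟩
    obtain ⟨q, hq⟩ := (hG.preconnected v r).exists_walk_length_eq_dist
    cases q with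
    | nil => exact absurd rfl hv
    | cons hadj q' =>
      refine ⟨_, fun _ => ⟨hadj, ?_⟩⟩
      have := SimpleGraph.dist_le q'
      simp only [SimpleGraph.Walk.length_cons] at hq
      omega
  choose p hp using this
  exact ⟨p, hp⟩

lemma parent_sum {ι : Type} [Fintype ι] [DecidableEq ι] (G : SimpleGraph ι) (r : ι) (p : ι → ι) (rk : ι → ℕ)
    (hp : ∀ v, v ≠ r → G.Adj v (p v) ∧ rk (p v) < rk v) (c : ι → ι → ℝ)
    (hc : ∀ x y, 0 ≤ c x y) (hs : ∀ x y, c x y = c y x) :
    2 * ∑ v ∈ Finset.univ.erase r, c v (p v) ≤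
      ∑ x, ∑ y, if G.Adj x y then c x y else 0 := by
  have h1 : ∑ v ∈ Finset.univ.erase r, c v (p v) =
      ∑ x, ∑ y, if (x ≠ r ∧ y = p x) then c x y else 0 := by
    rw [← Finset.add_sum_erase Finset.univ _ (Finset.mem_univ r)]
    simp only [ne_eq, not_true_eq_false, false_and, if_false, Finset.sum_const_zero, zero_add]
    apply Finset.sum_congr rfl
    intro x hx
    have hx' : ¬ x = r := Finset.ne_of_mem_erase hx
    simp [hx']
  have h2 : ∑ v ∈ Finset.univ.erase r, c v (p v) =
      ∑ x, ∑ y, if (y ≠ r ∧ x = p y) then c x y else 0 := by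
    rw [h1, Finset.sum_comm]
    apply Finset.sum_congr rfl
    intro x _
    apply Finset.sum_congr rfl
    intro y _
    rw [hs]
  rw [two_mul]
  nth_rewrite 1 [h1]
  rw [h2, ← Finset.sum_add_distrib]
  apply Finset.sum_le_sum
  intro x _
  rw [← Finset.sum_add_distrib]
  apply Finset.sum_le_sum
  intro y _
  have := hc x y
  by_cases a1 : x ≠ r ∧ y = p x
  · have b1 := hp x a1.1
    rw [← a1.2] at b1
    have a2 : ¬ (y ≠ r ∧ x = p y) := by
      intro a2
      have b2 := hp y a2.1
      rw [← a2.2] at b2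
      omega
    rw [if_pos a1, if_neg a2, if_pos b1.1]; simp
  · by_cases a2 : y ≠ r ∧ x = p y
    · have b2 := hp y a2.1
      rw [← a2.2] at b2
      rw [if_neg a1, if_pos a2, if_pos b2.1.symm]; simp
    · rw [if_neg a1, if_neg a2]
      split_ifs <;> simp [this]

variable {N : ℕ}

noncomputable def ee (i : Fin N) : E N := EuclideanSpace.single i (1 : ℝ)

lemma ee_inj {i j : Fin N} (h : ee i = ee j) : i = j := by
  by_contra hne
  have := congrArg (fun x : E N => x i) h
  simp [ee, hne] at this

noncomputable def len (T : Finset (E N)) (G : SimpleGraph T) : ℝ :=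
  (∑ x : T, ∑ y : T, if G.Adj x y then dist (x : E N) (y : E N) else 0) / 2

lemma nr_ee (S : Finset (Fin N)) (i : Fin N) : nr S (ee i) = if i ∈ S then 1 else 0 := by
  unfold nr
  have : ∑ j ∈ S, (ee i j) ^ 2 = if i ∈ S then 1 else 0 := by
    simp only [ee, PiLp.single_apply]
    rw [← Finset.sum_ite_eq' S i (fun _ => (1 : ℝ))]
    apply Finset.sum_congr rfl
    intro j _
    split_ifs <;> simp
  rw [this]
  split_ifs <;> simp

lemma lower (T : Finset (E (N + 1))) (hT : Finset.univ.image ee ⊆ T) (G : SimpleGraph T)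
    (hG : G.Connected) : cA / 2 * N ≤ len T G := by
  have hm : ∀ i, ee i ∈ T := fun i => hT (Finset.mem_image_of_mem _ (Finset.mem_univ i))
  let r : T := ⟨ee 0, hm 0⟩
  obtain ⟨p, hp⟩ := exists_parent G hG r
  have h1 := parent_sum G r p (fun v => G.dist v r) hp (fun x y => dist (x : E (N + 1)) y)
    (fun _ _ => dist_nonneg) (fun _ _ => dist_comm _ _)
  let S : T → Finset (Fin (N + 1)) := fun v => Finset.univ.filter (fun i => ee i = (v : E (N + 1)))
  have h2 := tree_ind (fun v : T => (v : E (N + 1))) r p (fun v => G.dist v r) _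
    (Finset.univ.erase r) S rfl (Finset.notMem_erase _ _)
    (by
      intro v hv
      refine ⟨?_, (hp v (Finset.ne_of_mem_erase hv)).2⟩
      by_cases h : p v = r
      · right; exact h
      · left; exact Finset.mem_erase.mpr ⟨h, Finset.mem_univ _⟩)
    (by
      intro u v huv
      rw [Finset.disjoint_left]
      intro i h1 h2
      simp only [S, Finset.mem_filter, Finset.mem_univ, true_and] at h1 h2
      exact huv (Subtype.ext (h1.symm.trans h2)))
  have hU : S r ∪ (Finset.univ.erase r).biUnion S = Finset.univ := by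
    apply Finset.eq_univ_of_forall
    intro i
    by_cases h : (⟨ee i, hm i⟩ : T) = r
    · apply Finset.mem_union_left
      simp only [S, Finset.mem_filter, Finset.mem_univ, true_and]
      rw [← h]
    · apply Finset.mem_union_right
      refine Finset.mem_biUnion.mpr ⟨⟨ee i, hm i⟩, Finset.mem_erase.mpr ⟨h, Finset.mem_univ _⟩, ?_⟩
      simp [S]
  rw [hU, Finset.sum_add_distrib, ← Finset.mul_sum, ← add_assoc,
    Finset.add_sum_erase Finset.univ (fun v : T => phi (S v) (v : E (N + 1))) (Finset.mem_univ r)]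
    at h2
  have h3 : ∀ v : T, phi (S v) (v : E (N + 1)) = - cA * (S v).card := by
    intro v
    by_cases h : S v = ∅
    · simp [phi, h]
    · obtain ⟨i, hi⟩ := Finset.nonempty_iff_ne_empty.mpr h
      have hi' : ee i = (v : E (N + 1)) := by simpa [S] using hi
      have hS : S v = {i} := by
        ext j
        simp only [S, Finset.mem_filter, Finset.mem_univ, true_and, Finset.mem_singleton]
        rw [← hi']
        exact ⟨ee_inj, fun h => by rw [h]⟩
      rw [phi, if_neg h, hS, ← hi', nr_ee, nr_ee]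
      simp
  have h4 : ∑ v : T, (S v).card = N + 1 := by
    have := Finset.card_eq_sum_card_fiberwise (s := (Finset.univ : Finset (Fin (N + 1))))
      (t := (Finset.univ : Finset T)) (f := fun i => (⟨ee i, hm i⟩ : T))
      (fun _ _ => Finset.mem_coe.mpr (Finset.mem_univ _))
    rw [Finset.card_univ, Fintype.card_fin] at this
    refine Eq.trans ?_ this.symm
    apply Finset.sum_congr rfl
    intro v _
    congr 1
    ext i
    simp [S, Subtype.ext_iff]
  have h5 : phi (Finset.univ : Finset (Fin (N + 1))) (r : E (N + 1)) = - cA := by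
    rw [phi, if_neg Finset.univ_nonempty.ne_empty]
    simp only [r]
    rw [nr_ee, nr_ee]
    simp
  simp only [h3] at h2
  rw [← Finset.mul_sum, h5, ← Nat.cast_sum, h4] at h2
  unfold len
  push_cast at h2
  linarith

lemma dist_ee {i j : Fin N} (h : i ≠ j) : dist (ee i) (ee j) = Real.sqrt 2 := by
  rw [EuclideanSpace.dist_eq]
  congr 1
  have : ∀ k, dist (ee i k) (ee j k) ^ 2 =
      (if k = i then 1 else 0) + (if k = j then 1 else 0) := by
    intro k
    simp only [ee, PiLp.single_apply, Real.dist_eq, sq_abs]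
    by_cases h1 : k = i
    · have h2 : k ≠ j := fun h2 => h (h1.symm.trans h2)
      simp [h1, h, h2]
    · by_cases h2 : k = j
      · simp [h1, h2, h.symm]
      · simp [h1, h2]
  simp only [this, Finset.sum_add_distrib, Finset.sum_ite_eq', Finset.mem_univ, if_true]
  norm_num

lemma mst_lower (G : SimpleGraph (Finset.univ.image (ee : Fin (N + 1) → E (N + 1))))
    (hG : G.Connected) : Real.sqrt 2 * N ≤ len _ G := by
  let r : (Finset.univ.image (ee : Fin (N + 1) → E (N + 1))) :=
    ⟨ee 0, Finset.mem_image_of_mem _ (Finset.mem_univ 0)⟩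
  obtain ⟨p, hp⟩ := exists_parent G hG r
  have h1 := parent_sum G r p (fun v => G.dist v r) hp (fun x y => dist (x : E (N + 1)) y)
    (fun _ _ => dist_nonneg) (fun _ _ => dist_comm _ _)
  have h2 : ∀ v ∈ Finset.univ.erase r, dist (v : E (N + 1)) (p v) = Real.sqrt 2 := by
    intro v hv
    have hne := (hp v (Finset.ne_of_mem_erase hv)).1.ne
    obtain ⟨i, _, hi⟩ := Finset.mem_image.mp v.2
    obtain ⟨j, _, hj⟩ := Finset.mem_image.mp (p v).2
    rw [← hi, ← hj]
    apply dist_ee
    intro hij
    apply hne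
    apply Subtype.ext
    rw [← hi, ← hj, hij]
  rw [Finset.sum_congr rfl h2, Finset.sum_const, Finset.card_erase_of_mem (Finset.mem_univ _),
    Finset.card_univ, Fintype.card_coe,
    Finset.card_image_of_injective _ (fun _ _ h => ee_inj h)] at h1
  simp only [Finset.card_univ, Fintype.card_fin, Nat.add_sub_cancel, nsmul_eq_mul] at h1
  unfold len
  linarith

end Pool.Agent.H50.Stein
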