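import Pool.Agent.H50.SteinB

set_option autoImplicit false
open scoped Classical BigOperators

namespace Pool.Agent.H50.Stein

variable {N : ℕ}

def Rch (l : List (E N × E N)) : E N → E N → Prop :=
  Relation.ReflTransGen (fun a b => (a, b) ∈ l ∨ (b, a) ∈ l)

lemma Rch.mono {l m : List (E N × E N)} (h : ∀ e ∈ l, e ∈ m) {x y : E N} (hr : Rch l x y) :
    Rch m x y := by
  unfold Rch at *
  induction hr with
  | refl => exact Relation.ReflTransGen.refl
  | tail _ h1 ih => exact ih.tail (h1.imp (h _) (h _))

lemma pair_sum (T : Finset (E N)) (a b : E N) :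
    ∑ x : T, ∑ y : T, (if ((x : E N) = a ∧ (y : E N) = b) then dist (x : E N) (y : E N) else 0)
      ≤ dist a b := by
  have h : ∀ x : T, ∑ y : T,
      (if ((x : E N) = a ∧ (y : E N) = b) then dist (x : E N) (y : E N) else 0) ≤
      if (x : E N) = a then dist a b else 0 := by
    intro x
    by_cases hx : (x : E N) = a
    · simp only [hx, true_and, if_true]
      rw [Finset.sum_coe_sort T (fun y => if y = b then dist a y else 0), Finset.sum_ite_eq']
      split_ifs
      · exact le_rfl
      · exact dist_nonneg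
    · simp [hx]
  refine le_trans (Finset.sum_le_sum fun x _ => h x) ?_
  rw [Finset.sum_coe_sort T (fun x => if x = a then dist a b else 0), Finset.sum_ite_eq']
  split_ifs
  · exact le_rfl
  · exact dist_nonneg

lemma list_sum (T : Finset (E N)) (l : List (E N × E N)) :
    ∑ x : T, ∑ y : T, (if (((x : E N), (y : E N)) ∈ l ∨ ((y : E N), (x : E N)) ∈ l) then
      dist (x : E N) (y : E N) else 0) ≤ 2 * (l.map fun e => dist e.1 e.2).sum := by
  induction l with
  | nil => simp
  | cons e l ih =>
    obtain ⟨a, b⟩ := e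
    have h1 := pair_sum T a b
    have h2 := pair_sum T b a
    rw [dist_comm b a] at h2
    simp only [List.map_cons, List.sum_cons]
    have : ∑ x : T, ∑ y : T, (if (((x : E N), (y : E N)) ∈ (a, b) :: l ∨
        ((y : E N), (x : E N)) ∈ (a, b) :: l) then dist (x : E N) (y : E N) else 0) ≤
        ∑ x : T, ∑ y : T, (if (((x : E N), (y : E N)) ∈ l ∨ ((y : E N), (x : E N)) ∈ l) then
          dist (x : E N) (y : E N) else 0) +
        ∑ x : T, ∑ y : T, (if ((x : E N) = a ∧ (y : E N) = b) then
          dist (x : E N) (y : E N) else 0) +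
        ∑ x : T, ∑ y : T, (if ((x : E N) = b ∧ (y : E N) = a) then
          dist (x : E N) (y : E N) else 0) := by
      rw [← Finset.sum_add_distrib, ← Finset.sum_add_distrib]
      apply Finset.sum_le_sum
      intro x _
      rw [← Finset.sum_add_distrib, ← Finset.sum_add_distrib]
      apply Finset.sum_le_sum
      intro y _
      have := dist_nonneg (x := (x : E N)) (y := (y : E N))
      simp only [List.mem_cons, Prod.mk.injEq]
      split_ifs <;> first | linarith | tauto
    linarith

lemma graph_of_list (T : Finset (E N)) (l : List (E N × E N)) (r : E N) (hr : r ∈ T)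
    (h1 : ∀ e ∈ l, e.1 ∈ T) (h2 : ∀ e ∈ l, e.2 ∈ T) (h3 : ∀ x ∈ T, Rch l x r) :
    ∃ G : SimpleGraph T, G.Connected ∧ len T G ≤ (l.map fun e => dist e.1 e.2).sum := by
  obtain ⟨G, hGa⟩ : ∃ G : SimpleGraph T, ∀ x y, G.Adj x y ↔
      x ≠ y ∧ (((x : E N), (y : E N)) ∈ l ∨ ((y : E N), (x : E N)) ∈ l) :=
    ⟨SimpleGraph.fromRel (fun x y => ((x : E N), (y : E N)) ∈ l),
      fun x y => SimpleGraph.fromRel_adj _ _ _⟩
  have key : ∀ x, Rch l x r → ∀ hx : x ∈ T, G.Reachable ⟨x, hx⟩ ⟨r, hr⟩ := by
    intro x hx
    induction hx using Relation.ReflTransGen.head_induction_on with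
    | refl => intro _; exact SimpleGraph.Reachable.refl _
    | @head a c hac _ ih =>
      intro ha
      have hc : c ∈ T := by
        rcases hac with h | h
        · exact h2 _ h
        · exact h1 _ h
      refine SimpleGraph.Reachable.trans ?_ (ih hc)
      by_cases hne : (⟨a, ha⟩ : T) = ⟨c, hc⟩
      · rw [hne]
      · exact SimpleGraph.Adj.reachable ((hGa _ _).mpr ⟨hne, hac⟩)
  refine ⟨G, ?_, ?_⟩
  · have : Nonempty T := ⟨⟨r, hr⟩⟩
    refine SimpleGraph.Connected.mk ?_
    intro x y
    exact (key x (h3 x x.2) x.2).trans (key y (h3 y y.2) y.2).symm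
  · have := list_sum T l
    unfold len
    have h4 : ∑ x : T, ∑ y : T, (if G.Adj x y then dist (x : E N) (y : E N) else 0) ≤
        ∑ x : T, ∑ y : T, (if (((x : E N), (y : E N)) ∈ l ∨ ((y : E N), (x : E N)) ∈ l) then
          dist (x : E N) (y : E N) else 0) := by
      apply Finset.sum_le_sum
      intro x _
      apply Finset.sum_le_sum
      intro y _
      have := dist_nonneg (x := (x : E N)) (y := (y : E N))
      by_cases h : G.Adj x y
      · rw [if_pos h, if_pos ((hGa _ _).mp h).2]
      · rw [if_neg h]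
        split_ifs <;> linarith
    linarith

lemma mst_upper : ∃ G : SimpleGraph (Finset.univ.image (ee : Fin (N + 1) → E (N + 1))),
    G.Connected ∧ len _ G ≤ Real.sqrt 2 * N := by
  obtain ⟨G, hG, hl⟩ := graph_of_list (Finset.univ.image (ee : Fin (N + 1) → E (N + 1)))
    (List.ofFn fun i : Fin N => (ee i.succ, ee 0)) (ee 0)
    (Finset.mem_image_of_mem _ (Finset.mem_univ _))
    (by
      intro e he
      obtain ⟨i, rfl⟩ := List.mem_ofFn.mp he
      exact Finset.mem_image_of_mem _ (Finset.mem_univ _))
    (by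
      intro e he
      obtain ⟨i, rfl⟩ := List.mem_ofFn.mp he
      exact Finset.mem_image_of_mem _ (Finset.mem_univ _))
    (by
      intro x hx
      obtain ⟨i, _, rfl⟩ := Finset.mem_image.mp hx
      refine Fin.cases ?_ (fun j => ?_) i
      · exact Relation.ReflTransGen.refl
      · exact Relation.ReflTransGen.single (Or.inl (List.mem_ofFn.mpr ⟨j, rfl⟩)))
  refine ⟨G, hG, le_trans hl ?_⟩
  rw [List.map_ofFn, List.sum_ofFn]
  have : ∀ i : Fin N, dist (ee i.succ : E (N + 1)) (ee 0) = Real.sqrt 2 :=
    fun i => dist_ee (Fin.succ_ne_zero i)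
  simp only [Function.comp, this, Finset.sum_const, Finset.card_univ, Fintype.card_fin,
    nsmul_eq_mul]
  rw [mul_comm]

def Good (S : Finset (Fin N)) (r : E N) (L : ℝ) : Prop :=
  ∃ l : List (E N × E N), (∀ e ∈ l, Rch l e.1 r) ∧ (∀ e ∈ l, Rch l e.2 r) ∧
    (∀ i ∈ S, Rch l (ee i) r) ∧ (l.map fun e => dist e.1 e.2).sum ≤ L

lemma Good.mono {S : Finset (Fin N)} {r : E N} {L M : ℝ} (h : Good S r L) (hL : L ≤ M) :
    Good S r M := by
  obtain ⟨l, h1, h2, h3, h4⟩ := h
  exact ⟨l, h1, h2, h3, h4.trans hL⟩

lemma good_empty (r : E N) : Good (∅ : Finset (Fin N)) r 0 :=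
  ⟨[], by simp, by simp, by simp, by simp⟩

lemma good_single (i : Fin N) : Good {i} (ee i) 0 :=
  ⟨[], by simp, by simp, by
    intro j hj
    rw [Finset.mem_singleton.mp hj]
    exact Relation.ReflTransGen.refl, by simp⟩

lemma Good.move {S : Finset (Fin N)} {r : E N} {L : ℝ} (h : Good S r L) (x : E N) :
    Good S x (L + dist r x) := by
  obtain ⟨l, h1, h2, h3, h4⟩ := h
  have hs : Rch ((r, x) :: l) r x :=
    Relation.ReflTransGen.single (Or.inl (List.mem_cons_self))
  have hm : ∀ y, Rch l y r → Rch ((r, x) :: l) y x := fun y hy =>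
    Relation.ReflTransGen.trans (Rch.mono (fun e he => List.mem_cons_of_mem _ he) hy) hs
  refine ⟨(r, x) :: l, ?_, ?_, fun i hi => hm _ (h3 i hi), ?_⟩
  · intro e he
    rcases List.mem_cons.mp he with rfl | he
    · exact hs
    · exact hm _ (h1 e he)
  · intro e he
    rcases List.mem_cons.mp he with rfl | he
    · exact Relation.ReflTransGen.refl
    · exact hm _ (h2 e he)
  · simp only [List.map_cons, List.sum_cons]
    linarith

lemma Good.union {S T : Finset (Fin N)} {r : E N} {L M : ℝ} (h : Good S r L) (k : Good T r M) :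
    Good (S ∪ T) r (L + M) := by
  obtain ⟨l, h1, h2, h3, h4⟩ := h
  obtain ⟨m, k1, k2, k3, k4⟩ := k
  have a1 : ∀ e ∈ l, e ∈ l ++ m := fun e he => List.mem_append_left _ he
  have a2 : ∀ e ∈ m, e ∈ l ++ m := fun e he => List.mem_append_right _ he
  refine ⟨l ++ m, ?_, ?_, ?_, ?_⟩
  · intro e he
    rcases List.mem_append.mp he with he | he
    · exact (h1 e he).mono a1
    · exact (k1 e he).mono a2
  · intro e he
    rcases List.mem_append.mp he with he | he
    · exact (h2 e he).mono a1
    · exact (k2 e he).mono a2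
  · intro i hi
    rcases Finset.mem_union.mp hi with hi | hi
    · exact (h3 i hi).mono a1
    · exact (k3 i hi).mono a2
  · rw [List.map_append, List.sum_append]
    linarith

lemma Good.graph {r : E N} {L : ℝ} (h : Good (Finset.univ : Finset (Fin N)) r L) :
    ∃ T : Finset (E N), Finset.univ.image ee ⊆ T ∧ ∃ G : SimpleGraph T, G.Connected ∧
      len T G ≤ L := by
  obtain ⟨l, h1, h2, h3, h4⟩ := h
  let T : Finset (E N) := insert r (Finset.univ.image ee ∪ (l.map Prod.fst).toFinset ∪
    (l.map Prod.snd).toFinset)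
  obtain ⟨G, hG, hl⟩ := graph_of_list T l r (Finset.mem_insert_self _ _)
    (by
      intro e he
      refine Finset.mem_insert_of_mem (Finset.mem_union_left _ (Finset.mem_union_right _ ?_))
      exact List.mem_toFinset.mpr (List.mem_map_of_mem he))
    (by
      intro e he
      refine Finset.mem_insert_of_mem (Finset.mem_union_right _ ?_)
      exact List.mem_toFinset.mpr (List.mem_map_of_mem he))
    (by
      intro x hx
      rcases Finset.mem_insert.mp hx with rfl | hx
      · exact Relation.ReflTransGen.refl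
      rcases Finset.mem_union.mp hx with hx | hx
      · rcases Finset.mem_union.mp hx with hx | hx
        · obtain ⟨i, _, rfl⟩ := Finset.mem_image.mp hx
          exact h3 i (Finset.mem_univ _)
        · obtain ⟨e, he, rfl⟩ := List.mem_map.mp (List.mem_toFinset.mp hx)
          exact h1 e he
      · obtain ⟨e, he, rfl⟩ := List.mem_map.mp (List.mem_toFinset.mp hx)
        exact h2 e he)
  refine ⟨T, ?_, G, hG, hl.trans h4⟩
  intro x hx
  exact Finset.mem_insert_of_mem (Finset.mem_union_left _ (Finset.mem_union_left _ hx))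

end Pool.Agent.H50.Stein
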