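import Pool.Agent.H50.SteinC

set_option autoImplicit false
open scoped Classical BigOperators

namespace Pool.Agent.H50.Stein

variable {N : ℕ}

noncomputable def rho : ℝ := Real.sqrt 2 * Real.sqrt 3 / 3

lemma rho_pos : 0 < rho := by
  have := s2_gt; have := s3_pos
  unfold rho
  positivity

lemma rho_sq : rho ^ 2 = 2 / 3 := by
  unfold rho
  rw [div_pow, mul_pow, s2_sq, s3_sq]
  norm_num

lemma cA_rho : cA * (2 - Real.sqrt 2 / 2) = 3 * rho := by
  have := s2_lt
  have hne : (4 - Real.sqrt 2) ≠ 0 := by linarith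
  unfold cA rho
  field_simp
  ring

lemma amgm (d w : ℝ) (hw : 0 < w) : d ≤ (w + d ^ 2 / w) / 2 := by
  have : 0 ≤ (d - w) ^ 2 / w := by positivity
  have h2 : (d - w) ^ 2 / w = w + d ^ 2 / w - 2 * d := by
    field_simp
    ring
  linarith

lemma block (j : ℕ) : ∀ S : Finset (Fin N), S.card = 2 ^ j → ∃ p : E N, (∀ i, i ∉ S → p i = 0) ∧
    ‖p‖ ^ 2 = ((Real.sqrt 2 / 2) ^ j) ^ 2 ∧ ∀ x, Good S x ((cA * 2 ^ j - cA * (Real.sqrt 2 / 2) ^ j +
      rho * (Real.sqrt 2 / 2) ^ j + ‖x - p‖ ^ 2 / (rho * (Real.sqrt 2 / 2) ^ j)) / 2) := by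
  have hr := rho_pos
  induction j with
  | zero =>
    intro S hS
    obtain ⟨i, rfl⟩ := Finset.card_eq_one.mp hS
    refine ⟨ee i, ?_, ?_, ?_⟩
    · intro k hk
      have : k ≠ i := fun h => hk (Finset.mem_singleton.mpr h)
      simp [ee, this]
    · simp [ee]
    · intro x
      refine ((good_single i).move x).mono ?_
      have := amgm ‖x - ee i‖ rho hr
      rw [dist_comm, dist_eq_norm]
      simp only [pow_zero, mul_one]
      linarith
  | succ j ih =>
    intro S hS
    obtain ⟨Sa, hSa, hca⟩ := Finset.exists_subset_card_eq (s := S) (n := 2 ^ j)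
      (by rw [hS, pow_succ]; omega)
    have hcb : (S \ Sa).card = 2 ^ j := by
      rw [Finset.card_sdiff_of_subset hSa, hS, hca, pow_succ]; omega
    obtain ⟨a, a1, a2, a3⟩ := ih Sa hca
    obtain ⟨b, b1, b2, b3⟩ := ih (S \ Sa) hcb
    have hin : inner ℝ a b = 0 := by
      rw [PiLp.inner_apply]
      apply Finset.sum_eq_zero
      intro i _
      by_cases h : i ∈ Sa
      · have := b1 i (by simp [h])
        simp [this]
      · have := a1 i h
        simp [this]
    have t2 := s2_sq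
    have g1 := s2_gt
    have g2 := s2_lt
    set s := Real.sqrt 2 with hs
    have hV : 0 < (s / 2) ^ j := by positivity
    rw [pow_succ (s / 2) j]
    set V := (s / 2) ^ j with hVd
    have hadd : ‖a + b‖ ^ 2 = 2 * V ^ 2 := by
      rw [norm_add_sq_real, hin, a2, b2]; ring
    have hsub : ‖b - a‖ ^ 2 = 2 * V ^ 2 := by
      rw [norm_sub_rev, norm_sub_sq_real, hin, a2, b2]; ring
    refine ⟨(1 / 2 : ℝ) • (a + b), ?_, ?_, ?_⟩
    · intro i hi
      have h1 := a1 i (fun h => hi (hSa h))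
      have h2 := b1 i (fun h => hi (Finset.mem_sdiff.mp h).1)
      simp [h1, h2]
    · rw [norm_smul, mul_pow, hadd, Real.norm_eq_abs, sq_abs, mul_pow, div_pow s, t2]
      ring
    · intro x
      set p : E N := (1 / 2 : ℝ) • (a + b) with hp
      let y : E N := x + (1 - s / 2) • (p - x)
      have h1 := ((a3 y).union (b3 y)).move x
      rw [Finset.union_sdiff_of_subset hSa] at h1
      refine h1.mono ?_
      set D := ‖x - p‖ with hD
      have e1 : dist y x = (1 - s / 2) * D := by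
        rw [dist_eq_norm]
        have : y - x = (1 - s / 2) • (p - x) := by simp [y]
        rw [this, norm_smul, norm_sub_rev p x, Real.norm_eq_abs, abs_of_pos (by linarith)]
      have e2 : ‖y - p‖ = s / 2 * D := by
        have : y - p = (s / 2) • (x - p) := by
          simp only [y]
          module
        rw [this, norm_smul, Real.norm_eq_abs, abs_of_pos (by linarith)]
      have e3 : ‖y - a‖ ^ 2 + ‖y - b‖ ^ 2 = D ^ 2 + V ^ 2 := by
        have hpar := parallelogram_law_with_norm ℝ (y - a) (y - b)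
        have f1 : y - a + (y - b) = (2 : ℝ) • (y - p) := by
          rw [hp]; module
        have f2 : y - a - (y - b) = b - a := by abel
        rw [f1, f2, norm_smul, e2] at hpar
        simp only [Real.norm_ofNat] at hpar
        nlinarith
      have e4 := amgm D (rho * (V * (s / 2))) (by positivity)
      have e5 : ‖y - a‖ ^ 2 / (rho * V) + ‖y - b‖ ^ 2 / (rho * V) =
          s / 2 * (D ^ 2 / (rho * (V * (s / 2)))) + 3 / 2 * rho * V := by
        rw [← add_div, e3]
        have hq := rho_sq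
        field_simp
        nlinarith
      have e6 := cA_rho
      rw [← hs] at e6
      rw [e1]
      have e7 := mul_le_mul_of_nonneg_left e4 (show 0 ≤ 1 - s / 2 by linarith)
      have e8 : cA * (2 - s / 2) * V = 3 * rho * V := by rw [e6]
      have e9 : rho * V * s ^ 2 = rho * V * 2 := by rw [t2]
      rw [pow_succ (2 : ℝ) j]
      linarith

lemma block0 (j : ℕ) (S : Finset (Fin N)) (hS : S.card = 2 ^ j) :
    Good S 0 (cA / 2 * 2 ^ j + 2) := by
  obtain ⟨p, _, h2, h3⟩ := block j S hS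
  refine (h3 0).mono ?_
  have g1 := s2_gt
  have g2 := s2_lt
  have hV : 0 < (Real.sqrt 2 / 2) ^ j := by positivity
  have hV1 : (Real.sqrt 2 / 2) ^ j ≤ 1 := pow_le_one₀ (by positivity) (by linarith)
  rw [zero_sub, norm_neg, h2]
  set V := (Real.sqrt 2 / 2) ^ j
  have hr := rho_pos
  have hq := rho_sq
  have hA := cA_pos
  have e : V ^ 2 / (rho * V) = 3 / 2 * rho * V := by
    field_simp
    nlinarith
  have r1 : rho ≤ 1 := by nlinarith
  have : rho * V ≤ 1 := by nlinarith
  have : 0 ≤ cA * V := by positivity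
  rw [e]
  linarith

lemma all_sets (n : ℕ) : ∀ S : Finset (Fin N), S.card = n →
    Good S 0 (cA / 2 * n + 8 * Real.sqrt n) := by
  induction n using Nat.strong_induction_on with
  | _ n ih =>
    intro S hS
    rcases Nat.eq_zero_or_pos n with rfl | hn
    · rw [Finset.card_eq_zero.mp hS]
      simpa using good_empty (0 : E N)
    have h1 : 2 ^ (Nat.log 2 n) ≤ n := Nat.pow_log_le_self 2 hn.ne'
    have h2 : n < 2 ^ (Nat.log 2 n + 1) := Nat.lt_pow_succ_log_self (by norm_num) n
    set j := Nat.log 2 n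
    obtain ⟨Sa, hSa, hca⟩ := Finset.exists_subset_card_eq (s := S) (n := 2 ^ j) (by omega)
    have hcb : (S \ Sa).card = n - 2 ^ j := by
      rw [Finset.card_sdiff_of_subset hSa, hS, hca]
    have hpos : 0 < 2 ^ j := by positivity
    have k1 := block0 j Sa hca
    have k2 := ih (n - 2 ^ j) (by omega) _ hcb
    have k := k1.union k2
    rw [Finset.union_sdiff_of_subset hSa] at k
    refine k.mono ?_
    have c1 : ((n - 2 ^ j : ℕ) : ℝ) = n - 2 ^ j := by
      rw [Nat.cast_sub h1]; simp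
    have c2 : (n : ℝ) ≤ 2 * 2 ^ j := by
      rw [pow_succ] at h2
      have : n ≤ 2 * 2 ^ j := by omega
      exact_mod_cast this
    have c3 : (1 : ℝ) ≤ n := by exact_mod_cast hn
    have c4 : (2 : ℝ) ^ j ≤ n := by exact_mod_cast h1
    rw [c1]
    have q1 := Real.sq_sqrt (show (0 : ℝ) ≤ n - 2 ^ j by linarith)
    have q2 := Real.sq_sqrt (show (0 : ℝ) ≤ n by linarith)
    have q3 := Real.sqrt_nonneg ((n : ℝ) - 2 ^ j)
    have q4 : 1 ≤ Real.sqrt n := Real.one_le_sqrt.mpr c3
    have q5 : Real.sqrt ((n : ℝ) - 2 ^ j) ≤ 3 / 4 * Real.sqrt n := by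
      apply abs_le_of_sq_le_sq' _ (by positivity) |>.2
      nlinarith
    linarith

noncomputable def smt (d : ℕ) : ℝ :=
  sInf {L : ℝ | ∃ T : Finset (E (d + 1)), Finset.univ.image ee ⊆ T ∧
    ∃ G : SimpleGraph T, G.Connected ∧ L = len T G}

noncomputable def mst (d : ℕ) : ℝ :=
  sInf {L : ℝ | ∃ T : Finset (E (d + 1)), T = Finset.univ.image ee ∧
    ∃ G : SimpleGraph T, G.Connected ∧ L = len T G}

lemma mst_eq (d : ℕ) : mst d = Real.sqrt 2 * d := by
  have hb : ∀ L ∈ {L : ℝ | ∃ T : Finset (E (d + 1)), T = Finset.univ.image ee ∧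
      ∃ G : SimpleGraph T, G.Connected ∧ L = len T G}, Real.sqrt 2 * d ≤ L := by
    rintro L ⟨T, rfl, G, hG, rfl⟩
    exact mst_lower G hG
  obtain ⟨G, hG, hl⟩ := mst_upper (N := d)
  apply le_antisymm
  · exact le_trans (csInf_le ⟨_, hb⟩ ⟨_, rfl, G, hG, rfl⟩) hl
  · exact le_csInf ⟨_, _, rfl, G, hG, rfl⟩ hb

lemma smt_bounds (d : ℕ) : cA / 2 * d ≤ smt d ∧
    smt d ≤ cA / 2 * (d + 1) + 8 * Real.sqrt (d + 1) := by
  have hb : ∀ L ∈ {L : ℝ | ∃ T : Finset (E (d + 1)), Finset.univ.image ee ⊆ T ∧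
      ∃ G : SimpleGraph T, G.Connected ∧ L = len T G}, cA / 2 * d ≤ L := by
    rintro L ⟨T, hT, G, hG, rfl⟩
    exact lower T hT G hG
  obtain ⟨T, hT, G, hG, hl⟩ :=
    (all_sets (d + 1) (Finset.univ : Finset (Fin (d + 1))) (by simp)).graph
  constructor
  · exact le_csInf ⟨_, T, hT, G, hG, rfl⟩ hb
  · refine le_trans (csInf_le ⟨_, hb⟩ ⟨T, hT, G, hG, rfl⟩) ?_
    push_cast at hl
    exact hl

lemma const_eq : Real.sqrt 3 / (4 - Real.sqrt 2) = cA / 2 / Real.sqrt 2 := by
  have := s2_lt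
  have := s2_gt
  have hne : (4 - Real.sqrt 2) ≠ 0 := by linarith
  have hne2 : Real.sqrt 2 ≠ 0 := by linarith
  unfold cA
  field_simp

theorem main : Filter.Tendsto (fun d : ℕ => smt d / mst d) Filter.atTop
    (nhds (Real.sqrt 3 / (4 - Real.sqrt 2))) := by
  rw [const_eq]
  have g1 := s2_gt
  have hA := cA_pos
  have t1 : Filter.Tendsto (fun d : ℕ => (Real.sqrt (d : ℝ))⁻¹) Filter.atTop (nhds 0) :=
    tendsto_inv_atTop_zero.comp (Real.tendsto_sqrt_atTop.comp tendsto_natCast_atTop_atTop)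
  have t2 : Filter.Tendsto
      (fun d : ℕ => cA / 2 / Real.sqrt 2 + (cA + 16) * (Real.sqrt (d : ℝ))⁻¹) Filter.atTop
      (nhds (cA / 2 / Real.sqrt 2)) := by
    simpa using (t1.const_mul (cA + 16)).const_add (cA / 2 / Real.sqrt 2)
  refine tendsto_of_tendsto_of_tendsto_of_le_of_le' tendsto_const_nhds t2 ?_ ?_
  · filter_upwards [Filter.eventually_ge_atTop 1] with d hd
    have c3 : (1 : ℝ) ≤ d := by exact_mod_cast hd
    rw [mst_eq, le_div_iff₀ (by positivity)]
    have : cA / 2 / Real.sqrt 2 * (Real.sqrt 2 * d) = cA / 2 * d := by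
      field_simp
    rw [this]
    exact (smt_bounds d).1
  · filter_upwards [Filter.eventually_ge_atTop 1] with d hd
    have c3 : (1 : ℝ) ≤ d := by exact_mod_cast hd
    rw [mst_eq, div_le_iff₀ (by positivity)]
    refine le_trans (smt_bounds d).2 ?_
    have q2 := Real.sq_sqrt (show (0 : ℝ) ≤ d by linarith)
    have q4 : 1 ≤ Real.sqrt d := Real.one_le_sqrt.mpr c3
    have q1 := Real.sq_sqrt (show (0 : ℝ) ≤ d + 1 by linarith)
    have q5 : Real.sqrt ((d : ℝ) + 1) ≤ 2 * Real.sqrt d := by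
      apply abs_le_of_sq_le_sq' _ (by positivity) |>.2
      nlinarith
    have : (cA / 2 / Real.sqrt 2 + (cA + 16) * (Real.sqrt (d : ℝ))⁻¹) * (Real.sqrt 2 * d) =
        cA / 2 * d + (cA + 16) * Real.sqrt 2 * Real.sqrt d := by
      set u := Real.sqrt (d : ℝ)
      rw [← q2]
      field_simp
    rw [this]
    have f1 : 1 ≤ Real.sqrt 2 * Real.sqrt d := by nlinarith
    have f2 : Real.sqrt d ≤ Real.sqrt 2 * Real.sqrt d := by nlinarith
    nlinarith

end Pool.Agent.H50.Stein
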