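import Mathlib

namespace Pool.Agent.H50.Vreg

open Finset

section defs
variable {R : Type} [CommRing R] {n : ℕ}

/-- The differential of the Koszul cochain complex of `g_1 ^ m, ..., g_n ^ m`; a cochain has one
entry `a σ` for each set `σ` of indices. -/
def kd (g : Fin n → R) (m : ℕ) (a : Finset (Fin n) → R) (τ : Finset (Fin n)) : R :=
  ∑ j ∈ τ, (-1) ^ (τ.filter (· < j)).card * g j ^ m * a (τ.erase j)

/-- The degree `d` part of the `p`-th local cohomology of the module `I` with support in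
`(g_1, ..., g_n)` vanishes. Local cohomology is the direct limit over `m` of the Koszul cohomology
of `g ^ m`; the entry `a σ` stands for `a σ / (∏ i ∈ σ, g i) ^ m`, `g i` has degree `w i`, and
`H e f` says that `f` is homogeneous of degree `e`. -/
def Vanish (H : ℤ → R → Prop) (g : Fin n → R) (w : Fin n → ℕ) (I : Ideal R) (p : ℕ) (d : ℤ) :
    Prop :=
  ∀ (m : ℕ) (a : Finset (Fin n) → R), (∀ σ, a σ ∈ I) → (∀ σ, σ.card ≠ p → a σ = 0) →
    (∀ σ, H (d + m * ∑ i ∈ σ, (w i : ℤ)) (a σ)) → (∀ τ, kd g m a τ = 0) →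
      ∃ (l : ℕ) (b : Finset (Fin n) → R), (∀ σ, b σ ∈ I) ∧ (∀ σ, σ.card + 1 ≠ p → b σ = 0) ∧
        ∀ σ, kd g (m + l) b σ = (∏ i ∈ σ, g i) ^ l * a σ

/-- The regularity of `I` as a module: the supremum of `d + p` over all nonzero `H^p(I)_d`. -/
noncomputable def reg (H : ℤ → R → Prop) (g : Fin n → R) (w : Fin n → ℕ) (I : Ideal R) : EReal :=
  ⨆ (p : ℕ) (d : ℤ) (_ : ¬ Vanish H g w I p d), ((d + p : ℤ) : ℝ)

/-- The v-number: the least degree of a homogeneous `f` with `(I : f)` prime. -/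
noncomputable def vnum (H : ℤ → R → Prop) (I : Ideal R) : ℕ :=
  sInf {d : ℕ | ∃ f, H d f ∧ (I.colon {f}).IsPrime}

/-- `I` is generated by homogeneous elements. -/
def Graded (H : ℤ → R → Prop) (I : Ideal R) : Prop :=
  I = Ideal.span {f | f ∈ I ∧ ∃ d, H d f}

/-- A Noetherian graded filtration. -/
def NoethFilt (H : ℤ → R → Prop) (I : ℕ → Ideal R) : Prop :=
  (∀ k, Graded H (I k)) ∧ I 0 = ⊤ ∧ (∀ k, I (k + 1) ≤ I k) ∧ (∀ k l, I k * I l ≤ I (k + l)) ∧
    ∃ A : Subring (Polynomial R), (∀ f, f ∈ A ↔ ∀ k, f.coeff k ∈ I k) ∧ IsNoetherianRing A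
end defs

section kos
variable {R : Type} [CommRing R] {n : ℕ} (g : Fin n → R)

def sg (R : Type) [CommRing R] (τ : Finset (Fin n)) (j : Fin n) : R :=
  (-1) ^ (τ.filter (· < j)).card

lemma kd_def (m : ℕ) (a : Finset (Fin n) → R) (τ : Finset (Fin n)) :
    kd g m a τ = ∑ j ∈ τ, sg R τ j * g j ^ m * a (τ.erase j) := rfl

lemma sg_sq (τ : Finset (Fin n)) (j : Fin n) : sg R τ j * sg R τ j = 1 := by
  rw [sg, ← mul_pow]; simp

lemma sg_erase {τ : Finset (Fin n)} {j : Fin n} (hj : j ∈ τ) (i : Fin n) :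
    sg R (τ.erase j) i = (if j < i then -1 else 1) * sg R τ i := by
  unfold sg
  rw [filter_erase]
  split_ifs with h
  · have hm : j ∈ τ.filter (· < i) := mem_filter.2 ⟨hj, h⟩
    rw [← card_erase_add_one hm, pow_succ]; ring
  · have hm : j ∉ τ.filter (· < i) := fun hm => h (mem_filter.1 hm).2
    rw [erase_eq_of_notMem hm, one_mul]

lemma sg_anti {τ : Finset (Fin n)} {i j : Fin n} (hi : i ∈ τ) (hj : j ∈ τ) (h : i ≠ j) :
    sg R τ j * sg R (τ.erase j) i + sg R τ i * sg R (τ.erase i) j = 0 := by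
  rw [sg_erase hj, sg_erase hi]
  rcases lt_or_gt_of_ne h with h1 | h1
  · rw [if_pos h1, if_neg (not_lt.2 h1.le)]; ring
  · rw [if_pos h1, if_neg (not_lt.2 h1.le)]; ring

lemma kd_kd (m : ℕ) (a : Finset (Fin n) → R) (τ : Finset (Fin n)) : kd g m (kd g m a) τ = 0 := by
  have h : kd g m (kd g m a) τ = ∑ x ∈ τ ×ˢ τ, if x.2 = x.1 then 0 else
      sg R τ x.1 * sg R (τ.erase x.1) x.2 * (g x.1 ^ m * g x.2 ^ m) *
        a ((τ.erase x.1).erase x.2) := by
    rw [kd_def, sum_product]
    refine sum_congr rfl fun j hj => ?_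
    rw [kd_def, mul_sum, ← add_sum_erase τ _ hj]
    simp only [if_true, zero_add]
    refine sum_congr rfl fun i hi => ?_
    rw [if_neg (ne_of_mem_erase hi)]; ring
  rw [h]
  refine sum_involution (fun x _ => x.swap) ?_ ?_ ?_ ?_
  · rintro ⟨j, i⟩ hx
    obtain ⟨hj, hi⟩ := mem_product.1 hx
    by_cases hij : i = j
    · simp [hij]
    · simp only [Prod.swap, if_neg hij, if_neg (Ne.symm hij)]
      rw [erase_right_comm (a := i) (b := j)]
      linear_combination (g j ^ m * g i ^ m * a ((τ.erase j).erase i)) * sg_anti (R := R) hi hj hij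
  · rintro ⟨j, i⟩ _ hx h2
    apply hx
    have : i = j := congrArg Prod.fst h2
    simp [this]
  · rintro ⟨j, i⟩ hx
    exact mem_product.2 ⟨(mem_product.1 hx).2, (mem_product.1 hx).1⟩
  · rintro ⟨j, i⟩ _; rfl

lemma kd_up (m l : ℕ) (a : Finset (Fin n) → R) (τ : Finset (Fin n)) :
    kd g (m + l) (fun σ => (∏ i ∈ σ, g i) ^ l * a σ) τ = (∏ i ∈ τ, g i) ^ l * kd g m a τ := by
  rw [kd_def, kd_def, mul_sum]
  refine sum_congr rfl fun j hj => ?_
  rw [← mul_prod_erase τ g hj, mul_pow, pow_add]; ring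

lemma kd_lin (m : ℕ) (s t : R) (a b : Finset (Fin n) → R) (τ : Finset (Fin n)) :
    kd g m (fun σ => s * a σ + t * b σ) τ = s * kd g m a τ + t * kd g m b τ := by
  simp only [kd_def, mul_sum, ← sum_add_distrib]
  exact sum_congr rfl fun j _ => by ring

lemma kd_mem (I : Ideal R) (m : ℕ) {a : Finset (Fin n) → R} (h : ∀ σ, a σ ∈ I)
    (τ : Finset (Fin n)) : kd g m a τ ∈ I :=
  I.sum_mem fun _ _ => I.mul_mem_left _ (h _)

lemma kd_zero (m : ℕ) {a : Finset (Fin n) → R} {p : ℕ} (h : ∀ σ, σ.card ≠ p → a σ = 0)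
    (τ : Finset (Fin n)) (ht : τ.card ≠ p + 1) : kd g m a τ = 0 := by
  refine sum_eq_zero fun j hj => ?_
  rw [h, mul_zero]
  have := card_erase_add_one hj
  omega

def hom (j : Fin n) (a : Finset (Fin n) → R) (σ : Finset (Fin n)) : R :=
  if j ∈ σ then 0 else sg R (insert j σ) j * a (insert j σ)

lemma kd_hom (m : ℕ) (j : Fin n) (a : Finset (Fin n) → R) (σ : Finset (Fin n)) :
    kd g m (hom j a) σ + hom j (kd g m a) σ = g j ^ m * a σ := by
  by_cases hj : j ∈ σ
  · rw [hom, if_pos hj, add_zero, kd_def, sum_eq_single_of_mem j hj]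
    · rw [hom, if_neg (notMem_erase j σ), insert_erase hj]
      linear_combination (g j ^ m * a σ) * sg_sq (R := R) σ j
    · intro i _ hij
      rw [hom, if_pos (mem_erase.2 ⟨hij.symm, hj⟩), mul_zero]
  · rw [hom, if_neg hj, kd_def, kd_def, sum_insert hj, erase_insert hj, mul_add, mul_sum,
      add_left_comm, ← sum_add_distrib, sum_eq_zero, add_zero]
    · linear_combination (g j ^ m * a σ) * sg_sq (R := R) (insert j σ) j
    · intro i hi
      have hij : i ≠ j := fun h => hj (h ▸ hi)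
      have h1 : j ∉ σ.erase i := fun h => hj (mem_of_mem_erase h)
      have h2 : insert j (σ.erase i) = (insert j σ).erase i := (erase_insert_of_ne hij.symm).symm
      rw [hom, if_neg h1, h2]
      have h3 := sg_anti (R := R) (mem_insert_of_mem hi) (mem_insert_self j σ) hij
      rw [erase_insert hj] at h3
      have h5 := sg_sq (R := R) (insert j σ) i
      have h6 := sg_sq (R := R) σ i
      generalize sg R (insert j σ) j = A at *
      generalize sg R (insert j σ) i = B at *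
      generalize sg R σ i = C at *
      generalize sg R ((insert j σ).erase i) j = D at *
      have h7 : C * D + A * B = 0 := by
        linear_combination (B * C) * h3 - (A * B) * h6 - (C * D) * h5
      linear_combination (g i ^ m * a ((insert j σ).erase i)) * h7

lemma map_kd {S : Type} [CommRing S] (φ : R →+* S) (m : ℕ) (a : Finset (Fin n) → R)
    (τ : Finset (Fin n)) : φ (kd g m a τ) = kd (fun i => φ (g i)) m (fun σ => φ (a σ)) τ := by
  simp [kd]
end kos

end Pool.Agent.H50.Vreg
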