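import Mathlib
import Pool.Agent.H50.Vreg1

namespace Pool.Agent.H50.Tor

open Finset MvPolynomial Pool.Agent.H50.Vreg

section defs
variable {K : Type} [Field K] {n : ℕ}

/-- The Koszul differential on `x_1, ..., x_n`; `a τ` is the coefficient of `e_τ`. -/
noncomputable def kz (a : Finset (Fin n) → MvPolynomial (Fin n) K) (ρ : Finset (Fin n)) :
    MvPolynomial (Fin n) K :=
  ∑ i ∈ ρᶜ, (-1) ^ (ρ.filter (· < i)).card * X i * a (insert i ρ)

/-- `Tor_j (R / J, K)` vanishes in degree `j + e`: in the Koszul complex of `R / J`, every cycle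
`∑ a_τ e_τ` with `#τ = j` and `a_τ` forms of degree `e` is a boundary. -/
def TorZero (J : Ideal (MvPolynomial (Fin n) K)) (j e : ℕ) : Prop :=
  ∀ a : Finset (Fin n) → MvPolynomial (Fin n) K, (∀ τ, τ.card ≠ j → a τ = 0) →
    (∀ τ, (a τ).IsHomogeneous e) → (∀ ρ, kz a ρ ∈ J) →
      ∃ b : Finset (Fin n) → MvPolynomial (Fin n) K, (∀ τ, τ.card ≠ j + 1 → b τ = 0) ∧
        ∀ τ, kz b τ - a τ ∈ J
end defs

section scal
variable {K : Type} [Field K] {n : ℕ}

def bd (E : Finset (Fin n)) (c : Finset (Fin n) → K) (ρ : Finset (Fin n)) : K :=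
  ∑ i ∈ E \ ρ, sg K ρ i * c (insert i ρ)

def Van (K : Type) [Field K] (E : Finset (Fin n)) (L : Finset (Fin n) → Prop) (j : ℕ) : Prop :=
  ∀ c : Finset (Fin n) → K, (∀ ρ ⊆ E, L ρ → ρ.card + 1 = j → bd E c ρ = 0) →
    ∃ b : Finset (Fin n) → K, ∀ τ ⊆ E, L τ → τ.card = j → bd E b τ = c τ

lemma Van.congr {E : Finset (Fin n)} {L L' : Finset (Fin n) → Prop} {j : ℕ} (h : Van K E L j)
    (e : ∀ τ ⊆ E, L' τ ↔ L τ) : Van K E L' j := fun c hc => by
  obtain ⟨b, hb⟩ := h c fun ρ x y => hc ρ x ((e ρ x).2 y)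
  exact ⟨b, fun τ x y => hb τ x ((e τ x).1 y)⟩

lemma van_empty {E : Finset (Fin n)} {L : Finset (Fin n) → Prop} {j : ℕ}
    (h : ∀ τ ⊆ E, τ.card = j → ¬ L τ) : Van K E L j :=
  fun _ _ => ⟨0, fun τ x y z => absurd y (h τ x z)⟩

lemma sg_ins {ρ : Finset (Fin n)} {e : Fin n} (he : e ∉ ρ) (i : Fin n) :
    sg K (insert e ρ) i = (if e < i then -1 else 1) * sg K ρ i := by
  have := sg_erase (R := K) (mem_insert_self e ρ) i
  rw [erase_insert he] at this
  rw [this]; split_ifs <;> ring

lemma bd_bd (E : Finset (Fin n)) (c : Finset (Fin n) → K) (ρ : Finset (Fin n)) :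
    bd E (bd E c) ρ = 0 := by
  have h : bd E (bd E c) ρ = ∑ x ∈ (E \ ρ) ×ˢ (E \ ρ), if x.2 = x.1 then 0 else
      sg K ρ x.1 * sg K (insert x.1 ρ) x.2 * c (insert x.2 (insert x.1 ρ)) := by
    rw [bd, sum_product]
    refine sum_congr rfl fun j hj => ?_
    rw [bd, mul_sum, ← add_sum_erase _ _ hj, sdiff_insert]
    simp only [if_true, zero_add]
    refine sum_congr rfl fun i hi => ?_
    rw [if_neg (ne_of_mem_erase hi)]; ring
  rw [h]
  refine sum_involution (fun x _ => x.swap) ?_ ?_ ?_ ?_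
  · rintro ⟨j, i⟩ hx
    obtain ⟨hj, hi⟩ := mem_product.1 hx
    by_cases hij : i = j
    · simp [hij]
    · simp only [Prod.swap, if_neg hij, if_neg (Ne.symm hij)]
      rw [insert_comm j i, sg_ins (mem_sdiff.1 hj).2, sg_ins (mem_sdiff.1 hi).2]
      rcases lt_or_gt_of_ne hij with h1 | h1
      · rw [if_pos h1, if_neg (not_lt.2 h1.le)]; ring
      · rw [if_pos h1, if_neg (not_lt.2 h1.le)]; ring
  · rintro ⟨j, i⟩ _ hx h2
    apply hx
    have : i = j := congrArg Prod.fst h2
    simp [this]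
  · rintro ⟨j, i⟩ hx
    exact mem_product.2 ⟨(mem_product.1 hx).2, (mem_product.1 hx).1⟩
  · rintro ⟨j, i⟩ _; rfl

lemma bd_split {E ρ : Finset (Fin n)} {e : Fin n} (he : e ∉ E) (hρ : e ∉ ρ)
    (c : Finset (Fin n) → K) :
    bd (insert e E) c ρ = sg K ρ e * c (insert e ρ) + bd E c ρ := by
  rw [bd, insert_sdiff_of_notMem _ hρ, sum_insert fun h => he (mem_sdiff.1 h).1, bd]

lemma van_cone {E : Finset (Fin n)} {L : Finset (Fin n) → Prop} {e : Fin n} (he : e ∈ E)
    (h : ∀ τ ⊆ E, L τ → L (τ.erase e)) (j : ℕ) : Van K E L j := by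
  intro c hc
  obtain ⟨E, hE, rfl⟩ : ∃ E', e ∉ E' ∧ E = insert e E' := ⟨_, notMem_erase e E, (insert_erase he).symm⟩
  refine ⟨fun τ => if e ∈ τ then sg K τ e * c (τ.erase e) else 0, fun τ h1 h2 h3 => ?_⟩
  by_cases hτ : e ∈ τ
  · obtain ⟨ρ, hρ, rfl⟩ : ∃ ρ, e ∉ ρ ∧ τ = insert e ρ :=
      ⟨_, notMem_erase e τ, (insert_erase hτ).symm⟩
    have h4 := hc ρ ((subset_insert _ _).trans h1) (erase_insert hρ ▸ h _ h1 h2)
      (by rw [← h3, card_insert_of_notMem hρ])
    rw [bd_split hE hρ] at h4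
    have h5 : bd (insert e E) (fun τ => if e ∈ τ then sg K τ e * c (τ.erase e) else 0)
        (insert e ρ) = -(sg K ρ e * bd E c ρ) := by
      rw [bd, bd, insert_sdiff_insert, sdiff_insert_of_notMem hE, mul_sum, ← sum_neg_distrib]
      refine sum_congr rfl fun i hi => ?_
      rw [mem_sdiff] at hi
      have hie : i ≠ e := fun x => hE (x ▸ hi.1)
      have a1 : i ∉ insert e ρ := by simp [hie, hi.2]
      rw [if_pos (by simp), erase_insert_of_ne hie, erase_insert hρ, sg_ins a1, sg_ins hρ,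
        sg_ins hρ, if_neg (lt_irrefl e)]
      rcases lt_or_gt_of_ne hie with h1 | h1
      · rw [if_pos h1, if_neg (not_lt.2 h1.le)]; ring
      · rw [if_pos h1, if_neg (not_lt.2 h1.le)]; ring
    rw [h5]
    linear_combination (-sg K ρ e) * h4 + c (insert e ρ) * sg_sq (R := K) ρ e
  · rw [bd_split hE hτ, if_pos (mem_insert_self _ _), erase_insert hτ, sg_ins hτ,
      if_neg (lt_irrefl e), bd, sum_eq_zero]
    · linear_combination c τ * sg_sq (R := K) τ e
    · intro i hi
      rw [if_neg, mul_zero]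
      simp only [mem_insert, not_or]
      exact ⟨fun x => hE (x ▸ (mem_sdiff.1 hi).1), hτ⟩

lemma van_split {E : Finset (Fin n)} {L : Finset (Fin n) → Prop} {e : Fin n} (he : e ∉ E) {j : ℕ}
    (hL : ∀ τ ⊆ E, L τ → L (insert e τ)) (h1 : Van K E L (j + 1))
    (h2 : Van K E (fun σ => L (insert e σ)) j) : Van K (insert e E) L (j + 1) := by
  intro c hc
  set ε : Finset (Fin n) → K := fun σ => ∏ i ∈ σ, if e < i then -1 else 1 with hε
  have sq : ∀ σ, ε σ * ε σ = 1 := fun σ => by
    rw [hε, ← prod_mul_distrib]; exact prod_eq_one fun i _ => by split_ifs <;> simp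
  have tw : ∀ (a : Finset (Fin n) → K), ∀ σ ⊆ E,
      bd E (fun σ => ε σ * a (insert e σ)) σ = ε σ * bd (insert e E) a (insert e σ) := by
    intro a σ hσ
    rw [bd, bd, insert_sdiff_insert, sdiff_insert_of_notMem he, mul_sum]
    refine sum_congr rfl fun i hi => ?_
    rw [sg_ins fun x => he (hσ x), insert_comm, hε]
    simp only [prod_insert (mem_sdiff.1 hi).2]
    ring
  obtain ⟨b1, hb1⟩ := h2 (fun σ => ε σ * c (insert e σ)) fun ρ x y z => by
    rw [tw c ρ x, hc _ (insert_subset_insert e x) y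
      (by rw [card_insert_of_notMem fun w => he (x w), z]), mul_zero]
  set b : Finset (Fin n) → K := fun τ => if e ∈ τ then ε (τ.erase e) * b1 (τ.erase e) else 0
    with hb
  have k1 : ∀ σ ⊆ E, L (insert e σ) → σ.card = j →
      bd (insert e E) b (insert e σ) = c (insert e σ) := fun σ x y z => by
    have a1 := tw b σ x
    have a2 : bd E (fun σ => ε σ * b (insert e σ)) σ = bd E b1 σ :=
      sum_congr rfl fun i hi => by
        have : e ∉ insert i σ := fun w => he (insert_subset (mem_sdiff.1 hi).1 x w)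
        simp only [hb, if_pos (mem_insert_self e _), erase_insert this, ← mul_assoc (ε _), sq,
          one_mul]
    rw [a2, hb1 σ x y z] at a1
    exact mul_left_cancel₀ (left_ne_zero_of_mul_eq_one (sq σ)) a1.symm
  obtain ⟨b2, hb2⟩ := h1 (fun τ => c τ - bd (insert e E) b τ) fun ρ x y z => by
    have hρ : e ∉ ρ := fun w => he (x w)
    have a1 := bd_split he hρ (fun τ => c τ - bd (insert e E) b τ)
    have a2 : bd (insert e E) (fun τ => c τ - bd (insert e E) b τ) ρ =
        bd (insert e E) c ρ - bd (insert e E) (bd (insert e E) b) ρ := by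
      simp only [bd, mul_sub, sum_sub_distrib]
    rw [a2, bd_bd, hc ρ (x.trans (subset_insert _ _)) y z, k1 ρ x (hL ρ x y) (by omega)] at a1
    simpa using a1.symm
  refine ⟨fun τ => b τ + if e ∈ τ then 0 else b2 τ, fun τ x y z => ?_⟩
  have a1 : bd (insert e E) (fun τ => b τ + if e ∈ τ then 0 else b2 τ) τ =
      bd (insert e E) b τ + bd (insert e E) (fun τ => if e ∈ τ then 0 else b2 τ) τ := by
    simp only [bd, mul_add, sum_add_distrib]
  rw [a1]
  by_cases hτ : e ∈ τ
  · obtain ⟨σ, hσ, rfl⟩ : ∃ ρ, e ∉ ρ ∧ τ = insert e ρ :=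
      ⟨_, notMem_erase e τ, (insert_erase hτ).symm⟩
    rw [k1 σ ((subset_insert_iff_of_notMem hσ).1 ((subset_insert _ _).trans x)) y
      (by rw [card_insert_of_notMem hσ] at z; omega), bd, sum_eq_zero, add_zero]
    intro i _; simp
  · have x' := (subset_insert_iff_of_notMem hτ).1 x
    have a2 : bd E (fun τ => if e ∈ τ then 0 else b2 τ) τ = bd E b2 τ :=
      sum_congr rfl fun i hi => by
        dsimp only
        rw [if_neg fun w => he (insert_subset (mem_sdiff.1 hi).1 x' w)]
    rw [bd_split he hτ (fun τ => if e ∈ τ then 0 else b2 τ), if_pos (mem_insert_self _ _), a2,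
      hb2 τ x' y z]
    ring
end scal

section red
variable {K : Type} [Field K] {n : ℕ}

noncomputable def ind (τ : Finset (Fin n)) : Fin n →₀ ℕ := ∑ i ∈ τ, Finsupp.single i 1

lemma ind_ap (τ : Finset (Fin n)) (i : Fin n) : ind τ i = if i ∈ τ then 1 else 0 := by
  simp [ind, Finsupp.finsetSum_apply, Finsupp.single_apply]

lemma ind_cancel {τ : Finset (Fin n)} {α : Fin n →₀ ℕ} (h : τ ⊆ α.support) :
    α - ind τ + ind τ = α := by
  ext i
  have := fun x => Finsupp.mem_support_iff.1 (h (x := i) x)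
  simp only [Finsupp.add_apply, Finsupp.tsub_apply, ind_ap]
  split_ifs with x
  · have := this x; omega
  · simp

lemma coeff_kz (a : Finset (Fin n) → MvPolynomial (Fin n) K) (α : Fin n →₀ ℕ)
    (ρ : Finset (Fin n)) : coeff (α - ind ρ) (kz a ρ) =
      bd α.support (fun τ => coeff (α - ind τ) (a τ)) ρ := by
  rw [kz, coeff_sum, bd]
  symm
  refine sum_subset_zero_on_sdiff (fun i hi => mem_compl.2 (mem_sdiff.1 hi).2) (fun i hi => ?_)
    fun i hi => ?_
  all_goals
    have e1 : ((-1 : MvPolynomial (Fin n) K) ^ (ρ.filter (· < i)).card) = C (sg K ρ i) := by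
      simp [sg]
    rw [e1, mul_assoc, coeff_C_mul, coeff_X_mul']
  · rw [if_neg, mul_zero]
    simp only [mem_sdiff, mem_compl, Finsupp.mem_support_iff] at hi
    simp only [Finsupp.mem_support_iff, Finsupp.tsub_apply]
    have : α i = 0 := by tauto
    omega
  · rw [mem_sdiff, Finsupp.mem_support_iff] at hi
    rw [if_pos (by simp [ind_ap, hi.1, hi.2])]
    congr 2
    rw [ind, ind, sum_insert hi.2, add_comm, tsub_add_eq_tsub_tsub]

lemma reduce {J : Ideal (MvPolynomial (Fin n) K)} {NJ : (Fin n →₀ ℕ) → Prop}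
    (hJ : ∀ f, f ∈ J ↔ ∀ m ∈ f.support, NJ m) {j e : ℕ}
    (h : ∀ α : Fin n →₀ ℕ, α.degree = e + j → Van K α.support (fun τ => ¬ NJ (α - ind τ)) j) :
    TorZero J j e := by
  classical
  intro a ha0 had hc
  have hch : ∀ α : Fin n →₀ ℕ, α.degree = e + j → ∃ b : Finset (Fin n) → K, ∀ τ ⊆ α.support,
      ¬ NJ (α - ind τ) → τ.card = j → bd α.support b τ = coeff (α - ind τ) (a τ) :=
    fun α hα => h α hα _ fun ρ _ y _ => by
      rw [← coeff_kz]
      exact notMem_support_iff.1 fun z => y ((hJ _).1 (hc ρ) _ z)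
  choose! b hb using hch
  set S : Finset (Fin n →₀ ℕ) := univ.biUnion fun τ => (a τ).support.image (· + ind τ) with hS
  have hd : ∀ α ∈ S, α.degree = e + j := fun α hα => by
    simp only [hS, mem_biUnion, mem_image] at hα
    obtain ⟨τ, -, m, hm, rfl⟩ := hα
    have h1 : τ.card = j := by_contra fun x => by simp [ha0 τ x] at hm
    have h2 : m.degree = e := by
      rw [Finsupp.degree_eq_weight_one]; exact had τ (mem_support_iff.1 hm)
    rw [map_add, h2, ind, map_sum]; simp [h1]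
  refine ⟨fun τ => if τ.card = j + 1 then
    ∑ α ∈ S, if τ ⊆ α.support then monomial (α - ind τ) (b α τ) else 0 else 0,
    fun τ x => if_neg x, fun τ => ?_⟩
  by_cases hτ : τ.card = j
  swap
  · rw [ha0 τ hτ, kz, sum_eq_zero, sub_zero]
    · exact J.zero_mem
    · intro i hi
      rw [if_neg, mul_zero]
      rw [card_insert_of_notMem (mem_compl.1 hi)]; omega
  rw [hJ]
  intro m hm
  by_contra hN
  refine mem_support_iff.1 hm ?_
  have e1 : m = m + ind τ - ind τ := (add_tsub_cancel_right _ _).symm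
  have e2 : τ ⊆ (m + ind τ).support := fun i hi => by simp [ind_ap, hi]
  generalize hα : m + ind τ = α at e1 e2
  have e3 : ∀ i ∈ α.support \ τ, coeff (α - ind (insert i τ)) (if (insert i τ).card = j + 1 then
      ∑ β ∈ S, if insert i τ ⊆ β.support then monomial (β - ind (insert i τ)) (b β (insert i τ))
        else 0 else 0) = if α ∈ S then b α (insert i τ) else 0 := fun i hi => by
    rw [mem_sdiff] at hi
    have s1 := insert_subset hi.1 e2
    rw [if_pos (by rw [card_insert_of_notMem hi.2, hτ]), coeff_sum, ← sum_ite_eq' S α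
      fun β => b β (insert i τ)]
    refine sum_congr rfl fun β _ => ?_
    by_cases x : β = α
    · simp [x, s1]
    · rw [if_neg x]
      split_ifs with y
      · rw [coeff_monomial, if_neg]
        intro z
        exact x (by rw [← ind_cancel y, z, ind_cancel s1])
      · rfl
  rw [coeff_sub, e1, coeff_kz, bd, sum_congr rfl fun i hi => by rw [e3 i hi]]
  by_cases x : α ∈ S
  · simp only [if_pos x]
    exact sub_eq_zero.2 (hb α (hd α x) τ e2 (e1 ▸ hN) hτ)
  · simp only [if_neg x, mul_zero, sum_const_zero, zero_sub, neg_eq_zero]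
    rw [← e1]
    exact notMem_support_iff.1 fun y => x (by
      simp only [hS, mem_biUnion, mem_image]; exact ⟨τ, mem_univ _, m, y, hα⟩)
end red

end Pool.Agent.H50.Tor
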