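import Mathlib
import Pool.Agent.H50.Tor1

namespace Pool.Agent.H50.Tor

open Finset MvPolynomial

variable {K : Type} [Field K] {n : ℕ}

structure Rk (r : Finset (Fin n) → ℕ) : Prop where
  mono : ∀ S T, S ⊆ T → r S ≤ r T
  ins : ∀ e S, r (insert e S) ≤ r S + 1
  irr : ∀ e S T, S ⊆ T → r (insert e S) ≤ r S → r (insert e T) ≤ r T

lemma Rk.er {r : Finset (Fin n) → ℕ} (h : Rk r) {e : Fin n} {Z : Finset (Fin n)}
    (he : r (insert e Z) ≤ r Z) (τ : Finset (Fin n)) : r (Z ∪ τ) ≤ r (Z ∪ τ.erase e) :=
  (h.mono _ _ fun i => by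
    simp only [mem_union, mem_insert, mem_erase]; tauto).trans
    (h.irr e Z (Z ∪ τ.erase e) subset_union_left he)

lemma game {r : Finset (Fin n) → ℕ} (h : Rk r) (t : ℕ) (E : Finset (Fin n)) :
    ∀ Z j, 1 ≤ j → t < r Z + j → Van K E (fun τ => t ≤ r (Z ∪ τ)) j := by
  induction E using Finset.induction_on with
  | empty =>
    intro Z j h1 _
    refine van_empty fun τ x y => ?_
    rw [subset_empty.1 x, card_empty] at y; omega
  | insert e E he ih =>
    intro Z j h1 h2
    by_cases a : t ≤ r Z
    · exact van_cone (mem_insert_self e E)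
        (fun τ _ _ => a.trans (h.mono _ _ subset_union_left)) j
    by_cases b : r (insert e Z) ≤ r Z
    · exact van_cone (mem_insert_self e E) (fun τ _ x => x.trans (h.er b τ)) j
    obtain ⟨j, rfl⟩ : ∃ i, j = i + 1 := ⟨j - 1, by omega⟩
    refine van_split he (fun τ _ x => x.trans (h.mono _ _
      (union_subset_union_right (subset_insert _ _)))) (ih Z _ h1 h2)
      ((ih (insert e Z) j (by omega) (by omega)).congr fun τ _ => ?_)
    rw [union_insert, insert_union]

lemma join {A : Finset (Fin n)} {P : Finset (Fin n) → Prop} {j : ℕ} (hP : Van K A P j)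
    (Y : Finset (Fin n)) : Disjoint A Y →
      Van K (A ∪ Y) (fun τ => P (τ ∩ A) ∧ (τ ∩ Y).Nonempty) (j + 1) := by
  induction Y using Finset.induction_on with
  | empty => intro _; exact van_empty fun τ _ _ x => by simp at x
  | insert y Y hy ih =>
    intro hd
    rw [disjoint_insert_right] at hd
    have hn : y ∉ A ∪ Y := by simp [hd.1, hy]
    rw [union_insert]
    refine van_split hn (fun τ _ x => ?_) ((ih hd.2).congr fun τ x => ?_) ?_
    · rw [insert_inter_of_notMem hd.1]
      exact ⟨x.1, y, by simp⟩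
    · rw [inter_insert_of_notMem fun w => hn (x w)]
    · rcases Y.eq_empty_or_nonempty with rfl | ⟨z, hz⟩
      · rw [union_empty]
        refine hP.congr fun τ x => ?_
        rw [insert_inter_of_notMem hd.1, inter_eq_left.2 x]
        exact ⟨fun w => w.1, fun w => ⟨w, y, by simp⟩⟩
      · refine van_cone (e := z) (by simp [hz]) (fun τ _ x => ⟨?_, y, by simp⟩) j
        have hz' : z ∉ A := fun w => disjoint_left.1 hd.2 w hz
        rw [insert_inter_of_notMem hd.1] at x ⊢
        rw [erase_inter, erase_eq_of_notMem fun w => hz' (mem_inter.1 w).2]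
        exact x.1

/-- the support condition for a monomial outside the second symbolic power -/
def Out (r : Finset (Fin n) → ℕ) (c : ℕ) (b : Fin n →₀ ℕ) : Prop :=
  c ≤ r (univ.filter fun i => b i = 0) + 1 ∧ c ≤ r (univ.filter fun i => b i ≤ 1)

lemma main {r : Finset (Fin n) → ℕ} (h : Rk r) {c s : ℕ} (h0 : r ∅ = 0)
    (hs : ∀ H, r H + 1 = c → (∀ e ∉ H, r H < r (insert e H)) → Hᶜ.card = s) :
    ∃ d, ∀ (α : Fin n →₀ ℕ) j, c ≤ j → ¬ (j = c ∧ α.degree = d) →
      Van K α.support (fun τ => Out r c (α - ind τ)) j := by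
  rcases Nat.eq_zero_or_pos c with rfl | hc
  · refine ⟨0, fun α j _ h2 => ?_⟩
    rcases α.support.eq_empty_or_nonempty with a | ⟨e, he⟩
    · refine van_empty fun τ x y _ => h2 ⟨?_, ?_⟩
      · rw [a, subset_empty] at x; rw [← y, x, card_empty]
      · rw [Finsupp.support_eq_empty.1 a, map_zero]
    · exact van_cone he (fun _ _ _ => ⟨Nat.zero_le _, Nat.zero_le _⟩) j
  refine ⟨(univ.filter fun i => r {i} ≠ 0).card + s, fun α j h1 h2 => ?_⟩
  set A0 : Finset (Fin n) := univ.filter fun i => α i = 0 with hA0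
  set A1 : Finset (Fin n) := univ.filter fun i => α i = 1 with hA1
  set A2 : Finset (Fin n) := univ.filter fun i => α i = 2 with hA2
  set H : Finset (Fin n) := univ.filter fun i => α i ≤ 1 with hH
  refine Van.congr (L := fun τ => c - 1 ≤ r (A0 ∪ τ ∩ A1) ∧ c ≤ r (H ∪ τ ∩ A2)) ?_ fun τ x => ?_
  swap
  · have e1 : (univ.filter fun i => (α - ind τ) i = 0) = A0 ∪ τ ∩ A1 := by
      ext i
      simp only [hA0, hA1, mem_filter, mem_univ, true_and, mem_union, mem_inter,
        Finsupp.tsub_apply, ind_ap]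
      split_ifs with y <;> simp only [y, true_and, false_and, or_false] <;> omega
    have e2 : (univ.filter fun i => (α - ind τ) i ≤ 1) = H ∪ τ ∩ A2 := by
      ext i
      simp only [hH, hA2, mem_filter, mem_univ, true_and, mem_union, mem_inter,
        Finsupp.tsub_apply, ind_ap]
      split_ifs with y <;> simp only [y, true_and, false_and, or_false] <;> omega
    rw [Out, e1, e2]
    exact and_congr_left fun _ => by omega
  have er : ∀ (τ A : Finset (Fin n)) e, e ∉ A → τ.erase e ∩ A = τ ∩ A := fun τ A e x => by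
    rw [erase_inter, erase_eq_of_notMem fun w => x (mem_inter.1 w).2]
  have sH : ∀ τ, A0 ∪ τ ∩ A1 ⊆ H := fun τ i => by
    simp only [hA0, hA1, hH, mem_filter, mem_univ, true_and, mem_union, mem_inter]; omega
  by_cases a3 : ∃ e, 3 ≤ α e
  · obtain ⟨e, he⟩ := a3
    refine van_cone (e := e) (by simp; omega) (fun τ _ x => ?_) j
    rwa [er τ A1 e (by simp [hA1]; omega), er τ A2 e (by simp [hA2]; omega)]
  have hE : α.support = A1 ∪ A2 := by
    ext i
    have : ¬ 3 ≤ α i := fun w => a3 ⟨i, w⟩
    simp only [hA1, hA2, mem_filter, mem_univ, true_and, mem_union, Finsupp.mem_support_iff]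
    omega
  have n21 : ∀ e ∈ A2, e ∉ A1 := fun e => by simp only [hA1, hA2, mem_filter]; omega
  rw [hE]
  by_cases b1 : ∃ e ∈ A1, r (insert e A0) ≤ r A0
  · obtain ⟨e, he, b1⟩ := b1
    refine van_cone (e := e) (mem_union_left _ he) (fun τ _ x => ?_) j
    rw [er τ A2 e fun w => n21 e w he, erase_inter]
    exact ⟨x.1.trans (h.er b1 _), x.2⟩
  by_cases b2 : ∃ e ∈ A2, r (insert e H) ≤ r H ∨ c ≤ r H
  · obtain ⟨e, he, b2⟩ := b2
    refine van_cone (e := e) (mem_union_right _ he) (fun τ _ x => ?_) j
    rw [er τ A1 e (n21 e he), erase_inter]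
    exact ⟨x.1, b2.elim (fun w => x.2.trans (h.er w _))
      fun w => w.trans (h.mono _ _ subset_union_left)⟩
  push Not at b1 b2
  by_cases b3 : r H + 1 < c
  · exact van_empty fun τ _ _ x => by have := h.mono _ _ (sH τ); omega
  rcases A2.eq_empty_or_nonempty with a | ⟨y, hy⟩
  · by_cases b4 : c ≤ r H
    · rw [a, union_empty]
      refine (game h (c - 1) A1 A0 j (by omega) (by omega)).congr fun τ x => ?_
      simp [inter_eq_left.2 x, b4]
    · exact van_empty fun τ _ _ x => by simp [a, b4] at x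
  have b4 : r H + 1 = c := by have := (b2 y hy).2; omega
  have cH : Hᶜ = A2 := by
    ext i
    have : ¬ 3 ≤ α i := fun w => a3 ⟨i, w⟩
    simp only [hH, hA2, mem_filter, mem_univ, true_and, mem_compl]
    omega
  have s0 : A0 ⊆ H := subset_union_left.trans (sH ∅)
  by_cases b5 : r A0 = 0 ∧ j = c
  · refine absurd ⟨b5.2, ?_⟩ h2
    have e1 : (univ.filter fun i => r {i} ≠ 0) = A1 ∪ A2 := by
      ext i
      simp only [mem_filter, mem_univ, true_and, mem_union]
      constructor
      · intro x
        rw [← mem_union, ← hE, Finsupp.mem_support_iff]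
        intro w
        have := h.mono {i} A0 (by simp [hA0, w])
        omega
      · intro x w
        have k : ∀ T, r (insert i T) ≤ r T := fun T =>
          h.irr i ∅ T (empty_subset _) (by simp [w])
        rcases x with x | x
        · exact absurd (b1 i x) (not_lt.2 (k _))
        · exact absurd (b2 i x).1 (not_lt.2 (k _))
    have dj : Disjoint A1 A2 := disjoint_right.2 n21
    rw [e1, ← hs H b4 fun e x => (b2 e (cH ▸ mem_compl.2 x)).1, cH, Finsupp.degree_apply, hE,
      sum_union dj, card_union_of_disjoint dj, sum_congr rfl fun i (x : i ∈ A1) => (mem_filter.1 x).2,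
      sum_congr rfl fun i (x : i ∈ A2) => (mem_filter.1 x).2]
    simp; ring
  obtain ⟨j, rfl⟩ : ∃ i, j = i + 1 := ⟨j - 1, by omega⟩
  have := h.mono _ _ s0
  refine (join (game h (c - 1) A1 A0 j (by omega) (by omega)) A2 (disjoint_right.2 n21)).congr
    fun τ _ => and_congr_right fun _ => ⟨fun x => ?_, fun ⟨e, x⟩ => ?_⟩
  · by_contra w
    rw [not_nonempty_iff_eq_empty.1 w, union_empty] at x
    omega
  · have := (b2 e (mem_inter.1 x).2).1
    have := h.mono (insert e H) (H ∪ τ ∩ A2) (insert_subset (mem_union_right _ x) subset_union_left)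
    omega

end Pool.Agent.H50.Tor
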