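import Mathlib
import Pool.Agent.H50.Tor1

namespace Pool.Agent.H50.Tor

open Finset MvPolynomial Pool.Agent.H50.Vreg RingTheory.Sequence

variable {K : Type} [Field K] {n : ℕ}

/-- `depth S / J = d`: `d` is the largest length of an `S / J`-regular sequence contained in the
ideal `(x_1, ..., x_n)`. -/
def HasDepth (J : Ideal (MvPolynomial (Fin n) K)) (d : ℕ) : Prop :=
  IsGreatest {l : ℕ | ∃ rs : List (MvPolynomial (Fin n) K),
    (∀ r ∈ rs, r ∈ Ideal.span (Set.range (X : Fin n → MvPolynomial (Fin n) K))) ∧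
    IsRegular (MvPolynomial (Fin n) K ⧸ J) rs ∧ rs.length = l} d

def KZ (J : Ideal (MvPolynomial (Fin n) K)) (j : ℕ) : Prop :=
  ∀ a : Finset (Fin n) → MvPolynomial (Fin n) K, (∀ ρ, ρ.card + 1 = j → kz a ρ ∈ J) →
    ∃ b : Finset (Fin n) → MvPolynomial (Fin n) K, ∀ τ, τ.card = j → kz b τ - a τ ∈ J

lemma sg_ins' {R : Type} [CommRing R] {ρ : Finset (Fin n)} {e : Fin n} (he : e ∉ ρ) (i : Fin n) :
    sg R (insert e ρ) i = (if e < i then -1 else 1) * sg R ρ i := by
  have := sg_erase (R := R) (mem_insert_self e ρ) i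
  rw [erase_insert he] at this
  rw [this]; split_ifs <;> ring

lemma kz_def (a : Finset (Fin n) → MvPolynomial (Fin n) K) (ρ : Finset (Fin n)) :
    kz a ρ = ∑ i ∈ ρᶜ, sg _ ρ i * X i * a (insert i ρ) := rfl

lemma kz_kz (c : Finset (Fin n) → MvPolynomial (Fin n) K) (ρ : Finset (Fin n)) :
    kz (kz c) ρ = 0 := by
  have h : kz (kz c) ρ = ∑ x ∈ ρᶜ ×ˢ ρᶜ, if x.2 = x.1 then 0 else
      sg _ ρ x.1 * X x.1 * (sg _ (insert x.1 ρ) x.2 * X x.2 * c (insert x.2 (insert x.1 ρ))) := by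
    rw [kz_def, sum_product]
    refine sum_congr rfl fun j hj => ?_
    rw [kz_def, mul_sum, ← add_sum_erase _ _ hj, compl_insert]
    simp only [if_true, zero_add]
    refine sum_congr rfl fun i hi => ?_
    rw [if_neg (ne_of_mem_erase hi)]
  rw [h]
  refine sum_involution (fun x _ => x.swap) ?_ ?_ ?_ ?_
  · rintro ⟨j, i⟩ hx
    obtain ⟨hj, hi⟩ := mem_product.1 hx
    by_cases hij : i = j
    · simp [hij]
    · simp only [Prod.swap, if_neg hij, if_neg (Ne.symm hij)]
      rw [insert_comm j i, sg_ins' (mem_compl.1 hj), sg_ins' (mem_compl.1 hi)]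
      rcases lt_or_gt_of_ne hij with h1 | h1
      · rw [if_pos h1, if_neg (not_lt.2 h1.le)]; ring
      · rw [if_pos h1, if_neg (not_lt.2 h1.le)]; ring
  · rintro ⟨j, i⟩ _ hx h2
    apply hx
    have : i = j := congrArg Prod.fst h2
    simp [this]
  · rintro ⟨j, i⟩ hx
    exact mem_product.2 ⟨(mem_product.1 hx).2, (mem_product.1 hx).1⟩
  · rintro ⟨j, i⟩ _; rfl

lemma kz_lin (y : MvPolynomial (Fin n) K) (a b : Finset (Fin n) → MvPolynomial (Fin n) K)
    (ρ : Finset (Fin n)) : kz (fun τ => a τ + y * b τ) ρ = kz a ρ + y * kz b ρ := by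
  simp only [kz_def, mul_sum, ← sum_add_distrib]
  exact sum_congr rfl fun i _ => by ring

lemma kz_mem {J : Ideal (MvPolynomial (Fin n) K)} {a : Finset (Fin n) → MvPolynomial (Fin n) K}
    {ρ : Finset (Fin n)} (h : ∀ τ, τ.card = ρ.card + 1 → a τ ∈ J) : kz a ρ ∈ J :=
  sum_mem fun i hi => J.mul_mem_left _ (h _ (card_insert_of_notMem (mem_compl.1 hi)))

lemma homot {J : Ideal (MvPolynomial (Fin n) K)} {j : ℕ}
    {a : Finset (Fin n) → MvPolynomial (Fin n) K} (ha : ∀ ρ, ρ.card + 1 = j → kz a ρ ∈ J)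
    {y : MvPolynomial (Fin n) K} (hy : y ∈ Ideal.span (Set.range X)) :
    ∃ b : Finset (Fin n) → MvPolynomial (Fin n) K, ∀ τ, τ.card = j → kz b τ - y * a τ ∈ J := by
  induction hy using Submodule.span_induction with
  | zero => exact ⟨0, fun τ _ => by simp [kz]⟩
  | add x y _ _ hx hy =>
    obtain ⟨b, hb⟩ := hx
    obtain ⟨c, hc⟩ := hy
    refine ⟨fun τ => b τ + 1 * c τ, fun τ h => ?_⟩
    rw [kz_lin]
    convert add_mem (hb τ h) (hc τ h) using 1; ring
  | smul r x _ hx =>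
    obtain ⟨b, hb⟩ := hx
    refine ⟨fun τ => (0 : Finset (Fin n) → _) τ + r * b τ, fun τ h => ?_⟩
    rw [kz_lin]
    convert J.mul_mem_left r (hb τ h) using 1
    simp [kz]; ring
  | mem x hx =>
    obtain ⟨e, rfl⟩ := hx
    refine ⟨fun τ => if e ∈ τ then sg _ τ e * a (τ.erase e) else 0, fun τ h => ?_⟩
    by_cases hτ : e ∈ τ
    · obtain ⟨ρ, hρ, rfl⟩ : ∃ ρ, e ∉ ρ ∧ τ = insert e ρ :=
        ⟨_, notMem_erase e τ, (insert_erase hτ).symm⟩
      have h4 := ha ρ (by rw [← h, card_insert_of_notMem hρ])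
      rw [kz_def, ← add_sum_erase _ _ (mem_compl.2 hρ), ← compl_insert] at h4
      have h5 : kz (fun τ => if e ∈ τ then sg _ τ e * a (τ.erase e) else 0) (insert e ρ) =
          -(sg _ ρ e * ∑ i ∈ (insert e ρ)ᶜ, sg _ ρ i * X i * a (insert i ρ)) := by
        rw [kz_def, mul_sum, ← sum_neg_distrib]
        refine sum_congr rfl fun i hi => ?_
        have a1 := mem_compl.1 hi
        have hie : i ≠ e := fun x => a1 (x ▸ mem_insert_self _ _)
        rw [if_pos (by simp), erase_insert_of_ne hie, erase_insert hρ, sg_ins' a1, sg_ins' hρ,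
          sg_ins' hρ, if_neg (lt_irrefl e)]
        rcases lt_or_gt_of_ne hie with h1 | h1
        · rw [if_pos h1, if_neg (not_lt.2 h1.le)]; ring
        · rw [if_pos h1, if_neg (not_lt.2 h1.le)]; ring
      rw [h5]
      convert J.mul_mem_left (-sg _ ρ e) h4 using 1
      linear_combination X e * a (insert e ρ) * sg_sq (R := MvPolynomial (Fin n) K) ρ e
    · rw [kz_def, ← add_sum_erase _ _ (mem_compl.2 hτ), if_pos (mem_insert_self _ _),
        erase_insert hτ, sg_ins' hτ, if_neg (lt_irrefl e), sum_eq_zero]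
      · convert J.zero_mem using 1
        linear_combination X e * a τ * sg_sq (R := MvPolynomial (Fin n) K) τ e
      · intro i hi
        rw [if_neg, mul_zero]
        simp only [mem_insert, not_or]
        exact ⟨(ne_of_mem_erase hi).symm, hτ⟩

lemma mem_sup_y {J : Ideal (MvPolynomial (Fin n) K)} {y f : MvPolynomial (Fin n) K} :
    f ∈ J ⊔ Ideal.span {y} ↔ ∃ g, f - y * g ∈ J := by
  rw [Submodule.mem_sup]
  constructor
  · rintro ⟨a, ha, b, hb, rfl⟩
    obtain ⟨g, rfl⟩ := Ideal.mem_span_singleton'.1 hb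
    exact ⟨g, by convert ha using 1; ring⟩
  · rintro ⟨g, hg⟩
    exact ⟨_, hg, y * g, Ideal.mul_mem_right _ _ (Ideal.mem_span_singleton_self y), by ring⟩

lemma kz_down {J : Ideal (MvPolynomial (Fin n) K)} {j : ℕ} {y : MvPolynomial (Fin n) K}
    (hy : y ∈ Ideal.span (Set.range X)) (hr : ∀ f, y * f ∈ J → f ∈ J)
    (h : KZ (J ⊔ Ideal.span {y}) (j + 1)) : KZ J j := by
  intro a ha
  obtain ⟨b, hb⟩ := homot ha hy
  obtain ⟨c, hc⟩ := h b fun ρ x => mem_sup_y.2 ⟨_, hb ρ (by omega)⟩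
  choose! g hg using fun τ x => mem_sup_y.1 (hc τ x)
  refine ⟨fun τ => -g τ, fun τ x => hr _ ?_⟩
  have h1 : kz (fun τ => (kz c τ + (-1) * b τ) + y * -g τ) τ ∈ J :=
    kz_mem fun σ z => by convert hg σ (by omega) using 1; ring
  rw [kz_lin, kz_lin, kz_kz] at h1
  convert add_mem h1 (hb τ x) using 1; ring

lemma kz_up {J : Ideal (MvPolynomial (Fin n) K)} {j : ℕ} {y : MvPolynomial (Fin n) K}
    (hr : ∀ f, y * f ∈ J → f ∈ J) (h1 : KZ J j) (h2 : KZ J (j + 1)) :
    KZ (J ⊔ Ideal.span {y}) (j + 1) := by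
  intro a ha
  choose! g hg using fun τ x => mem_sup_y.1 (ha τ x)
  obtain ⟨b, hb⟩ := h1 g fun ρ x => hr _ (by
    have h3 : kz (fun τ => kz a τ + (-y) * g τ) ρ ∈ J :=
      kz_mem fun σ z => by convert hg σ (by omega) using 1; ring
    rw [kz_lin, kz_kz] at h3
    convert neg_mem h3 using 1; ring)
  obtain ⟨c, hc⟩ := h2 (fun τ => a τ + (-y) * b τ) fun ρ x => by
    rw [kz_lin]
    convert sub_mem (hg ρ x) (J.mul_mem_left y (hb ρ (by omega))) using 1; ring
  exact ⟨c, fun τ x => mem_sup_y.2 ⟨-b τ, by convert hc τ x using 1; ring⟩⟩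

lemma reg_iff {R : Type} [CommRing R] (J : Ideal R) (y : R) :
    IsSMulRegular (R ⧸ J) y ↔ ∀ f, y * f ∈ J → f ∈ J := by
  rw [isSMulRegular_iff_right_eq_zero_of_smul]
  refine ⟨fun h f hf => Ideal.Quotient.eq_zero_iff_mem.1 (h (Ideal.Quotient.mk J f)
    (Ideal.Quotient.eq_zero_iff_mem.2 hf)), fun h m hm => ?_⟩
  obtain ⟨f, rfl⟩ := Ideal.Quotient.mk_surjective m
  exact Ideal.Quotient.eq_zero_iff_mem.2 (h f (Ideal.Quotient.eq_zero_iff_mem.1 hm))

open Pointwise in
lemma reg_cons {R : Type} [CommRing R] (J : Ideal R) (y : R) (rs : List R) :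
    IsRegular (R ⧸ J) (y :: rs) ↔
      (∀ f, y * f ∈ J → f ∈ J) ∧ IsRegular (R ⧸ (J ⊔ Ideal.span {y})) rs := by
  rw [isRegular_cons_iff, reg_iff]
  have e : (y • ⊤ : Submodule R (R ⧸ J)) = Submodule.map J.mkQ (Ideal.span {y}) := by
    rw [Ideal.span, Submodule.map_span, ← Submodule.ideal_span_singleton_smul]
    ext m
    obtain ⟨f, rfl⟩ := Ideal.Quotient.mk_surjective m
    rw [Submodule.ideal_span_singleton_smul, Submodule.mem_smul_pointwise_iff_exists,
      Set.image_singleton, Submodule.mem_span_singleton]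
    constructor
    · rintro ⟨m, -, hm⟩
      obtain ⟨g, rfl⟩ := Ideal.Quotient.mk_surjective m
      exact ⟨g, hm ▸ congrArg (Ideal.Quotient.mk J) (mul_comm g y)⟩
    · rintro ⟨g, hg⟩
      exact ⟨Ideal.Quotient.mk J g, trivial, hg ▸ congrArg (Ideal.Quotient.mk J) (mul_comm y g)⟩
  exact and_congr_right fun _ => ((Submodule.quotEquivOfEq _ _ e).trans
    (Submodule.quotientQuotientEquivQuotientSup J (Ideal.span {y}))).isRegular_congr rs

lemma kz_of_reg (rs : List (MvPolynomial (Fin n) K)) : ∀ (J : Ideal (MvPolynomial (Fin n) K)),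
    (∀ r ∈ rs, r ∈ Ideal.span (Set.range X)) → IsRegular (MvPolynomial (Fin n) K ⧸ J) rs →
      ∀ j, n < j + rs.length → KZ J j := by
  induction rs with
  | nil =>
    intro J _ _ j hj a _
    refine ⟨0, fun τ x => ?_⟩
    have := card_le_univ τ
    simp at this hj; omega
  | cons y rs ih =>
    intro J h1 h2 j hj
    rw [reg_cons] at h2
    exact kz_down (h1 y (by simp)) h2.1 (ih _ (fun r x => h1 r (by simp [x])) h2.2 _
      (by simp at hj; omega))

lemma vars_ne : Ideal.span (Set.range (X : Fin n → MvPolynomial (Fin n) K)) ≠ ⊤ := fun h => by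
  have : (1 : MvPolynomial (Fin n) K) ∈ Ideal.span (X '' Set.univ) := by
    rw [Set.image_univ, h]; trivial
  simpa using mem_ideal_span_X_image.1 this 0 (by simp)

lemma reg_of_kz (d : ℕ) : ∀ (J : Ideal (MvPolynomial (Fin n) K)),
    J ≤ Ideal.span (Set.range X) → d ≤ n → (∀ j, n < j + d → KZ J j) →
      ∃ rs : List (MvPolynomial (Fin n) K), (∀ r ∈ rs, r ∈ Ideal.span (Set.range X)) ∧
        IsRegular (MvPolynomial (Fin n) K ⧸ J) rs ∧ rs.length = d := by
  induction d with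
  | zero =>
    intro J h _ _
    have := Ideal.Quotient.nontrivial_iff.2 (ne_top_of_le_ne_top vars_ne h)
    exact ⟨[], by simp, IsRegular.nil _ _, rfl⟩
  | succ d ih =>
    intro J h1 h2 h3
    obtain ⟨y, hy, hr⟩ : ∃ y ∈ Ideal.span (Set.range X), ∀ f, y * f ∈ J → f ∈ J := by
      by_contra x
      have x1 : ((Ideal.span (Set.range X) : Ideal (MvPolynomial (Fin n) K)) :
          Set (MvPolynomial (Fin n) K)) ⊆
          ⋃ p ∈ associatedPrimes (MvPolynomial (Fin n) K) (MvPolynomial (Fin n) K ⧸ J), p := by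
        rw [biUnion_associatedPrimes_eq_zero_divisors]
        intro y hy
        by_contra z
        refine x ⟨y, hy, (reg_iff J y).1 (isSMulRegular_iff_right_eq_zero_of_smul.2 fun m w => ?_)⟩
        by_contra u
        exact z ⟨m, u, w⟩
      obtain ⟨p, hp, hle⟩ := (Ideal.subset_union_prime_finite (associatedPrimes.finite _ _)
        (f := id) 0 0 fun _ h _ _ => h.1).1 x1
      obtain ⟨hp, m, rfl⟩ := isAssociatedPrime_iff.1 hp
      obtain ⟨f, rfl⟩ := Ideal.Quotient.mk_surjective m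
      obtain ⟨b, hb⟩ := h3 n (by omega) (fun _ => f) fun ρ _ => sum_mem fun i _ => by
        rw [mul_assoc]
        refine J.mul_mem_left _ (Ideal.Quotient.eq_zero_iff_mem.1 ?_)
        exact Submodule.mem_colon_singleton.1 (hle (Ideal.subset_span ⟨i, rfl⟩))
      have := hb univ (by simp)
      rw [kz_def, compl_univ, sum_empty, zero_sub, neg_mem_iff] at this
      exact hp.ne_top (by simp [Ideal.Quotient.eq_zero_iff_mem.2 this])
    obtain ⟨rs, a1, a2, a3⟩ := ih (J ⊔ Ideal.span {y})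
      (sup_le h1 ((Ideal.span_singleton_le_iff_mem _).2 hy)) (by omega) fun j hj => by
        obtain ⟨j, rfl⟩ : ∃ i, j = i + 1 := ⟨j - 1, by omega⟩
        exact kz_up hr (h3 j (by omega)) (h3 _ (by omega))
    exact ⟨y :: rs, by simpa [hy] using a1, (reg_cons J y rs).2 ⟨hr, a2⟩, by simp [a3]⟩

/-- depth sensitivity of the Koszul complex -/
lemma depth_iff {J : Ideal (MvPolynomial (Fin n) K)} (h1 : J ≤ Ideal.span (Set.range X))
    {d j0 : ℕ} (h2 : j0 + d = n) (h0 : 1 ≤ j0) (h3 : ∀ j, j0 < j → KZ J j) :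
    HasDepth J d ↔ ¬ KZ J j0 := by
  constructor
  · intro h x
    have := h.2 (reg_of_kz (d + 1) J h1 (by omega) fun j hj => by
      rcases (by omega : j0 = j ∨ j0 < j) with rfl | y
      exacts [x, h3 j y])
    omega
  · refine fun h => ⟨reg_of_kz d J h1 (by omega) fun j hj => h3 j (by omega), ?_⟩
    rintro _ ⟨rs, a1, a2, rfl⟩
    by_contra x
    exact h (kz_of_reg rs J a1 a2 j0 (by omega))

end Pool.Agent.H50.Tor
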