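import Mathlib
import Pool.Agent.H50.Tor3

namespace Pool.Agent.H50.Tor

open Finset MvPolynomial Pool.Agent.H50.Vreg

variable {K : Type} [Field K] {n : ℕ}

lemma kz_of_van {J : Ideal (MvPolynomial (Fin n) K)} {NJ : (Fin n →₀ ℕ) → Prop}
    (hJ : ∀ f, f ∈ J ↔ ∀ m ∈ f.support, NJ m) {j : ℕ}
    (h : ∀ α : Fin n →₀ ℕ, Van K α.support (fun τ => ¬ NJ (α - ind τ)) j) : KZ J j := by
  classical
  intro a hc
  have hch : ∀ α : Fin n →₀ ℕ, ∃ b : Finset (Fin n) → K, ∀ τ ⊆ α.support,
      ¬ NJ (α - ind τ) → τ.card = j → bd α.support b τ = coeff (α - ind τ) (a τ) :=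
    fun α => h α _ fun ρ _ y z => by
      rw [← coeff_kz]
      exact notMem_support_iff.1 fun w => y ((hJ _).1 (hc ρ z) _ w)
  choose b hb using hch
  set S : Finset (Fin n →₀ ℕ) := univ.biUnion fun τ => (a τ).support.image (· + ind τ) with hS
  refine ⟨fun τ => ∑ α ∈ S, if τ ⊆ α.support then monomial (α - ind τ) (b α τ) else 0,
    fun τ hτ => ?_⟩
  rw [hJ]
  intro m hm
  by_contra hN
  refine mem_support_iff.1 hm ?_
  have e1 : m = m + ind τ - ind τ := (add_tsub_cancel_right _ _).symm
  have e2 : τ ⊆ (m + ind τ).support := fun i hi => by simp [ind_ap, hi]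
  generalize hα : m + ind τ = α at e1 e2
  have e3 : ∀ i ∈ α.support \ τ, coeff (α - ind (insert i τ))
      (∑ β ∈ S, if insert i τ ⊆ β.support then monomial (β - ind (insert i τ)) (b β (insert i τ))
        else 0) = if α ∈ S then b α (insert i τ) else 0 := fun i hi => by
    rw [mem_sdiff] at hi
    have s1 := insert_subset hi.1 e2
    rw [coeff_sum, ← sum_ite_eq' S α fun β => b β (insert i τ)]
    refine sum_congr rfl fun β _ => ?_
    by_cases x : β = α
    · simp [x, s1]
    · rw [if_neg x]
      split_ifs with y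
      · rw [coeff_monomial, if_neg]
        intro z
        exact x (by rw [← ind_cancel y, z, ind_cancel s1])
      · rfl
  rw [coeff_sub, e1, coeff_kz, bd, sum_congr rfl fun i hi => by rw [e3 i hi]]
  by_cases x : α ∈ S
  · simp only [if_pos x]
    exact sub_eq_zero.2 (hb α τ e2 (e1 ▸ hN) hτ)
  · simp only [if_neg x, mul_zero, sum_const_zero, zero_sub, neg_eq_zero]
    rw [← e1]
    exact notMem_support_iff.1 fun y => x (by
      simp only [hS, mem_biUnion, mem_image]; exact ⟨τ, mem_univ _, m, y, hα⟩)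

lemma van_of_kz {J : Ideal (MvPolynomial (Fin n) K)} {NJ : (Fin n →₀ ℕ) → Prop}
    (hJ : ∀ f, f ∈ J ↔ ∀ m ∈ f.support, NJ m) {j : ℕ} (h : KZ J j) (α : Fin n →₀ ℕ) :
    Van K α.support (fun τ => ¬ NJ (α - ind τ)) j := by
  classical
  intro c hc
  obtain ⟨b, hb⟩ := h (fun τ => if τ ⊆ α.support then monomial (α - ind τ) (c τ) else 0)
    fun ρ x => by
      by_cases s : ρ ⊆ α.support
      · have : kz (fun τ => if τ ⊆ α.support then monomial (α - ind τ) (c τ) else 0) ρ =
            monomial (α - ind ρ) (bd α.support c ρ) := by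
          rw [kz, bd, map_sum]
          symm
          refine sum_subset_zero_on_sdiff (fun i hi => mem_compl.2 (mem_sdiff.1 hi).2)
            (fun i hi => ?_) fun i hi => ?_
          · rw [if_neg, mul_zero]
            simp only [mem_sdiff, mem_compl] at hi
            exact fun w => hi.2 ⟨w (mem_insert_self _ _), hi.1⟩
          · rw [mem_sdiff] at hi
            have s1 := insert_subset hi.1 s
            have e1 : ((-1 : MvPolynomial (Fin n) K) ^ (ρ.filter (· < i)).card) =
              C (sg K ρ i) := by simp [sg]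
            rw [if_pos s1, e1, X, C_mul_monomial, monomial_mul, mul_one]
            congr 2
            ext k
            have := Finsupp.mem_support_iff.1 hi.1
            simp only [Finsupp.add_apply, Finsupp.tsub_apply, ind_ap, Finsupp.single_apply,
              mem_insert]
            by_cases y : i = k
            · subst y; simp [hi.2]; omega
            · simp [y, Ne.symm y]
        rw [this, hJ]
        intro m hm
        by_contra y
        have e := mem_singleton.1 (support_monomial_subset hm)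
        rw [hc ρ s (show ¬ NJ (α - ind ρ) from e ▸ y) x] at hm
        simp at hm
      · rw [kz, sum_eq_zero]
        · exact J.zero_mem
        · intro i _
          rw [if_neg fun w => s ((subset_insert _ _).trans w), mul_zero]
  refine ⟨fun τ => coeff (α - ind τ) (b τ), fun τ x y z => ?_⟩
  have := notMem_support_iff.1 fun w => y ((hJ _).1 (hb τ z) _ w)
  rw [coeff_sub, coeff_kz, if_pos x, coeff_monomial, if_pos rfl] at this
  exact sub_eq_zero.1 this

lemma van_true {E : Finset (Fin n)} {L : Finset (Fin n) → Prop} {j : ℕ} (he : E.Nonempty)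
    (h : ∀ ρ ⊆ E, ρ.card + 1 = j → L ρ) : Van K E L j := fun c hc => by
  obtain ⟨e, he⟩ := he
  obtain ⟨b, hb⟩ := van_cone (K := K) (L := fun _ => True) he (fun _ _ _ => trivial) j c
    fun ρ x _ y => hc ρ x (h ρ x y) y
  exact ⟨b, fun τ x _ y => hb τ x trivial y⟩

/-- the simplicial coboundary -/
def cob (a : Finset (Fin n) → K) (U : Finset (Fin n)) : K := ∑ j ∈ U, sg K U j * a (U.erase j)

def tw (c : Finset (Fin n) → K) (W : Finset (Fin n)) : K := (∏ i ∈ W, sg K univ i) * c Wᶜ

lemma tw_eq {c : Finset (Fin n) → K} {W : Finset (Fin n)} : tw c W = 0 ↔ c Wᶜ = 0 := by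
  rw [tw, mul_eq_zero, or_iff_right]
  exact prod_ne_zero_iff.2 fun i _ => left_ne_zero_of_mul_eq_one (sg_sq _ _)

lemma cob_tw (c : Finset (Fin n) → K) (U : Finset (Fin n)) :
    cob (tw c) U = tw (bd univ c) U := by
  rw [cob, tw, bd, ← compl_eq_univ_sdiff, compl_compl, mul_sum]
  refine sum_congr rfl fun j hj => ?_
  have e : sg K univ j = sg K U j * sg K Uᶜ j := by
    rw [sg, sg, sg, ← pow_add, ← card_union_of_disjoint, ← filter_union, union_compl]
    exact disjoint_filter_filter disjoint_compl_right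
  rw [tw, compl_erase, ← mul_prod_erase _ _ hj, e]
  linear_combination (-(sg K U j * (∏ i ∈ U.erase j, sg K univ i) * c (insert j Uᶜ))) *
    sg_sq (R := K) Uᶜ j

lemma tw_surj (a : Finset (Fin n) → K) : ∃ c, tw c = a := by
  refine ⟨fun τ => (∏ i ∈ τᶜ, sg K univ i) * a τᶜ, funext fun W => ?_⟩
  rw [tw, compl_compl, ← mul_assoc, ← prod_mul_distrib, prod_eq_one fun i _ => sg_sq _ _, one_mul]

/-- Hochster: the top strand vanishes iff no nonzero cocycle lives on the generators -/
lemma van_top {L : Finset (Fin n) → Prop} {j q : ℕ} (hn : j + q = n) (h0 : 0 < n)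
    (hL : ∀ τ, τ.card = j + 1 → L τ) : Van K univ L (j + 1) ↔
      ∀ d : Finset (Fin n) → K, (∀ U, cob d U = 0) → (∀ W, W.card = q → L Wᶜ → d W = 0) →
        ∀ W, W.card = q → d W = 0 := by
  have ne : (univ : Finset (Fin n)).Nonempty := ⟨⟨0, h0⟩, mem_univ _⟩
  have cc : ∀ W : Finset (Fin n), Wᶜ.card = n - W.card := fun W => by simp [card_compl]
  constructor
  · intro h d h1 h2 W hW
    obtain ⟨c0, rfl⟩ := tw_surj d
    obtain ⟨c, hc⟩ := van_true (K := K) (L := fun _ => True) (j := j) ne (fun _ _ _ => trivial) c0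
      fun ρ _ _ _ => by rw [← compl_compl ρ, ← tw_eq, ← cob_tw, h1]
    obtain ⟨b, hb⟩ := h c fun ρ x y z => by
      rw [hc ρ x trivial (by omega), ← compl_compl ρ, ← tw_eq]
      exact h2 _ (by rw [cc]; omega) (by rwa [compl_compl])
    have k : Wᶜ.card = j := by rw [cc]; omega
    rw [tw_eq, ← hc _ (subset_univ _) trivial k, ← bd_bd univ b Wᶜ]
    refine sum_congr rfl fun i hi => ?_
    have := card_insert_of_notMem (mem_sdiff.1 hi).2
    rw [hb _ (subset_univ _) (hL _ (by omega)) (by omega)]
  · intro h c hc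
    obtain ⟨b, hb⟩ := van_true (K := K) (L := fun _ => True) (j := j + 1) ne
      (fun _ _ _ => trivial) c fun ρ _ _ z => by
        rw [← compl_compl ρ, ← tw_eq]
        refine h _ (fun U => by rw [cob_tw, tw_eq, bd_bd]) (fun W x y => ?_) _ (by rw [cc]; omega)
        exact tw_eq.2 (hc _ (subset_univ _) y (by rw [cc]; omega))
    exact ⟨b, fun τ x _ y => hb τ x trivial y⟩

end Pool.Agent.H50.Tor
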