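import Mathlib
import Pool.Agent.H50.Tor4

namespace Pool.Agent.H50.Tor

open Finset MvPolynomial Pool.Agent.H50.Vreg Module

section defs
variable (K : Type) [Field K] {n : ℕ}

/-- Chains: coefficient vectors supported on the sets `τ ⊆ E` with `j` elements and `P τ`. -/
def ch (E : Finset (Fin n)) (P : Finset (Fin n) → Prop) (j : ℕ) :
    Submodule K (Finset (Fin n) → K) where
  carrier := {c | ∀ τ, ¬ (τ ⊆ E ∧ τ.card = j ∧ P τ) → c τ = 0}
  add_mem' ha hb τ h := by simp [ha τ h, hb τ h]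
  zero_mem' _ _ := rfl
  smul_mem' r _ ha τ h := by simp [ha τ h]

/-- The Koszul differential on coefficient vectors. -/
def dif (n : ℕ) : (Finset (Fin n) → K) →ₗ[K] (Finset (Fin n) → K) where
  toFun c ρ := ∑ i ∈ ρᶜ, (-1) ^ (ρ.filter (· < i)).card * c (insert i ρ)
  map_add' a b := by ext ρ; simp [mul_add, sum_add_distrib]
  map_smul' r a := by ext ρ; simp [mul_sum, mul_left_comm]

/-- dimension of cycles minus dimension of boundaries -/
noncomputable def hdim (E : Finset (Fin n)) (P : Finset (Fin n) → Prop) (j : ℕ) : ℕ :=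
  finrank K (ch K E P j ⊓ LinearMap.ker (dif K n) : Submodule K _) -
    finrank K ((ch K E P (j + 1)).map (dif K n))

variable {K}

/-- The multigraded Betti number `dim Tor_j (I, K)_α` of a monomial ideal: the homology of the
Koszul complex of `I` in multidegree `α`, which has the basis `x ^ (α - τ) e_τ` with
`τ ⊆ supp α` and `x ^ (α - τ) ∈ I`. -/
noncomputable def mbetti (I : Ideal (MvPolynomial (Fin n) K)) (j : ℕ) (α : Fin n →₀ ℕ) : ℕ :=
  hdim K α.support (fun τ => monomial (α - ind τ) 1 ∈ I) j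

/-- The total Betti number. -/
noncomputable def betti (I : Ideal (MvPolynomial (Fin n) K)) (j : ℕ) : ℕ := ∑ᶠ α, mbetti I j α

/-- The ideal generated by the monomials with exponents in `S`. -/
noncomputable def monI (K : Type) [Field K] (S : Set (Fin n →₀ ℕ)) :
    Ideal (MvPolynomial (Fin n) K) := Ideal.span ((fun s => monomial s (1 : K)) '' S)
end defs

variable {K : Type} [Field K] {n : ℕ} {E : Finset (Fin n)} {P : Finset (Fin n) → Prop}

lemma dif_eq {j : ℕ} {c : Finset (Fin n) → K} (hc : c ∈ ch K E P j) : dif K n c = bd E c := by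
  ext ρ
  refine (sum_subset_zero_on_sdiff (fun i hi => mem_compl.2 (mem_sdiff.1 hi).2) (fun i hi => ?_)
    fun _ _ => rfl).symm
  rw [hc, mul_zero]
  simp only [mem_sdiff, mem_compl] at hi
  exact fun w => hi.2 ⟨w.1 (mem_insert_self _ _), hi.1⟩

lemma map_le (hP : ∀ τ ⊆ E, P τ → ∀ i, P (τ.erase i)) (j : ℕ) :
    (ch K E P (j + 1)).map (dif K n) ≤ ch K E P j ⊓ LinearMap.ker (dif K n) := by
  rintro _ ⟨c, hc, rfl⟩
  have h : dif K n c ∈ ch K E P j := fun ρ x => sum_eq_zero fun i hi => by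
    have hi := mem_compl.1 hi
    rw [hc, mul_zero]
    rintro ⟨a, b, d⟩
    refine x ⟨(subset_insert _ _).trans a, ?_, erase_insert hi ▸ hP _ a d i⟩
    rw [card_insert_of_notMem hi] at b; omega
  refine ⟨h, ?_⟩
  change dif K n (dif K n c) = 0
  rw [dif_eq h, dif_eq hc]
  exact funext (bd_bd E c)

open Classical in
noncomputable def cut (E : Finset (Fin n)) (j : ℕ) (c : Finset (Fin n) → K) (τ : Finset (Fin n)) :
    K := if τ ⊆ E ∧ τ.card = j then c τ else 0

lemma bd_cut {j : ℕ} (c : Finset (Fin n) → K) {ρ : Finset (Fin n)} (h : ρ ⊆ E)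
    (hj : ρ.card + 1 = j) : bd E (cut E j c) ρ = bd E c ρ :=
  sum_congr rfl fun i hi => by
    rw [mem_sdiff] at hi
    rw [cut, if_pos ⟨insert_subset hi.1 h, by rw [card_insert_of_notMem hi.2, hj]⟩]

lemma hdim_iff (hP : ∀ τ ⊆ E, P τ → ∀ i, P (τ.erase i)) (h0 : E = ∅ → ¬ P ∅) (j : ℕ) :
    hdim K E P j = 0 ↔ Van K E (fun τ => ¬ P τ) (j + 1) := by
  have e : hdim K E P j = 0 ↔ ch K E P j ⊓ LinearMap.ker (dif K n) ≤
      (ch K E P (j + 1)).map (dif K n) :=
    ⟨fun h => (Submodule.eq_of_le_of_finrank_le (map_le hP j) (Nat.sub_eq_zero_iff_le.1 h)).ge,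
      fun h => Nat.sub_eq_zero_iff_le.2 (Submodule.finrank_mono h)⟩
  rw [e]
  rcases E.eq_empty_or_nonempty with rfl | ne
  · refine iff_of_true (fun c hc => ?_) (van_empty fun τ x y => ?_)
    · have : c = 0 := funext fun τ => hc.1 τ fun w => h0 rfl (subset_empty.1 w.1 ▸ w.2.2)
      rw [this]; exact zero_mem _
    · rw [subset_empty.1 x, card_empty] at y; omega
  have full := fun j => van_true (K := K) (L := fun _ => True) (j := j) ne fun _ _ _ => trivial
  constructor
  · intro h c hc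
    have m : cut E j (bd E c) ∈ ch K E P j := fun τ x => by
      rw [cut]
      split_ifs with y
      · exact hc τ y.1 (fun w => x ⟨y.1, y.2, w⟩) (by omega)
      · rfl
    obtain ⟨b', h1, h2⟩ := h ⟨m, by
      change dif K n _ = 0
      ext ρ
      by_cases y : ρ ⊆ E ∧ ρ.card + 1 = j
      · rw [dif_eq m, bd_cut _ y.1 y.2, bd_bd]; rfl
      · refine sum_eq_zero fun i hi => ?_
        rw [cut, if_neg, mul_zero]
        exact fun w => y ⟨(subset_insert _ _).trans w.1, by
          rw [← w.2, card_insert_of_notMem (mem_compl.1 hi)]⟩⟩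
    obtain ⟨b, hb⟩ := full (j + 1) (fun τ => c τ - b' τ) fun ρ x _ y => by
      have := congrFun h2 ρ
      rw [dif_eq h1, cut, if_pos ⟨x, by omega⟩] at this
      simp only [bd, mul_sub, sum_sub_distrib] at this ⊢
      rw [this, sub_self]
    exact ⟨b, fun τ x y z => by rw [hb τ x trivial z, h1 τ fun w => y w.2.2, sub_zero]⟩
  · rintro h c ⟨h1, h2⟩
    have h2 : bd E c = 0 := dif_eq h1 ▸ h2
    obtain ⟨b0, hb0⟩ := full j c fun ρ _ _ _ => congrFun h2 ρ
    obtain ⟨b1, hb1⟩ := h b0 fun ρ x y z => by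
      rw [hb0 ρ x trivial (by omega), h1 ρ fun w => y w.2.2]
    have m : cut E (j + 1) (fun τ => b0 τ - bd E b1 τ) ∈ ch K E P (j + 1) := fun τ x => by
      rw [cut]
      split_ifs with y
      · rw [hb1 τ y.1 (fun w => x ⟨y.1, y.2, w⟩) y.2, sub_self]
      · rfl
    refine ⟨_, m, funext fun ρ => ?_⟩
    by_cases y : ρ ⊆ E ∧ ρ.card = j
    · have := bd_bd E b1 ρ
      rw [dif_eq m, bd_cut _ y.1 (by omega), ← hb0 ρ y.1 trivial y.2]
      simp only [bd, mul_sub, sum_sub_distrib] at this ⊢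
      rw [this, sub_zero]
    · rw [h1 ρ fun w => y ⟨w.1, w.2.1⟩]
      exact (map_le hP j ⟨_, m, rfl⟩).1 ρ fun w => y ⟨w.1, w.2.1⟩

open Classical in
lemma rk_ch (j : ℕ) : finrank K (ch K E P j) =
    Fintype.card {τ : Finset (Fin n) // τ ⊆ E ∧ τ.card = j ∧ P τ} := by
  rw [← finrank_fintype_fun_eq_card K]
  refine (LinearEquiv.ofBijective ((LinearMap.funLeft K K Subtype.val).domRestrict _)
    ⟨fun a b h => Subtype.ext (funext fun τ => ?_), fun a => ?_⟩).finrank_eq
  · by_cases x : τ ⊆ E ∧ τ.card = j ∧ P τ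
    · exact congrFun h ⟨τ, x⟩
    · rw [a.2 τ x, b.2 τ x]
  · exact ⟨⟨fun τ => if x : τ ⊆ E ∧ τ.card = j ∧ P τ then a ⟨τ, x⟩ else 0, fun τ x => dif_neg x⟩,
      funext fun τ => dif_pos τ.2⟩

lemma rk_null (j : ℕ) : finrank K ((ch K E P j).map (dif K n)) +
    finrank K (ch K E P j ⊓ LinearMap.ker (dif K n) : Submodule K _) = finrank K (ch K E P j) := by
  rw [← LinearMap.finrank_range_add_finrank_ker ((dif K n).domRestrict (ch K E P j)),
    LinearMap.range_domRestrict, LinearMap.ker_domRestrict, ← Submodule.map_comap_subtype,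
    Submodule.finrank_map_subtype_eq]

lemma hdim_le (j : ℕ) : hdim K E P j ≤ 2 ^ n := by
  refine (Nat.sub_le _ _).trans ((Submodule.finrank_le _).trans ?_)
  simp

/-- homology in a single degree is independent of the field -/
lemma hdim_eq {K' : Type} [Field K'] (hP : ∀ τ ⊆ E, P τ → ∀ i, P (τ.erase i)) (j0 : ℕ)
    (h : ∀ j ≠ j0, hdim K E P j = 0) (h' : ∀ j ≠ j0, hdim K' E P j = 0) (j : ℕ) :
    hdim K E P j = hdim K' E P j := by
  by_cases x : j = j0
  swap
  · rw [h j x, h' j x]
  subst x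
  have c : ∀ i, finrank K (ch K E P i) = finrank K' (ch K' E P i) := fun i => by
    rw [rk_ch, rk_ch]
  have a1 := fun i => rk_null (K := K) (E := E) (P := P) i
  have a2 := fun i => rk_null (K := K') (E := E) (P := P) i
  have b1 := fun i => Submodule.finrank_mono (map_le (K := K) hP i)
  have b2 := fun i => Submodule.finrank_mono (map_le (K := K') hP i)
  have z : ∀ (F : Type) [Field F], (ch F E P 0).map (dif F n) = ⊥ := fun F _ => by
    rw [eq_bot_iff]
    rintro _ ⟨c, hc, rfl⟩
    exact funext fun ρ => sum_eq_zero fun i _ => by rw [hc, mul_zero]; simp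
  have up : ∀ i ≤ j, finrank K ((ch K E P i).map (dif K n)) =
      finrank K' ((ch K' E P i).map (dif K' n)) := fun i => by
    induction i with
    | zero => intro _; rw [z, z]; simp
    | succ i ih =>
      intro y
      have := ih (by omega)
      have := h i (by omega)
      have := h' i (by omega)
      have := a1 i; have := a2 i; have := b1 i; have := b2 i; have := c i
      unfold hdim at *; omega
  have t : ∀ (F : Type) [Field F] i, n < i → finrank F ((ch F E P i).map (dif F n)) = 0 :=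
    fun F _ i y => by
      have : ch F E P i = ⊥ := eq_bot_iff.2 fun c hc => funext fun τ => hc τ fun w => by
        have := card_le_univ τ
        rw [Fintype.card_fin] at this; omega
      rw [this]; simp
  have dn : ∀ d i, j < i → n < i + d → finrank K ((ch K E P i).map (dif K n)) =
      finrank K' ((ch K' E P i).map (dif K' n)) := fun d => by
    induction d with
    | zero => intro i _ y; rw [t K i y, t K' i y]
    | succ d ih =>
      intro i y w
      have := ih (i + 1) (by omega) (by omega)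
      have := h i (by omega)
      have := h' i (by omega)
      have := a1 i; have := a2 i; have := b1 i; have := b2 i; have := c i
      unfold hdim at *; omega
  have := up j le_rfl
  have := dn n (j + 1) (by omega) (by omega)
  have := a1 j; have := a2 j; have := c j
  unfold hdim; omega

open Pointwise in
lemma monI_pow (S : Set (Fin n →₀ ℕ)) (l : ℕ) : monI K S ^ l = monI K (l • S) := by
  induction l with
  | zero => simp [monI, ← Set.singleton_zero]
  | succ l ih =>
    rw [pow_succ, ih, succ_nsmul, monI, monI, monI, Ideal.span_mul_span']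
    congr 1
    ext g
    constructor
    · rintro ⟨_, ⟨a, ha, rfl⟩, _, ⟨b, hb, rfl⟩, rfl⟩
      exact ⟨_, Set.add_mem_add ha hb, by simp [monomial_mul]⟩
    · rintro ⟨_, ⟨a, ha, b, hb, rfl⟩, rfl⟩
      exact ⟨_, ⟨a, ha, rfl⟩, _, ⟨b, hb, rfl⟩, by simp [monomial_mul]⟩

lemma mem_monI (S : Set (Fin n →₀ ℕ)) (m : Fin n →₀ ℕ) :
    monomial m (1 : K) ∈ monI K S ↔ ∃ s ∈ S, s ≤ m := by
  classical
  rw [monI, mem_ideal_span_monomial_image, support_monomial]; simp

lemma up_erase {S : Set (Fin n →₀ ℕ)} (α : Fin n →₀ ℕ) (τ : Finset (Fin n))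
    (h : ∃ s ∈ S, s ≤ α - ind τ) (i : Fin n) : ∃ s ∈ S, s ≤ α - ind (τ.erase i) := by
  obtain ⟨s, a, b⟩ := h
  refine ⟨s, a, b.trans fun k => ?_⟩
  simp only [Finsupp.tsub_apply, ind_ap, mem_erase]
  split_ifs <;> first | omega | tauto

lemma mbetti_def (S : Set (Fin n →₀ ℕ)) (j : ℕ) (α : Fin n →₀ ℕ) :
    mbetti (monI K S) j α = hdim K α.support (fun τ => ∃ s ∈ S, s ≤ α - ind τ) j := by
  simp only [mbetti, mem_monI]

lemma mbetti_iff {S : Set (Fin n →₀ ℕ)} (h0 : 0 ∉ S) (j : ℕ) (α : Fin n →₀ ℕ) :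
    hdim K α.support (fun τ => ∃ s ∈ S, s ≤ α - ind τ) j = 0 ↔
      Van K α.support (fun τ => ¬ ∃ s ∈ S, s ≤ α - ind τ) (j + 1) :=
  hdim_iff (fun τ _ => up_erase α τ) (fun h ⟨s, a, b⟩ => h0 (by
    rw [Finsupp.support_eq_empty.1 h, zero_tsub, nonpos_iff_eq_zero] at b
    exact b ▸ a)) j

end Pool.Agent.H50.Tor
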