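import Mathlib
import Pool.Agent.H50.Tor5

namespace Pool.Agent.H50.Tor

open Finset MvPolynomial Pool.Agent.H50.Vreg Pointwise

section gen
variable {K : Type} [Field K] {n : ℕ} {E : Finset (Fin n)} {L : Finset (Fin n) → Prop}

lemma van_link {e : Fin n} (he : e ∉ E) {j : ℕ} (h : ∀ ρ ⊆ E, ¬ L ρ)
    (h1 : Van K (insert e E) L (j + 1)) : Van K E (fun σ => L (insert e σ)) j := by
  intro c hc
  set ε : Finset (Fin n) → K := fun σ => ∏ i ∈ σ, if e < i then -1 else 1 with hε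
  have sq : ∀ σ, ε σ * ε σ = 1 := fun σ => by
    rw [hε, ← prod_mul_distrib]; exact prod_eq_one fun i _ => by split_ifs <;> simp
  have tw : ∀ (a : Finset (Fin n) → K), ∀ σ ⊆ E,
      bd E (fun σ => ε σ * a (insert e σ)) σ = ε σ * bd (insert e E) a (insert e σ) := by
    intro a σ hσ
    rw [bd, bd, insert_sdiff_insert, sdiff_insert_of_notMem he, mul_sum]
    refine sum_congr rfl fun i hi => ?_
    rw [sg_ins fun x => he (hσ x), insert_comm, hε]
    simp only [prod_insert (mem_sdiff.1 hi).2]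
    ring
  obtain ⟨b, hb⟩ := h1 (fun τ => ε (τ.erase e) * c (τ.erase e)) fun ρ x y z => by
    have hρ : e ∈ ρ := by_contra fun w => h ρ ((subset_insert_iff_of_notMem w).1 x) y
    obtain ⟨σ, hσ, rfl⟩ : ∃ σ, e ∉ σ ∧ ρ = insert e σ :=
      ⟨_, notMem_erase e ρ, (insert_erase hρ).symm⟩
    have x' := (subset_insert_iff_of_notMem hσ).1 ((subset_insert _ _).trans x)
    have a1 := tw (fun τ => ε (τ.erase e) * c (τ.erase e)) σ x'
    have a2 : bd E (fun σ => ε σ * (ε ((insert e σ).erase e) * c ((insert e σ).erase e))) σ =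
        bd E c σ := sum_congr rfl fun i hi => by
      have : e ∉ insert i σ := fun w => he (insert_subset (mem_sdiff.1 hi).1 x' w)
      simp only [erase_insert this, ← mul_assoc (ε _), sq, one_mul]
    rw [a2, hc σ x' y (by rw [card_insert_of_notMem hσ] at z; omega)] at a1
    exact (mul_eq_zero.1 a1.symm).resolve_left (left_ne_zero_of_mul_eq_one (sq σ))
  refine ⟨fun σ => ε σ * b (insert e σ), fun σ x y z => ?_⟩
  have hσ : e ∉ σ := fun w => he (x w)
  rw [tw b σ x, hb _ (insert_subset_insert e x) y (by rw [card_insert_of_notMem hσ, z]),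
    erase_insert hσ, ← mul_assoc, sq, one_mul]

lemma split1 (e : Fin n) {j : ℕ} (hL : ∀ τ i, L τ → L (insert i τ)) (h1 : Van K (E.erase e) L j)
    (h2 : e ∈ E → ∀ i, i + 1 = j → Van K (E.erase e) (fun σ => L (insert e σ)) i) :
    Van K E L j := by
  by_cases he : e ∈ E
  · rcases j with _ | j
    · exact van_true ⟨e, he⟩ fun _ _ x => by omega
    · rw [← insert_erase he]
      exact van_split (notMem_erase e E) (fun τ _ => hL τ e) h1 (h2 he j rfl)
  · rwa [erase_eq_of_notMem he] at h1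

lemma van_via {j : ℕ} (ne : E.Nonempty) (h : ∀ d : Finset (Fin n) → K, (∀ ρ, bd E d ρ = 0) →
    (∀ ρ ⊆ E, L ρ → ρ.card + 1 = j → d ρ = 0) → ∀ ρ ⊆ E, ρ.card + 1 = j → d ρ = 0) :
    Van K E L j := fun c hc => by
  obtain ⟨b, hb⟩ := van_true (K := K) (L := fun _ => True) (j := j) ne (fun _ _ _ => trivial) c
    fun ρ x _ z => h _ (bd_bd E c) hc ρ x z
  exact ⟨b, fun τ x _ y => hb τ x trivial y⟩

lemma van_meet (ne : E.Nonempty) (F : Finset (Fin n)) (h : ∀ τ ⊆ E, L τ ↔ (τ ∩ F).Nonempty)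
    {j : ℕ} (hj : j ≠ 1) : Van K E L j := by
  by_cases x : E ⊆ F
  · refine van_true ne fun ρ y z => (h ρ y).2 ?_
    rw [inter_eq_left.2 (y.trans x), ← card_pos]; omega
  · obtain ⟨e, a, b⟩ := not_subset.1 x
    refine van_cone a (fun τ y z => (h _ ((erase_subset _ _).trans y)).2 ?_) j
    rw [erase_inter, erase_eq_of_notMem fun w => b (mem_inter.1 w).2]
    exact (h τ y).1 z

lemma up_sub (hL : ∀ τ i, L τ → L (insert i τ)) {σ τ : Finset (Fin n)} (h : σ ⊆ τ) (x : L σ) :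
    L τ := by
  rw [← sdiff_union_of_subset h]
  induction τ \ σ using Finset.induction_on with
  | empty => simpa using x
  | insert a s _ ih => rw [insert_union]; exact hL _ _ ih

lemma small (hL : ∀ τ i, L τ → L (insert i τ)) (hE : E.card ≤ 2) :
    ∃ j0, ∀ (K : Type) [Field K], ∀ j ≠ j0, Van K E L j := by
  rcases E.eq_empty_or_nonempty with rfl | ne
  · exact ⟨0, fun K _ j y => van_empty fun τ x z => by
      rw [subset_empty.1 x, card_empty] at z; omega⟩
  by_cases a : L ∅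
  · exact ⟨0, fun K _ j _ => van_true ne fun ρ _ _ => up_sub hL (empty_subset _) a⟩
  by_cases b : ∀ i ∈ E, L {i}
  · refine ⟨1, fun K _ j y => van_meet ne E (fun τ x => ?_) y⟩
    rw [inter_eq_left.2 x]
    exact ⟨fun z => nonempty_iff_ne_empty.2 fun w => a (w ▸ z),
      fun ⟨i, z⟩ => up_sub hL (singleton_subset_iff.2 z) (b i (x z))⟩
  push Not at b
  obtain ⟨i, hi, b⟩ := b
  by_cases c : ∃ k ∈ E, L {k}
  · obtain ⟨k, hk, c⟩ := c
    have ik : k ≠ i := fun w => b (w ▸ c)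
    refine ⟨0, fun K _ j _ => van_cone hi (fun τ x y => up_sub hL (singleton_subset_iff.2
      (mem_erase.2 ⟨ik, by_contra fun w => b (up_sub hL (fun m z => ?_) y)⟩)) c) j⟩
    have : E = {k, i} := (eq_of_subset_of_card_le (by simp [insert_subset_iff, hi, hk])
      (by rwa [card_pair ik])).symm
    have := this ▸ x z
    rw [mem_insert] at this
    exact this.resolve_left fun v => w (v ▸ z)
  · refine ⟨2, fun K _ j y => van_empty fun τ x z w => ?_⟩
    have := card_le_card x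
    rcases (by omega : τ.card = 0 ∨ τ.card = 1) with v | v
    · exact a (card_eq_zero.1 v ▸ w)
    · obtain ⟨k, rfl⟩ := card_eq_one.1 v
      exact c ⟨k, singleton_subset_iff.1 x, w⟩
end gen

section rp
def XX : Finset (Fin 8) := {0, 1, 2, 3, 4, 5}

def TT : Fin 10 → Finset (Fin 8) := ![{0, 1, 2}, {0, 2, 3}, {0, 3, 4}, {0, 4, 5}, {0, 1, 5},
  {1, 2, 4}, {2, 3, 5}, {1, 3, 4}, {2, 4, 5}, {1, 3, 5}]

lemma edge {d : Finset (Fin 8) → ℚ} (h1 : ∀ ρ, bd XX d ρ = 0)
    (h2 : ∀ ρ ⊆ XX, (¬ ∃ t, ρ ⊆ TT t) → ρ.card + 1 = 4 → d ρ = 0) (ρ : Finset (Fin 8))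
    (a b : Fin 8) (k l : Fin 10) (sa sb : ℕ)
    (h : a ∈ XX \ ρ ∧ b ∈ XX \ ρ ∧ a ≠ b ∧ insert a ρ = TT k ∧ insert b ρ = TT l ∧
      (ρ.filter (· < a)).card = sa ∧ (ρ.filter (· < b)).card = sb ∧ ∀ i ∈ XX \ ρ, i ≠ a ∧ i ≠ b →
        insert i ρ ⊆ XX ∧ (¬ ∃ t, insert i ρ ⊆ TT t) ∧ (insert i ρ).card + 1 = 4) :
    (-1) ^ sa * d (TT k) + (-1) ^ sb * d (TT l) = 0 := by
  obtain ⟨a1, a2, a3, a4, a5, a6, a7, a8⟩ := h
  have := h1 ρ
  rwa [bd, sum_eq_add_of_mem a b a1 a2 a3 fun i x y => by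
    rw [h2 _ (a8 i x y).1 (a8 i x y).2.1 (a8 i x y).2.2, mul_zero], sg, sg, a4, a5, a6, a7] at this

lemma vanQ : Van ℚ XX (fun τ => ¬ ∃ t, τ ⊆ TT t) 4 := by
  refine van_via ⟨0, by decide⟩ fun d h1 h2 ρ x y => ?_
  have k : ∀ t, d (TT t) = 0 := by
    have e0 := edge h1 h2 {0, 1} 2 5 0 4 2 2 (by decide)
    have e1 := edge h1 h2 {0, 2} 1 3 0 1 1 2 (by decide)
    have e2 := edge h1 h2 {0, 3} 2 4 1 2 1 2 (by decide)
    have e3 := edge h1 h2 {0, 4} 3 5 2 3 1 2 (by decide)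
    have e4 := edge h1 h2 {0, 5} 4 1 3 4 1 1 (by decide)
    have e5 := edge h1 h2 {1, 2} 0 4 0 5 0 2 (by decide)
    have e6 := edge h1 h2 {1, 3} 4 5 7 9 2 2 (by decide)
    have e7 := edge h1 h2 {1, 4} 2 3 5 7 1 1 (by decide)
    have e8 := edge h1 h2 {1, 5} 0 3 4 9 0 1 (by decide)
    have e9 := edge h1 h2 {2, 3} 0 5 1 6 0 2 (by decide)
    have e10 := edge h1 h2 {2, 4} 1 5 5 8 0 2 (by decide)
    have e11 := edge h1 h2 {2, 5} 3 4 6 8 1 1 (by decide)
    have e12 := edge h1 h2 {3, 4} 0 1 2 7 0 0 (by decide)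
    norm_num at e12 e0 e1 e2 e3 e4 e5 e6 e7 e8 e9 e10 e11
    have k0 : d (TT 0) = 0 := by linarith
    have k1 : d (TT 1) = 0 := by linarith
    have k2 : d (TT 2) = 0 := by linarith
    have k3 : d (TT 3) = 0 := by linarith
    have k4 : d (TT 4) = 0 := by linarith
    have k5 : d (TT 5) = 0 := by linarith
    have k6 : d (TT 6) = 0 := by linarith
    have k7 : d (TT 7) = 0 := by linarith
    have k8 : d (TT 8) = 0 := by linarith
    have k9 : d (TT 9) = 0 := by linarith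
    intro t
    fin_cases t
    exacts [k0, k1, k2, k3, k4, k5, k6, k7, k8, k9]
  by_cases z : ∃ t, ρ ⊆ TT t
  · obtain ⟨t, z⟩ := z
    have : ∀ t, (TT t).card = 3 := by decide
    rw [eq_of_subset_of_card_le z (by rw [this]; omega), k]
  · exact h2 ρ x z y

lemma nvan2 : ¬ Van (ZMod 2) XX (fun τ => ¬ ∃ t, τ ⊆ TT t) 4 := by
  intro h
  have a : ∀ ρ ⊆ XX, ρ.card + 1 = 3 → ∑ i ∈ XX \ ρ, (-1 : ZMod 2) ^ (ρ.filter (· < i)).card *
      (if ∃ t, insert i ρ ⊆ TT t then 1 else 0) = 0 := by decide +kernel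
  obtain ⟨c, hc⟩ := van_true (K := ZMod 2) (E := XX) (L := fun _ => True) (j := 3) ⟨0, by decide⟩
    (fun _ _ _ => trivial) (fun τ => if ∃ t, τ ⊆ TT t then 1 else 0) fun ρ x _ y => a ρ x y
  obtain ⟨b, hb⟩ := h c fun ρ x y z => by rw [hc ρ x trivial (by omega)]; exact if_neg y
  have k := hc (TT 0) (by decide) trivial (by decide)
  have e : ∀ i ∈ XX \ TT 0, insert i (TT 0) ⊆ XX ∧ (¬ ∃ t, insert i (TT 0) ⊆ TT t) ∧
    (insert i (TT 0)).card = 4 := by decide
  rw [bd, sum_congr rfl fun i x => by rw [← hb _ (e i x).1 (e i x).2.1 (e i x).2.2], ← bd, bd_bd,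
    if_pos ⟨0, subset_rfl⟩] at k
  exact zero_ne_one k

lemma dep {L : Finset (Fin 8) → Prop} (h : ∀ τ, L τ ↔ 6 ∈ τ ∧ 7 ∈ τ ∧ ¬ ∃ t, τ ∩ XX ⊆ TT t) :
    Van ℚ univ L 6 ∧ ¬ Van (ZMod 2) univ L 6 := by
  have e : (univ : Finset (Fin 8)) = insert 6 (insert 7 XX) := by decide
  have a6 : (6 : Fin 8) ∉ insert 7 XX := by decide
  have a7 : (7 : Fin 8) ∉ XX := by decide
  have b6 : ∀ ρ ⊆ insert 7 XX, ¬ L ρ := fun ρ x y => a6 (x ((h ρ).1 y).1)
  have b7 : ∀ ρ ⊆ XX, ¬ L (insert 6 ρ) := fun ρ x y =>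
    (mem_insert.1 ((h _).1 y).2.1).elim (by decide) fun w => a7 (x w)
  have c : ∀ ρ ⊆ XX, L (insert 6 (insert 7 ρ)) ↔ ¬ ∃ t, ρ ⊆ TT t := fun ρ x => by
    rw [h, insert_inter_of_notMem fun w => a6 (mem_insert_of_mem w), insert_inter_of_notMem a7,
      inter_eq_left.2 x]
    simp
  rw [e]
  exact ⟨van_split a6 (fun τ x y => absurd y (b6 τ x)) (van_empty fun τ x _ => b6 τ x)
    (van_split a7 (fun τ x y => absurd y (b7 τ x)) (van_empty fun τ x _ => b7 τ x) (vanQ.congr c)),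
    fun x => nvan2 ((van_link a7 b7 (van_link a6 b6 x)).congr fun τ y => (c τ y).symm)⟩
end rp

section pos
def yd (m : Fin 8 →₀ ℕ) : ℕ := m 6 + m 7

/-- `G` together with all monomials of degree `D + 1` in the last two variables -/
def SS (D : ℕ) (G : Set (Fin 8 →₀ ℕ)) : Set (Fin 8 →₀ ℕ) :=
  G ∪ (fun a => Finsupp.single 6 a + Finsupp.single 7 (D + 1 - a)) '' Set.Iic (D + 1)

variable {D : ℕ} {G : Set (Fin 8 →₀ ℕ)}

lemma yd_ns (hG : ∀ g ∈ G, yd g = D) (l : ℕ) : ∀ g ∈ l • G, yd g = l * D := by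
  induction l with
  | zero => intro g x; rw [zero_nsmul, Set.mem_zero] at x; simp [x, yd]
  | succ l ih =>
    rw [succ_nsmul]
    rintro _ ⟨a, ha, b, hb, rfl⟩
    have := ih a ha
    have := hG b hb
    simp only [yd, Finsupp.add_apply] at *
    rw [add_mul]; omega

lemma pos_iff (hG : ∀ g ∈ G, yd g = D) (hp : Finsupp.single 6 D ∈ G) (hq : Finsupp.single 7 D ∈ G)
    (l : ℕ) (m : Fin 8 →₀ ℕ) : (∃ s ∈ (l + 1) • SS D G, s ≤ m) ↔
      (l + 1) * D < yd m ∨ ∃ g ∈ (l + 1) • G, g ≤ m := by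
  constructor
  · rintro ⟨s, hs, h⟩
    have k : ∀ l, ∀ s ∈ l • SS D G, l * D < yd s ∨ s ∈ l • G := fun l => by
      induction l with
      | zero => intro s x; right; simpa using x
      | succ l ih =>
        rw [succ_nsmul, succ_nsmul]
        rintro _ ⟨a, ha, b, hb, rfl⟩
        have a1 : l * D ≤ yd a := (ih a ha).elim le_of_lt fun x => (yd_ns hG l a x).ge
        have e : yd (a + b) = yd a + yd b := by simp only [yd, Finsupp.add_apply]; omega
        rcases hb with hb | ⟨c, hc, rfl⟩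
        · refine (ih a ha).imp (fun x => ?_) fun x => Set.add_mem_add x hb
          rw [e, hG b hb, add_mul]; omega
        · left
          rw [e, add_mul]
          have := Set.mem_Iic.1 hc
          simp [yd] at a1 ⊢; omega
    refine (k _ s hs).imp (fun x => x.trans_le (add_le_add (h 6) (h 7))) fun x => ⟨s, x, h⟩
  · rintro (h | ⟨g, x, h⟩)
    swap
    · exact ⟨g, Set.nsmul_subset_nsmul_left Set.subset_union_left x, h⟩
    induction l generalizing m with
    | zero =>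
      refine ⟨_, by rw [zero_add, one_nsmul]; exact Or.inr ⟨min (m 6) (D + 1), by simp, rfl⟩,
        fun i => ?_⟩
      simp only [yd, Finsupp.add_apply, Finsupp.single_apply] at h ⊢
      split_ifs with a b b <;> subst_vars <;> omega
    | succ l ih =>
      obtain ⟨i, a, b, c⟩ : ∃ i, Finsupp.single i D ∈ G ∧ D ≤ m i ∧
          yd (m - Finsupp.single i D) + D = yd m := by
        have : 2 * D ≤ (l + 1 + 1) * D := Nat.mul_le_mul_right _ (by omega)
        by_cases x : D ≤ m 6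
        · exact ⟨6, hp, x, by simp [yd]; omega⟩
        · exact ⟨7, hq, by unfold yd at h; omega, by simp [yd] at h ⊢; omega⟩
      obtain ⟨s, d, e⟩ := ih (m - Finsupp.single i D) (by rw [add_mul (l + 1)] at h; omega)
      refine ⟨s + Finsupp.single i D, by rw [succ_nsmul]; exact Set.add_mem_add d (Or.inl a), ?_⟩
      exact (le_tsub_iff_right (Finsupp.single_le_iff.2 b)).1 e

/-- the strand condition -/
def LL (N : ℕ) (U : Set (Fin 8 →₀ ℕ)) (α : Fin 8 →₀ ℕ) (τ : Finset (Fin 8)) : Prop :=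
  ¬ (N < yd (α - ind τ) ∨ ∃ g ∈ U, g ≤ α - ind τ)

lemma ind_mono (α : Fin 8 →₀ ℕ) {σ τ : Finset (Fin 8)} (h : σ ⊆ τ) : α - ind τ ≤ α - ind σ :=
  fun k => by
    have := @h k
    simp only [Finsupp.tsub_apply, ind_ap]
    split_ifs <;> first | omega | tauto

lemma LL_up {N : ℕ} {U : Set (Fin 8 →₀ ℕ)} {α : Fin 8 →₀ ℕ} (τ : Finset (Fin 8)) (i : Fin 8)
    (h : LL N U α τ) : LL N U α (insert i τ) := fun x => h (x.imp
  (fun y => y.trans_le (add_le_add (ind_mono α (subset_insert i τ) 6)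
    (ind_mono α (subset_insert i τ) 7))) fun ⟨g, a, b⟩ =>
      ⟨g, a, b.trans (ind_mono α (subset_insert i τ))⟩)

lemma mb_iff {K : Type} [Field K] (hD : 0 < D) (hG : ∀ g ∈ G, yd g = D)
    (hp : Finsupp.single 6 D ∈ G) (hq : Finsupp.single 7 D ∈ G) (l j : ℕ) (α : Fin 8 →₀ ℕ) :
    hdim K α.support (fun τ => ∃ s ∈ (l + 1) • SS D G, s ≤ α - ind τ) j = 0 ↔
      Van K α.support (LL ((l + 1) * D) ((l + 1) • G) α) (j + 1) := by
  rw [mbetti_iff]
  · simp only [pos_iff hG hp hq]; rfl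
  · intro x
    rcases (pos_iff hG hp hq l 0).1 ⟨0, x, le_rfl⟩ with y | ⟨g, a, b⟩
    · simp [yd] at y
    · have := yd_ns hG _ g a
      rw [nonpos_iff_eq_zero.1 b] at this
      simp [yd] at this; omega

lemma split2 {K : Type} [Field K] {N : ℕ} {U : Set (Fin 8 →₀ ℕ)} {α : Fin 8 →₀ ℕ} {j : ℕ}
    (h : ∀ s ⊆ α.support ∩ {6, 7}, ∀ i, i + s.card = j →
      Van K ((α.support.erase 6).erase 7) (fun τ => LL N U α (s ∪ τ)) i) :
    Van K α.support (LL N U α) j := by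
  refine split1 6 LL_up (split1 7 LL_up (by simpa using h ∅ (by simp) j rfl) fun a i b => ?_)
    fun a i b => split1 7 (fun τ k x => insert_comm 6 k τ ▸ LL_up _ _ x) ?_ fun c k d => ?_
  · exact h {7} (by simp [(mem_erase.1 a).2, -Finsupp.mem_support_iff]) i b
  · exact h {6} (by simp [a, -Finsupp.mem_support_iff]) i b
  · simpa [insert_union] using h {6, 7} (by
      simp [insert_subset_iff, a, (mem_erase.1 c).2, -Finsupp.mem_support_iff]) k (by simp; omega)

lemma yd_s {α : Fin 8 →₀ ℕ} {s τ : Finset (Fin 8)} (hs : s ⊆ α.support ∩ {6, 7})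
    (hτ : τ ⊆ (α.support.erase 6).erase 7) : (α - ind (s ∪ τ)) 6 = (α - ind s) 6 ∧
      (α - ind (s ∪ τ)) 7 = (α - ind s) 7 ∧ yd (α - ind s) + s.card = yd α := by
  have a : (6 : Fin 8) ∉ τ := fun x => by simpa using hτ x
  have b : (7 : Fin 8) ∉ τ := fun x => by simpa using hτ x
  refine ⟨by simp [ind_ap, a], by simp [ind_ap, b], ?_⟩
  have c : s.card = (if 6 ∈ s then 1 else 0) + if 7 ∈ s then 1 else 0 := by
    have : ∀ s ⊆ ({6, 7} : Finset (Fin 8)),
      s.card = (if 6 ∈ s then 1 else 0) + if 7 ∈ s then 1 else 0 := by decide +kernel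
    exact this s (hs.trans inter_subset_right)
  have d := fun i (x : i ∈ s) => Finsupp.mem_support_iff.1 (mem_inter.1 (hs x)).1
  have d6 := d 6
  have d7 := d 7
  simp only [yd, Finsupp.tsub_apply, ind_ap, c]
  split_ifs with x y y <;> simp only [x, y, forall_true_left] at d6 d7 <;> omega
end pos

end Pool.Agent.H50.Tor
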