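import Mathlib
import Pool.Agent.H50.Tor6

namespace Pool.Agent.H50.Tor

open Finset MvPolynomial Pool.Agent.H50.Vreg Pointwise

noncomputable def gg (D a : ℕ) (x : Fin 8 →₀ ℕ) : Fin 8 →₀ ℕ :=
  Finsupp.single 6 a + Finsupp.single 7 (D - a) + x

noncomputable def jj (t : Fin 10) : Fin 8 →₀ ℕ := ind (XX \ TT t)

lemma jj6 (t : Fin 10) : jj t 6 = 0 := by
  rw [jj, ind_ap, if_neg fun x => by simpa [XX] using (mem_sdiff.1 x).1]

lemma jj7 (t : Fin 10) : jj t 7 = 0 := by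
  rw [jj, ind_ap, if_neg fun x => by simpa [XX] using (mem_sdiff.1 x).1]

lemma jj_le (t : Fin 10) (i : Fin 8) : jj t i ≤ 1 := by rw [jj, ind_ap]; split_ifs <;> omega

lemma gg6 (D a : ℕ) {x : Fin 8 →₀ ℕ} (h : x 6 = 0) : gg D a x 6 = a := by simp [gg, h]

lemma gg_yd {D a : ℕ} {x : Fin 8 →₀ ℕ} (h : x 6 = 0) (h' : x 7 = 0) (ha : a ≤ D) :
    yd (gg D a x) = D := by simp [gg, yd, h, h']; omega

lemma gg_add {D a D' a' : ℕ} (x y : Fin 8 →₀ ℕ) (ha : a ≤ D) (ha' : a' ≤ D') :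
    gg D a x + gg D' a' y = gg (D + D') (a + a') (x + y) := by
  rw [gg, gg, gg, show D + D' - (a + a') = D - a + (D' - a') by omega, Finsupp.single_add,
    Finsupp.single_add]
  abel

lemma gg_le {N : ℕ} {x β : Fin 8 →₀ ℕ} (h : x 6 = 0) (h' : x 7 = 0) (hy : yd β = N) (hx : x ≤ β) :
    gg N (β 6) x ≤ β := fun i => by
  have := hx i
  simp only [gg, yd, Finsupp.add_apply, Finsupp.single_apply] at *
  split_ifs with a b b <;> subst_vars <;> omega

lemma le_er {x α : Fin 8 →₀ ℕ} {i : Fin 8} {τ : Finset (Fin 8)} (h : x i < α i)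
    (hx : x ≤ α - ind (τ.erase i)) : x ≤ α - ind τ := fun k => by
  have := hx k
  simp only [Finsupp.tsub_apply, ind_ap, mem_erase] at this ⊢
  by_cases y : k = i
  · subst y; split_ifs <;> omega
  · simpa [y] using this

lemma xx_iff {i : Fin 8} : i ∈ XX ↔ i ≠ 6 ∧ i ≠ 7 := by revert i; decide

lemma dep' {N a : ℕ} {U : Set (Fin 8 →₀ ℕ)} (ha : a ≤ N)
    (h : ∀ β, yd β = N → β 6 = a → ((∃ g ∈ U, g ≤ β) ↔ ∃ t, jj t ≤ β)) :
    Van ℚ (gg (N + 2) (a + 1) (ind XX)).support (LL N U (gg (N + 2) (a + 1) (ind XX))) 6 ∧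
    ¬ Van (ZMod 2) (gg (N + 2) (a + 1) (ind XX)).support
      (LL N U (gg (N + 2) (a + 1) (ind XX))) 6 := by
  set α := gg (N + 2) (a + 1) (ind XX) with hα
  have a6 : α 6 = a + 1 := gg6 _ _ (by simp [ind_ap, xx_iff])
  have a7 : α 7 = N - a + 1 := by simp [hα, gg, ind_ap, xx_iff]; omega
  have ax : ∀ i ∈ XX, α i = 1 := fun i x => by
    simp [hα, gg, ind_ap, x, Finsupp.single_apply, (xx_iff.1 x).1.symm, (xx_iff.1 x).2.symm]
  have e : α.support = univ := eq_univ_of_forall fun i => by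
    rw [Finsupp.mem_support_iff]
    by_cases x : i ∈ XX
    · rw [ax i x]; omega
    · rw [xx_iff] at x
      rcases (by tauto : i = 6 ∨ i = 7) with rfl | rfl <;> omega
  rw [e]
  refine dep fun τ => ?_
  have y : yd (α - ind τ) = a + 1 - (if 6 ∈ τ then 1 else 0) +
    (N - a + 1 - if 7 ∈ τ then 1 else 0) := by simp only [yd, Finsupp.tsub_apply, ind_ap, a6, a7]
  by_cases x : 6 ∈ τ ∧ 7 ∈ τ
  · rw [if_pos x.1, if_pos x.2] at y
    rw [LL, h _ (by omega) (by simp [ind_ap, a6, x.1]), not_or, and_iff_right (by omega),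
      and_iff_right x.1, and_iff_right x.2]
    refine not_congr (exists_congr fun t => ⟨fun z i w => by_contra fun v => ?_, fun z i => ?_⟩)
    · have := z i
      rw [mem_inter] at w
      simp [jj, ind_ap, w.1, w.2, v, ax i w.2] at this
    · simp only [jj, ind_ap, Finsupp.tsub_apply, mem_sdiff]
      split_ifs with v w
      · exact absurd (z (mem_inter.2 ⟨w, v.1⟩)) v.2
      · rw [ax i v.1]
      all_goals omega
  · refine iff_of_false (fun z => z (Or.inl ?_)) fun z => x ⟨z.1, z.2.1⟩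
    rw [y]; split_ifs <;> first | omega | tauto

end Pool.Agent.H50.Tor
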