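import Mathlib
import Pool.Agent.H50.Tor5

namespace Pool.Agent.H50.Tor

open Finset MvPolynomial Pool.Agent.H50.Vreg Module

section defs
variable {K : Type} [Field K] {n : ℕ}

/-- The Koszul differential on `x_1, ..., x_n`; `a τ` is the coefficient of `e_τ`. -/
noncomputable def kzL (K : Type) [Field K] (n : ℕ) : (Finset (Fin n) → MvPolynomial (Fin n) K) →ₗ[K]
    (Finset (Fin n) → MvPolynomial (Fin n) K) where
  toFun a ρ := ∑ i ∈ ρᶜ, (-1) ^ (ρ.filter (· < i)).card * X i * a (insert i ρ)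
  map_add' a b := by ext1 ρ; simp [mul_add, sum_add_distrib]
  map_smul' r a := by ext1 ρ; simp [smul_sum]

/-- The multidegree `α` part of the `j`-th term of the Koszul complex of the module `I`: sums
`∑ a_τ e_τ` with `#τ = j`, `a_τ ∈ I` and every monomial `x ^ m e_τ` of multidegree `α`. -/
def kc (I : Ideal (MvPolynomial (Fin n) K)) (j : ℕ) (α : Fin n →₀ ℕ) :
    Submodule K (Finset (Fin n) → MvPolynomial (Fin n) K) where
  carrier := {a | ∀ τ, a τ ∈ I ∧ (τ.card ≠ j → a τ = 0) ∧
    ∀ m, m + ∑ i ∈ τ, Finsupp.single i 1 ≠ α → coeff m (a τ) = 0}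
  add_mem' ha hb τ := ⟨add_mem (ha τ).1 (hb τ).1, fun h => by simp [(ha τ).2.1 h, (hb τ).2.1 h],
    fun m h => by simp [(ha τ).2.2 m h, (hb τ).2.2 m h]⟩
  zero_mem' _ := ⟨zero_mem _, fun _ => rfl, fun _ _ => rfl⟩
  smul_mem' r _ ha τ := ⟨Submodule.smul_of_tower_mem I r (ha τ).1,
    fun h => by simp [(ha τ).2.1 h], fun m h => by simp [(ha τ).2.2 m h]⟩

/-- The multigraded Betti number `dim Tor_j (I, K)_α`: cycles modulo boundaries in the Koszul
complex of `I`. -/
noncomputable def kbetti (I : Ideal (MvPolynomial (Fin n) K)) (j : ℕ) (α : Fin n →₀ ℕ) : ℕ :=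
  finrank K (kc I j α ⊓ LinearMap.ker (kzL K n) : Submodule K _) -
    finrank K ((kc I (j + 1) α).map (kzL K n))

/-- The total Betti number `dim Tor_j (I, K)`. -/
noncomputable def tbetti (I : Ideal (MvPolynomial (Fin n) K)) (j : ℕ) : ℕ := ∑ᶠ α, kbetti I j α
end defs

variable {K : Type} [Field K] {n : ℕ}

noncomputable def Ph (α : Fin n →₀ ℕ) : (Finset (Fin n) → K) →ₗ[K]
    (Finset (Fin n) → MvPolynomial (Fin n) K) where
  toFun c τ := if τ ⊆ α.support then monomial (α - ind τ) (c τ) else 0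
  map_add' a b := by ext1 τ; simp only [Pi.add_apply]; split_ifs <;> simp
  map_smul' r a := by
    ext1 τ; simp only [Pi.smul_apply, RingHom.id_apply]; split_ifs <;> simp [smul_monomial]

lemma Ph_ap (α : Fin n →₀ ℕ) (c : Finset (Fin n) → K) (τ : Finset (Fin n)) :
    Ph α c τ = if τ ⊆ α.support then monomial (α - ind τ) (c τ) else 0 := rfl

lemma kzL_ap (a : Finset (Fin n) → MvPolynomial (Fin n) K) (ρ : Finset (Fin n)) :
    kzL K n a ρ = ∑ i ∈ ρᶜ, (-1) ^ (ρ.filter (· < i)).card * X i * a (insert i ρ) := rfl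

noncomputable def Ps (α : Fin n →₀ ℕ) : (Finset (Fin n) → MvPolynomial (Fin n) K) →ₗ[K]
    (Finset (Fin n) → K) where
  toFun a τ := coeff (α - ind τ) (a τ)
  map_add' a b := by ext1 τ; simp
  map_smul' r a := by ext1 τ; simp

lemma kz_Ph (α : Fin n →₀ ℕ) (c : Finset (Fin n) → K) :
    kzL K n (Ph α c) = Ph α (bd α.support c) := by
  classical
  ext1 ρ
  simp only [kzL_ap, Ph_ap]
  split_ifs with s
  · rw [bd, map_sum]
    symm
    refine sum_subset_zero_on_sdiff (fun i hi => mem_compl.2 (mem_sdiff.1 hi).2)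
      (fun i hi => ?_) fun i hi => ?_
    · rw [if_neg, mul_zero]
      simp only [mem_sdiff, mem_compl] at hi
      exact fun w => hi.2 ⟨w (mem_insert_self _ _), hi.1⟩
    · rw [mem_sdiff] at hi
      have s1 := insert_subset hi.1 s
      have e1 : ((-1 : MvPolynomial (Fin n) K) ^ (ρ.filter (· < i)).card) =
        C (sg K ρ i) := by simp [sg]
      rw [if_pos s1, e1, X, C_mul_monomial, monomial_mul, mul_one]
      congr 2
      ext k
      have := Finsupp.mem_support_iff.1 hi.1
      simp only [Finsupp.add_apply, Finsupp.tsub_apply, ind_ap, Finsupp.single_apply,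
        mem_insert]
      by_cases y : i = k
      · subst y; simp [hi.2]; omega
      · simp [y, Ne.symm y]
  · exact sum_eq_zero fun i _ => by
      rw [if_neg fun w => s ((subset_insert _ _).trans w), mul_zero]

lemma Ps_Ph {α : Fin n →₀ ℕ} {P : Finset (Fin n) → Prop} {j : ℕ} {c : Finset (Fin n) → K}
    (hc : c ∈ ch K α.support P j) : Ps α (Ph α c) = c := by
  classical
  ext τ
  change coeff _ (Ph α c τ) = _
  rw [Ph_ap]
  split_ifs with x
  · simp
  · rw [hc τ fun w => x w.1]; rfl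

lemma rk_Ph {α : Fin n →₀ ℕ} {P : Finset (Fin n) → Prop} {j : ℕ}
    {W : Submodule K (Finset (Fin n) → K)} (h : W ≤ ch K α.support P j) :
    finrank K (W.map (Ph α)) = finrank K W := by
  refine le_antisymm (Submodule.finrank_map_le _ _) (le_trans (Submodule.finrank_mono ?_)
    (Submodule.finrank_map_le (Ps α) _))
  exact fun c hc => ⟨_, ⟨c, hc, rfl⟩, Ps_Ph (h hc)⟩

lemma kc_eq (I : Ideal (MvPolynomial (Fin n) K)) (j : ℕ) (α : Fin n →₀ ℕ) : kc I j α =
    (ch K α.support (fun τ => monomial (α - ind τ) (1 : K) ∈ I) j).map (Ph α) := by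
  classical
  ext a
  constructor
  · intro h
    have e : ∀ τ, a τ = if τ ⊆ α.support then monomial (α - ind τ) (coeff (α - ind τ) (a τ))
        else 0 := fun τ => by
      ext m
      by_cases x : m + ind τ = α
      · subst x
        have e2 : τ ⊆ (m + ind τ).support := fun i hi => by simp [ind_ap, hi]
        rw [if_pos e2, add_tsub_cancel_right]; simp
      · rw [(h τ).2.2 m x]
        split_ifs with y
        · rw [coeff_monomial, if_neg fun z => x (by rw [← z, ind_cancel y])]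
        · rfl
    refine ⟨Ps α a, fun τ x => by_contra fun y => x ?_, funext fun τ => (e τ).symm⟩
    change ¬ coeff _ _ = 0 at y
    have s : τ ⊆ α.support := by_contra fun z => y (by rw [e τ, if_neg z]; rfl)
    refine ⟨s, by_contra fun z => y (by rw [(h τ).2.1 z]; rfl), ?_⟩
    have := I.mul_mem_left (C (coeff (α - ind τ) (a τ))⁻¹) (h τ).1
    rwa [e τ, if_pos s, C_mul_monomial, coeff_monomial, if_pos rfl, inv_mul_cancel₀ y] at this
  · rintro ⟨c, hc, rfl⟩ τ
    rw [Ph_ap]
    split_ifs with x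
    swap
    · simp
    refine ⟨?_, fun y => by rw [hc τ fun w => y w.2.1, map_zero], fun m y => by
      rw [coeff_monomial, if_neg fun z => y (by rw [← z]; exact ind_cancel x)]⟩
    by_cases y : c τ = 0
    · simp [y]
    · have := I.mul_mem_left (C (c τ)) (not_not.1 (mt (hc τ) y)).2.2
      rwa [C_mul_monomial, mul_one] at this

lemma kbetti_eq (I : Ideal (MvPolynomial (Fin n) K)) (j : ℕ) (α : Fin n →₀ ℕ) :
    kbetti I j α = mbetti I j α := by
  have hP : ∀ τ ⊆ α.support, monomial (α - ind τ) (1 : K) ∈ I → ∀ i,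
      monomial (α - ind (τ.erase i)) (1 : K) ∈ I := fun τ _ x i =>
    I.mem_of_dvd (monomial_dvd_monomial.2 ⟨Or.inr fun k => by
      simp only [Finsupp.tsub_apply, ind_ap, mem_erase]
      split_ifs <;> first | omega | tauto, dvd_rfl⟩) x
  set P := fun τ => monomial (α - ind τ) (1 : K) ∈ I
  have e1 : (ch K α.support P j).map (Ph α) ⊓ LinearMap.ker (kzL K n) =
      (ch K α.support P j ⊓ LinearMap.ker (dif K n)).map (Ph α) := by
    ext a
    constructor
    · rintro ⟨⟨c, hc, rfl⟩, h⟩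
      refine ⟨c, ⟨hc, ?_⟩, rfl⟩
      have h : kzL K n (Ph α c) = 0 := h
      have m : dif K n c ∈ ch K α.support (fun _ => True) (j - 1) := fun ρ x =>
        sum_eq_zero fun i hi => by
          rw [hc, mul_zero]
          exact fun w => x ⟨(subset_insert _ _).trans w.1, by
            rw [← w.2.1, card_insert_of_notMem (mem_compl.1 hi)]; rfl, trivial⟩
      change dif K n c = 0
      rw [← Ps_Ph m, dif_eq hc, ← kz_Ph, h, map_zero]
    · rintro ⟨c, ⟨hc, h⟩, rfl⟩
      refine ⟨⟨c, hc, rfl⟩, ?_⟩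
      have h : dif K n c = 0 := h
      change kzL K n (Ph α c) = 0
      rw [kz_Ph, ← dif_eq hc, h, map_zero]
  have e2 : ((ch K α.support P (j + 1)).map (Ph α)).map (kzL K n) =
      ((ch K α.support P (j + 1)).map (dif K n)).map (Ph α) := by
    ext a
    constructor
    · rintro ⟨_, ⟨c, hc, rfl⟩, rfl⟩
      exact ⟨_, ⟨c, hc, rfl⟩, by rw [kz_Ph, dif_eq hc]⟩
    · rintro ⟨_, ⟨c, hc, rfl⟩, rfl⟩
      exact ⟨_, ⟨c, hc, rfl⟩, by rw [kz_Ph, dif_eq hc]⟩
  rw [kbetti, mbetti, hdim, kc_eq, kc_eq, e1, e2, rk_Ph inf_le_left,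
    rk_Ph ((map_le hP j).trans inf_le_left)]

lemma tbetti_eq (I : Ideal (MvPolynomial (Fin n) K)) (j : ℕ) : tbetti I j = betti I j := by
  simp only [tbetti, betti, kbetti_eq]

end Pool.Agent.H50.Tor
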