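import Mathlib
import Pool.Agent.H50.Tor8

namespace Pool.Agent.H50.Tor

open Finset MvPolynomial Pool.Agent.H50.Vreg Module

variable {K K' : Type} [Field K] [Field K'] {n : ℕ} {E : Finset (Fin n)}
  {P : Finset (Fin n) → Prop}

lemma rk_gen {V V' : Type} [AddCommGroup V] [Module K V] [AddCommGroup V'] [Module K V']
    [FiniteDimensional K V] (f : V →ₗ[K] V') (W : Submodule K V) : finrank K (W.map f) +
    finrank K (W ⊓ LinearMap.ker f : Submodule K _) = finrank K W := by
  rw [← LinearMap.finrank_range_add_finrank_ker (f.domRestrict W),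
    LinearMap.range_domRestrict, LinearMap.ker_domRestrict, ← Submodule.map_comap_subtype,
    Submodule.finrank_map_subtype_eq]

lemma indep_int {ι κ : Type} [Fintype ι] [Fintype κ] (v : ι → κ → ℤ)
    (h : LinearIndependent K fun i k => (v i k : K)) :
    LinearIndependent ℚ fun i k => (v i k : ℚ) := by
  refine (linearIndependent_algebraMap_comp_iff (S := ℚ) (v := v)).2 ?_
  rw [Fintype.linearIndependent_iff] at h ⊢
  intro g hg i
  obtain ⟨g', h1, h2⟩ := extract_gcd (s := univ) g ⟨i, mem_univ i⟩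
  by_contra x
  have d : univ.gcd g ≠ 0 := fun y => x (by rw [h1 i (mem_univ i), y, zero_mul])
  have e : ∀ k, ∑ i, g' i * v i k = 0 := fun k => mul_left_cancel₀ d (by
    have := congrFun hg k
    rw [mul_sum, mul_zero, sum_congr rfl fun i y => by rw [← mul_assoc, ← h1 i y]]
    simpa using this)
  have f := h (fun i => (g' i : K)) (funext fun k => by simpa using congrArg (Int.cast : ℤ → K) (e k))
  have : (ringChar K : ℤ) ∣ 1 := h2 ▸ dvd_gcd fun i _ => (CharP.intCast_eq_zero_iff K _ _).1 (f i)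
  exact CharP.ringChar_ne_one (R := K) (Nat.dvd_one.1 (by exact_mod_cast this))

lemma br_le (j : ℕ) : finrank K ((ch K E P j).map (dif K n)) ≤
    finrank ℚ ((ch ℚ E P j).map (dif ℚ n)) := by
  classical
  set v : {τ : Finset (Fin n) // τ ⊆ E ∧ τ.card = j ∧ P τ} → Finset (Fin n) → ℤ := fun τ ρ =>
    ∑ i ∈ ρᶜ, (-1) ^ (ρ.filter (· < i)).card * if insert i ρ = τ then 1 else 0 with hv
  have e : ∀ (F : Type) [Field F] τ, (fun ρ => (v τ ρ : F)) = dif F n (Pi.single τ.1 1) :=
    fun F _ τ => funext fun ρ => by simp [hv, dif, Pi.single_apply]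
  obtain ⟨κ, a, h1, h2, h3⟩ := exists_linearIndependent' K fun τ ρ => (v τ ρ : K)
  have := Finite.of_injective a h1
  have := Fintype.ofFinite κ
  refine le_trans (Submodule.finrank_mono (t := Submodule.span K (Set.range fun τ ρ => (v τ ρ : K)))
    ?_) ?_
  · rintro _ ⟨c, hc, rfl⟩
    rw [pi_eq_sum_univ' c, map_sum]
    refine sum_mem fun τ _ => ?_
    by_cases x : τ ⊆ E ∧ τ.card = j ∧ P τ
    · rw [map_smul]
      exact Submodule.smul_mem _ _ (Submodule.subset_span ⟨⟨τ, x⟩, e K _⟩)
    · simp [hc τ x]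
  · rw [← h2, finrank_span_eq_card h3, ← finrank_span_eq_card (indep_int (v ∘ a) h3)]
    refine Submodule.finrank_mono (Submodule.span_le.2 ?_)
    rintro _ ⟨k, rfl⟩
    exact ⟨_, fun τ x => Pi.single_eq_of_ne (fun y => x (by rw [y]; exact (a k).2)) _, (e ℚ _).symm⟩

noncomputable def zr (K : Type) [Field K] (E : Finset (Fin n)) (P : Finset (Fin n) → Prop)
    (j : ℕ) : ℕ := finrank K (ch K E P j ⊓ LinearMap.ker (dif K n) : Submodule K _)

lemma c_eq (K K' : Type) [Field K] [Field K'] (j : ℕ) :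
    finrank K (ch K E P j) = finrank K' (ch K' E P j) := by rw [rk_ch, rk_ch]

lemma hdim_Q (j : ℕ) : hdim ℚ E P j ≤ hdim K E P j := by
  have := br_le (K := K) (E := E) (P := P) j
  have := br_le (K := K) (E := E) (P := P) (j + 1)
  have := rk_null (K := K) (E := E) (P := P) j
  have := rk_null (K := ℚ) (E := E) (P := P) j
  have := c_eq (E := E) (P := P) K ℚ j
  unfold hdim; omega

lemma hdim_of_zr (h : ∀ j, zr K E P j = zr K' E P j) (j : ℕ) : hdim K E P j = hdim K' E P j := by
  have := h j; have := h (j + 1)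
  have := rk_null (K := K) (E := E) (P := P) (j + 1)
  have := rk_null (K := K') (E := E) (P := P) (j + 1)
  have := c_eq (E := E) (P := P) K K' (j + 1)
  unfold hdim zr at *; omega

lemma zr_of_hdim (hP : ∀ τ ⊆ E, P τ → ∀ i, P (τ.erase i))
    (h : ∀ j, hdim K E P j = hdim K' E P j) (j : ℕ) : zr K E P j = zr K' E P j := by
  have a1 := fun i => rk_null (K := K) (E := E) (P := P) i
  have a2 := fun i => rk_null (K := K') (E := E) (P := P) i
  have c := c_eq (E := E) (P := P) K K'
  induction j with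
  | zero =>
    have z : ∀ (F : Type) [Field F], finrank F ((ch F E P 0).map (dif F n)) = 0 := fun F _ => by
      rw [Submodule.finrank_eq_zero, eq_bot_iff]
      rintro _ ⟨c, hc, rfl⟩
      exact funext fun ρ => sum_eq_zero fun i _ => by rw [hc, mul_zero]; simp
    have := a1 0; have := a2 0; have := c 0; have := z K; have := z K'
    unfold zr; omega
  | succ j ih =>
    have := a1 (j + 1); have := a2 (j + 1); have := c (j + 1); have := h j
    have := Submodule.finrank_mono (map_le (K := K) hP j)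
    have := Submodule.finrank_mono (map_le (K := K') hP j)
    unfold hdim zr at *; omega

lemma hdim_true (ne : E.Nonempty) (j : ℕ) : hdim K E (fun _ => True) j = 0 :=
  (hdim_iff (fun _ _ _ _ => trivial) (fun x => absurd x ne.ne_empty) j).2
    (van_empty fun _ _ _ x => x trivial)

def YY (K : Type) [Field K] (E : Finset (Fin n)) (P : Finset (Fin n) → Prop) (j : ℕ) :
    Submodule K (Finset (Fin n) → K) :=
  ch K E (fun _ => True) (j + 1) ⊓ (ch K E P j).comap (dif K n)

lemma rk_Y (ne : E.Nonempty) (j : ℕ) :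
    finrank K (YY K E P j) = zr K E P j + zr K E (fun _ => True) (j + 1) := by
  have m := map_le (K := K) (E := E) (P := fun _ => True) (fun _ _ _ _ => trivial) j
  have e1 : (YY K E P j).map (dif K n) = ch K E P j ⊓ LinearMap.ker (dif K n) := by
    refine le_antisymm ?_ fun c hc => ?_
    · rintro _ ⟨a, ha, rfl⟩
      exact ⟨ha.2, (m ⟨a, ha.1, rfl⟩).2⟩
    · obtain ⟨a, x, rfl⟩ := (Submodule.eq_of_le_of_finrank_le m
        (Nat.sub_eq_zero_iff_le.1 (hdim_true ne j))).ge
          ⟨fun τ y => hc.1 τ fun z => y ⟨z.1, z.2.1, trivial⟩, hc.2⟩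
      exact ⟨a, ⟨x, hc.1⟩, rfl⟩
  have e2 : YY K E P j ⊓ LinearMap.ker (dif K n) =
      ch K E (fun _ => True) (j + 1) ⊓ LinearMap.ker (dif K n) :=
    le_antisymm (inf_le_inf_right _ inf_le_left) fun c hc => ⟨⟨hc.1, by
      change dif K n c ∈ ch K E P j
      rw [show dif K n c = 0 from hc.2]; exact zero_mem _⟩, hc.2⟩
  rw [← rk_gen (dif K n), e1, e2]; rfl

lemma zr_of_Y (ne : E.Nonempty) {j : ℕ} (h : finrank K (YY K E P j) = finrank K' (YY K' E P j)) :
    zr K E P j = zr K' E P j := by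
  have := zr_of_hdim (K := K) (K' := K') (P := fun _ => True) (fun _ _ _ _ => trivial)
    (fun j => by rw [hdim_true ne, hdim_true ne]) (j + 1)
  rw [rk_Y ne, rk_Y ne] at h; omega

lemma bd_two {x y : Fin n} (hx : x ∈ E) (hy : y ∈ E) (h : x ≠ y) (a : Finset (Fin n) → K) :
    bd E a ((E.erase x).erase y) = 0 ↔ sg K E x * a (E.erase x) = sg K E y * a (E.erase y) := by
  have e : E \ (E.erase x).erase y = {x, y} := by
    ext i; simp only [mem_sdiff, mem_erase, mem_insert, mem_singleton]
    constructor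
    · tauto
    · rintro (rfl | rfl) <;> tauto
  have y' : y ∈ E.erase x := mem_erase.2 ⟨h.symm, hy⟩
  rw [bd, e, sum_pair h, insert_erase y', erase_right_comm, insert_erase (mem_erase.2 ⟨h, hx⟩),
    erase_right_comm, sg_erase y', sg_erase y', sg_erase hx, sg_erase hx, if_neg (lt_irrefl x),
    if_neg (lt_irrefl y)]
  have s1 := sg_sq (R := K) E x
  have s2 := sg_sq (R := K) E y
  rcases lt_or_gt_of_ne h with l | l
  · rw [if_pos l, if_neg (not_lt.2 l.le)]
    exact ⟨fun z => by linear_combination (-(sg K E x * sg K E y)) * z + (sg K E y * a (E.erase y)) * s1 - (sg K E x * a (E.erase x)) * s2,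
      fun z => by linear_combination (-(sg K E x * sg K E y)) * z - (sg K E x * a (E.erase y)) * s2 + (sg K E y * a (E.erase x)) * s1⟩
  · rw [if_pos l, if_neg (not_lt.2 l.le)]
    exact ⟨fun z => by linear_combination (sg K E x * sg K E y) * z + (sg K E y * a (E.erase y)) * s1 - (sg K E x * a (E.erase x)) * s2,
      fun z => by linear_combination (sg K E x * sg K E y) * z + (sg K E x * a (E.erase y)) * s2 - (sg K E y * a (E.erase x)) * s1⟩

lemma ex_erase {τ : Finset (Fin n)} (h : τ ⊆ E) (c : τ.card + 1 = E.card) :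
    ∃ x ∈ E, τ = E.erase x := by
  obtain ⟨x, a, b⟩ := exists_of_ssubset (h.ssubset_of_ne fun y => by rw [y] at c; omega)
  exact ⟨x, a, eq_of_subset_of_card_le (subset_erase.2 ⟨h, b⟩)
    (by rw [card_erase_of_mem a]; omega)⟩

lemma top_Y {j : ℕ} (hj : j + 2 = E.card) : finrank K (YY K E P j) =
    Nat.card (Quot fun x y : E => x ≠ y ∧ ¬ P ((E.erase x).erase y)) := by
  classical
  set R := fun x y : E => x ≠ y ∧ ¬ P ((E.erase x).erase y)
  have := Fintype.ofFinite (Quot R)
  let θ : (Quot R → K) →ₗ[K] (Finset (Fin n) → K) :=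
    { toFun := fun ψ τ => ∑ x : E, if τ = E.erase x then sg K E x * ψ (Quot.mk _ x) else 0
      map_add' := fun a b => funext fun τ => by
        simp only [Pi.add_apply, ← sum_add_distrib]
        exact sum_congr rfl fun x _ => by split_ifs <;> ring
      map_smul' := fun r a => funext fun τ => by
        simp only [Pi.smul_apply, smul_eq_mul, RingHom.id_apply, mul_sum]
        exact sum_congr rfl fun x _ => by split_ifs <;> ring }
  have k : ∀ ψ (x : E), sg K E x * θ ψ (E.erase x) = ψ (Quot.mk _ x) := fun ψ x => by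
    change _ * ∑ y : E, (if E.erase x = E.erase y then sg K E y * ψ (Quot.mk _ y) else 0) = _
    rw [sum_eq_single x (fun y _ z => if_neg fun w => z (Subtype.ext (erase_injOn E y.2 x.2 w.symm)))
      (by simp), if_pos rfl, ← mul_assoc, sg_sq, one_mul]
  have m : ∀ ψ, θ ψ ∈ ch K E (fun _ => True) (j + 1) := fun ψ τ z => sum_eq_zero fun x _ =>
    if_neg fun w => z (by
      rw [w]; exact ⟨erase_subset _ _, by rw [card_erase_of_mem x.2]; omega, trivial⟩)
  have e : YY K E P j = LinearMap.range θ := by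
    refine le_antisymm (fun a ha => ⟨Quot.lift (fun x => sg K E x * a (E.erase x))
      fun x y z => (bd_two x.2 y.2 (fun w => z.1 (Subtype.ext w)) a).1 (by
        rw [← dif_eq ha.1]; exact ha.2 _ fun w => z.2 w.2.2), funext fun τ => ?_⟩) ?_
    swap
    · by_cases z : τ ⊆ E ∧ τ.card = j + 1 ∧ True
      · obtain ⟨x, y, rfl⟩ := ex_erase z.1 (by omega)
        exact mul_left_cancel₀ (left_ne_zero_of_mul_eq_one (sg_sq E x)) (k _ ⟨x, y⟩)
      · rw [m _ τ z, ha.1 τ z]
    · rintro _ ⟨ψ, rfl⟩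
      refine ⟨m ψ, fun ρ z => ?_⟩
      by_cases w : ρ ⊆ E ∧ ρ.card = j
      swap
      · exact (map_le (fun _ _ _ _ => trivial) j ⟨_, m ψ, rfl⟩).1 ρ fun v => w ⟨v.1, v.2.1⟩
      obtain ⟨τ, a, b, c⟩ := exists_subsuperset_card_eq (n := j + 1) w.1 (by omega) (by omega)
      obtain ⟨x, hx, rfl⟩ := ex_erase b (by omega)
      obtain ⟨y, hy, rfl⟩ := ex_erase a (by omega)
      rw [mem_erase] at hy
      rw [dif_eq (m ψ), bd_two hx hy.2 hy.1.symm, k ψ ⟨x, hx⟩, k ψ ⟨y, hy.2⟩]
      exact congrArg ψ (Quot.sound ⟨fun v => hy.1 (congrArg Subtype.val v).symm,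
        fun v => z ⟨w.1, w.2, v⟩⟩)
  rw [e, LinearMap.finrank_range_of_inj fun a b z => _root_.funext fun q => by
    obtain ⟨x, rfl⟩ := Quot.exists_rep q
    rw [← k a, ← k b, z], finrank_fintype_fun_eq_card, Nat.card_eq_fintype_card]

def up (τ : Finset (Fin n)) : Finset (Fin (n + 1)) := τ.map Fin.castSuccEmb

@[simp] lemma mem_up {τ : Finset (Fin n)} {i : Fin n} : i.castSucc ∈ up τ ↔ i ∈ τ :=
  mem_map' Fin.castSuccEmb

@[simp] lemma last_up {τ : Finset (Fin n)} : Fin.last n ∉ up τ := fun x => by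
  obtain ⟨i, -, y⟩ := mem_map.1 x
  exact (Fin.castSucc_lt_last i).ne y

lemma up_ins (τ : Finset (Fin n)) (i : Fin n) : up (insert i τ) = insert i.castSucc (up τ) :=
  map_insert _ _ _

lemma up_cases (σ : Finset (Fin (n + 1))) : ∃ τ, σ = up τ ∨ σ = insert (Fin.last n) (up τ) := by
  refine ⟨univ.filter fun i => i.castSucc ∈ σ, (em' (Fin.last n ∈ σ)).imp (fun x => ?_) fun x => ?_⟩
  all_goals
    ext i
    refine Fin.lastCases ?_ (fun i => ?_) i <;> simp [x, (Fin.castSucc_lt_last _).ne]

lemma up_sub' {τ : Finset (Fin n)} : up τ ⊆ insert (Fin.last n) (up E) ↔ τ ⊆ E := by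
  rw [subset_insert_iff_of_notMem last_up]; exact map_subset_map

lemma dif_up (c : Finset (Fin (n + 1)) → K) (ρ : Finset (Fin n)) :
    dif K (n + 1) c (up ρ) = dif K n (fun τ => c (up τ)) ρ +
      (-1) ^ ρ.card * c (insert (Fin.last n) (up ρ)) ∧
    dif K (n + 1) c (insert (Fin.last n) (up ρ)) =
      dif K n (fun τ => c (insert (Fin.last n) (up τ))) ρ := by
  have a : ∀ i : Fin n, ((up ρ).filter (· < i.castSucc)).card = (ρ.filter (· < i)).card :=
    fun i => by rw [up, filter_map, card_map]; simp [Function.comp_def]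
  have b : ((up ρ).filter (· < Fin.last n)).card = ρ.card := by
    rw [up, filter_map, card_map]; simp [Function.comp_def]
  have s : ∀ {m : ℕ} (ρ : Finset (Fin m)) (f : Fin m → K),
      ∑ i ∈ ρᶜ, f i = ∑ i, if i ∈ ρ then 0 else f i := fun ρ f => by
    simp only [← ite_not (_ ∈ ρ), ← sum_filter]; congr 1; ext; simp
  simp only [dif, LinearMap.coe_mk, AddHom.coe_mk, s, Fin.sum_univ_castSucc, mem_up, last_up,
    if_false, a, b, up_ins, mem_insert, true_or, if_true, add_zero, filter_insert,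
    (Fin.castSucc_lt_last _).ne, false_or, (Fin.castSucc_lt_last _).not_gt, insert_comm, and_self]

lemma zr_up {P' : Finset (Fin (n + 1)) → Prop} {j : ℕ}
    (h1 : ∀ τ ⊆ E, τ.card = j + 1 → P' (up τ))
    (h2 : ∀ τ ⊆ E, τ.card = j → (P' (insert (Fin.last n) (up τ)) ↔ P τ)) :
    zr K (insert (Fin.last n) (up E)) P' (j + 1) = finrank K (YY K E P j) := by
  classical
  have cu : ∀ τ : Finset (Fin n), (up τ).card = τ.card := fun τ => card_map _
  have ci : ∀ τ : Finset (Fin n), (insert (Fin.last n) (up τ)).card = τ.card + 1 := fun τ => by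
    rw [card_insert_of_notMem last_up, cu]
  have si : ∀ τ : Finset (Fin n), insert (Fin.last n) (up τ) ⊆ insert (Fin.last n) (up E) ↔
      τ ⊆ E := fun τ => by rw [insert_subset_iff, up_sub', and_iff_right (mem_insert_self _ _)]
  have ne : ∀ k : ℕ, (-1 : K) ^ k ≠ 0 := fun k => pow_ne_zero _ (by simp)
  rw [zr, ← rk_gen (LinearMap.funLeft K K up)]
  have e1 : ch K (insert (Fin.last n) (up E)) P' (j + 1) ⊓ LinearMap.ker (dif K (n + 1)) ⊓
      LinearMap.ker (LinearMap.funLeft K K up) = ⊥ := eq_bot_iff.2 fun c ⟨⟨_, a⟩, b⟩ => by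
    have b : (fun τ => c (up τ)) = 0 := b
    refine funext fun σ => ?_
    obtain ⟨τ, rfl | rfl⟩ := up_cases σ
    · exact congrFun b τ
    · have := (dif_up c τ).1
      rw [show dif K (n + 1) c = 0 from a, b, map_zero, Pi.zero_apply, Pi.zero_apply, zero_add,
        eq_comm, mul_eq_zero] at this
      exact this.resolve_left (ne _)
  have e2 : (ch K (insert (Fin.last n) (up E)) P' (j + 1) ⊓ LinearMap.ker (dif K (n + 1))).map
      (LinearMap.funLeft K K up) = YY K E P j := by
    refine le_antisymm ?_ fun a ha => ?_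
    · rintro _ ⟨c, ⟨a, b⟩, rfl⟩
      refine ⟨fun τ x => a _ fun y => x ⟨up_sub'.1 y.1, cu τ ▸ y.2.1, trivial⟩, fun τ x => ?_⟩
      have := (dif_up c τ).1
      rw [show dif K (n + 1) c = 0 from b, a, mul_zero, add_zero] at this
      · exact this.symm
      · rw [si, ci]
        exact fun y => x ⟨y.1, by omega, (h2 τ y.1 (by omega)).1 y.2.2⟩
    · set c : Finset (Fin (n + 1)) → K := fun σ => if Fin.last n ∈ σ then
        -(-1) ^ j * dif K n a (univ.filter fun i => i.castSucc ∈ σ)
        else a (univ.filter fun i => i.castSucc ∈ σ) with hc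
      have c1 : ∀ τ, c (up τ) = a τ := fun τ => by simp [hc]
      have c2 : ∀ τ, c (insert (Fin.last n) (up τ)) = -(-1) ^ j * dif K n a τ := fun τ => by
        simp [hc, (Fin.castSucc_lt_last _).ne]
      refine ⟨c, ⟨fun σ x => ?_, funext fun σ => ?_⟩, funext c1⟩
      all_goals obtain ⟨τ, rfl | rfl⟩ := up_cases σ
      · rw [c1]
        exact ha.1 τ fun y => x ⟨up_sub'.2 y.1, (cu τ).trans y.2.1, h1 τ y.1 y.2.1⟩
      · rw [c2, ha.2 τ fun y => x ⟨(si τ).2 y.1, by rw [ci, y.2.1], (h2 τ y.1 y.2.1).2 y.2.2⟩,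
          mul_zero]
      · rw [(dif_up c τ).1, c2, funext c1, Pi.zero_apply]
        by_cases y : τ.card = j
        · rw [y, ← mul_assoc, mul_neg, ← mul_pow]; simp
        · rw [ha.2 τ fun z => y z.2.1]; simp
      · have := (map_le (fun _ _ _ _ => trivial) j ⟨_, ha.1, rfl⟩).2
        rw [(dif_up c τ).2, funext c2]
        change dif K n ((-(-1) ^ j : K) • dif K n a) τ = _
        rw [map_smul, show dif K n (dif K n a) = 0 from this, smul_zero]
        rfl
  rw [e1, e2]; simp

end Pool.Agent.H50.Tor
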