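import Mathlib

namespace Pool.Agent.H50.Torus

open ExteriorAlgebra

def W : List (ℤ × List ℕ) :=
  [(1, [0,1,2,3]),
   (-1, [0,1,2,4]),
   (1, [0,1,3,4]),
   (1, [1,2,3,4]),
   (-1, [0,1,3,5]),
   (1, [0,3,4,5]),
   (-1, [2,3,4,5]),
   (1, [0,1,2,6]),
   (1, [0,1,3,6]),
   (-1, [0,2,3,6]),
   (-1, [1,2,3,6]),
   (-1, [0,2,4,6]),
   (1, [1,3,4,6]),
   (1, [0,1,5,6]),
   (1, [0,2,5,6]),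
   (-1, [0,3,5,6]),
   (1, [1,3,5,6]),
   (1, [1,4,5,6]),
   (1, [0,1,2,7]),
   (1, [0,1,3,7]),
   (-1, [0,2,3,7]),
   (1, [0,1,4,7]),
   (1, [1,2,4,7]),
   (1, [1,3,4,7]),
   (1, [2,3,4,7]),
   (-1, [1,2,5,7]),
   (1, [1,3,5,7]),
   (-1, [2,3,5,7]),
   (-1, [0,1,6,7]),
   (-1, [0,2,6,7]),
   (1, [0,3,6,7]),
   (1, [0,4,6,7]),
   (-1, [2,4,6,7]),
   (-1, [0,5,6,7]),
   (-1, [1,5,6,7])]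

def prs : List (ℕ × ℕ) :=
  [(0,1),(0,2),(0,3),(0,4),(0,5),(0,6),(0,7),(1,2),(1,3),(1,4),(1,5),(1,6),(1,7),(2,3),(2,4),(2,5),(2,6),(2,7),(3,4),(3,5),(3,6),(3,7),(4,5),(4,6),(4,7),(5,6),(5,7),(6,7)]

def Al : List (List ℤ) :=
  [[0,0,0,0,0,0,0,0,0,0,0,0,0,0,0,0,0,0,0,1,0,0,0,1,0,1,0,-1],
   [0,0,0,0,0,0,0,0,0,0,0,0,0,0,0,0,0,0,1,0,0,1,0,1,-1,-1,1,0],
   [0,0,0,0,0,0,0,0,0,0,-1,0,0,0,-1,0,0,-1,0,0,0,0,0,1,0,1,0,0],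
   [0,0,0,0,0,0,0,0,0,0,0,-1,0,1,0,0,-1,1,0,0,-1,0,0,0,0,0,-1,0],
   [0,0,0,0,0,0,0,0,1,0,0,-1,0,0,0,0,1,-1,0,0,-1,0,0,0,1,0,0,1],
   [0,0,0,0,0,0,0,0,0,1,1,0,1,0,1,-1,0,0,1,1,0,0,0,0,0,0,-1,0],
   [0,0,0,0,0,0,0,0,0,0,0,-1,0,1,-1,1,0,0,0,0,0,0,-1,0,0,1,0,0],
   [0,0,0,0,0,0,0,0,0,0,0,0,0,0,0,0,0,0,-1,-1,0,0,1,0,-1,0,0,1],
   [0,0,0,0,1,0,0,0,0,0,0,0,0,0,1,1,0,0,0,0,0,0,1,0,-1,0,-1,0],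
   [0,0,0,0,0,1,0,0,0,0,0,0,0,-1,0,-1,0,1,0,-1,0,1,0,0,0,-1,1,0],
   [0,0,-1,0,0,1,0,0,0,0,0,0,0,-1,1,0,0,0,1,0,0,1,0,1,-1,0,0,0],
   [0,0,0,-1,-1,0,-1,0,0,0,0,0,0,0,0,0,0,-1,0,0,0,0,-1,0,0,0,0,0],
   [0,0,0,0,0,1,0,0,0,0,0,0,0,0,-1,0,1,0,-1,-1,0,0,1,0,0,0,0,0],
   [0,0,0,1,0,0,1,0,0,-1,-1,0,0,0,0,0,0,0,0,0,0,0,-1,0,1,1,0,0],
   [0,0,-1,0,0,1,-1,0,1,0,1,0,-1,0,0,0,0,0,0,1,0,-1,0,0,0,-1,1,1],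
   [0,0,0,0,0,-1,1,0,1,-1,0,0,0,0,0,0,0,0,-1,0,-1,0,0,1,-1,0,0,1],
   [0,0,0,-1,1,0,0,0,0,0,0,0,1,0,0,0,0,0,0,1,0,0,-1,0,-1,0,-1,0],
   [0,0,-1,1,-1,0,0,0,0,1,0,-1,0,0,0,0,0,0,1,0,0,0,1,1,0,1,0,0],
   [0,1,0,0,0,1,0,-1,0,0,1,0,-1,0,0,-1,0,1,0,0,0,0,0,0,0,1,-1,0],
   [1,0,0,0,0,1,0,-1,0,-1,0,0,-1,0,1,0,1,0,0,0,0,0,0,-1,1,0,0,1],
   [0,0,0,-1,-1,0,0,0,0,0,0,0,0,0,0,-1,0,0,0,0,0,0,1,0,0,0,-1,0],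
   [0,1,0,0,0,0,0,0,0,1,1,0,0,0,-1,0,0,0,0,0,0,0,-1,0,0,1,0,0],
   [0,0,0,0,0,0,-1,1,1,0,0,-1,1,-1,0,0,-1,1,0,0,1,-1,0,0,0,0,0,1],
   [1,1,1,0,0,0,0,0,0,0,1,0,0,0,0,1,0,1,0,-1,0,0,0,0,0,0,-1,0],
   [0,-1,0,0,1,0,0,-1,-1,0,-1,0,0,1,0,-1,-1,0,0,1,0,0,0,0,0,1,0,0],
   [1,-1,1,0,0,0,1,0,0,-1,0,0,0,1,-1,0,0,1,1,0,0,1,0,0,1,0,0,0],
   [0,1,0,-1,0,-1,0,0,-1,1,0,0,0,0,1,0,-1,0,-1,0,-1,0,0,-1,0,0,0,0],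
   [-1,0,0,0,1,0,0,1,0,0,0,0,0,0,1,1,0,0,0,1,0,0,1,0,0,0,0,0]]

def Pl : List (List ℤ) :=
  [[1,0,0,0,0,0,0,0,0,0,0,0,0,0,0,0,0,0,0,0,0,0,0,0,0,0,0,0],
   [0,0,0,0,0,0,0,0,0,0,0,0,0,0,0,0,0,0,0,1,0,0,0,0,0,0,0,0],
   [0,1,0,0,0,0,0,0,0,0,0,0,0,0,0,0,0,0,0,0,0,0,0,0,0,0,0,0],
   [0,0,0,0,0,0,0,0,0,0,0,0,0,0,0,0,0,0,1,0,0,0,0,0,0,0,0,0],
   [0,0,0,1,0,0,0,0,0,0,0,0,0,0,0,0,0,0,0,0,0,0,0,0,0,0,0,0],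
   [0,0,0,0,0,0,0,0,0,0,0,-1,0,0,0,0,0,0,0,0,0,0,0,0,0,0,0,0],
   [0,0,1,0,0,0,0,0,0,0,0,0,0,0,0,0,0,0,0,0,0,0,0,0,0,0,0,0],
   [0,1,0,0,0,0,0,0,0,0,-1,0,0,0,0,0,0,0,0,0,0,0,0,0,0,0,0,0],
   [0,0,0,-1,1,0,0,0,0,0,0,0,0,0,0,0,0,0,0,0,0,0,0,0,0,0,0,0],
   [0,0,0,0,0,0,0,0,1,0,0,0,0,0,0,0,0,0,0,0,0,0,0,0,0,0,0,0],
   [0,0,0,-1,0,0,1,0,0,0,0,0,0,0,0,0,0,0,0,0,0,0,0,0,0,0,0,0],
   [0,0,0,0,0,0,0,0,0,0,0,-1,0,0,0,0,0,0,0,0,1,0,0,0,0,0,0,0],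
   [1,0,0,0,0,0,0,0,0,1,0,0,0,0,0,0,0,0,0,0,0,0,0,0,0,0,0,0],
   [0,0,0,0,0,0,0,0,0,0,0,0,0,0,0,0,0,0,-1,0,0,1,0,0,0,0,0,0],
   [0,0,1,0,0,1,0,1,0,0,0,0,0,0,0,0,0,0,1,0,0,-1,0,0,0,0,0,0],
   [0,0,0,0,0,0,0,-1,0,0,0,0,1,0,0,0,0,0,0,0,0,0,0,0,0,0,0,0],
   [0,1,0,0,0,0,0,0,0,-1,0,0,1,0,0,0,0,0,0,0,0,0,0,0,0,0,0,0],
   [0,0,-1,0,0,0,0,0,1,0,0,1,0,1,0,0,0,0,-1,0,0,1,0,0,0,0,0,0],
   [0,0,0,0,0,0,0,1,0,1,0,0,-1,1,1,0,0,0,0,-1,1,0,0,1,1,0,0,0],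
   [0,-1,1,0,0,1,1,0,0,-1,1,0,0,-1,-1,0,-1,-1,0,1,-1,0,0,-1,-1,0,0,0],
   [0,0,1,1,-1,1,0,1,1,1,-1,0,-1,0,0,0,0,0,0,1,0,0,0,-1,-1,0,0,0],
   [1,1,-2,-1,2,-1,-1,2,0,-1,0,0,0,2,1,-2,1,0,1,-2,0,-1,0,0,0,1,1,-1],
   [0,0,1,-1,1,0,0,2,-3,-2,1,-1,0,-1,0,-1,1,0,2,-1,-2,-3,0,0,-1,1,1,0],
   [-1,-1,1,-1,-1,1,1,-2,2,1,-1,2,1,0,0,1,0,1,1,0,-2,-1,0,-1,-1,1,1,0],
   [1,1,-1,1,0,-1,-1,1,0,1,0,-1,-1,1,1,0,0,0,-1,-1,3,1,0,2,2,-1,-1,0],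
   [0,-1,0,-1,1,0,1,1,-1,0,0,0,-1,0,0,-1,1,0,0,0,-1,-1,-1,0,-1,0,0,0],
   [0,0,-1,-1,1,-1,-2,2,1,0,-1,2,0,2,1,-1,2,2,2,-2,-1,-1,0,0,0,2,1,0],
   [1,-1,2,0,0,1,1,1,-1,-2,1,-1,0,-2,-1,-1,0,-1,2,0,-3,-3,0,-2,-3,1,1,-1]]

def Ql : List (List ℤ) :=
  [[1,0,0,0,0,0,0,0,0,0,0,0,0,0,0,0,0,0,0,0,0,0,0,0,0,0,0,0],
   [0,0,1,0,0,0,0,0,0,0,0,0,0,0,0,0,0,0,0,0,0,0,0,0,0,0,0,0],
   [0,0,0,0,0,0,1,0,0,0,0,0,0,0,0,0,0,0,0,0,0,0,0,0,0,0,0,0],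
   [0,0,0,0,1,0,0,0,0,0,0,0,0,0,0,0,0,0,0,0,0,0,0,0,0,0,0,0],
   [0,0,0,0,1,0,0,0,1,0,0,0,0,0,0,0,0,0,0,0,0,0,0,0,0,0,0,0],
   [1,0,1,0,0,0,-1,0,0,0,0,0,-1,1,1,1,-1,0,0,0,0,0,0,0,0,0,0,0],
   [0,0,0,0,1,0,0,0,0,0,1,0,0,0,0,0,0,0,0,0,0,0,0,0,0,0,0,0],
   [-1,0,-1,0,0,0,0,0,0,0,0,0,1,0,0,-1,1,0,0,0,0,0,0,0,0,0,0,0],
   [0,0,0,0,0,0,0,0,0,1,0,0,0,0,0,0,0,0,0,0,0,0,0,0,0,0,0,0],
   [-1,0,0,0,0,0,0,0,0,0,0,0,1,0,0,0,0,0,0,0,0,0,0,0,0,0,0,0],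
   [0,0,1,0,0,0,0,-1,0,0,0,0,0,0,0,0,0,0,0,0,0,0,0,0,0,0,0,0],
   [0,0,0,0,0,-1,0,0,0,0,0,0,0,0,0,0,0,0,0,0,0,0,0,0,0,0,0,0],
   [-1,0,-1,0,0,0,0,0,0,0,0,0,1,0,0,0,1,0,0,0,0,0,0,0,0,0,0,0],
   [0,0,0,0,0,1,1,0,0,-1,0,0,0,-1,0,0,0,1,0,0,0,0,0,0,0,0,0,0],
   [1,0,0,0,0,0,-1,-1,1,0,0,-1,-1,0,-1,1,1,-1,1,0,1,0,0,0,0,0,0,0],
   [0,0,-1,0,0,0,0,0,1,0,-1,1,1,-1,0,-2,2,1,2,-2,-1,-1,-1,-1,-2,0,0,1],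
   [1,0,0,0,0,-1,0,0,0,2,0,1,0,0,1,0,0,1,2,-3,-1,-1,-1,-2,-3,0,0,1],
   [0,0,1,0,1,1,0,-1,0,-2,1,-1,-1,1,0,0,-1,-1,-3,2,1,1,1,2,3,0,0,-1],
   [0,0,0,1,0,0,0,0,0,0,0,0,0,0,0,0,0,0,0,0,0,0,0,0,0,0,0,0],
   [0,1,0,0,0,0,0,0,0,0,0,0,0,0,0,0,0,0,0,0,0,0,0,0,0,0,0,0],
   [0,0,0,0,0,-1,0,0,0,0,0,1,0,0,0,0,0,0,0,0,0,0,0,0,0,0,0,0],
   [0,0,0,1,0,0,0,0,0,0,0,0,0,1,0,0,0,0,0,0,0,0,0,0,0,0,0,0],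
   [0,0,0,0,1,0,0,0,1,0,2,-1,-1,0,0,2,-2,1,-1,0,1,0,1,0,1,-1,0,0],
   [-1,1,0,1,0,0,0,1,0,0,0,0,0,1,0,1,-1,1,-1,1,0,0,1,1,2,0,0,0],
   [1,0,0,-1,0,0,0,0,-1,1,0,0,0,0,1,-1,0,-1,1,-1,-1,0,-1,-1,-2,0,0,0],
   [0,1,1,-1,0,0,-1,1,0,0,0,1,0,0,0,1,0,0,2,0,-1,-1,-1,-1,-1,0,1,1],
   [0,0,-1,1,0,-1,1,0,-1,1,-1,1,1,1,0,-2,0,0,-1,0,0,1,1,1,0,0,-1,-1],
   [1,-1,0,0,0,0,0,0,0,1,0,0,0,-1,-1,1,0,0,0,1,1,0,1,0,0,0,0,-1]]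

def Ml : List (List ℤ) :=
  [[0,0,0,0,0,0,0,0,0,0,0,0,0,0,0,0,0,0,0,1,0,0,0,1,0,1,0,-1],
   [1,0,0,0,0,1,0,-1,0,-1,0,0,-1,0,1,0,1,0,0,0,0,0,0,-1,1,0,0,1],
   [0,0,0,0,0,0,0,0,0,0,0,0,0,0,0,0,0,0,1,0,0,1,0,1,-1,-1,1,0],
   [0,1,0,0,0,1,0,-1,0,0,1,0,-1,0,0,-1,0,1,0,0,0,0,0,0,0,1,-1,0],
   [0,0,0,0,0,0,0,0,0,0,0,-1,0,1,0,0,-1,1,0,0,-1,0,0,0,0,0,-1,0],
   [0,0,0,1,1,0,1,0,0,0,0,0,0,0,0,0,0,1,0,0,0,0,1,0,0,0,0,0],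
   [0,0,0,0,0,0,0,0,0,0,-1,0,0,0,-1,0,0,-1,0,0,0,0,0,1,0,1,0,0],
   [0,0,1,0,0,-1,0,0,0,0,0,0,0,1,-1,0,0,0,0,0,0,0,0,0,0,-1,1,0],
   [0,0,0,0,0,0,0,0,1,0,0,0,0,-1,0,0,2,-2,0,0,0,0,0,0,1,0,1,1],
   [0,0,0,0,1,0,0,0,0,0,0,0,0,0,1,1,0,0,0,0,0,0,1,0,-1,0,-1,0],
   [0,0,0,0,0,0,0,0,0,0,0,0,0,0,-1,1,1,-1,0,0,1,0,-1,0,0,1,1,0],
   [0,0,0,0,0,0,1,0,0,0,0,0,0,0,0,-1,0,1,0,0,0,0,2,0,0,0,-1,0],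
   [0,0,0,0,0,1,0,0,0,0,0,0,0,-1,0,-1,0,1,0,0,0,1,0,1,0,0,1,-1],
   [0,0,0,0,0,-1,0,1,0,1,0,0,1,0,-1,1,0,-1,0,0,0,0,-1,0,0,0,1,0],
   [0,0,0,0,0,1,0,-1,0,0,0,0,0,0,1,-2,0,0,0,0,0,0,2,1,-1,1,-2,1],
   [0,0,0,0,0,1,0,0,0,0,0,0,0,0,-1,0,1,0,0,0,0,0,0,0,1,0,0,-1],
   [0,0,0,0,0,0,0,0,0,0,0,0,0,1,-1,1,1,-1,0,0,0,0,1,1,-1,0,0,0],
   [0,0,0,0,0,-1,0,1,0,0,0,0,1,0,1,2,0,-1,0,0,0,0,-2,-1,0,0,0,0],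
   [0,0,0,0,0,0,0,0,0,0,0,0,0,0,0,-2,-3,2,0,0,0,0,0,1,-1,0,0,1],
   [0,0,0,0,0,0,0,0,0,0,0,0,0,0,1,2,2,-3,0,0,0,0,-1,-1,1,2,-1,0],
   [0,0,0,0,0,0,0,0,0,0,0,0,0,0,2,-1,-1,1,0,0,0,0,1,-1,-1,-1,-1,1],
   [0,0,0,0,0,0,0,0,0,0,0,0,0,0,0,-1,0,0,0,0,0,0,0,-1,1,-1,1,0],
   [0,0,0,0,0,0,0,0,0,0,0,0,0,0,-1,0,1,-1,0,0,0,0,1,1,0,0,1,1],
   [0,0,0,0,0,0,0,0,0,0,0,0,0,0,0,2,1,-1,0,0,0,0,-2,-1,1,1,0,-1],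
   [0,0,0,0,0,0,0,0,0,0,0,0,0,0,0,-3,-4,4,0,0,0,0,3,3,-3,-1,-1,0],
   [0,0,0,0,0,0,0,0,0,0,0,0,0,0,0,2,3,-3,0,0,0,0,-3,-2,2,0,1,0],
   [0,0,0,0,0,0,0,0,0,0,0,0,0,0,0,-1,-1,1,0,0,0,0,1,0,0,1,-1,1],
   [0,0,0,0,0,0,0,0,0,0,0,0,0,0,0,2,2,-2,0,0,0,0,0,0,0,1,-1,-2]]

abbrev V := Fin 8 → ℤ

noncomputable def e (n : ℕ) : ExteriorAlgebra ℤ V := ι ℤ (fun t : Fin 8 => if t.val = n then 1 else 0)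

noncomputable def pr (l : List ℕ) : ExteriorAlgebra ℤ V := (l.map e).prod

def ins (i : ℕ) : List ℕ → ℤ × List ℕ
  | [] => (1, [i])
  | j :: l => if i < j then (1, i :: j :: l) else if i = j then (0, [])
      else (-(ins i l).1, j :: (ins i l).2)

def nrm : List ℕ → ℤ × List ℕ
  | [] => (1, [])
  | i :: l => ((nrm l).1 * (ins i (nrm l).2).1, (ins i (nrm l).2).2)

lemma pr_cons (i : ℕ) (l : List ℕ) : pr (i :: l) = e i * pr l := by simp [pr]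

lemma pr_append (l m : List ℕ) : pr (l ++ m) = pr l * pr m := by simp [pr]

lemma e_sq (i : ℕ) : e i * e i = 0 := ι_sq_zero _

lemma e_anti (i j : ℕ) : e i * e j = -(e j * e i) :=
  eq_neg_of_add_eq_zero_left (ι_add_mul_swap _ _)

lemma ins_spec (i : ℕ) (l : List ℕ) : e i * pr l = (ins i l).1 • pr (ins i l).2 := by
  induction l with
  | nil => simp [ins, pr]
  | cons j l ih =>
    unfold ins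
    split_ifs with h1 h2
    · simp [pr_cons]
    · subst h2
      rw [pr_cons, ← mul_assoc, e_sq]; simp
    · simp only [pr_cons]
      rw [← mul_assoc, e_anti, neg_mul, mul_assoc, ih, mul_smul_comm, neg_smul]

lemma nrm_spec (l : List ℕ) : pr l = (nrm l).1 • pr (nrm l).2 := by
  induction l with
  | nil => simp [nrm]
  | cons i l ih =>
    rw [pr_cons, ih, mul_smul_comm, ins_spec, smul_smul]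
    rfl

def full : List ℕ := [0, 1, 2, 3, 4, 5, 6, 7]

def okl (l : List ℕ) : Bool := (nrm l).1 == 0 || (nrm l).2 == full

lemma pr_ok (l : List ℕ) (h : okl l = true) : pr l = (nrm l).1 • pr full := by
  rw [nrm_spec l]
  simp only [okl, Bool.or_eq_true, beq_iff_eq] at h
  rcases h with h | h
  · rw [h]; simp
  · rw [h]

noncomputable def om (w : List (ℤ × List ℕ)) : ExteriorAlgebra ℤ V :=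
  (w.map fun q => q.1 • pr q.2).sum

def co (l : List ℕ) (w : List (ℤ × List ℕ)) : ℤ := (w.map fun q => q.1 * (nrm (l ++ q.2)).1).sum

lemma mul_om (l : List ℕ) (w : List (ℤ × List ℕ)) (h : (w.all fun q => okl (l ++ q.2)) = true) :
    pr l * om w = co l w • pr full := by
  induction w with
  | nil => simp [om, co]
  | cons q w ih =>
    simp only [List.all_cons, Bool.and_eq_true] at h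
    have := ih h.2
    simp only [om, co, List.map_cons, List.sum_cons] at this ⊢
    rw [mul_add, this, mul_smul_comm, ← pr_append, pr_ok _ h.1, smul_smul, add_smul]

def p1 (a : Fin 28) : ℕ := (prs.getD a.val (0, 0)).1
def p2 (a : Fin 28) : ℕ := (prs.getD a.val (0, 0)).2

def ent (X : List (List ℤ)) (i j : ℕ) : ℤ := (X.getD i []).getD j 0

lemma chkA : ∀ a b : Fin 28, (W.all fun q => okl ([p1 a, p2 a, p1 b, p2 b] ++ q.2)) = true ∧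
    co [p1 a, p2 a, p1 b, p2 b] W = ent Al a.val b.val := by decide +kernel

lemma chkM : ∀ i b : Fin 28, ∑ a : Fin 28, ent Pl i.val a.val * ent Al a.val b.val
    = ent Ml i.val b.val := by decide +kernel

lemma chkQ : ∀ a b : Fin 28, ∑ i : Fin 28, ent Ql a.val i.val * ent Pl i.val b.val
    = if a = b then 1 else 0 := by decide +kernel

abbrev Idx := (Fin 2 × Fin 10) ⊕ Fin 8

def gram : Matrix Idx Idx ℤ :=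
  Matrix.fromBlocks (Matrix.blockDiagonal fun _ : Fin 10 => !![0, 1; 1, 0]) 0 0 CartanMatrix.E₈

def pos : Idx → Fin 28
  | Sum.inl (s, k) => ⟨2 * k.val + s.val, by omega⟩
  | Sum.inr t => ⟨20 + t.val, by omega⟩

lemma chkG : ∀ i j : Idx, ∑ b : Fin 28, ent Ml (pos i).val b.val * ent Pl (pos j).val b.val
    = gram i j := by decide +kernel

lemma pos_surj : ∀ a : Fin 28, ∃ i : Idx, pos i = a := by decide +kernel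

lemma prs_surj : ∀ i j : Fin 8, i < j → ∃ a : Fin 28, p1 a = i.val ∧ p2 a = j.val := by
  decide +kernel

lemma e_mem (n : ℕ) : e n ∈ ⋀[ℤ]^1 V := by
  simp only [exteriorPower, pow_one]
  exact ⟨_, rfl⟩

lemma pr_mem (l : List ℕ) : pr l ∈ ⋀[ℤ]^(l.length) V := by
  induction l with
  | nil => simp [pr, exteriorPower]; exact ⟨1, by simp⟩
  | cons i l ih =>
    rw [pr_cons, List.length_cons, add_comm]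
    exact SetLike.mul_mem_graded (e_mem i) ih

lemma om_mem (w : List (ℤ × List ℕ)) (h : (w.all fun q => q.2.length == 4) = true) :
    om w ∈ ⋀[ℤ]^4 V := by
  induction w with
  | nil => simp [om]
  | cons q w ih =>
    simp only [List.all_cons, Bool.and_eq_true, beq_iff_eq] at h
    have := ih (by simpa using h.2)
    simp only [om, List.map_cons, List.sum_cons] at this ⊢
    refine Submodule.add_mem _ (Submodule.smul_mem _ _ ?_) this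
    rw [← h.1]; exact pr_mem _

noncomputable def x (a : Fin 28) : ⋀[ℤ]^2 V := ⟨pr [p1 a, p2 a], pr_mem [p1 a, p2 a]⟩

noncomputable def y (i : Fin 28) : ⋀[ℤ]^2 V := ∑ a : Fin 28, ent Pl i.val a.val • x a

lemma x_mul (a b : Fin 28) : (x a : ExteriorAlgebra ℤ V) * x b * om W
    = ent Al a.val b.val • pr full := by
  have := mul_om _ _ (chkA a b).1
  rw [(chkA a b).2] at this
  rw [← this]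
  change pr [p1 a, p2 a] * pr [p1 b, p2 b] * om W = _
  rw [← pr_append]; rfl

lemma y_mul (i j : Idx) : (y (pos i) : ExteriorAlgebra ℤ V) * y (pos j) * om W
    = gram i j • pr full := by
  rw [← chkG]
  simp only [y, Submodule.coe_sum, Submodule.coe_smul, Finset.sum_mul, Finset.mul_sum,
    smul_mul_assoc, mul_smul_comm, x_mul, ← chkM, Finset.sum_smul, smul_smul]
  refine Finset.sum_congr rfl fun b _ => ?_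
  rw [Finset.smul_sum]
  refine Finset.sum_congr rfl fun a _ => ?_
  rw [smul_smul]
  congr 1; ring

lemma x_eq (a : Fin 28) : x a = ∑ i : Fin 28, ent Ql a.val i.val • y i := by
  simp only [y, Finset.smul_sum, smul_smul]
  rw [Finset.sum_comm]
  simp only [← Finset.sum_smul, chkQ]
  simp

lemma iota_eq (v : V) : ι ℤ v = ∑ t : Fin 8, v t • e t.val := by
  simp only [e, ← map_smul, ← map_sum]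
  congr 1
  ext s
  simp [Finset.sum_apply, Fin.val_inj]

lemma span_x : ⊤ ≤ Submodule.span ℤ (Set.range x) := by
  have key : ∀ i j : Fin 8, e i.val * e j.val ∈
      (Submodule.span ℤ (Set.range x)).map (⋀[ℤ]^2 V).subtype := by
    have k1 : ∀ i j : Fin 8, i < j → e i.val * e j.val ∈
        (Submodule.span ℤ (Set.range x)).map (⋀[ℤ]^2 V).subtype := by
      intro i j h
      obtain ⟨a, h1, h2⟩ := prs_surj i j h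
      refine ⟨x a, Submodule.subset_span ⟨a, rfl⟩, ?_⟩
      simp [x, pr, h1, h2]
    intro i j
    rcases lt_trichotomy i j with h | h | h
    · exact k1 i j h
    · subst h; rw [e_sq]; exact Submodule.zero_mem _
    · rw [e_anti]; exact Submodule.neg_mem _ (k1 j i h)
  have h2 : (⋀[ℤ]^2 V) ≤ (Submodule.span ℤ (Set.range x)).map (⋀[ℤ]^2 V).subtype := by
    conv_lhs => rw [← ExteriorAlgebra.ιMulti_span_fixedDegree ℤ 2]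
    rw [Submodule.span_le]
    rintro _ ⟨v, rfl⟩
    have : ιMulti ℤ 2 v = ι ℤ (v 0) * ι ℤ (v 1) := by
      simp [ιMulti_apply, List.ofFn_succ]; rfl
    rw [SetLike.mem_coe, this, iota_eq, iota_eq, Finset.sum_mul]
    refine Submodule.sum_mem _ fun i _ => ?_
    rw [Finset.mul_sum]
    refine Submodule.sum_mem _ fun j _ => ?_
    rw [smul_mul_assoc, mul_smul_comm]
    exact Submodule.smul_mem _ _ (Submodule.smul_mem _ _ (key i j))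
  intro z _
  obtain ⟨u, hu, hz⟩ := h2 z.2
  have : u = z := Subtype.ext hz
  rwa [← this]

lemma span_y : ⊤ ≤ Submodule.span ℤ (Set.range fun i : Idx => y (pos i)) := by
  refine span_x.trans (Submodule.span_le.2 ?_)
  rintro _ ⟨a, rfl⟩
  rw [SetLike.mem_coe, x_eq]
  refine Submodule.sum_mem _ fun i _ => Submodule.smul_mem _ _ (Submodule.subset_span ?_)
  obtain ⟨k, rfl⟩ := pos_surj i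
  exact ⟨k, rfl⟩

lemma card_eq : Fintype.card Idx = Module.finrank ℤ (⋀[ℤ]^2 V) := by
  rw [exteriorPower.finrank_eq]
  simp [Nat.choose]

lemma top_eq : ιMulti ℤ 8 (fun i : Fin 8 => (Pi.single i 1 : V)) = pr full := by
  have : ∀ i : Fin 8, ι ℤ (Pi.single i 1 : V) = e i.val := by
    intro i
    unfold e
    congr 1
    ext t
    simp [Pi.single_apply, Fin.val_inj]
  rw [ιMulti_apply]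
  simp only [this]
  rfl

theorem main : ∃ ω ∈ ⋀[ℤ]^4 V, ∃ b : Module.Basis Idx ℤ (⋀[ℤ]^2 V), ∀ i j,
    (b i : ExteriorAlgebra ℤ V) * b j * ω
      = gram i j • ιMulti ℤ 8 (fun i : Fin 8 => (Pi.single i 1 : V)) := by
  refine ⟨om W, om_mem W (by decide), basisOfTopLeSpanOfCardEqFinrank _ span_y card_eq, ?_⟩
  intro i j
  rw [coe_basisOfTopLeSpanOfCardEqFinrank, top_eq]
  exact y_mul i j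

end Pool.Agent.H50.Torus
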