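import Mathlib
import Pool.Agent.H50.Vreg1

namespace Pool.Agent.H50.Vreg

open Finset

section gr
variable {K P : Type} [CommRing K] [CommRing P] [Algebra K P] (𝒜 : ℤ → Submodule K P)
  [GradedRing 𝒜] {n : ℕ} (g : Fin n → P) (w : Fin n → ℕ)

def ws (σ : Finset (Fin n)) : ℤ := ∑ i ∈ σ, (w i : ℤ)

lemma pr_mem (d : ℤ) (f : P) : GradedRing.proj 𝒜 d f ∈ 𝒜 d := by
  rw [GradedRing.proj_apply]; exact SetLike.coe_mem _

lemma pr_self {d : ℤ} {f : P} (h : f ∈ 𝒜 d) : GradedRing.proj 𝒜 d f = f := by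
  rw [GradedRing.proj_apply, DirectSum.decompose_of_mem_same 𝒜 h]

lemma pr_mul {d e c : ℤ} {h : P} (hh : h ∈ 𝒜 e) (f : P) (hc : c = e + d) :
    GradedRing.proj 𝒜 c (h * f) = h * GradedRing.proj 𝒜 d f := by
  rw [hc, GradedRing.proj_apply, GradedRing.proj_apply,
    DirectSum.coe_decompose_mul_add_of_left_mem 𝒜 hh]

lemma pr_ideal {I : Ideal P} (hI : I.IsHomogeneous 𝒜) (d : ℤ) {f : P} (hf : f ∈ I) :
    GradedRing.proj 𝒜 d f ∈ I := by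
  rw [GradedRing.proj_apply]; exact hI d hf

lemma mul_deg {d e c : ℤ} {h f : P} (hh : h ∈ 𝒜 e) (hf : f ∈ 𝒜 d) (hc : c = e + d) :
    h * f ∈ 𝒜 c := hc ▸ SetLike.mul_mem_graded hh hf

lemma pow_deg {e c : ℤ} {h : P} (hh : h ∈ 𝒜 e) (l : ℕ) (hc : c = l * e) : h ^ l ∈ 𝒜 c := by
  have := SetLike.pow_mem_graded l hh
  rwa [nsmul_eq_mul, ← hc] at this

variable {g w} (hg : ∀ i, g i ∈ 𝒜 (w i))
include hg

lemma gp_deg (σ : Finset (Fin n)) (l : ℕ) : (∏ i ∈ σ, g i) ^ l ∈ 𝒜 (l * ws w σ) :=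
  pow_deg 𝒜 (SetLike.prod_mem_graded 𝒜 _ _ fun i _ => hg i) l rfl

lemma pr_kd (d : ℤ) (m : ℕ) (b : Finset (Fin n) → P) (τ : Finset (Fin n)) :
    GradedRing.proj 𝒜 (d + m * ws w τ) (kd g m b τ) =
      kd g m (fun σ => GradedRing.proj 𝒜 (d + m * ws w σ) (b σ)) τ := by
  rw [kd_def, kd_def, map_sum]
  refine sum_congr rfl fun j hj => ?_
  refine pr_mul 𝒜 (e := m * w j) ?_ _ ?_
  · have h1 : sg P τ j ∈ 𝒜 0 :=
      pow_deg 𝒜 (e := 0) (neg_mem (SetLike.one_mem_graded 𝒜)) _ (by simp)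
    exact mul_deg 𝒜 h1 (pow_deg 𝒜 (hg j) m rfl) (by simp)
  · rw [ws, ws, ← add_sum_erase τ _ hj]; ring
end gr

section vm
variable {K P : Type} [CommRing K] [CommRing P] [Algebra K P] (𝒜 : ℤ → Submodule K P)
  {n : ℕ} (g : Fin n → P) (w : Fin n → ℕ)

def SC (I U : Ideal P) (p m : ℕ) (a : Finset (Fin n) → P) : Prop :=
  ∃ (l : ℕ) (b : Finset (Fin n) → P), (∀ σ, b σ ∈ I) ∧ (∀ σ, σ.card + 1 ≠ p → b σ = 0) ∧
    ∀ σ, kd g (m + l) b σ - (∏ i ∈ σ, g i) ^ l * a σ ∈ U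

def VM (I U : Ideal P) (p : ℕ) (d : ℤ) : Prop :=
  ∀ (m : ℕ) (a : Finset (Fin n) → P), (∀ σ, a σ ∈ I) → (∀ σ, σ.card ≠ p → a σ = 0) →
    (∀ σ, a σ ∈ 𝒜 (d + m * ws w σ)) → (∀ τ, kd g m a τ ∈ U) → SC g I U p m a

variable [GradedRing 𝒜] {g w} (hg : ∀ i, g i ∈ 𝒜 (w i)) (hw : ∀ i, 0 < w i)

include hw in
lemma ws_pos {σ : Finset (Fin n)} (h : σ.card ≠ 0) : 1 ≤ ws w σ := by
  obtain ⟨i, hi⟩ := card_pos.1 (Nat.pos_of_ne_zero h)
  have h1 : (w i : ℤ) ≤ ws w σ :=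
    single_le_sum (f := fun i => (w i : ℤ)) (fun _ _ => Int.natCast_nonneg _) hi
  have := hw i
  omega

include hw in
lemma big {σ : Finset (Fin n)} {p : ℕ} (hp : σ.card = p) {d e0 : ℤ} (h0 : p = 0 → e0 ≤ d) (m : ℕ) :
    e0 ≤ d + ((m + (e0 - d).toNat : ℕ) : ℤ) * ws w σ := by
  by_cases h : σ.card = 0
  · have := h0 (hp ▸ h)
    rw [card_eq_zero.1 h, ws]; simpa using this
  · have h1 := ws_pos hw h
    have h2 : e0 - d ≤ ((m + (e0 - d).toNat : ℕ) : ℤ) := by omega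
    have h3 : (0 : ℤ) ≤ ((m + (e0 - d).toNat : ℕ) : ℤ) := Int.natCast_nonneg _
    nlinarith

include hg hw in
lemma base {I U : Ideal P} {e0 : ℤ} (h : ∀ e, e0 ≤ e → ∀ f ∈ I, f ∈ 𝒜 e → f ∈ U) {p : ℕ} {d : ℤ}
    (h0 : p = 0 → e0 ≤ d) : VM 𝒜 g w I U p d := by
  intro m a haI ha0 had _
  refine ⟨(e0 - d).toNat, fun _ => 0, fun _ => I.zero_mem, fun _ _ => rfl, fun σ => ?_⟩
  have h1 : kd g (m + (e0 - d).toNat) (fun _ => 0) σ = 0 := by simp [kd]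
  rw [h1, zero_sub, neg_mem_iff]
  by_cases hp : σ.card = p
  · exact h _ (big hw hp h0 m) _ (I.mul_mem_left _ (haI σ))
      (mul_deg 𝒜 (gp_deg 𝒜 hg σ _) (had σ) (by push_cast; ring))
  · rw [ha0 σ hp, mul_zero]; exact U.zero_mem

include hg hw in
lemma step {I U U' : Ideal P} (hI : I.IsHomogeneous 𝒜) (hU : U.IsHomogeneous 𝒜) (j : Fin n)
    (h1 : U ≤ U') (h2 : ∀ b ∈ I, g j * b ∈ U') (h3 : ∀ f ∈ U', ∃ b ∈ I, f - g j * b ∈ U) {e0 : ℤ}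
    (hinj : ∀ e, e0 ≤ e → ∀ f ∈ I, f ∈ 𝒜 e → g j * f ∈ U → f ∈ U) {p : ℕ} {d : ℤ}
    (h0 : p = 0 → e0 ≤ d) (hV : ∀ q, p = q + 1 → VM 𝒜 g w I U' q (d + w j)) {m : ℕ}
    {a : Finset (Fin n) → P} (haI : ∀ σ, a σ ∈ I) (ha0 : ∀ σ, σ.card ≠ p → a σ = 0)
    (had : ∀ σ, a σ ∈ 𝒜 (d + m * ws w σ)) (hsc : SC g I U p m (fun σ => g j * a σ)) :
    SC g I U p m a := by
  -- it suffices to find a coboundary up to `g j`-torsion
  suffices H : ∃ (l : ℕ) (b : Finset (Fin n) → P), (∀ σ, b σ ∈ I) ∧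
      (∀ σ, σ.card + 1 ≠ p → b σ = 0) ∧
      ∀ σ, g j * (kd g (m + l) b σ - (∏ i ∈ σ, g i) ^ l * a σ) ∈ U by
    obtain ⟨l, b, hb, hb0, hbU⟩ := H
    set b1 : Finset (Fin n) → P :=
      fun σ => GradedRing.proj 𝒜 (d + ((m + l : ℕ) : ℤ) * ws w σ) (b σ) with hb1
    set t := (e0 - d).toNat
    refine ⟨l + t, fun σ => (∏ i ∈ σ, g i) ^ t * b1 σ,
      fun σ => I.mul_mem_left _ (pr_ideal 𝒜 hI _ (hb σ)),
      fun σ h => by simp [hb1, hb0 σ h], fun σ => ?_⟩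
    have hd : (∏ i ∈ σ, g i) ^ l * a σ ∈ 𝒜 (d + ((m + l : ℕ) : ℤ) * ws w σ) :=
      mul_deg 𝒜 (gp_deg 𝒜 hg σ _) (had σ) (by push_cast; ring)
    have e1 : kd g (m + l) b1 σ - (∏ i ∈ σ, g i) ^ l * a σ =
        GradedRing.proj 𝒜 (d + ((m + l : ℕ) : ℤ) * ws w σ)
          (kd g (m + l) b σ - (∏ i ∈ σ, g i) ^ l * a σ) := by
      rw [map_sub, pr_kd 𝒜 hg, pr_self 𝒜 hd]
    have e2 : kd g (m + (l + t)) (fun σ => (∏ i ∈ σ, g i) ^ t * b1 σ) σ -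
        (∏ i ∈ σ, g i) ^ (l + t) * a σ =
        (∏ i ∈ σ, g i) ^ t * (kd g (m + l) b1 σ - (∏ i ∈ σ, g i) ^ l * a σ) := by
      rw [← add_assoc, kd_up]; ring
    rw [e2, e1]
    by_cases hp : σ.card = p
    · refine hinj _ (big hw hp h0 (m + l)) _ (I.mul_mem_left _ (pr_ideal 𝒜 hI _
        (I.sub_mem (kd_mem g I _ hb σ) (I.mul_mem_left _ (haI σ)))))
        (mul_deg 𝒜 (gp_deg 𝒜 hg σ _) (pr_mem 𝒜 _ _) (by push_cast; ring)) ?_
      rw [mul_left_comm, ← pr_mul 𝒜 (hg j) _ rfl]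
      exact U.mul_mem_left _ (pr_ideal 𝒜 hU _ (hbU σ))
    · have e3 : kd g (m + l) b σ = 0 := by
        refine sum_eq_zero fun i hi => ?_
        rw [hb0, mul_zero]
        rw [card_erase_add_one hi]; exact hp
      rw [e3, ha0 σ hp]; simp
  obtain ⟨l, b, hb, hb0, hbU⟩ := hsc
  rcases p with _ | q
  · refine ⟨l, fun _ => 0, fun _ => I.zero_mem, fun _ _ => rfl, fun σ => ?_⟩
    have e1 : b = fun _ => 0 := funext fun σ => hb0 σ (by omega)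
    have := hbU σ
    rw [e1] at this
    have e2 : kd g (m + l) (fun _ => 0) σ = 0 := by simp [kd]
    rw [e2] at this ⊢
    convert this using 1; ring
  set b1 : Finset (Fin n) → P :=
    fun σ => GradedRing.proj 𝒜 (d + w j + ((m + l : ℕ) : ℤ) * ws w σ) (b σ) with hb1
  have hb1U : ∀ σ, kd g (m + l) b1 σ - (∏ i ∈ σ, g i) ^ l * (g j * a σ) ∈ U := fun σ => by
    have hd : (∏ i ∈ σ, g i) ^ l * (g j * a σ) ∈ 𝒜 (d + w j + ((m + l : ℕ) : ℤ) * ws w σ) :=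
      mul_deg 𝒜 (gp_deg 𝒜 hg σ _) (mul_deg 𝒜 (hg j) (had σ) rfl) (by push_cast; ring)
    have := pr_ideal 𝒜 hU (d + w j + ((m + l : ℕ) : ℤ) * ws w σ) (hbU σ)
    rwa [map_sub, pr_kd 𝒜 hg, pr_self 𝒜 hd] at this
  have hb10 : ∀ σ, σ.card ≠ q → b1 σ = 0 := fun σ h => by simp [hb1, hb0 σ (by omega)]
  obtain ⟨l', c, -, hc0, hcU⟩ := hV q rfl (m + l) b1 (fun σ => pr_ideal 𝒜 hI _ (hb σ)) hb10
    (fun σ => pr_mem 𝒜 _ _) (fun τ => by
      have := U'.add_mem (h1 (hb1U τ)) (h2 _ (I.mul_mem_left ((∏ i ∈ τ, g i) ^ l) (haI τ)))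
      convert this using 1; ring)
  have hch : ∀ σ, ∃ b' ∈ I, (σ.card ≠ q → b' = 0) ∧
      kd g (m + l + l') c σ - (∏ i ∈ σ, g i) ^ l' * b1 σ - g j * b' ∈ U := fun σ => by
    by_cases hq : σ.card = q
    · obtain ⟨b', hb', h⟩ := h3 _ (hcU σ)
      exact ⟨b', hb', fun h => absurd hq h, h⟩
    · refine ⟨0, I.zero_mem, fun _ => rfl, ?_⟩
      have e3 : kd g (m + l + l') c σ = 0 := by
        refine sum_eq_zero fun i hi => ?_
        rw [hc0, mul_zero]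
        rw [card_erase_add_one hi]; exact hq
      rw [e3, hb10 σ hq]; simp
  choose b' hb' hb'0 hb'U using hch
  refine ⟨l + l', fun σ => -b' σ, fun σ => I.neg_mem (hb' σ),
    fun σ h => by simp [hb'0 σ (by omega)], fun τ => ?_⟩
  have k1 := kd_mem g U (m + l + l') hb'U τ
  have k2 : kd g (m + l + l') (fun σ => kd g (m + l + l') c σ - (∏ i ∈ σ, g i) ^ l' * b1 σ -
      g j * b' σ) τ = kd g (m + l + l') (kd g (m + l + l') c) τ -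
      kd g (m + l + l') (fun σ => (∏ i ∈ σ, g i) ^ l' * b1 σ) τ +
      g j * kd g (m + l + l') (fun σ => -b' σ) τ := by
    simp only [kd_def g (m + l + l') _ τ, mul_sum, ← sum_add_distrib, ← sum_sub_distrib]
    exact sum_congr rfl fun i _ => by ring
  rw [k2, kd_kd, kd_up] at k1
  have := U.add_mem k1 (U.mul_mem_left ((∏ i ∈ τ, g i) ^ l') (hb1U τ))
  rw [← add_assoc]
  convert this using 1; ring

include hg hw in
lemma chain {I U U' : Ideal P} (hI : I.IsHomogeneous 𝒜) (hU : U.IsHomogeneous 𝒜) (j : Fin n)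
    (h1 : U ≤ U') (h2 : ∀ b ∈ I, g j * b ∈ U') (h3 : ∀ f ∈ U', ∃ b ∈ I, f - g j * b ∈ U) {e0 : ℤ}
    (hinj : ∀ e, e0 ≤ e → ∀ f ∈ I, f ∈ 𝒜 e → g j * f ∈ U → f ∈ U) {p : ℕ} {d : ℤ}
    (h0 : p = 0 → e0 ≤ d) (hV : ∀ q, p = q + 1 → ∀ e, d + w j ≤ e → VM 𝒜 g w I U' q e) :
    VM 𝒜 g w I U p d := by
  intro m a haI ha0 had hcoc
  have key : ∀ t : ℕ, SC g I U p m (fun σ => g j ^ t * a σ) → SC g I U p m a := by
    intro t
    induction t with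
    | zero => intro h; simpa using h
    | succ t ih =>
      intro h
      have ht : (0 : ℤ) ≤ t * w j := by positivity
      refine ih (step 𝒜 hg hw hI hU j h1 h2 h3 hinj (d := d + t * w j)
        (fun h => by have := h0 h; omega) (fun q hq => hV q hq _ (by omega))
        (fun σ => I.mul_mem_left _ (haI σ)) (fun σ h => by simp [ha0 σ h])
        (fun σ => mul_deg 𝒜 (pow_deg 𝒜 (hg j) t rfl) (had σ) (by ring)) ?_)
      simpa only [pow_succ', mul_assoc] using h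
  refine key m ⟨0, hom j a, fun σ => ?_, fun σ h => ?_, fun σ => ?_⟩
  · unfold hom; split_ifs
    · exact I.zero_mem
    · exact I.mul_mem_left _ (haI _)
  · unfold hom; split_ifs with hj
    · rfl
    · rw [ha0, mul_zero]; rwa [card_insert_of_notMem hj]
  · have e : kd g (m + 0) (hom j a) σ - (∏ i ∈ σ, g i) ^ 0 * (g j ^ m * a σ) =
        -hom j (kd g m a) σ := by
      rw [← kd_hom g m j a σ, add_zero]; ring
    rw [e, neg_mem_iff]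
    unfold hom; split_ifs
    · exact U.zero_mem
    · exact U.mul_mem_left _ (hcoc _)
end vm

end Pool.Agent.H50.Vreg
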