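import Mathlib
import Pool.Agent.H50.Vreg2

namespace Pool.Agent.H50.Vreg

open Finset

section sh
variable {K P : Type} [CommRing K] [CommRing P] [Algebra K P] (𝒜 : ℤ → Submodule K P)
  {n : ℕ} {g : Fin n → P} {w : Fin n → ℕ}

def UU (J : Ideal P) (h : P) (V : Ideal P) : Ideal P := J ⊔ Ideal.span {h} * V

lemma memU {J V : Ideal P} {h f : P} : f ∈ UU J h V ↔ ∃ v ∈ V, f - h * v ∈ J := by
  constructor
  · intro hf
    obtain ⟨a, ha, b, hb, rfl⟩ := Submodule.mem_sup.1 hf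
    obtain ⟨v, hv, rfl⟩ := Ideal.mem_span_singleton_mul.1 hb
    exact ⟨v, hv, by simpa using ha⟩
  · rintro ⟨v, hv, h1⟩
    exact Submodule.mem_sup.2 ⟨_, h1, h * v, Ideal.mem_span_singleton_mul.2 ⟨v, hv, rfl⟩, by ring⟩

def Hq (J : Ideal P) (d : ℤ) (r : P ⧸ J) : Prop := ∃ f ∈ 𝒜 d, Ideal.Quotient.mk J f = r

lemma mem_Ik {J : Ideal P} {x : P} {k : ℕ} {f : P} :
    Ideal.Quotient.mk J f ∈ Ideal.span {Ideal.Quotient.mk J x} ^ k ↔ f ∈ UU J (x ^ k) ⊤ := by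
  rw [Ideal.span_singleton_pow, Ideal.mem_span_singleton', memU]
  constructor
  · rintro ⟨a, ha⟩
    obtain ⟨v, rfl⟩ := Ideal.Quotient.mk_surjective a
    refine ⟨v, trivial, ?_⟩
    rw [← Ideal.Quotient.eq, ← ha]; simp [mul_comm]
  · rintro ⟨v, -, hv⟩
    refine ⟨Ideal.Quotient.mk J v, ?_⟩
    rw [← Ideal.Quotient.eq] at hv
    rw [hv]; simp [mul_comm]

lemma colon_prime {J : Ideal P} {x : P} {k : ℕ} {f : P} :
    ((Ideal.span {Ideal.Quotient.mk J x} ^ k).colon {Ideal.Quotient.mk J f}).IsPrime ↔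
      ((UU J (x ^ k) ⊤).colon {f}).IsPrime := by
  have e : ((Ideal.span {Ideal.Quotient.mk J x} ^ k).colon {Ideal.Quotient.mk J f}).comap
      (Ideal.Quotient.mk J) = (UU J (x ^ k) ⊤).colon {f} := by
    ext r
    rw [Ideal.mem_comap, Submodule.mem_colon_singleton, Submodule.mem_colon_singleton, smul_eq_mul,
      smul_eq_mul, ← map_mul, mem_Ik]
  rw [← e]
  constructor
  · intro h; exact Ideal.comap_isPrime _ _
  · intro h
    have := Ideal.map_isPrime_of_surjective (Ideal.Quotient.mk_surjective (I := J)) (H := h)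
      (fun r hr => by rw [RingHom.mem_ker] at hr; rw [Ideal.mem_comap, hr]; exact zero_mem _)
    rwa [Ideal.map_comap_of_surjective _ Ideal.Quotient.mk_surjective] at this

lemma nzd_pow {J : Ideal P} {x : P} (hx : ∀ f, x * f ∈ J → f ∈ J) (k : ℕ) (f : P)
    (h : x ^ k * f ∈ J) : f ∈ J := by
  induction k with
  | zero => simpa using h
  | succ k ih => exact ih (hx _ (by rwa [pow_succ', mul_assoc] at h))

lemma colon_shift {J : Ideal P} {x : P} (hx : ∀ f, x * f ∈ J → f ∈ J) (k : ℕ) {f v : P}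
    (h : f - x ^ k * v ∈ J) :
    (UU J (x ^ (k + 1)) ⊤).colon {f} = (UU J (x ^ 1) ⊤).colon {v} := by
  ext r
  simp only [Submodule.mem_colon_singleton, smul_eq_mul, memU]
  constructor
  · rintro ⟨u, -, hu⟩
    refine ⟨u, trivial, nzd_pow hx k _ ?_⟩
    have := J.sub_mem hu (J.mul_mem_left r h)
    convert this using 1; ring
  · rintro ⟨u, -, hu⟩
    refine ⟨u, trivial, ?_⟩
    have := J.add_mem (J.mul_mem_left (x ^ k) hu) (J.mul_mem_left r h)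
    convert this using 1; ring

lemma reg_eq {R : Type} [CommRing R] {H : ℤ → R → Prop} {g : Fin n → R} {I : Ideal R} {r : ℤ}
    (h1 : ∀ (p : ℕ) (d : ℤ), r < d + p → Vanish H g w I p d) {p0 : ℕ} {d0 : ℤ}
    (h2 : ¬ Vanish H g w I p0 d0) (h3 : d0 + p0 = r) : reg H g w I = (r : ℝ) := by
  apply le_antisymm
  · refine iSup_le fun p => iSup_le fun d => iSup_le fun h => ?_
    have : d + p ≤ r := not_lt.1 fun h' => h (h1 p d h')
    exact_mod_cast this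
  · rw [← h3]
    exact le_iSup_of_le p0 (le_iSup_of_le d0 (le_iSup_of_le h2 le_rfl))

variable [GradedRing 𝒜] (hg : ∀ i, g i ∈ 𝒜 (w i)) (hw : ∀ i, 0 < w i) {J : Ideal P}
  (hJ : J.IsHomogeneous 𝒜) {x : P} (hx1 : x ∈ 𝒜 1) (hx : ∀ f, x * f ∈ J → f ∈ J)

include hJ hx1 in
lemma UU_hom (k : ℕ) {V : Ideal P} (hV : V.IsHomogeneous 𝒜) : (UU J (x ^ k) V).IsHomogeneous 𝒜 :=
  hJ.sup ((Ideal.homogeneous_span 𝒜 _ fun y hy => by
    rw [Set.mem_singleton_iff.1 hy]; exact ⟨k, pow_deg 𝒜 hx1 k (by simp)⟩).mul hV)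

include hJ hx1 in
lemma hom_lift (k : ℕ) {e : ℤ} {f : P} (hf : f ∈ UU J (x ^ k) ⊤) (he : f ∈ 𝒜 e) :
    ∃ v ∈ 𝒜 (e - k), f - x ^ k * v ∈ J := by
  obtain ⟨v, -, hv⟩ := memU.1 hf
  refine ⟨_, pr_mem 𝒜 _ v, ?_⟩
  have := pr_ideal 𝒜 hJ e hv
  rwa [map_sub, pr_self 𝒜 he,
    pr_mul 𝒜 (d := e - k) (pow_deg 𝒜 hx1 k (c := k) (by simp)) _ (by ring)] at this

lemma toU {J V : Ideal P} {h f v : P} (h1 : f - h * v ∈ J) (h2 : v ∈ J ⊔ V) : f ∈ UU J h V := by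
  obtain ⟨a, ha, b, hb, rfl⟩ := Submodule.mem_sup.1 h2
  refine memU.2 ⟨b, hb, ?_⟩
  have := J.add_mem h1 (J.mul_mem_left h ha)
  convert this using 1; ring

include hg hw hJ hx1 in
lemma base2 (k : ℕ) {V : Ideal P} {e0 : ℤ} (h : ∀ e, e0 ≤ e → ∀ f ∈ 𝒜 e, f ∈ J ⊔ V) {p : ℕ}
    {d : ℤ} (h0 : p = 0 → e0 + k ≤ d) : VM 𝒜 g w (UU J (x ^ k) ⊤) (UU J (x ^ k) V) p d := by
  refine base 𝒜 hg hw (fun e he f hf hfe => ?_) h0
  obtain ⟨v, hv, h1⟩ := hom_lift 𝒜 hJ hx1 k hf hfe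
  exact toU h1 (h _ (by omega) v hv)

include hg hw hJ hx1 hx in
lemma chain2 (k : ℕ) {V : Ideal P} (hV : V.IsHomogeneous 𝒜) (j : Fin n) {e0 : ℤ}
    (hinj : ∀ e, e0 ≤ e → ∀ f ∈ 𝒜 e, g j * f ∈ J ⊔ V → f ∈ J ⊔ V) {p : ℕ} {d : ℤ}
    (h0 : p = 0 → e0 + k ≤ d) (hn : ∀ q, p = q + 1 → ∀ e, d + w j ≤ e →
      VM 𝒜 g w (UU J (x ^ k) ⊤) (UU J (x ^ k) (V ⊔ Ideal.span {g j})) q e) :
    VM 𝒜 g w (UU J (x ^ k) ⊤) (UU J (x ^ k) V) p d := by
  refine chain 𝒜 hg hw (UU_hom 𝒜 hJ hx1 k (Ideal.IsHomogeneous.top 𝒜)) (UU_hom 𝒜 hJ hx1 k hV) j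
    (sup_le_sup_left (Ideal.mul_mono_right le_sup_left) _) (fun b hb => ?_) (fun f hf => ?_)
    (fun e he f hf hfe hU => ?_) h0 hn
  · obtain ⟨v, -, hv⟩ := memU.1 hb
    refine memU.2 ⟨g j * v, Submodule.mem_sup_right (Ideal.mul_mem_right _ _
      (Ideal.mem_span_singleton_self _)), ?_⟩
    have := J.mul_mem_left (g j) hv
    convert this using 1; ring
  · obtain ⟨v, hv, h1⟩ := memU.1 hf
    obtain ⟨a, ha, b, hb, rfl⟩ := Submodule.mem_sup.1 hv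
    obtain ⟨c, rfl⟩ := Ideal.mem_span_singleton'.1 hb
    refine ⟨x ^ k * c, memU.2 ⟨c, trivial, by simp⟩, memU.2 ⟨a, ha, ?_⟩⟩
    convert h1 using 1; ring
  · obtain ⟨v, hv, h1⟩ := hom_lift 𝒜 hJ hx1 k hf hfe
    obtain ⟨u, hu, h2⟩ := memU.1 hU
    refine toU h1 (hinj _ (by omega) v hv ?_)
    have h3 : g j * v - u ∈ J := nzd_pow hx k _ (by
      have := J.sub_mem h2 (J.mul_mem_left (g j) h1)
      convert this using 1; ring)
    exact Submodule.mem_sup.2 ⟨_, h3, u, hu, by ring⟩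

omit [GradedRing 𝒜] in
lemma vanish_of (k : ℕ) {p : ℕ} {d : ℤ} (h : VM 𝒜 g w (UU J (x ^ k) ⊤) (UU J (x ^ k) ⊥) p d) :
    Vanish (Hq 𝒜 J) (fun i => Ideal.Quotient.mk J (g i)) w
      (Ideal.span {Ideal.Quotient.mk J x} ^ k) p d := by
  intro m a haI ha0 had hc
  have e0 : UU J (x ^ k) ⊥ = J := by simp [UU]
  rw [e0] at h
  have hch : ∀ σ, ∃ f ∈ 𝒜 (d + m * ws w σ), (σ.card ≠ p → f = 0) ∧
      Ideal.Quotient.mk J f = a σ := fun σ => by
    by_cases hp : σ.card = p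
    · obtain ⟨f, hf, e⟩ := had σ
      exact ⟨f, hf, fun h => absurd hp h, e⟩
    · exact ⟨0, zero_mem _, fun _ => rfl, by rw [ha0 σ hp, map_zero]⟩
  choose f hf hf0 hfa using hch
  obtain ⟨l, b, hb, hb0, hbU⟩ := h m f (fun σ => mem_Ik.1 (hfa σ ▸ haI σ)) hf0 hf (fun τ => by
    rw [← Ideal.Quotient.eq_zero_iff_mem, map_kd]; simpa only [hfa] using hc τ)
  refine ⟨l, fun σ => Ideal.Quotient.mk J (b σ), fun σ => mem_Ik.2 (hb σ),
    fun σ h => by simp [hb0 σ h], fun σ => ?_⟩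
  have := Ideal.Quotient.eq.2 (hbU σ)
  rw [map_kd] at this
  rw [this, ← hfa]; simp

include hx1 hx in
lemma not_vanish (k m : ℕ) (σ0 : Finset (Fin n)) {d : ℤ} {u : P}
    (hu : u ∈ 𝒜 (d + m * ws w σ0 - k)) (h1 : ∀ j, j ∉ σ0 → g j ^ m * u ∈ J)
    (h2 : ∀ l, (∏ i ∈ σ0, g i) ^ l * u ∉ J ⊔ Ideal.span ((fun j => g j ^ (m + l)) '' σ0)) :
    ¬ Vanish (Hq 𝒜 J) (fun i => Ideal.Quotient.mk J (g i)) w
      (Ideal.span {Ideal.Quotient.mk J x} ^ k) σ0.card d := by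
  intro h
  obtain ⟨l, b, hb, -, hbe⟩ := h m (fun σ => if σ = σ0 then Ideal.Quotient.mk J (x ^ k * u) else 0)
    (fun σ => by
      split_ifs
      · exact mem_Ik.2 (memU.2 ⟨u, trivial, by simp⟩)
      · exact zero_mem _)
    (fun σ h => if_neg fun e => h (by rw [e]))
    (fun σ => by
      split_ifs with e
      · exact ⟨_, mul_deg 𝒜 (pow_deg 𝒜 hx1 k (c := k) (by simp)) hu (by rw [e, ws]; ring), rfl⟩
      · exact ⟨0, zero_mem _, map_zero _⟩)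
    (fun τ => sum_eq_zero fun j _ => by
      dsimp only
      split_ifs with e
      · have h3 := Ideal.Quotient.eq_zero_iff_mem.2
          (J.mul_mem_left (x ^ k) (h1 j (e ▸ notMem_erase j τ)))
        rw [mul_assoc, ← map_pow, ← map_mul, mul_left_comm (g j ^ m), h3, mul_zero]
      · rw [mul_zero])
  have hch : ∀ σ, ∃ v, Ideal.Quotient.mk J (x ^ k * v) = b σ := fun σ => by
    obtain ⟨f, e⟩ := Ideal.Quotient.mk_surjective (b σ)
    obtain ⟨v, -, hv⟩ := memU.1 (mem_Ik.1 (e ▸ hb σ))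
    exact ⟨v, by rw [← e]; exact (Ideal.Quotient.eq.2 hv).symm⟩
  choose v hv using hch
  have e1 := hbe σ0
  rw [if_pos rfl] at e1
  have e2 : Ideal.Quotient.mk J (kd g (m + l) (fun σ => x ^ k * v σ) σ0) =
      Ideal.Quotient.mk J ((∏ i ∈ σ0, g i) ^ l * (x ^ k * u)) := by
    rw [map_kd]; simp only [hv]; rw [e1]; simp
  have e3 := kd_lin g (m + l) (x ^ k) 0 v v σ0
  simp only [zero_mul, add_zero] at e3
  rw [e3, Ideal.Quotient.eq] at e2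
  have e4 : kd g (m + l) v σ0 - (∏ i ∈ σ0, g i) ^ l * u ∈ J :=
    nzd_pow hx k _ (by convert e2 using 1; ring)
  refine h2 l (Submodule.mem_sup.2 ⟨_, J.neg_mem e4, kd g (m + l) v σ0, ?_, by ring⟩)
  exact Ideal.sum_mem _ fun j hj => Ideal.mul_mem_right _ _ (Ideal.mul_mem_left _ _
    (Ideal.subset_span ⟨j, hj, rfl⟩))

include hJ hx1 hx in
lemma vnum_eq (k c : ℕ)
    (h1 : ∀ e, ∀ f ∈ 𝒜 e, ((UU J (x ^ 1) ⊤).colon {f}).IsPrime → (c : ℤ) ≤ e)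
    (h2 : ∃ f ∈ 𝒜 c, ((UU J (x ^ 1) ⊤).colon {f}).IsPrime) :
    vnum (Hq 𝒜 J) (Ideal.span {Ideal.Quotient.mk J x} ^ (k + 1)) = k + c := by
  refine IsLeast.csInf_eq ⟨?_, ?_⟩
  · obtain ⟨f, hf, hp⟩ := h2
    refine ⟨_, ⟨x ^ k * f, mul_deg 𝒜 (pow_deg 𝒜 hx1 k (c := k) (by simp)) hf (by simp), rfl⟩, ?_⟩
    rwa [colon_prime, colon_shift hx k (v := f) (by simp)]
  · rintro d ⟨_, ⟨f, hf, rfl⟩, hp⟩
    rw [colon_prime] at hp
    have h3 : x ∈ (UU J (x ^ (k + 1)) ⊤).colon {f} := hp.mem_of_pow_mem (k + 1)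
      (Submodule.mem_colon_singleton.2 (memU.2 ⟨f, trivial, by simp⟩))
    obtain ⟨u, -, hu⟩ := memU.1 (Submodule.mem_colon_singleton.1 h3)
    have h4 : f - x ^ k * u ∈ J := hx _ (by convert hu using 1; rw [smul_eq_mul]; ring)
    obtain ⟨v, hv, h5⟩ := hom_lift 𝒜 hJ hx1 k (memU.2 ⟨u, trivial, h4⟩) hf
    rw [colon_shift hx k h5] at hp
    have := h1 _ v hv hp
    omega

include hx1 in
lemma noeth [IsNoetherianRing P] :
    NoethFilt (Hq 𝒜 J) (fun k => Ideal.span {Ideal.Quotient.mk J x} ^ k) := by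
  refine ⟨fun k => le_antisymm ?_ (Ideal.span_le.2 fun f hf => hf.1), by simp,
    fun k => Ideal.pow_le_pow_right (Nat.le_succ k), fun k l => (pow_add _ k l).ge,
    (reesAlgebra (Ideal.span {Ideal.Quotient.mk J x})).toSubring,
    fun f => mem_reesAlgebra_iff _ f,
    inferInstanceAs (IsNoetherianRing (reesAlgebra (Ideal.span {Ideal.Quotient.mk J x})))⟩
  refine (Ideal.span_singleton_pow _ k).le.trans (Ideal.span_mono ?_)
  rintro _ rfl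
  exact ⟨Ideal.pow_mem_pow (Ideal.mem_span_singleton_self _) k, k, x ^ k,
    pow_deg 𝒜 hx1 k (by simp), by simp⟩

include hJ in
lemma graded_of : Graded (fun d f => f ∈ 𝒜 d) J := by
  classical
  refine le_antisymm (fun f hf => ?_) (Ideal.span_le.2 fun f hf => hf.1)
  rw [← DirectSum.sum_support_decompose 𝒜 f]
  exact Ideal.sum_mem _ fun i _ => Ideal.subset_span ⟨hJ i hf, i, SetLike.coe_mem _⟩
end sh

end Pool.Agent.H50.Vreg
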