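import Mathlib
import Pool.Agent.H50.Vreg3

namespace Pool.Agent.H50.Vreg

open Finset MvPolynomial

section gen
variable {n : ℕ} (w : Fin n → ℕ)

/-- The forms of degree `d` when `x_i` has degree `w i`. -/
noncomputable def A (d : ℤ) : Submodule ℚ (MvPolynomial (Fin n) ℚ) :=
  weightedHomogeneousSubmodule ℚ (fun i => (w i : ℤ)) d

noncomputable instance : GradedRing (A w) := weightedGradedAlgebra ℚ (fun i => (w i : ℤ))

lemma X_deg (i : Fin n) : X i ∈ A w (w i) := isWeightedHomogeneous_X ℚ (fun i => (w i : ℤ)) i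

lemma hom_ind (Q : ℤ → MvPolynomial (Fin n) ℚ → Prop) (h0 : ∀ e, Q e 0)
    (ha : ∀ e f g, Q e f → Q e g → Q e (f + g)) (hC : ∀ a, Q 0 (C a))
    (hX : ∀ e f i, 0 ≤ e → Q e f → Q (e + w i) (f * X i)) {e : ℤ} {f : MvPolynomial (Fin n) ℚ}
    (hf : f ∈ A w e) : Q e f := by
  have key : ∀ (d : Fin n →₀ ℕ) (a : ℚ), 0 ≤ Finsupp.weight (fun i => (w i : ℤ)) d ∧
      Q (Finsupp.weight (fun i => (w i : ℤ)) d) (monomial d a) := by
    intro d a
    induction d using Finsupp.induction with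
    | zero => exact ⟨by simp, by simpa using hC a⟩
    | single_add i b d h1 h2 ih =>
      clear h1 h2
      induction b with
      | zero => simpa using ih
      | succ b ihb =>
        have e1 : Finsupp.single i (b + 1) + d = (Finsupp.single i b + d) + Finsupp.single i 1 := by
          rw [Finsupp.single_add]; abel
        rw [e1, monomial_add_single, pow_one, map_add, Finsupp.weight_single, one_smul]
        exact ⟨add_nonneg ihb.1 (Int.natCast_nonneg _), hX _ _ _ ihb.1 ihb.2⟩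
  induction hf using IsWeightedHomogeneous.induction_on with
  | zero => exact h0 e
  | add p q _ _ hp hq => exact ha e p q hp hq
  | monomial d r hr => exact hr ▸ (key d r).2

lemma neg_zero' {e : ℤ} {f : MvPolynomial (Fin n) ℚ} (hf : f ∈ A w e) (he : e < 0) : f = 0 :=
  hom_ind w (fun e f => e < 0 → f = 0) (fun _ _ => rfl)
    (fun _ _ _ h1 h2 h => by rw [h1 h, h2 h, add_zero]) (fun _ h => absurd h (lt_irrefl _))
    (fun e f i h _ h2 => by omega) hf he

lemma mono_not {σ : Type} [Fintype σ] [DecidableEq σ] (l : ℕ) (c : σ → MvPolynomial σ ℚ) :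
    (∏ i, X i) ^ l ≠ ∑ j, c j * X j ^ (l + 1) := by
  intro h
  have e : (∏ i : σ, (X i : MvPolynomial σ ℚ)) ^ l =
      monomial (Finsupp.equivFunOnFinite.symm fun _ => l) 1 := by
    rw [monomial_eq, Finsupp.prod_fintype _ _ (by simp), ← prod_pow]; simp
  have := congrArg (coeff (Finsupp.equivFunOnFinite.symm fun _ : σ => l)) h
  rw [e, coeff_monomial, if_pos rfl, coeff_sum, sum_eq_zero] at this
  · exact one_ne_zero this
  · intro j _
    rw [X_pow_eq_monomial, coeff_mul_monomial', if_neg]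
    intro h2
    have := h2 j
    simp at this
end gen

/-! The weighted polynomial ring. -/

lemma hw2 : ∀ i : Fin 2, 0 < (![1, 3] : Fin 2 → ℕ) i := by decide

lemma hx2 (f : MvPolynomial (Fin 2) ℚ) (h : X 0 * f ∈ (⊥ : Ideal (MvPolynomial (Fin 2) ℚ))) :
    f ∈ (⊥ : Ideal (MvPolynomial (Fin 2) ℚ)) := by
  simpa using h

lemma hX0 : (X 0 : MvPolynomial (Fin 2) ℚ) ∈ A ![1, 3] 1 := X_deg ![1, 3] 0

lemma span_hom {n : ℕ} (w : Fin n → ℕ) (j : Fin n) :
    (Ideal.span {X j} : Ideal (MvPolynomial (Fin n) ℚ)).IsHomogeneous (A w) :=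
  Ideal.homogeneous_span _ _ fun y hy => by
    rw [Set.mem_singleton_iff.1 hy]; exact ⟨_, X_deg w j⟩

lemma vm2 (k p : ℕ) (d : ℤ) (h : (k : ℤ) - 2 < d + p) :
    VM (A ![1, 3]) X ![1, 3] (UU ⊥ (X 0 ^ k) ⊤) (UU ⊥ (X 0 ^ k) ⊥) p d := by
  have hb := Ideal.IsHomogeneous.bot (A ![1, 3])
  refine chain2 _ (X_deg _) hw2 hb hX0 hx2 k hb 0 (e0 := d - k)
    (fun e _ f _ h => by simpa using h) (fun _ => by omega) fun q hq e he => ?_
  refine chain2 _ (X_deg _) hw2 hb hX0 hx2 k (hb.sup (span_hom _ 0)) 1 (e0 := e - k)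
    (fun e _ f _ h => ?_) (fun _ => by omega) fun r hr e' he' => ?_
  · simp only [bot_sup_eq, Ideal.mem_span_singleton] at h ⊢
    exact (X_prime.dvd_or_dvd h).resolve_left (by simp)
  refine base2 _ (X_deg _) hw2 hb hX0 k (e0 := 1) (fun e he f hf => ?_) fun h0 => ?_
  · refine hom_ind _ (fun e f => 1 ≤ e → f ∈ _) (fun _ _ => zero_mem _)
      (fun _ _ _ h1 h2 h => add_mem (h1 h) (h2 h)) (fun _ h => absurd h (by norm_num))
      (fun e f i _ _ _ => Ideal.mul_mem_left _ _ (Submodule.mem_sup_right ?_)) hf he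
    fin_cases i
    · exact Submodule.mem_sup_left (Submodule.mem_sup_right (Ideal.mem_span_singleton_self _))
    · exact Submodule.mem_sup_right (Ideal.mem_span_singleton_self _)
  · simp at he he'; omega

lemma ex2 (k : ℕ) :
    vnum (Hq (A ![1, 3]) ⊥) (Ideal.span {Ideal.Quotient.mk ⊥ (X 0)} ^ (k + 1)) = k ∧
    reg (Hq (A ![1, 3]) ⊥) (fun i => Ideal.Quotient.mk ⊥ (X i)) ![1, 3]
      (Ideal.span {Ideal.Quotient.mk ⊥ (X 0)} ^ (k + 1)) = (((k : ℤ) - 1 : ℤ) : ℝ) := by
  have hb := Ideal.IsHomogeneous.bot (A ![1, 3])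
  constructor
  · refine vnum_eq _ hb hX0 hx2 k 0 (fun e f hf hp => ?_) ⟨1, SetLike.one_mem_graded (A ![1, 3]), ?_⟩
    · by_contra h
      rw [neg_zero' _ hf (by simpa using h)] at hp
      exact hp.ne_top (by ext r; simp)
    · have : (UU ⊥ ((X 0 : MvPolynomial (Fin 2) ℚ) ^ 1) ⊤).colon {1} = Ideal.span {X 0} := by
        ext r; simp [UU]
      rw [this]
      exact (Ideal.span_singleton_prime (X_ne_zero _)).2 X_prime
  · refine reg_eq (fun p d h => vanish_of _ _ (vm2 _ p d (by push_cast; omega)))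
      (not_vanish _ hX0 hx2 (k + 1) 1 univ (d := k - 3) (u := 1) ?_ (by simp) fun l h => ?_)
      (by simp; ring)
    · have : (k : ℤ) - 3 + (1 : ℕ) * ws ![1, 3] univ - (k + 1 : ℕ) = 0 := by
        simp [ws]; ring
      rw [this]; exact SetLike.one_mem_graded _
    · rw [bot_sup_eq, coe_univ, Set.image_univ, Ideal.mem_span_range_iff_exists_fun] at h
      obtain ⟨c, hc⟩ := h
      exact mono_not l c (by rw [add_comm l 1, hc, mul_one])

end Pool.Agent.H50.Vreg
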