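import Mathlib
import Pool.Agent.H50.Vreg4

namespace Pool.Agent.H50.Vreg

open Finset MvPolynomial

abbrev T := MvPolynomial (Fin 3) ℚ
abbrev P9 := MvPolynomial (Fin 9) ℚ
abbrev V5 := Fin 5 → T

noncomputable def Nl : V5 →ₗ[T] V5 where
  toFun u := ![X 0 * u 1, X 1 * u 0 + X 0 * u 2, X 1 * u 1 + X 0 * u 3,
    -4 * X 1 * u 2 + X 0 * u 4, 2 * X 1 * u 3]
  map_add' u v := by ext1 i; fin_cases i <;> simp <;> ring
  map_smul' c u := by ext1 i; fin_cases i <;> simp <;> ring

lemma Nl_ap (u : V5) : Nl u = ![X 0 * u 1, X 1 * u 0 + X 0 * u 2, X 1 * u 1 + X 0 * u 3,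
    -4 * X 1 * u 2 + X 0 * u 4, 2 * X 1 * u 3] := rfl

lemma Nl5 (u : V5) : Nl (Nl (Nl (Nl (Nl u)))) = 0 := by
  ext1 i; fin_cases i <;> simp [Nl_ap] <;> ring

noncomputable def act (s : Polynomial T) : V5 →ₗ[T] V5 := Polynomial.aeval Nl s

lemma act_mul (s t : Polynomial T) (u : V5) : act (s * t) u = act s (act t u) := by simp [act]
lemma act_X (u : V5) : act Polynomial.X u = Nl u := by simp [act]
lemma act_C (a : T) (u : V5) : act (Polynomial.C a) u = a • u := by simp [act]
lemma act_add (s t : Polynomial T) (u : V5) : act (s + t) u = act s u + act t u := by simp [act]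
lemma act_zero (u : V5) : act 0 u = 0 := by simp [act]

def i3 : Fin 3 → Fin 9 := ![1, 2, 3]
def i5 : Fin 5 → Fin 9 := ![4, 5, 6, 7, 8]

lemma cases9 (j : Fin 9) : j = 0 ∨ (∃ a, j = i3 a) ∨ ∃ i, j = i5 i := by revert j; decide

noncomputable def pv (c : T) : Fin 9 → Polynomial T :=
  ![Polynomial.X, Polynomial.C (X 0), Polynomial.C (X 1), Polynomial.C c, 0, 0, 0, 0, 0]

noncomputable def dv : Fin 9 → V5 :=
  ![0, 0, 0, 0, Pi.single 0 1, Pi.single 1 1, Pi.single 2 1, Pi.single 3 1, Pi.single 4 1]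

noncomputable def ps (c : T) : P9 →+* Polynomial T := eval₂Hom (Polynomial.C.comp C) (pv c)

lemma ps_X (c : T) (j : Fin 9) : ps c (X j) = pv c j := by simp [ps]
lemma ps_C (c : T) (a : ℚ) : ps c (C a) = Polynomial.C (C a) := by simp [ps]
lemma pv5 (c : T) (i : Fin 5) : pv c (i5 i) = 0 := by fin_cases i <;> rfl
lemma pv3 (a : Fin 3) : pv (X 2) (i3 a) = Polynomial.C (X a) := by fin_cases a <;> rfl
lemma dv5 (i : Fin 5) : dv (i5 i) = Pi.single i 1 := by fin_cases i <;> rfl
lemma dv3 (a : Fin 3) : dv (i3 a) = 0 := by fin_cases a <;> rfl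

lemma exD (c : T) : ∃ D : P9 →+ V5, (∀ f g, D (f * g) = act (ps c f) (D g) + act (ps c g) (D f)) ∧
    (∀ a, D (C a) = 0) ∧ ∀ j, D (X j) = dv j := by
  let _ : Module (Polynomial T)ᵐᵒᵖ (Module.AEval' Nl) :=
    Module.compHom _ ((RingHom.id (Polynomial T)).fromOpposite fun a b => mul_comm a b)
  have : IsCentralScalar (Polynomial T) (Module.AEval' Nl) := ⟨fun _ _ => rfl⟩
  let φ : P9 →+* TrivSqZeroExt (Polynomial T) (Module.AEval' Nl) :=
    eval₂Hom ((TrivSqZeroExt.inlHom _ _).comp (Polynomial.C.comp C))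
      fun j => TrivSqZeroExt.inl (pv c j) + TrivSqZeroExt.inr (Module.AEval'.of Nl (dv j))
  have h1 : ∀ f, (φ f).fst = ps c f := fun f => by
    induction f using MvPolynomial.induction_on with
    | C a => simp [φ, ps]
    | add p q hp hq => simp [hp, hq]
    | mul_X p i hp => rw [map_mul, TrivSqZeroExt.fst_mul, hp]; simp [φ, ps]
  refine ⟨⟨⟨fun f => (Module.AEval'.of Nl).symm (φ f).snd, by simp⟩, fun f g => by simp⟩,
    fun f g => ?_, fun a => by simp [φ], fun j => by simp [φ]⟩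
  change (Module.AEval'.of Nl).symm (φ (f * g)).snd = _
  rw [map_mul, TrivSqZeroExt.snd_mul, map_add, op_smul_eq_smul, h1, h1]
  rfl

noncomputable def D (c : T) : P9 →+ V5 := (exD c).choose
lemma D_mul (c : T) (f g : P9) : D c (f * g) = act (ps c f) (D c g) + act (ps c g) (D c f) :=
  (exD c).choose_spec.1 f g
lemma D_C (c : T) (a : ℚ) : D c (C a) = 0 := (exD c).choose_spec.2.1 a
lemma D_X (c : T) (j : Fin 9) : D c (X j) = dv j := (exD c).choose_spec.2.2 j

noncomputable def rel : Fin 5 → P9 :=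
  ![X 0 * X 4 - X 2 * X 5, X 0 * X 5 - X 1 * X 4 - X 2 * X 6,
    X 0 * X 6 - X 1 * X 5 + C 4 * (X 2 * X 7), X 0 * X 7 - X 1 * X 6 - C 2 * (X 2 * X 8),
    X 0 * X 8 - X 1 * X 7]

noncomputable def J9 : Ideal P9 :=
  Ideal.span ({f | ∃ i j : Fin 9, 4 ≤ i ∧ 4 ≤ j ∧ f = X i * X j} ∪ Set.range rel)

lemma ee (i j : Fin 5) : (X (i5 i) * X (i5 j) : P9) ∈ J9 :=
  Ideal.subset_span (Or.inl ⟨_, _, by revert i; decide, by revert j; decide, rfl⟩)
lemma rel_mem (i : Fin 5) : rel i ∈ J9 := Ideal.subset_span (Or.inr ⟨i, rfl⟩)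

noncomputable def ta : T →+* P9 := (rename i3 : T →ₐ[ℚ] P9)
noncomputable def sig : Polynomial T →+* P9 := Polynomial.eval₂RingHom ta (X 0)
noncomputable def E (u : V5) : P9 := ∑ i, ta (u i) * X (i5 i)

lemma ta_X (a : Fin 3) : ta (X a) = X (i3 a) := by simp [ta]
lemma E_add (u v : V5) : E (u + v) = E u + E v := by simp [E, add_mul, sum_add_distrib]
lemma E_smul (a : T) (u : V5) : E (a • u) = ta a * E u := by simp [E, mul_sum, mul_assoc]
lemma E_single (i : Fin 5) : E (Pi.single i 1) = X (i5 i) := by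
  rw [E, sum_eq_single i] <;> simp +contextual

lemma xE (u : V5) : X 0 * E u - E (Nl u) ∈ J9 := by
  have : X 0 * E u - E (Nl u) = ∑ i, ta (u i) * rel i := by
    have h4 : (C 4 : P9) = 4 := rfl
    have h2 : (C 2 : P9) = 2 := rfl
    simp [E, Nl_ap, rel, Fin.sum_univ_five, ta_X, i3, i5, h4, h2, map_ofNat]
    ring
  rw [this]
  exact Ideal.sum_mem _ fun i _ => Ideal.mul_mem_left _ _ (rel_mem i)

lemma sE (s : Polynomial T) (u : V5) : sig s * E u - E (act s u) ∈ J9 := by
  induction s using Polynomial.induction_on generalizing u with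
  | C a => simp [sig, act_C, E_smul]
  | add p q hp hq =>
    have := J9.add_mem (hp u) (hq u)
    rw [map_add, act_add, E_add]; convert this using 1; ring
  | monomial k a ih =>
    have := J9.add_mem (J9.mul_mem_left (sig (Polynomial.C a * Polynomial.X ^ k)) (xE u)) (ih (Nl u))
    rw [pow_succ, ← mul_assoc, act_mul, act_X, map_mul]
    convert this using 1
    have : sig Polynomial.X = X 0 := by simp [sig]
    rw [this]; ring

lemma nf (f : P9) : f - (sig (ps (X 2) f) + E (D (X 2) f)) ∈ J9 := by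
  induction f using MvPolynomial.induction_on with
  | C a => simp [ps_C, D_C, sig, E, ta]
  | add p q hp hq =>
    have := J9.add_mem hp hq
    rw [map_add, map_add, map_add, E_add]; convert this using 1; ring
  | mul_X p j hp =>
    have h1 := J9.mul_mem_right (X j) hp
    rw [D_mul, map_mul, ps_X, D_X, E_add, map_mul]
    generalize ps (X 2) p = s at *
    generalize D (X 2) p = u at *
    rcases cases9 j with rfl | ⟨a, rfl⟩ | ⟨i, rfl⟩
    · have e1 : sig (pv (X 2) 0) = X 0 := by simp [sig, pv]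
      have e2 : act (pv (X 2) 0) u = Nl u := act_X u
      have e3 : E (act s (dv 0)) = 0 := by simp [dv, E]
      have := J9.add_mem h1 (xE u)
      rw [e1, e2, e3]; convert this using 1; ring
    · have e1 : sig (Polynomial.C (X a)) = X (i3 a) := by simp [sig, ta_X]
      have e3 : E 0 = 0 := by simp [E]
      rw [pv3, dv3, e1, act_C, E_smul, ta_X, map_zero, e3]; convert h1 using 1; ring
    · have e3 : E 0 = 0 := by simp [E]
      have e4 : E u * X (i5 i) ∈ J9 := by
        rw [E, sum_mul]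
        exact Ideal.sum_mem _ fun k _ => by
          rw [mul_assoc]; exact Ideal.mul_mem_left _ _ (ee k i)
      have := J9.add_mem (J9.add_mem h1 (sE s (Pi.single i 1))) e4
      rw [pv5, dv5, act_zero, map_zero, e3]; rw [E_single] at this
      convert this using 1; ring

lemma act_mem (V : Ideal T) (s : Polynomial T) {u : V5} (h : ∀ i, u i ∈ V) (i : Fin 5) :
    act s u i ∈ V := by
  induction s using Polynomial.induction_on generalizing u i with
  | C a => rw [act_C]; exact V.mul_mem_left _ (h i)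
  | add p q hp hq => rw [act_add]; exact V.add_mem (hp h i) (hq h i)
  | monomial k a ih =>
    rw [pow_succ, ← mul_assoc, act_mul, act_X]
    refine ih (fun j => ?_) i
    have m := fun (c : T) (j : Fin 5) => V.mul_mem_left c (h j)
    fin_cases j
    exacts [m _ _, add_mem (m _ _) (m _ _), add_mem (m _ _) (m _ _), add_mem (m _ _) (m _ _), m _ _]

lemma act_mem' (V : Ideal T) {s : Polynomial T} (h : ∀ j, s.coeff j ∈ V) (u : V5) (i : Fin 5) :
    act s u i ∈ V := by
  rw [act, Polynomial.aeval_eq_sum_range, LinearMap.sum_apply, Finset.sum_apply]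
  exact V.sum_mem fun j _ => V.mul_mem_right _ (h j)

/-- The elements whose components lie in `V`. -/
def KV (c : T) (V : Ideal T) : Ideal P9 where
  carrier := {f | (∀ j, (ps c f).coeff j ∈ V) ∧ ∀ i, D c f i ∈ V}
  add_mem' := fun {a b} ha hb => ⟨fun j => by simpa using V.add_mem (ha.1 j) (hb.1 j),
    fun i => by simpa using V.add_mem (ha.2 i) (hb.2 i)⟩
  zero_mem' := ⟨fun j => by simp, fun i => by simp⟩
  smul_mem' := fun a f hf => ⟨fun j => by
      rw [smul_eq_mul, map_mul, Polynomial.coeff_mul]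
      exact V.sum_mem fun x _ => V.mul_mem_left _ (hf.1 _),
    fun i => by
      rw [smul_eq_mul, D_mul]
      exact V.add_mem (act_mem V _ hf.2 i) (act_mem' V hf.1 _ i)⟩

lemma mem_KV {c : T} {V : Ideal T} {f : P9} :
    f ∈ KV c V ↔ (∀ j, (ps c f).coeff j ∈ V) ∧ ∀ i, D c f i ∈ V := Iff.rfl

lemma J_le (c : T) (V : Ideal T) : J9 ≤ KV c V := by
  have key : ∀ f, ps c f = 0 → D c f = 0 → f ∈ KV c V := fun f h1 h2 =>
    ⟨fun j => by simp [h1], fun i => by simp [h2]⟩
  refine Ideal.span_le.2 ?_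
  rintro _ (⟨i, j, hi, hj, rfl⟩ | ⟨i, rfl⟩)
  · have h : ∀ i : Fin 9, 4 ≤ i → ∃ k, i = i5 k := by decide
    obtain ⟨a, rfl⟩ := h i hi
    obtain ⟨b, rfl⟩ := h j hj
    exact key _ (by simp [ps_X, pv5]) (by simp [D_mul, ps_X, pv5, act_zero])
  · have h4 : (C 4 : T) = 4 := rfl
    have h2 : (C 2 : T) = 2 := rfl
    refine key _ ?_ ?_
    · fin_cases i <;> simp [rel, ps_X, pv]
    · fin_cases i <;>
      · simp only [rel, Fin.zero_eta, Fin.mk_one, Fin.reduceFinMk, Matrix.cons_val, map_sub, map_add,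
          D_mul, D_X, D_C, ps_X, ps_C, pv, dv, act_X, act_C, act_zero, map_zero, h4, h2]
        ext1 k
        simp only [Pi.add_apply, Pi.sub_apply, Pi.smul_apply, Pi.zero_apply, smul_eq_mul, Nl_ap]
        fin_cases k <;> simp

end Pool.Agent.H50.Vreg
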