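import Mathlib
import Pool.Agent.H50.Vreg5

namespace Pool.Agent.H50.Vreg

open Finset MvPolynomial

lemma ps_ta (t : T) : ps (X 2) (ta t) = Polynomial.C t := by
  induction t using MvPolynomial.induction_on with
  | C a => simp [ta, ps_C]
  | add p q hp hq => simp [hp, hq]
  | mul_X p a hp => simp [hp, ta_X, ps_X, pv3]

lemma D_ta (c : T) (t : T) : D c (ta t) = 0 := by
  induction t using MvPolynomial.induction_on with
  | C a => simp [ta, D_C]
  | add p q hp hq => simp [hp, hq]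
  | mul_X p a hp => simp [hp, ta_X, D_mul, D_X, dv3]

lemma KV_eq (V : Ideal T) : J9 ⊔ V.map ta = KV (X 2) V := by
  refine le_antisymm (sup_le (J_le _ _) (Ideal.map_le_iff_le_comap.2 fun t ht => ?_)) fun f hf => ?_
  · refine ⟨fun j => ?_, fun i => by simp [D_ta]⟩
    rw [ps_ta, Polynomial.coeff_C]; split_ifs
    exacts [ht, V.zero_mem]
  · refine Submodule.mem_sup.2 ⟨_, nf f, _, add_mem ?_ ?_, sub_add_cancel _ _⟩
    · rw [sig, Polynomial.coe_eval₂RingHom, Polynomial.eval₂_eq_sum_range]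
      exact Ideal.sum_mem _ fun j _ => Ideal.mul_mem_right _ _ (Ideal.mem_map_of_mem _ (hf.1 j))
    · exact Ideal.sum_mem _ fun j _ => Ideal.mul_mem_right _ _ (Ideal.mem_map_of_mem _ (hf.2 j))

noncomputable def VA (B : Set (Fin 3)) : Ideal P9 := (Ideal.span (X '' B : Set T)).map ta

lemma VA_ins (B : Set (Fin 3)) (a : Fin 3) :
    VA B ⊔ Ideal.span {X (i3 a)} = VA (insert a B) := by
  rw [VA, VA, Set.image_insert_eq, Ideal.span_insert, Ideal.map_sup, sup_comm,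
    Ideal.map_span ta {X a}, Set.image_singleton, ta_X]

lemma VA_hom (B : Set (Fin 3)) : (VA B).IsHomogeneous (A fun _ => 1) := by
  rw [VA, Ideal.map_span]
  refine Ideal.homogeneous_span _ _ ?_
  rintro _ ⟨_, ⟨a, -, rfl⟩, rfl⟩
  exact ⟨_, ta_X a ▸ X_deg _ _⟩

lemma VA_inj (B : Set (Fin 3)) (a : Fin 3) (ha : a ∉ B) (f : P9)
    (h : X (i3 a) * f ∈ J9 ⊔ VA B) : f ∈ J9 ⊔ VA B := by
  have key : ∀ t : T, X a * t ∈ Ideal.span (X '' B : Set T) → t ∈ Ideal.span (X '' B : Set T) := by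
    intro t ht
    rw [mem_ideal_span_X_image] at ht ⊢
    intro m hm
    obtain ⟨i, hi, h2⟩ := ht (Finsupp.single a 1 + m) (by
      rw [support_X_mul]; exact mem_map_of_mem _ hm)
    refine ⟨i, hi, ?_⟩
    have : a ≠ i := fun e => ha (e ▸ hi)
    simpa [Finsupp.single_apply, this] using h2
  rw [VA, KV_eq] at h ⊢
  refine ⟨fun j => key _ ?_, fun i => key _ ?_⟩
  · simpa [ps_X, pv3] using h.1 j
  · simpa [D_mul, ps_X, pv3, D_X, dv3, act_C] using h.2 i

lemma VA_empty : VA ∅ = ⊥ := by simp [VA]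

lemma hx9 (f : P9) (h : X 3 * f ∈ J9) : f ∈ J9 := by
  simpa [VA_empty] using VA_inj ∅ 2 (by simp) f (by simpa [VA_empty, i3] using h)

lemma hX3 : (X 3 : P9) ∈ A (fun _ => 1) 1 := X_deg (fun _ => 1) 3

lemma q2 (i j : Fin 9) : (X i * X j : P9) ∈ A (fun _ => 1) 2 :=
  mul_deg _ (X_deg (fun _ => 1) i) (X_deg (fun _ => 1) j) rfl

lemma cq (a : ℚ) {e : ℤ} {f : P9} (h : f ∈ A (fun _ => 1) e) : C a * f ∈ A (fun _ => 1) e :=
  IsWeightedHomogeneous.C_mul h a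

lemma J9_hom : J9.IsHomogeneous (A fun _ => 1) := by
  refine Ideal.homogeneous_span _ _ ?_
  rintro _ (⟨i, j, -, -, rfl⟩ | ⟨i, rfl⟩)
  · exact ⟨2, q2 i j⟩
  · refine ⟨2, ?_⟩
    fin_cases i
    exacts [sub_mem (q2 _ _) (q2 _ _), sub_mem (sub_mem (q2 _ _) (q2 _ _)) (q2 _ _),
      add_mem (sub_mem (q2 _ _) (q2 _ _)) (cq _ (q2 _ _)),
      sub_mem (sub_mem (q2 _ _) (q2 _ _)) (cq _ (q2 _ _)), sub_mem (q2 _ _) (q2 _ _)]

lemma x_inj {B : Set (Fin 3)} (hB : ∀ a, a ∈ B) {e : ℤ} (he : 2 ≤ e) {f : P9}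
    (hf : f ∈ A (fun _ => 1) e) (h : X 0 * f ∈ J9 ⊔ VA B) : f ∈ J9 ⊔ VA B := by
  rw [VA, KV_eq] at h ⊢
  set W : Ideal T := Ideal.span (X '' B)
  have hX : ∀ a t, X a * t ∈ W := fun a t =>
    W.mul_mem_right _ (Ideal.subset_span ⟨a, hB a, rfl⟩)
  have hact : ∀ j u i, act (pv (X 2) j) u i ∈ W := fun j u i => by
    rcases cases9 j with rfl | ⟨a, rfl⟩ | ⟨k, rfl⟩
    · have e2 : act (pv (X 2) 0) u = Nl u := act_X u
      have m : ∀ c t : T, c * X 1 * t ∈ W := fun c t => by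
        rw [mul_assoc]; exact W.mul_mem_left _ (hX _ _)
      rw [e2]
      fin_cases i
      exacts [hX _ _, add_mem (hX _ _) (hX _ _), add_mem (hX _ _) (hX _ _),
        add_mem (m _ _) (hX _ _), m _ _]
    · rw [pv3, act_C]; exact hX _ _
    · rw [pv5, act_zero]; exact W.zero_mem
  refine ⟨fun j => by simpa [ps_X, pv] using h.1 (j + 1), ?_⟩
  refine (hom_ind _ (fun e f => (1 ≤ e → ∀ u i, act (ps (X 2) f) u i ∈ W) ∧
    (2 ≤ e → ∀ i, D (X 2) f i ∈ W)) (fun _ => ⟨fun _ u i => by simp [act_zero], fun _ i => by simp⟩)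
    (fun e f g h1 h2 => ⟨fun h u i => ?_, fun h i => ?_⟩)
    (fun _ => ⟨fun h => absurd h (by norm_num), fun h => absurd h (by norm_num)⟩)
    (fun e f j _ h1 => ⟨fun _ u i => ?_, fun h i => ?_⟩) hf).2 he
  · rw [map_add, act_add]; exact add_mem (h1.1 h u i) (h2.1 h u i)
  · rw [map_add]; exact add_mem (h1.2 h i) (h2.2 h i)
  · rw [map_mul, mul_comm, act_mul, ps_X]; exact hact _ _ _
  · rw [D_mul, ps_X]; exact add_mem (h1.1 (by simp at h; omega) _ i) (hact _ _ _)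

lemma top9 {B : Set (Fin 3)} (hB : ∀ a, a ∈ B) {e : ℤ} (he : 2 ≤ e) {f : P9}
    (hf : f ∈ A (fun _ => 1) e) : f ∈ J9 ⊔ (VA B ⊔ Ideal.span {X 0}) := by
  set U := J9 ⊔ (VA B ⊔ Ideal.span {X 0})
  have hX : ∀ j, X j ∈ U ∨ ∃ i, j = i5 i := fun j => by
    rcases cases9 j with rfl | ⟨a, rfl⟩ | h
    · exact Or.inl (Submodule.mem_sup_right (Submodule.mem_sup_right
        (Ideal.mem_span_singleton_self _)))
    · exact Or.inl (Submodule.mem_sup_right (Submodule.mem_sup_left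
        (ta_X a ▸ Ideal.mem_map_of_mem _ (Ideal.subset_span ⟨a, hB a, rfl⟩))))
    · exact Or.inr h
  have hXX : ∀ i j, X i * X j ∈ U := fun i j => by
    rcases hX i with h | ⟨a, rfl⟩
    · exact U.mul_mem_right _ h
    rcases hX j with h | ⟨b, rfl⟩
    · exact U.mul_mem_left _ h
    · exact Submodule.mem_sup_left (ee a b)
  refine (hom_ind _ (fun e f => (1 ≤ e → ∀ j, f * X j ∈ U) ∧ (2 ≤ e → f ∈ U))
    (fun _ => ⟨fun _ j => by simp, fun _ => by simp⟩)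
    (fun e f g h1 h2 => ⟨fun h j => ?_, fun h => add_mem (h1.2 h) (h2.2 h)⟩)
    (fun _ => ⟨fun h => absurd h (by norm_num), fun h => absurd h (by norm_num)⟩)
    (fun e f j _ h1 => ⟨fun _ i => ?_, fun h => h1.1 (by simp at h; omega) j⟩) hf).2 he
  · rw [add_mul]; exact add_mem (h1.1 h j) (h2.1 h j)
  · rw [mul_assoc]; exact U.mul_mem_left _ (hXX _ _)

lemma vm9 (k p : ℕ) (d : ℤ) (h : (k : ℤ) + 1 < d + p) :
    VM (A fun _ => 1) X (fun _ => 1) (UU J9 (X 3 ^ k) ⊤) (UU J9 (X 3 ^ k) ⊥) p d := by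
  have hw : ∀ i : Fin 9, 0 < (fun _ => 1 : Fin 9 → ℕ) i := fun _ => one_pos
  rw [← VA_empty]
  refine chain2 _ (X_deg _) hw J9_hom hX3 hx9 k (VA_hom _) (i3 2) (e0 := 2)
    (fun e _ f _ => VA_inj _ _ (by simp) f) (fun _ => by omega) fun p1 h1 d1 e1 => ?_
  rw [VA_ins]
  refine chain2 _ (X_deg _) hw J9_hom hX3 hx9 k (VA_hom _) (i3 0) (e0 := 2)
    (fun e _ f _ => VA_inj _ _ (by simp) f) (fun _ => by omega) fun p2 h2 d2 e2 => ?_
  rw [VA_ins]
  refine chain2 _ (X_deg _) hw J9_hom hX3 hx9 k (VA_hom _) (i3 1) (e0 := 2)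
    (fun e _ f _ => VA_inj _ _ (by simp) f) (fun _ => by omega) fun p3 h3 d3 e3 => ?_
  rw [VA_ins]
  have hB : ∀ a : Fin 3, a ∈ insert 1 (insert 0 (insert 2 (∅ : Set (Fin 3)))) := fun a => by
    fin_cases a <;> simp
  refine chain2 _ (X_deg _) hw J9_hom hX3 hx9 k (VA_hom _) 0 (e0 := 2)
    (fun e he f hf => x_inj hB he hf) (fun _ => by omega) fun p4 h4 d4 e4 => ?_
  exact base2 _ (X_deg _) hw J9_hom hX3 k (e0 := 2) (fun e he f hf => top9 hB he hf)
    fun _ => by omega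

lemma K0 : UU J9 (X 3 ^ 1) ⊤ = KV 0 ⊥ := by
  refine le_antisymm (sup_le (J_le _ _) ?_) fun f hf => ?_
  · rw [Ideal.mul_top, Ideal.span_le, Set.singleton_subset_iff, pow_one]
    exact ⟨fun j => by simp [ps_X, pv], fun i => by simp [D_X, dv]⟩
  let ρ : P9 →ₐ[ℚ] P9 := aeval fun j => if j = 3 then 0 else X j
  have key : ∀ f, (ps (X 2) (ρ f) = ps 0 f ∧ D (X 2) (ρ f) = D 0 f) ∧ X 3 ∣ f - ρ f := fun f => by
    induction f using MvPolynomial.induction_on with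
    | C a => simp [ρ, ps_C, D_C]
    | add p q hp hq =>
      refine ⟨⟨by simp [hp.1.1, hq.1.1], by simp [hp.1.2, hq.1.2]⟩, ?_⟩
      convert dvd_add hp.2 hq.2 using 1; rw [map_add]; ring
    | mul_X p j hp =>
      have h1 : ps (X 2) (ρ (X j)) = ps 0 (X j) := by
        fin_cases j <;> simp [ρ, ps_X, pv]
      have h2 : D (X 2) (ρ (X j)) = D 0 (X j) := by
        fin_cases j <;> simp [ρ, D_X, dv]
      have h3 : X 3 ∣ X j - ρ (X j) := by
        by_cases h : j = 3 <;> simp [ρ, h]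
      refine ⟨⟨by rw [map_mul, map_mul, map_mul, hp.1.1, h1],
        by rw [map_mul, D_mul, D_mul, hp.1.1, hp.1.2, h1, h2]⟩, ?_⟩
      convert dvd_add (hp.2.mul_right (X j)) (h3.mul_left (ρ p)) using 1; rw [map_mul]; ring
  obtain ⟨⟨h1, h2⟩, v, hv⟩ := key f
  have h3 : ρ f ∈ KV (X 2) ⊥ := by rwa [mem_KV, h1, h2]
  rw [← KV_eq, Ideal.map_bot, sup_bot_eq] at h3
  exact memU.2 ⟨v, trivial, by convert h3 using 1; rw [pow_one, ← hv]; ring⟩

lemma mem0 {f : P9} : f ∈ KV 0 ⊥ ↔ ps 0 f = 0 ∧ D 0 f = 0 := by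
  simp only [mem_KV, Ideal.mem_bot]
  exact ⟨fun h => ⟨Polynomial.ext h.1, funext h.2⟩, fun h => by simp [h.1, h.2]⟩

lemma up {u : V5} {t : ℕ} (h : ∀ i, (u i).totalDegree ≤ t) (j : Fin 9) (i : Fin 5) :
    (act (pv 0 j) u i).totalDegree ≤ t + 1 := by
  have m : ∀ a k, (X a * u k).totalDegree ≤ t + 1 := fun a k =>
    (totalDegree_mul _ _).trans (by rw [totalDegree_X]; have := h k; omega)
  have m' : ∀ (q : ℚ) a k, (C q * X a * u k).totalDegree ≤ t + 1 := fun q a k => by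
    rw [mul_assoc]; exact (totalDegree_mul _ _).trans (by rw [totalDegree_C, zero_add]; exact m a k)
  have ad : ∀ a b : T, a.totalDegree ≤ t + 1 → b.totalDegree ≤ t + 1 →
      (a + b).totalDegree ≤ t + 1 := fun a b h1 h2 => (totalDegree_add _ _).trans (max_le h1 h2)
  rcases cases9 j with rfl | ⟨a, rfl⟩ | ⟨k, rfl⟩
  · have e2 : act (pv 0 0) u = Nl u := act_X u
    have h4 : (-4 : T) = C (-4) := by rw [map_neg]; rfl
    rw [e2, Nl_ap, h4]
    fin_cases i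
    exacts [m _ _, ad _ _ (m _ _) (m _ _), ad _ _ (m _ _) (m _ _), ad _ _ (m' _ _ _) (m _ _),
      m' 2 _ _]
  · fin_cases a
    · exact (act_C (X 0) u).symm ▸ m _ _
    · exact (act_C (X 1) u).symm ▸ m _ _
    · simp [pv, i3, act_zero]
  · simp [pv5, act_zero]

lemma degs {e : ℤ} {f : P9} (hf : f ∈ A (fun _ => 1) e) : (ps 0 f).natDegree ≤ e.toNat ∧
    (∀ j i, (act (ps 0 f) (dv j) i).totalDegree ≤ e.toNat) ∧
    (∀ i, (D 0 f i).totalDegree ≤ (e - 1).toNat) ∧ (e ≤ 0 → D 0 f = 0) := by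
  refine hom_ind _ (fun e f => (ps 0 f).natDegree ≤ e.toNat ∧
    (∀ j i, (act (ps 0 f) (dv j) i).totalDegree ≤ e.toNat) ∧
    (∀ i, (D 0 f i).totalDegree ≤ (e - 1).toNat) ∧ (e ≤ 0 → D 0 f = 0))
    (fun _ => by simp [act_zero]) (fun e f g h1 h2 => ⟨?_, fun j i => ?_, fun i => ?_, fun h => ?_⟩)
    (fun a => ⟨by simp [ps_C], fun j i => ?_, by simp [D_C], by simp [D_C]⟩)
    (fun e f j he h1 => ⟨?_, fun k i => ?_, fun i => ?_, fun h => by simp at h; omega⟩) hf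
  · rw [map_add]; exact Polynomial.natDegree_add_le_of_degree_le h1.1 h2.1
  · rw [map_add, act_add]; exact (totalDegree_add _ _).trans (max_le (h1.2.1 j i) (h2.2.1 j i))
  · rw [map_add]; exact (totalDegree_add _ _).trans (max_le (h1.2.2.1 i) (h2.2.2.1 i))
  · rw [map_add, h1.2.2.2 h, h2.2.2.2 h, add_zero]
  · rw [ps_C, act_C]
    rcases cases9 j with rfl | ⟨a, rfl⟩ | ⟨k, rfl⟩
    · simp [dv]
    · simp [dv3]
    · rw [dv5, Pi.smul_apply, Pi.single_apply]; split_ifs <;> simp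
  · have : (pv 0 j).natDegree ≤ 1 := by fin_cases j <;> simp [pv]
    rw [map_mul, ps_X]
    refine Polynomial.natDegree_mul_le.trans ?_
    have := h1.1
    simp only [Nat.cast_one]; omega
  · rw [map_mul, mul_comm, act_mul, ps_X]
    refine (up (h1.2.1 k) j i).trans ?_
    simp only [Nat.cast_one]; omega
  · rw [D_mul, ps_X, D_X]
    refine (totalDegree_add _ _).trans (max_le ((h1.2.1 j i).trans (by simp)) ?_)
    by_cases h0 : e ≤ 0
    · rw [h1.2.2.2 h0]; simp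
    · refine (up h1.2.2.1 j i).trans ?_
      simp only [Nat.cast_one]; omega

lemma ker_low {u : V5} (h : Nl u = 0) (hd : (u 0).totalDegree ≤ 1) : u = 0 := by
  have h0 : X 0 * u 1 = 0 := congrFun h 0
  have h1 : X 1 * u 0 + X 0 * u 2 = 0 := congrFun h 1
  have h3 : -4 * X 1 * u 2 + X 0 * u 4 = 0 := congrFun h 3
  have h4 : 2 * X 1 * u 3 = 0 := congrFun h 4
  have nd : ¬ (X 0 : T) ∣ X 1 := by simp
  have n0 : (X 0 : T) ≠ 0 := X_ne_zero _
  obtain ⟨a, ha⟩ : X 0 ∣ u 0 :=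
    (X_prime.dvd_or_dvd ⟨-u 2, by linear_combination h1⟩).resolve_left nd
  have h5 : u 2 = -(X 1 * a) := mul_left_cancel₀ n0 (by linear_combination h1 - X 1 * ha)
  have h6 : (C (1 / 4) : T) * 4 = 1 := by
    rw [show (4 : T) = C 4 from rfl, ← map_mul]; norm_num
  obtain ⟨b, hb⟩ : X 0 ∣ a := by
    have : (X 0 : T) ∣ X 1 * (X 1 * a) := ⟨-(C (1 / 4) * u 4), by
      linear_combination C (1 / 4) * h3 + (C (1 / 4) * 4 * X 1) * h5 - (X 1 * X 1 * a) * h6⟩
    exact (X_prime.dvd_or_dvd ((X_prime.dvd_or_dvd this).resolve_left nd)).resolve_left nd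
  have hb0 : b = 0 := by
    by_contra hb0
    rw [ha, hb, totalDegree_mul_of_isDomain n0 (mul_ne_zero n0 hb0),
      totalDegree_mul_of_isDomain n0 hb0, totalDegree_X] at hd
    omega
  have ha0 : a = 0 := by rw [hb, hb0, mul_zero]
  have h7 : u 2 = 0 := by rw [h5, ha0]; simp
  ext1 i
  fin_cases i
  · simp [ha, ha0]
  · simpa using h0
  · exact h7
  · have : (2 : T) ≠ 0 := two_ne_zero
    simpa [this] using h4
  · simpa [h7] using h3

lemma act5 (u : V5) : act (Polynomial.X ^ 5) u = 0 := by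
  simp only [pow_succ, pow_zero, one_mul, act_mul, act_X, Nl5]

lemma vlow (e : ℤ) (f : P9) (hf : f ∈ A (fun _ => 1) e)
    (hp : ((UU J9 (X 3 ^ 1) ⊤).colon {f}).IsPrime) : ((3 : ℕ) : ℤ) ≤ e := by
  by_contra he
  obtain ⟨d1, -, d3, -⟩ := degs hf
  have h1 : X (i5 0) ∈ (UU J9 (X 3 ^ 1) ⊤).colon {f} := hp.mem_of_pow_mem 2
    (Submodule.mem_colon_singleton.2 (Ideal.mul_mem_right _ _
      (Submodule.mem_sup_left (by rw [pow_two]; exact ee 0 0))))
  rw [K0] at hp h1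
  rw [Submodule.mem_colon_singleton, smul_eq_mul, mem0, D_mul, ps_X, pv5, act_zero, zero_add, D_X,
    dv5, act, Polynomial.aeval_eq_sum_range' (n := 3) (by omega)] at h1
  have a0 := congrFun h1.2 0
  have a1 := congrFun h1.2 1
  have a2 := congrFun h1.2 2
  simp only [sum_range_succ, range_zero, sum_empty, zero_add, LinearMap.add_apply,
    LinearMap.smul_apply, Pi.add_apply, Pi.smul_apply, smul_eq_mul, pow_succ, pow_zero, one_mul,
    Module.End.mul_apply, Module.End.one_apply, Nl_ap] at a0 a1 a2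
  simp at a0 a1 a2
  have hs : ps 0 f = 0 := by
    ext1 j
    rcases j with _ | _ | _ | j
    · simpa [a2] using a0
    · exact a1
    · exact a2
    · exact Polynomial.coeff_eq_zero_of_natDegree_lt (by omega)
  have h2 : X 0 ∈ (KV 0 ⊥).colon {f} := hp.mem_of_pow_mem 5 (by
    rw [Submodule.mem_colon_singleton, smul_eq_mul, mem0, D_mul, map_mul, hs, mul_zero, act_zero,
      map_pow, ps_X]
    exact ⟨rfl, by rw [add_zero]; exact act5 _⟩)
  rw [Submodule.mem_colon_singleton, smul_eq_mul, mem0, D_mul, hs, act_zero, add_zero, ps_X] at h2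
  have h3 : D 0 f = 0 := ker_low ((act_X _).symm.trans h2.2) ((d3 0).trans (by omega))
  refine hp.ne_top ((Ideal.eq_top_iff_one _).2 ?_)
  rw [Submodule.mem_colon_singleton, one_smul, mem0]
  exact ⟨hs, h3⟩

lemma vex : ∃ f ∈ A (fun _ => 1) (3 : ℕ), ((UU J9 (X 3 ^ 1) ⊤).colon {f}).IsPrime := by
  have q3 : ∀ i j k : Fin 9, (X i * (X j * X k) : P9) ∈ A (fun _ => 1) (3 : ℕ) := fun i j k =>
    mul_deg _ (X_deg (fun _ => 1) i) (q2 j k) rfl
  set f : P9 := X 1 * (X 1 * X 4) - X 1 * (X 2 * X 6) - C 4 * (X 2 * (X 2 * X 8)) with hf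
  refine ⟨f, sub_mem (sub_mem (q3 _ _ _) (q3 _ _ _)) (cq _ (q3 _ _ _)), ?_⟩
  have h1 : ps 0 f = 0 := by simp [hf, ps_X, pv]
  have h2 : D 0 f = ![X 0 * X 0, 0, -(X 0 * X 1), 0, -(4 * (X 1 * X 1))] := by
    have h4 : (C 4 : T) = 4 := rfl
    simp only [hf, Matrix.cons_val, map_sub, map_mul, mul_zero, add_zero,
      D_mul, D_X, D_C, ps_X, ps_C, pv, dv, act_C, act_zero, map_zero, h4]
    ext1 k
    simp only [Pi.sub_apply, Pi.smul_apply, smul_eq_mul]
    fin_cases k <;> simp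
  have h3 : Nl (D 0 f) = 0 := by
    rw [h2]; ext1 k; fin_cases k <;> simp [Nl_ap] <;> ring
  have h4 : ∀ s, act s (D 0 f) = s.coeff 0 • D 0 f := fun s => by
    conv_lhs => rw [← Polynomial.divX_mul_X_add s]
    rw [act_add, act_mul, act_X, h3, map_zero, zero_add, act_C]
  have : (UU J9 (X 3 ^ 1) ⊤).colon {f} = RingHom.ker (Polynomial.constantCoeff.comp (ps 0)) := by
    ext r
    rw [K0, Submodule.mem_colon_singleton, smul_eq_mul, mem0, D_mul, map_mul, h1, mul_zero,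
      act_zero, add_zero, h4, RingHom.mem_ker, RingHom.comp_apply, Polynomial.constantCoeff_apply]
    refine ⟨fun h => ?_, fun h => ⟨rfl, by rw [h, zero_smul]⟩⟩
    simpa [h2] using congrFun h.2 0
  rw [this]
  exact RingHom.ker_isPrime _

lemma ex9 (k : ℕ) :
    vnum (Hq (A fun _ => 1) J9) (Ideal.span {Ideal.Quotient.mk J9 (X 3)} ^ (k + 1)) = k + 3 ∧
    reg (Hq (A fun _ => 1) J9) (fun i => Ideal.Quotient.mk J9 (X i)) (fun _ => 1)
      (Ideal.span {Ideal.Quotient.mk J9 (X 3)} ^ (k + 1)) = (((k : ℤ) + 2 : ℤ) : ℝ) := by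
  refine ⟨vnum_eq _ J9_hom hX3 hx9 k 3 vlow vex, ?_⟩
  have e1 : ∏ i ∈ ({1, 2, 3} : Finset (Fin 9)), (X i : P9) = ta (∏ a, X a) := by
    simp [Fin.prod_univ_three, ta_X, i3, mul_assoc]
  refine reg_eq (fun p d h => vanish_of _ _ (vm9 _ p d (by push_cast; omega)))
    (not_vanish _ hX3 hx9 (k + 1) 5 {1, 2, 3} (d := k - 1)
      (u := (∏ i ∈ ({1, 2, 3} : Finset (Fin 9)), X i) ^ 4 * X (i5 0))
      (mul_deg _ (gp_deg _ (X_deg _) _ 4) (X_deg _ _) (by simp [ws]; ring)) (fun j hj => ?_)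
      fun l h => ?_) (by simp; ring)
  · rw [mul_left_comm]
    refine Ideal.mul_mem_left _ _ ?_
    rcases cases9 j with rfl | ⟨a, rfl⟩ | ⟨i, rfl⟩
    · have := sE (Polynomial.X ^ 5) (Pi.single 0 1)
      rw [E_single, act5] at this
      simpa [sig, E] using this
    · exact absurd (by revert a; decide) hj
    · rw [pow_succ, mul_assoc]; exact Ideal.mul_mem_left _ _ (ee _ _)
  · have hle : J9 ⊔ Ideal.span ((fun j => (X j : P9) ^ (5 + l)) '' ({1, 2, 3} : Finset (Fin 9))) ≤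
        KV (X 2) (Ideal.span (Set.range fun a => X a ^ (l + 4 + 1))) := by
      rw [← KV_eq]
      refine sup_le_sup_left (Ideal.span_le.2 ?_) _
      rintro _ ⟨j, hj, rfl⟩
      obtain ⟨a, rfl⟩ : ∃ a, j = i3 a := by revert j; decide
      have := Ideal.mem_map_of_mem ta (Ideal.subset_span
        (s := Set.range fun a => (X a : T) ^ (l + 4 + 1)) ⟨a, rfl⟩)
      rw [map_pow, ta_X] at this
      rwa [show 5 + l = l + 4 + 1 by omega]
    have h2 := (hle h).2 0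
    rw [← mul_assoc, ← pow_add, e1, ← map_pow, D_mul, D_ta, ps_ta, D_X, dv5, map_zero, add_zero,
      act_C, Ideal.mem_span_range_iff_exists_fun] at h2
    obtain ⟨c, hc⟩ := h2
    exact mono_not (l + 4) c (by simpa using hc.symm)

lemma J9_ne : J9 ≠ ⊤ := fun h => by
  have : (1 : P9) ∈ KV 0 ⊥ := J_le 0 ⊥ (h ▸ Submodule.mem_top)
  simp [mem0] at this

end Pool.Agent.H50.Vreg
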