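import Mathlib
import Pool.Agent.H50.Vreg3

namespace Pool.Agent.H50.Vreg

open Finset MvPolynomial

section mid
variable {K P : Type} [CommRing K] [CommRing P] [Algebra K P] (𝒜 : ℤ → Submodule K P)
  [GradedRing 𝒜] {n : ℕ} {g : Fin n → P} {w : Fin n → ℕ} (hg : ∀ i, g i ∈ 𝒜 (w i))

include hg in
lemma mid {U : Ideal P} (hU : U.IsHomogeneous 𝒜) {x : P} {t : ℤ} (hx : x ∈ 𝒜 t) {p : ℕ} {d : ℤ}
    (h1 : VM 𝒜 g w ⊤ (U.colon {x}) p (d - t)) (h2 : VM 𝒜 g w ⊤ (U ⊔ Ideal.span {x}) p d) :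
    VM 𝒜 g w ⊤ U p d := by
  intro m a _ ha0 had hc
  obtain ⟨l, b, -, hb0, hbU⟩ := h2 m a (fun _ => trivial) ha0 had
    fun τ => Submodule.mem_sup_left (hc τ)
  set b1 : Finset (Fin n) → P :=
    fun σ => GradedRing.proj 𝒜 (d + ((m + l : ℕ) : ℤ) * ws w σ) (b σ) with hb1
  have hch : ∀ σ, ∃ c ∈ 𝒜 (d - t + ((m + l : ℕ) : ℤ) * ws w σ), (σ.card ≠ p → c = 0) ∧
      kd g (m + l) b1 σ - (∏ i ∈ σ, g i) ^ l * a σ - x * c ∈ U := fun σ => by
    by_cases hp : σ.card = p
    · obtain ⟨u, hu, y, hy, e⟩ := Submodule.mem_sup.1 (hbU σ)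
      obtain ⟨c, rfl⟩ := Ideal.mem_span_singleton'.1 hy
      refine ⟨_, pr_mem 𝒜 _ c, fun h => absurd hp h, ?_⟩
      have hd : (∏ i ∈ σ, g i) ^ l * a σ ∈ 𝒜 (d + ((m + l : ℕ) : ℤ) * ws w σ) :=
        mul_deg 𝒜 (gp_deg 𝒜 hg σ _) (had σ) (by push_cast; ring)
      have e2 : u = kd g (m + l) b σ - (∏ i ∈ σ, g i) ^ l * a σ - x * c := by
        rw [← e]; ring
      have := pr_ideal 𝒜 hU (d + ((m + l : ℕ) : ℤ) * ws w σ) hu
      rwa [e2, map_sub, map_sub, pr_kd 𝒜 hg, pr_self 𝒜 hd,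
        pr_mul 𝒜 hx (d := d - t + ((m + l : ℕ) : ℤ) * ws w σ) _ (by ring)] at this
    · refine ⟨0, zero_mem _, fun _ => rfl, ?_⟩
      have e3 : kd g (m + l) b1 σ = 0 := by
        refine sum_eq_zero fun i hi => ?_
        have : b (σ.erase i) = 0 := hb0 _ (by rw [card_erase_add_one hi]; exact hp)
        simp [hb1, this]
      rw [e3, ha0 σ hp]; simp
  choose c hcd hc0 hcU using hch
  obtain ⟨l', e, -, he0, heU⟩ := h1 (m + l) c (fun _ => trivial) hc0 hcd fun τ => by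
    have k1 := kd_mem g U (m + l) hcU τ
    have k2 : kd g (m + l) (fun σ => kd g (m + l) b1 σ - (∏ i ∈ σ, g i) ^ l * a σ - x * c σ) τ =
        kd g (m + l) (kd g (m + l) b1) τ -
        kd g (m + l) (fun σ => (∏ i ∈ σ, g i) ^ l * a σ) τ - x * kd g (m + l) c τ := by
      simp only [kd_def g (m + l) _ τ, mul_sum, ← sum_sub_distrib]
      exact sum_congr rfl fun i _ => by ring
    rw [k2, kd_kd, kd_up] at k1
    have := U.neg_mem (U.add_mem k1 (U.mul_mem_left ((∏ i ∈ τ, g i) ^ l) (hc τ)))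
    rw [Submodule.mem_colon_singleton, smul_eq_mul]
    convert this using 1; ring
  refine ⟨l + l', fun σ => 1 * ((∏ i ∈ σ, g i) ^ l' * b1 σ) + (-x) * e σ, fun _ => trivial,
    fun σ h => by simp [hb1, hb0 σ h, he0 σ h], fun σ => ?_⟩
  rw [← add_assoc, kd_lin, kd_up]
  have k3 := heU σ
  rw [Submodule.mem_colon_singleton, smul_eq_mul] at k3
  have := U.sub_mem (U.mul_mem_left ((∏ i ∈ σ, g i) ^ l') (hcU σ)) k3
  convert this using 1; ring
end mid

section mon
variable (K : Type) [Field K] {n : ℕ}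

/-- The forms of degree `d` in `K[x_1, ..., x_n]`. -/
noncomputable def AK (n : ℕ) (d : ℤ) : Submodule K (MvPolynomial (Fin n) K) :=
  weightedHomogeneousSubmodule K (fun _ => (1 : ℤ)) d

/-- The regularity of `S / J`, `S = K[x_1, ..., x_n]` standard graded. -/
noncomputable def regQ (J : Ideal (MvPolynomial (Fin n) K)) : EReal :=
  reg (Hq (AK K n) J) (fun i => Ideal.Quotient.mk J (X i)) (fun _ => 1) ⊤

noncomputable instance : GradedRing (AK K n) := weightedGradedAlgebra K (fun _ => (1 : ℤ))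

lemma XK (i : Fin n) : X i ∈ AK K n ((fun _ => 1 : Fin n → ℕ) i) :=
  isWeightedHomogeneous_X K (fun _ => (1 : ℤ)) i

noncomputable def M (N : Finset (Fin n) → Prop) : Ideal (MvPolynomial (Fin n) K) :=
  Ideal.span {f | ∃ S, N S ∧ f = ∏ i ∈ S, X i}

def Up (N : Finset (Fin n) → Prop) : Prop := ∀ S T, S ⊆ T → N S → N T

lemma M_hom (N : Finset (Fin n) → Prop) : (M K N).IsHomogeneous (AK K n) := by
  refine Ideal.homogeneous_span _ _ ?_
  rintro _ ⟨S, -, rfl⟩
  exact ⟨_, SetLike.prod_mem_graded (AK K n) _ _ fun i _ => XK K i⟩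

variable {K}
lemma memM {N : Finset (Fin n) → Prop} (hN : Up N) {f : MvPolynomial (Fin n) K} :
    f ∈ M K N ↔ ∀ m ∈ f.support, N m.support := by
  have e : {f : MvPolynomial (Fin n) K | ∃ S, N S ∧ f = ∏ i ∈ S, X i} =
      (fun s => monomial s (1 : K)) '' {s | ∃ S, N S ∧ s = ∑ i ∈ S, Finsupp.single i 1} := by
    ext f
    constructor
    · rintro ⟨S, h, rfl⟩
      exact ⟨_, ⟨S, h, rfl⟩, by simp [monomial_sum_one, X]⟩
    · rintro ⟨_, ⟨S, h, rfl⟩, rfl⟩
      exact ⟨S, h, by simp [monomial_sum_one, X]⟩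
  have e2 : ∀ (S : Finset (Fin n)) (m : Fin n →₀ ℕ),
      ∑ i ∈ S, Finsupp.single i 1 ≤ m ↔ S ⊆ m.support := fun S m => by
    simp only [Finsupp.le_def, Finsupp.finsetSum_apply, Finsupp.single_apply, sum_ite_eq',
      subset_iff, Finsupp.mem_support_iff]
    refine forall_congr' fun i => ?_
    split_ifs with h <;> simp [h, Nat.one_le_iff_ne_zero]
  rw [M, e, mem_ideal_span_monomial_image]
  refine forall₂_congr fun m _ => ⟨?_, fun h => ⟨_, ⟨_, h, rfl⟩, (e2 _ _).2 subset_rfl⟩⟩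
  rintro ⟨_, ⟨S, h, rfl⟩, h2⟩
  exact hN _ _ ((e2 _ _).1 h2) h

lemma M_colon {N N' : Finset (Fin n) → Prop} (hN : Up N) (x : Fin n)
    (h : ∀ S, N' S ↔ N (insert x S)) : (M K N).colon {X x} = M K N' := by
  have hN' : Up N' := fun S T h1 h2 => (h T).2 (hN _ _ (insert_subset_insert x h1) ((h S).1 h2))
  ext r
  rw [Submodule.mem_colon_singleton, smul_eq_mul, memM hN, memM hN', support_mul_X,
    forall_mem_map]
  refine forall₂_congr fun m _ => ?_
  have : (m + Finsupp.single x 1).support = insert x m.support := by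
    ext i
    by_cases hi : x = i
    · simp [hi]
    · simp [Finsupp.single_apply, hi, Ne.symm hi]
  rw [h, ← this]; rfl

lemma M_sup {N N' : Finset (Fin n) → Prop} (x : Fin n) (h : ∀ S, N' S ↔ x ∈ S ∨ N S) :
    M K N ⊔ Ideal.span {X x} = M K N' := by
  refine le_antisymm (sup_le (Ideal.span_mono ?_) (Ideal.span_mono ?_)) (Ideal.span_le.2 ?_)
  · rintro _ ⟨S, h1, rfl⟩; exact ⟨S, (h S).2 (Or.inr h1), rfl⟩
  · rintro _ rfl; exact ⟨{x}, (h _).2 (Or.inl (mem_singleton_self x)), by simp⟩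
  · rintro _ ⟨S, h1, rfl⟩
    rcases (h S).1 h1 with h2 | h2
    · exact Submodule.mem_sup_right (Ideal.mem_span_singleton.2 (dvd_prod_of_mem _ h2))
    · exact Submodule.mem_sup_left (Ideal.subset_span ⟨S, h2, rfl⟩)

variable (K)
def RL (N : Finset (Fin n) → Prop) (r : ℤ) : Prop :=
  ∀ (p : ℕ) (d : ℤ), r < d + p → VM (AK K n) X (fun _ => 1) ⊤ (M K N) p d

lemma RL_split {N N1 N2 : Finset (Fin n) → Prop} (hN : Up N) (x : Fin n) {r : ℤ}
    (e1 : ∀ S, N1 S ↔ N (insert x S)) (e2 : ∀ S, N2 S ↔ x ∈ S ∨ N S) (h1 : RL K N1 (r - 1))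
    (h2 : RL K N2 r) : RL K N r := fun p d h =>
  mid _ (XK K) (M_hom K N) (XK K x) (by rw [M_colon hN x e1]; exact h1 p _ (by simp; omega))
    (by rw [M_sup x e2]; exact h2 p d h)

lemma RL_unit {N : Finset (Fin n) → Prop} (h : N ∅) (r : ℤ) : RL K N r := by
  have e : M K N = ⊤ := (Ideal.eq_top_iff_one _).2 (Ideal.subset_span ⟨∅, h, by simp⟩)
  intro p d _ m a _ _ _ _
  exact ⟨0, fun _ => 0, fun _ => trivial, fun _ _ => rfl, fun _ => by rw [e]; trivial⟩

lemma RL_vars (C : Finset (Fin n)) : ∀ N : Finset (Fin n) → Prop, (∀ S, N S ↔ ∃ u ∈ S, u ∉ C) →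
    ∀ r, 0 ≤ r → RL K N r := by
  have hw : ∀ i : Fin n, 0 < (fun _ => 1 : Fin n → ℕ) i := fun _ => one_pos
  have up : ∀ (C : Finset (Fin n)) (N : Finset (Fin n) → Prop), (∀ S, N S ↔ ∃ u ∈ S, u ∉ C) →
      Up N := fun C N h S T h1 h2 => by
    obtain ⟨u, hu, h3⟩ := (h S).1 h2
    exact (h T).2 ⟨u, h1 hu, h3⟩
  induction C using Finset.induction_on with
  | empty =>
    intro N h r hr p d hd
    refine base _ (XK K) hw (e0 := r + 1) (fun e he f _ hf => (memM (up _ N h)).2 fun m hm => ?_)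
      fun _ => by omega
    have h1 : Finsupp.weight (fun _ => (1 : ℤ)) m = e := hf (mem_support_iff.1 hm)
    obtain ⟨u, hu⟩ : m.support.Nonempty := by
      rw [Finsupp.support_nonempty_iff]; rintro rfl; simp at h1; omega
    exact (h _).2 ⟨u, hu, notMem_empty u⟩
  | insert j C hj ih =>
    intro N h r hr p d hd
    have e2 : ∀ S : Finset (Fin n), (∃ u ∈ S, u ∉ C) ↔ j ∈ S ∨ N S := fun S => by
      rw [h]
      constructor
      · rintro ⟨u, h1, h2⟩
        by_cases hu : u = j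
        · exact Or.inl (hu ▸ h1)
        · exact Or.inr ⟨u, h1, by simp [hu, h2]⟩
      · rintro (h1 | ⟨u, h1, h2⟩)
        · exact ⟨j, h1, hj⟩
        · exact ⟨u, h1, fun h3 => h2 (mem_insert_of_mem h3)⟩
    have e1 : ∀ S, N S ↔ N (insert j S) := fun S => by simp [h]
    refine chain _ (XK K) hw (Ideal.IsHomogeneous.top _) (M_hom K N) j
      (U' := M K N ⊔ Ideal.span {X j}) le_sup_left (fun b _ => Submodule.mem_sup_right
        (Ideal.mul_mem_right _ _ (Ideal.mem_span_singleton_self _))) (fun f hf => ?_) (e0 := d)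
      (fun e _ f _ _ hf => ?_) (fun _ => le_rfl) fun q hq e he => ?_
    · obtain ⟨u, hu, y, hy, rfl⟩ := Submodule.mem_sup.1 hf
      obtain ⟨c, rfl⟩ := Ideal.mem_span_singleton'.1 hy
      exact ⟨c, trivial, by convert hu using 1; ring⟩
    · rw [← M_colon (up _ N h) j e1, Submodule.mem_colon_singleton, smul_eq_mul, mul_comm]
      exact hf
    · rw [M_sup j e2]
      exact ih _ (fun _ => Iff.rfl) r hr q e (by simp at he; omega)

lemma regQ_le {N : Finset (Fin n) → Prop} {r : ℤ} (h : RL K N r) : regQ K (M K N) ≤ (r : ℝ) := by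
  refine iSup_le fun p => iSup_le fun d => iSup_le fun h1 => ?_
  have : d + p ≤ r := not_lt.1 fun h' => h1 (by
    have := vanish_of (AK K n) (g := X) (w := fun _ => 1) (J := M K N) (x := 1) 0 (p := p) (d := d)
      (by simpa [UU] using h p d h')
    simpa using this)
  exact_mod_cast this

/-- The state of the query game: the vertices in `O` were inverted, those in `U` were killed. -/
def NS (B : Finset (Fin n) → Prop) (O U S : Finset (Fin n)) : Prop := (∃ u ∈ U, u ∈ S) ∨ B (S ∪ O)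

lemma query {B : Finset (Fin n) → Prop} (hB : Up B) (Q : Finset (Fin n)) :
    ∀ (O U : Finset (Fin n)) (r : ℤ), Disjoint Q U →
      (∀ O' ⊆ Q, RL K (NS B (O ∪ O') (U ∪ (Q \ O'))) (r - O'.card)) → RL K (NS B O U) r := by
  induction Q using Finset.induction_on with
  | empty => intro O U r _ h; simpa using h ∅ subset_rfl
  | insert x Q hx ih =>
    intro O U r hd h
    rw [disjoint_insert_left] at hd
    refine RL_split K (fun S T h1 h2 => h2.imp (fun ⟨u, a, b⟩ => ⟨u, a, h1 b⟩)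
      (hB _ _ (union_subset_union_left h1))) x (N1 := NS B (insert x O) U)
      (N2 := NS B O (insert x U)) (fun S => ?_) (fun S => ?_)
      (ih _ _ _ hd.2 fun O' hO => ?_) (ih _ _ _ (by simp [hd.2, hx]) fun O' hO => ?_)
    · unfold NS
      rw [insert_union, union_insert]
      refine or_congr_left ⟨fun ⟨u, a, b⟩ => ⟨u, a, mem_insert_of_mem b⟩, fun ⟨u, a, b⟩ => ⟨u, a, ?_⟩⟩
      exact (mem_insert.1 b).resolve_left fun e => hd.1 (e ▸ a)
    · simp [NS, or_assoc]
    · have hxO : x ∉ O' := fun h => hx (hO h)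
      have := h (insert x O') (insert_subset_insert x hO)
      rw [card_insert_of_notMem hxO, union_insert, ← insert_union, insert_sdiff_insert,
        sdiff_insert_of_notMem hx] at this
      convert this using 1; push_cast; ring
    · have hxO : x ∉ O' := fun h => hx (hO h)
      have := h O' (hO.trans (subset_insert x Q))
      rwa [insert_sdiff_of_notMem _ hxO, union_insert, ← insert_union] at this

lemma NS_unit {B : Finset (Fin n) → Prop} {O : Finset (Fin n)} (h : B O) (U : Finset (Fin n))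
    (r : ℤ) : RL K (NS B O U) r := RL_unit K (Or.inr (by simpa using h)) r

lemma NS_done {B : Finset (Fin n) → Prop} {O U : Finset (Fin n)} (hd : Disjoint O U)
    (h : ∀ F, B F → ∃ u ∈ U, u ∈ F) {r : ℤ} (hr : 0 ≤ r) : RL K (NS B O U) r := by
  refine RL_vars K Uᶜ _ (fun S => ⟨?_, fun ⟨u, a, b⟩ => Or.inl ⟨u, by simpa using b, a⟩⟩) r hr
  rintro (⟨u, a, b⟩ | h1)
  · exact ⟨u, b, by simpa using a⟩
  · obtain ⟨u, a, b⟩ := h _ h1
    exact ⟨u, (mem_union.1 b).resolve_right fun c => disjoint_left.1 hd c a, by simpa using a⟩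
end mon

end Pool.Agent.H50.Vreg
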