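import Mathlib
import Pool.Agent.H50.SeshAlg

set_option linter.unusedSimpArgs false

namespace Pool.Agent.H50.WaringNew

open MvPolynomial

theorem core (a b c α1 α2 α3 β1 β2 β3 : ℂ)
    (h : ∀ x y z : ℂ, -3 * x * y * z + (a * x + b * y + c * z) * (x * y + y * z + z * x) =
      (α1 * x + α2 * y + α3 * z) ^ 3 + (β1 * x + β2 * y + β3 * z) ^ 3) : False := by
  have bin : ∀ e p q r s : ℂ, e ≠ 0 →
      (∀ x z : ℂ, e * z ^ 2 * x = (p * x + q * z) ^ 3 + (r * x + s * z) ^ 3) → False := by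
    intro e p q r s he H
    have e1 : p ^ 3 + r ^ 3 = 0 := by linear_combination -H 1 0
    have e4 : q ^ 3 + s ^ 3 = 0 := by linear_combination -H 0 1
    have e2 : p ^ 2 * q + r ^ 2 * s = 0 := by
      linear_combination (-1 / 6 : ℂ) * H 1 1 + (1 / 6 : ℂ) * H 1 (-1) - (1 / 3 : ℂ) * e4
    have e3 : 3 * (p * q ^ 2 + r * s ^ 2) = e := by
      linear_combination (-1 / 2 : ℂ) * H 1 1 - (1 / 2 : ℂ) * H 1 (-1) - e1
    by_cases hD : p * s - q * r = 0
    · have hq : q * e = 0 := by linear_combination -q * e3 + 3 * p * e4 - 3 * s ^ 2 * hD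
      have hs : s * e = 0 := by linear_combination -s * e3 + 3 * r * e4 + 3 * q ^ 2 * hD
      have hq' := (mul_eq_zero.mp hq).resolve_right he
      have hs' := (mul_eq_zero.mp hs).resolve_right he
      apply he
      rw [← e3, hq', hs']; ring
    · have hp : (p * s - q * r) * p ^ 2 = 0 := by linear_combination s * e1 - r * e2
      have hr : (p * s - q * r) * r ^ 2 = 0 := by linear_combination p * e2 - q * e1
      have hp' := pow_eq_zero_iff (two_ne_zero) |>.mp ((mul_eq_zero.mp hp).resolve_left hD)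
      have hr' := pow_eq_zero_iff (two_ne_zero) |>.mp ((mul_eq_zero.mp hr).resolve_left hD)
      apply hD
      rw [hp', hr']; ring
  by_cases ha : a = 0
  · by_cases hb : b = 0
    · by_cases hc : c = 0
      · refine bin (-3) (α1) (α2 + α3) (β1) (β2 + β3) (by norm_num) fun x z => ?_
        have := h x z z
        rw [ha, hb, hc] at this
        linear_combination this
      · refine bin c α1 α3 β1 β3 hc fun x z => ?_
        have := h x 0 z
        rw [ha, hb] at this
        linear_combination this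
    · refine bin b α1 α2 β1 β2 hb fun x z => ?_
      have := h x z 0
      rw [ha] at this
      linear_combination this
  · by_cases hb : b = 0
    · refine bin a α2 α1 β2 β1 ha fun x z => ?_
      have := h z x 0
      rw [hb] at this
      linear_combination this
    · by_cases hc : c = 0
      · refine bin a α3 α1 β3 β1 ha fun x z => ?_
        have := h z 0 x
        rw [hc] at this
        linear_combination this
      · -- catalecticant minor
        have xxx : α1 ^ 3 + β1 ^ 3 = 0 := by linear_combination -h 1 0 0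
        have yyy : α2 ^ 3 + β2 ^ 3 = 0 := by linear_combination -h 0 1 0
        have zzz : α3 ^ 3 + β3 ^ 3 = 0 := by linear_combination -h 0 0 1
        have xxy : 3 * (α1 ^ 2 * α2 + β1 ^ 2 * β2) = a := by
          linear_combination (-1 / 2 : ℂ) * h 1 1 0 + (1 / 2 : ℂ) * h 1 (-1) 0 - yyy
        have xyy : 3 * (α1 * α2 ^ 2 + β1 * β2 ^ 2) = b := by
          linear_combination (-1 / 2 : ℂ) * h 1 1 0 - (1 / 2 : ℂ) * h 1 (-1) 0 - xxx
        have xxz : 3 * (α1 ^ 2 * α3 + β1 ^ 2 * β3) = a := by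
          linear_combination (-1 / 2 : ℂ) * h 1 0 1 + (1 / 2 : ℂ) * h 1 0 (-1) - zzz
        have xzz : 3 * (α1 * α3 ^ 2 + β1 * β3 ^ 2) = c := by
          linear_combination (-1 / 2 : ℂ) * h 1 0 1 - (1 / 2 : ℂ) * h 1 0 (-1) - xxx
        have yyz : 3 * (α2 ^ 2 * α3 + β2 ^ 2 * β3) = b := by
          linear_combination (-1 / 2 : ℂ) * h 0 1 1 + (1 / 2 : ℂ) * h 0 1 (-1) - zzz
        have yzz : 3 * (α2 * α3 ^ 2 + β2 * β3 ^ 2) = c := by
          linear_combination (-1 / 2 : ℂ) * h 0 1 1 - (1 / 2 : ℂ) * h 0 1 (-1) - yyy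
        have det : ∀ A11 A12 A13 A21 A22 A23 A31 A32 A33 : ℂ,
            A11 = 3 * (α1 ^ 2 * α1 + β1 ^ 2 * β1) → A12 = 3 * (α1 ^ 2 * α2 + β1 ^ 2 * β2) →
            A13 = 3 * (α1 ^ 2 * α3 + β1 ^ 2 * β3) → A21 = 3 * (α2 ^ 2 * α1 + β2 ^ 2 * β1) →
            A22 = 3 * (α2 ^ 2 * α2 + β2 ^ 2 * β2) → A23 = 3 * (α2 ^ 2 * α3 + β2 ^ 2 * β3) →
            A31 = 3 * (α3 ^ 2 * α1 + β3 ^ 2 * β1) → A32 = 3 * (α3 ^ 2 * α2 + β3 ^ 2 * β2) →
            A33 = 3 * (α3 ^ 2 * α3 + β3 ^ 2 * β3) →
            A11 * (A22 * A33 - A23 * A32) - A12 * (A21 * A33 - A23 * A31) +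
              A13 * (A21 * A32 - A22 * A31) = 0 := by
          intro _ _ _ _ _ _ _ _ _ h1 h2 h3 h4 h5 h6 h7 h8 h9
          rw [h1, h2, h3, h4, h5, h6, h7, h8, h9]; ring
        have := det 0 a a b 0 b c c 0 (by linear_combination -3 * xxx) xxy.symm xxz.symm
          (by linear_combination -xyy) (by linear_combination -3 * yyy) yyz.symm
          (by linear_combination -xzz) (by linear_combination -yzz) (by linear_combination -3 * zzz)
        have h2 : 2 * (a * (b * c)) = 0 := by linear_combination this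
        simp [ha, hb, hc] at h2

noncomputable def f : MvPolynomial (Fin 3) ℂ := (X 0 + X 1 + X 2) ^ 3 - X 0 ^ 3 - X 1 ^ 3 - X 2 ^ 3
noncomputable def g : MvPolynomial (Fin 3) ℂ := C 6 * (X 0 * X 1 + X 1 * X 2 + X 2 * X 0)

theorem f_hom : f.IsHomogeneous 3 := by
  have h := fun i : Fin 3 => isHomogeneous_X ℂ i
  exact (((((h 0).add (h 1)).add (h 2)).pow 3).sub ((h 0).pow 3)).sub ((h 1).pow 3) |>.sub
    ((h 2).pow 3)

theorem g_hom : g.IsHomogeneous 2 := by
  have h := fun i : Fin 3 => isHomogeneous_X ℂ i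
  exact ((((h 0).mul (h 1)).add ((h 1).mul (h 2))).add ((h 2).mul (h 0))).C_mul 6

theorem f_ne : f ≠ 0 := by
  intro h
  have := congrArg (eval fun _ => (1 : ℂ)) h
  simp [f] at this
  norm_num at this

theorem g_ne : g ≠ 0 := by
  intro h
  have := congrArg (eval fun _ => (1 : ℂ)) h
  simp [g] at this
  norm_num at this

theorem lower (v : MvPolynomial (Fin 3) ℂ) (hv : v.IsHomogeneous 1) (w : ℕ)
    (l : Fin w → MvPolynomial (Fin 3) ℂ) (hl : ∀ i, (l i).IsHomogeneous 1)
    (h : f + v * g = ∑ i, l i ^ 3) : 3 ≤ w := by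
  by_contra hw
  obtain ⟨l1, l2, h1, h2, e⟩ : ∃ l1 l2 : MvPolynomial (Fin 3) ℂ, l1.IsHomogeneous 1 ∧
      l2.IsHomogeneous 1 ∧ f + v * g = l1 ^ 3 + l2 ^ 3 := by
    have : w = 0 ∨ w = 1 ∨ w = 2 := by omega
    rcases this with rfl | rfl | rfl
    · exact ⟨0, 0, isHomogeneous_zero _ _ _, isHomogeneous_zero _ _ _, by simpa using h⟩
    · exact ⟨l 0, 0, hl 0, isHomogeneous_zero _ _ _, by simpa using h⟩
    · exact ⟨l 0, l 1, hl 0, hl 1, by simpa using h⟩
  obtain ⟨a, b, c, hv'⟩ := SeshAlg.hom1 hv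
  obtain ⟨α1, α2, α3, hα⟩ := SeshAlg.hom1 h1
  obtain ⟨β1, β2, β3, hβ⟩ := SeshAlg.hom1 h2
  refine core (3 + 6 * a) (3 + 6 * b) (3 + 6 * c) α1 α2 α3 β1 β2 β3 fun x y z => ?_
  have := congrArg (eval ![x, y, z]) e
  simp only [map_add, map_mul, map_pow, hv', hα, hβ] at this
  simp [f, g] at this
  linear_combination this

theorem upper : ∃ l : Fin 5 → MvPolynomial (Option (Fin 3)) ℂ, (∀ i, (l i).IsHomogeneous 1) ∧
    rename some f + X none * rename some g = ∑ i, l i ^ 3 := by
  obtain ⟨r, hr⟩ := IsAlgClosed.exists_pow_nat_eq (2 : ℂ) (show 0 < 3 by norm_num)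
  have h := fun i : Option (Fin 3) => isHomogeneous_X ℂ i
  refine ⟨![C r * X none, -(X none + X (some 0)), -(X none + X (some 1)), -(X none + X (some 2)),
    X none + X (some 0) + X (some 1) + X (some 2)], ?_, ?_⟩
  · intro i
    fin_cases i
    · exact (h none).C_mul r
    · exact ((h _).add (h _)).neg
    · exact ((h _).add (h _)).neg
    · exact ((h _).add (h _)).neg
    · exact (((h _).add (h _)).add (h _)).add (h _)
  · have h2 : (C r : MvPolynomial (Option (Fin 3)) ℂ) ^ 3 = 2 := by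
      rw [← map_pow, hr]; rfl
    have h6 : (C 6 : MvPolynomial (Option (Fin 3)) ℂ) = 6 := rfl
    simp only [f, g, Fin.sum_univ_five, map_sub, map_add, map_pow, map_mul, rename_X, rename_C, h6]
    simp
    linear_combination (-(X none) ^ 3 : MvPolynomial (Option (Fin 3)) ℂ) * h2

end Pool.Agent.H50.WaringNew
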